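import Pool.Agent.Lib.MP_1a91b9_ntQ.D.Glue4
import Pool.Agent.Lib.MP_1a91b9_ntQ.D.Cl4B

/-!
# MP_1a91b9_nt (fourth-power-free twists), part D: the classes of the primes outside a finite set

`GB m B`: the classes modulo `lam ^ (m + 5)` and the quartic symbols at the primes of `B`. `h3B`: the
nontrivial characters have mean value zero on the squarefree elements prime to `B`. `DSB m B g κ₀ Q`:
the sets of primes outside `B` with the property `Q` have lower density at least `κ₀` in the class `g`.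
-/

set_option autoImplicit false
set_option linter.unusedSectionVars false

namespace Pool.Agent.Lib.MP_1a91b9_ntQ

open NumberField Finset
open Pool.Agent.Lib.MP_1a91b9_ntH (PS nm Sx mem_Sx)

noncomputable section

/-- The classes: modulo `lam ^ (m + 5)`, and the quartic symbols at the primes of `B`. -/
abbrev GB (m : ℕ) (B : Finset Pg) : Type := G4n m × (B → ZMod 4)

/-- The class of a prime outside `B`. -/
def clB (m : ℕ) (B : Finset Pg) (q : Pg) : GB m B := (clq m q, fun b => c4 b.1 q.1)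

/-- The class of a primary element prime to `B`. -/
def gclB (m : ℕ) (B : Finset Pg) (x : 𝓞 K4) (hx : In4 x) : GB m B :=
  (gcl m x hx, fun b => c4 b.1 x)

theorem gcl_mul (m : ℕ) {x y : 𝓞 K4} (hx : In4 x) (hy : In4 y) :
    gcl m (x * y) (hx.mul hy) = gcl m x hx + gcl m y hy :=
  QSys.gq_mul (D := sys4) (sys4_mod (n := m + 5) (by omega)) hx hy

theorem gcl_one (m : ℕ) : gcl m 1 in4_one = 0 :=
  QSys.gq_one (D := sys4) (sys4_mod (n := m + 5) (by omega))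

theorem gclB_mul (m : ℕ) {B : Finset Pg} {x y : 𝓞 K4} (hx : In4 x) (hy : In4 y)
    (hxB : ∀ b ∈ B, ¬ b.1 ∣ x) (hyB : ∀ b ∈ B, ¬ b.1 ∣ y) :
    gclB m B (x * y) (hx.mul hy) = gclB m B x hx + gclB m B y hy := by
  unfold gclB
  rw [gcl_mul m hx hy, Prod.mk_add_mk]
  congr 1
  funext b
  exact c4_mul b.1 (hxB b.1 b.2) (hyB b.1 b.2)

theorem gclB_one (m : ℕ) (B : Finset Pg) : gclB m B 1 in4_one = 0 := by
  unfold gclB
  rw [gcl_one]
  refine Prod.ext rfl ?_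
  funext b
  exact c4_one b.1

theorem gclB_congr (m : ℕ) {B : Finset Pg} {x y : 𝓞 K4} (hx : In4 x) (hy : In4 y)
    (hxB : ∀ b ∈ B, ¬ b.1 ∣ x) (h : lam ^ (m + 5) ∣ x - y) (hB : ∀ b ∈ B, b.1 ∣ x - y) :
    gclB m B x hx = gclB m B y hy := by
  unfold gclB
  rw [(gcl_eq_iff m hx hy).2 h]
  congr 1
  funext b
  exact c4_congr b.1 (hxB b.1 b.2) (hB b.1 b.2)

theorem not_dvd_DDq {B S : Finset Pg} (h : Disjoint S B) (b : Pg) (hb : b ∈ B) :
    ¬ b.1 ∣ DDq S := fun hd => disjoint_right.1 h hb (dvd_DDq.1 hd)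

/-- The class of a product of primes outside `B`. -/
theorem gclB_DDq (m : ℕ) {B S : Finset Pg} (h : Disjoint S B) :
    ∑ q ∈ S, clB m B q = gclB m B (DDq S) (DDq_in4 S) := by
  unfold clB gclB
  rw [gcl_DDq]
  refine Prod.ext ?_ ?_
  · rw [Prod.fst_sum]
  · rw [Prod.snd_sum]
    funext b
    rw [Finset.sum_apply]
    exact (c4_DDq b.1 (disjoint_right.1 h b.2)).symm

open Classical in
/-- The character of the classes as a function of the elements. -/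
def FclB (m : ℕ) (B : Finset Pg) (ψ : AddChar (GB m B) ℂ) (x : 𝓞 K4) : ℂ :=
  if h : In4 x ∧ ∀ b ∈ B, ¬ b.1 ∣ x then ψ (gclB m B x h.1) else 0

theorem FclB_of {m : ℕ} {B : Finset Pg} {ψ : AddChar (GB m B) ℂ} {x : 𝓞 K4}
    (h : In4 x) (hB : ∀ b ∈ B, ¬ b.1 ∣ x) : FclB m B ψ x = ψ (gclB m B x h) := by
  unfold FclB
  rw [dif_pos ⟨h, hB⟩]

theorem FclB_of_not {m : ℕ} {B : Finset Pg} {ψ : AddChar (GB m B) ℂ} {x : 𝓞 K4}
    (h : ¬ (In4 x ∧ ∀ b ∈ B, ¬ b.1 ∣ x)) : FclB m B ψ x = 0 := by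
  unfold FclB
  rw [dif_neg h]

theorem FclB_mul {m : ℕ} {B : Finset Pg} {ψ : AddChar (GB m B) ℂ} {u : 𝓞 K4}
    (hu : In4 u) (hB : ∀ b ∈ B, ¬ b.1 ∣ u) (x : 𝓞 K4) :
    FclB m B ψ (u * x) = ψ (gclB m B u hu) * FclB m B ψ x := by
  by_cases h : In4 x ∧ ∀ b ∈ B, ¬ b.1 ∣ x
  · have h1 : ∀ b ∈ B, ¬ b.1 ∣ u * x := fun b hb hd =>
      (b.prime.dvd_or_dvd hd).elim (hB b hb) (h.2 b hb)
    rw [FclB_of h.1 h.2, FclB_of (hu.mul h.1) h1, gclB_mul m hu h.1 hB h.2, AddChar.map_add_eq_mul]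
  · rw [FclB_of_not h, mul_zero, FclB_of_not]
    rintro ⟨h1, h2⟩
    exact h ⟨In4.of_mul hu h1, fun b hb hd => h2 b hb (Dvd.dvd.mul_left hd u)⟩

theorem FclB_le (m : ℕ) (B : Finset Pg) (ψ : AddChar (GB m B) ℂ) (x : 𝓞 K4) :
    ‖FclB m B ψ x‖ ≤ 1 := by
  by_cases h : In4 x ∧ ∀ b ∈ B, ¬ b.1 ∣ x
  · rw [FclB_of h.1 h.2, AddChar.norm_apply]
  · rw [FclB_of_not h, norm_zero]
    exact zero_le_one

theorem FclB_mulG (m : ℕ) (B : Finset Pg) (ψ : AddChar (GB m B) ℂ) : MulG prm4 (FclB m B ψ) where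
  one := by
    rw [FclB_of in4_one fun b _ hd => b.prime.not_isUnit (isUnit_of_dvd_one hd), gclB_one,
      AddChar.map_zero_eq_one]
  mul q y _ := by
    show FclB m B ψ (q.1 * y) = FclB m B ψ q.1 * FclB m B ψ y
    by_cases hq : q ∈ B
    · rw [FclB_of_not fun h => h.2 q hq (dvd_mul_right _ _),
        FclB_of_not fun h => h.2 q hq (dvd_refl _), zero_mul]
    · have h1 : ∀ b ∈ B, ¬ b.1 ∣ q.1 := fun b hb hd =>
      Pg.not_dvd (ne_of_mem_of_not_mem hb hq) hd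
      rw [FclB_mul q.in4 h1, FclB_of q.in4 h1]
  zero x hx := FclB_of_not fun h => hx h.1
  le := FclB_le m B ψ

theorem FclB_per (m : ℕ) (B : Finset Pg) (ψ : AddChar (GB m B) ℂ) (z w : 𝓞 K4) :
    FclB m B ψ (z + lam ^ (m + 5) * DDq B * w) = FclB m B ψ z := by
  have h3 : lam ^ 3 ∣ z + lam ^ (m + 5) * DDq B * w - z := by
    rw [add_sub_cancel_left, mul_assoc]
    exact Dvd.dvd.mul_right (pow_dvd_pow _ (by omega)) _
  have hB : ∀ b ∈ B, b.1 ∣ z + lam ^ (m + 5) * DDq B * w - z := by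
    intro b hb
    rw [add_sub_cancel_left]
    exact Dvd.dvd.mul_right (Dvd.dvd.mul_left (dvd_DDq.2 hb) _) _
  have hd : ∀ b ∈ B, (b.1 ∣ z + lam ^ (m + 5) * DDq B * w ↔ b.1 ∣ z) := by
    intro b hb
    exact (dvd_iff_dvd_of_dvd_sub (hB b hb))
  by_cases h : In4 z ∧ ∀ b ∈ B, ¬ b.1 ∣ z
  · have h1 : In4 (z + lam ^ (m + 5) * DDq B * w) := (in4_congr h3).2 h.1
    have h2 : ∀ b ∈ B, ¬ b.1 ∣ z + lam ^ (m + 5) * DDq B * w := fun b hb hx =>
      h.2 b hb ((hd b hb).1 hx)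
    rw [FclB_of h.1 h.2, FclB_of h1 h2]
    congr 1
    refine gclB_congr m h1 h.1 h2 ?_ hB
    rw [add_sub_cancel_left, mul_assoc]
    exact dvd_mul_right _ _
  · rw [FclB_of_not h, FclB_of_not]
    rintro ⟨h1, h2⟩
    exact h ⟨(in4_congr h3).1 h1, fun b hb hx => h2 b hb ((hd b hb).2 hx)⟩

/-- The value at a squarefree element. -/
theorem FclB_DDq (m : ℕ) (B : Finset Pg) (ψ : AddChar (GB m B) ℂ) (S : Finset Pg)
    [Decidable (Disjoint S B)] :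
    FclB m B ψ (DDq S) = if Disjoint S B then ∏ q ∈ S, ψ (clB m B q) else 0 := by
  split_ifs with h
  · rw [FclB_of (DDq_in4 S) (not_dvd_DDq h), ← gclB_DDq m h, Da.ch_sum]
  · rw [FclB_of_not]
    rintro ⟨_, h2⟩
    obtain ⟨q, hq1, hq2⟩ := not_disjoint_iff.1 h
    exact h2 q hq2 (dvd_DDq.2 hq1)

/-- **The nontrivial characters of the classes have mean value zero on the squarefree elements prime
to `B`.** -/
theorem h3B (m : ℕ) (B : Finset Pg) (ψ : AddChar (GB m B) ℂ)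
    (hψ : ∃ q : Pg, q ∉ B ∧ ψ (clB m B q) ≠ 1) (ε : ℝ) (hε : 0 < ε) :
    ∃ X₀ : ℕ, ∀ X : ℕ, X₀ ≤ X →
      ‖∑ S ∈ Sx Pg X, FclB m B ψ (DDq S)‖ ≤ ε * X := by
  obtain ⟨q, hq, hne⟩ := hψ
  have h1 : ∀ b ∈ B, ¬ b.1 ∣ q.1 := fun b hb hd =>
      Pg.not_dvd (ne_of_mem_of_not_mem hb hq) hd
  have hN : (lam : 𝓞 K4) ^ (m + 5) * DDq B ≠ 0 :=
    mul_ne_zero (lam_pow_ne _) (DDq_in4 B).ne_zero
  have hc : IsCoprime q.1 (lam ^ (m + 5) * DDq B) :=
    ((sys4_mod (n := m + 5) (by omega)).cop q.1 q.in4).mul_right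
      ((q.prime.irreducible.coprime_iff_not_dvd).2 fun h => hq (dvd_DDq.1 h))
  obtain ⟨a, b, hab⟩ := hc
  have h0 : ¬ prm4.P 0 := sys4_com.not_zero sys4_nu
  exact prm4.mean_zero h0 (FclB m B ψ) (FclB_mulG m B ψ)
    (B := 20 * Real.sqrt (nG ((lam : 𝓞 K4) ^ (m + 5) * DDq B))) (by positivity)
    (fun X hX => by
      have h2 := sum_discGC' (lam ^ (m + 5) * DDq B) hN (FclB m B ψ) (FclB_le m B ψ)
        (FclB_per m B ψ) q.1 a (-b) (by linear_combination hab) (ψ (clB m B q)) hne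
        (fun z => FclB_mul q.in4 h1 z) X hX
      rw [Real.sqrt_mul (Nat.cast_nonneg _)] at h2
      rw [mul_assoc]
      exact h2) ε hε

/-- The class system of the primes outside `B`. -/
def CclB (m : ℕ) (B : Finset Pg) : Cl2 (d4.off B) (GB m B) where
  cl q := clB m B q.1
  A := Sum.elim (fun j => (A4 m j).comp (AddMonoidHom.fst _ _))
    fun b => (md.toAddMonoidHom.comp (Pi.evalAddMonoidHom (fun _ : B => ZMod 4) b)).comp
      (AddMonoidHom.snd _ _)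
  ha := by
    rintro ⟨q, hq⟩ (j | b)
    · exact (A4_clq m j q).symm
    · have h : q ≠ b.1 := fun e => hq (e ▸ b.2)
      show s4 q b.1 = md (c4 b.1 q.1)
      rw [s4_symm h]
      rfl

theorem CclB_H3 (m : ℕ) (B : Finset Pg) : (CclB m B).H3 := by
  classical
  intro ψ hψ ε hε
  obtain ⟨q, hq⟩ := hψ
  obtain ⟨X0, h0⟩ := h3B m B ψ ⟨q.1, q.2, hq⟩ ε hε
  refine ⟨X0, fun X hX => ?_⟩
  have h1 := h0 X hX
  have h2 : ∑ S ∈ Sx (Off B) X, ∏ q ∈ S, ψ ((CclB m B).cl q) =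
      ∑ S ∈ Sx Pg X, FclB m B ψ (DDq S) := by
    have h3 := sum_Sx_off (ι := Pg) B X fun S => ∏ q ∈ S, ψ (clB m B q)
    have h4 : ∑ S ∈ Sx (Off B) X, ∏ q ∈ S, ψ ((CclB m B).cl q) =
        ∑ S ∈ Sx (Off B) X, ∏ q ∈ up S, ψ (clB m B q) :=
      sum_congr rfl fun S _ => (prod_up S fun q => ψ (clB m B q)).symm
    rw [h4, h3, sum_filter]
    refine sum_congr rfl fun S _ => ?_
    rw [FclB_DDq]
  rw [h2]
  exact h1

/-! ### Lower densities -/

open Classical in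
/-- `DSB m B g κ₀ Q`: the sets of primes outside `B` with the property `Q` have lower density at least
`κ₀` in the class `g`. -/
def DSB (m : ℕ) (B : Finset Pg) (g : GB m B) (κ₀ : ℝ) (Q : Finset Pg → Prop) : Prop :=
  ∀ ε : ℝ, 0 < ε → ∃ X₀ : ℕ, ∀ X : ℕ, X₀ ≤ X →
    κ₀ * (((Sx Pg X).filter fun S => Disjoint S B ∧ ∑ q ∈ S, clB m B q = g).card : ℝ) - ε * X ≤
      (((Sx Pg X).filter fun S => Disjoint S B ∧ ∑ q ∈ S, clB m B q = g ∧ Q S).card : ℝ)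

theorem DSB.mono {m : ℕ} {B : Finset Pg} {g : GB m B} {κ₀ : ℝ} {Q Q' : Finset Pg → Prop}
    (h : DSB m B g κ₀ Q)
    (hQ : ∀ S, Disjoint S B → ∑ q ∈ S, clB m B q = g → Q S → Q' S) : DSB m B g κ₀ Q' := by
  classical
  intro ε hε
  obtain ⟨X0, h0⟩ := h ε hε
  refine ⟨X0, fun X hX => (h0 X hX).trans ?_⟩
  rw [Nat.cast_le]
  refine card_le_card fun S hS => ?_
  rw [mem_filter] at hS ⊢
  exact ⟨hS.1, hS.2.1, hS.2.2.1, hQ S hS.2.1 hS.2.2.1 hS.2.2.2⟩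

open Classical in
theorem SB_filter (m : ℕ) (B : Finset Pg) (g : GB m B) (X : ℕ) :
    Da.SB B (clB m B) g X =
      (Sx Pg X).filter fun S => Disjoint S B ∧ ∑ q ∈ S, clB m B q = g := by
  ext S
  rw [Da.mem_SB, mem_filter]

theorem glueB {m : ℕ} {B : Finset Pg} {g : GB m B} {κ₀ : ℝ} {P : Finset Pg → Prop}
    [DecidablePred P]
    (h : ∀ ε : ℝ, 0 < ε → ∃ X₀ : ℕ, ∀ X : ℕ, X₀ ≤ X →
      κ₀ * ((Da.SB B (clB m B) g X).card : ℝ) - ε * X ≤
        ((Da.SB B (clB m B) g X).filter P).card)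
    {Q : Finset Pg → Prop}
    (hPQ : ∀ S, Disjoint S B → ∑ q ∈ S, clB m B q = g → P S → Q S) : DSB m B g κ₀ Q := by
  classical
  intro ε hε
  obtain ⟨X0, h0⟩ := h ε hε
  refine ⟨X0, fun X hX => ?_⟩
  have h1 := h0 X hX
  rw [SB_filter] at h1
  refine h1.trans ?_
  rw [Nat.cast_le]
  refine card_le_card fun S hS => ?_
  rw [mem_filter, mem_filter] at hS
  rw [mem_filter]
  exact ⟨hS.1.1, hS.1.2.1, hS.1.2.2, hPQ S hS.1.2.1 hS.1.2.2 hS.2⟩

end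

end Pool.Agent.Lib.MP_1a91b9_ntQ
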