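import Pool.Agent.Lib.MP_1a91b9_ntQ.B.DetGl

/-!
# Quartic twists, part B, file LsEw: the even classes, from the kernel to the value

The principal cofactor is a principal minor; `LQ_of_kerE` is the end of the classes II, III, J2c.
-/

set_option autoImplicit false
set_option linter.unusedSectionVars false

namespace Pool.Agent.Lib.MP_1a91b9_ntQ

open NumberField Finset

noncomputable section

/-- a principal cofactor is a principal minor -/
theorem pmG_adjE {ι : Type} [DecidableEq ι] (M : ι → ι → ZMod 2) {A : Finset ι} {r : ι}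
    (hr : r ∈ A) : (pmG M A).adjugate ⟨r, hr⟩ ⟨r, hr⟩ = pdt M (A.erase r) := by
  rw [Matrix.adjugate_apply, det_single, one_mul, pdt]
  let e : {i : A // ¬ i = ⟨r, hr⟩} ≃ ↥(A.erase r) :=
    { toFun := fun i => ⟨i.1, mem_erase.2 ⟨fun h => i.2 (Subtype.ext h), i.1.2⟩⟩
      invFun := fun i => ⟨⟨i, mem_of_mem_erase i.2⟩, fun h =>
        (ne_of_mem_erase i.2) (congrArg Subtype.val h)⟩
      left_inv := fun _ => rfl
      right_inv := fun _ => rfl }
  rw [← Matrix.det_submatrix_equiv_self e]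
  rfl

/-- **The end of the even classes** : from the congruence of the value to the L-function of the
curve. -/
theorem LQ_of_kerE {k : ZMod 4} {j : Fin 4} {S T B : Finset Pg} (h : Dj S T B) (hk : md k = 0)
    (hj : (j.val : ZMod 2) = 0) {K : ℂ} {n : ℕ} {r0 : Pg} (hr : r0 ∈ S ∪ T) {x : ZMod 2}
    (hx : x ≠ 0)
    (hv : ∃ V : ValuationSubring ℂ,
      Rt V (LaB (kkB k S T B) j.val (eB T B) (S ∪ T ∪ B) / (K * lm ^ n))
        (x * pdt (blkM s4 (kapB (kkB k S T B) j.val) (tauQ k j S T B) (S ∪ T) (VB k j S T B))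
          ((S ∪ T ∪ VB k j S T B).erase r0)))
    (hG : KerB0 k j S T B) : LQ (dB k j S T B) := by
  obtain ⟨V, hV⟩ := hv
  refine LQ_of_LaB h fun h0 => hV.ne_zero (mul_ne_zero hx ?_) ?_
  · have h1 := hG.cof h hk hj hr
    rw [pmG_adjE] at h1
    intro h2
    refine h1 ?_
    rw [← h2]
    exact pdt_congr fun p hp q _ => (blkM_MqB h (mem_of_mem_erase hp)).symm
  · change LaB (kkB k S T B) j.val (eB T B) (S ∪ T ∪ B) = 0 at h0
    rw [h0, zero_div]

/-- in the even classes the weights `kapB` vanish -/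
theorem kapB_evenE {k : ZMod 4} {j : Fin 4} (S T B : Finset Pg) (hk : md k = 0)
    (hj : (j.val : ZMod 2) = 0) : kapB (kkB k S T B) j.val = fun _ => 0 := by
  funext q
  rw [kapB_kk, kxB_even hk hj]

end

end Pool.Agent.Lib.MP_1a91b9_ntQ
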