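import Pool.Agent.Lib.MP_1a91b9_ntQ.B.LaII
import Pool.Agent.Lib.MP_1a91b9_ntQ.B.LsEw

/-!
# Quartic twists, part B, file LsII: the L side of the classes II and III (`j = 0`, `k` even)
-/

set_option autoImplicit false

namespace Pool.Agent.Lib.MP_1a91b9_ntQ

open NumberField Finset Pool.Agent.Lib.MP_1a91b9_nuT Pool.Agent.Lib.MP_1a91b9_nuT.S3
  Pool.Agent.Lib.MP_1a91b9_nuT.Ell

noncomputable section

/-- **Classes II and III, the value** : the congruence for every `D` of the two classes. -/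
theorem Rt_B_II {V : ValuationSubring ℂ} (hV : (2 : ℂ)⁻¹ ∉ V) {k : ZMod 4} (hk : md k = 0)
    {S T B : Finset Pg} (h : Dj S T B) {r0 : Pg} (hr : r0 ∈ S ∪ T) :
    Rt V (LaB (kkB k S T B) 0 (eB T B) (S ∪ T ∪ B) / (La4 (kkB k S T B) ∅ *
        lm ^ ((S ∪ T).card + (UqB k 0 S T B).card + 2 * (VB k 0 S T B).card +
          ek (kkB k S T B))))
      (aa (cB S T B) * pdt (blkM s4 (kapB (kkB k S T B) 0) (tauQ k 0 S T B) (S ∪ T)
        (VB k 0 S T B)) ((S ∪ T ∪ VB k 0 S T B).erase r0)) := by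
  have hj : (((0 : Fin 4).val : ℕ) : ZMod 2) = 0 := rfl
  have h0 : kapB (kkB k S T B) 0 = 0 := kapB_evenE (j := 0) S T B hk hj
  rw [h0, aa_cB h.st]
  refine LaB_II hV (by rwa [md_kkB]) h.ub (fun q hq => by rw [h.eodd hq]; exact one_ne_zero)
    (fun q hq => h.eb hq) (UqB_union k 0 S T B) (UqB_dis k 0 S T B) (fun b hb => ?_)
    (fun b hb => ?_) hr
  · have h1 := hu1_B hb
    have h2 : kapB (kkB k S T B) ((0 : Fin 4).val) b = 0 := congrFun h0 b
    rwa [h2, zero_add] at h1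
  · have h1 := hu0_B hb
    have h2 : kapB (kkB k S T B) ((0 : Fin 4).val) b = 0 := congrFun h0 b
    rwa [h2, zero_add] at h1

/-- **The field `c2` of the criterion.** -/
theorem lsB_c2 {k : ZMod 4} {S T B : Finset Pg} (h : Dj S T B) (hk : md k = 0)
    (ha : aa (cB S T B) = 1) (hG : KerB0 k 0 S T B) : LQ (dB k 0 S T B) := by
  obtain ⟨V, hV⟩ := exists_B2
  obtain ⟨r0, hr⟩ := hG.1
  exact LQ_of_kerE (j := 0) h hk rfl hr (by rw [ha]; exact one_ne_zero) ⟨V, Rt_B_II hV hk h hr⟩ hG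

end

end Pool.Agent.Lib.MP_1a91b9_ntQ
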