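import Pool.Agent.Lib.MP_1a91b9_ntQ.Q.One4
import Pool.Agent.Lib.MP_1a91b9_ntQ.D.Cl4B

/-!
# MP_1a91b9_nt (quartic twists), part B: all the fourth-power-free `D`; the criterion

`D = i ^ k lam ^ j c`, `k : ZMod 4`, `j : Fin 4`, `c = ∏ (q ∈ S) q ∏ (q ∈ T) q ^ 3 ∏ (q ∈ B) q ^ 2` with
pairwise disjoint sets `S`, `T`, `B` of primary primes. `GdB k j S T B` is the criterion.
-/

set_option autoImplicit false

namespace Pool.Agent.Lib.MP_1a91b9_ntQ

open NumberField IsDedekindDomain Finset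
open Pool.Agent.Lib.MP_1a91b9_ntH (PS nm Sx mem_Sx)

noncomputable section

/-- Fourth-power-free. -/
def FFr (x : 𝓞 K4) : Prop := ∀ z : 𝓞 K4, z ^ 4 ∣ x → IsUnit z

/-- The primary factor. -/
def cB (S T B : Finset Pg) : 𝓞 K4 := DDq S * DDq T ^ 3 * DDq B ^ 2

/-- `D = i ^ k lam ^ j c`. -/
def dB (k : ZMod 4) (j : Fin 4) (S T B : Finset Pg) : 𝓞 K4 := iO ^ k.val * lam ^ j.val * cB S T B

/-- Pairwise disjoint sets. -/
structure Dj (S T B : Finset Pg) : Prop where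
  st : Disjoint S T
  sb : Disjoint S B
  tb : Disjoint T B

/-- `m` modulo `4`, for `x = 1 + lam³ (m + n i)`. -/
def mmB (x : 𝓞 K4) : ZMod 4 := ((((cp x).2 - (cp x).1 + 1) / 4 : ℤ) : ZMod 4)

/-- `n` modulo `4`, for `x = 1 + lam³ (m + n i)`. -/
def nnB (x : 𝓞 K4) : ZMod 4 := ((-(((cp x).1 + (cp x).2 - 1) / 4) : ℤ) : ZMod 4)

/-- The exponent of `(lam / x)_4`, for `x = 1 + lam³ (m + n i)`. -/
def llB (x : 𝓞 K4) : ZMod 4 := -mmB x - (mmB x - nnB x) ^ 2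

/-- The weights of the two class characters `aa`, `bb` in the row sums. -/
def kvB (k : ZMod 4) (j : Fin 4) : Fin 2 → ZMod 2 := ![md k, (j.val : ZMod 2)]

/-- The row sums (`kappa_x` of the page). -/
def kxB (k : ZMod 4) (j : Fin 4) (q : Pg) : ZMod 2 := md k * aa q.1 + (j.val : ZMod 2) * bb q.1

/-- The set `V` of the primes `b ∈ B` such that `D / b²` is a square modulo `b`. -/
def VB (k : ZMod 4) (j : Fin 4) (S T B : Finset Pg) : Finset Pg :=
  B.filter fun b => ∑ p ∈ S ∪ T, s4 b p + kxB k j b = 0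

/-- `(D / b² / b)_4 = (-1) ^ rhB b` for `b ∈ V`. -/
def rhB (k : ZMod 4) (j : Fin 4) (S T B : Finset Pg) (b : Pg) : ZMod 2 :=
  hf4 (c4 b (dB k j S T (B.erase b)))

/-- The border given by the combination `p` of the class characters. -/
def PpB (p : Fin 2 → ZMod 2) : Fin 2 → Unit → ZMod 2 := fun j _ => p j

/-- The matrix without border. -/
def NB0 (k : ZMod 4) (j : Fin 4) (S T B : Finset Pg) :=
  d4.NV (kvB k j) (Da.P0 (Fin 2)) Da.R0 (VB k j S T B) (rhB k j S T B) (S ∪ T)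

/-- The matrix with the border `p` and the corner `x`. -/
def NB1 (k : ZMod 4) (j : Fin 4) (p : Fin 2 → ZMod 2) (x : ZMod 2) (S T B : Finset Pg) :=
  d4.NV (kvB k j) (PpB p) (Da.R1 x) (VB k j S T B) (rhB k j S T B) (S ∪ T)

/-- Nonsingular, no border. -/
def DetB0 (k : ZMod 4) (j : Fin 4) (S T B : Finset Pg) : Prop := (NB0 k j S T B).det ≠ 0

/-- Nonsingular, border `p`, corner `x`. -/
def DetB1 (k : ZMod 4) (j : Fin 4) (p : Fin 2 → ZMod 2) (x : ZMod 2) (S T B : Finset Pg) : Prop :=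
  (NB1 k j p x S T B).det ≠ 0

/-- The kernel is generated by `(1, 0)`, no border. -/
def KerB0 (k : ZMod 4) (j : Fin 4) (S T B : Finset Pg) : Prop :=
  (S ∪ T).Nonempty ∧ ∀ w, (NB0 k j S T B).mulVec w = 0 →
    w = 0 ∨ w = Sum.elim (fun _ => 1) (Sum.elim (fun _ => 0) 0)

/-- The kernel is generated by `(1, 0, 0)`, border `p`, corner `x`. -/
def KerB1 (k : ZMod 4) (j : Fin 4) (p : Fin 2 → ZMod 2) (x : ZMod 2) (S T B : Finset Pg) : Prop :=
  (S ∪ T).Nonempty ∧ ∀ w, (NB1 k j p x S T B).mulVec w = 0 →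
    w = 0 ∨ w = Sum.elim (fun _ => 1) (Sum.elim (fun _ => 0) 0)

/-- The corner of the class `j = 2`, `k = 3`. -/
def uB3 (m n : ZMod 4) : ZMod 2 :=
  if (m, n) ∈ ({(0, 0), (0, 3), (1, 0), (1, 1), (2, 1), (2, 2), (3, 2), (3, 3)} :
    Finset (ZMod 4 × ZMod 4)) then 0 else 1

/-- The corner of the class `j = 2`, `k = 0`, `L = 0`. -/
def uB0 (m n : ZMod 4) : ZMod 2 :=
  if (m, n) ∈ ({(0, 0), (0, 2), (1, 0), (3, 0)} : Finset (ZMod 4 × ZMod 4)) then 0 else 1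

/-- The corner of the class `j = 2`, `k = 2`, `A + L = 0`. -/
def uB2 (m n : ZMod 4) : ZMod 2 :=
  if (m, n) ∈ ({(0, 0), (0, 1), (0, 3), (2, 0)} : Finset (ZMod 4 × ZMod 4)) then 0 else 1

/-- **The criterion** for `D = dB k j S T B`. -/
structure GdB (k : ZMod 4) (j : Fin 4) (S T B : Finset Pg) : Prop where
  /-- class I -/
  c1 : j = 0 → md k = 1 → DetB0 k j S T B
  /-- classes II and III -/
  c2 : j = 0 → md k = 0 → aa (cB S T B) = 1 → KerB0 k j S T B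
  /-- class (X), `D = - 1` modulo `4` -/
  x1 : j = 0 → k = 2 → aa (cB S T B) = 0 → KerB1 k j ![1, 0] (hf4 (nn (cB S T B))) S T B
  /-- class (X), `D = 1` modulo `4`, first order -/
  x2 : j = 0 → k = 0 → aa (cB S T B) = 0 → hf4 (nn (cB S T B)) + bb (cB S T B) = 1 →
    KerB0 k j S T B
  /-- class (X), `D = 1` modulo `4`, second order -/
  x3 : j = 0 → k = 0 → aa (cB S T B) = 0 → hf4 (nn (cB S T B)) + bb (cB S T B) = 0 →
    KerB1 k j ![1, 0] (xl4 (llB (cB S T B))) S T B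
  /-- class (E) -/
  e : j = 1 → DetB1 k j ![1, 0] (xk4 k) S T B
  /-- class J3 -/
  j3 : j = 3 → DetB0 k j S T B
  /-- class J2a -/
  a2 : j = 2 → k = 1 → DetB0 k j S T B
  /-- class J2b -/
  b2 : j = 2 → k = 3 → DetB1 k j ![0, 1] (uB3 (mmB (cB S T B)) (nnB (cB S T B))) S T B
  /-- class J2c, `k = 0` -/
  c20 : j = 2 → k = 0 → bb (cB S T B) = 1 → KerB0 k j S T B
  /-- class J2c, `k = 2` -/
  c22 : j = 2 → k = 2 → aa (cB S T B) + bb (cB S T B) = 1 → KerB0 k j S T B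
  /-- class J2d, `k = 0` -/
  d20 : j = 2 → k = 0 → bb (cB S T B) = 0 →
    KerB1 k j ![0, 1] (uB0 (mmB (cB S T B)) (nnB (cB S T B))) S T B
  /-- class J2d, `k = 2` -/
  d22 : j = 2 → k = 2 → aa (cB S T B) + bb (cB S T B) = 0 →
    KerB1 k j ![1, 1] (uB2 (mmB (cB S T B)) (nnB (cB S T B))) S T B

/-- The L-values of the good `D`. -/
def LsB : Prop := ∀ (k : ZMod 4) (j : Fin 4) (S T B : Finset Pg), Dj S T B → S.Nonempty →
  GdB k j S T B → LQ (dB k j S T B)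

/-- The points for the good `D`. -/
def PtB : Prop := ∀ (k : ZMod 4) (j : Fin 4) (S T B : Finset Pg), Dj S T B → S.Nonempty →
  GdB k j S T B → ¬ Exc (dB k j S T B) → PtQ (dB k j S T B)

end

end Pool.Agent.Lib.MP_1a91b9_ntQ
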