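import Pool.Agent.Lib.MP_1a91b9_ntQ.A.ForB
import Pool.Agent.Lib.MP_1a91b9_ntQ.B.CritB

/-!
# MP_1a91b9_nt (quartic twists), part B: the matrices of the criterion on the index set `S ∪ V`
-/

set_option autoImplicit false
set_option linter.unusedSectionVars false

namespace Pool.Agent.Lib.MP_1a91b9_ntQ

open Finset

noncomputable section

section abstract_part

variable {ι : Type} [DecidableEq ι] {κ : Type} [Fintype κ]

/-- The entries of the matrix, on the union of the sets `S` and `V`. -/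
def Dat2.MG (D : Dat2 ι κ) (c : κ → ZMod 2) (τ : ι → ZMod 2) (S : Finset ι) (i j : ι) : ZMod 2 :=
  if i = j then (if i ∈ S then D.dg c i + ∑ l ∈ S.erase i, D.s i l else τ i) else D.s i j

/-- The matrix on a finite set of indices. -/
def pmG (M : ι → ι → ZMod 2) (A : Finset ι) : Matrix A A (ZMod 2) := Matrix.of fun i j => M i j

/-- The equivalence of the index sets, no border. -/
def eqG0 {S V : Finset ι} (h : Disjoint S V) : S ⊕ (V ⊕ Empty) ≃ ↥(S ∪ V) :=
  (Equiv.sumCongr (Equiv.refl S) (Equiv.sumEmpty V Empty)).trans (Equiv.Finset.union S V h)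

/-- The equivalence of the index sets, border. -/
def eqG1 {S V : Finset ι} (h : Disjoint S V) : S ⊕ (V ⊕ Unit) ≃ ↥(S ∪ V) ⊕ Unit :=
  (Equiv.sumAssoc S V Unit).symm.trans (Equiv.sumCongr (Equiv.Finset.union S V h) (Equiv.refl Unit))

theorem eqG0_inl {S V : Finset ι} (h : Disjoint S V) (i : S) :
    ((eqG0 h (Sum.inl i) : ↥(S ∪ V)) : ι) = i := rfl

theorem eqG0_inr {S V : Finset ι} (h : Disjoint S V) (v : V) :
    ((eqG0 h (Sum.inr (Sum.inl v)) : ↥(S ∪ V)) : ι) = v := rfl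

variable (D : Dat2 ι κ) (c : κ → ZMod 2) (τ : ι → ZMod 2)

theorem NV_sub0 (hs : D.Sym) {S V : Finset ι} (h : Disjoint S V) :
    (pmG (D.MG c τ S) (S ∪ V)).submatrix (eqG0 h) (eqG0 h) =
      D.NV c (Da.P0 κ) Da.R0 V τ S := by
  ext i j
  rcases i with i | i | i
  · rcases j with j | j | j
    · show D.MG c τ S i j = D.N c S i j
      unfold Dat2.MG Dat2.N
      by_cases hij : i = j
      · subst hij
        rw [if_pos rfl, if_pos rfl, if_pos i.2]
      · rw [if_neg hij, if_neg fun h' => hij (Subtype.ext h')]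
    · show D.MG c τ S i j = D.s i j
      unfold Dat2.MG
      rw [if_neg fun h' : (i : ι) = j => disjoint_left.1 h i.2 (h' ▸ j.2)]
    · exact j.elim
  · rcases j with j | j | j
    · show D.MG c τ S i j = D.s j i
      unfold Dat2.MG
      have hne : (i : ι) ≠ j := fun h' => disjoint_left.1 h j.2 (h' ▸ i.2)
      rw [if_neg hne, hs _ _ hne]
    · show D.MG c τ S i j = if i = j then τ i else D.s i j
      unfold Dat2.MG
      by_cases hij : i = j
      · subst hij
        rw [if_pos rfl, if_pos rfl, if_neg fun h' => disjoint_left.1 h h' i.2]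
      · rw [if_neg hij, if_neg fun h' => hij (Subtype.ext h')]
    · exact j.elim
  · exact i.elim

theorem NV_sub1 (hs : D.Sym) {S V : Finset ι} (h : Disjoint S V) (P : κ → Unit → ZMod 2)
    (x : ZMod 2) :
    (BM (pmG (D.MG c τ S) (S ∪ V)) (fun i => D.bd P i ()) (fun i => D.bd P i ()) x).submatrix
      (eqG1 h) (eqG1 h) = D.NV c P (Da.R1 x) V τ S := by
  ext i j
  rcases i with i | i | i
  · rcases j with j | j | j
    · show D.MG c τ S i j = D.N c S i j
      unfold Dat2.MG Dat2.N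
      by_cases hij : i = j
      · subst hij
        rw [if_pos rfl, if_pos rfl, if_pos i.2]
      · rw [if_neg hij, if_neg fun h' => hij (Subtype.ext h')]
    · show D.MG c τ S i j = D.s i j
      unfold Dat2.MG
      rw [if_neg fun h' : (i : ι) = j => disjoint_left.1 h i.2 (h' ▸ j.2)]
    · rfl
  · rcases j with j | j | j
    · show D.MG c τ S i j = D.s j i
      unfold Dat2.MG
      have hne : (i : ι) ≠ j := fun h' => disjoint_left.1 h j.2 (h' ▸ i.2)
      rw [if_neg hne, hs _ _ hne]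
    · show D.MG c τ S i j = if i = j then τ i else D.s i j
      unfold Dat2.MG
      by_cases hij : i = j
      · subst hij
        rw [if_pos rfl, if_pos rfl, if_neg fun h' => disjoint_left.1 h h' i.2]
      · rw [if_neg hij, if_neg fun h' => hij (Subtype.ext h')]
    · rfl
  · rcases j with j | j | j
    · rfl
    · rfl
    · rfl

/-- **The determinant without border.** -/
theorem det_NV0 (hs : D.Sym) {S V : Finset ι} (h : Disjoint S V) :
    (D.NV c (Da.P0 κ) Da.R0 V τ S).det = (pmG (D.MG c τ S) (S ∪ V)).det := by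
  rw [← NV_sub0 D c τ hs h, Matrix.det_submatrix_equiv_self]

/-- **The determinant with border.** -/
theorem det_NV1 (hs : D.Sym) {S V : Finset ι} (h : Disjoint S V) (P : κ → Unit → ZMod 2)
    (x : ZMod 2) :
    (D.NV c P (Da.R1 x) V τ S).det =
      (BM (pmG (D.MG c τ S) (S ∪ V)) (fun i => D.bd P i ()) (fun i => D.bd P i ()) x).det := by
  rw [← NV_sub1 D c τ hs h, Matrix.det_submatrix_equiv_self]

/-! ### The kernels -/

theorem sub_mulVec {m n : Type} [Fintype m] [DecidableEq m] [Fintype n] [DecidableEq n]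
    (e : m ≃ n) (M : Matrix n n (ZMod 2)) (w : n → ZMod 2) (h : M.mulVec w = 0) :
    (M.submatrix e e).mulVec (w ∘ e) = 0 := by
  rw [Matrix.submatrix_mulVec_equiv, Function.comp_assoc]
  have e1 : (e : m → n) ∘ (e.symm : n → m) = id := funext fun x => e.apply_symm_apply x
  rw [e1, Function.comp_id, h]
  rfl

theorem MG_symm (hs : D.Sym) (S A : Finset ι) :
    (pmG (D.MG c τ S) A).transpose = pmG (D.MG c τ S) A := by
  ext i j
  show D.MG c τ S j i = D.MG c τ S i j
  unfold Dat2.MG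
  by_cases h : (i : ι) = j
  · rw [if_pos h.symm, if_pos h, h]
  · rw [if_neg fun h' => h h'.symm, if_neg h, hs _ _ h]

/-- the indicator of `S` is in the kernel when the row sums vanish -/
theorem MG_mulVec {S V : Finset ι} (h : Disjoint S V) (hS : ∀ i ∈ S, D.dg c i = 0)
    (hV : ∀ v ∈ V, ∑ i ∈ S, D.s v i = 0) :
    (pmG (D.MG c τ S) (S ∪ V)).mulVec (fun i => if (i : ι) ∈ S then 1 else 0) = 0 := by
  ext i
  show ∑ j : ↥(S ∪ V), D.MG c τ S i j * (if (j : ι) ∈ S then 1 else 0) = 0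
  rw [sum_coe_sort (S ∪ V) fun j => D.MG c τ S i j * (if j ∈ S then 1 else 0), sum_union h]
  have h2 : ∑ x ∈ V, D.MG c τ S i x * (if x ∈ S then 1 else 0) = 0 :=
    sum_eq_zero fun x hx => by rw [if_neg fun h' => disjoint_left.1 h h' hx, mul_zero]
  have h1 : ∑ x ∈ S, D.MG c τ S i x * (if x ∈ S then 1 else 0) = ∑ x ∈ S, D.MG c τ S i x :=
    sum_congr rfl fun x hx => by rw [if_pos hx, mul_one]
  rw [h1, h2, add_zero]
  rcases mem_union.1 i.2 with hi | hi
  · rw [← add_sum_erase S _ hi]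
    have h3 : ∑ x ∈ S.erase (i : ι), D.MG c τ S i x = ∑ x ∈ S.erase (i : ι), D.s i x :=
      sum_congr rfl fun x hx => by
        unfold Dat2.MG
        rw [if_neg (ne_of_mem_erase hx).symm]
    rw [h3]
    unfold Dat2.MG
    rw [if_pos rfl, if_pos hi, hS _ hi, zero_add]
    exact Da.z2_add_self _
  · have h3 : ∑ x ∈ S, D.MG c τ S i x = ∑ x ∈ S, D.s i x :=
      sum_congr rfl fun x hx => by
        unfold Dat2.MG
        rw [if_neg fun h' : (i : ι) = x => disjoint_left.1 h hx (h' ▸ hi)]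
    rw [h3, hV _ hi]

/-- the principal cofactors, no border -/
theorem cof_ker0 (hs : D.Sym) {S V : Finset ι} (h : Disjoint S V) (hS : ∀ i ∈ S, D.dg c i = 0)
    (hV : ∀ v ∈ V, ∑ i ∈ S, D.s v i = 0)
    (hk : ∀ w, (D.NV c (Da.P0 κ) Da.R0 V τ S).mulVec w = 0 →
      w = 0 ∨ w = Sum.elim (fun _ => 1) (Sum.elim (fun _ => 0) 0)) {r : ι} (hr : r ∈ S) :
    (pmG (D.MG c τ S) (S ∪ V)).adjugate ⟨r, mem_union_left V hr⟩ ⟨r, mem_union_left V hr⟩ ≠ 0 := by
  have : Fact (Nat.Prime 2) := ⟨Nat.prime_two⟩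
  refine adj_ne_of_ker (MG_symm D c τ hs S _) (MG_mulVec D c τ h hS hV)
    (by show (if r ∈ S then (1 : ZMod 2) else 0) ≠ 0; rw [if_pos hr]; exact one_ne_zero) fun w hw => ?_
  have h1 := sub_mulVec (eqG0 h) _ w hw
  rw [NV_sub0 D c τ hs h] at h1
  rcases hk _ h1 with h2 | h2
  · refine ⟨0, fun i => ?_⟩
    have h3 := congrFun h2 ((eqG0 h).symm i)
    rw [Function.comp_apply, Equiv.apply_symm_apply] at h3
    rw [h3, zero_mul]
    rfl
  · refine ⟨1, fun i => ?_⟩
    rw [one_mul]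
    obtain ⟨y, rfl⟩ := (eqG0 h).surjective i
    have h3 := congrFun h2 y
    rw [Function.comp_apply] at h3
    rw [h3]
    rcases y with y | y | y
    · rw [eqG0_inl, if_pos y.2]
      rfl
    · rw [eqG0_inr, if_neg fun h' => disjoint_left.1 h h' y.2]
      rfl
    · exact y.elim

/-- a principal cofactor, bordered -/
theorem cof_ker1 (hs : D.Sym) {S V : Finset ι} (h : Disjoint S V) (P : κ → Unit → ZMod 2)
    (x : ZMod 2) (hS : ∀ i ∈ S, D.dg c i = 0)
    (hV : ∀ v ∈ V, ∑ i ∈ S, D.s v i = 0) (hA : ∑ i ∈ S, D.bd P i () = 0)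
    (hk : ∀ w, (D.NV c P (Da.R1 x) V τ S).mulVec w = 0 →
      w = 0 ∨ w = Sum.elim (fun _ => 1) (Sum.elim (fun _ => 0) 0)) {r : ι} (hr : r ∈ S) :
    (BM (pmG (D.MG c τ S) (S ∪ V)) (fun i => D.bd P i ()) (fun i => D.bd P i ()) x).adjugate
      (Sum.inl ⟨r, mem_union_left V hr⟩) (Sum.inl ⟨r, mem_union_left V hr⟩) ≠ 0 := by
  have : Fact (Nat.Prime 2) := ⟨Nat.prime_two⟩
  set v : ↥(S ∪ V) ⊕ Unit → ZMod 2 :=
    Sum.elim (fun i => if (i : ι) ∈ S then 1 else 0) (fun _ => 0) with hv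
  have hM : (BM (pmG (D.MG c τ S) (S ∪ V)) (fun i => D.bd P i ()) (fun i => D.bd P i ())
      x).transpose = BM (pmG (D.MG c τ S) (S ∪ V)) (fun i => D.bd P i ()) (fun i => D.bd P i ())
      x := by
    unfold BM
    rw [Matrix.fromBlocks_transpose, MG_symm D c τ hs S]
    rfl
  have hv0 : (BM (pmG (D.MG c τ S) (S ∪ V)) (fun i => D.bd P i ()) (fun i => D.bd P i ())
      x).mulVec v = 0 := by
    unfold BM
    rw [hv, Matrix.fromBlocks_mulVec, Sum.elim_comp_inl, Sum.elim_comp_inr,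
      MG_mulVec D c τ h hS hV]
    ext i
    rcases i with i | i
    · rw [Sum.elim_inl, Pi.add_apply, Pi.zero_apply, zero_add]
      show ∑ j : Unit, D.bd P i () * 0 = 0
      simp
    · rw [Sum.elim_inr, Pi.add_apply]
      have e1 : (Matrix.of fun _ j => D.bd P (j : ↥(S ∪ V)) ()).mulVec
          (fun j : ↥(S ∪ V) => if (j : ι) ∈ S then (1 : ZMod 2) else 0) i = 0 := by
        show ∑ j : ↥(S ∪ V), D.bd P j () * (if (j : ι) ∈ S then 1 else 0) = 0
        rw [sum_coe_sort (S ∪ V) fun j => D.bd P j () * (if j ∈ S then 1 else 0), sum_union h]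
        have h2 : ∑ x ∈ V, D.bd P x () * (if x ∈ S then 1 else 0) = 0 :=
          sum_eq_zero fun x hx => by rw [if_neg fun h' => disjoint_left.1 h h' hx, mul_zero]
        have h1 : ∑ x ∈ S, D.bd P x () * (if x ∈ S then 1 else 0) = ∑ x ∈ S, D.bd P x () :=
          sum_congr rfl fun x hx => by rw [if_pos hx, mul_one]
        rw [h1, h2, hA, add_zero]
      rw [e1, zero_add]
      show ∑ j : Unit, x * 0 = 0
      simp
  refine adj_ne_of_ker hM hv0
    (by rw [hv, Sum.elim_inl]; show (if r ∈ S then (1 : ZMod 2) else 0) ≠ 0; rw [if_pos hr]; exact one_ne_zero)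
    fun w hw => ?_
  have h1 := sub_mulVec (eqG1 h) _ w hw
  rw [NV_sub1 D c τ hs h] at h1
  rcases hk _ h1 with h2 | h2
  · refine ⟨0, fun i => ?_⟩
    have h3 := congrFun h2 ((eqG1 h).symm i)
    rw [Function.comp_apply, Equiv.apply_symm_apply] at h3
    rw [h3, zero_mul]
    rfl
  · refine ⟨1, fun i => ?_⟩
    rw [one_mul]
    obtain ⟨y, rfl⟩ := (eqG1 h).surjective i
    have h3 := congrFun h2 y
    rw [Function.comp_apply] at h3
    rw [h3]
    rcases y with y | y | y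
    · show (1 : ZMod 2) = if (y : ι) ∈ S then 1 else 0
      rw [if_pos y.2]
    · show (0 : ZMod 2) = if (y : ι) ∈ S then 1 else 0
      rw [if_neg fun h' => disjoint_left.1 h h' y.2]
    · rfl

end abstract_part

/-! ### The matrices of the criterion -/

section crit

open NumberField

variable {k : ZMod 4} {j : Fin 4} {S T B : Finset Pg}

/-- The entries of the matrix of the criterion. -/
def MqB (k : ZMod 4) (j : Fin 4) (S T B : Finset Pg) (p q : Pg) : ZMod 2 :=
  if p = q then (if p ∈ S ∪ T then kxB k j p + ∑ l ∈ (S ∪ T).erase p, s4 p l else rhB k j S T B p)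
  else s4 p q

/-- The border `p`. -/
def bpB (p : Fin 2 → ZMod 2) (q : Pg) : ZMod 2 := p 0 * aa q.1 + p 1 * bb q.1

theorem dg_kvB (k : ZMod 4) (j : Fin 4) (q : Pg) : d4.dg (kvB k j) q = kxB k j q := by
  unfold Dat2.dg kvB kxB
  rw [Fin.sum_univ_two]
  rfl

theorem bd_PpB (p : Fin 2 → ZMod 2) (q : Pg) : d4.bd (PpB p) q () = bpB p q := by
  unfold Dat2.bd PpB bpB
  rw [Fin.sum_univ_two]
  rfl

theorem MqB_eq (k : ZMod 4) (j : Fin 4) (S T B : Finset Pg) :
    d4.MG (kvB k j) (rhB k j S T B) (S ∪ T) = MqB k j S T B := by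
  funext p q
  unfold Dat2.MG MqB
  rw [dg_kvB]
  rfl

theorem d4_symm : d4.Sym := fun _ _ h => s4_symm h

theorem VB_sub (k : ZMod 4) (j : Fin 4) (S T B : Finset Pg) : VB k j S T B ⊆ B := filter_subset _ _

theorem Dj.dv (h : Dj S T B) (k : ZMod 4) (j : Fin 4) : Disjoint (S ∪ T) (VB k j S T B) :=
  disjoint_of_subset_right (VB_sub k j S T B) (disjoint_union_left.2 ⟨h.sb, h.tb⟩)

theorem mem_VB {q : Pg} : q ∈ VB k j S T B ↔ q ∈ B ∧ ∑ p ∈ S ∪ T, s4 q p + kxB k j q = 0 :=
  mem_filter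

theorem DetB0_iff (h : Dj S T B) :
    DetB0 k j S T B ↔ (pmG (MqB k j S T B) (S ∪ T ∪ VB k j S T B)).det ≠ 0 := by
  rw [DetB0, NB0, det_NV0 _ _ _ d4_symm (h.dv k j), MqB_eq]

theorem DetB1_iff (h : Dj S T B) {p : Fin 2 → ZMod 2} {x : ZMod 2} :
    DetB1 k j p x S T B ↔ (BM (pmG (MqB k j S T B) (S ∪ T ∪ VB k j S T B)) (fun i => bpB p i)
      (fun i => bpB p i) x).det ≠ 0 := by
  rw [DetB1, NB1, det_NV1 _ _ _ d4_symm (h.dv k j), MqB_eq]
  simp only [bd_PpB]

/-- In the even classes the row sums `kxB` vanish. -/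
theorem kxB_even (hk : md k = 0) (hj : (j.val : ZMod 2) = 0) (q : Pg) : kxB k j q = 0 := by
  unfold kxB
  rw [hk, hj, zero_mul, zero_mul, add_zero]

theorem KerB0.cof (h : Dj S T B) (hk : md k = 0) (hj : (j.val : ZMod 2) = 0)
    (hG : KerB0 k j S T B) {r : Pg} (hr : r ∈ S ∪ T) :
    (pmG (MqB k j S T B) (S ∪ T ∪ VB k j S T B)).adjugate ⟨r, mem_union_left _ hr⟩
      ⟨r, mem_union_left _ hr⟩ ≠ 0 := by
  have h1 := cof_ker0 d4 (kvB k j) (rhB k j S T B) d4_symm (h.dv k j)
    (fun i _ => by rw [dg_kvB, kxB_even hk hj])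
    (fun v hv => by
      have h2 := (mem_VB.1 hv).2
      rw [kxB_even hk hj, add_zero] at h2
      exact h2) hG.2 hr
  rw [MqB_eq] at h1
  exact h1

theorem KerB1.cof (h : Dj S T B) (hk : md k = 0) (hj : (j.val : ZMod 2) = 0)
    {p : Fin 2 → ZMod 2} {x : ZMod 2} (hA : ∑ q ∈ S ∪ T, bpB p q = 0)
    (hG : KerB1 k j p x S T B) {r : Pg} (hr : r ∈ S ∪ T) :
    (BM (pmG (MqB k j S T B) (S ∪ T ∪ VB k j S T B)) (fun i => bpB p i)
      (fun i => bpB p i) x).adjugate (Sum.inl ⟨r, mem_union_left _ hr⟩)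
      (Sum.inl ⟨r, mem_union_left _ hr⟩) ≠ 0 := by
  have h1 := cof_ker1 d4 (kvB k j) (rhB k j S T B) d4_symm (h.dv k j) (PpB p) x
    (fun i _ => by rw [dg_kvB, kxB_even hk hj])
    (fun v hv => by
      have h2 := (mem_VB.1 hv).2
      rw [kxB_even hk hj, add_zero] at h2
      exact h2) (by simp only [bd_PpB]; exact hA) hG.2 hr
  rw [MqB_eq] at h1
  simp only [bd_PpB] at h1
  exact h1

end crit

end

end Pool.Agent.Lib.MP_1a91b9_ntQ
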