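import Pool.Agent.Lib.MP_1a91b9_ntQ.B.GlueB

/-!
# Quartic twists, part B: all fourth-power-free `D`, file GlD: the end of the L side

`dB k j S T B = DqB k j (eB T B) (S ∪ T ∪ B)`, and its L-function does not vanish at `1` if `LB` does not.
-/

set_option autoImplicit false

namespace Pool.Agent.Lib.MP_1a91b9_ntQ

open NumberField Finset

noncomputable section

/-- the L-function of `D` does not vanish at `1` if `LB` does not -/
theorem LQ_of_LB {k : ZMod 4} {j : Fin 4} {S T B : Finset Pg} (h : Dj S T B)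
    (hL : LB (kB k (eB T B) (S ∪ T ∪ B)) j.val (eB T B) (S ∪ T ∪ B) 1 ≠ 0) :
    LQ (dB k j S T B) := by
  rw [LQ, h.dB_eq k j]
  exact serB_ne k (by omega) (expB_eB T B) hL

theorem LQ_of_LaB {k : ZMod 4} {j : Fin 4} {S T B : Finset Pg} (h : Dj S T B)
    (hL : LaB (kB k (eB T B) (S ∪ T ∪ B)) j.val (eB T B) (S ∪ T ∪ B) ≠ 0) :
    LQ (dB k j S T B) := by
  refine LQ_of_LB h fun h0 => hL ?_
  rw [LaB, h0, mul_zero]

theorem Dj.ll_cB {S T B : Finset Pg} (h : Dj S T B) :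
    ll (cB S T B) = ∑ q ∈ S, ll q.1 + 3 * ∑ q ∈ T, ll q.1 + 2 * ∑ q ∈ B, ll q.1 := by
  rw [← h.DDe_eq, ll_DDe, h.sumE]

theorem nn_eq_mmB {x : 𝓞 K4} (hx : In4 x) : nn x = mmB x + nnB x := by
  obtain ⟨m, n, rfl⟩ := in4_form hx
  rw [mmB_form, nnB_form, nn_form]

end

end Pool.Agent.Lib.MP_1a91b9_ntQ
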