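import Pool.Agent.Lib.MP_1a91b9_ntQ.A.SyI
import Pool.Agent.Lib.MP_1a91b9_ntQ.B.DetGlue
import Pool.Agent.Lib.MP_1a91b9_ntQ.B.GlD

/-!
# Quartic twists, part B, file DetGl: the final matrix of the L-side is the matrix of the criterion

For every class: `kk = kB k (eB T B) (S ∪ T ∪ B)`, `U = UqB = B - VB`, the linear terms
`tauQ b = hf2 (EB kk j e (S ∪ T ∪ U) b)`.
-/

set_option autoImplicit false
set_option linter.unusedSectionVars false

namespace Pool.Agent.Lib.MP_1a91b9_ntQ

open NumberField Finset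

noncomputable section

/-- the exponent `k` of the characters -/
def kkB (k : ZMod 4) (S T B : Finset Pg) : ZMod 4 := kB k (eB T B) (S ∪ T ∪ B)

/-- the primes of exponent two of the first kind -/
def UqB (k : ZMod 4) (j : Fin 4) (S T B : Finset Pg) : Finset Pg := B \ VB k j S T B

/-- the linear terms of the primes of the second kind -/
def tauQ (k : ZMod 4) (j : Fin 4) (S T B : Finset Pg) (b : Pg) : ZMod 2 :=
  hf2 (EB (kkB k S T B) j.val (eB T B) (S ∪ T ∪ UqB k j S T B) b)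

theorem md_kkB (k : ZMod 4) (S T B : Finset Pg) : md (kkB k S T B) = md k := by
  have h2 : md 2 = 0 := rfl
  rw [kkB, kB, map_add, map_mul, h2, zero_mul, add_zero]

theorem kapB_kk (k : ZMod 4) (j : Fin 4) (S T B : Finset Pg) (b : Pg) :
    kapB (kkB k S T B) j.val b = kxB k j b := by
  rw [kapB, kxB, md_kkB]

theorem UqB_union (k : ZMod 4) (j : Fin 4) (S T B : Finset Pg) :
    UqB k j S T B ∪ VB k j S T B = B := sdiff_union_of_subset (VB_sub k j S T B)

theorem UqB_dis (k : ZMod 4) (j : Fin 4) (S T B : Finset Pg) :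
    Disjoint (UqB k j S T B) (VB k j S T B) := sdiff_disjoint

theorem hu0_B {k : ZMod 4} {j : Fin 4} {S T B : Finset Pg} {b : Pg} (hb : b ∈ VB k j S T B) :
    kapB (kkB k S T B) j.val b + ∑ p ∈ S ∪ T, s4 b p = 0 := by
  rw [kapB_kk, add_comm]
  exact (mem_VB.1 hb).2

theorem hu1_B {k : ZMod 4} {j : Fin 4} {S T B : Finset Pg} {b : Pg} (hb : b ∈ UqB k j S T B) :
    kapB (kkB k S T B) j.val b + ∑ p ∈ S ∪ T, s4 b p = 1 := by
  have h2 : ∀ x : ZMod 2, x ≠ 0 → x = 1 := by decide
  refine h2 _ fun h => ?_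
  rw [UqB, mem_sdiff] at hb
  rw [kapB_kk, add_comm] at h
  exact hb.2 (mem_VB.2 ⟨hb.1, h⟩)

theorem hf_add {x y : ZMod 4} (h : md x = 0) : hf4 (x + 2 * y) = hf2 x + md y := by
  have key : ∀ x y : ZMod 4, (ZMod.castHom (show 2 ∣ 4 by norm_num) (ZMod 2)) x = 0 →
      (if x + 2 * y = 2 then (1 : ZMod 2) else 0) =
        (if x = 2 then 1 else 0) + (ZMod.castHom (show 2 ∣ 4 by norm_num) (ZMod 2)) y := by decide
  exact key x y h

/-- **The diagonal entries of the primes of the second kind.** -/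
theorem rhB_eq {k : ZMod 4} {j : Fin 4} {S T B : Finset Pg} (h : Dj S T B) {b : Pg}
    (hb : b ∈ VB k j S T B) :
    rhB k j S T B b = tauQ k j S T B b + ∑ p ∈ (VB k j S T B).erase b, s4 b p := by
  have hbB : b ∈ B := VB_sub k j S T B hb
  have hbST : b ∉ S ∪ T := fun h' => disjoint_left.1 h.ub h' hbB
  have hbU : b ∉ UqB k j S T B := fun h' => disjoint_left.1 (UqB_dis k j S T B) h' hb
  have h' : Dj S T (B.erase b) :=
    ⟨h.st, disjoint_of_subset_right (erase_subset _ _) h.sb,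
      disjoint_of_subset_right (erase_subset _ _) h.tb⟩
  have hR : S ∪ T ∪ B.erase b = (S ∪ T ∪ UqB k j S T B) ∪ (VB k j S T B).erase b := by
    have h1 : B.erase b = UqB k j S T B ∪ (VB k j S T B).erase b := by
      conv_lhs => rw [← UqB_union k j S T B, erase_union_distrib, erase_eq_of_notMem hbU]
    rw [h1, union_assoc, union_assoc, union_assoc]
  have hd : Disjoint (S ∪ T ∪ UqB k j S T B) ((VB k j S T B).erase b) := by
    rw [disjoint_union_left]
    exact ⟨disjoint_of_subset_right (erase_subset _ _) (h.dv k j),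
      disjoint_of_subset_right (erase_subset _ _) (UqB_dis k j S T B)⟩
  have hdU : Disjoint (S ∪ T) (UqB k j S T B) :=
    disjoint_of_subset_right sdiff_subset h.ub
  have hbR : b ∉ S ∪ T ∪ B.erase b := by
    rw [mem_union, not_or]
    exact ⟨hbST, notMem_erase b B⟩
  have he : ∀ p ∈ S ∪ T ∪ B.erase b, eB T (B.erase b) p = eB T B p := by
    intro p hp
    have hpb : p ≠ b := fun h1 => hbR (h1 ▸ hp)
    unfold eB
    simp only [mem_erase, ne_eq, hpb, not_false_eq_true, true_and]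
  have he2 : ∀ p ∈ (VB k j S T B), eB T B p = 2 := fun p hp => h.eb (VB_sub k j S T B hp)
  -- the exponent `k`
  have hk : kB k (eB T (B.erase b)) (S ∪ T ∪ B.erase b) = kkB k S T B := by
    rw [kkB, kB, kB, sum_congr rfl fun p hp => by rw [he p hp]]
    have h1 : S ∪ T ∪ B = insert b (S ∪ T ∪ B.erase b) := by
      rw [← union_insert, insert_erase hbB]
    rw [h1, sum_insert hbR, he2 b hb]
    have h4 : (2 : ZMod 4) * 2 = 0 := rfl
    linear_combination -(nn b.1) * h4
  have hc : c4 b (dB k j S T (B.erase b)) =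
      EB (kkB k S T B) j.val (eB T B) (S ∪ T ∪ UqB k j S T B) b +
        2 * ∑ p ∈ (VB k j S T B).erase b, c4 p b.1 := by
    rw [h'.dB_eq k j, c4_DqB k j.val _ hbR, hk, sum_congr rfl fun p hp => by rw [he p hp], hR,
      sum_union hd, EB, mul_sum,
      sum_congr (s₂ := (VB k j S T B).erase b) rfl fun p hp => by rw [he2 p (mem_of_mem_erase hp)]]
    ring
  have hm : md (EB (kkB k S T B) j.val (eB T B) (S ∪ T ∪ UqB k j S T B) b) = 0 := by
    rw [md_EB_union (kkB k S T B) j.val hdU (fun a ha => h.eb (mem_sdiff.1 ha).1) b,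
      md_EB _ _ (fun q hq => by rw [h.eodd hq]; exact one_ne_zero) hbST]
    exact hu0_B hb
  rw [rhB, hc, hf_add hm, map_sum, tauQ]
  refine congrArg₂ (· + ·) rfl (sum_congr rfl fun p hp => ?_)
  rw [← s4_symm (ne_of_mem_erase hp)]
  rfl

/-- **The entries of the two matrices.** -/
theorem blkM_MqB {k : ZMod 4} {j : Fin 4} {S T B : Finset Pg} (h : Dj S T B) {p q : Pg}
    (hp : p ∈ S ∪ T ∪ VB k j S T B) :
    blkM s4 (kapB (kkB k S T B) j.val) (tauQ k j S T B) (S ∪ T) (VB k j S T B) p q =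
      MqB k j S T B p q := by
  rw [blkM, MqB]
  split_ifs with h1 h2
  · rw [kapB_kk]
  · rw [rhB_eq h ((mem_union.1 hp).resolve_left h2)]
  · exact ZMod.neg_eq_self_mod_two _

/-- the determinant of the criterion -/
theorem pdt_MqB {k : ZMod 4} {j : Fin 4} {S T B : Finset Pg} (h : Dj S T B) :
    pdt (blkM s4 (kapB (kkB k S T B) j.val) (tauQ k j S T B) (S ∪ T) (VB k j S T B))
      (S ∪ T ∪ VB k j S T B) = (pmG (MqB k j S T B) (S ∪ T ∪ VB k j S T B)).det := by
  rw [pdt, pmG]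
  congr 1
  ext i q
  rw [Matrix.of_apply, Matrix.of_apply]
  exact blkM_MqB h i.2

theorem DetB0_pdt {k : ZMod 4} {j : Fin 4} {S T B : Finset Pg} (h : Dj S T B) :
    DetB0 k j S T B ↔ pdt (blkM s4 (kapB (kkB k S T B) j.val) (tauQ k j S T B) (S ∪ T)
      (VB k j S T B)) (S ∪ T ∪ VB k j S T B) ≠ 0 := by
  rw [DetB0_iff h, pdt_MqB h]

/-- **The end of the classes without border** : from the congruence of the value to the L-function of
the curve. -/
theorem LQ_of_det {k : ZMod 4} {j : Fin 4} {S T B : Finset Pg} (h : Dj S T B) {K : ℂ} {n : ℕ}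
    (hv : ∃ V : ValuationSubring ℂ, Rt V (LaB (kkB k S T B) j.val (eB T B) (S ∪ T ∪ B) / (K * lm ^ n))
      (pdt (blkM s4 (kapB (kkB k S T B) j.val) (tauQ k j S T B) (S ∪ T) (VB k j S T B))
        (S ∪ T ∪ VB k j S T B)))
    (hG : DetB0 k j S T B) : LQ (dB k j S T B) := by
  obtain ⟨V, hV⟩ := hv
  refine LQ_of_LaB h fun h0 => hV.ne_zero ((DetB0_pdt h).1 hG) ?_
  change LaB (kkB k S T B) j.val (eB T B) (S ∪ T ∪ B) = 0 at h0
  rw [h0, zero_div]

end

end Pool.Agent.Lib.MP_1a91b9_ntQ
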