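import Pool.Agent.Lib.MP_1a91b9_ntQ.B.LaJ2a
import Pool.Agent.Lib.MP_1a91b9_ntQ.B.DetGl

/-!
# Quartic twists, part B, file LsJ2a: the L side of class J2a (`j = 2`, `k = 1`)

`Rt_B_J2a` holds for both odd `k`; for `k = 3` it says that the value is smaller.
-/

set_option autoImplicit false

namespace Pool.Agent.Lib.MP_1a91b9_ntQ

open NumberField Finset Pool.Agent.Lib.MP_1a91b9_nuT Pool.Agent.Lib.MP_1a91b9_nuT.S3
  Pool.Agent.Lib.MP_1a91b9_nuT.Ell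

noncomputable section

/-- the first factor of the value is `1` for `k = 1` and `0` for `k = 3` -/
theorem xJ_kkB {k : ZMod 4} (hk : ¬ (k = 0 ∨ k = 2)) {S T B : Finset Pg} (h : Dj S T B) :
    xJ (kkB k S T B) + ∑ p ∈ S ∪ T, aa p.1 = xJ k := by
  have h1 : md (∑ q ∈ S ∪ T ∪ B, eB T B q * nn q.1) = ∑ p ∈ S ∪ T, aa p.1 := by
    have h3 : ∑ b ∈ B, md (eB T B b * nn b.1) = 0 := by
      refine sum_eq_zero fun b hb => ?_
      have h2 : md 2 = 0 := rfl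
      rw [map_mul, h.eb hb, h2, zero_mul]
    rw [map_sum, sum_union h.ub, h3, add_zero]
    refine sum_congr rfl fun p hp => ?_
    rw [map_mul, h.eodd hp, one_mul]
    rfl
  rw [← h1, kkB, kB, xJ, xJ]
  have key : ∀ k x : ZMod 4, ¬ (k = 0 ∨ k = 2) →
      (if k + 2 * x = 1 then (1 : ZMod 2) else 0) +
        (ZMod.castHom (show 2 ∣ 4 by norm_num) (ZMod 2)) x = if k = 1 then 1 else 0 := by decide
  exact key k _ hk

theorem kkB_odd {k : ZMod 4} (hk : ¬ (k = 0 ∨ k = 2)) (S T B : Finset Pg) :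
    ¬ (kkB k S T B = 0 ∨ kkB k S T B = 2) := by
  rw [kkB, kB]
  have key : ∀ k x : ZMod 4, ¬ (k = 0 ∨ k = 2) → ¬ (k + 2 * x = 0 ∨ k + 2 * x = 2) := by decide
  exact key k _ hk

/-- **Class J2a, the value** : the congruence for every `D` with `j = 2`, `k` odd. -/
theorem Rt_B_J2a {V : ValuationSubring ℂ} (hV : (2 : ℂ)⁻¹ ∉ V) {k : ZMod 4}
    (hk : ¬ (k = 0 ∨ k = 2)) {S T B : Finset Pg} (h : Dj S T B) :
    Rt V (LaB (kkB k S T B) 2 (eB T B) (S ∪ T ∪ B) / (KJ *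
        lm ^ ((S ∪ T).card + (UqB k 2 S T B).card + 2 * (VB k 2 S T B).card)))
      (xJ k * pdt (blkM s4 (kapB (kkB k S T B) 2) (tauQ k 2 S T B) (S ∪ T) (VB k 2 S T B))
        (S ∪ T ∪ VB k 2 S T B)) := by
  rw [← xJ_kkB hk h]
  exact Rt_LaB_J2a hV (kkB_odd hk S T B) h.ub (fun q hq => by rw [h.eodd hq]; exact one_ne_zero)
    (fun q hq => h.eb hq) (UqB_union k 2 S T B) (UqB_dis k 2 S T B)
    (fun b hb => hu1_B (j := 2) hb) fun b hb => hu0_B (j := 2) hb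

/-- **The field `a2` of the criterion.** -/
theorem lsB_a2 {S T B : Finset Pg} (h : Dj S T B) (hG : DetB0 1 2 S T B) :
    LQ (dB 1 2 S T B) := by
  obtain ⟨V, hV⟩ := exists_B2
  have h1 : ¬ ((1 : ZMod 4) = 0 ∨ (1 : ZMod 4) = 2) := by decide
  have h2 := Rt_B_J2a hV h1 h
  rw [xJ, if_pos rfl, one_mul] at h2
  exact LQ_of_det (j := 2) h ⟨V, h2⟩ hG

end

end Pool.Agent.Lib.MP_1a91b9_ntQ
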