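import Pool.Agent.Lib.MP_1a91b9_ntQ.B.DetGl

/-!
# Quartic twists, part B, file LsEv: the end of the even classes, the cofactor of the criterion
-/

set_option autoImplicit false
set_option linter.unusedSectionVars false

namespace Pool.Agent.Lib.MP_1a91b9_ntQ

open NumberField Finset

noncomputable section

section
variable {ι R : Type*} [DecidableEq ι] [CommRing R]

/-- the principal cofactors are the principal minors -/
theorem adj_pdt (M : ι → ι → R) {A : Finset ι} {r : ι} (hr : r ∈ A) :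
    (Matrix.of fun i j : A => M i j).adjugate ⟨r, hr⟩ ⟨r, hr⟩ = pdt M (A.erase r) := by
  rw [Matrix.adjugate_apply, det_single, one_mul, pdt]
  let E : {i : A // ¬ i = ⟨r, hr⟩} ≃ ↥(A.erase r) :=
    { toFun := fun i => ⟨i.1.1, mem_erase.2 ⟨fun h => i.2 (Subtype.ext h), i.1.2⟩⟩
      invFun := fun i => ⟨⟨i.1, mem_of_mem_erase i.2⟩, fun h =>
        ne_of_mem_erase i.2 (congrArg Subtype.val h)⟩
      left_inv := fun _ => rfl
      right_inv := fun _ => rfl }
  rw [← Matrix.det_submatrix_equiv_self E]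
  rfl

end

/-- **The cofactor of the criterion in the even classes.** -/
theorem cof_MqB {k : ZMod 4} {j : Fin 4} {S T B : Finset Pg} (h : Dj S T B) (hk : md k = 0)
    (hj : (j.val : ZMod 2) = 0) {r : Pg} (hr : r ∈ S ∪ T) :
    (pmG (MqB k j S T B) (S ∪ T ∪ VB k j S T B)).adjugate ⟨r, mem_union_left _ hr⟩
      ⟨r, mem_union_left _ hr⟩ =
    pdt (blkM s4 (fun x => s4 x r) (tauQ k j S T B) ((S ∪ T).erase r) (VB k j S T B))
      ((S ∪ T).erase r ∪ VB k j S T B) := by
  have hrV : r ∉ VB k j S T B := fun h' => disjoint_left.1 (h.dv k j) hr h'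
  have e1 : (S ∪ T ∪ VB k j S T B).erase r = (S ∪ T).erase r ∪ VB k j S T B := by
    rw [erase_union_distrib, erase_eq_of_notMem hrV]
  rw [pmG, adj_pdt (MqB k j S T B) (mem_union_left _ hr), e1]
  refine pdt_congr fun p hp q _ => ?_
  rw [blkM, MqB]
  by_cases hpq : p = q
  · rw [if_pos hpq, if_pos hpq]
    by_cases hpS : p ∈ (S ∪ T).erase r
    · have hpr := ne_of_mem_erase hpS
      have hpS' := mem_of_mem_erase hpS
      rw [if_pos hpS', if_pos hpS, kxB_even hk hj, zero_add]
      have hr' : r ∈ (S ∪ T).erase p := mem_erase.2 ⟨fun h' => hpr h'.symm, hr⟩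
      rw [← add_sum_erase _ _ hr', erase_right_comm]
    · have hpV : p ∈ VB k j S T B := (mem_union.1 hp).resolve_left hpS
      have hpS' : p ∉ S ∪ T := fun h' => disjoint_left.1 (h.dv k j) h' hpV
      rw [if_neg hpS', if_neg hpS, rhB_eq h hpV]
  · rw [if_neg hpq, if_neg hpq]
    exact (ZMod.neg_eq_self_mod_two _).symm

/-- **The end of the even classes without border** : from the congruence of the value to the
L-function of the curve. -/
theorem LQ_of_ker {k : ZMod 4} {j : Fin 4} {S T B : Finset Pg} (h : Dj S T B) (hk : md k = 0)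
    (hj : (j.val : ZMod 2) = 0) {K : ℂ} {n : ℕ} {a : ZMod 2} (ha : a = 1) {r : Pg}
    (hr : r ∈ S ∪ T)
    (hv : ∃ V : ValuationSubring ℂ, Rt V (LaB (kkB k S T B) j.val (eB T B) (S ∪ T ∪ B) / (K * lm ^ n))
      (a * pdt (blkM s4 (fun x => s4 x r) (tauQ k j S T B) ((S ∪ T).erase r) (VB k j S T B))
        ((S ∪ T).erase r ∪ VB k j S T B)))
    (hG : KerB0 k j S T B) : LQ (dB k j S T B) := by
  obtain ⟨V, hV⟩ := hv
  have h1 := KerB0.cof h hk hj hG hr
  rw [cof_MqB h hk hj hr] at h1
  rw [ha, one_mul] at hV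
  refine LQ_of_LaB h fun h0 => hV.ne_zero h1 ?_
  change LaB (kkB k S T B) j.val (eB T B) (S ∪ T ∪ B) = 0 at h0
  rw [h0, zero_div]

end

end Pool.Agent.Lib.MP_1a91b9_ntQ
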