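import Pool.Agent.Lib.MP_1a91b9_ntQ.B.LaJ2c
import Pool.Agent.Lib.MP_1a91b9_ntQ.B.LsEv

/-!
# Quartic twists, part B, file LsJ2c: the L side of class J2c (`j = 2`, `k` even)

`Rt_B_J2c` is the congruence for every `D` with `j = 2`, `k` even; the first factor is `bb c` for
`k = 0` and `aa c + bb c` for `k = 2`.
-/

set_option autoImplicit false

namespace Pool.Agent.Lib.MP_1a91b9_ntQ

open NumberField Finset Pool.Agent.Lib.MP_1a91b9_nuT Pool.Agent.Lib.MP_1a91b9_nuT.S3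
  Pool.Agent.Lib.MP_1a91b9_nuT.Ell

noncomputable section

theorem kkB_even {k : ZMod 4} (hk : k = 0 ∨ k = 2) (S T B : Finset Pg) :
    kkB k S T B = 0 ∨ kkB k S T B = 2 := by
  rw [kkB, kB]
  have key : ∀ k x : ZMod 4, (k = 0 ∨ k = 2) → (k + 2 * x = 0 ∨ k + 2 * x = 2) := by decide
  exact key k _ hk

/-- **The first factor.** -/
theorem sum_lJ_kk {k : ZMod 4} (hk : k = 0 ∨ k = 2) {S T B : Finset Pg} (h : Dj S T B) :
    ∑ p ∈ S ∪ T, (lJ (kkB k S T B) p.1 + aa p.1) = lJ k (cB S T B) := by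
  have h1 : ∀ kk : ZMod 4, ∑ p ∈ S ∪ T, (lJ kk p.1 + aa p.1) =
      (if kk = 2 then bb (cB S T B) else aa (cB S T B) + bb (cB S T B)) := by
    intro kk
    rw [aa_cB h.st, bb_cB h.st]
    by_cases h2 : kk = 2
    · rw [if_pos h2]
      refine sum_congr rfl fun p _ => ?_
      rw [lJ, if_pos h2]
      have h3 : ∀ x y : ZMod 2, x + y + x = y := by decide
      exact h3 _ _
    · rw [if_neg h2, ← sum_add_distrib]
      refine sum_congr rfl fun p _ => ?_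
      rw [lJ, if_neg h2, add_comm]
  rw [h1, lJ]
  have h4 : kkB k S T B = k + 2 * nn (cB S T B) := h.kB_eq k
  have h5 : aa (cB S T B) = md (nn (cB S T B)) := rfl
  rw [h4, h5]
  have key : ∀ (k x : ZMod 4) (y : ZMod 2), (k = 0 ∨ k = 2) →
      (if k + 2 * x = 2 then y else (ZMod.castHom (show 2 ∣ 4 by norm_num) (ZMod 2)) x + y) =
      if k = 2 then (ZMod.castHom (show 2 ∣ 4 by norm_num) (ZMod 2)) x + y else y := by decide
  exact key k _ _ hk

/-- **Class J2c, the value** : the congruence for every `D` with `j = 2`, `k` even. -/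
theorem Rt_B_J2c {V : ValuationSubring ℂ} (hV : (2 : ℂ)⁻¹ ∉ V) {k : ZMod 4}
    (hk : k = 0 ∨ k = 2) {S T B : Finset Pg} (h : Dj S T B) {r : Pg} (hr : r ∈ S ∪ T) :
    Rt V (LaB (kkB k S T B) 2 (eB T B) (S ∪ T ∪ B) / (LaB (kkB k S T B) 2 (eB T B) ∅ *
        lm ^ ((S ∪ T).card + (UqB k 2 S T B).card + 2 * (VB k 2 S T B).card + 1)))
      (lJ k (cB S T B) * pdt (blkM s4 (kapB (kkB k S T B) 2) (tauQ k 2 S T B) (S ∪ T)
        (VB k 2 S T B)) ((S ∪ T ∪ VB k 2 S T B).erase r)) := by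
  rw [← sum_lJ_kk hk h]
  exact Rt_LaB_J2c hV (kkB_even hk S T B) h.ub (fun q hq => by rw [h.eodd hq]; exact one_ne_zero)
    (fun q hq => h.eb hq) (UqB_union k 2 S T B) (UqB_dis k 2 S T B)
    (fun b hb => hu1_B (j := 2) hb) (fun b hb => hu0_B (j := 2) hb) hr

private theorem LsJ2c_end {k : ZMod 4} (hk : k = 0 ∨ k = 2) {S T B : Finset Pg} (h : Dj S T B)
    (hS : S.Nonempty) (hl : lJ k (cB S T B) = 1) (hG : KerB0 k 2 S T B) : LQ (dB k 2 S T B) := by
  obtain ⟨V, hV⟩ := exists_B2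
  obtain ⟨r, hr⟩ := hS
  have hr' : r ∈ S ∪ T := mem_union_left T hr
  have h2 := Rt_B_J2c hV hk h hr'
  have hk0 : md k = 0 := by
    rcases hk with rfl | rfl
    · exact md_zero
    · exact md_two
  have hj : (((2 : Fin 4).val : ℕ) : ZMod 2) = 0 := rfl
  have h1 := KerB0.cof h hk0 hj hG hr'
  rw [pmG, adj_pdt (MqB k 2 S T B) (mem_union_left _ hr')] at h1
  have e1 : pdt (blkM s4 (kapB (kkB k S T B) 2) (tauQ k 2 S T B) (S ∪ T) (VB k 2 S T B))
      ((S ∪ T ∪ VB k 2 S T B).erase r) = pdt (MqB k 2 S T B) ((S ∪ T ∪ VB k 2 S T B).erase r) :=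
    pdt_congr fun p hp q _ => blkM_MqB (j := 2) h (mem_of_mem_erase hp)
  rw [hl, one_mul, e1] at h2
  refine LQ_of_LaB h fun h0 => h2.ne_zero h1 ?_
  change LaB (kkB k S T B) 2 (eB T B) (S ∪ T ∪ B) = 0 at h0
  rw [h0, zero_div]

/-- **The field `c20` of the criterion.** -/
theorem lsB_c20 {S T B : Finset Pg} (h : Dj S T B) (hS : S.Nonempty) (hb : bb (cB S T B) = 1)
    (hG : KerB0 0 2 S T B) : LQ (dB 0 2 S T B) :=
  LsJ2c_end (Or.inl rfl) h hS (by rw [lJ, if_neg (by decide), hb]) hG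

/-- **The field `c22` of the criterion.** -/
theorem lsB_c22 {S T B : Finset Pg} (h : Dj S T B) (hS : S.Nonempty)
    (hb : aa (cB S T B) + bb (cB S T B) = 1) (hG : KerB0 2 2 S T B) : LQ (dB 2 2 S T B) :=
  LsJ2c_end (Or.inr rfl) h hS (by rw [lJ, if_pos rfl, hb]) hG

end

end Pool.Agent.Lib.MP_1a91b9_ntQ
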