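import Pool.Agent.Lib.MP_1a91b9_ntQ.B.LaJ3
import Pool.Agent.Lib.MP_1a91b9_ntQ.B.DetGl

/-!
# Quartic twists, part B, file LsJ3: the L side of the class J3 (`lam ^ 3 ∥ D`)
-/

set_option autoImplicit false

namespace Pool.Agent.Lib.MP_1a91b9_ntQ

open NumberField Finset Pool.Agent.Lib.MP_1a91b9_nuT Pool.Agent.Lib.MP_1a91b9_nuT.S3
  Pool.Agent.Lib.MP_1a91b9_nuT.Ell

noncomputable section

/-- **Class J3, the value** : the congruence for every `D` of the class. -/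
theorem Rt_B_J3 {V : ValuationSubring ℂ} (hV : (2 : ℂ)⁻¹ ∉ V) {k : ZMod 4}
    {S T B : Finset Pg} (h : Dj S T B) :
    Rt V (LaB (kkB k S T B) 3 (eB T B) (S ∪ T ∪ B) / (KJ3 *
        lm ^ ((S ∪ T).card + (UqB k 3 S T B).card + 2 * (VB k 3 S T B).card)))
      (pdt (blkM s4 (kapB (kkB k S T B) 3) (tauQ k 3 S T B) (S ∪ T) (VB k 3 S T B))
        (S ∪ T ∪ VB k 3 S T B)) :=
  LaB_J3 hV _ h.ub (fun q hq => by rw [h.eodd hq]; exact one_ne_zero)
    (fun q hq => h.eb hq) (UqB_union k 3 S T B) (UqB_dis k 3 S T B) (fun b hb => hu1_B hb)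
    fun b hb => hu0_B hb

/-- **The field `j3` of the criterion.** -/
theorem lsB_j3 {k : ZMod 4} {S T B : Finset Pg} (h : Dj S T B)
    (hG : DetB0 k 3 S T B) : LQ (dB k 3 S T B) := by
  obtain ⟨V, hV⟩ := exists_B2
  exact LQ_of_det (j := 3) h ⟨V, Rt_B_J3 hV h⟩ hG

end

end Pool.Agent.Lib.MP_1a91b9_ntQ
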