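import Pool.Agent.Lib.MP_1a91b9_ntQ.B.LsEB
import Pool.Agent.Lib.MP_1a91b9_ntQ.B.DetGl

/-!
# Quartic twists, all fourth-power-free `D`, class (E), file TopEB: the field `e` of the criterion
-/

set_option autoImplicit false

namespace Pool.Agent.Lib.MP_1a91b9_ntQ

open NumberField Finset Pool.Agent.Lib.MP_1a91b9_nuT Pool.Agent.Lib.MP_1a91b9_nuT.S3
  Pool.Agent.Lib.MP_1a91b9_nuT.Ell

noncomputable section

/-- the corner -/
theorem xE_kkB (k : ZMod 4) {S T B : Finset Pg} (h : Dj S T B) :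
    xE (kkB k S T B) + ∑ p ∈ S ∪ T, aa p.1 = xk4 k := by
  have h1 : ∀ κ n : ZMod 4, xE (κ + 2 * n) + md n = if κ = 0 ∨ κ = 3 then 1 else 0 := by
    unfold xE
    decide
  have h2 := h1 k (nn (cB S T B))
  have h3 : md (nn (cB S T B)) = ∑ p ∈ S ∪ T, aa p.1 := aa_cB h.st B
  rw [h3] at h2
  rw [kkB, h.kB_eq]
  exact h2

/-- the bordered determinant of the criterion -/
theorem pdB_NB1 {k : ZMod 4} {j : Fin 4} {S T B : Finset Pg} (h : Dj S T B)
    (p : Fin 2 → ZMod 2) (x : ZMod 2) :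
    pdB (blkM s4 (kapB (kkB k S T B) j.val) (tauQ k j S T B) (S ∪ T) (VB k j S T B)) (bpB p)
      (bpB p) x (S ∪ T ∪ VB k j S T B) = (NB1 k j p x S T B).det := by
  rw [NB1, det_NV1 _ _ _ d4_symm (h.dv k j), MqB_eq, pdB]
  simp only [bd_PpB]
  congr 2
  ext i q
  rw [Matrix.of_apply]
  exact blkM_MqB h i.2

/-- **Class (E), the value** : the congruence for every `D` of the class. -/
theorem Rt_B_E {V : ValuationSubring ℂ} (hV : (2 : ℂ)⁻¹ ∉ V) (k : ZMod 4)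
    {S T B : Finset Pg} (h : Dj S T B) :
    Rt V (LaB (kkB k S T B) 1 (eB T B) (S ∪ T ∪ B) / (KE *
        lm ^ ((S ∪ T).card + (UqB k 1 S T B).card + 2 * (VB k 1 S T B).card)))
      (NB1 k 1 ![1, 0] (xk4 k) S T B).det := by
  have h1 := Rt_LaB_E hV (kkB k S T B) (e := eB T B) h.ub
    (fun q hq => by rw [h.eodd hq]; exact one_ne_zero) (fun q hq => h.eb hq)
    (UqB_union k 1 S T B) (UqB_dis k 1 S T B) (fun b hb => hu1_B (j := 1) hb)
    fun b hb => hu0_B (j := 1) hb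
  rw [xE_kkB k h] at h1
  have h2 := pdB_NB1 (k := k) (j := 1) h ![1, 0] (xk4 k)
  have e1 : bpB ![1, 0] = fun q : Pg => aa q.1 := by
    funext q
    simp [bpB]
  rw [e1] at h2
  rw [← h2]
  exact h1

/-- **The field `e` of the criterion.** -/
theorem lsB_e {k : ZMod 4} {S T B : Finset Pg} (h : Dj S T B)
    (hG : DetB1 k 1 ![1, 0] (xk4 k) S T B) : LQ (dB k 1 S T B) := by
  obtain ⟨V, hV⟩ := exists_B2
  refine LQ_of_LaB h fun h0 => (Rt_B_E hV k h).ne_zero hG ?_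
  change LaB (kkB k S T B) 1 (eB T B) (S ∪ T ∪ B) = 0 at h0
  rw [h0, zero_div]

end

end Pool.Agent.Lib.MP_1a91b9_ntQ
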