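import Pool.Agent.Lib.MP_1a91b9_ntQ.A.ForB

/-!
# Quartic twists, all fourth-power-free `D`, class (X), file RankB: the rank one step

`N` is symmetric with `N u = 0`, `a · u = 0`, `σ · u = 1`, `u r = 1`. The row `r` of the adjugate of
`N + σ aᵀ` applied to `a + h σ` is the cofactor at `(r, r)` of `[[N, a], [aᵀ, h]]`, applied to `σ` it
is the cofactor at `(r, r)` of `N`.
-/

set_option autoImplicit false

namespace Pool.Agent.Lib.MP_1a91b9_ntQ

open Finset

section

variable {n : Type*} [Fintype n] [DecidableEq n]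

private theorem RankB_field : IsDomain (ZMod 2) :=
  have : Fact (Nat.Prime 2) := ⟨Nat.prime_two⟩
  inferInstance

private theorem RankB_neg : ∀ x : ZMod 2, -x = x := by decide

theorem BM_symm {N : Matrix n n (ZMod 2)} (hN : N.transpose = N) (a : n → ZMod 2) (h : ZMod 2) :
    (BM N a a h).transpose = BM N a a h := by
  unfold BM
  rw [Matrix.fromBlocks_transpose, hN]
  rfl

theorem BM_ker {N : Matrix n n (ZMod 2)} {u a : n → ZMod 2} (hu : N.mulVec u = 0)
    (ha : ∑ i, a i * u i = 0) (h : ZMod 2) :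
    (BM N a a h).mulVec (Sum.elim u fun _ => 0) = 0 := by
  ext y
  rcases y with i | ⟨⟩
  · have h1 := congrFun hu i
    simp only [Matrix.mulVec, dotProduct, BM, Fintype.sum_sum_type, Matrix.fromBlocks_apply₁₁,
      Matrix.fromBlocks_apply₁₂, Sum.elim_inl, Sum.elim_inr, mul_zero, sum_const_zero,
      add_zero] at h1 ⊢
    exact h1
  · simp only [Matrix.mulVec, dotProduct, BM, Fintype.sum_sum_type, Matrix.fromBlocks_apply₂₁,
      Matrix.fromBlocks_apply₂₂, Sum.elim_inl, Sum.elim_inr, mul_zero, sum_const_zero,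
      add_zero, Pi.zero_apply, Matrix.of_apply]
    exact ha

/-- **The rank one step, border `a`, corner `h`.** -/
theorem adj_rank_a {N : Matrix n n (ZMod 2)} (hN : N.transpose = N) {u a σ : n → ZMod 2}
    (hu : N.mulVec u = 0) (ha : ∑ i, a i * u i = 0) (hσ : ∑ i, σ i * u i = 1) {r : n}
    (hr : u r = 1) (h : ZMod 2) :
    ∑ j, (N + Matrix.vecMulVec σ a).adjugate r j * (a j + h * σ j) =
      (BM N a a h).adjugate (Sum.inl r) (Sum.inl r) := by
  have := RankB_field
  have h1 := adj_rank_one N σ a a h r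
  have e1 : N - Matrix.vecMulVec σ a = N + Matrix.vecMulVec σ a := by
    ext i j
    rw [Matrix.sub_apply, Matrix.add_apply]
    have : ∀ x y : ZMod 2, x - y = x + y := by decide
    exact this _ _
  have e2 : ∀ j, a j - h * σ j = a j + h * σ j := fun j => by
    have : ∀ x y : ZMod 2, x - y = x + y := by decide
    exact this _ _
  rw [e1, sum_congr rfl fun j _ => by rw [e2 j], RankB_neg] at h1
  rw [h1]
  have h2 : ∀ x y, (BM N a a h).adjugate x y = (BM N a a h).adjugate (Sum.inl r) (Sum.inl r) *
      ((Sum.elim u fun _ => 0 : n ⊕ Unit → ZMod 2) x * (Sum.elim u fun _ => 0) y) :=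
    adj_ker (BM_symm hN a h) (BM_ker hu ha h) (k := Sum.inl r) (by
      rw [Sum.elim_inl, hr, mul_one])
  have h3 : (BM N a a h).adjugate (Sum.inl r) (Sum.inr ()) = 0 := by
    rw [h2, Sum.elim_inr, mul_zero, mul_zero]
  rw [h3, add_zero]
  have h4 : ∀ j, (BM N a a h).adjugate (Sum.inl r) (Sum.inl j) * σ j =
      (BM N a a h).adjugate (Sum.inl r) (Sum.inl r) * (σ j * u j) := fun j => by
    rw [h2 (Sum.inl r) (Sum.inl j), Sum.elim_inl, Sum.elim_inl, hr]
    ring
  rw [sum_congr rfl fun j _ => h4 j, ← mul_sum, hσ, mul_one]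

/-- the corner -/
theorem adj_BM_corner {N : Matrix n n (ZMod 2)} (a : n → ZMod 2) (h : ZMod 2) (r : n) :
    (BM N a a h).adjugate (Sum.inl r) (Sum.inl r) =
      (BM N a a 0).adjugate (Sum.inl r) (Sum.inl r) + h * N.adjugate r r := by
  have e : ∀ h : ZMod 2, (BM N a a h).updateRow (Sum.inl r) (Pi.single (Sum.inl r) 1) =
      BM (N.updateRow r (Pi.single r 1)) (Function.update a r 0) a h := by
    intro h
    ext x y
    rcases x with x | ⟨⟩
    · by_cases hx : x = r
      · subst hx
        rw [Matrix.updateRow_self]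
        rcases y with y | ⟨⟩
        · simp only [BM, Matrix.fromBlocks_apply₁₁, Matrix.updateRow_self]
          by_cases hy : y = x
          · subst hy
            rw [Pi.single_eq_same, Pi.single_eq_same]
          · rw [Pi.single_eq_of_ne (fun h' => hy (Sum.inl_injective h')), Pi.single_eq_of_ne hy]
        · simp only [BM, Matrix.fromBlocks_apply₁₂, Matrix.of_apply, Function.update_self]
          rw [Pi.single_eq_of_ne (by simp)]
      · rw [Matrix.updateRow_ne (fun h' => hx (Sum.inl_injective h'))]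
        rcases y with y | ⟨⟩
        · simp only [BM, Matrix.fromBlocks_apply₁₁, Matrix.updateRow_ne hx]
        · simp only [BM, Matrix.fromBlocks_apply₁₂, Matrix.of_apply, Function.update_of_ne hx]
    · rw [Matrix.updateRow_ne (by simp)]
      rcases y with y | ⟨⟩
      · rfl
      · rfl
  rw [Matrix.adjugate_apply, Matrix.adjugate_apply, Matrix.adjugate_apply, e, e, det_BM, det_BM]
  ring

/-- **The rank one step, applied to `σ`.** -/
theorem adj_rank_s {N : Matrix n n (ZMod 2)} (hN : N.transpose = N) {u a σ : n → ZMod 2}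
    (hu : N.mulVec u = 0) (ha : ∑ i, a i * u i = 0) (hσ : ∑ i, σ i * u i = 1) {r : n}
    (hr : u r = 1) :
    ∑ j, (N + Matrix.vecMulVec σ a).adjugate r j * σ j = N.adjugate r r := by
  have h1 := adj_rank_a hN hu ha hσ hr 1
  have h0 := adj_rank_a hN hu ha hσ hr 0
  have h2 := adj_BM_corner (N := N) a 1 r
  have e : ∑ j, (N + Matrix.vecMulVec σ a).adjugate r j * (a j + 1 * σ j) =
      ∑ j, (N + Matrix.vecMulVec σ a).adjugate r j * (a j + 0 * σ j) +
        ∑ j, (N + Matrix.vecMulVec σ a).adjugate r j * σ j := by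
    rw [← sum_add_distrib]
    exact sum_congr rfl fun j _ => by ring
  rw [h1, h0, h2, one_mul] at e
  exact (add_left_cancel e).symm

end

end Pool.Agent.Lib.MP_1a91b9_ntQ
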