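import Pool.Agent.Lib.MP_1a91b9_ntQ.B.SyXB
import Pool.Agent.Lib.MP_1a91b9_ntQ.B.RankB
import Pool.Agent.Lib.MP_1a91b9_ntQ.B.DetGl

/-!
# Quartic twists, all fourth-power-free `D`, class (X), file MatXB: the final matrix

The final matrix of the weights `nXB q0` is the matrix of the criterion plus `s4 q0 · aa` (also on the
primes of exponent two; no condition on the symbols of `q0` there). A determinant with one column
replaced by `aa + h s4 q0` is the cofactor of the bordered matrix.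
-/

set_option autoImplicit false

namespace Pool.Agent.Lib.MP_1a91b9_ntQ

open NumberField Finset Pool.Agent.Lib.MP_1a91b9_nuT Pool.Agent.Lib.MP_1a91b9_nuT.S3
  Pool.Agent.Lib.MP_1a91b9_nuT.Ell

noncomputable section

/-- a determinant with one column replaced, as a row of the adjugate -/
theorem pdt_colX {ι R : Type*} [DecidableEq ι] [CommRing R] (M : ι → ι → R) (v : ι → R)
    {A : Finset ι} {r : ι} (hr : r ∈ A) :
    pdt (fun i j => if j = r then v i else M i j) A =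
      ∑ j : A, (Matrix.of fun i j : A => M i j).adjugate ⟨r, hr⟩ j * v j := by
  obtain ⟨N, hN⟩ : ∃ N : Matrix A A R, N = Matrix.of fun i j : A => M i j := ⟨_, rfl⟩
  have e1 : (Matrix.of fun i j : A => if (j : ι) = r then v i else M i j) =
      N.updateCol ⟨r, hr⟩ fun i => v i := by
    ext i j
    rw [Matrix.updateCol_apply, Matrix.of_apply, hN]
    by_cases h : (j : ι) = r
    · rw [if_pos h, if_pos (Subtype.ext h)]
    · rw [if_neg h, if_neg fun h' => h (congrArg Subtype.val h'), Matrix.of_apply]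
  have e2 := Matrix.cramer_eq_adjugate_mulVec N fun i : A => v i
  have e3 := congrFun e2 ⟨r, hr⟩
  rw [Matrix.cramer_apply] at e3
  rw [pdt, e1, e3, ← hN]
  rfl

/-- the linear terms -/
def tauXB (k : ZMod 4) (h : ZMod 2) (q0 : Pg) (S T B : Finset Pg) (b : Pg) : ZMod 2 :=
  hf2 (k * nn b.1 + bXB q0 (eB T B) h (S ∪ T ∪ UqB k 0 S T B) b.1)

theorem hf2_add {x y : ZMod 4} (h : md x = 0) : hf2 (x + 2 * y) = hf2 x + md y := by
  have key : ∀ x y : ZMod 4, (ZMod.castHom (show 2 ∣ 4 by norm_num) (ZMod 2)) x = 0 →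
      (if x + 2 * y = 2 then (1 : ZMod 2) else 0) =
        (if x = 2 then 1 else 0) + (ZMod.castHom (show 2 ∣ 4 by norm_num) (ZMod 2)) y := by decide
  exact key x y h

variable {k : ZMod 4} {S T B : Finset Pg}

/-- the sum of the exponents -/
theorem Dj.sum_e_nn (h : Dj S T B) : ∑ q ∈ S ∪ T ∪ B, eB T B q * nn q.1 = nn (cB S T B) := by
  rw [h.sumE, h.nn_cB]

/-- `k` does not change in class (X) -/
theorem kkB_X (h : Dj S T B) (hA : ∑ q ∈ S ∪ T, aa q.1 = 0) :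
    kkB k S T B = k := by
  have key : ∀ k n : ZMod 4, md n = 0 → k + 2 * n = k := by decide
  have h1 : md (nn (cB S T B)) = 0 := by
    have h2 : md (nn (cB S T B)) = ∑ q ∈ S ∪ T, aa q.1 := aa_cB h.st B
    rw [h2, hA]
  rw [kkB, h.kB_eq]
  exact key _ _ h1

/-- the linear terms of class (X) -/
theorem tauXB_eq (h : Dj S T B) (hA : ∑ q ∈ S ∪ T, aa q.1 = 0) {h' : ZMod 2}
    {q0 : Pg} (h0 : aa q0.1 = 1) (hh' : hh h' + nn (cB S T B) = 0) {b : Pg}
    (hb : b ∈ VB k 0 S T B) :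
    tauXB k h' q0 S T B b = tauQ k 0 S T B b + s4 q0 b * ∑ a ∈ VB k 0 S T B, aa a.1 := by
  have hbST : b ∉ S ∪ T := fun h' => disjoint_left.1 h.ub h' (VB_sub k 0 S T B hb)
  have hU : S ∪ T ∪ B = (S ∪ T ∪ UqB k 0 S T B) ∪ VB k 0 S T B := by
    rw [union_assoc (S ∪ T), UqB_union]
  have hd : Disjoint (S ∪ T ∪ UqB k 0 S T B) (VB k 0 S T B) :=
    disjoint_union_left.2 ⟨h.dv k 0, UqB_dis k 0 S T B⟩
  have hdU : Disjoint (S ∪ T) (UqB k 0 S T B) := disjoint_of_subset_right sdiff_subset h.ub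
  -- the exponent of the auxiliary prime
  have h1 : hh h' + ∑ p ∈ S ∪ T ∪ UqB k 0 S T B, eB T B p * nn p.1 =
      2 * ∑ a ∈ VB k 0 S T B, nn a.1 := by
    have h2 := h.sum_e_nn
    rw [hU, sum_union hd] at h2
    have h3 : ∑ a ∈ VB k 0 S T B, eB T B a * nn a.1 = 2 * ∑ a ∈ VB k 0 S T B, nn a.1 := by
      rw [mul_sum]
      exact sum_congr rfl fun a ha => by rw [h.eb (VB_sub k 0 S T B ha)]
    rw [h3] at h2
    have h4 : ∀ x : ZMod 4, 2 * x + 2 * x = 0 := by decide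
    linear_combination hh' + h2 - h4 (∑ a ∈ VB k 0 S T B, nn a.1)
  have h2 : k * nn b.1 + bXB q0 (eB T B) h' (S ∪ T ∪ UqB k 0 S T B) b.1 =
      EB (kkB k S T B) 0 (eB T B) (S ∪ T ∪ UqB k 0 S T B) b +
        2 * (-((∑ a ∈ VB k 0 S T B, nn a.1) * nn q0.1 * c4 q0 b.1)) := by
    rw [bXB, e0XB, h1, EB, kkB_X h hA, Nat.cast_zero]
    ring
  have h3 : md (EB (kkB k S T B) 0 (eB T B) (S ∪ T ∪ UqB k 0 S T B) b) = 0 := by
    rw [md_EB_union (kkB k S T B) 0 hdU (fun a ha => h.eb (mem_sdiff.1 ha).1) b,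
      md_EB _ _ (fun q hq => by rw [h.eodd hq]; exact one_ne_zero) hbST]
    exact hu0_B (j := 0) hb
  have h5 : md (nn q0.1) = 1 := h0
  have hneg : ∀ x : ZMod 2, -x = x := by decide
  have h6 : md (c4 q0 b.1) = s4 q0 b := rfl
  rw [tauXB, h2, hf2_add h3, map_neg, hneg, map_mul, map_mul, h5, h6, map_sum, tauQ, mul_one,
    mul_comm (s4 q0 b)]
  rfl

/-- **The final matrix of class (X).** -/
theorem blkM_nXB (hk : k = 0 ∨ k = 2) (h : Dj S T B) (hA : ∑ q ∈ S ∪ T, aa q.1 = 0) {h' : ZMod 2}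
    {q0 : Pg} (h0 : aa q0.1 = 1) (hh' : hh h' + nn (cB S T B) = 0) {p q : Pg}
    (hp : p ∈ S ∪ T ∪ VB k 0 S T B) :
    blkM (nXB q0) (fun _ => 0) (tauXB k h' q0 S T B) (S ∪ T) (VB k 0 S T B) p q =
      MqB k 0 S T B p q + s4 q0 p * aa q.1 := by
  have hneg : ∀ x : ZMod 2, -x = x := by decide
  have h2 : ∀ x : ZMod 2, x + x = 0 := by decide
  have hkap : kxB k 0 p = 0 := kxB_even (by rcases hk with rfl | rfl <;> rfl) rfl p
  rw [blkM, MqB]
  split_ifs with h3 h4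
  · subst h3
    have h5 : ∑ x ∈ (S ∪ T).erase p, aa x.1 = aa p.1 := by
      have h6 := add_sum_erase (S ∪ T) (fun x : Pg => aa x.1) h4
      rw [hA] at h6
      linear_combination h6 - h2 (aa p.1)
    rw [hkap]
    have h6 : ∑ x ∈ (S ∪ T).erase p, nXB q0 p x =
        ∑ x ∈ (S ∪ T).erase p, s4 p x + s4 q0 p * ∑ x ∈ (S ∪ T).erase p, aa x.1 := by
      rw [mul_sum, ← sum_add_distrib]
      exact sum_congr rfl fun x _ => by rw [nXB_eq, mul_comm (aa x.1)]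
    rw [h6, h5, add_assoc]
  · subst h3
    have hb := (mem_union.1 hp).resolve_left h4
    have h6 : ∑ x ∈ (VB k 0 S T B).erase p, nXB q0 p x =
        ∑ x ∈ (VB k 0 S T B).erase p, s4 p x + s4 q0 p * ∑ x ∈ (VB k 0 S T B).erase p, aa x.1 := by
      rw [mul_sum, ← sum_add_distrib]
      exact sum_congr rfl fun x _ => by rw [nXB_eq, mul_comm (aa x.1)]
    have h7 := add_sum_erase (VB k 0 S T B) (fun x : Pg => aa x.1) hb
    rw [h6, tauXB_eq h hA h0 hh' hb, rhB_eq h hb, ← h7]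
    linear_combination s4 q0 p * h2 (∑ x ∈ (VB k 0 S T B).erase p, aa x.1)
  · rw [hneg, nXB_eq, mul_comm (aa q.1)]

/-- the indicator of `S ∪ T` is in the kernel -/
theorem MqB_ker (hk : k = 0 ∨ k = 2) (h : Dj S T B) :
    (pmG (MqB k 0 S T B) (S ∪ T ∪ VB k 0 S T B)).mulVec
      (fun i => if (i : Pg) ∈ S ∪ T then 1 else 0) = 0 := by
  have hk2 : md k = 0 := by rcases hk with rfl | rfl <;> rfl
  have h1 := MG_mulVec d4 (kvB k 0) (rhB k 0 S T B) (h.dv k 0)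
    (fun i _ => by rw [dg_kvB, kxB_even hk2 rfl]) (fun v hv => by
      have h2 := (mem_VB.1 hv).2
      rw [kxB_even hk2 rfl, add_zero] at h2
      exact h2)
  rw [MqB_eq] at h1
  exact h1

/-- **The determinant with one column replaced**, border `aa`, corner `h`. -/
theorem pdt_nXB_a (hk : k = 0 ∨ k = 2) (h : Dj S T B) (hA : ∑ q ∈ S ∪ T, aa q.1 = 0) {h' : ZMod 2}
    {q0 : Pg} (h0 : aa q0.1 = 1) (hh' : hh h' + nn (cB S T B) = 0)
    (hs : ∑ p ∈ S ∪ T, s4 q0 p = 1) {r : Pg} (hr : r ∈ S ∪ T) (x : ZMod 2) :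
    pdt (fun i j => if j = r then aa i.1 + x * s4 q0 i else
        blkM (nXB q0) (fun _ => 0) (tauXB k h' q0 S T B) (S ∪ T) (VB k 0 S T B) i j)
        (S ∪ T ∪ VB k 0 S T B) =
      (BM (pmG (MqB k 0 S T B) (S ∪ T ∪ VB k 0 S T B)) (fun i => aa i.1.1) (fun i => aa i.1.1)
        x).adjugate (Sum.inl ⟨r, mem_union_left _ hr⟩) (Sum.inl ⟨r, mem_union_left _ hr⟩) := by
  have hsym : (pmG (MqB k 0 S T B) (S ∪ T ∪ VB k 0 S T B)).transpose =
      pmG (MqB k 0 S T B) (S ∪ T ∪ VB k 0 S T B) := by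
    have h1 := MG_symm d4 (kvB k 0) (rhB k 0 S T B) d4_symm (S ∪ T) (S ∪ T ∪ VB k 0 S T B)
    rwa [MqB_eq] at h1
  have hsum : ∀ f : Pg → ZMod 2, ∑ i : ↥(S ∪ T ∪ VB k 0 S T B),
      f i * (if (i : Pg) ∈ S ∪ T then 1 else 0) = ∑ i ∈ S ∪ T, f i := by
    intro f
    rw [sum_coe_sort (S ∪ T ∪ VB k 0 S T B) fun j => f j * (if j ∈ S ∪ T then 1 else 0),
      sum_union (h.dv k 0)]
    have h2 : ∑ x ∈ VB k 0 S T B, f x * (if x ∈ S ∪ T then 1 else 0) = 0 :=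
      sum_eq_zero fun x hx => by
        rw [if_neg fun h' => disjoint_left.1 (h.dv k 0) h' hx, mul_zero]
    rw [h2, add_zero]
    exact sum_congr rfl fun x hx => by rw [if_pos hx, mul_one]
  have hM : (Matrix.of fun i j : ↥(S ∪ T ∪ VB k 0 S T B) =>
      blkM (nXB q0) (fun _ => 0) (tauXB k h' q0 S T B) (S ∪ T) (VB k 0 S T B) i j) =
      pmG (MqB k 0 S T B) (S ∪ T ∪ VB k 0 S T B) +
        Matrix.vecMulVec (fun i : ↥(S ∪ T ∪ VB k 0 S T B) => s4 q0 i)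
          (fun i : ↥(S ∪ T ∪ VB k 0 S T B) => aa i.1.1) := by
    ext i j
    rw [Matrix.add_apply, Matrix.vecMulVec_apply, Matrix.of_apply]
    exact blkM_nXB hk h hA h0 hh' i.2
  rw [pdt_colX _ _ (mem_union_left _ hr), hM]
  exact adj_rank_a hsym (MqB_ker hk h) (by rw [hsum fun q => aa q.1, hA])
    (by rw [hsum fun q => s4 q0 q, hs]) (by rw [if_pos hr]) x

/-- **The determinant with one column replaced by `s4 q0`.** -/
theorem pdt_nXB_s (hk : k = 0 ∨ k = 2) (h : Dj S T B) (hA : ∑ q ∈ S ∪ T, aa q.1 = 0) {h' : ZMod 2}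
    {q0 : Pg} (h0 : aa q0.1 = 1) (hh' : hh h' + nn (cB S T B) = 0)
    (hs : ∑ p ∈ S ∪ T, s4 q0 p = 1) {r : Pg} (hr : r ∈ S ∪ T) :
    pdt (fun i j => if j = r then s4 q0 i else
        blkM (nXB q0) (fun _ => 0) (tauXB k h' q0 S T B) (S ∪ T) (VB k 0 S T B) i j)
        (S ∪ T ∪ VB k 0 S T B) =
      (pmG (MqB k 0 S T B) (S ∪ T ∪ VB k 0 S T B)).adjugate ⟨r, mem_union_left _ hr⟩
        ⟨r, mem_union_left _ hr⟩ := by
  have hsym : (pmG (MqB k 0 S T B) (S ∪ T ∪ VB k 0 S T B)).transpose =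
      pmG (MqB k 0 S T B) (S ∪ T ∪ VB k 0 S T B) := by
    have h1 := MG_symm d4 (kvB k 0) (rhB k 0 S T B) d4_symm (S ∪ T) (S ∪ T ∪ VB k 0 S T B)
    rwa [MqB_eq] at h1
  have hsum : ∀ f : Pg → ZMod 2, ∑ i : ↥(S ∪ T ∪ VB k 0 S T B),
      f i * (if (i : Pg) ∈ S ∪ T then 1 else 0) = ∑ i ∈ S ∪ T, f i := by
    intro f
    rw [sum_coe_sort (S ∪ T ∪ VB k 0 S T B) fun j => f j * (if j ∈ S ∪ T then 1 else 0),
      sum_union (h.dv k 0)]
    have h2 : ∑ x ∈ VB k 0 S T B, f x * (if x ∈ S ∪ T then 1 else 0) = 0 :=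
      sum_eq_zero fun x hx => by
        rw [if_neg fun h' => disjoint_left.1 (h.dv k 0) h' hx, mul_zero]
    rw [h2, add_zero]
    exact sum_congr rfl fun x hx => by rw [if_pos hx, mul_one]
  have hM : (Matrix.of fun i j : ↥(S ∪ T ∪ VB k 0 S T B) =>
      blkM (nXB q0) (fun _ => 0) (tauXB k h' q0 S T B) (S ∪ T) (VB k 0 S T B) i j) =
      pmG (MqB k 0 S T B) (S ∪ T ∪ VB k 0 S T B) +
        Matrix.vecMulVec (fun i : ↥(S ∪ T ∪ VB k 0 S T B) => s4 q0 i)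
          (fun i : ↥(S ∪ T ∪ VB k 0 S T B) => aa i.1.1) := by
    ext i j
    rw [Matrix.add_apply, Matrix.vecMulVec_apply, Matrix.of_apply]
    exact blkM_nXB hk h hA h0 hh' i.2
  rw [pdt_colX _ _ (mem_union_left _ hr), hM]
  exact adj_rank_s hsym (MqB_ker hk h) (by rw [hsum fun q => aa q.1, hA])
    (by rw [hsum fun q => s4 q0 q, hs]) (by rw [if_pos hr])

end

end Pool.Agent.Lib.MP_1a91b9_ntQ
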