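import Pool.Agent.Lib.MP_1a91b9_ntQ.A.DefB
import Pool.Agent.Lib.MP_1a91b9_ntQ.A.Wt4
import Pool.Agent.Lib.MP_1a91b9_ntQ.A.PairR

/-!
# Quartic twists, stage 2, file WtB: the weights with exponents

`wB e S x = ∏ (1 - chE e q x)`; a factor is divisible by `lm ^ 2` if `e q = 2` and by `lm` if
`e q = 1, 3`; `wtB e S x = wB e S x / lm ^ mB e S` is congruent to `∏ c2 q x`.
-/

set_option autoImplicit false
set_option linter.unusedSectionVars false

namespace Pool.Agent.Lib.MP_1a91b9_ntQ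

open NumberField Pool.Agent.Lib.MP_1a91b9_nuT Pool.Agent.Lib.MP_1a91b9_nuT.S3
  Pool.Agent.Lib.MP_1a91b9_nuT.Ell

noncomputable section

/-- the order of a factor -/
def mq (t : ZMod 4) : ℕ := if md t = 0 then 2 else 1

/-- the order of the weight -/
def mB (e : Pg → ZMod 4) (S : Finset Pg) : ℕ := ∑ q ∈ S, (if md (e q) = 0 then 2 else 1)

theorem mB_eq (e : Pg → ZMod 4) (S : Finset Pg) : mB e S = ∑ q ∈ S, mq (e q) := rfl

/-- the normalised weight -/
def wtB (e : Pg → ZMod 4) (S : Finset Pg) (x : 𝓞 K) : ℂ := wB e S x / lm ^ mB e S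

theorem mq_le (t : ZMod 4) : mq t ≤ 2 := by
  unfold mq
  split_ifs
  · exact le_rfl
  · exact one_le_two

theorem mq_pos (t : ZMod 4) : 1 ≤ mq t := by
  unfold mq
  split_ifs
  · exact one_le_two
  · exact le_rfl

theorem mq_two {t : ZMod 4} (h : md t = 0) : mq t = 2 := if_pos h

theorem mq_odd {t : ZMod 4} (h : md t ≠ 0) : mq t = 1 := if_neg h

theorem mB_empty (e : Pg → ZMod 4) : mB e ∅ = 0 := Finset.sum_empty

theorem wB_empty (e : Pg → ZMod 4) (x : 𝓞 K) : wB e ∅ x = 1 := Finset.prod_empty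

theorem mB_insert (e : Pg → ZMod 4) [DecidableEq Pg] {q : Pg} {S : Finset Pg} (h : q ∉ S) :
    mB e (insert q S) = mq (e q) + mB e S := by
  rw [mB_eq, mB_eq, Finset.sum_insert h]

theorem wB_one (S : Finset Pg) (x : 𝓞 K) : wB (fun _ => 1) S x = w4 S x := by
  unfold wB w4
  exact Finset.prod_congr rfl fun q _ => by rw [chE_eq_ch4 (e := fun _ => 1) rfl]

theorem mB_one (S : Finset Pg) : mB (fun _ => 1) S = S.card := by
  rw [mB_eq, Finset.card_eq_sum_ones]
  refine Finset.sum_congr rfl fun q _ => mq_odd ?_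
  rw [map_one]
  exact one_ne_zero

theorem wtB_one (S : Finset Pg) (x : 𝓞 K) : wtB (fun _ => 1) S x = wt4 S x := by
  rw [wtB, wB_one, mB_one]
  rfl

theorem wB_per (e : Pg → ZMod 4) {S : Finset Pg} {a b : 𝓞 K} (h : DDq S ∣ a - b) :
    wB e S a = wB e S b := by
  unfold wB
  refine Finset.prod_congr rfl fun q hq => ?_
  rw [(chE_chrP e q).per a b ((dvd_DDq.2 hq).trans h)]

/-! ### the factors -/

section
variable [CD] [Q4] {B : ValuationSubring ℂ}

theorem two_div_lm_sq : (1 - (-1 : ℂ)) / lm ^ 2 = -zt := by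
  rw [div_eq_iff (pow_ne_zero 2 lm_ne), lm_sq]
  linear_combination 2 * zt_sq

/-- the residue class of a factor -/
theorem Rt_mq (hB : (2 : ℂ)⁻¹ ∉ B) {e : ZMod 4} (he : e ≠ 0) (t : ZMod 4) :
    Rt B ((1 - e4 (e * t)) / lm ^ mq e) (md t) := by
  have key : ∀ e : ZMod 4, e ≠ 0 → (md e ≠ 0 ∧ ∀ t : ZMod 4, md (e * t) = md t) ∨
      (md e = 0 ∧ ∀ t : ZMod 4, (e * t = 0 ∧ md t = 0) ∨ (e * t = 2 ∧ md t = 1)) := by decide
  rcases key e he with ⟨h1, h2⟩ | ⟨h1, h2⟩
  · rw [mq_odd h1, pow_one, ← h2 t]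
    exact Rt_e4 hB _
  · rw [mq_two h1]
    rcases h2 t with ⟨h, h'⟩ | ⟨h, h'⟩
    · rw [h, h', e4_zero, sub_self, zero_div]
      exact Rt.zero
    · rw [h, h', e4_two, two_div_lm_sq]
      have h4 := Rt_e4 hB 1
      rw [e4_one, one_sub_zt_div, md_one] at h4
      exact h4

/-- the difference of a factor at `x` and `- x` -/
theorem v_mq_sub {e : ZMod 4} (he : e ≠ 0) (t n : ZMod 4) :
    B.valuation ((1 - e4 (e * (2 * n + t))) / lm ^ mq e - (1 - e4 (e * t)) / lm ^ mq e) ≤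
      B.valuation lm := by
  have e1 : (1 - e4 (e * (2 * n + t))) / lm ^ mq e - (1 - e4 (e * t)) / lm ^ mq e =
      e4 (e * t) * ((1 - e4 (e * (2 * n))) / lm ^ mq e) := by
    rw [mul_add, e4_add]
    ring
  rw [e1, map_mul, v_e4, one_mul]
  have key : ∀ e : ZMod 4, e ≠ 0 → (md e ≠ 0 ∧ ∀ n : ZMod 4, e * (2 * n) = 2 * n) ∨
      (md e = 0 ∧ ∀ n : ZMod 4, e * (2 * n) = 0) := by decide
  rcases key e he with ⟨h1, h2⟩ | ⟨h1, h2⟩
  · rw [mq_odd h1, pow_one, h2]
    exact v_e4_two_mul n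
  · rw [h2, e4_zero, sub_self, zero_div, map_zero]
    exact zero_le

/-- products of elements of `B` close to each other -/
theorem v_prod_sub_le {α : Type*} {S : Finset α} {f g : α → ℂ} {l : B.ValueGroup}
    (hf : ∀ q ∈ S, B.valuation (f q) ≤ 1) (hg : ∀ q ∈ S, B.valuation (g q) ≤ 1)
    (h : ∀ q ∈ S, B.valuation (g q - f q) ≤ l) :
    B.valuation (∏ q ∈ S, g q - ∏ q ∈ S, f q) ≤ l := by
  classical
  induction S using Finset.induction_on with
  | empty =>
    rw [Finset.prod_empty, Finset.prod_empty, sub_self, map_zero]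
    exact zero_le
  | insert q T hq ih =>
    have i2 := ih (fun a ha => hf a (Finset.mem_insert_of_mem ha))
      (fun a ha => hg a (Finset.mem_insert_of_mem ha)) fun a ha => h a (Finset.mem_insert_of_mem ha)
    have i1 : B.valuation (∏ q ∈ T, f q) ≤ 1 := by
      rw [map_prod]
      exact Finset.prod_le_one' fun a ha => hf a (Finset.mem_insert_of_mem ha)
    rw [Finset.prod_insert hq, Finset.prod_insert hq]
    have e : g q * ∏ q ∈ T, g q - f q * ∏ q ∈ T, f q =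
        g q * (∏ q ∈ T, g q - ∏ q ∈ T, f q) + (g q - f q) * ∏ q ∈ T, f q := by ring
    rw [e]
    refine (Valuation.map_add _ _ _).trans (max_le ?_ ?_)
    · rw [map_mul]
      exact (mul_le_mul' (hg q (Finset.mem_insert_self q T)) i2).trans (by rw [one_mul])
    · rw [map_mul]
      exact (mul_le_mul' (h q (Finset.mem_insert_self q T)) i1).trans (by rw [mul_one])

/-- two systems of exponents -/
theorem v_mq_exp {e e' : ZMod 4} (he : e ≠ 0) (he' : e' ≠ 0) (t : ZMod 4) :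
    B.valuation ((1 - e4 (e * t)) / lm ^ mq e - (1 - e4 (e' * t)) / lm ^ mq e') ≤
      B.valuation lm := by
  have key : ∀ e : ZMod 4, e ≠ 0 → ∀ t : ZMod 4,
      B.valuation ((1 - e4 (e * t)) / lm ^ mq e - (1 - e4 t) / lm) ≤ B.valuation lm := by
    intro e he t
    have h1 : ∀ e : ZMod 4, e ≠ 0 → e = 1 ∨ e = 2 ∨ e = 3 := by decide
    have z1 : (1 - e4 1) / lm = -zt := by rw [e4_one, one_sub_zt_div]
    have z2 : (1 - e4 2) / lm = 1 - zt := by
      rw [e4_two, sub_neg_eq_add, one_add_one_eq_two, two_div_lm]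
    have z3 : (1 - e4 3) / lm = 1 := by
      rw [e4_three, sub_neg_eq_add]
      exact div_self lm_ne
    have z0 : (1 - e4 0) / lm = 0 := by rw [e4_zero, sub_self, zero_div]
    have vz : B.valuation (1 - zt) = B.valuation lm := by
      have e : 1 - zt = -(zt * lm) := by
        rw [lm]
        linear_combination zt_sq
      rw [e, Valuation.map_neg, map_mul, v_zt, one_mul]
    have v1 : B.valuation (1 + zt) = B.valuation lm := by rw [lm]
    have m1 : mq 1 = 1 := mq_odd (by decide)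
    have m2 : mq 2 = 2 := mq_two (by decide)
    have m3 : mq 3 = 1 := mq_odd (by decide)
    rcases h1 e he with rfl | rfl | rfl
    · rw [m1, pow_one, one_mul, sub_self, map_zero]
      exact zero_le
    · rw [m2]
      rcases e4_cases t with rfl | rfl | rfl | rfl
      · rw [mul_zero, z0, e4_zero, sub_self, zero_div, sub_self, map_zero]
        exact zero_le
      · rw [mul_one, z1, e4_two, two_div_lm_sq, sub_self, map_zero]
        exact zero_le
      · have h4 : (2 : ZMod 4) * 2 = 0 := by decide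
        rw [h4, z2, e4_zero, sub_self, zero_div, zero_sub, Valuation.map_neg, vz]
      · have h4 : (2 : ZMod 4) * 3 = 2 := by decide
        rw [h4, z3, e4_two, two_div_lm_sq]
        have e : -zt - 1 = -(1 + zt) := by ring
        rw [e, Valuation.map_neg, v1]
    · rw [m3, pow_one]
      rcases e4_cases t with rfl | rfl | rfl | rfl
      · rw [mul_zero, sub_self, map_zero]
        exact zero_le
      · rw [mul_one, z1, z3]
        have e : 1 - -zt = 1 + zt := by ring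
        rw [e, v1]
      · have h4 : (3 : ZMod 4) * 2 = 2 := by decide
        rw [h4, sub_self, map_zero]
        exact zero_le
      · have h4 : (3 : ZMod 4) * 3 = 1 := by decide
        rw [h4, z1, z3]
        have e : -zt - 1 = -(1 + zt) := by ring
        rw [e, Valuation.map_neg, v1]
  have e1 : (1 - e4 (e * t)) / lm ^ mq e - (1 - e4 (e' * t)) / lm ^ mq e' =
      ((1 - e4 (e * t)) / lm ^ mq e - (1 - e4 t) / lm) -
        ((1 - e4 (e' * t)) / lm ^ mq e' - (1 - e4 t) / lm) := by ring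
  rw [e1]
  exact (Valuation.map_sub _ _ _).trans (max_le (key e he t) (key e' he' t))

end

section
variable {B : ValuationSubring ℂ}

theorem wtB_eq (e : Pg → ZMod 4) (S : Finset Pg) (x : 𝓞 K) :
    wtB e S x = ∏ q ∈ S, ((1 - chE e q x) / lm ^ mq (e q)) := by
  rw [wtB, wB, mB_eq, Finset.prod_div_distrib, Finset.prod_pow_eq_pow_sum]

/-- the residue class of the weight -/
theorem Rt_wtB (hB : (2 : ℂ)⁻¹ ∉ B) {e : Pg → ZMod 4} {S : Finset Pg} (he : ∀ q ∈ S, e q ≠ 0)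
    {x : 𝓞 K} (h : ∀ q ∈ S, ¬ q.1 ∣ x) : Rt B (wtB e S x) (∏ q ∈ S, c2 q x) := by
  rw [wtB_eq]
  refine Rt.prod hB S fun q hq => ?_
  rw [chE_of_not e (h q hq)]
  exact Rt_mq hB (he q hq) _

theorem v_wtB (hB : (2 : ℂ)⁻¹ ∉ B) {e : Pg → ZMod 4} {S : Finset Pg} (he : ∀ q ∈ S, e q ≠ 0)
    {x : 𝓞 K} (h : ∀ q ∈ S, ¬ q.1 ∣ x) : B.valuation (wtB e S x) ≤ 1 := (Rt_wtB hB he h).le

theorem c4_neg' (q : Pg) {x y : 𝓞 K} (hx : ¬ q.1 ∣ x) (hxy : q.1 ∣ x + y) :
    ¬ q.1 ∣ y ∧ c4 q y = 2 * nn q.1 + c4 q x := by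
  have h1 : ¬ q.1 ∣ -1 * x := fun h => (q.2.1.dvd_or_dvd h).elim (not_dvd_neg_one q) hx
  have h2 : q.1 ∣ -1 * x - y := by
    obtain ⟨t, ht⟩ := hxy
    exact ⟨-t, by linear_combination -ht⟩
  refine ⟨fun h => h1 ?_, ?_⟩
  · have h3 := dvd_add h2 h
    rwa [sub_add_cancel] at h3
  · rw [← c4_neg_one, ← c4_mul q (not_dvd_neg_one q) hx]
    exact (c4_congr q h1 h2).symm

theorem v_wtB_sub (hB : (2 : ℂ)⁻¹ ∉ B) {e : Pg → ZMod 4} {S : Finset Pg} (he : ∀ q ∈ S, e q ≠ 0)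
    {x y : 𝓞 K} (h : ∀ q ∈ S, ¬ q.1 ∣ x) (hxy : DDq S ∣ x + y) :
    B.valuation (wtB e S y - wtB e S x) ≤ B.valuation lm := by
  have h0 : ∀ q ∈ S, ¬ q.1 ∣ y ∧ c4 q y = 2 * nn q.1 + c4 q x := fun q hq =>
    c4_neg' q (h q hq) ((dvd_DDq.2 hq).trans hxy)
  rw [wtB_eq, wtB_eq]
  refine v_prod_sub_le (fun q hq => ?_) (fun q hq => ?_) fun q hq => ?_
  · rw [chE_of_not e (h q hq)]
    exact (Rt_mq hB (he q hq) _).le
  · rw [chE_of_not e (h0 q hq).1]
    exact (Rt_mq hB (he q hq) _).le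
  · rw [chE_of_not e (h q hq), chE_of_not e (h0 q hq).1, (h0 q hq).2]
    exact v_mq_sub (he q hq) _ _

theorem v_wtB_exp (hB : (2 : ℂ)⁻¹ ∉ B) {e e' : Pg → ZMod 4} {S : Finset Pg}
    (he : ∀ q ∈ S, e q ≠ 0) (he' : ∀ q ∈ S, e' q ≠ 0) {x : 𝓞 K} (h : ∀ q ∈ S, ¬ q.1 ∣ x) :
    B.valuation (wtB e S x - wtB e' S x) ≤ B.valuation lm := by
  rw [wtB_eq, wtB_eq]
  refine v_prod_sub_le (fun q hq => ?_) (fun q hq => ?_) fun q hq => ?_
  · rw [chE_of_not e' (h q hq)]
    exact (Rt_mq hB (he' q hq) _).le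
  · rw [chE_of_not e (h q hq)]
    exact (Rt_mq hB (he q hq) _).le
  · rw [chE_of_not e (h q hq), chE_of_not e' (h q hq)]
    exact v_mq_exp (he q hq) (he' q hq) _

/-- **TRANSFER** of the exponents, order zero: `F` of size less than `g / lm`, the pairs of size at
most `g`. -/
theorem transfer (hB : (2 : ℂ)⁻¹ ∉ B) {e e' : Pg → ZMod 4} {S : Finset Pg}
    (he : ∀ q ∈ S, e q ≠ 0) (he' : ∀ q ∈ S, e' q ≠ 0) {ι : Type} [Fintype ι] {x : ι → 𝓞 K}
    {sg : ι → ι} (hx : ∀ i, ∀ q ∈ S, ¬ q.1 ∣ x i) (h2 : ∀ i, sg (sg i) = i) (h1 : ∀ i, sg i ≠ i)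
    {F : ι → ℂ} {g : B.ValueGroup} (hg : 0 < g) (hF : ∀ i, B.valuation lm * B.valuation (F i) < g) :
    B.valuation (∑ i, (wtB e S (x i) - wtB e' S (x i)) * F i) < g := by
  refine v_sum_inv B h2 h1 (fun i => (wtB e S (x i) - wtB e' S (x i)) * F i) hg fun i => ?_
  refine Valuation.map_add_lt _ ?_ ?_
  · rw [map_mul]
    exact (mul_le_mul' (v_wtB_exp hB he he' (hx i)) le_rfl).trans_lt (hF i)
  · rw [map_mul]
    exact (mul_le_mul' (v_wtB_exp hB he he' (hx _)) le_rfl).trans_lt (hF _)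

end

/-! ### the sum of the weights -/

section
variable {S : Finset Pg} {ι : Type} {c : ι → 𝓞 K} (hc : RepsG (lam ^ 3) (lam ^ 3 * DDq S) c)
include hc

/-- the sum over the classes of a product of powers of characters -/
theorem sum_chE [Fintype ι] {e : Pg → ZMod 4} (he : ∀ q ∈ S, e q ≠ 0) {T : Finset Pg}
    (hTS : T ⊆ S) (hT : T.Nonempty) : ∑ i, ∏ q ∈ T, chE e q (c i) = 0 := by
  classical
  obtain ⟨r, hr⟩ := hT
  obtain ⟨t, ht⟩ : ∃ t : ZMod 4, e r * t = 2 := by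
    have key : ∀ a : ZMod 4, a ≠ 0 → ∃ t : ZMod 4, a * t = 2 := by decide
    exact key _ (he r (hTS hr))
  obtain ⟨σ, h1, h2⟩ := reps_tr hc (hTS hr) t
  have hv : ∀ i, ∀ q ∈ T, chE e q (c i) = e4 (e q * c4 q (c i)) := fun i q hq =>
    chE_of_not e (reps_not_dvd hc i (hTS hq))
  have h3 : ∑ i, ∏ q ∈ T, chE e q (c i) = -∑ i, ∏ q ∈ T, chE e q (c i) := by
    conv_lhs => rw [← Equiv.sum_comp σ]
    rw [← Finset.sum_neg_distrib]
    refine Finset.sum_congr rfl fun i _ => ?_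
    rw [← Finset.mul_prod_erase T _ hr, ← Finset.mul_prod_erase T _ hr, ← neg_mul]
    congr 1
    · rw [hv _ r hr, hv _ r hr, h1, mul_add, e4_add, ht, e4_two, mul_neg_one]
    · refine Finset.prod_congr rfl fun q hq => ?_
      have hqT := Finset.mem_of_mem_erase hq
      rw [hv _ q hqT, hv _ q hqT, h2 i q (hTS hqT) (Finset.ne_of_mem_erase hq)]
  have h4 : 2 * ∑ i, ∏ q ∈ T, chE e q (c i) = 0 := by linear_combination h3
  exact (mul_eq_zero.1 h4).resolve_left two_ne_zero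

/-- **The sum of the weights.** -/
theorem sum_wB_c [Fintype ι] {e : Pg → ZMod 4} (he : ∀ q ∈ S, e q ≠ 0) :
    ∑ i, wB e S (c i) = ∏ q ∈ S, ((Nz q.1 : ℂ) - 1) := by
  classical
  have h1 : ∀ i, wB e S (c i) = ∑ T ∈ S.powerset, (-1) ^ T.card * ∏ q ∈ T, chE e q (c i) := by
    intro i
    unfold wB
    have e' : ∀ q ∈ S, 1 - chE e q (c i) = 1 + -chE e q (c i) := fun q _ => by ring
    rw [Finset.prod_congr rfl e', Finset.prod_one_add]
    refine Finset.sum_congr rfl fun T _ => ?_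
    rw [Finset.prod_neg]
  rw [Finset.sum_congr rfl fun i _ => h1 i, Finset.sum_comm]
  rw [Finset.sum_eq_single_of_mem ∅ (Finset.empty_mem_powerset S)]
  · rw [Finset.card_empty, pow_zero, Finset.sum_congr rfl fun i _ => by
      rw [Finset.prod_empty, mul_one], Finset.sum_const, Finset.card_univ, card_reps hc]
    rw [nsmul_eq_mul, mul_one, Nat.cast_prod]
    refine Finset.prod_congr rfl fun q _ => ?_
    have h2 := Nz_two_le q.prime
    rw [Nat.cast_sub (by omega), Nat.cast_one]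
  · intro T hT hne
    rw [← Finset.mul_sum, sum_chE hc he (Finset.mem_powerset.1 hT)
      (Finset.nonempty_iff_ne_empty.2 hne), mul_zero]

/-- a sum over a system modulo `DDq S` is a sum over the primary representatives -/
theorem sum_reps_one [Fintype ι] {κ : Type} [Fintype κ] {y : κ → 𝓞 K} (hy : RepsG 1 (DDq S) y)
    {f : 𝓞 K} (hf : IsCoprime f (DDq S)) {R : Type*} [AddCommMonoid R] {F : 𝓞 K → R}
    (hF : ∀ a b, DDq S ∣ a - b → F a = F b) : ∑ i, F (f * y i) = ∑ j, F (c j) := by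
  obtain ⟨u, v, huv⟩ := in4_cop_lam (DDq_in4 S) 3
  have hl : IsCoprime (lam ^ 3) (DDq S) := (in4_cop_lam (DDq_in4 S) 3).symm
  have hex : ∀ i, ∃ j, DDq S ∣ f * y i - c j := by
    intro i
    have h1 : lam ^ 3 ∣ f * y i + u * DDq S * (1 - f * y i) - 1 :=
      ⟨v * (f * y i - 1), by linear_combination (1 - f * y i) * huv⟩
    have h2 : IsCoprime (f * y i + u * DDq S * (1 - f * y i)) (DDq S) := by
      obtain ⟨p, q, hpq⟩ := IsCoprime.mul_left hf (hy.cop i)
      exact ⟨p, q - p * (u * (1 - f * y i)), by linear_combination hpq⟩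
    obtain ⟨j, t, ht⟩ := hc.ex _ (IsCoprime.mul_right (in4_cop_lam h1 3) h2) h1
    exact ⟨j, lam ^ 3 * t - u * (1 - f * y i), by linear_combination ht⟩
  choose σ hσ using hex
  have hinj : ∀ i j, DDq S ∣ c i - c j → i = j := by
    intro i j h
    refine hc.inj i j (hl.mul_dvd ?_ h)
    have h4 := dvd_sub (hc.fx i) (hc.fx j)
    have e : c i - 1 - (c j - 1) = c i - c j := by ring
    rwa [e] at h4
  have hbij : Function.Bijective σ := by
    constructor
    · intro i j hij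
      refine hy.inj i j ?_
      have h1 := dvd_sub (hσ i) (hσ j)
      rw [hij] at h1
      have e : f * y i - c (σ j) - (f * y j - c (σ j)) = f * (y i - y j) := by ring
      rw [e] at h1
      exact hf.symm.dvd_of_dvd_mul_left h1
    · intro j
      obtain ⟨g, w, hgw⟩ := hf
      have h2 : IsCoprime (g * c j) (DDq S) := by
        refine IsCoprime.mul_left ⟨f, w, by linear_combination hgw⟩ ?_
        exact (hc.cop j).of_isCoprime_of_dvd_right (dvd_mul_left _ _)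
      obtain ⟨i, t, ht⟩ := hy.ex _ h2 (one_dvd _)
      refine ⟨i, hinj _ _ ?_⟩
      obtain ⟨s, hs⟩ := hσ i
      exact ⟨-s - f * t - w * c j, by linear_combination -hs - f * ht + c j * hgw⟩
  rw [← Function.Bijective.sum_comp hbij]
  exact Finset.sum_congr rfl fun i _ => hF _ _ (hσ i)

end

/-- **The sum of the weights**, over a system modulo `DDq S`. -/
theorem sum_wB {S : Finset Pg} {ι : Type} [Fintype ι] {y : ι → 𝓞 K} (hy : RepsG 1 (DDq S) y)
    {e : Pg → ZMod 4} (he : ∀ q ∈ S, e q ≠ 0) {f : 𝓞 K} (hf : IsCoprime f (DDq S)) :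
    ∑ i, wB e S (f * y i) = ∏ q ∈ S, ((Nz q.1 : ℂ) - 1) := by
  obtain ⟨κ, hκ, c, hc⟩ := RepsG.exists_reps (f := lam ^ 3) (ν := lam ^ 3 * DDq S)
    (mul_ne_zero (pow_ne_zero 3 lam_ne_zero) (DDq_in4 S).ne_zero) (dvd_mul_right _ _)
  rw [sum_reps_one hc hy hf fun a b h => wB_per e h, sum_wB_c hc he]

/-- the sum of the normalised weights -/
theorem sum_wtB {S : Finset Pg} {ι : Type} [Fintype ι] {y : ι → 𝓞 K}
    (hy : RepsG 1 (DDq S) y) {e : Pg → ZMod 4} (he : ∀ q ∈ S, e q ≠ 0) {f : 𝓞 K}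
    (hf : IsCoprime f (DDq S)) :
    ∑ i, wtB e S (f * y i) = ∏ q ∈ S, (((Nz q.1 : ℂ) - 1) / lm ^ mq (e q)) := by
  have h1 : ∑ i, wtB e S (f * y i) = (∑ i, wB e S (f * y i)) / lm ^ mB e S := by
    rw [Finset.sum_div]
    rfl
  rw [h1, sum_wB hy he hf, mB_eq, Finset.prod_div_distrib, Finset.prod_pow_eq_pow_sum]

section
variable {B : ValuationSubring ℂ}

/-- the residue class of `(Nz q - 1) / lm ^ 4` -/
theorem Rt_Nz4 (hB : (2 : ℂ)⁻¹ ∉ B) (q : Pg) : Rt B (((Nz q.1 : ℂ) - 1) / lm ^ 4) (aa q.1) := by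
  obtain ⟨k, hk, hk2⟩ := nn_eq_Nz q.in4
  have e : ((Nz q.1 : ℂ) - 1) / lm ^ 4 = -(k : ℂ) := by
    rw [hk, lm_four]
    push_cast
    ring
  have e2 : aa q.1 = (k : ZMod 2) := by
    rw [aa, hk2, md_natCast]
  rw [e, e2]
  have h := (Rt.natCast hB k).neg hB
  exact h

theorem v_Nz_div (hB : (2 : ℂ)⁻¹ ∉ B) (t : ZMod 4) (q : Pg) :
    B.valuation (((Nz q.1 : ℂ) - 1) / lm ^ mq t) ≤ B.valuation lm ^ (4 - mq t) := by
  have h := (Rt_Nz4 hB q).le
  have e1 : ((Nz q.1 : ℂ) - 1) / lm ^ mq t =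
      ((Nz q.1 : ℂ) - 1) / lm ^ 4 * lm ^ (4 - mq t) := by
    have h1 : lm ^ 4 = lm ^ (4 - mq t) * lm ^ mq t := by
      rw [← pow_add]
      congr 1
      have := mq_le t
      omega
    have h2 : lm ^ mq t ≠ 0 := pow_ne_zero _ lm_ne
    have h3 : lm ^ (4 - mq t) ≠ 0 := pow_ne_zero _ lm_ne
    rw [h1]
    field_simp
  rw [e1, map_mul, map_pow]
  exact mul_le_of_le_one_left' h

/-- the bound for the sum of the normalised weights -/
theorem v_prod_Nz_div (hB : (2 : ℂ)⁻¹ ∉ B) (e : Pg → ZMod 4) (S : Finset Pg) :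
    B.valuation (∏ q ∈ S, (((Nz q.1 : ℂ) - 1) / lm ^ mq (e q))) ≤
      B.valuation lm ^ (∑ q ∈ S, (4 - mq (e q))) := by
  rw [map_prod, ← Finset.prod_pow_eq_pow_sum]
  exact Finset.prod_le_prod' fun q _ => v_Nz_div hB (e q) q

theorem two_card_le (e : Pg → ZMod 4) (S : Finset Pg) :
    2 * S.card ≤ ∑ q ∈ S, (4 - mq (e q)) := by
  rw [Finset.card_eq_sum_ones, Finset.mul_sum]
  refine Finset.sum_le_sum fun q _ => ?_
  have := mq_le (e q)
  omega

/-- the sum of the normalised weights divided by `lm`: it is in the maximal ideal -/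
theorem v_sum_one (hB : (2 : ℂ)⁻¹ ∉ B) (e : Pg → ZMod 4) {S : Finset Pg} (hS : S.Nonempty) :
    B.valuation (∏ q ∈ S, (((Nz q.1 : ℂ) - 1) / lm ^ mq (e q))) < B.valuation lm := by
  have h1 := v_prod_Nz_div hB e S
  have h2 := two_card_le e S
  have h3 := hS.card_pos
  have h4 := v_lm_pow_lt (B := B) hB (show 1 < ∑ q ∈ S, (4 - mq (e q)) by omega)
  rw [pow_one] at h4
  exact h1.trans_lt h4

/-- the sum of the normalised weights divided by `lm ^ 2`: it is in the maximal ideal except for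
one prime with exponent two -/
theorem Rt_sum_two (hB : (2 : ℂ)⁻¹ ∉ B) (e : Pg → ZMod 4) {S : Finset Pg} (hS : S.Nonempty) :
    Rt B ((∏ q ∈ S, (((Nz q.1 : ℂ) - 1) / lm ^ mq (e q))) / lm ^ 2)
      (if S.card = 1 then ∑ q ∈ S, (if md (e q) = 0 then aa q.1 else 0) else 0) := by
  have hl : (0 : B.ValueGroup) < B.valuation lm := v_lm_pos
  have h1 := v_prod_Nz_div hB e S
  have key : ∀ n, 2 < n → n ≤ ∑ q ∈ S, (4 - mq (e q)) →
      Rt B ((∏ q ∈ S, (((Nz q.1 : ℂ) - 1) / lm ^ mq (e q))) / lm ^ 2) 0 := by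
    intro n hn hn2
    refine Rt.of_lt ?_
    rw [map_div₀, map_pow, div_lt_one₀ (pow_pos hl 2)]
    exact h1.trans_lt (v_lm_pow_lt hB (hn.trans_le hn2))
  split_ifs with h2
  · obtain ⟨q, rfl⟩ := Finset.card_eq_one.1 h2
    rw [Finset.sum_singleton, Finset.prod_singleton]
    split_ifs with h3
    · rw [mq_two h3, div_div, ← pow_add]
      exact Rt_Nz4 hB q
    · have h4 := key 3 (by norm_num) (by rw [Finset.sum_singleton, mq_odd h3])
      rwa [Finset.prod_singleton] at h4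
  · have h3 := hS.card_pos
    have h4 := two_card_le e S
    exact key 4 (by norm_num) (by omega)

end

end

end Pool.Agent.Lib.MP_1a91b9_ntQ
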