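import Pool.Agent.Lib.MP_1a91b9_ntQ.A.AvgX
import Pool.Agent.Lib.MP_1a91b9_ntQ.B.WtB

/-!
# Quartic twists, part B, file AvgXB: class (X) with exponents, the sums over the residue classes

`e : Pg → ZMod 4` are the exponents, `q0` the auxiliary prime; the block character of the set `T` is
`chi_0 ^ (e0XB q0 e h T) ∏ (q ∈ T) chi_q ^ (e q)`, its value at `i` is `(-1) ^ h`.
-/

set_option autoImplicit false
set_option linter.unusedSectionVars false

namespace Pool.Agent.Lib.MP_1a91b9_ntQ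

open NumberField Pool.Agent.Lib.MP_1a91b9_nuT Pool.Agent.Lib.MP_1a91b9_nuT.S3
  Pool.Agent.Lib.MP_1a91b9_nuT.Ell

noncomputable section

/-! ### The block characters -/

/-- the exponent of the character at `q0` -/
def e0XB (q0 : Pg) (e : Pg → ZMod 4) (h : ZMod 2) (T : Finset Pg) : ZMod 4 :=
  -((hh h + ∑ p ∈ T, e p * nn p.1) * nn q0.1)

/-- the exponents -/
def eXB (q0 : Pg) (e : Pg → ZMod 4) (h : ZMod 2) (T : Finset Pg) (q : Pg) : ZMod 4 :=
  if q = q0 then e0XB q0 e h T else e q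

/-- the support -/
def sXB (q0 : Pg) (e : Pg → ZMod 4) (h : ZMod 2) (T : Finset Pg) : Finset Pg :=
  if e0XB q0 e h T = 0 then T else insert q0 T

/-- the exponent of the value at `x` of the block character -/
def bXB (q0 : Pg) (e : Pg → ZMod 4) (h : ZMod 2) (T : Finset Pg) (x : 𝓞 K) : ZMod 4 :=
  e0XB q0 e h T * c4 q0 x + ∑ p ∈ T, e p * c4 p x

theorem sXB_sub (q0 : Pg) (e : Pg → ZMod 4) (h : ZMod 2) {T J : Finset Pg} (hT : T ⊆ J) :
    sXB q0 e h T ⊆ insert q0 J := by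
  unfold sXB
  split
  · exact hT.trans (Finset.subset_insert _ _)
  · exact Finset.insert_subset_insert _ hT

theorem chE_congr_e {e e' : Pg → ZMod 4} {q : Pg} (h : e q = e' q) : chE e q = chE e' q := by
  funext x
  by_cases hx : q.1 ∣ x
  · rw [chE_of_dvd e hx, chE_of_dvd e' hx]
  · rw [chE_of_not e hx, chE_of_not e' hx, h]

theorem chP_congr_e {e e' : Pg → ZMod 4} {T : Finset Pg} (h : ∀ q ∈ T, e q = e' q) :
    chP e T = chP e' T := by
  funext x
  rw [chP, chP]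
  exact Finset.prod_congr rfl fun q hq => by rw [chE_congr_e (h q hq)]

theorem Xe_congr_e {k : ZMod 4} {e e' : Pg → ZMod 4} {T : Finset Pg} (h : ∀ q ∈ T, e q = e' q) :
    Xe k e T = Xe k e' T := by
  funext x
  rw [Xe_eq, Xe_eq, chP_congr_e h]

/-- the values of the block character -/
theorem chP_XB {q0 : Pg} (e : Pg → ZMod 4) (h : ZMod 2) {T : Finset Pg} (hq : q0 ∉ T) {x : 𝓞 K}
    (hx : ¬ q0.1 ∣ x) :
    chP (eXB q0 e h T) (sXB q0 e h T) x = e4 (e0XB q0 e h T * c4 q0 x) * chP e T x := by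
  have h1 : chP (eXB q0 e h T) T x = chP e T x := by
    rw [chP_congr_e fun q hqT => ?_]
    have h2 : q ≠ q0 := by
      rintro rfl
      exact hq hqT
    rw [eXB, if_neg h2]
  unfold sXB
  split
  · next h3 => rw [h3, zero_mul, e4_zero, one_mul, h1]
  · have h4 : chP (eXB q0 e h T) (insert q0 T) x =
        chE (eXB q0 e h T) q0 x * chP (eXB q0 e h T) T x := by
      rw [chP, Finset.prod_insert hq, chP]
    rw [h4, h1, chE_of_not _ hx, eXB, if_pos rfl]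

theorem chP_iOB {q0 : Pg} (h0 : aa q0.1 = 1) (e : Pg → ZMod 4) (h : ZMod 2) {T : Finset Pg}
    (hq : q0 ∉ T) : chP (eXB q0 e h T) (sXB q0 e h T) iO = e4 (hh h) := by
  rw [chP_XB e h hq (iO_not q0), chP_of_not fun q _ => iO_not q, ← e4_add, c4_i,
    Finset.sum_congr rfl fun q _ => by rw [c4_i q], e0XB]
  have key : ∀ (h : ZMod 2) (n s : ZMod 4), md n = 1 → -((hh h + s) * n) * n + s = hh h := by
    unfold hh
    decide
  rw [key h _ _ h0]

theorem chP_negB {q0 : Pg} (h0 : aa q0.1 = 1) (e : Pg → ZMod 4) (h : ZMod 2) {T : Finset Pg}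
    (hq : q0 ∉ T) : chP (eXB q0 e h T) (sXB q0 e h T) (-1) = 1 := by
  have key : ∀ h : ZMod 2, ((2 : ℕ) : ZMod 4) * hh h = 0 := by
    unfold hh
    decide
  rw [← iO_sq, chP_pow, chP_iOB h0 e h hq, e4_pow, key, e4_zero]

/-- **The sums `M_k^h(T; J)`.** -/
def MMB (k : ZMod 4) (h : ZMod 2) (q0 : Pg) (e : Pg → ZMod 4) (T J : Finset Pg) : ℂ :=
  GX q0 (f4 k) (chP e T) (fun z => UX k h (X z)) J

/-- the left side of (3.1) -/
def LXB (k : ZMod 4) (h : ZMod 2) (q0 : Pg) (e : Pg → ZMod 4) (T J : Finset Pg) : ℂ :=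
  em (f4 k * (q0.1 * DDq J)) * (LG (lam ^ 3) (Xe k (eXB q0 e h T) (sXB q0 e h T)) 1 *
    ∏ q ∈ insert q0 J \ sXB q0 e h T, (1 - Xe k (eXB q0 e h T) (sXB q0 e h T) q.1 / em q.1))

/-- **(3.1)** -/
theorem MMB_eq {k : ZMod 4} (hk : k = 0 ∨ k = 2) {q0 : Pg} (h0 : aa q0.1 = 1) (e : Pg → ZMod 4)
    (h : ZMod 2) {T J : Finset Pg} (hT : T ⊆ J) (hq : q0 ∉ J) :
    LXB k h q0 e T J = th4 k (q0.1 * DDq J) * CX k * MMB k h q0 e T J := by
  have hqT : q0 ∉ T := fun h => hq (hT h)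
  have hM := DDq_insert hq
  have hM0 : DDq (insert q0 J) ≠ 0 := (DDq_in4 _).ne_zero
  have hd : q0.1 ∣ DDq (insert q0 J) := dvd_DDq.2 (Finset.mem_insert_self _ _)
  have hS : (insert q0 J).Nonempty := Finset.insert_nonempty _ _
  have hf := cop_f4_DDq k (insert q0 J)
  have h1 := Xe_u hk (eXB q0 e h T) (sXB_sub q0 e h hT) hS (chP_negB h0 e h hqT)
  have hper : Pd (DDq (insert q0 J)) fun y => chP (eXB q0 e h T) (sXB q0 e h T) (f4 k * y) *
      uX k (X (em y / em (DDq (insert q0 J)))) := by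
    refine ((Pd_chP _ (sXB_sub q0 e h hT)).comp_mul _).mul ?_
    exact Pd_div (G := fun z => uX k (X z)) hM0 fun z w hzw => by rw [X_congr hzw]
  rw [orb h0 hM0 hd hf hper] at h1
  rw [LXB, MMB, GX, ← hM, h1]
  congr 1
  refine SM_congr fun y => ?_
  by_cases hy : IsCoprime y (DDq (insert q0 J)) ∧ c4 q0 (f4 k * y) = 0
  · rw [rsX_pos _ hy.1 hy.2, rsX_pos _ hy.1 hy.2, uX_orb hk hS (chP_iOB h0 e h hqT) hy.1]
    congr 1
    have h2 : ¬ q0.1 ∣ f4 k * y := fun h3 =>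
      q0.prime.not_isUnit ((hf.mul_left hy.1).isUnit_of_dvd' h3 hd)
    rw [chP_XB e h hqT h2, hy.2, mul_zero, e4_zero, one_mul]
  · rw [rsX_neg _ hy, rsX_neg _ hy]

/-- **(3.2)** -/
theorem MMB_step {k : ZMod 4} (hk : k = 0 ∨ k = 2) {q0 : Pg} (h0 : aa q0.1 = 1)
    (e : Pg → ZMod 4) (h : ZMod 2)
    {T J : Finset Pg} (hT : T ⊆ J) {q : Pg} (hq : q ∉ J) (hq0 : q0 ∉ insert q J) :
    MMB k h q0 e T (insert q J) =
      (th4 k q.1 * em q.1 - e4 (bXB q0 e h T q.1)) * MMB k h q0 e T J := by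
  have hqq : q0 ≠ q := fun e => hq0 (e ▸ Finset.mem_insert_self _ _)
  have hqJ : q0 ∉ J := fun e => hq0 (Finset.mem_insert_of_mem e)
  have hqT : q ∉ T := fun e => hq (hT e)
  have hq0T : q0 ∉ T := fun e => hqJ (hT e)
  have h1 := MMB_eq hk h0 e h (hT.trans (Finset.subset_insert q J)) hq0
  have h2 := MMB_eq hk h0 e h hT hqJ
  have hqs : q ∉ sXB q0 e h T := by
    unfold sXB
    split
    · exact hqT
    · rw [Finset.mem_insert, not_or]
      exact ⟨hqq.symm, hqT⟩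
  have hset : insert q0 (insert q J) \ sXB q0 e h T = insert q (insert q0 J \ sXB q0 e h T) := by
    rw [Finset.insert_comm, Finset.insert_sdiff_of_notMem _ hqs]
  have hnot : q ∉ insert q0 J \ sXB q0 e h T := by
    rw [Finset.mem_sdiff, Finset.mem_insert]
    rintro ⟨h3 | h3, -⟩
    · exact hqq h3.symm
    · exact hq h3
  have heq : q0.1 * DDq (insert q J) = q.1 * (q0.1 * DDq J) := by
    rw [DDq_insert hq]
    ring
  have hq1 : em q.1 ≠ 0 := em_ne q.ne_zero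
  have hth : th4 k (q.1 * (q0.1 * DDq J)) = th4 k q.1 * th4 k (q0.1 * DDq J) :=
    th4_mul k q.in4 (q0.in4.mul (DDq_in4 J))
  have hX : Xe k (eXB q0 e h T) (sXB q0 e h T) q.1 = th4 k q.1 * e4 (bXB q0 e h T q.1) := by
    have h4 : ¬ q0.1 ∣ q.1 := Pg.not_dvd hqq
    have h5 : ∀ p ∈ T, ¬ p.1 ∣ q.1 := fun p hp => Pg.not_dvd (by
      rintro rfl
      exact hqT hp)
    rw [Xe_eq, chP_XB e h hq0T h4, chP_of_not h5, bXB, e4_add]
  have h3 : LXB k h q0 e T (insert q J) = (em q.1 - th4 k q.1 * e4 (bXB q0 e h T q.1)) *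
      LXB k h q0 e T J := by
    rw [LXB, LXB, hset, Finset.prod_insert hnot, heq, hX, em_mul (f4 k), em_mul q.1, em_mul (f4 k)]
    field_simp
  rw [h3, h2, heq, hth] at h1
  have h4 : th4 k (q0.1 * DDq J) * CX k ≠ 0 := mul_ne_zero (th4_ne _ _) (CX_ne hk)
  have h5 := th4_sq hk q.1
  apply mul_left_cancel₀ h4
  linear_combination (-th4 k q.1) * h1 - (th4 k (q0.1 * DDq J) * CX k *
    (MMB k h q0 e T (insert q J) + e4 (bXB q0 e h T q.1) * MMB k h q0 e T J)) * h5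

/-- (3.2) for several primes -/
theorem MMB_prod {k : ZMod 4} (hk : k = 0 ∨ k = 2) {q0 : Pg} (h0 : aa q0.1 = 1)
    (e : Pg → ZMod 4) (h : ZMod 2) {T J : Finset Pg} (hT : T ⊆ J) (hq0 : q0 ∉ J) :
    MMB k h q0 e T J =
      (∏ q ∈ J \ T, (th4 k q.1 * em q.1 - e4 (bXB q0 e h T q.1))) * MMB k h q0 e T T := by
  obtain ⟨R, hR⟩ : ∃ R, R = J \ T := ⟨_, rfl⟩
  have hJ : J = R ∪ T := by
    rw [hR, Finset.sdiff_union_of_subset hT]
  have hd : Disjoint R T := hR ▸ Finset.sdiff_disjoint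
  rw [← hR]
  rw [hJ] at hq0 ⊢
  clear hT hR hJ
  induction R using Finset.induction_on with
  | empty => rw [Finset.empty_union, Finset.prod_empty, one_mul]
  | insert r R hr ih =>
    rw [Finset.insert_union] at hq0 ⊢
    rw [Finset.disjoint_insert_left] at hd
    have h2 : r ∉ R ∪ T := by
      rw [Finset.mem_union, not_or]
      exact ⟨hr, hd.1⟩
    rw [MMB_step hk h0 e h Finset.subset_union_right h2 hq0,
      ih (fun h3 => hq0 (Finset.mem_insert_of_mem h3)) hd.2, Finset.prod_insert hr]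
    ring

/-- the sums do not see the exponents outside `T` -/
theorem MMB_empty_e (k : ZMod 4) (h : ZMod 2) (q0 : Pg) (e : Pg → ZMod 4) (J : Finset Pg) :
    MMB k h q0 e ∅ J = MM k h q0 ∅ J := by
  rw [MMB, MM]
  congr 1

/-- the value for the trivial character -/
theorem MMB_empty {k : ZMod 4} (hk : k = 0 ∨ k = 2) {q0 : Pg} (h0 : aa q0.1 = 1)
    (e : Pg → ZMod 4) : MMB k 0 q0 e ∅ ∅ = th4 k q0.1 * em q0.1 - 1 := by
  rw [MMB_empty_e, MM_empty hk h0]

/-- the sums and the value of the full character -/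
theorem MMB_La {k : ZMod 4} (hk : k = 0 ∨ k = 2) {q0 : Pg} (h0 : aa q0.1 = 1)
    {e : Pg → ZMod 4} {h : ZMod 2} {S : Finset Pg} (hq : q0 ∉ S)
    (hS : hh h + ∑ q ∈ S, e q * nn q.1 = 0) :
    th4 k (q0.1 * DDq S) * CX k * MMB k h q0 e S S =
      (em q0.1 - XB k 0 e S q0.1) * LaB k 0 e S := by
  have h1 := MMB_eq hk h0 e h (Finset.Subset.refl S) hq
  have he : e0XB q0 e h S = 0 := by rw [e0XB, hS, zero_mul, neg_zero]
  have hs : sXB q0 e h S = S := by rw [sXB, if_pos he]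
  have hX : Xe k (eXB q0 e h S) S = XB k 0 e S := by
    rw [XB_zero]
    refine Xe_congr_e fun q hqS => ?_
    have h2 : q ≠ q0 := by
      rintro rfl
      exact hq hqS
    rw [eXB, if_neg h2]
  have h3 : insert q0 S \ S = {q0} := by
    rw [Finset.insert_sdiff_of_notMem _ hq, Finset.sdiff_self]
    rfl
  have hq1 : em q0.1 ≠ 0 := em_ne q0.ne_zero
  rw [← h1, LXB, hs, hX, h3, Finset.prod_singleton, LaB, LB, fB_zero, em_mul (f4 k), em_mul q0.1,
    em_mul (f4 k)]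
  field_simp

/-- **The end of the averaging** -/
theorem MMB_ne {k : ZMod 4} (hk : k = 0 ∨ k = 2) {q0 : Pg} (h0 : aa q0.1 = 1)
    {e : Pg → ZMod 4} {h : ZMod 2} {S : Finset Pg} (hq : q0 ∉ S)
    (hS : hh h + ∑ q ∈ S, e q * nn q.1 = 0) (hne : MMB k h q0 e S S ≠ 0) : LaB k 0 e S ≠ 0 := by
  intro hL
  have h1 := MMB_La hk h0 hq hS
  rw [hL, mul_zero] at h1
  have h4 : th4 k (q0.1 * DDq S) * CX k ≠ 0 := mul_ne_zero (th4_ne _ _) (CX_ne hk)
  exact hne ((mul_eq_zero.1 h1).resolve_left h4)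

/-- **(3.3)** -/
theorem MMB_sum (k : ZMod 4) (h : ZMod 2) (q0 : Pg) (e : Pg → ZMod 4) (J : Finset Pg) :
    ∑ T ∈ J.powerset, (-1) ^ T.card * MMB k h q0 e T J =
      GX q0 (f4 k) (wB e J) (fun z => UX k h (X z)) J := by
  have hM : q0.1 * DDq J ≠ 0 := mul_ne_zero q0.ne_zero (DDq_in4 J).ne_zero
  have h1 : ∀ T ∈ J.powerset, (-1 : ℂ) ^ T.card * MMB k h q0 e T J =
      SM (q0.1 * DDq J) fun y => (-1 : ℂ) ^ T.card * rsX q0 (f4 k) (q0.1 * DDq J)
        (fun y => chP e T (f4 k * y) * UX k h (X (em y / em (q0.1 * DDq J)))) y :=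
    fun T _ => (SM_smul hM ((-1 : ℂ) ^ T.card) _).symm
  rw [Finset.sum_congr rfl h1, ← SM_sum hM, GX]
  refine SM_congr fun y => ?_
  by_cases hy : IsCoprime y (q0.1 * DDq J) ∧ c4 q0 (f4 k * y) = 0
  · have h2 : wB e J (f4 k * y) = ∑ T ∈ J.powerset, (-1 : ℂ) ^ T.card *
        chP e T (f4 k * y) := by
      have h3 : wB e J (f4 k * y) = ∏ q ∈ J, (1 + -1 * chE e q (f4 k * y)) :=
        Finset.prod_congr rfl fun q _ => by ring
      rw [h3, Finset.prod_one_add]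
      refine Finset.sum_congr rfl fun T _ => ?_
      rw [Finset.prod_mul_distrib, Finset.prod_const, chP]
    rw [rsX_pos _ hy.1 hy.2, h2, Finset.sum_mul]
    refine Finset.sum_congr rfl fun T _ => ?_
    rw [rsX_pos _ hy.1 hy.2]
    ring
  · rw [rsX_neg _ hy]
    exact Finset.sum_eq_zero fun T _ => by rw [rsX_neg _ hy, mul_zero]

end

end Pool.Agent.Lib.MP_1a91b9_ntQ
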