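import Pool.Agent.Lib.MP_1a91b9_ntQ.A.Tra4
import Pool.Agent.Lib.MP_1a91b9_ntQ.B.AvgXB

/-!
# Quartic twists, part B, file TraB: the exact Euler factors with exponents (Tra4 with `chE`)

`FXB q0 ex kap f T J` is the sum of `chP ex T (kap a) f (a / (q0 DDq J))` over the classes of symbol `0` at `q0`;
`FXB T (insert q J) = (A - e4 (bkB q0 ex r T q)) FXB T J`.
-/

set_option autoImplicit false

namespace Pool.Agent.Lib.MP_1a91b9_ntQ

open NumberField Pool.Agent.Lib.MP_1a91b9_nuT Pool.Agent.Lib.MP_1a91b9_nuT.S3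
  Pool.Agent.Lib.MP_1a91b9_nuT.Ell

noncomputable section

/-- the exponent at `x` of the block character, `r` the weight of the function -/
def bkB (q0 : Pg) (ex : Pg → ZMod 4) (r : ZMod 4) (T : Finset Pg) (x : 𝓞 K) : ZMod 4 :=
  ∑ p ∈ T, ex p * c4 p x - (r + ∑ p ∈ T, ex p * nn p.1) * nn q0.1 * c4 q0 x

/-- the sum with the characters of `T` -/
def FXB (q0 : Pg) (ex : Pg → ZMod 4) (kap : 𝓞 K) (f : ℂ → ℂ) (T J : Finset Pg) : ℂ :=
  GX q0 kap (chP ex T) f J

section
variable {q0 : Pg} {ex : Pg → ZMod 4} {kap : 𝓞 K} {T J : Finset Pg} {f : ℂ → ℂ} {r : ZMod 4}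

open scoped Classical in
/-- **the classes of symbol `t` at `q0`** -/
theorem rotXB (h0 : aa q0.1 = 1) (hk : IsCoprime kap (q0.1 * DDq J)) (hT : T ⊆ J) (hf : PdL f)
    (hr : Wt r f) (t : ZMod 4) :
    SM (q0.1 * DDq J) (fun a => if IsCoprime a (q0.1 * DDq J) ∧ c4 q0 (kap * a) = t then
      chP ex T (kap * a) * f (em a / em (q0.1 * DDq J)) else 0) =
      e4 ((r + ∑ p ∈ T, ex p * nn p.1) * nn q0.1 * t) * FXB q0 ex kap f T J := by
  have hM := M_ne q0 J
  have hMe : em (q0.1 * DDq J) ≠ 0 := em_ne hM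
  have hk0 : ¬ q0.1 ∣ kap := ndvd_of_cop hk (q0_dvd_M q0 J)
  set F : 𝓞 K → ℂ := fun a => if IsCoprime a (q0.1 * DDq J) ∧ c4 q0 (kap * a) = t then
      chP ex T (kap * a) * f (em a / em (q0.1 * DDq J)) else 0 with hFdef
  have hF : Pd (q0.1 * DDq J) F := by
    intro a b h
    have h1 : ∀ a b : 𝓞 K, q0.1 * DDq J ∣ a - b → (IsCoprime a (q0.1 * DDq J) ∧ c4 q0 (kap * a) = t) →
        IsCoprime b (q0.1 * DDq J) ∧ c4 q0 (kap * b) = t := by
      rintro a b h ⟨ha, hb⟩
      have h3 : IsCoprime b (q0.1 * DDq J) := by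
        obtain ⟨t, ht⟩ := h
        obtain ⟨x, y, hxy⟩ := ha
        exact ⟨x, y + x * t, by linear_combination hxy - x * ht⟩
      refine ⟨h3, ?_⟩
      rw [← hb]
      refine (c4_congr q0 (not_dvd_mul' q0 hk0 (ndvd_of_cop ha (q0_dvd_M q0 J))) ?_).symm
      rw [← mul_sub]
      exact ((dvd_mul_right _ _).trans h).mul_left _
    have h1' : (IsCoprime a (q0.1 * DDq J) ∧ c4 q0 (kap * a) = t) ↔
        IsCoprime b (q0.1 * DDq J) ∧ c4 q0 (kap * b) = t := by
      refine ⟨h1 a b h, h1 b a ?_⟩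
      rw [← neg_sub]
      exact h.neg_right
    have h2 : chP ex T (kap * a) = chP ex T (kap * b) := by
      refine chP_per hT ?_
      rw [← mul_sub]
      exact ((dvd_mul_left _ _).trans h).mul_left _
    have h3 : f (em a / em (q0.1 * DDq J)) = f (em b / em (q0.1 * DDq J)) := by
      refine hf _ _ ?_
      obtain ⟨t, ht⟩ := h
      have e : em a / em (q0.1 * DDq J) - em b / em (q0.1 * DDq J) = em t := by
        rw [← sub_div, ← em_sub, ht, em_mul, mul_div_cancel_left₀ _ hMe]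
      rw [e]
      exact em_mem t
    rw [hFdef]
    dsimp only
    by_cases ha : IsCoprime a (q0.1 * DDq J) ∧ c4 q0 (kap * a) = t
    · rw [if_pos ha, if_pos (h1'.1 ha), h2, h3]
    · rw [if_neg ha, if_neg fun hb => ha (h1'.2 hb)]
  set l : ZMod 4 := nn q0.1 * t with hl
  have hcop : IsCoprime (iO ^ l.val) (q0.1 * DDq J) := cop_unit (isUnit_iO.pow l.val) _
  rw [← SM_mul hM hF hcop, FXB, GX_GI, ← SM_cmul hM]
  refine SM_congr fun a => ?_
  rw [hFdef]
  dsimp only
  have hc1 : IsCoprime (iO ^ l.val * a) (q0.1 * DDq J) ↔ IsCoprime a (q0.1 * DDq J) := by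
    constructor
    · intro h
      exact h.of_mul_left_right
    · intro h
      exact hcop.mul_left h
  unfold GI
  by_cases ha : IsCoprime a (q0.1 * DDq J)
  · have hka : IsCoprime (kap * a) (q0.1 * DDq J) := hk.mul_left ha
    have e1 : kap * (iO ^ l.val * a) = iO ^ l.val * (kap * a) := by ring
    have e2 : c4 q0 (kap * (iO ^ l.val * a)) = t + c4 q0 (kap * a) := by
      rw [e1, c4_iO_mul q0 l (ndvd_of_cop hka (q0_dvd_M q0 J)), hl]
      linear_combination t * nn_sq h0
    by_cases hb : c4 q0 (kap * a) = 0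
    · have h1 : IsCoprime (iO ^ l.val * a) (q0.1 * DDq J) ∧ c4 q0 (kap * (iO ^ l.val * a)) = t :=
        ⟨hc1.2 ha, by rw [e2, hb, add_zero]⟩
      have h2 : OmX q0 kap J a := ⟨ha, hb⟩
      rw [if_pos h1, if_pos h2, e1, em_iO_pow, mul_div_assoc,
        (hr.pow (em_div_notMem (q := q0) hM (q0_dvd_M q0 J) ha) l.val).1, chP_mul]
      have e3 : chP ex T (iO ^ l.val) = e4 (l * ∑ p ∈ T, ex p * nn p.1) := by
        rw [chP_of_not fun p _ => not_dvd_iO_pow p _, Finset.mul_sum]
        congr 1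
        exact Finset.sum_congr rfl fun p _ => by
          rw [c4_iO_pow]
          ring
      rw [e3, val_cast]
      have e4' : (r + ∑ p ∈ T, ex p * nn p.1) * nn q0.1 * t = l * ∑ p ∈ T, ex p * nn p.1 + l * r := by
        rw [hl]
        ring
      rw [e4', e4_add]
      ring
    · have h1 : ¬ (IsCoprime (iO ^ l.val * a) (q0.1 * DDq J) ∧ c4 q0 (kap * (iO ^ l.val * a)) = t) := by
        rintro ⟨-, h⟩
        rw [e2] at h
        exact hb (by linear_combination h)
      have h2 : ¬ OmX q0 kap J a := fun h => hb h.2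
      rw [if_neg h1, if_neg h2, mul_zero]
  · have h1 : ¬ (IsCoprime (iO ^ l.val * a) (q0.1 * DDq J) ∧ c4 q0 (kap * (iO ^ l.val * a)) = t) :=
      fun h => ha (hc1.1 h.1)
    have h2 : ¬ OmX q0 kap J a := fun h => ha h.1
    rw [if_neg h1, if_neg h2, mul_zero]

/-- **the exact Euler factor** -/
theorem FXB_insert (h0 : aa q0.1 = 1) {q : Pg} (hk : IsCoprime kap (q0.1 * DDq (insert q J)))
    (hT : T ⊆ J) (hq : q ∉ J) (hq0 : q ≠ q0) (hf : PdL f) (hr : Wt r f) {A : ℂ} (htr : TrF q A f) :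
    FXB q0 ex kap f T (insert q J) = (A - e4 (bkB q0 ex r T q.1)) * FXB q0 ex kap f T J := by
  classical
  have hMJ := M_ne q0 J
  have hMJe : em (q0.1 * DDq J) ≠ 0 := em_ne hMJ
  have hq1 : em q.1 ≠ 0 := em_ne q.ne_zero
  have hI : q0.1 * DDq (insert q J) = q.1 * (q0.1 * DDq J) := by
    rw [DDq_insert hq]
    ring
  rw [hI] at hk
  have hkM : IsCoprime kap (q0.1 * DDq J) := hk.of_mul_right_right
  have hkq : IsCoprime kap q.1 := hk.of_mul_right_left
  have hk0 : ¬ q0.1 ∣ kap := ndvd_of_cop hkM (q0_dvd_M q0 J)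
  have hqM : IsCoprime q.1 (q0.1 * DDq J) := by
    refine IsCoprime.mul_right ?_ ?_
    · exact cop_of_not q0 (Pg.not_dvd hq0.symm)
    · refine (cop_of_not q fun h => hq (dvd_DDq.1 h)).symm
  -- the integrand without the condition at `q`
  set F1 : 𝓞 K → ℂ := fun a => if OmX q0 kap J a then
      chP ex T (kap * a) * f (em a / em (q.1 * (q0.1 * DDq J))) else 0 with hF1
  set F2 : 𝓞 K → ℂ := fun a => if q.1 ∣ a then F1 a else 0 with hF2
  have hqM0 : q.1 * (q0.1 * DDq J) ≠ 0 := mul_ne_zero q.ne_zero hMJ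
  have hqMe : em (q.1 * (q0.1 * DDq J)) ≠ 0 := em_ne hqM0
  have hfp : ∀ a b : 𝓞 K, q.1 * (q0.1 * DDq J) ∣ a - b →
      f (em a / em (q.1 * (q0.1 * DDq J))) = f (em b / em (q.1 * (q0.1 * DDq J))) := by
    intro a b h
    refine hf _ _ ?_
    obtain ⟨t, ht⟩ := h
    have e : em a / em (q.1 * (q0.1 * DDq J)) - em b / em (q.1 * (q0.1 * DDq J)) = em t := by
      rw [← sub_div, ← em_sub, ht, em_mul, mul_div_cancel_left₀ _ hqMe]
    rw [e]
    exact em_mem t
  have hcp : ∀ a b : 𝓞 K, q0.1 * DDq J ∣ a - b → chP ex T (kap * a) = chP ex T (kap * b) := by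
    intro a b h
    refine chP_per hT ?_
    rw [← mul_sub]
    exact ((dvd_mul_left _ _).trans h).mul_left _
  have hF1p : Pd (q.1 * (q0.1 * DDq J)) F1 := by
    intro a b h
    have h' : q0.1 * DDq J ∣ a - b := (dvd_mul_left _ _).trans h
    rw [hF1]
    dsimp only
    by_cases ha : OmX q0 kap J a
    · rw [if_pos ha, if_pos ((OmX_congr hk0 h').1 ha), hfp a b h, hcp a b h']
    · rw [if_neg ha, if_neg fun hb => ha ((OmX_congr hk0 h').2 hb)]
  have hF2p : Pd (q.1 * (q0.1 * DDq J)) F2 := by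
    intro a b h
    have hd : q.1 ∣ a ↔ q.1 ∣ b := by
      have h1 : q.1 ∣ a - b := (dvd_mul_right _ _).trans h
      constructor
      · intro ha
        have := dvd_sub ha h1
        rwa [sub_sub_cancel] at this
      · intro hb
        have := dvd_add h1 hb
        rwa [sub_add_cancel] at this
    rw [hF2]
    dsimp only
    by_cases ha : q.1 ∣ a
    · rw [if_pos ha, if_pos (hd.1 ha), hF1p a b h]
    · rw [if_neg ha, if_neg fun hb => ha (hd.2 hb)]
  have hsplit : FXB q0 ex kap f T (insert q J) = SM (q.1 * (q0.1 * DDq J)) (fun a => F1 a - F2 a) := by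
    rw [FXB, GX_GI, hI]
    refine SM_congr fun a => ?_
    have hOm : OmX q0 kap (insert q J) a ↔ OmX q0 kap J a ∧ ¬ q.1 ∣ a := by
      constructor
      · rintro ⟨h1, h2⟩
        rw [hI] at h1
        exact ⟨⟨h1.of_mul_right_right, h2⟩, ndvd_of_cop h1 (dvd_mul_right _ _)⟩
      · rintro ⟨⟨h1, h2⟩, h3⟩
        refine ⟨?_, h2⟩
        rw [hI]
        exact IsCoprime.mul_right (cop_of_not q h3) h1
    rw [GI, hF2, hF1]
    dsimp only
    by_cases ha : OmX q0 kap J a
    · by_cases hd : q.1 ∣ a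
      · rw [if_neg fun h => (hOm.1 h).2 hd, if_pos ha, if_pos hd, sub_self]
      · rw [if_pos (hOm.2 ⟨ha, hd⟩), if_pos ha, if_neg hd, sub_zero, hI]
    · rw [if_neg fun h => ha (hOm.1 h).1, if_neg ha, ite_self, sub_zero]
  rw [hsplit, SM_sub hqM0, sub_mul]
  congr 1
  · -- all the classes
    rw [SM_fib hMJ q.ne_zero hF1p, FXB, GX_GI, ← SM_cmul hMJ]
    refine SM_congr fun b => ?_
    unfold GI
    by_cases hb : OmX q0 kap J b
    · rw [if_pos hb]
      have hz : em q.1 * (em b / em (q.1 * (q0.1 * DDq J))) = em b / em (q0.1 * DDq J) := by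
        rw [em_mul q.1]
        field_simp
      have hn : Od (em q.1 * (em b / em (q.1 * (q0.1 * DDq J)))) := by
        rw [hz]
        exact od_divX q0 hb.1
      have h1 := htr _ hn
      rw [hz] at h1
      have h2 : SM q.1 (fun u => F1 (b + q0.1 * DDq J * u)) = SM q.1 (fun u => chP ex T (kap * b) *
          f (em b / em (q.1 * (q0.1 * DDq J)) + em u / em q.1)) := by
        refine SM_congr fun u => ?_
        have hbu : q0.1 * DDq J ∣ b + q0.1 * DDq J * u - b := ⟨u, by ring⟩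
        rw [hF1]
        dsimp only
        rw [if_pos ((OmX_congr hk0 hbu).2 hb), hcp _ _ hbu]
        congr 2
        rw [em_add, em_mul (q0.1 * DDq J), em_mul q.1]
        field_simp
      rw [h2, SM_cmul q.ne_zero, h1]
      ring
    · rw [if_neg hb, mul_zero]
      have h2 : SM q.1 (fun u => F1 (b + q0.1 * DDq J * u)) = SM q.1 (fun _ => (0 : ℂ) * 0) := by
        refine SM_congr fun u => ?_
        have hbu : q0.1 * DDq J ∣ b + q0.1 * DDq J * u - b := ⟨u, by ring⟩
        rw [hF1]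
        dsimp only
        rw [if_neg fun h => hb ((OmX_congr hk0 hbu).1 h), mul_zero]
      rw [h2, SM_cmul q.ne_zero, zero_mul]
  · -- the multiples of `q`
    rw [SM_dvd hMJ q.ne_zero hF2p (fun x hx => by rw [hF2]; exact if_neg hx)]
    have h1 : SM (q0.1 * DDq J) (fun b => F2 (q.1 * b)) = SM (q0.1 * DDq J) (fun b =>
        e4 (∑ p ∈ T, ex p * c4 p q.1) * (if IsCoprime b (q0.1 * DDq J) ∧ c4 q0 (kap * b) = -c4 q0 q.1 then
          chP ex T (kap * b) * f (em b / em (q0.1 * DDq J)) else 0)) := by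
      refine SM_congr fun b => ?_
      rw [hF2, hF1]
      dsimp only
      rw [if_pos (dvd_mul_right _ _)]
      have hOm : OmX q0 kap J (q.1 * b) ↔ IsCoprime b (q0.1 * DDq J) ∧ c4 q0 (kap * b) = -c4 q0 q.1 := by
        have hc : IsCoprime (q.1 * b) (q0.1 * DDq J) ↔ IsCoprime b (q0.1 * DDq J) :=
          ⟨fun h => h.of_mul_left_right, fun h => hqM.mul_left h⟩
        unfold OmX
        rw [hc]
        refine and_congr_right fun hb => ?_
        have e : kap * (q.1 * b) = q.1 * (kap * b) := by ring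
        have hnb : ¬ q0.1 ∣ kap * b := not_dvd_mul' q0 hk0 (ndvd_of_cop hb (q0_dvd_M q0 J))
        rw [e, c4_mul q0 (Pg.not_dvd hq0.symm) hnb]
        constructor
        · intro h
          linear_combination h
        · intro h
          linear_combination h
      have hpt : em (q.1 * b) / em (q.1 * (q0.1 * DDq J)) = em b / em (q0.1 * DDq J) := by
        rw [em_mul, em_mul q.1]
        field_simp
      have hch : chP ex T (kap * (q.1 * b)) = e4 (∑ p ∈ T, ex p * c4 p q.1) * chP ex T (kap * b) := by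
        have e : kap * (q.1 * b) = q.1 * (kap * b) := by ring
        rw [e, chP_mul, chP_of_not fun p hp h => hq ((by
          have : p = q := by
            by_contra hne
            exact Pg.not_dvd hne h
          rw [← this]
          exact hT hp))]
      rw [hpt, hch]
      by_cases hb : OmX q0 kap J (q.1 * b)
      · rw [if_pos hb, if_pos (hOm.1 hb)]
        ring
      · rw [if_neg hb, if_neg fun h => hb (hOm.2 h), mul_zero]
    rw [h1, SM_cmul hMJ, rotXB h0 hkM hT hf hr, ← mul_assoc, ← e4_add]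
    congr 2
    rw [bkB]
    ring

theorem FXB_prod (h0 : aa q0.1 = 1) (hf : PdL f) (hr : Wt r f) (A : Pg → ℂ)
    (htr : ∀ q, TrF q (A q) f) (hTJ : T ⊆ J) (hJ : q0 ∉ J) (hk : IsCoprime kap (q0.1 * DDq J)) :
    FXB q0 ex kap f T J = (∏ q ∈ J \ T, (A q - e4 (bkB q0 ex r T q.1))) * FXB q0 ex kap f T T := by
  classical
  have key : ∀ U : Finset Pg, Disjoint U T → q0 ∉ U → (∀ q ∈ U, ¬ q.1 ∣ kap) →
      IsCoprime kap (q0.1 * DDq T) →
      FXB q0 ex kap f T (U ∪ T) = (∏ q ∈ U, (A q - e4 (bkB q0 ex r T q.1))) * FXB q0 ex kap f T T := by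
    intro U
    induction U using Finset.induction_on with
    | empty =>
      intro _ _ _ _
      rw [Finset.empty_union, Finset.prod_empty, one_mul]
    | insert q U hq ih =>
      intro hd hU hkU hkT
      rw [Finset.disjoint_insert_left] at hd
      have hU' : q0 ∉ U := fun h => hU (Finset.mem_insert_of_mem h)
      have hq0 : q ≠ q0 := fun h => hU (by rw [← h]; exact Finset.mem_insert_self _ _)
      have h1 : q ∉ U ∪ T := by
        rw [Finset.mem_union]
        rintro (h | h)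
        · exact hq h
        · exact hd.1 h
      have hkk : ∀ V : Finset Pg, V ⊆ insert q U → IsCoprime kap (q0.1 * DDq (V ∪ T)) := by
        intro V
        induction V using Finset.induction_on with
        | empty =>
          intro _
          rwa [Finset.empty_union]
        | insert v V hv ihV =>
          intro hV
          have h2 := ihV ((Finset.subset_insert _ _).trans hV)
          have hvU := hV (Finset.mem_insert_self v V)
          have h3 : v ∉ V ∪ T := by
            rw [Finset.mem_union]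
            rintro (h | h)
            · exact hv h
            · rcases Finset.mem_insert.1 hvU with h4 | h4
              · rw [h4] at h
                exact hd.1 h
              · exact Finset.disjoint_left.1 hd.2 h4 h
          rw [Finset.insert_union, DDq_insert h3]
          have e : q0.1 * (v.1 * DDq (V ∪ T)) = v.1 * (q0.1 * DDq (V ∪ T)) := by ring
          rw [e]
          exact IsCoprime.mul_right (cop_of_not v (hkU v hvU)) h2
      rw [Finset.insert_union, FXB_insert h0 (by rw [← Finset.insert_union]; exact hkk _ subset_rfl)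
        Finset.subset_union_right h1 hq0 hf hr (htr q), Finset.prod_insert hq,
        ih hd.2 hU' (fun p hp => hkU p (Finset.mem_insert_of_mem hp)) hkT]
      ring
  have h1 := key (J \ T) Finset.sdiff_disjoint (fun h => hJ (Finset.mem_sdiff.1 h).1)
    (fun q hq => ndvd_of_cop hk (dvd_M (Finset.mem_sdiff.1 hq).1))
    (hk.of_isCoprime_of_dvd_right (mul_dvd_mul_left _ (Finset.prod_dvd_prod_of_subset _ _ _ hTJ)))
  rwa [Finset.sdiff_union_of_subset hTJ] at h1

/-- the expansion of the weight -/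
theorem wB_chP (ex : Pg → ZMod 4) (J : Finset Pg) (x : 𝓞 K) :
    wB ex J x = ∑ T ∈ J.powerset, (-1) ^ T.card * chP ex T x := by
  classical
  have h : wB ex J x = ∏ q ∈ J, (1 + -1 * chE ex q x) := Finset.prod_congr rfl fun q _ => by ring
  rw [h, Finset.prod_one_add]
  refine Finset.sum_congr rfl fun T _ => ?_
  rw [Finset.prod_mul_distrib, Finset.prod_const, chP]

theorem GX_wB : GX q0 kap (wB ex J) f J =
    ∑ T ∈ J.powerset, (-1) ^ T.card * FXB q0 ex kap f T J := by
  have h : GX q0 kap (wB ex J) f J =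
      GX q0 kap (fun x => ∑ T ∈ J.powerset, (-1) ^ T.card * chP ex T x) f J := by
    congr 1
    funext x
    exact wB_chP ex J x
  rw [h, GX_sum]
  exact Finset.sum_congr rfl fun T _ => GX_cmul _ _

/-- **the substitution `z ↦ mu z`** -/
theorem FXB_scale (h0 : aa q0.1 = 1) {mu : 𝓞 K} (hk : IsCoprime kap (q0.1 * DDq J))
    (hmu : IsCoprime mu (q0.1 * DDq J)) (hT : T ⊆ J) (hf : PdL f) (hr : Wt r f) :
    FXB q0 ex kap (fun z => f (em mu * z)) T J = e4 (-bkB q0 ex r T mu) * FXB q0 ex kap f T J := by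
  classical
  have hM := M_ne q0 J
  have hk0 : ¬ q0.1 ∣ kap := ndvd_of_cop hk (q0_dvd_M q0 J)
  have hmu0 : ¬ q0.1 ∣ mu := ndvd_of_cop hmu (q0_dvd_M q0 J)
  have hfm : PdL (fun z => f (em mu * z)) := fun x y h => hf _ _ (by
    rw [← mul_sub]
    exact S3.mul_mem (em_mem mu) h)
  have h1 := rotXB (ex := ex) h0 hk hT hf hr (c4 q0 mu)
  set G : 𝓞 K → ℂ := fun a => if IsCoprime a (q0.1 * DDq J) ∧ c4 q0 (kap * a) = c4 q0 mu then
      chP ex T (kap * a) * f (em a / em (q0.1 * DDq J)) else 0 with hG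
  have hGp : Pd (q0.1 * DDq J) G := by
    have hp := GI_pd (J := J) hk0 (Pd_chP ex hT) hf
    have key : ∀ a b : 𝓞 K, q0.1 * DDq J ∣ a - b → (IsCoprime a (q0.1 * DDq J) ∧
        c4 q0 (kap * a) = c4 q0 mu) → IsCoprime b (q0.1 * DDq J) ∧ c4 q0 (kap * b) = c4 q0 mu := by
      rintro a b h ⟨ha, hb⟩
      have h3 : IsCoprime b (q0.1 * DDq J) := by
        obtain ⟨t, ht⟩ := h
        obtain ⟨x, y, hxy⟩ := ha
        exact ⟨x, y + x * t, by linear_combination hxy - x * ht⟩
      refine ⟨h3, ?_⟩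
      rw [← hb]
      refine (c4_congr q0 (not_dvd_mul' q0 hk0 (ndvd_of_cop ha (q0_dvd_M q0 J))) ?_).symm
      rw [← mul_sub]
      exact ((dvd_mul_right _ _).trans h).mul_left _
    intro a b h
    have h1' : (IsCoprime a (q0.1 * DDq J) ∧ c4 q0 (kap * a) = c4 q0 mu) ↔
        IsCoprime b (q0.1 * DDq J) ∧ c4 q0 (kap * b) = c4 q0 mu := by
      refine ⟨key a b h, key b a ?_⟩
      rw [← neg_sub]
      exact h.neg_right
    have h2 : chP ex T (kap * a) = chP ex T (kap * b) := by
      refine chP_per hT ?_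
      rw [← mul_sub]
      exact ((dvd_mul_left _ _).trans h).mul_left _
    have h3 : f (em a / em (q0.1 * DDq J)) = f (em b / em (q0.1 * DDq J)) := by
      refine hf _ _ ?_
      obtain ⟨t, ht⟩ := h
      have e : em a / em (q0.1 * DDq J) - em b / em (q0.1 * DDq J) = em t := by
        rw [← sub_div, ← em_sub, ht, em_mul, mul_div_cancel_left₀ _ (em_ne hM)]
      rw [e]
      exact em_mem t
    rw [hG]
    dsimp only
    by_cases ha : IsCoprime a (q0.1 * DDq J) ∧ c4 q0 (kap * a) = c4 q0 mu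
    · rw [if_pos ha, if_pos (h1'.1 ha), h2, h3]
    · rw [if_neg ha, if_neg fun hb => ha (h1'.2 hb)]
  have h2 : FXB q0 ex kap (fun z => f (em mu * z)) T J =
      e4 (-∑ p ∈ T, ex p * c4 p mu) * SM (q0.1 * DDq J) G := by
    rw [← SM_mul hM hGp hmu, FXB, GX_GI, ← SM_cmul hM]
    refine SM_congr fun a => ?_
    have hc : IsCoprime (mu * a) (q0.1 * DDq J) ↔ IsCoprime a (q0.1 * DDq J) :=
      ⟨fun h => h.of_mul_left_right, fun h => hmu.mul_left h⟩
    have e1 : kap * (mu * a) = mu * (kap * a) := by ring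
    rw [hG, GI]
    dsimp only
    by_cases ha : IsCoprime a (q0.1 * DDq J)
    · have hka : IsCoprime (kap * a) (q0.1 * DDq J) := hk.mul_left ha
      have hnka : ¬ q0.1 ∣ kap * a := ndvd_of_cop hka (q0_dvd_M q0 J)
      have e2 : c4 q0 (kap * (mu * a)) = c4 q0 mu + c4 q0 (kap * a) := by
        rw [e1, c4_mul q0 hmu0 hnka]
      by_cases hb : c4 q0 (kap * a) = 0
      · have h3 : OmX q0 kap J a := ⟨ha, hb⟩
        have h4 : IsCoprime (mu * a) (q0.1 * DDq J) ∧ c4 q0 (kap * (mu * a)) = c4 q0 mu :=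
          ⟨hc.2 ha, by rw [e2, hb, add_zero]⟩
        rw [if_pos h3, if_pos h4, e1, chP_mul ex T mu, chP_of_not (x := mu) fun p hp =>
          ndvd_of_cop hmu (dvd_M (hT hp)), em_mul mu a, mul_div_assoc]
        have e5 : e4 (-∑ p ∈ T, ex p * c4 p mu) * e4 (∑ p ∈ T, ex p * c4 p mu) = 1 := by
          rw [← e4_add, neg_add_cancel, e4_zero]
        linear_combination (-(chP ex T (kap * a) * f (em mu * (em a / em (q0.1 * DDq J))))) * e5
      · have h3 : ¬ OmX q0 kap J a := fun h => hb h.2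
        have h4 : ¬ (IsCoprime (mu * a) (q0.1 * DDq J) ∧ c4 q0 (kap * (mu * a)) = c4 q0 mu) := by
          rintro ⟨-, h⟩
          rw [e2] at h
          exact hb (by linear_combination h)
        rw [if_neg h3, if_neg h4, mul_zero]
    · have h3 : ¬ OmX q0 kap J a := fun h => ha h.1
      have h4 : ¬ (IsCoprime (mu * a) (q0.1 * DDq J) ∧ c4 q0 (kap * (mu * a)) = c4 q0 mu) :=
        fun h => ha (hc.1 h.1)
      rw [if_neg h3, if_neg h4, mul_zero]
  rw [h2, h1, ← mul_assoc, ← e4_add]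
  congr 2
  rw [bkB]
  ring

/-- **the change of `kap`** -/
theorem FXB_kap (h0 : aa q0.1 = 1) {mu : 𝓞 K} (hk : IsCoprime kap (q0.1 * DDq J))
    (hmu : IsCoprime mu (q0.1 * DDq J)) (hT : T ⊆ J) (hf : PdL f) (hr : Wt r f) :
    FXB q0 ex (mu * kap) f T J = e4 (bkB q0 ex r T mu) * FXB q0 ex kap f T J := by
  classical
  have hM := M_ne q0 J
  have hk0 : ¬ q0.1 ∣ kap := ndvd_of_cop hk (q0_dvd_M q0 J)
  have hmu0 : ¬ q0.1 ∣ mu := ndvd_of_cop hmu (q0_dvd_M q0 J)
  have h1 := rotXB (ex := ex) h0 hk hT hf hr (-c4 q0 mu)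
  have h2 : FXB q0 ex (mu * kap) f T J = e4 (∑ p ∈ T, ex p * c4 p mu) * SM (q0.1 * DDq J) (fun a =>
      if IsCoprime a (q0.1 * DDq J) ∧ c4 q0 (kap * a) = -c4 q0 mu then
      chP ex T (kap * a) * f (em a / em (q0.1 * DDq J)) else 0) := by
    rw [FXB, GX_GI, ← SM_cmul hM]
    refine SM_congr fun a => ?_
    unfold GI
    by_cases ha : IsCoprime a (q0.1 * DDq J)
    · have hka : IsCoprime (kap * a) (q0.1 * DDq J) := hk.mul_left ha
      have hnka : ¬ q0.1 ∣ kap * a := ndvd_of_cop hka (q0_dvd_M q0 J)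
      have e2 : c4 q0 (mu * kap * a) = c4 q0 mu + c4 q0 (kap * a) := by
        rw [mul_assoc, c4_mul q0 hmu0 hnka]
      by_cases hb : c4 q0 (kap * a) = -c4 q0 mu
      · have h3 : OmX q0 (mu * kap) J a := ⟨ha, by rw [e2, hb, add_neg_cancel]⟩
        rw [if_pos h3, if_pos ⟨ha, hb⟩, mul_assoc mu, chP_mul, chP_of_not (x := mu) fun p hp =>
          ndvd_of_cop hmu (dvd_M (hT hp))]
        ring
      · have h3 : ¬ OmX q0 (mu * kap) J a := fun h => hb (by
          have := h.2
          rw [e2] at this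
          linear_combination this)
        rw [if_neg h3, if_neg fun h => hb h.2, mul_zero]
    · rw [if_neg fun h => ha h.1, if_neg fun h => ha h.1, mul_zero]
  rw [h2, h1, ← mul_assoc, ← e4_add]
  congr 2
  rw [bkB]
  ring

end

/-! ### The sums of AvgXB -/

/-- the exponent of AvgXB -/
theorem bXB_bkB (q0 : Pg) (ex : Pg → ZMod 4) (h : ZMod 2) (T : Finset Pg) (x : 𝓞 K) :
    bXB q0 ex h T x = bkB q0 ex (hh h) T x := by
  rw [bXB, bkB, e0XB]
  ring

/-- the sums of AvgXB -/
theorem MMB_FXB (k : ZMod 4) (h : ZMod 2) (q0 : Pg) (ex : Pg → ZMod 4) (T J : Finset Pg) :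
    MMB k h q0 ex T J = FXB q0 ex (f4 k) (fun z => UX k h (X z)) T J := rfl

/-- the sums without characters -/
theorem FXB_empty (q0 : Pg) (ex : Pg → ZMod 4) (kap : 𝓞 K) (f : ℂ → ℂ) (J : Finset Pg) :
    FXB q0 ex kap f ∅ J = FX q0 kap f ∅ J := rfl

end

end Pool.Agent.Lib.MP_1a91b9_ntQ
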