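import Pool.Agent.Lib.MP_1a91b9_ntQ.A.Gam4
import Pool.Agent.Lib.MP_1a91b9_ntQ.B.TraB

/-!
# Quartic twists, part B, file GamB: sums over the classes with trivial symbol, with exponents

* `gamXB`: the sum of `wtB e J (kap y) (ξ(R) + ξ(lam² R))` is zero modulo the maximal ideal;
* `sum_wB_om`: the sum of `wB e J (kap y)` is `n ∏ (Nz q - 1)`, `4 n = Nz q0 - 1`.
-/

set_option autoImplicit false

namespace Pool.Agent.Lib.MP_1a91b9_ntQ

open NumberField IsDedekindDomain Pool.Agent.Lib.MP_1a91b9_nuT Pool.Agent.Lib.MP_1a91b9_nuT.S3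
  Pool.Agent.Lib.MP_1a91b9_nuT.Ell

noncomputable section

variable {B : ValuationSubring ℂ} {q0 : Pg} {kap : 𝓞 K} {J : Finset Pg} {ex : Pg → ZMod 4}

theorem SM_chE (q : Pg) {ex : Pg → ZMod 4} (he : ex q ≠ 0) (kap : 𝓞 K) :
    SM q.1 (fun y => chE ex q (kap * y)) = 0 := by
  obtain ⟨t, ht⟩ : ∃ t : ZMod 4, ex q * t = 2 := by
    have key : ∀ e : ZMod 4, e ≠ 0 → ∃ t : ZMod 4, e * t = 2 := by decide
    exact key _ he
  obtain ⟨u, hu, hu2⟩ := exists_c4 q t
  have hP : Pd q.1 fun y => chE ex q (kap * y) := by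
    intro x y h
    refine (chE_chrP ex q).per _ _ ?_
    rw [← mul_sub]
    exact h.mul_left _
  have hc : IsCoprime u q.1 := by
    rw [isCoprime_comm]
    exact q.prime.irreducible.coprime_iff_not_dvd.2 hu
  have h1 := SM_mul q.ne_zero hP hc
  have h2 : SM q.1 (fun y => chE ex q (kap * (u * y))) = -SM q.1 (fun y => chE ex q (kap * y)) := by
    have h3 := SM_smul q.ne_zero (-1 : ℂ) fun y => chE ex q (kap * y)
    simp only [smul_eq_mul, neg_one_mul] at h3
    rw [← h3]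
    refine SM_congr fun y => ?_
    have e : kap * (u * y) = u * (kap * y) := by ring
    rw [e, (chE_chrP ex q).mul, chE_of_not ex hu, hu2, ht, e4_two, neg_one_mul]
  rw [h2] at h1
  have h4 : 2 * SM q.1 (fun y => chE ex q (kap * y)) = 0 := by linear_combination -h1
  exact (mul_eq_zero.1 h4).resolve_left two_ne_zero

theorem sum_wB_om (hk : ∀ q : Pg, ¬ q.1 ∣ kap) (hq : q0 ∉ J) (he : ∀ q ∈ J, ex q ≠ 0) :
    SO q0 kap J (fun y => wB ex J (kap * y)) = n0 q0 kap * ∏ q ∈ J, ((Nz q.1 : ℂ) - 1) := by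
  classical
  induction J using Finset.induction_on with
  | empty =>
    rw [Finset.prod_empty, mul_one, n0]
    exact SO_congr fun y _ => by rw [wB, Finset.prod_empty]
  | insert r J hr ih =>
    have hq' : q0 ∉ J := fun h => hq (Finset.mem_insert_of_mem h)
    have hr0 : r ≠ q0 := fun h => hq (h ▸ Finset.mem_insert_self r J)
    have her : ex r ≠ 0 := he r (Finset.mem_insert_self r J)
    have he' : ∀ q ∈ J, ex q ≠ 0 := fun q hqJ => he q (Finset.mem_insert_of_mem hqJ)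
    obtain ⟨M, hM⟩ : ∃ M, M = q0.1 * DDq J := ⟨_, rfl⟩
    have hM0 : M ≠ 0 := hM ▸ qD_ne q0 J
    have hMr : q0.1 * DDq (insert r J) = r.1 * M := by
      rw [DDq_insert hr, hM]
      ring
    have hcM : IsCoprime M r.1 := by
      rw [hM]
      refine IsCoprime.mul_left (Pg.cop (Ne.symm hr0)) (IsCoprime.prod_left fun q hq2 => Pg.cop ?_)
      rintro rfl
      exact hr hq2
    have hOm : ∀ y, OmX q0 kap (insert r J) y ↔ OmX q0 kap J y ∧ ¬ r.1 ∣ y := by
      intro y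
      simp only [OmX, cop_qD, Finset.forall_mem_insert]
      tauto
    have hP : Pd (r.1 * M) fun y => if OmX q0 kap (insert r J) y then wB ex (insert r J) (kap * y)
        else 0 := by
      intro x y h
      have h' : q0.1 * DDq (insert r J) ∣ x - y := by rwa [hMr]
      change (if OmX q0 kap (insert r J) x then wB ex (insert r J) (kap * x) else 0) =
        if OmX q0 kap (insert r J) y then wB ex (insert r J) (kap * y) else 0
      rw [if_congr (OmX_congr (hk q0) h') rfl rfl]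
      refine if_congr Iff.rfl ?_ rfl
      unfold wB
      refine Finset.prod_congr rfl fun q hqJ => ?_
      congr 1
      refine (chE_chrP ex q).per _ _ ?_
      rw [← mul_sub]
      exact (((dvd_DDq.2 hqJ).mul_left _).trans h').mul_left _
    have hG : Pd r.1 fun v => if r.1 ∣ v then (0 : ℂ) else 1 - chE ex r (kap * v) := by
      intro x y h
      change (if r.1 ∣ x then (0 : ℂ) else 1 - chE ex r (kap * x)) =
        if r.1 ∣ y then 0 else 1 - chE ex r (kap * y)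
      have e : r.1 ∣ x ↔ r.1 ∣ y := by
        constructor
        · intro hx
          have := dvd_sub hx h
          rwa [sub_sub_cancel] at this
        · intro hy
          have := dvd_add h hy
          rwa [sub_add_cancel] at this
      rw [if_congr e rfl rfl]
      refine if_congr Iff.rfl rfl ?_
      congr 1
      refine (chE_chrP ex r).per _ _ ?_
      rw [← mul_sub]
      exact h.mul_left _
    have hsr : SM r.1 (fun v => if r.1 ∣ v then (0 : ℂ) else 1 - chE ex r (kap * v)) =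
        (Nz r.1 : ℂ) - 1 := by
      have h5 := SM_unit_one r
      have h6 := SM_chE r her kap
      have h7 := SM_sub (R := ℂ) r.ne_zero (fun v => if r.1 ∣ v then 0 else 1)
        fun v => chE ex r (kap * v)
      rw [h5, h6, sub_zero] at h7
      rw [← h7]
      refine SM_congr fun v => ?_
      by_cases hv : r.1 ∣ v
      · rw [if_pos hv, if_pos hv, chE_of_dvd ex (hv.mul_left _), sub_zero]
      · rw [if_neg hv, if_neg hv]
    have hinner : ∀ b : 𝓞 K, SM r.1 (fun u => if r.1 ∣ b + M * u then (0 : ℂ) else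
        1 - chE ex r (kap * (b + M * u))) = (Nz r.1 : ℂ) - 1 := by
      intro b
      have hG' : Pd r.1 fun x => if r.1 ∣ b + x then (0 : ℂ) else 1 - chE ex r (kap * (b + x)) := by
        intro x y h
        exact hG (b + x) (b + y) (by
          have e : b + x - (b + y) = x - y := by ring
          rwa [e])
      rw [SM_mul r.ne_zero hG' hcM, SM_tr r.ne_zero hG b, hsr]
    have h1 : SO q0 kap (insert r J) (fun y => wB ex (insert r J) (kap * y)) =
        SM M fun b => SM r.1 fun u => if OmX q0 kap (insert r J) (b + M * u) then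
          wB ex (insert r J) (kap * (b + M * u)) else 0 := by
      unfold SO
      rw [hMr]
      exact SM_fib hM0 r.ne_zero hP
    rw [h1, Finset.prod_insert hr, mul_left_comm, ← ih hq' he', ← SO_smul]
    unfold SO
    rw [← hM]
    refine SM_congr fun b => ?_
    have hb : ∀ u, OmX q0 kap J (b + M * u) ↔ OmX q0 kap J b := fun u => by
      refine OmX_congr (hk q0) ⟨u, ?_⟩
      rw [← hM]
      ring
    by_cases hbO : OmX q0 kap J b
    · rw [if_pos hbO]
      have h3 : ((Nz r.1 : ℂ) - 1) * wB ex J (kap * b) = wB ex J (kap * b) *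
          SM r.1 fun u => if r.1 ∣ b + M * u then (0 : ℂ) else 1 - chE ex r (kap * (b + M * u)) := by
        rw [hinner b, mul_comm]
      refine Eq.trans ?_ h3.symm
      have h2 := SM_smul r.ne_zero (wB ex J (kap * b)) fun u => if r.1 ∣ b + M * u then (0 : ℂ) else
        1 - chE ex r (kap * (b + M * u))
      simp only [smul_eq_mul] at h2
      rw [← h2]
      refine SM_congr fun u => ?_
      by_cases hu : r.1 ∣ b + M * u
      · rw [if_pos hu, mul_zero, if_neg fun h => ((hOm _).1 h).2 hu]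
      · rw [if_neg hu, if_pos ((hOm _).2 ⟨(hb u).2 hbO, hu⟩), wB, Finset.prod_insert hr, mul_comm]
        congr 1
        unfold wB
        refine Finset.prod_congr rfl fun q hqJ => ?_
        congr 1
        refine (chE_chrP ex q).per _ _ ?_
        rw [← mul_sub, add_sub_cancel_left, hM]
        exact (((dvd_DDq.2 hqJ).mul_left _).mul_right _).mul_left _
    · rw [if_neg hbO]
      have h2 : ∀ u, (if OmX q0 kap (insert r J) (b + M * u) then
          wB ex (insert r J) (kap * (b + M * u)) else 0) = 0 := fun u =>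
        if_neg fun h => hbO ((hb u).1 ((hOm _).1 h).1)
      rw [SM_congr h2]
      obtain ⟨ι, _, a, -, h3⟩ := SM_def (R := ℂ) r.ne_zero
      rw [h3, Finset.sum_const_zero]

/-! ### Valuations -/

/-- the sum of the normalised weights -/
theorem sum_wtB_om (hk : ∀ q : Pg, ¬ q.1 ∣ kap) (hq : q0 ∉ J) (he : ∀ q ∈ J, ex q ≠ 0) :
    SO q0 kap J (fun y => wtB ex J (kap * y)) =
      n0 q0 kap * ∏ q ∈ J, (((Nz q.1 : ℂ) - 1) / lm ^ mq (ex q)) := by
  have h2 : SO q0 kap J (fun y => wtB ex J (kap * y)) =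
      (lm ^ mB ex J)⁻¹ * SO q0 kap J (fun y => wB ex J (kap * y)) := by
    rw [← SO_smul]
    refine SO_congr fun y _ => ?_
    rw [wtB]
    ring
  rw [h2, sum_wB_om hk hq he, Finset.prod_div_distrib, mB_eq, Finset.prod_pow_eq_pow_sum]
  ring

theorem v_sum_wtB_om (hB : (2 : ℂ)⁻¹ ∉ B) (hk : ∀ q : Pg, ¬ q.1 ∣ kap) (hq : q0 ∉ J)
    (he : ∀ q ∈ J, ex q ≠ 0) :
    B.valuation (SO q0 kap J fun y => wtB ex J (kap * y)) ≤
      B.valuation lm ^ (∑ q ∈ J, (4 - mq (ex q))) := by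
  rw [sum_wtB_om hk hq he, map_mul]
  exact (mul_le_mul' v_n0 (v_prod_Nz_div hB ex J)).trans (by rw [one_mul])

theorem OmX.v_wtB (hB : (2 : ℂ)⁻¹ ∉ B) (hk : ∀ q : Pg, ¬ q.1 ∣ kap) (he : ∀ q ∈ J, ex q ≠ 0)
    {y : 𝓞 K} (h : OmX q0 kap J y) : B.valuation (wtB ex J (kap * y)) ≤ 1 :=
  Pool.Agent.Lib.MP_1a91b9_ntQ.v_wtB hB he fun _ hq => h.ndk hk hq

theorem wtB_per {x y : 𝓞 K} (h : q0.1 * DDq J ∣ x - y) : wtB ex J (kap * x) = wtB ex J (kap * y) := by
  unfold wtB wB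
  congr 1
  refine Finset.prod_congr rfl fun q hq => ?_
  congr 1
  refine (chE_chrP ex q).per _ _ ?_
  rw [← mul_sub]
  exact (((dvd_DDq.2 hq).mul_left _).trans h).mul_left _

/-- **a substitution which keeps the quadratic symbols** -/
theorem v_sub_mulB (hB : (2 : ℂ)⁻¹ ∉ B) (hk : ∀ q : Pg, ¬ q.1 ∣ kap) (he : ∀ q ∈ J, ex q ≠ 0)
    {u : 𝓞 K}
    (hu : IsCoprime u (q0.1 * DDq J)) (hu0 : c4 q0 u = 0) (hu2 : ∀ q ∈ J, c2 q u = 0) {f : ℂ → ℂ}
    (hf : ∀ z l, l ∈ PP.lattice → f (z + l) = f z) (hf1 : ∀ z, Od z → B.valuation (f z) ≤ 1) :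
    B.valuation (SO q0 kap J (fun y => wtB ex J (kap * y) * f (em u * (em y / em (q0.1 * DDq J)))) -
      SO q0 kap J (fun y => wtB ex J (kap * y) * f (em y / em (q0.1 * DDq J)))) < 1 := by
  have h1 := SO_mul (q0 := q0) (kap := kap) (J := J) hk hu hu0
    (F := fun y => wtB ex J (kap * y) * f (em y / em (q0.1 * DDq J))) (fun x y h _ => by
      change wtB ex J (kap * x) * f (em x / em (q0.1 * DDq J)) =
        wtB ex J (kap * y) * f (em y / em (q0.1 * DDq J))
      rw [wtB_per h, pt_congr hf (qD_ne q0 J) h])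
  rw [← h1, ← SO_sub]
  refine v_SO_lt zero_lt_one fun y hy => ?_
  have hy' := (OmX_mul hk hu hu0).2 hy
  have e1 : em u * (em y / em (q0.1 * DDq J)) = em (u * y) / em (q0.1 * DDq J) := by
    rw [em_mul u y]
    ring
  rw [e1, ← sub_mul, map_mul]
  refine mul_lt_one_of_lt_of_le ?_ (hf1 _ hy'.od)
  have h2 := Rt_wtB hB (S := J) (e := ex) (x := kap * y) he fun q hq => hy.ndk hk hq
  have h3 := Rt_wtB hB (S := J) (e := ex) (x := kap * (u * y)) he fun q hq => hy'.ndk hk hq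
  have h4 : ∏ q ∈ J, c2 q (kap * (u * y)) = ∏ q ∈ J, c2 q (kap * y) := by
    refine Finset.prod_congr rfl fun q hq => ?_
    have e : kap * (u * y) = u * (kap * y) := by ring
    have h5 := hu2 q hq
    unfold c2 at h5 ⊢
    rw [e, c4_mul q ((cop_qD.1 hu).2 q hq) (hy.ndk hk hq), map_add, h5, zero_add]
  rw [h4] at h3
  have h5 := h2.sub hB h3
  rw [sub_self] at h5
  exact h5.lt

/-- the element `± lam ^ 2` of symbol `0` -/
theorem exists_lam_sq (h0 : aa q0.1 = 1) : ∃ s : 𝓞 K, (s = 1 ∨ s = -1) ∧ c4 q0 (s * lam ^ 2) = 0 := by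
  have hl := lam_not_dvd q0
  have e : c4 q0 (lam ^ 2) = 2 * c4 q0 lam := by
    rw [c4_pow q0 hl]
    norm_num
  have h2 : ∀ t : ZMod 4, 2 * t = 0 ∨ 2 * t = 2 := by decide
  rcases h2 (c4 q0 lam) with h3 | h3
  · exact ⟨1, Or.inl rfl, by rw [one_mul, e, h3]⟩
  · refine ⟨-1, Or.inr rfl, ?_⟩
    rw [c4_mul q0 (not_dvd_neg_one q0) (fun h => hl (q0.prime.dvd_of_dvd_pow h)), c4_neg_one, e,
      h3]
    have h4 : ∀ n : ZMod 4, md n = 1 → 2 * n + 2 = 0 := by decide
    exact h4 _ h0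

/-- **the sum of `ξ(R) + ξ(lam² R)`** -/
theorem gamB_xi (hB : (2 : ℂ)⁻¹ ∉ B) (h0 : aa q0.1 = 1) (hk : ∀ q : Pg, ¬ q.1 ∣ kap)
    {J : Finset Pg} (he : ∀ q ∈ J, ex q ≠ 0) :
    B.valuation (SO q0 kap J fun y => wtB ex J (kap * y) * (xi (em y / em (q0.1 * DDq J)) +
      xi (lm ^ 2 * (em y / em (q0.1 * DDq J))))) < 1 := by
  obtain ⟨s, hs, hs0⟩ := exists_lam_sq h0
  have hsu : IsUnit s := by
    rcases hs with rfl | rfl
    · exact isUnit_one
    · exact isUnit_one.neg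
  have hu : IsCoprime (s * lam ^ 2) (q0.1 * DDq J) := by
    rw [isCoprime_mul_unit_left_left hsu]
    exact (in4_cop_lam (qD_in4 q0 J) 2).symm
  have hu2 : ∀ q ∈ J, c2 q (s * lam ^ 2) = 0 := by
    intro q _
    have hl := lam_not_dvd q
    have hl2 : ¬ q.1 ∣ lam ^ 2 := fun h => hl (q.prime.dvd_of_dvd_pow h)
    have e : md (c4 q (lam ^ 2)) = 0 := by
      rw [c4_pow q hl]
      have h2 : ∀ t : ZMod 4, md (((2 : ℕ) : ZMod 4) * t) = 0 := by decide
      exact h2 _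
    unfold c2
    rcases hs with rfl | rfl
    · rw [one_mul, e]
    · rw [c4_mul q (not_dvd_neg_one q) hl2, c4_neg_one, map_add, e, add_zero]
      have h2 : ∀ t : ZMod 4, md (2 * t) = 0 := by decide
      exact h2 _
  have hper : ∀ z l, l ∈ PP.lattice → xi (z + l) = xi z := fun z l hl =>
    xi_congr (by rwa [add_sub_cancel_left])
  have h1 := v_sub_mulB hB hk he hu hs0 hu2 hper fun z hz => xi_le hB hz
  have h2 : ∀ z : ℂ, xi (em (s * lam ^ 2) * z) = xi (lm ^ 2 * z) := by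
    intro z
    rw [em_mul, em_pow, em_lam]
    rcases hs with rfl | rfl
    · rw [em_one, one_mul]
    · rw [em_neg, em_one, neg_one_mul, neg_mul, xi_neg]
  simp only [h2] at h1
  have h3 : B.valuation (SO q0 kap J fun y => wtB ex J (kap * y) *
      xi (em y / em (q0.1 * DDq J))) ≤ 1 := v_SO_le fun y hy => by
    rw [map_mul]
    exact mul_le_one' (hy.v_wtB hB hk he) (xi_le hB hy.od)
  have e : (SO q0 kap J fun y => wtB ex J (kap * y) * (xi (em y / em (q0.1 * DDq J)) +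
      xi (lm ^ 2 * (em y / em (q0.1 * DDq J))))) =
      (SO q0 kap J (fun y => wtB ex J (kap * y) * xi (lm ^ 2 * (em y / em (q0.1 * DDq J)))) -
      SO q0 kap J (fun y => wtB ex J (kap * y) * xi (em y / em (q0.1 * DDq J)))) +
      2 * SO q0 kap J (fun y => wtB ex J (kap * y) * xi (em y / em (q0.1 * DDq J))) := by
    have h4 : (SO q0 kap J fun y => wtB ex J (kap * y) * (xi (em y / em (q0.1 * DDq J)) +
        xi (lm ^ 2 * (em y / em (q0.1 * DDq J))))) =
        SO q0 kap J (fun y => wtB ex J (kap * y) * xi (em y / em (q0.1 * DDq J))) +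
        SO q0 kap J (fun y => wtB ex J (kap * y) * xi (lm ^ 2 * (em y / em (q0.1 * DDq J)))) := by
      rw [← SO_add]
      exact SO_congr fun y _ => mul_add _ _ _
    rw [h4]
    ring
  rw [e]
  refine Valuation.map_add_lt _ h1 ?_
  rw [map_mul]
  exact mul_lt_one_of_lt_of_le (two_lt hB) h3

/-- **Gam = 0** -/
theorem gamB (hB : (2 : ℂ)⁻¹ ∉ B) (h0 : aa q0.1 = 1) (hk : ∀ q : Pg, ¬ q.1 ∣ kap)
    {J : Finset Pg} (he : ∀ q ∈ J, ex q ≠ 0) {f : ℂ → ℂ}
    (hf : ∀ z, Od z → B.valuation (f z - (xi z + xi (lm ^ 2 * z))) < 1) :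
    B.valuation (SO q0 kap J fun y => wtB ex J (kap * y) * f (em y / em (q0.1 * DDq J))) < 1 := by
  have e : (SO q0 kap J fun y => wtB ex J (kap * y) * f (em y / em (q0.1 * DDq J))) =
      (SO q0 kap J fun y => wtB ex J (kap * y) * (f (em y / em (q0.1 * DDq J)) -
        (xi (em y / em (q0.1 * DDq J)) + xi (lm ^ 2 * (em y / em (q0.1 * DDq J)))))) +
      (SO q0 kap J fun y => wtB ex J (kap * y) * (xi (em y / em (q0.1 * DDq J)) +
        xi (lm ^ 2 * (em y / em (q0.1 * DDq J))))) := by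
    rw [← SO_add]
    exact SO_congr fun y _ => by ring
  rw [e]
  refine Valuation.map_add_lt _ (v_SO_lt zero_lt_one fun y hy => ?_) (gamB_xi hB h0 hk he)
  rw [map_mul, mul_comm]
  exact mul_lt_one_of_lt_of_le (hf _ hy.od) (hy.v_wtB hB hk he)

/-! ### The sums `GX` -/

theorem v_GX_ltB (hB : (2 : ℂ)⁻¹ ∉ B) (hk : ∀ q : Pg, ¬ q.1 ∣ kap) (he : ∀ q ∈ J, ex q ≠ 0)
    {f : ℂ → ℂ} {b : B.ValueGroup}
    (hb : 0 < b) (hf : ∀ z, Od z → B.valuation (f z) < b) :
    B.valuation (GX q0 kap (wtB ex J) f J) < b := by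
  rw [GX_SO]
  refine v_SO_lt hb fun y hy => ?_
  rw [map_mul]
  refine lt_of_le_of_lt (mul_le_mul' (hy.v_wtB hB hk he) le_rfl) ?_
  rw [one_mul]
  exact hf _ hy.od

theorem v_GX_leB (hB : (2 : ℂ)⁻¹ ∉ B) (hk : ∀ q : Pg, ¬ q.1 ∣ kap) (he : ∀ q ∈ J, ex q ≠ 0)
    {f : ℂ → ℂ} {b : B.ValueGroup}
    (hf : ∀ z, Od z → B.valuation (f z) ≤ b) : B.valuation (GX q0 kap (wtB ex J) f J) ≤ b := by
  rw [GX_SO]
  refine v_SO_le fun y hy => ?_
  rw [map_mul]
  refine (mul_le_mul' (hy.v_wtB hB hk he) le_rfl).trans ?_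
  rw [one_mul]
  exact hf _ hy.od

/-- the weights `wB` and `wtB` -/
theorem GX_wtB (f : ℂ → ℂ) : GX q0 kap (wB ex J) f J = lm ^ mB ex J * GX q0 kap (wtB ex J) f J := by
  rw [GX_SO, GX_SO, ← SO_smul]
  refine SO_congr fun y _ => ?_
  rw [wtB]
  have h := pow_ne_zero (mB ex J) lm_ne
  field_simp

/-- **Gam = 0** -/
theorem gamXB (hB : (2 : ℂ)⁻¹ ∉ B) (h0 : aa q0.1 = 1) (hk : ∀ q : Pg, ¬ q.1 ∣ kap)
    {J : Finset Pg} (he : ∀ q ∈ J, ex q ≠ 0) {f : ℂ → ℂ}
    (hf : ∀ z, Od z → B.valuation (f z - (xi z + xi (lm ^ 2 * z))) < 1) :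
    B.valuation (GX q0 kap (wtB ex J) f J) < 1 := by
  rw [GX_SO]
  exact gamB hB h0 hk he hf

/-- the sum of the weights -/
theorem GX_wB_one (hk : ∀ q : Pg, ¬ q.1 ∣ kap) (hq : q0 ∉ J) (he : ∀ q ∈ J, ex q ≠ 0) :
    GX q0 kap (wB ex J) (fun _ => 1) J = n0 q0 kap * ∏ q ∈ J, ((Nz q.1 : ℂ) - 1) := by
  rw [GX_SO, ← sum_wB_om hk hq he]
  exact SO_congr fun y _ => mul_one _

theorem GX_wtB_one (hk : ∀ q : Pg, ¬ q.1 ∣ kap) (hq : q0 ∉ J) (he : ∀ q ∈ J, ex q ≠ 0) :
    GX q0 kap (wtB ex J) (fun _ => 1) J =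
      n0 q0 kap * ∏ q ∈ J, (((Nz q.1 : ℂ) - 1) / lm ^ mq (ex q)) := by
  rw [GX_SO, ← sum_wtB_om hk hq he]
  exact SO_congr fun y _ => mul_one _

theorem v_GX_wtB_one (hB : (2 : ℂ)⁻¹ ∉ B) (hk : ∀ q : Pg, ¬ q.1 ∣ kap) (hq : q0 ∉ J)
    (he : ∀ q ∈ J, ex q ≠ 0) :
    B.valuation (GX q0 kap (wtB ex J) (fun _ => 1) J) ≤
      B.valuation lm ^ (∑ q ∈ J, (4 - mq (ex q))) := by
  rw [GX_SO]
  refine le_of_eq_of_le ?_ (v_sum_wtB_om hB hk hq he)
  congr 1
  exact SO_congr fun y _ => mul_one _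

end

end Pool.Agent.Lib.MP_1a91b9_ntQ
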