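import Pool.Agent.Lib.MP_1a91b9_ntQ.A.SyI
import Pool.Agent.Lib.MP_1a91b9_ntQ.A.IndX
import Pool.Agent.Lib.MP_1a91b9_ntQ.B.AvgXB

/-!
# Quartic twists, all fourth-power-free `D`, class (X), file SyXB: the data `SyB` of the blocks

`S0` is the set of the primes with odd exponent, `B0` the set of the primes with exponent two;
`La T A = MMB k h q0 e (T ∪ A) (T ∪ A)`, the weights `nX s4 aa q0` are not symmetric.
-/

set_option autoImplicit false

namespace Pool.Agent.Lib.MP_1a91b9_ntQ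

open NumberField Pool.Agent.Lib.MP_1a91b9_nuT Pool.Agent.Lib.MP_1a91b9_nuT.S3
  Pool.Agent.Lib.MP_1a91b9_nuT.Ell

noncomputable section

/-- the weights -/
def nXB (q0 : Pg) : Pg → Pg → ZMod 2 := nX s4 (fun q : Pg => aa q.1) q0

/-- the sum of the blocks -/
def LaX (k : ZMod 4) (h : ZMod 2) (q0 : Pg) (e : Pg → ZMod 4) (T A : Finset Pg) : ℂ :=
  MMB k h q0 e (T ∪ A) (T ∪ A)

/-- the prime with its sign -/
def eXs (k : ZMod 4) (b : Pg) : ℂ := th4 k b.1 * em b.1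

/-- the value of the block character -/
def xXs (h : ZMod 2) (q0 : Pg) (e : Pg → ZMod 4) (T : Finset Pg) (b : Pg) : ℂ :=
  e4 (bXB q0 e h T b.1)

theorem nXB_eq (q0 b a : Pg) : nXB q0 b a = s4 b a + aa a.1 * s4 q0 b := rfl

/-! ### The exponents -/

/-- the exponent for the union with a set of exponents two -/
theorem bXB_union (q0 : Pg) (e : Pg → ZMod 4) (h : ZMod 2) {T A : Finset Pg} (hd : Disjoint T A)
    (he : ∀ a ∈ A, e a = 2) (x : 𝓞 K) : bXB q0 e h (T ∪ A) x =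
      bXB q0 e h T x + 2 * ∑ a ∈ A, (-(nn a.1 * nn q0.1 * c4 q0 x) + c4 a x) := by
  have e1 : ∑ a ∈ A, e a * nn a.1 = 2 * ∑ a ∈ A, nn a.1 := by
    rw [Finset.mul_sum]
    exact Finset.sum_congr rfl fun a ha => by rw [he a ha]
  have e2 : ∑ a ∈ A, e a * c4 a x = 2 * ∑ a ∈ A, c4 a x := by
    rw [Finset.mul_sum]
    exact Finset.sum_congr rfl fun a ha => by rw [he a ha]
  have e3 : ∑ a ∈ A, (-(nn a.1 * nn q0.1 * c4 q0 x) + c4 a x) =
      -((∑ a ∈ A, nn a.1) * nn q0.1 * c4 q0 x) + ∑ a ∈ A, c4 a x := by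
    rw [Finset.sum_add_distrib, Finset.sum_neg_distrib, ← Finset.sum_mul, ← Finset.sum_mul]
  rw [bXB, bXB, e0XB, e0XB, Finset.sum_union hd, Finset.sum_union hd, e1, e2, e3]
  ring

/-- the value of the block character for the union with a set of exponents two -/
theorem xXs_union {q0 : Pg} (h0 : aa q0.1 = 1) (e : Pg → ZMod 4) (h : ZMod 2) {T A : Finset Pg}
    (hd : Disjoint T A) (he : ∀ a ∈ A, e a = 2) (b : Pg) :
    xXs h q0 e (T ∪ A) b = xXs h q0 e T b * ∏ a ∈ A, sgz (nXB q0 b a) := by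
  rw [xXs, xXs, bXB_union q0 e h hd he, e4_add, Finset.mul_sum, e4_sum]
  congr 1
  refine Finset.prod_congr rfl fun a _ => ?_
  rw [e4_two_sgz]
  congr 1
  have h2 : md (nn q0.1) = 1 := h0
  have h3 : md (c4 q0 b.1) = s4 q0 b := rfl
  have h4 : md (c4 a b.1) = s4 b a := by
    rw [IndX_s4 b a]
    rfl
  have h5 : md (nn a.1) = aa a.1 := rfl
  have hneg : ∀ x : ZMod 2, -x = x := by decide
  rw [map_add, map_neg, map_mul, map_mul, h2, h3, h4, h5, hneg, mul_one, nXB_eq, add_comm]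

/-- the parity of the exponent -/
theorem md_bXB {q0 : Pg} (h0 : aa q0.1 = 1) (h : ZMod 2) {e : Pg → ZMod 4} {T : Finset Pg}
    (he : ∀ p ∈ T, md (e p) ≠ 0) (b : Pg) :
    md (bXB q0 e h T b.1) = ∑ p ∈ T, nXB q0 b p := by
  have h1 : md (hh h) = 0 := by
    have key : ∀ h : ZMod 2, md (hh h) = 0 := by
      unfold hh
      decide
    exact key h
  have h2 : md (nn q0.1) = 1 := h0
  have h3 : md (c4 q0 b.1) = s4 q0 b := rfl
  have h4 : ∑ p ∈ T, md (e p * c4 p b.1) = ∑ p ∈ T, s4 b p :=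
    Finset.sum_congr rfl fun p hp => by
      rw [map_mul, md_one_of (he p hp), one_mul, IndX_s4 b p]
      rfl
  have h5 : ∑ p ∈ T, md (e p * nn p.1) = ∑ p ∈ T, aa p.1 :=
    Finset.sum_congr rfl fun p hp => by
      rw [map_mul, md_one_of (he p hp), one_mul]
      rfl
  have hneg : ∀ x : ZMod 2, -x = x := by decide
  rw [bXB, e0XB, map_add, map_mul, map_neg, map_mul, map_add, h1, h2, h3, map_sum, map_sum, h4, h5,
    hneg, zero_add, mul_one, Finset.sum_mul, ← Finset.sum_add_distrib]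
  refine Finset.sum_congr rfl fun p _ => ?_
  rw [nXB_eq, add_comm]

/-- the sign is the exponent `k nn` -/
theorem eXs_sub {k : ZMod 4} (hk : k = 0 ∨ k = 2) (b : Pg) (t : ZMod 4) :
    eXs k b - e4 t = e4 (k * nn b.1) * (em b.1 - e4 (k * nn b.1 + t)) := by
  have h1 := th4_sq hk b.1
  rw [eXs, e4_add, mul_sub, ← mul_assoc]
  change th4 k b.1 * em b.1 - e4 t = th4 k b.1 * em b.1 - th4 k b.1 * th4 k b.1 * e4 t
  rw [h1, one_mul]

variable {B : ValuationSubring ℂ}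

theorem md_knn {k : ZMod 4} (hk : k = 0 ∨ k = 2) (n t : ZMod 4) : md (k * n + t) = md t := by
  have key : ∀ k n t : ZMod 4, (k = 0 ∨ k = 2) → md (k * n + t) = md t := by decide
  exact key k n t hk

/-- **the factor** -/
theorem Rt_facX (hB : (2 : ℂ)⁻¹ ∉ B) {k : ZMod 4} (hk : k = 0 ∨ k = 2) (b : Pg) (t : ZMod 4) :
    Rt B ((eXs k b - e4 t) / lm) (md t) := by
  obtain ⟨y, hy⟩ := em_q_sub b
  have e1 : (eXs k b - e4 t) / lm =
      e4 (k * nn b.1) * (lm ^ 2 * em y + (1 - e4 (k * nn b.1 + t)) / lm) := by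
    rw [eXs_sub hk]
    have hl := lm_ne
    field_simp
    linear_combination e4 (k * nn b.1) * hy
  rw [e1, ← one_mul (md t), ← md_knn hk (nn b.1) t, ← zero_add (md (k * nn b.1 + t))]
  refine (Rt_root hB _).mul hB (Rt.add hB (Rt.of_lt ?_) (Rt_e4 hB _))
  rw [map_mul, map_pow]
  exact mul_lt_one_of_lt_of_le (pow_lt_one₀ zero_le (v_lm_lt hB) two_ne_zero) (v_em y)

/-- **the factor to the second order** -/
theorem Rt_facX2 (hB : (2 : ℂ)⁻¹ ∉ B) {k : ZMod 4} (hk : k = 0 ∨ k = 2) (b : Pg) {t : ZMod 4}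
    (h : md t = 0) : Rt B ((eXs k b - e4 t) / lm ^ 2) (hf2 (k * nn b.1 + t)) := by
  have h1 := (Rt_root hB (k * nn b.1)).mul hB (Rt_facB2 hB (b := b) (t := k * nn b.1 + t)
    (by rw [md_knn hk, h]))
  rwa [one_mul, ← mul_div_assoc, ← eXs_sub hk] at h1

/-- **the data of the blocks** -/
theorem syXB (hB : (2 : ℂ)⁻¹ ∉ B) {k : ZMod 4} (hk : k = 0 ∨ k = 2) {q0 : Pg}
    (h0 : aa q0.1 = 1) (h : ZMod 2) {e : Pg → ZMod 4} {S0 B0 : Finset Pg}
    (hd : Disjoint S0 B0) (he : ∀ q ∈ S0, md (e q) ≠ 0) (K : ℂ) :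
    SyB B lm K (LaX k h q0 e) (eXs k) (xXs h q0 e) (nXB q0) (fun _ => 0) S0 B0 where
  hB := hB
  hl := Rt.of_lt (v_lm_lt hB)
  hl0 := lm_ne
  hu := by
    have e1 : (2 : ℂ) / lm ^ 2 = -zt := by
      rw [div_eq_iff (pow_ne_zero 2 lm_ne), lm_sq]
      linear_combination 2 * zt_sq
    rw [e1]
    have h3 := Rt_root hB 1
    rw [e4_one] at h3
    exact h3.neg hB
  dis := hd
  fac T hT b _ := by
    rw [zero_add, ← md_bXB h0 h (fun q hq => he q (hT hq))]
    exact Rt_facX hB hk b _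
  one _ _ _ _ := Rt_root hB _

/-- the hypothesis `h1` of the end statements -/
theorem h1X (hB : (2 : ℂ)⁻¹ ∉ B) (h : ZMod 2) (q0 : Pg) (e : Pg → ZMod 4) (T U : Finset Pg)
    (b : Pg) : Rt B (xXs h q0 e T b * ∏ a ∈ U, sgz (nXB q0 b a)) 1 := by
  have h1 := (Rt_root hB (bXB q0 e h T b.1)).mul hB (Rt.prod hB U fun a _ => Rt_sgz hB (nXB q0 b a))
  rwa [Finset.prod_const_one, mul_one] at h1

/-- the hypothesis `h2` of the end statements -/
theorem h2X (hB : (2 : ℂ)⁻¹ ∉ B) {k : ZMod 4} (hk : k = 0 ∨ k = 2) {q0 : Pg} (h0 : aa q0.1 = 1)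
    (h : ZMod 2) {e : Pg → ZMod 4} {T U : Finset Pg} (hd : Disjoint T U)
    (he : ∀ q ∈ T, md (e q) ≠ 0) (hU : ∀ a ∈ U, e a = 2) {b : Pg}
    (hb : (0 : ZMod 2) + ∑ p ∈ T, nXB q0 b p = 0) :
    Rt B ((eXs k b - xXs h q0 e T b * ∏ a ∈ U, sgz (nXB q0 b a)) / lm ^ 2)
      (hf2 (k * nn b.1 + bXB q0 e h (T ∪ U) b.1)) := by
  rw [← xXs_union h0 e h hd hU, xXs]
  refine Rt_facX2 hB hk b ?_
  rw [bXB_union q0 e h hd hU, map_add, map_mul, md_two, zero_mul, add_zero, md_bXB h0 h he,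
    ← zero_add (∑ p ∈ T, nXB q0 b p), hb]

/-! ### The total identity -/

/-- **the total identity is the sum over the classes** -/
theorem idX_eq {k : ZMod 4} (hk : k = 0 ∨ k = 2) {q0 : Pg} (h0 : aa q0.1 = 1) (h : ZMod 2)
    {e : Pg → ZMod 4} (K : ℂ) (n : ℕ) {T C : Finset Pg} (hd : Disjoint T C)
    (hC : ∀ q ∈ C, e q = 2) (hq : q0 ∉ T ∪ C) :
    idB lm K (LaX k h q0 e) (eXs k) (xXs h q0 e) (nXB q0) n T C =
      GX q0 (f4 k) (wB e (T ∪ C)) (fun z => UX k h (X z)) (T ∪ C) /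
        (K * lm ^ (T.card + 2 * C.card + n)) := by
  classical
  rw [idB, ← MMB_sum, sum_powerset_union hd]
  congr 1
  refine Finset.sum_congr rfl fun T' hT' => ?_
  rw [Finset.mul_sum]
  refine Finset.sum_congr rfl fun A hA => ?_
  rw [Finset.mem_powerset] at hT' hA
  have hd' : Disjoint T' A := Finset.disjoint_of_subset_left hT'
    (Finset.disjoint_of_subset_right hA hd)
  have e1 : (T ∪ C) \ (T' ∪ A) = (T \ T') ∪ (C \ A) := by
    ext q
    simp only [Finset.mem_sdiff, Finset.mem_union]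
    have h1 : q ∈ T → q ∉ C := fun h => Finset.disjoint_left.1 hd h
    have h2 : q ∈ T' → q ∈ T := fun h => hT' h
    have h3 : q ∈ A → q ∈ C := fun h => hA h
    tauto
  have e2 : ∏ b ∈ (T \ T') ∪ (C \ A), fcB (eXs k) (xXs h q0 e) (nXB q0) T' A b =
      ∏ q ∈ (T \ T') ∪ (C \ A), (th4 k q.1 * em q.1 - e4 (bXB q0 e h (T' ∪ A) q.1)) := by
    refine Finset.prod_congr rfl fun b _ => ?_
    rw [fcB, ← xXs_union h0 e h hd' (fun a ha => hC a (hA ha))]
    rfl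
  rw [Finset.card_union_of_disjoint hd', pow_add, mul_assoc, e2,
    MMB_prod hk h0 e h (Finset.union_subset_union hT' hA) hq, e1, LaX]
  ring

end

end Pool.Agent.Lib.MP_1a91b9_ntQ
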