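import Pool.Agent.Lib.MP_1a91b9_ntQ.A.Rhs2
import Pool.Agent.Lib.MP_1a91b9_ntQ.B.SyXB
import Pool.Agent.Lib.MP_1a91b9_ntQ.B.GamB

/-!
# Quartic twists, all fourth-power-free `D`, class (X), `k = 2`, file RhsX2B: the right side
-/

set_option autoImplicit false

namespace Pool.Agent.Lib.MP_1a91b9_ntQ

open NumberField Pool.Agent.Lib.MP_1a91b9_nuT Pool.Agent.Lib.MP_1a91b9_nuT.S3
  Pool.Agent.Lib.MP_1a91b9_nuT.Ell

noncomputable section

variable {B : ValuationSubring ℂ} {q0 : Pg} {J : Finset Pg}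

/-- **The right side**, `k = 2`. -/
theorem v_rhs2B (hB : (2 : ℂ)⁻¹ ∉ B) (h0 : aa q0.1 = 1) (h : ZMod 2) (hJ : J.Nonempty)
    (hq : q0 ∉ J) {e : Pg → ZMod 4} (he : ∀ q ∈ J, e q ≠ 0) :
    B.valuation (GX q0 (f4 2) (wtB e J) (fun z => UX 2 h (X z)) J) < B.valuation lm ^ 3 := by
  obtain ⟨l, hl⟩ : ∃ l, l = B.valuation lm := ⟨_, rfl⟩
  have hl0 : 0 < l := hl ▸ v_lm_pos
  have hl1 : l < 1 := hl ▸ v_lm_lt hB
  have hk := f4_ndvd 2
  rw [GX_U2, ← hl]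
  refine Valuation.map_sub_lt _ (Valuation.map_sub_lt _ ?_ ?_) ?_
  · refine lt_of_le_of_lt (v_GX_leB hB hk he (b := l ^ 4) fun z hz => hl ▸ v_U2 hB h hz) ?_
    exact pow_lt_pow_right_of_lt_one₀ hl0 hl1 (by norm_num)
  · have h1 := v_GX_wtB_one hB hk hq he
    rw [← hl] at h1
    rw [map_mul, map_mul, map_pow, v_cX2 hB, mul_one, ← hl]
    have h3 := two_card_le e J
    have h4 := hJ.card_pos
    have h2 : l ^ (∑ q ∈ J, (4 - mq (e q))) ≤ l ^ 2 :=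
      pow_le_pow_right_of_le_one' hl1.le (by omega)
    calc l ^ 2 * B.valuation (GX q0 (f4 2) (wtB e J) (fun _ => 1) J) ≤ l ^ 2 * l ^ 2 :=
          mul_le_mul' le_rfl (h1.trans h2)
      _ = l ^ 4 := by rw [← pow_add]
      _ < l ^ 3 := pow_lt_pow_right_of_lt_one₀ hl0 hl1 (by norm_num)
  · rw [map_mul, map_pow, ← hl]
    have h1 := gamXB hB h0 hk he (f := fun z => ze z + ze z ^ 2) fun z hz => v_ze_ze hB hz
    calc l ^ 3 * B.valuation (GX q0 (f4 2) (wtB e J) (fun z => ze z + ze z ^ 2) J) < l ^ 3 * 1 :=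
          (mul_lt_mul_iff_right₀ (pow_pos hl0 3)).2 h1
      _ = l ^ 3 := mul_one _

/-- **The total identity**, `k = 2`. -/
theorem Rt_idX2 (hB : (2 : ℂ)⁻¹ ∉ B) (h0 : aa q0.1 = 1) (h : ZMod 2)
    {e : Pg → ZMod 4} {T C : Finset Pg} (hd : Disjoint T C) (hT : ∀ q ∈ T, md (e q) ≠ 0)
    (hC : ∀ q ∈ C, e q = 2) (hq : q0 ∉ T ∪ C) (hTC : (T ∪ C).Nonempty) :
    Rt B (idB lm (lm ^ 2) (LaX 2 h q0 e) (eXs 2) (xXs h q0 e) (nXB q0) 1 T C) 0 := by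
  refine Rt.of_lt ?_
  have he : ∀ q ∈ T ∪ C, e q ≠ 0 := by
    intro q hq h0
    rcases Finset.mem_union.1 hq with h | h
    · exact hT q h (by rw [h0, map_zero])
    · rw [hC q h] at h0
      exact absurd h0 (by decide)
  have hmB : mB e (T ∪ C) = T.card + 2 * C.card := by
    rw [mB_eq, Finset.sum_union hd]
    congr 1
    · rw [Finset.card_eq_sum_ones]
      exact Finset.sum_congr rfl fun q hq => mq_odd (hT q hq)
    · rw [Finset.card_eq_sum_ones, Finset.mul_sum]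
      exact Finset.sum_congr rfl fun q hq => mq_two (by rw [hC q hq, md_two])
  have h1 := v_rhs2B hB h0 h hTC hq he
  have hl0 : 0 < B.valuation lm ^ 3 := pow_pos v_lm_pos 3
  have e1 : GX q0 (f4 2) (wB e (T ∪ C)) (fun z => UX 2 h (X z)) (T ∪ C) /
      (lm ^ 2 * lm ^ (T.card + 2 * C.card + 1)) =
      GX q0 (f4 2) (wtB e (T ∪ C)) (fun z => UX 2 h (X z)) (T ∪ C) / lm ^ 3 := by
    have e2 : lm ^ 2 * lm ^ (T.card + 2 * C.card + 1) = lm ^ mB e (T ∪ C) * lm ^ 3 := by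
      rw [hmB]
      ring
    rw [e2, GX_wtB, mul_div_mul_left _ _ (pow_ne_zero _ lm_ne)]
  rw [idX_eq (Or.inr rfl) h0 h (lm ^ 2) 1 hd hC hq, e1, map_div₀, map_pow, div_lt_one₀ hl0]
  exact h1

/-- the value for the empty sets -/
theorem Rt_LaX2_empty (hB : (2 : ℂ)⁻¹ ∉ B) (h0 : aa q0.1 = 1) (h : ZMod 2) (e : Pg → ZMod 4) :
    Rt B (LaX 2 h q0 e ∅ ∅ / lm ^ 2) 1 := by
  rw [LaX, Finset.empty_union, MMB_empty_e]
  exact Rt_MM2_empty hB h0 h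

/-- the factor at the empty set -/
theorem Rt_hfX2 (hB : (2 : ℂ)⁻¹ ∉ B) (h0 : aa q0.1 = 1) (h : ZMod 2) (e : Pg → ZMod 4) (b : Pg) :
    Rt B ((eXs 2 b - xXs h q0 e ∅ b) / lm ^ (1 + 1)) (aa b.1 + h * s4 q0 b) := by
  have h1 := Rt_fac2 hB h0 h b
  have e1 : bXB q0 e h ∅ b.1 = bX q0 h ∅ b.1 := by
    rw [bXB, bX, e0XB, e0X, Finset.sum_empty, Finset.sum_empty, Finset.sum_empty,
      Finset.sum_empty]
  rw [fac2] at h1
  rw [eXs, xXs, e1]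
  exact h1

end

end Pool.Agent.Lib.MP_1a91b9_ntQ
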