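import Pool.Agent.Lib.MP_1a91b9_ntQ.A.RtX
import Pool.Agent.Lib.MP_1a91b9_ntQ.A.EvB
import Pool.Agent.Lib.MP_1a91b9_ntQ.B.RhsX2B
import Pool.Agent.Lib.MP_1a91b9_ntQ.B.MatXB

/-!
# Quartic twists, all fourth-power-free `D`, class (X), file TopX1B: `k = 2`, the field `x1`
-/

set_option autoImplicit false

namespace Pool.Agent.Lib.MP_1a91b9_ntQ

open NumberField Finset Pool.Agent.Lib.MP_1a91b9_nuT Pool.Agent.Lib.MP_1a91b9_nuT.S3
  Pool.Agent.Lib.MP_1a91b9_nuT.Ell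
open Pool.Agent.Lib.MP_1a91b9_ntH (nm)

noncomputable section

variable {V : ValuationSubring ℂ} {q0 : Pg}

/-- **The comparison** : the normalised value and the normalised sum have the same class. -/
theorem Rt_LaB_of (hV : (2 : ℂ)⁻¹ ∉ V) {k : ZMod 4} (hk : k = 0 ∨ k = 2) (h0 : aa q0.1 = 1)
    {h : ZMod 2} {e : Pg → ZMod 4} {S0 B0 : Finset Pg} (hd : Disjoint S0 B0)
    (he : ∀ q ∈ S0, md (e q) ≠ 0) (he2 : ∀ q ∈ B0, e q = 2) (hq : q0 ∉ S0 ∪ B0)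
    (hS : hh h + ∑ q ∈ S0 ∪ B0, e q * nn q.1 = 0) (h1 : ∑ p ∈ S0, s4 q0 p = 1)
    {K : ℂ} (hK : K ≠ 0) {y : ZMod 2}
    (hy : Rt V (MMB k h q0 e (S0 ∪ B0) (S0 ∪ B0) / (K * lm)) y) :
    Rt V (LaB k 0 e (S0 ∪ B0) / (La4 k ∅ * K)) y := by
  have hqS : q0 ∉ S0 := fun h => hq (mem_union_left _ h)
  have hk2 : md k = 0 := by rcases hk with rfl | rfl <;> rfl
  have h2 : md (EB k 0 e (S0 ∪ B0) q0) = 1 := by
    rw [md_EB_union k 0 hd he2, md_EB k 0 he hqS, kapB, hk2, zero_mul, h1, Nat.cast_zero, zero_mul,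
      add_zero, zero_add]
  have h3 := Rt_facX hV (k := 0) (Or.inl rfl) q0 (EB k 0 e (S0 ∪ B0) q0)
  have e0 : eXs 0 q0 = em q0.1 := by
    rw [eXs, th4, zero_mul, e4_zero, one_mul]
  have e1 : e4 (EB k 0 e (S0 ∪ B0) q0) = XB k 0 e (S0 ∪ B0) q0.1 := (xB_eq k 0 e hq).symm
  rw [e0, h2, e1] at h3
  have h4 : Rt V (th4 k (q0.1 * DDq (S0 ∪ B0))) 1 := Rt_root hV _
  have h5 := h4.mul hV h3
  rw [one_mul] at h5
  have h6 := hy.mul hV (Rt_inv_one h5)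
  rw [mul_one] at h6
  have hu : th4 k (q0.1 * DDq (S0 ∪ B0)) * ((em q0.1 - XB k 0 e (S0 ∪ B0) q0.1) / lm) ≠ 0 :=
    h5.ne_zero one_ne_zero
  have e2 : MMB k h q0 e (S0 ∪ B0) (S0 ∪ B0) / (K * lm) * (th4 k (q0.1 * DDq (S0 ∪ B0)) *
      ((em q0.1 - XB k 0 e (S0 ∪ B0) q0.1) / lm))⁻¹ = LaB k 0 e (S0 ∪ B0) / (La4 k ∅ * K) := by
    have hC := CX_ne hk
    have hl := lm_ne
    have h7 := MMB_La hk h0 (e := e) hq hS
    have h8 := th4_sq hk (q0.1 * DDq (S0 ∪ B0))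
    rw [mul_inv_eq_iff_eq_mul₀ hu, ← CX_eq]
    have h9 : CX k * MMB k h q0 e (S0 ∪ B0) (S0 ∪ B0) = th4 k (q0.1 * DDq (S0 ∪ B0)) *
        ((em q0.1 - XB k 0 e (S0 ∪ B0) q0.1) * LaB k 0 e (S0 ∪ B0)) := by
      rw [← h7]
      linear_combination (-(CX k * MMB k h q0 e (S0 ∪ B0) (S0 ∪ B0))) * h8
    field_simp
    linear_combination h9
  rwa [e2] at h6

variable {S T B : Finset Pg}

/-- the parity of the weights -/
theorem sum_nXB (hA : ∑ q ∈ S ∪ T, aa q.1 = 0) (b : Pg) :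
    ∑ p ∈ S ∪ T, nXB q0 b p = ∑ p ∈ S ∪ T, s4 b p := by
  rw [sum_congr rfl fun p _ => nXB_eq q0 b p, sum_add_distrib, ← sum_mul, hA, zero_mul, add_zero]

/-- **The sum of the blocks**, `k = 2`. -/
theorem Rt_LaX2 (hV : (2 : ℂ)⁻¹ ∉ V) (h : Dj S T B)
    (hA : ∑ q ∈ S ∪ T, aa q.1 = 0) {h' : ZMod 2} (h0 : aa q0.1 = 1)
    (hh' : hh h' + nn (cB S T B) = 0) (hq : q0 ∉ S ∪ T ∪ B) (hs : ∑ p ∈ S ∪ T, s4 q0 p = 1)
    {r : Pg} (hr : r ∈ S ∪ T) :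
    Rt V (LaX 2 h' q0 (eB T B) (S ∪ T) B / (lm ^ 2 *
        lm ^ ((S ∪ T).card + (UqB 2 0 S T B).card + 2 * (VB 2 0 S T B).card + 1)))
      ((BM (pmG (MqB 2 0 S T B) (S ∪ T ∪ VB 2 0 S T B)) (fun i => aa i.1.1) (fun i => aa i.1.1)
        h').adjugate (Sum.inl ⟨r, mem_union_left _ hr⟩) (Sum.inl ⟨r, mem_union_left _ hr⟩)) := by
  have he : ∀ q ∈ S ∪ T, md (eB T B q) ≠ 0 := fun q hq => by
    rw [h.eodd hq]
    exact one_ne_zero
  have hk2 : kapB (kkB 2 S T B) 0 = fun _ : Pg => 0 := by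
    funext b
    rw [kapB, md_kkB]
    have h2 : md 2 = 0 := rfl
    rw [h2, zero_mul, Nat.cast_zero, zero_mul, add_zero]
  have h3 := (syXB hV (Or.inr rfl) h0 h' h.ub he (lm ^ 2)).final_CE2 (fun _ => rfl) (n := 1)
    le_rfl (f := fun b => aa b.1 + h' * s4 q0 b) (g := fun _ => 0)
    (h := fun b => aa b.1 + h' * s4 q0 b)
    (Rt_LaX2_empty hV h0 h' (eB T B)) (fun b _ => Rt_hfX2 hV h0 h' (eB T B) b)
    (fun T' hT' C hC hTC => by
      have h4 := Rt_idX2 hV h0 h' (e := eB T B) (T := T') (C := C)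
        (disjoint_of_subset_left hT' (disjoint_of_subset_right hC h.ub))
        (fun q hq => he q (hT' hq)) (fun q hq => h.eb (hC hq))
        (fun h1 => hq (union_subset_union hT' hC h1)) hTC
      have h5 : ∀ x : ZMod 2, x + x = 0 := by decide
      have e1 : ∑ q ∈ T', (aa q.1 + h' * s4 q0 q + (aa q.1 + h' * s4 q0 q)) = 0 :=
        sum_eq_zero fun q _ => h5 _
      simp only [e1, sum_const_zero, ite_self]
      exact h4)
    (UqB_union 2 0 S T B) (UqB_dis 2 0 S T B)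
    (fun b hb => by
      have h4 := hu1_B (k := 2) (j := 0) hb
      change kapB (kkB 2 S T B) 0 b + _ = 1 at h4
      rw [hk2, zero_add] at h4
      rw [sum_nXB hA, h4])
    (fun b hb => by
      have h4 := hu0_B (k := 2) (j := 0) hb
      change kapB (kkB 2 S T B) 0 b + _ = 0 at h4
      rw [hk2, zero_add] at h4
      rw [sum_nXB hA, h4])
    (τ := tauXB 2 h' q0 S T B) (fun b _ => h1X hV h' q0 (eB T B) (S ∪ T) (UqB 2 0 S T B) b)
    (fun b hb => h2X hV (Or.inr rfl) h0 h' (disjoint_of_subset_right sdiff_subset h.ub) he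
      (fun a ha => h.eb (mem_sdiff.1 ha).1) (by
        have h4 := hu0_B (k := 2) (j := 0) hb
        change kapB (kkB 2 S T B) 0 b + _ = 0 at h4
        rw [hk2, zero_add] at h4
        rw [zero_add, sum_nXB hA, h4]))
    hr
  have e2 : blkMv (nXB q0) (fun b => aa b.1 + h' * s4 q0 b) (fun b => aa b.1 + h' * s4 q0 b)
      (tauXB 2 h' q0 S T B) (S ∪ T) (VB 2 0 S T B) r =
      fun i j => if j = r then aa i.1 + h' * s4 q0 i else blkM (nXB q0) (fun _ => 0)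
        (tauXB 2 h' q0 S T B) (S ∪ T) (VB 2 0 S T B) i j := by
    funext i j
    rw [blkMv, ite_self]
    rfl
  rw [e2, pdt_nXB_a (Or.inr rfl) h hA h0 hh' hs hr h'] at h3
  exact h3

/-- the number `h` -/
theorem hh_hf4 {n : ZMod 4} (h : md n = 0) : hh (hf4 n) + n = 0 := by
  have key : ∀ n : ZMod 4, (ZMod.castHom (show 2 ∣ 4 by norm_num) (ZMod 2)) n = 0 →
      (if (if n = 2 then (1 : ZMod 2) else 0) = 0 then (0 : ZMod 4) else 2) + n = 0 := by decide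
  exact key n h

/-- **Class (X), `k = 2`, the value** : the congruence for every `D` of the class. -/
theorem Rt_B_X1 (hV : (2 : ℂ)⁻¹ ∉ V) (h : Dj S T B) (hA : aa (cB S T B) = 0) {r : Pg}
    (hr : r ∈ S ∪ T) :
    Rt V (LaB (kkB 2 S T B) 0 (eB T B) (S ∪ T ∪ B) / (La4 2 ∅ *
        lm ^ ((S ∪ T).card + (UqB 2 0 S T B).card + 2 * (VB 2 0 S T B).card + 2)))
      ((BM (pmG (MqB 2 0 S T B) (S ∪ T ∪ VB 2 0 S T B)) (fun i => aa i.1.1) (fun i => aa i.1.1)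
        (hf4 (nn (cB S T B)))).adjugate (Sum.inl ⟨r, mem_union_left _ hr⟩)
        (Sum.inl ⟨r, mem_union_left _ hr⟩)) := by
  have hA' : ∑ q ∈ S ∪ T, aa q.1 = 0 := by rw [← aa_cB h.st B, hA]
  have hne : (S ∪ T).Nonempty := ⟨r, hr⟩
  obtain ⟨q0, hq1, -, ha, h1⟩ := exists_aux hne.ne_empty (nm (S ∪ T ∪ B))
  have hq : q0 ∉ S ∪ T ∪ B := nm_lt_not_mem hq1
  have hh' : hh (hf4 (nn (cB S T B))) + nn (cB S T B) = 0 := hh_hf4 hA
  have h2 := Rt_LaX2 hV h hA' ha hh' hq h1 hr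
  rw [kkB_X h hA']
  refine Rt_LaB_of hV (Or.inr rfl) ha h.ub
    (fun q hq => by rw [h.eodd hq]; exact one_ne_zero) (fun q hq => h.eb hq) hq
    (by rw [h.sum_e_nn]; exact hh') h1 (pow_ne_zero _ lm_ne) ?_
  have e1 : (lm : ℂ) ^ 2 *
      lm ^ ((S ∪ T).card + (UqB 2 0 S T B).card + 2 * (VB 2 0 S T B).card + 1) =
      lm ^ ((S ∪ T).card + (UqB 2 0 S T B).card + 2 * (VB 2 0 S T B).card + 2) * lm := by ring
  rw [e1] at h2
  exact h2

/-- **The field `x1` of the criterion.** -/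
theorem lsB_x1 (h : Dj S T B) (hA : aa (cB S T B) = 0)
    (hG : KerB1 2 0 ![1, 0] (hf4 (nn (cB S T B))) S T B) : LQ (dB 2 0 S T B) := by
  obtain ⟨V, hV⟩ := exists_B2
  obtain ⟨r, hr⟩ := hG.1
  have e1 : bpB ![1, 0] = fun q : Pg => aa q.1 := by
    funext q
    simp [bpB]
  have h1 := hG.cof h rfl rfl (by rw [e1, ← aa_cB h.st B, hA]) hr
  rw [e1] at h1
  refine LQ_of_LaB h fun h0 => (Rt_B_X1 hV h hA hr).ne_zero h1 ?_
  change LaB (kkB 2 S T B) 0 (eB T B) (S ∪ T ∪ B) = 0 at h0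
  rw [h0, zero_div]

end

end Pool.Agent.Lib.MP_1a91b9_ntQ
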