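import Pool.Agent.Lib.MP_1a91b9_ntQ.B.LsI
import Pool.Agent.Lib.MP_1a91b9_ntQ.B.LsII
import Pool.Agent.Lib.MP_1a91b9_ntQ.B.TopX1B
import Pool.Agent.Lib.MP_1a91b9_ntQ.B.TopEB
import Pool.Agent.Lib.MP_1a91b9_ntQ.B.LsJ3
import Pool.Agent.Lib.MP_1a91b9_ntQ.B.LsJ2a
import Pool.Agent.Lib.MP_1a91b9_ntQ.B.LsJ2c

/-!
# MP_1a91b9_nt (quartic twists), all fourth-power-free `D`, file LsBF: the L-values of the good `D`

`lsB_of` : `LsB` from the fields `x2`, `x3` (class (X), `k = 0`), `b2` (class J2b), `d20`, `d22` (class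
J2d); the other fields are proved.
-/

set_option autoImplicit false

namespace Pool.Agent.Lib.MP_1a91b9_ntQ

open NumberField IsDedekindDomain Finset

noncomputable section

/-- The field `x2`. -/
def FX2 : Prop := ∀ S T B : Finset Pg, Dj S T B → aa (cB S T B) = 0 →
  hf4 (nn (cB S T B)) + bb (cB S T B) = 1 → KerB0 0 0 S T B → LQ (dB 0 0 S T B)

/-- The field `x3`. -/
def FX3 : Prop := ∀ S T B : Finset Pg, Dj S T B → aa (cB S T B) = 0 →
  hf4 (nn (cB S T B)) + bb (cB S T B) = 0 → KerB1 0 0 ![1, 0] (xl4 (llB (cB S T B))) S T B →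
  LQ (dB 0 0 S T B)

/-- The field `b2`. -/
def FB2 : Prop := ∀ S T B : Finset Pg, Dj S T B →
  DetB1 3 2 ![0, 1] (uB3 (mmB (cB S T B)) (nnB (cB S T B))) S T B → LQ (dB 3 2 S T B)

/-- The field `d20`. -/
def FD20 : Prop := ∀ S T B : Finset Pg, Dj S T B → bb (cB S T B) = 0 →
  KerB1 0 2 ![0, 1] (uB0 (mmB (cB S T B)) (nnB (cB S T B))) S T B → LQ (dB 0 2 S T B)

/-- The field `d22`. -/
def FD22 : Prop := ∀ S T B : Finset Pg, Dj S T B → aa (cB S T B) + bb (cB S T B) = 0 →
  KerB1 2 2 ![1, 1] (uB2 (mmB (cB S T B)) (nnB (cB S T B))) S T B → LQ (dB 2 2 S T B)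

/-- The four residue classes of `k`. -/
theorem k4_cases (k : ZMod 4) : k = 0 ∨ k = 1 ∨ k = 2 ∨ k = 3 := by
  revert k
  decide

/-- The two residue classes modulo `2`. -/
theorem z2_cases (a : ZMod 2) : a = 1 ∨ a = 0 := by
  revert a
  decide

/-- The four values of `j`. -/
theorem j4_cases (j : Fin 4) : j = 0 ∨ j = 1 ∨ j = 2 ∨ j = 3 := by
  revert j
  decide

/-- **The L-values of the good `D`**, from the five fields which are proved elsewhere. -/
theorem lsB_of (hx2 : FX2) (hx3 : FX3) (hb2 : FB2) (hd20 : FD20) (hd22 : FD22) : LsB := by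
  intro k j S T B h hS hG
  rcases j4_cases j with rfl | rfl | rfl | rfl
  · rcases md_cases' k with hk | hk
    · exact lsB_c1 h hk (hG.c1 rfl hk)
    · rcases z2_cases (aa (cB S T B)) with ha | ha
      · exact lsB_c2 h hk ha (hG.c2 rfl hk ha)
      · rcases k4_cases k with rfl | rfl | rfl | rfl
        · rcases z2_cases (hf4 (nn (cB S T B)) + bb (cB S T B)) with hb | hb
          · exact hx2 S T B h ha hb (hG.x2 rfl rfl ha hb)
          · exact hx3 S T B h ha hb (hG.x3 rfl rfl ha hb)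
        · exact absurd hk (by decide)
        · exact lsB_x1 h ha (hG.x1 rfl rfl ha)
        · exact absurd hk (by decide)
  · exact lsB_e h (hG.e rfl)
  · rcases k4_cases k with rfl | rfl | rfl | rfl
    · rcases z2_cases (bb (cB S T B)) with hb | hb
      · exact lsB_c20 h hS hb (hG.c20 rfl rfl hb)
      · exact hd20 S T B h hb (hG.d20 rfl rfl hb)
    · exact lsB_a2 h (hG.a2 rfl rfl)
    · rcases z2_cases (aa (cB S T B) + bb (cB S T B)) with hb | hb
      · exact lsB_c22 h hS hb (hG.c22 rfl rfl hb)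
      · exact hd22 S T B h hb (hG.d22 rfl rfl hb)
    · exact hb2 S T B h (hG.b2 rfl rfl)
  · exact lsB_j3 h (hG.j3 rfl)

end

end Pool.Agent.Lib.MP_1a91b9_ntQ
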