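import Pool.Agent.Lib.MP_1a91b9_ntQ.B.MatJB
import Pool.Agent.Lib.MP_1a91b9_ntQ.B.TopEB

/-!
# Quartic twists, all fourth-power-free `D`, file TopJB: the end of the classes with an auxiliary prime
of trivial symbols

`q0` with `a_0 = 1`, `kapB q0 = 1` and `s4 q0 p = 0` for all primes `p` of `D`: from the classes of the
totals (path sums with border `g = bpB p`) to the congruence of the value, a bordered determinant of
the criterion.
-/

set_option autoImplicit false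

namespace Pool.Agent.Lib.MP_1a91b9_ntQ

open NumberField Finset Pool.Agent.Lib.MP_1a91b9_nuT Pool.Agent.Lib.MP_1a91b9_nuT.S3
  Pool.Agent.Lib.MP_1a91b9_nuT.Ell

noncomputable section

theorem Ham_congrJ {ι R : Type*} [DecidableEq ι] [CommRing R] {m m' : ι → ι → R} {f f' : ι → R}
    (S : Finset ι) (h1 : ∀ x ∈ S, ∀ p ∈ S, x ≠ p → m x p = m' x p) (h2 : ∀ x ∈ S, f x = f' x) :
    ∀ i ∈ S, Ham m f S i = Ham m' f' S i := by
  induction S using Finset.strongInduction with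
  | H S ih =>
    intro i hi
    rw [Ham_rec m f hi, Ham_rec m' f' hi, h2 i hi]
    congr 1
    refine sum_congr rfl fun j hj => ?_
    rw [h1 i hi j (mem_of_mem_erase hj) (ne_of_mem_erase hj).symm,
      ih (S.erase i) (erase_ssubset hi) (fun x hx p hp => h1 x (mem_of_mem_erase hx) p
        (mem_of_mem_erase hp)) (fun x hx => h2 x (mem_of_mem_erase hx)) j hj]

variable {V : ValuationSubring ℂ} {q0 : Pg} {k : ZMod 4} {j : Fin 4} {S T B : Finset Pg}

/-- **From the totals to the value**, auxiliary prime with trivial symbols. -/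
theorem Rt_B_of_J (hV : (2 : ℂ)⁻¹ ∉ V) (h : Dj S T B) {h' : ZMod 4}
    (hh' : h' + nn (cB S T B) = 0) (h0 : aa q0.1 = 1) (hq : q0 ∉ S ∪ T ∪ B)
    (hs : ∀ p ∈ S ∪ T ∪ B, s4 q0 p = 0) (hk : kxB k j q0 = 1) {K : ℂ} {p : Fin 2 → ZMod 2}
    {x0 : ZMod 2} (hb : Rt V (MMJ (kkB k S T B) j.val h' q0 (eB T B) ∅ ∅ / K) x0)
    (hid : ∀ T' ⊆ S ∪ T, ∀ C ⊆ B, (T' ∪ C).Nonempty →
      Rt V (GX q0 (fB (kkB k S T B) j.val) (wB (eB T B) (T' ∪ C)) (UJ (kkB k S T B) j.val h')
        (T' ∪ C) / (K * lm ^ (T'.card + 2 * C.card)))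
        (∑ i ∈ T' ∪ C, bpB p i * Ham s4 (fun q => kxB k j q + bpB p q) (T' ∪ C) i))
    {K' : ℂ} (hK : K = K' * lm) :
    Rt V (LaB (kkB k S T B) j.val (eB T B) (S ∪ T ∪ B) / (K' *
        lm ^ ((S ∪ T).card + (UqB k j S T B).card + 2 * (VB k j S T B).card)))
      (NB1 k j p (x0 + ∑ q ∈ S ∪ T, bpB p q) S T B).det := by
  have he : ∀ q ∈ S ∪ T, md (eB T B q) ≠ 0 := fun q hq => by
    rw [h.eodd hq]
    exact one_ne_zero
  have h1 := (syJB hV (kkB k S T B) j.val h0 h' h.ub he K).final_E (g := bpB p) (x0 := x0)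
    (by rw [LaJ, union_empty]; exact hb)
    (fun T' hT' C hC hTC => by
      have hd := disjoint_of_subset_left hT' (disjoint_of_subset_right hC h.ub)
      have hsub : T' ∪ C ⊆ S ∪ T ∪ B := union_subset_union hT' hC
      rw [idJ_eq _ _ h0 h' K 0 hd (fun q hq => h.eb (hC hq)) (fun h1 => hq (hsub h1)), add_zero]
      have h2 := hid T' hT' C hC hTC
      have e1 : ∑ i ∈ T' ∪ C, bpB p i * Ham s4 (fun q => kxB k j q + bpB p q) (T' ∪ C) i =
          ∑ i ∈ T' ∪ C, bpB p i * Ham (nXB q0) (fun q => kapJ (kkB k S T B) j.val h' q0 q +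
            bpB p q) (T' ∪ C) i := by
        refine sum_congr rfl fun i hi => ?_
        congr 1
        refine Ham_congrJ _ (fun x hx y hy hxy => ?_) (fun x hx => ?_) i hi
        · rw [nXB_eq, hs x (hsub hx), mul_zero, add_zero]
        · rw [kapJ, kapB_kk, hs x (hsub hx), mul_zero, add_zero]
      rw [e1] at h2
      exact h2)
    (UqB_union k j S T B) (UqB_dis k j S T B) (fun b hb => hu1_J h hh' q0 hb)
    (fun b hb => hu0_J h hh' q0 hb)
    (τ := tauJB k j h' q0 S T B) (fun b _ => h1J hV h' q0 (eB T B) (nXB q0) (S ∪ T)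
      (UqB k j S T B) b)
    (fun b hb => h2J hV (kkB k S T B) j.val h0 h' (disjoint_of_subset_right sdiff_subset h.ub) he
      (fun a ha => h.eb (mem_sdiff.1 ha).1) (hu0_J h hh' q0 hb))
  have h2 : pdB (blkM (nXB q0) (kapJ (kkB k S T B) j.val h' q0) (tauJB k j h' q0 S T B) (S ∪ T)
      (VB k j S T B)) (bpB p) (bpB p) (x0 + ∑ q ∈ S ∪ T, bpB p q) (S ∪ T ∪ VB k j S T B) =
      (NB1 k j p (x0 + ∑ q ∈ S ∪ T, bpB p q) S T B).det := by
    rw [← pdB_NB1 h]
    refine pdB_congr (fun x hx y _ => ?_) (fun _ _ => rfl) (fun _ _ => rfl) rfl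
    rw [blkM_MqB h hx]
    exact blkM_nJB0 h h0 hh' (fun a ha => hs a (union_subset_union_right (VB_sub k j S T B) ha)) hx
  change Rt V _ (pdB (blkM (nXB q0) (kapJ (kkB k S T B) j.val h' q0) (tauJB k j h' q0 S T B) (S ∪ T)
    (VB k j S T B)) (bpB p) (bpB p) (x0 + ∑ q ∈ S ∪ T, bpB p q) (S ∪ T ∪ VB k j S T B)) at h1
  rw [h2] at h1
  refine Rt_LaJ_of hV (kkB k S T B) j.val h0 h.ub he (fun q hq => h.eb hq) hq
    (by rw [h.sum_e_nn]; exact hh') ?_ ?_
  · rw [kapB_kk, hk, sum_eq_zero fun a ha => hs a (mem_union_left _ ha), add_zero]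
  · rw [hK] at h1
    have e1 : K' * lm ^ ((S ∪ T).card + (UqB k j S T B).card + 2 * (VB k j S T B).card) * lm =
        K' * lm * lm ^ ((S ∪ T).card + (UqB k j S T B).card + 2 * (VB k j S T B).card) := by ring
    rw [e1]
    exact h1

end

end Pool.Agent.Lib.MP_1a91b9_ntQ
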