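import Pool.Agent.Lib.MP_1a91b9_ntQ.B.RhsJ2b
import Pool.Agent.Lib.MP_1a91b9_ntQ.B.TopJB
import Pool.Agent.Lib.MP_1a91b9_ntQ.R.PatB

/-!
# Quartic twists, part B, file LsJ2b: the L side of class J2b (`j = 2`, `k = 3`)

`Rt_B_J2b` : the congruence of the value for every `D` of the class; `lsB_b2` : the field `b2` of the
criterion.
-/

set_option autoImplicit false

namespace Pool.Agent.Lib.MP_1a91b9_ntQ

open NumberField Finset Pool.Agent.Lib.MP_1a91b9_nuT Pool.Agent.Lib.MP_1a91b9_nuT.S3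
  Pool.Agent.Lib.MP_1a91b9_nuT.Ell

noncomputable section

/-- the unit of the class J2b, of norm `2 ^ (11 / 4) ‖Om‖` -/
def KJb : ℂ := Om * wq ^ 18 * lm

theorem bpB_01 (q : Pg) : bpB ![0, 1] q = bb q.1 := by
  simp [bpB]

theorem kxB_32 (q : Pg) : kxB 3 2 q = aa q.1 := by
  have h1 : (((2 : Fin 4).val : ℕ) : ZMod 2) = 0 := rfl
  rw [kxB, md_three, h1, one_mul, zero_mul, add_zero]

private theorem LsJ2b_mm (m n : ℤ) : mmB (1 + lam ^ 3 * ((m : 𝓞 K4) + (n : 𝓞 K4) * iO)) =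
    (m : ZMod 4) := by
  unfold mmB
  rw [cp_form]
  have e : ((2 * m - 2 * n) - (1 - 2 * m - 2 * n) + 1) / 4 = m := by omega
  rw [e]

private theorem LsJ2b_nn (m n : ℤ) : nnB (1 + lam ^ 3 * ((m : 𝓞 K4) + (n : 𝓞 K4) * iO)) =
    (n : ZMod 4) := by
  unfold nnB
  rw [cp_form]
  have e : -((1 - 2 * m - 2 * n + (2 * m - 2 * n) - 1) / 4) = n := by omega
  rw [e]

/-- **The corner.** -/
theorem x0J2_uB3 {c : 𝓞 K4} (hc : In4 c) {h' : ZMod 4} (hh' : h' + nn c = 0) :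
    x0J2 h' + bb c = uB3 (mmB c) (nnB c) := by
  obtain ⟨m, n, rfl⟩ := in4_form hc
  rw [nn_form] at hh'
  rw [bb_form, LsJ2b_mm, LsJ2b_nn, ← md_intCast]
  have key : ∀ h x y : ZMod 4, h + (x + y) = 0 → x0J2 h + md y = uB3 x y := by
    unfold x0J2 uB3 md
    decide
  exact key _ _ _ hh'

variable {V : ValuationSubring ℂ} {S T B : Finset Pg}

/-- the classes of the weights -/
theorem kkB_3_cases (h : Dj S T B) {h' : ZMod 4} (hh' : h' + nn (cB S T B) = 0) :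
    (kkB 3 S T B = 3 ∧ (h' = 0 ∨ h' = 2)) ∨ (kkB 3 S T B = 1 ∧ (h' = 1 ∨ h' = 3)) := by
  have h1 : md h' = md (∑ q ∈ S ∪ T ∪ B, eB T B q * nn q.1) := by
    rw [md_h_eq h hh', map_sum, sum_union h.ub]
    have h3 : ∑ b ∈ B, md (eB T B b * nn b.1) = 0 := by
      refine sum_eq_zero fun b hb => ?_
      rw [map_mul, h.eb hb, md_two, zero_mul]
    rw [h3, add_zero]
    refine sum_congr rfl fun p hp => ?_
    rw [map_mul, h.eodd hp, one_mul]
    rfl
  have key : ∀ x y : ZMod 4, md x = md y →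
      (3 + 2 * y = 3 ∧ (x = 0 ∨ x = 2)) ∨ (3 + 2 * y = 1 ∧ (x = 1 ∨ x = 3)) := by
    unfold md
    decide
  rw [kkB, kB]
  exact key _ _ h1

/-- **Class J2b, the value** : the congruence for every `D` with `j = 2`, `k = 3`. -/
theorem Rt_B_J2b (hV : (2 : ℂ)⁻¹ ∉ V) (h : Dj S T B) :
    Rt V (LaB (kkB 3 S T B) 2 (eB T B) (S ∪ T ∪ B) / (KJb *
        lm ^ ((S ∪ T).card + (UqB 3 2 S T B).card + 2 * (VB 3 2 S T B).card)))
      (NB1 3 2 ![0, 1] (uB3 (mmB (cB S T B)) (nnB (cB S T B))) S T B).det := by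
  obtain ⟨h', hh'⟩ : ∃ h' : ZMod 4, h' + nn (cB S T B) = 0 := ⟨-nn (cB S T B), neg_add_cancel _⟩
  have hcl := kkB_3_cases h hh'
  obtain ⟨q0, -, hq, h0, hl0, hs⟩ := exists_pat4 (S ∪ T ∪ B) (fun _ => 0) 1 0 0
  have hcor : uB3 (mmB (cB S T B)) (nnB (cB S T B)) = x0J2 h' + ∑ q ∈ S ∪ T, bpB ![0, 1] q := by
    rw [← x0J2_uB3 (cB_in4 S T B) hh', bb_cB h.st B]
    congr 1
    exact sum_congr rfl fun q _ => (bpB_01 q).symm
  rw [hcor]
  refine Rt_B_of_J (j := 2) (K := Om * wq ^ 18 * lm ^ 2) hV h hh' h0 hq hs ?_ ?_ ?_ ?_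
  · rw [kxB_32, h0]
  · have h1 := rhsJ2b (J := ∅) (ex := eB T B) hV hcl h0 hl0 (notMem_empty _)
      (fun q hq => absurd hq (notMem_empty _)) (fun q hq => absurd hq (notMem_empty _))
    rw [if_pos rfl, sum_empty, add_zero, ← MMJ_sum, powerset_empty, sum_singleton, card_empty,
      pow_zero, one_mul, mB, sum_empty, pow_zero, mul_one] at h1
    exact h1
  · intro T' hT' C hC hTC
    have hsub : T' ∪ C ⊆ S ∪ T ∪ B := union_subset_union hT' hC
    have hd := disjoint_of_subset_left hT' (disjoint_of_subset_right hC h.ub)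
    have hT1 : ∀ q ∈ T', md (eB T B q) ≠ 0 := fun q hq => by
      rw [h.eodd (hT' hq)]
      exact one_ne_zero
    have hC2 : ∀ q ∈ C, eB T B q = 2 := fun q hq => h.eb (hC hq)
    have he : ∀ q ∈ T' ∪ C, eB T B q ≠ 0 := by
      intro q hq h3
      rcases mem_union.1 hq with h4 | h4
      · exact hT1 q h4 (by rw [h3, map_zero])
      · rw [hC2 q h4] at h3
        exact absurd h3 (by decide)
    have h1 := rhsJ2b (J := T' ∪ C) (ex := eB T B) hV hcl h0 hl0 (fun h3 => hq (hsub h3))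
      (fun q hq => hs q (hsub hq)) he
    have hm : mB (eB T B) (T' ∪ C) = T'.card + 2 * C.card := by
      rw [mB, sum_union hd, sum_congr rfl fun q hq => if_neg (hT1 q hq),
        sum_congr rfl fun q hq => if_pos (by rw [hC2 q hq, md_two]), sum_const,
        sum_const, smul_eq_mul, smul_eq_mul, mul_one, mul_comm C.card]
    rw [if_neg hTC.ne_empty, zero_add, hm] at h1
    have e1 : ∑ r ∈ T' ∪ C, bb r.1 * Ham s4 (fun q => aa q.1 + bb q.1) (T' ∪ C) r =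
        ∑ i ∈ T' ∪ C, bpB ![0, 1] i * Ham s4 (fun q => kxB 3 2 q + bpB ![0, 1] q) (T' ∪ C) i := by
      have e2 : (fun q => kxB 3 2 q + bpB ![0, 1] q) = fun q : Pg => aa q.1 + bb q.1 := by
        funext q
        rw [kxB_32, bpB_01]
      rw [e2]
      exact sum_congr rfl fun i _ => by rw [bpB_01]
    rw [e1] at h1
    exact h1
  · rw [KJb]
    ring

/-- **The field `b2` of the criterion.** -/
theorem lsB_b2 (h : Dj S T B)
    (hG : DetB1 3 2 ![0, 1] (uB3 (mmB (cB S T B)) (nnB (cB S T B))) S T B) : LQ (dB 3 2 S T B) := by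
  obtain ⟨V, hV⟩ := exists_B2
  refine LQ_of_LaB (j := 2) h fun h0 => (Rt_B_J2b hV h).ne_zero hG ?_
  change LaB (kkB 3 S T B) 2 (eB T B) (S ∪ T ∪ B) = 0 at h0
  rw [h0, zero_div]

end

end Pool.Agent.Lib.MP_1a91b9_ntQ
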