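import Pool.Agent.Lib.MP_1a91b9_ntQ.B.FormG
import Pool.Agent.Lib.MP_1a91b9_ntQ.B.LsBF
import Pool.Agent.Lib.MP_1a91b9_ntQ.B.LsJ2b

/-!
# MP_1a91b9_nt (quartic twists), all fourth-power-free `D`, file FormJ2b: class J2b, the formula modulo `2`
and the field `b2` of the criterion
-/

set_option autoImplicit false

namespace Pool.Agent.Lib.MP_1a91b9_ntQ

open NumberField IsDedekindDomain Finset Pool.Agent.Lib.MP_1a91b9_nuT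
  Pool.Agent.Lib.MP_1a91b9_nuT.S3

noncomputable section

theorem norm_KJb : ‖KJb‖ ^ 2 = 2 ^ (11 / 2 : ℝ) * ‖Om‖ ^ 2 := by
  have h1 : ‖wq‖ ^ 4 = ‖lm‖ := by rw [← norm_pow, wq_pow]
  have h2 : ‖lm‖ ^ 4 = 4 := by
    rw [← norm_pow, lm_four]
    norm_num
  have h3 : ‖lm‖ ^ 2 = 2 := by
    have h4 : 0 ≤ ‖lm‖ ^ 2 := by positivity
    have h5 : (‖lm‖ ^ 2 - 2) * (‖lm‖ ^ 2 + 2) = 0 := by linear_combination h2
    rcases mul_eq_zero.1 h5 with h6 | h6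
    · linarith
    · linarith
  have h4 : (‖wq‖ ^ 18 * ‖lm‖) ^ 2 = ‖lm‖ ^ 11 := by
    calc (‖wq‖ ^ 18 * ‖lm‖) ^ 2 = (‖wq‖ ^ 4) ^ 9 * ‖lm‖ ^ 2 := by ring
      _ = ‖lm‖ ^ 11 := by rw [h1]; ring
  have h5 : ‖lm‖ ^ 11 = (2 : ℝ) ^ (11 / 2 : ℝ) := by
    have h6 : ‖lm‖ = (2 : ℝ) ^ (1 / 2 : ℝ) := by
      rw [← Real.sqrt_eq_rpow, ← h3, Real.sqrt_sq (norm_nonneg _)]
    rw [h6, ← Real.rpow_natCast, ← Real.rpow_mul (by norm_num)]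
    norm_num
  rw [KJb, norm_mul, norm_mul, norm_pow]
  calc (‖Om‖ * ‖wq‖ ^ 18 * ‖lm‖) ^ 2 = (‖wq‖ ^ 18 * ‖lm‖) ^ 2 * ‖Om‖ ^ 2 := by ring
    _ = _ := by rw [h4, h5]

/-- **The formula modulo `2` in class J2b.** -/
theorem foJ2b : FoJ2b := fun _ _ _ h hT =>
  formB_J2b_of h hT norm_KJb fun _ hA => Rt_B_J2b hA h

/-- **The field `b2`.** -/
theorem fb2 : FB2 := fun _ _ _ h hG => lsB_b2 h hG

end

end Pool.Agent.Lib.MP_1a91b9_ntQ
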