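import Pool.Agent.Lib.MP_1a91b9_ntQ.A.DefB
import Pool.Agent.Lib.MP_1a91b9_ntQ.A.AvgE

/-!
# Quartic twists, part B, file AvgB: the averaging identity for every class, with exponents

`UB k j z` is the sum of `th (1 + lam ^ 3 x) E1 (z + x / g)` over the classes modulo
`g = gmB k j`, `fB k j = lam ^ 3 * g`; the points are `1 / f + y / D`.
-/

set_option autoImplicit false

namespace Pool.Agent.Lib.MP_1a91b9_ntQ

open NumberField Pool.Agent.Lib.MP_1a91b9_nuT Pool.Agent.Lib.MP_1a91b9_nuT.S3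
  Pool.Agent.Lib.MP_1a91b9_nuT.Ell

noncomputable section

/-! ### The moduli -/

/-- the quotient of the modulus by `lam ^ 3` -/
def gmB (k : ZMod 4) (j : ℕ) : 𝓞 K :=
  if j = 0 then g4 k else if j = 2 then (if k = 0 ∨ k = 2 then lam ^ 2 else lam ^ 3) else lam ^ 4

theorem gmB_zero (k : ZMod 4) : gmB k 0 = g4 k := by
  unfold gmB
  exact if_pos rfl

theorem gmB_one (k : ZMod 4) : gmB k 1 = lam ^ 4 := by
  unfold gmB
  rw [if_neg one_ne_zero, if_neg (by norm_num)]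

theorem gmB_three (k : ZMod 4) : gmB k 3 = lam ^ 4 := by
  unfold gmB
  rw [if_neg (by norm_num), if_neg (by norm_num)]

theorem gmB_two_even {k : ZMod 4} (h : k = 0 ∨ k = 2) : gmB k 2 = lam ^ 2 := by
  unfold gmB
  rw [if_neg two_ne_zero, if_pos rfl, if_pos h]

theorem gmB_two_odd {k : ZMod 4} (h : ¬ (k = 0 ∨ k = 2)) : gmB k 2 = lam ^ 3 := by
  unfold gmB
  rw [if_neg two_ne_zero, if_pos rfl, if_neg h]

theorem fB_eq (k : ZMod 4) (j : ℕ) : fB k j = lam ^ 3 * gmB k j := by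
  by_cases h0 : j = 0
  · subst h0
    rw [fB_zero, gmB_zero, f4_eq]
  · by_cases h2 : j = 2
    · subst h2
      by_cases hk : k = 0 ∨ k = 2
      · rw [fB_two_even hk, gmB_two_even hk]
        ring
      · rw [fB_two_odd hk, gmB_two_odd hk]
        ring
    · have h : gmB k j = lam ^ 4 := by
        unfold gmB
        rw [if_neg h0, if_neg h2]
      rw [fB_odd k h0 h2, h]
      ring

theorem gmB_pow (k : ZMod 4) (j : ℕ) : ∃ m : ℕ, gmB k j = lam ^ m := by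
  obtain ⟨n, h, hn⟩ := fB_pow k j
  refine ⟨n - 3, ?_⟩
  have h1 : lam ^ 3 * gmB k j = lam ^ 3 * lam ^ (n - 3) := by
    rw [← fB_eq, h, ← pow_add]
    congr 1
    omega
  exact mul_left_cancel₀ (pow_ne_zero 3 lam_ne_zero) h1

theorem gmB_ne (k : ZMod 4) (j : ℕ) : gmB k j ≠ 0 := by
  obtain ⟨m, h⟩ := gmB_pow k j
  rw [h]
  exact pow_ne_zero m lam_ne_zero

theorem cop_fB_DDq (k : ZMod 4) (j : ℕ) (S : Finset Pg) : IsCoprime (fB k j) (DDq S) :=
  (in4_cop_fB (DDq_in4 S) k j).symm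

/-! ### The sum of `E1` -/

/-- the sum of `th (1 + lam ^ 3 x) E1 (z + x / g)` over the classes modulo `g` -/
def UB (k : ZMod 4) (j : ℕ) (z : ℂ) : ℂ :=
  SM (gmB k j) fun x => thB k j (1 + lam ^ 3 * x) * E1 (z + em x / em (gmB k j))

theorem in4_one_add (x : 𝓞 K) : In4 (1 + lam ^ 3 * x) := ⟨x, by ring⟩

theorem thB_Pd (k : ZMod 4) (j : ℕ) : Pd (gmB k j) fun x => thB k j (1 + lam ^ 3 * x) := by
  rintro x y ⟨t, ht⟩
  refine thB_congr k j (in4_one_add x) ?_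
  rw [fB_eq]
  exact ⟨t, by linear_combination lam ^ 3 * ht⟩

theorem UB_Pd (k : ZMod 4) (j : ℕ) (z : ℂ) :
    Pd (gmB k j) fun x => thB k j (1 + lam ^ 3 * x) * E1 (z + em x / em (gmB k j)) := by
  refine (thB_Pd k j).mul ?_
  refine Pd_div (G := fun w => E1 (z + w)) (gmB_ne k j) fun w w' h => E1_congr' ?_
  rwa [add_sub_add_left_eq_sub]

theorem UB_sum (k : ZMod 4) (j : ℕ) {κ : Type} [Fintype κ] {x : κ → 𝓞 K}
    (hex : ∀ a : 𝓞 K, ∃ i, gmB k j ∣ a - x i) (hinj : ∀ i i', gmB k j ∣ x i - x i' → i = i')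
    (z : ℂ) : UB k j z = ∑ i, thB k j (1 + lam ^ 3 * x i) * E1 (z + em (x i) / em (gmB k j)) :=
  SM_eq (gmB_ne k j) ⟨hex, hinj⟩ (UB_Pd k j z)

theorem UB_congr (k : ZMod 4) (j : ℕ) {z w : ℂ} (h : z - w ∈ PP.lattice) : UB k j z = UB k j w := by
  unfold UB
  refine SM_congr fun x => ?_
  rw [E1_congr' (x := z + em x / em (gmB k j)) (y := w + em x / em (gmB k j))
    (by rwa [add_sub_add_right_eq_sub])]

/-! ### The identity for one set -/

/-- representatives modulo `lam ^ 3 * g * D` from the representatives modulo `lam ^ 3 D` and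
representatives modulo `g` -/
theorem repsGB {g : 𝓞 K} (hg : ∃ m : ℕ, g = lam ^ m) {S : Finset Pg} {ι κ : Type} {c : ι → 𝓞 K}
    {x : κ → 𝓞 K} (h : RepsG (lam ^ 3) (lam ^ 3 * DDq S) c) (hex : ∀ a : 𝓞 K, ∃ j, g ∣ a - x j)
    (hinj : ∀ i j, g ∣ x i - x j → i = j) :
    RepsG (lam ^ 3) (lam ^ 3 * g * DDq S)
      (fun p : ι × κ => c p.1 + lam ^ 3 * (DDq S * x p.2)) := by
  obtain ⟨m, rfl⟩ := hg
  exact repsG4 h hex hinj

/-- the representatives `D + f y` -/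
theorem reps_yB (k : ZMod 4) (j : ℕ) {S : Finset Pg} {ι : Type} {y : ι → 𝓞 K}
    (hy : RepsG 1 (DDq S) y) :
    RepsG (lam ^ 3) (lam ^ 3 * DDq S) (fun i => DDq S + fB k j * y i) := by
  have hin : ∀ i, In4 (DDq S + fB k j * y i) := by
    intro i
    refine (in4_congr ?_).2 (DDq_in4 S)
    rw [add_sub_cancel_left]
    exact (fB_dvd k j).mul_right _
  have hf := cop_fB_DDq k j S
  refine ⟨mul_ne_zero (pow_ne_zero 3 lam_ne_zero) (DDq_in4 S).ne_zero, dvd_mul_right _ _, hin, ?_,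
    ?_, ?_⟩
  · intro i
    refine IsCoprime.mul_right (in4_cop_lam (hin i) 3) ?_
    refine Eul_cop (b := fB k j * y i) ⟨1, by ring⟩ ?_
    exact hf.mul_left (hy.cop i)
  · intro a ha h1
    obtain ⟨p, q, hpq⟩ := hf
    have hp : IsCoprime p (DDq S) := ⟨fB k j, q, by linear_combination hpq⟩
    have ha' : IsCoprime a (DDq S) := ha.of_isCoprime_of_dvd_right (dvd_mul_left _ _)
    obtain ⟨i, t, ht⟩ := hy.ex (p * a) (hp.mul_left ha') (one_dvd _)
    refine ⟨i, IsCoprime.mul_dvd (in4_cop_lam (DDq_in4 S) 3).symm ?_ ?_⟩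
    · have h2 : lam ^ 3 ∣ DDq S + fB k j * y i - 1 := hin i
      have e : a - (DDq S + fB k j * y i) = (a - 1) - (DDq S + fB k j * y i - 1) := by ring
      rw [e]
      exact dvd_sub h1 h2
    · exact ⟨q * a - 1 + fB k j * t, by linear_combination (-a) * hpq + fB k j * ht⟩
  · rintro i i' ⟨t, ht⟩
    refine hy.inj i i' ?_
    have h2 : DDq S ∣ fB k j * (y i - y i') := ⟨lam ^ 3 * t, by linear_combination ht⟩
    exact hf.symm.dvd_of_dvd_mul_left h2

/-- **The identity for one set** -/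
theorem LB_sum (k : ZMod 4) (j : ℕ) (e : Pg → ZMod 4) {T S : Finset Pg} (hT : T ⊆ S) {ι : Type}
    [Fintype ι] {y : ι → 𝓞 K} (hy : RepsG 1 (DDq S) y) :
    em (fB k j * DDq S) * (LB k j e T 1 * ∏ q ∈ S \ T, (1 - XB k j e T q.1 / em q.1)) =
      thB k j (DDq S) * ∑ i, chP e T (fB k j * y i) *
        UB k j ((em (fB k j))⁻¹ + em (y i) / em (DDq S)) := by
  let _ : DecidableEq (Pf (lam ^ 3)) := inferInstanceAs (DecidableEq Pg)
  obtain ⟨κ, _, x, hx⟩ := CRS.exists_crs (gmB_ne k j)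
  have hr := repsGB (gmB_pow k j) (reps_yB k j hy) hx.ex hx.inj
  rw [← fB_eq] at hr
  have h1 := Gen_id (thB_chr k j) (fun q : Pf (lam ^ 3) => chE_chrP e q) (T := T) (S := S) hT hr
  have hf : em (fB k j) ≠ 0 := em_ne (fB_ne k j)
  have hD : em (DDq S) ≠ 0 := em_ne (DDq_in4 S).ne_zero
  have hg : em (gmB k j) ≠ 0 := em_ne (gmB_ne k j)
  have hl : em (lam ^ 3) ≠ 0 := em_ne (pow_ne_zero 3 lam_ne_zero)
  have h2 := congrArg (fun z : ℂ => em (fB k j * DDq S) * z) h1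
  have hfD : em (fB k j * DDq S) ≠ 0 := em_ne (mul_ne_zero (fB_ne k j) (DDq_in4 S).ne_zero)
  change em (fB k j * DDq S) * _ = em (fB k j * DDq S) * ((em (fB k j * DDq S))⁻¹ * _) at h2
  rw [mul_inv_cancel_left₀ hfD] at h2
  refine Eq.trans ?_ (h2.trans ?_)
  · rfl
  rw [Fintype.sum_prod_type, Finset.mul_sum]
  refine Finset.sum_congr rfl fun i _ => ?_
  rw [UB_sum k j hx.ex hx.inj, Finset.mul_sum, Finset.mul_sum]
  refine Finset.sum_congr rfl fun l _ => ?_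
  change XB k j e T (DDq S + fB k j * y i + lam ^ 3 * (DDq S * x l)) *
    E1 (em (DDq S + fB k j * y i + lam ^ 3 * (DDq S * x l)) / em (fB k j * DDq S)) = _
  have e2 : ∏ q ∈ T, chE e q (DDq S + fB k j * y i + lam ^ 3 * (DDq S * x l)) =
      chP e T (fB k j * y i) := chP_per hT ⟨1 + lam ^ 3 * x l, by ring⟩
  have e3 : thB k j (DDq S + fB k j * y i + lam ^ 3 * (DDq S * x l)) =
      thB k j (DDq S) * thB k j (1 + lam ^ 3 * x l) := by
    rw [← thB_mul k j (DDq_in4 S) (in4_one_add (x l))]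
    refine thB_congr k j ?_ ⟨y i, by ring⟩
    refine (in4_congr ?_).2 ((DDq_in4 S).mul (in4_one_add (x l)))
    refine (fB_dvd k j).trans ⟨y i, by ring⟩
  have e5 : em (DDq S + fB k j * y i + lam ^ 3 * (DDq S * x l)) / em (fB k j * DDq S) =
      (em (fB k j))⁻¹ + em (y i) / em (DDq S) + em (x l) / em (gmB k j) := by
    have e6 : em (fB k j) = em (lam ^ 3) * em (gmB k j) := by rw [fB_eq, em_mul]
    rw [em_add, em_add, em_mul (lam ^ 3), em_mul (DDq S), em_mul (fB k j), em_mul (fB k j), e6]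
    field_simp
  rw [XB_eq, e2, e3, e5]
  ring

/-! ### The identity -/

/-- the weight as a sum of characters -/
theorem wB_eq (e : Pg → ZMod 4) (S : Finset Pg) (x : 𝓞 K) :
    wB e S x = ∑ T ∈ S.powerset, (-1) ^ T.card * chP e T x := by
  unfold wB
  have h : ∀ q ∈ S, 1 - chE e q x = 1 + -chE e q x := fun q _ => by ring
  rw [Finset.prod_congr rfl h, Finset.prod_one_add]
  refine Finset.sum_congr rfl fun T _ => ?_
  rw [Finset.prod_neg, chP]

/-- the terms of the identity -/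
theorem LaB_prod (k : ZMod 4) (j : ℕ) (e : Pg → ZMod 4) {T S : Finset Pg} (hT : T ⊆ S) :
    LaB k j e T * ∏ q ∈ S \ T, (em q.1 - XB k j e T q.1) =
      em (fB k j * DDq S) * (LB k j e T 1 * ∏ q ∈ S \ T, (1 - XB k j e T q.1 / em q.1)) := by
  have e2 : ∏ q ∈ S \ T, (em q.1 - XB k j e T q.1) =
      (∏ q ∈ S \ T, em q.1) * ∏ q ∈ S \ T, (1 - XB k j e T q.1 / em q.1) := by
    rw [← Finset.prod_mul_distrib]
    refine Finset.prod_congr rfl fun q _ => ?_
    have hq : em q.1 ≠ 0 := em_ne q.ne_zero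
    field_simp
  have e3 : ∏ q ∈ S, em q.1 = (∏ q ∈ T, em q.1) * ∏ q ∈ S \ T, em q.1 := by
    rw [mul_comm, Finset.prod_sdiff hT]
  rw [LaB, em_mul, em_mul, em_DDq, em_DDq, e2, e3]
  ring

/-- **(3.1)** : the averaging identity for every class and all exponents -/
theorem avgB (k : ZMod 4) (j : ℕ) (e : Pg → ZMod 4) (S : Finset Pg) {ι : Type} [Fintype ι]
    {y : ι → 𝓞 K} (hy : RepsG 1 (DDq S) y) :
    ∑ T ∈ S.powerset, (-1) ^ T.card * (LaB k j e T * ∏ q ∈ S \ T, (em q.1 - XB k j e T q.1)) =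
      thB k j (DDq S) * ∑ i, wB e S (fB k j * y i) *
        UB k j ((em (fB k j))⁻¹ + em (y i) / em (DDq S)) := by
  have h1 : ∀ T ∈ S.powerset, (-1 : ℂ) ^ T.card * (LaB k j e T *
      ∏ q ∈ S \ T, (em q.1 - XB k j e T q.1)) = ∑ i, thB k j (DDq S) * ((-1) ^ T.card *
        chP e T (fB k j * y i) * UB k j ((em (fB k j))⁻¹ + em (y i) / em (DDq S))) := by
    intro T hT
    rw [LaB_prod k j e (Finset.mem_powerset.1 hT), LB_sum k j e (Finset.mem_powerset.1 hT) hy,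
      Finset.mul_sum, Finset.mul_sum]
    refine Finset.sum_congr rfl fun i _ => ?_
    ring
  rw [Finset.sum_congr rfl h1, Finset.sum_comm, Finset.mul_sum]
  refine Finset.sum_congr rfl fun i _ => ?_
  rw [← Finset.mul_sum, ← Finset.sum_mul, wB_eq]

/-- the identity with the sum over the classes -/
theorem avgB_SM (k : ZMod 4) (j : ℕ) (e : Pg → ZMod 4) (S : Finset Pg) :
    ∑ T ∈ S.powerset, (-1) ^ T.card * (LaB k j e T * ∏ q ∈ S \ T, (em q.1 - XB k j e T q.1)) =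
      thB k j (DDq S) * SM (DDq S) fun y => cpi (DDq S) y * (wB e S (fB k j * y) *
        UB k j ((em (fB k j))⁻¹ + em y / em (DDq S))) := by
  have hM : DDq S ≠ 0 := (DDq_in4 S).ne_zero
  obtain ⟨ι, _, y, hy⟩ := RepsG.exists_reps hM (one_dvd (DDq S))
  rw [avgB k j e S hy]
  have hw : Pd (DDq S) (wB e S) := by
    intro x y h
    unfold wB
    refine Finset.prod_congr rfl fun q hq => ?_
    rw [(chE_chrP e q).per x y ((dvd_DDq.2 hq).trans h)]
  have hP : Pd (DDq S) fun y => cpi (DDq S) y * (wB e S (fB k j * y) *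
      UB k j ((em (fB k j))⁻¹ + em y / em (DDq S))) := by
    refine (cpi_per _).mul ((hw.comp_mul _).mul ?_)
    refine Pd_div (G := fun z => UB k j ((em (fB k j))⁻¹ + z)) hM fun z w h => UB_congr k j ?_
    rwa [add_sub_add_left_eq_sub]
  rw [SM_sup (a := y) hM hP]
  · congr 1
    refine Finset.sum_congr rfl fun i _ => ?_
    rw [cpi_pos (hy.cop i), one_mul]
  · intro x hx
    have h1 : IsCoprime x (DDq S) := by
      by_contra h
      apply hx
      rw [cpi_neg h, zero_mul]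
    exact hy.ex x h1 (one_dvd _)
  · exact fun i i' h => hy.inj i i' h

theorem repsB_empty : RepsG 1 (DDq ∅) (fun _ : Unit => (0 : 𝓞 K)) where
  ne := (DDq_in4 ∅).ne_zero
  dvd := one_dvd _
  fx _ := one_dvd _
  cop _ := by
    rw [DDq_empty]
    exact isCoprime_one_right
  ex a _ _ := ⟨(), by rw [DDq_empty]; exact one_dvd _⟩
  inj _ _ _ := rfl

/-- the value for the empty set -/
theorem LaB_empty (k : ZMod 4) (j : ℕ) (e : Pg → ZMod 4) : LaB k j e ∅ = UB k j (em (fB k j))⁻¹ := by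
  have h := avgB k j e ∅ repsB_empty
  have hw : wB e ∅ (fB k j * 0) = 1 := Finset.prod_empty
  rw [Finset.powerset_empty, Finset.sum_singleton, Finset.card_empty, pow_zero, one_mul,
    Finset.sdiff_self, Finset.prod_empty, mul_one, Fintype.sum_unique, hw, one_mul, DDq_empty,
    thB_one, one_mul, em_zero, zero_div, add_zero] at h
  exact h

/-! ### The values of `UB` -/

theorem UB_zero (k : ZMod 4) (z : ℂ) : UB k 0 z = Ph4 k z := by
  have hth : ∀ x : 𝓞 K, thB k 0 (1 + lam ^ 3 * x) = e4 (k * sm x) := fun x => by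
    rw [thB_zero, th4, nn_sm]
  rcases f4_cases k with rfl | rfl | ⟨h0, h2⟩
  · rw [UB_sum 0 0 (κ := Unit) (x := fun _ => 0)
      (fun a => ⟨(), by rw [gmB_zero, g4_zero]; exact one_dvd _⟩) (fun _ _ _ => rfl),
      Fintype.sum_unique, hth, zero_mul, e4_zero, one_mul, em_zero, zero_div, add_zero, Ph4_zero]
  · have v0 : (((0 : Fin 2).val : ℕ) : 𝓞 K) = 0 := Nat.cast_zero
    have v1 : (((1 : Fin 2).val : ℕ) : 𝓞 K) = 1 := Nat.cast_one
    rw [UB_sum 2 0 (κ := Fin 2) (x := fun b => (b.val : 𝓞 K))]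
    · have hpe : em 1 / em lam = pe := by rw [em_one, em_lam, pe, one_div]
      rw [Fin.sum_univ_two, v0, v1, hth, hth, sm_zero, sm_one, mul_zero, mul_one, e4_zero, e4_two,
        em_zero, zero_div, add_zero, gmB_zero, g4_two, hpe]
      unfold Ph4
      have h20 : (2 : ZMod 4) ≠ 0 := by decide
      rw [if_neg h20, if_pos rfl]
      ring
    · intro a
      rw [gmB_zero, g4_two]
      rcases Int.emod_two_eq_zero_or_one ((cp a).1 + (cp a).2) with h1 | h1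
      · refine ⟨0, ?_⟩
        rw [v0, sub_zero, lam_dvd_iff]
        exact Int.dvd_of_emod_eq_zero h1
      · refine ⟨1, ?_⟩
        rw [v1, lam_dvd_iff, sub_cp, cp_one]
        dsimp only
        omega
    · intro a b hab
      rw [gmB_zero, g4_two, lam_dvd_iff, sub_cp] at hab
      have c1 : ∀ n : ℕ, cp (n : 𝓞 K) = ((n : ℤ), (0 : ℤ)) := by
        intro n
        have := cp_coords n 0
        simpa using this
      rw [c1, c1] at hab
      dsimp only at hab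
      have h1 := a.isLt
      have h2 := b.isLt
      exact Fin.ext (by omega)
  · rw [UB_sum k 0 (x := x4)]
    · rw [gmB_zero, g4_odd h0 h2, ← sum_x4 h0 h2]
      exact Finset.sum_congr rfl fun p _ => by rw [hth]
    · rw [gmB_zero, g4_odd h0 h2]
      exact x4_ex
    · rw [gmB_zero, g4_odd h0 h2]
      exact x4_inj

theorem UB_one (k : ZMod 4) (z : ℂ) : UB k 1 z = -(Om * tE k) * V4 (sE k) (tE k * z) := by
  rw [UB_sum k 1 (x := y4), gmB_one, ← sum_y4_V]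
  · exact Finset.sum_congr rfl fun p _ => by rw [thB_E]
  · rw [gmB_one]
    exact y4_ex
  · rw [gmB_one]
    exact y4_inj

theorem sm_cp (x : 𝓞 K) : sm x = ((cp x).1 : ZMod 4) + ((cp x).2 : ZMod 4) := by
  rw [sm]
  push_cast
  rfl

theorem thB_form (k : ZMod 4) (j : ℕ) (x : 𝓞 K) : thB k j (1 + lam ^ 3 * x) =
    e4 (k * (((cp x).1 : ZMod 4) + ((cp x).2 : ZMod 4)) +
      (j : ZMod 4) * (-((cp x).1 : ZMod 4) - (((cp x).1 : ZMod 4) - ((cp x).2 : ZMod 4)) ^ 2)) := by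
  have h1 := ll_form (cp x).1 (cp x).2
  rw [← eq_cp x] at h1
  rw [thB, nn_sm, h1, sm_cp]

theorem cp_iO_mul (x : 𝓞 K) : cp (iO * x) = (-(cp x).2, (cp x).1) := by
  rw [← cp_coords]
  congr 1
  conv_lhs => rw [eq_cp x]
  push_cast
  linear_combination ((cp x).2 : 𝓞 K) * iO_sq

/-- **The class `j = 3`** from the class `j = 1`. -/
theorem UB_three (k : ZMod 4) (z : ℂ) : UB k 3 z = -UB (2 - k) 1 (-z) := by
  have hg : gmB (2 - k) 1 = gmB k 3 := by rw [gmB_one, gmB_three]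
  have h1 : ∀ x : 𝓞 K, thB k 3 (1 + lam ^ 3 * (-1 * x)) = thB (2 - k) 1 (1 + lam ^ 3 * x) := by
    intro x
    rw [thB_form, thB_form, neg_one_mul, cp_neg]
    congr 1
    push_cast [Prod.fst_neg, Prod.snd_neg]
    have key : ∀ k a b : ZMod 4, k * (-a + -b) + 3 * (- -a - (-a - -b) ^ 2) =
        (2 - k) * (a + b) + 1 * (-a - (a - b) ^ 2) := by decide
    exact key _ _ _
  have h2 := SM_mul (gmB_ne k 3) (UB_Pd k 3 z) (c := -1) (isCoprime_one_left.neg_left)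
  rw [UB, ← h2, UB, hg, neg_eq_neg_one_mul (SM _ _), ← smul_eq_mul (-1 : ℂ) (SM _ _),
    ← SM_smul (gmB_ne k 3)]
  refine SM_congr fun x => ?_
  have e : z + em (-1 * x) / em (gmB k 3) = -(-z + em x / em (gmB k 3)) := by
    rw [neg_one_mul, em_neg]
    ring
  rw [h1, e, E1_neg, smul_eq_mul]
  ring

/-- **The class `j = 2`, `k` odd** from the class `j = 0`. -/
theorem UB_two_odd {k : ZMod 4} (hk : ¬ (k = 0 ∨ k = 2)) (z : ℂ) :
    UB k 2 z = -zt * Ph4 (-k) (-zt * z) := by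
  have hg : gmB (-k) 0 = gmB k 2 := by
    have h0 : -k ≠ 0 := fun h => hk (Or.inl (neg_eq_zero.1 h))
    have h2 : -k ≠ 2 := by
      intro h
      apply hk
      right
      rw [← neg_neg k, h]
      rfl
    rw [gmB_two_odd hk, gmB_zero, g4_odd h0 h2]
  have h1 : ∀ x : 𝓞 K, thB k 2 (1 + lam ^ 3 * (iO * x)) = thB (-k) 0 (1 + lam ^ 3 * x) := by
    intro x
    rw [thB_form, thB_form, cp_iO_mul]
    congr 1
    push_cast
    have key : ∀ k a b : ZMod 4, ¬ (k = 0 ∨ k = 2) → k * (-b + a) + 2 * (- -b - (-b - a) ^ 2) =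
        -k * (a + b) + 0 * (-a - (a - b) ^ 2) := by decide
    exact key _ _ _ hk
  have hi : IsCoprime (iO : 𝓞 K) (gmB k 2) := by
    have h := cop_iO (gmB k 2) 1
    rwa [pow_one] at h
  have h2 := SM_mul (gmB_ne k 2) (UB_Pd k 2 z) hi
  rw [← UB_zero, UB, ← h2, UB, hg, ← smul_eq_mul (-zt) (SM _ _), ← SM_smul (gmB_ne k 2)]
  refine SM_congr fun x => ?_
  have h3 : em (iO : 𝓞 K) = zt := rfl
  have e : z + em (iO * x) / em (gmB k 2) = zt * (-zt * z + em x / em (gmB k 2)) := by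
    rw [em_mul, h3]
    linear_combination z * zt_sq
  rw [h1, e, E1_i, smul_eq_mul]
  ring

/-- representatives modulo `lam ^ 2` -/
def x2 (p : Fin 2 × Fin 2) : 𝓞 K := ((p.1.val : ℤ) : 𝓞 K) + ((p.2.val : ℤ) : 𝓞 K) * iO

theorem cp_x2 (p : Fin 2 × Fin 2) : cp (x2 p) = ((p.1.val : ℤ), (p.2.val : ℤ)) := cp_coords _ _

theorem x2_ex (a : 𝓞 K) : ∃ p, lam ^ 2 ∣ a - x2 p := by
  have key : ∀ n : ℤ, ∃ b : Fin 2, (n - (b.val : ℤ)) % 2 = 0 := by
    intro n
    rcases Int.emod_two_eq_zero_or_one n with h | h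
    · refine ⟨0, ?_⟩
      have v0 : (((0 : Fin 2).val : ℕ) : ℤ) = 0 := rfl
      rw [v0]
      omega
    · refine ⟨1, ?_⟩
      have v1 : (((1 : Fin 2).val : ℕ) : ℤ) = 1 := rfl
      rw [v1]
      omega
  obtain ⟨b, hb⟩ := key (cp a).1
  obtain ⟨c, hc⟩ := key (cp a).2
  refine ⟨(b, c), ?_⟩
  rw [lam2_dvd_iff, sub_cp, cp_x2]
  exact ⟨Int.dvd_of_emod_eq_zero hb, Int.dvd_of_emod_eq_zero hc⟩

theorem x2_inj (p p' : Fin 2 × Fin 2) (h : lam ^ 2 ∣ x2 p - x2 p') : p = p' := by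
  rw [lam2_dvd_iff, sub_cp, cp_x2, cp_x2] at h
  dsimp only at h
  have h1 := p.1.isLt
  have h2 := p'.1.isLt
  have h3 := p.2.isLt
  have h4 := p'.2.isLt
  exact Prod.ext (Fin.ext (by omega)) (Fin.ext (by omega))

theorem em_x2 (p : Fin 2 × Fin 2) :
    em (x2 p) / em (lam ^ 2) = (p.2.val : ℂ) / 2 - (p.1.val : ℂ) * zt / 2 := by
  have h2 : em (iO : 𝓞 K) = zt := rfl
  have hz := zt_ne0
  rw [x2, em_add, em_mul, em_intCast, em_intCast, h2, em_pow, em_lam, lm_sq]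
  push_cast
  field_simp
  linear_combination (p.1.val : ℂ) * zt_sq

/-- the sum for `j = 2`, `k` even -/
theorem UB_two_sum {k : ZMod 4} (hk : k = 0 ∨ k = 2) (z : ℂ) :
    UB k 2 z = (E1 z - E1 (z + pe)) + e4 (k - 2) * (E1 (z + 1 / 2) - E1 (z + 1 / 2 + pe)) := by
  have hpe : pe = 1 / 2 - zt / 2 := by
    have h := two_pe
    linear_combination h / 2
  have v0 : (((0 : Fin 2).val : ℕ) : ℂ) = 0 := Nat.cast_zero
  have v1 : (((1 : Fin 2).val : ℕ) : ℂ) = 1 := Nat.cast_one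
  have hth : ∀ p : Fin 2 × Fin 2, thB k 2 (1 + lam ^ 3 * x2 p) =
      e4 (k * ((p.1.val : ZMod 4) + (p.2.val : ZMod 4)) + 2 * (p.2.val : ZMod 4)) := by
    intro p
    rw [thB_form, cp_x2]
    congr 1
    push_cast
    have key : ∀ k a b : ZMod 4, k * (a + b) + 2 * (-a - (a - b) ^ 2) = k * (a + b) + 2 * b := by
      decide
    exact key _ _ _
  have hE : ∀ w : ℂ, E1 (w - zt / 2) = E1 (w + 1 / 2 + pe) := by
    intro w
    refine E1_congr' ?_
    have e : w - zt / 2 - (w + 1 / 2 + pe) = -1 := by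
      rw [hpe]
      ring
    rw [e]
    exact neg_mem one_mem
  have h4 : ((2 : ℕ) : ZMod 4) = 2 := rfl
  rw [UB_sum k 2 (x := x2), gmB_two_even hk, Fintype.sum_prod_type, Fin.sum_univ_two,
    Fin.sum_univ_two, Fin.sum_univ_two]
  · rw [hth, hth, hth, hth, em_x2, em_x2, em_x2, em_x2]
    have n0 : (((0 : Fin 2).val : ℕ) : ZMod 4) = 0 := Nat.cast_zero
    have n1 : (((1 : Fin 2).val : ℕ) : ZMod 4) = 1 := Nat.cast_one
    dsimp only
    rw [v0, v1, n0, n1]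
    have a0 : z + ((0 : ℂ) / 2 - 0 * zt / 2) = z := by ring
    have a1 : z + ((1 : ℂ) / 2 - 0 * zt / 2) = z + 1 / 2 := by ring
    have a2 : z + ((0 : ℂ) / 2 - 1 * zt / 2) = z - zt / 2 := by ring
    have a3 : z + ((1 : ℂ) / 2 - 1 * zt / 2) = z + pe := by
      rw [hpe]
      ring
    rw [a0, a1, a2, a3, hE]
    rcases hk with rfl | rfl
    · have b0 : (0 : ZMod 4) * (0 + 0) + 2 * 0 = 0 := rfl
      have b1 : (0 : ZMod 4) * (0 + 1) + 2 * 1 = 2 := rfl
      have b2 : (0 : ZMod 4) * (1 + 0) + 2 * 0 = 0 := rfl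
      have b3 : (0 : ZMod 4) * (1 + 1) + 2 * 1 = 2 := rfl
      have b4 : (0 : ZMod 4) - 2 = 2 := rfl
      rw [b0, b1, b2, b3, b4, e4_zero, e4_two]
      ring
    · have b0 : (2 : ZMod 4) * (0 + 0) + 2 * 0 = 0 := rfl
      have b1 : (2 : ZMod 4) * (0 + 1) + 2 * 1 = 0 := rfl
      have b2 : (2 : ZMod 4) * (1 + 0) + 2 * 0 = 2 := rfl
      have b3 : (2 : ZMod 4) * (1 + 1) + 2 * 1 = 2 := rfl
      have b4 : (2 : ZMod 4) - 2 = 0 := rfl
      rw [b0, b1, b2, b3, b4, e4_zero, e4_two]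
      ring
  · rw [gmB_two_even hk]
    exact x2_ex
  · rw [gmB_two_even hk]
    exact x2_inj

theorem UB_two_two (z : ℂ) : UB 2 2 z = -(Om * HH z) := by
  have b4 : (2 : ZMod 4) - 2 = 0 := rfl
  rw [UB_two_sum (Or.inr rfl), b4, e4_zero, E1_add_pe, E1_add_pe, HH]
  ring

theorem UB_two_zero (z : ℂ) : UB 0 2 z = -(Om * (gg z - gg (z + 1 / 2))) := by
  have b4 : (0 : ZMod 4) - 2 = 2 := rfl
  rw [UB_two_sum (Or.inl rfl), b4, e4_two, E1_add_pe, E1_add_pe]
  ring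

/-! ### The representatives -/

/-- a system `y` of the primitive classes modulo `D` and the involution `y ↦ - y` -/
theorem exists_repsB {S : Finset Pg} (hS : S.Nonempty) :
    ∃ (ι : Type) (_ : Fintype ι) (y : ι → 𝓞 K) (sg : ι → ι),
      RepsG 1 (DDq S) y ∧ (∀ i, sg (sg i) = i) ∧ (∀ i, sg i ≠ i) ∧
      (∀ i, DDq S ∣ y i + y (sg i)) ∧ (∀ i, Od (em (y i) / em (DDq S))) ∧
      (∀ i, ∃ n : ℕ, 0 < n ∧
        lm ^ n * (em (y i) / em (DDq S)) - em (y i) / em (DDq S) ∈ PP.lattice) := by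
  obtain ⟨ι, hι, y, hy⟩ := RepsG.exists_reps (f := (1 : 𝓞 K)) (DDq_in4 S).ne_zero
    (one_dvd (DDq S))
  have h1 : ∀ i, ∃ i', DDq S ∣ y i + y i' := by
    intro i
    obtain ⟨i', t, ht⟩ := hy.ex (-y i) (hy.cop i).neg_left (one_dvd _)
    exact ⟨i', -t, by linear_combination -ht⟩
  choose sg hsg using h1
  obtain ⟨n, hn, hn'⟩ := per_div S
  refine ⟨ι, hι, y, sg, hy, fun i => ?_, fun i hi => ?_, hsg, fun i => od_y hS (hy.cop i),
    fun i => ⟨n, hn, hn' _⟩⟩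
  · refine hy.inj _ _ ?_
    have h2 := dvd_sub (hsg (sg i)) (hsg i)
    have e : y (sg i) + y (sg (sg i)) - (y i + y (sg i)) = y (sg (sg i)) - y i := by ring
    rwa [e] at h2
  · have h2 := hsg i
    rw [hi] at h2
    have h3 : DDq S ∣ 2 * y i := by rwa [two_mul]
    have h4 : DDq S ∣ 2 := (hy.cop i).symm.dvd_of_dvd_mul_right h3
    obtain ⟨q, hq⟩ := hS
    have h5 : q.1 ∣ 2 := (dvd_DDq.2 hq).trans h4
    rw [two_eq_lam] at h5
    rcases q.prime.dvd_or_dvd h5 with h6 | h6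
    · exact lam_not_dvd q (q.prime.dvd_of_dvd_pow h6)
    · exact iO_not q ((dvd_neg).1 h6)

/-! ### The class `j = 0` with general representatives -/

/-- **The value at `1`** with the sums of `E1`, for every `k`. -/
theorem Xe_avg_all (k : ZMod 4) (e : Pg → ZMod 4) {T S : Finset Pg} (hT : T ⊆ S)
    {ι : Type} [Fintype ι] {c : ι → 𝓞 K} (h : RepsG (lam ^ 3) (lam ^ 3 * DDq S) c) :
    em (f4 k * DDq S) * (LG (lam ^ 3) (Xe k e T) 1 * ∏ q ∈ S \ T, (1 - Xe k e T q.1 / em q.1)) =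
      ∑ i, Xe k e T (c i) * Ph4 k (zp k S (c i)) := by
  rcases f4_cases k with h0 | h2 | ⟨h0, h2⟩
  · exact Xe_avg (Or.inl h0) e hT h
  · exact Xe_avg (Or.inr h2) e hT h
  · rw [Xe_gen k e hT (κ := ZMod 4 × Fin 2) (x := x4) h]
    · refine Finset.sum_congr rfl fun i _ => ?_
      rw [g4_odd h0 h2, sum_x4 h0 h2]
    · rw [g4_odd h0 h2]
      exact x4_ex
    · rw [g4_odd h0 h2]
      exact x4_inj

/-- **(3.1)** for `j = 0` and general representatives, the form of `avg4` -/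
theorem avg4B (k : ZMod 4) (e : Pg → ZMod 4) (S : Finset Pg) {ι : Type} [Fintype ι] {c : ι → 𝓞 K}
    (h : RepsG (lam ^ 3) (lam ^ 3 * DDq S) c) :
    ∑ T ∈ S.powerset, (-1) ^ T.card * (LaB k 0 e T * ∏ q ∈ S \ T, (em q.1 - XB k 0 e T q.1)) =
      ∑ i, th4 k (c i) * wB e S (c i) * Ph4 k (zp k S (c i)) := by
  have h1 : ∀ T ∈ S.powerset, (-1 : ℂ) ^ T.card * (LaB k 0 e T *
      ∏ q ∈ S \ T, (em q.1 - XB k 0 e T q.1)) = ∑ i, (th4 k (c i) * ((-1) ^ T.card *
        chP e T (c i)) * Ph4 k (zp k S (c i))) := by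
    intro T hT
    have h2 := Xe_avg_all k e (Finset.mem_powerset.1 hT) h
    rw [LaB_prod k 0 e (Finset.mem_powerset.1 hT), fB_zero, LB, XB_zero]
    refine (congrArg (fun z : ℂ => (-1) ^ T.card * z) h2).trans ?_
    rw [Finset.mul_sum]
    refine Finset.sum_congr rfl fun i _ => ?_
    rw [Xe_eq]
    ring
  rw [Finset.sum_congr rfl h1, Finset.sum_comm]
  refine Finset.sum_congr rfl fun i _ => ?_
  rw [← Finset.sum_mul, ← Finset.mul_sum, wB_eq]

end

end Pool.Agent.Lib.MP_1a91b9_ntQ
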