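import Pool.Agent.Lib.MP_1a91b9_ntQ.B.PsJ2c
import Pool.Agent.Lib.MP_1a91b9_ntQ.B.AvgB
import Pool.Agent.Lib.MP_1a91b9_ntQ.B.WtB
import Pool.Agent.Lib.MP_1a91b9_ntQ.A.RhsE

/-!
# Quartic twists, all `D`, class J2c (`j = 2`, `k` even), file RhsJ2c: the residue of the right side
-/

set_option autoImplicit false

namespace Pool.Agent.Lib.MP_1a91b9_ntQ

open NumberField Pool.Agent.Lib.MP_1a91b9_nuT Pool.Agent.Lib.MP_1a91b9_nuT.S3
  Pool.Agent.Lib.MP_1a91b9_nuT.Ell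

noncomputable section

variable {B : ValuationSubring ℂ}

/-- a set of representatives up to sign -/
theorem RhsJ_tr {S : Finset Pg} {ι : Type} {y : ι → 𝓞 K} {sg : ι → ι} {T : Finset ι}
    (hy : RepsG 1 (DDq S) y) (h3 : ∀ i, DDq S ∣ y i + y (sg i)) (hT : ∀ i, i ∈ T ↔ sg i ∉ T) :
    Tr S T y := by
  have hnd : ∀ i, ∀ q ∈ S, ¬ q.1 ∣ y i := fun i q hq h =>
    q.prime.not_isUnit ((hy.cop i).isUnit_of_dvd' h (dvd_DDq.2 hq))
  refine ⟨fun i _ => hnd i, fun x hx => ?_, fun i hi j hj h1 => ?_⟩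
  · have hc : IsCoprime x (DDq S) := IsCoprime.prod_right fun q hq =>
      (q.prime.irreducible.coprime_iff_not_dvd.2 (hx q hq)).symm
    obtain ⟨i, hi⟩ := hy.ex x hc (one_dvd _)
    by_cases h6 : i ∈ T
    · exact ⟨i, h6, Or.inl hi⟩
    · have h7 : sg i ∈ T := by
        by_contra h8
        exact h6 ((hT i).2 h8)
      refine ⟨sg i, h7, Or.inr ?_⟩
      have h8 := dvd_add hi (h3 i)
      rwa [show x - y i + (y i + y (sg i)) = x + y (sg i) by ring] at h8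
  · rcases h1 with h1 | h1
    · exact hy.inj i j h1
    · exfalso
      have h4 := dvd_sub h1 (h3 j)
      rw [show y i + y j - (y j + y (sg j)) = y i - y (sg j) by ring] at h4
      rw [hy.inj i (sg j) h4] at hi
      exact (hT j).1 hj hi

/-- **The sum over the pairs**, classes whose values are `K1 (1 + m)` and sums of pairs
`K1 lm (1 + m)` -/
theorem RhsJ_sum (hB : (2 : ℂ)⁻¹ ∉ B) {ι : Type} [Fintype ι] {sg : ι → ι} {T : Finset ι}
    (h1 : ∀ i, sg (sg i) = i) (hT : ∀ i, i ∈ T ↔ sg i ∉ T) {W V : ι → ℂ} {r : ZMod 2}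
    (hsum : B.valuation ((∑ i, W i) / lm) < 1) (hW : ∀ i, B.valuation (W i) ≤ 1)
    (hWs : ∀ i, B.valuation (W (sg i) - W i) ≤ B.valuation lm) (hV : ∀ i, Cg B (V i) 1)
    (hVs : ∀ i, Cg B ((V i + V (sg i)) / lm) 1) (hr : Rt B (∑ i ∈ T, W i) r) :
    Rt B ((∑ i, W i * V i) / lm) r := by
  classical
  have hl0 := lm_ne
  have hP : ∀ i, i ∈ T ↔ ¬ sg i ∈ T := hT
  have hs : ∀ F : ι → ℂ, ∑ i, F i = ∑ i ∈ T, (F i + F (sg i)) := by
    intro F
    rw [RhsE_sum h1 (P := fun i => i ∈ T) hP F]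
    exact (Finset.sum_subtype T (fun _ => Iff.rfl) fun i => F i + F (sg i)).symm
  have hW2 : ∀ i, B.valuation ((W (sg i) - W i) / lm) ≤ 1 := by
    intro i
    rw [map_div₀]
    exact div_le_one_of_le₀ (hWs i) zero_le
  -- the second part
  have key2 : B.valuation (∑ i ∈ T, ((W (sg i) - W i) / lm) * V (sg i)) < 1 := by
    have c1 : Cg B (∑ i ∈ T, ((W (sg i) - W i) / lm) * V (sg i))
        (∑ i ∈ T, ((W (sg i) - W i) / lm) * 1) :=
      Cg.sum _ fun i _ => (Cg.refl (hW2 i)).mul (hV (sg i))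
    have e1 : ∑ i ∈ T, ((W (sg i) - W i) / lm) * 1 =
        (∑ i, W i) / lm - (2 / lm) * ∑ i ∈ T, W i := by
      rw [hs W, Finset.mul_sum, Finset.sum_div, ← Finset.sum_sub_distrib]
      refine Finset.sum_congr rfl fun i _ => ?_
      field_simp
      ring
    rw [e1] at c1
    have c2 : Cg B ((∑ i, W i) / lm - (2 / lm) * ∑ i ∈ T, W i) 0 := by
      refine Cg.of_lt ?_
      rw [sub_eq_add_neg]
      refine v_add_lt hsum ?_
      rw [Valuation.map_neg]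
      exact v_mul_lt (v_two_div hB) (B.valuation.map_sum_le fun i _ => hW i)
    exact (c1.trans c2).lt0
  -- the first part
  have key1 : Rt B (∑ i ∈ T, W i * ((V i + V (sg i)) / lm)) r := by
    have c1 : Cg B (∑ i ∈ T, W i * ((V i + V (sg i)) / lm)) (∑ i ∈ T, W i * 1) :=
      Cg.sum _ fun i _ => (Cg.refl (hW i)).mul (hVs i)
    refine c1.rt ?_
    simpa only [mul_one] using hr
  have e : (∑ i, W i * V i) / lm = ∑ i ∈ T, W i * ((V i + V (sg i)) / lm) +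
      ∑ i ∈ T, ((W (sg i) - W i) / lm) * V (sg i) := by
    rw [hs fun i => W i * V i, Finset.sum_div, ← Finset.sum_add_distrib]
    refine Finset.sum_congr rfl fun i _ => ?_
    field_simp
    ring
  rw [e]
  exact key1.congr (by rw [add_sub_cancel_left]; exact key2)

/-! ### Class J2c -/

/-- the sign of the class -/
def sJ (k : ZMod 4) : ℂ := if k = 2 then 1 else -1

theorem sJ_sq (k : ZMod 4) : sJ k ^ 2 = 1 := by
  unfold sJ
  split <;> norm_num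

theorem UB_sJ {k : ZMod 4} (hk : k = 0 ∨ k = 2) (z : ℂ) : UB k 2 z = -(Om * HS (sJ k) z) := by
  rcases hk with rfl | rfl
  · rw [UB_two_zero, HS, sJ, if_neg (by decide)]
    ring
  · rw [UB_two_two, HH, HS, sJ, if_pos rfl]
    ring

theorem em_fB2 {k : ZMod 4} (hk : k = 0 ∨ k = 2) : (em (fB k 2))⁻¹ = pe ^ 5 := by
  rw [fB_two_even hk, em_pow, em_lam]
  have h := lm_mul_pe
  have h1 : lm ^ 5 * pe ^ 5 = 1 := by rw [← mul_pow, h, one_pow]
  exact inv_eq_of_mul_eq_one_right h1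

/-- the value without primes -/
theorem LaB_J2c {k : ZMod 4} (hk : k = 0 ∨ k = 2) (e : Pg → ZMod 4) :
    LaB k 2 e ∅ = -(Om * HS (sJ k) (pe ^ 5)) := by
  rw [LaB_empty, em_fB2 hk, UB_sJ hk]

theorem LaB_J2c_ne {k : ZMod 4} (hk : k = 0 ∨ k = 2) (e : Pg → ZMod 4) : LaB k 2 e ∅ ≠ 0 := by
  rw [LaB_J2c hk]
  exact neg_ne_zero.2 (mul_ne_zero Om_ne_zero (HS_base_ne (sJ_sq k)))

/-- its square -/
theorem LaB_J2c_sq {k : ZMod 4} (hk : k = 0 ∨ k = 2) (e : Pg → ZMod 4) :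
    LaB k 2 e ∅ ^ 2 = -4 * Om ^ 2 * (sJ k - zt) := by
  have h := HS_base_sq (sJ_sq k)
  rw [LaB_J2c hk]
  linear_combination Om ^ 2 * h

/-- **(J2c)** the residue of the right side -/
theorem rhsJ2c (hB : (2 : ℂ)⁻¹ ∉ B) {k : ZMod 4} (hk : k = 0 ∨ k = 2) {e : Pg → ZMod 4}
    {S : Finset Pg} (he : ∀ q ∈ S, e q ≠ 0) (hS : S.Nonempty) :
    Rt B ((∑ T ∈ S.powerset, (-1) ^ T.card * (LaB k 2 e T * ∏ q ∈ S \ T, (em q.1 - XB k 2 e T q.1))) /
      (LaB k 2 e ∅ * lm ^ (mB e S + 1))) (if S.card = 1 then ∑ q ∈ S, aa q.1 else 0) := by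
  classical
  obtain ⟨ι, hι, y, sg, hy, h1, h2, hy3, hod, -⟩ := exists_repsB hS
  rw [avgB k 2 e S hy]
  obtain ⟨P, hP⟩ := RhsE_half h1 h2
  obtain ⟨T, hTdef⟩ : ∃ T : Finset ι, T = Finset.univ.filter P := ⟨_, rfl⟩
  have hT : ∀ i, i ∈ T ↔ sg i ∉ T := by
    intro i
    rw [hTdef, Finset.mem_filter, Finset.mem_filter]
    have := hP i
    have h4 : i ∈ Finset.univ := Finset.mem_univ i
    have h5 : sg i ∈ Finset.univ := Finset.mem_univ _
    tauto
  have hD0 : em (DDq S) ≠ 0 := em_ne (DDq_in4 S).ne_zero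
  have hl0 := lm_ne
  have hO := Om_ne_zero
  have hs := sJ_sq k
  have hK := HS_base_ne hs
  have hl : ∀ q : Pg, ¬ q.1 ∣ lam := lam_not_dvd
  have hnd : ∀ i, ∀ q ∈ S, ¬ q.1 ∣ y i := fun i q hq h =>
    q.prime.not_isUnit ((hy.cop i).isUnit_of_dvd' h (dvd_DDq.2 hq))
  have hl5 : ∀ q : Pg, ¬ q.1 ∣ lam ^ 5 := fun q h => hl q (q.prime.dvd_of_dvd_pow h)
  have hnd5 : ∀ i, ∀ q ∈ S, ¬ q.1 ∣ lam ^ 5 * y i := fun i q hq h =>
    (q.prime.dvd_or_dvd h).elim (hl5 q) (hnd i q hq)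
  -- the values
  obtain ⟨V, hV⟩ : ∃ V : ι → ℂ, V = fun i =>
    HS (sJ k) (pe ^ 5 + em (y i) / em (DDq S)) / HS (sJ k) (pe ^ 5) := ⟨_, rfl⟩
  have hV1 : ∀ i, Cg B (V i) 1 := fun i => by
    rw [hV]
    exact Cg_HS hB hs (hod i)
  have hV2 : ∀ i, Cg B ((V i + V (sg i)) / lm) 1 := by
    intro i
    obtain ⟨t, ht⟩ := hy3 i
    have e1 : V (sg i) = HS (sJ k) (pe ^ 5 - em (y i) / em (DDq S)) / HS (sJ k) (pe ^ 5) := by
      rw [hV]
      change HS (sJ k) (pe ^ 5 + em (y (sg i)) / em (DDq S)) / _ = _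
      congr 1
      refine HS_congr ?_
      have h3 := congrArg em ht
      rw [em_add, em_mul] at h3
      have e2 : pe ^ 5 + em (y (sg i)) / em (DDq S) - (pe ^ 5 - em (y i) / em (DDq S)) = em t := by
        field_simp
        linear_combination h3
      rw [e2]
      exact em_mem t
    have c := Cg_HS_pair hB hs (hod i)
    have e3 : (V i + V (sg i)) / lm = (HS (sJ k) (pe ^ 5 + em (y i) / em (DDq S)) +
        HS (sJ k) (pe ^ 5 - em (y i) / em (DDq S))) / (lm * HS (sJ k) (pe ^ 5)) := by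
      rw [e1, hV]
      field_simp
    rwa [e3]
  -- the sum of the weights
  have hcard : 0 < S.card := Finset.card_pos.2 hS
  have hm : mB e S ≤ 2 * S.card := by
    rw [mB, mul_comm, ← smul_eq_mul]
    refine Finset.sum_le_card_nsmul _ _ _ fun q _ => ?_
    split <;> norm_num
  have hsum : B.valuation ((∑ i, wtB e S (lam ^ 5 * y i)) / lm) < 1 := by
    have e1 : ∑ i, wtB e S (lam ^ 5 * y i) = (∏ q ∈ S, ((Nz q.1 : ℂ) - 1)) / lm ^ mB e S := by
      rw [← sum_wB hy he (RhsE_cop S 5), Finset.sum_div]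
      rfl
    have h3 := v_prod_Nz (B := B) S
    rw [e1, div_div, ← pow_succ, map_div₀, map_pow]
    have h4 : 0 < B.valuation lm ^ (mB e S + 1) := pow_pos v_lm_pos _
    rw [div_lt_one₀ h4]
    refine h3.trans_lt ?_
    exact v_lm_pow_lt hB (by omega)
  -- the count
  have hr : Rt B (∑ i ∈ T, wtB e S (lam ^ 5 * y i)) (if S.card = 1 then ∑ q ∈ S, aa q.1 else 0) := by
    refine b1_count_of hB hS (RhsJ_tr hy hy3 hT) (fun q => c2 q lam) fun i _ => ?_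
    have h3 := Rt_wtB hB he (hnd5 i)
    have h4 : ∏ q ∈ S, c2 q (lam ^ 5 * y i) = ∏ q ∈ S, (c2 q (y i) + c2 q lam) := by
      refine Finset.prod_congr rfl fun q hq => ?_
      have h5 : c2 q (lam ^ 5) = c2 q lam := by
        have e5 : (lam : 𝓞 K) ^ 5 = lam * (lam * (lam * (lam * lam))) := by ring
        have a1 : ¬ q.1 ∣ lam * lam := fun h => (q.prime.dvd_or_dvd h).elim (hl q) (hl q)
        have a2 : ¬ q.1 ∣ lam * (lam * lam) := fun h => (q.prime.dvd_or_dvd h).elim (hl q) a1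
        have a3 : ¬ q.1 ∣ lam * (lam * (lam * lam)) := fun h =>
          (q.prime.dvd_or_dvd h).elim (hl q) a2
        rw [e5, c2_mul q (hl q) a3, c2_mul q (hl q) a2, c2_mul q (hl q) a1, c2_mul q (hl q) (hl q)]
        have h6 : ∀ a : ZMod 2, a + (a + (a + (a + a))) = a := by decide
        exact h6 _
      rw [c2_mul q (hl5 q) (hnd i q hq), h5, add_comm]
    rwa [h4] at h3
  have key := RhsJ_sum hB h1 hT hsum (fun i => v_wtB hB he (hnd5 i))
    (fun i => v_wtB_sub hB he (hnd5 i) (by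
      rw [← mul_add]
      exact (hy3 i).mul_left _)) hV1 hV2 hr
  have hu : Rt B (thB k 2 (DDq S)) 1 := by
    refine (Cg_root hB ?_).rt Rt.one
    rw [thB, e4_pow]
    have h5 : ∀ t : ZMod 4, ((4 : ℕ) : ZMod 4) * t = 0 := by decide
    rw [h5, e4_zero]
  have e3 : thB k 2 (DDq S) * ∑ i, wB e S (fB k 2 * y i) * UB k 2 ((em (fB k 2))⁻¹ +
        em (y i) / em (DDq S)) / (LaB k 2 e ∅ * lm ^ (mB e S + 1)) =
      thB k 2 (DDq S) * ((∑ i, wtB e S (lam ^ 5 * y i) * V i) / lm) := by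
    congr 1
    rw [LaB_J2c hk, Finset.sum_div]
    refine Finset.sum_congr rfl fun i _ => ?_
    rw [em_fB2 hk, UB_sJ hk, fB_two_even hk, wtB, hV]
    have h3 := pow_ne_zero (mB e S) hl0
    field_simp
    ring
  have e4 : thB k 2 (DDq S) * (∑ i, wB e S (fB k 2 * y i) * UB k 2 ((em (fB k 2))⁻¹ +
        em (y i) / em (DDq S))) / (LaB k 2 e ∅ * lm ^ (mB e S + 1)) =
      thB k 2 (DDq S) * ((∑ i, wtB e S (lam ^ 5 * y i) * V i) / lm) := by
    rw [← e3, ← Finset.sum_div, mul_div_assoc]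
  rw [e4]
  have h6 := hu.mul hB key
  rwa [one_mul] at h6

/-! ### The factors -/

/-- the number of the class -/
def lJ (k : ZMod 4) (x : 𝓞 K) : ZMod 2 := if k = 2 then aa x + bb x else bb x

/-- the character is `(-1) ^ lJ` -/
theorem thB_lJ {k : ZMod 4} (hk : k = 0 ∨ k = 2) {x : 𝓞 K} (hx : In4 x) :
    ∃ t : ZMod 4, thB k 2 x = e4 (2 * t) ∧ md t = lJ k x := by
  have h1 := two_ll hx
  have h2 : md (((bb x).val : ℕ) : ZMod 4) = bb x := by
    rw [map_natCast, ZMod.natCast_zmod_val]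
  rcases hk with rfl | rfl
  · refine ⟨((bb x).val : ZMod 4), ?_, ?_⟩
    · rw [thB, h1, zero_mul, zero_add]
    · rw [h2, lJ, if_neg (by decide)]
  · refine ⟨nn x + ((bb x).val : ZMod 4), ?_, ?_⟩
    · rw [thB, h1, mul_add]
    · rw [map_add, h2, lJ, if_pos rfl, aa]

/-- the residue class of `(1 - (-1) ^ t) / lm ^ 2` -/
theorem Rt_e4_dbl (hB : (2 : ℂ)⁻¹ ∉ B) (t : ZMod 4) : Rt B ((1 - e4 (2 * t)) / lm ^ 2) (md t) := by
  have h0 : ∀ t : ZMod 4, (2 * t = 0 ∧ md t = 0) ∨ (2 * t = 2 ∧ md t = 1) := by decide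
  rcases h0 t with ⟨h1, h2⟩ | ⟨h1, h2⟩
  · rw [h1, h2, e4_zero, sub_self, zero_div]
    exact Rt.zero
  · rw [h1, h2, e4_two]
    have e : (1 - -1 : ℂ) / lm ^ 2 = -zt := by
      rw [lm_sq, div_eq_iff (mul_ne_zero two_ne_zero zt_ne0)]
      linear_combination 2 * zt_sq
    rw [e]
    exact (Cg_neg_zt hB).rt Rt.one

private theorem RhsJ_em (x : 𝓞 K) : B.valuation (em x) ≤ 1 := by
  rw [ValuationSubring.valuation_le_one_iff]
  have e : em x = ((cp x).1 : ℂ) + ((cp x).2 : ℂ) * zt := by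
    have h2 : em (iO : 𝓞 K) = zt := rfl
    conv_lhs => rw [eq_cp x]
    rw [em_add, em_mul, em_intCast, em_intCast, h2]
  rw [e]
  refine add_mem (intCast_mem B _) (mul_mem (intCast_mem B _) ?_)
  rw [← ValuationSubring.valuation_le_one_iff, v_zt]

/-- the factor `(q - (-1) ^ t) / lm ^ 2` -/
theorem Rt_em_e4_dbl (hB : (2 : ℂ)⁻¹ ∉ B) {x : 𝓞 K} (hx : In4 x) (t : ZMod 4) :
    Rt B ((em x - e4 (2 * t)) / lm ^ 2) (md t) := by
  obtain ⟨y, hy⟩ := hx
  refine (Rt_e4_dbl hB t).congr ?_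
  have h1 := congrArg em hy
  rw [em_sub, em_one, em_mul, em_pow, em_lam] at h1
  have e : (em x - e4 (2 * t)) / lm ^ 2 - (1 - e4 (2 * t)) / lm ^ 2 = lm * em y := by
    have h := lm_ne
    field_simp
    linear_combination h1
  rw [e]
  exact v_mul_lt (v_lm_lt hB) (RhsJ_em y)

/-- **the factors of class J2c** -/
theorem Rt_J2c_fac (hB : (2 : ℂ)⁻¹ ∉ B) {k : ZMod 4} (hk : k = 0 ∨ k = 2) (e : Pg → ZMod 4)
    (q : Pg) : Rt B ((em q.1 - XB k 2 e ∅ q.1) / lm ^ 2) (lJ k q.1) := by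
  obtain ⟨t, h1, h2⟩ := thB_lJ hk q.in4
  rw [XB_eq, Finset.prod_empty, mul_one, h1, ← h2]
  exact Rt_em_e4_dbl hB q.in4 t

/-! ### The size of the constant -/

/-- the constant is `lm ^ 5` up to the square root and a unit -/
theorem Cg_LaB_J2c (hB : (2 : ℂ)⁻¹ ∉ B) {k : ZMod 4} (hk : k = 0 ∨ k = 2) (e : Pg → ZMod 4) :
    Cg B ((LaB k 2 e ∅ / Om) ^ 2 / lm ^ 5) 1 := by
  have hO := Om_ne_zero
  have hl := lm_ne
  have e1 : (LaB k 2 e ∅ / Om) ^ 2 / lm ^ 5 = (sJ k - zt) / lm := by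
    rw [div_pow, LaB_J2c_sq hk]
    have h4 : lm ^ 4 = -4 := by
      have h := lm_sq
      have e4 : lm ^ 4 = (lm ^ 2) ^ 2 := by ring
      rw [e4, h]
      linear_combination 4 * zt_sq
    have e5 : lm ^ 5 = -4 * lm := by
      rw [pow_succ, h4]
    rw [e5]
    field_simp
  rw [e1]
  exact Cg_s_zt hB (sJ_sq k)

end

end Pool.Agent.Lib.MP_1a91b9_ntQ
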