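import Pool.Agent.Lib.MP_1a91b9_ntQ.B.DetGl
import Pool.Agent.Lib.MP_1a91b9_ntQ.B.RhsJ2c
import Pool.Agent.Lib.MP_1a91b9_ntQ.B.GlD

/-!
# Quartic twists, all fourth-power-free `D`, class J2d, file CorD: the border and the corner
-/

set_option autoImplicit false

namespace Pool.Agent.Lib.MP_1a91b9_ntQ

open NumberField Finset

noncomputable section

/-- the combination of the class characters in the border -/
def pJ (k : ZMod 4) : Fin 2 → ZMod 2 := if k = 2 then ![1, 1] else ![0, 1]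

/-- the corner -/
def uJ (k : ZMod 4) (c : 𝓞 K4) : ZMod 2 :=
  if k = 2 then uB2 (mmB c) (nnB c) else uB0 (mmB c) (nnB c)

theorem pJ_zero : pJ 0 = ![0, 1] := if_neg (by decide)

theorem pJ_two : pJ 2 = ![1, 1] := if_pos rfl

theorem uJ_zero (c : 𝓞 K4) : uJ 0 c = uB0 (mmB c) (nnB c) := if_neg (by decide)

theorem uJ_two (c : 𝓞 K4) : uJ 2 c = uB2 (mmB c) (nnB c) := if_pos rfl

theorem bpB_pJ (k : ZMod 4) (q : Pg) : bpB (pJ k) q = lJ k q.1 := by
  unfold pJ lJ bpB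
  split_ifs
  · show (1 : ZMod 2) * _ + 1 * _ = _
    rw [one_mul, one_mul]
  · show (0 : ZMod 2) * _ + 1 * _ = _
    rw [zero_mul, zero_add, one_mul]

/-- the sum of the border over `S ∪ T` -/
theorem sum_bpJ {S T B : Finset Pg} (h : Dj S T B) (k : ZMod 4) :
    ∑ q ∈ S ∪ T, bpB (pJ k) q = lJ k (cB S T B) := by
  rw [sum_congr rfl fun q _ => bpB_pJ k q]
  unfold lJ
  split_ifs
  · rw [sum_add_distrib, aa_cB h.st, bb_cB h.st]
  · rw [bb_cB h.st]

/-! ### The tables of the corners -/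

theorem uB0_odd (m n : ZMod 4) (h1 : md (m + n) = 1) (h2 : md (-m - (m - n) ^ 2) = 0) :
    uB0 m n = (if m + n = 3 then 1 else 0) + (if -m - (m - n) ^ 2 = 0 then 1 else 0) := by
  unfold md at h1 h2
  revert m n
  unfold uB0
  decide

theorem uB2_odd (m n : ZMod 4) (h1 : md (m + n) = 1) (h2 : md (-m - (m - n) ^ 2) = 1) :
    uB2 m n = if -m - (m - n) ^ 2 = 1 then 1 else 0 := by
  unfold md at h1 h2
  revert m n
  unfold uB2
  decide

theorem uB0_even (m n : ZMod 4) (h1 : md (m + n) = 0) (h2 : md (-m - (m - n) ^ 2) = 0) :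
    uB0 m n = if -m - (m - n) ^ 2 = 2 then 1 else 0 := by
  unfold md at h1 h2
  revert m n
  unfold uB0
  decide

theorem uB2_even (m n : ZMod 4) (h1 : md (m + n) = 0) (h2 : md (-m - (m - n) ^ 2) = 0) :
    uB2 m n = 1 + (if m + n = 2 then 1 else 0) + if -m - (m - n) ^ 2 = 0 then 1 else 0 := by
  unfold md at h1 h2
  revert m n
  unfold uB2
  decide

/-! ### The corners with `nn` and `ll` -/

theorem llB_mm (c : 𝓞 K4) : llB c = -mmB c - (mmB c - nnB c) ^ 2 := rfl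

theorem md_llB {c : 𝓞 K4} (hc : In4 c) : md (llB c) = bb c := by
  rw [llB_eq hc]
  obtain ⟨m, n, rfl⟩ := in4_form hc
  have key : ∀ x y : ZMod 4, md (-x - (x - y) ^ 2) = md y := by
    unfold md
    decide
  rw [ll_form, bb_form, key, md_intCast]

/-- `nu` odd -/
theorem uJ_odd {k : ZMod 4} (hk : k = 0 ∨ k = 2) {c : 𝓞 K4} (hc : In4 c) (hA : aa c = 1)
    (hl : lJ k c = 0) : uJ k c = if k = 2 then (if llB c = 1 then 1 else 0) else
      (if nn c = 3 then 1 else 0) + (if llB c = 0 then 1 else 0) := by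
  have h1 : md (mmB c + nnB c) = 1 := by
    rw [← nn_eq_mmB hc]
    exact hA
  have h2 := md_llB hc
  have h3 : ∀ x : ZMod 2, 1 + x = 0 → x = 1 := by decide
  rcases hk with rfl | rfl
  · rw [lJ, if_neg (by decide)] at hl
    rw [hl, llB_mm] at h2
    rw [uJ_zero, if_neg (by decide), uB0_odd _ _ h1 h2, ← llB_mm, ← nn_eq_mmB hc]
  · rw [lJ, if_pos rfl, hA] at hl
    rw [h3 _ hl, llB_mm] at h2
    rw [uJ_two, if_pos rfl, uB2_odd _ _ h1 h2, ← llB_mm]

/-- `nu` even -/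
theorem uJ_even {k : ZMod 4} (hk : k = 0 ∨ k = 2) {c : 𝓞 K4} (hc : In4 c) (hA : aa c = 0)
    (hl : lJ k c = 0) : uJ k c = if k = 2 then
      1 + (if nn c = 2 then 1 else 0) + (if llB c = 0 then 1 else 0) else
      if llB c = 2 then 1 else 0 := by
  have h1 : md (mmB c + nnB c) = 0 := by
    rw [← nn_eq_mmB hc]
    exact hA
  have h2 := md_llB hc
  rcases hk with rfl | rfl
  · rw [lJ, if_neg (by decide)] at hl
    rw [hl, llB_mm] at h2
    rw [uJ_zero, if_neg (by decide), uB0_even _ _ h1 h2, ← llB_mm]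
  · rw [lJ, if_pos rfl, hA, zero_add] at hl
    rw [hl, llB_mm] at h2
    rw [uJ_two, if_pos rfl, uB2_even _ _ h1 h2, ← llB_mm, ← nn_eq_mmB hc]

end

end Pool.Agent.Lib.MP_1a91b9_ntQ
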