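import Pool.Agent.Lib.MP_1a91b9_ntQ.B.MatJB
import Pool.Agent.Lib.MP_1a91b9_ntQ.A.OptB

/-!
# Quartic twists, all fourth-power-free `D`, file DuC: the last step of the class (J2d), `ν` even

Page B2, 9.5. The two determinants of `SyDE.final` are the cofactor of the bordered matrix of the
criterion. `N` has the row vector `u` in its kernel, `u · s = 1`, `u · a = u · l = 0`, `u r = 1`.
-/

set_option autoImplicit false
set_option linter.unusedSectionVars false

namespace Pool.Agent.Lib.MP_1a91b9_ntQ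

open NumberField Finset Pool.Agent.Lib.MP_1a91b9_nuT Pool.Agent.Lib.MP_1a91b9_nuT.S3
  Pool.Agent.Lib.MP_1a91b9_nuT.Ell

noncomputable section

section
variable {n : Type*} [Fintype n] [DecidableEq n]

/-- one index and the others -/
def eR (r : n) : {i : n // ¬ i = r} ⊕ Unit ≃ n where
  toFun := Sum.elim (fun i => i.1) (fun _ => r)
  invFun i := if h : i = r then Sum.inr () else Sum.inl ⟨i, h⟩
  left_inv x := by
    rcases x with ⟨i, h⟩ | ⟨⟩
    · simp [h]
    · simp
  right_inv i := by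
    by_cases h : i = r
    · simp [h]
    · simp [h]

/-- the restriction to the indices `≠ r` -/
def subR {R : Type*} (N : Matrix n n R) (r : n) :
    Matrix {i : n // ¬ i = r} {i : n // ¬ i = r} R :=
  N.submatrix (fun i => i.1) (fun i => i.1)

theorem det_eR {R : Type*} [CommRing R] (P : Matrix n n R) (r : n) :
    P.det = (BM (subR P r) (fun i => P i.1 r) (fun j => P r j.1) (P r r)).det := by
  rw [← Matrix.det_submatrix_equiv_self (eR r)]
  congr 1
  ext x y
  rcases x with x | x <;> rcases y with y | y <;> rfl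

/-- the cofactor of the bordered matrix -/
theorem adj_BM_sub {R : Type*} [CommRing R] (N : Matrix n n R) (b c : n → R) (k : R) (r : n) :
    (BM N b c k).adjugate (Sum.inl r) (Sum.inl r) =
      (BM (subR N r) (fun i => b i.1) (fun j => c j.1) k).det := by
  rw [Matrix.adjugate_apply, det_single, one_mul]
  let e : {i : n // ¬ i = r} ⊕ Unit ≃ {y : n ⊕ Unit // ¬ y = Sum.inl r} :=
    { toFun := fun x => match x with
        | Sum.inl i => ⟨Sum.inl i.1, fun h => i.2 (Sum.inl_injective h)⟩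
        | Sum.inr _ => ⟨Sum.inr (), by simp⟩
      invFun := fun x => match x with
        | ⟨Sum.inl i, h⟩ => Sum.inl ⟨i, fun h' => h (by rw [h'])⟩
        | ⟨Sum.inr _, _⟩ => Sum.inr ()
      left_inv := fun x => by rcases x with x | x <;> rfl
      right_inv := fun x => by rcases x with ⟨x | x, h⟩ <;> rfl }
  rw [← Matrix.det_submatrix_equiv_self e]
  congr 1
  ext x y
  rcases x with x | x <;> rcases y with y | y <;> rfl

private theorem DuC_two (x : ZMod 2) : x + x = 0 := by
  have key : ∀ x : ZMod 2, x + x = 0 := by decide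
  exact key x

/-- **One column replaced by `w`.** -/
theorem duE_one {N : Matrix n n (ZMod 2)} {u s a : n → ZMod 2} (w : n → ZMod 2)
    (hN : ∀ j, ∑ i, u i * N i j = 0) (hs : ∑ i, u i * s i = 1) {r : n} (hr : u r = 1) {y : ZMod 2}
    (hy : ∑ i, u i * w i = y) :
    (Matrix.of fun i j => if j = r then w i else N i j + s i * a j).det =
      (BM (subR N r) (fun i => w i.1 + y * s i.1) (fun j => a j.1) y).det := by
  obtain ⟨P, hP⟩ : ∃ P : Matrix n n (ZMod 2),
      P = Matrix.of fun i j => if j = r then w i else N i j + s i * a j := ⟨_, rfl⟩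
  have hPe : ∀ i j, P i j = if j = r then w i else N i j + s i * a j := fun i j => by
    rw [hP, Matrix.of_apply]
  have h1 := Matrix.det_updateRow_sum P r u
  rw [hr, one_smul] at h1
  have hrow : ∀ j, (∑ k, u k • P k) j = if j = r then y else a j := by
    intro j
    rw [Finset.sum_apply]
    simp only [Pi.smul_apply, smul_eq_mul, hPe]
    by_cases hj : j = r
    · simp only [if_pos hj]
      exact hy
    · simp only [if_neg hj, mul_add, sum_add_distrib]
      rw [hN j, zero_add]
      have e1 : ∀ i, u i * (s i * a j) = (u i * s i) * a j := fun i => by ring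
      rw [sum_congr rfl fun i _ => e1 i, ← sum_mul, hs, one_mul]
  obtain ⟨Q, hQ⟩ : ∃ Q : Matrix n n (ZMod 2), Q = Matrix.of fun i j =>
      if i = r then (if j = r then y else a j) else (if j = r then w i + y * s i else N i j) :=
    ⟨_, rfl⟩
  have hQe : ∀ i j, Q i j = if i = r then (if j = r then y else a j) else
      (if j = r then w i + y * s i else N i j) := fun i j => by rw [hQ, Matrix.of_apply]
  have h2 : (P.updateRow r (∑ k, u k • P k)).det = Q.det := by
    refine Matrix.det_eq_of_forall_row_eq_smul_add_const (fun i => if i = r then 0 else s i) r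
      (if_pos rfl) fun i j => ?_
    rw [hQe, hQe, if_pos rfl]
    by_cases hi : i = r
    · rw [if_pos hi, if_pos hi, hi, Matrix.updateRow_self, hrow, zero_mul, add_zero]
    · rw [if_neg hi, if_neg hi, Matrix.updateRow_ne hi, hPe]
      by_cases hj : j = r
      · rw [if_pos hj, if_pos hj, if_pos hj]
        linear_combination - DuC_two (s i * y)
      · rw [if_neg hj, if_neg hj, if_neg hj]
  rw [← hP, ← h1, h2, det_eR Q r]
  congr 1
  ext x y'
  rcases x with x | x <;> rcases y' with y' | y'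
  · show Q x.1 y'.1 = N x.1 y'.1
    rw [hQe, if_neg x.2, if_neg y'.2]
  · show Q x.1 r = w x.1 + y * s x.1
    rw [hQe, if_neg x.2, if_pos rfl]
  · show Q r y'.1 = a y'.1
    rw [hQe, if_pos rfl, if_neg y'.2]
  · show Q r r = y
    rw [hQe, if_pos rfl, if_pos rfl]

/-- **The bordered determinant, one column replaced by `c`.** -/
theorem duE_two {N : Matrix n n (ZMod 2)} {u s a l : n → ZMod 2} (c : n → ZMod 2)
    (hN : ∀ j, ∑ i, u i * N i j = 0) (hs : ∑ i, u i * s i = 1) {r : n} (hr : u r = 1) {y : ZMod 2}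
    (hy : ∑ i, u i * c i = y) :
    (BM (Matrix.of fun i j => if j = r then c i else N i j + s i * a j) s
      (fun j => if j = r then 0 else l j) 0).det =
      (BM (subR N r) (fun i => c i.1 + y * s i.1) (fun j => l j.1) 0).det := by
  obtain ⟨P, hP⟩ : ∃ P : Matrix (n ⊕ Unit) (n ⊕ Unit) (ZMod 2),
      P = BM (Matrix.of fun i j => if j = r then c i else N i j + s i * a j) s
      (fun j => if j = r then 0 else l j) 0 := ⟨_, rfl⟩
  have hP11 : ∀ i j, P (Sum.inl i) (Sum.inl j) = if j = r then c i else N i j + s i * a j :=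
    fun i j => by rw [hP]; rfl
  have hP12 : ∀ i x, P (Sum.inl i) (Sum.inr x) = s i := fun i x => by rw [hP]; rfl
  have hP21 : ∀ j x, P (Sum.inr x) (Sum.inl j) = if j = r then 0 else l j :=
    fun i x => by rw [hP]; rfl
  have hP22 : ∀ x y, P (Sum.inr x) (Sum.inr y) = 0 := fun x y => by rw [hP]; rfl
  have h1 := Matrix.det_updateRow_sum P (Sum.inl r) (Sum.elim u fun _ => 0)
  rw [Sum.elim_inl, hr, one_smul] at h1
  have hrow1 : ∀ j, (∑ k, (Sum.elim u (fun _ => 0) : n ⊕ Unit → ZMod 2) k • P k) (Sum.inl j) =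
      if j = r then y else a j := by
    intro j
    rw [Finset.sum_apply, Fintype.sum_sum_type]
    simp only [Pi.smul_apply, smul_eq_mul, Sum.elim_inl, Sum.elim_inr, zero_mul, sum_const_zero,
      add_zero, hP11]
    by_cases hj : j = r
    · simp only [if_pos hj]
      exact hy
    · simp only [if_neg hj, mul_add, sum_add_distrib]
      rw [hN j, zero_add]
      have e1 : ∀ i, u i * (s i * a j) = (u i * s i) * a j := fun i => by ring
      rw [sum_congr rfl fun i _ => e1 i, ← sum_mul, hs, one_mul]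
  have hrow2 : ∀ x, (∑ k, (Sum.elim u (fun _ => 0) : n ⊕ Unit → ZMod 2) k • P k) (Sum.inr x) =
      1 := by
    intro x
    rw [Finset.sum_apply, Fintype.sum_sum_type]
    simp only [Pi.smul_apply, smul_eq_mul, Sum.elim_inl, Sum.elim_inr, zero_mul, sum_const_zero,
      add_zero, hP12]
    exact hs
  -- the matrix without the two rows
  obtain ⟨X, hX⟩ : ∃ X : Matrix n n (ZMod 2), X = Matrix.of fun i j =>
      if i = r then (if j = r then 0 else l j) else (if j = r then c i + y * s i else N i j) :=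
    ⟨_, rfl⟩
  have hXe : ∀ i j, X i j = if i = r then (if j = r then 0 else l j) else
      (if j = r then c i + y * s i else N i j) := fun i j => by rw [hX, Matrix.of_apply]
  obtain ⟨Q, hQ⟩ : ∃ Q : Matrix (n ⊕ Unit) (n ⊕ Unit) (ZMod 2),
      Q = (BM X (fun _ => 0) (fun j => if j = r then y else a j) 1).submatrix
        (Equiv.swap (Sum.inl r) (Sum.inr ())) id := ⟨_, rfl⟩
  have hQr : ∀ z, Q (Sum.inl r) z = (Sum.elim (fun j => if j = r then y else a j) fun _ => 1 :
      n ⊕ Unit → ZMod 2) z := fun z => by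
    rw [hQ, Matrix.submatrix_apply, Equiv.swap_apply_left]
    rcases z with z | z <;> rfl
  have hQi : ∀ i, ¬ i = r → ∀ z, Q (Sum.inl i) z = (Sum.elim (fun j => X i j) fun _ => 0 :
      n ⊕ Unit → ZMod 2) z := fun i hi z => by
    rw [hQ, Matrix.submatrix_apply, Equiv.swap_apply_of_ne_of_ne
      (fun h => hi (Sum.inl_injective h)) (by simp)]
    rcases z with z | z <;> rfl
  have hQu : ∀ x z, Q (Sum.inr x) z = (Sum.elim (fun j => X r j) fun _ => 0 :
      n ⊕ Unit → ZMod 2) z := fun x z => by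
    rw [hQ, Matrix.submatrix_apply, Equiv.swap_apply_right]
    rcases z with z | z <;> rfl
  have h2 : (P.updateRow (Sum.inl r) (∑ k, (Sum.elim u (fun _ => 0) : n ⊕ Unit → ZMod 2) k •
      P k)).det = Q.det := by
    refine Matrix.det_eq_of_forall_row_eq_smul_add_const
      (Sum.elim (fun i => if i = r then 0 else s i) fun _ => 0) (Sum.inl r) (if_pos rfl)
      fun i z => ?_
    rcases i with i | i
    · by_cases hi : i = r
      · rw [Sum.elim_inl, if_pos hi, hi, Matrix.updateRow_self, hQr, zero_mul, add_zero]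
        rcases z with z | z
        · rw [hrow1, Sum.elim_inl]
        · rw [hrow2, Sum.elim_inr]
      · rw [Sum.elim_inl, if_neg hi, Matrix.updateRow_ne (fun h => hi (Sum.inl_injective h)),
          hQi i hi, hQr]
        rcases z with z | z
        · rw [hP11, Sum.elim_inl, Sum.elim_inl, hXe, if_neg hi]
          by_cases hz : z = r
          · rw [if_pos hz, if_pos hz, if_pos hz]
            linear_combination - DuC_two (s i * y)
          · rw [if_neg hz, if_neg hz, if_neg hz]
        · rw [hP12, Sum.elim_inr, Sum.elim_inr]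
          ring
    · rw [Sum.elim_inr, Matrix.updateRow_ne (by simp), hQu, zero_mul, add_zero]
      rcases z with z | z
      · rw [hP21, Sum.elim_inl, hXe, if_pos rfl]
      · rw [hP22, Sum.elim_inr]
  have h3 : Q.det = X.det := by
    rw [hQ, Matrix.det_permute, det_BM]
    simp only [mul_zero, sum_const_zero, sub_zero, one_mul]
    have e1 : Equiv.Perm.sign (Equiv.swap (Sum.inl r : n ⊕ Unit) (Sum.inr ())) = -1 :=
      Equiv.Perm.sign_swap (by simp)
    rw [e1]
    have key : ∀ x : ZMod 2, (((-1 : ℤˣ) : ℤ) : ZMod 2) * x = x := by decide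
    exact key _
  rw [← hP, ← h1, h2, h3, det_eR X r]
  congr 1
  ext x y'
  rcases x with x | x <;> rcases y' with y' | y'
  · show X x.1 y'.1 = N x.1 y'.1
    rw [hXe, if_neg x.2, if_neg y'.2]
  · show X x.1 r = c x.1 + y * s x.1
    rw [hXe, if_neg x.2, if_pos rfl]
  · show X r y'.1 = l y'.1
    rw [hXe, if_pos rfl, if_neg y'.2]
  · show X r r = 0
    rw [hXe, if_pos rfl, if_pos rfl]

/-- **The end of the class (J2d), `ν` even, abstract.** -/
theorem duE_alg {N : Matrix n n (ZMod 2)} {u s a l : n → ZMod 2}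
    (hN : ∀ j, ∑ i, u i * N i j = 0) (hsy : N.transpose = N) (hs : ∑ i, u i * s i = 1)
    (ha : ∑ i, u i * a i = 0) (hl : ∑ i, u i * l i = 0) {r : n} (hr : u r = 1) (m h w : ZMod 2) :
    (Matrix.of fun i j => if j = r then (m * (a i + l i + h * s i) + s i) + w * s i else
        N i j + s i * a j).det +
      (BM (Matrix.of fun i j => if j = r then m * a i + l i + (1 + h) * s i else
        N i j + s i * a j) s (fun j => if j = r then 0 else l j) 0).det =
      (BM N (fun i => m * a i + l i) (fun i => m * a i + l i) (1 + m * h + w)).adjugate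
        (Sum.inl r) (Sum.inl r) := by
  have hlin : ∀ p q t : ZMod 2, ∑ i, u i * (p * a i + q * l i + t * s i) = t := by
    intro p q t
    have e1 : ∀ i, u i * (p * a i + q * l i + t * s i) =
        p * (u i * a i) + q * (u i * l i) + t * (u i * s i) := fun i => by ring
    rw [sum_congr rfl fun i _ => e1 i, sum_add_distrib, sum_add_distrib, ← mul_sum, ← mul_sum,
      ← mul_sum, hs, ha, hl]
    ring
  have h1 : ∑ i, u i * ((m * (a i + l i + h * s i) + s i) + w * s i) = 1 + m * h + w :=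
    (sum_congr rfl fun i _ => by ring).trans (hlin m m (1 + m * h + w))
  have h2 : ∑ i, u i * (m * a i + l i + (1 + h) * s i) = 1 + h :=
    (sum_congr rfl fun i _ => by ring).trans (hlin m 1 (1 + h))
  rw [duE_one (a := a) _ hN hs hr h1, duE_two (a := a) (l := l) _ hN hs hr h2, adj_BM_sub]
  obtain ⟨N', hN'⟩ : ∃ N', N' = subR N r := ⟨_, rfl⟩
  rw [← hN']
  have e1 : (fun i : {i : n // ¬ i = r} => (m * (a i.1 + l i.1 + h * s i.1) + s i.1) + w * s i.1 +
      (1 + m * h + w) * s i.1) = fun i => m * (a i.1 + l i.1) := by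
    funext i
    linear_combination DuC_two ((1 + m * h + w) * s i.1)
  have e2 : (fun i : {i : n // ¬ i = r} => m * a i.1 + l i.1 + (1 + h) * s i.1 +
      (1 + h) * s i.1) = fun i => m * a i.1 + l i.1 := by
    funext i
    linear_combination DuC_two ((1 + h) * s i.1)
  rw [e1, e2, det_BM, det_BM, det_BM]
  have hsy' : ∀ i j, N'.adjugate i j = N'.adjugate j i := by
    intro i j
    have h3 : N'.transpose = N' := by
      rw [hN', subR, Matrix.transpose_submatrix, hsy]
    have h4 := congrFun (congrFun (Matrix.adjugate_transpose N') i) j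
    rw [h3] at h4
    rw [← h4]
    rfl
  obtain ⟨KK, hK⟩ : ∃ KK : ({i : n // ¬ i = r} → ZMod 2) → ({i : n // ¬ i = r} → ZMod 2) → ZMod 2,
      ∀ v w, KK v w = ∑ i, ∑ j, v i * N'.adjugate i j * w j := ⟨_, fun _ _ => rfl⟩
  simp only [← hK]
  have hKadd1 : ∀ v v' w, KK (fun i => v i + v' i) w = KK v w + KK v' w := fun v v' w => by
    rw [hK, hK, hK, ← sum_add_distrib]
    refine sum_congr rfl fun i _ => ?_
    rw [← sum_add_distrib]
    exact sum_congr rfl fun j _ => by ring
  have hKsym : ∀ v w, KK v w = KK w v := fun v w => by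
    rw [hK, hK, sum_comm]
    exact sum_congr rfl fun i _ => sum_congr rfl fun j _ => by rw [hsy' j i]; ring
  have hKmul : ∀ (t : ZMod 2) v w, KK (fun i => t * v i) w = t * KK v w := fun t v w => by
    rw [hK, hK, mul_sum]
    refine sum_congr rfl fun i _ => ?_
    rw [mul_sum]
    exact sum_congr rfl fun j _ => by ring
  have hKadd2 : ∀ v w w', KK v (fun i => w i + w' i) = KK v w + KK v w' := fun v w w' => by
    rw [hKsym, hKadd1, hKsym w, hKsym w']
  have hKmul2 : ∀ (t : ZMod 2) v w, KK v (fun i => t * w i) = t * KK v w := fun t v w => by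
    rw [hKsym, hKmul, hKsym]
  obtain ⟨A', hA'⟩ : ∃ A' : {i : n // ¬ i = r} → ZMod 2, A' = fun i => a i.1 := ⟨_, rfl⟩
  obtain ⟨L', hL'⟩ : ∃ L' : {i : n // ¬ i = r} → ZMod 2, L' = fun i => l i.1 := ⟨_, rfl⟩
  have e3 : (fun i : {i : n // ¬ i = r} => m * (a i.1 + l i.1)) = fun i => m * (A' i + L' i) := by
    rw [hA', hL']
  have e4 : (fun i : {i : n // ¬ i = r} => m * a i.1 + l i.1) = fun i => m * A' i + L' i := by
    rw [hA', hL']
  rw [← hA', ← hL', e3, e4, hKmul2 m A' (fun i => A' i + L' i), hKadd2 A' A' L',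
    hKadd2 L' (fun i => m * A' i) L', hKmul2 m L' A', hKadd1 (fun i => m * A' i) L', hKmul m A',
    hKadd2 A' (fun i => m * A' i) L', hKmul2 m A' A', hKadd2 L' (fun i => m * A' i) L', hKmul2 m L' A',
    hKsym L' A']
  have key : ∀ m D aa al ll z : ZMod 2, z * D - m * (aa + al) + (0 * D - (m * al + ll)) =
      z * D - (m * (m * aa + al) + (m * al + ll)) := by decide
  exact key _ _ _ _ _ _

end

variable {k : ZMod 4} {S T B : Finset Pg}

/-- the final matrix, with other names of the linear terms -/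
theorem blkM_DuC (hk : k = 0 ∨ k = 2) (h : Dj S T B) (hA : ∑ q ∈ S ∪ T, aa q.1 = 0) {h' : ZMod 4}
    {q0 : Pg} (h0 : aa q0.1 = 1) (hh' : h' + nn (cB S T B) = 0) {κ τ : Pg → ZMod 2}
    (hκ : ∀ p ∈ S ∪ T, κ p = 0) (hτ : ∀ b ∈ VB k 2 S T B, τ b = tauJB k 2 h' q0 S T B b)
    {p q : Pg} (hp : p ∈ S ∪ T ∪ VB k 2 S T B) :
    blkM (nXB q0) κ τ (S ∪ T) (VB k 2 S T B) p q = MqB k 2 S T B p q + s4 q0 p * aa q.1 := by
  have hk2 : md k = 0 := by rcases hk with rfl | rfl <;> rfl
  rw [← blkM_nJB (j := 2) h h0 hh' hp, blkM, blkM]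
  by_cases hpq : p = q
  · rw [if_pos hpq, if_pos hpq]
    by_cases hS : p ∈ S ∪ T
    · rw [if_pos hS, if_pos hS, hκ p hS, kapJ_kk h hh', kxB_even hk2 rfl, hA, mul_zero, add_zero]
    · rw [if_neg hS, if_neg hS, hτ p ((mem_union.1 hp).resolve_left hS)]
  · rw [if_neg hpq, if_neg hpq]

/-- **The end of the class (J2d), `ν` even**: the two determinants of `SyDE.final` are the cofactor
of the matrix of the criterion. `m = 0` for `k = 0`, `m = 1` for `k = 2`; `y = h`;
`w = w1 + ∑ (b ∈ V) lb b`. -/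
theorem duE (hk : k = 0 ∨ k = 2) (h : Dj S T B) (hA : ∑ q ∈ S ∪ T, aa q.1 = 0)
    (hL : ∑ q ∈ S ∪ T, bb q.1 = 0) {h' : ZMod 4} {q0 : Pg} (h0 : aa q0.1 = 1)
    (hh' : h' + nn (cB S T B) = 0) (hs : ∑ p ∈ S ∪ T, s4 q0 p = 1) {r : Pg} (hr : r ∈ S ∪ T)
    {m y : ZMod 2} (w : ZMod 2) {κ τ s0 v c lb : Pg → ZMod 2}
    (hκ : ∀ p ∈ S ∪ T, κ p = 0) (hτ : ∀ b ∈ VB k 2 S T B, τ b = tauJB k 2 h' q0 S T B b)
    (hs0 : ∀ p ∈ S ∪ T ∪ VB k 2 S T B, s0 p = s4 q0 p)
    (hlb : ∀ p ∈ S ∪ T ∪ VB k 2 S T B, lb p = bb p.1)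
    (hv : ∀ p ∈ S ∪ T ∪ VB k 2 S T B, v p = m * (aa p.1 + bb p.1 + y * s4 q0 p) + s4 q0 p)
    (hc : ∀ p ∈ S ∪ T ∪ VB k 2 S T B, c p = m * aa p.1 + bb p.1 + (1 + y) * s4 q0 p) :
    pdt (fun i j => if j = r then v i + w * s0 i else
        blkM (nXB q0) κ τ (S ∪ T) (VB k 2 S T B) i j) (S ∪ T ∪ VB k 2 S T B) +
      pdB (fun i j => if j = r then c i else blkM (nXB q0) κ τ (S ∪ T) (VB k 2 S T B) i j) s0
        (fun j => if j = r then 0 else lb j) 0 (S ∪ T ∪ VB k 2 S T B) =
      (BM (pmG (MqB k 2 S T B) (S ∪ T ∪ VB k 2 S T B)) (fun i => bpB ![m, 1] i)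
        (fun i => bpB ![m, 1] i) (1 + m * y + w)).adjugate
        (Sum.inl ⟨r, mem_union_left _ hr⟩) (Sum.inl ⟨r, mem_union_left _ hr⟩) := by
  have hk2 : md k = 0 := by rcases hk with rfl | rfl <;> rfl
  have hsym : (pmG (MqB k 2 S T B) (S ∪ T ∪ VB k 2 S T B)).transpose =
      pmG (MqB k 2 S T B) (S ∪ T ∪ VB k 2 S T B) := by
    have h1 := MG_symm d4 (kvB k 2) (rhB k 2 S T B) d4_symm (S ∪ T) (S ∪ T ∪ VB k 2 S T B)
    rwa [MqB_eq] at h1
  have hker : (pmG (MqB k 2 S T B) (S ∪ T ∪ VB k 2 S T B)).mulVec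
      (fun i => if (i : Pg) ∈ S ∪ T then 1 else 0) = 0 := by
    rw [MqB_mulVec h]
    funext i
    exact kxB_even hk2 rfl _
  have hsum : ∀ f : Pg → ZMod 2, ∑ i : ↥(S ∪ T ∪ VB k 2 S T B),
      (if (i : Pg) ∈ S ∪ T then 1 else 0) * f i = ∑ i ∈ S ∪ T, f i := by
    intro f
    rw [sum_coe_sort (S ∪ T ∪ VB k 2 S T B) fun j => (if j ∈ S ∪ T then 1 else 0) * f j,
      sum_union (h.dv k 2)]
    have h2 : ∑ x ∈ VB k 2 S T B, (if x ∈ S ∪ T then 1 else 0) * f x = 0 :=
      sum_eq_zero fun x hx => by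
        rw [if_neg fun h' => disjoint_left.1 (h.dv k 2) h' hx, zero_mul]
    rw [h2, add_zero]
    exact sum_congr rfl fun x hx => by rw [if_pos hx, one_mul]
  have hcol : ∀ j : ↥(S ∪ T ∪ VB k 2 S T B), ∑ i : ↥(S ∪ T ∪ VB k 2 S T B),
      (if (i : Pg) ∈ S ∪ T then 1 else 0) * pmG (MqB k 2 S T B) (S ∪ T ∪ VB k 2 S T B) i j =
        0 := by
    intro j
    have h1 := congrFun hker j
    simp only [Matrix.mulVec, dotProduct, Pi.zero_apply] at h1
    refine Eq.trans (sum_congr rfl fun i _ => ?_) h1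
    have h2 := congrFun (congrFun hsym j) i
    rw [Matrix.transpose_apply] at h2
    rw [h2, mul_comm]
  have h1 := duE_alg (l := fun i : ↥(S ∪ T ∪ VB k 2 S T B) => bb i.1.1) hcol hsym
    (by rw [hsum fun q => s4 q0 q, hs]) (by rw [hsum fun q => aa q.1, hA])
    (by rw [hsum fun q => bb q.1, hL]) (r := ⟨r, mem_union_left _ hr⟩) (by rw [if_pos hr]) m y w
  have hb : (fun i : ↥(S ∪ T ∪ VB k 2 S T B) => bpB ![m, 1] i) =
      fun i => m * aa i.1.1 + bb i.1.1 := by
    funext i
    show m * aa i.1.1 + 1 * bb i.1.1 = _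
    rw [one_mul]
  rw [hb, ← h1]
  congr 1
  · rw [pdt]
    congr 1
    ext i j
    rw [Matrix.of_apply, Matrix.of_apply]
    by_cases hj : j = ⟨r, mem_union_left _ hr⟩
    · rw [if_pos (congrArg Subtype.val hj), if_pos hj, hv i i.2, hs0 i i.2]
    · rw [if_neg fun h' => hj (Subtype.ext h'), if_neg hj, blkM_DuC hk h hA h0 hh' hκ hτ i.2]
      rfl
  · rw [pdB]
    congr 1
    have e1 : (Matrix.of fun i j : ↥(S ∪ T ∪ VB k 2 S T B) => if (j : Pg) = r then c i else
        blkM (nXB q0) κ τ (S ∪ T) (VB k 2 S T B) i j) =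
        Matrix.of fun i j : ↥(S ∪ T ∪ VB k 2 S T B) => if j = ⟨r, mem_union_left _ hr⟩ then
          m * aa i.1.1 + bb i.1.1 + (1 + y) * s4 q0 i.1 else
          pmG (MqB k 2 S T B) (S ∪ T ∪ VB k 2 S T B) i j + s4 q0 i.1 * aa j.1.1 := by
      ext i j
      rw [Matrix.of_apply, Matrix.of_apply]
      by_cases hj : j = ⟨r, mem_union_left _ hr⟩
      · rw [if_pos (congrArg Subtype.val hj), if_pos hj, hc i i.2]
      · rw [if_neg fun h' => hj (Subtype.ext h'), if_neg hj, blkM_DuC hk h hA h0 hh' hκ hτ i.2]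
        rfl
    have e2 : (fun i : ↥(S ∪ T ∪ VB k 2 S T B) => s0 i) = fun i => s4 q0 i.1 :=
      funext fun i => hs0 i i.2
    have e3 : (fun j : ↥(S ∪ T ∪ VB k 2 S T B) => if (j : Pg) = r then 0 else lb j) =
        fun j => if j = ⟨r, mem_union_left _ hr⟩ then 0 else bb j.1.1 := by
      funext j
      by_cases hj : j = ⟨r, mem_union_left _ hr⟩
      · rw [if_pos (congrArg Subtype.val hj), if_pos hj]
      · rw [if_neg fun h' => hj (Subtype.ext h'), if_neg hj, hlb j j.2]
    rw [e1, e2, e3]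

end

end Pool.Agent.Lib.MP_1a91b9_ntQ
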