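import Pool.Agent.Lib.MP_1a91b9_ntQ.B.DuJ

/-!
# Quartic twists, all fourth-power-free `D`, file DuK: the second order classes, the value of the whole set

**Main results** `SyDO.final`, `SyDE.final`: the class of the value is a sum of determinants of the final matrix.
-/

set_option autoImplicit false
set_option linter.unusedSectionVars false

namespace Pool.Agent.Lib.MP_1a91b9_ntQ

open Finset MvPolynomial
open Pool.Agent.Lib.MP_1a91b9_ntK (NM NM_congr NM_empty NM_adj NM_update NM_zero forest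
  CZ CZ_eq forest_zero)

noncomputable section

variable {ι : Type*} [DecidableEq ι]

/-- the coefficient of a product with a linear form -/
theorem cf_lin_mul {R : Type*} [CommRing R] (g : ι → R) (x : R) {T A : Finset ι}
    (hTA : Disjoint T A) (Q : MvPolynomial ι R) {E : Finset ι} (hE : E ⊆ A) :
    cf ((C x + ∑ i ∈ T ∪ A, mvE g A i) * Q) E =
      (x + ∑ p ∈ T, g p) * cf Q E + ∑ b ∈ E, g b * cf Q (E.erase b) := by
  have h1 : C x + ∑ i ∈ T ∪ A, mvE g A i = C (x + ∑ p ∈ T, g p) + ∑ b ∈ A, X b * C (g b) := by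
    rw [sum_union hTA, C_add, map_sum, add_assoc]
    congr 2
    · exact sum_congr rfl fun i hi => by rw [mvE, if_neg fun h => disjoint_left.1 hTA hi h]
    · exact sum_congr rfl fun i hi => by rw [mvE, if_pos hi]
  rw [h1, add_mul, cf_add, cf_C_mul, sum_mul, cf_sum]
  congr 1
  rw [← sum_subset hE]
  · refine sum_congr rfl fun b hb => ?_
    rw [mul_comm (X b) (C _), mul_assoc, cf_C_mul, cf_X_mul, if_pos hb]
  · intro b _ hb
    rw [mul_comm (X b) (C _), mul_assoc, cf_C_mul, cf_X_mul, if_neg hb, mul_zero]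

/-- the linear form has no constant part at the whole set -/
theorem coeff1_lin (lb : ι → ZMod 2) {h : ZMod 2} {T A : Finset ι} (hTA : Disjoint T A)
    (hh : h + ∑ p ∈ T, lb p = 0) (Q : MvPolynomial ι (Polynomial (ZMod 2))) :
    (cf ((C (Polynomial.C h) + ∑ i ∈ T ∪ A, mvE (cH lb) A i) * Q) A).coeff 1 =
      ∑ b ∈ A, lb b * (cf Q (A.erase b)).coeff 1 := by
  have h1 : Polynomial.C h + ∑ p ∈ T, cH lb p = 0 := by
    have h2 := congrArg Polynomial.C hh
    rw [Polynomial.C_add, map_sum, Polynomial.C_0] at h2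
    exact h2
  rw [cf_lin_mul (cH lb) (Polynomial.C h) hTA Q subset_rfl, h1, zero_mul, zero_add,
    Polynomial.finset_sum_coeff]
  exact sum_congr rfl fun b _ => coeff_C_mul' _ _ _

/-- the triangular sum -/
theorem solB_blkL (s : ι → ι → ZMod 2) (τ : ι → ZMod 2) (g : Finset ι → ZMod 2) (V : Finset ι) :
    solB s τ g V = ∑ A ∈ V.powerset, g A * pdt (blkL s τ V) (V \ A) :=
  sum_congr rfl fun A hA => by rw [NM_blkL s τ (mem_powerset.1 hA)]

theorem GE_row_lin (s : ι → ι → ZMod 2) (κ c lb : ι → ZMod 2) (h : ZMod 2) (T A : Finset ι) :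
    GE (sH s) (kH κ c) (cH lb) (kH κ c) (Polynomial.C h) T A =
      (C (Polynomial.C h) + ∑ i ∈ T ∪ A, mvE (cH lb) A i) * DE (sH s) (kH κ c) T A := by
  rw [GE, FB_row, DE, sub_eq_add_neg, neg_two (mv_two poly_two)]

theorem GE_split_lin (s : ι → ι → ZMod 2) (c lb s0 : ι → ZMod 2) {p0 : ι} {T : Finset ι}
    (hp0 : p0 ∈ T) (A : Finset ι) :
    GE (sH s) (kH 0 c) (cH lb) (cH s0) 0 T A =
      C Polynomial.X * ZB1 (sH s) (kH 0 c) (cH c) (cH s0) (cH lb) p0 T A +
        (C (Polynomial.C 0) + ∑ i ∈ T ∪ A, mvE (cH lb) A i) *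
          HEr (sH s) (kH 0 c) (cH s0) p0 T A := by
  rw [GE_split (sH s) (kH 0 c) (cH c) (cH lb) (cH s0) Polynomial.X (fun i => by
    rw [kH, Pi.zero_apply, Polynomial.C_0, zero_add]
    rfl) hp0, sub_eq_add_neg, neg_two (mv_two poly_two), Polynomial.C_0, MvPolynomial.C_0,
    zero_add]

theorem coeff1_ZB1 (s : ι → ι → ZMod 2) (c lb s0 : ι → ZMod 2) (p0 : ι) (T A E : Finset ι) :
    (cf (C Polynomial.X * ZB1 (sH s) (kH 0 c) (cH c) (cH s0) (cH lb) p0 T A) E).coeff 1 =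
      cf (ZB1 s 0 c s0 lb p0 T A) E := by
  rw [cf_C_mul, Polynomial.mul_coeff_one, Polynomial.coeff_X_zero, zero_mul, zero_add,
    Polynomial.coeff_X_one, one_mul, ← phc_apply, ← cf_map, map_ZB1]
  simp only [phc_sH, phc_kH, phc_cH]

/-! ### `ν` odd -/

section
variable {B : ValuationSubring ℂ} {l : ℂ} {M Y : Finset ι → Finset ι → ℂ} {e eX : ι → ℂ}
  {x xX : Finset ι → ι → ℂ} {Ef ch : Finset ι → ℂ} {cU : ℂ} {s : ι → ι → ZMod 2}
  {κ c lb ra : ι → ZMod 2} {hU hD : ZMod 2} {S0 B0 : Finset ι}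

/-- **The value of the whole set, second order, `ν` odd.** -/
theorem SyDO.final (H : SyDO B l M Y e eX x xX Ef ch cU s κ c lb ra hU hD S0 B0)
    {U V : Finset ι} (hUB : U ∪ V = B0) (hUV : Disjoint U V)
    (hh : hU + ∑ p ∈ S0, lb p = 0)
    (hu1 : ∀ b ∈ U, κ b + ∑ p ∈ S0, s b p = 1) (hu0 : ∀ b ∈ V, κ b + ∑ p ∈ S0, s b p = 0)
    {τ : ι → ZMod 2}
    (h2 : ∀ b ∈ V, Rt B ((e b - x S0 b * ∏ a ∈ U, sgz (s b a)) / l ^ 2) (τ b)) {w1 : ZMod 2}
    (hw : Rt B ((Ef S0 - ch S0 * ∏ b ∈ U, sgz (lb b)) / l ^ 2) w1) :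
    Rt B (M S0 B0 / l ^ (S0.card + U.card + 2 * V.card + 1))
      ((hD + w1 + ∑ b ∈ V, lb b) * pdt (blkM s κ τ S0 V) (S0 ∪ V) +
        pdB (blkM s κ τ S0 V) (fun j => ra j + c j) lb 0 (S0 ∪ V)) := by
  have hU' : U ⊆ B0 := hUB ▸ subset_union_left
  have hV : V ⊆ B0 := hUB ▸ subset_union_right
  have hSV : Disjoint S0 V := H.dis subset_rfl hV
  have hd : ∀ C ⊆ V, Disjoint S0 C := fun C hC => disjoint_of_subset_right hC hSV
  let P : Finset ι → MvPolynomial ι (Polynomial (ZMod 2)) := fun C =>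
    Pg2 s κ c lb (kH κ c) (Polynomial.C hU) (ZbO s κ lb (fun j => ra j + c j) hD) S0 C
  let He : Finset ι → MvPolynomial ι (Polynomial (ZMod 2)) := fun C => DE (sH s) (kH κ c) S0 C
  let η : ι → Finset ι → ZMod 2 := fun b C => (cf (He (insert b C)) C).coeff 1
  have h3 := H.toSyD.last (P := P) (PY := fun C => DE s κ S0 C) hU' hV hUV
    (fun C hC => H.rb2 subset_rfl hC)
    (fun A hA b hb E hE => Pg2_step s κ c lb _ _ _ (H.dis subset_rfl hA) hb hE
      (ZbO_step s κ lb _ hD (H.dis subset_rfl hA) hb hE))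
    (fun C hC => H.rbY subset_rfl hC)
    (fun A hA b hb E hE => DE_step s κ (H.dis subset_rfl hA) hb hE)
    (fun C hC E _ => by
      show (cf (Pg2 s κ c lb (kH κ c) (Polynomial.C hU)
        (ZbO s κ lb (fun j => ra j + c j) hD) S0 C) E).coeff 0 = _
      rw [Pg2_coeff0]
      simp only [phc_kH, phc_C]
      rw [GE_row2 s κ lb hU (H.dis subset_rfl hC)])
    hh hu1 hu0 h2 hw V.card V subset_rfl rfl
  have hc0 : ∀ C E : Finset ι, (cf (He C) E).coeff 0 = cf (DE s κ S0 C) E := by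
    intro C E
    show (cf (DE (sH s) (kH κ c) S0 C) E).coeff 0 = _
    rw [← phc_apply, ← cf_map, map_DE]
    simp only [phc_sH, phc_kH]
  have hη : ∀ C ⊆ V, ∀ b ∈ V, b ∉ C → η b C = c b * cf (DE s κ S0 C) C +
      ∑ b' ∈ C, s b b' * η b' (C.erase b') := by
    intro C hC b hb hbC
    show (cf (DE (sH s) (kH κ c) S0 (insert b C)) C).coeff 1 = _
    have hd' : Disjoint S0 (insert b C) :=
      disjoint_of_subset_right (insert_subset hb hC) hSV
    rw [DE_step (sH s) (kH κ c) hd' (mem_insert_self b C) hbC, erase_insert hbC, coeff1_law,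
      hu0 b hb, zero_mul, zero_add, inter_self]
    have h4 := hc0 C C
    change (cf (DE (sH s) (kH κ c) S0 C) C).coeff 0 = _ at h4
    rw [h4]
    congr 1
    refine sum_congr rfl fun b' hb' => ?_
    show _ = s b b' * (cf (DE (sH s) (kH κ c) S0 (insert b' (C.erase b'))) (C.erase b')).coeff 1
    rw [insert_erase hb']
  have hz : ∀ C ⊆ V, (cf (P C) C).coeff 1 =
      cf (ZbO s κ lb (fun j => ra j + c j) hD S0 C) C + ∑ b ∈ C, lb b * η b (C.erase b) := by
    intro C hC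
    show (cf (Pg2 s κ c lb (kH κ c) (Polynomial.C hU)
        (ZbO s κ lb (fun j => ra j + c j) hD) S0 C) C).coeff 1 = _
    rw [Pg2, cf_add, Polynomial.coeff_add, cf_liX1, add_comm]
    congr 1
    rw [GE_row_lin, coeff1_lin lb (hd C hC) hh]
    refine sum_congr rfl fun b hb => ?_
    show _ = lb b * (cf (DE (sH s) (kH κ c) S0 (insert b (C.erase b))) (C.erase b)).coeff 1
    rw [insert_erase hb]
  rw [last_alg s τ c lb w1 (fun C => cf (DE s κ S0 C) C)
    (fun C => cf (ZbO s κ lb (fun j => ra j + c j) hD S0 C) C) (fun C => (cf (P C) C).coeff 1)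
    hη hz V subset_rfl, hUB, solB_blkL, solB_blkL, DE_final s κ τ hSV hu0] at h3
  have h4 : ∑ A ∈ V.powerset, cf (ZbO s κ lb (fun j => ra j + c j) hD S0 A) A *
      pdt (blkL s τ V) (V \ A) = hD * pdt (blkM s κ τ S0 V) (S0 ∪ V) +
        pdB (blkM s κ τ S0 V) (fun j => ra j + c j) lb 0 (S0 ∪ V) := by
    rw [← DE_final s κ τ hSV hu0, ← GE_final2 s κ lb (fun j => ra j + c j) τ 0 hSV hu0, mul_sum,
      ← sum_add_distrib]
    refine sum_congr rfl fun A _ => ?_
    rw [ZbO, cf_add, cf_C_mul]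
    ring
  rw [h4] at h3
  have e1 : (hD + w1 + ∑ b ∈ V, lb b) * pdt (blkM s κ τ S0 V) (S0 ∪ V) +
      pdB (blkM s κ τ S0 V) (fun j => ra j + c j) lb 0 (S0 ∪ V) =
      hD * pdt (blkM s κ τ S0 V) (S0 ∪ V) +
        pdB (blkM s κ τ S0 V) (fun j => ra j + c j) lb 0 (S0 ∪ V) +
        (w1 + ∑ b ∈ V, lb b) * pdt (blkM s κ τ S0 V) (S0 ∪ V) := by ring
  rw [e1]
  exact h3

end

/-! ### `ν` even -/

section
variable {B : ValuationSubring ℂ} {l : ℂ} {M Y : Finset ι → Finset ι → ℂ} {e eX : ι → ℂ}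
  {x xX : Finset ι → ι → ℂ} {Ef ch : Finset ι → ℂ} {cU : ℂ} {s : ι → ι → ZMod 2}
  {c lb ra s0 vM : ι → ZMod 2} {μ0 : ZMod 2} {S0 B0 : Finset ι}

theorem CE_add2 (s : ι → ι → ZMod 2) (v s0 : ι → ZMod 2) (r : ZMod 2) (T A : Finset ι) :
    CE s (fun b => v b + r * s0 b) T A = CE s v T A + C r * CE s s0 T A := by
  rw [CE, CE, CE, CZ_eq, CZ_eq, CZ_eq, mul_sum, ← sum_add_distrib]
  refine sum_congr rfl fun b _ => ?_
  rw [C_add, C_mul]
  ring

/-- **The value of the whole set, second order, `ν` even.** -/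
theorem SyDE.final (H : SyDE B l M Y e eX x xX Ef ch cU s c lb ra s0 vM μ0 S0 B0)
    {U V : Finset ι} (hUB : U ∪ V = B0) (hUV : Disjoint U V) {p0 : ι} (hp0 : p0 ∈ S0)
    (hh : ∑ p ∈ S0, lb p = 0)
    (hu1 : ∀ b ∈ U, ∑ p ∈ S0, s b p = 1) (hu0 : ∀ b ∈ V, ∑ p ∈ S0, s b p = 0)
    {τ : ι → ZMod 2}
    (h2 : ∀ b ∈ V, Rt B ((e b - x S0 b * ∏ a ∈ U, sgz (s b a)) / l ^ 2) (τ b)) {w1 : ZMod 2}
    (hw : Rt B ((Ef S0 - ch S0 * ∏ b ∈ U, sgz (lb b)) / l ^ 2) w1) :
    Rt B (M S0 B0 / l ^ (S0.card + U.card + 2 * V.card + 1))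
      (pdt (fun i j => if j = p0 then (μ0 * vM i + s0 i) + (w1 + ∑ b ∈ V, lb b) * s0 i else
          blkM s (fun _ => 0) τ S0 V i j) (S0 ∪ V) +
        pdB (fun i j => if j = p0 then c i else blkM s (fun _ => 0) τ S0 V i j) s0
          (fun j => if j = p0 then 0 else lb j) 0 (S0 ∪ V)) := by
  have hU' : U ⊆ B0 := hUB ▸ subset_union_left
  have hV : V ⊆ B0 := hUB ▸ subset_union_right
  have hSV : Disjoint S0 V := H.dis subset_rfl hV
  have hd : ∀ C ⊆ V, Disjoint S0 C := fun C hC => disjoint_of_subset_right hC hSV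
  have hS0 : S0.Nonempty := ⟨p0, hp0⟩
  have hne : ∀ A : Finset ι, (S0 ∪ A).Nonempty := fun A => hS0.mono subset_union_left
  have hu0' : ∀ b ∈ V, (0 : ι → ZMod 2) b + ∑ p ∈ S0, s b p = 0 := fun b hb => by
    rw [Pi.zero_apply, zero_add, hu0 b hb]
  have hu1' : ∀ b ∈ U, (0 : ι → ZMod 2) b + ∑ p ∈ S0, s b p = 1 := fun b hb => by
    rw [Pi.zero_apply, zero_add, hu1 b hb]
  have hh' : 0 + ∑ p ∈ S0, lb p = 0 := by rw [zero_add, hh]
  let v : ι → ZMod 2 := fun b => μ0 * vM b + s0 b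
  let P : Finset ι → MvPolynomial ι (Polynomial (ZMod 2)) := fun C =>
    Pg2 s 0 c lb (cH s0) 0 (ZbE s lb ra v) S0 C
  let He : Finset ι → MvPolynomial ι (Polynomial (ZMod 2)) := fun C =>
    HEr (sH s) (kH 0 c) (cH s0) p0 S0 C
  let η : ι → Finset ι → ZMod 2 := fun b C => (cf (He (insert b C)) C).coeff 1
  have h3 := H.toSyD.last (P := P) (PY := fun C => CE s s0 S0 C) hU' hV hUV
    (fun C hC => H.rb2 subset_rfl hS0 hC)
    (fun A hA b hb E hE => Pg2_step s 0 c lb _ _ _ (H.dis subset_rfl hA) hb hE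
      (ZbE_step s lb ra _ (H.dis subset_rfl hA) hS0 hb hE))
    (fun C hC => H.rbY subset_rfl hC (hne C))
    (fun A hA b hb E hE => CE_step s s0 (H.dis subset_rfl hA) hb (hne _) hE)
    (fun C hC E _ => by
      show (cf (Pg2 s 0 c lb (cH s0) 0 (ZbE s lb ra v) S0 C) E).coeff 0 = _
      rw [Pg2_coeff0, map_zero]
      simp only [phc_cH]
      rw [GE_zero2 s lb s0 (H.dis subset_rfl hC) hS0])
    hh' hu1' hu0' h2 hw V.card V subset_rfl rfl
  have hc0 : ∀ C E : Finset ι, (cf (He C) E).coeff 0 = cf (CE s s0 S0 C) E := by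
    intro C E
    show (cf (HEr (sH s) (kH 0 c) (cH s0) p0 S0 C) E).coeff 0 = _
    rw [← phc_apply, ← cf_map, map_HEr]
    simp only [phc_sH, phc_kH, phc_cH]
    exact congrArg (cf · E) (HEr_CE s s0 hp0)
  have hη : ∀ C ⊆ V, ∀ b ∈ V, b ∉ C → η b C = c b * cf (CE s s0 S0 C) C +
      ∑ b' ∈ C, s b b' * η b' (C.erase b') := by
    intro C hC b hb hbC
    show (cf (HEr (sH s) (kH 0 c) (cH s0) p0 S0 (insert b C)) C).coeff 1 = _
    have hd' : Disjoint S0 (insert b C) :=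
      disjoint_of_subset_right (insert_subset hb hC) hSV
    rw [HEr_step (sH s) (kH 0 c) (cH s0) hd' hp0 (mem_insert_self b C) hbC, erase_insert hbC,
      coeff1_law, hu0' b hb, zero_mul, zero_add, inter_self]
    have h4 := hc0 C C
    change (cf (HEr (sH s) (kH 0 c) (cH s0) p0 S0 C) C).coeff 0 = _ at h4
    rw [h4]
    congr 1
    refine sum_congr rfl fun b' hb' => ?_
    show _ = s b b' * (cf (HEr (sH s) (kH 0 c) (cH s0) p0 S0 (insert b' (C.erase b')))
      (C.erase b')).coeff 1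
    rw [insert_erase hb']
  have hz : ∀ C ⊆ V, (cf (P C) C).coeff 1 =
      (cf (ZB1 s 0 c s0 lb p0 S0 C) C + cf (CE s v S0 C) C) +
        ∑ b ∈ C, lb b * η b (C.erase b) := by
    intro C hC
    show (cf (Pg2 s 0 c lb (cH s0) 0 (ZbE s lb ra v) S0 C) C).coeff 1 = _
    -- the second order term
    have h4 : cf (ZbE s lb ra v S0 C) C = cf (CE s v S0 C) C := by
      rw [ZbE, cf_add, GE_zero2 s lb ra (hd C hC) hS0, cf_KX_mul lb lb 0 S0 _ _ subset_rfl, hh',
        zero_mul, zero_add]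
      have h5 : ∑ b ∈ C, lb b * cf (CE s ra S0 C) (C.erase b) = 0 := by
        refine sum_eq_zero fun b hb => ?_
        have h6 := cf_low s 0 S0 (B0 := B0) (P := fun C => CE s ra S0 C)
          (fun A hA b hb E hE => CE_step s ra (H.dis subset_rfl hA) hb (hne _) hE)
          (empty_subset B0) C.card C rfl (hC.trans hV) (disjoint_empty_left C)
          (fun y hy => hu0' y (hC hy)) _ (erase_ssubset hb)
        rw [empty_union] at h6
        rw [h6, mul_zero]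
      rw [h5, zero_add]
    rw [Pg2, cf_add, Polynomial.coeff_add, cf_liX1, h4, GE_split_lin s c lb s0 hp0, cf_add,
      Polynomial.coeff_add, coeff1_ZB1, coeff1_lin lb (hd C hC) hh']
    have h7 : ∑ b ∈ C, lb b * (cf (HEr (sH s) (kH 0 c) (cH s0) p0 S0 C) (C.erase b)).coeff 1 =
        ∑ b ∈ C, lb b * η b (C.erase b) := by
      refine sum_congr rfl fun b hb => ?_
      show _ = lb b * (cf (HEr (sH s) (kH 0 c) (cH s0) p0 S0 (insert b (C.erase b)))
        (C.erase b)).coeff 1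
      rw [insert_erase hb]
    rw [h7]
    ring
  rw [last_alg s τ c lb w1 (fun C => cf (CE s s0 S0 C) C)
    (fun C => cf (ZB1 s 0 c s0 lb p0 S0 C) C + cf (CE s v S0 C) C)
    (fun C => (cf (P C) C).coeff 1) hη hz V subset_rfl, hUB, solB_blkL, solB_blkL] at h3
  have h4 : ∑ A ∈ V.powerset, (cf (ZB1 s 0 c s0 lb p0 S0 A) A + cf (CE s v S0 A) A) *
      pdt (blkL s τ V) (V \ A) + (w1 + ∑ b ∈ V, lb b) * ∑ A ∈ V.powerset,
        cf (CE s s0 S0 A) A * pdt (blkL s τ V) (V \ A) =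
      pdt (fun i j => if j = p0 then v i + (w1 + ∑ b ∈ V, lb b) * s0 i else
          blkM s (fun _ => 0) τ S0 V i j) (S0 ∪ V) +
        pdB (fun i j => if j = p0 then c i else blkM s 0 τ S0 V i j) s0
          (fun j => if j = p0 then 0 else lb j) 0 (S0 ∪ V) := by
    rw [← CE_final s (fun i => v i + (w1 + ∑ b ∈ V, lb b) * s0 i) τ hSV hp0 hu0,
      ← ZB1_final s 0 c s0 lb τ hSV hp0 hu0', mul_sum, ← sum_add_distrib, ← sum_add_distrib]
    refine sum_congr rfl fun A _ => ?_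
    rw [CE_add2, cf_add, cf_C_mul]
    ring
  rw [h4] at h3
  exact h3

end

end

end Pool.Agent.Lib.MP_1a91b9_ntQ
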