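import Pool.Agent.Lib.MP_1a91b9_ntQ.A.HH4
import Pool.Agent.Lib.MP_1a91b9_ntQ.B.GamB

/-!
# Quartic twists, part B, file HHB: the sums of `xi` and `X` over the classes of symbol `0`, with exponents

`XXB q0 ex T J = ∑ chP ex T (kap c) X (c / (q0 D_J))`, `HHB` the same with `xi`, `kap = f4 0`.
-/

set_option autoImplicit false

namespace Pool.Agent.Lib.MP_1a91b9_ntQ

open NumberField Pool.Agent.Lib.MP_1a91b9_nuT Pool.Agent.Lib.MP_1a91b9_nuT.S3
  Pool.Agent.Lib.MP_1a91b9_nuT.Ell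

noncomputable section

variable {B : ValuationSubring ℂ} {q0 : Pg} {ex : Pg → ZMod 4} {kap : 𝓞 K} {T J : Finset Pg}

/-! ### The exponents -/

theorem bXB_one_empty (h0 : aa q0.1 = 1) (x : 𝓞 K) : bXB q0 ex 1 ∅ x = 2 * c4 q0 x := by
  rw [bXB, e0XB, hh_one, Finset.sum_empty, Finset.sum_empty, add_zero, add_zero]
  have key : ∀ n c : ZMod 4, md n = 1 → -(2 * n) * c = 2 * c := by decide
  exact key _ _ h0

theorem bXB_zero_empty (q0 : Pg) (x : 𝓞 K) : bXB q0 ex 0 ∅ x = 0 := by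
  rw [bXB, e0XB, hh_zero, Finset.sum_empty, Finset.sum_empty, add_zero, add_zero, zero_mul, neg_zero,
    zero_mul]

/-- the exponent for `h = 1` -/
theorem bXB_one (h0 : aa q0.1 = 1) (T : Finset Pg) (x : 𝓞 K) :
    bXB q0 ex 1 T x = bXB q0 ex 0 T x + 2 * c4 q0 x := by
  rw [bXB, bXB, e0XB, e0XB, hh_one, hh_zero, zero_add]
  have key : ∀ n c : ZMod 4, md n = 1 → -(2 * n) * c = 2 * c := by decide
  linear_combination key _ (c4 q0 x) h0

/-- the block character of a union -/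
theorem bXB_add (q0 : Pg) (ex : Pg → ZMod 4) {T A : Finset Pg} (hd : Disjoint T A) (h : ZMod 2)
    (x : 𝓞 K) : bXB q0 ex h (T ∪ A) x = bXB q0 ex h T x + bXB q0 ex 0 A x := by
  rw [bXB, bXB, bXB, e0XB, e0XB, e0XB, hh_zero, Finset.sum_union hd, Finset.sum_union hd]
  ring

/-- the block character of a set is additive -/
theorem bXB_sum (q0 : Pg) (ex : Pg → ZMod 4) (A : Finset Pg) (x : 𝓞 K) :
    bXB q0 ex 0 A x = ∑ p ∈ A, bXB q0 ex 0 {p} x := by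
  induction A using Finset.induction_on with
  | empty => rw [bXB_zero_empty, Finset.sum_empty]
  | insert p A hp ih =>
    rw [Finset.sum_insert hp, ← ih, Finset.insert_eq, bXB_add q0 ex
      (Finset.disjoint_singleton_left.2 hp)]

theorem bXB_singleton (q0 : Pg) (ex : Pg → ZMod 4) (p : Pg) (x : 𝓞 K) :
    bXB q0 ex 0 {p} x = ex p * c4 p x - ex p * nn p.1 * nn q0.1 * c4 q0 x := by
  rw [bXB, e0XB, hh_zero, Finset.sum_singleton, Finset.sum_singleton]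
  ring

/-! ### The constant function -/

/-- the sum of the characters of a set which is not empty -/
theorem FXB_one (h0 : aa q0.1 = 1) (hk : IsCoprime kap (q0.1 * DDq J)) (hq : q0 ∉ J) (hT : T ⊆ J)
    (hT' : T.Nonempty) (he : ∀ q ∈ T, ex q ≠ 0) : FXB q0 ex kap (fun _ => 1) T J = 0 := by
  obtain ⟨p, hp⟩ := hT'
  obtain ⟨y, hy1, hy2⟩ := exists_c4 p 1
  obtain ⟨u, -, hu1, hu2⟩ := exists_unit4 (insert q0 J) p y
  have hpJ := hT hp
  have hpq : q0 ≠ p := fun h => hq (h ▸ hpJ)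
  have hup : ¬ p.1 ∣ u := fun h => by
    have h1 := dvd_sub h hu2
    have e : u - (u - y) = y := by ring
    rw [e] at h1
    exact hy1 h1
  have hnd : ∀ q ∈ insert q0 J, q ≠ p → ¬ q.1 ∣ u := fun q hq hne h => by
    have h1 := dvd_sub h (hu1 q hq hne)
    have e : u - (u - 1) = 1 := by ring
    rw [e] at h1
    exact q.prime.not_isUnit (isUnit_of_dvd_one h1)
  have hc : ∀ q ∈ insert q0 J, q ≠ p → c4 q u = 0 := fun q hq hne => by
    rw [c4_congr q (hnd q hq hne) (hu1 q hq hne), c4_one]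
  have hcop : IsCoprime u (q0.1 * DDq J) := by
    refine cop_qD.2 ⟨hnd q0 (Finset.mem_insert_self _ _) hpq, fun q hqJ => ?_⟩
    by_cases hne : q = p
    · rw [hne]
      exact hup
    · exact hnd q (Finset.mem_insert_of_mem hqJ) hne
  have hb : bkB q0 ex 0 T u = ex p := by
    rw [bkB, hc q0 (Finset.mem_insert_self _ _) hpq, mul_zero, sub_zero,
      Finset.sum_eq_single p (fun q hqT hne => by
        rw [hc q (Finset.mem_insert_of_mem (hT hqT)) hne, mul_zero])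
        (fun h => absurd hp h), c4_congr p hup hu2, hy2, mul_one]
  have h1 := FXB_scale (ex := ex) h0 hk hcop hT PdL_one Wt_one
  rw [hb] at h1
  have h2 : (1 - e4 (-ex p)) * FXB q0 ex kap (fun _ => 1) T J = 0 := by
    linear_combination h1
  refine (mul_eq_zero.1 h2).resolve_left fun h3 => ?_
  have h4 : e4 (-ex p) = e4 0 := by
    rw [e4_zero]
    linear_combination -h3
  exact he p hp (neg_eq_zero.1 (e4_inj h4))

/-- the number of the classes -/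
theorem FXB_one_empty (h0 : aa q0.1 = 1) (hk : IsCoprime kap (q0.1 * DDq J)) (hq : q0 ∉ J) :
    FXB q0 ex kap (fun _ => 1) ∅ J = n0 q0 kap * ∏ q ∈ J, ((Nz q.1 : ℂ) - 1) := by
  rw [FXB_empty]
  exact FX_one_empty h0 hk hq

/-! ### Affine functions of `X` -/

theorem FXB_add (f f' : ℂ → ℂ) : FXB q0 ex kap (fun z => f z + f' z) T J =
    FXB q0 ex kap f T J + FXB q0 ex kap f' T J := GX_fadd _ _ _

theorem FXB_smul (c : ℂ) (f : ℂ → ℂ) : FXB q0 ex kap (fun z => c * f z) T J =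
    c * FXB q0 ex kap f T J := GX_fcmul _ _ _

theorem FXB_aff (a b : ℂ) (f : ℂ → ℂ) : FXB q0 ex kap (fun z => a * f z + b) T J =
    a * FXB q0 ex kap f T J + b * FXB q0 ex kap (fun _ => 1) T J := by
  have h1 := FXB_smul (q0 := q0) (ex := ex) (kap := kap) (T := T) (J := J) a f
  have h2 := FXB_smul (q0 := q0) (ex := ex) (kap := kap) (T := T) (J := J) b fun _ => 1
  have h3 := FXB_add (q0 := q0) (ex := ex) (kap := kap) (T := T) (J := J) (fun z => a * f z)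
    fun _ => b * 1
  rw [mul_one] at h2 h3
  rw [h3, h1, h2]

/-- the sum of `xi (w z)` -/
theorem FXB_xi (w : ℂ) : FXB q0 ex kap (fun z => xi (w * z)) T J =
    (2 * rh)⁻¹ * FXB q0 ex kap (fun z => X (w * z)) T J - FXB q0 ex kap (fun _ => 1) T J / 2 := by
  have h : (fun z => xi (w * z)) = fun z => (2 * rh)⁻¹ * X (w * z) + (-1 / 2) := by
    funext z
    exact xi_aff w z
  rw [h, FXB_aff]
  ring

theorem FXB_xi_one : FXB q0 ex kap xi T J = (2 * rh)⁻¹ * FXB q0 ex kap X T J -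
    FXB q0 ex kap (fun _ => 1) T J / 2 := by
  have h := FXB_xi (q0 := q0) (ex := ex) (kap := kap) (T := T) (J := J) 1
  simp only [one_mul] at h
  exact h

/-! ### The sums of `X` -/

/-- the sums of `X` -/
def XXB (q0 : Pg) (ex : Pg → ZMod 4) (T J : Finset Pg) : ℂ := FXB q0 ex (f4 0) X T J

/-- the sums of `xi` -/
def HHB (q0 : Pg) (ex : Pg → ZMod 4) (T J : Finset Pg) : ℂ := FXB q0 ex (f4 0) xi T J

theorem XXB_step (h0 : aa q0.1 = 1) {q : Pg} (hT : T ⊆ J) (hqJ : q ∉ J) (hq0 : q0 ∉ insert q J) :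
    XXB q0 ex T (insert q J) = (em q.1 ^ 2 - e4 (bXB q0 ex 1 T q.1)) * XXB q0 ex T J := by
  have hne : q ≠ q0 := fun h => hq0 (h ▸ Finset.mem_insert_self _ _)
  rw [XXB, XXB, bXB_bkB, hh_one,
    FXB_insert h0 (cop_f4 0 q0 _) hT hqJ hne PdL_X Wt_X (TrF_X q)]

/-- **The exact Euler factors** -/
theorem XXB_prod (h0 : aa q0.1 = 1) (hT : T ⊆ J) (hq0 : q0 ∉ J) :
    XXB q0 ex T J = (∏ q ∈ J \ T, (em q.1 ^ 2 - e4 (bXB q0 ex 1 T q.1))) * XXB q0 ex T T := by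
  rw [XXB, XXB, FXB_prod h0 PdL_X Wt_X (fun q => em q.1 ^ 2) TrF_X hT hq0 (cop_f4 0 q0 J)]
  congr 1
  exact Finset.prod_congr rfl fun q _ => by rw [bXB_bkB, hh_one]

theorem bkB_pow (r : ZMod 4) {x : 𝓞 K} (hx : IsCoprime x (q0.1 * DDq J)) (hT : T ⊆ J) (n : ℕ) :
    bkB q0 ex r T (x ^ n) = n * bkB q0 ex r T x := by
  have h1 := cop_qD.1 hx
  rw [bkB, bkB, c4_pow q0 h1.1, Finset.sum_congr rfl fun p hp => by
    rw [c4_pow p (h1.2 p (hT hp)) n]]
  rw [mul_sub, Finset.mul_sum]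
  congr 1
  · exact Finset.sum_congr rfl fun p _ => by ring
  · ring

/-- the sum of `X (lam ^ n z)` -/
theorem FXB_X_lam (h0 : aa q0.1 = 1) (hT : T ⊆ J) (n : ℕ) :
    FXB q0 ex (f4 0) (fun z => X (lm ^ n * z)) T J =
      e4 (-(n * bXB q0 ex 1 T lam)) * XXB q0 ex T J := by
  have h1 := FXB_scale (ex := ex) h0 (cop_f4 0 q0 J) (cop_lam q0 J n) hT PdL_X Wt_X
  have h2 : em (lam ^ n) = lm ^ n := by rw [em_pow, em_lam]
  have h3 := bkB_pow (q0 := q0) (ex := ex) (J := J) (T := T) 2 (x := lam) (by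
    have h := cop_lam q0 J 1
    rwa [pow_one] at h) hT n
  rw [h2, h3] at h1
  rw [bXB_bkB, hh_one]
  exact h1

/-- the expansion of the weighted sum of `X (lam ^ n z)` -/
theorem GX_wB_X_lam (h0 : aa q0.1 = 1) (n : ℕ) :
    GX q0 (f4 0) (wB ex J) (fun z => X (lm ^ n * z)) J =
      ∑ T ∈ J.powerset, (-1) ^ T.card * (e4 (-(n * bXB q0 ex 1 T lam)) * XXB q0 ex T J) := by
  rw [GX_wB]
  refine Finset.sum_congr rfl fun T hT => ?_
  rw [FXB_X_lam h0 (Finset.mem_powerset.1 hT)]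

/-- the expansion of the weighted sum of `X` -/
theorem GX_wB_X : GX q0 (f4 0) (wB ex J) X J =
    ∑ T ∈ J.powerset, (-1) ^ T.card * XXB q0 ex T J := by
  rw [GX_wB]
  rfl

theorem HHB_X (h0 : aa q0.1 = 1) (hq : q0 ∉ J) (hT : T ⊆ J) (hT' : T.Nonempty)
    (he : ∀ q ∈ T, ex q ≠ 0) : HHB q0 ex T J = (2 * rh)⁻¹ * XXB q0 ex T J := by
  rw [HHB, FXB_xi_one, FXB_one h0 (cop_f4 0 q0 J) hq hT hT' he, zero_div, sub_zero]
  rfl

theorem XXB_HHB_empty (q0 : Pg) (ex : Pg → ZMod 4) :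
    XXB q0 ex ∅ ∅ = rh * (n0 q0 (f4 0) + 2 * HHX q0 ∅ ∅) := by
  have h1 : FXB q0 ex (f4 0) (fun _ => 1) ∅ ∅ = n0 q0 (f4 0) := by
    rw [FXB, GX_SO, n0]
    refine SO_congr fun y _ => ?_
    rw [mul_one, chP, Finset.prod_empty]
  have h2 := FXB_xi_one (q0 := q0) (ex := ex) (kap := f4 0) (T := ∅) (J := ∅)
  have h3 : FXB q0 ex (f4 0) xi ∅ ∅ = HHX q0 ∅ ∅ := rfl
  rw [h1, h3] at h2
  rw [XXB, h2]
  have h := rh_ne
  field_simp
  ring

/-! ### Valuations -/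

theorem v_FXB_le {f : ℂ → ℂ} (hk : ∀ q : Pg, ¬ q.1 ∣ kap) (hT : T ⊆ J)
    (hf : ∀ z, Od z → B.valuation (f z) ≤ 1) : B.valuation (FXB q0 ex kap f T J) ≤ 1 := by
  rw [FXB, GX_SO]
  refine v_SO_le fun y hy => ?_
  rw [map_mul, chP_of_not fun p hp => hy.ndk hk (hT hp), v_e4, one_mul]
  exact hf _ hy.od

theorem v_HHB_le (hB : (2 : ℂ)⁻¹ ∉ B) (hT : T ⊆ J) : B.valuation (HHB q0 ex T J) ≤ 1 :=
  v_FXB_le (f4_ndvd 0) hT fun _ hz => xi_le hB hz

theorem v_GX_xiB (hB : (2 : ℂ)⁻¹ ∉ B) (he : ∀ q ∈ J, ex q ≠ 0) (n : ℕ) :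
    B.valuation (GX q0 (f4 0) (wtB ex J) (fun z => xi (lm ^ n * z)) J) ≤ 1 :=
  v_GX_leB hB (f4_ndvd 0) he fun z hz => by
    refine xi_le hB ?_
    exact hz.pow n

/-- the sum of `X` for the trivial character -/
theorem Rt_XXB_empty (hB : (2 : ℂ)⁻¹ ∉ B) (h0 : aa q0.1 = 1) :
    Rt B (XXB q0 ex ∅ ∅ / rh) 1 := by
  rw [XXB_HHB_empty, mul_div_cancel_left₀ _ rh_ne]
  refine (Rt_n0 hB h0 (f4_ndvd 0)).congr ?_
  rw [add_sub_cancel_left, map_mul]
  exact mul_lt_one_of_lt_of_le (two_lt hB) (v_HHX_le hB (Finset.Subset.refl _))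

/-- the same modulo `2` -/
theorem v_XXB_empty (hB : (2 : ℂ)⁻¹ ∉ B) (h0 : aa q0.1 = 1) :
    B.valuation (XXB q0 ex ∅ ∅ / rh - 1) ≤ B.valuation 2 := by
  rw [XXB_HHB_empty, mul_div_cancel_left₀ _ rh_ne]
  have e : n0 q0 (f4 0) + 2 * HHX q0 ∅ ∅ - 1 = (n0 q0 (f4 0) - 1) + 2 * HHX q0 ∅ ∅ := by ring
  rw [e]
  refine (Valuation.map_add _ _ _).trans (max_le (v_n0_sub h0 (f4_ndvd 0)) ?_)
  rw [map_mul]
  exact (mul_le_mul' le_rfl (v_HHX_le hB (Finset.Subset.refl _))).trans (by rw [mul_one])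

end

end Pool.Agent.Lib.MP_1a91b9_ntQ
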