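import Pool.Agent.Lib.MP_1a91b9_ntQ.A.ClmE

/-!
# Quartic twists, all fourth-power-free `D`, file SyX: the data of the class (X), `k = 0`

Section 4 of the page on the class (X) with primes of exponent two. `M T A` are the values with the weights
`e b - x T b ∏ sgz (s b a)`, `Y T A` the values of the function `1 + 2 ξ` with the weights `eX b - xX T b ∏ sgz (s b a)`,
`UxY T A` is the multiple of `Y T A` which is subtracted.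
-/

set_option autoImplicit false
set_option linter.unusedSectionVars false

namespace Pool.Agent.Lib.MP_1a91b9_ntQ

open Finset MvPolynomial

noncomputable section

variable {ι : Type*} [DecidableEq ι]

/-- the multiple of `Y T A` which is subtracted from `M T A` -/
def UxY (l : ℂ) (Y : Finset ι → Finset ι → ℂ) (Ef ch : Finset ι → ℂ) (lb : ι → ZMod 2)
    (T A : Finset ι) : ℂ :=
  l ^ 4 / 2 * Y T A * (Ef T - ch T * ∏ b ∈ A, sgz (lb b))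

/-- the data of the class (X), `k = 0` -/
structure SyX (B : ValuationSubring ℂ) (l : ℂ) (M Y : Finset ι → Finset ι → ℂ) (e eX : ι → ℂ)
    (x xX : Finset ι → ι → ℂ) (Ef ch : Finset ι → ℂ) (sg : ι → ℂ) (s : ι → ι → ZMod 2)
    (a s0 bb lb : ι → ZMod 2) (h : ZMod 2) (S0 B0 : Finset ι) : Prop where
  /-- the weights of `M` -/
  hM : SyB B l 1 M e x s 0 S0 B0
  /-- the weights of `Y` -/
  hX : SyB B l 1 Y eX xX s 0 S0 B0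
  /-- `χ^(1) = ± χ^(h)` -/
  xrel : ∀ T ⊆ S0, ∀ b ∈ (S0 ∪ B0) \ T, xX T b = sg b * x T b
  sgB : ∀ b ∈ B0, sg b = 1
  sgS : ∀ b ∈ S0, Rt B ((sg b - 1) / l) 0
  /-- `b ^ 2 - b = l ^ 3 a_b` -/
  cB : ∀ b ∈ B0, Rt B ((eX b - e b) / l ^ 3) (a b)
  cS : ∀ b ∈ S0, Rt B ((eX b - sg b * e b) / l ^ 2) ((1 + h) * s0 b)
  s0B : ∀ b ∈ B0, s0 b = 0
  ch1 : ∀ T ⊆ S0, Rt B (ch T) 1
  /-- the coefficient `c_h(be T) / l` -/
  chE : ∀ T ⊆ S0, Rt B ((Ef T - ch T) / l) (h + ∑ p ∈ T, bb p)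
  fM : ∀ b ∈ B0, Rt B ((e b - x ∅ b) / l ^ 3) (a b)
  fX : ∀ b ∈ S0 ∪ B0, Rt B ((eX b - xX ∅ b) / l ^ 2) (s0 b)
  fXB : ∀ b ∈ B0, Rt B ((eX b - xX ∅ b) / l ^ 3) 0
  Y0 : Rt B (Y ∅ ∅) 1
  M0 : Rt B (M ∅ ∅ / l ^ 3) 1
  idY : ∀ T ⊆ S0, ∀ C ⊆ B0, (T ∪ C).Nonempty → Rt B (idB l 1 Y eX xX s 1 T C) 0
  idY2 : ∀ C ⊆ B0, C.Nonempty → idB l 1 Y eX xX s 2 ∅ C ∈ B
  /-- the terms of the empty set -/
  t1 : ∀ T ⊆ S0, T.Nonempty → Rt B ((M ∅ ∅ * ∏ b ∈ T, (e b - x ∅ b) -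
    UxY l Y Ef ch lb ∅ ∅ * ∏ b ∈ T, (eX b - xX ∅ b)) / l ^ (T.card + 5))
      (if T.card = 1 then ∑ b ∈ T, (a b + h * s0 b) else 0)
  idD : ∀ T ⊆ S0, T.Nonempty → ∀ C ⊆ B0, Rt B (idB l 1 M e x s 5 T C -
    idB l 1 (UxY l Y Ef ch lb) eX xX s 5 T C) 0
  idD0 : ∀ C ⊆ B0, C.Nonempty → idB l 1 M e x s 5 ∅ C -
    idB l 1 (UxY l Y Ef ch lb) eX xX s 5 ∅ C ∈ B

end

end Pool.Agent.Lib.MP_1a91b9_ntQ
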