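import Pool.Agent.Lib.MP_1a91b9_ntQ.A.Rhs0C
import Pool.Agent.Lib.MP_1a91b9_ntQ.B.HHB
import Pool.Agent.Lib.MP_1a91b9_ntQ.B.SyXB
import Pool.Agent.Lib.MP_1a91b9_ntQ.B.SyX

/-!
# Quartic twists, all fourth-power-free `D`, class (X), `k = 0`, file InXB: the data `SyX`

`LaM h q0 e T A` are the sums `MMB 0 h q0 e` (multiplied by `- rh` for `h = 1`), `LaY q0 e T A` the sums of
`X / rh = 1 + 2 ξ`.
-/

set_option autoImplicit false

namespace Pool.Agent.Lib.MP_1a91b9_ntQ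

open NumberField Pool.Agent.Lib.MP_1a91b9_nuT Pool.Agent.Lib.MP_1a91b9_nuT.S3
  Pool.Agent.Lib.MP_1a91b9_nuT.Ell

noncomputable section

/-- the constant -/
def cXh (h : ZMod 2) : ℂ := if h = 0 then 1 else -rh

/-- the values -/
def LaM (h : ZMod 2) (q0 : Pg) (e : Pg → ZMod 4) (T A : Finset Pg) : ℂ :=
  cXh h * LaX 0 h q0 e T A

/-- the sums of `1 + 2 ξ` -/
def LaY (q0 : Pg) (e : Pg → ZMod 4) (T A : Finset Pg) : ℂ := XXB q0 e (T ∪ A) (T ∪ A) / rh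

/-- `1 + lm (-1) ^ β` -/
def EfX (q0 : Pg) (e : Pg → ZMod 4) (T : Finset Pg) : ℂ := 1 + lm * e4 (2 * bXB q0 e 0 T lam)

/-- `1` or `1 + lm` -/
def dlX (h : ZMod 2) : ℂ := if h = 0 then 1 + lm else 1

/-- `(1 + (1 - h) lm) i ^ (-β)` -/
def chX (h : ZMod 2) (q0 : Pg) (e : Pg → ZMod 4) (T : Finset Pg) : ℂ :=
  dlX h * e4 (-bXB q0 e 0 T lam)

/-- the sign -/
def sgX (h : ZMod 2) (q0 : Pg) (b : Pg) : ℂ := sgz ((1 + h) * s4 q0 b)

variable {B : ValuationSubring ℂ} {q0 : Pg} {e : Pg → ZMod 4}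

theorem h_cases (h : ZMod 2) : h = 0 ∨ h = 1 := by
  have key : ∀ h : ZMod 2, h = 0 ∨ h = 1 := by decide
  exact key h

theorem one_ne_zero2 : (1 : ZMod 2) ≠ 0 := by decide

theorem cXh_zero : cXh 0 = 1 := if_pos rfl

theorem cXh_one : cXh 1 = -rh := if_neg one_ne_zero2

theorem dlX_zero : dlX 0 = 1 + lm := if_pos rfl

theorem dlX_one : dlX 1 = 1 := if_neg one_ne_zero2

theorem th4_0 (x : 𝓞 K) : th4 0 x = 1 := by rw [th4, zero_mul, e4_zero]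

theorem eXs_0 : eXs 0 = fun b : Pg => em b.1 := by
  funext b
  rw [eXs, th4_0, one_mul]

/-! ### `SyB` for the two functions -/

theorem syM (hB : (2 : ℂ)⁻¹ ∉ B) (h0 : aa q0.1 = 1) (h : ZMod 2) {S0 B0 : Finset Pg}
    (hd : Disjoint S0 B0) (he : ∀ q ∈ S0, md (e q) ≠ 0) :
    SyB B lm 1 (LaM h q0 e) (fun b : Pg => em b.1) (xXs h q0 e) (nXB q0) 0 S0 B0 := by
  have h1 := syXB hB (k := 0) (Or.inl rfl) h0 h hd he 1
  rw [eXs_0] at h1
  exact ⟨h1.hB, h1.hl, h1.hl0, h1.hu, h1.dis, h1.fac, h1.one⟩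

theorem Rt_facY (hB : (2 : ℂ)⁻¹ ∉ B) (b : Pg) (t : ZMod 4) :
    Rt B ((em b.1 ^ 2 - e4 t) / lm) (md t) := by
  obtain ⟨y, hy⟩ := em_sq_sub_one b
  have e1 : (em b.1 ^ 2 - e4 t) / lm = lm ^ 4 * em y + (1 - e4 t) / lm := by
    have hl := lm_ne
    field_simp
    linear_combination hy
  rw [e1, ← zero_add (md t)]
  refine Rt.add hB (Rt.of_lt ?_) (Rt_e4 hB _)
  rw [map_mul, map_pow]
  exact mul_lt_one_of_lt_of_le (pow_lt_one₀ zero_le (v_lm_lt hB) (by norm_num)) (v_em y)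

theorem syY (hB : (2 : ℂ)⁻¹ ∉ B) (h0 : aa q0.1 = 1) {S0 B0 : Finset Pg}
    (hd : Disjoint S0 B0) (he : ∀ q ∈ S0, md (e q) ≠ 0) :
    SyB B lm 1 (LaY q0 e) (fun b : Pg => em b.1 ^ 2) (xXs 1 q0 e) (nXB q0) 0 S0 B0 := by
  have h1 := syXB hB (k := 0) (Or.inl rfl) h0 1 hd he 1
  refine ⟨h1.hB, h1.hl, h1.hl0, h1.hu, h1.dis, fun T hT b _ => ?_, h1.one⟩
  have e0 : (0 : Pg → ZMod 2) b = 0 := rfl
  rw [e0, zero_add, ← md_bXB h0 1 (fun q hq => he q (hT hq))]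
  exact Rt_facY hB b _

/-! ### Symbols at `lam` -/

theorem two_c4_lam (hl0 : bb q0.1 = 0) : 2 * c4 q0 lam = 0 := by
  have h1 := c2_lam q0
  rw [hl0] at h1
  have key : ∀ t : ZMod 4, md t = 0 → 2 * t = 0 := by decide
  exact key _ h1

theorem md_c4_lam (hl0 : bb q0.1 = 0) : md (c4 q0 lam) = 0 := by
  have h1 := c2_lam q0
  rw [hl0] at h1
  exact h1

theorem bXB_one_lam (h0 : aa q0.1 = 1) (hl0 : bb q0.1 = 0) (T : Finset Pg) :
    bXB q0 e 1 T lam = bXB q0 e 0 T lam := by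
  rw [bXB_one h0, two_c4_lam hl0, add_zero]

/-- the parity of the exponent at `lam` -/
theorem md_bXB_lam (hl0 : bb q0.1 = 0) {T : Finset Pg} (he : ∀ p ∈ T, md (e p) ≠ 0) :
    md (bXB q0 e 0 T lam) = ∑ p ∈ T, bb p.1 := by
  rw [bXB, map_add, map_mul, md_c4_lam hl0, mul_zero, zero_add, map_sum]
  refine Finset.sum_congr rfl fun p hp => ?_
  rw [map_mul, md_one_of (he p hp), one_mul]
  exact c2_lam p

/-- the block of a union at `lam` -/
theorem bXB_union_lam (hl0 : bb q0.1 = 0) {T A : Finset Pg} (hd : Disjoint T A)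
    (he : ∀ a ∈ A, e a = 2) :
    e4 (-bXB q0 e 0 (T ∪ A) lam) = e4 (-bXB q0 e 0 T lam) * ∏ b ∈ A, sgz (bb b.1) ∧
      e4 (2 * bXB q0 e 0 (T ∪ A) lam) = e4 (2 * bXB q0 e 0 T lam) := by
  have h1 := bXB_union q0 e 0 hd he lam
  obtain ⟨s, hs⟩ : ∃ s, s = ∑ a ∈ A, (-(nn a.1 * nn q0.1 * c4 q0 lam) + c4 a lam) := ⟨_, rfl⟩
  rw [← hs] at h1
  have k1 : ∀ b s : ZMod 4, -(b + 2 * s) = -b + 2 * s := by decide
  have k2 : ∀ b s : ZMod 4, 2 * (b + 2 * s) = 2 * b := by decide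
  refine ⟨?_, by rw [h1, k2]⟩
  rw [h1, k1, e4_add, hs, Finset.mul_sum, e4_sum]
  congr 1
  refine Finset.prod_congr rfl fun a _ => ?_
  rw [e4_two_sgz]
  congr 1
  have hneg : ∀ x : ZMod 2, -x = x := by decide
  rw [map_add, map_neg, map_mul, md_c4_lam hl0, mul_zero, neg_zero, zero_add]
  exact c2_lam a

/-! ### The total identities -/

/-- the total identity depends only on the values at the subsets -/
theorem idB_congr {ι : Type*} [DecidableEq ι] {l K : ℂ} {La La' : Finset ι → Finset ι → ℂ}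
    {ee : ι → ℂ} {x : Finset ι → ι → ℂ} {s : ι → ι → ZMod 2} {n : ℕ} {T C : Finset ι}
    (h : ∀ T' ⊆ T, ∀ A ⊆ C, La T' A = La' T' A) :
    idB l K La ee x s n T C = idB l K La' ee x s n T C := by
  rw [idB, idB]
  congr 1
  refine Finset.sum_congr rfl fun T' hT' => ?_
  congr 1
  refine Finset.sum_congr rfl fun A hA => ?_
  rw [h T' (Finset.mem_powerset.1 hT') A (Finset.mem_powerset.1 hA)]

/-- the total identity for a multiple of the sums of `X` -/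
theorem idXX_eq (h0 : aa q0.1 = 1) (K : ℂ) (n : ℕ) (f : Finset Pg → ℂ) {T C : Finset Pg}
    (hd : Disjoint T C) (hC : ∀ q ∈ C, e q = 2) (hq : q0 ∉ T ∪ C) :
    idB lm K (fun T A => f (T ∪ A) * XXB q0 e (T ∪ A) (T ∪ A)) (fun b : Pg => em b.1 ^ 2)
        (xXs 1 q0 e) (nXB q0) n T C =
      (∑ R ∈ (T ∪ C).powerset, (-1) ^ R.card * (f R * XXB q0 e R (T ∪ C))) /
        (K * lm ^ (T.card + 2 * C.card + n)) := by
  classical
  rw [idB, sum_powerset_union hd]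
  congr 1
  refine Finset.sum_congr rfl fun T' hT' => ?_
  rw [Finset.mul_sum]
  refine Finset.sum_congr rfl fun A hA => ?_
  rw [Finset.mem_powerset] at hT' hA
  have hd' : Disjoint T' A := Finset.disjoint_of_subset_left hT'
    (Finset.disjoint_of_subset_right hA hd)
  have e1 : (T ∪ C) \ (T' ∪ A) = (T \ T') ∪ (C \ A) := by
    ext q
    simp only [Finset.mem_sdiff, Finset.mem_union]
    have h1 : q ∈ T → q ∉ C := fun h => Finset.disjoint_left.1 hd h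
    have h2 : q ∈ T' → q ∈ T := fun h => hT' h
    have h3 : q ∈ A → q ∈ C := fun h => hA h
    tauto
  have e2 : ∏ b ∈ (T \ T') ∪ (C \ A), fcB (fun b : Pg => em b.1 ^ 2) (xXs 1 q0 e) (nXB q0) T' A b =
      ∏ q ∈ (T \ T') ∪ (C \ A), (em q.1 ^ 2 - e4 (bXB q0 e 1 (T' ∪ A) q.1)) := by
    refine Finset.prod_congr rfl fun b _ => ?_
    rw [fcB, ← xXs_union h0 e 1 hd' (fun a ha => hC a (hA ha))]
    rfl
  rw [Finset.card_union_of_disjoint hd', pow_add, mul_assoc, e2,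
    XXB_prod h0 (Finset.union_subset_union hT' hA) hq, e1]
  ring

theorem idY_eq (h0 : aa q0.1 = 1) (n : ℕ) {T C : Finset Pg}
    (hd : Disjoint T C) (hC : ∀ q ∈ C, e q = 2) (hq : q0 ∉ T ∪ C) :
    idB lm 1 (LaY q0 e) (fun b : Pg => em b.1 ^ 2) (xXs 1 q0 e) (nXB q0) n T C =
      GX q0 (f4 0) (wB e (T ∪ C)) X (T ∪ C) / rh / lm ^ (T.card + 2 * C.card + n) := by
  have h1 := idXX_eq h0 1 n (fun _ => rh⁻¹) hd hC hq
  have h2 : (fun T A : Finset Pg => rh⁻¹ * XXB q0 e (T ∪ A) (T ∪ A)) = LaY q0 e := by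
    funext T A
    rw [LaY]
    ring
  rw [h2] at h1
  rw [h1, GX_wB_X, one_mul]
  congr 1
  rw [Finset.sum_div]
  exact Finset.sum_congr rfl fun R _ => by ring

theorem idM_eq (h0 : aa q0.1 = 1) (h : ZMod 2) (n : ℕ) {T C : Finset Pg}
    (hd : Disjoint T C) (hC : ∀ q ∈ C, e q = 2) (hq : q0 ∉ T ∪ C) :
    idB lm 1 (LaM h q0 e) (fun b : Pg => em b.1) (xXs h q0 e) (nXB q0) n T C =
      cXh h * GX q0 (f4 0) (wB e (T ∪ C)) (fun z => UX 0 h (X z)) (T ∪ C) /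
        lm ^ (T.card + 2 * C.card + n) := by
  have h1 := idX_eq (k := 0) (Or.inl rfl) h0 h (e := e) 1 n hd hC hq
  rw [eXs_0, one_mul] at h1
  rw [mul_div_assoc, ← h1, idB, idB, ← mul_div_assoc, Finset.mul_sum]
  congr 1
  refine Finset.sum_congr rfl fun T' _ => ?_
  rw [Finset.mul_sum, Finset.mul_sum, Finset.mul_sum]
  refine Finset.sum_congr rfl fun A _ => ?_
  rw [LaM]
  ring

/-- the coefficient -/
def ccX (h : ZMod 2) (q0 : Pg) (e : Pg → ZMod 4) (R : Finset Pg) : ℂ :=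
  lm ^ 4 / (2 * rh) * (1 + lm * e4 (2 * bXB q0 e 0 R lam) - dlX h * e4 (-bXB q0 e 0 R lam))

theorem idU_eq (h0 : aa q0.1 = 1) (hl0 : bb q0.1 = 0) (h : ZMod 2) (n : ℕ) {T C : Finset Pg}
    (hd : Disjoint T C) (hC : ∀ q ∈ C, e q = 2) (hq : q0 ∉ T ∪ C) :
    idB lm 1 (UxY lm (LaY q0 e) (EfX q0 e) (chX h q0 e) fun b => bb b.1) (fun b : Pg => em b.1 ^ 2)
        (xXs 1 q0 e) (nXB q0) n T C =
      lm ^ 4 / (2 * rh) * (GX q0 (f4 0) (wB e (T ∪ C)) X (T ∪ C) +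
        lm * GX q0 (f4 0) (wB e (T ∪ C)) (fun z => X (lm ^ 2 * z)) (T ∪ C) -
        dlX h * GX q0 (f4 0) (wB e (T ∪ C)) (fun z => X (lm ^ 1 * z)) (T ∪ C)) /
        lm ^ (T.card + 2 * C.card + n) := by
  have hr := rh_ne
  have h2 : idB lm 1 (UxY lm (LaY q0 e) (EfX q0 e) (chX h q0 e) fun b => bb b.1)
      (fun b : Pg => em b.1 ^ 2) (xXs 1 q0 e) (nXB q0) n T C =
      idB lm 1 (fun T A => ccX h q0 e (T ∪ A) * XXB q0 e (T ∪ A) (T ∪ A))
      (fun b : Pg => em b.1 ^ 2) (xXs 1 q0 e) (nXB q0) n T C := by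
    refine idB_congr fun T' hT' A hA => ?_
    have hd' : Disjoint T' A := Finset.disjoint_of_subset_left hT'
      (Finset.disjoint_of_subset_right hA hd)
    obtain ⟨a1, a2⟩ := bXB_union_lam (e := e) hl0 hd' fun a ha => hC a (hA ha)
    rw [UxY, ccX, a1, a2, LaY, EfX, chX]
    field_simp
  rw [h2, idXX_eq h0 1 n (ccX h q0 e) hd hC hq, one_mul]
  congr 1
  rw [GX_wB_X, GX_wB_X_lam h0, GX_wB_X_lam h0, Finset.mul_sum, Finset.mul_sum,
    ← Finset.sum_add_distrib, ← Finset.sum_sub_distrib, Finset.mul_sum]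
  refine Finset.sum_congr rfl fun R _ => ?_
  have k1 : ∀ b : ZMod 4, -(((1 : ℕ) : ZMod 4) * b) = -b := by decide
  have k2 : ∀ b : ZMod 4, -(((2 : ℕ) : ZMod 4) * b) = 2 * b := by decide
  rw [bXB_one_lam h0 hl0, k1, k2, ccX]
  ring

/-! ### The weights -/

theorem exp_ne {e : Pg → ZMod 4} {T C : Finset Pg} (he : ∀ q ∈ T, md (e q) ≠ 0)
    (hC : ∀ q ∈ C, e q = 2) : ∀ q ∈ T ∪ C, e q ≠ 0 := by
  intro q hq
  rcases Finset.mem_union.1 hq with h | h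
  · intro h1
    exact he q h (by rw [h1, md_zero])
  · rw [hC q h]
    decide

theorem mB_unionX {e : Pg → ZMod 4} {T C : Finset Pg} (hd : Disjoint T C)
    (hT : ∀ q ∈ T, md (e q) ≠ 0) (hC : ∀ q ∈ C, e q = 2) : mB e (T ∪ C) = T.card + 2 * C.card := by
  rw [mB, Finset.sum_union hd, Finset.sum_congr rfl fun q hq => if_neg (hT q hq),
    Finset.sum_congr rfl fun q hq => if_pos (by rw [hC q hq, md_two]), Finset.sum_const,
    Finset.sum_const, smul_eq_mul, smul_eq_mul, mul_one, mul_comm C.card]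

/-- the order of the sum of the weights -/
theorem sum_mqX {e : Pg → ZMod 4} {T C : Finset Pg} (hd : Disjoint T C)
    (hT : ∀ q ∈ T, md (e q) ≠ 0) (hC : ∀ q ∈ C, e q = 2) :
    ∑ q ∈ T ∪ C, (4 - mq (e q)) = 3 * T.card + 2 * C.card := by
  rw [Finset.sum_union hd, Finset.sum_congr rfl fun q hq => by rw [mq_odd (hT q hq)],
    Finset.sum_congr (s₁ := C) rfl fun q hq => by rw [hC q hq, mq_two md_two], Finset.sum_const,
    Finset.sum_const, smul_eq_mul, smul_eq_mul]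
  ring

/-- the weighted sum of `X / rh` -/
theorem GX_X_rh {J : Finset Pg} : GX q0 (f4 0) (wtB e J) X J / rh =
    GX q0 (f4 0) (wtB e J) (fun _ => 1) J + 2 * GX q0 (f4 0) (wtB e J) xi J := by
  have h1 : X = fun z => rh * (1 + 2 * xi z) := by
    funext z
    exact X_xi z
  have h2 := GX_fcmul (q0 := q0) (kap := f4 0) (J := J) rh (wtB e J) fun z => 1 + 2 * xi z
  have h3 := GX_fadd (q0 := q0) (kap := f4 0) (J := J) (wtB e J) (fun _ => 1) fun z => 2 * xi z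
  have h4 := GX_fcmul (q0 := q0) (kap := f4 0) (J := J) 2 (wtB e J) xi
  have e1 : GX q0 (f4 0) (wtB e J) X J = GX q0 (f4 0) (wtB e J) (fun z => rh * (1 + 2 * xi z)) J := by
    rw [← h1]
  rw [e1, h2, mul_div_cancel_left₀ _ rh_ne, h3, h4]

theorem v_pow_lt {n : ℕ} (hB : (2 : ℂ)⁻¹ ∉ B) (hn : 1 ≤ n) : B.valuation lm ^ n < 1 :=
  pow_lt_one₀ zero_le (v_lm_lt hB) (by omega)

/-- **the total identity for `Y`** -/
theorem idY_wt (h0 : aa q0.1 = 1) (n : ℕ) {T C : Finset Pg} (hd : Disjoint T C)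
    (he : ∀ q ∈ T, md (e q) ≠ 0) (hC : ∀ q ∈ C, e q = 2) (hq : q0 ∉ T ∪ C) :
    idB lm 1 (LaY q0 e) (fun b : Pg => em b.1 ^ 2) (xXs 1 q0 e) (nXB q0) n T C =
      (GX q0 (f4 0) (wtB e (T ∪ C)) (fun _ => 1) (T ∪ C) +
        2 * GX q0 (f4 0) (wtB e (T ∪ C)) xi (T ∪ C)) / lm ^ n := by
  rw [idY_eq h0 n hd hC hq, GX_wtB, ← GX_X_rh, mB_unionX hd he hC,
    pow_add lm (T.card + 2 * C.card) n]
  have h1 := pow_ne_zero (T.card + 2 * C.card) lm_ne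
  have h2 := pow_ne_zero n lm_ne
  have h3 := rh_ne
  field_simp

theorem Rt_idY (hB : (2 : ℂ)⁻¹ ∉ B) (h0 : aa q0.1 = 1) {T C : Finset Pg} (hd : Disjoint T C)
    (he : ∀ q ∈ T, md (e q) ≠ 0) (hC : ∀ q ∈ C, e q = 2) (hq : q0 ∉ T ∪ C)
    (hne : (T ∪ C).Nonempty) :
    Rt B (idB lm 1 (LaY q0 e) (fun b : Pg => em b.1 ^ 2) (xXs 1 q0 e) (nXB q0) 1 T C) 0 := by
  have hex := exp_ne he hC
  rw [idY_wt h0 1 hd he hC hq, pow_one]
  refine Rt.of_lt ?_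
  have hl0 := v_lm_pos (B := B)
  have hl1 := v_lm_lt (B := B) hB
  rw [map_div₀, div_lt_one₀ hl0]
  have h1 := v_GX_wtB_one (q0 := q0) (kap := f4 0) hB (f4_ndvd 0) hq hex
  rw [sum_mqX hd he hC] at h1
  have h2 : B.valuation lm ^ (3 * T.card + 2 * C.card) < B.valuation lm := by
    have h3 : 2 ≤ 3 * T.card + 2 * C.card := by
      have h4 := hne.card_pos
      rw [Finset.card_union_of_disjoint hd] at h4
      omega
    calc B.valuation lm ^ (3 * T.card + 2 * C.card) ≤ B.valuation lm ^ 2 :=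
          pow_le_pow_right_of_le_one' hl1.le h3
      _ < B.valuation lm := by
          rw [pow_two]
          exact mul_lt_of_lt_one_right hl0 hl1
  refine Valuation.map_add_lt _ (h1.trans_lt h2) ?_
  rw [map_mul]
  have h3 : B.valuation (GX q0 (f4 0) (wtB e (T ∪ C)) xi (T ∪ C)) ≤ 1 :=
    v_GX_leB hB (f4_ndvd 0) hex fun z hz => xi_le hB hz
  refine (mul_le_of_le_one_right' h3).trans_lt ?_
  rw [← v_lm_sq, pow_two]
  exact mul_lt_of_lt_one_right hl0 hl1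

theorem v_idY2 (hB : (2 : ℂ)⁻¹ ∉ B) (h0 : aa q0.1 = 1) {C : Finset Pg}
    (hC : ∀ q ∈ C, e q = 2) (hq : q0 ∉ C) (hne : C.Nonempty) :
    idB lm 1 (LaY q0 e) (fun b : Pg => em b.1 ^ 2) (xXs 1 q0 e) (nXB q0) 2 ∅ C ∈ B := by
  have hd : Disjoint (∅ : Finset Pg) C := Finset.disjoint_empty_left C
  have he : ∀ q ∈ (∅ : Finset Pg), md (e q) ≠ 0 := fun q hq => absurd hq (Finset.notMem_empty q)
  have hq' : q0 ∉ ∅ ∪ C := by rwa [Finset.empty_union]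
  have hex := exp_ne he hC
  have hl0 := v_lm_pos (B := B)
  have hl1 := v_lm_lt (B := B) hB
  rw [idY_wt h0 2 hd he hC hq', ← ValuationSubring.valuation_le_one_iff, map_div₀, map_pow,
    div_le_one₀ (pow_pos hl0 2)]
  have h1 := v_GX_wtB_one (q0 := q0) (kap := f4 0) hB (f4_ndvd 0) hq' hex
  rw [sum_mqX hd he hC] at h1
  refine (Valuation.map_add _ _ _).trans (max_le (h1.trans ?_) ?_)
  · refine pow_le_pow_right_of_le_one' hl1.le ?_
    have := hne.card_pos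
    omega
  · rw [map_mul, v_lm_sq]
    exact mul_le_of_le_one_right' (v_GX_leB hB (f4_ndvd 0) hex fun z hz => xi_le hB hz)

/-! ### The difference -/

/-- the constant -/
def KX (h : ZMod 2) : ℂ := if h = 0 then K0p 1 else K0m 1

/-- the error of the linear form -/
def erX (h : ZMod 2) (z : ℂ) : ℂ := cXh h * UX 0 h (X z) / lm ^ 3 - KX h -
  lm / (2 * rh) * (X z - dlX h * X (lm * z) + lm * X (lm ^ 2 * z))

theorem v_KX (h : ZMod 2) : B.valuation (KX h) ≤ 1 := by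
  rcases h_cases h with rfl | rfl
  · rw [KX, if_pos rfl, K0p, sub_self, mul_zero, mul_zero, sub_zero, map_one]
  · rw [KX, if_neg one_ne_zero2, K0m]
    have e1 : 1 - lm / 2 * (1 - 1 + lm) = 1 - zt := by
      linear_combination (-1 / 2) * lm_sq
    rw [e1]
    exact (Valuation.map_sub _ _ _).trans (max_le (map_one _).le (v_zt (B := B)).le)

theorem v_erX (hB : (2 : ℂ)⁻¹ ∉ B) (h : ZMod 2) {z : ℂ} (hz : Od z) :
    B.valuation (erX h z) < B.valuation lm ^ 2 := by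
  rcases h_cases h with rfl | rfl
  · have h1 := ev0p_X hB hz (Or.inl rfl)
    rw [erX, KX, if_pos rfl, dlX_zero, cXh_zero, one_mul]
    rw [one_mul] at h1
    have e1 : UX 0 0 (X z) = U0p (X z) := by rw [UX, if_pos rfl, if_pos rfl]
    rw [e1]
    exact h1
  · have h1 := ev0m_X hB hz (Or.inl rfl)
    rw [erX, KX, if_neg one_ne_zero2, dlX_one, cXh_one]
    have e1 : UX 0 1 (X z) = U0m (X z) := by rw [UX, if_pos rfl, if_neg one_ne_zero2]
    rw [e1]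
    exact h1

theorem cXh_UX (h : ZMod 2) (z : ℂ) : cXh h * UX 0 h (X z) = lm ^ 3 * (KX h * 1) +
    (lm ^ 4 / (2 * rh) * X z + (lm ^ 4 / (2 * rh) * (lm * X (lm ^ 2 * z)) +
      (lm ^ 4 / (2 * rh) * (-dlX h * X (lm ^ 1 * z)) + lm ^ 3 * erX h z))) := by
  have hr := rh_ne
  have hl := lm_ne
  rw [erX, pow_one]
  field_simp
  ring

/-- **the difference of the total identities** -/
theorem idD_eq (h0 : aa q0.1 = 1) (hl0 : bb q0.1 = 0) (h : ZMod 2) (n : ℕ) {T C : Finset Pg}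
    (hd : Disjoint T C) (he : ∀ q ∈ T, md (e q) ≠ 0) (hC : ∀ q ∈ C, e q = 2) (hq : q0 ∉ T ∪ C) :
    idB lm 1 (LaM h q0 e) (fun b : Pg => em b.1) (xXs h q0 e) (nXB q0) (n + 3) T C -
      idB lm 1 (UxY lm (LaY q0 e) (EfX q0 e) (chX h q0 e) fun b => bb b.1)
        (fun b : Pg => em b.1 ^ 2) (xXs 1 q0 e) (nXB q0) (n + 3) T C =
      (KX h * GX q0 (f4 0) (wtB e (T ∪ C)) (fun _ => 1) (T ∪ C) +
        GX q0 (f4 0) (wtB e (T ∪ C)) (erX h) (T ∪ C)) / lm ^ n := by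
  have hr := rh_ne
  have hl := lm_ne
  have g1 : cXh h * GX q0 (f4 0) (wB e (T ∪ C)) (fun z => UX 0 h (X z)) (T ∪ C) =
      lm ^ 3 * (KX h * GX q0 (f4 0) (wB e (T ∪ C)) (fun _ => 1) (T ∪ C)) +
      (lm ^ 4 / (2 * rh) * GX q0 (f4 0) (wB e (T ∪ C)) (fun z => X z) (T ∪ C) +
      (lm ^ 4 / (2 * rh) * (lm * GX q0 (f4 0) (wB e (T ∪ C)) (fun z => X (lm ^ 2 * z)) (T ∪ C)) +
      (lm ^ 4 / (2 * rh) * (-dlX h * GX q0 (f4 0) (wB e (T ∪ C)) (fun z => X (lm ^ 1 * z)) (T ∪ C)) +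
      lm ^ 3 * GX q0 (f4 0) (wB e (T ∪ C)) (erX h) (T ∪ C)))) := by
    rw [← GX_fcmul, ← GX_fcmul (c := KX h), ← GX_fcmul (c := lm ^ 3),
      ← GX_fcmul (c := lm ^ 4 / (2 * rh)), ← GX_fcmul (c := lm), ← GX_fcmul (c := lm ^ 4 / (2 * rh)),
      ← GX_fcmul (c := -dlX h), ← GX_fcmul (c := lm ^ 4 / (2 * rh)), ← GX_fcmul (c := lm ^ 3),
      ← GX_fadd, ← GX_fadd, ← GX_fadd, ← GX_fadd]
    congr 1
    funext z
    exact cXh_UX h z
  have g2 : GX q0 (f4 0) (wB e (T ∪ C)) (fun z => X z) (T ∪ C) =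
    GX q0 (f4 0) (wB e (T ∪ C)) X (T ∪ C) := rfl
  rw [idM_eq h0 h (n + 3) hd hC hq, idU_eq h0 hl0 h (n + 3) hd hC hq, g1, g2,
    GX_wtB (fun _ => 1), GX_wtB (erX h), mB_unionX hd he hC]
  have h1 : lm ^ (T.card + 2 * C.card + (n + 3)) = lm ^ (T.card + 2 * C.card) * lm ^ 3 * lm ^ n := by
    rw [mul_assoc, ← pow_add, ← pow_add, Nat.add_comm 3 n]
  rw [h1]
  have h2 := pow_ne_zero (T.card + 2 * C.card) lm_ne
  have h3 := pow_ne_zero n lm_ne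
  field_simp
  ring

theorem Rt_idD (hB : (2 : ℂ)⁻¹ ∉ B) (h0 : aa q0.1 = 1) (hl0 : bb q0.1 = 0) (h : ZMod 2)
    {T C : Finset Pg} (hd : Disjoint T C) (he : ∀ q ∈ T, md (e q) ≠ 0) (hC : ∀ q ∈ C, e q = 2)
    (hq : q0 ∉ T ∪ C) (hT : T.Nonempty) :
    Rt B (idB lm 1 (LaM h q0 e) (fun b : Pg => em b.1) (xXs h q0 e) (nXB q0) 5 T C -
      idB lm 1 (UxY lm (LaY q0 e) (EfX q0 e) (chX h q0 e) fun b => bb b.1)
        (fun b : Pg => em b.1 ^ 2) (xXs 1 q0 e) (nXB q0) 5 T C) 0 := by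
  have hex := exp_ne he hC
  have hl0' := v_lm_pos (B := B)
  have hl1 := v_lm_lt (B := B) hB
  rw [idD_eq h0 hl0 h 2 hd he hC hq]
  refine Rt.of_lt ?_
  rw [map_div₀, map_pow, div_lt_one₀ (pow_pos hl0' 2)]
  have h1 := v_GX_wtB_one (q0 := q0) (kap := f4 0) hB (f4_ndvd 0) hq hex
  rw [sum_mqX hd he hC] at h1
  refine Valuation.map_add_lt _ ?_ (v_GX_ltB hB (f4_ndvd 0) hex (pow_pos hl0' 2)
    fun z hz => v_erX hB h hz)
  rw [map_mul]
  refine (mul_le_of_le_one_left' (v_KX (B := B) h)).trans_lt (h1.trans_lt ?_)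
  refine pow_lt_pow_right_of_lt_one₀ hl0' hl1 ?_
  have := hT.card_pos
  omega

theorem v_idD0 (hB : (2 : ℂ)⁻¹ ∉ B) (h0 : aa q0.1 = 1) (hl0 : bb q0.1 = 0) (h : ZMod 2)
    {C : Finset Pg} (hC : ∀ q ∈ C, e q = 2) (hq : q0 ∉ C) (hne : C.Nonempty) :
    idB lm 1 (LaM h q0 e) (fun b : Pg => em b.1) (xXs h q0 e) (nXB q0) 5 ∅ C -
      idB lm 1 (UxY lm (LaY q0 e) (EfX q0 e) (chX h q0 e) fun b => bb b.1)
        (fun b : Pg => em b.1 ^ 2) (xXs 1 q0 e) (nXB q0) 5 ∅ C ∈ B := by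
  have hd : Disjoint (∅ : Finset Pg) C := Finset.disjoint_empty_left C
  have he : ∀ q ∈ (∅ : Finset Pg), md (e q) ≠ 0 := fun q hq => absurd hq (Finset.notMem_empty q)
  have hq' : q0 ∉ ∅ ∪ C := by rwa [Finset.empty_union]
  have hex := exp_ne he hC
  have hl0' := v_lm_pos (B := B)
  have hl1 := v_lm_lt (B := B) hB
  rw [idD_eq h0 hl0 h 2 hd he hC hq', ← ValuationSubring.valuation_le_one_iff, map_div₀, map_pow,
    div_le_one₀ (pow_pos hl0' 2)]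
  have h1 := v_GX_wtB_one (q0 := q0) (kap := f4 0) hB (f4_ndvd 0) hq' hex
  rw [sum_mqX hd he hC] at h1
  refine (Valuation.map_add _ _ _).trans (max_le ?_ ?_)
  · rw [map_mul]
    refine (mul_le_of_le_one_left' (v_KX (B := B) h)).trans (h1.trans ?_)
    refine pow_le_pow_right_of_le_one' hl1.le ?_
    have := hne.card_pos
    omega
  · exact (v_GX_ltB hB (f4_ndvd 0) hex (pow_pos hl0' 2) fun z hz => v_erX hB h hz).le

/-! ### The fields -/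

theorem Rt_lm (hB : (2 : ℂ)⁻¹ ∉ B) : Rt B lm 0 := Rt.of_lt (v_lm_lt hB)

theorem xXs_rel (h0 : aa q0.1 = 1) (h : ZMod 2) (T : Finset Pg) (b : Pg) :
    xXs 1 q0 e T b = sgX h q0 b * xXs h q0 e T b := by
  have e1 : e4 (2 * c4 q0 b.1) = sgz (s4 q0 b) := e4_two_sgz _
  rw [xXs, xXs, sgX]
  rcases h_cases h with rfl | rfl
  · rw [bXB_one h0, e4_add, e1, add_zero, one_mul, mul_comm]
  · have e2 : (1 : ZMod 2) + 1 = 0 := by decide
    rw [e2, zero_mul, sgz_zero, one_mul]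

theorem xXs_empty (h0 : aa q0.1 = 1) (h : ZMod 2) (b : Pg) :
    xXs h q0 e ∅ b = sgz (h * s4 q0 b) := by
  have e1 : e4 (2 * c4 q0 b.1) = sgz (s4 q0 b) := e4_two_sgz _
  rw [xXs]
  rcases h_cases h with rfl | rfl
  · rw [bXB_zero_empty, e4_zero, zero_mul, sgz_zero]
  · rw [bXB_one_empty h0, e1, one_mul]

theorem one_sub_sgz (y : ZMod 2) : (1 - sgz y) / lm ^ 2 = -zt * (y.val : ℂ) := by
  have hl := pow_ne_zero 2 lm_ne
  rcases h_cases y with rfl | rfl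
  · rw [sgz_zero, sub_self, zero_div, ZMod.val_zero, Nat.cast_zero, mul_zero]
  · rw [sgz_one, ZMod.val_one, Nat.cast_one, mul_one, div_eq_iff hl]
    linear_combination two_lm

theorem Rt_one_sub_sgz (hB : (2 : ℂ)⁻¹ ∉ B) (y : ZMod 2) : Rt B ((1 - sgz y) / lm ^ 2) y := by
  rw [one_sub_sgz]
  have h1 := ((Rt_ztX hB).neg hB).mul hB (Rt_val hB y)
  rwa [one_mul] at h1

theorem Rt_em (hB : (2 : ℂ)⁻¹ ∉ B) (b : Pg) : Rt B (em b.1) 1 := by
  have h1 := ((Rt_tq hB b).mul hB ((Rt_lm hB).pow hB 3)).add hB Rt.one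
  have e1 : (em b.1 - 1) / lm ^ 3 * lm ^ 3 + 1 = em b.1 := by
    rw [div_mul_cancel₀ _ (pow_ne_zero 3 lm_ne), sub_add_cancel]
  rw [e1, zero_pow three_ne_zero, mul_zero, zero_add] at h1
  exact h1

theorem Rt_em_one (hB : (2 : ℂ)⁻¹ ∉ B) (b : Pg) : Rt B ((em b.1 - 1) / lm ^ 2) 0 := by
  have h1 := (Rt_tq hB b).mul hB (Rt_lm hB)
  have e1 : (em b.1 - 1) / lm ^ 3 * lm = (em b.1 - 1) / lm ^ 2 := by
    have hl := lm_ne
    field_simp
  rwa [e1, mul_zero] at h1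

theorem Rt_em_sq_one (hB : (2 : ℂ)⁻¹ ∉ B) (b : Pg) : Rt B ((em b.1 ^ 2 - 1) / lm ^ 3) 0 := by
  obtain ⟨t, ht⟩ := em_sq_sub_one b
  have e1 : (em b.1 ^ 2 - 1) / lm ^ 3 = lm ^ 2 * em t := by
    have hl := lm_ne
    rw [ht]
    field_simp
  rw [e1]
  refine Rt.of_lt ?_
  rw [map_mul, map_pow]
  exact mul_lt_one_of_lt_of_le (pow_lt_one₀ zero_le (v_lm_lt hB) two_ne_zero) (v_em t)

/-- the Euler factor of the empty set -/
theorem Rt_fac_e (hB : (2 : ℂ)⁻¹ ∉ B) (b : Pg) (y : ZMod 2) :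
    Rt B ((em b.1 - sgz y) / lm ^ 2) y := by
  have h1 := (Rt_em_one hB b).add hB (Rt_one_sub_sgz hB y)
  rw [← add_div, sub_add_sub_cancel, zero_add] at h1
  exact h1

theorem Rt_fac_e2 (hB : (2 : ℂ)⁻¹ ∉ B) (b : Pg) (y : ZMod 2) :
    Rt B ((em b.1 ^ 2 - sgz y) / lm ^ 2) y := by
  have h1 : Rt B ((em b.1 ^ 2 - 1) / lm ^ 2) 0 := by
    have h2 := (Rt_em_sq_one hB b).mul hB (Rt_lm hB)
    have e1 : (em b.1 ^ 2 - 1) / lm ^ 3 * lm = (em b.1 ^ 2 - 1) / lm ^ 2 := by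
      have hl := lm_ne
      field_simp
    rwa [e1, zero_mul] at h2
  have h2 := h1.add hB (Rt_one_sub_sgz hB y)
  rw [← add_div, sub_add_sub_cancel, zero_add] at h2
  exact h2

/-- the value of `M` for the empty sets -/
theorem LaM_empty_zero (h0 : aa q0.1 = 1) : LaM 0 q0 e ∅ ∅ = em q0.1 - 1 := by
  rw [LaM, cXh_zero, one_mul, LaX, Finset.empty_union, MMB_empty (Or.inl rfl) h0, th4_0, one_mul]

theorem LaM_empty_one : LaM 1 q0 e ∅ ∅ = -rh * MM 0 1 q0 ∅ ∅ := by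
  rw [LaM, cXh_one, LaX, Finset.empty_union, MMB_empty_e]

theorem v_LaM_one (hB : (2 : ℂ)⁻¹ ∉ B) (h0 : aa q0.1 = 1) (hl0 : bb q0.1 = 0) :
    B.valuation (LaM 1 q0 e ∅ ∅ / lm ^ 3 - 1) ≤ B.valuation lm ^ 2 := by
  have h1 := v_Y0C (q0 := q0) hB h0
  rw [hl0, ZMod.val_zero, Nat.cast_zero, mul_zero, add_zero] at h1
  rw [LaM_empty_one]
  exact h1

theorem v_sq_lt (hB : (2 : ℂ)⁻¹ ∉ B) : B.valuation lm ^ 2 < B.valuation lm := by
  rw [pow_two]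
  exact mul_lt_of_lt_one_right v_lm_pos (v_lm_lt hB)

theorem Rt_M0 (hB : (2 : ℂ)⁻¹ ∉ B) (h0 : aa q0.1 = 1) (hl0 : bb q0.1 = 0) (h : ZMod 2) :
    Rt B (LaM h q0 e ∅ ∅ / lm ^ 3) 1 := by
  rcases h_cases h with rfl | rfl
  · rw [LaM_empty_zero h0, ← h0]
    exact Rt_tq hB q0
  · exact Rt.one.congr ((v_LaM_one hB h0 hl0).trans_lt
      ((v_sq_lt hB).trans (v_lm_lt hB)))

theorem LaY_empty_v (hB : (2 : ℂ)⁻¹ ∉ B) (h0 : aa q0.1 = 1) :
    B.valuation (LaY q0 e ∅ ∅ - 1) ≤ B.valuation lm ^ 2 := by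
  rw [LaY, Finset.empty_union, v_lm_sq]
  exact v_XXB_empty hB h0

theorem Rt_Y0 (hB : (2 : ℂ)⁻¹ ∉ B) (h0 : aa q0.1 = 1) : Rt B (LaY q0 e ∅ ∅) 1 :=
  Rt.one.congr ((LaY_empty_v hB h0).trans_lt ((v_sq_lt hB).trans (v_lm_lt hB)))

theorem Rt_chX (hB : (2 : ℂ)⁻¹ ∉ B) (h : ZMod 2) (T : Finset Pg) : Rt B (chX h q0 e T) 1 := by
  have h1 : Rt B (dlX h) 1 := by
    rcases h_cases h with rfl | rfl
    · rw [dlX_zero]
      have h2 := Rt.one.add hB (Rt_lm hB)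
      rwa [add_zero] at h2
    · rw [dlX_one]
      exact Rt.one
  have h2 := h1.mul hB (Rt_root hB (-bXB q0 e 0 T lam))
  rwa [one_mul] at h2

theorem Rt_chE (hB : (2 : ℂ)⁻¹ ∉ B) (hl0 : bb q0.1 = 0) (h : ZMod 2) {T : Finset Pg}
    (he : ∀ p ∈ T, md (e p) ≠ 0) :
    Rt B ((EfX q0 e T - chX h q0 e T) / lm) (h + ∑ p ∈ T, bb p.1) := by
  have hl := lm_ne
  have h1 := Rt_e4 hB (-bXB q0 e 0 T lam)
  have hneg : ∀ x : ZMod 2, -x = x := by decide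
  rw [map_neg, hneg, md_bXB_lam hl0 he] at h1
  have h2 := Rt_root hB (2 * bXB q0 e 0 T lam)
  have h3 := Rt_root hB (-bXB q0 e 0 T lam)
  rcases h_cases h with rfl | rfl
  · have e1 : (EfX q0 e T - chX 0 q0 e T) / lm = (1 - e4 (-bXB q0 e 0 T lam)) / lm +
        (e4 (2 * bXB q0 e 0 T lam) - e4 (-bXB q0 e 0 T lam)) := by
      rw [EfX, chX, dlX_zero]
      field_simp
      ring
    have h4 := h1.add hB (h2.sub hB h3)
    rw [sub_self, add_zero] at h4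
    rw [e1, zero_add]
    exact h4
  · have e1 : (EfX q0 e T - chX 1 q0 e T) / lm = (1 - e4 (-bXB q0 e 0 T lam)) / lm +
        e4 (2 * bXB q0 e 0 T lam) := by
      rw [EfX, chX, dlX_one]
      field_simp
      ring
    have h4 := h1.add hB h2
    rw [e1, add_comm (1 : ZMod 2)]
    exact h4

theorem EfX_empty : EfX q0 e ∅ = 1 + lm := by
  rw [EfX, bXB_zero_empty, mul_zero, e4_zero, mul_one]

theorem chX_empty (h : ZMod 2) : chX h q0 e ∅ = dlX h := by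
  rw [chX, bXB_zero_empty, neg_zero, e4_zero, mul_one]

/-- **the terms of the empty set** -/
theorem Rt_t1 (hB : (2 : ℂ)⁻¹ ∉ B) (h0 : aa q0.1 = 1) (hl0 : bb q0.1 = 0) (h : ZMod 2)
    {T : Finset Pg} (hT : T.Nonempty) :
    Rt B ((LaM h q0 e ∅ ∅ * ∏ b ∈ T, (em b.1 - xXs h q0 e ∅ b) -
      UxY lm (LaY q0 e) (EfX q0 e) (chX h q0 e) (fun b => bb b.1) ∅ ∅ *
        ∏ b ∈ T, (em b.1 ^ 2 - xXs 1 q0 e ∅ b)) / lm ^ (T.card + 5))
      (if T.card = 1 then ∑ b ∈ T, (aa b.1 + h * s4 q0 b) else 0) := by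
  have hl := lm_ne
  have hl0' := v_lm_pos (B := B)
  have hl1 := v_lm_lt (B := B) hB
  rcases h_cases h with rfl | rfl
  · have e1 : UxY lm (LaY q0 e) (EfX q0 e) (chX 0 q0 e) (fun b => bb b.1) ∅ ∅ = 0 := by
      rw [UxY, EfX_empty, chX_empty, dlX_zero, Finset.prod_empty, mul_one, sub_self, mul_zero]
    have e2 : ∏ b ∈ T, (em b.1 - xXs 0 q0 e ∅ b) =
        lm ^ (3 * T.card) * ∏ b ∈ T, ((em b.1 - 1) / lm ^ 3) := by
      rw [Finset.prod_div_distrib, Finset.prod_const, ← pow_mul,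
        mul_div_cancel₀ _ (pow_ne_zero _ hl)]
      exact Finset.prod_congr rfl fun b _ => by rw [xXs_empty h0, zero_mul, sgz_zero]
    obtain ⟨m, hm⟩ : ∃ m, T.card = m + 1 := ⟨T.card - 1, (Nat.succ_pred_eq_of_pos hT.card_pos).symm⟩
    have e3 : (LaM 0 q0 e ∅ ∅ * (lm ^ (3 * T.card) * ∏ b ∈ T, ((em b.1 - 1) / lm ^ 3)) - 0 *
        ∏ b ∈ T, (em b.1 ^ 2 - xXs 1 q0 e ∅ b)) / lm ^ (T.card + 5) =
        (LaM 0 q0 e ∅ ∅ / lm ^ 3) * (lm ^ (2 * m) * ∏ b ∈ T, ((em b.1 - 1) / lm ^ 3)) := by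
      rw [zero_mul, sub_zero, hm]
      have e4 : lm ^ (3 * (m + 1)) * lm ^ 3 = lm ^ (2 * m) * lm ^ (m + 1 + 5) := by
        rw [← pow_add, ← pow_add]
        congr 1
        ring
      have h1 := pow_ne_zero (m + 1 + 5) hl
      have h3 := pow_ne_zero 3 hl
      rw [div_mul_eq_mul_div, div_eq_div_iff h1 h3]
      linear_combination (LaM 0 q0 e ∅ ∅ * ∏ b ∈ T, ((em b.1 - 1) / lm ^ 3)) * e4
    rw [e1, e2, e3]
    have r1 : Rt B (∏ b ∈ T, ((em b.1 - 1) / lm ^ 3)) (∏ b ∈ T, aa b.1) :=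
      Rt.prod hB T fun b _ => Rt_tq hB b
    have r2 := (Rt_M0 (e := e) hB h0 hl0 0).mul hB (((Rt_lm hB).pow hB (2 * m)).mul hB r1)
    rw [one_mul] at r2
    by_cases hc : T.card = 1
    · rw [if_pos hc]
      have hm0 : m = 0 := by omega
      subst hm0
      obtain ⟨q, rfl⟩ := Finset.card_eq_one.1 hc
      rw [Finset.sum_singleton, zero_mul, add_zero]
      have e6 : ((0 : ZMod 2) ^ (2 * 0) * ∏ b ∈ ({q} : Finset Pg), aa b.1) = aa q.1 := by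
        rw [mul_zero, pow_zero, one_mul, Finset.prod_singleton]
      rwa [e6] at r2
    · rw [if_neg hc]
      rwa [zero_pow (by omega : 2 * m ≠ 0), zero_mul] at r2
  · obtain ⟨Y, hY⟩ : ∃ Y : ℂ, Y = LaM 1 q0 e ∅ ∅ / lm ^ 3 := ⟨_, rfl⟩
    obtain ⟨N, hN⟩ : ∃ N : ℂ, N = LaY q0 e ∅ ∅ := ⟨_, rfl⟩
    have hYv := v_LaM_one (e := e) hB h0 hl0
    have hNv := LaY_empty_v (e := e) hB h0
    rw [← hY] at hYv
    rw [← hN] at hNv
    have eY : LaM 1 q0 e ∅ ∅ = lm ^ 3 * Y := by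
      rw [hY]
      field_simp
    have e1 : UxY lm (LaY q0 e) (EfX q0 e) (chX 1 q0 e) (fun b => bb b.1) ∅ ∅ =
        lm ^ 3 * (zt * N) := by
      rw [UxY, EfX_empty, chX_empty, dlX_one, Finset.prod_empty, mul_one, ← hN]
      linear_combination (lm ^ 3 * N / 2) * lm_sq
    obtain ⟨P1, hP1⟩ : ∃ P1 : ℂ, P1 = ∏ b ∈ T, ((em b.1 - sgz (s4 q0 b)) / lm ^ 2) := ⟨_, rfl⟩
    obtain ⟨P2, hP2⟩ : ∃ P2 : ℂ, P2 = ∏ b ∈ T, ((em b.1 ^ 2 - sgz (s4 q0 b)) / lm ^ 2) := ⟨_, rfl⟩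
    have e2 : ∏ b ∈ T, (em b.1 - xXs 1 q0 e ∅ b) = lm ^ (2 * T.card) * P1 := by
      rw [hP1, Finset.prod_div_distrib, Finset.prod_const, ← pow_mul,
        mul_div_cancel₀ _ (pow_ne_zero _ hl)]
      exact Finset.prod_congr rfl fun b _ => by rw [xXs_empty h0, one_mul]
    have e3 : ∏ b ∈ T, (em b.1 ^ 2 - xXs 1 q0 e ∅ b) = lm ^ (2 * T.card) * P2 := by
      rw [hP2, Finset.prod_div_distrib, Finset.prod_const, ← pow_mul,
        mul_div_cancel₀ _ (pow_ne_zero _ hl)]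
      exact Finset.prod_congr rfl fun b _ => by rw [xXs_empty h0, one_mul]
    have r1 : Rt B P1 (∏ b ∈ T, s4 q0 b) := hP1 ▸ Rt.prod hB T fun b _ => Rt_fac_e hB b _
    have r2 : Rt B P2 (∏ b ∈ T, s4 q0 b) := hP2 ▸ Rt.prod hB T fun b _ => Rt_fac_e2 hB b _
    have rN : Rt B N 1 := Rt.one.congr (hNv.trans_lt ((v_sq_lt hB).trans hl1))
    have rY : Rt B Y 1 := Rt.one.congr (hYv.trans_lt ((v_sq_lt hB).trans hl1))
    rw [e1, e2, e3, eY]
    by_cases hc : T.card = 1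
    · rw [if_pos hc, hc]
      obtain ⟨q, rfl⟩ := Finset.card_eq_one.1 hc
      rw [Finset.prod_singleton] at hP1 hP2
      rw [Finset.sum_singleton, one_mul]
      obtain ⟨sv, hsv⟩ : ∃ sv : ℂ, sv = ((s4 q0 q).val : ℂ) := ⟨_, rfl⟩
      obtain ⟨t1, ht1⟩ : ∃ t1 : ℂ, t1 = (em q.1 - 1) / lm ^ 3 := ⟨_, rfl⟩
      obtain ⟨t2, ht2⟩ : ∃ t2 : ℂ, t2 = (em q.1 ^ 2 - 1) / lm ^ 3 := ⟨_, rfl⟩
      have a1 : P1 = lm * t1 - zt * sv := by
        have h1 := one_sub_sgz (s4 q0 q)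
        rw [← hsv] at h1
        have e4 : (em q.1 - sgz (s4 q0 q)) / lm ^ 2 = lm * ((em q.1 - 1) / lm ^ 3) +
            (1 - sgz (s4 q0 q)) / lm ^ 2 := by
          field_simp
          ring
        rw [hP1, e4, h1, ht1]
        ring
      have a2 : P2 = lm * t2 - zt * sv := by
        have h1 := one_sub_sgz (s4 q0 q)
        rw [← hsv] at h1
        have e4 : (em q.1 ^ 2 - sgz (s4 q0 q)) / lm ^ 2 = lm * ((em q.1 ^ 2 - 1) / lm ^ 3) +
            (1 - sgz (s4 q0 q)) / lm ^ 2 := by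
          field_simp
          ring
        rw [hP2, e4, h1, ht2]
        ring
      have e4 : (lm ^ 3 * Y * (lm ^ (2 * 1) * P1) - lm ^ 3 * (zt * N) * (lm ^ (2 * 1) * P2)) /
          lm ^ (1 + 5) = Y * t1 - zt * N * t2 - zt * sv *
            ((Y - 1) / lm + (1 - zt) / lm - zt * ((N - 1) / lm)) := by
        rw [a1, a2]
        field_simp
        ring
      rw [e4]
      have b1 : Rt B ((Y - 1) / lm) 0 := by
        refine Rt.of_lt ?_
        rw [map_div₀, div_lt_one₀ hl0']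
        exact hYv.trans_lt (v_sq_lt hB)
      have b2 : Rt B ((N - 1) / lm) 0 := by
        refine Rt.of_lt ?_
        rw [map_div₀, div_lt_one₀ hl0']
        exact hNv.trans_lt (v_sq_lt hB)
      have b3 : Rt B ((1 - zt) / lm) 1 := by
        have h1 := Rt_e4 hB 1
        rwa [e4_one, md_one] at h1
      have b4 := ((rY.mul hB (ht1 ▸ Rt_tq hB q)).sub hB (((Rt_ztX hB).mul hB rN).mul hB
        (ht2 ▸ Rt_em_sq_one hB q))).sub hB (((Rt_ztX hB).mul hB (hsv ▸ Rt_val hB (s4 q0 q))).mul hB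
          ((b1.add hB b3).sub hB ((Rt_ztX hB).mul hB b2)))
      have key : ∀ a s : ZMod 2, 1 * a - 1 * 1 * 0 - 1 * s * (0 + 1 - 1 * 0) = a + s := by decide
      rwa [key] at b4
    · rw [if_neg hc]
      obtain ⟨m, hm⟩ : ∃ m, T.card = m + 2 := ⟨T.card - 2, by
        have := hT.card_pos
        omega⟩
      have e4 : (lm ^ 3 * Y * (lm ^ (2 * T.card) * P1) - lm ^ 3 * (zt * N) *
          (lm ^ (2 * T.card) * P2)) / lm ^ (T.card + 5) = lm ^ m * (Y * P1 - zt * N * P2) := by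
        have e5 : lm ^ 3 * lm ^ (2 * T.card) = lm ^ m * lm ^ (T.card + 5) := by
          rw [← pow_add, ← pow_add]
          congr 1
          omega
        rw [div_eq_iff (pow_ne_zero _ hl)]
        linear_combination (Y * P1 - zt * N * P2) * e5
      rw [e4]
      have r3 := (rY.mul hB r1).sub hB (((Rt_ztX hB).mul hB rN).mul hB r2)
      rw [one_mul, one_mul, one_mul, sub_self] at r3
      refine Rt.of_lt ?_
      rw [map_mul, map_pow, mul_comm]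
      exact mul_lt_one_of_lt_of_le r3.lt (pow_le_one₀ zero_le hl1.le)

/-- **The data of the class (X), `k = 0`.** -/
theorem syX (hB : (2 : ℂ)⁻¹ ∉ B) (h0 : aa q0.1 = 1) (hl0 : bb q0.1 = 0) (h : ZMod 2)
    {S0 B0 : Finset Pg} (hd : Disjoint S0 B0) (he : ∀ q ∈ S0, md (e q) ≠ 0)
    (he2 : ∀ q ∈ B0, e q = 2) (hq : q0 ∉ S0 ∪ B0) (hs : ∀ b ∈ B0, s4 q0 b = 0) :
    SyX B lm (LaM h q0 e) (LaY q0 e) (fun b : Pg => em b.1) (fun b : Pg => em b.1 ^ 2)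
      (xXs h q0 e) (xXs 1 q0 e) (EfX q0 e) (chX h q0 e) (sgX h q0) (nXB q0) (fun b => aa b.1)
      (fun b => s4 q0 b) (fun b => bb b.1) (fun b => bb b.1) h S0 B0 where
  hM := syM hB h0 h hd he
  hX := syY hB h0 hd he
  xrel T _ b _ := xXs_rel h0 h T b
  sgB b hb := by rw [sgX, hs b hb, mul_zero, sgz_zero]
  sgS b _ := by
    have h1 := ((Rt_one_sub_sgz hB ((1 + h) * s4 q0 b)).neg hB).mul hB (Rt_lm hB)
    rw [mul_zero] at h1
    have e1 : -((1 - sgz ((1 + h) * s4 q0 b)) / lm ^ 2) * lm = (sgX h q0 b - 1) / lm := by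
      have hl := lm_ne
      rw [sgX]
      field_simp
      ring
    rwa [e1] at h1
  cB b _ := by
    have h1 := (Rt_em hB b).mul hB (Rt_tq hB b)
    rw [one_mul] at h1
    have e1 : em b.1 * ((em b.1 - 1) / lm ^ 3) = (em b.1 ^ 2 - em b.1) / lm ^ 3 := by ring
    rwa [e1] at h1
  cS b _ := by
    have h1 := (Rt_em hB b).mul hB (Rt_fac_e hB b ((1 + h) * s4 q0 b))
    rw [one_mul] at h1
    have e1 : em b.1 * ((em b.1 - sgz ((1 + h) * s4 q0 b)) / lm ^ 2) =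
        (em b.1 ^ 2 - sgX h q0 b * em b.1) / lm ^ 2 := by
      rw [sgX]
      ring
    rwa [e1] at h1
  s0B := hs
  ch1 T _ := Rt_chX hB h T
  chE T hT := Rt_chE hB hl0 h fun p hp => he p (hT hp)
  fM b hb := by
    rw [xXs_empty h0, hs b hb, mul_zero, sgz_zero]
    exact Rt_tq hB b
  fX b _ := by
    rw [xXs_empty h0, one_mul]
    exact Rt_fac_e2 hB b _
  fXB b hb := by
    rw [xXs_empty h0, hs b hb, mul_zero, sgz_zero]
    exact Rt_em_sq_one hB b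
  Y0 := Rt_Y0 hB h0
  M0 := Rt_M0 hB h0 hl0 h
  idY T hT C hC hne := Rt_idY hB h0 (Finset.disjoint_of_subset_left hT
    (Finset.disjoint_of_subset_right hC hd)) (fun q hq' => he q (hT hq'))
    (fun q hq' => he2 q (hC hq')) (fun h1 => hq (Finset.union_subset_union hT hC h1)) hne
  idY2 C hC hne := v_idY2 hB h0 (fun q hq' => he2 q (hC hq'))
    (fun h1 => hq (Finset.mem_union_right _ (hC h1))) hne
  t1 T _ hne := Rt_t1 hB h0 hl0 h hne
  idD T hT hne C hC := Rt_idD hB h0 hl0 h (Finset.disjoint_of_subset_left hT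
    (Finset.disjoint_of_subset_right hC hd)) (fun q hq' => he q (hT hq'))
    (fun q hq' => he2 q (hC hq')) (fun h1 => hq (Finset.union_subset_union hT hC h1)) hne
  idD0 C hC hne := v_idD0 hB h0 hl0 h (fun q hq' => he2 q (hC hq'))
    (fun h1 => hq (Finset.mem_union_right _ (hC h1))) hne

end

end Pool.Agent.Lib.MP_1a91b9_ntQ
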