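import Pool.Agent.Lib.MP_1a91b9_ntQ.B.XsF
import Pool.Agent.Lib.MP_1a91b9_ntQ.A.EvB

/-!
# Quartic twists, all fourth-power-free `D`, file XsG: class (X), `k = 0`, the value of the whole set
-/

set_option autoImplicit false
set_option linter.unusedSectionVars false

namespace Pool.Agent.Lib.MP_1a91b9_ntQ

open Finset MvPolynomial
open Pool.Agent.Lib.MP_1a91b9_ntK (NM NM_congr NM_empty NM_adj NM_update NM_zero forest
  CZ CZ_eq forest_zero)

noncomputable section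

variable {ι : Type*} [DecidableEq ι]

/-! ### The coefficients at the sets with `u = 0` -/

/-- the coefficient of a product with a linear form -/
theorem cf_KX_mul (bb lb : ι → ZMod 2) (h : ZMod 2) (T A : Finset ι) (P : MvPolynomial ι (ZMod 2))
    {E : Finset ι} (hE : E ⊆ A) : cf (KXs bb lb h T A * P) E =
      (h + ∑ p ∈ T, bb p) * cf P E + ∑ b ∈ E, lb b * cf P (E.erase b) := by
  rw [KXs, add_mul, cf_add, cf_C_mul, sum_mul, cf_sum]
  congr 1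
  rw [← sum_subset hE]
  · refine sum_congr rfl fun b hb => ?_
    rw [mul_comm (X b) (C _), mul_assoc, cf_C_mul, cf_X_mul, if_pos hb]
  · intro b _ hb
    rw [mul_comm (X b) (C _), mul_assoc, cf_C_mul, cf_X_mul, if_neg hb, mul_zero]

/-- **The further terms of `ZX` vanish** if `h + ∑ (p ∈ S) bb p = 0`. -/
theorem cf_ZX_top (s : ι → ι → ZMod 2) (a s0 bb lb : ι → ZMod 2) (h : ZMod 2) {S0 B0 A : Finset ι}
    (hd : Disjoint S0 B0) (hS0 : S0.Nonempty) (hs0 : ∀ b ∈ B0, s0 b = 0)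
    (hh : h + ∑ p ∈ S0, bb p = 0) (hA : A ⊆ B0) (hu : ∀ b ∈ A, ∑ p ∈ S0, s b p = 0) :
    cf (ZX s a s0 bb lb h S0 A) A = cf (CE s (fun b => a b + h * s0 b) S0 A) A := by
  have hne : ∀ A' : Finset ι, (S0 ∪ A').Nonempty := fun A' => hS0.mono subset_union_left
  have hu' : ∀ b ∈ A, (0 : ι → ZMod 2) b + ∑ p ∈ S0, s b p = 0 := fun b hb => by
    rw [Pi.zero_apply, zero_add, hu b hb]
  have hstep1 : ∀ A' ⊆ B0, ∀ b ∈ A', ∀ E : Finset ι, b ∉ E →
      cf (CE s s0 S0 A') E = cf (wE s 0 S0 (A'.erase b) b * CE s s0 S0 (A'.erase b)) E :=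
    fun A' hA' b hb E hE => CE_step s s0 (disjoint_of_subset_right hA' hd) hb (hne _) hE
  have hstep2 : ∀ A' ⊆ B0, ∀ b ∈ A', ∀ E : Finset ι, b ∉ E →
      cf (CC2 s s0 S0 A') E = cf (wE s 0 S0 (A'.erase b) b * CC2 s s0 S0 (A'.erase b)) E :=
    fun A' hA' b hb E hE => CC2_step s s0 (disjoint_of_subset_right hA' hd) hb (hs0 b (hA' hb)) hE
  have hlow1 : ∀ A' ⊆ A, ∀ E ⊂ A', cf (CE s s0 S0 A') E = 0 := by
    intro A' hA' E hE
    have h1 := cf_low s 0 S0 hstep1 (empty_subset B0) A'.card A' rfl (hA'.trans hA)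
      (disjoint_empty_left A') (fun b hb => hu' b (hA' hb)) E hE
    rwa [empty_union] at h1
  have hlow2 : ∀ A' ⊆ A, ∀ E ⊂ A', cf (CC2 s s0 S0 A') E = 0 := by
    intro A' hA' E hE
    have h1 := cf_low s 0 S0 hstep2 (empty_subset B0) A'.card A' rfl (hA'.trans hA)
      (disjoint_empty_left A') (fun b hb => hu' b (hA' hb)) E hE
    rwa [empty_union] at h1
  have h1 : cf (VB0 s a s0 bb lb h S0 A) A = 0 := by
    have h2 := cf_VB0 s a s0 bb lb h S0 A 1 A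
    simp only [one_mul] at h2
    rw [h2]
    refine sum_eq_zero fun b hb => ?_
    rw [if_pos hb, UB0, cf_KX_mul bb lb h S0 _ _ subset_rfl, hh, zero_mul, zero_add,
      sum_eq_zero, mul_zero]
    intro b' hb'
    rw [hlow1 (A.erase b) (erase_subset b A) _ (erase_ssubset hb'), mul_zero]
  have h2 : cf (C (1 + h) * (KXs bb lb 0 S0 A * CC2 s s0 S0 A)) A = 0 := by
    rw [cf_C_mul, cf_KX_mul bb lb 0 S0 _ _ subset_rfl, zero_add]
    have h3 : ∑ b ∈ A, lb b * cf (CC2 s s0 S0 A) (A.erase b) = 0 :=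
      sum_eq_zero fun b hb => by rw [hlow2 A subset_rfl _ (erase_ssubset hb), mul_zero]
    rw [h3, add_zero]
    have key : ∀ h y : ZMod 2, h = 0 ∨ h = 1 := by decide
    rcases key h 0 with rfl | rfl
    · rw [zero_add] at hh
      rw [hh, zero_mul, mul_zero]
    · have h4 : (1 : ZMod 2) + 1 = 0 := by decide
      rw [h4, zero_mul]
  rw [ZX, cf_add, cf_add, h1, h2, add_zero, add_zero]

/-- the coefficient polynomial is additive -/
theorem CE_add (s : ι → ι → ZMod 2) (a s0 : ι → ZMod 2) (h r : ZMod 2) (T A : Finset ι) :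
    CE s (fun b => a b + (h + r) * s0 b) T A =
      CE s (fun b => a b + h * s0 b) T A + C r * CE s s0 T A := by
  rw [CE, CE, CE, CZ_eq, CZ_eq, CZ_eq, mul_sum, ← sum_add_distrib]
  refine sum_congr rfl fun b _ => ?_
  rw [add_mul, ← add_assoc, C_add, C_mul]
  ring

/-- the sum over the subsets of `V` -/
theorem CE_final (s : ι → ι → ZMod 2) (w τ : ι → ZMod 2) {T V : Finset ι}
    (hTV : Disjoint T V) {r0 : ι} (hr : r0 ∈ T) (hu : ∀ b ∈ V, ∑ p ∈ T, s b p = 0) :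
    ∑ A ∈ V.powerset, cf (CE s w T A) A * pdt (blkL s τ V) (V \ A) =
      pdt (fun i j => if j = r0 then w i else blkM s (fun _ => 0) τ T V i j) (T ∪ V) := by
  have h1 := CE2_final s w w (fun _ => 0) τ hTV hr hu
  have h2 : ∀ A : Finset ι, CE2 s w w (fun _ => 0) T A = CE s w T A := by
    intro A
    rw [CE2, CE]
    refine CZ_congr2 (fun _ _ _ _ _ => rfl) fun x _ => ?_
    rw [vE2]
    split_ifs
    · rw [C_0, mul_zero, add_zero]
    · rfl
  have h3 : blkMv s w w τ T V r0 =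
      fun i j => if j = r0 then w i else blkM s (fun _ => 0) τ T V i j := by
    funext i j
    rw [blkMv, ite_self]
    rfl
  rw [h3] at h1
  rw [← h1]
  exact sum_congr rfl fun A _ => by rw [h2]

section
variable {B : ValuationSubring ℂ} {l : ℂ} {M Y : Finset ι → Finset ι → ℂ} {e eX : ι → ℂ}
  {x xX : Finset ι → ι → ℂ} {Ef ch : Finset ι → ℂ} {sg : ι → ℂ} {s : ι → ι → ZMod 2}
  {a s0 bb lb : ι → ZMod 2} {h : ZMod 2} {S0 B0 : Finset ι}

/-- the weights of `Y` at the primes of `V` -/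
theorem SyX.h12 (H : SyX B l M Y e eX x xX Ef ch sg s a s0 bb lb h S0 B0) {U V : Finset ι}
    (hV : V ⊆ B0) {τ : ι → ZMod 2} (h1 : ∀ b ∈ V, Rt B (x S0 b * ∏ a ∈ U, sgz (s b a)) 1)
    (h2 : ∀ b ∈ V, Rt B ((e b - x S0 b * ∏ a ∈ U, sgz (s b a)) / l ^ 2) (τ b)) :
    (∀ b ∈ V, Rt B (xX S0 b * ∏ a ∈ U, sgz (s b a)) 1) ∧
    (∀ b ∈ V, Rt B ((eX b - xX S0 b * ∏ a ∈ U, sgz (s b a)) / l ^ 2) (τ b)) := by
  have hx : ∀ b ∈ V, xX S0 b = x S0 b := fun b hb => H.xeq subset_rfl hV b hb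
  refine ⟨fun b hb => by rw [hx b hb]; exact h1 b hb, fun b hb => ?_⟩
  have hl0 := H.hX.hl0
  have h3 := (h2 b hb).add H.hX.hB (H.hX.hl.mul H.hX.hB (H.cB b (hV hb)))
  rw [zero_mul, add_zero] at h3
  have e1 : (eX b - xX S0 b * ∏ a ∈ U, sgz (s b a)) / l ^ 2 =
      (e b - x S0 b * ∏ a ∈ U, sgz (s b a)) / l ^ 2 + l * ((eX b - e b) / l ^ 3) := by
    rw [hx b hb]
    field_simp
    ring
  rw [e1]
  exact h3

/-- **The value of `Y`.** -/
theorem SyX.finY (H : SyX B l M Y e eX x xX Ef ch sg s a s0 bb lb h S0 B0) {U V : Finset ι}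
    (hUB : U ∪ V = B0) (hUV : Disjoint U V)
    (hu1 : ∀ b ∈ U, ∑ p ∈ S0, s b p = 1) (hu0 : ∀ b ∈ V, ∑ p ∈ S0, s b p = 0)
    {τ : ι → ZMod 2} (h1 : ∀ b ∈ V, Rt B (x S0 b * ∏ a ∈ U, sgz (s b a)) 1)
    (h2 : ∀ b ∈ V, Rt B ((e b - x S0 b * ∏ a ∈ U, sgz (s b a)) / l ^ 2) (τ b))
    (hS0 : S0.Nonempty) :
    Rt B (Y S0 B0 / l ^ (S0.card + U.card + 2 * V.card + 1))
      (∑ A ∈ V.powerset, cf (CE s s0 S0 A) A * pdt (blkL s τ V) (V \ A)) := by
  have hU : U ⊆ B0 := hUB ▸ subset_union_left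
  have hV : V ⊆ B0 := hUB ▸ subset_union_right
  have hne : ∀ A' : Finset ι, (S0 ∪ A').Nonempty := fun A' => hS0.mono subset_union_left
  obtain ⟨h1', h2'⟩ := H.h12 (U := U) hV h1 h2
  have h3 := H.hX.final (n := 1) (P := fun A => CE s s0 S0 A) hU hV hUV
    (fun A hA => H.rbY subset_rfl hA (hne A))
    (fun A hA b hb E hE => CE_step s s0 (disjoint_of_subset_right hA H.hX.dis) hb (hne _) hE)
    (fun b hb => by rw [Pi.zero_apply, zero_add, hu1 b hb])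
    (fun b hb => by rw [Pi.zero_apply, zero_add, hu0 b hb]) h1' h2' V.card V subset_rfl rfl
  rw [hUB, one_mul] at h3
  have h4 : solB s τ (fun A => cf (CE s s0 S0 A) A) V =
      ∑ A ∈ V.powerset, cf (CE s s0 S0 A) A * pdt (blkL s τ V) (V \ A) :=
    sum_congr rfl fun A hA => by rw [NM_blkL s τ (mem_powerset.1 hA)]
  rwa [h4] at h3

/-- **The value of `D`.** -/
theorem SyX.finD (H : SyX B l M Y e eX x xX Ef ch sg s a s0 bb lb h S0 B0) {U V : Finset ι}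
    (hUB : U ∪ V = B0) (hUV : Disjoint U V)
    (hu1 : ∀ b ∈ U, ∑ p ∈ S0, s b p = 1) (hu0 : ∀ b ∈ V, ∑ p ∈ S0, s b p = 0)
    {τ : ι → ZMod 2} (h1 : ∀ b ∈ V, Rt B (x S0 b * ∏ a ∈ U, sgz (s b a)) 1)
    (h2 : ∀ b ∈ V, Rt B ((e b - x S0 b * ∏ a ∈ U, sgz (s b a)) / l ^ 2) (τ b))
    (hS0 : S0.Nonempty) :
    Rt B ((M S0 B0 - UxY l Y Ef ch lb S0 B0) / l ^ (S0.card + U.card + 2 * V.card + 5))
      (∑ A ∈ V.powerset, cf (ZX s a s0 bb lb h S0 A) A * pdt (blkL s τ V) (V \ A)) := by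
  have hU : U ⊆ B0 := hUB ▸ subset_union_left
  have hV : V ⊆ B0 := hUB ▸ subset_union_right
  have hd : ∀ T ⊆ S0, ∀ A ⊆ B0, Disjoint T A := fun T hT A hA =>
    disjoint_of_subset_left hT (disjoint_of_subset_right hA H.hX.dis)
  have hst : ∀ T ⊆ S0, T.Nonempty → ∀ A ⊆ B0, ∀ b ∈ A, ∀ E : Finset ι, b ∉ E →
      cf (ZX s a s0 bb lb h T A) E =
        cf (wE s 0 T (A.erase b) b * ZX s a s0 bb lb h T (A.erase b)) E :=
    fun T hT hT0 A hA b hb E hE => ZX_step s a s0 bb lb h (hd T hT A hA) hT0 hb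
      (H.s0B b (hA hb)) hE
  have h3 := (H.hM.of 1 fun T A => M T A - UxY l Y Ef ch lb T A).final (n := 5)
    (P := fun A => ZX s a s0 bb lb h S0 A) hU hV hUV
    (fun A hA => H.rbD hst (fun T hT hT0 A hA => ZX_sum s a s0 bb lb h (hd T hT A hA) hT0
      fun b hb => H.s0B b (hA hb)) subset_rfl hS0 hA)
    (fun A hA b hb E hE => hst S0 subset_rfl hS0 A hA b hb E hE)
    (fun b hb => by rw [Pi.zero_apply, zero_add, hu1 b hb])
    (fun b hb => by rw [Pi.zero_apply, zero_add, hu0 b hb]) h1 h2 V.card V subset_rfl rfl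
  rw [hUB, one_mul] at h3
  have h4 : solB s τ (fun A => cf (ZX s a s0 bb lb h S0 A) A) V =
      ∑ A ∈ V.powerset, cf (ZX s a s0 bb lb h S0 A) A * pdt (blkL s τ V) (V \ A) :=
    sum_congr rfl fun A hA => by rw [NM_blkL s τ (mem_powerset.1 hA)]
  rwa [h4] at h3

/-- the coefficient of the whole set, first order -/
theorem SyX.cfin (H : SyX B l M Y e eX x xX Ef ch sg s a s0 bb lb h S0 B0) :
    Rt B ((Ef S0 - ch S0 * ∏ b ∈ B0, sgz (lb b)) / l) (h + ∑ p ∈ S0, bb p) := by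
  have hB := H.hX.hB
  have h1 := H.chE S0 subset_rfl
  have h2 : Rt B ((1 - ∏ b ∈ B0, sgz (lb b)) / l) 0 := by
    rw [sgz_sum]
    have hy : ∀ y : ZMod 2, y = 0 ∨ y = 1 := by decide
    rcases hy (∑ b ∈ B0, lb b) with h3 | h3
    · rw [h3, sgz_zero, sub_self, zero_div]
      exact Rt.zero
    · rw [h3, sgz_one]
      have e1 : (1 - (-1 : ℂ)) = 2 := by norm_num
      rw [e1]
      exact H.hX.h2
  have h3 := h1.add hB ((H.ch1 S0 subset_rfl).mul hB h2)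
  rw [mul_zero, add_zero] at h3
  have e1 : (Ef S0 - ch S0 * ∏ b ∈ B0, sgz (lb b)) / l =
      (Ef S0 - ch S0) / l + ch S0 * ((1 - ∏ b ∈ B0, sgz (lb b)) / l) := by ring
  rw [e1]
  exact h3

/-- **The value, first order** : `h + ∑ (p ∈ S0) bb p = 1`. -/
theorem SyX.final_odd (H : SyX B l M Y e eX x xX Ef ch sg s a s0 bb lb h S0 B0) {U V : Finset ι}
    (hUB : U ∪ V = B0) (hUV : Disjoint U V)
    (hu1 : ∀ b ∈ U, ∑ p ∈ S0, s b p = 1) (hu0 : ∀ b ∈ V, ∑ p ∈ S0, s b p = 0)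
    {τ : ι → ZMod 2} (h1 : ∀ b ∈ V, Rt B (x S0 b * ∏ a ∈ U, sgz (s b a)) 1)
    (h2 : ∀ b ∈ V, Rt B ((e b - x S0 b * ∏ a ∈ U, sgz (s b a)) / l ^ 2) (τ b))
    {r0 : ι} (hr : r0 ∈ S0) (hh : h + ∑ p ∈ S0, bb p = 1) :
    Rt B (M S0 B0 / l ^ (S0.card + U.card + 2 * V.card + 4))
      (pdt (fun i j => if j = r0 then s0 i else blkM s (fun _ => 0) τ S0 V i j) (S0 ∪ V)) := by
  have hB := H.hX.hB
  have hl0 := H.hX.hl0
  have hV : V ⊆ B0 := hUB ▸ subset_union_right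
  have hy := H.finY hUB hUV hu1 hu0 h1 h2 ⟨r0, hr⟩
  rw [CE_final s s0 τ (disjoint_of_subset_right hV H.hX.dis) hr hu0] at hy
  have hd := H.finD hUB hUV hu1 hu0 h1 h2 ⟨r0, hr⟩
  have hc := H.cfin
  rw [hh] at hc
  have h3 := (H.half.mul hB (hc.mul hB hy)).add hB (Rt.mul_zero_left H.hX.hl hd.mem)
  rw [one_mul, one_mul, add_zero] at h3
  have e1 : M S0 B0 / l ^ (S0.card + U.card + 2 * V.card + 4) =
      l ^ 2 / 2 * ((Ef S0 - ch S0 * ∏ b ∈ B0, sgz (lb b)) / l *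
        (Y S0 B0 / l ^ (S0.card + U.card + 2 * V.card + 1))) +
      l * ((M S0 B0 - UxY l Y Ef ch lb S0 B0) /
        l ^ (S0.card + U.card + 2 * V.card + 5)) := by
    have h4 : l ^ (S0.card + U.card + 2 * V.card) ≠ 0 := pow_ne_zero _ hl0
    rw [UxY, pow_add, pow_add, pow_add]
    field_simp
    ring
  rw [e1]
  exact h3

/-- **The value, second order** : `h + ∑ (p ∈ S0) bb p = 0`. -/
theorem SyX.final_even (H : SyX B l M Y e eX x xX Ef ch sg s a s0 bb lb h S0 B0) {U V : Finset ι}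
    (hUB : U ∪ V = B0) (hUV : Disjoint U V)
    (hu1 : ∀ b ∈ U, ∑ p ∈ S0, s b p = 1) (hu0 : ∀ b ∈ V, ∑ p ∈ S0, s b p = 0)
    {τ : ι → ZMod 2} (h1 : ∀ b ∈ V, Rt B (x S0 b * ∏ a ∈ U, sgz (s b a)) 1)
    (h2 : ∀ b ∈ V, Rt B ((e b - x S0 b * ∏ a ∈ U, sgz (s b a)) / l ^ 2) (τ b))
    {r0 : ι} (hr : r0 ∈ S0) (hh : h + ∑ p ∈ S0, bb p = 0) {r : ZMod 2}
    (hc : Rt B ((Ef S0 - ch S0 * ∏ b ∈ B0, sgz (lb b)) / 2) r) :
    Rt B (M S0 B0 / l ^ (S0.card + U.card + 2 * V.card + 5))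
      (pdt (fun i j => if j = r0 then a i + (h + r) * s0 i else blkM s (fun _ => 0) τ S0 V i j)
        (S0 ∪ V)) := by
  have hB := H.hX.hB
  have hl0 := H.hX.hl0
  have hV : V ⊆ B0 := hUB ▸ subset_union_right
  have hSV := disjoint_of_subset_right hV H.hX.dis
  have hy := H.finY hUB hUV hu1 hu0 h1 h2 ⟨r0, hr⟩
  have hd := H.finD hUB hUV hu1 hu0 h1 h2 ⟨r0, hr⟩
  have h3 := (hc.mul hB hy).add hB hd
  have e2 : r * (∑ A ∈ V.powerset, cf (CE s s0 S0 A) A * pdt (blkL s τ V) (V \ A)) +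
      ∑ A ∈ V.powerset, cf (ZX s a s0 bb lb h S0 A) A * pdt (blkL s τ V) (V \ A) =
      pdt (fun i j => if j = r0 then a i + (h + r) * s0 i else blkM s (fun _ => 0) τ S0 V i j)
        (S0 ∪ V) := by
    rw [← CE_final s (fun b => a b + (h + r) * s0 b) τ hSV hr hu0, mul_sum, ← sum_add_distrib]
    refine sum_congr rfl fun A hA => ?_
    have hAV := mem_powerset.1 hA
    rw [cf_ZX_top s a s0 bb lb h H.hX.dis ⟨r0, hr⟩ H.s0B hh (hAV.trans hV)
      (fun b hb => hu0 b (hAV hb)), CE_add, cf_add, cf_C_mul]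
    ring
  rw [e2] at h3
  have e1 : M S0 B0 / l ^ (S0.card + U.card + 2 * V.card + 5) =
      (Ef S0 - ch S0 * ∏ b ∈ B0, sgz (lb b)) / 2 *
        (Y S0 B0 / l ^ (S0.card + U.card + 2 * V.card + 1)) +
      (M S0 B0 - UxY l Y Ef ch lb S0 B0) / l ^ (S0.card + U.card + 2 * V.card + 5) := by
    have h4 : l ^ (S0.card + U.card + 2 * V.card) ≠ 0 := pow_ne_zero _ hl0
    rw [UxY, pow_add, pow_add]
    field_simp
    ring
  rw [e1]
  exact h3

end

end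

end Pool.Agent.Lib.MP_1a91b9_ntQ
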