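import Pool.Agent.Lib.MP_1a91b9_ntQ.B.TopX1B
import Pool.Agent.Lib.MP_1a91b9_ntQ.B.InXB
import Pool.Agent.Lib.MP_1a91b9_ntQ.B.XsG
import Pool.Agent.Lib.MP_1a91b9_ntQ.R.AuxB

/-!
# Quartic twists, all fourth-power-free `D`, class (X), file TopX2B: `k = 0`, the fields `x2`, `x3`
-/

set_option autoImplicit false

namespace Pool.Agent.Lib.MP_1a91b9_ntQ

open NumberField Finset Pool.Agent.Lib.MP_1a91b9_nuT Pool.Agent.Lib.MP_1a91b9_nuT.S3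
  Pool.Agent.Lib.MP_1a91b9_nuT.Ell

noncomputable section

variable {V : ValuationSubring ℂ} {q0 : Pg} {S T B : Finset Pg}

/-- the constant has the class `1` -/
theorem Rt_cXh (hV : (2 : ℂ)⁻¹ ∉ V) (h : ZMod 2) : Rt V (cXh h) 1 := by
  rcases h_cases h with rfl | rfl
  · rw [cXh_zero]
    exact Rt.one
  · rw [cXh_one]
    exact Rt_neg_rh hV

/-- the exponent of the full block at `lam` -/
theorem bXB_full_lam (h : Dj S T B) {h' : ZMod 2} (hh' : hh h' + nn (cB S T B) = 0)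
    (hl0 : bb q0.1 = 0) : bXB q0 (eB T B) 0 (S ∪ T ∪ B) lam = llB (cB S T B) := by
  have h1 : ∑ q ∈ S ∪ T ∪ B, eB T B q * c4 q lam = ll (cB S T B) := by
    rw [← h.DDe_eq, ll_DDe]
    exact sum_congr rfl fun q _ => by rw [ll_q]
  have h2 := two_c4_lam hl0
  have h3 : (hh 0 + nn (cB S T B)) * nn q0.1 * c4 q0 lam = 0 := by
    have key : ∀ (h' : ZMod 2) (n m c : ZMod 4), hh h' + n = 0 → 2 * c = 0 →
        (hh 0 + n) * m * c = 0 := by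
      unfold hh
      decide
    exact key h' _ _ _ hh' h2
  rw [bXB, e0XB, h.sum_e_nn, h1, neg_mul, h3, neg_zero, zero_add, llB_eq (cB_in4 S T B)]

/-- the class of the coefficient -/
theorem Rt_rX (hV : (2 : ℂ)⁻¹ ∉ V) (h : ZMod 2) {t : ZMod 4} (ht : md t = h) :
    Rt V ((1 + lm * e4 (2 * t) - dlX h * e4 (-t)) / 2) (h + xl4 t) := by
  have h2 : (2 : ℂ) ≠ 0 := two_ne_zero
  have h20 : (2 : ZMod 4) + 2 = 0 := rfl
  have key : ∀ (h : ZMod 2) (t : ZMod 4), (ZMod.castHom (show 2 ∣ 4 by norm_num) (ZMod 2)) t = h →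
      (h = 0 ∧ t = 0) ∨ (h = 0 ∧ t = 2) ∨ (h = 1 ∧ t = 1) ∨ (h = 1 ∧ t = 3) := by decide
  rcases key h t ht with ⟨rfl, rfl⟩ | ⟨rfl, rfl⟩ | ⟨rfl, rfl⟩ | ⟨rfl, rfl⟩
  · have e1 : (1 + lm * e4 (2 * 0) - dlX 0 * e4 (-0)) / 2 = 0 := by
      rw [mul_zero, neg_zero, e4_zero, dlX_zero]
      ring
    have e2 : (0 : ZMod 2) + xl4 0 = 0 := by decide
    rw [e1, e2]
    exact Rt.of_lt (by rw [map_zero]; exact zero_lt_one)
  · have e0 : e4 (-2) = -1 := by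
      have : (-2 : ZMod 4) = 2 := rfl
      rw [this, e4_two]
    have e3 : e4 (2 * 2) = 1 := by
      have : (2 * 2 : ZMod 4) = 0 := rfl
      rw [this, e4_zero]
    have e1 : (1 + lm * e4 (2 * 2) - dlX 0 * e4 (-2)) / 2 = 1 + lm := by
      rw [e0, e3, dlX_zero]
      ring
    have e2 : (0 : ZMod 2) + xl4 2 = 1 := by decide
    rw [e1, e2]
    have h3 := (Rt.one (B := V)).add hV (Rt_lm hV)
    rwa [add_zero] at h3
  · have e0 : e4 (-1) = -zt := by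
      have : (-1 : ZMod 4) = 1 + 2 := rfl
      rw [this, e4_add, e4_two, e4_one]
      ring
    have e3 : e4 (2 * 1) = -1 := by rw [mul_one, e4_two]
    have e1 : (1 + lm * e4 (2 * 1) - dlX 1 * e4 (-1)) / 2 = 0 := by
      rw [e0, e3, dlX_one, lm]
      ring
    have e2 : (1 : ZMod 2) + xl4 1 = 0 := by decide
    rw [e1, e2]
    exact Rt.of_lt (by rw [map_zero]; exact zero_lt_one)
  · have e0 : e4 (-3) = zt := by
      have : (-3 : ZMod 4) = 1 := rfl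
      rw [this, e4_one]
    have e3 : e4 (2 * 3) = -1 := by
      have : (2 * 3 : ZMod 4) = 2 := rfl
      rw [this, e4_two]
    have e1 : (1 + lm * e4 (2 * 3) - dlX 1 * e4 (-3)) / 2 = -zt := by
      rw [e0, e3, dlX_one, lm]
      ring
    have e2 : (1 : ZMod 2) + xl4 3 = 1 := by decide
    rw [e1, e2]
    have h3 := (Rt_root hV 1).neg hV
    rwa [e4_one] at h3

/-- the data -/
theorem syX_B (hV : (2 : ℂ)⁻¹ ∉ V) (h : Dj S T B) {h' : ZMod 2} (h0 : aa q0.1 = 1)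
    (hl0 : bb q0.1 = 0) (hq : q0 ∉ S ∪ T ∪ B) (hs : ∀ b ∈ B, s4 q0 b = 0) :
    SyX V lm (LaM h' q0 (eB T B)) (LaY q0 (eB T B)) (fun b : Pg => em b.1)
      (fun b : Pg => em b.1 ^ 2) (xXs h' q0 (eB T B)) (xXs 1 q0 (eB T B)) (EfX q0 (eB T B))
      (chX h' q0 (eB T B)) (sgX h' q0) (nXB q0) (fun b => aa b.1) (fun b => s4 q0 b)
      (fun b => bb b.1) (fun b => bb b.1) h' (S ∪ T) B :=
  syX hV h0 hl0 h' h.ub (fun q hq => by rw [h.eodd hq]; exact one_ne_zero) (fun q hq => h.eb hq)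
    hq hs

theorem hu1_X (hA : ∑ q ∈ S ∪ T, aa q.1 = 0) {b : Pg} (hb : b ∈ UqB 0 0 S T B) :
    ∑ p ∈ S ∪ T, nXB q0 b p = 1 := by
  have h4 := hu1_B (k := 0) (j := 0) hb
  have hk2 : kapB (kkB 0 S T B) ((0 : Fin 4).val) b = 0 := by
    rw [kapB, md_kkB]
    have h2 : md 0 = 0 := rfl
    have h3 : (0 : Fin 4).val = 0 := rfl
    rw [h2, h3, zero_mul, Nat.cast_zero, zero_mul, add_zero]
  rw [hk2, zero_add] at h4
  rw [sum_nXB hA, h4]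

theorem hu0_X (hA : ∑ q ∈ S ∪ T, aa q.1 = 0) {b : Pg} (hb : b ∈ VB 0 0 S T B) :
    ∑ p ∈ S ∪ T, nXB q0 b p = 0 := by
  have h4 := hu0_B (k := 0) (j := 0) hb
  have hk2 : kapB (kkB 0 S T B) ((0 : Fin 4).val) b = 0 := by
    rw [kapB, md_kkB]
    have h2 : md 0 = 0 := rfl
    have h3 : (0 : Fin 4).val = 0 := rfl
    rw [h2, h3, zero_mul, Nat.cast_zero, zero_mul, add_zero]
  rw [hk2, zero_add] at h4
  rw [sum_nXB hA, h4]

/-- the hypothesis `h2` -/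
theorem h2_X (hV : (2 : ℂ)⁻¹ ∉ V) (h : Dj S T B) (hA : ∑ q ∈ S ∪ T, aa q.1 = 0) (h' : ZMod 2)
    (h0 : aa q0.1 = 1) {b : Pg} (hb : b ∈ VB 0 0 S T B) :
    Rt V ((em b.1 - xXs h' q0 (eB T B) (S ∪ T) b * ∏ a ∈ UqB 0 0 S T B, sgz (nXB q0 b a)) /
      lm ^ 2) (tauXB 0 h' q0 S T B b) := by
  have h1 := h2X hV (k := 0) (Or.inl rfl) h0 h' (e := eB T B) (T := S ∪ T) (U := UqB 0 0 S T B)
    (disjoint_of_subset_right sdiff_subset h.ub)
    (fun q hq => by rw [h.eodd hq]; exact one_ne_zero)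
    (fun a ha => h.eb (mem_sdiff.1 ha).1) (b := b) (by rw [zero_add, hu0_X hA hb])
  rw [eXs_0] at h1
  exact h1

/-- from the sum of the blocks to the value -/
theorem Rt_LaB_X0 (hV : (2 : ℂ)⁻¹ ∉ V) (h : Dj S T B) (hA : ∑ q ∈ S ∪ T, aa q.1 = 0)
    {h' : ZMod 2} (h0 : aa q0.1 = 1) (hh' : hh h' + nn (cB S T B) = 0)
    (hq : q0 ∉ S ∪ T ∪ B) (h1 : ∑ p ∈ S ∪ T, s4 q0 p = 1) {n : ℕ} {y : ZMod 2}
    (hy : Rt V (LaM h' q0 (eB T B) (S ∪ T) B / lm ^ (n + 1)) y) :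
    Rt V (LaB (kkB 0 S T B) 0 (eB T B) (S ∪ T ∪ B) / (La4 0 ∅ * lm ^ n)) y := by
  rw [kkB_X h hA]
  refine Rt_LaB_of hV (Or.inl rfl) h0 h.ub
    (fun q hq => by rw [h.eodd hq]; exact one_ne_zero) (fun q hq => h.eb hq) hq
    (by rw [h.sum_e_nn]; exact hh') h1 (pow_ne_zero _ lm_ne) ?_
  have h2 := (Rt_inv_one (Rt_cXh hV h')).mul hV hy
  rw [one_mul] at h2
  have h3 : cXh h' ≠ 0 := (Rt_cXh hV h').ne_zero one_ne_zero
  have e1 : (cXh h')⁻¹ * (LaM h' q0 (eB T B) (S ∪ T) B / lm ^ (n + 1)) =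
      MMB 0 h' q0 (eB T B) (S ∪ T ∪ B) (S ∪ T ∪ B) / (lm ^ n * lm) := by
    have hl := lm_ne
    rw [LaM, LaX, pow_succ]
    field_simp
  rwa [e1] at h2

/-- **Class (X), `k = 0`, first order** : the congruence for every `D` of the class. -/
theorem Rt_B_X2 (hV : (2 : ℂ)⁻¹ ∉ V) (h : Dj S T B) (hA : aa (cB S T B) = 0)
    (hb : hf4 (nn (cB S T B)) + bb (cB S T B) = 1) {r : Pg} (hr : r ∈ S ∪ T) :
    Rt V (LaB (kkB 0 S T B) 0 (eB T B) (S ∪ T ∪ B) / (La4 0 ∅ *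
        lm ^ ((S ∪ T).card + (UqB 0 0 S T B).card + 2 * (VB 0 0 S T B).card + 3)))
      ((pmG (MqB 0 0 S T B) (S ∪ T ∪ VB 0 0 S T B)).adjugate ⟨r, mem_union_left _ hr⟩
        ⟨r, mem_union_left _ hr⟩) := by
  have hA' : ∑ q ∈ S ∪ T, aa q.1 = 0 := by rw [← aa_cB h.st B, hA]
  have hne : (S ∪ T).Nonempty := ⟨r, hr⟩
  obtain ⟨q0, -, hq, ha, hl0, hs, h1⟩ := exists_auxB hne.ne_empty h.ub 0
  have hh' : hh (hf4 (nn (cB S T B))) + nn (cB S T B) = 0 := hh_hf4 hA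
  have h2 := (syX_B hV h ha hl0 hq hs).final_odd (UqB_union 0 0 S T B) (UqB_dis 0 0 S T B)
    (fun b hb => hu1_X hA' hb) (fun b hb => hu0_X hA' hb)
    (fun b _ => h1X hV (hf4 (nn (cB S T B))) q0 (eB T B) (S ∪ T) (UqB 0 0 S T B) b)
    (fun b hb => h2_X hV h hA' (hf4 (nn (cB S T B))) ha hb) hr (by rw [← bb_cB h.st B, hb])
  rw [pdt_nXB_s (Or.inl rfl) h hA' ha hh' h1 hr] at h2
  exact Rt_LaB_X0 hV h hA' ha hh' hq h1 h2

/-- **Class (X), `k = 0`, second order** : the congruence for every `D` of the class. -/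
theorem Rt_B_X3 (hV : (2 : ℂ)⁻¹ ∉ V) (h : Dj S T B) (hA : aa (cB S T B) = 0)
    (hb : hf4 (nn (cB S T B)) + bb (cB S T B) = 0) {r : Pg} (hr : r ∈ S ∪ T) :
    Rt V (LaB (kkB 0 S T B) 0 (eB T B) (S ∪ T ∪ B) / (La4 0 ∅ *
        lm ^ ((S ∪ T).card + (UqB 0 0 S T B).card + 2 * (VB 0 0 S T B).card + 4)))
      ((BM (pmG (MqB 0 0 S T B) (S ∪ T ∪ VB 0 0 S T B)) (fun i => aa i.1.1) (fun i => aa i.1.1)
        (xl4 (llB (cB S T B)))).adjugate (Sum.inl ⟨r, mem_union_left _ hr⟩)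
        (Sum.inl ⟨r, mem_union_left _ hr⟩)) := by
  have hA' : ∑ q ∈ S ∪ T, aa q.1 = 0 := by rw [← aa_cB h.st B, hA]
  have hne : (S ∪ T).Nonempty := ⟨r, hr⟩
  obtain ⟨q0, -, hq, ha, hl0, hs, h1⟩ := exists_auxB hne.ne_empty h.ub 0
  have hh' : hh (hf4 (nn (cB S T B))) + nn (cB S T B) = 0 := hh_hf4 hA
  have hb' : hf4 (nn (cB S T B)) + ∑ p ∈ S ∪ T, bb p.1 = 0 := by rw [← bb_cB h.st B, hb]
  have hodd : ∀ q ∈ S ∪ T, md (eB T B q) ≠ 0 := fun q hq => by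
    rw [h.eodd hq]
    exact one_ne_zero
  have hu := bXB_union_lam (q0 := q0) (e := eB T B) hl0 h.ub fun a ha => h.eb ha
  have hfull := bXB_full_lam (q0 := q0) h hh' hl0
  have hmd : md (llB (cB S T B)) = hf4 (nn (cB S T B)) := by
    have h3 : ∀ x y : ZMod 2, x + y = 0 → y = x := by decide
    rw [← hfull, bXB_union q0 (eB T B) 0 h.ub (fun a ha => h.eb ha), map_add, map_mul, md_two,
      zero_mul, add_zero, md_bXB_lam hl0 hodd]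
    exact h3 _ _ hb'
  have hc : Rt V ((EfX q0 (eB T B) (S ∪ T) - chX (hf4 (nn (cB S T B))) q0 (eB T B) (S ∪ T) *
      ∏ b ∈ B, sgz (bb b.1)) / 2) (hf4 (nn (cB S T B)) + xl4 (llB (cB S T B))) := by
    have e1 : EfX q0 (eB T B) (S ∪ T) - chX (hf4 (nn (cB S T B))) q0 (eB T B) (S ∪ T) *
        ∏ b ∈ B, sgz (bb b.1) = 1 + lm * e4 (2 * llB (cB S T B)) -
          dlX (hf4 (nn (cB S T B))) * e4 (-llB (cB S T B)) := by
      rw [EfX, chX, ← hfull, hu.1, hu.2]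
      ring
    rw [e1]
    exact Rt_rX hV _ hmd
  have h2 := (syX_B hV h ha hl0 hq hs).final_even (UqB_union 0 0 S T B) (UqB_dis 0 0 S T B)
    (fun b hb => hu1_X hA' hb) (fun b hb => hu0_X hA' hb)
    (fun b _ => h1X hV (hf4 (nn (cB S T B))) q0 (eB T B) (S ∪ T) (UqB 0 0 S T B) b)
    (fun b hb => h2_X hV h hA' (hf4 (nn (cB S T B))) ha hb) hr hb' hc
  have e3 : hf4 (nn (cB S T B)) + (hf4 (nn (cB S T B)) + xl4 (llB (cB S T B))) =
      xl4 (llB (cB S T B)) := by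
    have h3 : ∀ x y : ZMod 2, x + (x + y) = y := by decide
    exact h3 _ _
  rw [e3, pdt_nXB_a (Or.inl rfl) h hA' ha hh' h1 hr] at h2
  exact Rt_LaB_X0 hV h hA' ha hh' hq h1 h2

/-- **The field `x2` of the criterion.** -/
theorem lsB_x2 (h : Dj S T B) (hA : aa (cB S T B) = 0)
    (hb : hf4 (nn (cB S T B)) + bb (cB S T B) = 1) (hG : KerB0 0 0 S T B) :
    LQ (dB 0 0 S T B) := by
  obtain ⟨V, hV⟩ := exists_B2
  obtain ⟨r, hr⟩ := hG.1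
  have h1 := hG.cof h rfl rfl hr
  refine LQ_of_LaB h fun h0 => (Rt_B_X2 hV h hA hb hr).ne_zero h1 ?_
  change LaB (kkB 0 S T B) 0 (eB T B) (S ∪ T ∪ B) = 0 at h0
  rw [h0, zero_div]

/-- **The field `x3` of the criterion.** -/
theorem lsB_x3 (h : Dj S T B) (hA : aa (cB S T B) = 0)
    (hb : hf4 (nn (cB S T B)) + bb (cB S T B) = 0)
    (hG : KerB1 0 0 ![1, 0] (xl4 (llB (cB S T B))) S T B) : LQ (dB 0 0 S T B) := by
  obtain ⟨V, hV⟩ := exists_B2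
  obtain ⟨r, hr⟩ := hG.1
  have e1 : bpB ![1, 0] = fun q : Pg => aa q.1 := by
    funext q
    simp [bpB]
  have h1 := hG.cof h rfl rfl (by rw [e1, ← aa_cB h.st B, hA]) hr
  rw [e1] at h1
  refine LQ_of_LaB h fun h0 => (Rt_B_X3 hV h hA hb hr).ne_zero h1 ?_
  change LaB (kkB 0 S T B) 0 (eB T B) (S ∪ T ∪ B) = 0 at h0
  rw [h0, zero_div]

end

end Pool.Agent.Lib.MP_1a91b9_ntQ
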