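import Pool.Agent.Lib.MP_1a91b9_ntQ.B.InF
import Pool.Agent.Lib.MP_1a91b9_ntQ.B.DuC
import Pool.Agent.Lib.MP_1a91b9_ntQ.B.TopX2B
import Pool.Agent.Lib.MP_1a91b9_ntQ.B.CorD
import Pool.Agent.Lib.MP_1a91b9_ntQ.B.DuK

/-!
# Quartic twists, all fourth-power-free `D`, class J2d (`j = 2`, `k` even), file LaJ2e: `ν` even

`Rt_B_D2even` is the congruence for every `D` of the class with `aa c = 0`.
-/

set_option autoImplicit false

namespace Pool.Agent.Lib.MP_1a91b9_ntQ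

open NumberField Finset Pool.Agent.Lib.MP_1a91b9_nuT Pool.Agent.Lib.MP_1a91b9_nuT.S3
  Pool.Agent.Lib.MP_1a91b9_nuT.Ell

noncomputable section

variable {V : ValuationSubring ℂ} {q0 : Pg} {k : ZMod 4} {S T B : Finset Pg}

/-- the sum of the symbols at `lam` -/
theorem sum_bb_J2e (h : Dj S T B) (hA : aa (cB S T B) = 0) (hl : lJ k (cB S T B) = 0) :
    ∑ q ∈ S ∪ T, bb q.1 = 0 := by
  rw [← bb_cB h.st B]
  rw [lJ] at hl
  split_ifs at hl
  · rwa [hA, zero_add] at hl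
  · exact hl

/-- `llB` is even -/
theorem md_llB_J2e (h : Dj S T B) (hL : ∑ q ∈ S ∪ T, bb q.1 = 0) : md (llB (cB S T B)) = 0 := by
  rw [md_llB (cB_in4 S T B), bb_cB h.st B, hL]

/-- **The class of the coefficient.** -/
theorem Rt_wE (hV : (2 : ℂ)⁻¹ ∉ V) (h : Dj S T B) {h' : ZMod 2}
    (hh' : hh h' + nn (cB S T B) = 0) (hl0 : bb q0.1 = 0) (hL : ∑ q ∈ S ∪ T, bb q.1 = 0) :
    Rt V ((EfZ q0 (eB T B) (S ∪ T) - chZ q0 (eB T B) (S ∪ T) *
      ∏ b ∈ UqB k 2 S T B, sgz (bb b.1)) / lm ^ 2)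
      ((if llB (cB S T B) = 0 then 1 else 0) + ∑ b ∈ VB k 2 S T B, bb b.1) := by
  have hu := bXB_union_lam (q0 := q0) (e := eB T B) hl0 h.ub fun a ha => h.eb ha
  rw [bXB_full_lam (q0 := q0) h hh' hl0] at hu
  have hmd := md_llB_J2e h hL
  obtain ⟨y, hy⟩ : ∃ y, y = ∑ b ∈ VB k 2 S T B, bb b.1 := ⟨_, rfl⟩
  obtain ⟨t, ht⟩ : ∃ t, t = llB (cB S T B) := ⟨_, rfl⟩
  rw [← ht] at hu hmd
  have hV' : ∏ b ∈ VB k 2 S T B, sgz (bb b.1) = sgz y := by rw [hy, sgz_sum]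
  have hs2 : sgz y * sgz y = 1 := by
    rw [← sgz_add]
    have key : ∀ y : ZMod 2, y + y = 0 := by decide
    rw [key, sgz_zero]
  have hB' : ∏ b ∈ B, sgz (bb b.1) = (∏ b ∈ UqB k 2 S T B, sgz (bb b.1)) * sgz y := by
    rw [← hV', ← prod_union (UqB_dis k 2 S T B), UqB_union]
  have e1 : EfZ q0 (eB T B) (S ∪ T) - chZ q0 (eB T B) (S ∪ T) *
      ∏ b ∈ UqB k 2 S T B, sgz (bb b.1) = e4 (2 * t) + e4 (-t) * sgz y := by
    rw [EfZ, chZ, ← hu.2, hu.1, hB']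
    linear_combination -(e4 (-bXB q0 (eB T B) 0 (S ∪ T) lam) *
      ∏ b ∈ UqB k 2 S T B, sgz (bb b.1)) * hs2
  rw [e1, ← hy, ← ht]
  have key : ∀ t : ZMod 4, (ZMod.castHom (show 2 ∣ 4 by norm_num) (ZMod 2)) t = 0 →
      t = 0 ∨ t = 2 := by decide
  rcases key t hmd with h1 | h1
  · rw [h1, if_pos rfl, mul_zero, neg_zero, e4_zero, one_mul]
    have h2 := Rt_one_sub_sgz hV (1 + y)
    rw [sgz_add, sgz_one] at h2
    have e2 : (1 - -1 * sgz y) / lm ^ 2 = (1 + sgz y) / lm ^ 2 := by ring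
    rwa [e2] at h2
  · have h20 : (2 : ZMod 4) ≠ 0 := by decide
    have e0 : e4 (-2) = -1 := by
      have : (-2 : ZMod 4) = 2 := rfl
      rw [this, e4_two]
    have e3 : e4 (2 * 2) = 1 := by
      have : (2 * 2 : ZMod 4) = 0 := rfl
      rw [this, e4_zero]
    rw [h1, if_neg h20, zero_add, e0, e3]
    have h2 := Rt_one_sub_sgz hV y
    have e2 : (1 - sgz y) / lm ^ 2 = (1 + -1 * sgz y) / lm ^ 2 := by ring
    rwa [e2] at h2

/-- the weights vanish -/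
theorem kapJ_J2e (hk : k = 0 ∨ k = 2) (h : Dj S T B) (hA : ∑ q ∈ S ∪ T, aa q.1 = 0)
    (h' : ZMod 2) (b : Pg) : kapJ (kkB k S T B) (2 : Fin 4).val (hh h') q0 b = 0 := by
  rw [kapJ, kkB_X h hA, md_hh, zero_mul, add_zero]
  exact kapB_J2e hk b

/-- the coefficient `m` -/
def mJ (k : ZMod 4) : ZMod 2 := if k = 2 then 1 else 0

/-- **The value, `ν` even, with the data of an auxiliary prime.** -/
theorem Rt_LaJ_J2e (hV : (2 : ℂ)⁻¹ ∉ V) (hk : k = 0 ∨ k = 2) (h : Dj S T B)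
    (hA : ∑ q ∈ S ∪ T, aa q.1 = 0) (hL : ∑ q ∈ S ∪ T, bb q.1 = 0) (h0 : aa q0.1 = 1)
    (hl0 : bb q0.1 = 0) {h' : ZMod 2} (hh' : hh h' + nn (cB S T B) = 0) (hq : q0 ∉ S ∪ T ∪ B)
    (hs : ∀ b ∈ B, s4 q0 b = 0) (h1 : ∑ p ∈ S ∪ T, s4 q0 p = 1) {r : Pg} (hr : r ∈ S ∪ T) :
    Rt V (LaMZ k h' q0 (eB T B) (S ∪ T) B /
        lm ^ ((S ∪ T).card + (UqB k 2 S T B).card + 2 * (VB k 2 S T B).card + 1))
      ((BM (pmG (MqB k 2 S T B) (S ∪ T ∪ VB k 2 S T B)) (fun i => bpB ![mJ k, 1] i)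
        (fun i => bpB ![mJ k, 1] i) (1 + mJ k * h' + if llB (cB S T B) = 0 then 1 else 0)).adjugate
        (Sum.inl ⟨r, mem_union_left _ hr⟩) (Sum.inl ⟨r, mem_union_left _ hr⟩)) := by
  have hodd : ∀ q ∈ S ∪ T, md (eB T B q) ≠ 0 := fun q hq => by
    rw [h.eodd hq]
    exact one_ne_zero
  have hkap : ∀ b : Pg, kapJ (kkB k S T B) (2 : Fin 4).val (hh h') q0 b = 0 :=
    fun b => kapJ_J2e hk h hA h' b
  have hU1 : ∀ b ∈ UqB k 2 S T B, ∑ p ∈ S ∪ T, nXB q0 b p = 1 := fun b hb => by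
    have h2 := hu1_J h hh' q0 hb
    rwa [hkap, zero_add] at h2
  have hV0 : ∀ b ∈ VB k 2 S T B, ∑ p ∈ S ∪ T, nXB q0 b p = 0 := fun b hb => by
    have h2 := hu0_J h hh' q0 hb
    rwa [hkap, zero_add] at h2
  have hfin := (syDEZ hV hk h0 hl0 h' h.ub hodd (fun q hq => h.eb hq) hq hs).final
    (UqB_union k 2 S T B) (UqB_dis k 2 S T B) hr hL hU1 hV0
    (τ := tauJB k 2 (hh h') q0 S T B)
    (fun b hb => by
      have h3 := h2J hV k 2 h0 (hh h') (e := eB T B) (T := S ∪ T) (U := UqB k 2 S T B)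
        (disjoint_of_subset_right sdiff_subset h.ub) hodd
        (fun a ha => h.eb (mem_sdiff.1 ha).1) (b := b) (by
          rw [kapB_J2e hk, md_hh, zero_mul, add_zero, zero_add]
          exact hV0 b hb)
      rw [tauJB, kkB_X h hA]
      exact h3)
    (Rt_wE (k := k) hV h hh' hl0 hL)
  have hw : (if llB (cB S T B) = 0 then (1 : ZMod 2) else 0) + ∑ b ∈ VB k 2 S T B, bb b.1 +
      ∑ b ∈ VB k 2 S T B, bb b.1 = if llB (cB S T B) = 0 then 1 else 0 := by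
    have key : ∀ x y : ZMod 2, x + y + y = x := by decide
    exact key _ _
  rw [hw] at hfin
  have hd := duE hk h hA hL h0 hh' h1 hr (m := mJ k) (y := h')
    (if llB (cB S T B) = 0 then 1 else 0) (κ := fun _ => 0) (τ := tauJB k 2 (hh h') q0 S T B)
    (s0 := fun b => s4 q0 b) (v := fun b => mJ k * (kpZ k b + h' * s4 q0 b) + s4 q0 b)
    (c := fun b => kpZ k b + (1 + h') * s4 q0 b) (lb := fun b => bb b.1)
    (fun _ _ => rfl) (fun _ _ => rfl) (fun _ _ => rfl) (fun _ _ => rfl)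
    (fun p _ => by
      rcases hk with rfl | rfl
      · have h02 : (0 : ZMod 4) ≠ 2 := by decide
        rw [mJ, if_neg h02, zero_mul, zero_mul]
      · rw [mJ, kpZ, if_pos rfl, if_pos rfl])
    (fun p _ => by
      rcases hk with rfl | rfl
      · have h02 : (0 : ZMod 4) ≠ 2 := by decide
        rw [mJ, kpZ, if_neg h02, if_neg h02, zero_mul]
      · rw [mJ, kpZ, if_pos rfl, if_pos rfl, one_mul])
  rw [← hd]
  exact hfin

/-- from the sum of the blocks to the value -/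
theorem Rt_LaB_J2e (hV : (2 : ℂ)⁻¹ ∉ V) (hk : k = 0 ∨ k = 2) (h : Dj S T B)
    (hA : ∑ q ∈ S ∪ T, aa q.1 = 0) {h' : ZMod 2} (h0 : aa q0.1 = 1)
    (hh' : hh h' + nn (cB S T B) = 0) (hq : q0 ∉ S ∪ T ∪ B) (h1 : ∑ p ∈ S ∪ T, s4 q0 p = 1)
    {n : ℕ} {y : ZMod 2} (hy : Rt V (LaMZ k h' q0 (eB T B) (S ∪ T) B / lm ^ (n + 1)) y) :
    Rt V (LaB (kkB k S T B) 2 (eB T B) (S ∪ T ∪ B) /
      (LaB (kkB k S T B) 2 (eB T B) ∅ * lm ^ (n + 2))) y := by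
  rw [kkB_X h hA]
  have hl := lm_ne
  have hodd : ∀ q ∈ S ∪ T, md (eB T B q) ≠ 0 := fun q hq => by
    rw [h.eodd hq]
    exact one_ne_zero
  have h2 := Rt_LaJ_of hV k 2 h0 (h := hh h') (e := eB T B) h.ub hodd (fun q hq => h.eb hq) hq
    (by rw [h.sum_e_nn]; exact hh') (by rw [kapB_J2e hk, zero_add]; exact h1)
    (K := KZ k * lm ^ n) (y := y) (by
      have e1 : LaJ k 2 (hh h') q0 (eB T B) (S ∪ T) B / (KZ k * lm ^ n * lm) =
          LaMZ k h' q0 (eB T B) (S ∪ T) B / lm ^ (n + 1) := by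
        rw [LaMZ, div_div, pow_succ, mul_assoc]
      rw [e1]
      exact hy)
  have h3 := (Rt_ztX hV).mul hV h2
  rw [one_mul] at h3
  have e1 : zt * (LaB k 2 (eB T B) (S ∪ T ∪ B) / (KZ k * lm ^ n)) =
      LaB k 2 (eB T B) (S ∪ T ∪ B) / (LaB k 2 (eB T B) ∅ * lm ^ (n + 2)) := by
    have h4 := zt_neZ
    have h5 := UB_base_ne hk
    rw [KZ, LaB_empty, pow_add]
    field_simp
  rwa [e1] at h3

/-- the corner -/
theorem corner_J2e (hk : k = 0 ∨ k = 2) (h : Dj S T B) (hA : aa (cB S T B) = 0)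
    (hl : lJ k (cB S T B) = 0) {h' : ZMod 2} (hh' : hh h' + nn (cB S T B) = 0) :
    1 + mJ k * h' + (if llB (cB S T B) = 0 then 1 else 0) = uJ k (cB S T B) := by
  have h2 := md_llB_J2e h (sum_bb_J2e h hA hl)
  rw [uJ_even hk (cB_in4 S T B) hA hl]
  rcases hk with rfl | rfl
  · have h02 : (0 : ZMod 4) ≠ 2 := by decide
    have key : ∀ t : ZMod 4, (ZMod.castHom (show 2 ∣ 4 by norm_num) (ZMod 2)) t = 0 →
        (1 : ZMod 2) + (if t = 0 then 1 else 0) = if t = 2 then 1 else 0 := by decide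
    rw [if_neg h02, mJ, if_neg h02, zero_mul, add_zero]
    exact key _ h2
  · have key2 : ∀ (h' : ZMod 2) (n : ZMod 4), hh h' + n = 0 → h' = if n = 2 then 1 else 0 := by
      unfold hh
      decide
    rw [if_pos rfl, mJ, if_pos rfl, one_mul, ← key2 _ _ hh']

theorem mJ_pJ (k : ZMod 4) : (![mJ k, 1] : Fin 2 → ZMod 2) = pJ k := by
  rw [mJ, pJ]
  split_ifs <;> rfl

/-- **Class (J2d), `ν` even** : the congruence for every `D` of the class. -/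
theorem Rt_B_D2even (hV : (2 : ℂ)⁻¹ ∉ V) (hk : k = 0 ∨ k = 2) (h : Dj S T B)
    (hA : aa (cB S T B) = 0) (hl : lJ k (cB S T B) = 0) {r : Pg} (hr : r ∈ S ∪ T) :
    Rt V (LaB (kkB k S T B) 2 (eB T B) (S ∪ T ∪ B) / (LaB (kkB k S T B) 2 (eB T B) ∅ *
        lm ^ ((S ∪ T).card + (UqB k 2 S T B).card + 2 * (VB k 2 S T B).card + 2)))
      ((BM (pmG (MqB k 2 S T B) (S ∪ T ∪ VB k 2 S T B)) (fun i => bpB (pJ k) i)
        (fun i => bpB (pJ k) i) (uJ k (cB S T B))).adjugate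
        (Sum.inl ⟨r, mem_union_left _ hr⟩) (Sum.inl ⟨r, mem_union_left _ hr⟩)) := by
  have hA' : ∑ q ∈ S ∪ T, aa q.1 = 0 := by rw [← aa_cB h.st B, hA]
  have hL := sum_bb_J2e h hA hl
  have hne : (S ∪ T).Nonempty := ⟨r, hr⟩
  obtain ⟨q0, -, hq, ha, hl0, hs, h1⟩ := exists_auxB hne.ne_empty h.ub 0
  have hh' : hh (hf4 (nn (cB S T B))) + nn (cB S T B) = 0 := hh_hf4 hA
  have h2 := Rt_LaJ_J2e hV hk h hA' hL ha hl0 hh' hq hs h1 hr
  rw [corner_J2e hk h hA hl hh', mJ_pJ] at h2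
  exact Rt_LaB_J2e hV hk h hA' ha hh' hq h1 h2

end

end Pool.Agent.Lib.MP_1a91b9_ntQ
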