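import Pool.Agent.Lib.MP_1a91b9_ntQ.B.LsJ2o
import Pool.Agent.Lib.MP_1a91b9_ntQ.B.LaJ2e

/-!
# Quartic twists, part B, file LsJ2d: the L side of class J2d (`j = 2`, `k` even, second order)

`Rt_B_D2` : the congruence for every `D` of the class; `lsB_d20`, `lsB_d22` : the fields of the criterion.
-/

set_option autoImplicit false

namespace Pool.Agent.Lib.MP_1a91b9_ntQ

open NumberField Finset Pool.Agent.Lib.MP_1a91b9_nuT Pool.Agent.Lib.MP_1a91b9_nuT.S3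
  Pool.Agent.Lib.MP_1a91b9_nuT.Ell

noncomputable section

variable {V : ValuationSubring ℂ} {k : ZMod 4} {S T B : Finset Pg}

/-- **Class J2d, the value** : the congruence for every `D` of the class. -/
theorem Rt_B_D2 (hV : (2 : ℂ)⁻¹ ∉ V) (hk : k = 0 ∨ k = 2) (h : Dj S T B)
    (hl : lJ k (cB S T B) = 0) {r : Pg} (hr : r ∈ S ∪ T) :
    Rt V (LaB (kkB k S T B) 2 (eB T B) (S ∪ T ∪ B) / (LaB (kkB k S T B) 2 (eB T B) ∅ *
        lm ^ ((S ∪ T).card + (UqB k 2 S T B).card + 2 * (VB k 2 S T B).card + 2)))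
      ((BM (pmG (MqB k 2 S T B) (S ∪ T ∪ VB k 2 S T B)) (fun i => bpB (pJ k) i)
        (fun i => bpB (pJ k) i) (uJ k (cB S T B))).adjugate (Sum.inl ⟨r, mem_union_left _ hr⟩)
        (Sum.inl ⟨r, mem_union_left _ hr⟩)) := by
  have z2 : ∀ x : ZMod 2, x = 1 ∨ x = 0 := by decide
  rcases z2 (aa (cB S T B)) with hA | hA
  · exact Rt_B_D2odd hV hk h hA hl hr
  · exact Rt_B_D2even hV hk h hA hl hr

/-- **Class J2d, `k = 0`.** -/
theorem Rt_B_D20 (hV : (2 : ℂ)⁻¹ ∉ V) (h : Dj S T B) (hb : bb (cB S T B) = 0) {r : Pg}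
    (hr : r ∈ S ∪ T) :
    Rt V (LaB (kkB 0 S T B) 2 (eB T B) (S ∪ T ∪ B) / (LaB (kkB 0 S T B) 2 (eB T B) ∅ *
        lm ^ ((S ∪ T).card + (UqB 0 2 S T B).card + 2 * (VB 0 2 S T B).card + 2)))
      ((BM (pmG (MqB 0 2 S T B) (S ∪ T ∪ VB 0 2 S T B)) (fun i => bpB ![0, 1] i)
        (fun i => bpB ![0, 1] i) (uB0 (mmB (cB S T B)) (nnB (cB S T B)))).adjugate
        (Sum.inl ⟨r, mem_union_left _ hr⟩) (Sum.inl ⟨r, mem_union_left _ hr⟩)) := by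
  have h1 := Rt_B_D2 hV (Or.inl rfl) h (by rw [lJ, if_neg (by decide), hb]) hr
  rw [pJ_zero, uJ_zero] at h1
  exact h1

/-- **Class J2d, `k = 2`.** -/
theorem Rt_B_D22 (hV : (2 : ℂ)⁻¹ ∉ V) (h : Dj S T B) (hb : aa (cB S T B) + bb (cB S T B) = 0)
    {r : Pg} (hr : r ∈ S ∪ T) :
    Rt V (LaB (kkB 2 S T B) 2 (eB T B) (S ∪ T ∪ B) / (LaB (kkB 2 S T B) 2 (eB T B) ∅ *
        lm ^ ((S ∪ T).card + (UqB 2 2 S T B).card + 2 * (VB 2 2 S T B).card + 2)))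
      ((BM (pmG (MqB 2 2 S T B) (S ∪ T ∪ VB 2 2 S T B)) (fun i => bpB ![1, 1] i)
        (fun i => bpB ![1, 1] i) (uB2 (mmB (cB S T B)) (nnB (cB S T B)))).adjugate
        (Sum.inl ⟨r, mem_union_left _ hr⟩) (Sum.inl ⟨r, mem_union_left _ hr⟩)) := by
  have h1 := Rt_B_D2 hV (Or.inr rfl) h (by rw [lJ, if_pos rfl, hb]) hr
  rw [pJ_two, uJ_two] at h1
  exact h1

/-- **The field `d20` of the criterion.** -/
theorem lsB_d20 (h : Dj S T B) (hb : bb (cB S T B) = 0)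
    (hG : KerB1 0 2 ![0, 1] (uB0 (mmB (cB S T B)) (nnB (cB S T B))) S T B) :
    LQ (dB 0 2 S T B) := by
  obtain ⟨V, hV⟩ := exists_B2
  obtain ⟨r, hr⟩ := hG.1
  have h2 : ∑ q ∈ S ∪ T, bpB ![0, 1] q = 0 := by
    rw [← pJ_zero, sum_bpJ h, lJ, if_neg (by decide), hb]
  have h1 := hG.cof h rfl rfl h2 hr
  refine LQ_of_LaB h fun h0 => (Rt_B_D20 hV h hb hr).ne_zero h1 ?_
  change LaB (kkB 0 S T B) 2 (eB T B) (S ∪ T ∪ B) = 0 at h0
  rw [h0, zero_div]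

/-- **The field `d22` of the criterion.** -/
theorem lsB_d22 (h : Dj S T B) (hb : aa (cB S T B) + bb (cB S T B) = 0)
    (hG : KerB1 2 2 ![1, 1] (uB2 (mmB (cB S T B)) (nnB (cB S T B))) S T B) :
    LQ (dB 2 2 S T B) := by
  obtain ⟨V, hV⟩ := exists_B2
  obtain ⟨r, hr⟩ := hG.1
  have h2 : ∑ q ∈ S ∪ T, bpB ![1, 1] q = 0 := by
    rw [← pJ_two, sum_bpJ h, lJ, if_pos rfl, hb]
  have h1 := hG.cof h rfl rfl h2 hr
  refine LQ_of_LaB h fun h0 => (Rt_B_D22 hV h hb hr).ne_zero h1 ?_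
  change LaB (kkB 2 S T B) 2 (eB T B) (S ∪ T ∪ B) = 0 at h0
  rw [h0, zero_div]

end

end Pool.Agent.Lib.MP_1a91b9_ntQ
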