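import Pool.Agent.Lib.MP_1a91b9_ntQ.B.FormG
import Pool.Agent.Lib.MP_1a91b9_ntQ.B.LsJ2d

/-!
# MP_1a91b9_nt (quartic twists), all fourth-power-free `D`, file FormJ2d: the formula modulo `2` in the
class J2d
-/

set_option autoImplicit false

namespace Pool.Agent.Lib.MP_1a91b9_ntQ

open NumberField IsDedekindDomain Finset Pool.Agent.Lib.MP_1a91b9_nuT

noncomputable section

theorem foJ2d0 : FoJ2d0 := by
  intro S T B h hne hb hT
  obtain ⟨r, hr⟩ := hne
  refine formB_J2d_of (Or.inl rfl) h hr hT ?_ (norm_J2c (kkB_even (Or.inl rfl) S T B) (eB T B))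
    (d := 2) (by norm_num) fun A hA => Rt_B_D20 hA h hb hr
  rw [← pJ_zero, sum_bpJ h, lJ, if_neg (by decide), hb]

theorem foJ2d2 : FoJ2d2 := by
  intro S T B h hne hb hT
  obtain ⟨r, hr⟩ := hne
  refine formB_J2d_of (Or.inr rfl) h hr hT ?_ (norm_J2c (kkB_even (Or.inr rfl) S T B) (eB T B))
    (d := 2) (by norm_num) fun A hA => Rt_B_D22 hA h hb hr
  rw [← pJ_two, sum_bpJ h, lJ, if_pos rfl, hb]

end

end Pool.Agent.Lib.MP_1a91b9_ntQ
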