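import Pool.Agent.Lib.MP_1a91b9_ntQ.B.TamB
import Pool.Agent.Lib.MP_1a91b9_ntQ.B.GlD
import Pool.Agent.Lib.MP_1a91b9_ntQ.C.TamIII

/-!
# Quartic twists, all fourth-power-free `D`, file PrdB: the product of the Tamagawa numbers, the period

`D = dB k j S T B`. The product of the Tamagawa numbers is `2 ^ #(S ∪ T) 2 ^ #(B - V) 4 ^ #V 2 ^ (tL k j c)`.
-/

set_option autoImplicit false
set_option linter.unusedSectionVars false

namespace Pool.Agent.Lib.MP_1a91b9_ntQ.C

open NumberField IsDedekindDomain WithZero WeierstrassCurve Finset Pool.Agent.Lib.MP_1a91b9_ntQ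
open Pool.Agent.Lib.MP_1a91b9_nuT (Om)
open Pool.Agent.Lib.MP_1a91b9_ntT.S9 (tam period minChange)
open scoped Classical

/-- The exponent of the Tamagawa number at `lam`. -/
noncomputable def tL (k : ZMod 4) (j : Fin 4) (c : 𝓞 K4) : ℕ :=
  if j = 0 then
    (if md k = 1 ∨ aa c = 1 then 0
    else if k = 2 then 1
    else if hf4 (nn c) + bb c = 1 then 1 else 2)
  else if j = 2 then
    (if k = 1 then 1 else if k = 3 then 2
    else if k = 0 then (if bb c = 1 then 1 else 2)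
    else (if aa c + bb c = 1 then 1 else 2))
  else 1

/-! ### Congruences -/

theorem int_dvd_coords {n p q : ℤ} (h : (n : 𝓞 K4) ∣ (p : 𝓞 K4) + (q : 𝓞 K4) * iO) : n ∣ p ∧ n ∣ q := by
  obtain ⟨t, ht⟩ := h
  have e : (p : 𝓞 K4) + (q : 𝓞 K4) * iO =
      ((n * (cp t).1 : ℤ) : 𝓞 K4) + ((n * (cp t).2 : ℤ) : 𝓞 K4) * iO := by
    rw [ht]
    conv_lhs => rw [eq_cp t]
    push_cast
    ring
  obtain ⟨h1, h2⟩ := coords_inj e
  exact ⟨⟨_, h1⟩, ⟨_, h2⟩⟩

theorem coords_dvd_int {n p q : ℤ} (h1 : n ∣ p) (h2 : n ∣ q) :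
    (n : 𝓞 K4) ∣ (p : 𝓞 K4) + (q : 𝓞 K4) * iO := by
  obtain ⟨a, rfl⟩ := h1
  obtain ⟨b, rfl⟩ := h2
  exact ⟨(a : 𝓞 K4) + (b : 𝓞 K4) * iO, by push_cast; ring⟩

/-- the coordinates of `c` -/
theorem in4_coords (m n : ℤ) : (1 + lam ^ 3 * ((m : 𝓞 K4) + (n : 𝓞 K4) * iO) : 𝓞 K4) =
    ((1 - 2 * m - 2 * n : ℤ) : 𝓞 K4) + ((2 * m - 2 * n : ℤ) : 𝓞 K4) * iO := by
  rw [lam_cube]
  push_cast
  linear_combination 2 * (n : 𝓞 K4) * iO_sq

theorem not_eight {D : 𝓞 K4} (h : ¬ lam ^ 3 ∣ D + 1) :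
    ¬ 8 ∣ D - (1 + 2 * iO) ∧ ¬ 8 ∣ D - (1 - 2 * iO) := by
  have h8 : (lam : 𝓞 K4) ^ 3 ∣ 8 := ⟨-2 - 2 * iO, by
    rw [lam_cube]
    linear_combination 4 * iO_sq⟩
  constructor
  · intro h1
    apply h
    have h2 : (lam : 𝓞 K4) ^ 3 ∣ 2 + 2 * iO := ⟨-iO, by
      rw [lam_cube]
      linear_combination 2 * iO_sq⟩
    have e : D + 1 = (D - (1 + 2 * iO)) + (2 + 2 * iO) := by ring
    rw [e]
    exact dvd_add (h8.trans h1) h2
  · intro h1
    apply h
    have h2 : (lam : 𝓞 K4) ^ 3 ∣ 2 - 2 * iO := ⟨-1, by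
      rw [lam_cube]
      ring⟩
    have e : D + 1 = (D - (1 - 2 * iO)) + (2 - 2 * iO) := by ring
    rw [e]
    exact dvd_add (h8.trans h1) h2

theorem zmod2_odd {m : ℤ} (h : (m : ZMod 2) = 1) : ∃ t, m = 2 * t + 1 := by
  rcases Int.even_or_odd' m with ⟨t, h1 | h1⟩
  · rw [h1] at h
    push_cast at h
    have h2 : (2 : ZMod 2) = 0 := rfl
    rw [h2, zero_mul] at h
    exact absurd h zero_ne_one
  · exact ⟨t, h1⟩

theorem zmod2_even {m : ℤ} (h : (m : ZMod 2) = 0) : ∃ t, m = 2 * t := by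
  rcases Int.even_or_odd' m with ⟨t, h1 | h1⟩
  · exact ⟨t, h1⟩
  · rw [h1] at h
    push_cast at h
    have h2 : (2 : ZMod 2) = 0 := rfl
    rw [h2, zero_mul, zero_add] at h
    exact absurd h one_ne_zero

theorem ne_one2 {x : ZMod 2} (h : ¬ x = 1) : x = 0 := by
  revert x
  decide

theorem md_or {k : ZMod 4} (h : ¬ md k = 1) : k = 0 ∨ k = 2 := by
  have key : ∀ k : ZMod 4, ¬ (ZMod.castHom (show 2 ∣ 4 by norm_num) (ZMod 2)) k = 1 →
      k = 0 ∨ k = 2 := by decide
  exact key k h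

theorem md_ne {k : ZMod 4} (h : md k = 1) : k ≠ 0 ∧ k ≠ 2 ∧ k + 2 ≠ 2 := by
  have key : ∀ k : ZMod 4, (ZMod.castHom (show 2 ∣ 4 by norm_num) (ZMod 2)) k = 1 →
      k ≠ 0 ∧ k ≠ 2 ∧ k + 2 ≠ 2 := by decide
  exact key k h

/-- `i ^ k c + 1` -/
theorem ik_add_one {k : ZMod 4} (hk : k ≠ 2) {c : 𝓞 K4} (hc : In4 c) :
    ¬ lam ^ 3 ∣ iO ^ k.val * c + 1 := by
  intro h
  have h1 : In4 (iO ^ (2 : ZMod 4).val * (iO ^ k.val * c)) := by
    have e : iO ^ (2 : ZMod 4).val * (iO ^ k.val * c) - 1 = -(iO ^ k.val * c + 1) := by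
      have e2 : iO ^ (2 : ZMod 4).val = (-1 : 𝓞 K4) := iO_sq
      rw [e2]
      ring
    rw [In4, e, dvd_neg]
    exact h
  rw [← mul_assoc, pow_val_mul] at h1
  have h2 : iO ^ (2 + k : ZMod 4).val * c = iO ^ (0 : ZMod 4).val * (iO ^ (2 + k : ZMod 4).val * c) := by
    rw [ZMod.val_zero, pow_zero, one_mul]
  have h3 := (in4_unique hc h1 h2).1
  apply hk
  have key : ∀ k : ZMod 4, 2 + k = 0 → k = 2 := by decide
  exact key k h3

/-- `i ^ k c - 1` -/
theorem ik_sub_one {k : ZMod 4} (hk : k ≠ 0) {c : 𝓞 K4} (hc : In4 c) :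
    ¬ lam ^ 3 ∣ iO ^ k.val * c - 1 := by
  intro h
  have h2 : iO ^ k.val * c = iO ^ (0 : ZMod 4).val * (iO ^ k.val * c) := by
    rw [ZMod.val_zero, pow_zero, one_mul]
  exact hk (in4_unique hc h h2).1

theorem mn_one (m n : ℤ) : (m : ZMod 4) + (n : ZMod 4) = 1 ↔ (4 : ℤ) ∣ m + n - 1 := by
  have h := ZMod.intCast_zmod_eq_zero_iff_dvd (m + n - 1) 4
  push_cast at h
  rw [← h, sub_eq_zero]

/-- good reduction -/
theorem eight_neg (m n : ℤ) {D : 𝓞 K4} (hD : D = -(1 + lam ^ 3 * ((m : 𝓞 K4) + (n : 𝓞 K4) * iO))) :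
    (8 ∣ D - (1 + 2 * iO) ∨ 8 ∣ D - (1 - 2 * iO)) ↔
      (m : ZMod 4) + (n : ZMod 4) = 1 := by
  have hmn := mn_one m n
  have e1 : D - (1 + 2 * iO) =
      ((-2 + 2 * m + 2 * n : ℤ) : 𝓞 K4) + ((2 * n - 2 * m - 2 : ℤ) : 𝓞 K4) * iO := by
    rw [hD, in4_coords]
    push_cast
    ring
  have e2 : D - (1 - 2 * iO) =
      ((-2 + 2 * m + 2 * n : ℤ) : 𝓞 K4) + ((2 * n - 2 * m + 2 : ℤ) : 𝓞 K4) * iO := by
    rw [hD, in4_coords]
    push_cast
    ring
  have e8 : (8 : 𝓞 K4) = ((8 : ℤ) : 𝓞 K4) := by norm_num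
  rw [hmn, e1, e2, e8]
  constructor
  · rintro (h | h)
    · obtain ⟨h1, h2⟩ := int_dvd_coords h
      omega
    · obtain ⟨h1, h2⟩ := int_dvd_coords h
      omega
  · intro h
    have h5 : (8 : ℤ) ∣ 2 * n - 2 * m - 2 ∨ (8 : ℤ) ∣ 2 * n - 2 * m + 2 := by omega
    have h6 : (8 : ℤ) ∣ -2 + 2 * m + 2 * n := by omega
    exact h5.imp (fun h7 => coords_dvd_int h6 h7) fun h7 => coords_dvd_int h6 h7

/-! ### The place above `2` -/

variable {D c : 𝓞 K4} {v : HeightOneSpectrum (𝓞 K4)}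

theorem pw2 : iO ^ (2 : ZMod 4).val = (-1 : 𝓞 K4) := iO_sq

/-- `j = 0` -/
theorem tamB_lam0 {k : ZMod 4} (hc : In4 c) (hD : D = iO ^ k.val * c) (hv : lam ∈ v.asIdeal)
    (hval : exp (-3 : ℤ) ≤ v.valuation K4 (D : K4)) : tam (WD4 D) v = 2 ^ tL k 0 c := by
  have hl : ¬ lam ∣ D := by
    rw [hD]
    intro h
    rcases lam_prime.dvd_or_dvd h with h1 | h1
    · exact lam_prime.not_isUnit (isUnit_of_dvd_unit h1 (isUnit_iO.pow _))
    · exact hc.not_lam h1
  have hu2 : k ≠ 2 → Valued.v ((minChange (WD4 D) v).u : v.adicCompletion K4) = (1 : ℤᵐ⁰) := by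
    intro hk
    have h3 := not_eight (D := D) (by rw [hD]; exact ik_add_one hk hc)
    exact perB_u hval h3.1 h3.2
  unfold tL
  rw [if_pos rfl]
  by_cases hk1 : md k = 1
  · obtain ⟨hk0, hk2, -⟩ := md_ne hk1
    rw [if_pos (Or.inl hk1), pow_zero]
    exact tam4_lam_I hl (by rw [hD]; exact ik_sub_one hk0 hc) (by rw [hD]; exact ik_add_one hk2 hc) hv
      (hu2 hk2)
  obtain ⟨m, n, hmn⟩ := in4_form hc
  have haa : aa c = (m : ZMod 2) + (n : ZMod 2) := by rw [hmn, aa_form]
  have hnn : nn c = (m : ZMod 4) + (n : ZMod 4) := by rw [hmn, nn_form]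
  have hbb : bb c = (n : ZMod 2) := by rw [hmn, bb_form]
  have e4 : (4 : 𝓞 K4) = ((4 : ℤ) : 𝓞 K4) := by norm_num
  have e8 : (8 : 𝓞 K4) = ((8 : ℤ) : 𝓞 K4) := by norm_num
  by_cases ha : aa c = 1
  · rw [if_pos (Or.inr ha), pow_zero]
    rw [haa, ← Int.cast_add] at ha
    obtain ⟨s, hs⟩ := zmod2_odd ha
    rcases md_or hk1 with rfl | rfl
    · refine tam4_lam_II ?_ hv (hu2 (by decide))
      have e : D - (3 + 2 * iO) =
          ((-2 - 2 * m - 2 * n : ℤ) : 𝓞 K4) + ((2 * m - 2 * n - 2 : ℤ) : 𝓞 K4) * iO := by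
        rw [hD, hmn, in4_coords, ZMod.val_zero, pow_zero, one_mul]
        push_cast
        ring
      rw [e, e4]
      exact coords_dvd_int (by omega) (by omega)
    · refine tam4_lam_III ?_ hv fun h => ?_
      · have e : D - (1 + 2 * iO) =
            ((-2 + 2 * m + 2 * n : ℤ) : 𝓞 K4) + ((2 * n - 2 * m - 2 : ℤ) : 𝓞 K4) * iO := by
          rw [hD, hmn, in4_coords, pw2]
          push_cast
          ring
        rw [e, e4]
        exact coords_dvd_int (by omega) (by omega)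
      · have e5 : D - (5 + 2 * iO) =
            ((-6 + 2 * m + 2 * n : ℤ) : 𝓞 K4) + ((2 * n - 2 * m - 2 : ℤ) : 𝓞 K4) * iO := by
          rw [hD, hmn, in4_coords, pw2]
          push_cast
          ring
        have e6 : D - (5 - 2 * iO) =
            ((-6 + 2 * m + 2 * n : ℤ) : 𝓞 K4) + ((2 * n - 2 * m + 2 : ℤ) : 𝓞 K4) * iO := by
          rw [hD, hmn, in4_coords, pw2]
          push_cast
          ring
        have hne : ¬ ((m : ZMod 4) + (n : ZMod 4) = 1) := by
          intro h1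
          have h2 := (mn_one m n).1 h1
          rw [e5, e6, e8] at h
          rcases h with h | h
          · have := (int_dvd_coords h).1
            omega
          · have := (int_dvd_coords h).1
            omega
        have h9 := (not_congr (eight_neg m n (D := D) (by rw [hD, hmn, pw2, neg_one_mul]))).2 hne
        rw [not_or] at h9
        exact perB_u hval h9.1 h9.2
  · rw [if_neg (not_or.2 ⟨hk1, ha⟩)]
    have ha' := ne_one2 ha
    rw [haa, ← Int.cast_add] at ha'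
    obtain ⟨s, hs⟩ := zmod2_even ha'
    rcases md_or hk1 with rfl | rfl
    · rw [if_neg (by decide)]
      have eD : D = ((1 - 2 * m - 2 * n : ℤ) : 𝓞 K4) + ((2 * m - 2 * n : ℤ) : 𝓞 K4) * iO := by
        rw [hD, hmn, in4_coords, ZMod.val_zero, pow_zero, one_mul]
      have hh : hf4 (nn c) = (s : ZMod 2) := by
        rw [hnn, ← Int.cast_add, hs]
        have key : ∀ x : ZMod 4, (if 2 * x = 2 then (1 : ZMod 2) else 0) =
            (ZMod.castHom (show 2 ∣ 4 by norm_num) (ZMod 2)) x := by decide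
        have h7 := key (s : ZMod 4)
        rw [map_intCast] at h7
        rw [← h7, hf4]
        push_cast
        rfl
      by_cases hx : hf4 (nn c) + bb c = 1
      · rw [if_pos hx, pow_one]
        rw [hh, hbb, ← Int.cast_add] at hx
        obtain ⟨t, ht⟩ := zmod2_odd hx
        refine tam4_lam_X2 ?_ hv (hu2 (by decide))
        have e1 : D - (1 + 4 * iO) =
            ((-2 * m - 2 * n : ℤ) : 𝓞 K4) + ((2 * m - 2 * n - 4 : ℤ) : 𝓞 K4) * iO := by
          rw [eD]
          push_cast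
          ring
        have e5 : D - (5 + 4 * iO) =
            ((-4 - 2 * m - 2 * n : ℤ) : 𝓞 K4) + ((2 * m - 2 * n - 4 : ℤ) : 𝓞 K4) * iO := by
          rw [eD]
          push_cast
          ring
        rw [e1, e5, e8]
        rcases Int.even_or_odd' s with ⟨r, h | h⟩
        · exact Or.inl (coords_dvd_int (by omega) (by omega))
        · exact Or.inr (coords_dvd_int (by omega) (by omega))
      · rw [if_neg hx]
        have hx' := ne_one2 hx
        rw [hh, hbb, ← Int.cast_add] at hx'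
        obtain ⟨t, ht⟩ := zmod2_even hx'
        refine (tam4_lam_X3 ?_ hv (hu2 (by decide))).trans (by norm_num)
        have e1 : D - 1 =
            ((-2 * m - 2 * n : ℤ) : 𝓞 K4) + ((2 * m - 2 * n : ℤ) : 𝓞 K4) * iO := by
          rw [eD]
          push_cast
          ring
        have e5 : D - 5 =
            ((-4 - 2 * m - 2 * n : ℤ) : 𝓞 K4) + ((2 * m - 2 * n : ℤ) : 𝓞 K4) * iO := by
          rw [eD]
          push_cast
          ring
        rw [e1, e5, e8]
        rcases Int.even_or_odd' s with ⟨r, h | h⟩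
        · exact Or.inl (coords_dvd_int (by omega) (by omega))
        · exact Or.inr (coords_dvd_int (by omega) (by omega))
    · rw [if_pos rfl, pow_one]
      refine tam4_lam_X1 ?_ hv ?_
      · have e : D + 1 = ((2 * m + 2 * n : ℤ) : 𝓞 K4) + ((2 * n - 2 * m : ℤ) : 𝓞 K4) * iO := by
          rw [hD, hmn, in4_coords, pw2]
          push_cast
          ring
        rw [e, e4]
        exact coords_dvd_int (by omega) (by omega)
      · have hne : ¬ ((m : ZMod 4) + (n : ZMod 4) = 1) := by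
          intro h1
          have h2 := (mn_one m n).1 h1
          omega
        have h9 := (not_congr (eight_neg m n (D := D) (by rw [hD, hmn, pw2, neg_one_mul]))).2 hne
        rw [not_or] at h9
        exact perB_u hval h9.1 h9.2

/-- **The Tamagawa number at `lam`.** -/
theorem tamB_lam {k : ZMod 4} {j : Fin 4} (hc : In4 c) (hD : D = iO ^ k.val * lam ^ j.val * c)
    (hv : lam ∈ v.asIdeal) (hval : exp (-3 : ℤ) ≤ v.valuation K4 (D : K4)) :
    tam (WD4 D) v = 2 ^ tL k j c := by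
  have hl : ¬ lam ∣ iO ^ k.val * c := by
    intro h
    rcases lam_prime.dvd_or_dvd h with h1 | h1
    · exact lam_prime.not_isUnit (isUnit_of_dvd_unit h1 (isUnit_iO.pow _))
    · exact hc.not_lam h1
  have h1 : v.valuation K4 ((iO ^ k.val * c : 𝓞 K4) : K4) = 1 := val_one' fun hm => hl (by
    rwa [ideal_eq' lam_prime hv, Ideal.mem_span_singleton] at hm)
  fin_cases j
  · exact tamB_lam0 hc (by rw [hD]; change iO ^ k.val * lam ^ 0 * c = _; ring) hv hval
  · have hD' : D = lam * (iO ^ k.val * c) := by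
      rw [hD]
      change iO ^ k.val * lam ^ 1 * c = _
      ring
    have hl1 : lam ∣ D := ⟨_, hD'⟩
    have hl2 : ¬ lam ^ 2 ∣ D := by
      intro h
      rw [hD', sq, mul_dvd_mul_iff_left lam_prime.ne_zero] at h
      exact hl h
    have e : tL k 1 c = 1 := by
      unfold tL
      rw [if_neg (by decide), if_neg (by decide)]
    refine (tam4_dvd lam_prime hl1 hl2 hv (perB_u_lam hval hl1)).trans ?_
    exact (congrArg (fun n => 2 ^ n) e).symm
  · have hD2 : D = iO ^ k.val * lam ^ 2 * c := hD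
    have hk : k = 0 ∨ k = 1 ∨ k = 2 ∨ k = 3 := by
      have key : ∀ k : ZMod 4, k = 0 ∨ k = 1 ∨ k = 2 ∨ k = 3 := by decide
      exact key k
    change tam (WD4 D) v = 2 ^ tL k 2 c
    unfold tL
    rw [if_neg (by decide), if_pos rfl]
    rcases hk with rfl | rfl | rfl | rfl
    · rw [if_neg (by decide), if_neg (by decide), if_pos rfl]
      by_cases hb : bb c = 1
      · rw [if_pos hb]
        exact (tamB_lam_c0 hv hc hD2 hb).trans (by norm_num)
      · rw [if_neg hb]
        exact (tamB_lam_d0 hv hc hD2 (ne_one2 hb)).trans (by norm_num)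
    · rw [if_pos rfl]
      exact (tamB_lam_a hv hc hD2).trans (by norm_num)
    · rw [if_neg (by decide), if_neg (by decide), if_neg (by decide)]
      by_cases hb : aa c + bb c = 1
      · rw [if_pos hb]
        exact (tamB_lam_c2 hv hc hD2 hb).trans (by norm_num)
      · rw [if_neg hb]
        exact (tamB_lam_d2 hv hc hD2 (ne_one2 hb)).trans (by norm_num)
    · rw [if_neg (by decide), if_pos rfl]
      exact (tamB_lam_b hv hc hD2).trans (by norm_num)
  · have hD' : D = (iO ^ k.val * c) * lam ^ 3 := by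
      rw [hD]
      change iO ^ k.val * lam ^ 3 * c = _
      ring
    have hl1 : lam ∣ D := by
      rw [hD']
      exact (dvd_pow_self lam (by norm_num)).mul_left _
    have hv3 : v.valuation K4 (D : K4) = exp (-3 : ℤ) := by
      have e : (D : K4) = ((iO ^ k.val * c : 𝓞 K4) : K4) * ((lam : 𝓞 K4) : K4) ^ 3 := by
        rw [hD']
        change algebraMap (𝓞 K4) K4 _ = algebraMap (𝓞 K4) K4 _ * algebraMap (𝓞 K4) K4 _ ^ 3
        rw [← map_pow, ← map_mul]
      rw [e, map_mul, map_pow, lam_val hv, h1, one_mul, ← exp_nsmul]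
      norm_num
    have e : tL k 3 c = 1 := by
      unfold tL
      rw [if_neg (by decide), if_neg (by decide)]
    refine (tamB_three hv3 (perB_u_lam hval hl1)).trans ?_
    exact (congrArg (fun n => 2 ^ n) e).symm

/-! ### The value of `D` -/

theorem DqB_val (k : ZMod 4) {j : ℕ} (hj : j ≤ 3) (e : Pg → ZMod 4) (R : Finset Pg)
    (v : HeightOneSpectrum (𝓞 K4)) : exp (-3 : ℤ) ≤ v.valuation K4 (DqB k j e R : K4) := by
  obtain ⟨p, hp, hv⟩ := exists_gen4 v
  by_contra hcon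
  rw [not_le] at hcon
  have h1 : v.valuation K4 (DqB k j e R : K4) ≤ exp (-((4 : ℕ) : ℤ)) := by
    have := Lm.le_of_lt 3 hcon
    norm_num at this ⊢
    exact this
  rw [val_le_pow' hp hv] at h1
  have h2 : p ∣ DqB k j e R := (dvd_pow_self p (by norm_num)).trans h1
  rw [DqB] at h2
  rcases hp.dvd_or_dvd h2 with h3 | h3
  · rcases hp.dvd_or_dvd h3 with h4 | h4
    · exact hp.not_isUnit (isUnit_of_dvd_unit h4 (isUnit_iO.pow _))
    · have h5 := hp.dvd_of_dvd_pow h4
      have h6 := (hp.dvd_prime_iff_associated lam_prime).1 h5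
      exact DqB_lam4 k hj e R ((h6.symm.pow_pow (n := 4)).dvd.trans h1)
  · obtain ⟨q, -, h4⟩ := (hp.dvd_finsetProd_iff _).1 h3
    have h5 := hp.dvd_of_dvd_pow h4
    have h6 := (hp.dvd_prime_iff_associated q.prime).1 h5
    exact DqB_four ((h6.symm.pow_pow (n := 4)).dvd.trans h1)

theorem dB_val {S T B : Finset Pg} (h : Dj S T B) (k : ZMod 4) (j : Fin 4)
    (v : HeightOneSpectrum (𝓞 K4)) : exp (-3 : ℤ) ≤ v.valuation K4 (dB k j S T B : K4) := by
  rw [h.dB_eq k j]
  exact DqB_val k (by omega) _ _ v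

/-! ### The odd places -/

theorem DqB_split (k : ZMod 4) (j : ℕ) (e : Pg → ZMod 4) {R : Finset Pg} {q : Pg} (hq : q ∈ R) :
    DqB k j e R = q.1 ^ (e q).val * DqB k j e (R.erase q) := by
  have e1 : DDe e R = q.1 ^ (e q).val * DDe e (R.erase q) := by
    rw [← DDe_insert (notMem_erase q R), insert_erase hq]
  rw [DqB, DqB, e1]
  ring

/-- `D / b²` is a square modulo `b` iff `b` is in `V` -/
theorem c2_VB {S T B : Finset Pg} (h : Dj S T B) (k : ZMod 4) (j : Fin 4) {b : Pg} (hb : b ∈ B) :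
    c2 b (DqB k j.val (eB T B) ((S ∪ T ∪ B).erase b)) = ∑ p ∈ S ∪ T, s4 b p + kxB k j b := by
  have hbST : b ∉ S ∪ T := fun h' => disjoint_left.1 h.ub h' hb
  have hd : (S ∪ T ∪ B).erase b = (S ∪ T) ∪ B.erase b := by
    rw [erase_union_distrib, erase_eq_of_notMem hbST]
  have hdis : Disjoint (S ∪ T) (B.erase b) := disjoint_of_subset_right (erase_subset _ _) h.ub
  have h2 : md 2 = 0 := rfl
  rw [c2, c4_DqB k j.val _ (notMem_erase b _), map_add, map_add, map_mul, map_mul, md_ll, kB,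
    map_add, map_mul, h2, zero_mul, add_zero, map_natCast, hd, sum_union hdis, map_add, map_sum,
    map_sum, sum_eq_zero (s := B.erase b), add_zero, kxB, add_comm]
  · refine congrArg₂ (· + ·) (sum_congr rfl fun p hp => ?_) rfl
    have hpb : p ≠ b := fun h1 => hbST (h1 ▸ hp)
    rw [map_mul, h.eodd hp, one_mul, ← s4_symm hpb]
    rfl
  · intro p hp
    rw [map_mul, h.eb (mem_of_mem_erase hp), h2, zero_mul]

theorem tamB_odd {S T B : Finset Pg} (h : Dj S T B) (k : ZMod 4) (j : Fin 4) {q : Pg}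
    (hq : q ∈ S ∪ T ∪ B) (hv : q.1 ∈ v.asIdeal) (hl : lam ∉ v.asIdeal) :
    tam (WD4 (dB k j S T B)) v = if q ∈ VB k j S T B then 4 else 2 := by
  have hval := dB_val h k j v
  have hu := perB_u_odd hval hl
  have hsp : dB k j S T B = q.1 ^ (eB T B q).val * DqB k j.val (eB T B) ((S ∪ T ∪ B).erase q) := by
    rw [h.dB_eq k j, DqB_split k j.val _ hq]
  have hnd : ¬ q.1 ∣ DqB k j.val (eB T B) ((S ∪ T ∪ B).erase q) := by
    rw [DqB_dvd (expB_eB T B)]
    exact notMem_erase q _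
  obtain ⟨u, hu'⟩ : ∃ u, u = DqB k j.val (eB T B) ((S ∪ T ∪ B).erase q) := ⟨_, rfl⟩
  rw [← hu'] at hsp hnd
  have hVB : q ∈ VB k j S T B → q ∈ B := fun h1 => (mem_filter.1 h1).1
  rcases mem_union.1 hq with h1 | h1
  · have hnV : q ∉ VB k j S T B := fun h2 => disjoint_left.1 h.ub h1 (hVB h2)
    rw [if_neg hnV]
    rcases mem_union.1 h1 with h2 | h2
    · rw [h.eS h2] at hsp
      have e : dB k j S T B = q.1 * u := by
        rw [hsp]
        change q.1 ^ 1 * u = _
        rw [pow_one]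
      refine tam4_dvd_odd q.prime ⟨u, e⟩ ?_ hv hl
      intro h3
      rw [e, sq, mul_dvd_mul_iff_left q.prime.ne_zero] at h3
      exact hnd h3
    · rw [eB_T h2] at hsp
      have e : dB k j S T B = u * q.1 ^ 3 := by
        rw [hsp]
        change q.1 ^ 3 * u = _
        rw [mul_comm]
      refine tamB_three ?_ hu
      have hu1 : v.valuation K4 ((u : 𝓞 K4) : K4) = 1 := val_one' fun hm => hnd (by
        rwa [ideal_eq' q.prime hv, Ideal.mem_span_singleton] at hm)
      have e3 : ((dB k j S T B : 𝓞 K4) : K4) = ((u : 𝓞 K4) : K4) * ((q.1 : 𝓞 K4) : K4) ^ 3 := by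
        rw [e]
        change algebraMap (𝓞 K4) K4 _ = algebraMap (𝓞 K4) K4 _ * algebraMap (𝓞 K4) K4 _ ^ 3
        rw [← map_pow, ← map_mul]
      rw [e3, map_mul, map_pow, val_prime' q.prime hv, hu1, one_mul, ← exp_nsmul]
      norm_num
  · rw [h.eb h1] at hsp
    have e : dB k j S T B = q.1 ^ 2 * u := hsp
    have hc2 := c2_VB h k j h1
    rw [← hu'] at hc2
    by_cases hV : q ∈ VB k j S T B
    · rw [if_pos hV]
      rw [(mem_filter.1 hV).2] at hc2
      obtain ⟨z, hz⟩ := (c2_eq_zero_iff q hnd).1 hc2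
      exact tamB_sq q.prime hv hl e hnd hz hu
    · rw [if_neg hV]
      refine tamB_nsq q.prime hv e hnd (fun s hs => hV (mem_filter.2 ⟨h1, ?_⟩)) hu
      rw [← hc2]
      exact (c2_eq_zero_iff q hnd).2 ⟨s, hs⟩

/-! ### The product -/

/-- **The product of the Tamagawa numbers**, general form. -/
theorem finprod_gen {D : 𝓞 K4} {R : Finset Pg}
    (hall : ∀ r : 𝓞 K4, Prime r → ¬ lam ∣ r → r ∣ D → ∃ q ∈ R, q.1 ∣ r) {f : Pg → ℕ}
    (hf : ∀ q ∈ R, ∀ v : HeightOneSpectrum (𝓞 K4), q.1 ∈ v.asIdeal → lam ∉ v.asIdeal →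
      tam (WD4 D) v = f q)
    {w : HeightOneSpectrum (𝓞 K4)} (hw : lam ∈ w.asIdeal) :
    ∏ᶠ v : HeightOneSpectrum (𝓞 K4), tam (WD4 D) v = (∏ q ∈ R, f q) * tam (WD4 D) w := by
  have hpid : IsPrincipalIdealRing (𝓞 K4) := pidK4
  have hex : ∀ q : Pg, ∃ v : HeightOneSpectrum (𝓞 K4), v.asIdeal = Ideal.span {q.1} := fun q =>
    ⟨⟨Ideal.span {q.1}, (Ideal.span_singleton_prime q.prime.ne_zero).2 q.prime, by
      rw [Ne, Ideal.span_singleton_eq_bot]
      exact q.prime.ne_zero⟩, rfl⟩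
  choose P hP using hex
  have hmem : ∀ q : Pg, q.1 ∈ (P q).asIdeal := by
    intro q
    rw [hP q]
    exact Ideal.mem_span_singleton_self _
  have hlP : ∀ q : Pg, lam ∉ (P q).asIdeal := by
    intro q hm
    rw [hP q, Ideal.mem_span_singleton] at hm
    exact lam_not_dvd q hm
  have hinj : Set.InjOn P R := by
    intro q _ r _ hqr
    by_contra hne
    apply Pg.not_dvd hne
    rw [← Ideal.mem_span_singleton, ← hP q, hqr]
    exact hmem r
  have hwS : w ∉ R.image P := by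
    intro hm
    obtain ⟨q, hq, rfl⟩ := Finset.mem_image.1 hm
    exact hlP q hw
  have hsupp : (Function.mulSupport fun v : HeightOneSpectrum (𝓞 K4) => tam (WD4 D) v) ⊆
      ((insert w (R.image P) : Finset (HeightOneSpectrum (𝓞 K4))) :
        Set (HeightOneSpectrum (𝓞 K4))) := by
    intro v hv
    rw [Function.mem_mulSupport] at hv
    rw [Finset.mem_coe, Finset.mem_insert, Finset.mem_image]
    by_contra hcon
    push Not at hcon
    obtain ⟨nw, nS⟩ := hcon
    have hlv : lam ∉ v.asIdeal := by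
      intro hm
      apply nw
      apply HeightOneSpectrum.ext
      rw [ideal_eq' lam_prime hm, ideal_eq' lam_prime hw]
    apply hv
    apply tam4_good hlv
    intro hm
    obtain ⟨r, hr⟩ := (hpid.principal v.asIdeal).principal
    have hr' : v.asIdeal = Ideal.span {r} := hr
    have hr0 : r ≠ 0 := by
      rintro rfl
      apply v.ne_bot
      rw [hr', Ideal.span_singleton_eq_bot.2 rfl]
    have hrp : Prime r := by
      rw [← Ideal.span_singleton_prime hr0, ← hr']
      exact v.isPrime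
    have hlr : ¬ lam ∣ r := by
      intro h5
      apply hlv
      have h6 := (lam_prime.dvd_prime_iff_associated hrp).1 h5
      rw [hr', ← Ideal.span_singleton_eq_span_singleton.2 h6]
      exact Ideal.mem_span_singleton_self _
    rw [hr', Ideal.mem_span_singleton] at hm
    obtain ⟨q, hq, hqr⟩ := hall r hrp hlr hm
    apply nS q hq
    apply HeightOneSpectrum.ext
    rw [hP q, hr', Ideal.span_singleton_eq_span_singleton]
    exact (q.prime.dvd_prime_iff_associated hrp).1 hqr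
  rw [finprod_eq_prod_of_mulSupport_subset _ hsupp, Finset.prod_insert hwS,
    Finset.prod_image hinj, Finset.prod_congr rfl (fun q hq => hf q hq (P q) (hmem q) (hlP q)),
    mul_comm]

theorem DqB_all (k : ZMod 4) (j : ℕ) (e : Pg → ZMod 4) (R : Finset Pg) (r : 𝓞 K4) (hr : Prime r)
    (hl : ¬ lam ∣ r) (h : r ∣ DqB k j e R) : ∃ q ∈ R, q.1 ∣ r := by
  rw [DqB] at h
  rcases hr.dvd_or_dvd h with h3 | h3
  · rcases hr.dvd_or_dvd h3 with h4 | h4
    · exact absurd (isUnit_of_dvd_unit h4 (isUnit_iO.pow _)) hr.not_isUnit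
    · have h6 := (hr.dvd_prime_iff_associated lam_prime).1 (hr.dvd_of_dvd_pow h4)
      exact absurd h6.symm.dvd hl
  · obtain ⟨q, hq, h4⟩ := (hr.dvd_finsetProd_iff _).1 h3
    have h6 := (hr.dvd_prime_iff_associated q.prime).1 (hr.dvd_of_dvd_pow h4)
    exact ⟨q, hq, h6.symm.dvd⟩

/-- **The product of the Tamagawa numbers.** -/
theorem finprod_tamB {S T B : Finset Pg} (h : Dj S T B) (k : ZMod 4) (j : Fin 4) :
    ∏ᶠ v : HeightOneSpectrum (𝓞 K4), tam (WD4 (dB k j S T B)) v =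
      2 ^ ((S ∪ T).card + (B \ VB k j S T B).card + 2 * (VB k j S T B).card +
        tL k j (cB S T B)) := by
  obtain ⟨w, hw⟩ : ∃ w : HeightOneSpectrum (𝓞 K4), w.asIdeal = Ideal.span {lam} :=
    ⟨⟨Ideal.span {lam}, (Ideal.span_singleton_prime lam_prime.ne_zero).2 lam_prime, by
      rw [Ne, Ideal.span_singleton_eq_bot]
      exact lam_prime.ne_zero⟩, rfl⟩
  have hlw : lam ∈ w.asIdeal := by
    rw [hw]
    exact Ideal.mem_span_singleton_self _
  have hsub : VB k j S T B ⊆ B := fun b hb => (mem_filter.1 hb).1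
  rw [finprod_gen (R := S ∪ T ∪ B) (f := fun q => if q ∈ VB k j S T B then 4 else 2) ?_ ?_ hlw,
    tamB_lam (D := dB k j S T B) (cB_in4 S T B) rfl hlw (dB_val h k j w), prod_union h.ub, ← prod_sdiff hsub,
    prod_congr (s₂ := S ∪ T) (g := fun _ => 2) rfl, prod_congr (s₂ := B \ VB k j S T B)
      (g := fun _ => 2) rfl, prod_congr (s₂ := VB k j S T B) (g := fun _ => 4) rfl, prod_const,
    prod_const, prod_const, pow_add, pow_add, pow_add, pow_mul]
  · norm_num
    ring
  · intro q hq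
    rw [if_pos hq]
  · intro q hq
    rw [if_neg (mem_sdiff.1 hq).2]
  · intro q hq
    rw [if_neg fun h2 => disjoint_left.1 h.ub hq (hsub h2)]
  · intro r hr hl hd
    rw [h.dB_eq k j] at hd
    exact DqB_all k j.val _ _ r hr hl hd
  · intro q hq v hv hl
    exact tamB_odd h k j hq hv hl

/-! ### The period -/

theorem period_dB {S T B : Finset Pg} (h : Dj S T B) {k : ZMod 4} {j : Fin 4}
    (hne : ¬ (j = 0 ∧ k = 2 ∧ nn (cB S T B) = 1)) :
    period (WD4 (dB k j S T B)) = 2 * (‖Om‖ ^ 2 / ‖em (dB k j S T B)‖ ^ (1 / 2 : ℝ)) := by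
  have key : ¬ 8 ∣ dB k j S T B - (1 + 2 * iO) ∧ ¬ 8 ∣ dB k j S T B - (1 - 2 * iO) := by
    by_cases hj : j = 0
    · subst hj
      have e : dB k 0 S T B = iO ^ k.val * cB S T B := by
        rw [dB]
        change iO ^ k.val * lam ^ 0 * cB S T B = _
        rw [pow_zero, mul_one]
      by_cases hk : k = 2
      · subst hk
        have hn : ¬ nn (cB S T B) = 1 := fun h1 => hne ⟨rfl, rfl, h1⟩
        obtain ⟨m, n, hmn⟩ := in4_form (cB_in4 S T B)
        rw [hmn, nn_form] at hn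
        have h9 := (not_congr (eight_neg m n (D := dB 2 0 S T B) (by
          rw [e, hmn, pw2, neg_one_mul]))).2 hn
        rwa [not_or] at h9
      · refine not_eight ?_
        rw [e]
        exact ik_add_one hk (cB_in4 S T B)
    · have hl : lam ∣ dB k j S T B := by
        rw [dB]
        exact ((dvd_pow_self lam fun h0 => hj (Fin.ext h0)).mul_left _).mul_right _
      constructor
      · intro h1
        refine not_lam_of_eight (s := 1) ?_ hl
        push_cast
        exact h1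
      · intro h1
        refine not_lam_of_eight (s := -1) ?_ hl
        push_cast
        rwa [neg_mul, ← sub_eq_add_neg]
  exact periodB (dB_val h k j) key.1 key.2

theorem period_dB_good {S T B : Finset Pg} (h : Dj S T B) (hn : nn (cB S T B) = 1) :
    period (WD4 (dB 2 0 S T B)) =
      2 * (2 * (‖Om‖ ^ 2 / ‖em (dB 2 0 S T B)‖ ^ (1 / 2 : ℝ))) := by
  refine periodB_good (dB_val h 2 0) ?_
  obtain ⟨m, n, hmn⟩ := in4_form (cB_in4 S T B)
  rw [hmn, nn_form] at hn
  refine (eight_neg m n ?_).2 hn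
  rw [dB, ← hmn]
  change iO ^ (2 : ZMod 4).val * lam ^ 0 * cB S T B = _
  rw [pow_zero, mul_one, pw2, neg_one_mul]

end Pool.Agent.Lib.MP_1a91b9_ntQ.C
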