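import Pool.Agent.Lib.MP_1a91b9_ntQ.B.FormH
import Pool.Agent.Lib.MP_1a91b9_ntQ.B.PrdB

/-!
# MP_1a91b9_nt (quartic twists), all fourth-power-free `D`, file TmA: the periods and the products of the
Tamagawa numbers
-/

set_option autoImplicit false

namespace Pool.Agent.Lib.MP_1a91b9_ntQ

open NumberField IsDedekindDomain Finset

noncomputable section

theorem bLB_eq (k : ZMod 4) (j : Fin 4) (c : 𝓞 K4) : C.tL k j c = bLB k j c := by
  have key : ∀ (k : ZMod 4) (j : Fin 4) (m a b h : ZMod 2),
      (if j = 0 then (if m = 1 ∨ a = 1 then 0 else if k = 2 then 1 else if h + b = 1 then 1 else 2)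
      else if j = 2 then (if k = 1 then 1 else if k = 3 then 2 else if k = 0 then
        (if b = 1 then 1 else 2) else (if a + b = 1 then 1 else 2)) else 1) =
      (if j = 0 then (if m = 1 ∨ a = 1 then 0 else if k = 2 ∨ h + b = 1 then 1 else 2)
      else if j = 2 then (if k = 1 ∨ (k = 0 ∧ b = 1) ∨ (k = 2 ∧ a + b = 1) then 1 else 2)
      else 1) := by decide
  exact key k j (md k) (aa c) (bb c) (hf4 (nn c))

/-- **The periods and the products of the Tamagawa numbers.** -/
theorem tmA : TmA := by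
  intro k j S T B h _
  refine ⟨fun hne => ⟨C.period_dB h hne, ?_⟩, ?_⟩
  · rw [C.finprod_tamB h k j, bLB_eq, wB0]
  · rintro ⟨rfl, rfl, hn⟩
    refine ⟨C.period_dB_good h hn, ?_⟩
    have ha : aa (cB S T B) = 1 := by
      have e : aa (cB S T B) = md (nn (cB S T B)) := rfl
      rw [e, hn]
      exact map_one _
    have h0 : C.tL 2 0 (cB S T B) = 0 := by
      rw [bLB_eq, bLB, if_pos rfl, if_pos (Or.inr ha)]
    rw [C.finprod_tamB h 2 0, h0, add_zero, wB0]

/-- **The formula modulo `2`** for every fourth-power-free `D` which is not a square, from the classes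
J2b and J2d. -/
theorem foB_of3 (hb : FoJ2b) (hd0 : FoJ2d0) (hd2 : FoJ2d2) : FoB :=
  foB_of tmA foX2 foX3 hb hd0 hd2

end

end Pool.Agent.Lib.MP_1a91b9_ntQ
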