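import Pool.Agent.Lib.MP_1a91b9_ntQ.B.FinBT
import Pool.Agent.Lib.MP_1a91b9_ntQ.B.TmA
import Pool.Agent.Lib.MP_1a91b9_ntQ.B.FormJ2b
import Pool.Agent.Lib.MP_1a91b9_ntQ.B.FormJ2d

/-!
# MP_1a91b9_nt (quartic twists), part B, file FinBTF: form T for every elliptic curve over `ℚ(i)` with
complex multiplication by `ℤ[i]`
-/

set_option autoImplicit false

namespace Pool.Agent.Lib.MP_1a91b9_ntQ

open NumberField
open Pool.Agent.Lib.MP_1a91b9_ntS (BSDMod)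

noncomputable section

/-- The formula modulo `2` for every fourth-power-free `D` which is not a square. -/
theorem foB : FoB := foB_of3 foJ2b foJ2d0 foJ2d2

/-- **Form T for all the elliptic curves over `ℚ(i)` with complex multiplication by `ℤ[i]`.** -/
theorem main_BTF : ∃ q : 𝓞 (CyclotomicField 4 ℚ) → ℚ,
    (∀ D : 𝓞 (CyclotomicField 4 ℚ), (∀ z : 𝓞 (CyclotomicField 4 ℚ), z ^ 4 ∣ D → IsUnit z) →
      ∀ W : WeierstrassCurve (CyclotomicField 4 ℚ),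
      W = ⟨0, 0, 0, -(D : CyclotomicField 4 ℚ), 0⟩ → BSDMod 2 W (q D)) ∧
    ∀ (n : ℕ) (m u : 𝓞 (CyclotomicField 4 ℚ)), m ∣ 2 ^ n → ¬ (4 ∣ m ∧ 4 ∣ u) →
      Filter.Tendsto (fun X : ℝ =>
        (Nat.card {D : 𝓞 (CyclotomicField 4 ℚ) //
          (∀ z : 𝓞 (CyclotomicField 4 ℚ), z ^ 4 ∣ D → IsUnit z) ∧ m ∣ D - u ∧
          |Algebra.norm ℤ D| ≤ X ∧ ¬ 2 ∣ (q D).num} : ℝ) /
        (Nat.card {D : 𝓞 (CyclotomicField 4 ℚ) //
          (∀ z : 𝓞 (CyclotomicField 4 ℚ), z ^ 4 ∣ D → IsUnit z) ∧ m ∣ D - u ∧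
          |Algebra.norm ℤ D| ≤ X} : ℝ)) Filter.atTop
        (nhds (∏' i : ℕ, (1 + 1 / (2 : ℝ) ^ (i + 1))⁻¹)) :=
  main_BT foB

end

end Pool.Agent.Lib.MP_1a91b9_ntQ
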