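import Pool.Agent.Lib.MP_1a91b9_ntQ.D.Cl4B
import Pool.Agent.Lib.MP_1a91b9_ntQ.D.Up4

/-!
# MP_1a91b9_nt (quartic twists), part D: the upper bounds with a fixed finite set of primes

The upper halves of `densB_ne` and `densB_ker` (file `D/Cl4B`).
-/

set_option autoImplicit false
set_option linter.unusedSectionVars false

namespace Pool.Agent.Lib.MP_1a91b9_ntQ

open Finset Pool.Agent.Lib.MP_1a91b9_ntH

noncomputable section

section Off

variable {ι : Type} [DecidableEq ι] {κ : Type} [Fintype κ] [DecidableEq κ] {E : Type} [Fintype E]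
  [DecidableEq E]

theorem vec3_eq {B T V : Finset ι} {S : Finset (Off B)} {x y x' y' : ι → ZMod 2}
    {z z' : E → ZMod 2} (h : vec3 (up S ∪ T) V x y z = vec3 (up S ∪ T) V x' y' z') :
    vecO B T V S x y z = vecO B T V S x' y' z' := by
  funext i
  rcases i with j | t | v | e
  · exact congrFun h (Sum.inl ⟨j.1.1, mem_union_left _ (mem_up.2 ⟨j.1.2, j.2⟩)⟩)
  · exact congrFun h (Sum.inl ⟨t.1, mem_union_right _ t.2⟩)
  · exact congrFun h (Sum.inr (Sum.inl v))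
  · exact congrFun h (Sum.inr (Sum.inr e))

theorem vecO_zero {B T V : Finset ι} {S : Finset (Off B)} :
    vecO B T V S (0 : ι → ZMod 2) 0 (0 : E → ZMod 2) = 0 := by
  funext i
  rcases i with i | t | v | e <;> rfl

theorem vec3_zero {S V : Finset ι} : vec3 S V (0 : ι → ZMod 2) 0 (0 : E → ZMod 2) = 0 := by
  funext i
  rcases i with i | v | e <;> rfl

end Off

namespace Da

variable {ι : Type} [DecidableEq ι] {κ : Type} [Fintype κ] [DecidableEq κ] {E : Type}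
  [Fintype E] [DecidableEq E] {G : Type} [AddCommGroup G] [Fintype G] [PS ι]

/-- The upper bound with a fixed finite set of primes: the nonsingular matrices. -/
theorem densB_ne_upper {D : Dat2 ι κ} (hD : D.OK) {B T V : Finset ι} (hT : T ⊆ B) (hV : V ⊆ B)
    (hTV : Disjoint T V) (C : Cl2 (D.off B) G) (h3 : C.H3) {cl : ι → G}
    (hcl : ∀ q, C.cl q = cl q.1) {c : κ → ZMod 2} {P : κ → E → ZMod 2}
    {R : Matrix E E (ZMod 2)} (hR : ∀ e f, R e f = R f e)
    (hP : ∀ x : E → ZMod 2, (∀ j, ∑ e, P j e * x e = 0) → x = 0) (τ : ι → ZMod 2) (g : G)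
    {αB : ι → ZMod 2} (hα : ∀ b : B, αB b = C.A (Sum.inr b) g)
    (hn : ∀ γ, ¬ TrivV D c P R T V αB (fun j => C.A (Sum.inl j) g) γ)
    {κ₀ : ℝ} (hκ : cinf2 < κ₀) (ε : ℝ) (hε : 0 < ε) :
    ∃ X₀ : ℕ, ∀ X : ℕ, X₀ ≤ X →
      (((SB B cl g X).filter fun S => (D.NV c P R V τ (S ∪ T)).det ≠ 0).card : ℝ) ≤
        κ₀ * ((SB B cl g X).card : ℝ) + ε * X := by
  have hT' : ¬ Triv (coB B T c) (PoB B T V P) (RoB D T V c P R τ αB) fun j => C.A j g := by
    rw [triv_iff (α := fun j => C.A j g) hT hV hTV τ hα]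
    rintro ⟨γ, hγ⟩
    exact hn γ hγ
  obtain ⟨X0, h0⟩ := densQ_ne_upper (OK_off hD B) C h3 (RoB_symm hD.sym T V c P hR τ αB)
    (PoB_inj hT hV hTV hP) g hT' hκ ε hε
  refine ⟨X0, fun X hX => ?_⟩
  rw [SB_eq C hcl, filter_map, card_map, card_map]
  refine le_trans ?_ (h0 X hX)
  rw [Nat.cast_le]
  refine card_le_card fun S hS => ?_
  rw [mem_filter] at hS ⊢
  refine ⟨hS.1, fun h => hS.2 ?_⟩
  obtain ⟨w, hw, hw0⟩ := Matrix.exists_mulVec_eq_zero_iff.2 h
  obtain ⟨x, y, z, rfl⟩ := exists_vecO hT w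
  have hαS : ∀ t ∈ T, αB t = ∑ q ∈ up S, D.s q t := by
    intro t ht
    rw [hα ⟨t, hT ht⟩, ← sum_a_of_mem C hS.1, sum_up]
    rfl
  have h4 := (NV_iff hD.sym hT hV c P R τ αB S hαS x y z).2 hw0
  refine Matrix.exists_mulVec_eq_zero_iff.1 ⟨_, fun h5 => hw ?_, h4⟩
  rw [← vecO_zero]
  refine vec3_eq (h5.trans ?_)
  exact vec3_zero.symm

/-- The upper bound with a fixed finite set of primes: the kernels generated by the trivial
vector. -/
theorem densB_ker_upper {D : Dat2 ι κ} (hD : D.OK) {B T V : Finset ι} (hT : T ⊆ B) (hV : V ⊆ B)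
    (hTV : Disjoint T V) (C : Cl2 (D.off B) G) (h3 : C.H3) {cl : ι → G}
    (hcl : ∀ q, C.cl q = cl q.1) {c : κ → ZMod 2} {P : κ → E → ZMod 2}
    {R : Matrix E E (ZMod 2)} (hR : ∀ e f, R e f = R f e)
    (hP : ∀ x : E → ZMod 2, (∀ j, ∑ e, P j e * x e = 0) → x = 0) (τ : ι → ZMod 2) (g : G)
    {αB : ι → ZMod 2} (hα : ∀ b : B, αB b = C.A (Sum.inr b) g) {γ : E → ZMod 2}
    (hγ : TrivV D c P R T V αB (fun j => C.A (Sum.inl j) g) γ)
    {κ₀ : ℝ} (hκ : cinf2 < κ₀) (ε : ℝ) (hε : 0 < ε) :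
    ∃ X₀ : ℕ, ∀ X : ℕ, X₀ ≤ X →
      (((SB B cl g X).filter fun S => S ≠ ∅ ∧ ∀ w, (D.NV c P R V τ (S ∪ T)).mulVec w = 0 →
          w = 0 ∨ w = Sum.elim (fun _ => 1) (Sum.elim (fun _ => 0) γ)).card : ℝ) ≤
        κ₀ * ((SB B cl g X).card : ℝ) + ε * X := by
  have h2 : ∀ e, ∑ j, PoB B T V P j e * C.A j g +
      ∑ f, RoB D T V c P R τ αB e f * goB T V γ f = 0 := by
    have h4 := (triv_iff (α := fun j => C.A j g) (c := c) (P := P) (R := R) hT hV hTV τ
      hα).2 ⟨γ, hγ⟩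
    obtain ⟨γ', h5, h6⟩ := h4
    have h7 : γ' = goB T V γ := by
      have h8 : γ' - goB T V γ = 0 := PoB_inj hT hV hTV hP _ fun j => by
        simp only [Pi.sub_apply, mul_sub, sum_sub_distrib]
        rw [h5, goB_fst hγ.1, sub_self]
      exact sub_eq_zero.1 h8
    rw [← h7]
    exact h6
  obtain ⟨X0, h0⟩ := densQ_ker_upper (OK_off hD B) C h3 (RoB_symm hD.sym T V c P hR τ αB)
    (PoB_inj hT hV hTV hP) g (goB_fst hγ.1) h2 hκ ε hε
  refine ⟨X0, fun X hX => ?_⟩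
  rw [SB_eq C hcl, filter_map, card_map, card_map]
  refine le_trans ?_ (h0 X hX)
  rw [Nat.cast_le]
  refine card_le_card fun S hS => ?_
  simp only [mem_filter] at hS ⊢
  obtain ⟨hS1, hS2, hS3⟩ := hS
  refine ⟨hS1, fun h => hS2 ?_, fun w hw => ?_⟩
  · show up S = ∅
    rw [h]
    rfl
  · obtain ⟨x, y, z, rfl⟩ := exists_vecO hT w
    have hαS : ∀ t ∈ T, αB t = ∑ q ∈ up S, D.s q t := by
      intro t ht
      rw [hα ⟨t, hT ht⟩, ← sum_a_of_mem C hS1, sum_up]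
      rfl
    have h4 := (NV_iff hD.sym hT hV c P R τ αB S hαS x y z).2 hw
    rcases hS3 _ h4 with h5 | h5
    · left
      rw [← vecO_zero]
      refine vec3_eq (h5.trans ?_)
      exact vec3_zero.symm
    · right
      have h6 : vecO B T V S x y z = vecO B T V S (fun _ => 1) 0 γ := by
        refine vec3_eq (h5.trans ?_)
        funext i
        rcases i with i | v | e <;> rfl
      rw [h6]
      funext i
      rcases i with i | t | v | e <;> rfl

end Da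

end

end Pool.Agent.Lib.MP_1a91b9_ntQ
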