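import Pool.Agent.Lib.MP_1a91b9_ntQ.B.ClsB
import Pool.Agent.Lib.MP_1a91b9_ntQ.B.UpC

/-!
# MP_1a91b9_nt (fourth-power-free twists), part D: the complement, the symbols of a class

`DSB.compl`: the complement of a set with an upper density; `alB`, `A4_of`: the symbols at the primes of
`B` and the class characters in a class of `GB m B`.
-/

set_option autoImplicit false
set_option linter.unusedSectionVars false

namespace Pool.Agent.Lib.MP_1a91b9_ntQ

open NumberField Finset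
open Pool.Agent.Lib.MP_1a91b9_ntH (PS nm Sx mem_Sx)

noncomputable section

/-! ### The complement -/

theorem DSB.compl {m : ℕ} {B : Finset Pg} {g : GB m B} {κ₀ : ℝ} {P : Finset Pg → Prop}
    [DecidablePred P]
    (h : ∀ κ₁ : ℝ, Da.cinf2 < κ₁ → ∀ ε : ℝ, 0 < ε → ∃ X₀ : ℕ, ∀ X : ℕ, X₀ ≤ X →
      (((Da.SB B (clB m B) g X).filter P).card : ℝ) ≤
        κ₁ * ((Da.SB B (clB m B) g X).card : ℝ) + ε * X)
    {Q : Finset Pg → Prop}
    (hQP : ∀ S, Disjoint S B → ∑ q ∈ S, clB m B q = g → S ≠ ∅ → Q S → P S)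
    (hκ : κ₀ < 1 - Da.cinf2) : DSB m B g κ₀ fun S => ¬ Q S := by
  classical
  obtain ⟨Q', hQ'⟩ : ∃ Q' : Finset Pg → Prop, Q' = fun S => ¬ Q S := ⟨_, rfl⟩
  rw [← hQ']
  have hQ2 : ∀ S, ¬ Q' S → Q S := by
    intro S h1
    rw [hQ'] at h1
    exact not_not.1 h1
  intro ε hε
  obtain ⟨X0, h0⟩ := h (1 - κ₀) (by linarith) (ε / 2) (by positivity)
  obtain ⟨X1, hX1⟩ := exists_nat_gt (2 / ε)
  refine ⟨X0 + X1, fun X hX => ?_⟩
  have h1 := h0 X ((Nat.le_add_right _ _).trans hX)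
  rw [SB_filter] at h1
  have h5 : (1 : ℝ) ≤ ε / 2 * X := by
    have h4 : (X1 : ℝ) ≤ X := by exact_mod_cast (Nat.le_add_left _ _).trans hX
    have h5 := hX1.le.trans h4
    rw [div_le_iff₀ hε] at h5
    linarith
  have h2 : ((Sx Pg X).filter fun S => Disjoint S B ∧ ∑ q ∈ S, clB m B q = g).card ≤
      (((Sx Pg X).filter fun S => Disjoint S B ∧ ∑ q ∈ S, clB m B q = g).filter P).card +
      (((Sx Pg X).filter fun S => Disjoint S B ∧ ∑ q ∈ S, clB m B q = g ∧ Q' S).card + 1) := by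
    rw [← card_filter_add_card_filter_not
      (s := (Sx Pg X).filter fun S => Disjoint S B ∧ ∑ q ∈ S, clB m B q = g) P]
    refine Nat.add_le_add_left ((card_le_card fun S hS => ?_).trans
      (card_insert_le (∅ : Finset Pg) _)) _
    rw [mem_filter, mem_filter] at hS
    rw [mem_insert, mem_filter]
    by_cases hne : S = ∅
    · exact Or.inl hne
    · refine Or.inr ⟨hS.1.1, hS.1.2.1, hS.1.2.2, ?_⟩
      by_contra h3
      exact hS.2 (hQP S hS.1.2.1 hS.1.2.2 hne (hQ2 S h3))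
  have h3 : (((Sx Pg X).filter fun S => Disjoint S B ∧ ∑ q ∈ S, clB m B q = g).card : ℝ) ≤
      (((Sx Pg X).filter fun S => Disjoint S B ∧ ∑ q ∈ S, clB m B q = g).filter P).card +
      (((Sx Pg X).filter fun S => Disjoint S B ∧ ∑ q ∈ S, clB m B q = g ∧ Q' S).card + 1) := by
    exact_mod_cast h2
  have h4 : κ₀ * (((Sx Pg X).filter fun S => Disjoint S B ∧
      ∑ q ∈ S, clB m B q = g).card : ℝ) - ε * X ≤
      (((Sx Pg X).filter fun S => Disjoint S B ∧ ∑ q ∈ S, clB m B q = g ∧ Q' S).card : ℝ) := by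
    linarith
  refine h4.trans (le_of_eq ?_)
  congr 2

/-! ### The symbols -/

/-- The symbols at the primes of `B` in the class `g`. -/
def alB {m : ℕ} {B : Finset Pg} (g : GB m B) (b : Pg) : ZMod 2 :=
  if h : b ∈ B then md (g.2 ⟨b, h⟩) else 0

theorem alB_A {m : ℕ} {B : Finset Pg} (g : GB m B) (b : B) :
    alB g b.1 = (CclB m B).A (Sum.inr b) g := by
  rw [alB, dif_pos b.2]
  rfl

theorem alB_of {m : ℕ} {B S : Finset Pg} (hS : Disjoint S B) {g : GB m B}
    (h : ∑ q ∈ S, clB m B q = g) {b : Pg} (hb : b ∈ B) : alB g b = ∑ q ∈ S, s4 b q := by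
  rw [alB, dif_pos hb, ← h, gclB_DDq m hS]
  show md (c4 b (DDq S)) = _
  rw [c4_DDq b (disjoint_right.1 hS hb), map_sum]
  rfl

theorem alB_of' {m : ℕ} {B S : Finset Pg} (hS : Disjoint S B) {g : GB m B}
    (h : ∑ q ∈ S, clB m B q = g) {b : Pg} (hb : b ∈ B) : alB g b = ∑ q ∈ S, s4 q b := by
  rw [alB_of hS h hb]
  exact sum_congr rfl fun q hq => s4_symm (ne_of_mem_of_not_mem hb
    (disjoint_left.1 hS hq) ).symm.symm

theorem A4_of {m : ℕ} {B S : Finset Pg} {g : GB m B} (h : ∑ q ∈ S, clB m B q = g) (j : Fin 2) :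
    A4 m j g.1 = ∑ q ∈ S, d4.a q j := by
  rw [← h, Prod.fst_sum, map_sum]
  exact sum_congr rfl fun q _ => A4_clq m j q

end

end Pool.Agent.Lib.MP_1a91b9_ntQ
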