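import Pool.Agent.Lib.MP_1a91b9_ntQ.B.CritB
import Pool.Agent.Lib.MP_1a91b9_ntQ.B.DenK

/-!
# MP_1a91b9_nt (fourth-power-free twists), part D: the good sets of primes, all classes

`gdB`: for fixed `k`, `j`, `T`, `B` the good sets `S` have lower density at least `κ₀ < cinf2` in every
class of `GB m (T ∪ B)`, `m ≥ 2`; `gdB_not`: their complement has lower density at least
`κ₀ < 1 - cinf2`.
-/

set_option autoImplicit false
set_option linter.unusedSectionVars false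

namespace Pool.Agent.Lib.MP_1a91b9_ntQ

open NumberField Finset
open Pool.Agent.Lib.MP_1a91b9_ntH (PS nm Sx mem_Sx)

noncomputable section

/-! ### The data which only depend on the class -/

/-- Two sets of primes outside `B` in the same class. -/
structure Sm (m : ℕ) (B S S' : Finset Pg) : Prop where
  d : Disjoint S B
  d' : Disjoint S' B
  h : ∑ q ∈ S, clB m B q = ∑ q ∈ S', clB m B q

theorem Sm.gcl_eq {m : ℕ} {B S S' : Finset Pg} (h : Sm m B S S') :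
    gclB m B (DDq S) (DDq_in4 S) = gclB m B (DDq S') (DDq_in4 S') := by
  rw [← gclB_DDq m h.d, ← gclB_DDq m h.d', h.h]

theorem Sm.dvd {m : ℕ} {B S S' : Finset Pg} (h : Sm m B S S') :
    lam ^ (m + 5) ∣ DDq S - DDq S' :=
  (gcl_eq_iff m (DDq_in4 S) (DDq_in4 S')).1 (congrArg Prod.fst h.gcl_eq)

theorem Sm.c4_eq {m : ℕ} {B S S' : Finset Pg} (h : Sm m B S S') {b : Pg} (hb : b ∈ B) :
    c4 b (DDq S) = c4 b (DDq S') := congrFun (congrArg Prod.snd h.gcl_eq) ⟨b, hb⟩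

theorem Sm.s4_eq {m : ℕ} {B S S' : Finset Pg} (h : Sm m B S S') {b : Pg} (hb : b ∈ B) :
    ∑ q ∈ S, s4 b q = ∑ q ∈ S', s4 b q := by
  have h1 := congrArg md (h.c4_eq hb)
  rw [c4_DDq b (disjoint_right.1 h.d hb), c4_DDq b (disjoint_right.1 h.d' hb), map_sum,
    map_sum] at h1
  exact h1

theorem inCB (S T B : Finset Pg) : In4 (cB S T B) := by
  unfold cB
  rw [pow_succ, pow_two, pow_two]
  exact ((DDq_in4 S).mul (((DDq_in4 T).mul (DDq_in4 T)).mul (DDq_in4 T))).mul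
    ((DDq_in4 B).mul (DDq_in4 B))

theorem Sm.dvd_cB {m : ℕ} {T B S S' : Finset Pg} (h : Sm m (T ∪ B) S S') :
    lam ^ (m + 5) ∣ cB S T B - cB S' T B := by
  obtain ⟨t, ht⟩ := h.dvd
  refine ⟨t * (DDq T ^ 3 * DDq B ^ 2), ?_⟩
  unfold cB
  linear_combination (DDq T ^ 3 * DDq B ^ 2) * ht

section

variable {m : ℕ} {T B S S' : Finset Pg}

theorem Sm.aa_eq (h : Sm m (T ∪ B) S S') : aa (cB S T B) = aa (cB S' T B) :=
  aa_congr (inCB S T B) ((pow_dvd_pow lam (by omega)).trans h.dvd_cB)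

theorem Sm.nn_eq (hm : 1 ≤ m) (h : Sm m (T ∪ B) S S') : nn (cB S T B) = nn (cB S' T B) :=
  nn_congr6 (inCB S T B) ((pow_dvd_pow lam (by omega)).trans h.dvd_cB)

theorem dvd_lam5 {x : 𝓞 K4} (h : lam ^ 5 ∣ x) : 2 * lam ^ 3 ∣ x := by
  refine dvd_trans ?_ h
  have e : (lam : 𝓞 K4) ^ 2 = 2 * iO := by
    unfold lam
    linear_combination iO_sq
  exact ⟨iO, by linear_combination lam ^ 3 * e⟩

theorem dvd_lam7 {x : 𝓞 K4} (h : lam ^ 7 ∣ x) : ((4 : ℕ) : 𝓞 K4) * lam ^ 3 ∣ x := by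
  refine dvd_trans ?_ h
  exact ⟨-1, by push_cast; linear_combination (lam ^ 3) * lam_four⟩

theorem Sm.bb_eq (h : Sm m (T ∪ B) S S') : bb (cB S T B) = bb (cB S' T B) :=
  bb_congr (inCB S T B) (dvd_lam5 ((pow_dvd_pow lam (by omega)).trans h.dvd_cB))

theorem mmB_fm (m n : ℤ) : mmB (1 + lam ^ 3 * ((m : 𝓞 K4) + (n : 𝓞 K4) * iO)) = m := by
  unfold mmB
  rw [cp_form]
  congr 1
  simp only
  omega

theorem nnB_fm (m n : ℤ) : nnB (1 + lam ^ 3 * ((m : 𝓞 K4) + (n : 𝓞 K4) * iO)) = n := by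
  unfold nnB
  rw [cp_form]
  congr 1
  simp only
  omega

theorem Sm.mn_eq (hm : 2 ≤ m) (h : Sm m (T ∪ B) S S') : mmB (cB S T B) = mmB (cB S' T B) ∧
    nnB (cB S T B) = nnB (cB S' T B) := by
  obtain ⟨a, b, k, l, h1, h2⟩ := form_congr (e := 4) (inCB S T B)
    (dvd_lam7 ((pow_dvd_pow lam (by omega)).trans h.dvd_cB))
  rw [h1, h2, mmB_fm, mmB_fm, nnB_fm, nnB_fm]
  push_cast
  have h4 : (4 : ZMod 4) = 0 := rfl
  rw [h4, zero_mul, zero_mul, add_zero, add_zero]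
  exact ⟨rfl, rfl⟩

theorem Sm.ll_eq (hm : 2 ≤ m) (h : Sm m (T ∪ B) S S') : llB (cB S T B) = llB (cB S' T B) := by
  unfold llB
  rw [(h.mn_eq hm).1, (h.mn_eq hm).2]

theorem Sm.vb_eq (h : Sm m (T ∪ B) S S') (k : ZMod 4) (j : Fin 4) :
    VB k j S T B = VB k j S' T B := by
  unfold VB
  refine filter_congr fun b hb => ?_
  have h1 : Disjoint S T := disjoint_of_subset_right subset_union_left h.d
  have h2 : Disjoint S' T := disjoint_of_subset_right subset_union_left h.d'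
  rw [sum_union h1, sum_union h2, h.s4_eq (mem_union_right _ hb)]

theorem nd_iO_pow (b : Pg) (n : ℕ) : ¬ b.1 ∣ iO ^ n := fun h =>
  b.prime.not_isUnit (isUnit_of_dvd_unit h (isUnit_iO.pow n))

theorem nd_lamP (b : Pg) : ¬ b.1 ∣ lam := by
  intro h
  have h1 : Associated b.1 lam := b.prime.associated_of_dvd prime_lam h
  exact b.in4.not_lam h1.symm.dvd

theorem Sm.rh_eq (hTB : Disjoint T B) (h : Sm m (T ∪ B) S S') (k : ZMod 4) (j : Fin 4) {b : Pg}
    (hb : b ∈ B) : rhB k j S T B b = rhB k j S' T B b := by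
  unfold rhB
  congr 1
  have e : ∀ S : Finset Pg, dB k j S T (B.erase b) =
      DDq S * (iO ^ k.val * lam ^ j.val * (DDq T ^ 3 * DDq (B.erase b) ^ 2)) := by
    intro S
    unfold dB cB
    ring
  have hr : ¬ b.1 ∣ iO ^ k.val * lam ^ j.val * (DDq T ^ 3 * DDq (B.erase b) ^ 2) := by
    intro hd
    rcases b.prime.dvd_or_dvd hd with hd | hd
    · rcases b.prime.dvd_or_dvd hd with hd | hd
      · exact nd_iO_pow b _ hd
      · exact nd_lamP b (b.prime.dvd_of_dvd_pow hd)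
    · rcases b.prime.dvd_or_dvd hd with hd | hd
      · exact disjoint_right.1 hTB hb (dvd_DDq.1 (b.prime.dvd_of_dvd_pow hd))
      · exact notMem_erase b B (dvd_DDq.1 (b.prime.dvd_of_dvd_pow hd))
  have hS : ¬ b.1 ∣ DDq S := not_dvd_DDq h.d b (mem_union_right _ hb)
  have hS' : ¬ b.1 ∣ DDq S' := not_dvd_DDq h.d' b (mem_union_right _ hb)
  rw [e, e, c4_mul b hS hr, c4_mul b hS' hr, h.c4_eq (mem_union_right _ hb)]

end

/-- The matrix only depends on the values of `τ` on `V`. -/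
theorem NV_congr {E : Type} [Fintype E] [DecidableEq E] (c : Fin 2 → ZMod 2)
    (P : Fin 2 → E → ZMod 2) (R : Matrix E E (ZMod 2)) (V : Finset Pg) {τ τ' : Pg → ZMod 2}
    (h : ∀ v ∈ V, τ v = τ' v) (S : Finset Pg) : d4.NV c P R V τ S = d4.NV c P R V τ' S := by
  unfold Dat2.NV
  congr 2
  funext v v'
  show (if v = v' then τ v else _) = if v = v' then τ' v else _
  rw [h v v.2]

section

variable {m : ℕ} {T B S S' : Finset Pg}

theorem Sm.nb0 (hTB : Disjoint T B) (h : Sm m (T ∪ B) S S') (k : ZMod 4) (j : Fin 4) :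
    (DetB0 k j S T B ↔ (d4.NV (kvB k j) (Da.P0 (Fin 2)) Da.R0 (VB k j S' T B)
      (rhB k j S' T B) (S ∪ T)).det ≠ 0) ∧
    (KerB0 k j S T B ↔ (S ∪ T).Nonempty ∧ ∀ w, (d4.NV (kvB k j) (Da.P0 (Fin 2)) Da.R0
      (VB k j S' T B) (rhB k j S' T B) (S ∪ T)).mulVec w = 0 →
        w = 0 ∨ w = Sum.elim (fun _ => 1) (Sum.elim (fun _ => 0) 0)) := by
  have hτ : ∀ v ∈ VB k j S' T B, rhB k j S T B v = rhB k j S' T B v := fun v hv =>
    h.rh_eq hTB k j (mem_filter.1 hv).1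
  unfold DetB0 KerB0 NB0
  rw [h.vb_eq k j, NV_congr _ _ _ _ hτ]
  exact ⟨Iff.rfl, Iff.rfl⟩

theorem Sm.nb1 (hTB : Disjoint T B) (h : Sm m (T ∪ B) S S') (k : ZMod 4) (j : Fin 4)
    (p : Fin 2 → ZMod 2) (x : ZMod 2) :
    (DetB1 k j p x S T B ↔ (d4.NV (kvB k j) (PpB p) (Da.R1 x) (VB k j S' T B)
      (rhB k j S' T B) (S ∪ T)).det ≠ 0) ∧
    (KerB1 k j p x S T B ↔ (S ∪ T).Nonempty ∧ ∀ w, (d4.NV (kvB k j) (PpB p) (Da.R1 x)
      (VB k j S' T B) (rhB k j S' T B) (S ∪ T)).mulVec w = 0 →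
        w = 0 ∨ w = Sum.elim (fun _ => 1) (Sum.elim (fun _ => 0) 0)) := by
  have hτ : ∀ v ∈ VB k j S' T B, rhB k j S T B v = rhB k j S' T B v := fun v hv =>
    h.rh_eq hTB k j (mem_filter.1 hv).1
  unfold DetB1 KerB1 NB1
  rw [h.vb_eq k j, NV_congr _ _ _ _ hτ]
  exact ⟨Iff.rfl, Iff.rfl⟩

end

/-! ### The criterion in the different classes -/

theorem gdB_c1 {k : ZMod 4} {S T B : Finset Pg} (hk : md k = 1) :
    GdB k 0 S T B ↔ DetB0 k 0 S T B := by
  refine ⟨fun h => h.c1 rfl hk, fun h => ⟨?_, ?_, ?_, ?_, ?_, ?_, ?_, ?_, ?_, ?_, ?_, ?_, ?_⟩⟩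
  · exact fun _ _ => h
  · exact fun _ h2 _ => absurd (h2.symm.trans hk) (by decide)
  · exact fun _ h2 _ => absurd hk (by rw [h2]; decide)
  · exact fun _ h2 _ _ => absurd hk (by rw [h2]; decide)
  · exact fun _ h2 _ _ => absurd hk (by rw [h2]; decide)
  · exact fun h1 => absurd h1 (by decide)
  · exact fun h1 => absurd h1 (by decide)
  · exact fun h1 _ => absurd h1 (by decide)
  · exact fun h1 _ => absurd h1 (by decide)
  · exact fun h1 _ _ => absurd h1 (by decide)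
  · exact fun h1 _ _ => absurd h1 (by decide)
  · exact fun h1 _ _ => absurd h1 (by decide)
  · exact fun h1 _ _ => absurd h1 (by decide)

theorem gdB_c2 {k : ZMod 4} {S T B : Finset Pg} (hk : md k = 0) (hA : aa (cB S T B) = 1) :
    GdB k 0 S T B ↔ KerB0 k 0 S T B := by
  refine ⟨fun h => h.c2 rfl hk hA, fun h => ⟨?_, ?_, ?_, ?_, ?_, ?_, ?_, ?_, ?_, ?_, ?_, ?_, ?_⟩⟩
  · exact fun _ h2 => absurd (h2.symm.trans hk) (by decide)
  · exact fun _ _ _ => h
  · exact fun _ _ h3 => absurd (h3.symm.trans hA) (by decide)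
  · exact fun _ _ h3 _ => absurd (h3.symm.trans hA) (by decide)
  · exact fun _ _ h3 _ => absurd (h3.symm.trans hA) (by decide)
  · exact fun h1 => absurd h1 (by decide)
  · exact fun h1 => absurd h1 (by decide)
  · exact fun h1 _ => absurd h1 (by decide)
  · exact fun h1 _ => absurd h1 (by decide)
  · exact fun h1 _ _ => absurd h1 (by decide)
  · exact fun h1 _ _ => absurd h1 (by decide)
  · exact fun h1 _ _ => absurd h1 (by decide)
  · exact fun h1 _ _ => absurd h1 (by decide)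

theorem gdB_x1 {S T B : Finset Pg} (hA : aa (cB S T B) = 0) :
    GdB 2 0 S T B ↔ KerB1 2 0 ![1, 0] (hf4 (nn (cB S T B))) S T B := by
  refine ⟨fun h => h.x1 rfl rfl hA, fun h => ⟨?_, ?_, ?_, ?_, ?_, ?_, ?_, ?_, ?_, ?_, ?_, ?_, ?_⟩⟩
  · exact fun _ h2 => absurd h2 (by decide)
  · exact fun _ _ h3 => absurd (h3.symm.trans hA) (by decide)
  · exact fun _ _ _ => h
  · exact fun _ h2 _ _ => absurd h2 (by decide)
  · exact fun _ h2 _ _ => absurd h2 (by decide)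
  · exact fun h1 => absurd h1 (by decide)
  · exact fun h1 => absurd h1 (by decide)
  · exact fun h1 _ => absurd h1 (by decide)
  · exact fun h1 _ => absurd h1 (by decide)
  · exact fun h1 _ _ => absurd h1 (by decide)
  · exact fun h1 _ _ => absurd h1 (by decide)
  · exact fun h1 _ _ => absurd h1 (by decide)
  · exact fun h1 _ _ => absurd h1 (by decide)

theorem gdB_x2 {S T B : Finset Pg} (hA : aa (cB S T B) = 0) (hB : hf4 (nn (cB S T B)) + bb (cB S T B) = 1) :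
    GdB 0 0 S T B ↔ KerB0 0 0 S T B := by
  refine ⟨fun h => h.x2 rfl rfl hA hB, fun h => ⟨?_, ?_, ?_, ?_, ?_, ?_, ?_, ?_, ?_, ?_, ?_, ?_, ?_⟩⟩
  · exact fun _ h2 => absurd h2 (by decide)
  · exact fun _ _ h3 => absurd (h3.symm.trans hA) (by decide)
  · exact fun _ h2 _ => absurd h2 (by decide)
  · exact fun _ _ _ _ => h
  · exact fun _ _ _ h4 => absurd (h4.symm.trans hB) (by decide)
  · exact fun h1 => absurd h1 (by decide)
  · exact fun h1 => absurd h1 (by decide)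
  · exact fun h1 _ => absurd h1 (by decide)
  · exact fun h1 _ => absurd h1 (by decide)
  · exact fun h1 _ _ => absurd h1 (by decide)
  · exact fun h1 _ _ => absurd h1 (by decide)
  · exact fun h1 _ _ => absurd h1 (by decide)
  · exact fun h1 _ _ => absurd h1 (by decide)

theorem gdB_x3 {S T B : Finset Pg} (hA : aa (cB S T B) = 0) (hB : hf4 (nn (cB S T B)) + bb (cB S T B) = 0) :
    GdB 0 0 S T B ↔ KerB1 0 0 ![1, 0] (xl4 (llB (cB S T B))) S T B := by
  refine ⟨fun h => h.x3 rfl rfl hA hB, fun h => ⟨?_, ?_, ?_, ?_, ?_, ?_, ?_, ?_, ?_, ?_, ?_, ?_, ?_⟩⟩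
  · exact fun _ h2 => absurd h2 (by decide)
  · exact fun _ _ h3 => absurd (h3.symm.trans hA) (by decide)
  · exact fun _ h2 _ => absurd h2 (by decide)
  · exact fun _ _ _ h4 => absurd (h4.symm.trans hB) (by decide)
  · exact fun _ _ _ _ => h
  · exact fun h1 => absurd h1 (by decide)
  · exact fun h1 => absurd h1 (by decide)
  · exact fun h1 _ => absurd h1 (by decide)
  · exact fun h1 _ => absurd h1 (by decide)
  · exact fun h1 _ _ => absurd h1 (by decide)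
  · exact fun h1 _ _ => absurd h1 (by decide)
  · exact fun h1 _ _ => absurd h1 (by decide)
  · exact fun h1 _ _ => absurd h1 (by decide)

theorem gdB_e {k : ZMod 4} {S T B : Finset Pg} :
    GdB k 1 S T B ↔ DetB1 k 1 ![1, 0] (xk4 k) S T B := by
  refine ⟨fun h => h.e rfl, fun h => ⟨?_, ?_, ?_, ?_, ?_, ?_, ?_, ?_, ?_, ?_, ?_, ?_, ?_⟩⟩
  · exact fun h1 _ => absurd h1 (by decide)
  · exact fun h1 _ _ => absurd h1 (by decide)
  · exact fun h1 _ _ => absurd h1 (by decide)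
  · exact fun h1 _ _ _ => absurd h1 (by decide)
  · exact fun h1 _ _ _ => absurd h1 (by decide)
  · exact fun _ => h
  · exact fun h1 => absurd h1 (by decide)
  · exact fun h1 _ => absurd h1 (by decide)
  · exact fun h1 _ => absurd h1 (by decide)
  · exact fun h1 _ _ => absurd h1 (by decide)
  · exact fun h1 _ _ => absurd h1 (by decide)
  · exact fun h1 _ _ => absurd h1 (by decide)
  · exact fun h1 _ _ => absurd h1 (by decide)

theorem gdB_j3 {k : ZMod 4} {S T B : Finset Pg} :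
    GdB k 3 S T B ↔ DetB0 k 3 S T B := by
  refine ⟨fun h => h.j3 rfl, fun h => ⟨?_, ?_, ?_, ?_, ?_, ?_, ?_, ?_, ?_, ?_, ?_, ?_, ?_⟩⟩
  · exact fun h1 _ => absurd h1 (by decide)
  · exact fun h1 _ _ => absurd h1 (by decide)
  · exact fun h1 _ _ => absurd h1 (by decide)
  · exact fun h1 _ _ _ => absurd h1 (by decide)
  · exact fun h1 _ _ _ => absurd h1 (by decide)
  · exact fun h1 => absurd h1 (by decide)
  · exact fun _ => h
  · exact fun h1 _ => absurd h1 (by decide)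
  · exact fun h1 _ => absurd h1 (by decide)
  · exact fun h1 _ _ => absurd h1 (by decide)
  · exact fun h1 _ _ => absurd h1 (by decide)
  · exact fun h1 _ _ => absurd h1 (by decide)
  · exact fun h1 _ _ => absurd h1 (by decide)

theorem gdB_a2 {S T B : Finset Pg} :
    GdB 1 2 S T B ↔ DetB0 1 2 S T B := by
  refine ⟨fun h => h.a2 rfl rfl, fun h => ⟨?_, ?_, ?_, ?_, ?_, ?_, ?_, ?_, ?_, ?_, ?_, ?_, ?_⟩⟩
  · exact fun h1 _ => absurd h1 (by decide)
  · exact fun h1 _ _ => absurd h1 (by decide)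
  · exact fun h1 _ _ => absurd h1 (by decide)
  · exact fun h1 _ _ _ => absurd h1 (by decide)
  · exact fun h1 _ _ _ => absurd h1 (by decide)
  · exact fun h1 => absurd h1 (by decide)
  · exact fun h1 => absurd h1 (by decide)
  · exact fun _ _ => h
  · exact fun _ h2 => absurd h2 (by decide)
  · exact fun _ h2 _ => absurd h2 (by decide)
  · exact fun _ h2 _ => absurd h2 (by decide)
  · exact fun _ h2 _ => absurd h2 (by decide)
  · exact fun _ h2 _ => absurd h2 (by decide)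

theorem gdB_b2 {S T B : Finset Pg} :
    GdB 3 2 S T B ↔ DetB1 3 2 ![0, 1] (uB3 (mmB (cB S T B)) (nnB (cB S T B))) S T B := by
  refine ⟨fun h => h.b2 rfl rfl, fun h => ⟨?_, ?_, ?_, ?_, ?_, ?_, ?_, ?_, ?_, ?_, ?_, ?_, ?_⟩⟩
  · exact fun h1 _ => absurd h1 (by decide)
  · exact fun h1 _ _ => absurd h1 (by decide)
  · exact fun h1 _ _ => absurd h1 (by decide)
  · exact fun h1 _ _ _ => absurd h1 (by decide)
  · exact fun h1 _ _ _ => absurd h1 (by decide)
  · exact fun h1 => absurd h1 (by decide)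
  · exact fun h1 => absurd h1 (by decide)
  · exact fun _ h2 => absurd h2 (by decide)
  · exact fun _ _ => h
  · exact fun _ h2 _ => absurd h2 (by decide)
  · exact fun _ h2 _ => absurd h2 (by decide)
  · exact fun _ h2 _ => absurd h2 (by decide)
  · exact fun _ h2 _ => absurd h2 (by decide)

theorem gdB_c20 {S T B : Finset Pg} (hA : bb (cB S T B) = 1) :
    GdB 0 2 S T B ↔ KerB0 0 2 S T B := by
  refine ⟨fun h => h.c20 rfl rfl hA, fun h => ⟨?_, ?_, ?_, ?_, ?_, ?_, ?_, ?_, ?_, ?_, ?_, ?_, ?_⟩⟩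
  · exact fun h1 _ => absurd h1 (by decide)
  · exact fun h1 _ _ => absurd h1 (by decide)
  · exact fun h1 _ _ => absurd h1 (by decide)
  · exact fun h1 _ _ _ => absurd h1 (by decide)
  · exact fun h1 _ _ _ => absurd h1 (by decide)
  · exact fun h1 => absurd h1 (by decide)
  · exact fun h1 => absurd h1 (by decide)
  · exact fun _ h2 => absurd h2 (by decide)
  · exact fun _ h2 => absurd h2 (by decide)
  · exact fun _ _ _ => h
  · exact fun _ h2 _ => absurd h2 (by decide)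
  · exact fun _ _ h3 => absurd (h3.symm.trans hA) (by decide)
  · exact fun _ h2 _ => absurd h2 (by decide)

theorem gdB_c22 {S T B : Finset Pg} (hA : aa (cB S T B) + bb (cB S T B) = 1) :
    GdB 2 2 S T B ↔ KerB0 2 2 S T B := by
  refine ⟨fun h => h.c22 rfl rfl hA, fun h => ⟨?_, ?_, ?_, ?_, ?_, ?_, ?_, ?_, ?_, ?_, ?_, ?_, ?_⟩⟩
  · exact fun h1 _ => absurd h1 (by decide)
  · exact fun h1 _ _ => absurd h1 (by decide)
  · exact fun h1 _ _ => absurd h1 (by decide)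
  · exact fun h1 _ _ _ => absurd h1 (by decide)
  · exact fun h1 _ _ _ => absurd h1 (by decide)
  · exact fun h1 => absurd h1 (by decide)
  · exact fun h1 => absurd h1 (by decide)
  · exact fun _ h2 => absurd h2 (by decide)
  · exact fun _ h2 => absurd h2 (by decide)
  · exact fun _ h2 _ => absurd h2 (by decide)
  · exact fun _ _ _ => h
  · exact fun _ h2 _ => absurd h2 (by decide)
  · exact fun _ _ h3 => absurd (h3.symm.trans hA) (by decide)

theorem gdB_d20 {S T B : Finset Pg} (hA : bb (cB S T B) = 0) :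
    GdB 0 2 S T B ↔ KerB1 0 2 ![0, 1] (uB0 (mmB (cB S T B)) (nnB (cB S T B))) S T B := by
  refine ⟨fun h => h.d20 rfl rfl hA, fun h => ⟨?_, ?_, ?_, ?_, ?_, ?_, ?_, ?_, ?_, ?_, ?_, ?_, ?_⟩⟩
  · exact fun h1 _ => absurd h1 (by decide)
  · exact fun h1 _ _ => absurd h1 (by decide)
  · exact fun h1 _ _ => absurd h1 (by decide)
  · exact fun h1 _ _ _ => absurd h1 (by decide)
  · exact fun h1 _ _ _ => absurd h1 (by decide)
  · exact fun h1 => absurd h1 (by decide)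
  · exact fun h1 => absurd h1 (by decide)
  · exact fun _ h2 => absurd h2 (by decide)
  · exact fun _ h2 => absurd h2 (by decide)
  · exact fun _ _ h3 => absurd (h3.symm.trans hA) (by decide)
  · exact fun _ h2 _ => absurd h2 (by decide)
  · exact fun _ _ _ => h
  · exact fun _ h2 _ => absurd h2 (by decide)

theorem gdB_d22 {S T B : Finset Pg} (hA : aa (cB S T B) + bb (cB S T B) = 0) :
    GdB 2 2 S T B ↔ KerB1 2 2 ![1, 1] (uB2 (mmB (cB S T B)) (nnB (cB S T B))) S T B := by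
  refine ⟨fun h => h.d22 rfl rfl hA, fun h => ⟨?_, ?_, ?_, ?_, ?_, ?_, ?_, ?_, ?_, ?_, ?_, ?_, ?_⟩⟩
  · exact fun h1 _ => absurd h1 (by decide)
  · exact fun h1 _ _ => absurd h1 (by decide)
  · exact fun h1 _ _ => absurd h1 (by decide)
  · exact fun h1 _ _ _ => absurd h1 (by decide)
  · exact fun h1 _ _ _ => absurd h1 (by decide)
  · exact fun h1 => absurd h1 (by decide)
  · exact fun h1 => absurd h1 (by decide)
  · exact fun _ h2 => absurd h2 (by decide)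
  · exact fun _ h2 => absurd h2 (by decide)
  · exact fun _ h2 _ => absurd h2 (by decide)
  · exact fun _ _ h3 => absurd (h3.symm.trans hA) (by decide)
  · exact fun _ h2 _ => absurd h2 (by decide)
  · exact fun _ _ _ => h

/-! ### The class invariants -/

theorem aa_sq {x : 𝓞 K4} (hx : In4 x) : aa (x * x) = 0 := by
  rw [aa_mul hx hx]
  exact CharTwo.add_self_eq_zero _

theorem bb_sq {x : 𝓞 K4} (hx : In4 x) : bb (x * x) = 0 := by
  rw [bb_mul hx hx]
  exact CharTwo.add_self_eq_zero _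

theorem cB_eq' (S T B : Finset Pg) :
    cB S T B = (DDq S * DDq T) * ((DDq T * DDq B) * (DDq T * DDq B)) := by
  unfold cB
  ring

theorem aa_cBs (S T B : Finset Pg) : aa (cB S T B) = ∑ q ∈ S, aa q.1 + ∑ q ∈ T, aa q.1 := by
  rw [cB_eq', aa_mul ((DDq_in4 S).mul (DDq_in4 T)) (((DDq_in4 T).mul (DDq_in4 B)).mul
    ((DDq_in4 T).mul (DDq_in4 B))), aa_sq ((DDq_in4 T).mul (DDq_in4 B)), add_zero,
    aa_mul (DDq_in4 S) (DDq_in4 T), aa_DDq, aa_DDq]

theorem bb_cBs (S T B : Finset Pg) : bb (cB S T B) = ∑ q ∈ S, bb q.1 + ∑ q ∈ T, bb q.1 := by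
  rw [cB_eq', bb_mul ((DDq_in4 S).mul (DDq_in4 T)) (((DDq_in4 T).mul (DDq_in4 B)).mul
    ((DDq_in4 T).mul (DDq_in4 B))), bb_sq ((DDq_in4 T).mul (DDq_in4 B)), add_zero,
    bb_mul (DDq_in4 S) (DDq_in4 T), bb_DDq, bb_DDq]

/-! ### Both densities -/

/-- The sets with the property `Q` have lower density at least `κ₀ < cinf2`, the others at least
`κ₀ < 1 - cinf2`. -/
def Two (m : ℕ) (B : Finset Pg) (g : GB m B) (Q : Finset Pg → Prop) : Prop :=
  (∀ κ₀ : ℝ, κ₀ < Da.cinf2 → DSB m B g κ₀ Q) ∧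
    ∀ κ₀ : ℝ, κ₀ < 1 - Da.cinf2 → DSB m B g κ₀ fun S => ¬ Q S

theorem Two.congr {m : ℕ} {B : Finset Pg} {g : GB m B} {Q Q' : Finset Pg → Prop}
    (h : Two m B g Q)
    (hQ : ∀ S, Disjoint S B → ∑ q ∈ S, clB m B q = g → (Q' S ↔ Q S)) : Two m B g Q' :=
  ⟨fun κ₀ hκ => (h.1 κ₀ hκ).mono fun S h1 h2 h3 => (hQ S h1 h2).2 h3,
    fun κ₀ hκ => (h.2 κ₀ hκ).mono fun S h1 h2 h3 h4 => h3 ((hQ S h1 h2).1 h4)⟩

/-- The empty classes. -/
theorem Two.of_empty {m : ℕ} {B : Finset Pg} {g : GB m B} {Q : Finset Pg → Prop}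
    (h : ¬ ∃ S : Finset Pg, Disjoint S B ∧ ∑ q ∈ S, clB m B q = g) : Two m B g Q := by
  classical
  have h0 : ∀ (κ₀ : ℝ) (Q : Finset Pg → Prop), DSB m B g κ₀ Q := by
    intro κ₀ Q ε hε
    refine ⟨0, fun X _ => ?_⟩
    have h1 : (Sx Pg X).filter (fun S => Disjoint S B ∧ ∑ q ∈ S, clB m B q = g) = ∅ := by
      rw [filter_eq_empty_iff]
      exact fun S _ h2 => h ⟨S, h2⟩
    rw [h1, card_empty, Nat.cast_zero, mul_zero, zero_sub]
    have h2 : (0 : ℝ) ≤ ε * X := by positivity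
    have h3 : (0 : ℝ) ≤ (((Sx Pg X).filter fun S => Disjoint S B ∧ ∑ q ∈ S, clB m B q = g ∧
      Q S).card : ℝ) := Nat.cast_nonneg _
    linarith
  exact ⟨fun κ₀ _ => h0 κ₀ Q, fun κ₀ _ => h0 κ₀ _⟩

section

variable {m : ℕ} {T V B : Finset Pg} {E : Type} [Fintype E] [DecidableEq E]
  {c : Fin 2 → ZMod 2} {P : Fin 2 → E → ZMod 2} {R : Matrix E E (ZMod 2)}

theorem two_ne (hTB : Disjoint T B) (hV : V ⊆ B) (g : GB m (T ∪ B))
    (hR : ∀ e f, R e f = R f e)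
    (hP : ∀ x : E → ZMod 2, (∀ j, ∑ e, P j e * x e = 0) → x = 0) (τ : Pg → ZMod 2)
    (hn : ∀ γ, ¬ Da.TrivV d4 c P R T V (alB g) (fun j => A4 m j g.1) γ) :
    Two m (T ∪ B) g fun S => (d4.NV c P R V τ (S ∪ T)).det ≠ 0 := by
  have h1 : Disjoint T V := disjoint_of_subset_right hV hTB
  have h2 : V ⊆ T ∪ B := hV.trans subset_union_right
  have h3 : ∀ b : (T ∪ B : Finset Pg), alB g b = (CclB m (T ∪ B)).A (Sum.inr b) g := alB_A g
  refine ⟨fun κ₀ hκ => glueB (Da.densB_ne d4_OK subset_union_left h2 h1 (CclB m (T ∪ B))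
    (CclB_H3 m _) (cl := clB m (T ∪ B)) (fun _ => rfl) hR hP τ g h3 hn hκ) fun S _ _ h => h,
    fun κ₀ hκ => DSB.compl (fun κ₁ hκ₁ => Da.densB_ne_upper d4_OK subset_union_left h2 h1
      (CclB m (T ∪ B)) (CclB_H3 m _) (cl := clB m (T ∪ B)) (fun _ => rfl) hR hP τ g h3 hn hκ₁)
      (fun S _ _ _ h => h) hκ⟩

theorem two_ker (hTB : Disjoint T B) (hV : V ⊆ B) (g : GB m (T ∪ B))
    (hR : ∀ e f, R e f = R f e)
    (hP : ∀ x : E → ZMod 2, (∀ j, ∑ e, P j e * x e = 0) → x = 0) (τ : Pg → ZMod 2)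
    {γ : E → ZMod 2} (hγ : Da.TrivV d4 c P R T V (alB g) (fun j => A4 m j g.1) γ) :
    Two m (T ∪ B) g fun S => (S ∪ T).Nonempty ∧ ∀ w, (d4.NV c P R V τ (S ∪ T)).mulVec w = 0 →
      w = 0 ∨ w = Sum.elim (fun _ => 1) (Sum.elim (fun _ => 0) γ) := by
  have h1 : Disjoint T V := disjoint_of_subset_right hV hTB
  have h2 : V ⊆ T ∪ B := hV.trans subset_union_right
  have h3 : ∀ b : (T ∪ B : Finset Pg), alB g b = (CclB m (T ∪ B)).A (Sum.inr b) g := alB_A g
  refine ⟨fun κ₀ hκ => glueB (Da.densB_ker d4_OK subset_union_left h2 h1 (CclB m (T ∪ B))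
    (CclB_H3 m _) (cl := clB m (T ∪ B)) (fun _ => rfl) hR hP τ g h3 hγ hκ) fun S _ _ h =>
      ⟨(nonempty_iff_ne_empty.2 h.1).mono subset_union_left, h.2⟩,
    fun κ₀ hκ => DSB.compl (fun κ₁ hκ₁ => Da.densB_ker_upper d4_OK subset_union_left h2 h1
      (CclB m (T ∪ B)) (CclB_H3 m _) (cl := clB m (T ∪ B)) (fun _ => rfl) hR hP τ g h3 hγ hκ₁)
      (fun S _ _ h4 h => ⟨h4, h.2⟩) hκ⟩

end

/-! ### The four kinds of criteria in a class with the representative `S'` -/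

theorem PpB_inj {p : Fin 2 → ZMod 2} (hp : ∃ i, p i = 1) (x : Unit → ZMod 2)
    (h : ∀ j, ∑ e, PpB p j e * x e = 0) : x = 0 := by
  obtain ⟨i, hi⟩ := hp
  have h1 := h i
  rw [Fintype.sum_unique] at h1
  have h2 : p i * x () = 0 := h1
  rw [hi, one_mul] at h2
  funext u
  exact h2

section

variable {m : ℕ} {T B S' : Finset Pg} {g : GB m (T ∪ B)}

/-- The condition of `TrivV` at the primes of `V`. -/
theorem trV (hTB : Disjoint T B) (hS' : Disjoint S' (T ∪ B))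
    (hg : ∑ q ∈ S', clB m (T ∪ B) q = g) {k : ZMod 4} {j : Fin 4} (hc : kvB k j = 0) {v : Pg}
    (hv : v ∈ VB k j S' T B) : alB g v + ∑ t ∈ T, d4.s t v = 0 := by
  obtain ⟨hvB, h1⟩ := mem_filter.1 hv
  have h2 : kxB k j v = 0 := by
    have h3 : md k = 0 := congrFun hc 0
    have h4 : (j.val : ZMod 2) = 0 := congrFun hc 1
    unfold kxB
    rw [h3, h4, zero_mul, zero_mul, add_zero]
  have h5 : Disjoint S' T := disjoint_of_subset_right subset_union_left hS'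
  rw [h2, add_zero, sum_union h5, ← alB_of hS' hg (mem_union_right _ hvB)] at h1
  rw [← h1]
  congr 1
  exact sum_congr rfl fun t ht => s4_symm (ne_of_mem_of_not_mem ht
    (disjoint_right.1 hTB hvB))

theorem two_d0 (hTB : Disjoint T B) (k : ZMod 4) (j : Fin 4) (hc : kvB k j ≠ 0)
    (S' : Finset Pg) (τ : Pg → ZMod 2) : Two m (T ∪ B) g fun S =>
      (d4.NV (kvB k j) (Da.P0 (Fin 2)) Da.R0 (VB k j S' T B) τ (S ∪ T)).det ≠ 0 := by
  refine two_ne hTB (filter_subset _ _) g (fun e _ => e.elim)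
    (fun x _ => funext fun e => e.elim) τ ?_
  rintro γ ⟨h1, _⟩
  refine hc (funext fun i => ?_)
  rw [← h1 i]
  rfl

theorem two_d1 (hTB : Disjoint T B) (k : ZMod 4) (j : Fin 4) (p : Fin 2 → ZMod 2) (x : ZMod 2)
    (hp : ∃ i, p i = 1) (hc : ∃ i, p i = 0 ∧ kvB k j i ≠ 0)
    (S' : Finset Pg) (τ : Pg → ZMod 2) : Two m (T ∪ B) g fun S =>
      (d4.NV (kvB k j) (PpB p) (Da.R1 x) (VB k j S' T B) τ (S ∪ T)).det ≠ 0 := by
  refine two_ne hTB (filter_subset _ _) g (fun _ _ => rfl) (PpB_inj hp) τ ?_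
  rintro γ ⟨h1, _⟩
  obtain ⟨i, hi, hi2⟩ := hc
  refine hi2 ?_
  rw [← h1 i, Fintype.sum_unique]
  show p i * _ = 0
  rw [hi, zero_mul]

theorem two_k0 (hTB : Disjoint T B) (hS' : Disjoint S' (T ∪ B))
    (hg : ∑ q ∈ S', clB m (T ∪ B) q = g) (k : ZMod 4) (j : Fin 4) (hc : kvB k j = 0)
    (τ : Pg → ZMod 2) : Two m (T ∪ B) g fun S => (S ∪ T).Nonempty ∧
      ∀ w, (d4.NV (kvB k j) (Da.P0 (Fin 2)) Da.R0 (VB k j S' T B) τ (S ∪ T)).mulVec w = 0 →
        w = 0 ∨ w = Sum.elim (fun _ => 1) (Sum.elim (fun _ => 0) 0) := by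
  refine two_ker hTB (filter_subset _ _) g (fun e _ => e.elim)
    (fun x _ => funext fun e => e.elim) τ (γ := 0) ⟨fun i => ?_, fun v hv => ?_, fun e => e.elim⟩
  · rw [hc]
    rfl
  · rw [trV hTB hS' hg hc hv, zero_add]
    rfl

theorem two_k1 (hTB : Disjoint T B) (hS' : Disjoint S' (T ∪ B))
    (hg : ∑ q ∈ S', clB m (T ∪ B) q = g) (k : ZMod 4) (j : Fin 4) (hc : kvB k j = 0)
    (p : Fin 2 → ZMod 2) (x : ZMod 2) (hp : ∃ i, p i = 1)
    (h0 : p 0 * aa (cB S' T B) + p 1 * bb (cB S' T B) = 0)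
    (τ : Pg → ZMod 2) : Two m (T ∪ B) g fun S => (S ∪ T).Nonempty ∧
      ∀ w, (d4.NV (kvB k j) (PpB p) (Da.R1 x) (VB k j S' T B) τ (S ∪ T)).mulVec w = 0 →
        w = 0 ∨ w = Sum.elim (fun _ => 1) (Sum.elim (fun _ => 0) 0) := by
  refine two_ker hTB (filter_subset _ _) g (fun _ _ => rfl)
    (PpB_inj hp) τ (γ := 0) ⟨fun i => ?_, fun v hv => ?_, fun e => ?_⟩
  · rw [hc]
    exact sum_eq_zero fun e _ => mul_zero _
  · rw [trV hTB hS' hg hc hv, zero_add]
    exact sum_eq_zero fun e _ => mul_zero _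
  · rw [sum_eq_zero (s := univ) (f := fun f => Da.R1 x e f * (0 : Unit → ZMod 2) f)
      (fun f _ => mul_zero _), add_zero, Fin.sum_univ_two]
    show p 0 * (A4 m 0 g.1 + ∑ t ∈ T, d4.a t 0) + p 1 * (A4 m 1 g.1 + ∑ t ∈ T, d4.a t 1) = 0
    rw [A4_of hg, A4_of hg]
    rw [aa_cBs, bb_cBs] at h0
    exact h0

end

/-- **The good sets, all classes**: both densities. -/
theorem gdB_two {m : ℕ} (hm : 2 ≤ m) (k : ZMod 4) (j : Fin 4) (T B : Finset Pg)
    (hTB : Disjoint T B) (g : GB m (T ∪ B)) : Two m (T ∪ B) g fun S => GdB k j S T B := by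
  by_cases hS : ∃ S : Finset Pg, Disjoint S (T ∪ B) ∧ ∑ q ∈ S, clB m (T ∪ B) q = g
  swap
  · exact Two.of_empty hS
  obtain ⟨S', hS', hg⟩ := hS
  have hSm : ∀ S : Finset Pg, Disjoint S (T ∪ B) → ∑ q ∈ S, clB m (T ∪ B) q = g →
      Sm m (T ∪ B) S S' := fun S h1 h2 => ⟨h1, hS', h2.trans hg.symm⟩
  have h2 : ∀ x : ZMod 2, x = 0 ∨ x = 1 := by decide
  have d0 : ∀ (k : ZMod 4) (j : Fin 4), kvB k j ≠ 0 →
      (∀ S, GdB k j S T B ↔ DetB0 k j S T B) → Two m (T ∪ B) g fun S => GdB k j S T B := by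
    intro k j hc h
    refine (two_d0 hTB k j hc S' (rhB k j S' T B)).congr fun S h3 h4 => ?_
    rw [h S, ((hSm S h3 h4).nb0 hTB k j).1]
  have k0 : ∀ (k : ZMod 4) (j : Fin 4), kvB k j = 0 →
      (∀ S, Sm m (T ∪ B) S S' → (GdB k j S T B ↔ KerB0 k j S T B)) →
      Two m (T ∪ B) g fun S => GdB k j S T B := by
    intro k j hc h
    refine (two_k0 hTB hS' hg k j hc (rhB k j S' T B)).congr fun S h3 h4 => ?_
    rw [h S (hSm S h3 h4), ((hSm S h3 h4).nb0 hTB k j).2]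
  have d1 : ∀ (k : ZMod 4) (j : Fin 4) (p : Fin 2 → ZMod 2) (x : ZMod 2), (∃ i, p i = 1) →
      (∃ i, p i = 0 ∧ kvB k j i ≠ 0) →
      (∀ S, Sm m (T ∪ B) S S' → (GdB k j S T B ↔ DetB1 k j p x S T B)) →
      Two m (T ∪ B) g fun S => GdB k j S T B := by
    intro k j p x hp hc h
    refine (two_d1 hTB k j p x hp hc S' (rhB k j S' T B)).congr fun S h3 h4 => ?_
    rw [h S (hSm S h3 h4), ((hSm S h3 h4).nb1 hTB k j p x).1]
  have k1 : ∀ (k : ZMod 4) (j : Fin 4) (p : Fin 2 → ZMod 2) (x : ZMod 2), (∃ i, p i = 1) →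
      kvB k j = 0 → p 0 * aa (cB S' T B) + p 1 * bb (cB S' T B) = 0 →
      (∀ S, Sm m (T ∪ B) S S' → (GdB k j S T B ↔ KerB1 k j p x S T B)) →
      Two m (T ∪ B) g fun S => GdB k j S T B := by
    intro k j p x hp hc h0 h
    refine (two_k1 hTB hS' hg k j hc p x hp h0 (rhB k j S' T B)).congr fun S h3 h4 => ?_
    rw [h S (hSm S h3 h4), ((hSm S h3 h4).nb1 hTB k j p x).2]
  have p10 : ∃ i, (![1, 0] : Fin 2 → ZMod 2) i = 1 := ⟨0, rfl⟩
  have p01 : ∃ i, (![0, 1] : Fin 2 → ZMod 2) i = 1 := ⟨1, rfl⟩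
  have p11 : ∃ i, (![1, 1] : Fin 2 → ZMod 2) i = 1 := ⟨0, rfl⟩
  have q10 : ∀ a b : ZMod 2, a = 0 →
      (![1, 0] : Fin 2 → ZMod 2) 0 * a + (![1, 0] : Fin 2 → ZMod 2) 1 * b = 0 := by decide
  have q01 : ∀ a b : ZMod 2, b = 0 →
      (![0, 1] : Fin 2 → ZMod 2) 0 * a + (![0, 1] : Fin 2 → ZMod 2) 1 * b = 0 := by decide
  have q11 : ∀ a b : ZMod 2, a + b = 0 →
      (![1, 1] : Fin 2 → ZMod 2) 0 * a + (![1, 1] : Fin 2 → ZMod 2) 1 * b = 0 := by decide
  have hj : j = 0 ∨ j = 1 ∨ j = 2 ∨ j = 3 := by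
    revert j
    decide
  have hk4 : k = 0 ∨ k = 1 ∨ k = 2 ∨ k = 3 := by
    revert k
    decide
  rcases hj with rfl | rfl | rfl | rfl
  · rcases md_cases k with hk | rfl | rfl
    · refine d0 k 0 (fun h => ?_) fun S => gdB_c1 hk
      have h3 : md k = 0 := congrFun h 0
      rw [hk] at h3
      exact one_ne_zero h3
    · rcases h2 (aa (cB S' T B)) with hA | hA
      · rcases h2 (hf4 (nn (cB S' T B)) + bb (cB S' T B)) with hB | hB
        · refine k1 0 0 ![1, 0] (xl4 (llB (cB S' T B))) p10 (by decide) (q10 _ _ hA)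
            fun S h => ?_
          rw [gdB_x3 (h.aa_eq.trans hA) (by rw [h.nn_eq (by omega), h.bb_eq, hB]), h.ll_eq hm]
        · refine k0 0 0 (by decide) fun S h => ?_
          exact gdB_x2 (h.aa_eq.trans hA) (by rw [h.nn_eq (by omega), h.bb_eq, hB])
      · exact k0 0 0 (by decide) fun S h => gdB_c2 (by decide) (h.aa_eq.trans hA)
    · rcases h2 (aa (cB S' T B)) with hA | hA
      · refine k1 2 0 ![1, 0] (hf4 (nn (cB S' T B))) p10 (by decide) (q10 _ _ hA) fun S h => ?_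
        rw [gdB_x1 (h.aa_eq.trans hA), h.nn_eq (by omega)]
      · exact k0 2 0 (by decide) fun S h => gdB_c2 (by decide) (h.aa_eq.trans hA)
  · exact d1 k 1 ![1, 0] (xk4 k) p10 ⟨1, rfl, by
      show (((1 : Fin 4).val : ℕ) : ZMod 2) ≠ 0
      decide⟩ fun S _ => gdB_e
  · rcases hk4 with rfl | rfl | rfl | rfl
    · rcases h2 (bb (cB S' T B)) with hA | hA
      · refine k1 0 2 ![0, 1] (uB0 (mmB (cB S' T B)) (nnB (cB S' T B))) p01 (by decide)
          (q01 _ _ hA) fun S h => ?_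
        rw [gdB_d20 (h.bb_eq.trans hA), (h.mn_eq hm).1, (h.mn_eq hm).2]
      · exact k0 0 2 (by decide) fun S h => gdB_c20 (h.bb_eq.trans hA)
    · exact d0 1 2 (by decide) fun S => gdB_a2
    · rcases h2 (aa (cB S' T B) + bb (cB S' T B)) with hA | hA
      · refine k1 2 2 ![1, 1] (uB2 (mmB (cB S' T B)) (nnB (cB S' T B))) p11 (by decide)
          (q11 _ _ hA) fun S h => ?_
        rw [gdB_d22 (by rw [h.aa_eq, h.bb_eq, hA]), (h.mn_eq hm).1, (h.mn_eq hm).2]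
      · exact k0 2 2 (by decide) fun S h => gdB_c22 (by rw [h.aa_eq, h.bb_eq, hA])
    · refine d1 3 2 ![0, 1] (uB3 (mmB (cB S' T B)) (nnB (cB S' T B))) p01 ⟨0, rfl, by
        decide⟩ fun S h => ?_
      rw [gdB_b2, (h.mn_eq hm).1, (h.mn_eq hm).2]
  · refine d0 k 3 (fun h => ?_) fun S => gdB_j3
    have h3 : (((3 : Fin 4).val : ℕ) : ZMod 2) = 0 := congrFun h 1
    exact absurd h3 (by decide)

/-- **The good sets have lower density at least `κ₀ < cinf2` in every class.** -/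
theorem gdB {m : ℕ} (hm : 2 ≤ m) (k : ZMod 4) (j : Fin 4) (T B : Finset Pg)
    (hTB : Disjoint T B) (g : GB m (T ∪ B)) {κ₀ : ℝ} (hκ : κ₀ < Da.cinf2) :
    DSB m (T ∪ B) g κ₀ fun S => GdB k j S T B := (gdB_two hm k j T B hTB g).1 κ₀ hκ

/-- **The other sets have lower density at least `κ₀ < 1 - cinf2` in every class.** -/
theorem gdB_not {m : ℕ} (hm : 2 ≤ m) (k : ZMod 4) (j : Fin 4) (T B : Finset Pg)
    (hTB : Disjoint T B) (g : GB m (T ∪ B)) {κ₀ : ℝ} (hκ : κ₀ < 1 - Da.cinf2) :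
    DSB m (T ∪ B) g κ₀ fun S => ¬ GdB k j S T B := (gdB_two hm k j T B hTB g).2 κ₀ hκ

end

end Pool.Agent.Lib.MP_1a91b9_ntQ
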