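import Pool.Agent.Lib.MP_1a91b9_ntQ.B.AvgB
import Pool.Agent.Lib.MP_1a91b9_ntQ.B.TraB

/-!
# Quartic twists, part B, file AvgJB: the sums over the residue classes with an auxiliary prime, every class

`e : Pg → ZMod 4` are the exponents, `q0` the auxiliary prime, `h : ZMod 4` the weight; the block
character of the set `T` is `chi_0 ^ (e0JB q0 e h T) ∏ (q ∈ T) chi_q ^ (e q)`, its value at `i` is
`i ^ (- h)`; `UJ k j h z` is the sum of `i ^ (- h r) UB (1 / f + i ^ r z)`, `f = fB k j`, a function of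
weight `h`; `MMJ k j h q0 e T J` is the sum with the characters of `T` over the classes modulo `q0 D_J`.
-/

set_option autoImplicit false
set_option linter.unusedSectionVars false

namespace Pool.Agent.Lib.MP_1a91b9_ntQ

open NumberField Pool.Agent.Lib.MP_1a91b9_nuT Pool.Agent.Lib.MP_1a91b9_nuT.S3
  Pool.Agent.Lib.MP_1a91b9_nuT.Ell

noncomputable section

/-! ### The block characters -/

/-- the exponent of the character at `q0` -/
def e0JB (q0 : Pg) (e : Pg → ZMod 4) (h : ZMod 4) (T : Finset Pg) : ZMod 4 :=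
  -((h + ∑ p ∈ T, e p * nn p.1) * nn q0.1)

/-- the exponents -/
def eJB (q0 : Pg) (e : Pg → ZMod 4) (h : ZMod 4) (T : Finset Pg) (q : Pg) : ZMod 4 :=
  if q = q0 then e0JB q0 e h T else e q

/-- the support -/
def sJB (q0 : Pg) (e : Pg → ZMod 4) (h : ZMod 4) (T : Finset Pg) : Finset Pg :=
  if e0JB q0 e h T = 0 then T else insert q0 T

theorem bkB_eq (q0 : Pg) (e : Pg → ZMod 4) (h : ZMod 4) (T : Finset Pg) (x : 𝓞 K) :
    bkB q0 e h T x = e0JB q0 e h T * c4 q0 x + ∑ p ∈ T, e p * c4 p x := by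
  rw [bkB, e0JB]
  ring

theorem sJB_sub (q0 : Pg) (e : Pg → ZMod 4) (h : ZMod 4) {T J : Finset Pg} (hT : T ⊆ J) :
    sJB q0 e h T ⊆ insert q0 J := by
  unfold sJB
  split
  · exact hT.trans (Finset.subset_insert _ _)
  · exact Finset.insert_subset_insert _ hT

/-- the values of the block character -/
theorem chP_JB {q0 : Pg} (e : Pg → ZMod 4) (h : ZMod 4) {T : Finset Pg} (hq : q0 ∉ T) {x : 𝓞 K}
    (hx : ¬ q0.1 ∣ x) :
    chP (eJB q0 e h T) (sJB q0 e h T) x = e4 (e0JB q0 e h T * c4 q0 x) * chP e T x := by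
  have h1 : chP (eJB q0 e h T) T x = chP e T x := by
    rw [chP_congr_e fun q hqT => ?_]
    have h2 : q ≠ q0 := by
      rintro rfl
      exact hq hqT
    rw [eJB, if_neg h2]
  unfold sJB
  split
  · next h3 => rw [h3, zero_mul, e4_zero, one_mul, h1]
  · have h4 : chP (eJB q0 e h T) (insert q0 T) x =
        chE (eJB q0 e h T) q0 x * chP (eJB q0 e h T) T x := by
      rw [chP, Finset.prod_insert hq, chP]
    rw [h4, h1, chE_of_not _ hx, eJB, if_pos rfl]

theorem chP_iOJ {q0 : Pg} (h0 : aa q0.1 = 1) (e : Pg → ZMod 4) (h : ZMod 4) {T : Finset Pg}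
    (hq : q0 ∉ T) : chP (eJB q0 e h T) (sJB q0 e h T) iO = e4 (-h) := by
  rw [chP_JB e h hq (iO_not q0), chP_of_not fun q _ => iO_not q, ← e4_add, c4_i,
    Finset.sum_congr rfl fun q _ => by rw [c4_i q], e0JB]
  have key : ∀ (h n s : ZMod 4), md n = 1 → -((h + s) * n) * n + s = -h := by decide
  rw [key h _ _ h0]

/-! ### The functions -/

/-- the sum over the units, of weight `h` -/
def UJ (k : ZMod 4) (j : ℕ) (h : ZMod 4) (z : ℂ) : ℂ :=
  ∑ r : ZMod 4, e4 (-(r * h)) * UB k j ((em (fB k j))⁻¹ + zt ^ r.val * z)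

theorem zt_pow_val_add (r s : ZMod 4) : zt ^ (r + s).val = zt ^ r.val * zt ^ s.val := by
  have h := pow_val_mul r s
  have h2 := congrArg em h
  rw [em_mul, em_pow, em_pow, em_pow] at h2
  exact h2.symm

theorem PdL_UJ (k : ZMod 4) (j : ℕ) (h : ZMod 4) : PdL (UJ k j h) := by
  intro x y hxy
  unfold UJ
  refine Finset.sum_congr rfl fun r _ => ?_
  rw [UB_congr k j]
  rw [add_sub_add_left_eq_sub, ← mul_sub]
  obtain ⟨t, ht⟩ := mem_iff_em.1 hxy
  have e1 : zt ^ r.val * (x - y) = em (iO ^ r.val * t) := by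
    rw [em_mul, em_pow, ht]
    rfl
  rw [e1]
  exact em_mem _

/-- the function has weight `h` -/
theorem Wt_UJ (k : ZMod 4) (j : ℕ) (h : ZMod 4) : Wt h (UJ k j h) := by
  intro z _
  unfold UJ
  rw [Finset.mul_sum]
  refine (Equiv.sum_comp (Equiv.addRight (1 : ZMod 4)) fun r : ZMod 4 => e4 h * (e4 (-(r * h)) *
    UB k j ((em (fB k j))⁻¹ + zt ^ r.val * z))).symm.trans ?_ |>.symm
  refine Finset.sum_congr rfl fun r _ => ?_
  have e1 : zt ^ ((Equiv.addRight (1 : ZMod 4)) r).val = zt ^ r.val * zt := by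
    change zt ^ (r + 1).val = _
    rw [zt_pow_val_add]
    have : (1 : ZMod 4).val = 1 := rfl
    rw [this, pow_one]
  have e2 : e4 h * e4 (-((Equiv.addRight (1 : ZMod 4)) r * h)) = e4 (-(r * h)) := by
    change e4 h * e4 (-((r + 1) * h)) = _
    rw [← e4_add]
    congr 1
    ring
  rw [e1, ← mul_assoc, e2, mul_assoc]

/-- the orbit of a class -/
theorem UJ_orb (k : ZMod 4) (j : ℕ) {e : Pg → ZMod 4} {T : Finset Pg} {h : ZMod 4}
    (hi : chP e T iO = e4 (-h)) (f M y : 𝓞 K) :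
    ∑ r : ZMod 4, chP e T (f * (iO ^ r.val * y)) *
        UB k j ((em (fB k j))⁻¹ + em (iO ^ r.val * y) / em M) =
      chP e T (f * y) * UJ k j h (em y / em M) := by
  unfold UJ
  rw [Finset.mul_sum]
  refine Finset.sum_congr rfl fun r _ => ?_
  have e1 : f * (iO ^ r.val * y) = iO ^ r.val * (f * y) := by ring
  have e2 : chP e T (iO ^ r.val) = e4 (-(r * h)) := by
    rw [chP_pow, hi, e4_pow, ZMod.natCast_zmod_val]
    congr 1
    ring
  have e3 : em (iO ^ r.val * y) / em M = zt ^ r.val * (em y / em M) := by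
    rw [em_mul, em_pow, mul_div_assoc]
    rfl
  rw [e1, chP_mul, e2, e3]
  ring

/-! ### The value at `1` over the classes -/

/-- the value at `1` as a sum over the classes -/
theorem LB_SM (k : ZMod 4) (j : ℕ) (e : Pg → ZMod 4) {T S : Finset Pg} (hT : T ⊆ S) :
    em (fB k j * DDq S) * (LB k j e T 1 * ∏ q ∈ S \ T, (1 - XB k j e T q.1 / em q.1)) =
      thB k j (DDq S) * SM (DDq S) fun y => cpi (DDq S) y *
        (chP e T (fB k j * y) * UB k j ((em (fB k j))⁻¹ + em y / em (DDq S))) := by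
  have hM : DDq S ≠ 0 := (DDq_in4 S).ne_zero
  obtain ⟨ι, _, y, hy⟩ := RepsG.exists_reps hM (one_dvd (DDq S))
  rw [LB_sum k j e hT hy]
  have hP : Pd (DDq S) fun y => cpi (DDq S) y *
      (chP e T (fB k j * y) * UB k j ((em (fB k j))⁻¹ + em y / em (DDq S))) := by
    refine (cpi_per _).mul (((Pd_chP e hT).comp_mul _).mul ?_)
    refine Pd_div (G := fun z => UB k j ((em (fB k j))⁻¹ + z)) hM fun z w h => UB_congr k j ?_
    rwa [add_sub_add_left_eq_sub]
  rw [SM_sup (a := y) hM hP]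
  · congr 1
    refine Finset.sum_congr rfl fun i _ => ?_
    rw [cpi_pos (hy.cop i), one_mul]
  · intro x hx
    have h1 : IsCoprime x (DDq S) := by
      by_contra h
      apply hx
      rw [cpi_neg h, zero_mul]
    exact hy.ex x h1 (one_dvd _)
  · exact fun i i' h => hy.inj i i' h

/-- **The sums over the classes with trivial character at `q0`.** -/
def MMJ (k : ZMod 4) (j : ℕ) (h : ZMod 4) (q0 : Pg) (e : Pg → ZMod 4) (T J : Finset Pg) : ℂ :=
  FXB q0 e (fB k j) (UJ k j h) T J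

/-- the left side of (3.1) -/
def LJB (k : ZMod 4) (j : ℕ) (h : ZMod 4) (q0 : Pg) (e : Pg → ZMod 4) (T J : Finset Pg) : ℂ :=
  em (fB k j * (q0.1 * DDq J)) * (LB k j (eJB q0 e h T) (sJB q0 e h T) 1 *
    ∏ q ∈ insert q0 J \ sJB q0 e h T, (1 - XB k j (eJB q0 e h T) (sJB q0 e h T) q.1 / em q.1))

/-- **(3.1)** -/
theorem MMJ_eq (k : ZMod 4) (j : ℕ) {q0 : Pg} (h0 : aa q0.1 = 1) (e : Pg → ZMod 4)
    (h : ZMod 4) {T J : Finset Pg} (hT : T ⊆ J) (hq : q0 ∉ J) :
    LJB k j h q0 e T J = thB k j (q0.1 * DDq J) * MMJ k j h q0 e T J := by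
  have hqT : q0 ∉ T := fun h => hq (hT h)
  have hM := DDq_insert hq
  have hM0 : DDq (insert q0 J) ≠ 0 := (DDq_in4 _).ne_zero
  have hd : q0.1 ∣ DDq (insert q0 J) := dvd_DDq.2 (Finset.mem_insert_self _ _)
  have hf := cop_fB_DDq k j (insert q0 J)
  have h1 := LB_SM k j (eJB q0 e h T) (sJB_sub q0 e h hT)
  have hper : Pd (DDq (insert q0 J)) fun y => chP (eJB q0 e h T) (sJB q0 e h T) (fB k j * y) *
      UB k j ((em (fB k j))⁻¹ + em y / em (DDq (insert q0 J))) := by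
    refine ((Pd_chP _ (sJB_sub q0 e h hT)).comp_mul _).mul ?_
    refine Pd_div (G := fun z => UB k j ((em (fB k j))⁻¹ + z)) hM0 fun z w h => UB_congr k j ?_
    rwa [add_sub_add_left_eq_sub]
  rw [orb h0 hM0 hd hf hper] at h1
  rw [LJB, MMJ, FXB, GX, ← hM, h1]
  congr 1
  refine SM_congr fun y => ?_
  by_cases hy : IsCoprime y (DDq (insert q0 J)) ∧ c4 q0 (fB k j * y) = 0
  · rw [rsX_pos _ hy.1 hy.2, rsX_pos _ hy.1 hy.2, UJ_orb k j (chP_iOJ h0 e h hqT)]
    congr 1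
    have h2 : ¬ q0.1 ∣ fB k j * y := fun h3 =>
      q0.prime.not_isUnit ((hf.mul_left hy.1).isUnit_of_dvd' h3 hd)
    rw [chP_JB e h hqT h2, hy.2, mul_zero, e4_zero, one_mul]
  · rw [rsX_neg _ hy, rsX_neg _ hy]

/-- the factor of a prime -/
theorem XB_JB {k : ZMod 4} {j : ℕ} {q0 : Pg} (e : Pg → ZMod 4) (h : ZMod 4) {T : Finset Pg}
    (hq0T : q0 ∉ T) {q : Pg} (hqT : q ∉ T) (hqq : q0 ≠ q) :
    XB k j (eJB q0 e h T) (sJB q0 e h T) q.1 = thB k j q.1 * e4 (bkB q0 e h T q.1) := by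
  have h4 : ¬ q0.1 ∣ q.1 := Pg.not_dvd hqq
  have h5 : ∀ p ∈ T, ¬ p.1 ∣ q.1 := fun p hp => Pg.not_dvd (by
    rintro rfl
    exact hqT hp)
  have h6 : XB k j (eJB q0 e h T) (sJB q0 e h T) q.1 =
      thB k j q.1 * chP (eJB q0 e h T) (sJB q0 e h T) q.1 := rfl
  rw [h6, chP_JB e h hq0T h4, chP_of_not h5, bkB_eq, e4_add]

/-- **(3.2)** -/
theorem MMJ_step (k : ZMod 4) (j : ℕ) {q0 : Pg} (h0 : aa q0.1 = 1)
    (e : Pg → ZMod 4) (h : ZMod 4)
    {T J : Finset Pg} (hT : T ⊆ J) {q : Pg} (hq : q ∉ J) (hq0 : q0 ∉ insert q J) :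
    MMJ k j h q0 e T (insert q J) =
      ((thB k j q.1)⁻¹ * em q.1 - e4 (bkB q0 e h T q.1)) * MMJ k j h q0 e T J := by
  have hqq : q0 ≠ q := fun e => hq0 (e ▸ Finset.mem_insert_self _ _)
  have hqJ : q0 ∉ J := fun e => hq0 (Finset.mem_insert_of_mem e)
  have hqT : q ∉ T := fun e => hq (hT e)
  have hq0T : q0 ∉ T := fun e => hqJ (hT e)
  have h1 := MMJ_eq k j h0 e h (hT.trans (Finset.subset_insert q J)) hq0
  have h2 := MMJ_eq k j h0 e h hT hqJ
  have hqs : q ∉ sJB q0 e h T := by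
    unfold sJB
    split
    · exact hqT
    · rw [Finset.mem_insert, not_or]
      exact ⟨hqq.symm, hqT⟩
  have hset : insert q0 (insert q J) \ sJB q0 e h T = insert q (insert q0 J \ sJB q0 e h T) := by
    rw [Finset.insert_comm, Finset.insert_sdiff_of_notMem _ hqs]
  have hnot : q ∉ insert q0 J \ sJB q0 e h T := by
    rw [Finset.mem_sdiff, Finset.mem_insert]
    rintro ⟨h3 | h3, -⟩
    · exact hqq h3.symm
    · exact hq h3
  have heq : q0.1 * DDq (insert q J) = q.1 * (q0.1 * DDq J) := by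
    rw [DDq_insert hq]
    ring
  have hq1 : em q.1 ≠ 0 := em_ne q.ne_zero
  have hth : thB k j (q.1 * (q0.1 * DDq J)) = thB k j q.1 * thB k j (q0.1 * DDq J) :=
    thB_mul k j q.in4 (q0.in4.mul (DDq_in4 J))
  have h3 : LJB k j h q0 e T (insert q J) = (em q.1 - thB k j q.1 * e4 (bkB q0 e h T q.1)) *
      LJB k j h q0 e T J := by
    rw [LJB, LJB, hset, Finset.prod_insert hnot, heq, XB_JB e h hq0T hqT hqq, em_mul (fB k j),
      em_mul q.1, em_mul (fB k j)]
    field_simp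
  rw [h3, h2, heq, hth] at h1
  have h4 : thB k j (q0.1 * DDq J) ≠ 0 := thB_ne k j _
  have h5 : thB k j q.1 ≠ 0 := thB_ne k j _
  apply mul_left_cancel₀ (mul_ne_zero h5 h4)
  rw [← h1]
  field_simp

/-- (3.2) for several primes -/
theorem MMJ_prod (k : ZMod 4) (j : ℕ) {q0 : Pg} (h0 : aa q0.1 = 1)
    (e : Pg → ZMod 4) (h : ZMod 4) {T J : Finset Pg} (hT : T ⊆ J) (hq0 : q0 ∉ J) :
    MMJ k j h q0 e T J =
      (∏ q ∈ J \ T, ((thB k j q.1)⁻¹ * em q.1 - e4 (bkB q0 e h T q.1))) *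
        MMJ k j h q0 e T T := by
  obtain ⟨R, hR⟩ : ∃ R, R = J \ T := ⟨_, rfl⟩
  have hJ : J = R ∪ T := by
    rw [hR, Finset.sdiff_union_of_subset hT]
  have hd : Disjoint R T := hR ▸ Finset.sdiff_disjoint
  rw [← hR]
  rw [hJ] at hq0 ⊢
  clear hT hR hJ
  induction R using Finset.induction_on with
  | empty => rw [Finset.empty_union, Finset.prod_empty, one_mul]
  | insert r R hr ih =>
    rw [Finset.insert_union] at hq0 ⊢
    rw [Finset.disjoint_insert_left] at hd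
    have h2 : r ∉ R ∪ T := by
      rw [Finset.mem_union, not_or]
      exact ⟨hr, hd.1⟩
    rw [MMJ_step k j h0 e h Finset.subset_union_right h2 hq0,
      ih (fun h3 => hq0 (Finset.mem_insert_of_mem h3)) hd.2, Finset.prod_insert hr]
    ring

/-- the sums do not see the exponents outside `T` -/
theorem MMJ_empty_e (k : ZMod 4) (j : ℕ) (h : ZMod 4) (q0 : Pg) (e e' : Pg → ZMod 4)
    (J : Finset Pg) : MMJ k j h q0 e ∅ J = MMJ k j h q0 e' ∅ J := rfl

/-- the sums and the value of the full character -/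
theorem MMJ_La (k : ZMod 4) (j : ℕ) {q0 : Pg} (h0 : aa q0.1 = 1)
    {e : Pg → ZMod 4} {h : ZMod 4} {S : Finset Pg} (hq : q0 ∉ S)
    (hS : h + ∑ q ∈ S, e q * nn q.1 = 0) :
    thB k j (q0.1 * DDq S) * MMJ k j h q0 e S S =
      (em q0.1 - XB k j e S q0.1) * LaB k j e S := by
  have h1 := MMJ_eq k j h0 e h (Finset.Subset.refl S) hq
  have he : e0JB q0 e h S = 0 := by rw [e0JB, hS, zero_mul, neg_zero]
  have hs : sJB q0 e h S = S := by rw [sJB, if_pos he]
  have hX : XB k j (eJB q0 e h S) S = XB k j e S := by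
    funext x
    change thB k j x * chP (eJB q0 e h S) S x = thB k j x * chP e S x
    rw [chP_congr_e fun q hqS => ?_]
    have h2 : q ≠ q0 := by
      rintro rfl
      exact hq hqS
    rw [eJB, if_neg h2]
  have h3 : insert q0 S \ S = {q0} := by
    rw [Finset.insert_sdiff_of_notMem _ hq, Finset.sdiff_self]
    rfl
  have hq1 : em q0.1 ≠ 0 := em_ne q0.ne_zero
  rw [← h1, LJB, hs, LB, hX, h3, Finset.prod_singleton, LaB, LB, em_mul (fB k j), em_mul q0.1,
    em_mul (fB k j)]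
  field_simp

/-- the value for the trivial character -/
theorem MMJ_empty (k : ZMod 4) (j : ℕ) {q0 : Pg} (h0 : aa q0.1 = 1)
    (e : Pg → ZMod 4) : MMJ k j 0 q0 e ∅ ∅ =
      ((thB k j q0.1)⁻¹ * em q0.1 - 1) * UB k j (em (fB k j))⁻¹ := by
  have h1 := MMJ_La k j h0 (e := e) (h := 0) (S := ∅) (Finset.notMem_empty q0)
    (by rw [Finset.sum_empty, add_zero])
  have h2 : XB k j e ∅ q0.1 = thB k j q0.1 := by
    rw [XB_eq, Finset.prod_empty, mul_one]
  have h3 : thB k j q0.1 ≠ 0 := thB_ne k j _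
  rw [DDq_empty, mul_one, h2, LaB_empty] at h1
  apply mul_left_cancel₀ h3
  rw [h1]
  field_simp

/-- **The end of the averaging** -/
theorem MMJ_ne (k : ZMod 4) (j : ℕ) {q0 : Pg} (h0 : aa q0.1 = 1)
    {e : Pg → ZMod 4} {h : ZMod 4} {S : Finset Pg} (hq : q0 ∉ S)
    (hS : h + ∑ q ∈ S, e q * nn q.1 = 0) (hne : MMJ k j h q0 e S S ≠ 0) : LaB k j e S ≠ 0 := by
  intro hL
  have h1 := MMJ_La k j h0 hq hS
  rw [hL, mul_zero] at h1
  exact hne ((mul_eq_zero.1 h1).resolve_left (thB_ne k j _))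

/-- **(3.3)** -/
theorem MMJ_sum (k : ZMod 4) (j : ℕ) (h : ZMod 4) (q0 : Pg) (e : Pg → ZMod 4) (J : Finset Pg) :
    ∑ T ∈ J.powerset, (-1) ^ T.card * MMJ k j h q0 e T J =
      GX q0 (fB k j) (wB e J) (UJ k j h) J := by
  rw [GX_wB]
  rfl

end

end Pool.Agent.Lib.MP_1a91b9_ntQ
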