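import Pool.Agent.Lib.MP_1a91b9_ntQ.B.PsJ3

/-!
# Quartic twists, all fourth-power-free `D`, file BaJ3: the class `lam ^ 3 ∥ D`, the value at the base point

`-(tJ3 k * V4 (sJ3 k) (tJ3 k * pe ^ 7)) / (lm ^ 5 * wq)` is congruent to `1` for every `k`.
-/

set_option autoImplicit false
set_option linter.unusedSectionVars false

namespace Pool.Agent.Lib.MP_1a91b9_ntQ

open NumberField Pool.Agent.Lib.MP_1a91b9_nuT Pool.Agent.Lib.MP_1a91b9_nuT.S3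
  Pool.Agent.Lib.MP_1a91b9_nuT.Ell

noncomputable section

namespace EV0

section gen
variable [CD] [hq : Q4]

theorem lm4_neg_pe7 : lm ^ 4 * (-1 * pe ^ 7) ∉ PP.lattice := by
  have e : lm ^ 4 * (-1 * pe ^ 7) = -(lm ^ 4 * pe ^ 7) := by ring
  rw [e]
  exact neg_notMem lm4_pe7

theorem lm4_zt_pe7 : lm ^ 4 * (zt * pe ^ 7) ∉ PP.lattice := by
  have e : lm ^ 4 * (zt * pe ^ 7) = zt * (lm ^ 4 * pe ^ 7) := by ring
  rw [e]
  exact zt_mem_iff.not.2 lm4_pe7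

/-- the value at `- pe ^ 7` -/
theorem VJ3_odd {s e c : ℂ} (hs : s = e * zt)
    (he : (e = 1 ∧ c = -(8 * zt)) ∨ (e = -1 ∧ c = -(4 * lm * sq))) :
    V4 s (-1 * pe ^ 7) * HH (-1 * pe ^ 7) = c * (sq + hh) := by
  have h := V_eq hs (lm4_neg_pe7 (hq := hq))
  have e0 : lm ^ 2 * (-1 * pe ^ 7) = -pe ^ 5 := by
    linear_combination (-1 : ℂ) * lm2_pe7 (hq := hq)
  rw [e0, Ell.X_neg, gg_neg] at h
  have h1 := two_X_pe5 (hq := hq)
  have h2 := hh_sq' (hq := hq)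
  have h3 := sq_sq (hq := hq)
  have h5 : (lm : ℂ) = 1 + zt := rfl
  have h6 : sg * -gg (pe ^ 5) = -hh := by rw [hh]; ring
  rw [h6] at h
  rw [V4]
  apply mul_right_cancel₀ (show (hh : ℂ) ≠ 0 from mul_ne_zero sg_ne (gg_ne two_pe5_notMem))
  rw [h5] at h1
  rcases he with ⟨rfl, rfl⟩ | ⟨rfl, rfl⟩
  · linear_combination (-1 : ℂ) * h - (2 * hh - 2 * sq) * h1 - (2 * hh + 2 * sq * zt - 4 * zt) * h2 -
      (-2 * hh * zt - 2 * hh + 4 * zt ^ 2) * h3 + 4 * sq * zt_sq (hq := hq)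
  · rw [h5]
    linear_combination (-1 : ℂ) * h - (2 * hh + 2 * sq) * h1 - (2 * hh - 2 * sq * zt + 4 * zt) * h2 -
      (-2 * hh * zt - 2 * hh - 4 * zt ^ 2) * h3 - 4 * sq * zt_sq (hq := hq)

/-- the value at `i pe ^ 7` -/
theorem VJ3_even {s e c : ℂ} (hs : s = e * zt)
    (he : (e = 1 ∧ c = 4 * lm * sq * zt) ∨ (e = -1 ∧ c = 8 * zt)) :
    V4 s (zt * pe ^ 7) * HH (zt * pe ^ 7) = c * (sq - zt * hh) := by
  have h := V_eq hs (lm4_zt_pe7 (hq := hq))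
  have e0 : lm ^ 2 * (zt * pe ^ 7) = zt * pe ^ 5 := by
    linear_combination zt * lm2_pe7 (hq := hq)
  rw [e0, X_i (notMem_of_two_mul two_pe5_notMem), gg_i two_pe5_notMem] at h
  have h1 := two_X_pe5 (hq := hq)
  have h2 := hh_sq' (hq := hq)
  have h3 := sq_sq (hq := hq)
  have h5 : (lm : ℂ) = 1 + zt := rfl
  have h6 : sg * -(zt * gg (pe ^ 5)) = -(zt * hh) := by rw [hh]; ring
  rw [h6] at h
  rw [V4]
  apply mul_right_cancel₀ (mul_ne_zero (zt_ne0 (hq := hq))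
    (show (hh : ℂ) ≠ 0 from mul_ne_zero sg_ne (gg_ne two_pe5_notMem)))
  rw [h5] at h1
  rcases he with ⟨rfl, rfl⟩ | ⟨rfl, rfl⟩
  · rw [h5]
    linear_combination (-1 : ℂ) * h - (-2 * hh * zt + 2 * sq) * h1 -
      (-2 * hh * zt + 2 * sq * zt ^ 2 + 2 * sq * zt + 2 * sq + 4 * zt ^ 3) * h2 -
      (-2 * hh * zt - 2 * hh + 4 * zt ^ 3 + 4 * zt ^ 2 + 4 * zt) * h3 -
      (-4 * hh + 8 * sq * zt ^ 2 + 4 * sq * zt - 4 * sq + 8 * zt ^ 2 + 8 * zt) * zt_sq (hq := hq) -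
      4 * (1 + zt) * sq * hh * (sq - zt * hh) * zt_sq (hq := hq)
  · linear_combination (-1 : ℂ) * h - (-2 * hh * zt - 2 * sq) * h1 -
      (-2 * hh * zt - 2 * sq * zt ^ 2 - 2 * sq * zt - 2 * sq + 4 * zt ^ 3 + 8 * zt) * h2 -
      (-2 * hh * zt - 2 * hh - 4 * zt ^ 3 - 4 * zt ^ 2 - 4 * zt) * h3 -
      (-8 * hh * sq - 4 * hh + 8 * sq * zt ^ 2 - 4 * sq * zt + 4 * sq + 8 * zt ^ 2 - 8 * zt) *
        zt_sq (hq := hq) -
      8 * hh * (sq - zt * hh) * zt_sq (hq := hq)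

variable {B : ValuationSubring ℂ}

theorem J3_Cg_x4 (hB : (2 : ℂ)⁻¹ ∉ B) : Cg B (1 + sq) 1 := by
  refine Cg.of_sub_lt (map_one _).le ?_
  rw [add_sub_cancel_left, v_sq]
  exact v_lm_lt hB

/-- the square of `β + sq hh` -/
theorem J3_Cg_be (hB : (2 : ℂ)⁻¹ ∉ B) {β b : ℂ} (hβ : β ^ 2 = b * lm ^ 3 * (1 + sq)) (hb : Cg B b 1) :
    Cg B ((β + sq * hh) ^ 2 / lm ^ 3) 1 := by
  have hl := lm_ne (hq := hq)
  have h4 := lm_four (hq := hq)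
  have h2 := lm_sq (hq := hq)
  have h5 := hh_sq' (hq := hq)
  have h6 := sq_sq (hq := hq)
  have vlm := (v_lm_lt (B := B) hB).le
  have vs : B.valuation (sq / lm) ≤ 1 := by
    rw [map_div₀, v_sq, div_self (ne_of_gt v_lm_pos)]
  have vh : B.valuation (hh / lm) ≤ 1 := by
    rw [map_div₀, v_hh hB, div_self (ne_of_gt v_lm_pos)]
  have vx := (J3_Cg_x4 hB).le
  have vβ : B.valuation β ≤ 1 := by
    refine v_le_of_pow two_ne_zero ?_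
    rw [hβ]
    exact v_mul_le (v_mul_le hb.le (v_pow_le vlm 3)) vx
  have e : (β + sq * hh) ^ 2 / lm ^ 3 = b * (1 + sq) +
      lm * (-(zt * β * (sq / lm) * (hh / lm)) - zt * (1 + sq)) := by
    rw [div_eq_iff (pow_ne_zero 3 hl)]
    have e1 : lm * (-(zt * β * (sq / lm) * (hh / lm)) - zt * (1 + sq)) * lm ^ 3 =
        -(zt * β * sq * hh * lm ^ 2) - zt * (1 + sq) * lm ^ 4 := by
      field_simp
    rw [add_mul, e1, h4, h2]
    linear_combination hβ + sq ^ 2 * h5 + (2 * zt * (1 + sq)) * h6 + (2 * β * sq * hh) * zt_sq (hq := hq)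
  rw [e]
  have h7 := hb.mul (J3_Cg_x4 hB)
  rw [mul_one] at h7
  refine h7.add_lt (v_mul_lt (v_lm_lt hB) (v_sub_le (v_neg_le ?_) (v_mul_le v_zt.le vx)))
  exact v_mul_le (v_mul_le (v_mul_le v_zt.le vβ) vs) vh

/-- from the value to the residue -/
theorem J3_base_fin (hB : (2 : ℂ)⁻¹ ∉ B) {V a c D β x t b τ : ℂ} (hV : V * a = c * D)
    (ha : a ^ 2 = -4 * (x + 1)) (hc : c ^ 8 = 2 ^ 24) (hD : D ^ 2 = 2 * t * (β + sq * hh))
    (ht : t ^ 4 = 1) (hβ : β ^ 2 = b * lm ^ 3 * (1 + sq)) (hb : Cg B b 1)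
    (hx : x = X (pe ^ 5) ∨ x = -X (pe ^ 5)) (hτ : τ ^ 4 = 1) :
    Rt B (-(τ * V) / (lm ^ 5 * wq)) 1 := by
  have hl := lm_ne (hq := hq)
  have hw := wq_ne (hq := hq)
  have hw4 := wq_pow (hq := hq)
  obtain ⟨Y, hY⟩ : ∃ Y, Y = -(τ * V) / (lm ^ 5 * wq) := ⟨_, rfl⟩
  rw [← hY]
  -- the eighth power
  have h1 : V ^ 8 * (256 * (x + 1) ^ 4) = 2 ^ 24 * (16 * (β + sq * hh) ^ 4) := by
    have e1 : a ^ 8 = 256 * (x + 1) ^ 4 := by
      have e : a ^ 8 = (a ^ 2) ^ 4 := by ring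
      rw [e, ha]
      ring
    have e2 : D ^ 8 = 16 * (β + sq * hh) ^ 4 := by
      have e : D ^ 8 = (D ^ 2) ^ 4 := by ring
      rw [e, hD]
      linear_combination (16 * (β + sq * hh) ^ 4) * ht
    rw [← e1, ← e2, ← mul_pow, hV, mul_pow, hc]
  have h2 : V ^ 8 * (x + 1) ^ 4 = lm ^ 40 * (β + sq * hh) ^ 4 := by
    have e1 : (lm : ℂ) ^ 40 = 2 ^ 20 := by
      have e : (lm : ℂ) ^ 40 = (lm ^ 4) ^ 10 := by ring
      rw [e, lm_four]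
      norm_num
    rw [e1]
    linear_combination (1 / 256) * h1
  have h3 : Y ^ 8 = V ^ 8 / (lm ^ 40 * lm ^ 2) := by
    have e1 : (lm ^ 5 * wq) ^ 8 = lm ^ 40 * lm ^ 2 := by
      have e : (lm ^ 5 * wq) ^ 8 = lm ^ 40 * (wq ^ 4) ^ 2 := by ring
      rw [e, hw4]
    have e2 : (-(τ * V)) ^ 8 = V ^ 8 := by
      have e : (-(τ * V)) ^ 8 = (τ ^ 4) ^ 2 * V ^ 8 := by ring
      rw [e, hτ, one_pow, one_mul]
    rw [hY, div_pow, e1, e2]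
  have h4 : Y ^ 8 * (((x + 1) ^ 2 / lm ^ 2 * (1 + sq) ^ 2) ^ 2) =
      ((β + sq * hh) ^ 2 / lm ^ 3) ^ 2 * (1 + sq) ^ 4 := by
    have e1 : V ^ 8 / (lm ^ 40 * lm ^ 2) * (((x + 1) ^ 2 / lm ^ 2 * (1 + sq) ^ 2) ^ 2) =
        V ^ 8 * (x + 1) ^ 4 / lm ^ 46 * (1 + sq) ^ 4 := by
      field_simp
    rw [h3, e1, h2]
    field_simp
  have cU : Cg B ((x + 1) ^ 2 / lm ^ 2 * (1 + sq) ^ 2) 1 :=
    Cg.of_sub_lt (map_one _).le (Rt_iff.1 (Rt_U hB hx))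
  have cU2 := cU.pow 2
  rw [one_pow] at cU2
  have cW := ((J3_Cg_be hB hβ hb).pow 2).mul ((J3_Cg_x4 hB).pow 4)
  rw [one_pow, one_pow, one_mul] at cW
  have cY8 : Cg B (Y ^ 8) 1 := by
    have e1 : Y ^ 8 = ((β + sq * hh) ^ 2 / lm ^ 3) ^ 2 * (1 + sq) ^ 4 *
        (((x + 1) ^ 2 / lm ^ 2 * (1 + sq) ^ 2) ^ 2)⁻¹ := by
      rw [← h4, mul_inv_cancel_right₀]
      intro h5
      have h6 := cU2.unit
      rw [h5, map_zero] at h6
      exact zero_ne_one h6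
    rw [e1]
    have := cW.mul cU2.inv
    rwa [mul_one] at this
  refine Rt_iff.2 (Cg.of_pow hB (map_one _).le 3 ?_).lt
  have e8 : (2 : ℕ) ^ 3 = 8 := by norm_num
  rw [e8, one_pow]
  exact cY8

theorem J3_c_one : ((-(8 * zt)) : ℂ) ^ 8 = 2 ^ 24 := by
  have h : (zt : ℂ) ^ 8 = 1 := by
    have e : (zt : ℂ) ^ 8 = (zt ^ 2) ^ 4 := by ring
    rw [e, zt_sq]
    norm_num
  linear_combination (8 : ℂ) ^ 8 * h

theorem J3_c_two : ((8 * zt) : ℂ) ^ 8 = 2 ^ 24 := by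
  have e : ((8 * zt) : ℂ) ^ 8 = (-(8 * zt)) ^ 8 := by ring
  rw [e, J3_c_one]

theorem J3_c_three : ((-(4 * lm * sq)) : ℂ) ^ 8 = 2 ^ 24 := by
  have h1 : (lm : ℂ) ^ 8 = 16 := by
    have e : (lm : ℂ) ^ 8 = (lm ^ 4) ^ 2 := by ring
    rw [e, lm_four]
    norm_num
  have h2 : (sq : ℂ) ^ 8 = 16 := by
    have e : (sq : ℂ) ^ 8 = (sq ^ 2) ^ 4 := by ring
    rw [e, sq_sq]
    norm_num
  have e : ((-(4 * lm * sq)) : ℂ) ^ 8 = 4 ^ 8 * lm ^ 8 * sq ^ 8 := by ring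
  rw [e, h1, h2]
  norm_num

theorem J3_c_four : ((4 * lm * sq * zt) : ℂ) ^ 8 = 2 ^ 24 := by
  have h : (zt : ℂ) ^ 8 = 1 := by
    have e : (zt : ℂ) ^ 8 = (zt ^ 2) ^ 4 := by ring
    rw [e, zt_sq]
    norm_num
  have e : ((4 * lm * sq * zt) : ℂ) ^ 8 = (-(4 * lm * sq)) ^ 8 * zt ^ 8 := by ring
  rw [e, J3_c_three, h, mul_one]

theorem J3_D_odd : (sq + hh : ℂ) ^ 2 = 2 * 1 * ((lm + zt * sq) + sq * hh) := by
  have h2 := hh_sq' (hq := hq)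
  have h3 := sq_sq (hq := hq)
  have h5 : (lm : ℂ) = 1 + zt := rfl
  rw [h5]
  linear_combination h2 + h3

theorem J3_D_even : (sq - zt * hh : ℂ) ^ 2 = 2 * -zt * ((lm + sq) + sq * hh) := by
  have h2 := hh_sq' (hq := hq)
  have h3 := sq_sq (hq := hq)
  have h5 : (lm : ℂ) = 1 + zt := rfl
  rw [h5]
  linear_combination (zt ^ 2) * h2 + h3 + (2 * zt * (1 + sq) + 2) * zt_sq (hq := hq)

end gen

end EV0

open EV0 in
/-- **the residue of the value at the base point** -/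
theorem Rt_VJ3_base [CD] [Q4] {B : ValuationSubring ℂ} (hB : (2 : ℂ)⁻¹ ∉ B) (k : ZMod 4) :
    Rt B (-(tJ3 k * V4 (sJ3 k) (tJ3 k * pe ^ 7)) / (lm ^ 5 * wq)) 1 := by
  have al : (lm + zt * EV0.sq) ^ 2 = 1 * lm ^ 3 * (1 + EV0.sq) := by
    rw [one_mul]
    exact al_sq
  have be : (lm + EV0.sq) ^ 2 = -zt * lm ^ 3 * (1 + EV0.sq) := by
    rw [be_sq]
    ring
  have hz4 : ((-zt : ℂ)) ^ 4 = 1 := by
    have e : ((-zt : ℂ)) ^ 4 = zt ^ 4 := by ring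
    rw [e, zt_four]
  have hxo : X (lm ^ 2 * (-1 * pe ^ 7)) = X (pe ^ 5) := by
    have e0 : lm ^ 2 * (-1 * pe ^ 7) = -pe ^ 5 := by
      linear_combination (-1 : ℂ) * lm2_pe7
    rw [e0, Ell.X_neg]
  have hxe : X (lm ^ 2 * (zt * pe ^ 7)) = -X (pe ^ 5) := by
    have e0 : lm ^ 2 * (zt * pe ^ 7) = zt * pe ^ 5 := by
      linear_combination zt * lm2_pe7
    rw [e0, X_i (notMem_of_two_mul two_pe5_notMem)]
  have key : ∀ k : ZMod 4, k = 0 ∨ k = 1 ∨ k = 2 ∨ k = 3 := by decide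
  rcases key k with rfl | rfl | rfl | rfl
  · have t0 : tJ3 0 = zt := if_pos (by decide)
    have s0 : sJ3 0 = 1 * zt := by
      have e : sJ3 0 = e4 (0 + 1) := if_pos (by decide)
      have e' : (0 + 1 : ZMod 4) = 1 := by decide
      rw [e, e', e4_one, one_mul]
    have hV := VJ3_even s0 (Or.inl ⟨rfl, rfl⟩)
    rw [t0]
    exact J3_base_fin hB (x := X (lm ^ 2 * (zt * pe ^ 7))) hV (HH_sq (two_lm_of4 lm4_zt_pe7)) J3_c_four
      J3_D_even hz4 be (Cg_neg_zt hB) (Or.inr hxe) zt_four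
  · have t0 : tJ3 1 = -1 := if_neg (by decide)
    have s0 : sJ3 1 = -1 * zt := by
      have e : sJ3 1 = e4 (1 - 2) := if_neg (by decide)
      have e' : (1 - 2 : ZMod 4) = 3 := by decide
      rw [e, e', e4_three]
      ring
    have hV := VJ3_odd s0 (Or.inr ⟨rfl, rfl⟩)
    rw [t0]
    exact J3_base_fin hB (x := X (lm ^ 2 * (-1 * pe ^ 7))) hV (HH_sq (two_lm_of4 lm4_neg_pe7)) J3_c_three
      J3_D_odd (one_pow 4) al (Cg.refl (map_one _).le) (Or.inl hxo) (by norm_num)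
  · have t0 : tJ3 2 = zt := if_pos (by decide)
    have s0 : sJ3 2 = -1 * zt := by
      have e : sJ3 2 = e4 (2 + 1) := if_pos (by decide)
      have e' : (2 + 1 : ZMod 4) = 3 := by decide
      rw [e, e', e4_three]
      ring
    have hV := VJ3_even s0 (Or.inr ⟨rfl, rfl⟩)
    rw [t0]
    exact J3_base_fin hB (x := X (lm ^ 2 * (zt * pe ^ 7))) hV (HH_sq (two_lm_of4 lm4_zt_pe7)) J3_c_two
      J3_D_even hz4 be (Cg_neg_zt hB) (Or.inr hxe) zt_four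
  · have t0 : tJ3 3 = -1 := if_neg (by decide)
    have s0 : sJ3 3 = 1 * zt := by
      have e : sJ3 3 = e4 (3 - 2) := if_neg (by decide)
      have e' : (3 - 2 : ZMod 4) = 1 := by decide
      rw [e, e', e4_one, one_mul]
    have hV := VJ3_odd s0 (Or.inl ⟨rfl, rfl⟩)
    rw [t0]
    exact J3_base_fin hB (x := X (lm ^ 2 * (-1 * pe ^ 7))) hV (HH_sq (two_lm_of4 lm4_neg_pe7)) J3_c_one
      J3_D_odd (one_pow 4) al (Cg.refl (map_one _).le) (Or.inl hxo) (by norm_num)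

end

end Pool.Agent.Lib.MP_1a91b9_ntQ
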