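import Pool.Agent.Lib.MP_1a91b9_ntQ.B.LamB
import Pool.Agent.Lib.MP_1a91b9_ntQ.C.LocCX

/-!
# MP_1a91b9_nt (quartic twists), part B: the converse at `lam` when the valuation of `D` is `2` or `3`

Explicit points of `y² = x³ - D x` over the completion at `lam`.
-/

set_option autoImplicit false
set_option linter.unusedSectionVars false
set_option linter.unusedVariables false

namespace Pool.Agent.Lib.MP_1a91b9_ntQ.C

open NumberField Finset WithZero IsDedekindDomain Pool.Agent.Lib.MP_1a91b9_nuT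
open Pool.Agent.Lib.MP_1a91b9_ntQ
open Pool.Agent.Lib.MP_1a91b9_ntH.C (Sq exists_nu isSquare_exp nu_one)

noncomputable section

/-! ### the sum of a point and a point of order two -/

/-- the sum of a point and a point of order two -/
theorem gloc4_tor_add {L : Type*} [Field L] [CharZero L] {ν : Valuation L ℤᵐ⁰} {i D δ x a : L}
    (hi : i ^ 2 = -1) (h2 : ν 2 = exp (-2)) (hδ : ν δ = exp (-1)) (hx : ν x = 1)
    (hD : ν (D - δ ^ 2) ≤ exp (-12)) (hX : Sq ν (x * (x ^ 2 - D))) (ha : Sq ν (a * (δ * x))) :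
    GLoc4 ν D a := by
  have h4 := nu_four4_le (ν := ν) h2
  have h40 : ν (4 : L) = exp (-4) := nu_four4 h2
  have hδ1 : ν δ < 1 := by
    rw [hδ, ← exp_zero, exp_lt_exp]
    norm_num
  have hδ0 : δ ≠ 0 := by
    rw [← ν.ne_zero_iff, hδ]
    exact exp_ne_zero
  have hx0 : x ≠ 0 := by
    rw [← ν.ne_zero_iff, hx]
    exact one_ne_zero
  have hm : ν (x - δ) = 1 := by
    rw [Valuation.map_sub_eq_of_lt_left _ (by rw [hx]; exact hδ1), hx]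
  have hp : ν (x + δ) = 1 := by
    rw [Valuation.map_add_eq_of_lt_left _ (by rw [hx]; exact hδ1), hx]
  have hm0 : x - δ ≠ 0 := by
    rw [← ν.ne_zero_iff, hm]
    exact one_ne_zero
  have hp0 : x + δ ≠ 0 := by
    rw [← ν.ne_zero_iff, hp]
    exact one_ne_zero
  have hδ2 : ν (δ ^ 2) = exp (-2) := by
    rw [map_pow, hδ, ← exp_nsmul]
    congr 1
  have hG : ν (x ^ 2 - δ ^ 2) = 1 := by
    have e : x ^ 2 - δ ^ 2 = (x - δ) * (x + δ) := by ring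
    rw [e, map_mul, hm, hp, one_mul]
  have hF : ν (x ^ 2 - D) = 1 := by
    have e : x ^ 2 - D = (x ^ 2 - δ ^ 2) - (D - δ ^ 2) := by ring
    rw [e, Valuation.map_sub_eq_of_lt_left _ ?_, hG]
    rw [hG]
    refine hD.trans_lt ?_
    rw [← exp_zero, exp_lt_exp]
    norm_num
  have hF0 : x ^ 2 - D ≠ 0 := by
    rw [← ν.ne_zero_iff, hF]
    exact one_ne_zero
  have hD4 : ∀ t : L, ν t = exp 7 → ν ((D - δ ^ 2) * t) < ν 4 := by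
    intro t ht
    rw [map_mul, ht, h40]
    calc ν (D - δ ^ 2) * exp 7 ≤ exp (-12) * exp 7 := by gcongr
      _ < exp (-4) := by
        rw [← exp_add, exp_lt_exp]
        norm_num
  have hXG : Sq ν (x * (x ^ 2 - δ ^ 2)) := by
    have e : x * (x ^ 2 - δ ^ 2) = x * (x ^ 2 - D) * (1 + (D - δ ^ 2) / (x ^ 2 - D)) := by
      field_simp
      ring
    rw [e]
    refine hX.mul h4.le (Sq.one ?_)
    rw [add_sub_cancel_left, map_div₀, hF, div_one, h40]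
    refine hD.trans_lt ?_
    rw [exp_lt_exp]
    norm_num
  have haG : Sq ν (a * (δ * (x ^ 2 - δ ^ 2))) := by
    refine Sq.of_mul_sq hx0 ?_
    have e : a * (δ * (x ^ 2 - δ ^ 2)) * x ^ 2 = a * (δ * x) * (x * (x ^ 2 - δ ^ 2)) := by ring
    rw [e]
    exact ha.mul h4.le hXG
  refine Or.inr (Or.inr (Or.inr ⟨δ * (x + δ) / (x - δ),
    div_ne_zero (mul_ne_zero hδ0 hp0) hm0, ?_, ?_⟩))
  · refine Sq.of_mul_sq (pow_ne_zero 2 hm0) ?_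
    have e : δ * (x + δ) / (x - δ) * ((δ * (x + δ) / (x - δ)) ^ 2 - D) * ((x - δ) ^ 2) ^ 2 =
        x * (x ^ 2 - δ ^ 2) * (1 + (D - δ ^ 2) * (-((x - δ) ^ 2) / (4 * (δ ^ 3 * x)))) *
          (2 * δ ^ 2) ^ 2 := by
      field_simp
      ring
    rw [e]
    refine (hXG.mul h4.le (Sq.one ?_)).mul h4.le
      (Sq.pow_two (mul_ne_zero two_ne_zero (pow_ne_zero 2 hδ0)))
    rw [add_sub_cancel_left]
    refine hD4 _ ?_
    rw [map_div₀, Valuation.map_neg, map_pow, hm, one_pow, map_mul, map_mul, map_pow, hδ, hx,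
      h40, mul_one, ← exp_nsmul, ← exp_add, one_div, ← exp_neg]
    congr 1
  · refine Sq.of_mul_sq hm0 ?_
    have e : a * (δ * (x + δ) / (x - δ)) * (x - δ) ^ 2 = a * (δ * (x ^ 2 - δ ^ 2)) := by
      field_simp
      ring
    rw [e]
    exact haG

/-! ### squares -/

theorem sqO {u t : 𝓞 K} (hu : ¬ lam ∣ u) : Sq nuL ((u ^ 2 + 4 * (lam * t) : 𝓞 K) : K) := by
  have h1 : nuL (u : K) = 1 := pv_one prime_lam hu
  have hu0 : (u : K) ≠ 0 := by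
    rw [← nuL.ne_zero_iff, h1]
    exact one_ne_zero
  refine Sq.mk' (nu_four4_le nuL_two).le (s := (u : K)) (r := 4 * ((lam : K) * (t : K) / (u : K) ^ 2))
    hu0 (nu_four_lt ?_) ?_
  · rw [map_div₀, map_mul, map_pow, h1, one_pow, div_one, nuL_lam]
    calc exp (-1) * nuL (t : K) ≤ exp (-1) * 1 := by
          gcongr
          exact nuL_O t
      _ < 1 := by
        rw [mul_one, ← exp_zero, exp_lt_exp]
        norm_num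
  · have e : ((u ^ 2 + 4 * (lam * t) : 𝓞 K) : K) = (u : K) ^ 2 + 4 * ((lam : K) * (t : K)) := by
      push_cast
      rfl
    rw [e]
    field_simp

theorem not_lam_of_in4 {u : 𝓞 K} (h : In4 u) : ¬ lam ∣ u := h.not_lam

/-- an element with trivial class is a square -/
theorem kc_to_sq {a : K} {y : 𝓞 K} (h : Kc a 0 0 y) (hA : aa y = 0) (hL : bb y = 0) :
    Sq nuL a := by
  obtain ⟨hy, m, hm, ha⟩ := h
  obtain ⟨p, q, hpq⟩ := in4_form hy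
  rw [hpq, bb_form] at hL
  rw [hpq, aa_form, hL, add_zero] at hA
  obtain ⟨p', hp'⟩ := (ZMod.intCast_zmod_eq_zero_iff_dvd _ 2).1 hA
  obtain ⟨q', hq'⟩ := (ZMod.intCast_zmod_eq_zero_iff_dvd _ 2).1 hL
  have hl : lam = 1 + iO := rfl
  have e : y = 1 ^ 2 + 4 * (lam * (iO * ((p' : 𝓞 K) + (q' : 𝓞 K) * iO))) := by
    rw [hpq, hp', hq', hl]
    push_cast
    linear_combination (2 * ((p' : 𝓞 K) + (q' : 𝓞 K) * iO) * (iO + 1)) * iO_sq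
  have h1 := sqO (u := 1) (t := iO * ((p' : 𝓞 K) + (q' : 𝓞 K) * iO)) in4_one.not_lam
  rw [← e] at h1
  rw [ZMod.val_zero, pow_zero, pow_zero, one_mul, one_mul] at ha
  rw [ha]
  exact (Sq.pow_two hm).mul (nu_four4_le nuL_two).le h1

theorem kc_mul_sq {a b : K} {α w : ZMod 2} {y z : 𝓞 K} (h : Kc a α w y) (h' : Kc b α w z)
    (hA : aa y = aa z) (hL : bb y = bb z) : Sq nuL (a * b) := by
  have e2 : ∀ x : ZMod 2, x + x = 0 := by decide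
  have h1 := (h.mul h').cast (e2 α) (e2 w) rfl
  refine kc_to_sq h1 ?_ ?_
  · rw [aa_mul h.in4 h'.in4, hA, e2]
  · rw [bb_mul h.in4 h'.in4, hL, e2]

/-! ### the image -/

/-- the class `i ^ α lam ^ w y` with `aa y = A`, `bb y = B` is in the local image -/
def Im (D : K) (α w A B : ZMod 2) : Prop :=
  ∀ (a : K) (y : 𝓞 K), Kc a α w y → aa y = A → bb y = B → GLoc4 nuL D a

theorem Im.of {D x : K} {α w : ZMod 2} {z : 𝓞 K} (hx : ∀ a : K, Sq nuL (a * x) → GLoc4 nuL D a)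
    (h : Kc x α w z) : Im D α w (aa z) (bb z) := fun a y hy hA hL =>
  hx a (kc_mul_sq hy h hA hL)

theorem Im.zero (D : K) : Im D 0 0 0 0 := fun a y hy hA hL => Or.inl (kc_to_sq hy hA hL)

theorem Im.mulD {k : ZMod 4} {j : Fin 4} {c : 𝓞 K} (hc : In4 c) {α w A B : ZMod 2}
    (h : Im ((iO ^ k.val * lam ^ j.val * c : 𝓞 K) : K) α w A B) :
    Im ((iO ^ k.val * lam ^ j.val * c : 𝓞 K) : K) (α + md k) (w + (j.val : ZMod 2)) (A + aa c)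
      (B + bb c) := by
  intro a y hy hA hL
  have e2 : ∀ x y : ZMod 2, x + y + y = x := by decide
  obtain ⟨D, hD⟩ : ∃ D : K, D = ((iO ^ k.val * lam ^ j.val * c : 𝓞 K) : K) := ⟨_, rfl⟩
  have h1 := (hy.mul (Kc.D k j hc)).cast (e2 _ _) (e2 _ _) rfl
  have h2 := h _ _ h1 (by rw [aa_mul hy.in4 hc, hA, e2]) (by rw [bb_mul hy.in4 hc, hL, e2])
  have hD0 : D ≠ 0 := by
    rw [hD]
    exact coe_ne (mul_ne_zero (mul_ne_zero (isUnit_iO.pow _).ne_zero (pow_ne_zero _ lam_ne_zero))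
      hc.ne_zero)
  rw [← hD] at h2 ⊢
  have h3 := gloc4_mul_D iK_sq' (nu_four4_le nuL_two).le hD0 h2
  refine GLoc4.of_mul_sq hD0 ?_
  have e : a * D ^ 2 = a * D * D := by ring
  rw [e]
  exact h3

/-- a point in `O` -/
theorem pt_O {D x e u t : 𝓞 K} (hu : ¬ lam ∣ u) (he : e ≠ 0)
    (h : x * (x ^ 2 - D) = e ^ 2 * (u ^ 2 + 4 * (lam * t))) :
    (x : K) ≠ 0 ∧ Sq nuL ((x : K) * ((x : K) ^ 2 - (D : K))) := by
  have h1 := sqO (t := t) hu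
  have h2 := congrArg (fun x : 𝓞 K => (x : K)) h
  have e1 : ((x * (x ^ 2 - D) : 𝓞 K) : K) = (x : K) * ((x : K) ^ 2 - (D : K)) := by
    push_cast
    rfl
  rw [coe_sq_mul] at h2
  have h3 : Sq nuL ((x : K) * ((x : K) ^ 2 - (D : K))) := by
    rw [← e1]
    rw [h2]
    exact (Sq.pow_two (coe_ne he)).mul (nu_four4_le nuL_two).le h1
  exact ⟨left_ne_zero_of_mul (Sq.ne h3 (nu_four4_le nuL_two).le), h3⟩

theorem pt_O' {D x e u t : 𝓞 K} (hu : ¬ lam ∣ u) (he : e ≠ 0)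
    (h : x * (x ^ 2 - D) = e ^ 2 * (u ^ 2 + 4 * (lam * t))) (a : K) (ha : Sq nuL (a * (x : K))) :
    GLoc4 nuL (D : K) a := by
  obtain ⟨h1, h2⟩ := pt_O hu he h
  exact Or.inr (Or.inr (Or.inr ⟨_, h1, h2, ha⟩))

/-- the class of `1 + lam ^ 3 (m + n i)` modulo `2 lam ^ 3` -/
theorem ab_of {z r : 𝓞 K} (m n : ℤ)
    (h : z = 1 + lam ^ 3 * ((m : 𝓞 K) + (n : 𝓞 K) * iO) + 2 * lam ^ 3 * r) :
    In4 z ∧ aa z = (m : ZMod 2) + (n : ZMod 2) ∧ bb z = (n : ZMod 2) := by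
  have hz : In4 z := ⟨(m : 𝓞 K) + (n : 𝓞 K) * iO + 2 * r, by rw [h]; ring⟩
  refine ⟨hz, ?_, ?_⟩
  · rw [← aa_form m n]
    refine aa_congr hz ⟨(1 - iO) * r, ?_⟩
    have hl : lam = 1 + iO := rfl
    rw [h, hl]
    linear_combination ((1 + iO) ^ 3 * r) * iO_sq
  · rw [← bb_form m n]
    exact bb_congr hz ⟨r, by rw [h]; ring⟩

/-! ### `j = 3` -/

theorem pt_three (D : 𝓞 K) : (1 - lam ^ 3 * D) * ((1 - lam ^ 3 * D) ^ 2 - lam ^ 3 * D) =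
    1 ^ 2 * (1 ^ 2 + 4 * (lam * (-lam ^ 2 * D + lam ^ 5 * D ^ 2 - 4 * D ^ 3))) := by
  have hl : lam = 1 + iO := rfl
  rw [hl]
  linear_combination (-D ^ 3 * iO ^ 7 - 9 * D ^ 3 * iO ^ 6 - 35 * D ^ 3 * iO ^ 5 - 75 * D ^ 3 * iO ^ 4 - 91 * D
      ^ 3 * iO ^ 3 - 51 * D ^ 3 * iO ^ 2 + 7 * D ^ 3 * iO + 15 * D ^ 3) * iO_sq

/-! ### `j = 2` -/

theorem pt_a (μ : 𝓞 K) : (-3) * ((-3) ^ 2 - iO ^ 1 * lam ^ 2 * (1 + lam ^ 3 * μ)) =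
    iO ^ 2 * (1 ^ 2 + 4 * (lam * (3 * iO * μ - 4 * iO + 4))) := by
  have hl : lam = 1 + iO := rfl
  rw [hl]
  linear_combination (3 * iO ^ 4 * μ + 15 * iO ^ 3 * μ + 15 * iO ^ 2 * μ + 3 * iO * μ + 16 * iO ^ 2 + 3 * iO -
      27) * iO_sq

theorem pt_b0 (τ : 𝓞 K) : ∃ t : 𝓞 K, lam * ((1 - 2 * lam * τ) * (1 + 4 * τ * (lam * τ - 1))) *
    ((lam * ((1 - 2 * lam * τ) * (1 + 4 * τ * (lam * τ - 1)))) ^ 2 -
      iO ^ 3 * lam ^ 2 * (1 + lam ^ 3 * (lam * τ))) =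
    (2 * iO) ^ 2 * ((1 - 2 * lam * τ) ^ 2 + 4 * (lam * t)) := by
  have hl : lam = 1 + iO := rfl
  refine ⟨1152 * iO * τ ^ 8 + 512 * τ ^ 9 - 2304 * iO * τ ^ 7 - 1152 * τ ^ 8 + 1680 * iO * τ ^ 6 +
    192 * τ ^ 7 - 504 * iO * τ ^ 5 + 1008 * τ ^ 6 - 4 * iO * τ ^ 4 - 984 * τ ^ 5 + 46 * iO * τ
    ^ 3 + 432 * τ ^ 4 - 15 * iO * τ ^ 2 - 110 * τ ^ 3 + 2 * iO * τ + 17 * τ ^ 2 - τ, ?_⟩
  rw [hl]
  linear_combination (-512 * iO ^ 7 * τ ^ 9 - 4608 * iO ^ 6 * τ ^ 9 - 17920 * iO ^ 5 * τ ^ 9 + 2304 * iO ^ 6 * τ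
    ^ 8 + 8 * iO ^ 10 * τ ^ 4 - 38400 * iO ^ 4 * τ ^ 9 + 18432 * iO ^ 5 * τ ^ 8 - 384 * iO ^ 6
    * τ ^ 7 + 72 * iO ^ 9 * τ ^ 4 - 46592 * iO ^ 3 * τ ^ 9 + 62208 * iO ^ 4 * τ ^ 8 - 7296 * iO
    ^ 5 * τ ^ 7 + 280 * iO ^ 8 * τ ^ 4 - 12 * iO ^ 9 * τ ^ 3 - 26112 * iO ^ 2 * τ ^ 9 + 110592
    * iO ^ 3 * τ ^ 8 - 39936 * iO ^ 4 * τ ^ 7 + 1344 * iO ^ 5 * τ ^ 6 + 600 * iO ^ 7 * τ ^ 4 -
    96 * iO ^ 8 * τ ^ 3 + 2 * iO ^ 9 * τ ^ 2 - 4608 * iO * τ ^ 9 + 80640 * iO ^ 2 * τ ^ 8 -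
    102912 * iO ^ 3 * τ ^ 7 + 13440 * iO ^ 4 * τ ^ 6 - 96 * iO ^ 5 * τ ^ 5 + 728 * iO ^ 6 * τ ^
    4 - 324 * iO ^ 7 * τ ^ 3 + 20 * iO ^ 8 * τ ^ 2 + 18432 * iO * τ ^ 8 - 97920 * iO ^ 2 * τ ^
    7 + 51072 * iO ^ 3 * τ ^ 6 - 2496 * iO ^ 4 * τ ^ 5 + 408 * iO ^ 5 * τ ^ 4 - 568 * iO ^ 6 *
    τ ^ 3 + 82 * iO ^ 7 * τ ^ 2 - iO ^ 8 * τ - 512 * τ ^ 9 - 32640 * iO * τ ^ 7 + 67200 * iO ^
    2 * τ ^ 6 - 14976 * iO ^ 3 * τ ^ 5 + 184 * iO ^ 4 * τ ^ 4 - 476 * iO ^ 5 * τ ^ 3 + 176 * iO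
    ^ 6 * τ ^ 2 - 7 * iO ^ 7 * τ + 2304 * τ ^ 8 + 33600 * iO * τ ^ 6 - 30720 * iO ^ 2 * τ ^ 5 +
    2520 * iO ^ 3 * τ ^ 4 - 32 * iO ^ 4 * τ ^ 3 + 186 * iO ^ 5 * τ ^ 2 - 20 * iO ^ 6 * τ - 4608
    * τ ^ 7 - 22176 * iO * τ ^ 5 + 10128 * iO ^ 2 * τ ^ 4 - 44 * iO ^ 3 * τ ^ 3 + 28 * iO ^ 4 *
    τ ^ 2 - 26 * iO ^ 5 * τ + 5376 * τ ^ 6 + 9744 * iO * τ ^ 4 - 2344 * iO ^ 2 * τ ^ 3 - 106 *
    iO ^ 3 * τ ^ 2 - 3 * iO ^ 4 * τ - 4032 * τ ^ 5 - 2856 * iO * τ ^ 3 + 336 * iO ^ 2 * τ ^ 2 +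
    29 * iO ^ 3 * τ - iO ^ 4 + 2016 * τ ^ 4 + 540 * iO * τ ^ 2 - 22 * iO ^ 2 * τ - 3 * iO ^ 3 -
    672 * τ ^ 3 - 60 * iO * τ - 2 * iO ^ 2 + 144 * τ ^ 2 + 3 * iO - 18 * τ + 1) * iO_sq

theorem pt_b1 (τ : 𝓞 K) : ∃ t : 𝓞 K, lam * ((1 + 2 * lam * τ) * (1 + 4 * τ * (lam * τ + 1))) *
    ((lam * ((1 + 2 * lam * τ) * (1 + 4 * τ * (lam * τ + 1)))) ^ 2 -
      iO ^ 3 * lam ^ 2 * (1 + lam ^ 3 * (1 + lam * τ))) =
    2 ^ 2 * ((1 + 2 * lam * τ) ^ 2 + 4 * (lam * t)) := by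
  have hl : lam = 1 + iO := rfl
  refine ⟨-1152 * iO * τ ^ 8 + 512 * τ ^ 9 - 2304 * iO * τ ^ 7 + 1152 * τ ^ 8 - 1680 * iO * τ ^ 6 +
    192 * τ ^ 7 - 504 * iO * τ ^ 5 - 1008 * τ ^ 6 + 20 * iO * τ ^ 4 - 984 * τ ^ 5 + 62 * iO * τ
    ^ 3 - 432 * τ ^ 4 + 15 * iO * τ ^ 2 - 94 * τ ^ 3 + iO * τ - 7 * τ ^ 2, ?_⟩
  rw [hl]
  linear_combination (512 * iO ^ 7 * τ ^ 9 + 4608 * iO ^ 6 * τ ^ 9 + 17920 * iO ^ 5 * τ ^ 9 + 2304 * iO ^ 6 * τ ^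
    8 - 8 * iO ^ 10 * τ ^ 4 + 38400 * iO ^ 4 * τ ^ 9 + 18432 * iO ^ 5 * τ ^ 8 + 384 * iO ^ 6 *
    τ ^ 7 - 72 * iO ^ 9 * τ ^ 4 + 46592 * iO ^ 3 * τ ^ 9 + 62208 * iO ^ 4 * τ ^ 8 + 7296 * iO ^
    5 * τ ^ 7 - 280 * iO ^ 8 * τ ^ 4 - 20 * iO ^ 9 * τ ^ 3 + 26112 * iO ^ 2 * τ ^ 9 + 110592 *
    iO ^ 3 * τ ^ 8 + 39936 * iO ^ 4 * τ ^ 7 + 1344 * iO ^ 5 * τ ^ 6 - 600 * iO ^ 7 * τ ^ 4 -
    160 * iO ^ 8 * τ ^ 3 - 2 * iO ^ 9 * τ ^ 2 - 3584 * iO * τ ^ 9 + 99072 * iO ^ 2 * τ ^ 8 +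
    102912 * iO ^ 3 * τ ^ 7 + 13440 * iO ^ 4 * τ ^ 6 + 96 * iO ^ 5 * τ ^ 5 - 728 * iO ^ 6 * τ ^
    4 - 540 * iO ^ 7 * τ ^ 3 - 32 * iO ^ 8 * τ ^ 2 + 18432 * iO * τ ^ 8 + 134784 * iO ^ 2 * τ ^
    7 + 51072 * iO ^ 3 * τ ^ 6 + 2496 * iO ^ 4 * τ ^ 5 - 408 * iO ^ 5 * τ ^ 4 - 968 * iO ^ 6 *
    τ ^ 3 - 166 * iO ^ 7 * τ ^ 2 - 3 * iO ^ 8 * τ - 7680 * τ ^ 9 + 66432 * iO * τ ^ 7 + 94080 *
    iO ^ 2 * τ ^ 6 + 14976 * iO ^ 3 * τ ^ 5 + 296 * iO ^ 4 * τ ^ 4 - 900 * iO ^ 5 * τ ^ 3 - 416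
    * iO ^ 6 * τ ^ 2 - 25 * iO ^ 7 * τ - 16128 * τ ^ 8 + 76608 * iO * τ ^ 6 + 38784 * iO ^ 2 *
    τ ^ 5 + 2760 * iO ^ 3 * τ ^ 4 - 224 * iO ^ 4 * τ ^ 3 - 546 * iO ^ 5 * τ ^ 2 - 84 * iO ^ 6 *
    τ - iO ^ 7 + 1536 * τ ^ 7 + 45984 * iO * τ ^ 5 + 9808 * iO ^ 2 * τ ^ 4 + 524 * iO ^ 3 * τ ^
    3 - 304 * iO ^ 4 * τ ^ 2 - 142 * iO ^ 5 * τ - 6 * iO ^ 6 + 21504 * τ ^ 6 + 16336 * iO * τ ^
    4 + 1608 * iO ^ 2 * τ ^ 3 + 94 * iO ^ 3 * τ ^ 2 - 113 * iO ^ 4 * τ - 14 * iO ^ 5 + 19776 *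
    τ ^ 5 + 3368 * iO * τ ^ 3 + 272 * iO ^ 2 * τ ^ 2 - 5 * iO ^ 3 * τ - 15 * iO ^ 4 + 8928 * τ
    ^ 4 + 380 * iO * τ ^ 2 + 54 * iO ^ 2 * τ - 4 * iO ^ 3 + 2176 * τ ^ 3 + 28 * iO * τ + 6 * iO
    ^ 2 + 240 * τ ^ 2 + 3 * iO + 2 * τ - 3) * iO_sq

theorem pt_c0 (μ : 𝓞 K) : (-1 + 2 * iO) * ((-1 + 2 * iO) ^ 2 - lam ^ 2 * (1 + lam ^ 3 * μ)) =
    iO ^ 2 * (1 ^ 2 + 4 * (lam * (-2 * iO * μ + 2 * iO + μ - 2))) := by
  have hl : lam = 1 + iO := rfl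
  rw [hl]
  linear_combination (-2 * iO ^ 4 * μ - 9 * iO ^ 3 * μ - 5 * iO ^ 2 * μ + 3 * iO * μ - 8 * iO ^ 2 + 6 * iO + μ) * iO_sq

theorem pt_c2 (μ : 𝓞 K) : (-1 - 2 * iO) * ((-1 - 2 * iO) ^ 2 -
      iO ^ 2 * lam ^ 2 * (1 + lam ^ 3 * μ)) =
    iO ^ 2 * (1 ^ 2 + 4 * (lam * (-2 * iO * μ + 2 * iO - μ - 2))) := by
  have hl : lam = 1 + iO := rfl
  rw [hl]
  linear_combination (2 * iO ^ 6 * μ + 11 * iO ^ 5 * μ + 23 * iO ^ 4 * μ + 19 * iO ^ 3 * μ + 5 * iO ^ 2 * μ + 2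
      * iO ^ 3 - 3 * iO ^ 2 - 6 * iO - 1) * iO_sq

theorem pt_d0 {q β : 𝓞 K} (hq : q * (q + 1) = (1 + iO) * β) : ∃ t : 𝓞 K,
    lam * (1 + lam ^ 3 * (q - 2 * β)) * ((lam * (1 + lam ^ 3 * (q - 2 * β))) ^ 2 -
      lam ^ 2 * (1 + lam ^ 3 * (2 * q + 1))) = (iO * lam ^ 3) ^ 2 * (1 ^ 2 + 4 * (lam * t)) := by
  have hl : lam = 1 + iO := rfl
  refine ⟨12 * iO * q * β ^ 2 - 8 * iO * β ^ 3 + 12 * iO * q * β - 18 * iO * β ^ 2 + 12 * q * β ^ 2 -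
    8 * β ^ 3 + 2 * iO * q - 4 * iO * β + 6 * q * β + q + β, ?_⟩
  rw [hl]
  linear_combination (12 * iO ^ 10 * q * β ^ 2 - 8 * iO ^ 10 * β ^ 3 + iO ^ 11 * q * β - 6 * iO ^ 11 * β ^ 2 +
    144 * iO ^ 9 * q * β ^ 2 - 96 * iO ^ 9 * β ^ 3 + 19 * iO ^ 10 * q * β - 78 * iO ^ 10 * β ^
    2 - iO ^ 11 * β + 732 * iO ^ 8 * q * β ^ 2 - 488 * iO ^ 8 * β ^ 3 + 149 * iO ^ 9 * q * β -
    462 * iO ^ 9 * β ^ 2 + iO ^ 10 * q - 13 * iO ^ 10 * β + 2112 * iO ^ 7 * q * β ^ 2 - 1408 *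
    iO ^ 7 * β ^ 3 + 615 * iO ^ 8 * q * β - 1566 * iO ^ 8 * β ^ 2 + 12 * iO ^ 9 * q - 77 * iO ^
    9 * β + 3864 * iO ^ 6 * q * β ^ 2 - 2576 * iO ^ 6 * β ^ 3 + 1518 * iO ^ 7 * q * β - 3312 *
    iO ^ 7 * β ^ 2 + 57 * iO ^ 8 * q - 256 * iO ^ 8 * β + 4704 * iO ^ 5 * q * β ^ 2 - 3136 * iO
    ^ 5 * β ^ 3 + 2394 * iO ^ 6 * q * β - 4536 * iO ^ 6 * β ^ 2 + 146 * iO ^ 7 * q - 518 * iO ^
    7 * β + 3864 * iO ^ 4 * q * β ^ 2 - 2576 * iO ^ 4 * β ^ 3 + 2478 * iO ^ 5 * q * β - 4032 *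
    iO ^ 5 * β ^ 2 + 224 * iO ^ 6 * q - 660 * iO ^ 6 * β + 2112 * iO ^ 3 * q * β ^ 2 - 1408 *
    iO ^ 3 * β ^ 3 + 1674 * iO ^ 4 * q * β - 2232 * iO ^ 4 * β ^ 2 + 210 * iO ^ 5 * q - 530 *
    iO ^ 5 * β - iO ^ 6 + 732 * iO ^ 2 * q * β ^ 2 - 488 * iO ^ 2 * β ^ 3 + 705 * iO ^ 3 * q *
    β - 666 * iO ^ 3 * β ^ 2 + 112 * iO ^ 4 * q - 262 * iO ^ 4 * β - 6 * iO ^ 5 + 144 * iO * q
    * β ^ 2 - 96 * iO * β ^ 3 + 163 * iO ^ 2 * q * β - 42 * iO ^ 2 * β ^ 2 + 22 * iO ^ 3 * q -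
    81 * iO ^ 3 * β - 15 * iO ^ 4 + 13 * iO * q * β + 30 * iO * β ^ 2 - 9 * iO ^ 2 * q - 23 *
    iO ^ 2 * β - 20 * iO ^ 3 + 12 * q * β ^ 2 - 8 * β ^ 3 - 6 * iO * q - 9 * iO * β - 15 * iO ^
    2 - q * β + 6 * β ^ 2 - 6 * iO - q - 2 * β - 1) * iO_sq +
    (iO ^ 12 * q - 6 * iO ^ 12 * β + 12 * iO ^ 11 * q - 72 * iO ^ 11 * β - iO ^ 12 + 66 * iO ^
    10 * q - 396 * iO ^ 10 * β - 12 * iO ^ 11 + 220 * iO ^ 9 * q - 1320 * iO ^ 9 * β - 66 * iO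
    ^ 10 + 495 * iO ^ 8 * q - 2970 * iO ^ 8 * β - 219 * iO ^ 9 + 792 * iO ^ 7 * q - 4752 * iO ^
    7 * β - 486 * iO ^ 8 + 924 * iO ^ 6 * q - 5544 * iO ^ 6 * β - 756 * iO ^ 7 + 792 * iO ^ 5 *
    q - 4752 * iO ^ 5 * β - 840 * iO ^ 6 + 495 * iO ^ 4 * q - 2970 * iO ^ 4 * β - 666 * iO ^ 5
    + 220 * iO ^ 3 * q - 1320 * iO ^ 3 * β - 369 * iO ^ 4 + 66 * iO ^ 2 * q - 396 * iO ^ 2 * β
    - 136 * iO ^ 3 + 12 * iO * q - 72 * iO * β - 30 * iO ^ 2 - 3 * iO + q - 6 * β) * hq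

theorem pt_d2 {q β : 𝓞 K} (hq : q * (q - 1) = (1 + iO) * β) : ∃ t : 𝓞 K,
    iO * lam * (1 + lam ^ 3 * (iO * q - 2 * β)) *
      ((iO * lam * (1 + lam ^ 3 * (iO * q - 2 * β))) ^ 2 -
        iO ^ 2 * lam ^ 2 * (1 + lam ^ 3 * (iO * (2 * q + 1)))) =
      (iO * lam ^ 3) ^ 2 * (1 ^ 2 + 4 * (lam * t)) := by
  have hl : lam = 1 + iO := rfl
  refine ⟨12 * iO * q * β ^ 2 + 8 * iO * β ^ 3 - 4 * iO * q * β + 12 * q * β ^ 2 - 8 * β ^ 3 - iO * q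
    - 3 * iO * β + 6 * q * β + 6 * β ^ 2 - q, ?_⟩
  rw [hl]
  linear_combination (iO ^ 17 * q * β + 13 * iO ^ 16 * q * β - 6 * iO ^ 16 * β ^ 2 + iO ^ 17 * β + 12 * iO ^ 14 *
    q * β ^ 2 + 71 * iO ^ 15 * q * β - 78 * iO ^ 15 * β ^ 2 + iO ^ 16 * q + 13 * iO ^ 16 * β +
    144 * iO ^ 13 * q * β ^ 2 - 8 * iO ^ 13 * β ^ 3 + 201 * iO ^ 14 * q * β - 462 * iO ^ 14 * β
    ^ 2 + 12 * iO ^ 15 * q + 77 * iO ^ 15 * β + 780 * iO ^ 12 * q * β ^ 2 - 96 * iO ^ 12 * β ^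
    3 + 248 * iO ^ 13 * q * β - 1638 * iO ^ 13 * β ^ 2 + 65 * iO ^ 14 * q + 273 * iO ^ 14 * β +
    2496 * iO ^ 11 * q * β ^ 2 - 520 * iO ^ 11 * β ^ 3 - 234 * iO ^ 12 * q * β - 3828 * iO ^ 12
    * β ^ 2 + 208 * iO ^ 13 * q + 639 * iO ^ 13 * β + 5160 * iO ^ 10 * q * β ^ 2 - 1664 * iO ^
    10 * β ^ 3 - 1510 * iO ^ 11 * q * β - 6084 * iO ^ 11 * β ^ 2 + 430 * iO ^ 12 * q + 1024 *
    iO ^ 12 * β + 7008 * iO ^ 9 * q * β ^ 2 - 3440 * iO ^ 9 * β ^ 3 - 2874 * iO ^ 10 * q * β -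
    6456 * iO ^ 10 * β ^ 2 + 584 * iO ^ 11 * q + 1124 * iO ^ 11 * β + 5880 * iO ^ 8 * q * β ^ 2
    - 4704 * iO ^ 8 * β ^ 3 - 3035 * iO ^ 9 * q * β - 4104 * iO ^ 9 * β ^ 2 + 494 * iO ^ 10 * q
    + 830 * iO ^ 10 * β + 2112 * iO ^ 7 * q * β ^ 2 - 4144 * iO ^ 7 * β ^ 3 - 1819 * iO ^ 8 * q
    * β - 834 * iO ^ 8 * β ^ 2 + 208 * iO ^ 9 * q + 445 * iO ^ 9 * β - 1284 * iO ^ 6 * q * β ^
    2 - 2080 * iO ^ 6 * β ^ 3 - 569 * iO ^ 7 * q * β + 798 * iO ^ 7 * β ^ 2 + 5 * iO ^ 8 * q +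
    317 * iO ^ 8 * β - 2160 * iO ^ 5 * q * β ^ 2 - 264 * iO ^ 5 * β ^ 3 - 263 * iO ^ 6 * q * β
    + 462 * iO ^ 6 * β ^ 2 + 44 * iO ^ 7 * q + 383 * iO ^ 7 * β - iO ^ 8 - 1284 * iO ^ 4 * q *
    β ^ 2 + 320 * iO ^ 4 * β ^ 3 - 430 * iO ^ 5 * q * β - 258 * iO ^ 5 * β ^ 2 + 173 * iO ^ 6 *
    q + 361 * iO ^ 6 * β - 6 * iO ^ 7 - 384 * iO ^ 3 * q * β ^ 2 + 184 * iO ^ 3 * β ^ 3 - 376 *
    iO ^ 4 * q * β - 372 * iO ^ 4 * β ^ 2 + 192 * iO ^ 5 * q + 203 * iO ^ 5 * β - 15 * iO ^ 6 -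
    48 * iO ^ 2 * q * β ^ 2 + 32 * iO ^ 2 * β ^ 3 - 152 * iO ^ 3 * q * β - 156 * iO ^ 3 * β ^ 2
    + 108 * iO ^ 4 * q + 62 * iO ^ 4 * β - 20 * iO ^ 5 - 24 * iO ^ 2 * q * β - 24 * iO ^ 2 * β
    ^ 2 + 32 * iO ^ 3 * q + 8 * iO ^ 3 * β - 15 * iO ^ 4 + 4 * iO ^ 2 * q - 6 * iO ^ 3 - iO ^ 2) * iO_sq +
    (iO ^ 18 * q + 12 * iO ^ 17 * q - 6 * iO ^ 17 * β + iO ^ 18 + 66 * iO ^ 16 * q - 72 * iO ^
    16 * β + 12 * iO ^ 17 + 220 * iO ^ 15 * q - 396 * iO ^ 15 * β + 66 * iO ^ 16 + 495 * iO ^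
    14 * q - 1320 * iO ^ 14 * β + 220 * iO ^ 15 + 792 * iO ^ 13 * q - 2970 * iO ^ 13 * β + 496
    * iO ^ 14 + 924 * iO ^ 12 * q - 4752 * iO ^ 12 * β + 801 * iO ^ 13 + 792 * iO ^ 11 * q -
    5544 * iO ^ 11 * β + 960 * iO ^ 12 + 495 * iO ^ 10 * q - 4752 * iO ^ 10 * β + 876 * iO ^ 11
    + 220 * iO ^ 9 * q - 2970 * iO ^ 9 * β + 621 * iO ^ 10 + 66 * iO ^ 8 * q - 1320 * iO ^ 8 *
    β + 346 * iO ^ 9 + 12 * iO ^ 7 * q - 396 * iO ^ 7 * β + 150 * iO ^ 8 + iO ^ 6 * q - 72 * iO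
    ^ 6 * β + 48 * iO ^ 7 - 6 * iO ^ 5 * β + 10 * iO ^ 6 + iO ^ 5) * hq

theorem tor_d (ν : 𝓞 K) : ∃ t : 𝓞 K,
    (1 + lam ^ 3 * (ν - iO * lam * (ν - iO * lam * ν ^ 2) ^ 2)) ^ 2 - (1 + lam ^ 3 * (2 * ν)) =
      lam ^ 11 * t := by
  have hl : lam = 1 + iO := rfl
  refine ⟨-iO * ν ^ 8 - 4 * iO * ν ^ 7 - ν ^ 8 - 3 * iO * ν ^ 6 + 3 * ν ^ 6 + iO * ν ^ 4 + 3 * ν ^ 5
    + ν ^ 4, ?_⟩
  rw [hl]
  linear_combination (iO ^ 16 * ν ^ 8 + 12 * iO ^ 15 * ν ^ 8 + 65 * iO ^ 14 * ν ^ 8 + 208 * iO ^ 13 * ν ^ 8 - 4 *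
    iO ^ 14 * ν ^ 7 + 430 * iO ^ 12 * ν ^ 8 - 44 * iO ^ 13 * ν ^ 7 + 584 * iO ^ 11 * ν ^ 8 -
    216 * iO ^ 12 * ν ^ 7 + 495 * iO ^ 10 * ν ^ 8 - 616 * iO ^ 11 * ν ^ 7 + 6 * iO ^ 12 * ν ^ 6
    + 220 * iO ^ 9 * ν ^ 8 - 1100 * iO ^ 10 * ν ^ 7 + 60 * iO ^ 11 * ν ^ 6 + 66 * iO ^ 8 * ν ^
    8 - 1188 * iO ^ 9 * ν ^ 7 + 267 * iO ^ 10 * ν ^ 6 + 220 * iO ^ 7 * ν ^ 8 - 528 * iO ^ 8 * ν
    ^ 7 + 690 * iO ^ 9 * ν ^ 6 - 6 * iO ^ 10 * ν ^ 5 + 495 * iO ^ 6 * ν ^ 8 + 528 * iO ^ 7 * ν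
    ^ 7 + 1125 * iO ^ 8 * ν ^ 6 - 57 * iO ^ 9 * ν ^ 5 - iO ^ 10 * ν ^ 4 + 584 * iO ^ 5 * ν ^ 8
    + 1188 * iO ^ 6 * ν ^ 7 + 1152 * iO ^ 7 * ν ^ 6 - 243 * iO ^ 8 * ν ^ 5 - 12 * iO ^ 9 * ν ^
    4 + 430 * iO ^ 4 * ν ^ 8 + 1100 * iO ^ 5 * ν ^ 7 + 630 * iO ^ 6 * ν ^ 6 - 612 * iO ^ 7 * ν
    ^ 5 - 60 * iO ^ 8 * ν ^ 4 + 208 * iO ^ 3 * ν ^ 8 + 616 * iO ^ 4 * ν ^ 7 - 36 * iO ^ 5 * ν ^
    6 - 1008 * iO ^ 6 * ν ^ 5 - 170 * iO ^ 7 * ν ^ 4 + 65 * iO ^ 2 * ν ^ 8 + 216 * iO ^ 3 * ν ^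
    7 - 360 * iO ^ 4 * ν ^ 6 - 1134 * iO ^ 5 * ν ^ 5 - 307 * iO ^ 6 * ν ^ 4 + 12 * iO * ν ^ 8 +
    44 * iO ^ 2 * ν ^ 7 - 300 * iO ^ 3 * ν ^ 6 - 882 * iO ^ 4 * ν ^ 5 - 372 * iO ^ 5 * ν ^ 4 -
    2 * iO ^ 6 * ν ^ 3 + 4 * iO * ν ^ 7 - 129 * iO ^ 2 * ν ^ 6 - 468 * iO ^ 3 * ν ^ 5 - 307 *
    iO ^ 4 * ν ^ 4 - 10 * iO ^ 5 * ν ^ 3 + ν ^ 8 - 30 * iO * ν ^ 6 - 162 * iO ^ 2 * ν ^ 5 - 170
    * iO ^ 3 * ν ^ 4 - 20 * iO ^ 4 * ν ^ 3 - 33 * iO * ν ^ 5 - 60 * iO ^ 2 * ν ^ 4 - 20 * iO ^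
    3 * ν ^ 3 + iO ^ 4 * ν ^ 2 - 3 * ν ^ 6 - 12 * iO * ν ^ 4 - 10 * iO ^ 2 * ν ^ 3 + 4 * iO ^ 3
    * ν ^ 2 - 3 * ν ^ 5 - 2 * iO * ν ^ 3 + 6 * iO ^ 2 * ν ^ 2 - ν ^ 4 + 4 * iO * ν ^ 2 + ν ^ 2) * iO_sq

/-! ### more general lemmas -/

/-- a point of order two -/
theorem gloc4_tor2 {L : Type*} [Field L] [CharZero L] {ν : Valuation L ℤᵐ⁰} {D δ a : L}
    (h2 : ν 2 = exp (-2)) (hδ : ν δ = exp (-1)) (hD : ν (D - δ ^ 2) ≤ exp (-12))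
    (ha : Sq ν (a * δ)) : GLoc4 ν D a := by
  have h4 := nu_four4_le (ν := ν) h2
  have hδ0 : δ ≠ 0 := by
    rw [← ν.ne_zero_iff, hδ]
    exact exp_ne_zero
  have hδ2 : ν (δ ^ 2) = exp (-2) := by
    rw [map_pow, hδ, ← exp_nsmul]
    congr 1
  have hDv : ν D = exp (-2) := by
    have e : D = δ ^ 2 + (D - δ ^ 2) := by ring
    rw [e, Valuation.map_add_eq_of_lt_left _ ?_, hδ2]
    rw [hδ2]
    refine hD.trans_lt ?_
    rw [exp_lt_exp]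
    norm_num
  have hD0 : D ≠ 0 := by
    rw [← ν.ne_zero_iff, hDv]
    exact exp_ne_zero
  refine Or.inr (Or.inr (Or.inl ⟨δ, hδ0, ?_, ha⟩))
  have e : δ ^ 2 / D - 1 = -(D - δ ^ 2) / D := by
    field_simp
    ring
  have e16 : (16 : L) = 4 * 4 := by norm_num
  rw [e, map_div₀, Valuation.map_neg, hDv, e16, map_mul, nu_four4 h2, ← exp_add]
  rw [div_lt_iff₀ (zero_lt_iff.2 exp_ne_zero), ← exp_add]
  refine hD.trans_lt ?_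
  rw [exp_lt_exp]
  norm_num

theorem not_lam_one : ¬ lam ∣ (1 : 𝓞 K) := not_dvd_of_unit prime_lam isUnit_one

theorem Im.pt {D x e u t z : 𝓞 K} {α w : ZMod 2} (hu : ¬ lam ∣ u) (he : e ≠ 0)
    (h : x * (x ^ 2 - D) = e ^ 2 * (u ^ 2 + 4 * (lam * t))) (hx : Kc (x : K) α w z) :
    Im (D : K) α w (aa z) (bb z) := Im.of (pt_O' hu he h) hx

theorem Im.app {D : K} {α w A B : ZMod 2} (h : Im D α w A B) {y : 𝓞 K} (hy : In4 y)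
    (hA : aa y = A) (hB : bb y = B) : GLoc4 nuL D ((iO ^ α.val * lam ^ w.val * y : 𝓞 K) : K) :=
  h _ y (Kc.of hy) hA hB

theorem Im.cast {D : K} {α w A B α' w' A' B' : ZMod 2} (h : Im D α w A B) (h1 : α = α')
    (h2 : w = w') (h3 : A = A') (h4 : B = B') : Im D α' w' A' B' := by
  subst h1
  subst h2
  subst h3
  subst h4
  exact h

theorem Kc.lamz {z : 𝓞 K} (hz : In4 z) : Kc ((lam * z : 𝓞 K) : K) 0 1 z :=
  ⟨hz, 1, one_ne_zero, by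
    have h1 : ((1 : ZMod 2)).val = 1 := rfl
    rw [ZMod.val_zero, pow_zero, h1, pow_one, one_mul, one_pow, one_mul]⟩

theorem Kc.ilamz {z : 𝓞 K} (hz : In4 z) : Kc ((iO * lam * z : 𝓞 K) : K) 1 1 z :=
  ⟨hz, 1, one_ne_zero, by
    have h1 : ((1 : ZMod 2)).val = 1 := rfl
    rw [h1, pow_one, pow_one, one_pow, one_mul]⟩

theorem zmod2 (x : ZMod 2) : x = 0 ∨ x = 1 := by
  revert x
  decide

/-! ### `j = 3` -/

/-- **the converse at `lam`, `D = i ^ k lam ^ 3 c`** -/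
theorem lamCv_three {k : ZMod 4} {c y : 𝓞 K4} {α w : ZMod 2} (hc : In4 c) (hy : In4 y)
    (h : LamC k 3 c α w (aa y) (bb y))
    (hr : md k * aa y + (((3 : Fin 4).val : ℕ) : ZMod 2) * bb y + w * bb c + α * aa c = 0) :
    GLoc4 nuL ((iO ^ k.val * lam ^ (3 : Fin 4).val * c : 𝓞 K) : K)
      ((iO ^ α.val * lam ^ w.val * y : 𝓞 K) : K) := by
  obtain ⟨rfl, rfl⟩ := h.j3 rfl
  have e3 : (((3 : Fin 4).val : ℕ) : ZMod 2) = 1 := by decide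
  rw [e3, one_mul, zero_mul, zero_mul, add_zero, add_zero] at hr
  obtain ⟨t, ht⟩ := hc
  have hct : c = 1 + lam ^ 3 * t := by linear_combination ht
  have hI : Im ((iO ^ k.val * lam ^ (3 : Fin 4).val * c : 𝓞 K) : K) 0 0 1 (md k) := by
    have e1 : iO ^ k.val * lam ^ (3 : Fin 4).val * c = lam ^ 3 * (iO ^ k.val * c) := by
      show iO ^ k.val * lam ^ 3 * c = _
      ring
    have hz : In4 (1 - lam ^ 3 * (iO ^ k.val * c)) ∧ aa (1 - lam ^ 3 * (iO ^ k.val * c)) = 1 ∧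
        bb (1 - lam ^ 3 * (iO ^ k.val * c)) = md k := by
      have hl : lam = 1 + iO := rfl
      have hk : ∀ k : ZMod 4, k = 0 ∨ k = 1 ∨ k = 2 ∨ k = 3 := by decide
      rcases hk k with rfl | rfl | rfl | rfl
      · have h1 := ab_of (z := 1 - lam ^ 3 * (iO ^ (0 : ZMod 4).val * c))
          (r := -1 - (iO - 1) * t) 1 0 (by
          show 1 - lam ^ 3 * (iO ^ 0 * c) = _
          rw [hct, hl]
          push_cast
          linear_combination (-(1 + iO) ^ 3 * (iO + 3) * t) * iO_sq)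
        obtain ⟨g1, g2, g3⟩ := h1
        refine ⟨g1, g2.trans ?_, g3.trans ?_⟩ <;> decide
      · have h1 := ab_of (z := 1 - lam ^ 3 * (iO ^ (1 : ZMod 4).val * c))
          (r := -iO - iO * (iO - 1) * t) 0 1 (by
          show 1 - lam ^ 3 * (iO ^ 1 * c) = _
          rw [hct, hl]
          push_cast
          linear_combination (-(1 + iO) ^ 3 * iO * (iO + 3) * t) * iO_sq)
        obtain ⟨g1, g2, g3⟩ := h1
        refine ⟨g1, g2.trans ?_, g3.trans ?_⟩ <;> decide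
      · have h1 := ab_of (z := 1 - lam ^ 3 * (iO ^ (2 : ZMod 4).val * c))
          (r := (iO - 1) * t) 1 0 (by
          show 1 - lam ^ 3 * (iO ^ 2 * c) = _
          rw [hct, hl, iO_sq]
          push_cast
          linear_combination ((1 + iO) ^ 3 * (iO + 3) * t) * iO_sq)
        obtain ⟨g1, g2, g3⟩ := h1
        refine ⟨g1, g2.trans ?_, g3.trans ?_⟩ <;> decide
      · have h1 := ab_of (z := 1 - lam ^ 3 * (iO ^ (3 : ZMod 4).val * c))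
          (r := iO * (iO - 1) * t) 0 1 (by
          have e4 : iO ^ 3 = -iO := by linear_combination iO * iO_sq
          show 1 - lam ^ 3 * (iO ^ 3 * c) = _
          rw [hct, hl, e4]
          push_cast
          linear_combination ((1 + iO) ^ 3 * iO * (iO + 3) * t) * iO_sq)
        obtain ⟨g1, g2, g3⟩ := h1
        refine ⟨g1, g2.trans ?_, g3.trans ?_⟩ <;> decide
    obtain ⟨g1, g2, g3⟩ := hz
    have h2 := Im.pt not_lam_one one_ne_zero (pt_three (iO ^ k.val * c)) (Kc.unit g1)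
    rw [g2, g3] at h2
    rw [e1]
    exact h2
  rcases zmod2 (aa y) with h1 | h1
  · rw [h1, mul_zero, zero_add] at hr
    exact (Im.zero _).app hy h1 hr
  · rw [h1, mul_one] at hr
    refine hI.app hy h1 ?_
    have e2 : ∀ x y : ZMod 2, x + y = 0 → y = x := by decide
    exact e2 _ _ hr

/-! ### `j = 2`: the images -/

/-- `k = 1` -/
theorem im_two_one {c : 𝓞 K} (hc : In4 c) :
    Im ((iO ^ 1 * lam ^ 2 * c : 𝓞 K) : K) 0 0 0 1 := by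
  obtain ⟨t, ht⟩ := hc
  have hct : c = 1 + lam ^ 3 * t := by linear_combination ht
  have hl : lam = 1 + iO := rfl
  obtain ⟨g1, g2, g3⟩ := ab_of (z := (-3 : 𝓞 K)) (r := 0) 1 1 (by
    rw [hl]
    push_cast
    linear_combination (-(iO + 1) ^ 2 - 2 * (iO + 1) - 2) * iO_sq)
  have h2 := Im.pt not_lam_one isUnit_iO.ne_zero (pt_a t) (Kc.unit g1)
  rw [← hct] at h2
  refine h2.cast rfl rfl (g2.trans ?_) (g3.trans ?_) <;> decide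

/-- `k = 3` -/
theorem im_two_three (m n : ℤ) :
    Im ((iO ^ 3 * lam ^ 2 * (1 + lam ^ 3 * ((m : 𝓞 K) + (n : 𝓞 K) * iO)) : 𝓞 K) : K) 0 1
      (n : ZMod 2) (uB3 (m : ZMod 4) (n : ZMod 4)) := by
  have hl : lam = 1 + iO := rfl
  rw [uB3_int]
  rcases Int.even_or_odd (m + n) with ⟨a, ha⟩ | ⟨a, ha⟩
  · -- `m = a - b`, `n = a + b`
    obtain ⟨b, hb⟩ : ∃ b : ℤ, b = n - a := ⟨_, rfl⟩
    have hm : m = a - b := by omega
    have hn : n = a + b := by omega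
    obtain ⟨τ, hτ⟩ : ∃ τ : 𝓞 K, τ = (a : 𝓞 K) + (b : 𝓞 K) * iO := ⟨_, rfl⟩
    have hmu : (m : 𝓞 K) + (n : 𝓞 K) * iO = lam * τ := by
      rw [hm, hn, hτ, hl]
      push_cast
      linear_combination (-(b : 𝓞 K)) * iO_sq
    obtain ⟨g1, g2, g3⟩ := ab_of (z := (1 - 2 * lam * τ) * (1 + 4 * τ * (lam * τ - 1)))
      (r := 2 * iO * τ ^ 3 - 3 * iO * τ ^ 2 - 2 * τ ^ 3 + iO * τ) a b (by
      rw [← hτ, hl]
      linear_combination (-4 * iO ^ 2 * τ ^ 3 - 8 * iO * τ ^ 3 + 6 * iO ^ 2 * τ ^ 2 +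
        18 * iO * τ ^ 2 - 2 * iO ^ 2 * τ - 4 * τ ^ 3 - 7 * iO * τ + 12 * τ ^ 2 - 7 * τ) * iO_sq)
    obtain ⟨t, ht⟩ := pt_b0 τ
    have hu : ¬ lam ∣ 1 - 2 * (lam * τ) := by
      intro hd
      apply not_lam_one
      have h3 := dvd_add hd ((dvd_mul_right lam τ).mul_left 2)
      rwa [sub_add_cancel] at h3
    have h2ne : (2 * iO : 𝓞 K) ≠ 0 := mul_ne_zero two_ne_zero isUnit_iO.ne_zero
    have h2 := Im.pt (D := iO ^ 3 * lam ^ 2 * (1 + lam ^ 3 * ((m : 𝓞 K) + (n : 𝓞 K) * iO)))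
      (u := 1 - 2 * (lam * τ)) (t := t) hu h2ne (by rw [hmu, ht]; ring) (Kc.lamz g1)
    refine h2.cast rfl rfl (g2.trans ?_) (g3.trans ?_)
    · rw [hn]
      push_cast
      rfl
    · have e5 : (m - n) / 2 = -b := by omega
      rw [e5]
      push_cast
      have key : ∀ x : ZMod 2, x = -x := by decide
      exact key _
  · obtain ⟨b, hb⟩ : ∃ b : ℤ, b = n - a := ⟨_, rfl⟩
    have hm : m = 1 + (a - b) := by omega
    have hn : n = a + b := by omega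
    obtain ⟨τ, hτ⟩ : ∃ τ : 𝓞 K, τ = (a : 𝓞 K) + (b : 𝓞 K) * iO := ⟨_, rfl⟩
    have hmu : (m : 𝓞 K) + (n : 𝓞 K) * iO = 1 + lam * τ := by
      rw [hm, hn, hτ, hl]
      push_cast
      linear_combination (-(b : 𝓞 K)) * iO_sq
    obtain ⟨g1, g2, g3⟩ := ab_of (z := (1 + 2 * lam * τ) * (1 + 4 * τ * (lam * τ + 1)))
      (r := -2 * iO * τ ^ 3 - 3 * iO * τ ^ 2 + 2 * τ ^ 3 - iO * τ - τ) a b (by
      rw [← hτ, hl]
      linear_combination (4 * iO ^ 2 * τ ^ 3 + 8 * iO * τ ^ 3 + 6 * iO ^ 2 * τ ^ 2 +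
        18 * iO * τ ^ 2 + 2 * iO ^ 2 * τ + 4 * τ ^ 3 + 7 * iO * τ + 12 * τ ^ 2 + 7 * τ) * iO_sq)
    obtain ⟨t, ht⟩ := pt_b1 τ
    have hu : ¬ lam ∣ 1 + 2 * (lam * τ) := by
      intro hd
      apply not_lam_one
      have h3 := dvd_sub hd ((dvd_mul_right lam τ).mul_left 2)
      rwa [add_sub_cancel_right] at h3
    have h2 := Im.pt (D := iO ^ 3 * lam ^ 2 * (1 + lam ^ 3 * ((m : 𝓞 K) + (n : 𝓞 K) * iO)))
      (u := 1 + 2 * (lam * τ)) (t := t) hu (two_ne_zero : (2 : 𝓞 K) ≠ 0)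
      (by rw [hmu, ht]; ring) (Kc.lamz g1)
    refine h2.cast rfl rfl (g2.trans ?_) (g3.trans ?_)
    · rw [hn]
      push_cast
      rfl
    · have e5 : (m - n) / 2 = -b := by omega
      rw [e5]
      push_cast
      have key : ∀ x : ZMod 2, x = -x := by decide
      exact key _

/-- `k = 0`, the point with abscissa `- 1 + 2 i` -/
theorem im_two_zero {c : 𝓞 K} (hc : In4 c) : Im ((lam ^ 2 * c : 𝓞 K) : K) 0 0 1 0 := by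
  obtain ⟨t, ht⟩ := hc
  have hct : c = 1 + lam ^ 3 * t := by linear_combination ht
  have hl : lam = 1 + iO := rfl
  obtain ⟨g1, g2, g3⟩ := ab_of (z := (-1 + 2 * iO : 𝓞 K)) (r := 0) 1 0 (by
    rw [hl]
    push_cast
    linear_combination (-(iO + 3)) * iO_sq)
  have h2 := Im.pt not_lam_one isUnit_iO.ne_zero (pt_c0 t) (Kc.unit g1)
  rw [← hct] at h2
  refine h2.cast rfl rfl (g2.trans ?_) (g3.trans ?_) <;> decide

/-- `k = 2`, the point with abscissa `- 1 - 2 i` -/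
theorem im_two_two {c : 𝓞 K} (hc : In4 c) : Im ((iO ^ 2 * lam ^ 2 * c : 𝓞 K) : K) 0 0 1 1 := by
  obtain ⟨t, ht⟩ := hc
  have hct : c = 1 + lam ^ 3 * t := by linear_combination ht
  have hl : lam = 1 + iO := rfl
  obtain ⟨g1, g2, g3⟩ := ab_of (z := (-1 - 2 * iO : 𝓞 K)) (r := 0) 0 1 (by
    rw [hl]
    push_cast
    linear_combination (-(iO ^ 2 + 3 * iO + 2)) * iO_sq)
  have h2 := Im.pt not_lam_one isUnit_iO.ne_zero (pt_c2 t) (Kc.unit g1)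
  rw [← hct] at h2
  refine h2.cast rfl rfl (g2.trans ?_) (g3.trans ?_) <;> decide

/-- `lam` divides `q (q + 1)` -/
theorem lam_mul_succ (m n : ℤ) : ∃ β : 𝓞 K,
    ((m : 𝓞 K) + (n : 𝓞 K) * iO) * ((m : 𝓞 K) + (n : 𝓞 K) * iO + 1) = (1 + iO) * β := by
  obtain ⟨s, hs⟩ : ∃ s : ℤ, m * (m + 1) - n * (n - 1) = 2 * s := by
    obtain ⟨a, ha⟩ := Int.even_mul_succ_self m
    obtain ⟨b, hb⟩ := Int.even_mul_succ_self (n - 1)
    refine ⟨a - b, ?_⟩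
    have e : n * (n - 1) = (n - 1) * (n - 1 + 1) := by ring
    rw [ha, e, hb]
    ring
  have hs' : (m : 𝓞 K) * (m + 1) - n * (n - 1) = 2 * s := by
    exact_mod_cast congrArg (Int.cast (R := 𝓞 K)) hs
  refine ⟨(m * n + s : 𝓞 K) + (m * n + n - s : 𝓞 K) * iO, ?_⟩
  linear_combination (((n : 𝓞 K) ^ 2) - ((m : 𝓞 K) * n + n - s)) * iO_sq + hs'

/-- `k = 0`, `c = 1 + lam ^ 3 (2 m + 1 + 2 n i)` -/
theorem im_d0_odd (m n : ℤ) :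
    Im ((lam ^ 2 * (1 + lam ^ 3 * (((2 * m + 1 : ℤ) : 𝓞 K) + ((2 * n : ℤ) : 𝓞 K) * iO)) : 𝓞 K) : K)
      0 1 ((m : ZMod 2) + (n : ZMod 2)) (n : ZMod 2) := by
  obtain ⟨β, hβ⟩ := lam_mul_succ m n
  obtain ⟨q, hq⟩ : ∃ q : 𝓞 K, q = (m : 𝓞 K) + (n : 𝓞 K) * iO := ⟨_, rfl⟩
  rw [← hq] at hβ
  have e1 : ((2 * m + 1 : ℤ) : 𝓞 K) + ((2 * n : ℤ) : 𝓞 K) * iO = 2 * q + 1 := by
    rw [hq]
    push_cast
    ring
  obtain ⟨g1, g2, g3⟩ := ab_of (z := 1 + lam ^ 3 * (q - 2 * β)) (r := -β) m n (by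
    rw [hq]
    ring)
  obtain ⟨t, ht⟩ := pt_d0 hβ
  have hne : (iO * lam ^ 3 : 𝓞 K) ≠ 0 :=
    mul_ne_zero isUnit_iO.ne_zero (pow_ne_zero _ lam_ne_zero)
  have h2 := Im.pt not_lam_one hne ht (Kc.lamz g1)
  rw [e1]
  exact h2.cast rfl rfl g2 g3

/-- `k = 2`, `c = 1 + lam ^ 3 (2 m + (2 n + 1) i)` -/
theorem im_d2_odd (m n : ℤ) :
    Im ((iO ^ 2 * lam ^ 2 *
      (1 + lam ^ 3 * (((2 * m : ℤ) : 𝓞 K) + ((2 * n + 1 : ℤ) : 𝓞 K) * iO)) : 𝓞 K) : K)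
      1 1 ((m : ZMod 2) + (n : ZMod 2)) (n : ZMod 2) := by
  obtain ⟨β, hβ⟩ := lam_mul_succ (n - 1) (-m)
  obtain ⟨q, hq⟩ : ∃ q : 𝓞 K, q = (n : 𝓞 K) - (m : 𝓞 K) * iO := ⟨_, rfl⟩
  have hβ' : q * (q - 1) = (1 + iO) * β := by
    rw [← hβ, hq]
    push_cast
    ring
  have e1 : ((2 * m : ℤ) : 𝓞 K) + ((2 * n + 1 : ℤ) : 𝓞 K) * iO = iO * (2 * q + 1) := by
    rw [hq]
    push_cast
    linear_combination (2 * (m : 𝓞 K)) * iO_sq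
  obtain ⟨g1, g2, g3⟩ := ab_of (z := 1 + lam ^ 3 * (iO * q - 2 * β)) (r := -β) m n (by
    rw [hq]
    linear_combination (-(lam ^ 3 * (m : 𝓞 K))) * iO_sq)
  obtain ⟨t, ht⟩ := pt_d2 hβ'
  have hne : (iO * lam ^ 3 : 𝓞 K) ≠ 0 :=
    mul_ne_zero isUnit_iO.ne_zero (pow_ne_zero _ lam_ne_zero)
  have h2 := Im.pt not_lam_one hne ht (Kc.ilamz g1)
  rw [e1]
  exact h2.cast rfl rfl g2 g3

/-- the square root of `c = 1 + 2 lam ^ 3 (m + n i)` -/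
theorem root_d (m n : ℤ) : ∃ γ t : 𝓞 K, In4 γ ∧ aa γ = (m : ZMod 2) + (n : ZMod 2) ∧
    bb γ = (m : ZMod 2) ∧
    γ ^ 2 - (1 + lam ^ 3 * (((2 * m : ℤ) : 𝓞 K) + ((2 * n : ℤ) : 𝓞 K) * iO)) = lam ^ 11 * t := by
  obtain ⟨ν, hν⟩ : ∃ ν : 𝓞 K, ν = (m : 𝓞 K) + (n : 𝓞 K) * iO := ⟨_, rfl⟩
  obtain ⟨s, hs⟩ : ∃ s : ℤ, m ^ 2 + m - n ^ 2 - n = 2 * s := by
    obtain ⟨a, ha⟩ := Int.even_mul_succ_self m
    obtain ⟨b, hb⟩ := Int.even_mul_succ_self n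
    refine ⟨a - b, ?_⟩
    linear_combination ha - hb
  have hs' : (m : 𝓞 K) ^ 2 + m - n ^ 2 - n = 2 * s := by
    exact_mod_cast congrArg (Int.cast (R := 𝓞 K)) hs
  have hl : lam = 1 + iO := rfl
  have e1 : ν - iO * lam * (ν - iO * lam * ν ^ 2) ^ 2 = (n : 𝓞 K) + (m : 𝓞 K) * iO +
      2 * ((-iO * ν ^ 4 - 2 * iO * ν ^ 3 - ν ^ 4) +
        (iO * (m : 𝓞 K) * n - iO * s + (m : 𝓞 K) * n + s)) := by
    have e2 : ν - iO * lam * (ν - iO * lam * ν ^ 2) ^ 2 = ν - iO * lam * ν ^ 2 +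
        2 * (-iO * ν ^ 4 - 2 * iO * ν ^ 3 - ν ^ 4) := by
      rw [hl]
      linear_combination (-iO ^ 4 * ν ^ 4 - 3 * iO ^ 3 * ν ^ 4 - 2 * iO ^ 2 * ν ^ 4 +
        2 * iO * ν ^ 4 + 2 * iO ^ 2 * ν ^ 3 + 4 * iO * ν ^ 3 + 2 * ν ^ 4) * iO_sq
    have e3 : ν - iO * lam * ν ^ 2 = (n : 𝓞 K) + (m : 𝓞 K) * iO +
        2 * (iO * (m : 𝓞 K) * n - iO * s + (m : 𝓞 K) * n + s) := by
      rw [hν, hl]
      linear_combination (-iO ^ 2 * (n : 𝓞 K) ^ 2 - 2 * iO * (m : 𝓞 K) * n - iO * (n : 𝓞 K) ^ 2 -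
        2 * (m : 𝓞 K) * n - (m : 𝓞 K) ^ 2 + (n : 𝓞 K) ^ 2) * iO_sq + (1 - iO) * hs'
    rw [e2, e3]
    ring
  obtain ⟨g1, g2, g3⟩ := ab_of
    (z := 1 + lam ^ 3 * (ν - iO * lam * (ν - iO * lam * ν ^ 2) ^ 2))
    (r := (-iO * ν ^ 4 - 2 * iO * ν ^ 3 - ν ^ 4) +
        (iO * (m : 𝓞 K) * n - iO * s + (m : 𝓞 K) * n + s)) n m (by
    rw [e1]
    ring)
  obtain ⟨t, ht⟩ := tor_d ν
  refine ⟨_, t, g1, g2.trans (add_comm _ _), g3, ?_⟩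
  rw [← ht, hν]
  push_cast
  ring

/-- a point of order two and the sum with the point `x` -/
theorem Im.tor {D δ x γ z t : 𝓞 K} {α w : ZMod 2} (hδ : nuL (δ : K) = exp (-1))
    (hD : D - δ ^ 2 = lam ^ 13 * t) (hγ : Kc (δ : K) α w γ) (hx : Kc (x : K) 0 0 z)
    (hxv : nuL (x : K) = 1) (hX : Sq nuL ((x : K) * ((x : K) ^ 2 - (D : K)))) :
    Im (D : K) α w (aa γ) (bb γ) ∧ Im (D : K) α w (aa γ + aa z) (bb γ + bb z) := by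
  have hD' : nuL ((D : K) - (δ : K) ^ 2) ≤ exp (-12) := by
    have e : (D : K) - (δ : K) ^ 2 = ((D - δ ^ 2 : 𝓞 K) : K) := by
      push_cast
      rfl
    have e2 : ((lam ^ 13 * t : 𝓞 K) : K) = (lam : K) ^ 13 * (t : K) := by
      push_cast
      rfl
    rw [e, hD, e2, map_mul, nu_lpow nuL_lam]
    calc exp (-((13 : ℕ) : ℤ)) * nuL (t : K) ≤ exp (-((13 : ℕ) : ℤ)) * 1 := by
          gcongr
          exact nuL_O t
      _ ≤ exp (-12) := by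
        rw [mul_one, exp_le_exp]
        norm_num
  constructor
  · exact Im.of (fun a ha => gloc4_tor2 nuL_two hδ hD' ha) hγ
  · have h1 := hγ.mul hx
    rw [add_zero, add_zero] at h1
    have h2 := Im.of (D := (D : K))
      (fun a ha => gloc4_tor_add (x := (x : K)) iK_sq' nuL_two hδ hxv hD' hX ha) h1
    refine h2.cast rfl rfl (aa_mul hγ.in4 hx.in4) (bb_mul hγ.in4 hx.in4)

theorem nuL_lamz {z : 𝓞 K} (hz : In4 z) : nuL ((lam * z : 𝓞 K) : K) = exp (-1) := by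
  have h1 : nuL (z : K) = 1 := pv_one prime_lam hz.not_lam
  rw [coe_mul', map_mul, h1, mul_one]
  exact nuL_lam

/-- `k = 0`, `c = 1 + lam ^ 3 (2 m + 2 n i)` -/
theorem im_d0_even (m n : ℤ) :
    Im ((lam ^ 2 * (1 + lam ^ 3 * (((2 * m : ℤ) : 𝓞 K) + ((2 * n : ℤ) : 𝓞 K) * iO)) : 𝓞 K) : K)
      0 1 ((m : ZMod 2) + (n : ZMod 2)) (m : ZMod 2) ∧
    Im ((lam ^ 2 * (1 + lam ^ 3 * (((2 * m : ℤ) : 𝓞 K) + ((2 * n : ℤ) : 𝓞 K) * iO)) : 𝓞 K) : K)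
      0 1 ((m : ZMod 2) + (n : ZMod 2) + 1) (m : ZMod 2) := by
  have hl : lam = 1 + iO := rfl
  obtain ⟨γ, t, g1, g2, g3, ht⟩ := root_d m n
  obtain ⟨f1, f2, f3⟩ := ab_of (z := (-1 + 2 * iO : 𝓞 K)) (r := 0) 1 0 (by
    rw [hl]
    push_cast
    linear_combination (-(iO + 3)) * iO_sq)
  obtain ⟨-, hX⟩ := pt_O not_lam_one isUnit_iO.ne_zero
    (pt_c0 (((2 * m : ℤ) : 𝓞 K) + ((2 * n : ℤ) : 𝓞 K) * iO))
  obtain ⟨h1, h2⟩ := Im.tor (t := -t) (nuL_lamz g1) (by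
    linear_combination (-lam ^ 2) * ht) (Kc.lamz g1) (Kc.unit f1)
    (pv_one prime_lam f1.not_lam) hX
  refine ⟨h1.cast rfl rfl g2 g3, h2.cast rfl rfl ?_ ?_⟩
  · rw [g2, f2]
    push_cast
    rw [add_zero]
  · rw [g3, f3]
    push_cast
    rw [add_zero]

/-- `k = 2`, `c = 1 + lam ^ 3 (2 m + 2 n i)` -/
theorem im_d2_even (m n : ℤ) :
    Im ((iO ^ 2 * lam ^ 2 *
      (1 + lam ^ 3 * (((2 * m : ℤ) : 𝓞 K) + ((2 * n : ℤ) : 𝓞 K) * iO)) : 𝓞 K) : K)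
      1 1 ((m : ZMod 2) + (n : ZMod 2)) (m : ZMod 2) ∧
    Im ((iO ^ 2 * lam ^ 2 *
      (1 + lam ^ 3 * (((2 * m : ℤ) : 𝓞 K) + ((2 * n : ℤ) : 𝓞 K) * iO)) : 𝓞 K) : K)
      1 1 ((m : ZMod 2) + (n : ZMod 2) + 1) ((m : ZMod 2) + 1) := by
  have hl : lam = 1 + iO := rfl
  obtain ⟨γ, t, g1, g2, g3, ht⟩ := root_d m n
  obtain ⟨f1, f2, f3⟩ := ab_of (z := (-1 - 2 * iO : 𝓞 K)) (r := 0) 0 1 (by
    rw [hl]
    push_cast
    linear_combination (-(iO ^ 2 + 3 * iO + 2)) * iO_sq)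
  obtain ⟨-, hX⟩ := pt_O not_lam_one isUnit_iO.ne_zero
    (pt_c2 (((2 * m : ℤ) : 𝓞 K) + ((2 * n : ℤ) : 𝓞 K) * iO))
  have hv : nuL ((iO * lam * γ : 𝓞 K) : K) = exp (-1) := by
    have e : (iO * lam * γ : 𝓞 K) = iO * (lam * γ) := by ring
    rw [e, coe_mul', map_mul]
    exact (congrArg₂ (· * ·) nuL_i (nuL_lamz g1)).trans (one_mul _)
  obtain ⟨h1, h2⟩ := Im.tor (t := t) hv (by
    linear_combination (lam ^ 2) * ht + (lam ^ 2 *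
      (1 + lam ^ 3 * (((2 * m : ℤ) : 𝓞 K) + ((2 * n : ℤ) : 𝓞 K) * iO)) -
      lam ^ 2 * γ ^ 2) * iO_sq) (Kc.ilamz g1) (Kc.unit f1)
    (pv_one prime_lam f1.not_lam) hX
  refine ⟨h1.cast rfl rfl g2 g3, h2.cast rfl rfl ?_ ?_⟩
  · rw [g2, f2]
    push_cast
    rw [zero_add]
  · rw [g3, f3]
    push_cast
    rfl

/-! ### `j = 2` -/

/-- **the converse at `lam`, `D = i ^ k lam ^ 2 c`** -/
theorem lamCv_two {k : ZMod 4} {c y : 𝓞 K4} {α w : ZMod 2} (hc : In4 c) (hy : In4 y)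
    (h : LamC k 2 c α w (aa y) (bb y))
    (hr : md k * aa y + (((2 : Fin 4).val : ℕ) : ZMod 2) * bb y + w * bb c + α * aa c = 0) :
    GLoc4 nuL ((iO ^ k.val * lam ^ (2 : Fin 4).val * c : 𝓞 K) : K)
      ((iO ^ α.val * lam ^ w.val * y : 𝓞 K) : K) := by
  have e2 : (((2 : Fin 4).val : ℕ) : ZMod 2) = 0 := by decide
  have ea : ∀ x y : ZMod 2, x + y = 0 → x = y := by decide
  rw [e2, zero_mul, add_zero] at hr
  have hmul := fun {α w A B : ZMod 2} (h : Im ((iO ^ k.val * lam ^ (2 : Fin 4).val * c : 𝓞 K) : K)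
    α w A B) => Im.mulD hc h
  rw [e2] at hmul
  have hk : ∀ k : ZMod 4, k = 0 ∨ k = 1 ∨ k = 2 ∨ k = 3 := by decide
  have m0 : md 0 = 0 := by decide
  have m1 : md 1 = 1 := by decide
  have m2 : md 2 = 0 := by decide
  have m3 : md 3 = 1 := by decide
  rcases hk k with rfl | rfl | rfl | rfl
  · -- `k = 0`
    have eD : (iO ^ (0 : ZMod 4).val * lam ^ (2 : Fin 4).val * c : 𝓞 K) = lam ^ 2 * c := by
      show iO ^ 0 * lam ^ 2 * c = _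
      rw [pow_zero, one_mul]
    rw [eD] at hmul ⊢
    rw [m0] at hmul
    have i0 := Im.zero ((lam ^ 2 * c : 𝓞 K) : K)
    have i1 := im_two_zero hc
    have i2 := hmul i0
    have i3 := hmul i1
    rcases zmod2 (bb c) with hb | hb
    · obtain ⟨rfl, hL⟩ := h.d20 rfl rfl hb
      rcases zmod2 w with rfl | rfl
      · rw [zero_mul] at hL
        rcases zmod2 (aa y) with h1 | h1
        · exact i0.app hy h1 hL
        · exact i1.app hy h1 hL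
      · rw [one_mul] at hL
        obtain ⟨m, n, hmn⟩ := in4_form hc
        have hn : (n : ZMod 2) = 0 := by rwa [hmn, bb_form] at hb
        obtain ⟨n', hn'⟩ := (ZMod.intCast_zmod_eq_zero_iff_dvd _ 2).1 hn
        have hn2 : n = 2 * n' := by exact_mod_cast hn'
        subst hn2
        have hu : bb y = uB0 (m : ZMod 4) ((2 * n' : ℤ) : ZMod 4) := by
          rw [hL, hmn, mm_form, nn_formB]
        rcases Int.even_or_odd' m with ⟨m', rfl | rfl⟩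
        · rw [uB0_even] at hu
          obtain ⟨j1, j2⟩ := im_d0_even m' n'
          rw [← hmn] at j1 j2
          rcases zmod2 (aa y + ((m' : ZMod 2) + (n' : ZMod 2))) with h1 | h1
          · exact j1.app hy (ea _ _ h1) hu
          · refine j2.app hy ?_ hu
            have e3 : ∀ x y : ZMod 2, x + y = 1 → x = y + 1 := by decide
            exact e3 _ _ h1
        · rw [uB0_odd] at hu
          have j1 := im_d0_odd m' n'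
          rw [← hmn] at j1
          have j2 := hmul j1
          have hac : aa c = 1 := by
            rw [hmn, aa_form]
            have e4 : (2 : ZMod 2) = 0 := by decide
            push_cast
            rw [e4]
            ring
          rw [hac, hb] at j2
          rcases zmod2 (aa y + ((m' : ZMod 2) + (n' : ZMod 2))) with h1 | h1
          · exact j1.app hy (ea _ _ h1) hu
          · refine (j2.cast (add_zero _) (add_zero _) rfl (add_zero _)).app hy ?_ hu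
            have e3 : ∀ x y : ZMod 2, x + y = 1 → x = y + 1 := by decide
            exact e3 _ _ h1
    · obtain ⟨rfl, rfl⟩ := h.c20 rfl rfl hb
      rw [hb] at i2 i3
      rcases zmod2 (bb y) with hL | hL
      · rcases zmod2 (aa y) with h1 | h1
        · exact i0.app hy h1 hL
        · exact i1.app hy h1 hL
      · rcases zmod2 (aa y + aa c) with h1 | h1
        · exact (i2.cast (add_zero _) (add_zero _) (zero_add _) (zero_add _)).app hy (ea _ _ h1) hL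
        · refine (i3.cast (add_zero _) (add_zero _) rfl (zero_add _)).app hy ?_ hL
          have e3 : ∀ x y : ZMod 2, x + y = 1 → x = 1 + y := by decide
          exact e3 _ _ h1
  · -- `k = 1`
    obtain ⟨rfl, rfl⟩ := h.a2 rfl rfl
    rw [m1, one_mul, zero_mul, zero_mul, add_zero, add_zero] at hr
    rcases zmod2 (bb y) with hL | hL
    · exact (Im.zero _).app hy hr hL
    · exact (im_two_one hc).app hy hr hL
  · -- `k = 2`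
    rw [m2] at hmul
    have i0 := Im.zero ((iO ^ (2 : ZMod 4).val * lam ^ (2 : Fin 4).val * c : 𝓞 K) : K)
    have i1 : Im ((iO ^ (2 : ZMod 4).val * lam ^ (2 : Fin 4).val * c : 𝓞 K) : K) 0 0 1 1 :=
      im_two_two hc
    have i2 := hmul i0
    have i3 := hmul i1
    rcases zmod2 (aa c + bb c) with hb | hb
    · obtain ⟨rfl, hL⟩ := h.d22 rfl rfl hb
      rcases zmod2 α with rfl | rfl
      · rw [zero_mul] at hL
        have h2 := ea _ _ hL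
        rcases zmod2 (aa y) with h1 | h1
        · exact i0.app hy h1 (h2.symm.trans h1)
        · exact i1.app hy h1 (h2.symm.trans h1)
      · rw [one_mul] at hL
        obtain ⟨m, n, hmn⟩ := in4_form hc
        have hm : (m : ZMod 2) = 0 := by
          rw [hmn, aa_form, bb_form] at hb
          have e5 : ∀ x y : ZMod 2, x + y + y = 0 → x = 0 := by decide
          exact e5 _ _ hb
        obtain ⟨m', hm'⟩ := (ZMod.intCast_zmod_eq_zero_iff_dvd _ 2).1 hm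
        have hm2 : m = 2 * m' := by exact_mod_cast hm'
        subst hm2
        have hu : aa y + bb y = uB2 ((2 * m' : ℤ) : ZMod 4) (n : ZMod 4) := by
          rw [hL, hmn, mm_form, nn_formB]
        rcases Int.even_or_odd' n with ⟨n', rfl | rfl⟩
        · rw [uB2_even] at hu
          obtain ⟨j1, j2⟩ := im_d2_even m' n'
          rw [← hmn] at j1 j2
          rcases zmod2 (aa y + ((m' : ZMod 2) + (n' : ZMod 2))) with h1 | h1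
          · refine Im.app j1 hy (ea _ _ h1) ?_
            have e3 : ∀ x y m n : ZMod 2, x + y = n → x + (m + n) = 0 → y = m := by decide
            exact e3 _ _ _ _ hu h1
          · refine Im.app j2 hy ?_ ?_
            · have e3 : ∀ x y : ZMod 2, x + y = 1 → x = y + 1 := by decide
              exact e3 _ _ h1
            · have e3 : ∀ x y m n : ZMod 2, x + y = n → x + (m + n) = 1 → y = m + 1 := by decide
              exact e3 _ _ _ _ hu h1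
        · rw [uB2_odd] at hu
          have j1 := im_d2_odd m' n'
          rw [← hmn] at j1
          have j2 := hmul j1
          have hbc : bb c = 1 := by
            rw [hmn, bb_form]
            have e4 : (2 : ZMod 2) = 0 := by decide
            push_cast
            rw [e4]
            ring
          have hac : aa c = 1 := (ea _ _ hb).trans hbc
          rw [hac, hbc] at j2
          rcases zmod2 (aa y + ((m' : ZMod 2) + (n' : ZMod 2))) with h1 | h1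
          · refine Im.app j1 hy (ea _ _ h1) ?_
            have e3 : ∀ x y m n : ZMod 2, x + y = m → x + (m + n) = 0 → y = n := by decide
            exact e3 _ _ _ _ hu h1
          · refine Im.app (j2.cast (add_zero _) (add_zero _) rfl rfl) hy ?_ ?_
            · have e3 : ∀ x y : ZMod 2, x + y = 1 → x = y + 1 := by decide
              exact e3 _ _ h1
            · have e3 : ∀ x y m n : ZMod 2, x + y = m → x + (m + n) = 1 → y = n + 1 := by decide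
              exact e3 _ _ _ _ hu h1
    · obtain ⟨rfl, rfl⟩ := h.c22 rfl rfl hb
      rcases zmod2 (aa y + bb y) with hL | hL
      · have h2 := ea _ _ hL
        rcases zmod2 (aa y) with h1 | h1
        · exact i0.app hy h1 (h2.symm.trans h1)
        · exact i1.app hy h1 (h2.symm.trans h1)
      · rcases zmod2 (aa y + aa c) with h1 | h1
        · refine (i2.cast (add_zero _) (add_zero _) (zero_add _) (zero_add _)).app hy (ea _ _ h1) ?_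
          have e3 : ∀ x y u v : ZMod 2, x + y = 1 → u + v = 1 → x + u = 0 → y = v := by decide
          exact e3 _ _ _ _ hL hb h1
        · refine (i3.cast (add_zero _) (add_zero _) rfl rfl).app hy ?_ ?_
          · have e3 : ∀ x y : ZMod 2, x + y = 1 → x = 1 + y := by decide
            exact e3 _ _ h1
          · have e3 : ∀ x y u v : ZMod 2, x + y = 1 → u + v = 1 → x + u = 1 → y = 1 + v := by decide
            exact e3 _ _ _ _ hL hb h1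
  · -- `k = 3`
    obtain ⟨rfl, hL⟩ := h.b2 rfl rfl
    rw [m3, one_mul, zero_mul, add_zero] at hr
    rcases zmod2 w with rfl | rfl
    · rw [zero_mul] at hL
      rw [zero_mul, add_zero] at hr
      exact (Im.zero _).app hy hr hL
    · rw [one_mul] at hL hr
      obtain ⟨m, n, hmn⟩ := in4_form hc
      have j1 := im_two_three m n
      rw [← hmn] at j1
      refine Im.app j1 hy ((ea _ _ hr).trans ?_) ?_
      · rw [hmn, bb_form]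
      · rw [hL, hmn, mm_form, nn_formB]

end

end Pool.Agent.Lib.MP_1a91b9_ntQ.C
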