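import Pool.Agent.Lib.MP_1a91b9_ntQ.B.ConvB
import Pool.Agent.Lib.MP_1a91b9_ntQ.B.LamCv23

/-!
# MP_1a91b9_nt (quartic twists), part B, converse of the descent: all the fourth-power-free `D`

`gdB_of_sha`: if `D = dB k j S T B` is not a square, `W(K)` is finite and the 2-primary part of the
Tate-Shafarevich group of `W : y² = x³ - D x` is trivial, then `GdB k j S T B`.
-/

set_option autoImplicit false

namespace Pool.Agent.Lib.MP_1a91b9_ntQ.C

open NumberField Finset Pool.Agent.Lib.MP_1a91b9_nuT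
open Pool.Agent.Lib.MP_1a91b9_ntQ
open Pool.Agent.Lib.MP_1a91b9_ntT3.S9 (ShaP)

noncomputable section

theorem lamConv_two : LamConv 2 := by
  intro k c y α w hc hy h hr
  exact lamCv_two hc hy h hr

theorem lamConv_three : LamConv 3 := by
  intro k c y α w hc hy h hr
  exact lamCv_three hc hy h hr

/-- **The converse of the descent by `1 - i`, all fourth-power-free `D` which are not squares.** -/
theorem gdB_of_sha {k : ZMod 4} {j : Fin 4} {S T B : Finset Pg} (hd : Dj S T B)
    (hns : ¬ (md k = 0 ∧ (j.val : ZMod 2) = 0 ∧ S ∪ T = ∅))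
    {W : WeierstrassCurve K4} (hW : W = cq (dB k j S T B : K4)) (hfin : Finite W.toAffine.Point)
    (hcard : Nat.card (ShaP 2 W) = 1) : GdB k j S T B :=
  gdB_of_sha' lamConv_two lamConv_three hd hns hW hfin hcard

/-- **The converse, the other way round.** -/
theorem conv_gdB {k : ZMod 4} {j : Fin 4} {S T B : Finset Pg} (hd : Dj S T B)
    (hns : ¬ (md k = 0 ∧ (j.val : ZMod 2) = 0 ∧ S ∪ T = ∅)) (h : ¬ GdB k j S T B)
    {W : WeierstrassCurve K4} (hW : W = cq (dB k j S T B : K4))
    (hfin : Finite W.toAffine.Point) : Nat.card (ShaP 2 W) ≠ 1 :=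
  fun hcard => h (gdB_of_sha hd hns hW hfin hcard)

end

end Pool.Agent.Lib.MP_1a91b9_ntQ.C
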