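import Pool.Agent.Lib.MP_1a91b9_ntQ.R.Density4

/-!
# MP_1a91b9_nt (quartic twists, all exponents), part R: the fourth-power-free elements

Every fourth-power-free element of `ℤ[i]` is `i^k lam^j DDq S * DDq T ^ 3 * DDq B ^ 2`, `j = 0, .., 3`,
with pairwise disjoint `S`, `T`, `B`, in exactly one way.
-/

set_option autoImplicit false

namespace Pool.Agent.Lib.MP_1a91b9_ntQ

open NumberField Finset
open Pool.Agent.Lib.MP_1a91b9_ntH (PS nm Sx mem_Sx one_le_nm)

noncomputable section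

/-- Fourth-power-free elements. -/
def FFd (x : 𝓞 K4) : Prop := ∀ y : 𝓞 K4, y ^ 4 ∣ x → IsUnit y

theorem FFd.ne_zero {x : 𝓞 K4} (h : FFd x) : x ≠ 0 := by
  rintro rfl
  exact not_isUnit_zero (h 0 (by simp))

theorem FFd.of_dvd {x y : 𝓞 K4} (h : FFd x) (hy : y ∣ x) : FFd y := fun z hz => h z (hz.trans hy)

theorem FFd_iff (x : 𝓞 K4) : FFd x ↔ ∀ p : 𝓞 K4, Prime p → ¬ p ^ 4 ∣ x := by
  constructor
  · intro h p hp hd
    exact hp.not_isUnit (h p hd)
  · intro h y hy
    by_contra hu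
    have hy0 : y ≠ 0 := by
      rintro rfl
      have h0 : x = 0 := by
        rw [zero_pow (by norm_num)] at hy
        exact zero_dvd_iff.1 hy
      exact h lam prime_lam (h0 ▸ dvd_zero _)
    obtain ⟨p, hp, hpy⟩ := WfDvdMonoid.exists_irreducible_factor hu hy0
    exact h p hp.prime ((pow_dvd_pow_of_dvd hpy 4).trans hy)

/-- The primary element of three sets of primes (exponents `1`, `3`, `2`). -/
def pB (S T B : Finset Pg) : 𝓞 K4 := DDq S * DDq T ^ 3 * DDq B ^ 2

namespace DenB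

theorem pB_empty : pB ∅ ∅ ∅ = 1 := by
  unfold pB
  rw [DDq_empty]
  ring

theorem pB_S (S : Finset Pg) : pB S ∅ ∅ = DDq S := by
  unfold pB
  rw [DDq_empty]
  ring

theorem in4_pow {x : 𝓞 K4} (hx : In4 x) (n : ℕ) : In4 (x ^ n) := by
  induction n with
  | zero =>
    rw [pow_zero]
    exact in4_one
  | succ n ih =>
    rw [pow_succ]
    exact ih.mul hx

theorem pB_in4 (S T B : Finset Pg) : In4 (pB S T B) :=
  ((DDq_in4 S).mul (in4_pow (DDq_in4 T) 3)).mul (in4_pow (DDq_in4 B) 2)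

theorem Nz_pB (S T B : Finset Pg) : Nz (pB S T B) = nm S * nm T ^ 3 * nm B ^ 2 := by
  unfold pB
  rw [Nz_mul, Nz_mul, Den4.Nz_pow, Den4.Nz_pow, Nz_DDq, Nz_DDq, Nz_DDq]

theorem dvd_pB {q : Pg} {S T B : Finset Pg} : q.1 ∣ pB S T B ↔ q ∈ S ∨ q ∈ T ∨ q ∈ B := by
  unfold pB
  rw [q.prime.dvd_mul, q.prime.dvd_mul, q.prime.dvd_pow_iff_dvd (by norm_num),
    q.prime.dvd_pow_iff_dvd (by norm_num), dvd_DDq, dvd_DDq, dvd_DDq, or_assoc]

theorem DDq_erase {q : Pg} {S : Finset Pg} (h : q ∈ S) : DDq S = q.1 * DDq (S.erase q) := by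
  conv_lhs => rw [← insert_erase h]
  exact DDq_insert (notMem_erase q S)

/-- The exponent of a prime. -/
def ex (S T B : Finset Pg) (q : Pg) : ℕ :=
  if q ∈ T then 3 else if q ∈ B then 2 else if q ∈ S then 1 else 0

theorem ex_T {S T B : Finset Pg} {q : Pg} (h : q ∈ T) : ex S T B q = 3 := by
  rw [ex, if_pos h]

theorem ex_B {S T B : Finset Pg} {q : Pg} (h1 : q ∉ T) (h : q ∈ B) : ex S T B q = 2 := by
  rw [ex, if_neg h1, if_pos h]

theorem ex_S {S T B : Finset Pg} {q : Pg} (h1 : q ∉ T) (h2 : q ∉ B) (h : q ∈ S) :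
    ex S T B q = 1 := by
  rw [ex, if_neg h1, if_neg h2, if_pos h]

theorem ex_0 {S T B : Finset Pg} {q : Pg} (h1 : q ∉ T) (h2 : q ∉ B) (h : q ∉ S) :
    ex S T B q = 0 := by
  rw [ex, if_neg h1, if_neg h2, if_neg h]

theorem ex_le (S T B : Finset Pg) (q : Pg) : ex S T B q ≤ 3 := by
  unfold ex
  split_ifs <;> omega

/-- The prime `q` occurs exactly with the exponent `ex`. -/
theorem pB_eq {S T B : Finset Pg} (h1 : Disjoint S T) (h2 : Disjoint S B) (h3 : Disjoint T B)
    (q : Pg) : ∃ y : 𝓞 K4, ¬ q.1 ∣ y ∧ pB S T B = q.1 ^ ex S T B q * y := by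
  by_cases hT : q ∈ T
  · have hS : q ∉ S := fun h => disjoint_left.1 h1 h hT
    have hB : q ∉ B := disjoint_left.1 h3 hT
    refine ⟨pB S (T.erase q) B, ?_, ?_⟩
    · rw [dvd_pB]
      rintro (h | h | h)
      · exact hS h
      · exact notMem_erase q T h
      · exact hB h
    · rw [ex_T hT]
      unfold pB
      rw [DDq_erase hT]
      ring
  · by_cases hB : q ∈ B
    · have hS : q ∉ S := fun h => disjoint_left.1 h2 h hB
      refine ⟨pB S T (B.erase q), ?_, ?_⟩
      · rw [dvd_pB]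
        rintro (h | h | h)
        · exact hS h
        · exact hT h
        · exact notMem_erase q B h
      · rw [ex_B hT hB]
        unfold pB
        rw [DDq_erase hB]
        ring
    · by_cases hS : q ∈ S
      · refine ⟨pB (S.erase q) T B, ?_, ?_⟩
        · rw [dvd_pB]
          rintro (h | h | h)
          · exact notMem_erase q S h
          · exact hT h
          · exact hB h
        · rw [ex_S hT hB hS]
          unfold pB
          rw [DDq_erase hS]
          ring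
      · refine ⟨pB S T B, ?_, ?_⟩
        · rw [dvd_pB]
          rintro (h | h | h)
          · exact hS h
          · exact hT h
          · exact hB h
        · rw [ex_0 hT hB hS, pow_zero, one_mul]

theorem pow_dvd_pB {S T B : Finset Pg} (h1 : Disjoint S T) (h2 : Disjoint S B)
    (h3 : Disjoint T B) (q : Pg) (n : ℕ) : q.1 ^ n ∣ pB S T B ↔ n ≤ ex S T B q := by
  obtain ⟨y, hy, e⟩ := pB_eq h1 h2 h3 q
  constructor
  · intro h
    by_contra hlt
    push Not at hlt
    obtain ⟨t, rfl⟩ := Nat.exists_eq_add_of_lt hlt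
    rw [e, show ex S T B q + t + 1 = ex S T B q + (t + 1) by ring, pow_add] at h
    have h4 := (mul_dvd_mul_iff_left (pow_ne_zero _ q.ne_zero)).1 h
    exact hy ((dvd_pow_self q.1 (Nat.succ_ne_zero t)).trans h4)
  · intro h
    rw [e]
    exact (pow_dvd_pow _ h).mul_right y

/-- The sets are determined by the element. -/
theorem pB_inj {S T B S' T' B' : Finset Pg} (h1 : Disjoint S T) (h2 : Disjoint S B)
    (h3 : Disjoint T B) (h1' : Disjoint S' T') (h2' : Disjoint S' B') (h3' : Disjoint T' B')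
    (h : pB S T B = pB S' T' B') : S = S' ∧ T = T' ∧ B = B' := by
  have hex : ∀ q, ex S T B q = ex S' T' B' q := by
    intro q
    apply le_antisymm
    · rw [← pow_dvd_pB h1' h2' h3', ← h, pow_dvd_pB h1 h2 h3]
    · rw [← pow_dvd_pB h1 h2 h3, h, pow_dvd_pB h1' h2' h3']
  have hT : ∀ {S T B : Finset Pg}, Disjoint S T → Disjoint S B → Disjoint T B → ∀ q,
      (q ∈ S ↔ ex S T B q = 1) ∧ (q ∈ T ↔ ex S T B q = 3) ∧ (q ∈ B ↔ ex S T B q = 2) := by
    intro S T B h1 h2 h3 q
    by_cases hT : q ∈ T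
    · have hS : q ∉ S := fun h => disjoint_left.1 h1 h hT
      have hB : q ∉ B := disjoint_left.1 h3 hT
      simp [ex_T, hT, hS, hB]
    · by_cases hB : q ∈ B
      · have hS : q ∉ S := fun h => disjoint_left.1 h2 h hB
        simp [ex_B, hT, hS, hB]
      · by_cases hS : q ∈ S
        · simp [ex_S, hT, hS, hB]
        · simp [ex_0, hT, hS, hB]
  refine ⟨?_, ?_, ?_⟩
  · ext q
    rw [(hT h1 h2 h3 q).1, (hT h1' h2' h3' q).1, hex]
  · ext q
    rw [(hT h1 h2 h3 q).2.1, (hT h1' h2' h3' q).2.1, hex]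
  · ext q
    rw [(hT h1 h2 h3 q).2.2, (hT h1' h2' h3' q).2.2, hex]

/-- Every primary fourth-power-free element is some `pB S T B`. -/
theorem exists_pB : ∀ (n : ℕ) {x : 𝓞 K4}, Nz x ≤ n → In4 x → FFd x →
    ∃ S T B : Finset Pg, Disjoint S T ∧ Disjoint S B ∧ Disjoint T B ∧ x = pB S T B := by
  intro n
  induction n with
  | zero =>
    intro x hx _ hf
    exact absurd (Nz_eq_zero.1 (Nat.le_zero.1 hx)) hf.ne_zero
  | succ n ih =>
    intro x hx hin hf
    by_cases hx1 : x = 1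
    · exact ⟨∅, ∅, ∅, disjoint_empty_left _, disjoint_empty_left _, disjoint_empty_left _,
        by rw [hx1, pB_empty]⟩
    obtain ⟨q, y, hy⟩ := exists_prime_dvd4 hin hx1
    have hin' : In4 y := In4.of_mul q.in4 (hy ▸ hin)
    have hf' : FFd y := hf.of_dvd ⟨q.1, by rw [hy]; ring⟩
    have hN : Nz y ≤ n := by
      have h2 : Nz x = Nz q.1 * Nz y := by rw [hy, Nz_mul]
      have h3 : 2 ≤ Nz q.1 := Nz_two_le q.prime
      have h4 : Nz y ≠ 0 := fun h => hf'.ne_zero (Nz_eq_zero.1 h)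
      have h5 : 2 * Nz y ≤ Nz x := by
        rw [h2]
        exact Nat.mul_le_mul_right _ h3
      omega
    obtain ⟨S, T, B, h1, h2, h3, rfl⟩ := ih hN hin' hf'
    by_cases hT : q ∈ T
    · exfalso
      refine q.prime.not_isUnit (hf q.1 ?_)
      have h4 := (pow_dvd_pB h1 h2 h3 q 3).2 (ex_T hT).ge
      rw [hy, show q.1 ^ 4 = q.1 * q.1 ^ 3 by ring]
      exact mul_dvd_mul_left _ h4
    · by_cases hB : q ∈ B
      · refine ⟨S, insert q T, B.erase q, ?_, ?_, ?_, ?_⟩
        · rw [disjoint_insert_right]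
          exact ⟨fun h => disjoint_left.1 h2 h hB, h1⟩
        · exact h2.mono_right (erase_subset _ _)
        · rw [disjoint_insert_left]
          exact ⟨notMem_erase q B, h3.mono_right (erase_subset _ _)⟩
        · rw [hy]
          unfold pB
          rw [DDq_insert hT, DDq_erase hB]
          ring
      · by_cases hS : q ∈ S
        · refine ⟨S.erase q, T, insert q B, ?_, ?_, ?_, ?_⟩
          · exact h1.mono_left (erase_subset _ _)
          · rw [disjoint_insert_right]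
            exact ⟨notMem_erase q S, h2.mono_left (erase_subset _ _)⟩
          · rw [disjoint_insert_right]
            exact ⟨hT, h3⟩
          · rw [hy]
            unfold pB
            rw [DDq_insert hB, DDq_erase hS]
            ring
        · refine ⟨insert q S, T, B, ?_, ?_, h3, ?_⟩
          · rw [disjoint_insert_left]
            exact ⟨hT, h1⟩
          · rw [disjoint_insert_left]
            exact ⟨hB, h2⟩
          · rw [hy]
            unfold pB
            rw [DDq_insert hS]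
            ring

/-! ### The unit and the power of `lam` -/

/-- The elements of a family. -/
def ph (k : ZMod 4) (j : Fin 4) (y : 𝓞 K4) : 𝓞 K4 := iO ^ k.val * lam ^ j.val * y

theorem Nz_ph (k : ZMod 4) (j : Fin 4) (y : 𝓞 K4) : Nz (ph k j y) = 2 ^ j.val * Nz y := by
  unfold ph
  rw [Nz_mul, Nz_mul, Den4.Nz_pow, Den4.Nz_pow, Nz_iO, Nz_lam, one_pow, one_mul]

theorem not_lam_dvd (k : ZMod 4) {y : 𝓞 K4} (hy : In4 y) : ¬ lam ∣ iO ^ k.val * y := by
  intro h1
  rcases prime_lam.dvd_or_dvd h1 with h2 | h2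
  · exact prime_lam.not_isUnit (isUnit_of_dvd_unit h2 (isUnit_iO.pow _))
  · exact hy.not_lam h2

theorem lam_pow_le {a b : ℕ} {x y : 𝓞 K4} (hy : ¬ lam ∣ y) (h : lam ^ a * x = lam ^ b * y) :
    a ≤ b := by
  by_contra h1
  push Not at h1
  obtain ⟨m, rfl⟩ := Nat.exists_eq_add_of_lt h1
  apply hy
  have h2 : lam ^ b * (lam ^ (m + 1) * x) = lam ^ b * y := by
    rw [← h]
    ring
  have h3 := mul_left_cancel₀ (pow_ne_zero b prime_lam.ne_zero) h2
  exact ⟨lam ^ m * x, by rw [← h3]; ring⟩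

theorem ph_inj {k k' : ZMod 4} {j j' : Fin 4} {y y' : 𝓞 K4} (hy : In4 y) (hy' : In4 y')
    (h : ph k j y = ph k' j' y') : k = k' ∧ j = j' ∧ y = y' := by
  have e : lam ^ j.val * (iO ^ k.val * y) = lam ^ j'.val * (iO ^ k'.val * y') := by
    unfold ph at h
    linear_combination h
  have hj : j = j' := by
    apply Fin.ext
    exact le_antisymm (lam_pow_le (not_lam_dvd k' hy') e) (lam_pow_le (not_lam_dvd k hy) e.symm)
  subst hj
  have h1 := mul_left_cancel₀ (pow_ne_zero _ lam_ne_zero) e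
  obtain ⟨h2, h3⟩ := in4_unique hy hy' h1
  exact ⟨h2, rfl, h3⟩

/-- Every element not divisible by `lam⁴` is `i^k lam^j y`, `j ≤ 3`, `y` primary. -/
theorem exists_ph {u : 𝓞 K4} (hu : ¬ lam ^ 4 ∣ u) : ∃ (k : ZMod 4) (j : Fin 4) (y : 𝓞 K4),
    In4 y ∧ u = ph k j y := by
  obtain ⟨j, v, hv, hj⟩ : ∃ (j : Fin 4) (v : 𝓞 K4), ¬ lam ∣ v ∧ u = lam ^ j.val * v := by
    have key : ∀ n : ℕ, n ≤ 4 → (∃ (j : Fin 4) (v : 𝓞 K4), ¬ lam ∣ v ∧ u = lam ^ j.val * v) ∨
        lam ^ n ∣ u := by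
      intro n
      induction n with
      | zero => intro _; exact Or.inr (by rw [pow_zero]; exact one_dvd _)
      | succ n ih =>
        intro hn
        rcases ih (by omega) with h | ⟨v, hv⟩
        · exact Or.inl h
        · by_cases h1 : lam ∣ v
          · right
            obtain ⟨w, rfl⟩ := h1
            exact ⟨w, by rw [hv]; ring⟩
          · left
            exact ⟨⟨n, by omega⟩, v, h1, hv⟩
    rcases key 4 le_rfl with h | h
    · exact h
    · exact absurd h hu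
  obtain ⟨k, hk⟩ := exists_pow_in4 hv
  refine ⟨-k, j, _, hk, ?_⟩
  unfold ph
  have e : iO ^ (-k).val * iO ^ k.val = 1 := by
    rw [pow_val_mul, neg_add_cancel, ZMod.val_zero, pow_zero]
  rw [hj]
  linear_combination (-(lam ^ j.val * v)) * e

theorem ph_not_lam4 (k : ZMod 4) (j : Fin 4) {y : 𝓞 K4} (hy : In4 y) : ¬ lam ^ 4 ∣ ph k j y := by
  rintro ⟨z, hz⟩
  have e : lam ^ 4 * z = lam ^ j.val * (iO ^ k.val * y) := by
    unfold ph at hz
    linear_combination -hz
  have h1 := lam_pow_le (not_lam_dvd k hy) e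
  have h2 := j.isLt
  omega

theorem ph_dvd_iff (k : ZMod 4) (j : Fin 4) (q : Pg) (n : ℕ) (y : 𝓞 K4) :
    q.1 ^ n ∣ ph k j y ↔ q.1 ^ n ∣ y := by
  have hu : IsUnit (iO ^ k.val) := isUnit_iO.pow _
  have h1 : IsCoprime (q.1 ^ n) (lam ^ j.val) := by
    refine IsCoprime.pow ?_
    refine (q.prime.irreducible.coprime_iff_not_dvd).2 fun h => ?_
    exact q.in4.not_lam (q.prime.associated_of_dvd prime_lam h).symm.dvd
  unfold ph
  rw [mul_assoc, hu.dvd_mul_left]
  constructor
  · intro h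
    exact h1.dvd_of_dvd_mul_left h
  · intro h
    exact h.mul_left _

/-- The families consist of fourth-power-free elements. -/
theorem ph_ff (k : ZMod 4) (j : Fin 4) {S T B : Finset Pg} (h1 : Disjoint S T)
    (h2 : Disjoint S B) (h3 : Disjoint T B) : FFd (ph k j (pB S T B)) := by
  rw [FFd_iff]
  intro p hp hd
  by_cases hl : lam ∣ p
  · exact ph_not_lam4 k j (pB_in4 S T B) ((pow_dvd_pow_of_dvd hl 4).trans hd)
  · obtain ⟨l, q, hq⟩ := exists_Pg hp hl
    have hu : IsUnit (iO ^ l.val) := isUnit_iO.pow _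
    have h4 : q.1 ∣ p := by
      rw [hq]
      exact (hu.mul_left_dvd).2 dvd_rfl
    have h5 : q.1 ^ 4 ∣ ph k j (pB S T B) := (pow_dvd_pow_of_dvd h4 4).trans hd
    rw [ph_dvd_iff, pow_dvd_pB h1 h2 h3] at h5
    have := ex_le S T B q
    omega

/-- **Every fourth-power-free element of `ℤ[i]` is in one of the families.** -/
theorem exists_ff {x : 𝓞 K4} (hx : FFd x) : ∃ (k : ZMod 4) (j : Fin 4) (S T B : Finset Pg),
    Disjoint S T ∧ Disjoint S B ∧ Disjoint T B ∧ x = ph k j (pB S T B) := by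
  obtain ⟨k, j, y, hy, rfl⟩ := exists_ph ((FFd_iff x).1 hx lam prime_lam)
  have hf : FFd y := hx.of_dvd (dvd_mul_left _ _)
  obtain ⟨S, T, B, h1, h2, h3, rfl⟩ := exists_pB _ le_rfl hy hf
  exact ⟨k, j, S, T, B, h1, h2, h3, rfl⟩

theorem ff_inj {k k' : ZMod 4} {j j' : Fin 4} {S T B S' T' B' : Finset Pg} (h1 : Disjoint S T)
    (h2 : Disjoint S B) (h3 : Disjoint T B) (h1' : Disjoint S' T') (h2' : Disjoint S' B')
    (h3' : Disjoint T' B') (h : ph k j (pB S T B) = ph k' j' (pB S' T' B')) :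
    k = k' ∧ j = j' ∧ S = S' ∧ T = T' ∧ B = B' := by
  obtain ⟨h4, h5, h6⟩ := ph_inj (pB_in4 _ _ _) (pB_in4 _ _ _) h
  exact ⟨h4, h5, pB_inj h1 h2 h3 h1' h2' h3' h6⟩

end DenB

end

end Pool.Agent.Lib.MP_1a91b9_ntQ
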