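import Pool.Agent.Lib.MP_1a91b9_ntQ.B.RowC9

/-!
# MP_1a91b9_nt (quartic twists), part B, converse of the descent: from the rows to the local conditions

`D = dB k j S T B`, `a = i ^ al lam ^ w ∏ q ^ f q` over `S ∪ T ∪ V`: the rows and the condition at `lam`
give all the local conditions (`glocB_all`). `gpB_not_sq`: `a` and `a D` are not squares.
-/

set_option autoImplicit false
set_option linter.unusedSectionVars false
set_option linter.unusedVariables false

namespace Pool.Agent.Lib.MP_1a91b9_ntQ.C.C9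

open NumberField Finset WithZero IsDedekindDomain Pool.Agent.Lib.MP_1a91b9_nuT
open Pool.Agent.Lib.MP_1a91b9_ntQ
open Pool.Agent.Lib.MP_1a91b9_ntH.C (Sq exists_nu isSquare_exp nu_one)

noncomputable section

theorem disj_UV {k : ZMod 4} {j : Fin 4} {S T B : Finset Pg} (hd : Dj S T B) :
    Disjoint (S ∪ T) (VB k j S T B) := by
  rw [disjoint_left]
  intro q h1 h2
  rcases mem_union.1 h1 with h3 | h3
  · exact disjoint_left.1 hd.sb h3 (VB_sub h2)
  · exact disjoint_left.1 hd.tb h3 (VB_sub h2)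

/-- **`q ∈ S ∪ T`** -/
theorem glocB_U {k : ZMod 4} {j : Fin 4} {S T B : Finset Pg} (hd : Dj S T B)
    {al w : ZMod 2} {f : Pg → ZMod 2} {q : Pg} (hq : q ∈ S ∪ T)
    (h : rwU k j S T B f q = al * aa q.1 + w * bb q.1) :
    GLoc4 ((pv q.1 q.prime).valuation K) (dB k j S T B : K)
      (gp4 (S ∪ T ∪ VB k j S T B) al w f : K) := by
  have h4 := val_four_odd q.prime (not_dvd_lam4 q)
  have h1v : ((1 : ZMod 2)).val = 1 := rfl
  have hdis := disj_UV (k := k) (j := j) hd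
  obtain ⟨n, hn, h1⟩ := clB_mul_pow (B := B) hd.st
    (subset_union_left : S ∪ T ⊆ S ∪ T ∪ VB k j S T B) (m := 1) one_ne_zero
    (a := (gp4 (S ∪ T ∪ VB k j S T B) al w f : K)) (by rw [one_pow, one_mul]) k j (f q)
  have hin : inS (S ∪ T) q = 1 := if_pos hq
  have h2 : Sq ((pv q.1 q.prime).valuation K)
      (gp4 (S ∪ T ∪ VB k j S T B) (al + f q * md k) (w + f q * (j.val : ZMod 2))
        (fun p => f p + f q * inS (S ∪ T) p) : K) := by
    refine row_sq' (mem_union_left _ hq) ?_ ?_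
    · show f q + f q * inS (S ∪ T) q = 0
      rw [hin, mul_one]
      have h5 : ∀ x : ZMod 2, x + x = 0 := by decide
      exact h5 _
    · have hqV : q ∉ VB k j S T B := disjoint_left.1 hdis hq
      have e1 : (S ∪ T ∪ VB k j S T B).erase q = (S ∪ T).erase q ∪ VB k j S T B := by
        rw [erase_union_distrib, erase_eq_of_notMem hqV]
      have hdis' : Disjoint ((S ∪ T).erase q) (VB k j S T B) :=
        disjoint_of_subset_left (erase_subset _ _) hdis
      have e2 : ∑ p ∈ VB k j S T B, (f p + f q * inS (S ∪ T) p) * s4 q p =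
          ∑ b ∈ VB k j S T B, s4 q b * f b := by
        refine sum_congr rfl fun p hp => ?_
        have h2 : inS (S ∪ T) p = 0 := if_neg fun h3 => disjoint_left.1 hdis h3 hp
        rw [h2, mul_zero, add_zero, mul_comm]
      have e3 : ∑ p ∈ (S ∪ T).erase q, (f p + f q * inS (S ∪ T) p) * s4 q p =
          ∑ p ∈ S ∪ T, s4 q p * (f q + f p) := by
        rw [← add_sum_erase (S ∪ T) _ hq]
        have h2 : ∀ x : ZMod 2, x + x = 0 := by decide
        rw [h2 (f q), mul_zero, zero_add]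
        refine sum_congr rfl fun p hp => ?_
        have h2 : inS (S ∪ T) p = 1 := if_pos (mem_of_mem_erase hp)
        rw [h2]
        ring
      have e4 : ∑ p ∈ (S ∪ T ∪ VB k j S T B).erase q, (f p + f q * inS (S ∪ T) p) * s4 q p =
          ∑ p ∈ S ∪ T, s4 q p * (f q + f p) + ∑ b ∈ VB k j S T B, s4 q b * f b := by
        rw [e1, sum_union hdis', e2, e3]
      show (al + f q * md k) * aa q.1 + (w + f q * (j.val : ZMod 2)) * c2 q lam +
        ∑ p ∈ (S ∪ T ∪ VB k j S T B).erase q, (f p + f q * inS (S ∪ T) p) * s4 q p = 0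
      rw [e4, c2_lam]
      have h6 : ∀ x y : ZMod 2, x = y → x + y = 0 := by decide
      refine Eq.trans ?_ (h6 _ _ h)
      unfold rwU kxB
      ring
  have h3 : Sq ((pv q.1 q.prime).valuation K)
      ((gp4 (S ∪ T ∪ VB k j S T B) al w f : K) * (dB k j S T B : K) ^ (f q).val) := by
    rw [h1, mul_comm]
    exact Sq_mul_sq hn h2
  have h0 : ∀ t : ZMod 2, t = 0 ∨ t = 1 := by decide
  rcases h0 (f q) with ht | ht
  · left
    rwa [ht, ZMod.val_zero, pow_zero, mul_one] at h3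
  · right; left
    rwa [ht, h1v, pow_one] at h3

/-- a square root of `D'` modulo `b` -/
theorem root_b' {b : Pg} {D' : 𝓞 K} (hD' : ¬ b.1 ∣ D') (h : c2 b D' = 0) :
    ∃ n : 𝓞 K, ¬ b.1 ∣ n ∧ b.1 ∣ n ^ 2 - D' ∧ hf4 (c4 b D') = c2 b n := by
  obtain ⟨n, hn⟩ := (Pool.Agent.Lib.MP_1a91b9_ntQ.c2_eq_zero_iff b hD').1 h
  have hnb : ¬ b.1 ∣ n := by
    intro h1
    apply hD'
    have h2 : b.1 ∣ n ^ 2 := h1.trans (dvd_pow_self n two_ne_zero)
    have h3 := dvd_sub h2 hn
    rwa [sub_sub_cancel] at h3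
  refine ⟨n, hnb, hn, ?_⟩
  have h1 : ¬ b.1 ∣ n ^ 2 := fun h => hnb (b.prime.dvd_of_dvd_pow h)
  have h2 := c4_congr b h1 hn
  rw [← h2, c4_pow b hnb, Nat.cast_ofNat, hf4_two]
  rfl

/-- **`b ∈ V`** -/
theorem glocB_V {k : ZMod 4} {j : Fin 4} {S T B : Finset Pg} (hd : Dj S T B)
    {al w : ZMod 2} {f : Pg → ZMod 2} {b : Pg} (hb : b ∈ VB k j S T B)
    (h : rwV k j S T B f b = al * aa b.1 + w * bb b.1) :
    GLoc4 ((pv b.1 b.prime).valuation K) (dB k j S T B : K)
      (gp4 (S ∪ T ∪ VB k j S T B) al w f : K) := by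
  have hbB : b ∈ B := VB_sub hb
  have h4 := val_four_odd b.prime (not_dvd_lam4 b)
  have h1v : ((1 : ZMod 2)).val = 1 := rfl
  have hdis := disj_UV (k := k) (j := j) hd
  have hD' := not_dvd_dB' (k := k) (j := j) hd hbB
  have hvD := pv_one b.prime hD'
  have hDD : (dB k j S T B : K) = (b.1 : K) ^ 2 * (dB k j S T (B.erase b) : K) := by
    rw [dB_erase hbB]
    push_cast
    rfl
  have hb0 : (b.1 : K) ≠ 0 := coe_ne b.ne_zero
  have hbA : b ∈ S ∪ T ∪ VB k j S T B := mem_union_right _ hb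
  -- the symbol of the cofactor
  have hG : c2 b (gp4 ((S ∪ T ∪ VB k j S T B).erase b) al w f) = rhB k j S T B b * f b := by
    have hbU : b ∉ S ∪ T := fun h2 => disjoint_left.1 hdis h2 hb
    have e1 : (S ∪ T ∪ VB k j S T B).erase b = S ∪ T ∪ (VB k j S T B).erase b := by
      rw [erase_union_distrib, erase_eq_of_notMem hbU]
    have hdis' : Disjoint (S ∪ T) ((VB k j S T B).erase b) :=
      disjoint_of_subset_right (erase_subset _ _) hdis
    have e2 : ∑ p ∈ (VB k j S T B).erase b, f p * s4 b p =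
        ∑ u ∈ (VB k j S T B).erase b, s4 b u * f u := sum_congr rfl fun p _ => mul_comm _ _
    have e3 : ∑ p ∈ S ∪ T, f p * s4 b p = ∑ p ∈ S ∪ T, s4 p b * f p := by
      refine sum_congr rfl fun p hp => ?_
      have hne : p ≠ b := fun h2 => hbU (h2 ▸ hp)
      rw [s4_symm hne, mul_comm]
    rw [c2_gp4 hbA, e1, sum_union hdis', e2, e3, c2_lam]
    have h6 : ∀ x y z u v : ZMod 2, x + (y + z) = u → u + (x + z) = y := by decide
    exact h6 _ _ _ _ 0 h
  rcases (by decide : ∀ t : ZMod 2, t = 0 ∨ t = 1) (f b) with hf | hf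
  · left
    rw [hf, mul_zero] at hG
    rw [gp4_erase hbA, hf, ZMod.val_zero, pow_zero, one_mul]
    exact sq_of_c2_row b (not_dvd_gp4_erase _ _ _) hG
  · rw [hf, mul_one] at hG
    obtain ⟨n, hn, hnD, hc⟩ := root_b' hD' ((mem_VB hd hbB).1 hb)
    refine convB_two h4 (pv_self b.1 b.prime) hvD hDD (Or.inr (Or.inr ⟨(n : K), ?_, ?_⟩))
    · have h7 := (pv_lt (x := n ^ 2 - dB k j S T (B.erase b)) b.prime).2 hnD
      have e : ((n ^ 2 - dB k j S T (B.erase b) : 𝓞 K) : K) =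
          (n : K) ^ 2 - (dB k j S T (B.erase b) : K) := by
        push_cast
        rfl
      rw [e] at h7
      exact h7
    · have h8 : Sq ((pv b.1 b.prime).valuation K)
          ((gp4 ((S ∪ T ∪ VB k j S T B).erase b) al w f * n : 𝓞 K) : K) := by
        refine sq_of_c2_row b (fun h9 => (b.prime.dvd_or_dvd h9).elim (not_dvd_gp4_erase _ _ _) hn) ?_
        rw [c2_mul b (not_dvd_gp4_erase _ _ _) hn, hG, ← hc]
        have e : rhB k j S T B b = hf4 (c4 b (dB k j S T (B.erase b))) := rfl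
        rw [e]
        have h5 : ∀ x : ZMod 2, x + x = 0 := by decide
        exact h5 _
      have e : (gp4 (S ∪ T ∪ VB k j S T B) al w f : K) * ((b.1 : K) * (n : K)) =
          ((gp4 ((S ∪ T ∪ VB k j S T B).erase b) al w f * n : 𝓞 K) : K) * (b.1 : K) ^ 2 := by
        have e1 : gp4 (S ∪ T ∪ VB k j S T B) al w f * (b.1 * n) =
            gp4 ((S ∪ T ∪ VB k j S T B).erase b) al w f * n * b.1 ^ 2 := by
          rw [gp4_erase hbA, hf, h1v, pow_one]
          ring
        have e2 := congrArg (fun x : 𝓞 K => (x : K)) e1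
        push_cast at e2
        push_cast
        exact e2
      have h10 := Sq_mul_sq hb0 h8
      rw [← e] at h10
      exact h10

/-- **`b ∈ B`, not in `V`** -/
theorem glocB_B {k : ZMod 4} {j : Fin 4} {S T B : Finset Pg} (hd : Dj S T B)
    {al w : ZMod 2} {f : Pg → ZMod 2} {b : Pg} (hbB : b ∈ B) (hb : b ∉ VB k j S T B) :
    GLoc4 ((pv b.1 b.prime).valuation K) (dB k j S T B : K)
      (gp4 (S ∪ T ∪ VB k j S T B) al w f : K) := by
  have h4 := val_four_odd b.prime (not_dvd_lam4 b)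
  have hD' := not_dvd_dB' (k := k) (j := j) hd hbB
  have hvD := pv_one b.prime hD'
  have hDD : (dB k j S T B : K) = (b.1 : K) ^ 2 * (dB k j S T (B.erase b) : K) := by
    rw [dB_erase hbB]
    push_cast
    rfl
  have hg : ¬ b.1 ∣ gp4 (S ∪ T ∪ VB k j S T B) al w f := by
    refine not_dvd_gp4 b.prime (not_dvd_lam4 b) (fun q hq => Pg.not_dvd ?_) _ _ _
    rintro rfl
    rcases mem_union.1 hq with h | h
    · rcases mem_union.1 h with h | h
      · exact disjoint_left.1 hd.sb h hbB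
      · exact disjoint_left.1 hd.tb h hbB
    · exact hb h
  have h1 : ∀ t : ZMod 2, t ≠ 0 → t = 1 := by decide
  have hc : c2 b (dB k j S T (B.erase b)) = 1 := h1 _ fun h => hb ((mem_VB hd hbB).2 h)
  refine convB_two h4 (pv_self b.1 b.prime) hvD hDD ?_
  rcases (by decide : ∀ t : ZMod 2, t = 0 ∨ t = 1)
    (c2 b (gp4 (S ∪ T ∪ VB k j S T B) al w f)) with h2 | h2
  · exact Or.inl (sq_of_c2_row b hg h2)
  · right; left
    have h3 : Sq ((pv b.1 b.prime).valuation K)
        ((gp4 (S ∪ T ∪ VB k j S T B) al w f * dB k j S T (B.erase b) : 𝓞 K) : K) := by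
      refine sq_of_c2_row b (fun h9 => (b.prime.dvd_or_dvd h9).elim hg hD') ?_
      rw [c2_mul b hg hD', h2, hc]
      rfl
    have e : ((gp4 (S ∪ T ∪ VB k j S T B) al w f * dB k j S T (B.erase b) : 𝓞 K) : K) =
        (gp4 (S ∪ T ∪ VB k j S T B) al w f : K) * (dB k j S T (B.erase b) : K) := by
      push_cast
      rfl
    rw [e] at h3
    exact h3

/-- **All the local conditions.** -/
theorem glocB_all {k : ZMod 4} {j : Fin 4} {S T B : Finset Pg} (hd : Dj S T B)
    {al w : ZMod 2} {f : Pg → ZMod 2}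
    (hU : ∀ q ∈ S ∪ T, rwU k j S T B f q = al * aa q.1 + w * bb q.1)
    (hV : ∀ b ∈ VB k j S T B, rwV k j S T B f b = al * aa b.1 + w * bb b.1)
    (hlam : GLoc4 nuL (dB k j S T B : K) (gp4 (S ∪ T ∪ VB k j S T B) al w f : K))
    (v : HeightOneSpectrum (𝓞 K)) :
    GLoc4 (v.valuation K) (dB k j S T B : K) (gp4 (S ∪ T ∪ VB k j S T B) al w f : K) := by
  obtain ⟨π, hπ, rfl⟩ := exists_pv v
  by_cases h3 : π ∣ lam
  · rw [pv_eq hπ prime_lam h3]
    exact hlam
  by_cases hq : ∃ q ∈ S ∪ T, π ∣ q.1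
  · obtain ⟨q, hq, hd'⟩ := hq
    rw [pv_eq hπ q.prime hd']
    exact glocB_U hd hq (hU q hq)
  by_cases hb : ∃ b ∈ B, π ∣ b.1
  · obtain ⟨b, hb, hd'⟩ := hb
    rw [pv_eq hπ b.prime hd']
    by_cases hbV : b ∈ VB k j S T B
    · exact glocB_V hd hbV (hV b hbV)
    · exact glocB_B hd hb hbV
  push Not at hq hb
  refine gloc4_good (pv π hπ) (iO : K) iK_sq' (val_four_odd hπ h3) ?_ ?_ (coe_ne (gp4_ne _ _ _ _))
  · refine pv_one hπ (not_dvd_dB hπ h3 fun q h => ?_)
    rcases mem_union.1 h with h5 | h5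
    · exact hq q h5
    · exact hb q h5
  · have h6 : ¬ π ∣ gp4 (S ∪ T ∪ VB k j S T B) al w f := by
      refine not_dvd_gp4 hπ h3 (fun q h => ?_) _ _ _
      rcases mem_union.1 h with h5 | h5
      · exact hq q h5
      · exact hb q (VB_sub h5)
    rw [pv_one hπ h6]
    exact ⟨1, by rw [mul_one]⟩

/-- `a` and `a D` are not squares. -/
theorem gpB_not_sq {k : ZMod 4} {j : Fin 4} {S T B : Finset Pg} (hd : Dj S T B)
    {al w : ZMod 2} {f : Pg → ZMod 2}
    (h0 : ¬ (al = 0 ∧ w = 0 ∧ ∀ q ∈ S ∪ T ∪ VB k j S T B, f q = 0))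
    (h1 : ¬ (al = md k ∧ w = (j.val : ZMod 2) ∧ (∀ q ∈ S ∪ T, f q = 1) ∧
      ∀ b ∈ VB k j S T B, f b = 0)) :
    ¬ IsSquare (gp4 (S ∪ T ∪ VB k j S T B) al w f : K) ∧
      ¬ IsSquare ((gp4 (S ∪ T ∪ VB k j S T B) al w f : K) * (dB k j S T B : K)) := by
  have h1v : ((1 : ZMod 2)).val = 1 := rfl
  have e2 : ∀ x y : ZMod 2, x + y = 0 → x = y := by decide
  have hdis := disj_UV (k := k) (j := j) hd
  refine ⟨fun h => h0 ?_, fun h => h1 ?_⟩
  · exact gp4_sq (m := 1) one_ne_zero (by rwa [one_pow, one_mul])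
  · obtain ⟨n, hn, h2⟩ := clB_mul_pow (B := B) hd.st
      (subset_union_left : S ∪ T ⊆ S ∪ T ∪ VB k j S T B) (m := 1) one_ne_zero
      (a := (gp4 (S ∪ T ∪ VB k j S T B) al w f : K)) (by rw [one_pow, one_mul]) k j 1
    rw [h1v, pow_one] at h2
    rw [h2] at h
    obtain ⟨g1, g2, g3⟩ := gp4_sq hn h
    rw [one_mul] at g1 g2
    refine ⟨e2 _ _ g1, e2 _ _ g2, fun q hq => ?_, fun b hb => ?_⟩
    · have h5 := g3 q (mem_union_left _ hq)
      have h6 : inS (S ∪ T) q = 1 := if_pos hq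
      rw [h6, mul_one] at h5
      exact e2 _ _ h5
    · have h5 := g3 b (mem_union_right _ hb)
      have h6 : inS (S ∪ T) b = 0 := if_neg fun h7 => disjoint_left.1 hdis h7 hb
      rwa [h6, mul_zero, add_zero] at h5

/-- `D` is not a square. -/
theorem dB_not_sq {k : ZMod 4} {j : Fin 4} {S T B : Finset Pg} (hd : Disjoint S T)
    (h : ¬ (md k = 0 ∧ (j.val : ZMod 2) = 0 ∧ S ∪ T = ∅)) : ¬ IsSquare (dB k j S T B : K) := by
  intro h1
  obtain ⟨m, hm, h2⟩ := dB_gp4 k j B hd (Subset.refl (S ∪ T))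
  have e : (dB k j S T B : K) = (m : K) ^ 2 *
      (gp4 (S ∪ T) (md k) (j.val : ZMod 2) (inS (S ∪ T)) : K) := by
    rw [h2]
    push_cast
    rfl
  rw [e] at h1
  obtain ⟨g1, g2, g3⟩ := gp4_sq (coe_ne hm) h1
  refine h ⟨g1, g2, ?_⟩
  by_contra h3
  obtain ⟨q, hq⟩ := nonempty_iff_ne_empty.2 h3
  have h4 := g3 q hq
  have h5 : inS (S ∪ T) q = 1 := if_pos hq
  rw [h5] at h4
  exact one_ne_zero h4

end

end Pool.Agent.Lib.MP_1a91b9_ntQ.C.C9
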