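import Pool.Agent.Lib.MP_1a91b9_ntQ.B.Lam2B

/-!
# MP_1a91b9_nt (quartic twists), part B: the condition at `lam` for the Selmer elements

`lamC_of_gloc`: all the `D = i ^ k lam ^ j c`, `c` primary, `j = 0, 1, 2, 3`.
-/

set_option autoImplicit false
set_option linter.unusedSectionVars false
set_option linter.unusedVariables false

namespace Pool.Agent.Lib.MP_1a91b9_ntQ.C

open NumberField Finset WithZero IsDedekindDomain Pool.Agent.Lib.MP_1a91b9_nuT
open Pool.Agent.Lib.MP_1a91b9_ntQ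
open Pool.Agent.Lib.MP_1a91b9_ntH.C (Sq exists_nu isSquare_exp nu_one)

noncomputable section

theorem LamC.mk0 {k : ZMod 4} {c : 𝓞 K4} {α w A L : ZMod 2} (c1 : md k = 1 → α = 0 ∧ w = 0)
    (c2 : md k = 0 → aa c = 1 → α = 0 ∧ w = 0)
    (x1 : k = 2 → aa c = 0 → w = 0 ∧ A = α * hf4 (nn c))
    (x2 : k = 0 → aa c = 0 → hf4 (nn c) + bb c = 1 → α = 0 ∧ w = 0)
    (x3 : k = 0 → aa c = 0 → hf4 (nn c) + bb c = 0 → w = 0 ∧ A = α * xl4 (llB c)) :
    LamC k 0 c α w A L where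
  c1 _ := c1
  c2 _ := c2
  x1 _ := x1
  x2 _ := x2
  x3 _ := x3
  e h := absurd h (by decide)
  j3 h := absurd h (by decide)
  a2 h := absurd h (by decide)
  b2 h := absurd h (by decide)
  c20 h := absurd h (by decide)
  c22 h := absurd h (by decide)
  d20 h := absurd h (by decide)
  d22 h := absurd h (by decide)

theorem LamC.mk1 {k : ZMod 4} {c : 𝓞 K4} {α w A L : ZMod 2} (e : w = 0 ∧ A = α * xk4 k) :
    LamC k 1 c α w A L where
  c1 h := absurd h (by decide)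
  c2 h := absurd h (by decide)
  x1 h := absurd h (by decide)
  x2 h := absurd h (by decide)
  x3 h := absurd h (by decide)
  e _ := e
  j3 h := absurd h (by decide)
  a2 h := absurd h (by decide)
  b2 h := absurd h (by decide)
  c20 h := absurd h (by decide)
  c22 h := absurd h (by decide)
  d20 h := absurd h (by decide)
  d22 h := absurd h (by decide)

theorem LamC.mk3 {k : ZMod 4} {c : 𝓞 K4} {α w A L : ZMod 2} (j3 : α = 0 ∧ w = 0) :
    LamC k 3 c α w A L where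
  c1 h := absurd h (by decide)
  c2 h := absurd h (by decide)
  x1 h := absurd h (by decide)
  x2 h := absurd h (by decide)
  x3 h := absurd h (by decide)
  e h := absurd h (by decide)
  j3 _ := j3
  a2 h := absurd h (by decide)
  b2 h := absurd h (by decide)
  c20 h := absurd h (by decide)
  c22 h := absurd h (by decide)
  d20 h := absurd h (by decide)
  d22 h := absurd h (by decide)

/-- the valuation of `D` -/
theorem nuL_Dj (k : ZMod 4) (j : ℕ) {c : 𝓞 K} (hc : In4 c) :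
    nuL ((iO ^ k.val * lam ^ j * c : 𝓞 K) : K) = exp (-(j : ℤ)) := by
  have e1 : iO ^ k.val * lam ^ j * c = lam ^ j * (iO ^ k.val * c) := by ring
  have e2 : ((lam ^ j : 𝓞 K) : K) = (lam : K) ^ j := map_pow (algebraMap (𝓞 K) K) _ _
  have h1 : nuL ((iO ^ k.val * c : 𝓞 K) : K) = 1 := pv_one prime_lam fun hd => by
    rcases prime_lam.dvd_or_dvd hd with h2 | h2
    · exact not_dvd_of_unit prime_lam (isUnit_iO.pow _) h2
    · exact hc.not_lam h2
  rw [e1, coe_mul', map_mul]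
  refine (congrArg₂ (· * ·) (congrArg nuL e2) h1).trans ?_
  show nuL ((lam : K) ^ j) * 1 = _
  rw [mul_one, nu_lpow nuL_lam]

theorem Kc.congr {a a' : K} {α w : ZMod 2} {y : 𝓞 K} (h : Kc a α w y) (e : a = a') :
    Kc a' α w y := by
  subst e
  exact h

/-- **the condition at `lam`, `D = i ^ k lam ^ 3 c`** -/
theorem lamC_three (k : ZMod 4) {c y : 𝓞 K} (hc : In4 c) {α w : ZMod 2} {a : K}
    (h : Kc a α w y)
    (hG : GLoc4 nuL ((iO ^ k.val * lam ^ (3 : Fin 4).val * c : 𝓞 K) : K) a) :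
    ∃ t : ZMod 2, LamC k 3 c (α + t * md k) (w + t * (((3 : Fin 4).val : ℕ) : ZMod 2))
      (aa y + t * aa c) (bb y + t * bb c) := by
  have hD : nuL ((iO ^ k.val * lam ^ (3 : Fin 4).val * c : 𝓞 K) : K) = exp (-3) :=
    nuL_Dj k (3 : Fin 4).val hc
  have h11 : ((1 : ZMod 2)).val = 1 := rfl
  rcases loc_three iK_sq' nuL_two hD hG with h1 | h1
  · obtain ⟨g1, g2⟩ := h.CG h1
    refine ⟨0, LamC.mk3 ⟨?_, ?_⟩⟩
    · rw [g1, zero_mul, add_zero]
    · rw [g2, zero_mul, add_zero]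
  · have h2 := h.mulD k 3 hc 1
    rw [h11, pow_one] at h2
    exact ⟨1, LamC.mk3 (h2.CG h1)⟩

/-- `1 + D` for `D = i ^ k lam c` -/
theorem one_add_Dc (k : ZMod 4) {c : 𝓞 K} (hc : In4 c) : ∃ (e : ZMod 4) (z : 𝓞 K), In4 z ∧
    md e = 1 ∧ aa z = xk4 k ∧ 1 + iO ^ k.val * lam ^ 1 * c = iO ^ e.val * z := by
  obtain ⟨e, z0, hz0, he, ha, h1⟩ := one_add_k k
  obtain ⟨w, hw⟩ := hc
  have h2 : iO ^ e.val * iO ^ (-e).val = 1 := by
    rw [pow_val_mul, add_neg_cancel, ZMod.val_zero, pow_zero]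
  obtain ⟨z, hz⟩ : ∃ z : 𝓞 K, z = z0 + iO ^ (-e).val * iO ^ k.val * lam ^ 4 * w := ⟨_, rfl⟩
  have h5 : lam ^ 4 ∣ z - z0 := ⟨iO ^ (-e).val * iO ^ k.val * w, by rw [hz]; ring⟩
  have h6 : lam ^ 3 ∣ z - z0 := (pow_dvd_pow lam (by norm_num)).trans h5
  have h7 : lam ^ 4 ∣ z0 - z := by
    rw [← neg_sub]
    exact h5.neg_right
  refine ⟨e, z, (in4_congr h6).2 hz0, he, ?_, ?_⟩
  · have h8 : xk4 k = xk k := rfl
    rw [h8, ← ha]
    exact (aa_congr hz0 h7).symm
  · have e4 : c = 1 + lam ^ 3 * w := by linear_combination hw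
    rw [e4, hz]
    linear_combination h1 - (iO ^ k.val * lam ^ 4 * w) * h2

/-- the class of `1 + D`, `D = i ^ k lam c` -/
theorem Kc.one_add (k : ZMod 4) {c : 𝓞 K} (hc : In4 c) : ∃ z : 𝓞 K, aa z = xk4 k ∧
    Kc (1 + ((iO ^ k.val * Pool.Agent.Lib.MP_1a91b9_ntQ.lam ^ 1 * c : 𝓞 K) : K)) 1 0 z := by
  obtain ⟨e, z, hz, he, ha, h1⟩ := one_add_Dc k hc
  refine ⟨z, ha, ?_⟩
  have h2 := Kc.D e 0 hz
  have e1 : iO ^ e.val * Pool.Agent.Lib.MP_1a91b9_ntQ.lam ^ (0 : Fin 4).val * z =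
      1 + iO ^ k.val * Pool.Agent.Lib.MP_1a91b9_ntQ.lam ^ 1 * c := by
    rw [h1]
    have e2 : (0 : Fin 4).val = 0 := rfl
    rw [e2, pow_zero, mul_one]
  rw [e1, he] at h2
  have e3 : ((1 + iO ^ k.val * Pool.Agent.Lib.MP_1a91b9_ntQ.lam ^ 1 * c : 𝓞 K) : K) =
      1 + ((iO ^ k.val * Pool.Agent.Lib.MP_1a91b9_ntQ.lam ^ 1 * c : 𝓞 K) : K) :=
    rfl
  exact (h2.cast rfl (by rfl) rfl).congr e3

/-- **the condition at `lam`, `D = i ^ k lam c`** -/
theorem lamC_one (k : ZMod 4) {c y : 𝓞 K} (hc : In4 c) {α w : ZMod 2} {a : K}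
    (h : Kc a α w y)
    (hG : GLoc4 nuL ((iO ^ k.val * lam ^ (1 : Fin 4).val * c : 𝓞 K) : K) a) :
    ∃ t : ZMod 2, LamC k 1 c (α + t * md k) (w + t * (((1 : Fin 4).val : ℕ) : ZMod 2))
      (aa y + t * aa c) (bb y + t * bb c) := by
  have hD : nuL ((iO ^ k.val * lam ^ (1 : Fin 4).val * c : 𝓞 K) : K) = exp (-1) :=
    nuL_Dj k (1 : Fin 4).val hc
  have hv : ∀ e : ℕ, e < 2 → ((e : ZMod 2)).val = e := by
    intro e he
    interval_cases e <;> rfl
  obtain ⟨t, s, ht, hs, h1⟩ := loc4_one iK_sq' nuL_two nuL_res hD hG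
  obtain ⟨z, hz, hz'⟩ := Kc.one_add k hc
  have h2 := (h.mulD k 1 hc (t : ZMod 2)).mul (hz'.pow (s : ZMod 2))
  rw [hv t ht, hv s hs] at h2
  obtain ⟨g1, g2, g3, -⟩ := h2.Sq h1
  obtain ⟨g5, g6⟩ := aa_pow_val h.in4 hc (t : ZMod 2)
  rw [hv t ht] at g5 g6
  refine ⟨(t : ZMod 2), LamC.mk1 ⟨?_, ?_⟩⟩
  · rw [mul_zero, add_zero] at g2
    exact g2
  · have hyc : In4 (y * c ^ t) := by
      have := (h.mulD k 1 hc (t : ZMod 2)).in4
      rwa [hv t ht] at this
    have h0 : ∀ e : ZMod 2, e = 0 ∨ e = 1 := by decide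
    have h01 : s = 0 ∨ s = 1 := by omega
    rcases h01 with rfl | rfl
    · rw [pow_zero, mul_one, g5] at g3
      rw [Nat.cast_zero, zero_mul, add_zero] at g1
      rw [g3, g1, zero_mul]
    · rw [pow_one, aa_mul hyc hz'.in4, g5, hz] at g3
      rw [Nat.cast_one, one_mul] at g1
      have e2 : ∀ x y : ZMod 2, x + y = 0 → x = y := by decide
      rw [e2 _ _ g3, e2 _ _ g1, one_mul]

/-! ### `j = 0` -/

/-- the symbol of `lam` -/
theorem ll_formB (c d : ℤ) : llB (1 + 4 * ((c : 𝓞 K4) + (d : 𝓞 K4) * iO)) =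
    ((c - d : ℤ) : ZMod 4) := by
  have e : (1 + 4 * ((c : 𝓞 K4) + (d : 𝓞 K4) * iO)) =
      ((1 + 4 * c : ℤ) : 𝓞 K4) + ((4 * d : ℤ) : 𝓞 K4) * iO := by
    push_cast
    ring
  unfold llB mmB nnB
  rw [e, cp_coords]
  dsimp only
  have e1 : (4 * d - (1 + 4 * c) + 1) / 4 = d - c := by omega
  have e2 : -((1 + 4 * c + 4 * d - 1) / 4) = -c - d := by omega
  rw [e1, e2]
  push_cast
  have h11 : ∀ c d : ZMod 4, -(d - c) - (d - c - (-c - d)) ^ 2 = c - d := by decide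
  exact h11 _ _

theorem aa_val_form (r : ZMod 2) : aa (1 + lam ^ 3 * (r.val : 𝓞 K4)) = r ∧
    In4 (1 + lam ^ 3 * (r.val : 𝓞 K4)) := by
  have h5 := aa_form (r.val : ℤ) 0
  have e : (1 + lam ^ 3 * ((((r.val : ℕ) : ℤ) : 𝓞 K4) + ((0 : ℤ) : 𝓞 K4) * iO)) =
      1 + lam ^ 3 * (r.val : 𝓞 K4) := by
    push_cast
    ring
  rw [e] at h5
  refine ⟨?_, ⟨(r.val : 𝓞 K4), by ring⟩⟩
  rw [h5]
  push_cast
  rw [add_zero, ZMod.natCast_val, ZMod.cast_id]

/-- the class of `i ^ e (1 + lam ^ 3 r)` -/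
theorem Kc.wr (e r : ZMod 2) : Kc ((iO : K) ^ e.val * (1 + (1 + (iO : K)) ^ 3 * (r.val : K))) e 0
    (1 + Pool.Agent.Lib.MP_1a91b9_ntQ.lam ^ 3 * (r.val : 𝓞 K4)) := by
  have h := Kc.of (α := e) (w := 0) (aa_val_form r).2
  have e1 : ((iO ^ e.val * Pool.Agent.Lib.MP_1a91b9_ntQ.lam ^ (0 : ZMod 2).val *
      (1 + Pool.Agent.Lib.MP_1a91b9_ntQ.lam ^ 3 * (r.val : 𝓞 K4)) : 𝓞 K) : K) =
      (iO : K) ^ e.val * (1 + (1 + (iO : K)) ^ 3 * (r.val : K)) := by
    rw [ZMod.val_zero, pow_zero, mul_one, ← lam_coe]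
    push_cast
    rfl
  exact h.congr e1

/-- from the two classes modulo `4` to the condition -/
theorem C4_orB {a b : K} {α w e r : ZMod 2} {y z : 𝓞 K} (h : Kc a α w y) (hz : aa z = r)
    (h' : Kc b e 0 z) (h4 : C4 nuL a ∨ C4 nuL (a * b)) :
    (α = 0 ∧ w = 0 ∧ aa y = 0) ∨ (α = e ∧ w = 0 ∧ aa y = r) := by
  have e2 : ∀ x y : ZMod 2, x + y = 0 → x = y := by decide
  rcases h4 with h5 | h5
  · exact Or.inl (h.C4 h5)
  · obtain ⟨g1, g2, g3⟩ := (h.mul h').C4 h5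
    rw [aa_mul h.in4 h'.in4, hz] at g3
    rw [add_zero] at g2
    exact Or.inr ⟨e2 _ _ g1, g2, e2 _ _ g3⟩

/-- `D` is not a square modulo `4` -/
theorem lamC_unit (k : ZMod 4) {c y : 𝓞 K} (hc : In4 c) {α w : ZMod 2} {a : K}
    (h : Kc a α w y) (hk : ¬ (md k = 0 ∧ aa c = 0))
    (hG : GLoc4 nuL ((iO ^ k.val * lam ^ (0 : Fin 4).val * c : 𝓞 K) : K) a) :
    ∃ t : ZMod 2, α + t * md k = 0 ∧ w + t * (((0 : Fin 4).val : ℕ) : ZMod 2) = 0 := by
  have hD : nuL ((iO ^ k.val * lam ^ (0 : Fin 4).val * c : 𝓞 K) : K) = 1 := by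
    refine (nuL_Dj k (0 : Fin 4).val hc).trans ?_
    rw [show (0 : Fin 4).val = 0 from rfl, Nat.cast_zero, neg_zero]
    exact exp_zero
  have hDn : ¬ C4 nuL ((iO ^ k.val * lam ^ (0 : Fin 4).val * c : 𝓞 K) : K) := by
    intro h1
    obtain ⟨g1, -, g3⟩ := (Kc.D k 0 hc).C4 h1
    exact hk ⟨g1, g3⟩
  have h11 : ((1 : ZMod 2)).val = 1 := rfl
  rcases loc4_lam iK_sq' nuL_two nuL_res hD hDn hG with h1 | h1
  · obtain ⟨g1, g2, -⟩ := h.C4 h1
    refine ⟨0, ?_, ?_⟩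
    · rw [g1, zero_mul, add_zero]
    · rw [g2, zero_mul, add_zero]
  · have h2 := h.mulD k 0 hc 1
    rw [h11, pow_one] at h2
    obtain ⟨g1, g2, -⟩ := h2.C4 h1
    exact ⟨1, g1, g2⟩

/-- `D = i ^ k (1 + 4 (...))` -/
theorem lamC_zero (k : ZMod 4) {c y : 𝓞 K} (hc : In4 c) {α w : ZMod 2} {a : K}
    (h : Kc a α w y)
    (hG : GLoc4 nuL ((iO ^ k.val * lam ^ (0 : Fin 4).val * c : 𝓞 K) : K) a) :
    ∃ t : ZMod 2, LamC k 0 c (α + t * md k) (w + t * (((0 : Fin 4).val : ℕ) : ZMod 2))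
      (aa y + t * aa c) (bb y + t * bb c) := by
  by_cases hk : md k = 0 ∧ aa c = 0
  swap
  · obtain ⟨t, h1, h2⟩ := lamC_unit k hc h hk hG
    refine ⟨t, ?_⟩
    rw [h1, h2]
    have h2 : md (2 : ZMod 4) = 0 := by decide
    have h3 : md (0 : ZMod 4) = 0 := by decide
    exact LamC.mk0 (fun _ => ⟨rfl, rfl⟩) (fun _ _ => ⟨rfl, rfl⟩)
      (fun h5 h6 => absurd ⟨by rw [h5, h2], h6⟩ hk) (fun _ _ _ => ⟨rfl, rfl⟩)
      (fun h5 h6 _ => absurd ⟨by rw [h5, h3], h6⟩ hk)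
  · obtain ⟨hk0, ha0⟩ := hk
    have h02 : ∀ k : ZMod 4, md k = 0 → k = 0 ∨ k = 2 := by decide
    have n01 : (0 : ZMod 2) ≠ 1 := by decide
    obtain ⟨c0, d, h1, h2, h3⟩ := form4 hc ha0
    have hh := hf_two c0
    rw [← h2] at hh
    have hh' : hf4 (nn c) = (c0 : ZMod 2) := hh
    have e0 : (0 : Fin 4).val = 0 := rfl
    refine ⟨0, ?_⟩
    rw [zero_mul, zero_mul, zero_mul, zero_mul, add_zero, add_zero, add_zero, add_zero]
    rcases h02 k hk0 with rfl | rfl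
    · -- `k = 0`
      rcases (by decide : ∀ x : ZMod 2, x = 0 ∨ x = 1) (hf4 (nn c) + bb c) with hb | hb
      · -- second order
        have hd : (d : ZMod 2) = 0 := by
          rw [hh', h3] at hb
          push_cast at hb
          have h4 : ∀ c d : ZMod 2, c + (c + d) = 0 → d = 0 := by decide
          exact h4 _ _ hb
        obtain ⟨d', hd'⟩ := (ZMod.intCast_zmod_eq_zero_iff_dvd _ 2).1 hd
        obtain ⟨ρ, hρ⟩ : ∃ ρ : ZMod 2, ρ = (c0 : ZMod 2) := ⟨_, rfl⟩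
        obtain ⟨c', hc'⟩ := digit2 c0
        rw [← hρ] at hc'
        obtain ⟨κ, hκ⟩ : ∃ κ : ZMod 2, κ = ((c' + d' : ℤ) : ZMod 2) := ⟨_, rfl⟩
        obtain ⟨k', hk'⟩ := digit2 (c' + d')
        rw [← hκ] at hk'
        have hl : llB c = ((c0 - d : ℤ) : ZMod 4) := by rw [h1, ll_formB]
        have hα : xl4 (llB c) = ρ + κ := by
          rw [hl, hc']
          have e : ((((ρ.val : ℕ) : ℤ) + 2 * c' - d : ℤ) : ZMod 4) =
              ((ρ.val : ℕ) : ZMod 4) + 2 * ((κ.val : ℕ) : ZMod 4) := by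
            have e1 : (((ρ.val : ℕ) : ℤ) + 2 * c' - d : ℤ) =
                ((ρ.val : ℕ) : ℤ) + 2 * ((κ.val : ℕ) : ℤ) + 4 * (k' - d') := by
              push_cast at hd' hk' ⊢
              omega
            rw [e1]
            push_cast
            have h4 : (4 : ZMod 4) = 0 := by decide
            rw [h4, zero_mul, add_zero]
          rw [e]
          have h5 : ∀ ρ κ : ZMod 2, xl4 (((ρ.val : ℕ) : ZMod 4) + 2 * ((κ.val : ℕ) : ZMod 4)) =
              ρ + κ := by decide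
          exact h5 _ _
        obtain ⟨v, hv⟩ : ∃ v : 𝓞 K, v = -(c' : 𝓞 K) + (1 - iO) * (k' : 𝓞 K) := ⟨_, rfl⟩
        have hD : ((iO ^ (0 : ZMod 4).val * lam ^ (0 : Fin 4).val * c : 𝓞 K) : K) =
            1 * (1 + 4 * ((ρ.val : K) +
            (1 + (iO : K)) ^ 2 * ((κ.val : K) + (1 + (iO : K)) * (v : K)))) := by
          have e : iO ^ (0 : ZMod 4).val * lam ^ (0 : Fin 4).val * c =
              1 * (1 + 4 * ((ρ.val : 𝓞 K) +
              (1 + iO) ^ 2 * ((κ.val : 𝓞 K) + (1 + iO) * v))) := by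
            have e3 : ((κ.val : ℕ) : 𝓞 K) = (c' : 𝓞 K) + (d' : 𝓞 K) - 2 * (k' : 𝓞 K) := by
              have := congrArg (fun x : ℤ => (x : 𝓞 K)) hk'
              push_cast at this
              linear_combination -this
            have e4 : (c0 : 𝓞 K) = ((ρ.val : ℕ) : 𝓞 K) + 2 * (c' : 𝓞 K) := by
              have := congrArg (fun x : ℤ => (x : 𝓞 K)) hc'
              push_cast at this
              exact this
            have e5 : (d : 𝓞 K) = 2 * (d' : 𝓞 K) := by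
              have := congrArg (fun x : ℤ => (x : 𝓞 K)) hd'
              push_cast at this
              exact this
            rw [h1]
            have e2 : ((0 : ZMod 4)).val = 0 := rfl
            rw [e2, e0, e3, hv, pow_zero, pow_zero, one_mul, e4, e5]
            linear_combination (4 * iO ^ 2 * (k' : 𝓞 K) + 4 * (c' : 𝓞 K) * iO +
              8 * iO * (k' : 𝓞 K) + 8 * (c' : 𝓞 K) - 4 * (d' : 𝓞 K) + 4 * (k' : 𝓞 K)) * iO_sq
          rw [e]
          push_cast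
          rfl
        have h0 : ∀ x : ZMod 2, x = 0 ∨ x = 1 := by decide
        have hv1 : ((1 : ZMod 2)).val = 1 := rfl
        have h6 := loc4_X3 iK_sq' nuL_two nuL_res (ρ := (ρ.val : K)) (κ := (κ.val : K))
          (α := ((ρ + κ).val : K)) (by
            rcases h0 ρ with h5 | h5 <;> rcases h0 κ with h6 | h6 <;> rw [h5, h6]
            · left
              refine ⟨?_, ?_, ?_⟩
              · rw [ZMod.val_zero, Nat.cast_zero]
              · rw [ZMod.val_zero, Nat.cast_zero]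
              · rw [add_zero, ZMod.val_zero, Nat.cast_zero]
            · right; left
              refine ⟨?_, ?_, ?_⟩
              · rw [ZMod.val_zero, Nat.cast_zero]
              · rw [hv1, Nat.cast_one]
              · rw [zero_add, hv1, Nat.cast_one]
            · right; right; left
              refine ⟨?_, ?_, ?_⟩
              · rw [hv1, Nat.cast_one]
              · rw [ZMod.val_zero, Nat.cast_zero]
              · rw [add_zero, hv1, Nat.cast_one]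
            · right; right; right
              have h7 : (1 : ZMod 2) + 1 = 0 := by decide
              refine ⟨?_, ?_, ?_⟩
              · rw [hv1, Nat.cast_one]
              · rw [hv1, Nat.cast_one]
              · rw [h7, ZMod.val_zero, Nat.cast_zero]) (nuL_O v) rfl hD hG
        have h7 := C4_orB h (aa_val_form (ρ + κ)).1 (Kc.wr 1 (ρ + κ)) h6
        refine LamC.mk0 (fun h5 => absurd h5 (by decide)) (fun _ h5 => absurd (ha0.symm.trans h5) n01)
          (fun h5 => absurd h5 (by decide)) (fun _ _ h5 => absurd (hb.symm.trans h5) n01)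
          (fun _ _ _ => ?_)
        rw [hα]
        rcases h7 with ⟨g1, g2, g3⟩ | ⟨g1, g2, g3⟩
        · exact ⟨g2, by rw [g3, g1, zero_mul]⟩
        · exact ⟨g2, by rw [g3, g1, one_mul]⟩
      · -- first order
        have hn : (d : ZMod 2) = 1 := by
          rw [hh', h3] at hb
          push_cast at hb
          have h4 : ∀ c d : ZMod 2, c + (c + d) = 1 → d = 1 := by decide
          exact h4 _ _ hb
        obtain ⟨ρ, hρ⟩ : ∃ ρ : ZMod 2, ρ = (c0 : ZMod 2) := ⟨_, rfl⟩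
        obtain ⟨c', hc'⟩ := digit2 c0
        obtain ⟨d', hd'⟩ := digit2 d
        rw [← hρ] at hc'
        rw [hn] at hd'
        have hv1 : ((1 : ZMod 2)).val = 1 := rfl
        rw [hv1] at hd'
        have hD : ((iO ^ (0 : ZMod 4).val * lam ^ (0 : Fin 4).val * c : 𝓞 K) : K) =
            1 * (1 + 4 * ((ρ.val : K) + (iO : K) +
            (1 + (iO : K)) ^ 2 * (-(iO : K) * (c' : K) + (d' : K)))) := by
          have e : iO ^ (0 : ZMod 4).val * lam ^ (0 : Fin 4).val * c =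
              1 * (1 + 4 * ((ρ.val : 𝓞 K) + iO +
              (1 + iO) ^ 2 * (-iO * (c' : 𝓞 K) + (d' : 𝓞 K)))) := by
            rw [h1, hc', hd']
            have e2 : ((0 : ZMod 4)).val = 0 := rfl
            rw [e2, e0]
            push_cast
            linear_combination (-4 * (d' - iO * c' - 2 * c')) * iO_sq
          rw [e]
          push_cast
          rfl
        have hv : nuL (-(iO : K) * (c' : K) + (d' : K)) ≤ 1 := by
          have h5 := nuL_O (-iO * (c' : 𝓞 K) + (d' : 𝓞 K))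
          push_cast at h5
          exact h5
        have h6 := loc4_X2 iK_sq' nuL_two nuL_res (coe_val01 ρ) hv rfl hD hG
        have h8 : (iO : K) ^ 0 * (1 + (1 + (iO : K)) ^ 3 * 1) =
            (iO : K) ^ (0 : ZMod 2).val * (1 + (1 + (iO : K)) ^ 3 * ((1 : ZMod 2).val : K)) := by
          rw [ZMod.val_zero, hv1, Nat.cast_one]
        rw [h8] at h6
        have h7 := C4_orB h (aa_val_form 1).1 (Kc.wr 0 1) h6
        refine LamC.mk0 (fun h5 => absurd h5 (by decide)) (fun _ h5 => absurd (ha0.symm.trans h5) n01)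
          (fun h5 => absurd h5 (by decide)) (fun _ _ _ => ?_)
          (fun _ _ h5 => absurd (h5.symm.trans hb) n01)
        rcases h7 with ⟨g1, g2, g3⟩ | ⟨g1, g2, g3⟩
        · exact ⟨g1, g2⟩
        · exact ⟨g1, g2⟩
    · -- `k = 2`
      obtain ⟨ρ, hρ⟩ : ∃ ρ : ZMod 2, ρ = (c0 : ZMod 2) := ⟨_, rfl⟩
      obtain ⟨n, hn⟩ : ∃ n : ZMod 2, n = (d : ZMod 2) := ⟨_, rfl⟩
      obtain ⟨c', hc'⟩ := digit2 c0
      obtain ⟨d', hd'⟩ := digit2 d
      rw [← hρ] at hc'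
      rw [← hn] at hd'
      have hD : ((iO ^ (2 : ZMod 4).val * lam ^ (0 : Fin 4).val * c : 𝓞 K) : K) =
          -1 * (1 + 4 * ((ρ.val : K) + (iO : K) * (n.val : K) +
          (1 + (iO : K)) ^ 2 * (-(iO : K) * (c' : K) + (d' : K)))) := by
        have e : iO ^ (2 : ZMod 4).val * lam ^ (0 : Fin 4).val * c =
            -1 * (1 + 4 * ((ρ.val : 𝓞 K) + iO * (n.val : 𝓞 K) +
            (1 + iO) ^ 2 * (-iO * (c' : 𝓞 K) + (d' : 𝓞 K)))) := by
          rw [h1, hc', hd']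
          have e2 : ((2 : ZMod 4)).val = 2 := rfl
          rw [e2, e0]
          push_cast
          linear_combination (1 + 4 * ((ρ.val : 𝓞 K) + 2 * (c' : 𝓞 K) + ((n.val : 𝓞 K) +
            2 * (d' : 𝓞 K)) * iO) + 4 * (d' - iO * c' - 2 * c') ) * iO_sq
        rw [e]
        push_cast
        rfl
      have hv : nuL (-(iO : K) * (c' : K) + (d' : K)) ≤ 1 := by
        have h5 := nuL_O (-iO * (c' : 𝓞 K) + (d' : 𝓞 K))
        push_cast at h5
        exact h5
      have h6 := loc4_X1 iK_sq' nuL_two nuL_res (coe_val01 ρ) (coe_val01 n) hv rfl hD hG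
      have h7 := C4_orB h (aa_val_form ρ).1 (Kc.wr 1 ρ) h6
      refine LamC.mk0 (fun h5 => absurd h5 (by decide)) (fun _ h5 => absurd (ha0.symm.trans h5) n01)
        (fun _ _ => ?_) (fun h5 => absurd h5 (by decide)) (fun h5 => absurd h5 (by decide))
      rw [hh', ← hρ]
      rcases h7 with ⟨g1, g2, g3⟩ | ⟨g1, g2, g3⟩
      · exact ⟨g2, by rw [g3, g1, zero_mul]⟩
      · exact ⟨g2, by rw [g3, g1, one_mul]⟩

/-- **The condition at `lam`** for the Selmer elements, all the `D = i ^ k lam ^ j c`. -/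
theorem lamC_of_gloc (k : ZMod 4) (j : Fin 4) {c y : 𝓞 K4} (hc : In4 c) (hy : In4 y)
    {α w : ZMod 2} {m a : K4} (hm : m ≠ 0)
    (ha : a = m ^ 2 * ((iO ^ α.val * lam ^ w.val * y : 𝓞 K4) : K4))
    (h : GLoc4 nuL ((iO ^ k.val * lam ^ j.val * c : 𝓞 K4) : K4) a) :
    ∃ t : ZMod 2, LamC k j c (α + t * md k) (w + t * (j.val : ZMod 2)) (aa y + t * aa c)
      (bb y + t * bb c) := by
  have hK : Kc a α w y := ⟨hy, m, hm, ha⟩
  have h4 : ∀ j : Fin 4, j = 0 ∨ j = 1 ∨ j = 2 ∨ j = 3 := by decide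
  rcases h4 j with rfl | rfl | rfl | rfl
  · exact lamC_zero k hc hK h
  · exact lamC_one k hc hK h
  · exact lamC_two k hc hK h
  · exact lamC_three k hc hK h

end

end Pool.Agent.Lib.MP_1a91b9_ntQ.C
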