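import Pool.Agent.Lib.MP_1a91b9_ntQ.B.PtsB
import Pool.Agent.Lib.MP_1a91b9_ntQ.B.LamB

/-!
# MP_1a91b9_nt (quartic twists), part B: the points for all the fourth-power-free `D`, complete
-/

set_option autoImplicit false

namespace Pool.Agent.Lib.MP_1a91b9_ntQ.C

open NumberField Finset Pool.Agent.Lib.MP_1a91b9_ntQ

theorem lamP : LamP := fun k j _ _ hc hy _ _ _ _ hm ha h => lamC_of_gloc k j hc hy hm ha h

/-- **The points, all the fourth-power-free `D`.** -/
theorem ptB_all : PtB := ptB lamP

/-- The Selmer elements for the good `D`, exceptions included. -/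
theorem selB_all {k : ZMod 4} {j : Fin 4} {S T B : Finset Pg} (hd : Dj S T B)
    (hG : GdB k j S T B) : SelCl4 (dB k j S T B : K4) := selB lamP hd hG

end Pool.Agent.Lib.MP_1a91b9_ntQ.C
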