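import Pool.Agent.Lib.MP_1a91b9_ntQ.Q.Bsd4
import Pool.Agent.Lib.MP_1a91b9_ntQ.Q.T5M
import Pool.Agent.Lib.MP_1a91b9_ntQ.B.DenFF
import Pool.Agent.Lib.MP_1a91b9_ntQ.B.CritB
import Pool.Agent.Lib.MP_1a91b9_ntQ.B.GlocB
import Pool.Agent.Lib.MP_1a91b9_ntQ.B.PtsBF
import Pool.Agent.Lib.MP_1a91b9_ntQ.B.ConvBF

/-!
# MP_1a91b9_nt (quartic twists), all fourth-power-free `D`, file BsdB: the conjecture of Birch and
Swinnerton-Dyer modulo `2`

`bsdB` : for every fourth-power-free `D` of `ℤ[i]`, from the formula modulo `2` for the `D` which are not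
squares; the squares are the quadratic twists of `y² = x³ - x`.
-/

set_option autoImplicit false

namespace Pool.Agent.Lib.MP_1a91b9_ntQ

open NumberField IsDedekindDomain Finset
open Pool.Agent.Lib.MP_1a91b9_ntT3.S9 (ShaP)
open Pool.Agent.Lib.MP_1a91b9_ntS (BSDMod)
open scoped Classical

noncomputable section

/-- `dB k j S T B` is a square. -/
def SqB (k : ZMod 4) (j : Fin 4) (S T : Finset Pg) : Prop :=
  md k = 0 ∧ (j.val : ZMod 2) = 0 ∧ S ∪ T = ∅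

/-- the formula modulo `2` for all the `D` which are not squares -/
def FoB : Prop := ∀ (k : ZMod 4) (j : Fin 4) (S T B : Finset Pg), Dj S T B → ¬ SqB k j S T →
  FormQ (dB k j S T B) (GdB k j S T B)

/-! ### The element -/

theorem ffr_ffd {D : 𝓞 K4} (h : FFr D) : FFd D := h

theorem exists_dB {D : 𝓞 K4} (h : FFr D) : ∃ (k : ZMod 4) (j : Fin 4) (S T B : Finset Pg),
    Dj S T B ∧ D = dB k j S T B := by
  obtain ⟨k, j, S, T, B, h1, h2, h3, h4⟩ := DenB.exists_ff (ffr_ffd h)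
  exact ⟨k, j, S, T, B, ⟨h1, h2, h3⟩, h4⟩

theorem dB_inj' {k k' : ZMod 4} {j j' : Fin 4} {S S' T T' B B' : Finset Pg} (h : Dj S T B)
    (h' : Dj S' T' B') (e : dB k j S T B = dB k' j' S' T' B') :
    k = k' ∧ j = j' ∧ S = S' ∧ T = T' ∧ B = B' := by
  have e1 : DenB.ph k j (pB S T B) = DenB.ph k' j' (pB S' T' B') := e
  obtain ⟨h1, h2, h3⟩ := DenB.ph_inj (DenB.pB_in4 S T B) (DenB.pB_in4 S' T' B') e1
  obtain ⟨h4, h5, h6⟩ := DenB.pB_inj h.st h.sb h.tb h'.st h'.sb h'.tb h3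
  exact ⟨h1, h2, h4, h5, h6⟩

/-- the squares -/
theorem dB_sq {k : ZMod 4} {j : Fin 4} {S T B : Finset Pg} (h : SqB k j S T) :
    ∃ (k' : ZMod 4) (j' : Fin 2), dB k j S T B = Den4.ph k' j' (DDq B) ^ 2 := by
  obtain ⟨hk, hj, hST⟩ := h
  obtain ⟨rfl, rfl⟩ : S = ∅ ∧ T = ∅ := Finset.union_eq_empty.1 hST
  have key1 : ∀ k : ZMod 4, md k = 0 → k = 0 ∨ k = 2 := by decide
  have key2 : ∀ j : Fin 4, (j.val : ZMod 2) = 0 → j = 0 ∨ j = 2 := by decide
  have z0 : ((0 : ZMod 4)).val = 0 := rfl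
  have z1 : ((1 : ZMod 4)).val = 1 := rfl
  have z2 : ((2 : ZMod 4)).val = 2 := rfl
  have f0 : ((0 : Fin 4)).val = 0 := rfl
  have f2 : ((2 : Fin 4)).val = 2 := rfl
  have g0 : ((0 : Fin 2)).val = 0 := rfl
  have g1 : ((1 : Fin 2)).val = 1 := rfl
  rcases key1 k hk with rfl | rfl
  · rcases key2 j hj with rfl | rfl
    · refine ⟨0, 0, ?_⟩
      rw [dB, cB, Den4.ph, DDq_empty, z0, f0, g0]
      ring
    · refine ⟨0, 1, ?_⟩
      rw [dB, cB, Den4.ph, DDq_empty, z0, f2, g1]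
      ring
  · rcases key2 j hj with rfl | rfl
    · refine ⟨1, 0, ?_⟩
      rw [dB, cB, Den4.ph, DDq_empty, z1, z2, f0, g0]
      ring
    · refine ⟨1, 1, ?_⟩
      rw [dB, cB, Den4.ph, DDq_empty, z1, z2, f2, g1]
      ring

/-! ### The points -/

theorem dB_ne0 {k : ZMod 4} {j : Fin 4} {S T B : Finset Pg} : dB k j S T B ≠ 0 :=
  C.C9.dB_ne k j S T B

theorem coe_dB_ne {k : ZMod 4} {j : Fin 4} {S T B : Finset Pg} : (dB k j S T B : K4) ≠ 0 := by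
  intro h
  apply dB_ne0 (k := k) (j := j) (S := S) (T := T) (B := B)
  apply RingOfIntegers.ext
  rw [h]
  simp

theorem card_primB {k : ZMod 4} {j : Fin 4} {S T B : Finset Pg} (h : Dj S T B)
    (hns : ¬ SqB k j S T) :
    Nat.card (AddCommGroup.primaryComponent (WD4 (dB k j S T B)).toAffine.Point 2) = 2 := by
  have hD0 : (dB k j S T B : K4) ≠ 0 := coe_dB_ne
  have h1 : C.IsQ (WD4 (dB k j S T B)).toAffine iK (dB k j S T B : K4) := ⟨rfl, iK_sq, hD0⟩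
  exact Tor4.card_prim h1 (C.C9.dB_not_sq h.st hns)

theorem critB {k : ZMod 4} {j : Fin 4} {S T B : Finset Pg} (h : Dj S T B)
    (hns : ¬ SqB k j S T) : GdB k j S T B ↔ Finite (WD4 (dB k j S T B)).toAffine.Point ∧
      Nat.card (ShaP 2 (WD4 (dB k j S T B))) = 1 := by
  have hD0 : (dB k j S T B : K4) ≠ 0 := coe_dB_ne
  constructor
  · intro hG
    have h1 := C.of_selCl4 hD0 iK_sq (C.selB_all h hG) (W := WD4 (dB k j S T B)) rfl
    exact ⟨h1.1, h1.2.2⟩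
  · intro h2
    exact C.gdB_of_sha h hns (W := WD4 (dB k j S T B)) rfl h2.1 h2.2

/-! ### The result -/

/-- **The conjecture of Birch and Swinnerton-Dyer modulo `2`** for every fourth-power-free `D` in
`ℤ[i]`. -/
theorem bsdB (hF : FoB) : ∃ q : 𝓞 K4 → ℚ, (∀ D : 𝓞 K4, FFr D → BSDMod 2 (WD4 D) (q D)) ∧
    ∀ (k : ZMod 4) (j : Fin 4) (S T B : Finset Pg), Dj S T B → ¬ SqB k j S T →
      (¬ (2 : ℤ) ∣ (q (dB k j S T B)).num ↔ GdB k j S T B) := by
  have key : ∀ D : 𝓞 K4, ∃ q : ℚ, (FFr D → BSDMod 2 (WD4 D) q) ∧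
      ∀ (k : ZMod 4) (j : Fin 4) (S T B : Finset Pg), Dj S T B → ¬ SqB k j S T →
        D = dB k j S T B → (¬ (2 : ℤ) ∣ q.num ↔ GdB k j S T B) := by
    intro D
    by_cases hD : FFr D
    swap
    · refine ⟨0, fun h => absurd h hD, fun k j S T B h _ e => ?_⟩
      exact absurd (e ▸ C.FFr_dC h) hD
    obtain ⟨k, j, S, T, B, h, e⟩ := exists_dB hD
    by_cases hs : SqB k j S T
    · obtain ⟨k', j', h1⟩ := dB_sq (B := B) hs
      obtain ⟨q, hq⟩ := bsd5 k' j' B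
      refine ⟨q, fun _ => ?_, fun k₁ j₁ S₁ T₁ B₁ h₁ hns e₁ => ?_⟩
      · rw [e, h1]
        exact hq
      · obtain ⟨rfl, rfl, rfl, rfl, rfl⟩ := dB_inj' h h₁ (e.symm.trans e₁)
        exact absurd hs hns
    · obtain ⟨q, hq1, hq2⟩ := (hF k j S T B h hs).bsd (card_primB h hs) (critB h hs)
      refine ⟨q, fun _ => ?_, fun k₁ j₁ S₁ T₁ B₁ h₁ hns e₁ => ?_⟩
      · rw [e]
        exact hq1
      · obtain ⟨rfl, rfl, rfl, rfl, rfl⟩ := dB_inj' h h₁ (e.symm.trans e₁)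
        exact hq2
  choose q hq1 hq2 using key
  exact ⟨q, hq1, fun k j S T B h hns => hq2 _ k j S T B h hns rfl⟩

end

end Pool.Agent.Lib.MP_1a91b9_ntQ
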