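import Pool.Agent.Lib.MP_1a91b9_ntQ.A.ForB
import Mathlib.Algebra.Polynomial.Inductions

/-!
# Quartic twists, file C2R: the coefficient at `X ^ 2` of `det (NM_T + X diag f)` over a ring of characteristic two

This is A/Alg0.lean over a general commutative ring `R` with `x + x = 0`.
-/

set_option autoImplicit false
set_option linter.unusedSectionVars false

namespace Pool.Agent.Lib.MP_1a91b9_ntQ

open Finset Polynomial
open Pool.Agent.Lib.MP_1a91b9_ntK (NM NM_congr NM_empty NM_adj NM_update NM_zero GF GF_empty forest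
  CZ CZ_eq forest_zero tri_unique)

variable {ι : Type*} [DecidableEq ι] {R : Type*} [CommRing R]

/-- the matrix `NM_T + X diag f` -/
noncomputable def W2 (m : ι → ι → R) (f : ι → R) (T : Finset ι) : Matrix T T R[X] :=
  NM (fun i j => C (m i j)) (fun i => X * C (f i)) T

/-- the coefficient at `X ^ 2` of `det (NM_T + X diag f)` -/
noncomputable def c2R (m : ι → ι → R) (f : ι → R) (T : Finset ι) : R :=
  (W2 m f T).det.coeff 2

theorem W2_eval (m : ι → ι → R) (f : ι → R) (T : Finset ι) :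
    (constantCoeff : R[X] →+* R).mapMatrix (W2 m f T) = NM m 0 T := by
  ext i j
  rw [RingHom.mapMatrix_apply, Matrix.map_apply]
  simp only [W2, NM]
  split_ifs
  · rw [map_add, map_sum]
    simp
  · simp

theorem W2_coeff0 (m : ι → ι → R) (f : ι → R) {T : Finset ι} (hT : T.Nonempty) :
    (W2 m f T).det.coeff 0 = 0 := by
  have h1 := RingHom.map_det (constantCoeff : R[X] →+* R) (W2 m f T)
  rw [W2_eval, NM_zero (κ := 0) m hT (fun _ _ => rfl)] at h1
  exact h1

/-- `(NM_T + X diag f) 1 = X f` -/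
theorem W2_mulVec (m : ι → ι → R) (f : ι → R) (T : Finset ι) :
    (W2 m f T).mulVec (fun _ => 1) = fun i : T => X * C (f i) := by
  have h1 := NM_mulVec_one (fun i j : ι => (C (m i j) : R[X])) T
  have h2 : W2 m f T = NM (fun i j => C (m i j)) 0 T +
      Matrix.diagonal (fun i : T => X * C (f i)) := by
    ext1 i j
    rw [Matrix.add_apply]
    by_cases h : i = j
    · subst h
      simp only [W2, NM, if_true, Pi.zero_apply, zero_add, Matrix.diagonal_apply_eq]
      rw [add_comm]
    · simp only [W2, NM, if_neg h, Matrix.diagonal_apply_ne _ h, add_zero]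
  rw [h2, Matrix.add_mulVec, h1, zero_add]
  ext1 i
  rw [Matrix.mulVec_diagonal, mul_one]

/-- the entries of `adj (NM_T + X diag f) f` are all equal to `det / X` -/
theorem W2_adj (m : ι → ι → R) (f : ι → R) {T : Finset ι} (i : T) :
    ∑ j : T, (W2 m f T).adjugate i j * C (f j) = (W2 m f T).det.divX := by
  have h1 : (W2 m f T).adjugate.mulVec ((W2 m f T).mulVec (fun _ => 1)) =
      fun _ => (W2 m f T).det := by
    rw [Matrix.mulVec_mulVec, Matrix.adjugate_mul, Matrix.smul_mulVec, Matrix.one_mulVec]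
    ext1 j
    rw [Pi.smul_apply, smul_eq_mul, mul_one]
  rw [W2_mulVec] at h1
  have h2 := congrFun h1 i
  simp only [Matrix.mulVec, dotProduct] at h2
  have h3 : X * ∑ j : T, (W2 m f T).adjugate i j * C (f j) = (W2 m f T).det := by
    rw [← h2, mul_sum]
    exact sum_congr rfl fun j _ => by ring
  ext n
  rw [coeff_divX, ← h3, coeff_X_mul]

theorem W2_coeff1 (m : ι → ι → R) (f : ι → R) {T : Finset ι} (hT : T.Nonempty) :
    (W2 m f T).det.coeff 1 = CZ m f T := by
  obtain ⟨i, hi⟩ := hT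
  have h1 := W2_adj m f (⟨i, hi⟩ : T)
  have h2 := congrArg (fun p : R[X] => constantCoeff p) h1
  have hC : ∀ x : R, (constantCoeff : R[X] →+* R) (C x) = x := fun x => by
    rw [constantCoeff_apply, coeff_C_zero]
  simp only [map_sum, map_mul, hC] at h2
  have h3 : ∀ x y : T, constantCoeff ((W2 m f T).adjugate x y) = (NM m 0 T).adjugate x y := by
    intro x y
    have h := RingHom.map_adjugate (constantCoeff : R[X] →+* R) (W2 m f T)
    rw [W2_eval] at h
    rw [← h, RingHom.mapMatrix_apply, Matrix.map_apply]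
  rw [constantCoeff_apply, coeff_divX] at h2
  rw [← h2, CZ]
  refine sum_congr rfl fun j _ => ?_
  rw [h3, adj_row (NM_mulVec_one m T) ⟨i, hi⟩ j j, mul_comm]

theorem HamA_mapR {R' : Type*} [CommRing R'] (φ : R →+* R') (m : ι → ι → R)
    (f : ι → R) (n : ℕ) (S : Finset ι) (i : ι) :
    HamA (fun i j => φ (m i j)) (fun i => φ (f i)) n S i = φ (HamA m f n S i) := by
  induction n generalizing S i with
  | zero => rw [HamA, HamA, map_zero]
  | succ n ih =>
    rw [HamA, HamA, map_add, map_sum]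
    congr 1
    · split_ifs
      · rfl
      · rw [map_zero]
    · exact sum_congr rfl fun j _ => by rw [ih, map_mul]

omit [DecidableEq ι] in
private theorem C2R_prod0 (f c : ι → R) (A : Finset ι) :
    (∏ q ∈ A, (X * C (f q) + C (c q))).coeff 0 = ∏ q ∈ A, c q := by
  rw [coeff_zero_eq_eval_zero, eval_prod]
  refine prod_congr rfl fun q _ => ?_
  simp

private theorem C2R_prod1 (f c : ι → R) (A : Finset ι) :
    (∏ q ∈ A, (X * C (f q) + C (c q))).coeff 1 = ∑ q ∈ A, f q * ∏ p ∈ A.erase q, c p := by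
  induction A using Finset.induction_on with
  | empty => simp [coeff_one]
  | insert q A hq ih =>
    rw [prod_insert hq, mul_coeff_one, ih, C2R_prod0, sum_insert hq, erase_insert hq]
    have h1 : (X * C (f q) + C (c q)).coeff 0 = c q := by simp
    have h2 : (X * C (f q) + C (c q)).coeff 1 = f q := by
      rw [coeff_add, coeff_X_mul, coeff_C_zero, coeff_C_succ, add_zero]
    rw [h1, h2, mul_sum, add_comm]
    congr 1
    refine sum_congr rfl fun p hp => ?_
    have hpq : q ≠ p := fun h => hq (h ▸ hp)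
    rw [erase_insert_of_ne hpq, prod_insert (fun h => hq (mem_of_mem_erase h))]
    ring

/-- **The second order identity over `R`.** -/
theorem c2R_id (hR : ∀ x : R, x + x = 0) (m : ι → ι → R) (b f : ι → R) (J : Finset ι) :
    ∑ T ∈ J.powerset.erase ∅, ((∑ i ∈ T, b i) * c2R m f T) * ∏ q ∈ J \ T, ∑ p ∈ T, m q p =
      ∑ T ∈ J.powerset.erase ∅, ((∑ i ∈ T, b i) * CZ m f T) * ∑ q ∈ J \ T, f q *
        ∏ p ∈ (J \ T).erase q, ∑ r ∈ T, m p r := by
  have hneg : ∀ x : R, -x = x := fun x => neg_eq_of_add_eq_zero_left (hR x)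
  have hneg1 : (-1 : R[X]) = 1 := by
    rw [← C_1, ← C_neg, hneg]
  have h1 := ham_id (fun i j => C (m i j)) (fun i => X * C (f i)) (fun i => C (b i))
    (fun i => C (f i)) J
  have h2 : (((-1 : R[X]) ^ J.card * ∑ i ∈ J, C (b i) *
      Ham (fun i j => C (m i j)) (fun i => C (f i)) J i)).coeff 1 = 0 := by
    rw [hneg1, one_pow, one_mul, finsetSum_coeff]
    refine sum_eq_zero fun i _ => ?_
    rw [Ham, HamA_mapR C m f, ← C_mul, coeff_C_succ]
  rw [← h1, ← add_sum_erase _ _ (empty_mem_powerset J)] at h2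
  have h3 : ∀ T ∈ J.powerset.erase ∅, ((-1 : R[X]) ^ T.card *
      (∑ i : T, ∑ j : T, C (b i) * (NM (fun i j => C (m i j)) (fun i => X * C (f i)) T).adjugate i j *
        C (f j)) * ∏ q ∈ J \ T, (X * C (f q) + ∑ p ∈ T, C (m q p))).coeff 1 =
      ((∑ i ∈ T, b i) * c2R m f T) * ∏ q ∈ J \ T, ∑ p ∈ T, m q p +
        ((∑ i ∈ T, b i) * CZ m f T) * ∑ q ∈ J \ T, f q *
          ∏ p ∈ (J \ T).erase q, ∑ r ∈ T, m p r := by
    intro T hT
    have hT0 : T.Nonempty := nonempty_iff_ne_empty.2 (ne_of_mem_erase hT)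
    have e1 : ∑ i : T, ∑ j : T, C (b i) *
        (NM (fun i j => C (m i j)) (fun i => X * C (f i)) T).adjugate i j * C (f j) =
        C (∑ i ∈ T, b i) * (W2 m f T).det.divX := by
      rw [map_sum, sum_mul, ← sum_coe_sort T (fun i => C (b i) * (W2 m f T).det.divX)]
      refine sum_congr rfl fun i _ => ?_
      rw [← W2_adj m f i, mul_sum]
      exact sum_congr rfl fun j _ => by rw [W2, mul_assoc]
    have e2 : ∀ q, ∑ p ∈ T, C (m q p) = C (∑ p ∈ T, m q p) := fun q => (map_sum C _ _).symm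
    have e3 : ((W2 m f T).det.divX).coeff 0 = CZ m f T := by
      rw [coeff_divX, zero_add, W2_coeff1 m f hT0]
    have e4 : ((W2 m f T).det.divX).coeff 1 = c2R m f T := by
      rw [coeff_divX, c2R]
    rw [e1, hneg1, one_pow, one_mul]
    simp only [e2]
    rw [mul_coeff_one, C2R_prod0 f (fun q => ∑ p ∈ T, m q p),
      C2R_prod1 f (fun q => ∑ p ∈ T, m q p), coeff_C_mul, coeff_C_mul, e3, e4, add_comm]
  have h4 : ((-1 : R[X]) ^ (∅ : Finset ι).card *
      (∑ i : ↥(∅ : Finset ι), ∑ j : ↥(∅ : Finset ι), C (b i) *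
        (NM (fun i j => C (m i j)) (fun i => X * C (f i)) ∅).adjugate i j * C (f j)) *
          ∏ q ∈ J \ ∅, (X * C (f q) + ∑ p ∈ (∅ : Finset ι), C (m q p))).coeff 1 = 0 := by
    simp
  rw [coeff_add, h4, zero_add, finsetSum_coeff, sum_congr rfl h3, sum_add_distrib] at h2
  exact (eq_neg_of_add_eq_zero_left h2).trans (hneg _)

/-- a homomorphism -/
theorem c2R_map {R' : Type*} [CommRing R'] (φ : R →+* R') (m : ι → ι → R) (f : ι → R)
    (T : Finset ι) : c2R (fun i j => φ (m i j)) (fun i => φ (f i)) T = φ (c2R m f T) := by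
  have h1 : W2 (fun i j => φ (m i j)) (fun i => φ (f i)) T =
      (mapRingHom φ).mapMatrix (W2 m f T) := by
    ext1 i j
    rw [RingHom.mapMatrix_apply, Matrix.map_apply]
    simp only [W2, NM]
    split_ifs
    · rw [map_add, map_mul, map_sum]
      simp only [coe_mapRingHom, map_X, map_C]
    · rw [map_neg, coe_mapRingHom, map_C]
  rw [c2R, c2R, h1, ← RingHom.map_det, coe_mapRingHom, coeff_map]

theorem c2R_congr {m m' : ι → ι → R} {f f' : ι → R} {S : Finset ι}
    (h1 : ∀ x ∈ S, ∀ p ∈ S, x ≠ p → m x p = m' x p) (h2 : ∀ x ∈ S, f x = f' x) :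
    c2R m f S = c2R m' f' S := by
  have h3 : W2 m f S = W2 m' f' S := by
    ext1 i j
    by_cases hij : i = j
    · subst hij
      simp only [W2, NM, if_true]
      rw [h2 i i.2]
      congr 1
      exact sum_congr rfl fun p hp => by
        rw [h1 i i.2 p (mem_of_mem_erase hp) (ne_of_mem_erase hp).symm]
    · simp only [W2, NM, if_neg hij]
      rw [h1 i i.2 j j.2 fun h => hij (Subtype.ext h)]
  rw [c2R, c2R, h3]

/-- no second order term if `f = 0` -/
theorem c2R_zero (m : ι → ι → R) {f : ι → R} {S : Finset ι} (h : ∀ x ∈ S, f x = 0) :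
    c2R m f S = 0 := by
  have h1 : W2 m f S = (C : R →+* R[X]).mapMatrix (NM m 0 S) := by
    ext1 i j
    rw [RingHom.mapMatrix_apply, Matrix.map_apply]
    simp only [W2, NM]
    split_ifs
    · rw [map_add, map_sum, h i i.2, C_0, mul_zero, Pi.zero_apply, C_0]
    · rw [map_neg]
  rw [c2R, h1, ← RingHom.map_det, coeff_C_succ]

end Pool.Agent.Lib.MP_1a91b9_ntQ
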