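import Pool.Agent.Lib.MP_1a91b9_ntQ.A.CgE
import Pool.Agent.Lib.MP_1a91b9_ntQ.A.LocO

/-!
# Quartic twists, all `D`, class J2c (`j = 2`, `k` even), file PsJ2c: the values at `1 / lm ^ 5 + Q`

`HS s z = gg z + s gg (z + 1 / 2)`, `s = 1` for `k = 2`, `s = -1` for `k = 0`.
-/

set_option autoImplicit false
set_option linter.unusedSectionVars false

namespace Pool.Agent.Lib.MP_1a91b9_ntQ

open NumberField Pool.Agent.Lib.MP_1a91b9_nuT Pool.Agent.Lib.MP_1a91b9_nuT.S3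
  Pool.Agent.Lib.MP_1a91b9_nuT.Ell

noncomputable section

variable [CD]

/-- the character sum of class J2c divided by `- Om`; `s = 1` for `k = 2`, `s = -1` for `k = 0` -/
def HS (s z : ℂ) : ℂ := gg z + s * gg (z + 1 / 2)

variable [hq : Q4]

theorem HS_add {l : ℂ} (hl : l ∈ PP.lattice) (s z : ℂ) : HS s (z + l) = HS s z := by
  rw [HS, HS, gg_add hl]
  have e : z + l + 1 / 2 = z + 1 / 2 + l := by ring
  rw [e, gg_add hl]

theorem HS_congr {s x y : ℂ} (h : x - y ∈ PP.lattice) : HS s x = HS s y := by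
  have e : x = y + (x - y) := by ring
  rw [e, HS_add h]

theorem HS_sq {s z : ℂ} (hs : s ^ 2 = 1) (hz : 2 * (lm * z) ∉ PP.lattice) :
    HS s z ^ 2 = -4 * (X (lm ^ 2 * z) + s) := by
  have h1 := HH_sq hz
  have h2 := gg_half (two_of hz)
  rw [HH] at h1
  rw [HS]
  linear_combination h1 + (2 * s - 2) * h2 + gg (z + 1 / 2) ^ 2 * hs

theorem lm2_pe5 : lm ^ 2 * pe ^ 5 = pe ^ 3 := by
  have h := lm_mul_pe (hq := hq)
  linear_combination (lm * pe ^ 4 + pe ^ 3) * h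

theorem lm3_pe3_mem : lm ^ 3 * pe ^ 3 ∈ PP.lattice := by
  rw [← mul_pow, lm_mul_pe, one_pow]
  exact one_mem

theorem Od.pe3 {Q : ℂ} (hQ : Od Q) : Od (lm ^ 2 * (pe ^ 5 + Q)) := by
  have h := (hQ.pow 2).add lm3_pe3_mem
  have e : lm ^ 2 * (pe ^ 5 + Q) = lm ^ 2 * Q + pe ^ 3 := by
    linear_combination lm2_pe5 (hq := hq)
  rwa [e]

theorem two_pe3_add : 2 * pe ^ 3 + pe = -zt := by
  rw [pe_eq]
  linear_combination (3 - zt) / 4 * zt_sq

/-- the value of `X` at the paired point -/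
theorem X_pairJ {Q : ℂ} (hQ : Od Q) :
    X (lm ^ 2 * (pe ^ 5 - Q)) * X (lm ^ 2 * (pe ^ 5 + Q)) = -1 := by
  have h1 := X_add_pe hQ.pe3.two
  have e : X (lm ^ 2 * (pe ^ 5 - Q)) = X (lm ^ 2 * (pe ^ 5 + Q) + pe) := by
    rw [← Ell.X_neg (lm ^ 2 * (pe ^ 5 + Q) + pe)]
    refine X_congr ?_
    have e1 : lm ^ 2 * (pe ^ 5 - Q) - -(lm ^ 2 * (pe ^ 5 + Q) + pe) = -zt := by
      linear_combination 2 * lm2_pe5 (hq := hq) + two_pe3_add (hq := hq)
    rw [e1]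
    exact neg_mem zt_mem
  rw [e]
  exact h1

/-! ### Congruences -/

variable {B : ValuationSubring ℂ}

theorem v_two_div (hB : (2 : ℂ)⁻¹ ∉ B) : B.valuation (2 / lm) < 1 := by
  have e : 2 / lm = lm * -zt := by
    rw [div_eq_iff lm_ne]
    linear_combination zt * lm_sq (hq := hq) + 2 * zt_sq
  rw [e]
  exact v_mul_lt (v_lm_lt hB) (v_neg_le v_zt.le)

/-- `X w = 1` -/
theorem Cg_X (hB : (2 : ℂ)⁻¹ ∉ B) {w : ℂ} (hw : Od w) : Cg B (X w) 1 := by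
  refine Cg.of_sub_lt (map_one _).le ?_
  rw [(v_X_sub hB hw).1]
  exact v_lm_lt hB

/-- `(X w - 1) / lm = 1` -/
theorem Cg_X_sub (hB : (2 : ℂ)⁻¹ ∉ B) {w : ℂ} (hw : Od w) : Cg B ((X w - 1) / lm) 1 := by
  refine Cg.of_sub_lt (map_one _).le ?_
  have e : (X w - 1) / lm - 1 = (X w - 1 - lm) / lm := by
    have h := lm_ne (hq := hq)
    field_simp
  rw [e, map_div₀, div_lt_one₀ v_lm_pos]
  exact v_X_al hB hw

/-- `(X w + s) / lm = 1` -/
theorem Cg_X_add (hB : (2 : ℂ)⁻¹ ∉ B) {s w : ℂ} (hs : s ^ 2 = 1) (hw : Od w) :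
    Cg B ((X w + s) / lm) 1 := by
  have e : (X w + s) / lm = (X w - 1) / lm + (1 + s) / lm := by ring
  rw [e]
  refine (Cg_X_sub hB hw).add_lt ?_
  have hs1 : (s - 1) * (s + 1) = 0 := by linear_combination hs
  rcases mul_eq_zero.1 hs1 with h | h
  · have e1 : (1 + s) / lm = 2 / lm := by
      congr 1
      linear_combination h
    rw [e1]
    exact v_two_div hB
  · have e1 : 1 + s = 0 := by linear_combination h
    rw [e1, zero_div, map_zero]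
    exact zero_lt_one

/-- `(X w ^ 2 + 1) / lm ^ 3 = 1` -/
theorem Cg_Xsq (hB : (2 : ℂ)⁻¹ ∉ B) {w : ℂ} (hw : Od w) : Cg B ((X w ^ 2 + 1) / lm ^ 3) 1 := by
  have hl := lm_ne (hq := hq)
  have h2 := lm_sq (hq := hq)
  have e : (X w ^ 2 + 1) / lm ^ 3 = zt * ((X w - 1) / lm) + (X w ^ 2 + 2 * X w - 1) / lm ^ 3 := by
    rw [div_eq_iff (pow_ne_zero 3 hl)]
    field_simp
    linear_combination (-zt * (X w - 1)) * h2 + (-2 * (X w - 1)) * zt_sq
  rw [e]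
  have h3 : Cg B (zt * ((X w - 1) / lm)) 1 := by
    have := (Cg_zt hB).mul (Cg_X_sub hB hw)
    rwa [one_mul] at this
  refine h3.add_lt ?_
  rw [map_div₀, map_pow, div_lt_one₀ (pow_pos v_lm_pos 3)]
  exact v_Xsq_sub hB hw

/-- `(s - i) / lm = 1` -/
theorem Cg_s_zt (hB : (2 : ℂ)⁻¹ ∉ B) {s : ℂ} (hs : s ^ 2 = 1) : Cg B ((s - zt) / lm) 1 := by
  refine Cg.of_sq hB (map_one _).le ?_
  have e : ((s - zt) / lm) ^ 2 = -s := by
    rw [div_pow, lm_sq, div_eq_iff (mul_ne_zero two_ne_zero zt_ne0)]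
    linear_combination hs + zt_sq
  rw [e, one_pow]
  refine Cg.of_sq hB (map_one _).le ?_
  have e1 : (-s) ^ 2 = 1 := by linear_combination hs
  rw [e1, one_pow]
  exact Cg.refl (map_one _).le

/-! ### The values -/

theorem HS_base_sq {s : ℂ} (hs : s ^ 2 = 1) : HS s (pe ^ 5) ^ 2 = -4 * (s - zt) := by
  have h : 2 * (lm * pe ^ 5) ∉ PP.lattice := by
    have e : 2 * (lm * pe ^ 5) = 2 * pe ^ 4 := by
      linear_combination 2 * pe ^ 4 * lm_mul_pe (hq := hq)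
    rw [e]
    exact two_pe4_notMem
  rw [HS_sq hs h, lm2_pe5, X_pe3]
  ring

theorem s_sub_zt_ne {s : ℂ} (hs : s ^ 2 = 1) : s - zt ≠ 0 := by
  intro h
  have e : s = zt := by linear_combination h
  rw [e, zt_sq] at hs
  norm_num at hs

theorem HS_base_ne {s : ℂ} (hs : s ^ 2 = 1) : HS s (pe ^ 5) ≠ 0 := by
  intro h
  have h1 := HS_base_sq hs
  rw [h] at h1
  apply s_sub_zt_ne hs
  linear_combination (1 / 4) * h1

/-- the values have the size of the base value -/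
theorem Cg_HS (hB : (2 : ℂ)⁻¹ ∉ B) {s Q : ℂ} (hs : s ^ 2 = 1) (hQ : Od Q) :
    Cg B (HS s (pe ^ 5 + Q) / HS s (pe ^ 5)) 1 := by
  refine Cg.of_sq hB (map_one _).le ?_
  have hz : 2 * (lm * (pe ^ 5 + Q)) ∉ PP.lattice := two_lm_of hQ.pe3.two
  have hl := lm_ne (hq := hq)
  have h0 := s_sub_zt_ne hs
  have e : (HS s (pe ^ 5 + Q) / HS s (pe ^ 5)) ^ 2 =
      ((X (lm ^ 2 * (pe ^ 5 + Q)) + s) / lm) * ((s - zt) / lm)⁻¹ := by
    rw [div_pow, HS_sq hs hz, HS_base_sq hs]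
    field_simp
  rw [e, one_pow]
  have := (Cg_X_add hB hs hQ.pe3).mul (Cg_s_zt hB hs).inv
  rwa [one_mul] at this

/-- **The pairing.** -/
theorem Cg_HS_pair (hB : (2 : ℂ)⁻¹ ∉ B) {s Q : ℂ} (hs : s ^ 2 = 1) (hQ : Od Q) :
    Cg B ((HS s (pe ^ 5 + Q) + HS s (pe ^ 5 - Q)) / (lm * HS s (pe ^ 5))) 1 := by
  have hl := lm_ne (hq := hq)
  have hK := HS_base_ne hs
  have c1 := Cg_HS hB hs hQ
  have hV : HS s (pe ^ 5 + Q) ≠ 0 := by
    intro h
    have h1 := c1.unit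
    rw [h, zero_div, map_zero] at h1
    exact zero_ne_one h1
  have hz : 2 * (lm * (pe ^ 5 + Q)) ∉ PP.lattice := two_lm_of hQ.pe3.two
  have hz' : 2 * (lm * (pe ^ 5 - Q)) ∉ PP.lattice := by
    have h := two_lm_of hQ.neg.pe3.two
    rwa [← sub_eq_add_neg] at h
  obtain ⟨q, hq'⟩ : ∃ q, q = X (lm ^ 2 * (pe ^ 5 + Q)) := ⟨_, rfl⟩
  obtain ⟨q', hq''⟩ : ∃ q, q = X (lm ^ 2 * (pe ^ 5 - Q)) := ⟨_, rfl⟩
  have h1 := HS_sq hs hz
  have h2 := HS_sq hs hz'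
  have h3 := X_pairJ hQ
  have c2 := Cg_X hB hQ.pe3
  have c3 := Cg_X_add hB hs hQ.pe3
  have c4 := Cg_Xsq hB hQ.pe3
  rw [← hq'] at h1 h3 c2 c3 c4
  rw [← hq''] at h2 h3
  obtain ⟨V, hV'⟩ : ∃ V, V = HS s (pe ^ 5 + Q) := ⟨_, rfl⟩
  obtain ⟨W, hW⟩ : ∃ W, W = HS s (pe ^ 5 - Q) := ⟨_, rfl⟩
  rw [← hV'] at h1 c1 hV ⊢
  rw [← hW] at h2 ⊢
  -- `t = (W / V - 1) / lm`
  obtain ⟨t, ht⟩ : ∃ t, t = (W / V - 1) / lm := ⟨_, rfl⟩
  have hW1 : W = V * (1 + lm * t) := by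
    rw [ht]
    field_simp
    ring
  have hX : q * (q + s) ≠ 0 := by
    intro h
    have h4 := c2.mul c3
    rw [one_mul] at h4
    have h5 := h4.unit
    rw [← mul_div_assoc, h, zero_div, map_zero] at h5
    exact zero_ne_one h5
  have e1 : t ^ 2 = -(((q ^ 2 + 1) / lm ^ 3) * (q * ((q + s) / lm))⁻¹) + -(2 / lm) * t := by
    have e2 : (1 + lm * t) ^ 2 * (q * (q + s)) = s * q - 1 := by
      have e3 : V ^ 2 * ((1 + lm * t) ^ 2 * (q * (q + s))) = V ^ 2 * (s * q - 1) := by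
        have e4 : V ^ 2 * (1 + lm * t) ^ 2 = W ^ 2 := by
          rw [hW1]
          ring
        linear_combination (q * (q + s)) * e4 + (q * (q + s)) * h2 - (s * q - 1) * h1 -
          4 * (q + s) * h3
      exact mul_left_cancel₀ (pow_ne_zero 2 hV) e3
    have hq0 : q ≠ 0 := left_ne_zero_of_mul hX
    have hs0 : q + s ≠ 0 := right_ne_zero_of_mul hX
    field_simp
    linear_combination e2
  have c5 : Cg B (-(((q ^ 2 + 1) / lm ^ 3) * (q * ((q + s) / lm))⁻¹)) 1 := by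
    have c6 : Cg B (q * ((q + s) / lm)) 1 := by
      have := c2.mul c3
      rwa [one_mul] at this
    have c7 := (Cg_neg_one hB).mul (c4.mul c6.inv)
    rwa [neg_one_mul, one_mul, one_mul] at c7
  have c6 : Cg B t 1 := by
    refine Cg.of_sq hB (map_one _).le ?_
    rw [one_pow]
    refine Cg.quad e1 ?_ c5
    rw [Valuation.map_neg]
    exact v_two_div hB
  have e5 : (V + W) / (lm * HS s (pe ^ 5)) = V / HS s (pe ^ 5) * (t + 2 / lm) := by
    rw [hW1]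
    field_simp
    ring
  rw [e5]
  have := c1.mul (c6.add_lt (v_two_div hB))
  rwa [one_mul] at this

end

end Pool.Agent.Lib.MP_1a91b9_ntQ
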