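import Pool.Agent.Lib.MP_1a91b9_ntQ.A.EV
import Pool.Agent.Lib.MP_1a91b9_ntQ.A.Pair4
import Pool.Agent.Lib.MP_1a91b9_ntQ.B.PsJ2c

/-!
# Quartic twists, all `D`, class J2a (`j = 2`, `k` odd), file PsJ2a: the values at `1 / 8 + Q`

`PO io t = HH t + io HH (t + pe ^ 3)`, `io ^ 2 = -1`; the pair of `t` is `1 / 4 - t`.
-/

set_option autoImplicit false
set_option linter.unusedSectionVars false

namespace Pool.Agent.Lib.MP_1a91b9_ntQ

open NumberField Pool.Agent.Lib.MP_1a91b9_nuT Pool.Agent.Lib.MP_1a91b9_nuT.S3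
  Pool.Agent.Lib.MP_1a91b9_nuT.Ell

noncomputable section

variable [CD] [hq : Q4]

/-! ### The exact relations -/

/-- the paired value -/
theorem PO_pairJ {io t : ℂ} (hio : io ^ 2 = -1) (ht : 2 * (lm ^ 2 * t) ∉ PP.lattice) :
    PO io (1 / 4 - t) * (s8 * gg (lm ^ 2 * t)) = -(sq2 * io) * PO io t := by
  have hp := pe4_eq (hq := hq)
  have e1 : HH (1 / 4 - t) = -HH (t + pe ^ 4) := by
    rw [← HH_neg]
    congr 1
    rw [hp]
    ring
  have e2 : HH (1 / 4 - t + pe ^ 3) = HH (t + pe ^ 3 + pe ^ 4) := by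
    have h1 : HH (1 / 4 - t + pe ^ 3) = -HH (t + pe ^ 4 - pe ^ 3) := by
      rw [← HH_neg]
      congr 1
      rw [hp]
      ring
    have h2 := HH_pe3 (t + pe ^ 4 - pe ^ 3)
    have e : t + pe ^ 4 - pe ^ 3 + pe ^ 3 + pe ^ 3 = t + pe ^ 3 + pe ^ 4 := by ring
    rw [e] at h2
    rw [h1, h2]
  have a1 := HH_pe4 ht
  have a2 := HH_pe4 (two_lm2_add ht)
  have a3 := HH_mul_HH ht
  rw [PO, PO, e1, e2]
  linear_combination (-(HH (t + pe ^ 4)) / 4 + io * HH (t + pe ^ 3 + pe ^ 4) / 4) * -a3 +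
    (-(HH (t + pe ^ 3)) / 4) * a1 + (io * HH t / 4) * a2 + sq2 * HH (t + pe ^ 3) * hio

/-- the square of the value -/
theorem PO_sqJ {io t : ℂ} (hio : io ^ 2 = -1) (ht : 2 * (lm ^ 2 * t) ∉ PP.lattice) :
    X (lm ^ 2 * t) * PO io t ^ 2 = -4 * (X (lm ^ 2 * t) ^ 2 + 1) +
      8 * io * X (lm ^ 2 * t) * (s8 * gg (lm ^ 2 * t)) := by
  have a1 := HH_sq (two_lm_of ht)
  have a2 := HH_sq' ht
  have a3 := HH_mul_HH ht
  rw [PO]
  linear_combination X (lm ^ 2 * t) * a1 + io ^ 2 * a2 + 2 * io * X (lm ^ 2 * t) * a3 +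
    (-4 * (X (lm ^ 2 * t) - 1)) * hio

/-- the fourth power of the value -/
theorem PO_fourJ {io t : ℂ} (hio : io ^ 2 = -1) (ht : 2 * (lm ^ 2 * t) ∉ PP.lattice) :
    PO io t ^ 4 = 64 * (X (lm ^ 3 * t) - zt) ^ 2 -
      8 * ((X (lm ^ 2 * t) ^ 2 + 1) / X (lm ^ 2 * t)) * PO io t ^ 2 := by
  have hx := X_ne ht
  have a1 := PO_sqJ hio ht
  have a2 := gg_sq_mul ht
  have a3 := X_lm ht
  have a4 := s8_sq (hq := hq)
  have e : lm * (lm ^ 2 * t) = lm ^ 3 * t := by ring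
  rw [e] at a3
  have e2 : 8 * ((X (lm ^ 2 * t) ^ 2 + 1) / X (lm ^ 2 * t)) * PO io t ^ 2 =
      8 * (X (lm ^ 2 * t) ^ 2 + 1) * PO io t ^ 2 / X (lm ^ 2 * t) := by ring
  rw [e2, eq_sub_iff_add_eq, ← eq_sub_iff_add_eq', div_eq_iff hx]
  obtain ⟨x, hxx⟩ : ∃ x, x = X (lm ^ 2 * t) := ⟨_, rfl⟩
  obtain ⟨y, hy⟩ : ∃ y, y = X (lm ^ 3 * t) := ⟨_, rfl⟩
  obtain ⟨g, hg⟩ : ∃ g, g = gg (lm ^ 2 * t) := ⟨_, rfl⟩
  obtain ⟨G, hG⟩ : ∃ G, G = PO io t := ⟨_, rfl⟩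
  rw [← hxx] at hx a1 a2 a3 ⊢
  rw [← hy] at a3 ⊢
  rw [← hg] at a1 a2
  rw [← hG] at a1 ⊢
  apply mul_left_cancel₀ hx
  have b1 : x ^ 2 + 2 * x - 1 = 2 * zt * x * (y - zt) := by
    linear_combination -a3 + 2 * x * zt_sq
  have b2 : (x * G ^ 2 + 4 * (x ^ 2 + 1)) ^ 2 = -(64 * x * (x ^ 2 - 1)) := by
    linear_combination (x * G ^ 2 + 4 * (x ^ 2 + 1) + 8 * io * x * (s8 * g)) * a1 +
      64 * x ^ 2 * s8 ^ 2 * g ^ 2 * hio - 64 * x ^ 2 * g ^ 2 * a4 - 64 * x * a2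
  linear_combination b2 - 16 * (x ^ 2 + 2 * x - 1 + 2 * zt * x * (y - zt)) * b1 -
    64 * x ^ 2 * (y - zt) ^ 2 * zt_sq

/-- the square of the quotient -/
theorem gg_sqJ {t : ℂ} (ht : 2 * (lm ^ 2 * t) ∉ PP.lattice) :
    (s8 * gg (lm ^ 2 * t)) ^ 2 = 2 * zt * X (lm ^ 3 * t) := by
  have a1 := gg_sq ht
  have a2 := s8_sq (hq := hq)
  have e : lm * (lm ^ 2 * t) = lm ^ 3 * t := by ring
  rw [e] at a1
  linear_combination s8 ^ 2 * a1 + 2 * zt * X (lm ^ 3 * t) * a2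

/-! ### Congruences -/

variable {B : ValuationSubring ℂ}

/-- the distance of `X w` and `i` -/
theorem Cg_dl (hB : (2 : ℂ)⁻¹ ∉ B) {w : ℂ} (hw : Od w) : Cg B ((X w - zt) / wq ^ 6) 1 := by
  have hw0 := wq_ne (hq := hq)
  refine Cg.of_sq hB (map_one _).le ?_
  rw [one_pow]
  have e1 : ((X w - zt) / wq ^ 6) ^ 2 = (X w ^ 2 + 1) / lm ^ 3 +
      -wq ^ 2 * ((X w - zt) / wq ^ 6) := by
    have h1 := two_wq (hq := hq)
    have h2 := wq_pow (hq := hq)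
    have h3 : lm ^ 3 = wq ^ 12 := by
      rw [← h2]
      ring
    rw [h3]
    field_simp
    linear_combination (-zt * (X w - zt)) * h1 + (wq ^ 8 * (X w - zt) - 1) * zt_sq
  refine Cg.quad e1 ?_ (Cg_Xsq hB hw)
  rw [Valuation.map_neg]
  exact v_wq_pow_lt hB two_ne_zero

/-- **The size of the value.** -/
theorem Cg_POJ (hB : (2 : ℂ)⁻¹ ∉ B) {io t : ℂ} (hio : io ^ 2 = -1) (hw : Od (lm ^ 2 * t)) :
    Cg B (PO io t / wq ^ 15) 1 := by
  have hw0 := wq_ne (hq := hq)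
  have hw3 : Od (lm ^ 3 * t) := by
    have h := hw.mul_lm
    rwa [show lm * (lm ^ 2 * t) = lm ^ 3 * t by ring] at h
  have hx := X_ne hw.two
  have c1 := Cg_dl hB hw3
  have c2 := Cg_X hB hw
  have c3 := Cg_Xsq hB hw
  refine Cg.of_sq hB (map_one _).le ?_
  rw [one_pow]
  refine Cg.of_sq hB (map_one _).le ?_
  rw [one_pow]
  have e1 : ((PO io t / wq ^ 15) ^ 2) ^ 2 = -((X (lm ^ 3 * t) - zt) / wq ^ 6) ^ 2 +
      (-(zt * ((X (lm ^ 2 * t) ^ 2 + 1) / lm ^ 3 * (X (lm ^ 2 * t))⁻¹) * wq ^ 6)) *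
        (PO io t / wq ^ 15) ^ 2 := by
    have h1 := two_wq (hq := hq)
    have h2 := wq_pow (hq := hq)
    have h3 : lm ^ 3 = wq ^ 12 := by
      rw [← h2]
      ring
    have h4 := PO_fourJ hio hw.two
    have h8 : (8 : ℂ) = wq ^ 24 * zt := by
      have e : (8 : ℂ) = 2 * 2 * 2 := by norm_num
      rw [e, h1]
      linear_combination (-wq ^ 24 * zt) * zt_sq
    have h64 : (64 : ℂ) = -wq ^ 48 := by
      have e : (64 : ℂ) = 8 * 8 := by norm_num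
      rw [e, h8]
      linear_combination wq ^ 48 * zt_sq
    rw [h8, h64] at h4
    have e5 : ((PO io t / wq ^ 15) ^ 2) ^ 2 = PO io t ^ 4 / wq ^ 60 := by
      rw [← pow_mul, div_pow, ← pow_mul]
    rw [e5, h4, h3]
    field_simp
    ring
  refine Cg.quad e1 ?_ ?_
  · rw [Valuation.map_neg]
    refine v_mul_lt' ?_ (v_wq_pow_lt hB (by norm_num))
    exact v_mul_le v_zt.le (v_mul_le c3.le c2.inv.le)
  · have c4 := (c1.pow 2).neg
    rw [one_pow] at c4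
    exact c4.trans (Cg_neg_one hB)

/-- **The pair.** -/
theorem Cg_POJ_pair (hB : (2 : ℂ)⁻¹ ∉ B) {io t : ℂ} (hio : io ^ 2 = -1) (hw : Od (lm ^ 2 * t)) :
    Cg B ((PO io t + PO io (1 / 4 - t)) / wq ^ 18) 1 := by
  have hw0 := wq_ne (hq := hq)
  have hw3 : Od (lm ^ 3 * t) := by
    have h := hw.mul_lm
    rwa [show lm * (lm ^ 2 * t) = lm ^ 3 * t by ring] at h
  have hy := X_ne hw3.two
  have c1 := Cg_dl hB hw3
  have c2 := Cg_X hB hw3
  have c3 := Cg_POJ hB hio hw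
  have hG : PO io t ≠ 0 := by
    intro h
    have h1 := c3.unit
    rw [h, zero_div, map_zero] at h1
    exact zero_ne_one h1
  obtain ⟨r, hr⟩ : ∃ r, r = PO io (1 / 4 - t) / PO io t := ⟨_, rfl⟩
  have hr1 : r * (s8 * gg (lm ^ 2 * t)) = -(sq2 * io) := by
    rw [hr, div_mul_eq_mul_div, PO_pairJ hio hw.two, mul_div_assoc, div_self hG, mul_one]
  have hr2 : r ^ 2 * X (lm ^ 3 * t) = zt := by
    have a1 := gg_sqJ hw.two
    have a2 := sq2_sq (hq := hq)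
    have a3 : (r * (s8 * gg (lm ^ 2 * t))) ^ 2 = -2 := by
      rw [hr1]
      linear_combination io ^ 2 * a2 + 2 * hio
    have a4 : r ^ 2 * (2 * zt * X (lm ^ 3 * t)) = -2 := by
      rw [← a1, ← mul_pow]
      exact a3
    have h2 := zt_ne0
    linear_combination (-zt / 2) * a4 + r ^ 2 * X (lm ^ 3 * t) * zt_sq
  -- the sum
  have c5 : Cg B ((1 + r) / wq ^ 3) 1 := by
    refine Cg.of_sq hB (map_one _).le ?_
    rw [one_pow]
    have e1 : ((1 + r) / wq ^ 3) ^ 2 = -((X (lm ^ 3 * t) - zt) / wq ^ 6 * (X (lm ^ 3 * t))⁻¹) +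
        (wq ^ 5 * -zt) * ((1 + r) / wq ^ 3) := by
      have h1 := two_wq (hq := hq)
      have h5 : r ^ 2 = zt / X (lm ^ 3 * t) := by
        rw [eq_div_iff hy]
        exact hr2
      have h6 : (1 + r) ^ 2 = 2 * (1 + r) - (X (lm ^ 3 * t) - zt) / X (lm ^ 3 * t) := by
        have e : (1 + r) ^ 2 = 2 * (1 + r) - 1 + r ^ 2 := by ring
        rw [e, h5, sub_div, div_self hy]
        ring
      rw [div_pow, h6]
      have e2 : (2 : ℂ) * (1 + r) = wq ^ 8 * -zt * (1 + r) := by rw [← h1]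
      rw [e2]
      field_simp
      ring
    refine Cg.quad e1 ?_ ?_
    · exact v_mul_lt (v_wq_pow_lt hB (by norm_num)) (v_neg_le v_zt.le)
    · have c6 := (c1.mul c2.inv).neg
      rw [one_mul] at c6
      exact c6.trans (Cg_neg_one hB)
  have e : (PO io t + PO io (1 / 4 - t)) / wq ^ 18 = PO io t / wq ^ 15 * ((1 + r) / wq ^ 3) := by
    rw [hr]
    field_simp
  rw [e]
  have := c3.mul c5
  rwa [one_mul] at this

/-! ### The value for the empty set -/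

theorem s8_gg_pe4 : s8 * gg (pe ^ 4) = sq2 := by
  have h1 := gg_mul two_pe3_notMem
  rw [X_pe3, yh_pe3] at h1
  have h2 : 2 * (lm * pe ^ 4) ∉ PP.lattice := by
    have e : lm * pe ^ 4 = pe ^ 3 := by
      linear_combination pe ^ 3 * lm_mul_pe (hq := hq)
    rw [e]
    exact two_pe3_notMem
  have h3 := gg_lm h2
  have e : lm * pe ^ 4 = pe ^ 3 := by
    linear_combination pe ^ 3 * lm_mul_pe (hq := hq)
  rw [e] at h3
  have h4 := X_pe4 (hq := hq)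
  have h5 := sq2_mul (hq := hq)
  have h6 := s8_sq (hq := hq)
  have h7 := lm_sq (hq := hq)
  have hX := X_pe4_ne (hq := hq)
  apply mul_right_cancel₀ hX
  -- `gg (pe ^ 3) = - i s8 lm`
  have a1 : gg (pe ^ 3) = -zt * (s8 * lm) := by
    linear_combination (-zt) * -h1 + gg (pe ^ 3) * zt_sq
  rw [a1] at h3
  linear_combination (1 / 2) * h3 + (1 / 2) * h4 - h5 + (zt * s8 * gg (pe ^ 4) * X (pe ^ 4) / 2) * h7 -
    (-s8 * gg (pe ^ 4) * X (pe ^ 4)) * zt_sq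

theorem eighth_notMem : 2 * (lm ^ 2 * (1 / 8)) ∉ PP.lattice := by
  intro h
  apply half_notMem'
  have h1 := zt_mul_mem h
  have e : -(zt * (2 * (lm ^ 2 * (1 / 8)))) = 1 / 2 := by
    rw [lm_sq]
    linear_combination (-1 / 2) * zt_sq
  rw [← e]
  exact neg_mem h1

/-- **The value at `1 / 8`.** -/
theorem PO_baseJ {io : ℂ} (hio : io ^ 2 = -1) : PO io (1 / 8) ^ 2 = 8 * sq2 * (1 + io * zt) := by
  have h1 := PO_sqJ hio eighth_notMem
  have e : lm ^ 2 * (1 / 8) = zt * -pe ^ 4 := by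
    rw [lm_sq, pe4_eq]
    ring
  have h2 : X (lm ^ 2 * (1 / 8)) = -X (pe ^ 4) := by
    rw [e, X_i, Ell.X_neg]
    intro h
    have h3 := neg_mem (two_mem h)
    rw [← mul_neg, neg_neg] at h3
    exact two_pe4_notMem h3
  have h3 : gg (lm ^ 2 * (1 / 8)) = zt * gg (pe ^ 4) := by
    rw [e, gg_i (by rw [mul_neg]; exact fun h => two_pe4_notMem (by simpa using neg_mem h)), gg_neg]
    ring
  have h4 := s8_gg_pe4 (hq := hq)
  have h5 := sq2_mul (hq := hq)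
  have h6 := X_pe4 (hq := hq)
  have hX := X_pe4_ne (hq := hq)
  rw [h2, h3] at h1
  apply mul_left_cancel₀ hX
  linear_combination -h1 + 4 * h6 + 8 * io * X (pe ^ 4) * zt * h4 + (-8) * h5

theorem PO_baseJ_zero : PO zt (1 / 8) = 0 := by
  have h := PO_baseJ (hq := hq) zt_sq
  have e : (8 : ℂ) * sq2 * (1 + zt * zt) = 0 := by
    linear_combination 8 * sq2 * zt_sq
  rw [e] at h
  exact pow_eq_zero_iff two_ne_zero |>.1 h

theorem Cg_baseJ (hB : (2 : ℂ)⁻¹ ∉ B) : Cg B (PO (-zt) (1 / 8) / wq ^ 18) 1 := by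
  have hio : (-zt) ^ 2 = -1 := by
    rw [neg_sq]
    exact zt_sq
  have h := PO_baseJ (hq := hq) hio
  refine Cg.of_sq hB (map_one _).le ?_
  rw [one_pow]
  have e : (PO (-zt) (1 / 8) / wq ^ 18) ^ 2 = sq2 / lm := by
    have h1 := wq_pow (hq := hq)
    have h2 := lm_four (hq := hq)
    have hl := lm_ne (hq := hq)
    have e1 : wq ^ 36 = 16 * lm := by
      have e2 : wq ^ 36 = (lm ^ 4) ^ 2 * lm := by
        rw [← h1]
        ring
      rw [e2, h2]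
      ring
    rw [div_pow, h, ← pow_mul, e1, div_eq_div_iff (mul_ne_zero (by norm_num) hl) hl]
    linear_combination (-8 * sq2 * lm) * zt_sq
  rw [e]
  exact Cg_s hB sq2_sq

end

end Pool.Agent.Lib.MP_1a91b9_ntQ
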