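import Pool.Agent.Lib.MP_1a91b9_ntQ.A.RhsE
import Pool.Agent.Lib.MP_1a91b9_ntQ.B.AvgB
import Pool.Agent.Lib.MP_1a91b9_ntQ.B.WtB
import Pool.Agent.Lib.MP_1a91b9_ntQ.B.PsJ2a

/-!
# Quartic twists, all `D`, class J2a (`j = 2`, `k` odd), file RhsJ2a: the residue of the right side
-/

set_option autoImplicit false

namespace Pool.Agent.Lib.MP_1a91b9_ntQ

open NumberField Pool.Agent.Lib.MP_1a91b9_nuT Pool.Agent.Lib.MP_1a91b9_nuT.S3
  Pool.Agent.Lib.MP_1a91b9_nuT.Ell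

noncomputable section

variable {B : ValuationSubring ℂ}

/-! ### A half of the system of the primitive classes -/

section half
variable {S : Finset Pg} {ι : Type} {y : ι → 𝓞 K} {sg : ι → ι} {P : ι → Prop}

theorem half_nd (hy : RepsG 1 (DDq S) y) (i : {i // P i}) (q : Pg) (hq : q ∈ S) :
    ¬ q.1 ∣ y i := not_dvd_of_cop hq (hy.cop i)

theorem half_ex (hy : RepsG 1 (DDq S) y) (h1 : ∀ i, sg (sg i) = i)
    (h3 : ∀ i, DDq S ∣ y i + y (sg i)) (hP : ∀ i, P i ↔ ¬ P (sg i)) (a : 𝓞 K)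
    (ha : IsCoprime a (DDq S)) : ∃ i : {i // P i}, DDq S ∣ a - y i ∨ DDq S ∣ a + y i := by
  obtain ⟨i, hi⟩ := hy.ex a ha (one_dvd _)
  by_cases h : P i
  · exact ⟨⟨i, h⟩, Or.inl hi⟩
  · have h' : P (sg i) := by
      have h2 := hP (sg i)
      rw [h1] at h2
      exact h2.2 h
    refine ⟨⟨sg i, h'⟩, Or.inr ?_⟩
    have h4 := dvd_add hi (h3 i)
    have e : a - y i + (y i + y (sg i)) = a + y (sg i) := by ring
    rwa [e] at h4

theorem half_inj (hy : RepsG 1 (DDq S) y) (h3 : ∀ i, DDq S ∣ y i + y (sg i))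
    (hP : ∀ i, P i ↔ ¬ P (sg i)) (i j : {i // P i})
    (h : DDq S ∣ y i - y j ∨ DDq S ∣ y i + y j) : i = j := by
  rcases h with h | h
  · exact Subtype.ext (hy.inj _ _ h)
  · exfalso
    have h2 : DDq S ∣ y j - y (sg i) := by
      have h3 := dvd_sub h (h3 i)
      have e : y i + y j - (y i + y (sg i)) = y j - y (sg i) := by ring
      rwa [e] at h3
    have h4 := hy.inj _ _ h2
    have h5 := (hP i).1 i.2
    rw [← h4] at h5
    exact h5 j.2

end half

/-- **The number of the pairs with weight one.** -/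
theorem half_sum (hB : (2 : ℂ)⁻¹ ∉ B) {S : Finset Pg} (hS : S.Nonempty) {ι : Type} [Fintype ι]
    {y : ι → 𝓞 K} {sg : ι → ι} {P : ι → Prop} [DecidablePred P] (hy : RepsG 1 (DDq S) y)
    (h1 : ∀ i, sg (sg i) = i) (h3 : ∀ i, DDq S ∣ y i + y (sg i)) (hP : ∀ i, P i ↔ ¬ P (sg i))
    {f : 𝓞 K} (hf : IsCoprime f (DDq S)) {W : ι → ℂ}
    (hW : ∀ i, Rt B (W i) (∏ q ∈ S, c2 q (f * y i))) :
    Rt B (∑ i : {i // P i}, W i) (if S.card = 1 then ∑ q ∈ S, aa q.1 else 0) := by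
  refine (b1_fin (κ := {i // P i}) hB hS (y := fun i => y i) (half_nd hy)
    (half_ex hy h1 h3 hP) (half_inj hy h3 hP) (fun q => c2 q f) (W := fun i => W i) fun i => ?_).2
  have h4 : ∏ q ∈ S, c2 q (f * y i) = ∏ q ∈ S, (c2 q (y i) + c2 q f) := by
    refine Finset.prod_congr rfl fun q hq => ?_
    rw [c2_mul q (not_dvd_of_cop hq hf) (half_nd hy i q hq), add_comm]
  rw [← h4]
  exact hW i

/-! ### The points -/

theorem pe6_eq : pe ^ 6 = zt / 8 := by
  have h4 := lm_four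
  have h5 : lm ^ 6 = -8 * zt := by
    have e : lm ^ 6 = lm ^ 4 * lm ^ 2 := by ring
    rw [e, h4, lm_sq]
    ring
  rw [pe, inv_pow, h5]
  have h6 := zt_ne0
  field_simp
  linear_combination (-1) * zt_sq

/-- the value of the class -/
theorem UB_J2a {k : ZMod 4} (hk : ¬ (k = 0 ∨ k = 2)) (R : ℂ) :
    UB k 2 ((em (fB k 2))⁻¹ + R) = zt * Om * PO (e4 (-k)) (1 / 8 - zt * R) := by
  have h0 : -k ≠ 0 := fun h => hk (Or.inl (neg_eq_zero.1 h))
  have h2 : -k ≠ 2 := by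
    intro h
    apply hk
    right
    rw [← neg_neg k, h]
    rfl
  have e1 : (em (fB k 2))⁻¹ = pe ^ 6 := by
    rw [fB_two_odd hk, em_pow, em_lam, pe, inv_pow]
  have e2 : -zt * (pe ^ 6 + R) = 1 / 8 - zt * R := by
    rw [pe6_eq]
    linear_combination (-1 / 8) * zt_sq
  rw [UB_two_odd hk, e1, e2, Ph4_odd h0 h2, PO]
  ring

theorem e4_odd_sq' {k : ZMod 4} (hk : ¬ (k = 0 ∨ k = 2)) : e4 (-k) ^ 2 = -1 := by
  refine e4_odd_sq ?_
  have key : ∀ k : ZMod 4, ¬ (k = 0 ∨ k = 2) → md (-k) ≠ 0 := by decide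
  exact key k hk

theorem od_J2a {R : ℂ} (hR : Od R) : Od (lm ^ 2 * (1 / 8 - zt * R)) := by
  have h1 : lm ^ 4 * (lm ^ 2 * (1 / 8)) ∈ PP.lattice := by
    have e : lm ^ 4 * (lm ^ 2 * (1 / 8)) = -zt := by
      rw [lm_four, lm_sq]
      ring
    rw [e]
    exact neg_mem zt_mem
  have h2 := ((hR.pow 2).zt_mul.neg).add h1
  have e : -(zt * (lm ^ 2 * R)) + lm ^ 2 * (1 / 8) = lm ^ 2 * (1 / 8 - zt * R) := by ring
  rwa [e] at h2

theorem PO_congr' {l : ℂ} (hl : l ∈ PP.lattice) (c z : ℂ) : PO c (z + l) = PO c z := PO_add hl c z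

/-! ### The right side -/

/-- **The right side of class J2a.** -/
theorem rhsJ2a (hB : (2 : ℂ)⁻¹ ∉ B) {k : ZMod 4} (hk : ¬ (k = 0 ∨ k = 2)) {e : Pg → ZMod 4}
    {S : Finset Pg} (he : ∀ q ∈ S, e q ≠ 0) (hS : S.Nonempty) :
    Rt B ((∑ T ∈ S.powerset, (-1) ^ T.card * (LaB k 2 e T *
        ∏ q ∈ S \ T, (em q.1 - XB k 2 e T q.1))) / (Om * wq ^ 18 * lm ^ mB e S))
      (if S.card = 1 then ∑ q ∈ S, aa q.1 else 0) := by
  classical
  obtain ⟨ι, hι, y, sg, hy, h1, h2, h3, hod, -⟩ := exists_repsB hS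
  rw [avgB k 2 e S hy]
  obtain ⟨P, hP⟩ := RhsE_half h1 h2
  have hD0 : em (DDq S) ≠ 0 := em_ne (DDq_in4 S).ne_zero
  have hq0 := wq_ne
  have hl0 := lm_ne
  have hO := Om_ne_zero
  have hio := e4_odd_sq' hk
  have hf := cop_fB_DDq k 2 S
  have ndf : ∀ i, ∀ q ∈ S, ¬ q.1 ∣ fB k 2 * y i := fun i q hq =>
    not_dvd_of_cop hq (hf.mul_left (hy.cop i))
  -- the values
  obtain ⟨G, hG⟩ : ∃ G : ι → ℂ, G = fun i =>
    PO (e4 (-k)) (1 / 8 - zt * (em (y i) / em (DDq S))) := ⟨_, rfl⟩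
  have hU : ∀ i, UB k 2 ((em (fB k 2))⁻¹ + em (y i) / em (DDq S)) = zt * Om * G i := fun i => by
    rw [UB_J2a hk, hG]
  have hG1 : ∀ i, Cg B (G i / wq ^ 15) 1 := fun i => by
    rw [hG]
    exact Cg_POJ hB hio (od_J2a (hod i))
  have hG2 : ∀ i, Cg B ((G i + G (sg i)) / wq ^ 18) 1 := by
    intro i
    obtain ⟨t, ht⟩ := h3 i
    have e1 : G (sg i) =
        PO (e4 (-k)) (1 / 4 - (1 / 8 - zt * (em (y i) / em (DDq S)))) := by
      have e2 : em (y (sg i)) / em (DDq S) = -(em (y i) / em (DDq S)) + em t := by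
        have h3 := congrArg em ht
        rw [em_add, em_mul] at h3
        field_simp
        linear_combination h3
      rw [hG]
      change PO (e4 (-k)) (1 / 8 - zt * (em (y (sg i)) / em (DDq S))) = _
      rw [e2]
      have e3 : 1 / 8 - zt * (-(em (y i) / em (DDq S)) + em t) =
          1 / 4 - (1 / 8 - zt * (em (y i) / em (DDq S))) + -(zt * em t) := by ring
      rw [e3, PO_add (neg_mem (zt_mul_mem (em_mem t)))]
    rw [e1, hG]
    exact Cg_POJ_pair hB hio (od_J2a (hod i))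
  -- the weights
  obtain ⟨W, hWd⟩ : ∃ W : ι → ℂ, W = fun i => wtB e S (fB k 2 * y i) := ⟨_, rfl⟩
  have hW0 : ∀ i, Rt B (W i) (∏ q ∈ S, c2 q (fB k 2 * y i)) := fun i => by
    rw [hWd]
    exact Rt_wtB hB he (ndf i)
  have hW : ∀ i, B.valuation (W i) ≤ 1 := fun i => (hW0 i).le
  have hW2 : ∀ i, B.valuation ((W (sg i) - W i) / lm) ≤ 1 := by
    intro i
    rw [map_div₀]
    refine div_le_one_of_le₀ ?_ zero_le
    rw [hWd]
    refine v_wtB_sub hB he (ndf i) ?_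
    rw [← mul_add]
    exact (h3 i).mul_left _
  -- the second part
  have key2 : B.valuation (∑ i : {i // P i}, ((W (sg i) - W i) / lm) *
      (G (sg i) / wq ^ 15) * wq) < 1 := by
    refine Valuation.map_sum_lt _ one_ne_zero fun i _ => ?_
    exact v_mul_lt' (v_mul_le (hW2 i) (hG1 _).le) (by
      have h := v_wq_pow_lt (B := B) hB one_ne_zero
      rwa [pow_one] at h)
  -- the first part
  have key1 : Rt B (∑ i : {i // P i}, W i * ((G i + G (sg i)) / wq ^ 18))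
      (if S.card = 1 then ∑ q ∈ S, aa q.1 else 0) := by
    have c1 : Cg B (∑ i : {i // P i}, W i * ((G i + G (sg i)) / wq ^ 18))
        (∑ i : {i // P i}, W i * 1) :=
      Cg.sum _ fun i _ => (Cg.refl (hW i)).mul (hG2 i)
    refine c1.rt ?_
    simp only [mul_one]
    exact half_sum hB hS hy h1 h3 hP hf hW0
  -- the end
  have hsum : thB k 2 (DDq S) * ∑ i, wB e S (fB k 2 * y i) *
      UB k 2 ((em (fB k 2))⁻¹ + em (y i) / em (DDq S)) =
      Om * wq ^ 18 * lm ^ mB e S * ((thB k 2 (DDq S) * zt) *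
        (∑ i : {i // P i}, W i * ((G i + G (sg i)) / wq ^ 18) +
          ∑ i : {i // P i}, ((W (sg i) - W i) / lm) * (G (sg i) / wq ^ 15) * wq)) := by
    have e1 : ∀ i, wB e S (fB k 2 * y i) = lm ^ mB e S * W i := fun i => by
      rw [hWd]
      change _ = lm ^ mB e S * wtB e S (fB k 2 * y i)
      rw [wtB, mul_div_cancel₀ _ (pow_ne_zero _ hl0)]
    have e2 : ∑ i, wB e S (fB k 2 * y i) * UB k 2 ((em (fB k 2))⁻¹ + em (y i) / em (DDq S)) =
        lm ^ mB e S * (zt * Om) * ∑ i, W i * G i := by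
      rw [Finset.mul_sum]
      refine Finset.sum_congr rfl fun i _ => ?_
      rw [e1, hU]
      ring
    rw [e2, RhsE_sum h1 hP (fun i => W i * G i), ← Finset.sum_add_distrib]
    have e3 : ∀ i : {i // P i}, W i * G i + W (sg i) * G (sg i) =
        wq ^ 18 * (W i * ((G i + G (sg i)) / wq ^ 18) +
          (W (sg i) - W i) / lm * (G (sg i) / wq ^ 15) * wq) := by
      intro i
      rw [← wq_pow]
      field_simp
      ring
    rw [Finset.sum_congr rfl fun i _ => e3 i, ← Finset.mul_sum]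
    ring
  have hne : Om * wq ^ 18 * lm ^ mB e S ≠ 0 :=
    mul_ne_zero (mul_ne_zero hO (pow_ne_zero _ hq0)) (pow_ne_zero _ hl0)
  rw [hsum, mul_div_cancel_left₀ _ hne]
  have hu : Rt B (thB k 2 (DDq S) * zt) 1 := by
    refine (Cg_root hB ?_).rt Rt.one
    have h4 : thB k 2 (DDq S) ^ 4 = 1 := by
      rw [thB, e4_pow]
      have h5 : ∀ t : ZMod 4, ((4 : ℕ) : ZMod 4) * t = 0 := by decide
      rw [h5, e4_zero]
    rw [mul_pow, h4, one_mul]
    have e5 : zt ^ 4 = (zt ^ 2) ^ 2 := by ring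
    rw [e5, zt_sq]
    norm_num
  have h6 := hu.mul hB (key1.congr (w := (∑ i : {i // P i}, W i * ((G i + G (sg i)) / wq ^ 18) +
          ∑ i : {i // P i}, ((W (sg i) - W i) / lm) * (G (sg i) / wq ^ 15) * wq))
      (by rw [add_sub_cancel_left]; exact key2))
  rwa [one_mul] at h6

end

end Pool.Agent.Lib.MP_1a91b9_ntQ
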