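import Pool.Agent.Lib.MP_1a91b9_ntQ.B.PsJ2a
import Pool.Agent.Lib.MP_1a91b9_ntQ.B.RhsJ2a

/-!
# Quartic twists, all `D`, class J2b (`j = 2`), file ClJ2b: the closed forms of the pair sums

`h8 = HH (1 / 8)`, `h8 ^ 2 = 4 sq2`. With `x = X t`, `s = x ^ 2 - 1`,
`N8 x = s ^ 4 + 8 x s ^ 3 - 8 x ^ 2 s ^ 2 + 32 x ^ 3 s + 16 x ^ 4`:
the even part of `PO i` and the odd part of `PO (-i)` at `1 / 8 + t` are rational functions of the
coordinates of `t`, for every `t` with `8 t` outside of the lattice. The signs are exact.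
-/

set_option autoImplicit false
set_option linter.unusedSectionVars false

namespace Pool.Agent.Lib.MP_1a91b9_ntQ

open NumberField Pool.Agent.Lib.MP_1a91b9_nuT Pool.Agent.Lib.MP_1a91b9_nuT.S3
  Pool.Agent.Lib.MP_1a91b9_nuT.Ell

noncomputable section

section gen
variable [CD] [hq : Q4]

/-! ### The even and the odd part of `gg` -/

theorem gg_evJ {b t : ℂ} (hb : 2 * b ∉ PP.lattice) (ht : 2 * t ∉ PP.lattice)
    (h1 : b - t ∉ PP.lattice) (h2 : b + t ∉ PP.lattice) (h3 : b + pe - t ∉ PP.lattice)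
    (h4 : b + pe + t ∉ PP.lattice) :
    (gg (b + t) + gg (b - t)) * (X t ^ 2 - 1 - gg b ^ 2 * X t) = 2 * gg b * (X t ^ 2 + 1) := by
  have a1 := gg_pm hb ht h1 h2 h3 h4
  have a2 := gg_sq_mul hb
  apply mul_left_cancel₀ (X_ne hb)
  linear_combination a1 - (gg (b + t) + gg (b - t)) * X t * a2

theorem gg_odJ {b t : ℂ} (hb : 2 * b ∉ PP.lattice) (ht : 2 * t ∉ PP.lattice)
    (h1 : t - b ∉ PP.lattice) (h2 : t + b ∉ PP.lattice) (h3 : t + pe - b ∉ PP.lattice)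
    (h4 : t + pe + b ∉ PP.lattice) :
    (gg (b + t) - gg (b - t)) * (X t ^ 2 - 1 - gg b ^ 2 * X t) * X b =
      -(2 * (gg t * X t) * (X b ^ 2 + 1)) := by
  have a1 := gg_pm ht hb h1 h2 h3 h4
  have a2 := gg_sq_mul hb
  have e1 : gg (t - b) = -gg (b - t) := by
    rw [← gg_neg]
    congr 1
    ring
  have e2 : gg (t + b) = gg (b + t) := by rw [add_comm]
  rw [e1, e2] at a1
  linear_combination -a1 - (gg (b + t) - gg (b - t)) * X t * a2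

/-! ### The even and the odd part of `HH` -/

theorem lm_half (z : ℂ) : gg (lm * (z + 1 / 2)) = -gg (lm * z) := by
  have e : lm * (z + 1 / 2) = lm * z + pe + zt := by
    rw [pe_eq, lm]
    ring
  rw [e, gg_add zt_mem, gg_add_pe]

theorem eight_mem : (8 : ℂ) ∈ PP.lattice := by
  have h : (8 : ℂ) = 2 * (2 * (2 * 1)) := by norm_num
  rw [h]
  exact two_mem (two_mem (two_mem one_mem))

theorem two_of_eight {t : ℂ} (ht : 8 * t ∉ PP.lattice) : 2 * t ∉ PP.lattice := by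
  intro h
  apply ht
  have e : 8 * t = 2 * (2 * (2 * t)) := by ring
  rw [e]
  exact two_mem (two_mem h)

theorem eight_pe : 8 * pe ∈ PP.lattice := by
  have e : 8 * pe = 2 * (4 * pe) := by ring
  rw [e]
  exact two_mem four_pe

theorem eight_half : 8 * (1 / 2 : ℂ) ∈ PP.lattice := by
  have e : 8 * (1 / 2 : ℂ) = 4 := by norm_num
  rw [e]
  exact four_mem

/-- the six conditions -/
theorem cond8 {b t : ℂ} (hb : 8 * b ∈ PP.lattice) (ht : 8 * t ∉ PP.lattice) :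
    (b - t ∉ PP.lattice ∧ b + t ∉ PP.lattice ∧ b + pe - t ∉ PP.lattice ∧
      b + pe + t ∉ PP.lattice) ∧ t - b ∉ PP.lattice ∧ t + b ∉ PP.lattice ∧
      t + pe - b ∉ PP.lattice ∧ t + pe + b ∉ PP.lattice := by
  have hn := eight_mem (hq := hq)
  have hp := eight_pe (hq := hq)
  have hb' : 8 * -b ∈ PP.lattice := by
    rw [mul_neg]
    exact neg_mem hb
  have k : ∀ u : ℂ, 8 * u ∈ PP.lattice → t + u ∉ PP.lattice := fun u hu => add_notMem_of hn ht hu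
  have k' : ∀ u : ℂ, 8 * u ∈ PP.lattice → u - t ∉ PP.lattice := by
    intro u hu h
    apply k (-u) (by rw [mul_neg]; exact neg_mem hu)
    have e : t + -u = -(u - t) := by ring
    rw [e]
    exact neg_mem h
  refine ⟨⟨k' _ hb, ?_, k' _ ?_, ?_⟩, ?_, k _ hb, ?_, ?_⟩
  · rw [add_comm]
    exact k _ hb
  · rw [mul_add]
    exact add_mem hb hp
  · rw [add_comm]
    exact k _ (by rw [mul_add]; exact add_mem hb hp)
  · rw [sub_eq_add_neg]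
    exact k _ hb'
  · have e : t + pe - b = t + (pe + -b) := by ring
    rw [e]
    exact k _ (by rw [mul_add]; exact add_mem hp hb')
  · have e : t + pe + b = t + (pe + b) := by ring
    rw [e]
    exact k _ (by rw [mul_add]; exact add_mem hp hb)

/-- the even part of `HH` -/
theorem HH_ev {b t : ℂ} (hb8 : 8 * b ∈ PP.lattice) (hb : 2 * b ∉ PP.lattice)
    (ht : 8 * t ∉ PP.lattice) :
    (HH (b + t) + HH (b - t)) * ((X t ^ 2 - 1) ^ 2 - (HH b ^ 2 + 4) * X t * (X t ^ 2 - 1) +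
      4 * X t ^ 2) = 2 * (X t ^ 2 + 1) * HH b * (X t ^ 2 - 1 + 2 * X t) := by
  have hb8' : 8 * (b + 1 / 2) ∈ PP.lattice := by
    rw [mul_add]
    exact add_mem hb8 eight_half
  obtain ⟨⟨h1, h2, h3, h4⟩, -⟩ := cond8 hb8 ht
  obtain ⟨⟨h1', h2', h3', h4'⟩, -⟩ := cond8 hb8' ht
  have ht2 := two_of_eight ht
  have a1 := gg_evJ hb ht2 h1 h2 h3 h4
  have a2 := gg_evJ (two_add_half hb) ht2 h1' h2' h3' h4'
  have a3 := gg_half hb
  have e1 : b + t + 1 / 2 = b + 1 / 2 + t := by ring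
  have e2 : b - t + 1 / 2 = b + 1 / 2 - t := by ring
  rw [HH, HH, HH, e1, e2]
  obtain ⟨x, hx⟩ : ∃ x, x = X t := ⟨_, rfl⟩
  obtain ⟨β, hβ⟩ : ∃ β, β = gg b := ⟨_, rfl⟩
  obtain ⟨γ, hγ⟩ : ∃ γ, γ = gg (b + 1 / 2) := ⟨_, rfl⟩
  obtain ⟨u, hu⟩ : ∃ u, u = gg (b + t) + gg (b - t) := ⟨_, rfl⟩
  obtain ⟨v, hv⟩ : ∃ v, v = gg (b + 1 / 2 + t) + gg (b + 1 / 2 - t) := ⟨_, rfl⟩
  have e3 : gg (b + t) + gg (b + 1 / 2 + t) + (gg (b - t) + gg (b + 1 / 2 - t)) = u + v := by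
    rw [hu, hv]
    ring
  rw [e3]
  rw [← hu, ← hβ, ← hx] at a1
  rw [← hv, ← hγ, ← hx] at a2
  rw [← hβ, ← hγ] at a3 ⊢
  rw [← hx]
  have e4 : (x ^ 2 - 1) ^ 2 - ((β + γ) ^ 2 + 4) * x * (x ^ 2 - 1) + 4 * x ^ 2 =
      (x ^ 2 - 1 - β ^ 2 * x) * (x ^ 2 - 1 - γ ^ 2 * x) := by
    linear_combination (-2 * x * (x ^ 2 - 1) - x ^ 2 * (γ * β - 2)) * a3
  rw [e4]
  linear_combination (x ^ 2 - 1 - γ ^ 2 * x) * a1 + (x ^ 2 - 1 - β ^ 2 * x) * a2 -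
    2 * (x ^ 2 + 1) * (β + γ) * x * a3

/-- the odd part of `HH`, up to the factor `lm gg (lm b) (gg b - gg (b + 1 / 2))` -/
theorem HH_od {b t : ℂ} (hb8 : 8 * b ∈ PP.lattice) (hb : 2 * (lm * b) ∉ PP.lattice)
    (ht : 8 * t ∉ PP.lattice) :
    (HH (b + t) - HH (b - t)) * ((X t ^ 2 - 1) ^ 2 - (HH b ^ 2 + 4) * X t * (X t ^ 2 - 1) +
      4 * X t ^ 2) = -(2 * yh t * (lm * gg (lm * b) * (gg b - gg (b + 1 / 2))) *
        (X t ^ 2 - 1 - 2 * X t)) := by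
  have hb2 := two_of hb
  have hb8' : 8 * (b + 1 / 2) ∈ PP.lattice := by
    rw [mul_add]
    exact add_mem hb8 eight_half
  have hb' : 2 * (lm * (b + 1 / 2)) ∉ PP.lattice := by
    intro h
    apply hb
    have e : 2 * (lm * b) = 2 * (lm * (b + 1 / 2)) - lm := by ring
    rw [e]
    exact sub_mem h lm_mem
  obtain ⟨-, h1, h2, h3, h4⟩ := cond8 hb8 ht
  obtain ⟨-, h1', h2', h3', h4'⟩ := cond8 hb8' ht
  have ht2 := two_of_eight ht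
  have a1 := gg_odJ hb2 ht2 h1 h2 h3 h4
  have a2 := gg_odJ (two_add_half hb2) ht2 h1' h2' h3' h4'
  have a3 := gg_half hb2
  have a4 := gg_lm hb
  have a5 := gg_lm hb'
  rw [lm_half] at a5
  rw [← a4] at a1
  rw [← a5] at a2
  have hX := X_ne hb2
  have hX' := X_ne (two_add_half hb2)
  have b1 : (gg (b + t) - gg (b - t)) * (X t ^ 2 - 1 - gg b ^ 2 * X t) =
      -(2 * yh t * (lm * gg (lm * b) * gg b)) := by
    apply mul_right_cancel₀ hX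
    rw [← gg_mul ht2]
    linear_combination a1
  have b2 : (gg (b + 1 / 2 + t) - gg (b + 1 / 2 - t)) * (X t ^ 2 - 1 - gg (b + 1 / 2) ^ 2 * X t) =
      2 * yh t * (lm * gg (lm * b) * gg (b + 1 / 2)) := by
    apply mul_right_cancel₀ hX'
    rw [← gg_mul ht2]
    linear_combination a2
  have e1 : b + t + 1 / 2 = b + 1 / 2 + t := by ring
  have e2 : b - t + 1 / 2 = b + 1 / 2 - t := by ring
  rw [HH, HH, HH, e1, e2]
  obtain ⟨x, hx⟩ : ∃ x, x = X t := ⟨_, rfl⟩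
  obtain ⟨β, hβ⟩ : ∃ β, β = gg b := ⟨_, rfl⟩
  obtain ⟨γ, hγ⟩ : ∃ γ, γ = gg (b + 1 / 2) := ⟨_, rfl⟩
  obtain ⟨u, hu⟩ : ∃ u, u = gg (b + t) - gg (b - t) := ⟨_, rfl⟩
  obtain ⟨v, hv⟩ : ∃ v, v = gg (b + 1 / 2 + t) - gg (b + 1 / 2 - t) := ⟨_, rfl⟩
  obtain ⟨κ, hκ⟩ : ∃ κ, κ = lm * gg (lm * b) := ⟨_, rfl⟩
  have e3 : gg (b + t) + gg (b + 1 / 2 + t) - (gg (b - t) + gg (b + 1 / 2 - t)) = u + v := by
    rw [hu, hv]
    ring
  rw [e3]
  rw [← hu, ← hβ, ← hx, ← hκ] at b1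
  rw [← hv, ← hγ, ← hx, ← hκ] at b2
  rw [← hβ, ← hγ] at a3 ⊢
  rw [← hx, ← hκ]
  have e4 : (x ^ 2 - 1) ^ 2 - ((β + γ) ^ 2 + 4) * x * (x ^ 2 - 1) + 4 * x ^ 2 =
      (x ^ 2 - 1 - β ^ 2 * x) * (x ^ 2 - 1 - γ ^ 2 * x) := by
    linear_combination (-2 * x * (x ^ 2 - 1) - x ^ 2 * (γ * β - 2)) * a3
  rw [e4]
  linear_combination (x ^ 2 - 1 - γ ^ 2 * x) * b1 + (x ^ 2 - 1 - β ^ 2 * x) * b2 -
    2 * yh t * κ * (β - γ) * x * a3

/-- the factor of the odd part -/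
theorem HH_fac {z : ℂ} (hz : 2 * (lm ^ 2 * z) ∉ PP.lattice) :
    lm * gg (lm * z) * (gg z - gg (z + 1 / 2)) * HH z =
      -(8 * zt * (gg (lm ^ 2 * z) * X (lm ^ 2 * z))) := by
  have hz2 := two_lm_of hz
  have hz1 := two_of hz2
  have e0 : lm ^ 2 * z = lm * (lm * z) := by ring
  rw [e0] at hz ⊢
  have a1 := gg_half hz1
  have a2 := gg_sq hz1
  have a3 := gg_sq hz2
  have a4 := gg_lm hz
  have c1 := gg_ne hz1
  have c2 := X_ne hz2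
  rw [HH]
  obtain ⟨β, hβ⟩ : ∃ β, β = gg z := ⟨_, rfl⟩
  obtain ⟨γ, hγ⟩ : ∃ γ, γ = gg (z + 1 / 2) := ⟨_, rfl⟩
  obtain ⟨u, hu⟩ : ∃ u, u = X (lm * z) := ⟨_, rfl⟩
  obtain ⟨g, hg⟩ : ∃ g, g = gg (lm * z) := ⟨_, rfl⟩
  obtain ⟨w, hw⟩ : ∃ w, w = gg (lm * (lm * z)) := ⟨_, rfl⟩
  obtain ⟨r, hr⟩ : ∃ r, r = X (lm * (lm * z)) := ⟨_, rfl⟩
  rw [← hβ, ← hγ] at a1
  rw [← hβ, ← hu] at a2
  rw [← hg, ← hr] at a3
  rw [← hg, ← hu, ← hw] at a4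
  rw [← hβ] at c1
  rw [← hu] at c2
  rw [← hβ, ← hγ, ← hg, ← hw, ← hr]
  have h2 := lm_sq (hq := hq)
  have hz' := zt_sq (hq := hq)
  -- `β ^ 2 - γ ^ 2 = 2 i (u + 1 / u)`
  have b1 : (β ^ 2 - γ ^ 2) * u = 2 * zt * (w * (lm * g * u)) := by
    apply mul_left_cancel₀ (pow_ne_zero 2 c1)
    have b2 : β ^ 2 * γ ^ 2 = 4 := by linear_combination (γ * β - 2) * a1
    linear_combination (-2 * zt * β ^ 2) * a4 + (β ^ 2 * u + 2 * zt * u ^ 2 - 2 * zt * (u ^ 2 + 1)) * a2 -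
      u * b2 - 4 * u * hz'
  have b3 : (β - γ) * (β + γ) * u = 2 * zt * (w * (lm * g * u)) := by linear_combination b1
  apply mul_right_cancel₀ c2
  linear_combination (lm * g) * b3 + (2 * zt * w * u * g ^ 2) * h2 + (4 * zt ^ 2 * w * u) * a3 +
    (8 * zt * r * w * u) * hz'

/-! ### The constants at `1 / 8` -/

/-- the value of `HH` at `1 / 8`, a fourth root of `32` -/
def h8 : ℂ := HH (1 / 8)

theorem lm2_eighth : lm ^ 2 * (1 / 8) = zt * -pe ^ 4 := by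
  rw [lm_sq, pe4_eq]
  ring

theorem X_eighth : X (lm ^ 2 * (1 / 8)) = -X (pe ^ 4) := by
  rw [lm2_eighth, X_i, Ell.X_neg]
  intro h
  have h3 := neg_mem (two_mem h)
  rw [← mul_neg, neg_neg] at h3
  exact two_pe4_notMem h3

theorem gg_eighth : gg (lm ^ 2 * (1 / 8)) = zt * (s8 * sq2) := by
  have h4 := s8_gg_pe4 (hq := hq)
  have h5 := s8_sq (hq := hq)
  rw [lm2_eighth, gg_i (by rw [mul_neg]; exact fun h => two_pe4_notMem (by simpa using neg_mem h)),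
    gg_neg]
  linear_combination (zt * s8) * h4 - (zt * gg (pe ^ 4)) * h5

theorem X_pe4_sq2 : X (pe ^ 4) = 1 + sq2 := by
  have h1 := sq2_mul (hq := hq)
  have h2 := sq2_sq (hq := hq)
  linear_combination (1 + sq2) * h1 - X (pe ^ 4) * h2

theorem h8_sq : h8 ^ 2 = 4 * sq2 := by
  have h1 := HH_sq (two_lm_of (eighth_notMem (hq := hq)))
  have h2 := X_eighth (hq := hq)
  have h3 := X_pe4_sq2 (hq := hq)
  rw [h8, h1, h2, h3]
  ring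

theorem h8_ne : h8 ≠ 0 := by
  intro h
  have h1 := h8_sq (hq := hq)
  rw [h, zero_pow two_ne_zero] at h1
  exact mul_ne_zero (by norm_num) sq2_ne h1.symm

theorem HH_eighth' : HH (1 / 8 + pe ^ 3) = zt * h8 := by
  have h1 := HH_mul_HH (eighth_notMem (hq := hq))
  have h2 := h8_sq (hq := hq)
  have h3 := gg_eighth (hq := hq)
  have h4 := s8_sq (hq := hq)
  rw [h3] at h1
  apply mul_left_cancel₀ (h8_ne (hq := hq))
  have e : h8 = HH (1 / 8) := rfl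
  rw [← e] at h1
  linear_combination h1 - zt * h2 + 4 * zt * sq2 * h4

theorem eighth_ne : HH (1 / 8) ≠ 0 := h8_ne

/-- the first factor -/
theorem fac_eighth : lm * gg (lm * (1 / 8)) * (gg (1 / 8) - gg (1 / 8 + 1 / 2)) =
    -(2 * s8 * h8 * (1 + sq2)) := by
  have h1 := HH_fac (eighth_notMem (hq := hq))
  have h2 := h8_sq (hq := hq)
  rw [gg_eighth, X_eighth, X_pe4_sq2] at h1
  apply mul_right_cancel₀ (h8_ne (hq := hq))
  have e : h8 = HH (1 / 8) := rfl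
  rw [← e] at h1
  linear_combination h1 + 8 * s8 * sq2 * (1 + sq2) * zt_sq + 2 * s8 * (1 + sq2) * h2

theorem eighth3_notMem : 2 * (lm ^ 2 * (1 / 8 + pe ^ 3)) ∉ PP.lattice :=
  two_lm2_add eighth_notMem

/-- the second factor -/
theorem fac_eighth' : lm * gg (lm * (1 / 8 + pe ^ 3)) * (gg (1 / 8 + pe ^ 3) -
    gg (1 / 8 + pe ^ 3 + 1 / 2)) = 2 * zt * s8 * h8 * (sq2 - 1) := by
  have h1 := HH_fac (eighth3_notMem (hq := hq))
  have h2 := h8_sq (hq := hq)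
  have h3 := sq2_sq (hq := hq)
  have e1 : lm ^ 2 * (1 / 8 + pe ^ 3) = lm ^ 2 * (1 / 8) + pe := by
    rw [mul_add, lm2_pe3]
  have h4 : X (lm ^ 2 * (1 / 8) + pe) = sq2 - 1 := by
    have h5 := X_add_pe (eighth_notMem (hq := hq))
    rw [X_eighth, X_pe4_sq2] at h5
    have h6 : (1 + sq2 : ℂ) ≠ 0 := by
      rw [← X_pe4_sq2]
      exact X_pe4_ne
    apply mul_right_cancel₀ h6
    linear_combination -h5 - h3
  rw [e1, gg_add_pe, h4, gg_eighth, HH_eighth'] at h1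
  apply mul_right_cancel₀ (mul_ne_zero (zt_ne0 (hq := hq)) (h8_ne (hq := hq)))
  linear_combination h1 + (8 * s8 * sq2 * (sq2 - 1) - 2 * s8 * (sq2 - 1) * h8 ^ 2) * zt_sq +
    2 * s8 * (sq2 - 1) * h2

/-! ### The closed forms -/

/-- the denominator -/
def N8 (x : ℂ) : ℂ := (x ^ 2 - 1) ^ 4 + 8 * x * (x ^ 2 - 1) ^ 3 - 8 * x ^ 2 * (x ^ 2 - 1) ^ 2 +
  32 * x ^ 3 * (x ^ 2 - 1) + 16 * x ^ 4

theorem N8_fac {x s : ℂ} (hs : s ^ 2 = 2) : ((x ^ 2 - 1) ^ 2 - (4 * s + 4) * x * (x ^ 2 - 1) +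
    4 * x ^ 2) * ((x ^ 2 - 1) ^ 2 - (-(4 * s) + 4) * x * (x ^ 2 - 1) + 4 * x ^ 2) = N8 (-x) := by
  rw [N8]
  linear_combination (-16 * x ^ 2 * (x ^ 2 - 1) ^ 2) * hs

theorem eighth_mem : 8 * (1 / 8 : ℂ) ∈ PP.lattice := by
  have e : 8 * (1 / 8 : ℂ) = 1 := by norm_num
  rw [e]
  exact one_mem

theorem eighth3_mem : 8 * (1 / 8 + pe ^ 3) ∈ PP.lattice := by
  have e : 8 * (1 / 8 + pe ^ 3) = 1 - 4 * zt * pe := by
    have h2 := pe_sq (hq := hq)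
    linear_combination (-4 * zt * pe) * h2 + 8 * pe ^ 3 * zt_sq
  rw [e]
  have e2 : 4 * zt * pe = zt * (4 * pe) := by ring
  rw [e2]
  exact sub_mem one_mem (zt_mul_mem four_pe)

/-- the sums over the two pairs -/
theorem PO_pairs {t : ℂ} (ht : 8 * t ∉ PP.lattice) (io : ℂ) :
    (PO io (1 / 8 + t) + PO io (1 / 8 - t)) * N8 (-X t) =
      2 * (X t ^ 2 + 1) * (X t ^ 2 - 1 + 2 * X t) * h8 *
        (((X t ^ 2 - 1) ^ 2 - (-(4 * sq2) + 4) * X t * (X t ^ 2 - 1) + 4 * X t ^ 2) +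
          io * zt * ((X t ^ 2 - 1) ^ 2 - (4 * sq2 + 4) * X t * (X t ^ 2 - 1) + 4 * X t ^ 2)) := by
  have h0 := eighth_notMem (hq := hq)
  have h0' := eighth3_notMem (hq := hq)
  have a1 := HH_ev (eighth_mem (hq := hq)) (two_of (two_lm_of h0)) ht
  have a2 := HH_ev (eighth3_mem (hq := hq)) (two_of (two_lm_of h0')) ht
  rw [HH_eighth'] at a2
  have e : h8 = HH (1 / 8) := rfl
  rw [← e] at a1
  have h2 := h8_sq (hq := hq)
  have e1 : 1 / 8 + t + pe ^ 3 = 1 / 8 + pe ^ 3 + t := by ring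
  have e2 : 1 / 8 - t + pe ^ 3 = 1 / 8 + pe ^ 3 - t := by ring
  rw [← N8_fac sq2_sq, PO, PO, e1, e2]
  obtain ⟨x, hx⟩ : ∃ x, x = X t := ⟨_, rfl⟩
  obtain ⟨u, hu⟩ : ∃ u, u = HH (1 / 8 + t) + HH (1 / 8 - t) := ⟨_, rfl⟩
  obtain ⟨v, hv⟩ : ∃ v, v = HH (1 / 8 + pe ^ 3 + t) + HH (1 / 8 + pe ^ 3 - t) := ⟨_, rfl⟩
  have e3 : HH (1 / 8 + t) + io * HH (1 / 8 + pe ^ 3 + t) +
      (HH (1 / 8 - t) + io * HH (1 / 8 + pe ^ 3 - t)) = u + io * v := by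
    rw [hu, hv]
    ring
  rw [e3]
  rw [← hu, ← hx, h2] at a1
  have h3 : (zt * h8) ^ 2 = -(4 * sq2) := by
    linear_combination h8 ^ 2 * zt_sq - h2
  rw [← hv, ← hx, h3] at a2
  rw [← hx]
  linear_combination ((x ^ 2 - 1) ^ 2 - (-(4 * sq2) + 4) * x * (x ^ 2 - 1) + 4 * x ^ 2) * a1 +
    io * ((x ^ 2 - 1) ^ 2 - (4 * sq2 + 4) * x * (x ^ 2 - 1) + 4 * x ^ 2) * a2

/-- the differences over the two pairs -/
theorem PO_pairs' {t : ℂ} (ht : 8 * t ∉ PP.lattice) (io : ℂ) :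
    (PO io (1 / 8 + t) - PO io (1 / 8 - t)) * N8 (-X t) =
      4 * s8 * h8 * yh t * (X t ^ 2 - 1 - 2 * X t) *
        ((1 + sq2) * ((X t ^ 2 - 1) ^ 2 - (-(4 * sq2) + 4) * X t * (X t ^ 2 - 1) + 4 * X t ^ 2) -
          io * zt * (sq2 - 1) *
            ((X t ^ 2 - 1) ^ 2 - (4 * sq2 + 4) * X t * (X t ^ 2 - 1) + 4 * X t ^ 2)) := by
  have h0 := eighth_notMem (hq := hq)
  have h0' := eighth3_notMem (hq := hq)
  have a1 := HH_od (eighth_mem (hq := hq)) (two_lm_of h0) ht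
  have a2 := HH_od (eighth3_mem (hq := hq)) (two_lm_of h0') ht
  rw [fac_eighth] at a1
  rw [HH_eighth', fac_eighth'] at a2
  have e : h8 = HH (1 / 8) := rfl
  rw [← e] at a1
  have h2 := h8_sq (hq := hq)
  have e1 : 1 / 8 + t + pe ^ 3 = 1 / 8 + pe ^ 3 + t := by ring
  have e2 : 1 / 8 - t + pe ^ 3 = 1 / 8 + pe ^ 3 - t := by ring
  rw [← N8_fac sq2_sq, PO, PO, e1, e2]
  obtain ⟨x, hx⟩ : ∃ x, x = X t := ⟨_, rfl⟩
  obtain ⟨y, hy⟩ : ∃ y, y = yh t := ⟨_, rfl⟩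
  obtain ⟨u, hu⟩ : ∃ u, u = HH (1 / 8 + t) - HH (1 / 8 - t) := ⟨_, rfl⟩
  obtain ⟨v, hv⟩ : ∃ v, v = HH (1 / 8 + pe ^ 3 + t) - HH (1 / 8 + pe ^ 3 - t) := ⟨_, rfl⟩
  have e3 : HH (1 / 8 + t) + io * HH (1 / 8 + pe ^ 3 + t) -
      (HH (1 / 8 - t) + io * HH (1 / 8 + pe ^ 3 - t)) = u + io * v := by
    rw [hu, hv]
    ring
  rw [e3]
  rw [← hu, ← hx, ← hy, h2] at a1
  have h3 : (zt * h8) ^ 2 = -(4 * sq2) := by
    linear_combination h8 ^ 2 * zt_sq - h2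
  rw [← hv, ← hx, ← hy, h3] at a2
  rw [← hx, ← hy]
  linear_combination ((x ^ 2 - 1) ^ 2 - (-(4 * sq2) + 4) * x * (x ^ 2 - 1) + 4 * x ^ 2) * a1 +
    io * ((x ^ 2 - 1) ^ 2 - (4 * sq2 + 4) * x * (x ^ 2 - 1) + 4 * x ^ 2) * a2

/-- **The even part of `PO i`.** -/
theorem PO_ev {t : ℂ} (ht : 8 * t ∉ PP.lattice) :
    (PO zt (1 / 8 + t) + PO zt (1 / 8 - t)) * N8 (-X t) =
      16 * sq2 * h8 * (X t * (X t ^ 4 - 1) * (X t ^ 2 + 2 * X t - 1)) := by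
  rw [PO_pairs ht]
  linear_combination (2 * (X t ^ 2 + 1) * (X t ^ 2 - 1 + 2 * X t) * h8 *
    ((X t ^ 2 - 1) ^ 2 - (4 * sq2 + 4) * X t * (X t ^ 2 - 1) + 4 * X t ^ 2)) * zt_sq

/-- **The odd part of `PO (-i)`.** -/
theorem PO_od {t : ℂ} (ht : 8 * t ∉ PP.lattice) :
    (PO (-zt) (1 / 8 + t) - PO (-zt) (1 / 8 - t)) * N8 (-X t) =
      8 * s8 * h8 * (yh t * (X t ^ 2 - 2 * X t - 1) * (X t ^ 2 + 2 * X t - 1) ^ 2) := by
  have h3 := sq2_sq (hq := hq)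
  rw [PO_pairs' ht]
  linear_combination (4 * s8 * h8 * yh t * (X t ^ 2 - 1 - 2 * X t) * (sq2 - 1) *
    ((X t ^ 2 - 1) ^ 2 - (4 * sq2 + 4) * X t * (X t ^ 2 - 1) + 4 * X t ^ 2)) * zt_sq +
    (32 * s8 * h8 * yh t * (X t ^ 2 - 1 - 2 * X t) * X t * (X t ^ 2 - 1)) * h3

/-! ### The denominator does not vanish -/

theorem quad_ne {t : ℂ} (ht : 8 * t ∉ PP.lattice) : X t ^ 2 + 1 ≠ 0 ∧ X t ^ 2 - 2 * X t - 1 ≠ 0 ∧
    X t ^ 2 + 2 * X t - 1 ≠ 0 := by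
  have h8' : 2 * (lm ^ 2 * t) ∉ PP.lattice := by
    intro h
    apply ht
    have h1 := mul_mem (neg_mem zt_mem) (two_mem h)
    have e : -zt * (2 * (2 * (lm ^ 2 * t))) = 8 * t := by
      rw [lm_sq]
      linear_combination (-8 * t) * zt_sq
    rwa [e] at h1
  have hz2 := two_lm_of h8'
  have hz1 := two_of hz2
  have a1 := gg_lm hz2
  have a2 := HH_mul hz1
  have a3 := HH_add_pe3 hz2
  have a4 := gg_sq_mul hz1
  have a5 := HH_mul_HH h8'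
  have c1 := gg_ne h8'
  have c2 := s8_ne (hq := hq)
  have c3 : HH t * HH (t + pe ^ 3) ≠ 0 := by
    rw [a5]
    exact mul_ne_zero (by norm_num) (mul_ne_zero c2 c1)
  have b1 : X t ^ 2 + 1 ≠ 0 := by
    rw [← a1]
    exact mul_ne_zero (gg_ne hz2) (mul_ne_zero lm_ne (mul_ne_zero (gg_ne hz1) (X_ne hz1)))
  refine ⟨b1, ?_, ?_⟩
  · have e : X t ^ 2 - 2 * X t - 1 = HH t * gg t * X t := by
      linear_combination (-X t) * a2 - a4
    rw [e]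
    exact mul_ne_zero (mul_ne_zero (left_ne_zero_of_mul c3) (gg_ne hz1)) (X_ne hz1)
  · intro h
    have h' : HH (t + pe ^ 3) * (zt * s8 * (X t ^ 2 + 1)) = 0 := by
      linear_combination a3 + 2 * h
    exact mul_ne_zero (right_ne_zero_of_mul c3) (mul_ne_zero (mul_ne_zero zt_ne0 c2) b1) h'

theorem N8_neg_ne {t : ℂ} (ht : 8 * t ∉ PP.lattice) : N8 (-X t) ≠ 0 := by
  intro h
  have h1 := PO_ev ht
  obtain ⟨b1, b2, b3⟩ := quad_ne ht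
  have hz1 := two_of_eight ht
  rw [h, mul_zero] at h1
  have h2 : X t ^ 4 - 1 ≠ 0 := by
    have e : X t ^ 4 - 1 = (X t ^ 2 + 1) * (X t ^ 2 - 1) := by ring
    rw [e]
    exact mul_ne_zero b1 (X_sq_ne hz1)
  exact mul_ne_zero (mul_ne_zero (mul_ne_zero (by norm_num) sq2_ne) h8_ne)
    (mul_ne_zero (mul_ne_zero (X_ne hz1) h2) b3) h1.symm

theorem eight_zt {t : ℂ} (ht : 8 * t ∉ PP.lattice) : 8 * (zt * t) ∉ PP.lattice := by
  have e : 8 * (zt * t) = zt * (8 * t) := by ring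
  rw [e]
  exact zt_mem_iff.not.2 ht

theorem N8_ne {t : ℂ} (ht : 8 * t ∉ PP.lattice) : N8 (X t) ≠ 0 := by
  have h1 := N8_neg_ne (eight_zt ht)
  rw [X_i (notMem_of_two_mul (two_of_eight ht)), neg_neg] at h1
  exact h1

end gen

/-! ### The classes `k = 3` and `k = 1` -/

theorem e4_neg3 : e4 (-3) = zt := by
  have h : (-3 : ZMod 4) = 1 := rfl
  rw [h]
  exact e4_one

theorem e4_neg1 : e4 (-1) = -zt := by
  have h : (-1 : ZMod 4) = 3 := rfl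
  rw [h]
  exact e4_three

/-- **The closed form, `k = 3`** : the sum over the pair. -/
theorem UB3_pair {Q : ℂ} (hQ : 8 * Q ∉ PP.lattice) :
    UB 3 2 ((em (fB 3 2))⁻¹ + Q) + UB 3 2 ((em (fB 3 2))⁻¹ - Q) =
      -(16 * zt * Om * sq2 * h8 * (X Q * (X Q ^ 4 - 1) * (X Q ^ 2 - 2 * X Q - 1) / N8 (X Q))) := by
  have hk : ¬ ((3 : ZMod 4) = 0 ∨ (3 : ZMod 4) = 2) := by decide
  have ht : 8 * (-(zt * Q)) ∉ PP.lattice := by
    rw [mul_neg]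
    exact neg_notMem (eight_zt hQ)
  have h1 := PO_ev ht
  have hX : X (-(zt * Q)) = -X Q := by
    rw [Ell.X_neg, X_i (notMem_of_two_mul (two_of_eight hQ))]
  rw [hX, neg_neg] at h1
  have e1 : (1 : ℂ) / 8 - -(zt * Q) = 1 / 8 - zt * -Q := by ring
  have e2 : (1 : ℂ) / 8 + -(zt * Q) = 1 / 8 - zt * Q := by ring
  rw [sub_eq_add_neg ((em (fB 3 2))⁻¹) Q, UB_J2a hk, UB_J2a hk, e4_neg3, ← e1, ← e2]
  have hN := N8_ne hQ
  rw [mul_div_assoc', eq_comm, neg_eq_iff_eq_neg, div_eq_iff hN]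
  linear_combination (zt * Om) * h1

/-- **The closed form, `k = 1`** : the difference over the pair. -/
theorem UB1_pair {Q : ℂ} (hQ : 8 * Q ∉ PP.lattice) :
    UB 1 2 ((em (fB 1 2))⁻¹ + Q) - UB 1 2 ((em (fB 1 2))⁻¹ - Q) =
      8 * s8 * Om * h8 * (yh Q * (X Q ^ 2 + 2 * X Q - 1) * (X Q ^ 2 - 2 * X Q - 1) ^ 2 /
        N8 (X Q)) := by
  have hk : ¬ ((1 : ZMod 4) = 0 ∨ (1 : ZMod 4) = 2) := by decide
  have ht : 8 * (-(zt * Q)) ∉ PP.lattice := by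
    rw [mul_neg]
    exact neg_notMem (eight_zt hQ)
  have h1 := PO_od ht
  have hQ2 := two_of_eight hQ
  have hX : X (-(zt * Q)) = -X Q := by
    rw [Ell.X_neg, X_i (notMem_of_two_mul hQ2)]
  have hY : yh (-(zt * Q)) = -(zt * yh Q) := by
    rw [← yh_i hQ2, yh, yh, Ell.Y_neg]
    ring
  rw [hX, hY, neg_neg] at h1
  have e1 : (1 : ℂ) / 8 - -(zt * Q) = 1 / 8 - zt * -Q := by ring
  have e2 : (1 : ℂ) / 8 + -(zt * Q) = 1 / 8 - zt * Q := by ring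
  rw [sub_eq_add_neg ((em (fB 1 2))⁻¹) Q, UB_J2a hk, UB_J2a hk, e4_neg1, ← e1, ← e2]
  have hN := N8_ne hQ
  rw [mul_div_assoc', eq_div_iff hN]
  linear_combination (zt * Om) * h1 + (-8 * s8 * h8 * Om * yh Q * (X Q ^ 2 + 2 * X Q - 1) *
    (X Q ^ 2 - 2 * X Q - 1) ^ 2) * zt_sq

end

end Pool.Agent.Lib.MP_1a91b9_ntQ
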