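import Pool.Agent.Lib.MP_1a91b9_ntQ.B.RhsJ2c
import Pool.Agent.Lib.MP_1a91b9_ntQ.A.EPr
import Pool.Agent.Lib.MP_1a91b9_ntQ.A.Rat4P

/-!
# Quartic twists, all `D`, class J2d (`j = 2`, `k` even), file ClJ2d: the closed forms

`HS s (pe ^ 5 + Q) * P4J (X Q) = HS s (pe ^ 5) * NJ s (X Q) (yh Q)` for every point `Q` which is not
of order dividing `2 lm ^ 3`.
-/

set_option autoImplicit false
set_option linter.unusedSectionVars false

namespace Pool.Agent.Lib.MP_1a91b9_ntQ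

open NumberField Pool.Agent.Lib.MP_1a91b9_nuT Pool.Agent.Lib.MP_1a91b9_nuT.S3
  Pool.Agent.Lib.MP_1a91b9_nuT.Ell

noncomputable section

section

variable [CD] [hq : Q4]

/-- the denominator of the closed forms -/
def P4J (x : ℂ) : ℂ := x ^ 4 - 4 * zt * x ^ 3 + 2 * x ^ 2 + 4 * zt * x + 1

/-- the coefficient of the second term: `2` for `s = 1`, `2 i` for `s = -1` -/
def kJ (s : ℂ) : ℂ := (1 + zt) + (1 - zt) * s

theorem kJ_one : kJ 1 = 2 := by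
  unfold kJ
  ring

theorem kJ_neg_one : kJ (-1) = 2 * zt := by
  unfold kJ
  ring

/-- the numerator of the closed forms -/
def NJ (s x y : ℂ) : ℂ :=
  (x ^ 2 + 1) * (x ^ 2 + 2 * s * x - 1) - kJ s * s8 * y * (x ^ 2 - 2 * s * x - 1)

/-! ### The first closed form -/

/-- **(1.1)** the function of the class in terms of the coordinates -/
theorem HS_yh {s z : ℂ} (hz : 2 * z ∉ PP.lattice) : HS s z * yh z = X z ^ 2 - 2 * s * X z - 1 := by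
  have h1 := gg_mul hz
  have h2 := gg_half hz
  have h3 := gg_sq_mul hz
  rw [HS, ← h1]
  linear_combination h3 + s * X z * h2

theorem HS_add_pe (s z : ℂ) : HS s (z + pe) = -HS s z := by
  rw [HS, HS, gg_add_pe]
  have e : z + pe + 1 / 2 = z + 1 / 2 + pe := by ring
  rw [e, gg_add_pe]
  ring

theorem continuousAt_HS (s : ℂ) {z : ℂ} (hz : 2 * z ∉ PP.lattice) : ContinuousAt (HS s) z := by
  have h1 : ContinuousAt (fun z => gg (z + 1 / 2)) z :=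
    ContinuousAt.comp (g := gg) (f := fun z => z + 1 / 2) (continuousAt_gg' (two_add_half hz))
      (by fun_prop)
  exact (continuousAt_gg' hz).add (h1.const_mul s)

/-! ### The squares -/

/-- the abscissa of `lm ^ 2 z` -/
theorem X_lm2 {z : ℂ} (hz : 2 * (lm * z) ∉ PP.lattice) :
    X (lm ^ 2 * z) * (4 * X z * (X z ^ 2 - 1)) = -(X z ^ 2 + 1) ^ 2 := by
  have a := X_lm (two_of hz)
  have b := X_lm hz
  have e : lm * (lm * z) = lm ^ 2 * z := by ring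
  rw [e] at b
  obtain ⟨x, hx⟩ : ∃ x, x = X z := ⟨_, rfl⟩
  obtain ⟨x1, hx1⟩ : ∃ x1, x1 = X (lm * z) := ⟨_, rfl⟩
  obtain ⟨x2, hx2⟩ : ∃ x2, x2 = X (lm ^ 2 * z) := ⟨_, rfl⟩
  rw [← hx, ← hx1] at a
  rw [← hx1, ← hx2] at b
  rw [← hx, ← hx2]
  linear_combination 4 * x ^ 2 * b - 4 * x2 * x * a + 4 * x ^ 2 * x1 ^ 2 * zt_sq -
    (2 * zt * x1 * x + (x ^ 2 - 1)) * a

/-- the denominator in terms of the abscissa of `lm ^ 2 z` -/
theorem P4J_eq {z : ℂ} (hz : 2 * (lm * z) ∉ PP.lattice) :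
    P4J (X z) = -(4 * X z * (X z ^ 2 - 1)) * (X (lm ^ 2 * z) + zt) := by
  have h := X_lm2 hz
  rw [P4J]
  linear_combination h

theorem P4J_ne {z : ℂ} (hz : 2 * (lm ^ 3 * z) ∉ PP.lattice) : P4J (X z) ≠ 0 := by
  have e : lm * (lm ^ 2 * z) = lm ^ 3 * z := by ring
  have h1 : 2 * (lm * (lm ^ 2 * z)) ∉ PP.lattice := by rwa [e]
  have h2 : 2 * (lm * z) ∉ PP.lattice := two_lm_of (two_of h1)
  rw [P4J_eq h2]
  have h3 := two_of h2
  exact mul_ne_zero (neg_ne_zero.2 (mul_ne_zero (mul_ne_zero (by norm_num) (X_ne h3))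
    (X_sq_ne h3))) (X_add_zt_ne h1).1

/-- the ordinate of `lm ^ 2 z` -/
theorem gX_lm2 {z : ℂ} (hz : 2 * (lm ^ 2 * z) ∉ PP.lattice) :
    gg (lm ^ 2 * z) * X (lm ^ 2 * z) * (8 * X z ^ 2 * (X z ^ 2 - 1) ^ 2) =
      zt * yh z * (X z ^ 4 - 6 * X z ^ 2 + 1) * (X z ^ 2 + 1) := by
  have hz1 : 2 * (lm * z) ∉ PP.lattice := two_lm_of hz
  have hz0 := two_of hz1
  have hz2 : 2 * (lm * (lm * z)) ∉ PP.lattice := by
    have e : lm * (lm * z) = lm ^ 2 * z := by ring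
    rwa [e]
  have a := X_lm hz0
  have r1 := X_lm2 hz1
  have c := gg_lm hz1
  have d := gg_lm hz2
  have hD := X_sq_add_ne hz1
  have hy := gg_mul hz0
  have e : lm * (lm * z) = lm ^ 2 * z := by ring
  rw [e] at d
  rw [hy] at c
  obtain ⟨x, hx⟩ : ∃ x, x = X z := ⟨_, rfl⟩
  obtain ⟨x1, hx1⟩ : ∃ x1, x1 = X (lm * z) := ⟨_, rfl⟩
  obtain ⟨x2, hx2⟩ : ∃ x2, x2 = X (lm ^ 2 * z) := ⟨_, rfl⟩
  obtain ⟨g1, hg1⟩ : ∃ g1, g1 = gg (lm * z) := ⟨_, rfl⟩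
  obtain ⟨g2, hg2⟩ : ∃ g2, g2 = gg (lm ^ 2 * z) := ⟨_, rfl⟩
  obtain ⟨y, hy'⟩ : ∃ y, y = yh z := ⟨_, rfl⟩
  rw [← hx, ← hx1] at a
  rw [← hx, ← hx2] at r1
  rw [← hx, ← hg1, ← hy'] at c
  rw [← hx1, ← hg1, ← hg2] at d
  rw [← hx] at hD
  rw [← hx, ← hx2, ← hg2, ← hy']
  -- `2 x g2 (x ^ 2 - 1) (x ^ 2 + 1) = - i y (x ^ 4 - 6 x ^ 2 + 1)`
  have r3 : 2 * x * g2 * (x ^ 2 - 1) * (x ^ 2 + 1) = -(zt * y * (x ^ 4 - 6 * x ^ 2 + 1)) := by
    have r4 : g2 * x1 * (x ^ 2 + 1) = y * (x1 ^ 2 + 1) := by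
      linear_combination y * d - g2 * x1 * c
    linear_combination 4 * zt * x ^ 2 * r4 - 2 * x * g2 * (x ^ 2 + 1) * a -
      zt * y * (2 * zt * x1 * x + (x ^ 2 - 1)) * a + 4 * zt * y * x ^ 2 * x1 ^ 2 * zt_sq
  apply mul_right_cancel₀ hD
  linear_combination 4 * x * (x ^ 2 - 1) * x2 * r3 -
    zt * y * (x ^ 4 - 6 * x ^ 2 + 1) * r1

/-- **the squares** -/
theorem HS_closed_sq {s z : ℂ} (hs : s ^ 2 = 1) (hz : 2 * (lm ^ 3 * z) ∉ PP.lattice) :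
    (HS s (pe ^ 5 + z) * P4J (X z)) ^ 2 = (HS s (pe ^ 5) * NJ s (X z) (yh z)) ^ 2 := by
  have e3 : lm * (lm ^ 2 * z) = lm ^ 3 * z := by ring
  have hz3 : 2 * (lm * (lm ^ 2 * z)) ∉ PP.lattice := by rwa [e3]
  have hz2 : 2 * (lm ^ 2 * z) ∉ PP.lattice := two_of hz3
  have hz1 : 2 * (lm * z) ∉ PP.lattice := two_lm_of hz2
  have hz0 := two_of hz1
  have hd : 2 * (lm * (pe ^ 5 + z)) ∉ PP.lattice := by
    intro h
    apply hz3
    have h1 := lm_mem_mul (lm_mem_mul h)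
    have e : 2 * (lm * (lm ^ 2 * z)) = lm * (lm * (2 * (lm * (pe ^ 5 + z)))) -
        2 * (lm ^ 3 * pe ^ 3 * pe ^ 2) := by ring
    rw [e]
    refine sub_mem h1 ?_
    have e1 : 2 * (lm ^ 3 * pe ^ 3 * pe ^ 2) = -zt := by
      have h2 := pe_sq (hq := hq)
      rw [← mul_pow, lm_mul_pe, one_pow]
      linear_combination (-zt) * h2 + 2 * pe ^ 2 * zt_sq
    rw [e1]
    exact neg_mem zt_mem
  have h1 := HS_sq hs hd
  have h2 := HS_base_sq hs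
  have e4 : lm ^ 2 * (pe ^ 5 + z) = lm ^ 2 * z + pe ^ 3 := by
    linear_combination lm2_pe5 (hq := hq)
  rw [e4] at h1
  have h3 := X_add_pe3 hz3
  have h4 := P4J_eq hz1
  have h5 := gX_lm2 hz2
  have h6 := X_lm2 hz1
  have h7 := yh_sq (notMem_of_two_mul hz0)
  have h8 := s8_sq (hq := hq)
  have h9 : lm = 1 + zt := rfl
  rw [yh_pe3] at h3
  rw [mul_pow, mul_pow, h1, h2]
  obtain ⟨x, hx⟩ : ∃ x, x = X z := ⟨_, rfl⟩
  obtain ⟨x2, hx2⟩ : ∃ x2, x2 = X (lm ^ 2 * z) := ⟨_, rfl⟩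
  obtain ⟨g2, hg2⟩ : ∃ g2, g2 = gg (lm ^ 2 * z) := ⟨_, rfl⟩
  obtain ⟨y, hy'⟩ : ∃ y, y = yh z := ⟨_, rfl⟩
  obtain ⟨W, hW⟩ : ∃ W, W = X (lm ^ 2 * z + pe ^ 3) := ⟨_, rfl⟩
  obtain ⟨P, hP⟩ : ∃ P, P = P4J x := ⟨_, rfl⟩
  rw [← hx2, ← hg2, ← hW] at h3
  rw [← hx, ← hx2, ← hP] at h4
  rw [← hx, ← hx2, ← hg2, ← hy'] at h5
  rw [← hx, ← hx2] at h6
  rw [← hx, ← hy'] at h7
  rw [← hx, ← hW, ← hy', ← hP]
  have hP2 : P = x ^ 4 - 4 * zt * x ^ 3 + 2 * x ^ 2 + 4 * zt * x + 1 := by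
    rw [hP, P4J]
  -- `(W + s) P ^ 2 = - i Pb ^ 2 + 4 s8 lm i y C D + s P ^ 2`
  have key : (W + s) * P ^ 2 = -(zt * (x ^ 4 + 4 * zt * x ^ 3 + 2 * x ^ 2 - 4 * zt * x + 1) ^ 2) +
      4 * s8 * lm * (zt * y * (x ^ 4 - 6 * x ^ 2 + 1) * (x ^ 2 + 1)) + s * P ^ 2 := by
    have k1 : W * P ^ 2 = 16 * x ^ 2 * (x ^ 2 - 1) ^ 2 * (W * (x2 + zt) ^ 2) := by
      rw [h4]
      ring
    have k2 : 4 * x * (x ^ 2 - 1) * (x2 - zt) =
        -(x ^ 4 + 4 * zt * x ^ 3 + 2 * x ^ 2 - 4 * zt * x + 1) := by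
      linear_combination h6
    linear_combination k1 + 16 * x ^ 2 * (x ^ 2 - 1) ^ 2 * h3 + 4 * s8 * lm * h5 -
      zt * (4 * x * (x ^ 2 - 1) * (x2 - zt) -
        (x ^ 4 + 4 * zt * x ^ 3 + 2 * x ^ 2 - 4 * zt * x + 1)) * k2
  have hs1 : (s - 1) * (s + 1) = 0 := by linear_combination hs
  rw [NJ]
  have main : (W + s) * P ^ 2 = (s - zt) * ((x ^ 2 + 1) * (x ^ 2 + 2 * s * x - 1) -
      kJ s * s8 * y * (x ^ 2 - 2 * s * x - 1)) ^ 2 := by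
    rw [key, h9, hP2]
    rcases mul_eq_zero.1 hs1 with h | h
    · have h' : s = 1 := by linear_combination h
      rw [h', kJ_one]
      linear_combination (4 * x ^ 4 * y ^ 2 * zt - 4 * x ^ 4 * y ^ 2 - 16 * x ^ 3 * y ^ 2 * zt +
        16 * x ^ 3 * y ^ 2 + 8 * x ^ 2 * y ^ 2 * zt - 8 * x ^ 2 * y ^ 2 + 16 * x * y ^ 2 * zt -
        16 * x * y ^ 2 + 4 * y ^ 2 * zt - 4 * y ^ 2) * h8 +
        (4 * x ^ 4 * zt - 4 * x ^ 4 - 16 * x ^ 3 * zt + 16 * x ^ 3 + 8 * x ^ 2 * zt - 8 * x ^ 2 +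
        16 * x * zt - 16 * x + 4 * zt - 4) * h7 +
        (-8 * x ^ 7 + 4 * x ^ 6 * y * s8 - 16 * x ^ 6 * zt + 16 * x ^ 6 - 8 * x ^ 5 -
        20 * x ^ 4 * y * s8 + 32 * x ^ 4 * zt - 32 * x ^ 4 + 8 * x ^ 3 - 20 * x ^ 2 * y * s8 -
        16 * x ^ 2 * zt + 16 * x ^ 2 + 8 * x + 4 * y * s8) * zt_sq
    · have h' : s = -1 := by linear_combination h
      rw [h', kJ_neg_one]
      linear_combination (4 * x ^ 4 * y ^ 2 * zt ^ 3 + 4 * x ^ 4 * y ^ 2 * zt ^ 2 +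
        16 * x ^ 3 * y ^ 2 * zt ^ 3 + 16 * x ^ 3 * y ^ 2 * zt ^ 2 + 8 * x ^ 2 * y ^ 2 * zt ^ 3 +
        8 * x ^ 2 * y ^ 2 * zt ^ 2 - 16 * x * y ^ 2 * zt ^ 3 - 16 * x * y ^ 2 * zt ^ 2 +
        4 * y ^ 2 * zt ^ 3 + 4 * y ^ 2 * zt ^ 2) * h8 +
        (4 * x ^ 4 * zt ^ 3 + 4 * x ^ 4 * zt ^ 2 + 16 * x ^ 3 * zt ^ 3 + 16 * x ^ 3 * zt ^ 2 +
        8 * x ^ 2 * zt ^ 3 + 8 * x ^ 2 * zt ^ 2 - 16 * x * zt ^ 3 - 16 * x * zt ^ 2 + 4 * zt ^ 3 +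
        4 * zt ^ 2) * h7 +
        (4 * x ^ 7 * zt - 4 * x ^ 7 + 4 * x ^ 5 * zt - 4 * x ^ 5 - 4 * x ^ 3 * zt + 4 * x ^ 3 -
        4 * x * zt + 4 * x) * zt_sq
  linear_combination (-4) * main

/-! ### The sign -/

theorem NJ_ne {s z : ℂ} (hs : s ^ 2 = 1) (hz : 2 * (lm ^ 3 * z) ∉ PP.lattice) :
    NJ s (X z) (yh z) ≠ 0 := by
  intro h
  have h1 := HS_closed_sq hs hz
  rw [h, mul_zero, zero_pow two_ne_zero, mul_pow] at h1
  have h2 : HS s (pe ^ 5 + z) ^ 2 = 0 :=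
    (mul_eq_zero.1 h1).resolve_right (pow_ne_zero 2 (P4J_ne hz))
  have e3 : lm * (lm ^ 2 * z) = lm ^ 3 * z := by ring
  have hz3 : 2 * (lm * (lm ^ 2 * z)) ∉ PP.lattice := by rwa [e3]
  have hd2 : 2 * (lm ^ 2 * (pe ^ 5 + z)) ∉ PP.lattice := by
    intro h
    apply hz3
    have h1 := lm_mem_mul h
    have e : 2 * (lm * (lm ^ 2 * z)) = lm * (2 * (lm ^ 2 * (pe ^ 5 + z))) -
        2 * (lm ^ 3 * pe ^ 3 * pe ^ 2) := by ring
    rw [e]
    refine sub_mem h1 ?_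
    have e1 : 2 * (lm ^ 3 * pe ^ 3 * pe ^ 2) = -zt := by
      have h2 := pe_sq (hq := hq)
      rw [← mul_pow, lm_mul_pe, one_pow]
      linear_combination (-zt) * h2 + 2 * pe ^ 2 * zt_sq
    rw [e1]
    exact neg_mem zt_mem
  rw [HS_sq hs (two_lm_of hd2)] at h2
  apply X_sq_ne hd2
  linear_combination (-(1 / 4) * (X (lm ^ 2 * (pe ^ 5 + z)) - s)) * h2 + hs

/-- **(1.2) The closed form** -/
theorem HS_closed {s z : ℂ} (hs : s ^ 2 = 1) (hz : 2 * (lm ^ 3 * z) ∉ PP.lattice) :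
    HS s (pe ^ 5 + z) * P4J (X z) = HS s (pe ^ 5) * NJ s (X z) (yh z) := by
  obtain ⟨U, hU⟩ : ∃ U : Set ℂ, U = {z : ℂ | 2 * (lm ^ 3 * z) ∈ PP.lattice} := ⟨_, rfl⟩
  have hne : (2 * lm ^ 3 : ℂ) ≠ 0 := mul_ne_zero two_ne_zero (pow_ne_zero 3 lm_ne)
  have hc : U.Countable := by
    have h1 := countable_lat.preimage_of_injOn (f := fun w : ℂ => (2 * lm ^ 3) * w)
      (fun x _ y _ h => mul_left_cancel₀ hne h)
    refine h1.mono fun z hz => ?_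
    rw [hU] at hz
    change (2 * lm ^ 3) * z ∈ PP.lattice
    rw [mul_assoc]
    exact hz
  have hP : IsPreconnected Uᶜ := isPreconnected_compl_of_countable hc
  have hmem : ∀ z ∈ Uᶜ, 2 * (lm ^ 3 * z) ∉ PP.lattice := by
    intro z hz h
    apply hz
    rw [hU]
    exact h
  have hmem' : ∀ z, 2 * (lm ^ 3 * z) ∉ PP.lattice → z ∈ Uᶜ := by
    intro z hz h
    rw [hU] at h
    exact hz h
  have hcX : ∀ z ∉ PP.lattice, ContinuousAt X z := fun z hz => (Pool.Agent.Lib.MP_1a91b9_nuT.Rq.hasDerivAt_X hz).continuousAt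
  have hcy : ∀ z ∉ PP.lattice, ContinuousAt yh z := fun z hz => by
    have h1 : ContinuousAt Y z := (differentiableAt_Q hz).continuousAt.div_const _
    exact h1.div_const 2
  -- continuity
  have hcf : ∀ z ∉ PP.lattice, 2 * (pe ^ 5 + z) ∉ PP.lattice →
      ContinuousAt (fun z => HS s (pe ^ 5 + z) * P4J (X z)) z := by
    intro z hz hz2
    have h1 : ContinuousAt (fun z => HS s (pe ^ 5 + z)) z :=
      ContinuousAt.comp (g := HS s) (f := fun z => pe ^ 5 + z) (continuousAt_HS s hz2)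
        (by fun_prop)
    have h2 := hcX z hz
    have h3 : ContinuousAt (fun z => P4J (X z)) z := by
      unfold P4J
      fun_prop
    exact h1.mul h3
  have hcg : ∀ z ∉ PP.lattice, ContinuousAt (fun z => HS s (pe ^ 5) * NJ s (X z) (yh z)) z := by
    intro z hz
    have h2 := hcX z hz
    have h3 := hcy z hz
    unfold NJ
    fun_prop
  have hd0 : ∀ z, 2 * (lm ^ 3 * z) ∉ PP.lattice → z ∉ PP.lattice ∧ 2 * (pe ^ 5 + z) ∉ PP.lattice := by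
    intro z hz
    refine ⟨fun h => hz ?_, fun h => hz ?_⟩
    · have h1 := two_mem (lm_mem_mul (lm_mem_mul (lm_mem_mul h)))
      have e : 2 * (lm ^ 3 * z) = 2 * (lm * (lm * (lm * z))) := by ring
      rw [e]
      exact h1
    · have h1 := lm_mem_mul (lm_mem_mul (lm_mem_mul h))
      have e : 2 * (lm ^ 3 * z) = lm * (lm * (lm * (2 * (pe ^ 5 + z)))) -
          2 * (lm ^ 3 * pe ^ 3 * pe ^ 2) := by ring
      rw [e]
      refine sub_mem h1 ?_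
      have e1 : 2 * (lm ^ 3 * pe ^ 3 * pe ^ 2) = -zt := by
        have h2 := pe_sq (hq := hq)
        rw [← mul_pow, lm_mul_pe, one_pow]
        linear_combination (-zt) * h2 + 2 * pe ^ 2 * zt_sq
      rw [e1]
      exact neg_mem zt_mem
  -- the constant sign
  have key : ∃ c : ℂ, c ^ 2 = 1 ∧ ∀ z ∈ Uᶜ,
      HS s (pe ^ 5 + z) * P4J (X z) = c * (HS s (pe ^ 5) * NJ s (X z) (yh z)) := by
    have hf : ContinuousOn (fun z => HS s (pe ^ 5 + z) * P4J (X z)) Uᶜ := fun z hz =>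
      (hcf z (hd0 z (hmem z hz)).1 (hd0 z (hmem z hz)).2).continuousWithinAt
    have hg : ContinuousOn (fun z => HS s (pe ^ 5) * NJ s (X z) (yh z)) Uᶜ := fun z hz =>
      (hcg z (hd0 z (hmem z hz)).1).continuousWithinAt
    have hsq : Set.EqOn ((fun z => HS s (pe ^ 5 + z) * P4J (X z)) ^ 2)
        ((fun z => HS s (pe ^ 5) * NJ s (X z) (yh z)) ^ 2) Uᶜ := fun z hz =>
      HS_closed_sq hs (hmem z hz)
    rcases hP.eq_or_eq_neg_of_sq_eq hf hg hsq (fun {z} hz =>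
      mul_ne_zero (HS_base_ne hs) (NJ_ne hs (hmem z hz))) with h | h
    · refine ⟨1, by norm_num, fun z hz => ?_⟩
      rw [one_mul]
      exact h hz
    · refine ⟨-1, by norm_num, fun z hz => ?_⟩
      have h2 := h hz
      simp only [Pi.neg_apply] at h2
      rw [h2]
      ring
  obtain ⟨c, hc1, hc2⟩ := key
  -- the value at `pe`
  have hpe : pe ∉ PP.lattice := pe_notMem
  have hpe5 : 2 * (pe ^ 5 + pe) ∉ PP.lattice := two_add_pe (by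
    intro h
    have h1 := lm_mem_mul h
    have e : lm * (2 * pe ^ 5) = 2 * pe ^ 4 := by
      linear_combination 2 * pe ^ 4 * lm_mul_pe (hq := hq)
    rw [e] at h1
    exact two_pe4_notMem h1)
  have hval : HS s (pe ^ 5 + pe) * P4J (X pe) = c * (HS s (pe ^ 5) * NJ s (X pe) (yh pe)) := by
    have h1 : ContinuousAt (fun z => HS s (pe ^ 5 + z) * P4J (X z) -
        c * (HS s (pe ^ 5) * NJ s (X z) (yh z))) pe :=
      (hcf pe hpe hpe5).sub ((hcg pe hpe).const_mul c)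
    have h2 : (nhdsWithin pe Uᶜ).NeBot :=
      mem_closure_iff_nhdsWithin_neBot.1 (hc.dense_compl ℂ pe)
    have h3 := h1.tendsto.mono_left (nhdsWithin_le_nhds (s := Uᶜ))
    have h4 : Filter.Tendsto (fun z => HS s (pe ^ 5 + z) * P4J (X z) -
        c * (HS s (pe ^ 5) * NJ s (X z) (yh z))) (nhdsWithin pe Uᶜ) (nhds 0) := by
      refine tendsto_const_nhds.congr' ?_
      filter_upwards [self_mem_nhdsWithin] with w hw
      rw [hc2 w hw, sub_self]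
    exact sub_eq_zero.1 (tendsto_nhds_unique h3 h4)
  have hy : yh pe = 0 := by
    have h := yh_sq hpe
    rw [X_pe] at h
    apply (pow_eq_zero_iff two_ne_zero).1
    rw [h]
    ring
  rw [HS_add_pe, X_pe, hy, P4J, NJ] at hval
  have hc3 : c = 1 := by
    have hK := HS_base_ne (hq := hq) hs
    apply mul_right_cancel₀ hK
    linear_combination hval
  have h5 := hc2 z (hmem' z hz)
  rwa [hc3, one_mul] at h5

end

/-- the closed form of the values of the class -/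
theorem UB_closed {k : ZMod 4} (hk : k = 0 ∨ k = 2) {z : ℂ} (hz : 2 * (lm ^ 3 * z) ∉ PP.lattice) :
    UB k 2 ((em (fB k 2))⁻¹ + z) * P4J (X z) =
      UB k 2 (em (fB k 2))⁻¹ * NJ (sJ k) (X z) (yh z) := by
  rw [em_fB2 hk, UB_sJ hk, UB_sJ hk]
  linear_combination (-Om) * HS_closed (sJ_sq k) hz

end

end Pool.Agent.Lib.MP_1a91b9_ntQ
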