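import Pool.Agent.Lib.MP_1a91b9_ntQ.B.CritB

/-!
# MP_1a91b9_nt (quartic twists), part B: the condition at `lam` for the Selmer elements, all the
fourth-power-free `D = i ^ k lam ^ j c`
-/

set_option autoImplicit false

namespace Pool.Agent.Lib.MP_1a91b9_ntQ

open NumberField

noncomputable section

/-- **The condition at `lam`** for `D = i ^ k lam ^ j c` and the Selmer element
`i ^ α lam ^ w y` up to squares (`c`, `y` primary), `A = aa y`, `L = bb y`, after multiplication by a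
power of `D`. -/
structure LamC (k : ZMod 4) (j : Fin 4) (c : 𝓞 K4) (α w A L : ZMod 2) : Prop where
  /-- class I -/
  c1 : j = 0 → md k = 1 → α = 0 ∧ w = 0
  /-- classes II and III -/
  c2 : j = 0 → md k = 0 → aa c = 1 → α = 0 ∧ w = 0
  /-- class (X), `D = - 1` modulo `4` -/
  x1 : j = 0 → k = 2 → aa c = 0 → w = 0 ∧ A = α * hf4 (nn c)
  /-- class (X), `D = 1` modulo `4`, first order -/
  x2 : j = 0 → k = 0 → aa c = 0 → hf4 (nn c) + bb c = 1 → α = 0 ∧ w = 0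
  /-- class (X), `D = 1` modulo `4`, second order -/
  x3 : j = 0 → k = 0 → aa c = 0 → hf4 (nn c) + bb c = 0 → w = 0 ∧ A = α * xl4 (llB c)
  /-- class (E) -/
  e : j = 1 → w = 0 ∧ A = α * xk4 k
  /-- class J3 -/
  j3 : j = 3 → α = 0 ∧ w = 0
  /-- class J2a -/
  a2 : j = 2 → k = 1 → α = 0 ∧ w = 0
  /-- class J2b -/
  b2 : j = 2 → k = 3 → α = 0 ∧ L = w * uB3 (mmB c) (nnB c)
  /-- class J2c, `k = 0` -/
  c20 : j = 2 → k = 0 → bb c = 1 → α = 0 ∧ w = 0
  /-- class J2c, `k = 2` -/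
  c22 : j = 2 → k = 2 → aa c + bb c = 1 → α = 0 ∧ w = 0
  /-- class J2d, `k = 0` -/
  d20 : j = 2 → k = 0 → bb c = 0 → α = 0 ∧ L = w * uB0 (mmB c) (nnB c)
  /-- class J2d, `k = 2` -/
  d22 : j = 2 → k = 2 → aa c + bb c = 0 → α = w ∧ A + L = w * uB2 (mmB c) (nnB c)

end

end Pool.Agent.Lib.MP_1a91b9_ntQ
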