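import Pool.Agent.Lib.MP_1a91b9_ntQ.C.ConvG
import Pool.Agent.Lib.MP_1a91b9_ntQ.B.LamD

/-!
# MP_1a91b9_nt (quartic twists), part B, converse of the descent: the condition at `lam`, `j = 0` and
`j = 1`

`D = i ^ k lam ^ j c`, `a = i ^ α lam ^ w y`, `c` and `y` primary. The condition `LamC` and the sum of
the rows give the local condition at `lam`.
-/

set_option autoImplicit false
set_option linter.unusedSectionVars false
set_option linter.unusedVariables false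

namespace Pool.Agent.Lib.MP_1a91b9_ntQ.C

open NumberField Finset WithZero IsDedekindDomain Pool.Agent.Lib.MP_1a91b9_nuT
open Pool.Agent.Lib.MP_1a91b9_ntQ
open Pool.Agent.Lib.MP_1a91b9_ntH.C (Sq exists_nu isSquare_exp nu_one)

noncomputable section

private theorem cvg_md' (k : ZMod 4) : md k = 1 ∨ md k = 0 := by
  revert k
  decide

private theorem cvg_mk' {k : ZMod 4} (h : md k = 0) : k = 0 ∨ k = 2 := by
  revert k
  decide

/-- the class `i ^ s y` times `i ^ s z` -/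
theorem C4_yz {y z : 𝓞 K} (hy : In4 y) (hz : In4 z) (s : ZMod 2) (h : aa y + aa z = 0) :
    C4 nuL (((iO ^ s.val * y : 𝓞 K) : K) * ((iO ^ s.val * z : 𝓞 K) : K)) := by
  have h0 : ∀ e : ZMod 2, e = 0 ∨ e = 1 := by decide
  have h5 := C4_of_in4 (hy.mul hz) (by rw [aa_mul hy hz]; exact h)
  rcases h0 s with rfl | rfl
  · rw [ZMod.val_zero, pow_zero, one_mul, one_mul, ← coe_mul']
    exact h5
  · refine C4.neg iK_sq' ?_
    have h1 : ((1 : ZMod 2)).val = 1 := rfl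
    rw [h1, pow_one]
    have e : -((iO * y : 𝓞 K) : K) * ((iO * z : 𝓞 K) : K) = ((y * z : 𝓞 K) : K) := by
      rw [coe_mul', coe_mul', coe_mul']
      linear_combination (-(y : K) * (z : K)) * iK_sq'
    rw [← neg_mul]
    exact Eq.mpr (congrArg (C4 nuL) e) h5

/-- the value of `D`, `j = 0` -/
theorem nuL_kc (k : ZMod 4) {c : 𝓞 K} (hc : In4 c) : nuL ((iO ^ k.val * c : 𝓞 K) : K) = 1 :=
  pv_one prime_lam fun h => (prime_lam.dvd_or_dvd h).elim
    (fun h1 => not_dvd_of_unit prime_lam (isUnit_iO.pow _) h1) hc.not_lam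

/-- the classes `D = ± 1` modulo `4`, with the local image generated by `w` -/
theorem lcv_w {k : ZMod 4} {c y z : 𝓞 K} (hc : In4 c) (hy : In4 y) (hz : In4 z) {α : ZMod 2}
    (h : aa y = α * aa z)
    (hloc : ∀ a : K, C4 nuL a ∨ C4 nuL (a * ((iO ^ (1 : ZMod 2).val * z : 𝓞 K) : K)) →
      GLoc4 nuL ((iO ^ k.val * c : 𝓞 K) : K) a) :
    GLoc4 nuL ((iO ^ k.val * c : 𝓞 K) : K) ((iO ^ α.val * y : 𝓞 K) : K) := by
  have h2 : ∀ x : ZMod 2, x = 0 ∨ x = 1 := by decide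
  rcases h2 α with rfl | rfl
  · rw [zero_mul] at h
    refine hloc _ (Or.inl ?_)
    rw [ZMod.val_zero, pow_zero, one_mul]
    exact C4_of_in4 hy h
  · refine hloc _ (Or.inr (C4_yz hy hz 1 ?_))
    rw [h, one_mul]
    have h3 : ∀ x : ZMod 2, x + x = 0 := by decide
    exact h3 _

/-- `D = - 1` modulo `4` -/
theorem lcv_X1 {c y : 𝓞 K} (hc : In4 c) (hy : In4 y) (ha : aa c = 0) {α : ZMod 2}
    (h : aa y = α * hf4 (nn c)) :
    GLoc4 nuL ((iO ^ (2 : ZMod 4).val * c : 𝓞 K) : K) ((iO ^ α.val * y : 𝓞 K) : K) := by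
  obtain ⟨c', d, h1, h2, h3⟩ := form4 hc ha
  have h2' : hf4 (nn c) = (c' : ZMod 2) := by
    rw [h2]
    exact hf_two c'
  rw [h2'] at h
  obtain ⟨ρ, hρ⟩ : ∃ ρ : ZMod 2, ρ = (c' : ZMod 2) := ⟨_, rfl⟩
  obtain ⟨n, hn⟩ : ∃ n : ZMod 2, n = (d : ZMod 2) := ⟨_, rfl⟩
  obtain ⟨c'', hc''⟩ := digit2 c'
  obtain ⟨d'', hd''⟩ := digit2 d
  rw [← hρ] at hc'' h
  rw [← hn] at hd''
  have hD : ((iO ^ (2 : ZMod 4).val * c : 𝓞 K) : K) = -1 * (1 + 4 * ((ρ.val : K) +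
      (iO : K) * (n.val : K) + (1 + (iO : K)) ^ 2 * (-(iO : K) * (c'' : K) + (d'' : K)))) := by
    have e : iO ^ (2 : ZMod 4).val * c = -1 * (1 + 4 * ((ρ.val : 𝓞 K) + iO * (n.val : 𝓞 K) +
        (1 + iO) ^ 2 * (-iO * (c'' : 𝓞 K) + (d'' : 𝓞 K)))) := by
      rw [h1, hc'', hd'']
      have e2 : ((2 : ZMod 4)).val = 2 := rfl
      rw [e2]
      push_cast
      linear_combination (1 + 4 * ((ρ.val : 𝓞 K) + 2 * (c'' : 𝓞 K) + ((n.val : 𝓞 K) +
        2 * (d'' : 𝓞 K)) * iO) + 4 * (d'' - iO * c'' - 2 * c'') ) * iO_sq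
    rw [e]
    push_cast
    rfl
  have hv : nuL (-(iO : K) * (c'' : K) + (d'' : K)) ≤ 1 := by
    have h5 := nuL_O (-iO * (c'' : 𝓞 K) + (d'' : 𝓞 K))
    push_cast at h5
    exact h5
  have h5 := aa_form (ρ.val : ℤ) 0
  have e : (1 + lam ^ 3 * ((((ρ.val : ℕ) : ℤ) : 𝓞 K4) + ((0 : ℤ) : 𝓞 K4) * iO)) =
      1 + lam ^ 3 * (ρ.val : 𝓞 K4) := by
    push_cast
    ring
  rw [e] at h5
  refine lcv_w (z := 1 + lam ^ 3 * (ρ.val : 𝓞 K)) hc hy ?_ ?_ (fun a ha => ?_)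
  · exact ⟨(ρ.val : 𝓞 K), by ring⟩
  · rw [h, h5]
    push_cast
    rw [add_zero, ZMod.natCast_val, ZMod.cast_id]
  · refine locC_X1 iK_sq' nuL_two nuL_res (coe_val01 ρ) (coe_val01 n) hv rfl hD (ha.imp_right ?_)
    intro h7
    have hv1 : ((1 : ZMod 2)).val = 1 := rfl
    have e : ((iO ^ (1 : ZMod 2).val * (1 + lam ^ 3 * (ρ.val : 𝓞 K)) : 𝓞 K) : K) =
        (iO : K) ^ 1 * (1 + (1 + (iO : K)) ^ 3 * (ρ.val : K)) := by
      rw [← lam_coe, hv1]
      push_cast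
      rfl
    exact Eq.mp (congrArg (fun t : K => C4 nuL (a * t)) e) h7

/-- `D = 1` modulo `4`, first order -/
theorem lcv_X2 {c y : 𝓞 K} (hc : In4 c) (hy : In4 y) (ha : aa c = 0)
    (hcc : hf4 (nn c) + bb c = 1) :
    GLoc4 nuL ((iO ^ (0 : ZMod 4).val * c : 𝓞 K) : K) (y : K) := by
  obtain ⟨c', d, h1, h2, h3⟩ := form4 hc ha
  have h2' : hf4 (nn c) = (c' : ZMod 2) := by
    rw [h2]
    exact hf_two c'
  rw [h2', h3] at hcc
  have hn : (d : ZMod 2) = 1 := by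
    push_cast at hcc
    have h4 : ∀ c d : ZMod 2, c + (c + d) = 1 → d = 1 := by decide
    exact h4 _ _ hcc
  obtain ⟨ρ, hρ⟩ : ∃ ρ : ZMod 2, ρ = (c' : ZMod 2) := ⟨_, rfl⟩
  obtain ⟨c'', hc''⟩ := digit2 c'
  obtain ⟨d'', hd''⟩ := digit2 d
  rw [← hρ] at hc''
  rw [hn] at hd''
  have hv1 : ((1 : ZMod 2)).val = 1 := rfl
  rw [hv1] at hd''
  have hD : ((iO ^ (0 : ZMod 4).val * c : 𝓞 K) : K) = 1 * (1 + 4 * ((ρ.val : K) + (iO : K) +
      (1 + (iO : K)) ^ 2 * (-(iO : K) * (c'' : K) + (d'' : K)))) := by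
    have e : iO ^ (0 : ZMod 4).val * c = 1 * (1 + 4 * ((ρ.val : 𝓞 K) + iO +
        (1 + iO) ^ 2 * (-iO * (c'' : 𝓞 K) + (d'' : 𝓞 K)))) := by
      rw [h1, hc'', hd'']
      have e2 : ((0 : ZMod 4)).val = 0 := rfl
      rw [e2]
      push_cast
      linear_combination (-4 * (d'' - iO * c'' - 2 * c'')) * iO_sq
    rw [e]
    push_cast
    rfl
  have hv : nuL (-(iO : K) * (c'' : K) + (d'' : K)) ≤ 1 := by
    have h5 := nuL_O (-iO * (c'' : 𝓞 K) + (d'' : 𝓞 K))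
    push_cast at h5
    exact h5
  have hz : In4 (1 + lam ^ 3 * 1) := ⟨1, by ring⟩
  have haz : aa (1 + lam ^ 3 * 1) = 1 := by
    have h5 := aa_form 1 0
    have e : (1 + lam ^ 3 * (((1 : ℤ) : 𝓞 K4) + ((0 : ℤ) : 𝓞 K4) * iO)) =
        1 + lam ^ 3 * 1 := by
      push_cast
      ring
    rw [e] at h5
    rw [h5]
    decide
  refine locC_X2 iK_sq' nuL_two nuL_res (coe_val01 ρ) hv rfl hD ?_
  have h0 : ∀ x : ZMod 2, x = 0 ∨ x = 1 := by decide
  rcases h0 (aa y) with hs | hs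
  · exact Or.inl (C4_of_in4 hy hs)
  · right
    have h7 := C4_yz hy hz 0 (by rw [hs, haz]; decide)
    have e : ((iO ^ (0 : ZMod 2).val * (1 + lam ^ 3 * 1) : 𝓞 K) : K) =
        (iO : K) ^ 0 * (1 + (1 + (iO : K)) ^ 3 * 1) := by
      rw [← lam_coe]
      push_cast
      rfl
    have e1 : ((iO ^ (0 : ZMod 2).val * y : 𝓞 K) : K) = (y : K) := by
      rw [ZMod.val_zero, pow_zero, one_mul]
      rfl
    rw [e1] at h7
    exact Eq.mp (congrArg (fun t : K => C4 nuL ((y : K) * t)) e) h7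

/-- `D = 1` modulo `4`, second order -/
theorem lcv_X3 {c y : 𝓞 K} (hc : In4 c) (hy : In4 y) (ha : aa c = 0)
    (hcc : hf4 (nn c) + bb c = 0) {α : ZMod 2} (h : aa y = α * xl4 (llB c)) :
    GLoc4 nuL ((iO ^ (0 : ZMod 4).val * c : 𝓞 K) : K) ((iO ^ α.val * y : 𝓞 K) : K) := by
  obtain ⟨c', d, h1, h2, h3⟩ := form4 hc ha
  have h2' : hf4 (nn c) = (c' : ZMod 2) := by
    rw [h2]
    exact hf_two c'
  rw [h2', h3] at hcc
  have hd : (d : ZMod 2) = 0 := by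
    push_cast at hcc
    have h4 : ∀ c d : ZMod 2, c + (c + d) = 0 → d = 0 := by decide
    exact h4 _ _ hcc
  obtain ⟨d', hd'⟩ := (ZMod.intCast_zmod_eq_zero_iff_dvd _ 2).1 hd
  obtain ⟨ρ, hρ⟩ : ∃ ρ : ZMod 2, ρ = (c' : ZMod 2) := ⟨_, rfl⟩
  obtain ⟨c'', hc''⟩ := digit2 c'
  rw [← hρ] at hc''
  obtain ⟨κ, hκ⟩ : ∃ κ : ZMod 2, κ = ((c'' + d' : ℤ) : ZMod 2) := ⟨_, rfl⟩
  obtain ⟨k', hk'⟩ := digit2 (c'' + d')
  rw [← hκ] at hk'
  -- the symbol of `lam`
  have hl : llB c = ((c' - d : ℤ) : ZMod 4) := by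
    have h8 : (cp c) = (1 + 4 * c', 4 * d) := by
      have e : c = ((1 + 4 * c' : ℤ) : 𝓞 K4) + ((4 * d : ℤ) : 𝓞 K4) * iO := by
        rw [h1]
        push_cast
        ring
      rw [e, cp_coords]
    have hm : mmB c = ((d - c' : ℤ) : ZMod 4) := by
      unfold mmB
      rw [h8]
      congr 1
      show (4 * d - (1 + 4 * c') + 1) / 4 = d - c'
      omega
    have hn : nnB c = ((-c' - d : ℤ) : ZMod 4) := by
      unfold nnB
      rw [h8]
      congr 1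
      show -((1 + 4 * c' + 4 * d - 1) / 4) = -c' - d
      omega
    unfold llB
    rw [hm, hn]
    push_cast
    have h11 : ∀ c d : ZMod 4, -(d - c) - (d - c - (-c - d)) ^ 2 = c - d := by decide
    exact h11 _ _
  have hα : xl4 (llB c) = ρ + κ := by
    rw [hl, hc'']
    have e : ((((ρ.val : ℕ) : ℤ) + 2 * c'' - d : ℤ) : ZMod 4) =
        ((ρ.val : ℕ) : ZMod 4) + 2 * ((κ.val : ℕ) : ZMod 4) := by
      have e1 : (((ρ.val : ℕ) : ℤ) + 2 * c'' - d : ℤ) =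
          ((ρ.val : ℕ) : ℤ) + 2 * ((κ.val : ℕ) : ℤ) + 4 * (k' - d') := by
        push_cast at hd' hk' ⊢
        omega
      rw [e1]
      push_cast
      have h4 : (4 : ZMod 4) = 0 := by decide
      rw [h4, zero_mul, add_zero]
    rw [e]
    have h5 : ∀ ρ κ : ZMod 2, xl4 (((ρ.val : ℕ) : ZMod 4) + 2 * ((κ.val : ℕ) : ZMod 4)) =
        ρ + κ := by decide
    exact h5 _ _
  rw [hα] at h
  obtain ⟨v, hv⟩ : ∃ v : 𝓞 K, v = -(c'' : 𝓞 K) + (1 - iO) * (k' : 𝓞 K) := ⟨_, rfl⟩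
  have hD : ((iO ^ (0 : ZMod 4).val * c : 𝓞 K) : K) = 1 * (1 + 4 * ((ρ.val : K) +
      (1 + (iO : K)) ^ 2 * ((κ.val : K) + (1 + (iO : K)) * (v : K)))) := by
    have e : iO ^ (0 : ZMod 4).val * c = 1 * (1 + 4 * ((ρ.val : 𝓞 K) +
        (1 + iO) ^ 2 * ((κ.val : 𝓞 K) + (1 + iO) * v))) := by
      have e3 : ((κ.val : ℕ) : 𝓞 K) = (c'' : 𝓞 K) + (d' : 𝓞 K) - 2 * (k' : 𝓞 K) := by
        have := congrArg (fun x : ℤ => (x : 𝓞 K)) hk'
        push_cast at this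
        linear_combination -this
      have e4 : (c' : 𝓞 K) = ((ρ.val : ℕ) : 𝓞 K) + 2 * (c'' : 𝓞 K) := by
        have := congrArg (fun x : ℤ => (x : 𝓞 K)) hc''
        push_cast at this
        exact this
      have e5 : (d : 𝓞 K) = 2 * (d' : 𝓞 K) := by
        have := congrArg (fun x : ℤ => (x : 𝓞 K)) hd'
        push_cast at this
        exact this
      rw [h1]
      have e2 : ((0 : ZMod 4)).val = 0 := rfl
      rw [e2, e3, hv]
      show iO ^ 0 * (1 + 4 * ((c' : 𝓞 K) + (d : 𝓞 K) * iO)) = _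
      rw [e4, e5]
      linear_combination (4 * iO ^ 2 * (k' : 𝓞 K) + 4 * (c'' : 𝓞 K) * iO + 8 * iO * (k' : 𝓞 K) +
        8 * (c'' : 𝓞 K) - 4 * (d' : 𝓞 K) + 4 * (k' : 𝓞 K)) * iO_sq
    rw [e]
    push_cast
    rfl
  have h0 : ∀ x : ZMod 2, x = 0 ∨ x = 1 := by decide
  have hv1 : ((1 : ZMod 2)).val = 1 := rfl
  have h5 := aa_form ((ρ + κ).val : ℤ) 0
  have e : (1 + lam ^ 3 * (((((ρ + κ).val : ℕ) : ℤ) : 𝓞 K4) + ((0 : ℤ) : 𝓞 K4) * iO)) =
      1 + lam ^ 3 * ((ρ + κ).val : 𝓞 K4) := by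
    push_cast
    ring
  rw [e] at h5
  refine lcv_w (z := 1 + lam ^ 3 * ((ρ + κ).val : 𝓞 K)) hc hy ?_ ?_ (fun a ha => ?_)
  · exact ⟨((ρ + κ).val : 𝓞 K), by ring⟩
  · rw [h, h5]
    push_cast
    rw [add_zero, ZMod.natCast_val, ZMod.cast_id]
  · refine locC_X3 iK_sq' nuL_two nuL_res (ρ := (ρ.val : K)) (κ := (κ.val : K))
      (α := ((ρ + κ).val : K)) (by
        rcases h0 ρ with h5 | h5 <;> rcases h0 κ with h6 | h6 <;> rw [h5, h6]
        · left
          refine ⟨?_, ?_, ?_⟩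
          · rw [ZMod.val_zero, Nat.cast_zero]
          · rw [ZMod.val_zero, Nat.cast_zero]
          · rw [add_zero, ZMod.val_zero, Nat.cast_zero]
        · right; left
          refine ⟨?_, ?_, ?_⟩
          · rw [ZMod.val_zero, Nat.cast_zero]
          · rw [hv1, Nat.cast_one]
          · rw [zero_add, hv1, Nat.cast_one]
        · right; right; left
          refine ⟨?_, ?_, ?_⟩
          · rw [hv1, Nat.cast_one]
          · rw [ZMod.val_zero, Nat.cast_zero]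
          · rw [add_zero, hv1, Nat.cast_one]
        · right; right; right
          have h7 : (1 : ZMod 2) + 1 = 0 := by decide
          refine ⟨?_, ?_, ?_⟩
          · rw [hv1, Nat.cast_one]
          · rw [hv1, Nat.cast_one]
          · rw [h7, ZMod.val_zero, Nat.cast_zero]) (nuL_O v) rfl hD (ha.imp_right ?_)
    intro h7
    have e : ((iO ^ (1 : ZMod 2).val * (1 + lam ^ 3 * ((ρ + κ).val : 𝓞 K)) : 𝓞 K) : K) =
        (iO : K) ^ 1 * (1 + (1 + (iO : K)) ^ 3 * ((ρ + κ).val : K)) := by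
      rw [← lam_coe, hv1]
      push_cast
      rfl
    exact Eq.mp (congrArg (fun t : K => C4 nuL (a * t)) e) h7

/-- **The condition at `lam`, `j = 0`.** -/
theorem lamCv_zero {k : ZMod 4} {c y : 𝓞 K} {α w : ZMod 2} (hc : In4 c) (hy : In4 y)
    (h : LamC k 0 c α w (aa y) (bb y))
    (hr : md k * aa y + w * bb c + α * aa c = 0) :
    GLoc4 nuL ((iO ^ k.val * c : 𝓞 K) : K) ((iO ^ α.val * lam ^ w.val * y : 𝓞 K) : K) := by
  have hz : ∀ x : ZMod 2, x = 0 ∨ x = 1 := by decide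
  have hvD := nuL_kc k hc
  rcases cvg_md' k with hk | hk
  · obtain ⟨rfl, rfl⟩ := h.c1 rfl hk
    rw [hk, one_mul, zero_mul, zero_mul, add_zero, add_zero] at hr
    rw [ZMod.val_zero, pow_zero, pow_zero, one_mul, one_mul]
    exact c4_gloc4 iK_sq' nuL_two nuL_res hvD (C4_of_in4 hy hr)
  · rcases hz (aa c) with ha | ha
    · rcases cvg_mk' hk with rfl | rfl
      · rcases hz (hf4 (nn c) + bb c) with hcc | hcc
        · obtain ⟨rfl, h5⟩ := h.x3 rfl rfl ha hcc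
          have e : (iO ^ α.val * lam ^ (0 : ZMod 2).val * y : 𝓞 K) = iO ^ α.val * y := by
            rw [ZMod.val_zero, pow_zero, mul_one]
          rw [e]
          exact lcv_X3 hc hy ha hcc h5
        · obtain ⟨rfl, rfl⟩ := h.x2 rfl rfl ha hcc
          have e : (iO ^ (0 : ZMod 2).val * lam ^ (0 : ZMod 2).val * y : 𝓞 K) = y := by
            rw [ZMod.val_zero, pow_zero, pow_zero, one_mul, one_mul]
          rw [e]
          exact lcv_X2 hc hy ha hcc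
      · obtain ⟨rfl, h5⟩ := h.x1 rfl rfl ha
        rw [ZMod.val_zero, pow_zero, mul_one]
        exact lcv_X1 hc hy ha h5
    · obtain ⟨rfl, rfl⟩ := h.c2 rfl hk ha
      have e : (iO ^ (0 : ZMod 2).val * lam ^ (0 : ZMod 2).val * y : 𝓞 K) = y := by
        rw [ZMod.val_zero, pow_zero, pow_zero, one_mul, one_mul]
      rw [e]
      refine conv_lam iK_sq' nuL_two nuL_res hvD ?_
      rcases hz (aa y) with hs | hs
      · exact Or.inl (C4_of_in4 hy hs)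
      · right
        have h7 := C4_of_in4 (hy.mul hc) (by rw [aa_mul hy hc, hs, ha]; decide)
        rcases cvg_mk' hk with rfl | rfl
        · have e2 : ((0 : ZMod 4)).val = 0 := rfl
          rw [e2, pow_zero, one_mul, ← coe_mul']
          exact h7
        · have e2 : ((2 : ZMod 4)).val = 2 := rfl
          refine C4.neg iK_sq' ?_
          have e3 : -((y : K) * ((iO ^ (2 : ZMod 4).val * c : 𝓞 K) : K)) =
              ((y * c : 𝓞 K) : K) := by
            rw [e2, coe_mul', coe_mul']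
            have e4 : ((iO ^ 2 : 𝓞 K) : K) = (iO : K) ^ 2 := by
              push_cast
              rfl
            rw [e4, iK_sq']
            ring
          exact Eq.mpr (congrArg (C4 nuL) e3) h7

/-! ### `j = 1` -/

/-- `1 + D` for `D = i ^ k lam c` -/
theorem one_add_kc (k : ZMod 4) {c : 𝓞 K} (hc : In4 c) : ∃ (e : ZMod 4) (z : 𝓞 K), In4 z ∧
    md e = 1 ∧ aa z = xk k ∧ bb z = md k * xk k + aa c ∧
      1 + iO ^ k.val * lam * c = iO ^ e.val * z := by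
  obtain ⟨e, z0, hz0, he, ha, hb, h1⟩ := one_add_kb k
  obtain ⟨m, n, hw⟩ := in4_form hc
  have haS : aa c = ((m + n : ℤ) : ZMod 2) := by
    rw [hw, aa_form]
    push_cast
    rfl
  have h2 : iO ^ e.val * iO ^ (-e).val = 1 := by
    rw [pow_val_mul, add_neg_cancel, ZMod.val_zero, pow_zero]
  obtain ⟨x, y, hxy, hp⟩ := ipow_form ((-e).val + k.val) m n
  obtain ⟨m0, n0, hz00⟩ := in4_form hz0
  have hl : lam = 1 + iO := rfl
  obtain ⟨z, hz⟩ : ∃ z : 𝓞 K, z = 1 + lam ^ 3 * (((m0 + x - y : ℤ) : 𝓞 K4) +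
      ((n0 + x + y : ℤ) : 𝓞 K4) * iO) := ⟨_, rfl⟩
  have hz' : z = z0 + lam ^ 4 * (iO ^ ((-e).val + k.val) * ((m : 𝓞 K4) + (n : 𝓞 K4) * iO)) := by
    rw [hz, hz00, hxy]
    push_cast
    rw [hl]
    linear_combination (-(y : 𝓞 K4) * (1 + iO) ^ 3) * iO_sq
  have h5 : lam ^ 4 ∣ z - z0 := ⟨iO ^ ((-e).val + k.val) * ((m : 𝓞 K4) + (n : 𝓞 K4) * iO),
    by rw [hz']; ring⟩
  have h6 : lam ^ 3 ∣ z - z0 := (pow_dvd_pow lam (by norm_num)).trans h5
  have h7 : lam ^ 4 ∣ z0 - z := by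
    rw [← neg_sub]
    exact h5.neg_right
  refine ⟨e, z, (in4_congr h6).2 hz0, he, ?_, ?_, ?_⟩
  · rw [← ha]
    exact (aa_congr hz0 h7).symm
  · rw [← hb, haS, ← hp, hz, bb_form, hz00, bb_form]
    push_cast
    ring
  · rw [hw, hz', pow_add]
    linear_combination h1 - (iO ^ k.val * lam ^ 4 * ((m : 𝓞 K4) + (n : 𝓞 K4) * iO)) * h2

/-- **The condition at `lam`, `j = 1`.** -/
theorem lamCv_one {k : ZMod 4} {c y : 𝓞 K} {α w : ZMod 2} (hc : In4 c) (hy : In4 y)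
    (h : LamC k 1 c α w (aa y) (bb y))
    (hr : md k * aa y + bb y + w * bb c + α * aa c = 0) :
    GLoc4 nuL ((iO ^ k.val * lam * c : 𝓞 K) : K) ((iO ^ α.val * lam ^ w.val * y : 𝓞 K) : K) := by
  obtain ⟨rfl, hA⟩ := h.e rfl
  rw [zero_mul, add_zero] at hr
  rw [ZMod.val_zero, pow_zero, mul_one]
  have hone : ((1 : ZMod 2)).val = 1 := rfl
  have hvD : nuL ((iO ^ k.val * lam * c : 𝓞 K) : K) = exp (-1) := by
    have e1 : nuL (c : K) = 1 := pv_one prime_lam hc.not_lam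
    have e2 : nuL ((iO ^ k.val : 𝓞 K) : K) = 1 :=
      pv_one prime_lam (not_dvd_of_unit prime_lam (isUnit_iO.pow _))
    have e4 : nuL ((iO ^ k.val * lam : 𝓞 K) : K) = exp (-1) :=
      (congrArg nuL (coe_mul' _ _)).trans ((map_mul nuL _ _).trans
        ((congrArg₂ (· * ·) e2 nuL_lam).trans (one_mul _)))
    exact (congrArg nuL (coe_mul' _ _)).trans ((map_mul nuL _ _).trans
      ((congrArg₂ (· * ·) e4 e1).trans (mul_one _)))
  refine gloc4_one iK_sq' nuL_two nuL_res hvD 0 α ?_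
  rw [ZMod.val_zero, pow_zero, mul_one]
  have h0 : ∀ x : ZMod 2, x = 0 ∨ x = 1 := by decide
  rcases h0 α with rfl | rfl
  · rw [zero_mul] at hA hr
    rw [hA, mul_zero, zero_add, add_zero] at hr
    rw [ZMod.val_zero, pow_zero, pow_zero, mul_one, one_mul]
    exact Sq_of_in4 hy hA hr
  · obtain ⟨e, z, hz, he, haz, hbz, hez⟩ := one_add_kc k hc
    rw [one_mul] at hA hr
    have hx : xk4 k = xk k := rfl
    have h2 : ∀ x : ZMod 2, x + x = 0 := by decide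
    have hyz := Sq_of_in4 (hy.mul hz) (by rw [aa_mul hy hz, hA, haz, hx]; exact h2 _) (by
      rw [bb_mul hy hz, hbz]
      rw [hA, hx] at hr
      refine Eq.trans ?_ hr
      ring)
    obtain ⟨c', hc', hc''⟩ := ipow_md e
    rw [he, hone, pow_one] at hc''
    have hcK : ((c' : 𝓞 K) : K) ≠ 0 := coe_ne hc'
    have h5 := Sq_mul_sqD hcK (Sq_neg iK_sq' hyz)
    rw [hone, pow_one, pow_one]
    have e1 : (1 + ((iO ^ k.val * lam * c : 𝓞 K) : K)) =
        ((1 + iO ^ k.val * lam * c : 𝓞 K) : K) := by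
      push_cast
      rfl
    rw [e1, hez, hc'']
    have e2 : ((iO * y : 𝓞 K) : K) * ((c' ^ 2 * iO * z : 𝓞 K) : K) =
        (c' : K) ^ 2 * -((y * z : 𝓞 K) : K) := by
      have e3 : ((c' ^ 2 * iO * z : 𝓞 K) : K) = (c' : K) ^ 2 * (iO : K) * (z : K) := by
        rw [coe_mul', coe_sq_mul]
        rfl
      rw [e3, coe_mul', coe_mul']
      linear_combination ((c' : K) ^ 2 * (y : K) * (z : K)) * iK_sq'
    exact Eq.mpr (congrArg (Sq nuL) e2) h5

end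

end Pool.Agent.Lib.MP_1a91b9_ntQ.C
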