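import Pool.Agent.Lib.MP_1a91b9_ntQ.B.GlocB
import Pool.Agent.Lib.MP_1a91b9_ntQ.C.ConvG5

/-!
# MP_1a91b9_nt (quartic twists), part B: the sum of the rows

`sum_rw`: the rows at `q ∈ S ∪ T` give `md k aa y + j bb y + w bb c + al aa c = 0`, the orthogonality
of `a = i ^ al lam ^ w y` and `D = i ^ k lam ^ j c` at `lam`.
-/

set_option autoImplicit false
set_option linter.unusedSectionVars false
set_option linter.unusedVariables false

namespace Pool.Agent.Lib.MP_1a91b9_ntQ.C.C9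

open NumberField Finset WithZero IsDedekindDomain Pool.Agent.Lib.MP_1a91b9_nuT
open Pool.Agent.Lib.MP_1a91b9_ntQ

noncomputable section

/-- a symmetric sum -/
theorem sym_zero (U : Finset Pg) (f : Pg → ZMod 2) :
    ∑ q ∈ U, ∑ p ∈ U, s4 q p * (f q + f p) = 0 := by
  have h2 : ∀ x : ZMod 2, x + x = 0 := by decide
  refine Pool.Agent.Lib.MP_1a91b9_ntQ.D.sum_symm_zero U (fun q p => s4 q p * (f q + f p))
    (fun q => ?_) fun q p => ?_
  · show s4 q q * (f q + f q) = 0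
    rw [h2, mul_zero]
  · show s4 q p * (f q + f p) = s4 p q * (f p + f q)
    by_cases h : q = p
    · rw [h]
    · rw [s4_symm h, add_comm (f q)]

theorem aa_cB9 {S T : Finset Pg} (B : Finset Pg) (h : Disjoint S T) :
    aa (cB S T B) = ∑ q ∈ S ∪ T, aa q.1 := by
  have h2 : ∀ x : ZMod 2, x + x = 0 := by decide
  have e : cB S T B = DDq S * (DDq T * (DDq T * DDq T)) * (DDq B * DDq B) := by
    unfold cB
    ring
  rw [e, aa_mul ((DDq_in4 S).mul ((DDq_in4 T).mul ((DDq_in4 T).mul (DDq_in4 T))))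
    ((DDq_in4 B).mul (DDq_in4 B)), aa_mul (DDq_in4 S) ((DDq_in4 T).mul ((DDq_in4 T).mul (DDq_in4 T))),
    aa_mul (DDq_in4 T) ((DDq_in4 T).mul (DDq_in4 T)), aa_mul (DDq_in4 T) (DDq_in4 T),
    aa_mul (DDq_in4 B) (DDq_in4 B), h2, h2, add_zero, add_zero, aa_DDq, aa_DDq, sum_union h]

theorem bb_cB9 {S T : Finset Pg} (B : Finset Pg) (h : Disjoint S T) :
    bb (cB S T B) = ∑ q ∈ S ∪ T, bb q.1 := by
  have h2 : ∀ x : ZMod 2, x + x = 0 := by decide
  have e : cB S T B = DDq S * (DDq T * (DDq T * DDq T)) * (DDq B * DDq B) := by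
    unfold cB
    ring
  rw [e, bb_mul ((DDq_in4 S).mul ((DDq_in4 T).mul ((DDq_in4 T).mul (DDq_in4 T))))
    ((DDq_in4 B).mul (DDq_in4 B)), bb_mul (DDq_in4 S) ((DDq_in4 T).mul ((DDq_in4 T).mul (DDq_in4 T))),
    bb_mul (DDq_in4 T) ((DDq_in4 T).mul (DDq_in4 T)), bb_mul (DDq_in4 T) (DDq_in4 T),
    bb_mul (DDq_in4 B) (DDq_in4 B), h2, h2, add_zero, add_zero, bb_DDq, bb_DDq, sum_union h]

/-- **the sum of the rows** -/
theorem sum_rw {k : ZMod 4} {j : Fin 4} {S T B : Finset Pg} (hd : Dj S T B) {al w : ZMod 2}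
    {f : Pg → ZMod 2} (hU : ∀ q ∈ S ∪ T, rwU k j S T B f q = al * aa q.1 + w * bb q.1) :
    md k * aa (∏ q ∈ S ∪ T ∪ VB k j S T B, q.1 ^ (f q).val) +
      (j.val : ZMod 2) * bb (∏ q ∈ S ∪ T ∪ VB k j S T B, q.1 ^ (f q).val) +
      w * bb (cB S T B) + al * aa (cB S T B) = 0 := by
  have hdis := disj_UV (k := k) (j := j) hd
  have h1 : ∑ q ∈ S ∪ T, rwU k j S T B f q =
      al * aa (cB S T B) + w * bb (cB S T B) := by
    rw [sum_congr rfl hU, sum_add_distrib, ← mul_sum, ← mul_sum, aa_cB9 B hd.st, bb_cB9 B hd.st]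
  have h2 : ∑ q ∈ S ∪ T, rwU k j S T B f q = ∑ q ∈ S ∪ T ∪ VB k j S T B, kxB k j q * f q := by
    unfold rwU
    rw [sum_add_distrib, sum_add_distrib, sym_zero, add_zero, sum_union hdis, sum_comm]
    congr 1
    refine sum_congr rfl fun b hb => ?_
    rw [← sum_mul]
    congr 1
    have h3 : ∑ p ∈ S ∪ T, s4 b p + kxB k j b = 0 := (mem_filter.1 hb).2
    have h4 : ∑ q ∈ S ∪ T, s4 q b = ∑ p ∈ S ∪ T, s4 b p := by
      refine sum_congr rfl fun q hq => ?_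
      have hne : q ≠ b := fun h5 => disjoint_left.1 hdis hq (h5 ▸ hb)
      exact s4_symm hne
    rw [h4]
    have h5 : ∀ x y : ZMod 2, x + y = 0 → x = y := by decide
    exact h5 _ _ h3
  have h3 : ∑ q ∈ S ∪ T ∪ VB k j S T B, kxB k j q * f q =
      md k * ∑ q ∈ S ∪ T ∪ VB k j S T B, f q * aa q.1 +
        (j.val : ZMod 2) * ∑ q ∈ S ∪ T ∪ VB k j S T B, f q * bb q.1 := by
    rw [mul_sum, mul_sum, ← sum_add_distrib]
    refine sum_congr rfl fun q _ => ?_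
    unfold kxB
    ring
  rw [aa_gp4, bb_gp4]
  rw [h1, h3] at h2
  have h5 : ∀ x y z u : ZMod 2, x + y = z + u → z + u + y + x = 0 := by decide
  exact h5 _ _ _ _ h2

end

end Pool.Agent.Lib.MP_1a91b9_ntQ.C.C9
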