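import Pool.Agent.Lib.MP_1a91b9_ntQ.B.GlocB
import Pool.Agent.Lib.MP_1a91b9_ntQ.B.LamCv01
import Pool.Agent.Lib.MP_1a91b9_ntQ.B.SumRw

/-!
# MP_1a91b9_nt (quartic twists), part B, converse of the descent: all the fourth-power-free `D`

`D = dB k j S T B` is not a square: if `W(K)` is finite and the 2-primary part of the Tate-Shafarevich
group of `W : y² = x³ - D x` is trivial then `GdB k j S T B`.
-/

set_option autoImplicit false
set_option linter.unusedSectionVars false
set_option linter.unusedVariables false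

namespace Pool.Agent.Lib.MP_1a91b9_ntQ.C

open NumberField Finset WithZero IsDedekindDomain Pool.Agent.Lib.MP_1a91b9_nuT
open Pool.Agent.Lib.MP_1a91b9_ntQ
open Pool.Agent.Lib.MP_1a91b9_ntQ.C.C9
open Pool.Agent.Lib.MP_1a91b9_ntH.C (Sq exists_nu isSquare_exp nu_one)
open Pool.Agent.Lib.MP_1a91b9_ntT3.S9 (ShaP)

noncomputable section

/-- The converse of the condition at `lam`. -/
def LamConv (j : Fin 4) : Prop := ∀ {k : ZMod 4} {c y : 𝓞 K} {α w : ZMod 2}, In4 c → In4 y →
  LamC k j c α w (aa y) (bb y) →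
  md k * aa y + (j.val : ZMod 2) * bb y + w * bb c + α * aa c = 0 →
  GLoc4 nuL ((iO ^ k.val * lam ^ j.val * c : 𝓞 K) : K) ((iO ^ α.val * lam ^ w.val * y : 𝓞 K) : K)

theorem lamConv_zero : LamConv 0 := by
  intro k c y α w hc hy h hr
  have h0 : ((0 : Fin 4)).val = 0 := rfl
  have h1 : (((0 : Fin 4)).val : ZMod 2) = 0 := rfl
  rw [h1, zero_mul, add_zero] at hr
  rw [h0, pow_zero, mul_one]
  exact lamCv_zero hc hy h hr

theorem lamConv_one : LamConv 1 := by
  intro k c y α w hc hy h hr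
  have h0 : ((1 : Fin 4)).val = 1 := rfl
  have h1 : (((1 : Fin 4)).val : ZMod 2) = 1 := rfl
  rw [h1, one_mul] at hr
  rw [h0, pow_one]
  exact lamCv_one hc hy h hr

/-! ### the condition at `lam`, the classes -/

section cls

variable {k : ZMod 4} {c : 𝓞 K} {A L z : ZMod 2}

theorem lcI (hk : md k = 1) : LamC k 0 c 0 0 A L where
  c1 _ _ := ⟨rfl, rfl⟩
  c2 _ h := absurd (hk.symm.trans h) one_ne_zero
  x1 _ h := by subst h; exact absurd hk (by decide)
  x2 _ h := by subst h; exact absurd hk (by decide)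
  x3 _ h := by subst h; exact absurd hk (by decide)
  e h := absurd h (by decide)
  j3 h := absurd h (by decide)
  a2 h := absurd h (by decide)
  b2 h := absurd h (by decide)
  c20 h := absurd h (by decide)
  c22 h := absurd h (by decide)
  d20 h := absurd h (by decide)
  d22 h := absurd h (by decide)

theorem lcII (hk : md k = 0) (ha : aa c = 1) : LamC k 0 c 0 0 A L where
  c1 _ h := absurd (hk.symm.trans h) zero_ne_one
  c2 _ _ _ := ⟨rfl, rfl⟩
  x1 _ _ h := absurd (ha.symm.trans h) one_ne_zero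
  x2 _ _ h := absurd (ha.symm.trans h) one_ne_zero
  x3 _ _ h := absurd (ha.symm.trans h) one_ne_zero
  e h := absurd h (by decide)
  j3 h := absurd h (by decide)
  a2 h := absurd h (by decide)
  b2 h := absurd h (by decide)
  c20 h := absurd h (by decide)
  c22 h := absurd h (by decide)
  d20 h := absurd h (by decide)
  d22 h := absurd h (by decide)

theorem lcX1 (ha : aa c = 0) (h1 : A = z * hf4 (nn c)) : LamC 2 0 c z 0 A L where
  c1 _ h := absurd h (by decide)
  c2 _ _ h := absurd (ha.symm.trans h) zero_ne_one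
  x1 _ _ _ := ⟨rfl, h1⟩
  x2 _ h := absurd h (by decide)
  x3 _ h := absurd h (by decide)
  e h := absurd h (by decide)
  j3 h := absurd h (by decide)
  a2 h := absurd h (by decide)
  b2 h := absurd h (by decide)
  c20 h := absurd h (by decide)
  c22 h := absurd h (by decide)
  d20 h := absurd h (by decide)
  d22 h := absurd h (by decide)

theorem lcX2 (ha : aa c = 0) (hc : hf4 (nn c) + bb c = 1) : LamC 0 0 c 0 0 A L where
  c1 _ h := absurd h (by decide)
  c2 _ _ h := absurd (ha.symm.trans h) zero_ne_one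
  x1 _ h := absurd h (by decide)
  x2 _ _ _ _ := ⟨rfl, rfl⟩
  x3 _ _ _ h := absurd (hc.symm.trans h) one_ne_zero
  e h := absurd h (by decide)
  j3 h := absurd h (by decide)
  a2 h := absurd h (by decide)
  b2 h := absurd h (by decide)
  c20 h := absurd h (by decide)
  c22 h := absurd h (by decide)
  d20 h := absurd h (by decide)
  d22 h := absurd h (by decide)

theorem lcX3 (ha : aa c = 0) (hc : hf4 (nn c) + bb c = 0) (h1 : A = z * xl4 (llB c)) :
    LamC 0 0 c z 0 A L where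
  c1 _ h := absurd h (by decide)
  c2 _ _ h := absurd (ha.symm.trans h) zero_ne_one
  x1 _ h := absurd h (by decide)
  x2 _ _ _ h := absurd (hc.symm.trans h) zero_ne_one
  x3 _ _ _ _ := ⟨rfl, h1⟩
  e h := absurd h (by decide)
  j3 h := absurd h (by decide)
  a2 h := absurd h (by decide)
  b2 h := absurd h (by decide)
  c20 h := absurd h (by decide)
  c22 h := absurd h (by decide)
  d20 h := absurd h (by decide)
  d22 h := absurd h (by decide)

theorem lcE (h1 : A = z * xk4 k) : LamC k 1 c z 0 A L where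
  c1 h := absurd h (by decide)
  c2 h := absurd h (by decide)
  x1 h := absurd h (by decide)
  x2 h := absurd h (by decide)
  x3 h := absurd h (by decide)
  e _ := ⟨rfl, h1⟩
  j3 h := absurd h (by decide)
  a2 h := absurd h (by decide)
  b2 h := absurd h (by decide)
  c20 h := absurd h (by decide)
  c22 h := absurd h (by decide)
  d20 h := absurd h (by decide)
  d22 h := absurd h (by decide)

theorem lcJ3 : LamC k 3 c 0 0 A L where
  c1 h := absurd h (by decide)
  c2 h := absurd h (by decide)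
  x1 h := absurd h (by decide)
  x2 h := absurd h (by decide)
  x3 h := absurd h (by decide)
  e h := absurd h (by decide)
  j3 _ := ⟨rfl, rfl⟩
  a2 h := absurd h (by decide)
  b2 h := absurd h (by decide)
  c20 h := absurd h (by decide)
  c22 h := absurd h (by decide)
  d20 h := absurd h (by decide)
  d22 h := absurd h (by decide)

theorem lcJ2a : LamC 1 2 c 0 0 A L where
  c1 h := absurd h (by decide)
  c2 h := absurd h (by decide)
  x1 h := absurd h (by decide)
  x2 h := absurd h (by decide)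
  x3 h := absurd h (by decide)
  e h := absurd h (by decide)
  j3 h := absurd h (by decide)
  a2 _ _ := ⟨rfl, rfl⟩
  b2 _ h := absurd h (by decide)
  c20 _ h := absurd h (by decide)
  c22 _ h := absurd h (by decide)
  d20 _ h := absurd h (by decide)
  d22 _ h := absurd h (by decide)

theorem lcJ2b (h1 : L = z * uB3 (mmB c) (nnB c)) : LamC 3 2 c 0 z A L where
  c1 h := absurd h (by decide)
  c2 h := absurd h (by decide)
  x1 h := absurd h (by decide)
  x2 h := absurd h (by decide)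
  x3 h := absurd h (by decide)
  e h := absurd h (by decide)
  j3 h := absurd h (by decide)
  a2 _ h := absurd h (by decide)
  b2 _ _ := ⟨rfl, h1⟩
  c20 _ h := absurd h (by decide)
  c22 _ h := absurd h (by decide)
  d20 _ h := absurd h (by decide)
  d22 _ h := absurd h (by decide)

theorem lcJ2c0 (hc : bb c = 1) : LamC 0 2 c 0 0 A L where
  c1 h := absurd h (by decide)
  c2 h := absurd h (by decide)
  x1 h := absurd h (by decide)
  x2 h := absurd h (by decide)
  x3 h := absurd h (by decide)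
  e h := absurd h (by decide)
  j3 h := absurd h (by decide)
  a2 _ h := absurd h (by decide)
  b2 _ h := absurd h (by decide)
  c20 _ _ _ := ⟨rfl, rfl⟩
  c22 _ h := absurd h (by decide)
  d20 _ _ h := absurd (hc.symm.trans h) one_ne_zero
  d22 _ h := absurd h (by decide)

theorem lcJ2c2 (hc : aa c + bb c = 1) : LamC 2 2 c 0 0 A L where
  c1 h := absurd h (by decide)
  c2 h := absurd h (by decide)
  x1 h := absurd h (by decide)
  x2 h := absurd h (by decide)
  x3 h := absurd h (by decide)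
  e h := absurd h (by decide)
  j3 h := absurd h (by decide)
  a2 _ h := absurd h (by decide)
  b2 _ h := absurd h (by decide)
  c20 _ h := absurd h (by decide)
  c22 _ _ _ := ⟨rfl, rfl⟩
  d20 _ h := absurd h (by decide)
  d22 _ _ h := absurd (hc.symm.trans h) one_ne_zero

theorem lcJ2d0 (hc : bb c = 0) (h1 : L = z * uB0 (mmB c) (nnB c)) : LamC 0 2 c 0 z A L where
  c1 h := absurd h (by decide)
  c2 h := absurd h (by decide)
  x1 h := absurd h (by decide)
  x2 h := absurd h (by decide)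
  x3 h := absurd h (by decide)
  e h := absurd h (by decide)
  j3 h := absurd h (by decide)
  a2 _ h := absurd h (by decide)
  b2 _ h := absurd h (by decide)
  c20 _ _ h := absurd (hc.symm.trans h) zero_ne_one
  c22 _ h := absurd h (by decide)
  d20 _ _ _ := ⟨rfl, h1⟩
  d22 _ h := absurd h (by decide)

theorem lcJ2d2 (hc : aa c + bb c = 0) (h1 : A + L = z * uB2 (mmB c) (nnB c)) :
    LamC 2 2 c z z A L where
  c1 h := absurd h (by decide)
  c2 h := absurd h (by decide)
  x1 h := absurd h (by decide)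
  x2 h := absurd h (by decide)
  x3 h := absurd h (by decide)
  e h := absurd h (by decide)
  j3 h := absurd h (by decide)
  a2 _ h := absurd h (by decide)
  b2 _ h := absurd h (by decide)
  c20 _ h := absurd h (by decide)
  c22 _ _ h := absurd (hc.symm.trans h) zero_ne_one
  d20 _ h := absurd h (by decide)
  d22 _ _ _ := ⟨rfl, h1⟩

end cls

/-! ### the kernel vectors -/

/-- the number `y` of the class -/
def yB (A : Finset Pg) (f : Pg → ZMod 2) : 𝓞 K := ∏ q ∈ A, q.1 ^ (f q).val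

theorem yB_in4 (A : Finset Pg) (f : Pg → ZMod 2) : In4 (yB A f) := gp4_in4 A f

theorem aa_yB (A : Finset Pg) (f : Pg → ZMod 2) : aa (yB A f) = ∑ q ∈ A, f q * aa q.1 :=
  aa_gp4 A f

theorem bb_yB (A : Finset Pg) (f : Pg → ZMod 2) : bb (yB A f) = ∑ q ∈ A, f q * bb q.1 :=
  bb_gp4D A f

/-- a vector as one function on the primes -/
theorem exists_fB {E : Type} [Fintype E] [DecidableEq E] {U V : Finset Pg} (hdis : Disjoint U V) (v : U ⊕ (V ⊕ E) → ZMod 2) :
    ∃ (f : Pg → ZMod 2) (z : E → ZMod 2), v = vec3 U V f f z := by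
  obtain ⟨x, y, z, rfl⟩ := exists_vec3 v
  refine ⟨fun q => if q ∈ U then x q else y q, z, ?_⟩
  funext i
  rcases i with i | b | e
  · show x i = if (i : Pg) ∈ U then x i else y i
    rw [if_pos i.2]
  · show y b = if (b : Pg) ∈ U then x b else y b
    rw [if_neg fun h => disjoint_left.1 hdis h b.2]
  · rfl

section

variable {k : ZMod 4} {j : Fin 4} {S T B : Finset Pg}

theorem ker0 (hd : Dj S T B) {v : ↥(S ∪ T) ⊕ (VB k j S T B ⊕ Empty) → ZMod 2}
    (hv : (NB0 k j S T B).mulVec v = 0) : ∃ (f : Pg → ZMod 2) (z : Empty → ZMod 2),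
    v = vec3 (S ∪ T) (VB k j S T B) f f z ∧
      (∀ q ∈ S ∪ T, rwU k j S T B f q = 0 * aa q.1 + 0 * bb q.1) ∧
      ∀ b ∈ VB k j S T B, rwV k j S T B f b = 0 * aa b.1 + 0 * bb b.1 := by
  obtain ⟨f, z, rfl⟩ := exists_fB (disj_UV hd) v
  refine ⟨f, z, rfl, fun q hq => ?_, fun b hb => ?_⟩
  · have h := congrFun hv (Sum.inl ⟨q, hq⟩)
    rw [NB0_inl] at h
    rw [zero_mul, zero_mul, add_zero]
    exact h
  · have h := congrFun hv (Sum.inr (Sum.inl ⟨b, hb⟩))
    rw [NB0_inrl] at h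
    rw [zero_mul, zero_mul, add_zero]
    exact h

theorem ker1 (hd : Dj S T B) {p : Fin 2 → ZMod 2} {x : ZMod 2}
    {v : ↥(S ∪ T) ⊕ (VB k j S T B ⊕ Unit) → ZMod 2}
    (hv : (NB1 k j p x S T B).mulVec v = 0) : ∃ (f : Pg → ZMod 2) (z : ZMod 2),
    v = vec3 (S ∪ T) (VB k j S T B) f f (fun _ => z) ∧
      (∀ q ∈ S ∪ T, rwU k j S T B f q = p 0 * z * aa q.1 + p 1 * z * bb q.1) ∧
      (∀ b ∈ VB k j S T B, rwV k j S T B f b = p 0 * z * aa b.1 + p 1 * z * bb b.1) ∧
      p 0 * aa (yB (S ∪ T ∪ VB k j S T B) f) + p 1 * bb (yB (S ∪ T ∪ VB k j S T B) f) = z * x := by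
  have e2 : ∀ x y : ZMod 2, x + y = 0 → x = y := by decide
  obtain ⟨f, z, rfl⟩ := exists_fB (disj_UV hd) v
  obtain ⟨z, rfl⟩ : ∃ z₀ : ZMod 2, z = fun _ => z₀ := ⟨z (), funext fun _ => rfl⟩
  refine ⟨f, z, rfl, fun q hq => ?_, fun b hb => ?_, ?_⟩
  · have h := congrFun hv (Sum.inl ⟨q, hq⟩)
    rw [NB1_inl] at h
    rw [e2 _ _ h]
    ring
  · have h := congrFun hv (Sum.inr (Sum.inl ⟨b, hb⟩))
    rw [NB1_inrl] at h
    rw [e2 _ _ h]
    ring
  · have h := congrFun hv (Sum.inr (Sum.inr ()))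
    rw [NB1_inrr, ← add_assoc] at h
    have h1 := e2 _ _ h
    rw [aa_yB, bb_yB, mul_comm z x, ← h1, mul_sum, mul_sum, ← sum_add_distrib,
      ← sum_union (disj_UV hd)]
    exact sum_congr rfl fun q _ => by ring

theorem cBc_in4 (S T B : Finset Pg) : In4 (cB S T B) := by
  have h3 : In4 (DDq T ^ 3) := by
    have e : DDq T ^ 3 = DDq T * DDq T * DDq T := by ring
    rw [e]
    exact ((DDq_in4 T).mul (DDq_in4 T)).mul (DDq_in4 T)
  have h2 : In4 (DDq B ^ 2) := by
    rw [sq]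
    exact (DDq_in4 B).mul (DDq_in4 B)
  exact ((DDq_in4 S).mul h3).mul h2

/-- **The kernel vectors are trivial.** -/
theorem coreB (hLC : LamConv j) (hd : Dj S T B)
    (hns : ¬ (md k = 0 ∧ (j.val : ZMod 2) = 0 ∧ S ∪ T = ∅)) {al w : ZMod 2} {f : Pg → ZMod 2}
    (hU : ∀ q ∈ S ∪ T, rwU k j S T B f q = al * aa q.1 + w * bb q.1)
    (hV : ∀ b ∈ VB k j S T B, rwV k j S T B f b = al * aa b.1 + w * bb b.1)
    (hL : LamC k j (cB S T B) al w (aa (yB (S ∪ T ∪ VB k j S T B) f))
      (bb (yB (S ∪ T ∪ VB k j S T B) f)))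
    {W : WeierstrassCurve K} (hW : W = cq (dB k j S T B : K)) (hfin : Finite W.toAffine.Point)
    (hcard : Nat.card (ShaP 2 W) = 1) :
    (al = 0 ∧ w = 0 ∧ ∀ q ∈ S ∪ T ∪ VB k j S T B, f q = 0) ∨
      (al = md k ∧ w = (j.val : ZMod 2) ∧ (∀ q ∈ S ∪ T, f q = 1) ∧
        ∀ b ∈ VB k j S T B, f b = 0) := by
  by_contra hcon
  obtain ⟨h0, h1⟩ := not_or.1 hcon
  obtain ⟨hn1, hn2⟩ := gpB_not_sq hd h0 h1
  have hlam : GLoc4 nuL (dB k j S T B : K) (gp4 (S ∪ T ∪ VB k j S T B) al w f : K) :=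
    hLC (cBc_in4 S T B) (yB_in4 _ _) hL (sum_rw hd hU)
  exact conv_selQ (coe_ne (dB_ne k j S T B)) iK_sq' complex_K4 (dB_not_sq hd.st hns)
    (gp4 (S ∪ T ∪ VB k j S T B) al w f : K) (coe_ne (gp4_ne _ _ _ _)) (glocB_all hd hU hV hlam)
    hn1 hn2 hW hfin hcard

theorem det0_of (hLC : LamConv j) (hd : Dj S T B)
    (hns : ¬ (md k = 0 ∧ (j.val : ZMod 2) = 0 ∧ S ∪ T = ∅))
    (hL : ∀ A L : ZMod 2, LamC k j (cB S T B) 0 0 A L)
    (hodd : ¬ (0 = md k ∧ 0 = (j.val : ZMod 2)))
    {W : WeierstrassCurve K} (hW : W = cq (dB k j S T B : K)) (hfin : Finite W.toAffine.Point)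
    (hcard : Nat.card (ShaP 2 W) = 1) : DetB0 k j S T B := by
  intro h
  obtain ⟨v, hv0, hv⟩ := Matrix.exists_mulVec_eq_zero_iff.2 h
  obtain ⟨f, z, rfl, hU, hV⟩ := ker0 hd hv
  rcases coreB hLC hd hns hU hV (hL _ _) hW hfin hcard with ⟨-, -, h5⟩ | ⟨h5, h6, -⟩
  · apply hv0
    funext i
    rcases i with q | b | e
    · exact h5 q (mem_union_left _ q.2)
    · exact h5 b (mem_union_right _ b.2)
    · exact e.elim
  · exact hodd ⟨h5, h6⟩

theorem ker0_of (hLC : LamConv j) (hd : Dj S T B)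
    (hns : ¬ (md k = 0 ∧ (j.val : ZMod 2) = 0 ∧ S ∪ T = ∅))
    (hL : ∀ A L : ZMod 2, LamC k j (cB S T B) 0 0 A L)
    (hev : md k = 0 ∧ (j.val : ZMod 2) = 0)
    {W : WeierstrassCurve K} (hW : W = cq (dB k j S T B : K)) (hfin : Finite W.toAffine.Point)
    (hcard : Nat.card (ShaP 2 W) = 1) : KerB0 k j S T B := by
  refine ⟨nonempty_iff_ne_empty.2 fun h => hns ⟨hev.1, hev.2, h⟩, fun v hv => ?_⟩
  obtain ⟨f, z, rfl, hU, hV⟩ := ker0 hd hv
  rcases coreB hLC hd hns hU hV (hL _ _) hW hfin hcard with ⟨-, -, h5⟩ | ⟨-, -, h5, h6⟩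
  · left
    funext i
    rcases i with q | b | e
    · exact h5 q (mem_union_left _ q.2)
    · exact h5 b (mem_union_right _ b.2)
    · exact e.elim
  · right
    funext i
    rcases i with q | b | e
    · exact h5 q q.2
    · exact h6 b b.2
    · exact e.elim

theorem det1_of (hLC : LamConv j) (hd : Dj S T B)
    (hns : ¬ (md k = 0 ∧ (j.val : ZMod 2) = 0 ∧ S ∪ T = ∅)) {p : Fin 2 → ZMod 2} {x : ZMod 2}
    (hL : ∀ A L z : ZMod 2, p 0 * A + p 1 * L = z * x →
      LamC k j (cB S T B) (p 0 * z) (p 1 * z) A L)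
    (hp : ∀ z : ZMod 2, p 0 * z = 0 → p 1 * z = 0 → z = 0)
    (hodd : ∀ z : ZMod 2, ¬ (p 0 * z = md k ∧ p 1 * z = (j.val : ZMod 2)))
    {W : WeierstrassCurve K} (hW : W = cq (dB k j S T B : K)) (hfin : Finite W.toAffine.Point)
    (hcard : Nat.card (ShaP 2 W) = 1) : DetB1 k j p x S T B := by
  intro h
  obtain ⟨v, hv0, hv⟩ := Matrix.exists_mulVec_eq_zero_iff.2 h
  obtain ⟨f, z, rfl, hU, hV, hz⟩ := ker1 hd hv
  rcases coreB hLC hd hns hU hV (hL _ _ _ hz) hW hfin hcard with ⟨h3, h4, h5⟩ | ⟨h5, h6, -⟩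
  · apply hv0
    funext i
    rcases i with q | b | e
    · exact h5 q (mem_union_left _ q.2)
    · exact h5 b (mem_union_right _ b.2)
    · exact hp z h3 h4
  · exact hodd z ⟨h5, h6⟩

theorem ker1_of (hLC : LamConv j) (hd : Dj S T B)
    (hns : ¬ (md k = 0 ∧ (j.val : ZMod 2) = 0 ∧ S ∪ T = ∅)) {p : Fin 2 → ZMod 2} {x : ZMod 2}
    (hL : ∀ A L z : ZMod 2, p 0 * A + p 1 * L = z * x →
      LamC k j (cB S T B) (p 0 * z) (p 1 * z) A L)
    (hp : ∀ z : ZMod 2, p 0 * z = 0 → p 1 * z = 0 → z = 0)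
    (hev : md k = 0 ∧ (j.val : ZMod 2) = 0)
    {W : WeierstrassCurve K} (hW : W = cq (dB k j S T B : K)) (hfin : Finite W.toAffine.Point)
    (hcard : Nat.card (ShaP 2 W) = 1) : KerB1 k j p x S T B := by
  refine ⟨nonempty_iff_ne_empty.2 fun h => hns ⟨hev.1, hev.2, h⟩, fun v hv => ?_⟩
  obtain ⟨f, z, rfl, hU, hV, hz⟩ := ker1 hd hv
  rcases coreB hLC hd hns hU hV (hL _ _ _ hz) hW hfin hcard with ⟨h3, h4, h5⟩ | ⟨h3, h4, h5, h6⟩
  · left
    funext i
    rcases i with q | b | e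
    · exact h5 q (mem_union_left _ q.2)
    · exact h5 b (mem_union_right _ b.2)
    · exact hp z h3 h4
  · right
    funext i
    rcases i with q | b | e
    · exact h5 q q.2
    · exact h6 b b.2
    · exact hp z (h3.trans hev.1) (h4.trans hev.2)

private theorem pp10 (z : ZMod 2) : (![1, 0] : Fin 2 → ZMod 2) 0 * z = 0 →
    (![1, 0] : Fin 2 → ZMod 2) 1 * z = 0 → z = 0 := by
  revert z
  decide

private theorem pp01 (z : ZMod 2) : (![0, 1] : Fin 2 → ZMod 2) 0 * z = 0 →
    (![0, 1] : Fin 2 → ZMod 2) 1 * z = 0 → z = 0 := by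
  revert z
  decide

private theorem pp11 (z : ZMod 2) : (![1, 1] : Fin 2 → ZMod 2) 0 * z = 0 →
    (![1, 1] : Fin 2 → ZMod 2) 1 * z = 0 → z = 0 := by
  revert z
  decide

private theorem pe10 {A L z x : ZMod 2}
    (h : (![1, 0] : Fin 2 → ZMod 2) 0 * A + (![1, 0] : Fin 2 → ZMod 2) 1 * L = z * x) :
    (![1, 0] : Fin 2 → ZMod 2) 0 * z = z ∧ (![1, 0] : Fin 2 → ZMod 2) 1 * z = 0 ∧ A = z * x := by
  refine ⟨one_mul z, zero_mul z, ?_⟩
  have h1 : 1 * A + 0 * L = z * x := h
  rwa [one_mul, zero_mul, add_zero] at h1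

private theorem pe01 {A L z x : ZMod 2}
    (h : (![0, 1] : Fin 2 → ZMod 2) 0 * A + (![0, 1] : Fin 2 → ZMod 2) 1 * L = z * x) :
    (![0, 1] : Fin 2 → ZMod 2) 0 * z = 0 ∧ (![0, 1] : Fin 2 → ZMod 2) 1 * z = z ∧ L = z * x := by
  refine ⟨zero_mul z, one_mul z, ?_⟩
  have h1 : 0 * A + 1 * L = z * x := h
  rwa [one_mul, zero_mul, zero_add] at h1

private theorem pe11 {A L z x : ZMod 2}
    (h : (![1, 1] : Fin 2 → ZMod 2) 0 * A + (![1, 1] : Fin 2 → ZMod 2) 1 * L = z * x) :
    (![1, 1] : Fin 2 → ZMod 2) 0 * z = z ∧ (![1, 1] : Fin 2 → ZMod 2) 1 * z = z ∧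
      A + L = z * x := by
  refine ⟨one_mul z, one_mul z, ?_⟩
  have h1 : 1 * A + 1 * L = z * x := h
  rwa [one_mul, one_mul] at h1

/-- **The converse of the descent by `1 - i`, all fourth-power-free `D` which are not squares.** -/
theorem gdB_of_sha' (hL2 : LamConv 2) (hL3 : LamConv 3) (hd : Dj S T B)
    (hns : ¬ (md k = 0 ∧ (j.val : ZMod 2) = 0 ∧ S ∪ T = ∅))
    {W : WeierstrassCurve K} (hW : W = cq (dB k j S T B : K)) (hfin : Finite W.toAffine.Point)
    (hcard : Nat.card (ShaP 2 W) = 1) : GdB k j S T B where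
  c1 hj hk := by
    subst hj
    exact det0_of lamConv_zero hd hns (fun A L => lcI hk)
      (fun h => by rw [hk] at h; exact zero_ne_one h.1) hW hfin hcard
  c2 hj hk ha := by
    subst hj
    exact ker0_of lamConv_zero hd hns (fun A L => lcII hk ha) ⟨hk, rfl⟩ hW hfin hcard
  x1 hj hk ha := by
    subst hj hk
    refine ker1_of lamConv_zero hd hns (fun A L z h => ?_) pp10 ⟨by decide, rfl⟩ hW hfin hcard
    obtain ⟨e0, e1, h⟩ := pe10 h
    rw [e0, e1]
    exact lcX1 ha h
  x2 hj hk ha hc := by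
    subst hj hk
    exact ker0_of lamConv_zero hd hns (fun A L => lcX2 ha hc) ⟨by decide, rfl⟩ hW hfin hcard
  x3 hj hk ha hc := by
    subst hj hk
    refine ker1_of lamConv_zero hd hns (fun A L z h => ?_) pp10 ⟨by decide, rfl⟩ hW hfin hcard
    obtain ⟨e0, e1, h⟩ := pe10 h
    rw [e0, e1]
    exact lcX3 ha hc h
  e hj := by
    subst hj
    refine det1_of lamConv_one hd hns (fun A L z h => ?_) pp10 (fun z h => ?_) hW hfin hcard
    · obtain ⟨e0, e1, h⟩ := pe10 h
      rw [e0, e1]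
      exact lcE h
    · have h2 : (0 : ZMod 2) * z = 1 := h.2
      rw [zero_mul] at h2
      exact zero_ne_one h2
  j3 hj := by
    subst hj
    exact det0_of hL3 hd hns (fun A L => lcJ3) (fun h => absurd h.2 (by decide)) hW hfin hcard
  a2 hj hk := by
    subst hj hk
    exact det0_of hL2 hd hns (fun A L => lcJ2a) (fun h => absurd h.1 (by decide)) hW hfin hcard
  b2 hj hk := by
    subst hj hk
    refine det1_of hL2 hd hns (fun A L z h => ?_) pp01 (fun z h => ?_) hW hfin hcard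
    · obtain ⟨e0, e1, h⟩ := pe01 h
      rw [e0, e1]
      exact lcJ2b h
    · have h2 : (0 : ZMod 2) * z = md 3 := h.1
      rw [zero_mul] at h2
      exact absurd h2 (by decide)
  c20 hj hk hc := by
    subst hj hk
    exact ker0_of hL2 hd hns (fun A L => lcJ2c0 hc) ⟨by decide, by decide⟩ hW hfin hcard
  c22 hj hk hc := by
    subst hj hk
    exact ker0_of hL2 hd hns (fun A L => lcJ2c2 hc) ⟨by decide, by decide⟩ hW hfin hcard
  d20 hj hk hc := by
    subst hj hk
    refine ker1_of hL2 hd hns (fun A L z h => ?_) pp01 ⟨by decide, by decide⟩ hW hfin hcard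
    obtain ⟨e0, e1, h⟩ := pe01 h
    rw [e0, e1]
    exact lcJ2d0 hc h
  d22 hj hk hc := by
    subst hj hk
    refine ker1_of hL2 hd hns (fun A L z h => ?_) pp11 ⟨by decide, by decide⟩ hW hfin hcard
    obtain ⟨e0, e1, h⟩ := pe11 h
    rw [e0, e1]
    exact lcJ2d2 hc h

end

end

end Pool.Agent.Lib.MP_1a91b9_ntQ.C
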