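import Pool.Agent.Lib.MP_1a91b9_ntQ.A.EvX2
import Pool.Agent.Lib.MP_1a91b9_ntQ.A.EV

/-!
# Quartic twists, all `D`, file DefZ: the coordinate `al`, `yh = lm rh^(3/2) (1 + lm al)` (page B2)
-/

set_option autoImplicit false
set_option linter.unusedSectionVars false

namespace Pool.Agent.Lib.MP_1a91b9_ntQ

open NumberField Pool.Agent.Lib.MP_1a91b9_nuT Pool.Agent.Lib.MP_1a91b9_nuT.S3
  Pool.Agent.Lib.MP_1a91b9_nuT.Ell

noncomputable section

section
variable [CD]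

/-- the square root of `rh` -/
def rs : ℂ := rh ^ (((2 : ℕ) : ℂ)⁻¹)

/-- `yh = lm rh^(3/2) (1 + lm al)` -/
def al (z : ℂ) : ℂ := (yh z / (lm * (rh * rs)) - 1) / lm

end

variable [CD] [hq : Q4]

theorem rs_sq : rs ^ 2 = rh := by
  rw [rs, Complex.cpow_nat_inv_pow _ two_ne_zero]

theorem rs_ne : rs ≠ 0 := by
  intro h
  have h1 := rs_sq (hq := hq)
  rw [h] at h1
  exact rh_ne (hq := hq) (by rw [← h1]; ring)

theorem yh_al (z : ℂ) : yh z = lm * (rh * rs) * (1 + lm * al z) := by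
  have h1 := rs_ne (hq := hq)
  have h2 := rh_ne (hq := hq)
  have h3 := lm_ne (hq := hq)
  rw [al]
  field_simp
  ring

/-- the square of `1 + lm al` -/
theorem al_sq' {z : ℂ} (hz : 2 * z ∉ PP.lattice) :
    (1 + lm * al z) ^ 2 = (1 + 2 * xi z) * (1 - 2 * zt * ze z) := by
  have h1 := gg_mul hz
  have h2 := gg_sq_mul hz
  have h3 := X_xi (hq := hq) z
  have h4 := X_sq_sub_ze (hq := hq) z
  have h5 := yh_al (hq := hq) z
  have h6 := rs_sq (hq := hq)
  have h7 : yh z ^ 2 = X z * (X z ^ 2 - 1) := by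
    rw [← h1]
    linear_combination X z * h2
  rw [h5, h4, h3] at h7
  have hne : lm ^ 2 * rh ^ 3 ≠ 0 :=
    mul_ne_zero (pow_ne_zero 2 lm_ne) (pow_ne_zero 3 rh_ne)
  apply mul_left_cancel₀ hne
  linear_combination h7 - lm ^ 2 * rh ^ 2 * (1 + lm * al z) ^ 2 * h6 -
    rh ^ 3 * (1 + 2 * xi z) * (1 - 2 * zt * ze z) * lm_sq (hq := hq) +
    4 * rh ^ 3 * (1 + 2 * xi z) * ze z * zt_sq

/-- the equation of `al` -/
theorem al_sq {z : ℂ} (hz : 2 * z ∉ PP.lattice) :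
    al z ^ 2 + (1 - zt) * al z = -(zt * xi z) - ze z - 2 * xi z * ze z := by
  have h := al_sq' hz
  have h1 := lm_sq (hq := hq)
  have h2 := cj_lm (hq := hq)
  apply mul_left_cancel₀ (pow_ne_zero 2 (lm_ne (hq := hq)))
  linear_combination h + (zt * xi z + ze z + 2 * xi z * ze z) * h1 +
    lm * al z * h2 + 2 * xi z * zt_sq

/-- `al` at `lm z` -/
theorem al_lm {z : ℂ} (hz : 2 * (lm * z) ∉ PP.lattice) :
    (1 + lm * al (lm * z)) * (1 + 4 * ze z) = -((1 + lm * ze z) * (1 + lm * al z)) := by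
  have hz1 := two_of hz
  have h1 := gg_mul hz1
  have h2 := gg_sq_mul hz1
  have h3 := gg_mul hz
  have h4 := gg_lm hz
  have h5 := X_lm hz1
  have h6 := yh_ne hz1
  have h7 := X_sq_ne hz1
  have h8 := X_ne hz1
  have h9 : yh (lm * z) * (2 * zt * lm) * X z ^ 2 = (X z ^ 2 + 1) * yh z := by
    rw [← h3]
    apply mul_right_cancel₀ h6
    rw [← h1]
    have e : gg (lm * z) * X (lm * z) * (2 * zt * lm) * X z ^ 2 * (gg z * X z) =
      (gg (lm * z) * (lm * (gg z * X z))) * (2 * zt * X (lm * z) * X z) * X z := by ring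
    rw [e, h4, h5]
    linear_combination -(X z ^ 2 + 1) * X z * h2
  have a1 := yh_al (hq := hq) (lm * z)
  have a2 := yh_al (hq := hq) z
  have a3 := X_sq_add_ze' (hq := hq) z
  have a4 : X z ^ 2 = rh ^ 2 * (1 + 4 * ze z) := by
    rw [X_xi, ze]
    ring
  rw [a1, a2, a3, a4] at h9
  have hne : rh ^ 2 * (lm * (rh * rs)) * 4 ≠ 0 := by
    refine mul_ne_zero (mul_ne_zero (pow_ne_zero 2 rh_ne) (mul_ne_zero lm_ne
      (mul_ne_zero rh_ne rs_ne))) (by norm_num)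
  apply mul_left_cancel₀ hne
  linear_combination -lm * h9 + 2 * zt * rh ^ 2 * (lm * (rh * rs)) * (1 + lm * al (lm * z)) *
    (1 + 4 * ze z) * lm_sq (hq := hq) +
    4 * rh ^ 2 * (lm * (rh * rs)) * (1 + lm * al (lm * z)) * (1 + 4 * ze z) * zt_sq -
    2 * rh ^ 2 * (1 + lm * ze z) * (lm * (rh * rs)) * (1 + lm * al z) * cj_lm (hq := hq)

end

end Pool.Agent.Lib.MP_1a91b9_ntQ
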