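import Pool.Agent.Lib.MP_1a91b9_ntQ.B.DenTr
import Pool.Agent.Lib.MP_1a91b9_ntQ.B.ClsB
import Pool.Agent.Lib.MP_1a91b9_ntQ.D.Up5

/-!
# MP_1a91b9_nt (quartic twists, all exponents), part R: transfer of the density, with the finer classes

The densities of the good sets of primes outside `T ∪ B` are known in the classes modulo
`lam ^ (m + 5)` and of the quartic symbols at the primes of `T ∪ B` (`DSB`).
-/

set_option autoImplicit false

namespace Pool.Agent.Lib.MP_1a91b9_ntQ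

open NumberField Finset Filter Topology
open Pool.Agent.Lib.MP_1a91b9_ntH (PS nm Sx mem_Sx one_le_nm nm_empty)

noncomputable section

/-- The finer classes together. -/
theorem DSc.of {m : ℕ} {B : Finset Pg} {g : G4n m} {κ₀ : ℝ} {Q : Finset Pg → Prop}
    (h : ∀ c : B → ZMod 4, DSB m B (g, c) κ₀ Q) : DSc m B g κ₀ Q := by
  classical
  intro ε hε
  obtain ⟨N, hN⟩ : ∃ N : ℝ, N = (Fintype.card (B → ZMod 4) : ℝ) := ⟨_, rfl⟩
  have hN0 : 0 < N := by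
    rw [hN]
    exact_mod_cast Fintype.card_pos
  have hε' : 0 < ε / N := by positivity
  choose X₀ hX₀ using fun c => h c _ hε'
  refine ⟨∑ c, X₀ c, fun X hX => ?_⟩
  have h1 : ∀ S : Finset Pg, (∑ q ∈ S, clB m B q).1 = ∑ q ∈ S, clq m q := by
    intro S
    rw [Prod.fst_sum]
    rfl
  have h2 : ∀ (S : Finset Pg) (c : B → ZMod 4), ∑ q ∈ S, clB m B q = (g, c) ↔
      ∑ q ∈ S, clq m q = g ∧ (∑ q ∈ S, clB m B q).2 = c := by
    intro S c
    rw [← h1, Prod.ext_iff]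
  have e1 : ((Sx Pg X).filter fun S => Disjoint S B ∧ ∑ q ∈ S, clq m q = g).card =
      ∑ c : B → ZMod 4, ((Sx Pg X).filter fun S => Disjoint S B ∧
        ∑ q ∈ S, clB m B q = (g, c)).card := by
    rw [card_eq_sum_card_fiberwise (f := fun S : Finset Pg => (∑ q ∈ S, clB m B q).2)
      (t := (univ : Finset (B → ZMod 4))) (fun _ _ => mem_coe.2 (mem_univ _))]
    refine sum_congr rfl fun c _ => congrArg card ?_
    ext S
    rw [mem_filter, mem_filter, mem_filter, h2]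
    tauto
  have e2 : ((Sx Pg X).filter fun S => Disjoint S B ∧ ∑ q ∈ S, clq m q = g ∧ Q S).card =
      ∑ c : B → ZMod 4, ((Sx Pg X).filter fun S => Disjoint S B ∧
        ∑ q ∈ S, clB m B q = (g, c) ∧ Q S).card := by
    rw [card_eq_sum_card_fiberwise (f := fun S : Finset Pg => (∑ q ∈ S, clB m B q).2)
      (t := (univ : Finset (B → ZMod 4))) (fun _ _ => mem_coe.2 (mem_univ _))]
    refine sum_congr rfl fun c _ => congrArg card ?_
    ext S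
    rw [mem_filter, mem_filter, mem_filter, h2]
    tauto
  have h3 : ∀ c : B → ZMod 4, κ₀ * (((Sx Pg X).filter fun S => Disjoint S B ∧
      ∑ q ∈ S, clB m B q = (g, c)).card : ℝ) - ε / N * X ≤
      (((Sx Pg X).filter fun S => Disjoint S B ∧ ∑ q ∈ S, clB m B q = (g, c) ∧ Q S).card : ℝ) :=
    fun c => hX₀ c X ((single_le_sum (fun _ _ => Nat.zero_le _) (mem_univ c)).trans hX)
  have h4 := sum_le_sum fun (c : B → ZMod 4) (_ : c ∈ univ) => h3 c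
  rw [sum_sub_distrib, ← mul_sum, sum_const, card_univ, nsmul_eq_mul, ← hN] at h4
  rw [e1, e2]
  push_cast
  have h5 : N * (ε / N * X) = ε * X := by
    field_simp
  rw [h5] at h4
  exact h4

/-- **The density among the fourth-power-free elements with a condition `R`** which only depends on
the power of `i`, the power of `lam` and the class modulo `lam ^ (m + 5)` of the primary factor. -/
theorem densB (m : ℕ) (R : 𝓞 K4 → Prop)
    (hR : ∀ (k : ZMod 4) (j : Fin 4) (y y' : 𝓞 K4), In4 y → In4 y' → lam ^ (m + 5) ∣ y - y' →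
      (R (DenB.ph k j y) ↔ R (DenB.ph k j y')))
    (hne : ∃ (k : ZMod 4) (j : Fin 4) (y : 𝓞 K4), In4 y ∧ R (DenB.ph k j y))
    (κ κ' : ℝ) (hκ : κ' < κ)
    (Good : ZMod 4 → Fin 4 → Finset Pg → Finset Pg → Finset Pg → Prop)
    (h : ∀ (k : ZMod 4) (j : Fin 4) (T B : Finset Pg), Disjoint T B → ∀ g : GB m (T ∪ B),
      DSB m (T ∪ B) g κ fun S => Good k j S T B)
    (Pr : 𝓞 K4 → Prop)
    (hPr : ∀ (k : ZMod 4) (j : Fin 4) (S T B : Finset Pg), Disjoint S T → Disjoint S B →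
      Disjoint T B → R (DenB.ph k j (pB S T B)) → Good k j S T B → Pr (DenB.ph k j (pB S T B))) :
    ∀ᶠ X : ℝ in Filter.atTop,
      κ' ≤ (Nat.card {x : 𝓞 K4 // FFd x ∧ R x ∧ |Algebra.norm ℤ x| ≤ X ∧ Pr x} : ℝ) /
        (Nat.card {x : 𝓞 K4 // FFd x ∧ R x ∧ |Algebra.norm ℤ x| ≤ X} : ℝ) :=
  densBc m R hR hne κ κ' hκ Good (fun k j T B hTB g _ => DSc.of fun c => h k j T B hTB (g, c)) Pr hPr

namespace DenB

theorem cls_congr {m : ℕ} {M u : 𝓞 K4} (hM : M ∣ lam ^ (m + 5)) (k : ZMod 4) (j : Fin 4)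
    (y y' : 𝓞 K4) (hyy : lam ^ (m + 5) ∣ y - y') : M ∣ ph k j y - u ↔ M ∣ ph k j y' - u := by
  have h1 : M ∣ ph k j y - ph k j y' := by
    refine (hM.trans hyy).trans ⟨iO ^ k.val * lam ^ j.val, ?_⟩
    unfold ph
    ring
  constructor
  · intro h2
    have h3 := dvd_sub h2 h1
    have e : ph k j y - u - (ph k j y - ph k j y') = ph k j y' - u := by ring
    rwa [e] at h3
  · intro h2
    have h3 := dvd_add h2 h1
    have e : ph k j y' - u + (ph k j y - ph k j y') = ph k j y - u := by ring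
    rwa [e] at h3

theorem cls_ne {M u : 𝓞 K4} (hu : ¬ (lam ^ 4 ∣ M ∧ lam ^ 4 ∣ u)) :
    ∃ (k : ZMod 4) (j : Fin 4) (y : 𝓞 K4), In4 y ∧ M ∣ ph k j y - u := by
  by_cases h : lam ^ 4 ∣ u
  · have h1 : ¬ lam ^ 4 ∣ M := fun h2 => hu ⟨h2, h⟩
    by_cases h3 : M ∣ u
    · obtain ⟨k, j, y, hy, e⟩ := exists_ph h1
      exact ⟨k, j, y, hy, by rw [← e]; exact dvd_sub_self_left.2 h3⟩
    · have h4 : ¬ lam ^ 4 ∣ u + M := fun h5 => h1 ((dvd_add_right h).1 h5)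
      obtain ⟨k, j, y, hy, e⟩ := exists_ph h4
      exact ⟨k, j, y, hy, by rw [← e, add_sub_cancel_left]⟩
  · obtain ⟨k, j, y, hy, e⟩ := exists_ph h
    exact ⟨k, j, y, hy, by rw [← e, sub_self]; exact dvd_zero _⟩

end DenB

/-- The density in a class `u` modulo `M`, a divisor of `lam ^ (m + 5)`, not both divisible by
`lam ^ 4`. -/
theorem densB_cls (m : ℕ) {M u : 𝓞 K4} (hM : M ∣ lam ^ (m + 5))
    (hu : ¬ (lam ^ 4 ∣ M ∧ lam ^ 4 ∣ u)) (κ κ' : ℝ) (hκ : κ' < κ)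
    (Good : ZMod 4 → Fin 4 → Finset Pg → Finset Pg → Finset Pg → Prop)
    (h : ∀ (k : ZMod 4) (j : Fin 4) (T B : Finset Pg), Disjoint T B → ∀ g : GB m (T ∪ B),
      DSB m (T ∪ B) g κ fun S => Good k j S T B)
    (Pr : 𝓞 K4 → Prop)
    (hPr : ∀ (k : ZMod 4) (j : Fin 4) (S T B : Finset Pg), Disjoint S T → Disjoint S B →
      Disjoint T B → M ∣ DenB.ph k j (pB S T B) - u → Good k j S T B →
      Pr (DenB.ph k j (pB S T B))) :
    ∀ᶠ X : ℝ in Filter.atTop,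
      κ' ≤ (Nat.card {x : 𝓞 K4 // FFd x ∧ M ∣ x - u ∧ |Algebra.norm ℤ x| ≤ X ∧ Pr x} : ℝ) /
        (Nat.card {x : 𝓞 K4 // FFd x ∧ M ∣ x - u ∧ |Algebra.norm ℤ x| ≤ X} : ℝ) :=
  densB m (fun x => M ∣ x - u) (fun k j y y' _ _ hyy => DenB.cls_congr hM k j y y' hyy)
    (DenB.cls_ne hu) κ κ' hκ Good h Pr hPr

/-- **The limit**: a property with lower density `c`, whose complement has lower density `1 - c`. -/
theorem tendstoB (m : ℕ) (R : 𝓞 K4 → Prop)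
    (hR : ∀ (k : ZMod 4) (j : Fin 4) (y y' : 𝓞 K4), In4 y → In4 y' → lam ^ (m + 5) ∣ y - y' →
      (R (DenB.ph k j y) ↔ R (DenB.ph k j y')))
    (hne : ∃ (k : ZMod 4) (j : Fin 4) (y : 𝓞 K4), In4 y ∧ R (DenB.ph k j y))
    (Gd : ZMod 4 → Fin 4 → Finset Pg → Finset Pg → Finset Pg → Prop) (c : ℝ) (hc : 0 < c)
    (h1 : ∀ (k : ZMod 4) (j : Fin 4) (T B : Finset Pg), Disjoint T B → ∀ (g : GB m (T ∪ B))
      (κ₀ : ℝ), κ₀ < c → DSB m (T ∪ B) g κ₀ fun S => Gd k j S T B)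
    (h2 : ∀ (k : ZMod 4) (j : Fin 4) (T B : Finset Pg), Disjoint T B → ∀ (g : GB m (T ∪ B))
      (κ₀ : ℝ), κ₀ < 1 - c → DSB m (T ∪ B) g κ₀ fun S => ¬ Gd k j S T B)
    (Pr : 𝓞 K4 → Prop)
    (hPr : ∀ (k : ZMod 4) (j : Fin 4) (S T B : Finset Pg), Disjoint S T → Disjoint S B →
      Disjoint T B → R (DenB.ph k j (pB S T B)) →
      (Pr (DenB.ph k j (pB S T B)) ↔ Gd k j S T B)) :
    Tendsto (fun X : ℝ =>
      (Nat.card {x : 𝓞 K4 // FFd x ∧ R x ∧ |Algebra.norm ℤ x| ≤ X ∧ Pr x} : ℝ) /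
        (Nat.card {x : 𝓞 K4 // FFd x ∧ R x ∧ |Algebra.norm ℤ x| ≤ X} : ℝ))
      atTop (𝓝 c) := by
  refine tendsto_of_two (A := FFd) (B := R) (Pr := Pr)
    (N := fun (X : ℝ) (x : 𝓞 K4) => |Algebra.norm ℤ x| ≤ X) c hc ?_ ?_
  · intro κ hκ
    exact densB m R hR hne ((κ + c) / 2) κ (by linarith) Gd
      (fun k j T B hTB g => h1 k j T B hTB g _ (by linarith)) Pr
      fun k j S T B a1 a2 a3 hS h => (hPr k j S T B a1 a2 a3 hS).2 h
  · intro κ hκ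
    exact densB m R hR hne ((κ + (1 - c)) / 2) κ (by linarith) (fun k j S T B => ¬ Gd k j S T B)
      (fun k j T B hTB g => h2 k j T B hTB g _ (by linarith)) (fun x => ¬ Pr x)
      fun k j S T B a1 a2 a3 hS h h3 => h ((hPr k j S T B a1 a2 a3 hS).1 h3)

/-- The limit in a class `u` modulo `M`, a divisor of `lam ^ (m + 5)`, not both divisible by
`lam ^ 4`. -/
theorem tendstoB_cls (m : ℕ) {M u : 𝓞 K4} (hM : M ∣ lam ^ (m + 5))
    (hu : ¬ (lam ^ 4 ∣ M ∧ lam ^ 4 ∣ u))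
    (Gd : ZMod 4 → Fin 4 → Finset Pg → Finset Pg → Finset Pg → Prop) (c : ℝ) (hc : 0 < c)
    (h1 : ∀ (k : ZMod 4) (j : Fin 4) (T B : Finset Pg), Disjoint T B → ∀ (g : GB m (T ∪ B))
      (κ₀ : ℝ), κ₀ < c → DSB m (T ∪ B) g κ₀ fun S => Gd k j S T B)
    (h2 : ∀ (k : ZMod 4) (j : Fin 4) (T B : Finset Pg), Disjoint T B → ∀ (g : GB m (T ∪ B))
      (κ₀ : ℝ), κ₀ < 1 - c → DSB m (T ∪ B) g κ₀ fun S => ¬ Gd k j S T B)
    (Pr : 𝓞 K4 → Prop)
    (hPr : ∀ (k : ZMod 4) (j : Fin 4) (S T B : Finset Pg), Disjoint S T → Disjoint S B →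
      Disjoint T B → M ∣ DenB.ph k j (pB S T B) - u →
      (Pr (DenB.ph k j (pB S T B)) ↔ Gd k j S T B)) :
    Tendsto (fun X : ℝ =>
      (Nat.card {x : 𝓞 K4 // FFd x ∧ M ∣ x - u ∧ |Algebra.norm ℤ x| ≤ X ∧ Pr x} : ℝ) /
        (Nat.card {x : 𝓞 K4 // FFd x ∧ M ∣ x - u ∧ |Algebra.norm ℤ x| ≤ X} : ℝ))
      atTop (𝓝 c) :=
  tendstoB m (fun x => M ∣ x - u) (fun k j y y' _ _ hyy => DenB.cls_congr hM k j y y' hyy)
    (DenB.cls_ne hu) Gd c hc h1 h2 Pr hPr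

end

end Pool.Agent.Lib.MP_1a91b9_ntQ
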