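import Pool.Agent.Lib.MP_1a91b9_ntQ.B.DenFF
import Pool.Agent.Lib.MP_1a91b9_ntK.R.Fix

/-!
# MP_1a91b9_nt (quartic twists, all exponents), part R: transfer of the density

The fourth-power-free elements are the `i^k lam^j DDq S * DDq T ^ 3 * DDq B ^ 2`. For fixed `k`, `j`,
`T`, `B` a lower bound for the proportion of the good `S` (disjoint from `T` and `B`, in a class modulo
`lam ^ (m + 5)`) is known. As `∑ 1 / (N(T)^3 N(B)^2)` converges, the bounds can be added.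
-/

set_option autoImplicit false

namespace Pool.Agent.Lib.MP_1a91b9_ntQ

open NumberField Finset
open Pool.Agent.Lib.MP_1a91b9_ntH (PS nm Sx mem_Sx one_le_nm nm_empty)

noncomputable section

namespace DenB

/-! ### Summing densities -/

/-- Summing lower densities over a set of indices with convergent `∑ 1 / w`. -/
theorem fix_gen {α : Type} {w : α → ℕ} (hw : ∀ a, 1 ≤ w a)
    (hs : Summable fun a => (1 : ℝ) / (w a : ℝ)) {C κ : ℝ} (hC : 0 ≤ C) (hκ : 0 ≤ κ)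
    (J : α → Prop) (b g : α → ℕ → ℝ) (hb : ∀ a Y, b a Y ≤ C * Y) (hg : ∀ a Y, 0 ≤ g a Y)
    (h : ∀ a, J a → ∀ ε : ℝ, 0 < ε → ∃ Y₀ : ℕ, ∀ Y : ℕ, Y₀ ≤ Y →
      κ * b a Y - ε * Y ≤ g a Y) (ε : ℝ) (hε : 0 < ε) : ∃ X₀ : ℕ, ∀ X : ℕ, X₀ ≤ X →
    ∀ F : Finset α, (∀ a ∈ F, J a) →
      κ * ∑ a ∈ F, b a (X / w a) - ε * X ≤ ∑ a ∈ F, g a (X / w a) := by
  classical
  have hε1 : 0 < ε / (2 * (κ * C + 1)) := by positivity
  obtain ⟨A, hA⟩ := summable_iff_vanishing_norm.1 hs _ hε1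
  obtain ⟨m, hm⟩ : ∃ m : ℝ, m = (A.card : ℝ) := ⟨_, rfl⟩
  have hm0 : 0 ≤ m := by
    rw [hm]
    exact Nat.cast_nonneg _
  have hε2 : 0 < ε / (2 * (m + 1)) := by positivity
  have h' : ∀ a, ∃ Y₀ : ℕ, J a → ∀ Y : ℕ, Y₀ ≤ Y →
      κ * b a Y - ε / (2 * (m + 1)) * Y ≤ g a Y := by
    intro a
    by_cases ha : J a
    · obtain ⟨Y₀, h0⟩ := h a ha _ hε2
      exact ⟨Y₀, fun _ => h0⟩
    · exact ⟨0, fun h1 => absurd h1 ha⟩
  choose Y₀ hY₀ using h'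
  refine ⟨∑ a ∈ A, Y₀ a * w a, fun X hX F hF => ?_⟩
  have hdiv : ∀ a : α, ((X / w a : ℕ) : ℝ) ≤ X * (1 / (w a : ℝ)) := by
    intro a
    have h1 := Nat.cast_div_le (α := ℝ) (m := X) (n := w a)
    rw [mul_one_div]
    exact h1
  have h1 : ∀ a ∈ F ∩ A, κ * b a (X / w a) - g a (X / w a) ≤ ε / (2 * (m + 1)) * X := by
    intro a ha
    obtain ⟨haF, haA⟩ := mem_inter.1 ha
    have h2 : Y₀ a ≤ X / w a := by
      rw [Nat.le_div_iff_mul_le (hw a)]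
      have h3 : Y₀ a * w a ≤ ∑ a ∈ A, Y₀ a * w a :=
        single_le_sum (f := fun a => Y₀ a * w a) (fun _ _ => Nat.zero_le _) haA
      omega
    have h3 := hY₀ a (hF a haF) _ h2
    have h4 : ((X / w a : ℕ) : ℝ) ≤ X := by exact_mod_cast Nat.div_le_self X _
    have h5 : ε / (2 * (m + 1)) * ((X / w a : ℕ) : ℝ) ≤ ε / (2 * (m + 1)) * X :=
      mul_le_mul_of_nonneg_left h4 hε2.le
    linarith
  have h2 : ∀ a ∈ F \ A, κ * b a (X / w a) - g a (X / w a) ≤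
      κ * C * X * (1 / (w a : ℝ)) := by
    intro a _
    have h3 := hb a (X / w a)
    have h4 := hg a (X / w a)
    have h5 : C * ((X / w a : ℕ) : ℝ) ≤ C * (X * (1 / (w a : ℝ))) :=
      mul_le_mul_of_nonneg_left (hdiv a) hC
    have h6 : κ * b a (X / w a) ≤ κ * (C * (X * (1 / (w a : ℝ)))) :=
      mul_le_mul_of_nonneg_left (h3.trans h5) hκ
    linarith
  have h3 := sum_le_sum h1
  have h4 := sum_le_sum h2
  rw [sum_const, nsmul_eq_mul] at h3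
  rw [← mul_sum] at h4
  have hX0 : (0 : ℝ) ≤ X := Nat.cast_nonneg _
  have h3' : (((F ∩ A).card : ℕ) : ℝ) * (ε / (2 * (m + 1)) * X) ≤
      m * (ε / (2 * (m + 1)) * X) := by
    refine mul_le_mul_of_nonneg_right ?_ (by positivity)
    rw [hm]
    exact_mod_cast card_le_card inter_subset_right
  have h5 : ∑ a ∈ F \ A, (1 : ℝ) / (w a : ℝ) ≤ ε / (2 * (κ * C + 1)) :=
    (le_abs_self _).trans (hA _ (disjoint_sdiff.symm)).le
  have h6 : κ * C * X * ∑ a ∈ F \ A, (1 : ℝ) / (w a : ℝ) ≤ ε / 2 * X := by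
    have hκC : 0 ≤ κ * C * X := by positivity
    have h7 := mul_le_mul_of_nonneg_left h5 hκC
    have h8 : κ * C * X * (ε / (2 * (κ * C + 1))) ≤ ε / 2 * X := by
      have h9 : κ * C * X * (ε / (2 * (κ * C + 1))) = ε / 2 * X * (κ * C / (κ * C + 1)) := by
        field_simp
      rw [h9]
      have h10 : κ * C / (κ * C + 1) ≤ 1 := by
        rw [div_le_one (by positivity)]
        linarith
      have h11 : 0 ≤ ε / 2 * (X : ℝ) := by positivity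
      nlinarith
    linarith
  have h7 : m * (ε / (2 * (m + 1)) * X) ≤ ε / 2 * X := by
    have h9 : m * (ε / (2 * (m + 1)) * X) = ε / 2 * X * (m / (m + 1)) := by
      field_simp
    rw [h9]
    have h10 : m / (m + 1) ≤ 1 := by
      rw [div_le_one (by positivity)]
      linarith
    have h11 : 0 ≤ ε / 2 * (X : ℝ) := by positivity
    nlinarith
  have h8 : ∑ a ∈ F, (κ * b a (X / w a) - g a (X / w a)) =
      ∑ a ∈ F ∩ A, (κ * b a (X / w a) - g a (X / w a)) +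
      ∑ a ∈ F \ A, (κ * b a (X / w a) - g a (X / w a)) :=
    (sum_inter_add_sum_sdiff F A _).symm
  rw [sum_sub_distrib, ← mul_sum] at h8
  linarith

theorem summable_sq : Summable fun T : Finset Pg => (1 : ℝ) / (nm T : ℝ) ^ 2 := by
  classical
  rw [summable_iff_vanishing_norm]
  intro ε hε
  obtain ⟨T₀, hT₀⟩ := Pool.Agent.Lib.MP_1a91b9_ntK.tail_sq (ι := Pg) (C := 25)
    (fun Y => PrmG.card_le prm4 Y) (half_pos hε)
  refine ⟨Sx Pg T₀, fun F hF => ?_⟩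
  have h1 := hT₀ F fun T hT => by
    by_contra h2
    push Not at h2
    exact disjoint_left.1 hF hT (mem_Sx.2 h2)
  have h2 : 0 ≤ ∑ T ∈ F, (1 : ℝ) / (nm T : ℝ) ^ 2 := sum_nonneg fun _ _ => by positivity
  rw [Real.norm_eq_abs, abs_of_nonneg h2]
  linarith

/-! ### The indices -/

/-- The indices of the families: `k`, `j`, the class of `S`, and the sets `T`, `B`. -/
abbrev Ix (m : ℕ) : Type := ZMod 4 × Fin 4 × G4n m × Finset Pg × Finset Pg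

variable {m : ℕ}

/-- The norm of the fixed part. -/
def wt (i : Ix m) : ℕ := 2 ^ i.2.1.val * (nm i.2.2.2.1 ^ 3 * nm i.2.2.2.2 ^ 2)

theorem one_le_wt (i : Ix m) : 1 ≤ wt i := by
  have h1 := one_le_nm i.2.2.2.1
  have h2 := one_le_nm i.2.2.2.2
  unfold wt
  exact Nat.one_le_iff_ne_zero.2 (by positivity)

theorem summable_wt : Summable fun i : Ix m => (1 : ℝ) / (wt i : ℝ) := by
  have h1 : Summable fun p : Finset Pg × Finset Pg =>
      (1 : ℝ) / (nm p.1 : ℝ) ^ 2 * ((1 : ℝ) / (nm p.2 : ℝ) ^ 2) :=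
    summable_sq.mul_of_nonneg summable_sq (fun _ => by positivity) (fun _ => by positivity)
  have h2 : Summable fun p : G4n m × Finset Pg × Finset Pg => (1 : ℝ) *
      ((1 : ℝ) / (nm p.2.1 : ℝ) ^ 2 * ((1 : ℝ) / (nm p.2.2 : ℝ) ^ 2)) :=
    (Summable.of_finite (f := fun _ : G4n m => (1 : ℝ))).mul_of_nonneg h1
      (fun _ => by positivity) (fun _ => by positivity)
  have h3 : Summable fun p : Fin 4 × G4n m × Finset Pg × Finset Pg => (1 : ℝ) * ((1 : ℝ) *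
      ((1 : ℝ) / (nm p.2.2.1 : ℝ) ^ 2 * ((1 : ℝ) / (nm p.2.2.2 : ℝ) ^ 2))) :=
    (Summable.of_finite (f := fun _ : Fin 4 => (1 : ℝ))).mul_of_nonneg h2
      (fun _ => by positivity) (fun _ => by positivity)
  have h4 : Summable fun p : Ix m => (1 : ℝ) * ((1 : ℝ) * ((1 : ℝ) *
      ((1 : ℝ) / (nm p.2.2.2.1 : ℝ) ^ 2 * ((1 : ℝ) / (nm p.2.2.2.2 : ℝ) ^ 2)))) :=
    (Summable.of_finite (f := fun _ : ZMod 4 => (1 : ℝ))).mul_of_nonneg h3
      (fun _ => by positivity) (fun _ => by positivity)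
  refine Summable.of_nonneg_of_le (fun i => by positivity) (fun i => ?_) h4
  have hT : (1 : ℝ) ≤ (nm i.2.2.2.1 : ℝ) := by exact_mod_cast one_le_nm i.2.2.2.1
  have hB : (1 : ℝ) ≤ (nm i.2.2.2.2 : ℝ) := by exact_mod_cast one_le_nm i.2.2.2.2
  have hj : (1 : ℝ) ≤ 2 ^ i.2.1.val := one_le_pow₀ (by norm_num)
  rw [one_mul, one_mul, one_mul, one_div_mul_one_div]
  refine one_div_le_one_div_of_le (by positivity) ?_
  unfold wt
  push_cast
  have h5 : (nm i.2.2.2.1 : ℝ) ^ 2 ≤ (nm i.2.2.2.1 : ℝ) ^ 3 :=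
    pow_le_pow_right₀ hT (by norm_num)
  have h6 : (nm i.2.2.2.1 : ℝ) ^ 2 * (nm i.2.2.2.2 : ℝ) ^ 2 ≤
      (nm i.2.2.2.1 : ℝ) ^ 3 * (nm i.2.2.2.2 : ℝ) ^ 2 :=
    mul_le_mul_of_nonneg_right h5 (by positivity)
  have h7 : (0 : ℝ) ≤ (nm i.2.2.2.1 : ℝ) ^ 3 * (nm i.2.2.2.2 : ℝ) ^ 2 := by positivity
  nlinarith

/-- The element of an index and a set. -/
def el (i : Ix m) (S : Finset Pg) : 𝓞 K4 := ph i.1 i.2.1 (pB S i.2.2.2.1 i.2.2.2.2)

theorem Nz_el (i : Ix m) (S : Finset Pg) : Nz (el i S) = nm S * wt i := by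
  unfold el wt
  rw [Nz_ph, Nz_pB]
  ring

/-- The sets of an index. -/
def SI (i : Ix m) (S : Finset Pg) : Prop :=
  Disjoint S (i.2.2.2.1 ∪ i.2.2.2.2) ∧ ∑ q ∈ S, clq m q = i.2.2.1

/-- The indices which occur for the norm at most `n`. -/
def IX (m n : ℕ) : Finset (Ix m) := by
  classical
  exact (univ ×ˢ univ ×ˢ univ ×ˢ Sx Pg n ×ˢ Sx Pg n).filter fun i =>
    Disjoint i.2.2.2.1 i.2.2.2.2

theorem mem_IX {n : ℕ} {i : Ix m} : i ∈ IX m n ↔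
    (nm i.2.2.2.1 ≤ n ∧ nm i.2.2.2.2 ≤ n) ∧ Disjoint i.2.2.2.1 i.2.2.2.2 := by
  classical
  rw [IX, mem_filter]
  simp only [mem_product, mem_univ, true_and, mem_Sx]

theorem le_of_wt {n : ℕ} {i : Ix m} {S : Finset Pg} (h : nm S * wt i ≤ n) :
    nm i.2.2.2.1 ≤ n ∧ nm i.2.2.2.2 ≤ n := by
  have h0 := one_le_nm S
  have h1 := one_le_nm i.2.2.2.1
  have h2 := one_le_nm i.2.2.2.2
  have h3 : 1 ≤ 2 ^ i.2.1.val := Nat.one_le_two_pow
  have h4 : nm i.2.2.2.1 ^ 3 * nm i.2.2.2.2 ^ 2 ≤ n := by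
    refine le_trans ?_ h
    unfold wt
    calc nm i.2.2.2.1 ^ 3 * nm i.2.2.2.2 ^ 2
        = 1 * (1 * (nm i.2.2.2.1 ^ 3 * nm i.2.2.2.2 ^ 2)) := by ring
      _ ≤ nm S * (2 ^ i.2.1.val * (nm i.2.2.2.1 ^ 3 * nm i.2.2.2.2 ^ 2)) :=
        Nat.mul_le_mul h0 (Nat.mul_le_mul_right _ h3)
  constructor
  · calc nm i.2.2.2.1 = nm i.2.2.2.1 ^ 1 * 1 := by ring
      _ ≤ nm i.2.2.2.1 ^ 3 * nm i.2.2.2.2 ^ 2 :=
        Nat.mul_le_mul (Nat.pow_le_pow_right h1 (by norm_num)) (Nat.one_le_pow _ _ h2)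
      _ ≤ n := h4
  · calc nm i.2.2.2.2 = 1 * nm i.2.2.2.2 ^ 1 := by ring
      _ ≤ nm i.2.2.2.1 ^ 3 * nm i.2.2.2.2 ^ 2 :=
        Nat.mul_le_mul (Nat.one_le_pow _ _ h1) (Nat.pow_le_pow_right h2 (by norm_num))
      _ ≤ n := h4

open Classical in
/-- Counting the fourth-power-free elements with a property. -/
theorem card_all (m n : ℕ) (P : 𝓞 K4 → Prop) :
    Nat.card {x : 𝓞 K4 // FFd x ∧ Nz x ≤ n ∧ P x} =
      ∑ i ∈ IX m n, ((Sx Pg (n / wt i)).filter fun S => SI i S ∧ P (el i S)).card := by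
  obtain ⟨A, hA⟩ : ∃ A : Finset (Σ _ : Ix m, Finset Pg), A = (IX m n).sigma fun i =>
    (Sx Pg (n / wt i)).filter fun S => SI i S ∧ P (el i S) := ⟨_, rfl⟩
  have hmem : ∀ (i : Ix m) (S : Finset Pg), (⟨i, S⟩ : Σ _ : Ix m, Finset Pg) ∈ A ↔
      (nm S * wt i ≤ n ∧ Disjoint i.2.2.2.1 i.2.2.2.2) ∧ SI i S ∧ P (el i S) := by
    intro i S
    rw [hA, mem_sigma, mem_filter, mem_Sx, mem_IX, Nat.le_div_iff_mul_le (one_le_wt i)]
    constructor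
    · rintro ⟨⟨_, h2⟩, h3, h4⟩
      exact ⟨⟨h3, h2⟩, h4⟩
    · rintro ⟨⟨h2, h3⟩, h4⟩
      exact ⟨⟨le_of_wt h2, h3⟩, h2, h4⟩
  have e : Nat.card {x : 𝓞 K4 // FFd x ∧ Nz x ≤ n ∧ P x} = Nat.card {p // p ∈ A} := by
    symm
    refine Nat.card_congr (Equiv.ofBijective (fun p => ⟨el p.1.1 p.1.2, ?_⟩) ⟨?_, ?_⟩)
    · obtain ⟨⟨i, S⟩, hp⟩ := p
      obtain ⟨⟨h1, h2⟩, ⟨h3, _⟩, h4⟩ := (hmem i S).1 hp
      rw [disjoint_union_right] at h3
      exact ⟨ph_ff _ _ h3.1 h3.2 h2, by rw [Nz_el]; exact h1, h4⟩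
    · rintro ⟨⟨⟨k, j, g, T, B⟩, S⟩, hp⟩ ⟨⟨⟨k', j', g', T', B'⟩, S'⟩, hp'⟩ h
      have h1 : ph k j (pB S T B) = ph k' j' (pB S' T' B') := congrArg Subtype.val h
      obtain ⟨⟨_, h2⟩, ⟨h3, h4⟩, _⟩ := (hmem _ _).1 hp
      obtain ⟨⟨_, h2'⟩, ⟨h3', h4'⟩, _⟩ := (hmem _ _).1 hp'
      dsimp only at h2 h3 h4 h2' h3' h4'
      rw [disjoint_union_right] at h3 h3'
      obtain ⟨rfl, rfl, rfl, rfl, rfl⟩ := ff_inj h3.1 h3.2 h2 h3'.1 h3'.2 h2' h1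
      obtain rfl : g = g' := by rw [← h4, ← h4']
      rfl
    · rintro ⟨x, h1, h2, h3⟩
      obtain ⟨k, j, S, T, B, h4, h5, h6, rfl⟩ := exists_ff h1
      refine ⟨⟨⟨(k, j, ∑ q ∈ S, clq m q, T, B), S⟩, (hmem _ _).2 ⟨⟨?_, h6⟩,
        ⟨disjoint_union_right.2 ⟨h4, h5⟩, rfl⟩, h3⟩⟩, rfl⟩
      rw [← Nz_el]
      exact h2
  rw [e, Nat.card_eq_fintype_card, Fintype.card_coe, hA, card_sigma]

/-- The class of the primary element. -/
theorem gcl_pB (m : ℕ) (S T B : Finset Pg) : gcl m (pB S T B) (pB_in4 S T B) =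
    ∑ q ∈ S, clq m q + 3 • ∑ q ∈ T, clq m q + 2 • ∑ q ∈ B, clq m q := by
  have hp : ∀ (x : 𝓞 K4) (hx : In4 x) (n : ℕ), gcl m (x ^ n) (in4_pow hx n) = n • gcl m x hx := by
    intro x hx n
    induction n with
    | zero =>
      have e : gcl m (x ^ 0) (in4_pow hx 0) = gcl m 1 in4_one := by
        rw [gcl_eq_iff, pow_zero, sub_self]
        exact dvd_zero _
      rw [e, Den4.gcl_one, zero_smul]
    | succ n ih =>
      have e : gcl m (x ^ (n + 1)) (in4_pow hx (n + 1)) =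
          gcl m (x ^ n * x) ((in4_pow hx n).mul hx) := by
        rw [gcl_eq_iff, pow_succ x n, sub_self]
        exact dvd_zero _
      rw [e, Den4.gcl_mul m (in4_pow hx n) hx, ih, succ_nsmul]
  have e : gcl m (pB S T B) (pB_in4 S T B) = gcl m (DDq S * DDq T ^ 3 * DDq B ^ 2)
      (((DDq_in4 S).mul (in4_pow (DDq_in4 T) 3)).mul (in4_pow (DDq_in4 B) 2)) := rfl
  rw [e, Den4.gcl_mul m ((DDq_in4 S).mul (in4_pow (DDq_in4 T) 3)) (in4_pow (DDq_in4 B) 2),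
    Den4.gcl_mul m (DDq_in4 S) (in4_pow (DDq_in4 T) 3), hp _ (DDq_in4 T), hp _ (DDq_in4 B),
    gcl_DDq, gcl_DDq, gcl_DDq]

end DenB

open DenB

open Classical in
/-- The proportion of the `Q` among the `S` disjoint from `B` in a class modulo `lam ^ (m + 5)` is at
least `κ₀`. -/
def DSc (m : ℕ) (B : Finset Pg) (g : G4n m) (κ₀ : ℝ) (Q : Finset Pg → Prop) : Prop :=
  ∀ ε : ℝ, 0 < ε → ∃ X₀ : ℕ, ∀ X : ℕ, X₀ ≤ X →
    κ₀ * (((Sx Pg X).filter fun S => Disjoint S B ∧ ∑ q ∈ S, clq m q = g).card : ℝ) - ε * X ≤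
      (((Sx Pg X).filter fun S => Disjoint S B ∧ ∑ q ∈ S, clq m q = g ∧ Q S).card : ℝ)

open Classical in
/-- **The density among the fourth-power-free elements with a condition `R`** which only depends on
the power of `i`, the power of `lam` and the class modulo `lam ^ (m + 5)` of the primary factor. -/
theorem densBc (m : ℕ) (R : 𝓞 K4 → Prop)
    (hR : ∀ (k : ZMod 4) (j : Fin 4) (y y' : 𝓞 K4), In4 y → In4 y' → lam ^ (m + 5) ∣ y - y' →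
      (R (DenB.ph k j y) ↔ R (DenB.ph k j y')))
    (hne : ∃ (k : ZMod 4) (j : Fin 4) (y : 𝓞 K4), In4 y ∧ R (DenB.ph k j y))
    (κ κ' : ℝ) (hκ : κ' < κ)
    (Good : ZMod 4 → Fin 4 → Finset Pg → Finset Pg → Finset Pg → Prop)
    (h : ∀ (k : ZMod 4) (j : Fin 4) (T B : Finset Pg), Disjoint T B → ∀ g : G4n m,
      (∃ (y : 𝓞 K4) (hy : In4 y), gcl m y hy =
        g + 3 • ∑ q ∈ T, clq m q + 2 • ∑ q ∈ B, clq m q ∧ R (DenB.ph k j y)) →
      DSc m (T ∪ B) g κ fun S => Good k j S T B)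
    (Pr : 𝓞 K4 → Prop)
    (hPr : ∀ (k : ZMod 4) (j : Fin 4) (S T B : Finset Pg), Disjoint S T → Disjoint S B →
      Disjoint T B → R (DenB.ph k j (pB S T B)) → Good k j S T B → Pr (DenB.ph k j (pB S T B))) :
    ∀ᶠ X : ℝ in Filter.atTop,
      κ' ≤ (Nat.card {x : 𝓞 K4 // FFd x ∧ R x ∧ |Algebra.norm ℤ x| ≤ X ∧ Pr x} : ℝ) /
        (Nat.card {x : 𝓞 K4 // FFd x ∧ R x ∧ |Algebra.norm ℤ x| ≤ X} : ℝ) := by
  rcases le_or_gt κ 0 with hκ0 | hκ0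
  · exact Filter.Eventually.of_forall fun X => (hκ.le.trans hκ0).trans (by positivity)
  -- the families
  obtain ⟨J, hJ⟩ : ∃ J : Ix m → Prop, ∀ i, J i ↔ Disjoint i.2.2.2.1 i.2.2.2.2 ∧
      ∃ (y : 𝓞 K4) (hy : In4 y), gcl m y hy = i.2.2.1 + 3 • ∑ q ∈ i.2.2.2.1, clq m q +
        2 • ∑ q ∈ i.2.2.2.2, clq m q ∧ R (DenB.ph i.1 i.2.1 y) := ⟨_, fun _ => Iff.rfl⟩
  have hRi : ∀ (i : Ix m) (S : Finset Pg), Disjoint i.2.2.2.1 i.2.2.2.2 → SI i S →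
      (R (el i S) ↔ J i) := by
    intro i S hd hS
    rw [hJ]
    have e := gcl_pB m S i.2.2.2.1 i.2.2.2.2
    rw [hS.2] at e
    constructor
    · intro h1
      exact ⟨hd, _, pB_in4 S i.2.2.2.1 i.2.2.2.2, e, h1⟩
    · rintro ⟨-, y, hy, h1, h2⟩
      rw [← e, gcl_eq_iff] at h1
      exact (hR _ _ _ _ hy (pB_in4 _ _ _) h1).1 h2
  -- the counting functions
  obtain ⟨b, hb⟩ : ∃ b : Ix m → ℕ → ℝ, ∀ i Y, b i Y =
    (((Sx Pg Y).filter fun S => SI i S).card : ℝ) := ⟨_, fun _ _ => rfl⟩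
  obtain ⟨g, hg⟩ : ∃ g : Ix m → ℕ → ℝ, ∀ i Y, g i Y =
    (((Sx Pg Y).filter fun S => SI i S ∧ Good i.1 i.2.1 S i.2.2.2.1 i.2.2.2.2).card : ℝ) :=
    ⟨_, fun _ _ => rfl⟩
  have hcount : ∀ (n : ℕ) (P : 𝓞 K4 → Prop),
      Nat.card {x : 𝓞 K4 // FFd x ∧ R x ∧ Nz x ≤ n ∧ P x} =
        ∑ i ∈ (IX m n).filter J, ((Sx Pg (n / wt i)).filter fun S =>
          SI i S ∧ P (el i S)).card := by
    intro n P
    obtain ⟨P', hP'⟩ : ∃ P' : 𝓞 K4 → Prop, ∀ x, P' x ↔ R x ∧ P x := ⟨_, fun _ => Iff.rfl⟩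
    have e : Nat.card {x : 𝓞 K4 // FFd x ∧ R x ∧ Nz x ≤ n ∧ P x} =
        Nat.card {x : 𝓞 K4 // FFd x ∧ Nz x ≤ n ∧ P' x} :=
      Nat.card_congr (Equiv.subtypeEquivRight fun x => by rw [hP']; tauto)
    rw [e, card_all m n P', sum_filter]
    refine sum_congr rfl fun i hi => ?_
    have hd := (mem_IX.1 hi).2
    split_ifs with hiJ
    · congr 1
      ext S
      rw [mem_filter, mem_filter]
      constructor
      · rintro ⟨z, a, c⟩
        exact ⟨z, a, ((hP' _).1 c).2⟩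
      · rintro ⟨z, a, c⟩
        exact ⟨z, a, (hP' _).2 ⟨(hRi i S hd a).2 hiJ, c⟩⟩
    · refine card_eq_zero.2 (eq_empty_of_forall_notMem fun S hS => ?_)
      obtain ⟨-, a, c⟩ := mem_filter.1 hS
      exact hiJ ((hRi i S hd a).1 ((hP' _).1 c).1)
  have hcount' : ∀ n : ℕ, (Nat.card {x : 𝓞 K4 // FFd x ∧ R x ∧ Nz x ≤ n} : ℝ) =
        ∑ i ∈ (IX m n).filter J, b i (n / wt i) := by
    intro n
    have := hcount n (fun _ => True)
    simp only [and_true] at this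
    rw [this]
    push_cast
    exact sum_congr rfl fun i _ => (hb i _).symm
  have hgood : ∀ n : ℕ, ∑ i ∈ (IX m n).filter J, g i (n / wt i) ≤
      (Nat.card {x : 𝓞 K4 // FFd x ∧ R x ∧ Nz x ≤ n ∧ Pr x} : ℝ) := by
    intro n
    rw [hcount n Pr]
    push_cast
    refine sum_le_sum fun i hi => ?_
    rw [hg]
    refine Nat.cast_le.2 (card_le_card ?_)
    intro S hS
    obtain ⟨h1, h2, h3⟩ := mem_filter.1 hS
    obtain ⟨hi1, hi2⟩ := mem_filter.1 hi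
    have hd := (mem_IX.1 hi1).2
    have h4 := disjoint_union_right.1 h2.1
    exact mem_filter.2 ⟨h1, h2, hPr _ _ _ _ _ h4.1 h4.2 hd ((hRi i S hd h2).2 hi2) h3⟩
  -- a family with positive density
  obtain ⟨i₀, hi₀, hd1, hd2⟩ : ∃ i₀ : Ix m, J i₀ ∧ i₀.2.2.2.1 = ∅ ∧ i₀.2.2.2.2 = ∅ := by
    obtain ⟨k, j, y, hy, h1⟩ := hne
    refine ⟨(k, j, gcl m y hy, ∅, ∅), (hJ _).2 ⟨disjoint_empty_left _, y, hy, ?_, h1⟩, rfl, rfl⟩
    simp
  obtain ⟨c, hc, X₁, hX₁⟩ := Den4.class_card_ge m i₀.2.2.1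
  have hw₀ : wt i₀ ≤ 8 := by
    unfold wt
    rw [hd1, hd2, nm_empty, one_pow, one_pow, mul_one, mul_one]
    have h1 : i₀.2.1.val ≤ 3 := by have := i₀.2.1.isLt; omega
    calc 2 ^ i₀.2.1.val ≤ 2 ^ 3 := Nat.pow_le_pow_right (by norm_num) h1
      _ = 8 := by norm_num
  have hden : ∀ n : ℕ, 8 * X₁ + 16 ≤ n → c * (n / 16 : ℝ) ≤
      ∑ i ∈ (IX m n).filter J, b i (n / wt i) := by
    intro n hn
    have h1 : i₀ ∈ (IX m n).filter J := by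
      rw [mem_filter, mem_IX, hd1, hd2, nm_empty]
      exact ⟨⟨⟨by omega, by omega⟩, disjoint_empty_left _⟩, hi₀⟩
    have h2 := single_le_sum (f := fun i => b i (n / wt i))
      (fun i _ => by rw [hb]; exact Nat.cast_nonneg _) h1
    have h3 : n / 8 ≤ n / wt i₀ := Nat.div_le_div_left hw₀ (one_le_wt i₀)
    have h4 : X₁ ≤ n / wt i₀ := by omega
    have h5 := hX₁ _ h4
    have h6 : (n / 16 : ℝ) ≤ ((n / wt i₀ : ℕ) : ℝ) := by
      have h7 : n ≤ 16 * (n / 8) := by omega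
      have h8 : (n : ℝ) ≤ 16 * ((n / 8 : ℕ) : ℝ) := by exact_mod_cast h7
      have h9 : ((n / 8 : ℕ) : ℝ) ≤ ((n / wt i₀ : ℕ) : ℝ) := by exact_mod_cast h3
      linarith
    have h7 : b i₀ (n / wt i₀) = ((Den4.SG m i₀.2.2.1 (n / wt i₀)).card : ℝ) := by
      rw [hb]
      congr 2
      ext S
      rw [mem_filter, Den4.mem_SG, mem_Sx, SI, hd1, hd2, empty_union,
        and_iff_right (disjoint_empty_right _)]
    rw [← h7] at h5
    have h8 := mul_le_mul_of_nonneg_left h6 hc.le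
    exact h8.trans (h5.trans h2)
  -- the bound
  have hd : 0 < κ - κ' := by linarith
  have hε : 0 < (κ - κ') * c / 16 := by positivity
  obtain ⟨X₂, hX₂⟩ := fix_gen (w := wt (m := m)) one_le_wt summable_wt (C := 25) (by norm_num)
    hκ0.le J b g
    (fun i Y => by
      rw [hb]
      exact (Nat.cast_le.2 (card_filter_le _ _)).trans (PrmG.card_le prm4 Y))
    (fun i Y => by rw [hg]; exact Nat.cast_nonneg _)
    (fun i hi ε hε => by
      obtain ⟨h1, h2⟩ := (hJ i).1 hi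
      obtain ⟨X₀, hX₀⟩ := h i.1 i.2.1 i.2.2.2.1 i.2.2.2.2 h1 i.2.2.1 h2 ε hε
      refine ⟨X₀, fun Y hY => ?_⟩
      have h3 := hX₀ Y hY
      rw [hb, hg]
      have e1 : ((Sx Pg Y).filter fun S => SI i S) = (Sx Pg Y).filter fun S =>
        Disjoint S (i.2.2.2.1 ∪ i.2.2.2.2) ∧ ∑ q ∈ S, clq m q = i.2.2.1 := by
        ext S
        rw [mem_filter, mem_filter]
        exact Iff.rfl
      have e2 : ((Sx Pg Y).filter fun S => SI i S ∧ Good i.1 i.2.1 S i.2.2.2.1 i.2.2.2.2) =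
        (Sx Pg Y).filter fun S => Disjoint S (i.2.2.2.1 ∪ i.2.2.2.2) ∧
          ∑ q ∈ S, clq m q = i.2.2.1 ∧ Good i.1 i.2.1 S i.2.2.2.1 i.2.2.2.2 := by
        ext S
        rw [mem_filter, mem_filter]
        unfold SI
        rw [and_assoc]
      rw [e1, e2]
      exact h3) _ hε
  filter_upwards [Filter.eventually_ge_atTop ((8 * X₁ + X₂ + 16 : ℕ) : ℝ)] with X hX
  have hX0 : 0 ≤ X := (Nat.cast_nonneg _).trans hX
  obtain ⟨n, hn⟩ : ∃ n : ℕ, n = ⌊X⌋₊ := ⟨_, rfl⟩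
  have hn1 : 8 * X₁ + X₂ + 16 ≤ n := hn ▸ Nat.le_floor hX
  have hXn : ∀ x : 𝓞 K4, ((|Algebra.norm ℤ x| : ℤ) : ℝ) ≤ X ↔ Nz x ≤ n := by
    intro x
    rw [Den4.abs_norm_le, hn, Nat.le_floor_iff hX0]
  simp only [hXn]
  have h1 := hX₂ n (by omega) ((IX m n).filter J) (fun i hi => (mem_filter.1 hi).2)
  have h2 := hden n (by omega)
  have h3 := hgood n
  rw [← hcount'] at h1 h2
  have hn0 : (0 : ℝ) < n := by
    have : 0 < n := by omega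
    exact_mod_cast this
  have hpos : (0 : ℝ) < (Nat.card {x : 𝓞 K4 // FFd x ∧ R x ∧ Nz x ≤ n} : ℝ) :=
    lt_of_lt_of_le (by positivity) h2
  rw [le_div_iff₀ hpos]
  have h4 : (κ - κ') * (c * (n / 16 : ℝ)) ≤
      (κ - κ') * (Nat.card {x : 𝓞 K4 // FFd x ∧ R x ∧ Nz x ≤ n} : ℝ) :=
    mul_le_mul_of_nonneg_left h2 hd.le
  have h5 : (κ - κ') * c / 16 * n = (κ - κ') * (c * (n / 16 : ℝ)) := by ring
  linarith

end

end Pool.Agent.Lib.MP_1a91b9_ntQ
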