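import Pool.Agent.Lib.MP_1a91b9_ntQ.B.CritB
import Pool.Agent.Lib.MP_1a91b9_ntQ.B.ClsB
import Pool.Agent.Lib.MP_1a91b9_ntQ.Q.Main4

/-!
# MP_1a91b9_nt (quartic twists), part B: the final theorem for all the fourth-power-free `D`, from the
L-values, the points, the densities of the good sets and the transfer of the densities
-/

set_option autoImplicit false

namespace Pool.Agent.Lib.MP_1a91b9_ntQ

open NumberField IsDedekindDomain Finset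
open Pool.Agent.Lib.MP_1a91b9_ntH (PS nm Sx mem_Sx)

noncomputable section

/-- The densities of the good sets of primes (part D). -/
def DnB : Prop := ∀ (k : ZMod 4) (j : Fin 4) (T B : Finset Pg), Disjoint T B →
  ∀ (g : GB 3 (T ∪ B)) (κ₀ : ℝ), κ₀ < Da.cinf2 →
    DSB 3 (T ∪ B) g κ₀ fun S => GdB k j S T B

/-- The transfer of the densities (part R): a class `u` modulo `M ∣ lam ^ (m + 5)`, not both divisible
by `lam ^ 4`. -/
def TrB : Prop := ∀ (m : ℕ) (M u : 𝓞 K4), M ∣ lam ^ (m + 5) → ¬ (lam ^ 4 ∣ M ∧ lam ^ 4 ∣ u) →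
  ∀ κ κ' : ℝ, 0 ≤ κ → κ' < κ → ∀ Good : ZMod 4 → Fin 4 → Finset Pg → Finset Pg → Finset Pg → Prop,
  (∀ (k : ZMod 4) (j : Fin 4) (T B : Finset Pg), Disjoint T B → ∀ g : GB m (T ∪ B),
    DSB m (T ∪ B) g κ fun S => Good k j S T B) →
  ∀ Pr : 𝓞 K4 → Prop,
  (∀ (k : ZMod 4) (j : Fin 4) (S T B : Finset Pg), Dj S T B → M ∣ dB k j S T B - u →
    Good k j S T B → Pr (dB k j S T B)) →
  ∀ᶠ X : ℝ in Filter.atTop,
    κ' ≤ (Nat.card {x : 𝓞 K4 // FFr x ∧ M ∣ x - u ∧ |Algebra.norm ℤ x| ≤ X ∧ Pr x} : ℝ) /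
      (Nat.card {x : 𝓞 K4 // FFr x ∧ M ∣ x - u ∧ |Algebra.norm ℤ x| ≤ X} : ℝ)

/-- Leaving out a finite set does not change the density. -/
theorem DSB.exc {m : ℕ} {B : Finset Pg} {g : GB m B} {κ₀ : ℝ} {Q : Finset Pg → Prop}
    (h : DSB m B g κ₀ Q) {F : Set (Finset Pg)} (hF : F.Finite) :
    DSB m B g κ₀ fun S => Q S ∧ S ∉ F := by
  classical
  obtain ⟨Q', hQ'⟩ : ∃ Q' : Finset Pg → Prop, Q' = fun S => Q S ∧ S ∉ F := ⟨_, rfl⟩
  rw [← hQ']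
  intro ε hε
  obtain ⟨X0, h0⟩ := h (ε / 2) (by positivity)
  obtain ⟨X1, hX1⟩ := exists_nat_ge ((hF.toFinset.card : ℝ) / (ε / 2))
  refine ⟨max X0 X1, fun X hX => ?_⟩
  have h1 := h0 X ((le_max_left _ _).trans hX)
  have h2 : (hF.toFinset.card : ℝ) ≤ ε / 2 * X := by
    have h3 : (X1 : ℝ) ≤ X := Nat.cast_le.2 ((le_max_right _ _).trans hX)
    have h4 := hX1.trans h3
    rw [div_le_iff₀ (by positivity)] at h4
    linarith
  have h3 : ((Sx Pg X).filter fun S => Disjoint S B ∧ ∑ q ∈ S, clB m B q = g ∧ Q S).card ≤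
      ((Sx Pg X).filter fun S => Disjoint S B ∧ ∑ q ∈ S, clB m B q = g ∧ Q' S).card +
        hF.toFinset.card := by
    refine (card_le_card ?_).trans (card_union_le _ _)
    intro S hS
    rw [mem_filter] at hS
    rw [mem_union, mem_filter, Set.Finite.mem_toFinset]
    by_cases hSF : S ∈ F
    · exact Or.inr hSF
    · exact Or.inl ⟨hS.1, hS.2.1, hS.2.2.1, by rw [hQ']; exact ⟨hS.2.2.2, hSF⟩⟩
  have h4 : (((Sx Pg X).filter fun S => Disjoint S B ∧ ∑ q ∈ S, clB m B q = g ∧ Q S).card : ℝ) ≤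
      (((Sx Pg X).filter fun S => Disjoint S B ∧ ∑ q ∈ S, clB m B q = g ∧ Q' S).card : ℝ) +
        (hF.toFinset.card : ℝ) := by
    exact_mod_cast h3
  linarith

theorem iO_ne_zero' : (iO : 𝓞 K4) ≠ 0 := by
  intro h
  have h1 := iO_sq
  rw [h] at h1
  norm_num at h1

theorem dB_inj (k : ZMod 4) (j : Fin 4) {S S' : Finset Pg} (T B : Finset Pg)
    (h : dB k j S T B = dB k j S' T B) : S = S' := by
  unfold dB cB at h
  have h1 : iO ^ k.val * (lam : 𝓞 K4) ^ j.val ≠ 0 :=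
    mul_ne_zero (pow_ne_zero _ iO_ne_zero') (pow_ne_zero _ lam_ne_zero)
  have h2 := mul_left_cancel₀ h1 h
  have h3 := mul_right_cancel₀ (pow_ne_zero 2 (DDq_in4 B).ne_zero) h2
  have h4 := mul_right_cancel₀ (pow_ne_zero 3 (DDq_in4 T).ne_zero) h3
  exact DDq_inj h4

theorem dB_fin (k : ZMod 4) (j : Fin 4) (T B : Finset Pg) (c : 𝓞 K4) :
    {S : Finset Pg | dB k j S T B = c}.Finite := by
  refine Set.Subsingleton.finite ?_
  intro S hS S' hS'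
  have h1 : dB k j S T B = c := hS
  have h2 : dB k j S' T B = c := hS'
  exact dB_inj k j T B (h1.trans h2.symm)

/-- The exceptions. -/
def ExB (k : ZMod 4) (j : Fin 4) (T B : Finset Pg) : Set (Finset Pg) :=
  {S | S = ∅} ∪ {S | Exc (dB k j S T B)}

theorem exB_fin (k : ZMod 4) (j : Fin 4) (T B : Finset Pg) : (ExB k j T B).Finite := by
  refine Set.Finite.union (Set.finite_singleton _) ?_
  exact (dB_fin k j T B (1 + 2 * iO)).union (dB_fin k j T B (1 - 2 * iO))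

theorem four_lam4 : (4 : 𝓞 K4) = -lam ^ 4 := by
  rw [lam_four]
  ring

/-- **All the fourth-power-free `D`**, from the parts L, C, D, R. -/
theorem main_B (HL : LsB) (HP : PtB) (HD : DnB) (HT : TrB) {m u : 𝓞 K4} (hm : m ∣ 16)
    (hu : ¬ ((4 : 𝓞 K4) ∣ m ∧ (4 : 𝓞 K4) ∣ u)) (ε : ℝ) (hε : 0 < ε) :
    ∀ᶠ X : ℝ in Filter.atTop,
      (∏' i : ℕ, (1 + 1 / (2 : ℝ) ^ (i + 1))⁻¹) - ε ≤
      (Nat.card {x : 𝓞 K4 // FFr x ∧ m ∣ x - u ∧ |Algebra.norm ℤ x| ≤ X ∧ PrQ x} : ℝ) /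
        (Nat.card {x : 𝓞 K4 // FFr x ∧ m ∣ x - u ∧ |Algebra.norm ℤ x| ≤ X} : ℝ) := by
  rw [cinf2_form]
  have hM8 : m ∣ lam ^ (3 + 5) := by
    have e : lam ^ (3 + 5) = (16 : 𝓞 K4) := sixteen_lam.symm
    rw [e]
    exact hm
  have hu' : ¬ ((lam : 𝓞 K4) ^ 4 ∣ m ∧ (lam : 𝓞 K4) ^ 4 ∣ u) := by
    rw [four_lam4, neg_dvd, neg_dvd] at hu
    exact hu
  have hc := Da.cinf2
  by_cases h0 : Da.cinf2 - ε < 0
  · refine Filter.Eventually.of_forall fun X => h0.le.trans (by positivity)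
  have h0' : 0 ≤ Da.cinf2 - ε / 2 := by linarith
  exact HT 3 m u hM8 hu' (Da.cinf2 - ε / 2) (Da.cinf2 - ε) h0' (by linarith)
    (fun k j S T B => GdB k j S T B ∧ S ∉ ExB k j T B)
    (fun k j T B hTB g => (HD k j T B hTB g _ (by linarith)).exc (exB_fin k j T B)) PrQ
    (fun k j S T B hd _ hG => by
      obtain ⟨h1, h2⟩ := hG
      have h3 : S.Nonempty := nonempty_iff_ne_empty.2 fun h => h2 (Or.inl h)
      have h4 : ¬ Exc (dB k j S T B) := fun h => h2 (Or.inr h)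
      exact PrQ.of (HL k j S T B hd h3 h1) (HP k j S T B hd h3 h1 h4))

/-- **The final statement.** -/
theorem final_B (HL : LsB) (HP : PtB) (HD : DnB) (HT : TrB)
    (m u : 𝓞 (CyclotomicField 4 ℚ)) (hm : m ∣ 16) (hu : ¬ (4 ∣ m ∧ 4 ∣ u)) (ε : ℝ) (hε : 0 < ε) :
    ∀ᶠ X : ℝ in Filter.atTop,
    (∏' j : ℕ, (1 + 1 / (2 : ℝ) ^ (j + 1))⁻¹) - ε ≤
      (Nat.card {D : 𝓞 (CyclotomicField 4 ℚ) // (∀ z : 𝓞 (CyclotomicField 4 ℚ), z ^ 4 ∣ D → IsUnit z) ∧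
        m ∣ D - u ∧ |Algebra.norm ℤ D| ≤ X ∧
        (∀ W : WeierstrassCurve (CyclotomicField 4 ℚ),
          W = ⟨0, 0, 0, -(D : CyclotomicField 4 ℚ), 0⟩ →
          (∃ g : ℂ → ℂ, Differentiable ℂ g ∧ (∀ s : ℂ, 3 / 2 < s.re → g s = W.LSeries s) ∧
            g 1 ≠ 0) ∧ Finite W.toAffine.Point) ∧
        ∀ x y : CyclotomicField 4 ℚ, y ^ 2 = x ^ 3 - (D : CyclotomicField 4 ℚ) * x →
          x = 0 ∧ y = 0} : ℝ) /
      (Nat.card {D : 𝓞 (CyclotomicField 4 ℚ) // (∀ z : 𝓞 (CyclotomicField 4 ℚ), z ^ 4 ∣ D → IsUnit z) ∧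
        m ∣ D - u ∧ |Algebra.norm ℤ D| ≤ X} : ℝ) :=
  main_B HL HP HD HT (m := m) (u := u) hm hu ε hε

end

end Pool.Agent.Lib.MP_1a91b9_ntQ
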