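import Pool.Agent.Lib.MP_1a91b9_ntQ.B.DenB
import Pool.Agent.Lib.MP_1a91b9_ntQ.B.MainB

/-!
# MP_1a91b9_nt (quartic twists, all exponents), part R: the transfer of the density in the form `TrB`
-/

set_option autoImplicit false

namespace Pool.Agent.Lib.MP_1a91b9_ntQ

open NumberField Finset

noncomputable section

/-- **The transfer of the densities.** -/
theorem trB : TrB := fun m M u hM hu κ κ' _ hκ Good h Pr hPr =>
  densB_cls m (M := M) (u := u) hM hu κ κ' hκ Good h Pr
    fun k j S T B h1 h2 h3 hc hG => hPr k j S T B ⟨h1, h2, h3⟩ hc hG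

end

end Pool.Agent.Lib.MP_1a91b9_ntQ
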