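import Pool.Agent.Lib.MP_1a91b9_ntQ.B.SyX

/-!
# Quartic twists, all fourth-power-free `D`, file XsA: residue polynomials with an integral top coefficient

`RBw B η C f P`: the coefficients `mo f E / η ^ |E|` have the classes `cf P E` for the proper subsets `E` of `C`, and the coefficient at
`C` is integral.
-/

set_option autoImplicit false
set_option linter.unusedSectionVars false

namespace Pool.Agent.Lib.MP_1a91b9_ntQ

open Finset MvPolynomial
open Pool.Agent.Lib.MP_1a91b9_ntK (NM NM_congr NM_empty NM_adj NM_update NM_zero forest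
  CZ CZ_eq forest_zero)

noncomputable section

variable {ι : Type*} [DecidableEq ι]

theorem Rt.mem {B : ValuationSubring ℂ} {z : ℂ} {r : ZMod 2} (h : Rt B z r) : z ∈ B := by
  rw [← ValuationSubring.valuation_le_one_iff]
  exact h.le

theorem Rt.mul_zero_left {B : ValuationSubring ℂ} {z w : ℂ} (hz : Rt B z 0) (hw : w ∈ B) :
    Rt B (z * w) 0 := by
  unfold Rt at hz ⊢
  rw [ZMod.val_zero, Nat.cast_zero, sub_zero] at hz ⊢
  rw [map_mul]
  exact mul_lt_one_of_lt_of_le hz ((B.valuation_le_one_iff w).2 hw)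

theorem Rt.mul_zero_right {B : ValuationSubring ℂ} {z w : ℂ} (hw : z ∈ B) (hz : Rt B w 0) :
    Rt B (z * w) 0 := by
  rw [mul_comm]
  exact hz.mul_zero_left hw

/-- functions which vanish outside of the sets disjoint from `Z` -/
theorem mo_disj (f : Finset ι → ℂ) (Z E : Finset ι) :
    mo (fun A => if Disjoint A Z then f A else 0) E = (-1) ^ (E ∩ Z).card * mo f (E \ Z) := by
  rw [mo, mo, mul_sum]
  have h1 : ∀ A ∈ E.powerset, (-1 : ℂ) ^ (E \ A).card * (if Disjoint A Z then f A else 0) =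
      if Disjoint A Z then (-1) ^ (E \ A).card * f A else 0 := by
    intro A _
    split_ifs
    · rfl
    · rw [mul_zero]
  rw [sum_congr rfl h1, ← sum_filter]
  have h2 : E.powerset.filter (fun A => Disjoint A Z) = (E \ Z).powerset := by
    ext A
    rw [mem_filter, mem_powerset, mem_powerset, subset_sdiff]
  rw [h2]
  refine sum_congr rfl fun A hA => ?_
  rw [mem_powerset, subset_sdiff] at hA
  have h3 : E \ A = (E ∩ Z) ∪ ((E \ Z) \ A) := by
    ext y
    simp only [mem_sdiff, mem_union, mem_inter]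
    have h4 : y ∈ A → y ∉ Z := fun h => disjoint_left.1 hA.2 h
    tauto
  have h4 : Disjoint (E ∩ Z) ((E \ Z) \ A) := by
    rw [disjoint_left]
    intro y hy hy'
    exact (mem_sdiff.1 (mem_sdiff.1 hy').1).2 (mem_inter.1 hy).2
  rw [h3, card_union_of_disjoint h4, pow_add, mul_assoc]

/-- the proper coefficients and the integrality of the top coefficient -/
def RBw (B : ValuationSubring ℂ) (η : ℂ) (C : Finset ι) (f : Finset ι → ℂ)
    (P : MvPolynomial ι (ZMod 2)) : Prop :=
  (∀ E ⊆ C, E ≠ C → Rt B (mo f E / η ^ E.card) (cf P E)) ∧ mo f C / η ^ C.card ∈ B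

theorem RB.toW {B : ValuationSubring ℂ} {η : ℂ} {C : Finset ι} {f : Finset ι → ℂ}
    {P : MvPolynomial ι (ZMod 2)} (h : RB B η C f P) : RBw B η C f P :=
  ⟨fun E hE _ => h E hE, (h C subset_rfl).mem⟩

theorem RBw.int {B : ValuationSubring ℂ} {η : ℂ} {C : Finset ι} {f : Finset ι → ℂ}
    {P : MvPolynomial ι (ZMod 2)} (h : RBw B η C f P) {E : Finset ι} (hE : E ⊆ C) :
    mo f E / η ^ E.card ∈ B := by
  by_cases h1 : E = C
  · rw [h1]
    exact h.2
  · exact (h.1 E hE h1).mem

private theorem XsA_eq {η : ℂ} (hη0 : η ≠ 0) (f g : Finset ι → ℂ) {G : Finset ι}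
    {x : Finset ι × Finset ι} (hx : x.1 ∪ x.2 = G) :
    mo f x.1 * mo g x.2 / η ^ G.card =
      (mo f x.1 / η ^ x.1.card) * (mo g x.2 / η ^ x.2.card) * η ^ (x.1 ∩ x.2).card := by
  have hc : x.1.card + x.2.card = G.card + (x.1 ∩ x.2).card := by
    rw [← hx, card_union_add_card_inter]
  rw [div_mul_div_comm, ← pow_add, hc, pow_add, div_mul_eq_mul_div,
    mul_div_mul_right _ _ (pow_ne_zero _ hη0)]

/-- the product, proper subsets -/
theorem RBw.mul_proper {B : ValuationSubring ℂ} (hB : (2 : ℂ)⁻¹ ∉ B) {η : ℂ} (hη : Rt B η 0)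
    (hη0 : η ≠ 0) {C : Finset ι} {f g : Finset ι → ℂ} {P Q : MvPolynomial ι (ZMod 2)}
    (h : RBw B η C f P) (h1 : RBw B η C g Q) {G : Finset ι} (hG : G ⊆ C) (hGC : G ≠ C) :
    Rt B (mo (fun A => f A * g A) G / η ^ G.card) (cf (P * Q) G) := by
  have h2 : RB B η G f P := fun E hE => h.1 E (hE.trans hG) fun h3 =>
    hGC (hG.antisymm (h3 ▸ hE))
  have h3 : RB B η G g Q := fun E hE => h1.1 E (hE.trans hG) fun h3 =>
    hGC (hG.antisymm (h3 ▸ hE))
  exact RB.mul hB hη hη0 h2 h3 G subset_rfl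

/-- **The product.** -/
theorem RBw.mul {B : ValuationSubring ℂ} (hB : (2 : ℂ)⁻¹ ∉ B) {η : ℂ} (hη : Rt B η 0)
    (hη0 : η ≠ 0) {C : Finset ι} {f g : Finset ι → ℂ} {P Q : MvPolynomial ι (ZMod 2)}
    (h : RBw B η C f P) (h1 : RBw B η C g Q) : RBw B η C (fun A => f A * g A) (P * Q) := by
  refine ⟨fun E hE hEC => h.mul_proper hB hη hη0 h1 hE hEC, ?_⟩
  rw [mo_mul, sum_div]
  refine sum_mem fun x hx => ?_
  rw [mem_prU] at hx
  rw [XsA_eq hη0 f g hx]
  refine B.mul_mem _ _ (B.mul_mem _ _ (h.int ?_) (h1.int ?_)) (pow_mem hη.mem _)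
  · rw [← hx]
    exact subset_union_left
  · rw [← hx]
    exact subset_union_right

/-- **The product with a function whose constant coefficient is in the maximal ideal.** -/
theorem RBw.mul_low {B : ValuationSubring ℂ} (hB : (2 : ℂ)⁻¹ ∉ B) {η : ℂ} (hη : Rt B η 0)
    (hη0 : η ≠ 0) {C : Finset ι} {f g : Finset ι → ℂ} {P Q : MvPolynomial ι (ZMod 2)}
    (h : RBw B η C f P) (h1 : RB B η C g Q) (hQ : cf Q ∅ = 0) :
    RB B η C (fun A => f A * g A) (P * Q) := by
  intro G hG
  by_cases hGC : G = C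
  · subst hGC
    rw [mo_mul, cf_mul, ← sum_prU G fun E F => cf P E * cf Q F, sum_div]
    refine Rt.sum hB _ fun x hx => ?_
    rw [mem_prU] at hx
    have hx1 : x.1 ⊆ G := hx ▸ subset_union_left
    have hx2 : x.2 ⊆ G := hx ▸ subset_union_right
    rw [XsA_eq hη0 f g hx]
    by_cases hd : Disjoint x.1 x.2
    · rw [if_pos hd, disjoint_iff_inter_eq_empty.1 hd, card_empty, pow_zero, mul_one]
      by_cases h2 : x.1 = G
      · have h3 : x.2 = ∅ := by
          rw [h2] at hd
          exact disjoint_self_iff_empty _ |>.1 (hd.mono_left hx2)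
        have h4 := h1 ∅ (empty_subset G)
        rw [hQ] at h4
        rw [h3, hQ, mul_zero]
        exact Rt.mul_zero_right (h.int hx1) h4
      · exact (h.1 x.1 hx1 h2).mul hB (h1 x.2 hx2)
    · rw [if_neg hd]
      refine Rt.mul_zero_right (B.mul_mem _ _ (h.int hx1) (h1 x.2 hx2).mem) ?_
      have h3 := hη.pow hB (x.1 ∩ x.2).card
      rwa [zero_pow] at h3
      rw [card_ne_zero, nonempty_iff_ne_empty]
      exact fun h4 => hd (disjoint_iff_inter_eq_empty.2 h4)
  · exact h.mul_proper hB hη hη0 h1.toW hG hGC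

theorem RB.add {B : ValuationSubring ℂ} (hB : (2 : ℂ)⁻¹ ∉ B) {η : ℂ} {C : Finset ι}
    {f g : Finset ι → ℂ} {P Q : MvPolynomial ι (ZMod 2)} (h : RB B η C f P) (h1 : RB B η C g Q) :
    RB B η C (fun A => f A + g A) (P + Q) := by
  intro E hE
  have e1 : mo (fun A => f A + g A) E = mo f E + mo g E := by
    rw [mo, mo, mo, ← sum_add_distrib]
    exact sum_congr rfl fun A _ => by ring
  rw [e1, cf_add, add_div]
  exact (h E hE).add hB (h1 E hE)

theorem RB.zero {B : ValuationSubring ℂ} {η : ℂ} {C : Finset ι} :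
    RB B η C (fun _ => 0) (0 : MvPolynomial ι (ZMod 2)) := by
  intro E _
  rw [mo_const, cf_zero, ite_self, zero_div]
  exact Rt.zero

theorem RB.sum {B : ValuationSubring ℂ} (hB : (2 : ℂ)⁻¹ ∉ B) {η : ℂ} {C : Finset ι} {α : Type*}
    (Z : Finset α) {f : α → Finset ι → ℂ} {P : α → MvPolynomial ι (ZMod 2)}
    (h : ∀ z ∈ Z, RB B η C (f z) (P z)) :
    RB B η C (fun A => ∑ z ∈ Z, f z A) (∑ z ∈ Z, P z) := by
  classical
  induction Z using Finset.induction_on with
  | empty =>
    simp only [sum_empty]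
    exact RB.zero
  | insert z Z hz ih =>
    simp only [sum_insert hz]
    exact (h z (mem_insert_self z Z)).add hB (ih fun w hw => h w (mem_insert_of_mem hw))

/-- multiplication with a constant of the maximal ideal -/
theorem RB.const_zero {B : ValuationSubring ℂ} {η c : ℂ} (hc : Rt B c 0) {C : Finset ι}
    {f : Finset ι → ℂ} {P : MvPolynomial ι (ZMod 2)} (h : RBw B η C f P) :
    RB B η C (fun A => c * f A) 0 := by
  intro E hE
  rw [mo_const_mul, cf_zero, mul_div_assoc]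
  exact hc.mul_zero_left (h.int hE)

theorem RB.const {B : ValuationSubring ℂ} (hB : (2 : ℂ)⁻¹ ∉ B) {η c : ℂ} {r : ZMod 2}
    (hc : Rt B c r) {C : Finset ι} {f : Finset ι → ℂ} {P : MvPolynomial ι (ZMod 2)}
    (h : RB B η C f P) : RB B η C (fun A => c * f A) (MvPolynomial.C r * P) := by
  intro E hE
  rw [mo_const_mul, cf_C_mul, mul_div_assoc]
  exact hc.mul hB (h E hE)

/-- **Functions which vanish outside of the sets disjoint from `Z`**, first order. -/
theorem RB.disj {B : ValuationSubring ℂ} (hB : (2 : ℂ)⁻¹ ∉ B) {l : ℂ} (hl : Rt B l 0) (hl0 : l ≠ 0)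
    (hu : Rt B (2 / l ^ 2) 1) {C Z : Finset ι} (hZ : Z ⊆ C) (hZ0 : Z.Nonempty) {f : Finset ι → ℂ}
    {P : MvPolynomial ι (ZMod 2)} (h : RB B (2 / l) (C \ Z) f P) {c : ι → ℂ} {a : ι → ZMod 2}
    (hc : ∀ b ∈ Z, Rt B (c b / l ^ 3) (a b)) :
    RB B (2 / l) C (fun A => if Disjoint A Z then (∏ b ∈ Z, (c b / l)) * f A else 0) 0 ∧
    RB B (2 / l) C (fun A => (if Disjoint A Z then (∏ b ∈ Z, (c b / l)) * f A else 0) / l)
      (if Z.card = 1 then (∑ b ∈ Z, MvPolynomial.C (a b) * X b) * P else 0) := by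
  have h20 : (2 : ℂ) / l ≠ 0 := div_ne_zero two_ne_zero hl0
  have hinv : Rt B ((2 / l ^ 2)⁻¹) 1 := hu.inv_one
  -- the value of the coefficient
  have key : ∀ E : Finset ι, mo (fun A => if Disjoint A Z then (∏ b ∈ Z, (c b / l)) * f A else 0) E /
      (2 / l) ^ E.card = (-1) ^ (E ∩ Z).card * (∏ b ∈ Z, (c b / l ^ 3)) *
        ((2 / l ^ 2)⁻¹) ^ (E ∩ Z).card * (mo f (E \ Z) / (2 / l) ^ (E \ Z).card) *
          l ^ (2 * Z.card - (E ∩ Z).card) := by
    intro E
    have h1 : mo (fun A => if Disjoint A Z then (∏ b ∈ Z, (c b / l)) * f A else 0) E =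
        (-1) ^ (E ∩ Z).card * ((∏ b ∈ Z, (c b / l)) * mo f (E \ Z)) := by
      rw [← mo_const_mul, ← mo_disj]
    have h2 : E.card = (E ∩ Z).card + (E \ Z).card := (card_inter_add_card_sdiff E Z).symm
    have h3 : (E ∩ Z).card ≤ 2 * Z.card := by
      have := card_le_card (inter_subset_right (s₁ := E) (s₂ := Z))
      omega
    have h4 : ∏ b ∈ Z, (c b / l) = (∏ b ∈ Z, (c b / l ^ 3)) * l ^ (2 * Z.card) := by
      rw [pow_mul, ← prod_const, ← prod_mul_distrib]
      refine prod_congr rfl fun b _ => ?_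
      field_simp
    have h5 : l ^ (2 * Z.card) = l ^ (E ∩ Z).card * l ^ (2 * Z.card - (E ∩ Z).card) := by
      rw [← pow_add, Nat.add_sub_cancel' h3]
    have h6 : l ^ (E ∩ Z).card / (2 / l) ^ (E ∩ Z).card = ((2 / l ^ 2)⁻¹) ^ (E ∩ Z).card := by
      rw [← div_pow]
      congr 1
      field_simp
    rw [h1, h2, pow_add, h4, h5, ← h6]
    field_simp
  have h7 : ∀ E ⊆ C, Rt B (mo f (E \ Z) / (2 / l) ^ (E \ Z).card) (cf P (E \ Z)) := fun E hE =>
    h (E \ Z) (sdiff_subset_sdiff hE subset_rfl)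
  have h8 : Rt B (∏ b ∈ Z, (c b / l ^ 3)) (∏ b ∈ Z, a b) := Rt.prod hB Z hc
  have hZc := hZ0.card_pos
  have h9 : ∀ E ⊆ C, Rt B ((-1) ^ (E ∩ Z).card * (∏ b ∈ Z, (c b / l ^ 3)) *
        ((2 / l ^ 2)⁻¹) ^ (E ∩ Z).card * (mo f (E \ Z) / (2 / l) ^ (E \ Z).card))
        ((∏ b ∈ Z, a b) * cf P (E \ Z)) := by
    intro E hE
    have h10 := (((Rt_sgn' hB (E ∩ Z).card).mul hB h8).mul hB
      (hinv.pow hB (E ∩ Z).card)).mul hB (h7 E hE)
    rwa [one_mul, one_pow, mul_one] at h10
  refine ⟨fun E hE => ?_, fun E hE => ?_⟩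
  · rw [key, cf_zero]
    refine Rt.mul_zero_right (h9 E hE).mem ?_
    have h10 := hl.pow hB (2 * Z.card - (E ∩ Z).card)
    rwa [zero_pow] at h10
    have := card_le_card (inter_subset_right (s₁ := E) (s₂ := Z))
    omega
  · have e1 : mo (fun A => (if Disjoint A Z then (∏ b ∈ Z, (c b / l)) * f A else 0) / l) E =
        mo (fun A => if Disjoint A Z then (∏ b ∈ Z, (c b / l)) * f A else 0) E / l := by
      have h10 := mo_const_mul l⁻¹ (fun A => if Disjoint A Z then (∏ b ∈ Z, (c b / l)) * f A else 0) E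
      rw [div_eq_inv_mul, ← h10]
      exact mo_congr fun A _ => by rw [div_eq_inv_mul]
    rw [e1, div_right_comm, key]
    have hle := card_le_card (inter_subset_right (s₁ := E) (s₂ := Z))
    obtain ⟨k, hk⟩ : ∃ k, 2 * Z.card - (E ∩ Z).card = k + 1 :=
      ⟨2 * Z.card - (E ∩ Z).card - 1, by omega⟩
    rw [hk, pow_succ l k, ← mul_assoc, mul_div_cancel_right₀ _ hl0]
    by_cases h1 : k = 0
    · have h2 : Z.card = 1 := by omega
      have h3 : (E ∩ Z).card = 1 := by omega
      obtain ⟨b, rfl⟩ := card_eq_one.1 h2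
      have hbE : b ∈ E := by
        by_contra h4
        rw [inter_singleton_of_notMem h4, card_empty] at h3
        exact zero_ne_one h3
      have h5 := h9 E hE
      have h6 : cf (MvPolynomial.C (a b) * X b * P) E = a b * cf P (E \ {b}) := by
        rw [mul_assoc, cf_C_mul, cf_X_mul, if_pos hbE, ← sdiff_singleton_eq_erase]
      rw [h1, pow_zero, mul_one, if_pos h2, sum_singleton, h6]
      rwa [prod_singleton (f := a)] at h5
    · have h3 : (if Z.card = 1 then (∑ b ∈ Z, MvPolynomial.C (a b) * X b) * P else 0 :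
          MvPolynomial ι (ZMod 2)) = 0 ∨ (Z.card = 1 ∧ (E ∩ Z).card = 0) := by
        by_cases h4 : Z.card = 1
        · refine Or.inr ⟨h4, ?_⟩
          omega
        · exact Or.inl (if_neg h4)
      have h5 : cf (if Z.card = 1 then (∑ b ∈ Z, MvPolynomial.C (a b) * X b) * P else 0) E = 0 := by
        rcases h3 with h3 | ⟨h3, h4⟩
        · rw [h3, cf_zero]
        · obtain ⟨b, rfl⟩ := card_eq_one.1 h3
          rw [if_pos h3, sum_singleton, mul_assoc, cf_C_mul, cf_X_mul, if_neg, mul_zero]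
          intro h5
          rw [inter_singleton_of_mem h5, card_singleton] at h4
          exact one_ne_zero h4
      rw [h5]
      refine Rt.mul_zero_right (h9 E hE).mem ?_
      have h10 := hl.pow hB k
      rwa [zero_pow h1] at h10

end

end Pool.Agent.Lib.MP_1a91b9_ntQ
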