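import Pool.Agent.Lib.MP_1a91b9_ntQ.B.SyD
import Pool.Agent.Lib.MP_1a91b9_ntQ.B.XsA

/-!
# Quartic twists, all fourth-power-free `D`, file DuA: pairs of functions which agree to the first order

`Rt2 B l u v r`: `u` has the class `r.coeff 0`, `(v - u) / l` the class `r.coeff 1`. The coefficient ring is
`(ZMod 2)[X]`, only the coefficients `0` and `1` matter.
-/

set_option autoImplicit false
set_option linter.unusedSectionVars false

namespace Pool.Agent.Lib.MP_1a91b9_ntQ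

open Finset MvPolynomial
open Pool.Agent.Lib.MP_1a91b9_ntK (NM NM_congr NM_empty NM_adj NM_update NM_zero forest
  CZ CZ_eq forest_zero)

noncomputable section

variable {ι : Type*} [DecidableEq ι]

/-! ### Pairs of values -/

/-- two values which agree to the first order -/
def Rt2 (B : ValuationSubring ℂ) (l u v : ℂ) (r : Polynomial (ZMod 2)) : Prop :=
  Rt B u (r.coeff 0) ∧ Rt B ((v - u) / l) (r.coeff 1)

section
variable {B : ValuationSubring ℂ} {l : ℂ}

theorem Rt2.right (hB : (2 : ℂ)⁻¹ ∉ B) (hl : Rt B l 0) (hl0 : l ≠ 0) {u v : ℂ}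
    {r : Polynomial (ZMod 2)} (h : Rt2 B l u v r) : Rt B v (r.coeff 0) := by
  have h1 := h.1.add hB (hl.mul hB h.2)
  rw [zero_mul, add_zero] at h1
  have e1 : u + l * ((v - u) / l) = v := by
    field_simp
    ring
  rwa [e1] at h1

theorem Rt2.add (hB : (2 : ℂ)⁻¹ ∉ B) {u v u' v' : ℂ} {r r' : Polynomial (ZMod 2)}
    (h : Rt2 B l u v r) (h' : Rt2 B l u' v' r') : Rt2 B l (u + u') (v + v') (r + r') := by
  refine ⟨?_, ?_⟩
  · rw [Polynomial.coeff_add]
    exact h.1.add hB h'.1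
  · rw [Polynomial.coeff_add]
    have e1 : (v + v' - (u + u')) / l = (v - u) / l + (v' - u') / l := by ring
    rw [e1]
    exact h.2.add hB h'.2

theorem Rt2.mul (hB : (2 : ℂ)⁻¹ ∉ B) (hl : Rt B l 0) (hl0 : l ≠ 0) {u v u' v' : ℂ}
    {r r' : Polynomial (ZMod 2)} (h : Rt2 B l u v r) (h' : Rt2 B l u' v' r') :
    Rt2 B l (u * u') (v * v') (r * r') := by
  refine ⟨?_, ?_⟩
  · rw [Polynomial.mul_coeff_zero]
    exact h.1.mul hB h'.1
  · rw [Polynomial.mul_coeff_one]
    have e1 : (v * v' - u * u') / l = u * ((v' - u') / l) + (v - u) / l * v' := by ring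
    rw [e1]
    exact (h.1.mul hB h'.2).add hB (h.2.mul hB (h'.right hB hl hl0))

theorem Rt2.cst {u : ℂ} {r : ZMod 2} (h : Rt B u r) : Rt2 B l u u (Polynomial.C r) := by
  refine ⟨?_, ?_⟩
  · rw [Polynomial.coeff_C_zero]
    exact h
  · rw [Polynomial.coeff_C_ne_zero one_ne_zero, sub_self, zero_div]
    exact Rt.zero

theorem Rt2.zero : Rt2 B l 0 0 0 := by
  have h := Rt2.cst (l := l) (Rt.zero (B := B))
  rwa [Polynomial.C_0] at h

theorem Rt2.one : Rt2 B l 1 1 1 := by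
  have h := Rt2.cst (l := l) (Rt.one (B := B))
  rwa [Polynomial.C_1] at h

theorem Rt2.sum (hB : (2 : ℂ)⁻¹ ∉ B) {α : Type*} (S : Finset α) {u v : α → ℂ}
    {r : α → Polynomial (ZMod 2)} (h : ∀ a ∈ S, Rt2 B l (u a) (v a) (r a)) :
    Rt2 B l (∑ a ∈ S, u a) (∑ a ∈ S, v a) (∑ a ∈ S, r a) := by
  classical
  induction S using Finset.induction_on with
  | empty => exact Rt2.zero
  | insert a S ha ih =>
    rw [sum_insert ha, sum_insert ha, sum_insert ha]
    exact (h a (mem_insert_self a S)).add hB (ih fun b hb => h b (mem_insert_of_mem hb))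

/-- the same coefficients `0` and `1` -/
def E2 (r r' : Polynomial (ZMod 2)) : Prop := r.coeff 0 = r'.coeff 0 ∧ r.coeff 1 = r'.coeff 1

theorem E2.of_eq {r r' : Polynomial (ZMod 2)} (h : r = r') : E2 r r' := h ▸ ⟨rfl, rfl⟩

theorem Rt2.congr2 {u v : ℂ} {r r' : Polynomial (ZMod 2)} (h : Rt2 B l u v r) (h' : E2 r' r) :
    Rt2 B l u v r' :=
  ⟨h'.1 ▸ h.1, h'.2 ▸ h.2⟩

end

/-! ### Pairs of functions -/

/-- the residue polynomial of a pair of functions -/
def RB2 (B : ValuationSubring ℂ) (η l : ℂ) (C : Finset ι) (f g : Finset ι → ℂ)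
    (P : MvPolynomial ι (Polynomial (ZMod 2))) : Prop :=
  ∀ E ⊆ C, Rt2 B l (mo f E / η ^ E.card) (mo g E / η ^ E.card) (cf P E)

theorem RB2.mono {B : ValuationSubring ℂ} {η l : ℂ} {C C' : Finset ι} {f g : Finset ι → ℂ}
    {P : MvPolynomial ι (Polynomial (ZMod 2))} (h : RB2 B η l C f g P) (hC : C' ⊆ C) :
    RB2 B η l C' f g P :=
  fun E hE => h E (hE.trans hC)

private theorem DuA_eq {η : ℂ} (hη0 : η ≠ 0) (f g : Finset ι → ℂ) {G : Finset ι}
    {x : Finset ι × Finset ι} (hx : x.1 ∪ x.2 = G) :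
    mo f x.1 * mo g x.2 / η ^ G.card =
      (mo f x.1 / η ^ x.1.card) * (mo g x.2 / η ^ x.2.card) * η ^ (x.1 ∩ x.2).card := by
  have hc : x.1.card + x.2.card = G.card + (x.1 ∩ x.2).card := by
    rw [← hx, card_union_add_card_inter]
  rw [div_mul_div_comm, ← pow_add, hc, pow_add, div_mul_eq_mul_div,
    mul_div_mul_right _ _ (pow_ne_zero _ hη0)]

/-- **The product.** -/
theorem RB2.mul {B : ValuationSubring ℂ} (hB : (2 : ℂ)⁻¹ ∉ B) {η l : ℂ} (hl : Rt B l 0)
    (hl0 : l ≠ 0) (hη : Rt B η 0) (hη0 : η ≠ 0) {C : Finset ι} {f f' g g' : Finset ι → ℂ}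
    {P Q : MvPolynomial ι (Polynomial (ZMod 2))} (h : RB2 B η l C f f' P)
    (h1 : RB2 B η l C g g' Q) :
    RB2 B η l C (fun A => f A * g A) (fun A => f' A * g' A) (P * Q) := by
  intro G hG
  rw [mo_mul, mo_mul, cf_mul, ← sum_prU G fun E F => cf P E * cf Q F, sum_div, sum_div]
  refine Rt2.sum hB _ fun x hx => ?_
  rw [mem_prU] at hx
  have hx1 : x.1 ⊆ G := hx ▸ subset_union_left
  have hx2 : x.2 ⊆ G := hx ▸ subset_union_right
  rw [DuA_eq hη0 f g hx, DuA_eq hη0 f' g' hx]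
  have h3 := ((h x.1 (hx1.trans hG)).mul hB hl hl0 (h1 x.2 (hx2.trans hG))).mul hB hl hl0
    (Rt2.cst (hη.pow hB (x.1 ∩ x.2).card))
  split_ifs with hd
  · rw [disjoint_iff_inter_eq_empty.1 hd, card_empty, pow_zero, pow_zero, Polynomial.C_1, mul_one,
      mul_one, mul_one] at h3
    rw [disjoint_iff_inter_eq_empty.1 hd, card_empty, pow_zero, mul_one, mul_one]
    exact h3
  · rw [zero_pow, Polynomial.C_0, mul_zero] at h3
    · exact h3
    · rw [card_ne_zero, nonempty_iff_ne_empty]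
      exact fun h4 => hd (disjoint_iff_inter_eq_empty.2 h4)

theorem RB2.one {B : ValuationSubring ℂ} {η l : ℂ} {C : Finset ι} :
    RB2 B η l C (fun _ => 1) (fun _ => 1) 1 := by
  intro E _
  rw [mo_const, cf_one]
  split_ifs with h
  · rw [h, card_empty, pow_zero, div_one]
    exact Rt2.one
  · rw [zero_div]
    exact Rt2.zero

theorem RB2.prod {B : ValuationSubring ℂ} (hB : (2 : ℂ)⁻¹ ∉ B) {η l : ℂ} (hl : Rt B l 0)
    (hl0 : l ≠ 0) (hη : Rt B η 0) (hη0 : η ≠ 0) {C : Finset ι} {α : Type*} (Z : Finset α)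
    {f g : α → Finset ι → ℂ} {P : α → MvPolynomial ι (Polynomial (ZMod 2))}
    (h : ∀ z ∈ Z, RB2 B η l C (f z) (g z) (P z)) :
    RB2 B η l C (fun A => ∏ z ∈ Z, f z A) (fun A => ∏ z ∈ Z, g z A) (∏ z ∈ Z, P z) := by
  classical
  induction Z using Finset.induction_on with
  | empty =>
    simp only [prod_empty]
    exact RB2.one
  | insert z Z hz ih =>
    simp only [prod_insert hz]
    exact (h z (mem_insert_self z Z)).mul hB hl hl0 hη hη0
      (ih fun w hw => h w (mem_insert_of_mem hw))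

/-! ### The weights -/

/-- constant weights -/
def sH (s : ι → ι → ZMod 2) (i j : ι) : Polynomial (ZMod 2) := Polynomial.C (s i j)

/-- constants -/
def cH (f : ι → ZMod 2) (i : ι) : Polynomial (ZMod 2) := Polynomial.C (f i)

/-- the linear terms with the second order difference -/
def kH (κ c : ι → ZMod 2) (i : ι) : Polynomial (ZMod 2) :=
  Polynomial.C (κ i) + Polynomial.X * Polynomial.C (c i)

theorem kH_coeff0 (κ c : ι → ZMod 2) (i : ι) : (kH κ c i).coeff 0 = κ i := by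
  rw [kH, Polynomial.coeff_add, Polynomial.coeff_C_zero, Polynomial.mul_coeff_zero,
    Polynomial.coeff_X_zero, zero_mul, add_zero]

theorem kH_coeff1 (κ c : ι → ZMod 2) (i : ι) : (kH κ c i).coeff 1 = c i := by
  rw [kH, Polynomial.coeff_add, Polynomial.coeff_C_ne_zero one_ne_zero, Polynomial.mul_coeff_one,
    Polynomial.coeff_X_zero, Polynomial.coeff_X_one, zero_mul, Polynomial.coeff_C_zero, one_mul,
    zero_add, zero_add]

theorem coeff_sum_sH (s : ι → ι → ZMod 2) (x : ι) (T : Finset ι) (n : ℕ) :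
    (∑ p ∈ T, sH s x p).coeff n = if n = 0 then ∑ p ∈ T, s x p else 0 := by
  have h1 : ∑ p ∈ T, sH s x p = Polynomial.C (∑ p ∈ T, s x p) := by
    rw [map_sum]
    rfl
  rw [h1, Polynomial.coeff_C]

theorem coeff_ite_sH (s : ι → ι → ZMod 2) (x : ι) (A E : Finset ι) (n : ℕ) :
    (∑ b ∈ A, if E = {b} then sH s x b else 0).coeff n =
      if n = 0 then ∑ b ∈ A, (if E = {b} then s x b else 0) else 0 := by
  have h1 : ∑ b ∈ A, (if E = {b} then sH s x b else 0) =
      Polynomial.C (∑ b ∈ A, if E = {b} then s x b else 0) := by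
    rw [map_sum]
    refine sum_congr rfl fun b _ => ?_
    split_ifs
    · rfl
    · rw [Polynomial.C_0]
  rw [h1, Polynomial.coeff_C]

/-- **The weight of a pair.** -/
theorem RB2.weight {B : ValuationSubring ℂ} (hB : (2 : ℂ)⁻¹ ∉ B) {l e χ eX χX : ℂ} (hl0 : l ≠ 0)
    (hl : Rt B l 0) {s : ι → ι → ZMod 2} {κ c : ι → ZMod 2} {T C : Finset ι} {b : ι}
    (h0 : Rt B ((eX - χX) / l) (κ b + ∑ p ∈ T, s b p)) (hχ : Rt B χX 1)
    (hc : Rt B (((e - χ) - (eX - χX)) / l ^ 2) (c b)) (hx : (χ - χX) / l ^ 2 ∈ B) :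
    RB2 B (2 / l) l C (fun A => (eX - χX * ∏ a ∈ A, sgz (s b a)) / l)
      (fun A => (e - χ * ∏ a ∈ A, sgz (s b a)) / l) (wE (sH s) (kH κ c) T C b) := by
  intro E hE
  have h1 := RB.weight hB hl0 hl h0 hχ (s b) C E hE
  have hcf : cf (MvPolynomial.C (κ b + ∑ p ∈ T, s b p) +
      ∑ a ∈ C, X a * MvPolynomial.C (s b a)) E = (cf (wE (sH s) (kH κ c) T C b) E).coeff 0 := by
    have h2 := cf_wE s κ T C b E
    rw [wE] at h2
    rw [h2, cf_wE]
    split_ifs
    · rw [Polynomial.coeff_add, kH_coeff0, coeff_sum_sH, if_pos rfl]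
    · rw [coeff_ite_sH, if_pos rfl]
  refine ⟨hcf ▸ h1, ?_⟩
  have hm : ∀ e χ : ℂ, mo (fun A => (e - χ * ∏ a ∈ A, sgz (s b a)) / l) E =
      (if E = ∅ then (e - χ) / l else -(χ / l) * ∏ a ∈ E, (sgz (s b a) - 1)) := by
    intro e χ
    refine mo_unique (D := E) (c := fun E => if E = ∅ then (e - χ) / l else
      -(χ / l) * ∏ a ∈ E, (sgz (s b a) - 1)) ?_ E subset_rfl
    intro A _
    rw [← add_sum_erase _ _ (empty_mem_powerset A), if_pos rfl]
    have h1 : ∑ F ∈ A.powerset.erase ∅, (if F = ∅ then (e - χ) / l else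
        -(χ / l) * ∏ a ∈ F, (sgz (s b a) - 1)) =
        -(χ / l) * ((∏ a ∈ A, sgz (s b a)) - 1) := by
      have h2 := mo_sum A fun A => ∏ a ∈ A, sgz (s b a)
      simp only [mo_prod] at h2
      rw [← add_sum_erase _ _ (empty_mem_powerset A), prod_empty] at h2
      rw [h2, add_sub_cancel_left, mul_sum]
      exact sum_congr rfl fun F hF => if_neg (mem_erase.1 hF).1
    rw [h1]
    ring
  rw [hm, hm, cf_wE]
  by_cases hE0 : E = ∅
  · rw [if_pos hE0, if_pos hE0, if_pos hE0, hE0, card_empty, pow_zero, div_one, div_one,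
      Polynomial.coeff_add, kH_coeff1, coeff_sum_sH, if_neg one_ne_zero, add_zero]
    have e1 : ((e - χ) / l - (eX - χX) / l) / l = ((e - χ) - (eX - χX)) / l ^ 2 := by
      field_simp
    rw [e1]
    exact hc
  · rw [if_neg hE0, if_neg hE0, if_neg hE0, coeff_ite_sH, if_neg one_ne_zero]
    obtain ⟨a, ha⟩ := nonempty_iff_ne_empty.2 hE0
    have hval : ∀ y : ZMod 2, (sgz y - 1) / (2 / l) = -l * (y.val : ℂ) := by
      intro y
      have hy : y = 0 ∨ y = 1 := by
        revert y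
        decide
      rcases hy with rfl | rfl
      · rw [sgz_zero, ZMod.val_zero]
        simp
      · rw [sgz_one, ZMod.val_one]
        field_simp
        norm_num
    have hR : ∀ y : ZMod 2, Rt B (y.val : ℂ) y := by
      intro y
      have := Rt.natCast hB y.val
      rwa [ZMod.natCast_zmod_val] at this
    have h2 : Rt B (∏ a ∈ E, (-l * ((s b a).val : ℂ))) 0 := by
      have h3 := Rt.prod hB E fun a _ => (hl.neg hB).mul hB (hR (s b a))
      have h4 : ∏ a ∈ E, (0 * s b a) = 0 := prod_eq_zero (i := a) ha (zero_mul (s b a))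
      rwa [h4] at h3
    have h3 := Rt.mul_zero_right (B.neg_mem _ hx) h2
    have e1 : (-(χ / l) * ∏ a ∈ E, (sgz (s b a) - 1)) / (2 / l) ^ E.card -
        (-(χX / l) * ∏ a ∈ E, (sgz (s b a) - 1)) / (2 / l) ^ E.card =
        -((χ - χX) / l) * ∏ a ∈ E, (-l * ((s b a).val : ℂ)) := by
      rw [← prod_const, mul_div_assoc, mul_div_assoc, ← prod_div_distrib,
        prod_congr rfl fun a _ => hval (s b a)]
      ring
    rw [e1]
    have e2 : ∀ P : ℂ, -((χ - χX) / l) * P / l = -((χ - χX) / l ^ 2) * P := fun P => by ring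
    rw [e2]
    exact h3

end

end Pool.Agent.Lib.MP_1a91b9_ntQ
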