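import Pool.Agent.Lib.MP_1a91b9_ntQ.B.XsB

/-!
# Quartic twists, all fourth-power-free `D`, file XsC: class (X), `k = 0`, the first order and the change of the weights
-/

set_option autoImplicit false
set_option linter.unusedSectionVars false

namespace Pool.Agent.Lib.MP_1a91b9_ntQ

open Finset MvPolynomial
open Pool.Agent.Lib.MP_1a91b9_ntK (NM NM_congr NM_empty NM_adj NM_update NM_zero forest
  CZ CZ_eq forest_zero)

noncomputable section

variable {ι : Type*} [DecidableEq ι]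

/-- the residue polynomial of the coefficient -/
def KXs (bb lb : ι → ZMod 2) (h : ZMod 2) (T A : Finset ι) : MvPolynomial ι (ZMod 2) :=
  C (h + ∑ p ∈ T, bb p) + ∑ b ∈ A, X b * C (lb b)

/-- the residue polynomial of `UxY` -/
def UB0 (s : ι → ι → ZMod 2) (s0 bb lb : ι → ZMod 2) (h : ZMod 2) (T A : Finset ι) :
    MvPolynomial ι (ZMod 2) :=
  KXs bb lb h T A * CE s s0 T A

/-- the polynomial of the second order difference of the level functions -/
def VB0 (s : ι → ι → ZMod 2) (a s0 bb lb : ι → ZMod 2) (h : ZMod 2) (T A : Finset ι) :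
    MvPolynomial ι (ZMod 2) :=
  ∑ b ∈ A, C (a b) * X b * UB0 s s0 bb lb h T (A.erase b)

/-- the polynomial of the second order difference -/
def DB0 (s : ι → ι → ZMod 2) (a s0 bb lb : ι → ZMod 2) (h : ZMod 2) (T A Q : Finset ι) :
    MvPolynomial ι (ZMod 2) :=
  VB0 s a s0 bb lb h T A * ∏ z ∈ Q, wE s 0 T A z +
    UB0 s s0 bb lb h T A * ∑ z ∈ Q, C ((1 + h) * s0 z) * ∏ y ∈ Q.erase z, wE s 0 T A y

section
variable {B : ValuationSubring ℂ} {l : ℂ} {M Y : Finset ι → Finset ι → ℂ} {e eX : ι → ℂ}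
  {x xX : Finset ι → ι → ℂ} {Ef ch : Finset ι → ℂ} {sg : ι → ℂ} {s : ι → ι → ZMod 2}
  {a s0 bb lb : ι → ZMod 2} {h : ZMod 2} {S0 B0 : Finset ι}

/-- **The values `Y`, first order.** -/
theorem SyX.rbY (H : SyX B l M Y e eX x xX Ef ch sg s a s0 bb lb h S0 B0) {T A : Finset ι}
    (hT : T ⊆ S0) (hA : A ⊆ B0) (h0 : (T ∪ A).Nonempty) :
    RB B (2 / l) A (fun A' => lvB Y eX xX s T A A' / (1 * l ^ (T.card + A.card + 1)))
      (CE s s0 T A) := by
  have hd : ∀ T ⊆ S0, ∀ A ⊆ B0, Disjoint T A := fun T hT A hA =>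
    disjoint_of_subset_left hT (disjoint_of_subset_right hA H.hX.dis)
  refine H.hX.claim_even (n := 1) (f := s0) (P := CE s s0) (R := fun _ _ => 0) le_rfl
    (by rw [div_one]; exact H.Y0) H.fX ?_ ?_ ?_ ?_ H.idY _ T hT A hA rfl h0
  · intro b _
    rw [CE_single, cf_C, if_pos rfl]
  · intro T hT A hA b hb h1 E hE
    exact CE_step s s0 (hd T hT A hA) hb h1 hE
  · intro T hT A hA h1
    exact CE_sum2 s s0 (hd T hT A hA) h1
  · intro T hT h1
    rw [CE_sum0 s s0 h1]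
    have h2 : ∀ y : ZMod 2, y + y = 0 := by decide
    exact h2 _

/-- the coefficient -/
theorem SyX.rbK (H : SyX B l M Y e eX x xX Ef ch sg s a s0 bb lb h S0 B0) {T : Finset ι}
    (hT : T ⊆ S0) (A : Finset ι) :
    RB B (2 / l) A (fun A' => (Ef T - ch T * ∏ b ∈ A', sgz (lb b)) / l) (KXs bb lb h T A) :=
  RB.weight H.hX.hB H.hX.hl0 H.hX.hl (H.chE T hT) (H.ch1 T hT) lb A

theorem SyX.half (H : SyX B l M Y e eX x xX Ef ch sg s a s0 bb lb h S0 B0) :
    Rt B (l ^ 2 / 2) 1 := by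
  have h1 := H.hX.hu.inv_one
  rwa [inv_div] at h1

/-- the level function of `UxY` -/
theorem UX_lv {l : ℂ} (hl0 : l ≠ 0) (Y : Finset ι → Finset ι → ℂ) (Ef ch : Finset ι → ℂ)
    (lb : ι → ZMod 2) (eX : ι → ℂ) (xX : Finset ι → ι → ℂ) (s : ι → ι → ZMod 2)
    (T A A' : Finset ι) (n : ℕ) :
    lvB (UxY l Y Ef ch lb) eX xX s T A A' / l ^ (n + 3) =
      l ^ 2 / 2 * (((Ef T - ch T * ∏ b ∈ A', sgz (lb b)) / l) *
        (lvB Y eX xX s T A A' / l ^ n)) := by
  rw [lvB, lvB, UxY]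
  have h1 : l ^ n ≠ 0 := pow_ne_zero _ hl0
  rw [pow_add]
  field_simp

/-- **The values `UxY`, first order, the weights of `Y`.** -/
theorem SyX.rbUX (H : SyX B l M Y e eX x xX Ef ch sg s a s0 bb lb h S0 B0) {T A : Finset ι}
    (hT : T ⊆ S0) (hA : A ⊆ B0) (h0 : (T ∪ A).Nonempty) :
    RB B (2 / l) A (fun A' => lvB (UxY l Y Ef ch lb) eX xX s T A A' / l ^ (T.card + A.card + 4))
      (UB0 s s0 bb lb h T A) := by
  have h1 := ((H.rbK hT A).mul H.hX.hB H.hX.h2 H.hX.h20 (H.rbY hT hA h0)).const H.hX.hB H.half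
  refine h1.congr (fun A' _ => ?_) fun E _ => ?_
  · rw [one_mul]
    exact UX_lv H.hX.hl0 Y Ef ch lb eX xX s T A A' (T.card + A.card + 1)
  · rw [C_1, one_mul, UB0]

/-- the data of the change of the weights -/
theorem SyX.xeq (H : SyX B l M Y e eX x xX Ef ch sg s a s0 bb lb h S0 B0) {T A : Finset ι}
    (hT : T ⊆ S0) (hA : A ⊆ B0) : ∀ b ∈ A, xX T b = x T b := by
  intro b hb
  have hb0 := hA hb
  rw [H.xrel T hT b (mem_sdiff.2 ⟨mem_union_right _ hb0, fun h1 =>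
    disjoint_left.1 H.hX.dis (hT h1) hb0⟩), H.sgB b hb0, one_mul]

/-- **The change of the weights of the level function.** -/
theorem SyX.change (H : SyX B l M Y e eX x xX Ef ch sg s a s0 bb lb h S0 B0) {T A : Finset ι}
    (hT : T ⊆ S0) (hT0 : T.Nonempty) (hA : A ⊆ B0) :
    RB B (2 / l) A (fun A' => lvB (UxY l Y Ef ch lb) e x s T A A' / l ^ (T.card + A.card + 4))
      (UB0 s s0 bb lb h T A) ∧
    RB B (2 / l) A (fun A' => (lvB (UxY l Y Ef ch lb) eX xX s T A A' / l ^ (T.card + A.card + 4) -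
      lvB (UxY l Y Ef ch lb) e x s T A A' / l ^ (T.card + A.card + 4)) / l)
        (VB0 s a s0 bb lb h T A) :=
  RB_change H.hX.hB H.hX.hl H.hX.hl0 H.hX.hu (H.xeq hT hA) (fun b hb => H.cB b (hA hb))
    (P := UB0 s s0 bb lb h T) fun S' hS' => H.rbUX hT (hS'.trans hA) (hT0.mono subset_union_left)

/-- the difference of the weights of a prime of odd exponent -/
theorem SyX.wdiff (H : SyX B l M Y e eX x xX Ef ch sg s a s0 bb lb h S0 B0) {T A : Finset ι}
    (hT : T ⊆ S0) {b : ι} (hb : b ∈ S0) (hbT : b ∉ T) :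
    RB B (2 / l) A (fun A' => (fcB eX xX s T A' b / l - fcB e x s T A' b / l) / l)
      (C ((1 + h) * s0 b)) := by
  have hb' : b ∈ (S0 ∪ B0) \ T := mem_sdiff.2 ⟨mem_union_left _ hb, hbT⟩
  have h1 : RB B (2 / l) A (fun A' => (sg b - 1) / l * (fcB e x s T A' b / l)) 0 :=
    RB.const_zero (H.sgS b hb) (H.hM.weight (C := A) hT hb').toW
  have h2 := h1.add H.hX.hB (RB.cst H.hX.hB (H.cS b hb))
  refine h2.congr (fun A' _ => ?_) fun E _ => by rw [zero_add]
  have hl0 := H.hX.hl0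
  rw [fcB, fcB, H.xrel T hT b hb']
  field_simp
  ring

/-- **The second order difference of the functions of the subset `T'`.** -/
theorem SyX.gdiff (H : SyX B l M Y e eX x xX Ef ch sg s a s0 bb lb h S0 B0) {T T' A : Finset ι}
    (hT : T ⊆ S0) (hT' : T' ⊆ T) (hT0 : T'.Nonempty) (hA : A ⊆ B0) :
    RB B (2 / l) A (fun A' => gcB l 1 (UxY l Y Ef ch lb) eX xX s 5 T A T' A' -
      gcB l 1 (UxY l Y Ef ch lb) e x s 5 T A T' A') (DB0 s a s0 bb lb h T' A (T \ T')) := by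
  have hB := H.hX.hB
  have hl0 := H.hX.hl0
  have hT'S := hT'.trans hT
  have hq : ∀ z ∈ T \ T', z ∈ S0 ∧ z ∉ T' := fun z hz =>
    ⟨hT (mem_sdiff.1 hz).1, (mem_sdiff.1 hz).2⟩
  have hq' : ∀ z ∈ T \ T', z ∈ (S0 ∪ B0) \ T' := fun z hz =>
    mem_sdiff.2 ⟨mem_union_left _ (hq z hz).1, (hq z hz).2⟩
  have h1 := H.change hT'S hT0 hA
  have h2 := RB_prod_diff hB (l := l) H.hX.h2 H.hX.h20 (T \ T')
    (w := fun z A' => fcB e x s T' A' z / l) (w' := fun z A' => fcB eX xX s T' A' z / l)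
    (W := fun z => wE s 0 T' A z) (d := fun z => (1 + h) * s0 z) (S := A)
    (fun z hz => H.hM.weight hT'S (hq' z hz)) (fun z hz => H.hX.weight hT'S (hq' z hz))
    fun z hz => H.wdiff hT'S (hq z hz).1 (hq z hz).2
  have h3 := RB_mul_diff hB H.hX.h2 H.hX.h20 h1.1 h1.2
    (RB.prod hB H.hX.h2 H.hX.h20 (T \ T') fun z hz => H.hX.weight (C := A) hT'S (hq' z hz)) h2
  refine h3.congr (fun A' _ => ?_) fun E _ => by rw [DB0]
  have e1 : T'.card + A.card + 5 = (T'.card + A.card + 4) + 1 := rfl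
  rw [gcB, gcB, one_mul, e1, pow_succ l (T'.card + A.card + 4)]
  have h4 : l ^ (T'.card + A.card + 4) ≠ 0 := pow_ne_zero _ hl0
  field_simp

end

end

end Pool.Agent.Lib.MP_1a91b9_ntQ
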