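import Pool.Agent.Lib.MP_1a91b9_ntQ.B.XsC

/-!
# Quartic twists, all fourth-power-free `D`, file XsD: class (X), `k = 0`, the terms of the empty set
-/

set_option autoImplicit false
set_option linter.unusedSectionVars false

namespace Pool.Agent.Lib.MP_1a91b9_ntQ

open Finset MvPolynomial
open Pool.Agent.Lib.MP_1a91b9_ntK (NM NM_congr NM_empty NM_adj NM_update NM_zero forest
  CZ CZ_eq forest_zero)

noncomputable section

variable {ι : Type*} [DecidableEq ι]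

section
variable {B : ValuationSubring ℂ} {l K : ℂ} {La : Finset ι → Finset ι → ℂ} {e : ι → ℂ}
  {x : Finset ι → ι → ℂ} {s : ι → ι → ZMod 2} {κ : ι → ZMod 2} {S0 B0 : Finset ι}

/-- the data do not depend on the values -/
theorem SyB.of (h : SyB B l K La e x s κ S0 B0) (K' : ℂ) (La' : Finset ι → Finset ι → ℂ) :
    SyB B l K' La' e x s κ S0 B0 :=
  ⟨h.hB, h.hl, h.hl0, h.hu, h.dis, h.fac, h.one⟩

theorem cf_wE0 (s : ι → ι → ZMod 2) (A : Finset ι) (b : ι) : cf (wE s 0 ∅ A b) ∅ = 0 := by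
  rw [cf_wE, if_pos rfl, sum_empty, add_zero, Pi.zero_apply]

/-- the total identity of the empty set -/
theorem SyB.mo_id (h : SyB B l 1 La e x s κ S0 B0) (n : ℕ) {A : Finset ι} (hA : A ⊆ B0) :
    mo (fun A' => lvB La e x s ∅ A A' / l ^ (A.card + n)) A / (2 / l) ^ A.card =
      (-1) ^ A.card * ((2 / l ^ 2) ^ A.card)⁻¹ * idB l 1 La e x s n ∅ A := by
  have hl0 := h.hl0
  rw [idB_eq h n (empty_subset S0) hA, powerset_empty, sum_singleton, card_empty, pow_zero, one_mul]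
  have h1 : mo (gcB l 1 La e x s n ∅ A ∅) A =
      mo (fun A' => lvB La e x s ∅ A A' / l ^ (A.card + n)) A := by
    refine mo_congr fun A' _ => ?_
    rw [gcB, Finset.sdiff_self, prod_empty, mul_one, one_mul, card_empty, zero_add]
  have hu0 : ((2 : ℂ) / l ^ 2) ^ A.card ≠ 0 :=
    pow_ne_zero _ (div_ne_zero two_ne_zero (pow_ne_zero _ hl0))
  have hs : ((-1 : ℂ) ^ A.card) * (-1) ^ A.card = 1 := by
    rw [← mul_pow]
    simp
  rw [h1]
  calc _ = (((-1 : ℂ) ^ A.card) * (-1) ^ A.card) * (((2 / l ^ 2) ^ A.card)⁻¹ * (2 / l ^ 2) ^ A.card) *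
        (mo (fun A' => lvB La e x s ∅ A A' / l ^ (A.card + n)) A / (2 / l) ^ A.card) := by
        rw [hs, inv_mul_cancel₀ hu0, one_mul, one_mul]
    _ = _ := by ring

/-- **The levels of the empty set.** -/
theorem SyB.rbw (h : SyB B l K La e x s 0 S0 B0) {N : ℕ} {P : Finset ι → MvPolynomial ι (ZMod 2)}
    (hstep : ∀ A ⊆ B0, ∀ b ∈ A, (A.erase b).Nonempty → ∀ E : Finset ι, b ∉ E →
      cf (P A) E = cf (wE s 0 ∅ (A.erase b) b * P (A.erase b)) E)
    (hbase : ∀ b ∈ B0, Rt B (La ∅ ∅ * (e b - x ∅ b) / l ^ (1 + N)) (cf (P {b}) ∅))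
    (htop : ∀ A ⊆ B0, A.Nonempty →
      mo (fun A' => lvB La e x s ∅ A A' / l ^ (A.card + N)) A / (2 / l) ^ A.card ∈ B) :
    ∀ m : ℕ, ∀ A ⊆ B0, A.card = m → A.Nonempty →
      RBw B (2 / l) A (fun A' => lvB La e x s ∅ A A' / l ^ (A.card + N)) (P A) := by
  intro m
  induction m with
  | zero =>
    intro A _ hm hA0
    exact absurd (card_eq_zero.1 hm) hA0.ne_empty
  | succ m ih =>
  intro A hA hm hA0
  refine ⟨fun E hE hEC => ?_, htop A hA hA0⟩
  obtain ⟨b, hb, hbE⟩ := exists_of_ssubset (Finset.ssubset_iff_subset_ne.2 ⟨hE, hEC⟩)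
  have hb0 : b ∈ (S0 ∪ B0) \ (∅ : Finset ι) := mem_sdiff.2 ⟨mem_union_right _ (hA hb), notMem_empty b⟩
  by_cases h1 : (A.erase b).Nonempty
  · have hc := card_erase_add_one hb
    have h2 := ih (A.erase b) ((erase_subset b A).trans hA) (by omega) h1
    have h3 := h2.mul_low h.hB h.h2 h.h20 (h.weight (C := A.erase b) (empty_subset S0) hb0)
      (cf_wE0 s _ b)
    have hEC' : E ⊆ A.erase b := fun y hy => mem_erase.2 ⟨fun h' => hbE (h' ▸ hy), hE hy⟩
    have h4 := h3 E hEC'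
    rw [mul_comm (P (A.erase b)), ← hstep A hA b hb h1 E hbE] at h4
    have h5 : mo (fun A' => lvB La e x s ∅ A A' / l ^ (A.card + N)) E =
        mo (fun A' => lvB La e x s ∅ (A.erase b) A' / l ^ ((A.erase b).card + N) *
          (fcB e x s ∅ A' b / l)) E := by
      refine mo_congr fun A' hA' => ?_
      rw [lvB_erase La e x s ∅ hb fun h' => hbE (hA' h'), div_mul_div_comm]
      congr 1
      have e1 : A.card + N = ((A.erase b).card + N) + 1 := by omega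
      rw [e1, pow_succ]
    rw [h5]
    exact h4
  · rw [not_nonempty_iff_eq_empty] at h1
    have hAb : A = {b} := by
      rw [← insert_erase hb, h1]
      rfl
    subst hAb
    have hE0 : E = ∅ := by
      rcases subset_singleton_iff.1 hE with h3 | h3
      · exact h3
      · exact absurd (h3 ▸ mem_singleton_self b) hbE
    subst hE0
    rw [mo_empty, lvB, sdiff_empty, prod_singleton, card_empty, pow_zero, div_one,
      card_singleton, fcB, prod_empty, mul_one]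
    exact hbase b (hA hb)

end

section
variable {B : ValuationSubring ℂ} {l : ℂ} {M Y : Finset ι → Finset ι → ℂ} {e eX : ι → ℂ}
  {x xX : Finset ι → ι → ℂ} {Ef ch : Finset ι → ℂ} {sg : ι → ℂ} {s : ι → ι → ZMod 2}
  {a s0 bb lb : ι → ZMod 2} {h : ZMod 2} {S0 B0 : Finset ι}

theorem SyX.unitC (H : SyX B l M Y e eX x xX Ef ch sg s a s0 bb lb h S0 B0) (n : ℕ) :
    (-1) ^ n * ((2 / l ^ 2) ^ n)⁻¹ ∈ B := by
  have h2 := H.hX.hu.pow H.hX.hB n
  rw [one_pow] at h2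
  exact ((Rt_sgn' H.hX.hB n).mul H.hX.hB h2.inv_one).mem

/-- the values `Y` of the empty set -/
theorem SyX.rbY0 (H : SyX B l M Y e eX x xX Ef ch sg s a s0 bb lb h S0 B0) {A : Finset ι}
    (hA : A ⊆ B0) (hA0 : A.Nonempty) :
    RBw B (2 / l) A (fun A' => lvB Y eX xX s ∅ A A' / l ^ (A.card + 2)) 0 := by
  refine H.hX.rbw (P := fun _ => 0) ?_ ?_ ?_ _ A hA rfl hA0
  · intro A _ b _ _ E _
    rw [mul_zero]
  · intro b hb
    rw [cf_zero, mul_div_assoc]
    exact Rt.mul_zero_right H.Y0.mem (H.fXB b hb)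
  · intro A hA hA0
    rw [H.hX.mo_id 2 hA]
    exact B.mul_mem _ _ (H.unitC _) (H.idY2 A hA hA0)

/-- the values `UxY` of the empty set -/
theorem SyX.rbU0 (H : SyX B l M Y e eX x xX Ef ch sg s a s0 bb lb h S0 B0) {A : Finset ι}
    (hA : A ⊆ B0) (hA0 : A.Nonempty) :
    RBw B (2 / l) A (fun A' => lvB (UxY l Y Ef ch lb) eX xX s ∅ A A' / l ^ (A.card + 5)) 0 := by
  have h1 := (H.rbK (empty_subset S0) A).toW.mul H.hX.hB H.hX.h2 H.hX.h20 (H.rbY0 hA hA0)
  have h2 := (RB.cst H.hX.hB (η := 2 / l) (S := A) H.half).toW.mul H.hX.hB H.hX.h2 H.hX.h20 h1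
  have e1 : ∀ A', lvB (UxY l Y Ef ch lb) eX xX s ∅ A A' / l ^ (A.card + 5) =
      l ^ 2 / 2 * (((Ef ∅ - ch ∅ * ∏ b ∈ A', sgz (lb b)) / l) *
        (lvB Y eX xX s ∅ A A' / l ^ (A.card + 2))) := fun A' =>
    UX_lv H.hX.hl0 Y Ef ch lb eX xX s ∅ A A' (A.card + 2)
  simp only [mul_zero] at h2
  refine ⟨fun E hE hEC => ?_, ?_⟩
  · rw [mo_congr fun A' _ => e1 A']
    exact h2.1 E hE hEC
  · rw [mo_congr fun A' _ => e1 A']
    exact h2.2

theorem SyX.idM2 (H : SyX B l M Y e eX x xX Ef ch sg s a s0 bb lb h S0 B0) {A : Finset ι}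
    (hA : A ⊆ B0) (hA0 : A.Nonempty) : idB l 1 M e x s 5 ∅ A ∈ B := by
  have h1 := (H.rbU0 hA hA0).2
  have hl0 := H.hX.hl0
  have h2 := (H.hX.of 1 (UxY l Y Ef ch lb)).mo_id 5 hA
  rw [h2] at h1
  have h3 : idB l 1 (UxY l Y Ef ch lb) eX xX s 5 ∅ A ∈ B := by
    have h4 : (-1 : ℂ) ^ A.card * (2 / l ^ 2) ^ A.card ∈ B :=
      ((Rt_sgn' H.hX.hB A.card).mul H.hX.hB (H.hX.hu.pow H.hX.hB A.card)).mem
    have h5 := B.mul_mem _ _ h4 h1
    have hu0 : ((2 : ℂ) / l ^ 2) ^ A.card ≠ 0 :=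
      pow_ne_zero _ (div_ne_zero two_ne_zero (pow_ne_zero _ hl0))
    have hs : ((-1 : ℂ) ^ A.card) * (-1) ^ A.card = 1 := by
      rw [← mul_pow]
      simp
    have e1 : (-1 : ℂ) ^ A.card * (2 / l ^ 2) ^ A.card *
        ((-1) ^ A.card * ((2 / l ^ 2) ^ A.card)⁻¹ *
          idB l 1 (UxY l Y Ef ch lb) eX xX s 5 ∅ A) =
        (((-1 : ℂ) ^ A.card) * (-1) ^ A.card) *
          (((2 / l ^ 2) ^ A.card) * ((2 / l ^ 2) ^ A.card)⁻¹) *
          idB l 1 (UxY l Y Ef ch lb) eX xX s 5 ∅ A := by ring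
    rw [e1, hs, mul_inv_cancel₀ hu0, one_mul, one_mul] at h5
    exact h5
  have h6 := B.add_mem _ _ (H.idD0 A hA hA0) h3
  rwa [sub_add_cancel] at h6

/-- the values `M` of the empty set -/
theorem SyX.rbM0 (H : SyX B l M Y e eX x xX Ef ch sg s a s0 bb lb h S0 B0) {A : Finset ι}
    (hA : A ⊆ B0) (hA0 : A.Nonempty) :
    RBw B (2 / l) A (fun A' => lvB M e x s ∅ A A' / l ^ (A.card + 5)) (CE s a ∅ A) := by
  refine H.hM.rbw (P := CE s a ∅) ?_ ?_ ?_ _ A hA rfl hA0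
  · intro A _ b hb h1 E hE
    exact CE_step s a (disjoint_empty_left A) hb (by rwa [empty_union]) hE
  · intro b hb
    rw [CE_single, cf_C, if_pos rfl]
    have h1 := H.M0.mul H.hX.hB (H.fM b hb)
    rw [one_mul] at h1
    have hl0 := H.hX.hl0
    have e1 : M ∅ ∅ * (e b - x ∅ b) / l ^ (1 + 5) = M ∅ ∅ / l ^ 3 * ((e b - x ∅ b) / l ^ 3) := by
      field_simp
    rw [e1]
    exact h1
  · intro A hA hA0
    rw [H.hM.mo_id 5 hA]
    exact B.mul_mem _ _ (H.unitC _) (H.idM2 hA hA0)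

/-- the weights of a nonempty set have constant coefficient zero -/
theorem cf_prod_wE0 (s : ι → ι → ZMod 2) (A : Finset ι) {T : Finset ι} (hT : T.Nonempty) :
    cf (∏ z ∈ T, wE s 0 ∅ A z) ∅ = 0 := by
  obtain ⟨z, hz⟩ := hT
  rw [← mul_prod_erase T _ hz, cf_mul, powerset_empty, sum_singleton, cf_wE0, zero_mul]

/-- the right side: the terms of the empty set -/
def zeX (s : ι → ι → ZMod 2) (a s0 : ι → ZMod 2) (h : ZMod 2) (T A : Finset ι) : ZMod 2 :=
  if A = ∅ then (if T.card = 1 then ∑ b ∈ T, (a b + h * s0 b) else 0) else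
    cf (CE s a ∅ A * ∏ z ∈ T, wE s 0 ∅ A z) A

/-- **The terms of the empty set.** -/
theorem SyX.sec (H : SyX B l M Y e eX x xX Ef ch sg s a s0 bb lb h S0 B0) {T A : Finset ι}
    (hT : T ⊆ S0) (hT0 : T.Nonempty) (hA : A ⊆ B0) :
    Rt B (mo (gcB l 1 M e x s 5 T A ∅) A / (2 / l) ^ A.card -
      mo (gcB l 1 (UxY l Y Ef ch lb) eX xX s 5 T A ∅) A / (2 / l) ^ A.card)
      (zeX s a s0 h T A) := by
  have hB := H.hX.hB
  have hl0 := H.hX.hl0
  by_cases hA0 : A = ∅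
  · subst hA0
    rw [zeX, if_pos rfl]
    have h1 := H.t1 T hT hT0
    rw [card_empty, pow_zero, div_one, div_one, mo_empty, mo_empty, gcB, gcB, lvB, lvB]
    simp only [Finset.sdiff_self, prod_empty, mul_one, card_empty, zero_add, sdiff_empty, fcB,
      one_mul, add_zero]
    rw [prod_div_distrib, prod_div_distrib, prod_const]
    have h2 : l ^ T.card ≠ 0 := pow_ne_zero _ hl0
    have e1 : M ∅ ∅ / l ^ 5 * ((∏ b ∈ T, (e b - x ∅ b)) / l ^ T.card) -
        UxY l Y Ef ch lb ∅ ∅ / l ^ 5 * ((∏ b ∈ T, (eX b - xX ∅ b)) / l ^ T.card) =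
        (M ∅ ∅ * ∏ b ∈ T, (e b - x ∅ b) -
          UxY l Y Ef ch lb ∅ ∅ * ∏ b ∈ T, (eX b - xX ∅ b)) / l ^ (T.card + 5) := by
      rw [pow_add]
      field_simp
    rw [e1]
    exact h1
  · rw [zeX, if_neg hA0]
    have hA0' := nonempty_iff_ne_empty.2 hA0
    have hz : ∀ z ∈ T, z ∈ (S0 ∪ B0) \ (∅ : Finset ι) := fun z hz =>
      mem_sdiff.2 ⟨mem_union_left _ (hT hz), notMem_empty z⟩
    have h1 := (H.rbM0 hA hA0').mul_low hB H.hX.h2 H.hX.h20
      (RB.prod hB H.hX.h2 H.hX.h20 T fun z hz' => H.hM.weight (C := A) (empty_subset S0) (hz z hz'))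
      (cf_prod_wE0 s A hT0) A subset_rfl
    have h2 := (H.rbU0 hA hA0').mul_low hB H.hX.h2 H.hX.h20
      (RB.prod hB H.hX.h2 H.hX.h20 T fun z hz' => H.hX.weight (C := A) (empty_subset S0) (hz z hz'))
      (cf_prod_wE0 s A hT0) A subset_rfl
    rw [zero_mul, cf_zero] at h2
    have h3 := h1.sub hB h2
    rw [sub_zero] at h3
    have e1 : ∀ (La : Finset ι → Finset ι → ℂ) (e : ι → ℂ) (x : Finset ι → ι → ℂ),
        mo (gcB l 1 La e x s 5 T A ∅) A = mo (fun A' => lvB La e x s ∅ A A' / l ^ (A.card + 5) *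
          ∏ z ∈ T, (fcB e x s ∅ A' z / l)) A := by
      intro La e x
      refine mo_congr fun A' _ => ?_
      rw [gcB, sdiff_empty, one_mul, card_empty, zero_add]
    rw [e1, e1]
    exact h3

end

end

end Pool.Agent.Lib.MP_1a91b9_ntQ
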