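import Pool.Agent.Lib.MP_1a91b9_ntQ.B.DuA
import Pool.Agent.Lib.MP_1a91b9_ntQ.B.XsC
import Pool.Agent.Lib.MP_1a91b9_ntQ.B.XsD

/-!
# Quartic twists, all fourth-power-free `D`, file DuB: second order classes, the induction

The pair of the level functions of `UxD` and `M` has the residue polynomial `P T C` over `(ZMod 2)[X]`.
-/

set_option autoImplicit false
set_option linter.unusedSectionVars false

namespace Pool.Agent.Lib.MP_1a91b9_ntQ

open Finset MvPolynomial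
open Pool.Agent.Lib.MP_1a91b9_ntK (NM NM_congr NM_empty NM_adj NM_update NM_zero forest
  CZ CZ_eq forest_zero)

noncomputable section

variable {ι : Type*} [DecidableEq ι]

/-- the normalised level function -/
def lvN (l : ℂ) (La : Finset ι → Finset ι → ℂ) (e : ι → ℂ) (x : Finset ι → ι → ℂ)
    (s : ι → ι → ZMod 2) (T C A : Finset ι) : ℂ :=
  lvB La e x s T C A / (1 * l ^ (T.card + C.card + 0))

theorem lvN_erase {l : ℂ} (La : Finset ι → Finset ι → ℂ) (e : ι → ℂ) (x : Finset ι → ι → ℂ)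
    (s : ι → ι → ZMod 2) (T : Finset ι) {C A : Finset ι} {b : ι} (hb : b ∈ C) (hA : b ∉ A) :
    lvN l La e x s T C A = fcB e x s T A b / l * lvN l La e x s T (C.erase b) A := by
  rw [lvN, lvN, lvB_erase La e x s T hb hA, div_mul_div_comm, mul_comm (fcB e x s T A b)]
  congr 1
  have hc := card_erase_add_one hb
  have e1 : T.card + C.card + 0 = (T.card + (C.erase b).card + 0) + 1 := by omega
  rw [e1, pow_succ]
  ring

section
variable {B : ValuationSubring ℂ} {l : ℂ} {M Y : Finset ι → Finset ι → ℂ} {e eX : ι → ℂ}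
  {x xX : Finset ι → ι → ℂ} {Ef ch : Finset ι → ℂ} {cU : ℂ} {nY : ℕ} {s : ι → ι → ZMod 2}
  {κ c lb : ι → ZMod 2} {hU : ZMod 2} {S0 B0 : Finset ι}

/-- the weight of a pair -/
theorem SyD.weight (H : SyD B l M Y e eX x xX Ef ch cU nY s κ c lb hU S0 B0) {T C : Finset ι}
    (hT : T ⊆ S0) {b : ι} (hb : b ∈ (S0 ∪ B0) \ T) :
    RB2 B (2 / l) l C (fun A => fcB eX xX s T A b / l) (fun A => fcB e x s T A b / l)
      (wE (sH s) (kH κ c) T C b) :=
  RB2.weight H.hX.hB H.hX.hl0 H.hX.hl (H.hX.fac T hT b hb) (H.hX.one T hT b hb) (H.cw T hT b hb)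
    (H.cx T hT b hb)

/-- **The step**, `E` a proper subset -/
theorem SyD.step (H : SyD B l M Y e eX x xX Ef ch cU nY s κ c lb hU S0 B0)
    {Uf : Finset ι → Finset ι → ℂ} {P Q : MvPolynomial ι (Polynomial (ZMod 2))}
    {T C E : Finset ι} (hT : T ⊆ S0) (hC : C ⊆ B0) {b : ι} (hb : b ∈ C) (hE : E ⊆ C) (hbE : b ∉ E)
    (ih : RB2 B (2 / l) l (C.erase b) (lvN l Uf eX xX s T (C.erase b))
      (lvN l M e x s T (C.erase b)) P)
    (hP : E2 (cf Q E) (cf (wE (sH s) (kH κ c) T (C.erase b) b * P) E)) :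
    Rt2 B l (mo (lvN l Uf eX xX s T C) E / (2 / l) ^ E.card)
      (mo (lvN l M e x s T C) E / (2 / l) ^ E.card) (cf Q E) := by
  have hb0 : b ∈ (S0 ∪ B0) \ T := mem_sdiff.2 ⟨mem_union_right _ (hC hb), fun hbT =>
    disjoint_left.1 H.hX.dis (hT hbT) (hC hb)⟩
  have hEC : E ⊆ C.erase b := fun y hy => mem_erase.2 ⟨fun h' => hbE (h' ▸ hy), hE hy⟩
  have h1 := (RB2.mul H.hX.hB H.hX.hl H.hX.hl0 H.hX.h2 H.hX.h20
    (H.weight (C := C.erase b) hT hb0) ih) E hEC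
  refine Rt2.congr2 ?_ hP
  have h2 : ∀ (La : Finset ι → Finset ι → ℂ) (e : ι → ℂ) (x : Finset ι → ι → ℂ),
      mo (lvN l La e x s T C) E =
        mo (fun A => fcB e x s T A b / l * lvN l La e x s T (C.erase b) A) E := fun La e x =>
    mo_congr fun A hA => lvN_erase La e x s T hb fun h' => hbE (hA h')
  rw [h2, h2]
  exact h1

/-- the functions of the subsets -/
theorem SyD.rbG (H : SyD B l M Y e eX x xX Ef ch cU nY s κ c lb hU S0 B0)
    {Uf : Finset ι → Finset ι → ℂ} {P : MvPolynomial ι (Polynomial (ZMod 2))}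
    {T C T' : Finset ι} (hT : T ⊆ S0) (hT' : T' ⊆ T)
    (ih : RB2 B (2 / l) l C (lvN l Uf eX xX s T' C) (lvN l M e x s T' C) P) :
    RB2 B (2 / l) l C (gcB l 1 Uf eX xX s 0 T C T') (gcB l 1 M e x s 0 T C T')
      (P * ∏ b ∈ T \ T', wE (sH s) (kH κ c) T' C b) := by
  refine RB2.mul H.hX.hB H.hX.hl H.hX.hl0 H.hX.h2 H.hX.h20 ih
    (RB2.prod H.hX.hB H.hX.hl H.hX.hl0 H.hX.h2 H.hX.h20 _ fun b hb => ?_)
  rw [mem_sdiff] at hb
  exact H.weight (hT'.trans hT) (mem_sdiff.2 ⟨mem_union_left _ (hT hb.1), hb.2⟩)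

/-- **The case `E = C`.** -/
theorem SyD.top (H : SyD B l M Y e eX x xX Ef ch cU nY s κ c lb hU S0 B0)
    {Uf : Finset ι → Finset ι → ℂ} (p : Finset ι → Prop) [DecidablePred p]
    {P : Finset ι → MvPolynomial ι (Polynomial (ZMod 2))} {T C : Finset ι} (hT : T ⊆ S0)
    (hpT : p T)
    (ih : ∀ T' ⊆ T, p T' → T' ≠ T →
      RB2 B (2 / l) l C (lvN l Uf eX xX s T' C) (lvN l M e x s T' C) (P T'))
    (h1 : Rt B (mo (lvN l Uf eX xX s T C) C / (2 / l) ^ C.card) ((cf (P T) C).coeff 0))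
    (hid : Rt B ((∑ T' ∈ T.powerset.filter p, (-1) ^ T'.card *
        (mo (gcB l 1 M e x s 0 T C T') C / (2 / l) ^ C.card) -
      ∑ T' ∈ T.powerset.filter p, (-1) ^ T'.card *
        (mo (gcB l 1 Uf eX xX s 0 T C T') C / (2 / l) ^ C.card)) / l)
      ((∑ T' ∈ T.powerset.filter p,
        cf (P T' * ∏ b ∈ T \ T', wE (sH s) (kH κ c) T' C b) C).coeff 1)) :
    Rt2 B l (mo (lvN l Uf eX xX s T C) C / (2 / l) ^ C.card)
      (mo (lvN l M e x s T C) C / (2 / l) ^ C.card) (cf (P T) C) := by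
  have hB := H.hX.hB
  refine ⟨h1, ?_⟩
  have hTm : T ∈ T.powerset.filter p := mem_filter.2 ⟨mem_powerset_self T, hpT⟩
  have h2 : Rt2 B l (∑ T' ∈ (T.powerset.filter p).erase T, (-1) ^ T'.card *
        (mo (gcB l 1 Uf eX xX s 0 T C T') C / (2 / l) ^ C.card))
      (∑ T' ∈ (T.powerset.filter p).erase T, (-1) ^ T'.card *
        (mo (gcB l 1 M e x s 0 T C T') C / (2 / l) ^ C.card))
      (∑ T' ∈ (T.powerset.filter p).erase T,
        cf (P T' * ∏ b ∈ T \ T', wE (sH s) (kH κ c) T' C b) C) := by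
    refine Rt2.sum hB _ fun T' hT' => ?_
    rw [mem_erase, mem_filter, mem_powerset] at hT'
    have h3 := (Rt2.cst (l := l) (Rt_sgn' hB T'.card)).mul hB H.hX.hl H.hX.hl0
      (H.rbG hT hT'.2.1 (ih T' hT'.2.1 hT'.2.2 hT'.1) C subset_rfl)
    rwa [Polynomial.C_1, one_mul] at h3
  rw [← add_sum_erase _ _ hTm, ← add_sum_erase _ _ hTm, ← add_sum_erase _ _ hTm,
    Polynomial.coeff_add, Finset.sdiff_self, prod_empty, mul_one] at hid
  have h3 := hid.sub hB h2.2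
  have hsT : ((-1 : ℂ) ^ T.card) * (-1) ^ T.card = 1 := by
    rw [← mul_pow]
    simp
  have h6 : ∀ (La : Finset ι → Finset ι → ℂ) (e : ι → ℂ) (x : Finset ι → ι → ℂ),
      mo (gcB l 1 La e x s 0 T C T) C = mo (lvN l La e x s T C) C := fun La e x => by
    refine mo_congr fun A _ => ?_
    rw [gcB, Finset.sdiff_self, prod_empty, mul_one]
    rfl
  have h4 := (Rt_sgn' hB T.card).mul hB h3
  rw [h6, h6, add_sub_cancel_right, one_mul] at h4
  have e1 : ∀ m u v w y : ℂ, m * m = 1 →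
      m * ((m * v + y - (m * u + w)) / l - (y - w) / l) = (v - u) / l := by
    intro m u v w y hm
    linear_combination (v - u) / l * hm
  rwa [e1 _ _ _ _ _ hsT] at h4

/-- **The classes of the pair of the level functions.** -/
theorem SyD.claim2 (H : SyD B l M Y e eX x xX Ef ch cU nY s κ c lb hU S0 B0)
    {Uf : Finset ι → Finset ι → ℂ} (p : Finset ι → Prop) [DecidablePred p]
    {P : Finset ι → Finset ι → MvPolynomial ι (Polynomial (ZMod 2))}
    (hP1 : ∀ T ⊆ S0, p T → ∀ C ⊆ B0, ∀ b ∈ C, ∀ E : Finset ι, b ∉ E →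
      E2 (cf (P T C) E) (cf (wE (sH s) (kH κ c) T (C.erase b) b * P T (C.erase b)) E))
    (hU1 : ∀ T ⊆ S0, p T → ∀ C ⊆ B0,
      Rt B (mo (lvN l Uf eX xX s T C) C / (2 / l) ^ C.card) ((cf (P T C) C).coeff 0))
    (hid : ∀ T ⊆ S0, p T → ∀ C ⊆ B0, Rt B ((∑ T' ∈ T.powerset.filter p, (-1) ^ T'.card *
        (mo (gcB l 1 M e x s 0 T C T') C / (2 / l) ^ C.card) -
      ∑ T' ∈ T.powerset.filter p, (-1) ^ T'.card *
        (mo (gcB l 1 Uf eX xX s 0 T C T') C / (2 / l) ^ C.card)) / l)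
      ((∑ T' ∈ T.powerset.filter p,
        cf (P T' C * ∏ b ∈ T \ T', wE (sH s) (kH κ c) T' C b) C).coeff 1)) :
    ∀ m : ℕ, ∀ T ⊆ S0, p T → ∀ C ⊆ B0, T.card + C.card = m →
      RB2 B (2 / l) l C (lvN l Uf eX xX s T C) (lvN l M e x s T C) (P T C) := by
  intro m
  induction m using Nat.strong_induction_on with
  | _ m ih =>
  intro T hT hpT C hC hm E hE
  by_cases hEC : E = C
  · subst hEC
    refine H.top p hT hpT (P := fun T' => P T' E) ?_ (hU1 T hT hpT E hC) (hid T hT hpT E hC)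
    intro T' hT' hpT' hne
    refine ih (T'.card + E.card) ?_ T' (hT'.trans hT) hpT' E hC rfl
    have := card_lt_card (Finset.ssubset_iff_subset_ne.2 ⟨hT', hne⟩)
    omega
  · obtain ⟨b, hb, hbE⟩ := exists_of_ssubset (Finset.ssubset_iff_subset_ne.2 ⟨hE, hEC⟩)
    refine H.step hT hC hb hE hbE (ih (T.card + (C.erase b).card) ?_ T hT hpT (C.erase b)
      ((erase_subset _ _).trans hC) rfl) (hP1 T hT hpT C hC b hb E hbE)
    have := card_erase_add_one hb
    omega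

/-! ### The first order -/

/-- the coefficient -/
theorem SyD.rbK (H : SyD B l M Y e eX x xX Ef ch cU nY s κ c lb hU S0 B0) {T : Finset ι}
    (hT : T ⊆ S0) (A : Finset ι) :
    RB B (2 / l) A (fun A' => (Ef T - ch T * ∏ b ∈ A', sgz (lb b)) / l) (KXs lb lb hU T A) :=
  RB.weight H.hX.hB H.hX.hl0 H.hX.hl (H.chE T hT) (H.ch1 T hT) lb A

/-- the level function of `UxD` -/
theorem UD_lv {l : ℂ} (hl0 : l ≠ 0) (cU : ℂ) (nY : ℕ) (Y : Finset ι → Finset ι → ℂ)
    (Ef ch : Finset ι → ℂ) (lb : ι → ZMod 2) (eX : ι → ℂ) (xX : Finset ι → ι → ℂ)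
    (s : ι → ι → ZMod 2) (T C A : Finset ι) (n : ℕ) :
    lvB (UxD cU Y Ef ch lb) eX xX s T C A / (1 * l ^ (n + 0)) =
      cU * l ^ (nY + 1) * (((Ef T - ch T * ∏ b ∈ A, sgz (lb b)) / l) *
        (lvB Y eX xX s T C A / (1 * l ^ (n + nY)))) := by
  rw [lvB, lvB, UxD]
  have h1 : l ^ n ≠ 0 := pow_ne_zero _ hl0
  rw [pow_add l nY 1, pow_add l n nY, add_zero]
  field_simp

/-- **The values `UxD`, first order.** -/
theorem SyD.rbU (H : SyD B l M Y e eX x xX Ef ch cU nY s κ c lb hU S0 B0) {T C : Finset ι}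
    (hT : T ⊆ S0) {P : MvPolynomial ι (ZMod 2)}
    (h1 : RB B (2 / l) C (fun A => lvB Y eX xX s T C A / (1 * l ^ (T.card + C.card + nY))) P) :
    RB B (2 / l) C (lvN l (UxD cU Y Ef ch lb) eX xX s T C) (KXs lb lb hU T C * P) := by
  have h2 := ((H.rbK hT C).mul H.hX.hB H.hX.h2 H.hX.h20 h1).const H.hX.hB H.hcU
  refine h2.congr (fun A' _ => ?_) fun E _ => ?_
  · exact UD_lv H.hX.hl0 cU nY Y Ef ch lb eX xX s T C A' (T.card + C.card)
  · rw [C_1, one_mul]

/-- the difference of the sums over the subsets -/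
theorem SyD.gsum (H : SyD B l M Y e eX x xX Ef ch cU nY s κ c lb hU S0 B0)
    {Uf : Finset ι → Finset ι → ℂ} {T C : Finset ι} (hT : T ⊆ S0) (hC : C ⊆ B0) {R : ZMod 2}
    (h1 : Rt B (idB l 1 M e x s 1 T C - idB l 1 Uf eX xX s 1 T C) R) :
    Rt B ((∑ T' ∈ T.powerset, (-1) ^ T'.card *
        (mo (gcB l 1 M e x s 0 T C T') C / (2 / l) ^ C.card) -
      ∑ T' ∈ T.powerset, (-1) ^ T'.card *
        (mo (gcB l 1 Uf eX xX s 0 T C T') C / (2 / l) ^ C.card)) / l) R := by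
  have hB := H.hX.hB
  have hl0 := H.hX.hl0
  have e1 : ∀ (La : Finset ι → Finset ι → ℂ) (e : ι → ℂ) (x : Finset ι → ι → ℂ),
      idB l 1 La e x s 1 T C = idB l 1 La e x s 0 T C / l := by
    intro La e x
    rw [idB, idB, pow_add l _ 1, pow_one, add_zero, ← mul_assoc, div_div]
  have hu0 : ((2 : ℂ) / l ^ 2) ^ C.card ≠ 0 :=
    pow_ne_zero _ (div_ne_zero two_ne_zero (pow_ne_zero _ hl0))
  have hs : ((-1 : ℂ) ^ C.card) * (-1) ^ C.card = 1 := by
    rw [← mul_pow]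
    simp
  have hinv : Rt B (((2 / l ^ 2) ^ C.card)⁻¹) 1 := by
    have h2 := H.hX.hu.pow hB C.card
    rw [one_pow] at h2
    exact h2.inv_one
  have h4 := ((Rt_sgn' hB C.card).mul hB hinv).mul hB h1
  rw [one_mul, one_mul, e1, e1, idB_eq H.hM 0 hT hC, idB_eq (H.hX.of 1 Uf) 0 hT hC] at h4
  have e2 : ∀ m u v w : ℂ, m * m = 1 → w ≠ 0 →
      m * w⁻¹ * (m * w * v / l - m * w * u / l) = (v - u) / l := by
    intro m u v w hm hw
    have h5 : w⁻¹ * w = 1 := inv_mul_cancel₀ hw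
    calc _ = (m * m) * (w⁻¹ * w) * ((v - u) / l) := by ring
      _ = _ := by rw [hm, h5, one_mul, one_mul]
  rwa [e2 _ _ _ _ hs hu0] at h4

end

end

end Pool.Agent.Lib.MP_1a91b9_ntQ
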