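import Pool.Agent.Lib.MP_1a91b9_ntQ.A.OptB
import Pool.Agent.Lib.MP_1a91b9_ntQ.A.EvB

/-!
# Quartic twists, all fourth-power-free `D`, file DuD: the square free coefficient of a determinant, general form

`cf_pdtE`: the matrix has constants with the columns of `A` multiplied by the variables, and the linear forms on the
diagonal. `pdtE_final`: the sum over the subsets of `V`.
-/

set_option autoImplicit false
set_option linter.unusedSectionVars false

namespace Pool.Agent.Lib.MP_1a91b9_ntQ

open Finset MvPolynomial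
open Pool.Agent.Lib.MP_1a91b9_ntK (NM NM_congr NM_empty NM_adj NM_update NM_zero forest
  CZ CZ_eq forest_zero)

variable {ι : Type*} [DecidableEq ι] {R : Type*} [CommRing R]

/-! ### Polynomials without small coefficients -/

/-- the square free coefficients at the sets with less than `n` elements vanish -/
def LD (n : ℕ) (P : MvPolynomial ι R) : Prop := ∀ E : Finset ι, E.card < n → cf P E = 0

theorem LD.zero_any (P : MvPolynomial ι R) : LD 0 P := fun _ h => absurd h (Nat.not_lt_zero _)

theorem LD.mono {m n : ℕ} {P : MvPolynomial ι R} (h : LD n P) (hm : m ≤ n) : LD m P :=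
  fun E hE => h E (hE.trans_le hm)

theorem LD.mul {m n : ℕ} {P Q : MvPolynomial ι R} (h : LD m P) (h' : LD n Q) :
    LD (m + n) (P * Q) := by
  intro E hE
  rw [cf_mul]
  refine sum_eq_zero fun F hF => ?_
  have h1 := card_sdiff_add_card_eq_card (mem_powerset.1 hF)
  by_cases h2 : F.card < m
  · rw [h F h2, zero_mul]
  · rw [h' (E \ F) (by omega), mul_zero]

theorem LD.add {n : ℕ} {P Q : MvPolynomial ι R} (h : LD n P) (h' : LD n Q) : LD n (P + Q) := by
  intro E hE
  rw [cf_add, h E hE, h' E hE, add_zero]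

theorem LD.neg {n : ℕ} {P : MvPolynomial ι R} (h : LD n P) : LD n (-P) := by
  intro E hE
  rw [cf_neg, h E hE, neg_zero]

theorem LD.sum {n : ℕ} {α : Type*} (S : Finset α) {P : α → MvPolynomial ι R}
    (h : ∀ a ∈ S, LD n (P a)) : LD n (∑ a ∈ S, P a) := by
  intro E hE
  rw [cf_sum]
  exact sum_eq_zero fun a ha => h a ha E hE

theorem LD.prod {α : Type*} (S : Finset α) {P : α → MvPolynomial ι R}
    (h : ∀ a ∈ S, LD 1 (P a)) : LD S.card (∏ a ∈ S, P a) := by
  classical
  induction S using Finset.induction_on with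
  | empty => exact LD.zero_any _
  | insert a S ha ih =>
    rw [prod_insert ha, card_insert_of_notMem ha, add_comm]
    exact (h a (mem_insert_self a S)).mul (ih fun b hb => h b (mem_insert_of_mem hb))

theorem LD.of_empty {P : MvPolynomial ι R} (h : cf P ∅ = 0) : LD 1 P := by
  intro E hE
  rw [Nat.lt_one_iff, card_eq_zero] at hE
  rw [hE, h]

theorem LD.X_mul (b : ι) (P : MvPolynomial ι R) : LD 1 (X b * P) := by
  refine LD.of_empty ?_
  rw [cf_X_mul, if_neg (notMem_empty b)]

theorem LD_lf (s : ι → ι → R) (A : Finset ι) (x : ι) : LD 1 (lf s A x) :=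
  LD.sum _ fun b _ => LD.X_mul b _

/-! ### The square free coefficient -/

section
variable {ι' : Type*} [DecidableEq ι']

/-- **The square free coefficient.** -/
theorem cf_pdtE (em : ι ↪ ι') (M : ι' → ι' → R) (d cfac : ι' → MvPolynomial ι R) (s : ι → ι → R)
    {T' : Finset ι'} {A : Finset ι} (hd : Disjoint T' (A.map em))
    (h1 : ∀ x ∈ T', cf (d x) ∅ = 0) (h2 : ∀ b ∈ A, d (em b) = lf s A b)
    (h3 : ∀ b ∈ A, cfac (em b) = X b) (h4 : ∀ x ∈ T', cfac x = 1) :
    cf (pdt (fun i j => C (M i j) * cfac j + if i = j then d i else 0) (T' ∪ A.map em)) A =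
      ∑ J ∈ A.powerset, perE s J * pdt M (T' ∪ (A \ J).map em) := by
  have hLD : ∀ x ∈ T' ∪ A.map em, LD 1 (d x) := by
    intro x hx
    rcases mem_union.1 hx with h | h
    · exact LD.of_empty (h1 x h)
    · obtain ⟨b, hb, rfl⟩ := mem_map.1 h
      rw [h2 b hb]
      exact LD_lf s A b
  rw [pdt_diag, cf_sum]
  -- the terms
  have key : ∀ J ⊆ T' ∪ A.map em, cf ((∏ x ∈ J, d x) *
      pdt (fun i j => C (M i j) * cfac j) ((T' ∪ A.map em) \ J)) A =
      pdt M ((T' ∪ A.map em) \ J) *
        cf (∏ x ∈ J, d x) (A.filter fun b => em b ∈ J) := by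
    intro J _
    rw [pdt_col, pdt_map C]
    have e1 : ∏ p ∈ (T' ∪ A.map em) \ J, cfac p = ∏ b ∈ A.filter (fun b => em b ∉ J), X b := by
      have e2 : (T' ∪ A.map em) \ J = (T' \ J) ∪ (A.filter fun b => em b ∉ J).map em := by
        ext y
        simp only [mem_sdiff, mem_union, mem_map, mem_filter]
        constructor
        · rintro ⟨h5 | ⟨b, hb, rfl⟩, h6⟩
          · exact Or.inl ⟨h5, h6⟩
          · exact Or.inr ⟨b, ⟨hb, h6⟩, rfl⟩
        · rintro (⟨h5, h6⟩ | ⟨b, ⟨hb, h6⟩, rfl⟩)
          · exact ⟨Or.inl h5, h6⟩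
          · exact ⟨Or.inr ⟨b, hb, rfl⟩, h6⟩
      have e3 : Disjoint (T' \ J) ((A.filter fun b => em b ∉ J).map em) :=
        disjoint_of_subset_left sdiff_subset (disjoint_of_subset_right
          (map_subset_map.2 (filter_subset _ _)) hd)
      rw [e2, prod_union e3, prod_map, prod_eq_one fun x hx => h4 x (mem_sdiff.1 hx).1, one_mul]
      exact prod_congr rfl fun b hb => h3 b (mem_filter.1 hb).1
    have e4 : (∏ x ∈ J, d x) * ((∏ p ∈ (T' ∪ A.map em) \ J, cfac p) *
        C (pdt M ((T' ∪ A.map em) \ J))) = C (pdt M ((T' ∪ A.map em) \ J)) *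
        ((∏ b ∈ A.filter (fun b => em b ∉ J), X b) * ∏ x ∈ J, d x) := by
      rw [e1]
      ring
    rw [e4, cf_C_mul, cf_prodX, if_pos (filter_subset _ _)]
    congr 2
    ext b
    simp only [mem_sdiff, mem_filter, not_and, not_not]
    tauto
  rw [sum_congr rfl fun J hJ => key J (mem_powerset.1 hJ),
    ← sum_subset (powerset_mono.2 (subset_union_right : A.map em ⊆ T' ∪ A.map em))]
  · symm
    refine sum_bij (fun J _ => J.map em) ?_ ?_ ?_ ?_
    · intro J hJ
      rw [mem_powerset] at hJ ⊢
      exact map_subset_map.2 hJ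
    · intro J _ J' _ h
      exact map_injective _ h
    · intro J' hJ'
      rw [mem_powerset] at hJ'
      obtain ⟨J, hJ, rfl⟩ := subset_map_iff.1 hJ'
      exact ⟨J, mem_powerset.2 hJ, rfl⟩
    · intro J hJ
      have hJA := mem_powerset.1 hJ
      have e1 : (T' ∪ A.map em) \ J.map em = T' ∪ (A \ J).map em := by
        rw [union_sdiff_distrib, sdiff_eq_self_of_disjoint
          (disjoint_of_subset_right (map_subset_map.2 hJA) hd), ← Finset.map_sdiff]
      have e2 : (A.filter fun b => em b ∈ J.map em) = J := by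
        ext b
        rw [mem_filter, mem_map']
        exact ⟨fun h => h.2, fun h => ⟨hJA h, h⟩⟩
      rw [e1, e2, prod_map, prod_congr rfl fun b hb => h2 b (hJA hb), mul_comm, perE]
      exact congrArg (_ * ·) (cf_lf_congr s J (by rw [inter_eq_right.2 hJA, inter_self])).symm
  · intro J hJ hJA
    rw [mem_powerset] at hJ hJA
    have h5 : (A.filter fun b => em b ∈ J).card < J.card := by
      rw [← card_map em]
      refine card_lt_card (Finset.ssubset_iff_subset_ne.2 ⟨?_, fun h => hJA ?_⟩)
      · intro y hy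
        obtain ⟨b, hb, rfl⟩ := mem_map.1 hy
        exact (mem_filter.1 hb).2
      · rw [← h]
        exact map_subset_map.2 (filter_subset _ _)
    rw [LD.prod J (fun x hx => hLD x (hJ hx)) _ h5, mul_zero]

/-- **The sum over the subsets of `V`**, general form. -/
theorem pdtE_final [Nontrivial R] (em : ι ↪ ι') (M : ι' → ι' → R) (s : ι → ι → R) (τ : ι → R)
    {T' : Finset ι'} {V : Finset ι} (hd : Disjoint T' (V.map em)) {g : Finset ι → R}
    (hg : ∀ A ⊆ V, g A = ∑ J ∈ A.powerset, perE s J * pdt M (T' ∪ (A \ J).map em)) {N : ι' → ι' → R}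
    (hN : ∀ i ∈ T' ∪ V.map em, ∀ j ∈ T' ∪ V.map em, (i ≠ j ∨ i ∈ T') → N i j = M i j)
    (hN' : ∀ b ∈ V, N (em b) (em b) = M (em b) (em b) + (τ b + ∑ p ∈ V.erase b, s b p)) :
    ∑ A ∈ V.powerset, g A * pdt (blkL s τ V) (V \ A) = pdt N (T' ∪ V.map em) := by
  classical
  let l : ι → R := fun i => τ i + ∑ p ∈ V.erase i, s i p
  have h1 : pdt N (T' ∪ V.map em) =
      ∑ J ∈ V.powerset, (∏ i ∈ J, l i) * pdt M (T' ∪ (V \ J).map em) := by
    let d : ι' → R := fun y => N y y - M y y
    have h2 := pdt_diag_aux M d (V.map em) (S := T' ∪ V.map em) subset_union_right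
    have h3 : pdt (fun i j => M i j + if i = j ∧ i ∈ V.map em then d i else 0) (T' ∪ V.map em) =
        pdt N (T' ∪ V.map em) := by
      refine pdt_congr fun i hi j hj => ?_
      by_cases hij : i = j
      · subst hij
        by_cases hV : i ∈ V.map em
        · rw [if_pos ⟨rfl, hV⟩]
          show M i i + (N i i - M i i) = N i i
          ring
        · rw [if_neg fun h => hV h.2, add_zero, hN i hi i hi
            (Or.inr ((mem_union.1 hi).resolve_right hV))]
      · rw [if_neg fun h => hij h.1, add_zero, hN i hi j hj (Or.inl hij)]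
    rw [← h3, h2]
    symm
    refine sum_bij (fun J _ => J.map em) ?_ ?_ ?_ ?_
    · intro J hJ
      rw [mem_powerset] at hJ ⊢
      exact map_subset_map.2 hJ
    · intro J _ J' _ h
      exact map_injective _ h
    · intro J' hJ'
      rw [mem_powerset] at hJ'
      obtain ⟨J, hJ, rfl⟩ := subset_map_iff.1 hJ'
      exact ⟨J, mem_powerset.2 hJ, rfl⟩
    · intro J hJ
      have hJA := mem_powerset.1 hJ
      rw [prod_map, union_sdiff_distrib, sdiff_eq_self_of_disjoint
          (disjoint_of_subset_right (map_subset_map.2 hJA) hd), ← Finset.map_sdiff]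
      refine congrArg₂ (· * ·) (prod_congr rfl fun b hb => ?_) rfl
      show τ b + ∑ p ∈ V.erase b, s b p = N (em b) (em b) - M (em b) (em b)
      rw [hN' b (hJA hb)]
      ring
  rw [h1]
  refine conv_four (g := g) (per := perE s)
    (mB := fun A => pdt M (T' ∪ A.map em)) (mS := pdt (BB s 0 ∅)) (mL := pdt (blkL s τ V))
    (l := fun J => ∏ i ∈ J, l i) hg (fun A _ => perE_conv s A) ?_
  intro A _
  rw [← pdt_diag]
  refine pdt_congr fun i _ j _ => ?_
  rw [blkL, BB]
  by_cases hij : i = j
  · rw [if_pos hij, if_pos hij, if_pos hij, if_neg (notMem_empty i), zero_add]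
  · rw [if_neg hij, if_neg hij, if_neg hij, add_zero]

end

end Pool.Agent.Lib.MP_1a91b9_ntQ
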