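import Pool.Agent.Lib.MP_1a91b9_ntQ.B.DuD

/-!
# Quartic twists, all fourth-power-free `D`, file DuE: the bordered determinants of the second order classes

`GE_final2`: the bordered determinant with arbitrary border. `HEr`: the determinant with the column `r0` replaced.
`ZB1`: the bordered determinant with the column `r0` replaced. `GE_split`: the sum of the columns.
-/

set_option autoImplicit false
set_option linter.unusedSectionVars false

namespace Pool.Agent.Lib.MP_1a91b9_ntQ

open Finset MvPolynomial
open Pool.Agent.Lib.MP_1a91b9_ntK (NM NM_congr NM_empty NM_adj NM_update NM_zero forest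
  CZ CZ_eq forest_zero)

variable {ι : Type*} [DecidableEq ι] {R : Type*} [CommRing R]

/-! ### The sum of the columns -/

/-- the cofactor of the corner column -/
theorem BM_e {n : Type*} [Fintype n] [DecidableEq n] (N : Matrix n n R) (b c : n → R) (k : R)
    (r : n) : ((BM N b c k).updateCol (Sum.inl r) (Pi.single (Sum.inr ()) 1)).det =
      -(N.updateCol r b).det := by
  rw [← Matrix.cramer_apply, Matrix.cramer_eq_adjugate_mulVec, Matrix.mulVec_single_one,
    Matrix.col_apply, Matrix.adjugate_apply]
  have h1 : (BM N b c k).updateRow (Sum.inr ()) (Pi.single (Sum.inl r) 1) =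
      BM N b (Pi.single r 1) 0 := by
    ext i j
    rcases i with i | i
    · rw [Matrix.updateRow_ne (by simp)]
      rcases j with j | j <;> rfl
    · rw [Matrix.updateRow_self]
      rcases j with j | j
      · show (Pi.single (Sum.inl r) 1 : n ⊕ Unit → R) (Sum.inl j) = (Pi.single r 1 : n → R) j
        by_cases h : j = r
        · subst h
          rw [Pi.single_eq_same, Pi.single_eq_same]
        · rw [Pi.single_eq_of_ne h, Pi.single_eq_of_ne fun h' => h (Sum.inl.inj h')]
      · show (Pi.single (Sum.inl r) 1 : n ⊕ Unit → R) (Sum.inr j) = 0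
        rw [Pi.single_eq_of_ne (by simp)]
  rw [h1, det_BM, zero_mul, zero_sub, ← Matrix.cramer_apply, Matrix.cramer_eq_adjugate_mulVec,
    Finset.sum_eq_single r]
  · simp only [Pi.single_eq_same, one_mul]
    rfl
  · intro i _ hi
    exact sum_eq_zero fun j _ => by rw [Pi.single_eq_of_ne hi, zero_mul, zero_mul]
  · intro h
    exact absurd (mem_univ r) h

/-- **The sum of the columns.** -/
theorem BM_colsum {n : Type*} [Fintype n] [DecidableEq n] (N : Matrix n n R) (b c : n → R) (k : R)
    (r : n) (κ : n → R) (hN : ∀ i, ∑ j, N i j = κ i) :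
    (BM N b c k).det = ((BM N b c k).updateCol (Sum.inl r) (Sum.elim κ 0)).det -
      (∑ i, c i) * (N.updateCol r b).det := by
  have h1 := Matrix.det_updateCol_sum (BM N b c k) (Sum.inl r)
    (Sum.elim (fun _ => (1 : R)) (fun _ => 0))
  rw [Sum.elim_inl, one_smul] at h1
  have h2 : (fun x => ∑ i, (Sum.elim (fun _ => (1 : R)) (fun _ => 0) i : R) • BM N b c k x i) =
      Sum.elim κ 0 + (∑ i, c i) • Pi.single (Sum.inr ()) (1 : R) := by
    funext x
    rw [Fintype.sum_sum_type]
    simp only [Sum.elim_inl, one_smul, Sum.elim_inr, zero_smul, sum_const_zero, add_zero]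
    rcases x with x | x
    · rw [Pi.add_apply, Pi.smul_apply, Pi.single_eq_of_ne (by simp), smul_zero, add_zero,
        Sum.elim_inl, ← hN x]
      rfl
    · rw [Pi.add_apply, Pi.smul_apply, Sum.elim_inr, Pi.zero_apply, zero_add]
      have h3 : (Pi.single (Sum.inr ()) (1 : R) : n ⊕ Unit → R) (Sum.inr x) = 1 := by
        rw [Pi.single_eq_same]
      rw [h3, smul_eq_mul, mul_one]
      rfl
  rw [h2, Matrix.det_updateCol_add, Matrix.det_updateCol_smul, BM_e] at h1
  rw [← h1]
  ring

/-! ### The entries -/

/-- the entries of the matrix with the variables -/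
noncomputable def NMf (s : ι → ι → R) (κ : ι → R) (T A : Finset ι) (i j : ι) : MvPolynomial ι R :=
  if i = j then C (κ i) + ∑ p ∈ (T ∪ A).erase i, mwE s A i p else -mwE s A i j

theorem GE_pdB (s : ι → ι → R) (κ g f : ι → R) (x : R) (T A : Finset ι) :
    GE s κ g f x T A = pdB (NMf s κ T A) (fun i => C (f i)) (mvE g A) (C x) (T ∪ A) := by
  rw [GE, FB, pdB]
  congr 2
  ext i j
  rw [Matrix.of_apply]
  simp only [NM, NMf, Subtype.ext_iff]

theorem NMf_eq (s : ι → ι → R) (κ : ι → R) {T A : Finset ι} (hTA : Disjoint T A)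
    (hu : ∀ b ∈ A, κ b + ∑ p ∈ T, s b p = 0) {i j : ι} (hi : i ∈ T ∪ A) :
    NMf s κ T A i j = C (BB s κ T i j) * (if j ∈ A then X j else 1) +
      if i = j then lf s A i else 0 := by
  by_cases hij : i = j
  · subst hij
    rw [NMf, if_pos rfl, if_pos rfl]
    simp only [BB, if_true]
    rcases mem_union.1 hi with hi | hi
    · have hiA : (i : ι) ∉ A := fun h => disjoint_left.1 hTA hi h
      have h1 : (T ∪ A).erase (i : ι) = T.erase i ∪ A := by
        rw [erase_union_distrib, erase_eq_of_notMem hiA]
      have h2 : Disjoint (T.erase (i : ι)) A := disjoint_of_subset_left (erase_subset _ _) hTA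
      rw [if_pos hi, if_neg hiA, mul_one, lf, erase_eq_of_notMem hiA, h1, sum_union h2, C_add,
        map_sum, add_assoc]
      congr 2
      · exact sum_congr rfl fun p hp => by
          rw [mwE, if_neg (fun h => disjoint_left.1 h2 hp h)]
      · exact sum_congr rfl fun p hp => by rw [mwE, if_pos hp]
    · have hiT : (i : ι) ∉ T := fun h => disjoint_left.1 hTA h hi
      have h1 : (T ∪ A).erase (i : ι) = T ∪ A.erase i := by
        rw [erase_union_distrib, erase_eq_of_notMem hiT]
      have h2 : Disjoint T (A.erase (i : ι)) := disjoint_of_subset_right (erase_subset _ _) hTA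
      rw [if_neg hiT, C_0, zero_mul, zero_add, h1, sum_union h2, ← add_assoc]
      have h3 : ∑ p ∈ T, mwE s A i p = ∑ p ∈ T, C (s i p) := sum_congr rfl fun p hp => by
        rw [mwE, if_neg (fun h => disjoint_left.1 hTA hp h)]
      rw [h3, ← map_sum, ← C_add, hu i hi, C_0, zero_add, lf]
      exact sum_congr rfl fun p hp => by rw [mwE, if_pos (mem_of_mem_erase hp)]
  · rw [NMf, if_neg hij, if_neg hij, add_zero, BB, if_neg hij, mwE]
    split_ifs
    · rw [C_neg]
      ring
    · rw [C_neg, mul_one]

/-! ### The final bordered matrix -/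

/-- the entries of a bordered matrix -/
def optM (M : ι → ι → R) (b c : ι → R) (k : R) : Option ι → Option ι → R
  | some i, some j => M i j
  | some i, none => b i
  | none, some j => c j
  | none, none => k

theorem pdt_optM (M : ι → ι → R) (b c : ι → R) (k : R) (S : Finset ι) :
    pdt (optM M b c k) (insertNone S) = pdB M b c k S :=
  pdt_insertNone _ S

/-- **The sum over the subsets of `V`, a bordered determinant.** -/
theorem pdB_final [Nontrivial R] (s : ι → ι → R) (τ : ι → R) {T V : Finset ι}
    (hTV : Disjoint T V) (M : ι → ι → R) (b c : ι → R) (k : R) {N : ι → ι → R}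
    {P : Finset ι → MvPolynomial ι R} {d : Finset ι → ι → MvPolynomial ι R}
    (hd : ∀ A ⊆ V, ∀ x ∈ T, cf (d A x) ∅ = 0) (hd' : ∀ A ⊆ V, ∀ b ∈ A, d A b = lf s A b)
    (hP : ∀ A ⊆ V, P A = pdB (fun i j => C (M i j) * (if j ∈ A then X j else 1) +
      if i = j then d A i else 0) (fun i => C (b i))
        (fun j => C (c j) * (if j ∈ A then X j else 1)) (C k) (T ∪ A))
    (hN : ∀ i ∈ T ∪ V, ∀ j ∈ T ∪ V, (i ≠ j ∨ i ∈ T) → N i j = M i j)
    (hN' : ∀ b ∈ V, N b b = M b b + (τ b + ∑ p ∈ V.erase b, s b p)) :
    ∑ A ∈ V.powerset, cf (P A) A * pdt (blkL s τ V) (V \ A) = pdB N b c k (T ∪ V) := by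
  have hdis : ∀ A ⊆ V, Disjoint (insertNone T) (A.map Function.Embedding.some) := by
    intro A hA
    rw [disjoint_left]
    rintro (_ | i) h1 h2
    · simp at h2
    · simp only [mem_map, Function.Embedding.some_apply, Option.some.injEq, exists_eq_right] at h2
      exact disjoint_left.1 hTV (some_mem_insertNone.1 h1) (hA h2)
  have key : ∀ A ⊆ V, cf (P A) A = ∑ J ∈ A.powerset,
      perE s J * pdt (optM M b c k) (insertNone T ∪ (A \ J).map Function.Embedding.some) := by
    intro A hA
    have hTA : Disjoint T A := disjoint_of_subset_right hA hTV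
    have h1 := cf_pdtE Function.Embedding.some (optM M b c k)
      (d := fun y => match y with | some i => d A i | none => 0)
      (cfac := fun y => match y with | some i => (if i ∈ A then X i else 1) | none => 1) s
      (hdis A hA) ?_ ?_ ?_ ?_
    · rw [← h1, map_some_union, pdt_insertNone, hP A hA]
      congr 1
      refine pdB_congr ?_ ?_ ?_ ?_
      · intro i _ j _
        show _ = C (M i j) * (if j ∈ A then X j else 1) + if some i = some j then d A i else 0
        by_cases hij : i = j
        · rw [if_pos hij, if_pos (congrArg some hij)]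
        · rw [if_neg hij, if_neg fun h => hij (Option.some_injective _ h)]
      · intro i _
        show _ = C (b i) * 1 + if some i = none then _ else 0
        rw [if_neg (by simp), mul_one, add_zero]
      · intro j _
        have h2 : (none : Option ι) ≠ some j := by simp
        show _ = C (c j) * (if j ∈ A then X j else 1) + if none = some j then _ else 0
        rw [if_neg h2, add_zero]
      · show _ = C k * 1 + if (none : Option ι) = none then 0 else 0
        rw [if_pos rfl, mul_one, add_zero]
    · rintro (_ | x) hx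
      · exact cf_zero _
      · exact hd A hA x (some_mem_insertNone.1 hx)
    · intro b hb
      exact hd' A hA b hb
    · intro b hb
      exact if_pos hb
    · rintro (_ | x) hx
      · rfl
      · exact if_neg fun h => disjoint_left.1 hTA (some_mem_insertNone.1 hx) h
  rw [pdtE_final Function.Embedding.some (optM M b c k) s τ (T' := insertNone T) (V := V)
    (hdis V subset_rfl) (g := fun A => cf (P A) A) key (N := optM N b c k), map_some_union,
    pdt_optM]
  · rintro (_ | i) hi (_ | j) hj h
    · rfl
    · rfl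
    · rfl
    · have hi' : i ∈ T ∪ V := by
        rw [map_some_union] at hi
        exact some_mem_insertNone.1 hi
      have hj' : j ∈ T ∪ V := by
        rw [map_some_union] at hj
        exact some_mem_insertNone.1 hj
      refine hN i hi' j hj' ?_
      rcases h with h | h
      · exact Or.inl fun h' => h (congrArg some h')
      · exact Or.inr (some_mem_insertNone.1 h)
  · intro b hb
    exact hN' b hb

/-- **The sum over the subsets of `V`**, `GE` with an arbitrary border. -/
theorem GE_final2 [Nontrivial R] (s : ι → ι → R) (κ g f τ : ι → R) (x : R) {T V : Finset ι}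
    (hTV : Disjoint T V) (hu : ∀ b ∈ V, κ b + ∑ p ∈ T, s b p = 0) :
    ∑ A ∈ V.powerset, cf (GE s κ g f x T A) A * pdt (blkL s τ V) (V \ A) =
      pdB (blkM s κ τ T V) f g x (T ∪ V) := by
  refine pdB_final s τ hTV (BB s κ T) f g x (d := fun A i => lf s A i)
    (fun A _ y _ => LD_lf s A y ∅ (by simp)) (fun A _ b _ => rfl) (fun A hA => ?_) ?_ ?_
  · have hTA : Disjoint T A := disjoint_of_subset_right hA hTV
    rw [GE_pdB]
    refine pdB_congr (fun i hi j _ => NMf_eq s κ hTA (fun b hb => hu b (hA hb)) hi)
      (fun _ _ => rfl) (fun j _ => ?_) rfl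
    rw [mvE]
    split_ifs
    · rw [mul_comm]
    · rw [mul_one]
  · intro i hi j _ h
    rw [blkM, BB]
    by_cases hij : i = j
    · have hiT : i ∈ T := h.resolve_left fun h' => h' hij
      rw [if_pos hij, if_pos hij, if_pos hiT, if_pos hiT]
    · rw [if_neg hij, if_neg hij]
  · intro b hb
    have hbT : b ∉ T := fun h => disjoint_left.1 hTV h hb
    rw [blkM, BB, if_pos rfl, if_pos rfl, if_neg hbT, if_neg hbT, zero_add]

/-! ### The column `r0` replaced -/

/-- the determinant with the column `r0` replaced -/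
noncomputable def HEr (s : ι → ι → R) (κ v : ι → R) (r0 : ι) (T A : Finset ι) : MvPolynomial ι R :=
  pdt (fun i j => if j = r0 then C (v i) else NMf s κ T A i j) (T ∪ A)

/-- the bordered determinant with the column `r0` replaced -/
noncomputable def ZB1 (s : ι → ι → R) (κ c f g : ι → R) (r0 : ι) (T A : Finset ι) :
    MvPolynomial ι R :=
  pdB (fun i j => if j = r0 then C (c i) else NMf s κ T A i j) (fun i => C (f i))
    (fun j => if j = r0 then 0 else mvE g A j) 0 (T ∪ A)

theorem sum_NMf (s : ι → ι → R) (κ : ι → R) (T A : Finset ι) (i : ↥(T ∪ A)) :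
    ∑ j : ↥(T ∪ A), NMf s κ T A i j = C (κ i) := by
  have h0 := congrFun (NM_mulVec_one (mwE s A) (T ∪ A)) i
  simp only [Matrix.mulVec, dotProduct, mul_one, Pi.zero_apply] at h0
  have h3 : ∀ j : ↥(T ∪ A), NMf s κ T A i j = NM (mwE s A) 0 (T ∪ A) i j +
      if i = j then C (κ i) else 0 := by
    intro j
    by_cases h : i = j
    · subst h
      simp only [NM, NMf, if_true, Pi.zero_apply]
      ring
    · have h' : (i : ι) ≠ j := fun h' => h (Subtype.ext h')
      simp only [NM, NMf, if_neg h, if_neg h', add_zero]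
  rw [sum_congr rfl fun j _ => h3 j, sum_add_distrib, h0, zero_add]
  simp

/-- **The sum of the columns**: the linear terms are `y · c`. -/
theorem GE_split (s : ι → ι → R) (κ c g f : ι → R) (y : R) (hκ : ∀ i, κ i = y * c i) {r0 : ι}
    {T A : Finset ι} (hr : r0 ∈ T) :
    GE s κ g f 0 T A = C y * ZB1 s κ c f g r0 T A -
      (∑ i ∈ T ∪ A, mvE g A i) * HEr s κ f r0 T A := by
  have hr' : r0 ∈ T ∪ A := mem_union_left A hr
  rw [GE_pdB, C_0, pdB, BM_colsum (Matrix.of fun i j : ↥(T ∪ A) => NMf s κ T A i j) _ _ _
    (⟨r0, hr'⟩ : ↥(T ∪ A)) (fun i : ↥(T ∪ A) => C (κ i)) (sum_NMf s κ T A)]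
  have h1 : (Sum.elim (fun i : ↥(T ∪ A) => (C (κ i) : MvPolynomial ι R)) 0 :
      ↥(T ∪ A) ⊕ Unit → MvPolynomial ι R) =
      (C y : MvPolynomial ι R) • (Sum.elim (fun i : ↥(T ∪ A) => (C (c i) : MvPolynomial ι R)) 0 :
        ↥(T ∪ A) ⊕ Unit → MvPolynomial ι R) := by
    funext x
    rcases x with x | x
    · rw [Pi.smul_apply, Sum.elim_inl, Sum.elim_inl, hκ, C_mul, smul_eq_mul]
    · rw [Pi.smul_apply, Sum.elim_inr, Sum.elim_inr, Pi.zero_apply, smul_zero]
  rw [h1, Matrix.det_updateCol_smul, ← sum_coe_sort (T ∪ A) (mvE g A)]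
  congr 2
  · rw [ZB1, pdB]
    congr 1
    refine Matrix.ext fun i j => ?_
    rcases j with j | j
    · by_cases hj : (j : ι) = r0
      · have hj' : Sum.inl j = (Sum.inl ⟨r0, hr'⟩ : ↥(T ∪ A) ⊕ Unit) :=
          congrArg Sum.inl (Subtype.ext hj)
        rw [hj', Matrix.updateCol_self]
        rcases i with i | i
        · show C (c i) = if r0 = r0 then C (c i) else _
          rw [if_pos rfl]
        · show (0 : MvPolynomial ι R) = if r0 = r0 then 0 else _
          rw [if_pos rfl]
      · have hj' : Sum.inl j ≠ (Sum.inl ⟨r0, hr'⟩ : ↥(T ∪ A) ⊕ Unit) :=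
          fun h => hj (congrArg Subtype.val (Sum.inl.inj h))
        rw [Matrix.updateCol_ne hj']
        rcases i with i | i
        · show NMf s κ T A i j = if (j : ι) = r0 then _ else _
          rw [if_neg hj]
        · show mvE g A j = if (j : ι) = r0 then _ else _
          rw [if_neg hj]
    · rw [Matrix.updateCol_ne (by simp)]
      rcases i with i | i <;> rfl
  · rw [HEr, pdt]
    congr 1
    refine Matrix.ext fun i j => ?_
    rw [Matrix.updateCol_apply, Matrix.of_apply, Matrix.of_apply]
    by_cases hj : (j : ι) = r0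
    · rw [if_pos hj, if_pos (Subtype.ext hj)]
    · rw [if_neg hj, if_neg fun h => hj (congrArg Subtype.val h)]

/-- **The sum over the subsets of `V`**, the bordered determinant with the column `r0` replaced. -/
theorem ZB1_final [Nontrivial R] (s : ι → ι → R) (κ c f g τ : ι → R) {T V : Finset ι}
    (hTV : Disjoint T V) {r0 : ι} (hr : r0 ∈ T) (hu : ∀ b ∈ V, κ b + ∑ p ∈ T, s b p = 0) :
    ∑ A ∈ V.powerset, cf (ZB1 s κ c f g r0 T A) A * pdt (blkL s τ V) (V \ A) =
      pdB (fun i j => if j = r0 then c i else blkM s κ τ T V i j) f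
        (fun j => if j = r0 then 0 else g j) 0 (T ∪ V) := by
  have hne : ∀ b ∈ V, b ≠ r0 := fun b hb h => disjoint_left.1 hTV hr (h ▸ hb)
  refine pdB_final s τ hTV (fun i j => if j = r0 then c i else BB s κ T i j) f
    (fun j => if j = r0 then 0 else g j) 0 (d := fun A i => if i = r0 then 0 else lf s A i)
    (fun A _ y _ => ?_) (fun A hA b hb => if_neg (hne b (hA hb))) (fun A hA => ?_) ?_ ?_
  · show cf (if y = r0 then 0 else lf s A y) ∅ = 0
    split_ifs
    · exact cf_zero _
    · exact LD_lf s A y ∅ (by simp)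
  · have hTA : Disjoint T A := disjoint_of_subset_right hA hTV
    rw [ZB1]
    refine pdB_congr (fun i hi j _ => ?_) (fun _ _ => rfl) (fun j _ => ?_) C_0.symm
    · show (if j = r0 then _ else _) = C (if j = r0 then _ else _) * _ +
        if i = j then (if i = r0 then _ else _) else _
      by_cases hj : j = r0
      · have hjA : j ∉ A := fun h => hne j (hA h) hj
        rw [if_pos hj, if_pos hj, if_neg hjA, mul_one]
        by_cases hij : i = j
        · rw [if_pos hij, if_pos (hij.trans hj), add_zero]
        · rw [if_neg hij, add_zero]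
      · rw [if_neg hj, if_neg hj, NMf_eq s κ hTA (fun b hb => hu b (hA hb)) hi]
        by_cases hij : i = j
        · rw [if_pos hij, if_pos hij, if_neg fun h => hj (hij ▸ h)]
        · rw [if_neg hij, if_neg hij]
    · show (if j = r0 then _ else _) = C (if j = r0 then _ else _) * _
      by_cases hj : j = r0
      · rw [if_pos hj, if_pos hj, C_0, zero_mul]
      · rw [if_neg hj, if_neg hj, mvE]
        split_ifs
        · rw [mul_comm]
        · rw [mul_one]
  · intro i hi j _ h
    show (if j = r0 then _ else _) = if j = r0 then _ else _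
    by_cases hj : j = r0
    · rw [if_pos hj, if_pos hj]
    · rw [if_neg hj, if_neg hj, blkM, BB]
      by_cases hij : i = j
      · have hiT : i ∈ T := h.resolve_left fun h' => h' hij
        rw [if_pos hij, if_pos hij, if_pos hiT, if_pos hiT]
      · rw [if_neg hij, if_neg hij]
  · intro b hb
    have hbT : b ∉ T := fun h => disjoint_left.1 hTV h hb
    show (if b = r0 then _ else _) = (if b = r0 then _ else _) + _
    rw [if_neg (hne b hb), if_neg (hne b hb), blkM, BB, if_pos rfl, if_pos rfl, if_neg hbT,
      if_neg hbT, zero_add]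

/-! ### The steps -/

/-- a column which is zero outside the diagonal -/
theorem pdt_colz (M : ι → ι → R) {S : Finset ι} {r : ι} (hr : r ∈ S)
    (h : ∀ i ∈ S, i ≠ r → M i r = 0) : pdt M S = M r r * pdt M (S.erase r) := by
  let M' : ι → ι → R := fun i j => if i = r ∧ j = r then 0 else M i j
  have h1 := pdt_update M' hr (M r r)
  have h2 : pdt (fun i j => M' i j + if i = r ∧ j = r then M r r else 0) S = pdt M S := by
    refine pdt_congr fun i _ j _ => ?_
    show (if i = r ∧ j = r then 0 else M i j) + _ = _
    by_cases hij : i = r ∧ j = r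
    · rw [if_pos hij, if_pos hij, zero_add, hij.1, hij.2]
    · rw [if_neg hij, if_neg hij, add_zero]
  have h3 : pdt M' S = 0 := by
    refine Matrix.det_eq_zero_of_column_eq_zero ⟨r, hr⟩ fun i => ?_
    show (if (i : ι) = r ∧ r = r then 0 else M i r) = 0
    by_cases hi : (i : ι) = r
    · rw [if_pos ⟨hi, rfl⟩]
    · rw [if_neg fun h' => hi h'.1, h i i.2 hi]
  have h4 : pdt M' (S.erase r) = pdt M (S.erase r) := pdt_congr fun i hi j _ =>
    if_neg fun h' => ne_of_mem_erase hi h'.1
  rw [← h2, h1, h3, h4, zero_add]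

theorem z1_NMf (s : ι → ι → R) (κ : ι → R) {T A : Finset ι} (hTA : Disjoint T A) {b : ι}
    (hb : b ∈ A) {i j : ι} (hj : j ≠ b) :
    z1 b (NMf s κ T A i j) = NMf s κ T (A.erase b) i j := by
  have e0 := erase_union_right hTA hb
  rw [NMf, NMf]
  by_cases hij : i = j
  · subst hij
    rw [if_pos rfl, if_pos rfl, map_add, z1_C, map_sum]
    congr 1
    have hbi : b ∈ (T ∪ A).erase i := mem_erase.2 ⟨Ne.symm hj, mem_union_right _ hb⟩
    rw [← add_sum_erase _ _ hbi, z1_mwE, if_pos ⟨rfl, hb⟩, zero_add, erase_right_comm, e0]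
    exact sum_congr rfl fun p hp => z1_mwE_of s A fun h => by
      rw [h, ← e0] at hp
      exact notMem_erase b _ (mem_of_mem_erase hp)
  · rw [if_neg hij, if_neg hij, map_neg, z1_mwE_of s A hj]

/-- **The step** for the determinant with the column `r0` replaced. -/
theorem HEr_step (s : ι → ι → R) (κ v : ι → R) {T A : Finset ι} (hTA : Disjoint T A) {r0 : ι}
    (hr : r0 ∈ T) {b : ι} (hb : b ∈ A) {E : Finset ι} (hE : b ∉ E) :
    cf (HEr s κ v r0 T A) E = cf (wE s κ T (A.erase b) b * HEr s κ v r0 T (A.erase b)) E := by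
  have e0 := erase_union_right hTA hb
  have hbr : b ≠ r0 := fun h => disjoint_left.1 hTA hr (h ▸ hb)
  have h1 : z1 b (HEr s κ v r0 T A) = wE s κ T (A.erase b) b * HEr s κ v r0 T (A.erase b) := by
    rw [HEr, ← pdt_map (z1 b), pdt_colz _ (mem_union_right T hb) (fun i _ hib => ?_), e0, HEr]
    · congr 1
      · rw [if_neg hbr, wE_eq s κ (disjoint_of_subset_right (erase_subset _ _) hTA), NMf,
          if_pos rfl, map_add, z1_C, map_sum, e0]
        congr 1
        exact sum_congr rfl fun p hp => z1_mwE_of s A fun h => by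
          rw [h, ← e0] at hp
          exact notMem_erase b _ hp
      · refine pdt_congr fun i _ j hj => ?_
        have hjb : j ≠ b := fun h => by
          rw [h, ← e0] at hj
          exact notMem_erase b _ hj
        by_cases hj0 : j = r0
        · rw [if_pos hj0, if_pos hj0, z1_C]
        · rw [if_neg hj0, if_neg hj0, z1_NMf s κ hTA hb hjb]
    · rw [if_neg hbr, NMf, if_neg hib, map_neg, z1_mwE, if_pos ⟨rfl, hb⟩, neg_zero]
  rw [← cf_z1 b _ hE, h1]

/-- the column `r0` replaced, row sums zero -/
theorem HEr_CE (s : ι → ι → R) (v : ι → R) {T A : Finset ι} {r0 : ι} (hr : r0 ∈ T) :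
    HEr s 0 v r0 T A = CE s v T A := by
  rw [CE, CZ_pdt _ _ (mem_union_left A hr), HEr]
  refine pdt_congr fun i _ j _ => ?_
  by_cases hj : j = r0
  · rw [if_pos hj, if_pos hj]
  · rw [if_neg hj, if_neg hj, NMf, Pi.zero_apply, C_0, zero_add]

end Pool.Agent.Lib.MP_1a91b9_ntQ
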