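import Pool.Agent.Lib.MP_1a91b9_ntQ.B.DuB
import Pool.Agent.Lib.MP_1a91b9_ntQ.B.DuE

/-!
# Quartic twists, all fourth-power-free `D`, file DuF: the algebra over `(ZMod 2)[X]`
-/

set_option autoImplicit false
set_option linter.unusedSectionVars false

namespace Pool.Agent.Lib.MP_1a91b9_ntQ

open Finset MvPolynomial
open Pool.Agent.Lib.MP_1a91b9_ntK (NM NM_congr NM_empty NM_adj NM_update NM_zero forest
  CZ CZ_eq forest_zero)

noncomputable section

variable {ι : Type*} [DecidableEq ι] {R : Type*} [CommRing R]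

/-! ### Rings of characteristic two -/

theorem mv_two (h2 : ∀ y : R, y + y = 0) (z : MvPolynomial ι R) : z + z = 0 := by
  have h1 : (C ((1 : R) + 1) : MvPolynomial ι R) = 0 := by rw [h2, C_0]
  rw [C_add, C_1] at h1
  have h3 : z + z = (1 + 1) * z := by ring
  rw [h3, h1, zero_mul]

theorem neg_two {S : Type*} [CommRing S] (h2 : ∀ y : S, y + y = 0) (z : S) : -z = z := by
  linear_combination -(h2 z)

theorem zm_two (z : ZMod 2) : z + z = 0 := by
  revert z
  decide

theorem poly_two (y : Polynomial (ZMod 2)) : y + y = 0 := by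
  ext n
  rw [Polynomial.coeff_add, Polynomial.coeff_zero]
  have : ∀ z : ZMod 2, z + z = 0 := by decide
  exact this _

/-- **(R2)**, characteristic two -/
theorem GE_sumR [Nontrivial R] (h2 : ∀ y : R, y + y = 0) (s : ι → ι → R) (κ g f : ι → R) (x : R)
    {T A : Finset ι} (hTA : Disjoint T A) (h0 : (T ∪ A).Nonempty) :
    ∑ T' ∈ T.powerset, cf (GE s κ g f x T' A * ∏ y ∈ T \ T', wE s κ T' A y) A =
      ∑ i ∈ T ∪ A, g i * Ham s f (T ∪ A) i := by
  have h9 : ∀ z : MvPolynomial ι R, -z = z := neg_two (mv_two h2)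
  have hneg : (-1 : MvPolynomial ι R) = 1 := h9 1
  have h1 := forest_FB2 (mwE s A) (fun i => C (f i)) (mvE g A) (C x) (fun i => C (κ i)) h0
  rw [sum_Ham_mwE s g f subset_union_right] at h1
  have h2 := congrArg (fun p => cf p A) h1
  simp only [hneg, one_pow, one_mul, h9, cf_sum, cf_prodX, subset_refl, if_true,
    Finset.sdiff_self] at h2
  rw [cf_C, if_pos rfl, sum_super hTA] at h2
  · rw [← h2]
    refine sum_congr rfl fun T' hT' => ?_
    have hT'A := disjoint_of_subset_left (mem_powerset.1 hT') hTA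
    rw [union_sdiff_union hTA, GE]
    congr 2
    exact prod_congr rfl fun y _ => wE_eq s κ hT'A y
  · intro S' _ hA
    rw [cf_supported (A := A ∩ S')]
    · refine Subalgebra.mul_mem _ (FB_mem _ _ _ _ _ _ _ (fun x _ p hp => mwE_mem s A (A ∩ S')
        fun h => mem_inter.2 ⟨h, hp⟩) (fun x _ => Subalgebra.algebraMap_mem _ _)
        (fun x _ => Subalgebra.algebraMap_mem _ _) (fun i hi => ?_)
        (Subalgebra.algebraMap_mem _ _)) (term_mem s A _ S' fun x => Subalgebra.algebraMap_mem _ _)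
      rw [mvE]
      split_ifs with h
      · exact Subalgebra.mul_mem _ (X_mem_supported.2 (mem_coe.2 (mem_inter.2 ⟨h, hi⟩)))
          (Subalgebra.algebraMap_mem _ _)
      · exact Subalgebra.algebraMap_mem _ _
    · exact fun h => hA fun x hx => (mem_inter.1 (h hx)).2

/-! ### Path sums -/

theorem Ham_map {R' : Type*} [CommRing R'] (φ : R →+* R') (m : ι → ι → R) (f : ι → R)
    (S : Finset ι) : ∀ i ∈ S, φ (Ham m f S i) =
      Ham (fun x p => φ (m x p)) (fun j => φ (f j)) S i := by
  induction S using Finset.strongInduction with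
  | H S ih =>
    intro i hi
    rw [Ham_rec m f hi, Ham_rec _ _ hi, map_add, map_sum]
    congr 1
    · split_ifs
      · rfl
      · rw [map_zero]
    · exact sum_congr rfl fun j hj => by rw [map_mul, ih (S.erase i) (erase_ssubset hi) j hj]

theorem Ham_lin (m : ι → ι → R) (f f' : ι → R) (y : R) (S : Finset ι) : ∀ i ∈ S,
    Ham m (fun j => f j + y * f' j) S i = Ham m f S i + y * Ham m f' S i := by
  induction S using Finset.strongInduction with
  | H S ih =>
    intro i hi
    rw [Ham_rec _ _ hi, Ham_rec m f hi, Ham_rec m f' hi,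
      sum_congr rfl fun j hj => by rw [ih (S.erase i) (erase_ssubset hi) j hj, mul_add],
      sum_add_distrib, mul_add, mul_sum,
      sum_congr rfl fun j (_ : j ∈ S.erase i) => mul_left_comm y (m i j) (Ham m f' (S.erase i) j)]
    split_ifs
    · ring
    · ring

theorem Ham_kH (s : ι → ι → ZMod 2) (κ c : ι → ZMod 2) {S : Finset ι} {i : ι} (hi : i ∈ S) :
    Ham (sH s) (kH κ c) S i =
      Polynomial.C (Ham s κ S i) + Polynomial.X * Polynomial.C (Ham s c S i) := by
  have h1 := Ham_lin (sH s) (cH κ) (cH c) Polynomial.X S i hi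
  have h2 : (fun j => cH κ j + Polynomial.X * cH c j) = kH κ c := rfl
  rw [h2] at h1
  rw [h1, Ham_map Polynomial.C s κ S i hi, Ham_map Polynomial.C s c S i hi]
  rfl

theorem Ham_cH (s : ι → ι → ZMod 2) (f : ι → ZMod 2) {S : Finset ι} {i : ι} (hi : i ∈ S) :
    Ham (sH s) (cH f) S i = Polynomial.C (Ham s f S i) := by
  rw [Ham_map Polynomial.C s f S i hi]
  rfl

theorem coeff_C_mul' (a : ZMod 2) (r : Polynomial (ZMod 2)) (n : ℕ) :
    (Polynomial.C a * r).coeff n = a * r.coeff n := Polynomial.coeff_C_mul _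

/-- the coefficient `1` of the path sum, the target with a second order part -/
theorem sum_Ham_kH (s : ι → ι → ZMod 2) (κ c g : ι → ZMod 2) (S : Finset ι) :
    (∑ i ∈ S, cH g i * Ham (sH s) (kH κ c) S i).coeff 1 = ∑ i ∈ S, g i * Ham s c S i := by
  rw [Polynomial.finset_sum_coeff]
  refine sum_congr rfl fun i hi => ?_
  rw [cH, coeff_C_mul', Ham_kH s κ c hi, Polynomial.coeff_add,
    Polynomial.coeff_C_ne_zero one_ne_zero, Polynomial.mul_coeff_one, Polynomial.coeff_X_zero,
    Polynomial.coeff_X_one, zero_mul, Polynomial.coeff_C_zero, one_mul, zero_add, zero_add]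

theorem sum_Ham_cH (s : ι → ι → ZMod 2) (f g : ι → ZMod 2) (S : Finset ι) :
    (∑ i ∈ S, cH g i * Ham (sH s) (cH f) S i).coeff 1 = 0 := by
  rw [Polynomial.finset_sum_coeff]
  refine sum_eq_zero fun i hi => ?_
  rw [cH, coeff_C_mul', Ham_cH s f hi, Polynomial.coeff_C_ne_zero one_ne_zero, mul_zero]

/-! ### Coefficients -/

theorem cf_map {R' : Type*} [CommRing R'] (φ : R →+* R') (P : MvPolynomial ι R) (E : Finset ι) :
    cf (MvPolynomial.map φ P) E = φ (cf P E) := by
  rw [cf, cf, coeff_map]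

/-- the constant coefficient -/
def phc : Polynomial (ZMod 2) →+* ZMod 2 := Polynomial.constantCoeff

theorem phc_apply (r : Polynomial (ZMod 2)) : phc r = r.coeff 0 := Polynomial.constantCoeff_apply r

theorem phc_C (a : ZMod 2) : phc (Polynomial.C a) = a := by
  rw [phc_apply, Polynomial.coeff_C_zero]

theorem phc_kH (κ c : ι → ZMod 2) (i : ι) : phc (kH κ c i) = κ i := by
  rw [phc_apply, kH_coeff0]

theorem phc_sH (s : ι → ι → ZMod 2) (i j : ι) : phc (sH s i j) = s i j := phc_C _

theorem phc_cH (f : ι → ZMod 2) (i : ι) : phc (cH f i) = f i := phc_C _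

theorem map_mwE {R' : Type*} [CommRing R'] (φ : R →+* R') (s : ι → ι → R) (A : Finset ι) (x p : ι) :
    MvPolynomial.map φ (mwE s A x p) = mwE (fun i j => φ (s i j)) A x p := by
  rw [mwE, mwE]
  split_ifs
  · rw [map_mul, map_X, map_C]
  · rw [map_C]

theorem map_mvE {R' : Type*} [CommRing R'] (φ : R →+* R') (g : ι → R) (A : Finset ι) (i : ι) :
    MvPolynomial.map φ (mvE g A i) = mvE (fun i => φ (g i)) A i := by
  rw [mvE, mvE]
  split_ifs
  · rw [map_mul, map_X, map_C]
  · rw [map_C]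

theorem map_wE {R' : Type*} [CommRing R'] (φ : R →+* R') (s : ι → ι → R) (κ : ι → R)
    (T A : Finset ι) (x : ι) : MvPolynomial.map φ (wE s κ T A x) =
      wE (fun i j => φ (s i j)) (fun i => φ (κ i)) T A x := by
  rw [wE, wE, map_add, map_C, map_add, map_sum, map_sum]
  congr 1
  exact sum_congr rfl fun b _ => by rw [map_mul, map_X, map_C]

theorem map_GE {R' : Type*} [CommRing R'] (φ : R →+* R') (s : ι → ι → R) (κ g f : ι → R) (x : R)
    (T A : Finset ι) : MvPolynomial.map φ (GE s κ g f x T A) =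
      GE (fun i j => φ (s i j)) (fun i => φ (κ i)) (fun i => φ (g i)) (fun i => φ (f i)) (φ x)
        T A := by
  rw [GE, FB_map, GE]
  exact FB_congr2 (fun _ _ _ _ _ => map_mwE φ s A _ _) (fun _ _ => map_C _ _)
    (fun _ _ => map_C _ _) (fun _ _ => map_mvE φ g A _) (map_C _ _)

theorem map_NMf {R' : Type*} [CommRing R'] (φ : R →+* R') (s : ι → ι → R) (κ : ι → R)
    (T A : Finset ι) (i j : ι) : MvPolynomial.map φ (NMf s κ T A i j) =
      NMf (fun i j => φ (s i j)) (fun i => φ (κ i)) T A i j := by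
  rw [NMf, NMf]
  split_ifs
  · rw [map_add, map_C, map_sum]
    congr 1
    exact sum_congr rfl fun p _ => map_mwE φ s A i p
  · rw [map_neg, map_mwE]

theorem map_HEr {R' : Type*} [CommRing R'] (φ : R →+* R') (s : ι → ι → R) (κ v : ι → R) (r0 : ι)
    (T A : Finset ι) : MvPolynomial.map φ (HEr s κ v r0 T A) =
      HEr (fun i j => φ (s i j)) (fun i => φ (κ i)) (fun i => φ (v i)) r0 T A := by
  rw [HEr, ← pdt_map, HEr]
  refine pdt_congr fun i _ j _ => ?_
  by_cases hj : j = r0
  · rw [if_pos hj, if_pos hj, map_C]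
  · rw [if_neg hj, if_neg hj, map_NMf]

theorem map_DE {R' : Type*} [CommRing R'] (φ : R →+* R') (s : ι → ι → R) (κ : ι → R)
    (T A : Finset ι) : MvPolynomial.map φ (DE s κ T A) =
      DE (fun i j => φ (s i j)) (fun i => φ (κ i)) T A := by
  rw [DE, NM_map, DE]
  congr 1
  exact NM_congr2 (fun _ _ _ _ _ => map_mwE φ s A _ _) fun _ _ => map_C _ _

theorem map_ZB1 {R' : Type*} [CommRing R'] (φ : R →+* R') (s : ι → ι → R) (κ c f g : ι → R)
    (r0 : ι) (T A : Finset ι) : MvPolynomial.map φ (ZB1 s κ c f g r0 T A) =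
      ZB1 (fun i j => φ (s i j)) (fun i => φ (κ i)) (fun i => φ (c i)) (fun i => φ (f i))
        (fun i => φ (g i)) r0 T A := by
  have h1 : ∀ (M : ι → ι → MvPolynomial ι R) (b c : ι → MvPolynomial ι R) (k : MvPolynomial ι R)
      (S : Finset ι), MvPolynomial.map φ (pdB M b c k S) = pdB (fun i j => MvPolynomial.map φ (M i j))
        (fun i => MvPolynomial.map φ (b i)) (fun i => MvPolynomial.map φ (c i))
        (MvPolynomial.map φ k) S := by
    intro M b c k S
    rw [← pdt_optM M b c k S, ← pdt_map, ← pdt_optM]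
    refine pdt_congr fun i _ j _ => ?_
    rcases i with _ | i <;> rcases j with _ | j <;> rfl
  rw [ZB1, h1, ZB1]
  refine pdB_congr (fun i _ j _ => ?_) (fun _ _ => map_C _ _) (fun j _ => ?_) (map_zero _)
  · by_cases hj : j = r0
    · rw [if_pos hj, if_pos hj, map_C]
    · rw [if_neg hj, if_neg hj, map_NMf]
  · by_cases hj : j = r0
    · rw [if_pos hj, if_pos hj, map_zero]
    · rw [if_neg hj, if_neg hj, map_mvE]

/-- a second order term -/
def liX (Z : MvPolynomial ι (ZMod 2)) : MvPolynomial ι (Polynomial (ZMod 2)) :=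
  C Polynomial.X * MvPolynomial.map Polynomial.C Z

theorem map_phc_C (Z : MvPolynomial ι (ZMod 2)) :
    MvPolynomial.map phc (MvPolynomial.map Polynomial.C Z) = Z := by
  rw [MvPolynomial.map_map]
  have h1 : phc.comp Polynomial.C = RingHom.id (ZMod 2) := RingHom.ext phc_C
  rw [h1, MvPolynomial.map_id]

theorem cf_liX_mul0 (Z : MvPolynomial ι (ZMod 2)) (Q : MvPolynomial ι (Polynomial (ZMod 2)))
    (E : Finset ι) : (cf (liX Z * Q) E).coeff 0 = 0 := by
  rw [liX, mul_assoc, cf_C_mul, Polynomial.mul_coeff_zero, Polynomial.coeff_X_zero, zero_mul]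

theorem cf_liX_mul1 (Z : MvPolynomial ι (ZMod 2)) (Q : MvPolynomial ι (Polynomial (ZMod 2)))
    (E : Finset ι) : (cf (liX Z * Q) E).coeff 1 = cf (Z * MvPolynomial.map phc Q) E := by
  rw [liX, mul_assoc, cf_C_mul, Polynomial.mul_coeff_one, Polynomial.coeff_X_zero, zero_mul,
    zero_add, Polynomial.coeff_X_one, one_mul, ← phc_apply, ← cf_map, map_mul, map_phc_C]

theorem cf_liX0 (Z : MvPolynomial ι (ZMod 2)) (E : Finset ι) : (cf (liX Z) E).coeff 0 = 0 := by
  have h1 := cf_liX_mul0 Z 1 E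
  rwa [mul_one] at h1

theorem cf_liX1 (Z : MvPolynomial ι (ZMod 2)) (E : Finset ι) : (cf (liX Z) E).coeff 1 = cf Z E := by
  have h1 := cf_liX_mul1 Z 1 E
  rwa [mul_one, map_one, mul_one] at h1

theorem map_wE_phc (s : ι → ι → ZMod 2) (κ c : ι → ZMod 2) (T A : Finset ι) (x : ι) :
    MvPolynomial.map phc (wE (sH s) (kH κ c) T A x) = wE s κ T A x := by
  rw [map_wE]
  simp only [phc_sH, phc_kH]

end

end Pool.Agent.Lib.MP_1a91b9_ntQ
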