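import Pool.Agent.Lib.MP_1a91b9_ntQ.B.XsD

/-!
# Quartic twists, all fourth-power-free `D`, file XsE: class (X), `k = 0`, the residues of `D = M - UxY`

`Z T A` is the family of the residue polynomials.
-/

set_option autoImplicit false
set_option linter.unusedSectionVars false

namespace Pool.Agent.Lib.MP_1a91b9_ntQ

open Finset MvPolynomial
open Pool.Agent.Lib.MP_1a91b9_ntK (NM NM_congr NM_empty NM_adj NM_update NM_zero forest
  CZ CZ_eq forest_zero)

noncomputable section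

variable {ι : Type*} [DecidableEq ι]

section
variable {B : ValuationSubring ℂ} {l K : ℂ} {La : Finset ι → Finset ι → ℂ} {e : ι → ℂ}
  {x : Finset ι → ι → ℂ} {s : ι → ι → ZMod 2} {κ : ι → ZMod 2} {S0 B0 : Finset ι}

/-- the case `E = C`, the sum over the nonempty subsets -/
theorem SyB.topT (h : SyB B l K La e x s κ S0 B0) {n : ℕ} {P : Finset ι → MvPolynomial ι (ZMod 2)}
    {T A : Finset ι} (hT : T ⊆ S0) (hT0 : T.Nonempty)
    (ih : ∀ T' ⊆ T, T'.Nonempty → T' ≠ T → RB B (2 / l) A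
      (fun A' => lvB La e x s T' A A' / (K * l ^ (T'.card + A.card + n))) (P T'))
    {R : ZMod 2}
    (hP : ∑ T' ∈ T.powerset.erase ∅, cf (P T' * ∏ b ∈ T \ T', wE s κ T' A b) A = R)
    (hid : Rt B (∑ T' ∈ T.powerset.erase ∅, (-1) ^ T'.card *
      (mo (gcB l K La e x s n T A T') A / (2 / l) ^ A.card)) R) :
    Rt B (mo (fun A' => lvB La e x s T A A' / (K * l ^ (T.card + A.card + n))) A /
      (2 / l) ^ A.card) (cf (P T) A) := by
  have hm : T ∈ T.powerset.erase ∅ := mem_erase.2 ⟨hT0.ne_empty, mem_powerset_self T⟩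
  have hsT : ((-1 : ℂ) ^ T.card) * (-1) ^ T.card = 1 := by
    rw [← mul_pow]
    simp
  have h1 : Rt B (∑ T' ∈ (T.powerset.erase ∅).erase T, (-1) ^ T'.card *
      (mo (gcB l K La e x s n T A T') A / (2 / l) ^ A.card))
      (∑ T' ∈ (T.powerset.erase ∅).erase T, cf (P T' * ∏ b ∈ T \ T', wE s κ T' A b) A) := by
    refine Rt.sum h.hB _ fun T' hT' => ?_
    rw [mem_erase, mem_erase, mem_powerset] at hT'
    have h2 := (Rt_sgn' h.hB T'.card).mul h.hB (h.rbG hT hT'.2.2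
      (ih T' hT'.2.2 (nonempty_iff_ne_empty.2 hT'.2.1) hT'.1) A subset_rfl)
    rwa [one_mul] at h2
  have h3 := hid
  rw [← add_sum_erase _ _ hm] at h3
  have h5 := (Rt_sgn' h.hB T.card).mul h.hB (h3.sub h.hB h1)
  rw [add_sub_cancel_right, ← mul_assoc, hsT, one_mul, one_mul] at h5
  have h6 : mo (gcB l K La e x s n T A T) A =
      mo (fun A' => lvB La e x s T A A' / (K * l ^ (T.card + A.card + n))) A := by
    refine mo_congr fun A' _ => ?_
    rw [gcB, Finset.sdiff_self, prod_empty, mul_one]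
  rw [h6] at h5
  rw [← add_sum_erase _ _ hm, Finset.sdiff_self, prod_empty, mul_one] at hP
  rw [← hP, add_sub_cancel_right] at h5
  exact h5

/-- **The residues of the levels of the nonempty sets.** -/
theorem SyB.claimT (h : SyB B l K La e x s κ S0 B0) {n : ℕ}
    {P : Finset ι → Finset ι → MvPolynomial ι (ZMod 2)} {R : Finset ι → Finset ι → ZMod 2}
    (hP1 : ∀ T ⊆ S0, T.Nonempty → ∀ A ⊆ B0, ∀ b ∈ A, ∀ E : Finset ι, b ∉ E →
      cf (P T A) E = cf (wE s κ T (A.erase b) b * P T (A.erase b)) E)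
    (hP2 : ∀ T ⊆ S0, T.Nonempty → ∀ A ⊆ B0,
      ∑ T' ∈ T.powerset.erase ∅, cf (P T' A * ∏ b ∈ T \ T', wE s κ T' A b) A = R T A)
    (hid : ∀ T ⊆ S0, T.Nonempty → ∀ A ⊆ B0, Rt B (∑ T' ∈ T.powerset.erase ∅, (-1) ^ T'.card *
      (mo (gcB l K La e x s n T A T') A / (2 / l) ^ A.card)) (R T A)) :
    ∀ m : ℕ, ∀ T ⊆ S0, T.Nonempty → ∀ A ⊆ B0, T.card + A.card = m → RB B (2 / l) A
      (fun A' => lvB La e x s T A A' / (K * l ^ (T.card + A.card + n))) (P T A) := by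
  intro m
  induction m using Nat.strong_induction_on with
  | _ m ih =>
  intro T hT hT0 A hA hm E hE
  by_cases hEA : E = A
  · subst hEA
    refine h.topT hT hT0 (P := fun T' => P T' E) ?_ (hP2 T hT hT0 E hA) (hid T hT hT0 E hA)
    intro T' hT' hT'0 hne
    refine ih (T'.card + E.card) ?_ T' (hT'.trans hT) hT'0 E hA rfl
    have := card_lt_card (Finset.ssubset_iff_subset_ne.2 ⟨hT', hne⟩)
    omega
  · obtain ⟨b, hb, hbE⟩ := exists_of_ssubset (Finset.ssubset_iff_subset_ne.2 ⟨hE, hEA⟩)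
    refine h.step hT hA hb hE hbE (ih (T.card + (A.erase b).card) ?_ T hT hT0 (A.erase b)
      ((erase_subset _ _).trans hA) rfl) (hP1 T hT hT0 A hA b hb E hbE)
    have := card_erase_add_one hb
    omega

end

section
variable {B : ValuationSubring ℂ} {l : ℂ} {M Y : Finset ι → Finset ι → ℂ} {e eX : ι → ℂ}
  {x xX : Finset ι → ι → ℂ} {Ef ch : Finset ι → ℂ} {sg : ι → ℂ} {s : ι → ι → ZMod 2}
  {a s0 bb lb : ι → ZMod 2} {h : ZMod 2} {S0 B0 : Finset ι}

/-- the right side of the system of `D` -/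
def RX0 (s : ι → ι → ZMod 2) (a s0 bb lb : ι → ZMod 2) (h : ZMod 2) (T A : Finset ι) : ZMod 2 :=
  zeX s a s0 h T A + ∑ T' ∈ T.powerset.erase ∅, cf (DB0 s a s0 bb lb h T' A (T \ T')) A

theorem gcB_sub (l : ℂ) (La La' : Finset ι → Finset ι → ℂ) (e : ι → ℂ) (x : Finset ι → ι → ℂ)
    (s : ι → ι → ZMod 2) (n : ℕ) (T A T' A' : Finset ι) :
    gcB l 1 (fun T A => La T A - La' T A) e x s n T A T' A' =
      gcB l 1 La e x s n T A T' A' - gcB l 1 La' e x s n T A T' A' := by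
  simp only [gcB, lvB]
  ring

/-- **The system of `D = M - UxY`.** -/
theorem SyX.idT (H : SyX B l M Y e eX x xX Ef ch sg s a s0 bb lb h S0 B0) {T A : Finset ι}
    (hT : T ⊆ S0) (hT0 : T.Nonempty) (hA : A ⊆ B0) :
    Rt B (∑ T' ∈ T.powerset.erase ∅, (-1) ^ T'.card *
      (mo (gcB l 1 (fun T A => M T A - UxY l Y Ef ch lb T A) e x s 5 T A T') A /
        (2 / l) ^ A.card)) (RX0 s a s0 bb lb h T A) := by
  have hB := H.hX.hB
  have hl0 := H.hX.hl0
  -- the difference of the total identities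
  let gM : Finset ι → ℂ := fun T' => mo (gcB l 1 M e x s 5 T A T') A / (2 / l) ^ A.card
  let gX : Finset ι → ℂ := fun T' =>
    mo (gcB l 1 (UxY l Y Ef ch lb) eX xX s 5 T A T') A / (2 / l) ^ A.card
  let gU : Finset ι → ℂ := fun T' =>
    mo (gcB l 1 (UxY l Y Ef ch lb) e x s 5 T A T') A / (2 / l) ^ A.card
  have h1 : Rt B (∑ T' ∈ T.powerset, (-1) ^ T'.card * (gM T' - gX T')) 0 := by
    have h2 := H.idD T hT hT0 A hA
    rw [idB_eq H.hM 5 hT hA, idB_eq (H.hX.of 1 (UxY l Y Ef ch lb)) 5 hT hA, ← mul_sub,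
      ← sum_sub_distrib] at h2
    have h3 := H.unitC A.card
    have h4 := Rt.mul_zero_right h3 h2
    have hu0 : ((2 : ℂ) / l ^ 2) ^ A.card ≠ 0 :=
      pow_ne_zero _ (div_ne_zero two_ne_zero (pow_ne_zero _ hl0))
    have hs : ((-1 : ℂ) ^ A.card) * (-1) ^ A.card = 1 := by
      rw [← mul_pow]
      simp
    have e1 : (-1) ^ A.card * ((2 / l ^ 2) ^ A.card)⁻¹ * ((-1) ^ A.card * (2 / l ^ 2) ^ A.card *
        ∑ T' ∈ T.powerset, ((-1) ^ T'.card * gM T' - (-1) ^ T'.card * gX T')) =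
        ∑ T' ∈ T.powerset, (-1) ^ T'.card * (gM T' - gX T') := by
      calc _ = ((-1 : ℂ) ^ A.card * (-1) ^ A.card) *
          (((2 / l ^ 2) ^ A.card)⁻¹ * (2 / l ^ 2) ^ A.card) *
          ∑ T' ∈ T.powerset, ((-1) ^ T'.card * gM T' - (-1) ^ T'.card * gX T') := by ring
        _ = _ := by
          rw [hs, inv_mul_cancel₀ hu0, one_mul, one_mul]
          exact sum_congr rfl fun T' _ => by ring
    rw [← e1]
    exact h4
  rw [← add_sum_erase _ _ (empty_mem_powerset T), card_empty, pow_zero, one_mul] at h1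
  have h2 := H.sec hT hT0 hA
  change Rt B (gM ∅ - gX ∅) _ at h2
  -- the change of the weights
  have h3 : Rt B (∑ T' ∈ T.powerset.erase ∅, (-1) ^ T'.card * (gX T' - gU T'))
      (∑ T' ∈ T.powerset.erase ∅, cf (DB0 s a s0 bb lb h T' A (T \ T')) A) := by
    refine Rt.sum hB _ fun T' hT' => ?_
    rw [mem_erase, mem_powerset] at hT'
    have h4 := (Rt_sgn' hB T'.card).mul hB
      (H.gdiff hT hT'.2 (nonempty_iff_ne_empty.2 hT'.1) hA A subset_rfl)
    rw [one_mul, mo_sub, sub_div] at h4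
    exact h4
  have h4 := (h1.sub hB h2).add hB h3
  have h5 : ∀ y z : ZMod 2, 0 - y + z = y + z := by decide
  rw [h5, add_sub_cancel_left, ← sum_add_distrib] at h4
  rw [RX0]
  convert h4 using 1
  refine sum_congr rfl fun T' _ => ?_
  have h6 : mo (gcB l 1 (fun T A => M T A - UxY l Y Ef ch lb T A) e x s 5 T A T') A =
      mo (gcB l 1 M e x s 5 T A T') A - mo (gcB l 1 (UxY l Y Ef ch lb) e x s 5 T A T') A := by
    rw [← mo_sub]
    exact mo_congr fun A' _ => gcB_sub l M _ e x s 5 T A T' A'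
  rw [h6]
  show _ = (-1) ^ T'.card * (mo (gcB l 1 M e x s 5 T A T') A / (2 / l) ^ A.card - gX T') +
    (-1) ^ T'.card * (gX T' -
      mo (gcB l 1 (UxY l Y Ef ch lb) e x s 5 T A T') A / (2 / l) ^ A.card)
  ring

/-- **The residues of `D`.** -/
theorem SyX.rbD (H : SyX B l M Y e eX x xX Ef ch sg s a s0 bb lb h S0 B0)
    {P : Finset ι → Finset ι → MvPolynomial ι (ZMod 2)}
    (hP1 : ∀ T ⊆ S0, T.Nonempty → ∀ A ⊆ B0, ∀ b ∈ A, ∀ E : Finset ι, b ∉ E →
      cf (P T A) E = cf (wE s 0 T (A.erase b) b * P T (A.erase b)) E)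
    (hP2 : ∀ T ⊆ S0, T.Nonempty → ∀ A ⊆ B0, ∑ T' ∈ T.powerset.erase ∅,
      cf (P T' A * ∏ b ∈ T \ T', wE s 0 T' A b) A = RX0 s a s0 bb lb h T A)
    {T A : Finset ι} (hT : T ⊆ S0) (hT0 : T.Nonempty) (hA : A ⊆ B0) :
    RB B (2 / l) A (fun A' => lvB (fun T A => M T A - UxY l Y Ef ch lb T A) e x s T A A' /
      (1 * l ^ (T.card + A.card + 5))) (P T A) :=
  (H.hM.of 1 fun T A => M T A - UxY l Y Ef ch lb T A).claimT hP1 hP2
    (fun _ hT hT0 _ hA => H.idT hT hT0 hA) _ T hT hT0 A hA rfl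

end

end

end Pool.Agent.Lib.MP_1a91b9_ntQ
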