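import Pool.Agent.Lib.MP_1a91b9_ntQ.B.DuF
import Pool.Agent.Lib.MP_1a91b9_ntQ.B.XsE

/-!
# Quartic twists, all fourth-power-free `D`, file DuG: the residue polynomials of the second order classes

`ν` odd: page B2, section 8.2; `ν` even: section 7.5.
-/

set_option autoImplicit false
set_option linter.unusedSectionVars false

namespace Pool.Agent.Lib.MP_1a91b9_ntQ

open Finset MvPolynomial
open Pool.Agent.Lib.MP_1a91b9_ntK (NM NM_congr NM_empty NM_adj NM_update NM_zero forest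
  CZ CZ_eq forest_zero)

noncomputable section

variable {ι : Type*} [DecidableEq ι]

/-! ### The polynomials -/

/-- the polynomials of a pair: a bordered determinant and a second order term -/
def Pg2 (s : ι → ι → ZMod 2) (κ c lb : ι → ZMod 2) (f : ι → Polynomial (ZMod 2))
    (x : Polynomial (ZMod 2)) (Zb : Finset ι → Finset ι → MvPolynomial ι (ZMod 2))
    (T C : Finset ι) : MvPolynomial ι (Polynomial (ZMod 2)) :=
  GE (sH s) (kH κ c) (cH lb) f x T C + liX (Zb T C)

section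
variable (s : ι → ι → ZMod 2) (κ c lb : ι → ZMod 2) (f : ι → Polynomial (ZMod 2))
  (x : Polynomial (ZMod 2)) (Zb : Finset ι → Finset ι → MvPolynomial ι (ZMod 2))

theorem Pg2_step {T C : Finset ι} (hTC : Disjoint T C) {b : ι} (hb : b ∈ C) {E : Finset ι}
    (hE : b ∉ E)
    (hZ : cf (Zb T C) E = cf (wE s κ T (C.erase b) b * Zb T (C.erase b)) E) :
    E2 (cf (Pg2 s κ c lb f x Zb T C) E)
      (cf (wE (sH s) (kH κ c) T (C.erase b) b * Pg2 s κ c lb f x Zb T (C.erase b)) E) := by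
  rw [Pg2, Pg2, mul_add, cf_add, cf_add, GE_step (sH s) (kH κ c) (cH lb) f x hTC hb hE,
    mul_comm _ (liX _)]
  refine ⟨?_, ?_⟩
  · rw [Polynomial.coeff_add, Polynomial.coeff_add, cf_liX0, cf_liX_mul0]
  · rw [Polynomial.coeff_add, Polynomial.coeff_add, cf_liX1, cf_liX_mul1, map_wE_phc, hZ,
      mul_comm (Zb T (C.erase b))]

theorem Pg2_coeff0 (T C E : Finset ι) : (cf (Pg2 s κ c lb f x Zb T C) E).coeff 0 =
    cf (GE s κ lb (fun i => phc (f i)) (phc x) T C) E := by
  rw [Pg2, cf_add, Polynomial.coeff_add, cf_liX0, add_zero, ← phc_apply, ← cf_map, map_GE]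
  simp only [phc_sH, phc_kH, phc_cH]

theorem Pg2_sum (T C : Finset ι) (F : Finset (Finset ι)) :
    (∑ T' ∈ F, cf (Pg2 s κ c lb f x Zb T' C *
      ∏ b ∈ T \ T', wE (sH s) (kH κ c) T' C b) C).coeff 1 =
    (∑ T' ∈ F, cf (GE (sH s) (kH κ c) (cH lb) f x T' C *
      ∏ b ∈ T \ T', wE (sH s) (kH κ c) T' C b) C).coeff 1 +
    ∑ T' ∈ F, cf (Zb T' C * ∏ b ∈ T \ T', wE s κ T' C b) C := by
  rw [Polynomial.finset_sum_coeff, Polynomial.finset_sum_coeff, ← sum_add_distrib]
  refine sum_congr rfl fun T' _ => ?_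
  rw [Pg2, add_mul, cf_add, Polynomial.coeff_add, cf_liX_mul1, map_prod,
    prod_congr rfl fun b (_ : b ∈ T \ T') => map_wE_phc s κ c T' C b]

end

/-! ### The first order -/

theorem KXs_eq (lb : ι → ZMod 2) (h : ZMod 2) {T A : Finset ι} (hTA : Disjoint T A) :
    KXs lb lb h T A = C h + ∑ i ∈ T ∪ A, mvE lb A i := by
  rw [sum_union hTA, KXs, C_add, map_sum, add_assoc]
  congr 2
  · exact sum_congr rfl fun i hi => by rw [mvE, if_neg fun h => disjoint_left.1 hTA hi h]
  · exact sum_congr rfl fun i hi => by rw [mvE, if_pos hi]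

/-- the product of the linear form with the determinant -/
theorem GE_row2 (s : ι → ι → ZMod 2) (κ lb : ι → ZMod 2) (h : ZMod 2) {T A : Finset ι}
    (hTA : Disjoint T A) : GE s κ lb κ h T A = KXs lb lb h T A * DE s κ T A := by
  rw [GE, FB_row, DE, KXs_eq lb h hTA, sub_eq_add_neg, neg_two (mv_two zm_two)]

/-- row sums zero -/
theorem GE_zero2 (s : ι → ι → ZMod 2) (lb f : ι → ZMod 2) {T A : Finset ι}
    (hTA : Disjoint T A) (hT : T.Nonempty) :
    GE s 0 lb f 0 T A = KXs lb lb 0 T A * CE s f T A := by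
  obtain ⟨r0, hr⟩ := hT
  rw [GE_split s 0 (fun _ => 0) lb f 0 (fun i => by rw [mul_zero]; rfl) hr, C_0, zero_mul, zero_sub,
    neg_two (mv_two zm_two), HEr_CE s f hr, KXs_eq lb 0 hTA, C_0, zero_add]

/-! ### `ν` odd -/

/-- the second order term, `ν` odd -/
def ZbO (s : ι → ι → ZMod 2) (κ lb w : ι → ZMod 2) (hD : ZMod 2) (T C : Finset ι) :
    MvPolynomial ι (ZMod 2) :=
  MvPolynomial.C hD * DE s κ T C + GE s κ lb w 0 T C

theorem ZbO_step (s : ι → ι → ZMod 2) (κ lb w : ι → ZMod 2) (hD : ZMod 2) {T C : Finset ι}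
    (hTC : Disjoint T C) {b : ι} (hb : b ∈ C) {E : Finset ι} (hE : b ∉ E) :
    cf (ZbO s κ lb w hD T C) E =
      cf (wE s κ T (C.erase b) b * ZbO s κ lb w hD T (C.erase b)) E := by
  rw [ZbO, ZbO, cf_add, cf_C_mul, DE_step s κ hTC hb hE, GE_step s κ lb w 0 hTC hb hE, mul_add,
    cf_add, mul_left_comm, cf_C_mul]

/-- **The sum over the subsets**, `ν` odd. -/
theorem PO_sum (s : ι → ι → ZMod 2) (κ c lb ra : ι → ZMod 2) (hU hD : ZMod 2) {T C : Finset ι}
    (hTC : Disjoint T C) :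
    (∑ T' ∈ T.powerset, cf (Pg2 s κ c lb (kH κ c) (Polynomial.C hU)
      (ZbO s κ lb (fun j => ra j + c j) hD) T' C *
        ∏ b ∈ T \ T', wE (sH s) (kH κ c) T' C b) C).coeff 1 =
    (if T ∪ C = ∅ then hD else 0) + ∑ i ∈ T ∪ C, lb i * Ham s ra (T ∪ C) i := by
  rw [Pg2_sum]
  by_cases h0 : T ∪ C = ∅
  · obtain ⟨rfl, rfl⟩ := union_eq_empty.1 h0
    rw [if_pos h0, powerset_empty, sum_singleton, sum_singleton, empty_union, sum_empty,
      Finset.sdiff_self, prod_empty, prod_empty, mul_one, mul_one, ZbO, GE_empty, GE_empty,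
      DE_empty, cf_C, if_pos rfl, Polynomial.coeff_C_ne_zero one_ne_zero, mul_one, C_0, add_zero,
      cf_C, if_pos rfl, zero_add, add_zero]
  · have h1 := nonempty_iff_ne_empty.2 h0
    rw [if_neg h0, zero_add, GE_sumR poly_two _ _ _ _ _ hTC h1, sum_Ham_kH]
    have h2 : ∑ T' ∈ T.powerset, cf (ZbO s κ lb (fun j => ra j + c j) hD T' C *
        ∏ b ∈ T \ T', wE s κ T' C b) C =
        ∑ i ∈ T ∪ C, lb i * Ham s (fun j => ra j + c j) (T ∪ C) i := by
      rw [← GE_sum s κ lb (fun j => ra j + c j) 0 hTC h1]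
      have h3 := DE_sum2 s κ hTC h1
      have h4 : ∑ T' ∈ T.powerset, cf (ZbO s κ lb (fun j => ra j + c j) hD T' C *
          ∏ b ∈ T \ T', wE s κ T' C b) C = hD * ∑ T' ∈ T.powerset, cf (DE s κ T' C *
          ∏ b ∈ T \ T', wE s κ T' C b) C + ∑ T' ∈ T.powerset,
            cf (GE s κ lb (fun j => ra j + c j) 0 T' C * ∏ b ∈ T \ T', wE s κ T' C b) C := by
        rw [mul_sum, ← sum_add_distrib]
        refine sum_congr rfl fun T' _ => ?_
        rw [ZbO, add_mul, cf_add, mul_assoc, cf_C_mul]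
      rw [h4, h3, mul_zero, zero_add]
    rw [h2, ← sum_add_distrib]
    refine sum_congr rfl fun i hi => ?_
    have h3 := Ham_lin s (fun j => ra j + c j) c 1 (T ∪ C) i hi
    have h4 : (fun j => ra j + c j + 1 * c j) = ra := by
      funext j
      rw [one_mul, add_assoc, zm_two, add_zero]
    rw [h4, one_mul] at h3
    rw [h3]
    ring

/-! ### `ν` even -/

/-- a determinant whose columns but one have no constant terms -/
theorem LD_pdt {ι' : Type*} [DecidableEq ι'] {R : Type*} [CommRing R]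
    (M : ι' → ι' → MvPolynomial ι R) {S : Finset ι'} {j0 : ι'} (hj0 : j0 ∈ S)
    (h : ∀ i ∈ S, ∀ j ∈ S, j ≠ j0 → LD 1 (M i j)) : LD (S.card - 1) (pdt M S) := by
  intro E hE
  rw [pdt, Matrix.det_apply, cf_sum]
  refine sum_eq_zero fun σ _ => ?_
  have h1 : LD (S.card - 1) (∏ i : S, M (σ i) i) := by
    rw [← mul_prod_erase univ _ (mem_univ (⟨j0, hj0⟩ : S))]
    have h2 : (univ.erase (⟨j0, hj0⟩ : S)).card = S.card - 1 := by
      rw [card_erase_of_mem (mem_univ _), card_univ, Fintype.card_coe]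
    have h3 := (LD.zero_any (M (σ ⟨j0, hj0⟩) j0)).mul
      (LD.prod (univ.erase (⟨j0, hj0⟩ : S)) (P := fun i : S => M (σ i) i) fun i hi =>
        h _ (σ i).2 _ i.2 fun h' => (mem_erase.1 hi).1 (Subtype.ext h'))
    rwa [zero_add, h2] at h3
  rcases Int.units_eq_one_or (Equiv.Perm.sign σ) with h2 | h2
  · rw [h2, one_smul]
    exact h1 E hE
  · rw [h2, Units.neg_smul, one_smul]
    exact h1.neg E hE

/-- no primes of odd exponent: the bordered determinant has no small coefficients -/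
theorem LD_GE (s : ι → ι → ZMod 2) (g f : ι → ZMod 2) (A : Finset ι) :
    LD A.card (GE s 0 g f 0 ∅ A) := by
  rw [GE_pdB, ← pdt_optM, empty_union]
  have h1 := LD_pdt (optM (NMf s 0 ∅ A) (fun i => C (f i)) (mvE g A) (C 0)) (S := insertNone A)
    (j0 := none) none_mem_insertNone ?_
  · rwa [card_insertNone, Nat.add_sub_cancel] at h1
  · have hm : ∀ i, ∀ j ∈ A, LD 1 (mwE s A i j) := fun i j hj => by
      rw [mwE, if_pos hj]
      exact LD.X_mul j _
    rintro (_ | i) hi (_ | j) hj hne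
    · exact absurd rfl hne
    · show LD 1 (mvE g A j)
      rw [mvE, if_pos (some_mem_insertNone.1 hj)]
      exact LD.X_mul j _
    · exact absurd rfl hne
    · show LD 1 (NMf s 0 ∅ A i j)
      rw [NMf]
      split_ifs
      · rw [Pi.zero_apply, C_0, zero_add, empty_union]
        exact LD.sum _ fun p hp => hm i p (mem_of_mem_erase hp)
      · exact (hm i j (some_mem_insertNone.1 hj)).neg

/-- the second order term, `ν` even -/
def ZbE (s : ι → ι → ZMod 2) (lb ra v : ι → ZMod 2) (T C : Finset ι) :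
    MvPolynomial ι (ZMod 2) :=
  GE s 0 lb ra 0 T C + CE s v T C

theorem ZbE_step (s : ι → ι → ZMod 2) (lb ra v : ι → ZMod 2) {T C : Finset ι}
    (hTC : Disjoint T C) (hT : T.Nonempty) {b : ι} (hb : b ∈ C) {E : Finset ι} (hE : b ∉ E) :
    cf (ZbE s lb ra v T C) E =
      cf (wE s 0 T (C.erase b) b * ZbE s lb ra v T (C.erase b)) E := by
  rw [ZbE, ZbE, cf_add, GE_step s 0 lb ra 0 hTC hb hE,
    CE_step s v hTC hb (hT.mono subset_union_left) hE, mul_add, cf_add]

/-- the terms of the empty set -/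
def zev (s : ι → ι → ZMod 2) (v : ι → ZMod 2) (T C : Finset ι) : ZMod 2 :=
  if C = ∅ then (if T.card = 1 then ∑ b ∈ T, v b else 0) else
    cf (CE s v ∅ C * ∏ z ∈ T, wE s 0 ∅ C z) C

theorem filter_nonempty (T : Finset ι) :
    T.powerset.filter (fun T' => T'.Nonempty) = T.powerset.erase ∅ := by
  ext T'
  rw [mem_filter, mem_erase, nonempty_iff_ne_empty]
  tauto

theorem CE_sumE (s : ι → ι → ZMod 2) (v : ι → ZMod 2) {T C : Finset ι} (hTC : Disjoint T C)
    (hT : T.Nonempty) :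
    ∑ T' ∈ T.powerset.erase ∅, cf (CE s v T' C * ∏ b ∈ T \ T', wE s 0 T' C b) C =
      zev s v T C := by
  rw [zev]
  split_ifs with hC
  · subst hC
    rw [CE_sum0 s v hT]
    split_ifs
    rfl
  · subst hC
    rw [CE_sum0 s v hT]
    split_ifs
    rfl
  · have h1 := CE_sum2 s v hTC (nonempty_iff_ne_empty.2 hC)
    rw [← add_sum_erase _ _ (empty_mem_powerset T), sdiff_empty] at h1
    have h2 : ∀ y z : ZMod 2, y + z = 0 → z = y := by decide
    exact h2 _ _ h1

/-- **The sum over the nonempty subsets**, `ν` even. -/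
theorem PE_sum (s : ι → ι → ZMod 2) (c lb ra s0 v : ι → ZMod 2) {T C : Finset ι}
    (hTC : Disjoint T C) (hT : T.Nonempty) (hs0 : ∀ b ∈ C, s0 b = 0) :
    (∑ T' ∈ T.powerset.filter (fun T' => T'.Nonempty), cf (Pg2 s 0 c lb (cH s0) 0
      (ZbE s lb ra v) T' C * ∏ b ∈ T \ T', wE (sH s) (kH 0 c) T' C b) C).coeff 1 =
    ∑ i ∈ T ∪ C, lb i * Ham s ra (T ∪ C) i + zev s v T C := by
  have h0 : (T ∪ C).Nonempty := hT.mono subset_union_left
  rw [Pg2_sum, filter_nonempty]
  -- the bordered determinant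
  have h1 : (∑ T' ∈ T.powerset.erase ∅, cf (GE (sH s) (kH 0 c) (cH lb) (cH s0) 0 T' C *
      ∏ b ∈ T \ T', wE (sH s) (kH 0 c) T' C b) C).coeff 1 = 0 := by
    have h2 := GE_sumR poly_two (sH s) (kH 0 c) (cH lb) (cH s0) 0 hTC h0
    have h3 : GE (sH s) (kH 0 c) (cH lb) (cH s0) 0 ∅ C = 0 := by
      rw [GE, empty_union, FB]
      refine Matrix.det_eq_zero_of_column_eq_zero (Sum.inr ()) fun i => ?_
      rcases i with i | i
      · show (MvPolynomial.C (cH s0 i) : MvPolynomial ι (Polynomial (ZMod 2))) = 0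
        rw [cH, hs0 i i.2, Polynomial.C_0, MvPolynomial.C_0]
      · show (MvPolynomial.C 0 : MvPolynomial ι (Polynomial (ZMod 2))) = 0
        exact MvPolynomial.C_0
    rw [← add_sum_erase _ _ (empty_mem_powerset T), h3, zero_mul, cf_zero, zero_add] at h2
    rw [h2, sum_Ham_cH]
  -- the second order term
  have h2 : ∑ T' ∈ T.powerset.erase ∅, cf (ZbE s lb ra v T' C *
      ∏ b ∈ T \ T', wE s 0 T' C b) C =
      ∑ T' ∈ T.powerset.erase ∅, cf (GE s 0 lb ra 0 T' C * ∏ b ∈ T \ T', wE s 0 T' C b) C +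
      zev s v T C := by
    rw [← CE_sumE s v hTC hT, ← sum_add_distrib]
    exact sum_congr rfl fun T' _ => by rw [ZbE, add_mul, cf_add]
  have h3 : ∑ T' ∈ T.powerset.erase ∅, cf (GE s 0 lb ra 0 T' C *
      ∏ b ∈ T \ T', wE s 0 T' C b) C = ∑ i ∈ T ∪ C, lb i * Ham s ra (T ∪ C) i := by
    rw [← GE_sum s 0 lb ra 0 hTC h0, ← add_sum_erase _ _ (empty_mem_powerset T), sdiff_empty]
    have h4 : LD (C.card + T.card) (GE s 0 lb ra 0 ∅ C * ∏ z ∈ T, wE s 0 ∅ C z) :=
      (LD_GE s lb ra C).mul (LD.prod T fun z _ => LD.of_empty (cf_wE0 s C z))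
    rw [h4 C (by have := hT.card_pos; omega), zero_add]
  rw [h1, h2, h3, zero_add]

end

end Pool.Agent.Lib.MP_1a91b9_ntQ
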