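import Pool.Agent.Lib.MP_1a91b9_ntQ.B.DuG

/-!
# Quartic twists, all fourth-power-free `D`, file DuH: second order classes, the residues of the pairs
-/

set_option autoImplicit false
set_option linter.unusedSectionVars false

namespace Pool.Agent.Lib.MP_1a91b9_ntQ

open Finset MvPolynomial
open Pool.Agent.Lib.MP_1a91b9_ntK (NM NM_congr NM_empty NM_adj NM_update NM_zero forest
  CZ CZ_eq forest_zero)

noncomputable section

variable {ι : Type*} [DecidableEq ι]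

/-! ### `ν` odd -/

section
variable {B : ValuationSubring ℂ} {l : ℂ} {M Y : Finset ι → Finset ι → ℂ} {e eX : ι → ℂ}
  {x xX : Finset ι → ι → ℂ} {Ef ch : Finset ι → ℂ} {cU : ℂ} {s : ι → ι → ZMod 2}
  {κ c lb ra : ι → ZMod 2} {hU hD : ZMod 2} {S0 B0 : Finset ι}

theorem SyDO.dis (H : SyDO B l M Y e eX x xX Ef ch cU s κ c lb ra hU hD S0 B0) {T C : Finset ι}
    (hT : T ⊆ S0) (hC : C ⊆ B0) : Disjoint T C :=
  disjoint_of_subset_left hT (disjoint_of_subset_right hC H.hX.dis)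

/-- the values `Y` -/
theorem SyDO.rbY (H : SyDO B l M Y e eX x xX Ef ch cU s κ c lb ra hU hD S0 B0) {T C : Finset ι}
    (hT : T ⊆ S0) (hC : C ⊆ B0) :
    RB B (2 / l) C (fun A => lvB Y eX xX s T C A / (1 * l ^ (T.card + C.card + 0)))
      (DE s κ T C) :=
  H.hX.claim_odd (by rw [div_one]; exact H.Y0) H.idY _ T hT C hC rfl

/-- the values `UxD` -/
theorem SyDO.rbU' (H : SyDO B l M Y e eX x xX Ef ch cU s κ c lb ra hU hD S0 B0) {T C : Finset ι}
    (hT : T ⊆ S0) (hC : C ⊆ B0) :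
    RB B (2 / l) C (lvN l (UxD cU Y Ef ch lb) eX xX s T C) (GE s κ lb κ hU T C) := by
  rw [GE_row2 s κ lb hU (H.dis hT hC)]
  exact H.toSyD.rbU hT (H.rbY hT hC)

/-- **The classes of the pair**, `ν` odd. -/
theorem SyDO.rb2 (H : SyDO B l M Y e eX x xX Ef ch cU s κ c lb ra hU hD S0 B0) {T C : Finset ι}
    (hT : T ⊆ S0) (hC : C ⊆ B0) :
    RB2 B (2 / l) l C (lvN l (UxD cU Y Ef ch lb) eX xX s T C) (lvN l M e x s T C)
      (Pg2 s κ c lb (kH κ c) (Polynomial.C hU) (ZbO s κ lb (fun j => ra j + c j) hD) T C) := by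
  refine H.toSyD.claim2 (fun _ => True)
    (P := Pg2 s κ c lb (kH κ c) (Polynomial.C hU) (ZbO s κ lb (fun j => ra j + c j) hD))
    ?_ ?_ ?_ _ T hT trivial C hC rfl
  · intro T hT _ C hC b hb E hE
    exact Pg2_step s κ c lb _ _ _ (H.dis hT hC) hb hE (ZbO_step s κ lb _ hD (H.dis hT hC) hb hE)
  · intro T hT _ C hC
    rw [Pg2_coeff0]
    simp only [phc_kH, phc_C]
    exact H.rbU' hT hC C subset_rfl
  · intro T hT _ C hC
    rw [filter_true_of_mem fun _ _ => trivial, PO_sum s κ c lb ra hU hD (H.dis hT hC)]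
    exact H.toSyD.gsum hT hC (H.idD T hT C hC)

end

/-! ### `ν` even -/

section
variable {B : ValuationSubring ℂ} {l : ℂ} {M Y : Finset ι → Finset ι → ℂ} {e eX : ι → ℂ}
  {x xX : Finset ι → ι → ℂ} {Ef ch : Finset ι → ℂ} {cU : ℂ} {s : ι → ι → ZMod 2}
  {c lb ra s0 vM : ι → ZMod 2} {μ0 : ZMod 2} {S0 B0 : Finset ι}

theorem SyDE.dis (H : SyDE B l M Y e eX x xX Ef ch cU s c lb ra s0 vM μ0 S0 B0) {T C : Finset ι}
    (hT : T ⊆ S0) (hC : C ⊆ B0) : Disjoint T C :=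
  disjoint_of_subset_left hT (disjoint_of_subset_right hC H.hX.dis)

/-- the values `Y` -/
theorem SyDE.rbY (H : SyDE B l M Y e eX x xX Ef ch cU s c lb ra s0 vM μ0 S0 B0) {T C : Finset ι}
    (hT : T ⊆ S0) (hC : C ⊆ B0) (h0 : (T ∪ C).Nonempty) :
    RB B (2 / l) C (fun A => lvB Y eX xX s T C A / (1 * l ^ (T.card + C.card + 1)))
      (CE s s0 T C) := by
  refine H.hX.claim_even (n := 1) (f := s0) (P := CE s s0) (R := fun _ _ => 0) le_rfl
    (by rw [div_one]; exact H.Y0) H.fX ?_ ?_ ?_ ?_ H.idY _ T hT C hC rfl h0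
  · intro b _
    rw [CE_single, cf_C, if_pos rfl]
  · intro T hT A hA b hb h1 E hE
    exact CE_step s s0 (H.dis hT hA) hb h1 hE
  · intro T hT A hA h1
    exact CE_sum2 s s0 (H.dis hT hA) h1
  · intro T hT h1
    rw [CE_sum0 s s0 h1]
    exact zm_two _

/-- the values `UxD` -/
theorem SyDE.rbU' (H : SyDE B l M Y e eX x xX Ef ch cU s c lb ra s0 vM μ0 S0 B0) {T C : Finset ι}
    (hT : T ⊆ S0) (hT0 : T.Nonempty) (hC : C ⊆ B0) :
    RB B (2 / l) C (lvN l (UxD cU Y Ef ch lb) eX xX s T C) (GE s 0 lb s0 0 T C) := by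
  rw [GE_zero2 s lb s0 (H.dis hT hC) hT0]
  exact H.toSyD.rbU hT (H.rbY hT hC (hT0.mono subset_union_left))

theorem SyDE.unitC (H : SyDE B l M Y e eX x xX Ef ch cU s c lb ra s0 vM μ0 S0 B0) (n : ℕ) :
    (-1) ^ n * ((2 / l ^ 2) ^ n)⁻¹ ∈ B := by
  have h2 := H.hX.hu.pow H.hX.hB n
  rw [one_pow] at h2
  exact ((Rt_sgn' H.hX.hB n).mul H.hX.hB h2.inv_one).mem

/-- the values `Y` of the empty set -/
theorem SyDE.rbY0 (H : SyDE B l M Y e eX x xX Ef ch cU s c lb ra s0 vM μ0 S0 B0) {A : Finset ι}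
    (hA : A ⊆ B0) (hA0 : A.Nonempty) :
    RBw B (2 / l) A (fun A' => lvB Y eX xX s ∅ A A' / l ^ (A.card + 2)) 0 := by
  refine H.hX.rbw (P := fun _ => 0) ?_ ?_ ?_ _ A hA rfl hA0
  · intro A _ b _ _ E _
    rw [mul_zero]
  · intro b hb
    rw [cf_zero, mul_div_assoc]
    exact Rt.mul_zero_right H.Y0.mem (H.fXB b hb)
  · intro A hA hA0
    rw [H.hX.mo_id 2 hA]
    exact B.mul_mem _ _ (H.unitC _) (H.idY2 A hA hA0)

/-- the values `UxD` of the empty set -/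
theorem SyDE.rbU0 (H : SyDE B l M Y e eX x xX Ef ch cU s c lb ra s0 vM μ0 S0 B0) {A : Finset ι}
    (hA : A ⊆ B0) (hA0 : A.Nonempty) :
    RBw B (2 / l) A (fun A' => lvB (UxD cU Y Ef ch lb) eX xX s ∅ A A' / l ^ (A.card + 1)) 0 := by
  have hl0 := H.hX.hl0
  have h1 := (H.rbK (empty_subset S0) A).toW.mul H.hX.hB H.hX.h2 H.hX.h20 (H.rbY0 hA hA0)
  have h2 := (RB.cst H.hX.hB (η := 2 / l) (S := A) H.hcU).toW.mul H.hX.hB H.hX.h2 H.hX.h20 h1
  have e1 : ∀ A', lvB (UxD cU Y Ef ch lb) eX xX s ∅ A A' / l ^ (A.card + 1) =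
      cU * l ^ (1 + 1) * (((Ef ∅ - ch ∅ * ∏ b ∈ A', sgz (lb b)) / l) *
        (lvB Y eX xX s ∅ A A' / l ^ (A.card + 2))) := by
    intro A'
    rw [lvB, lvB, UxD]
    have h3 : l ^ A.card ≠ 0 := pow_ne_zero _ hl0
    rw [pow_add l A.card 1, pow_add l A.card 2]
    field_simp
  simp only [mul_zero] at h2
  refine ⟨fun E hE hEC => ?_, ?_⟩
  · rw [mo_congr fun A' _ => e1 A']
    exact h2.1 E hE hEC
  · rw [mo_congr fun A' _ => e1 A']
    exact h2.2

theorem SyDE.idM1 (H : SyDE B l M Y e eX x xX Ef ch cU s c lb ra s0 vM μ0 S0 B0) {A : Finset ι}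
    (hA : A ⊆ B0) (hA0 : A.Nonempty) : idB l 1 M e x s 1 ∅ A ∈ B := by
  have h1 := (H.rbU0 hA hA0).2
  have hl0 := H.hX.hl0
  have h2 := (H.hX.of 1 (UxD cU Y Ef ch lb)).mo_id 1 hA
  rw [h2] at h1
  have h3 : idB l 1 (UxD cU Y Ef ch lb) eX xX s 1 ∅ A ∈ B := by
    have h4 : (-1 : ℂ) ^ A.card * (2 / l ^ 2) ^ A.card ∈ B :=
      ((Rt_sgn' H.hX.hB A.card).mul H.hX.hB (H.hX.hu.pow H.hX.hB A.card)).mem
    have h5 := B.mul_mem _ _ h4 h1
    have hu0 : ((2 : ℂ) / l ^ 2) ^ A.card ≠ 0 :=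
      pow_ne_zero _ (div_ne_zero two_ne_zero (pow_ne_zero _ hl0))
    have hs : ((-1 : ℂ) ^ A.card) * (-1) ^ A.card = 1 := by
      rw [← mul_pow]
      simp
    have e1 : (-1 : ℂ) ^ A.card * (2 / l ^ 2) ^ A.card *
        ((-1) ^ A.card * ((2 / l ^ 2) ^ A.card)⁻¹ *
          idB l 1 (UxD cU Y Ef ch lb) eX xX s 1 ∅ A) =
        (((-1 : ℂ) ^ A.card) * (-1) ^ A.card) *
          (((2 / l ^ 2) ^ A.card) * ((2 / l ^ 2) ^ A.card)⁻¹) *
          idB l 1 (UxD cU Y Ef ch lb) eX xX s 1 ∅ A := by ring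
    rw [e1, hs, mul_inv_cancel₀ hu0, one_mul, one_mul] at h5
    exact h5
  have h6 := B.add_mem _ _ (H.idD0 A hA hA0) h3
  rwa [sub_add_cancel] at h6

/-- the values `M` of the empty set -/
theorem SyDE.rbM0 (H : SyDE B l M Y e eX x xX Ef ch cU s c lb ra s0 vM μ0 S0 B0) {A : Finset ι}
    (hA : A ⊆ B0) (hA0 : A.Nonempty) :
    RBw B (2 / l) A (fun A' => lvB M e x s ∅ A A' / l ^ (A.card + 1))
      (CE s (fun b => μ0 * vM b) ∅ A) := by
  refine H.hM.rbw (P := CE s (fun b => μ0 * vM b) ∅) ?_ ?_ ?_ _ A hA rfl hA0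
  · intro A _ b hb h1 E hE
    exact CE_step s _ (disjoint_empty_left A) hb (by rwa [empty_union]) hE
  · intro b hb
    rw [CE_single, cf_C, if_pos rfl]
    have h1 := H.M0.mul H.hX.hB (H.fM b (mem_union_right _ hb))
    rw [← mul_div_assoc] at h1
    exact h1
  · intro A hA hA0
    rw [H.hM.mo_id 1 hA]
    exact B.mul_mem _ _ (H.unitC _) (H.idM1 hA hA0)

/-- **The terms of the empty set.** -/
theorem SyDE.sec (H : SyDE B l M Y e eX x xX Ef ch cU s c lb ra s0 vM μ0 S0 B0) {T C : Finset ι}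
    (hT : T ⊆ S0) (hT0 : T.Nonempty) (hC : C ⊆ B0) :
    Rt B ((mo (gcB l 1 M e x s 0 T C ∅) C / (2 / l) ^ C.card -
      mo (gcB l 1 (UxD cU Y Ef ch lb) eX xX s 0 T C ∅) C / (2 / l) ^ C.card) / l)
      (zev s (fun b => μ0 * vM b + s0 b) T C) := by
  have hB := H.hX.hB
  have hl0 := H.hX.hl0
  by_cases hC0 : C = ∅
  · subst hC0
    rw [zev, if_pos rfl, card_empty, pow_zero, div_one, div_one, mo_empty, mo_empty, gcB, gcB, lvB,
      lvB]
    simp only [Finset.sdiff_self, prod_empty, mul_one, card_empty, sdiff_empty, fcB, add_zero,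
      pow_zero, div_one]
    -- the factors
    have h1 : Rt B (∏ b ∈ T, ((e b - x ∅ b) / l ^ 2)) (∏ b ∈ T, vM b) :=
      Rt.prod hB T fun b hb => H.fM b (mem_union_left _ (hT hb))
    have h2 : Rt B (∏ b ∈ T, ((eX b - xX ∅ b) / l ^ 2)) (∏ b ∈ T, s0 b) :=
      Rt.prod hB T fun b hb => H.fX b (mem_union_left _ (hT hb))
    obtain ⟨n, hn⟩ : ∃ n, T.card = n + 1 := ⟨T.card - 1, by have := hT0.card_pos; omega⟩
    have e1 : ∀ f : ι → ℂ, ∏ b ∈ T, (f b / l) = (∏ b ∈ T, (f b / l ^ 2)) * l ^ (n + 1) := by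
      intro f
      rw [← hn, ← prod_const, ← prod_mul_distrib]
      refine prod_congr rfl fun b _ => ?_
      field_simp
    have h3 := ((H.M0.mul hB h1).sub hB (H.U0.mul hB h2)).mul hB (H.hX.hl.pow hB n)
    have e2 : (M ∅ ∅ * ∏ b ∈ T, ((e b - x ∅ b) / l) - UxD cU Y Ef ch lb ∅ ∅ *
        ∏ b ∈ T, ((eX b - xX ∅ b) / l)) / l =
        (M ∅ ∅ * ∏ b ∈ T, ((e b - x ∅ b) / l ^ 2) - UxD cU Y Ef ch lb ∅ ∅ *
          ∏ b ∈ T, ((eX b - xX ∅ b) / l ^ 2)) * l ^ n := by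
      rw [e1, e1, pow_succ l n]
      field_simp
    have e3 : (μ0 * ∏ b ∈ T, vM b - 1 * ∏ b ∈ T, s0 b) * 0 ^ n =
        if T.card = 1 then ∑ b ∈ T, (μ0 * vM b + s0 b) else 0 := by
      by_cases hc : T.card = 1
      · have hn0 : n = 0 := by omega
        obtain ⟨b, rfl⟩ := card_eq_one.1 hc
        rw [if_pos hc, hn0, pow_zero, mul_one, prod_singleton, prod_singleton, sum_singleton,
          one_mul]
        have h5 : ∀ y z : ZMod 2, y - z = y + z := by decide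
        exact h5 _ _
      · have hn0 : n ≠ 0 := by omega
        rw [if_neg hc, zero_pow hn0, mul_zero]
    rw [e2, ← e3]
    exact h3
  · rw [zev, if_neg hC0]
    have hC0' := nonempty_iff_ne_empty.2 hC0
    have hz : ∀ z ∈ T, z ∈ (S0 ∪ B0) \ (∅ : Finset ι) := fun z hz =>
      mem_sdiff.2 ⟨mem_union_left _ (hT hz), notMem_empty z⟩
    have h1 := (H.rbM0 hC hC0').mul_low hB H.hX.h2 H.hX.h20
      (RB.prod hB H.hX.h2 H.hX.h20 T fun z hz' => H.hM.weight (C := C) (empty_subset S0) (hz z hz'))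
      (cf_prod_wE0 s C hT0) C subset_rfl
    have h2 := (H.rbU0 hC hC0').mul_low hB H.hX.h2 H.hX.h20
      (RB.prod hB H.hX.h2 H.hX.h20 T fun z hz' => H.hX.weight (C := C) (empty_subset S0) (hz z hz'))
      (cf_prod_wE0 s C hT0) C subset_rfl
    rw [zero_mul, cf_zero] at h2
    have h3 := h1.sub hB h2
    rw [sub_zero] at h3
    have h4 : CE s (fun b => μ0 * vM b) ∅ C = CE s (fun b => μ0 * vM b + s0 b) ∅ C := by
      rw [CE, CE]
      refine CZ_congr2 (fun _ _ _ _ _ => rfl) fun b hb => ?_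
      rw [empty_union] at hb
      show MvPolynomial.C (μ0 * vM b) = MvPolynomial.C (μ0 * vM b + s0 b)
      rw [H.s0B b (hC hb), add_zero]
    rw [h4] at h3
    have e1 : ∀ (La : Finset ι → Finset ι → ℂ) (e : ι → ℂ) (x : Finset ι → ι → ℂ),
        mo (fun A' => lvB La e x s ∅ C A' / l ^ (C.card + 1) *
          ∏ z ∈ T, (fcB e x s ∅ A' z / l)) C = mo (gcB l 1 La e x s 0 T C ∅) C / l := by
      intro La e x
      rw [div_eq_inv_mul, ← mo_const_mul]
      refine mo_congr fun A' _ => ?_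
      rw [gcB, sdiff_empty, one_mul, card_empty, zero_add, add_zero, pow_succ]
      field_simp
    rw [e1, e1] at h3
    have e2 : ∀ u v w : ℂ, v / l / w - u / l / w = (v / w - u / w) / l := fun u v w => by ring
    rw [e2] at h3
    exact h3

/-- **The classes of the pair**, `ν` even. -/
theorem SyDE.rb2 (H : SyDE B l M Y e eX x xX Ef ch cU s c lb ra s0 vM μ0 S0 B0) {T C : Finset ι}
    (hT : T ⊆ S0) (hT0 : T.Nonempty) (hC : C ⊆ B0) :
    RB2 B (2 / l) l C (lvN l (UxD cU Y Ef ch lb) eX xX s T C) (lvN l M e x s T C)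
      (Pg2 s 0 c lb (cH s0) 0 (ZbE s lb ra fun b => μ0 * vM b + s0 b) T C) := by
  refine H.toSyD.claim2 (fun T => T.Nonempty)
    (P := Pg2 s 0 c lb (cH s0) 0 (ZbE s lb ra fun b => μ0 * vM b + s0 b))
    ?_ ?_ ?_ _ T hT hT0 C hC rfl
  · intro T hT hT0 C hC b hb E hE
    exact Pg2_step s 0 c lb _ _ _ (H.dis hT hC) hb hE (ZbE_step s lb ra _ (H.dis hT hC) hT0 hb hE)
  · intro T hT hT0 C hC
    rw [Pg2_coeff0, map_zero]
    simp only [phc_cH]
    exact H.rbU' hT hT0 hC C subset_rfl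
  · intro T hT hT0 C hC
    rw [PE_sum s c lb ra s0 _ (H.dis hT hC) hT0 fun b hb => H.s0B b (hC hb), filter_nonempty]
    have h1 := H.toSyD.gsum hT hC (H.idD T hT hT0 C hC)
    have h2 := H.sec hT hT0 hC
    rw [← add_sum_erase _ _ (empty_mem_powerset T), ← add_sum_erase _ _ (empty_mem_powerset T),
      card_empty, pow_zero, one_mul, one_mul] at h1
    have h3 := h1.sub H.hX.hB h2
    have e1 : ∀ u v y w : ℂ, (v + y - (u + w)) / l - (v - u) / l = (y - w) / l :=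
      fun u v y w => by ring
    have e2 : ∀ y z : ZMod 2, y - z = y + z := by decide
    rw [e1, e2] at h3
    exact h3

end

end

end Pool.Agent.Lib.MP_1a91b9_ntQ
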