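import Pool.Agent.Lib.MP_1a91b9_ntQ.B.DuF

/-!
# Quartic twists, all fourth-power-free `D`, file DuI: the change of the linear terms in the last step

Page B2, 9.1 and 9.3: `thB2 s τ ν C = ∑ (A ⊆ C) ν A ∏ (b ∈ C - A) (τ b + s (A, b))`.
-/

set_option autoImplicit false
set_option linter.unusedSectionVars false

namespace Pool.Agent.Lib.MP_1a91b9_ntQ

open Finset MvPolynomial
open Pool.Agent.Lib.MP_1a91b9_ntK (NM NM_congr NM_empty NM_adj NM_update NM_zero forest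
  CZ CZ_eq forest_zero)

noncomputable section

variable {ι : Type*} [DecidableEq ι]

/-- the triangular system -/
def thB2 (s : ι → ι → ZMod 2) (τ : ι → ZMod 2) (ν : Finset ι → ZMod 2) (C : Finset ι) : ZMod 2 :=
  ∑ A ∈ C.powerset, ν A * ∏ b ∈ C \ A, (τ b + ∑ a ∈ A, s b a)

theorem thB2_solB (s : ι → ι → ZMod 2) (τ : ι → ZMod 2) (g : Finset ι → ZMod 2) (C : Finset ι) :
    thB2 s τ (solB s τ g) C = g C := solB_eq s τ g C

/-- **Uniqueness.** -/
theorem thB2_unique (s : ι → ι → ZMod 2) (τ : ι → ZMod 2) {ν ν' : Finset ι → ZMod 2}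
    {V : Finset ι} (h : ∀ C ⊆ V, thB2 s τ ν C = thB2 s τ ν' C) : ∀ C ⊆ V, ν C = ν' C := by
  intro C
  induction C using Finset.strongInduction with
  | H C ih =>
    intro hC
    have h1 := h C hC
    rw [thB2, thB2, ← add_sum_erase _ _ (mem_powerset_self C),
      ← add_sum_erase C.powerset (fun A => ν' A * ∏ b ∈ C \ A, (τ b + ∑ a ∈ A, s b a))
        (mem_powerset_self C)] at h1
    have h2 : ∑ A ∈ C.powerset.erase C, ν A * ∏ b ∈ C \ A, (τ b + ∑ a ∈ A, s b a) =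
        ∑ A ∈ C.powerset.erase C, ν' A * ∏ b ∈ C \ A, (τ b + ∑ a ∈ A, s b a) := by
      refine sum_congr rfl fun A hA => ?_
      rw [mem_erase, mem_powerset] at hA
      rw [ih A (hA.2.ssubset_of_ne hA.1) (hA.2.trans hC)]
    rw [h2, Finset.sdiff_self, prod_empty, mul_one, mul_one] at h1
    exact add_right_cancel h1

theorem thB2_add (s : ι → ι → ZMod 2) (τ : ι → ZMod 2) (ν ν' : Finset ι → ZMod 2)
    (C : Finset ι) : thB2 s τ (fun A => ν A + ν' A) C = thB2 s τ ν C + thB2 s τ ν' C := by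
  rw [thB2, thB2, thB2, ← sum_add_distrib]
  exact sum_congr rfl fun A _ => by ring

/-- the solution of a sum -/
theorem solB_add_th (s : ι → ι → ZMod 2) (τ : ι → ZMod 2) {z φ ν : Finset ι → ZMod 2}
    {V : Finset ι} (h : ∀ C ⊆ V, φ C = z C + thB2 s τ ν C) :
    ∀ C ⊆ V, solB s τ φ C = solB s τ z C + ν C := by
  refine thB2_unique s τ fun C hC => ?_
  rw [thB2_add, thB2_solB, thB2_solB, h C hC]

/-- the system with one more vertex -/
def wB2 (s : ι → ι → ZMod 2) (τ : ι → ZMod 2) (g : Finset ι → ZMod 2) (b : ι) (C : Finset ι) :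
    ZMod 2 :=
  ∑ A ∈ C.powerset, solB s τ g A * (τ b + ∑ a ∈ A, s b a) *
    ∏ b' ∈ C \ A, (τ b' + ∑ a ∈ A, s b' a)

/-- a sum over the complement -/
theorem sum_compl (C : Finset ι) (F : ι → Finset ι → ZMod 2) :
    ∑ A ∈ C.powerset, ∑ b ∈ C \ A, F b A = ∑ b ∈ C, ∑ A ∈ (C.erase b).powerset, F b A := by
  refine sum_comm' fun A b => ?_
  simp only [mem_powerset, mem_sdiff]
  constructor
  · rintro ⟨h1, h2, h3⟩
    exact ⟨fun y hy => mem_erase.2 ⟨fun h => h3 (h ▸ hy), h1 hy⟩, h2⟩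
  · rintro ⟨h1, h2⟩
    exact ⟨h1.trans (erase_subset _ _), h2, fun h => notMem_erase b C (h1 h)⟩

theorem prod_sdiff_erase {C A : Finset ι} {b : ι} (hb : b ∈ C \ A) (f : ι → ZMod 2) :
    ∏ b' ∈ C \ A, f b' = f b * ∏ b' ∈ (C.erase b) \ A, f b' := by
  rw [← mul_prod_erase _ _ hb, erase_sdiff_comm]

/-- **The recursion.** -/
theorem wB2_rec (s : ι → ι → ZMod 2) (τ : ι → ZMod 2) (g : Finset ι → ZMod 2) (b : ι)
    (C : Finset ι) : wB2 s τ g b C = (τ b + ∑ a ∈ C, s b a) * g C +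
      ∑ b' ∈ C, s b b' * wB2 s τ g b' (C.erase b') := by
  have h1 : ∀ A ∈ C.powerset, solB s τ g A * (τ b + ∑ a ∈ A, s b a) *
      ∏ b' ∈ C \ A, (τ b' + ∑ a ∈ A, s b' a) =
      (τ b + ∑ a ∈ C, s b a) * (solB s τ g A * ∏ b' ∈ C \ A, (τ b' + ∑ a ∈ A, s b' a)) +
      ∑ b' ∈ C \ A, s b b' * (solB s τ g A * (τ b' + ∑ a ∈ A, s b' a) *
        ∏ b'' ∈ (C.erase b') \ A, (τ b'' + ∑ a ∈ A, s b'' a)) := by
    intro A hA
    have h2 : ∑ a ∈ A, s b a = ∑ a ∈ C, s b a + ∑ a ∈ C \ A, s b a := by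
      rw [← sum_sdiff (mem_powerset.1 hA)]
      linear_combination -(zm_two (∑ a ∈ C \ A, s b a))
    have h3 : ∑ b' ∈ C \ A, s b b' * (solB s τ g A * (τ b' + ∑ a ∈ A, s b' a) *
        ∏ b'' ∈ (C.erase b') \ A, (τ b'' + ∑ a ∈ A, s b'' a)) =
        (∑ b' ∈ C \ A, s b b') * (solB s τ g A * ∏ b' ∈ C \ A, (τ b' + ∑ a ∈ A, s b' a)) := by
      rw [sum_mul]
      refine sum_congr rfl fun b' hb' => ?_
      rw [prod_sdiff_erase hb']
      ring
    rw [h3, h2]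
    ring
  rw [wB2, sum_congr rfl h1, sum_add_distrib, ← mul_sum, sum_compl]
  congr 1
  · congr 1
    exact solB_eq s τ g C
  · refine sum_congr rfl fun b' _ => ?_
    rw [wB2, mul_sum]

/-- the sum with the weights `w1 + ∑ lb` -/
theorem thB2_psi (s : ι → ι → ZMod 2) (τ lb : ι → ZMod 2) (w1 : ZMod 2) (g : Finset ι → ZMod 2)
    (C : Finset ι) : thB2 s τ (fun A => (w1 + ∑ b ∈ A, lb b) * solB s τ g A) C =
      (w1 + ∑ b ∈ C, lb b) * g C + ∑ b ∈ C, lb b * wB2 s τ g b (C.erase b) := by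
  have h1 : ∀ A ∈ C.powerset, (w1 + ∑ b ∈ A, lb b) * solB s τ g A *
      ∏ b' ∈ C \ A, (τ b' + ∑ a ∈ A, s b' a) =
      (w1 + ∑ b ∈ C, lb b) * (solB s τ g A * ∏ b' ∈ C \ A, (τ b' + ∑ a ∈ A, s b' a)) +
      ∑ b' ∈ C \ A, lb b' * (solB s τ g A * (τ b' + ∑ a ∈ A, s b' a) *
        ∏ b'' ∈ (C.erase b') \ A, (τ b'' + ∑ a ∈ A, s b'' a)) := by
    intro A hA
    have h2 : ∑ a ∈ A, lb a = ∑ a ∈ C, lb a + ∑ a ∈ C \ A, lb a := by
      rw [← sum_sdiff (mem_powerset.1 hA)]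
      linear_combination -(zm_two (∑ a ∈ C \ A, lb a))
    have h3 : ∑ b' ∈ C \ A, lb b' * (solB s τ g A * (τ b' + ∑ a ∈ A, s b' a) *
        ∏ b'' ∈ (C.erase b') \ A, (τ b'' + ∑ a ∈ A, s b'' a)) =
        (∑ b' ∈ C \ A, lb b') * (solB s τ g A * ∏ b' ∈ C \ A, (τ b' + ∑ a ∈ A, s b' a)) := by
      rw [sum_mul]
      refine sum_congr rfl fun b' hb' => ?_
      rw [prod_sdiff_erase hb']
      ring
    rw [h3, h2]
    ring
  rw [thB2, sum_congr rfl h1, sum_add_distrib, ← mul_sum, sum_compl]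
  congr 1
  · congr 1
    exact solB_eq s τ g C
  · refine sum_congr rfl fun b' _ => ?_
    rw [wB2, mul_sum]

/-- **The change of the linear terms.** -/
theorem wB2_change (s : ι → ι → ZMod 2) (τ c : ι → ZMod 2) (g : Finset ι → ZMod 2)
    {V : Finset ι} {η : ι → Finset ι → ZMod 2}
    (hη : ∀ C ⊆ V, ∀ b ∈ V, b ∉ C → η b C = c b * g C + ∑ b' ∈ C, s b b' * η b' (C.erase b')) :
    ∀ C ⊆ V, ∀ b ∈ V, b ∉ C → η b C = wB2 s (fun b => τ b + c b) g b C + wB2 s τ g b C := by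
  intro C
  induction C using Finset.strongInduction with
  | H C ih =>
    intro hC b hb hbC
    have h1 : ∑ b' ∈ C, s b b' * η b' (C.erase b') =
        ∑ b' ∈ C, s b b' * wB2 s (fun b => τ b + c b) g b' (C.erase b') +
        ∑ b' ∈ C, s b b' * wB2 s τ g b' (C.erase b') := by
      rw [← sum_add_distrib]
      refine sum_congr rfl fun b' hb' => ?_
      rw [ih (C.erase b') (erase_ssubset hb') ((erase_subset _ _).trans hC) b' (hC hb')
        (notMem_erase b' C)]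
      ring
    rw [hη C hC b hb hbC, h1, wB2_rec s (fun b => τ b + c b), wB2_rec s τ]
    linear_combination -(zm_two ((τ b + ∑ a ∈ C, s b a) * g C))

/-- **The last step**, the algebra: page B2, 9.3. -/
theorem last_alg (s : ι → ι → ZMod 2) (τ c lb : ι → ZMod 2) (w1 : ZMod 2)
    (g zb zt : Finset ι → ZMod 2) {V : Finset ι} {η : ι → Finset ι → ZMod 2}
    (hη : ∀ C ⊆ V, ∀ b ∈ V, b ∉ C → η b C = c b * g C + ∑ b' ∈ C, s b b' * η b' (C.erase b'))
    (hz : ∀ C ⊆ V, zt C = zb C + ∑ b ∈ C, lb b * η b (C.erase b)) :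
    ∀ C ⊆ V, solB s τ (fun C => zt C + thB2 s (fun b => τ b + c b)
      (fun A => (w1 + ∑ b ∈ A, lb b) * solB s (fun b => τ b + c b) g A) C) C =
      solB s τ zb C + (w1 + ∑ b ∈ C, lb b) * solB s τ g C := by
  refine solB_add_th s τ fun C hC => ?_
  rw [hz C hC, thB2_psi, thB2_psi, add_assoc]
  congr 1
  have h1 : ∑ b ∈ C, lb b * η b (C.erase b) =
      ∑ b ∈ C, lb b * wB2 s (fun b => τ b + c b) g b (C.erase b) +
      ∑ b ∈ C, lb b * wB2 s τ g b (C.erase b) := by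
    rw [← sum_add_distrib]
    refine sum_congr rfl fun b hb => ?_
    rw [wB2_change s τ c g hη (C.erase b) ((erase_subset _ _).trans hC) b (hC hb)
      (notMem_erase b C)]
    ring
  rw [h1]
  linear_combination
    zm_two (∑ b ∈ C, lb b * wB2 s (fun b => τ b + c b) g b (C.erase b))

end

end Pool.Agent.Lib.MP_1a91b9_ntQ
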