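import Pool.Agent.Lib.MP_1a91b9_ntQ.B.DuH
import Pool.Agent.Lib.MP_1a91b9_ntQ.B.DuI
import Pool.Agent.Lib.MP_1a91b9_ntQ.B.XsG

/-!
# Quartic twists, all fourth-power-free `D`, file DuJ: the last step of the second order classes

Page B2, 9.1 and 9.2: the value of `U ∪ C`, `C ⊆ V`, to the second order.
-/

set_option autoImplicit false
set_option linter.unusedSectionVars false

namespace Pool.Agent.Lib.MP_1a91b9_ntQ

open Finset MvPolynomial
open Pool.Agent.Lib.MP_1a91b9_ntK (NM NM_congr NM_empty NM_adj NM_update NM_zero forest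
  CZ CZ_eq forest_zero)

noncomputable section

variable {ι : Type*} [DecidableEq ι]

/-! ### The normalised sum -/

theorem div_pow_one (l a : ℂ) (n : ℕ) : a / l ^ (n + 1) = a / (1 * l ^ (n + 0)) / l := by
  rw [add_zero, one_mul, pow_succ, div_div]

/-- the values of `U ∪ A` with the factors of `C - A` -/
def phD (l : ℂ) (La : Finset ι → Finset ι → ℂ) (e : ι → ℂ) (x : Finset ι → ι → ℂ)
    (s : ι → ι → ZMod 2) (S0 U C : Finset ι) : ℂ :=
  ∑ A ∈ C.powerset, (-1) ^ (C \ A).card *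
    (La S0 (U ∪ A) / (1 * l ^ (S0.card + U.card + 2 * A.card + 0)) *
      ∏ b ∈ C \ A, (fcB e x s S0 (U ∪ A) b / l ^ 2))

theorem phD_eq {l : ℂ} (hl0 : l ≠ 0) (La : Finset ι → Finset ι → ℂ) (e : ι → ℂ)
    (x : Finset ι → ι → ℂ) (s : ι → ι → ZMod 2) (S0 : Finset ι) {U C : Finset ι}
    (hUC : Disjoint U C) :
    mo (fun A => lvN l La e x s S0 (U ∪ C) (U ∪ A)) C / (2 / l) ^ C.card =
      (l ^ 2 / 2) ^ C.card * phD l La e x s S0 U C := by
  have h20 : (2 : ℂ) / l ≠ 0 := div_ne_zero two_ne_zero hl0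
  rw [mo, sum_div, phD, mul_sum]
  refine sum_congr rfl fun A hA => ?_
  rw [mem_powerset] at hA
  have e0 : (U ∪ C) \ (U ∪ A) = C \ A := by
    ext y
    simp only [mem_sdiff, mem_union, not_or]
    constructor
    · rintro ⟨h1 | h1, h2, h3⟩
      · exact absurd h1 h2
      · exact ⟨h1, h3⟩
    · rintro ⟨h1, h2⟩
      exact ⟨Or.inr h1, fun h => disjoint_left.1 hUC h h1, h2⟩
  have e1 : (C \ A).card + A.card = C.card := card_sdiff_add_card_eq_card hA
  have e2 : S0.card + (U ∪ C).card + 0 + C.card =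
      S0.card + U.card + 2 * A.card + 0 + 2 * (C \ A).card := by
    rw [card_union_of_disjoint hUC]
    omega
  rw [lvN, lvB, e0, prod_div_distrib, prod_const, ← pow_mul, div_eq_iff (pow_ne_zero _ h20)]
  exact fin_aux _ _ _ 1 hl0 e2

/-! ### The coefficients at the sets with `u = 0` -/

section
variable {s : ι → ι → ZMod 2} {κ c : ι → ZMod 2} {S0 B0 U V : Finset ι}
  {P : Finset ι → MvPolynomial ι (Polynomial (ZMod 2))}

/-- the law of the second order coefficient -/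
theorem coeff1_law (s : ι → ι → ZMod 2) (κ c : ι → ZMod 2) (S0 A : Finset ι) (b : ι)
    (Q : MvPolynomial ι (Polynomial (ZMod 2))) (E : Finset ι) :
    (cf (wE (sH s) (kH κ c) S0 A b * Q) E).coeff 1 =
      (κ b + ∑ p ∈ S0, s b p) * (cf Q E).coeff 1 + c b * (cf Q E).coeff 0 +
        ∑ b' ∈ A ∩ E, s b b' * (cf Q (E.erase b')).coeff 1 := by
  rw [cf_wE_mul, Polynomial.coeff_add, Polynomial.mul_coeff_one, Polynomial.coeff_add,
    Polynomial.coeff_add, kH_coeff0, kH_coeff1, coeff_sum_sH, coeff_sum_sH, if_pos rfl,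
    if_neg one_ne_zero, add_zero, Polynomial.finset_sum_coeff]
  congr 1
  exact sum_congr rfl fun b' _ => coeff_C_mul' _ _ _

theorem coeff1_low
    (hstep : ∀ A ⊆ B0, ∀ b ∈ A, ∀ E : Finset ι, b ∉ E →
      E2 (cf (P A) E) (cf (wE (sH s) (kH κ c) S0 (A.erase b) b * P (A.erase b)) E))
    (hU : U ⊆ B0) (hV : V ⊆ B0) (hUV : Disjoint U V)
    (hu0 : ∀ b ∈ V, κ b + ∑ p ∈ S0, s b p = 0)
    (hv0 : ∀ U' ⊆ U, ∀ C ⊆ V, ∀ E ⊆ C, (cf (P (U' ∪ C)) E).coeff 0 = 0) {U' : Finset ι}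
    (hU' : U' ⊆ U) : ∀ (n : ℕ) (C : Finset ι), C.card = n → C ⊆ V → ∀ E ⊂ C,
      (cf (P (U' ∪ C)) E).coeff 1 = 0 := by
  intro n
  induction n with
  | zero =>
    intro C hC _ E hE
    rw [card_eq_zero.1 hC] at hE
    exact absurd hE (not_ssubset_empty E)
  | succ n ih =>
    intro C hC hCV E hE
    obtain ⟨b, hb, hbE⟩ := exists_of_ssubset hE
    have hbU : b ∉ U' := fun h => disjoint_left.1 hUV (hU' h) (hCV hb)
    have h1 : (U' ∪ C).erase b = U' ∪ C.erase b := by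
      rw [erase_union_distrib, erase_eq_of_notMem hbU]
    have hEb : E ⊆ C.erase b := fun y hy => mem_erase.2 ⟨fun h => hbE (h ▸ hy), hE.1 hy⟩
    have h2 := (hstep (U' ∪ C) (union_subset (hU'.trans hU) (hCV.trans hV)) b
      (mem_union_right _ hb) E hbE).2
    rw [h2, coeff1_law, hu0 b (hCV hb), zero_mul, h1,
      hv0 U' hU' (C.erase b) ((erase_subset _ _).trans hCV) E hEb, mul_zero, zero_add, zero_add]
    refine sum_eq_zero fun b' hb' => ?_
    rw [mem_inter] at hb'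
    have hbb : b' ≠ b := fun h => hbE (h ▸ hb'.2)
    rw [ih (C.erase b) (by rw [card_erase_of_mem hb, hC]; rfl) ((erase_subset _ _).trans hCV),
      mul_zero]
    refine Finset.ssubset_iff_subset_ne.2 ⟨(erase_subset _ _).trans hEb, fun h => ?_⟩
    have : b' ∈ C.erase b := mem_erase.2 ⟨hbb, hE.1 hb'.2⟩
    rw [← h] at this
    exact (notMem_erase b' E) this

theorem coeff1_top
    (hstep : ∀ A ⊆ B0, ∀ b ∈ A, ∀ E : Finset ι, b ∉ E →
      E2 (cf (P A) E) (cf (wE (sH s) (kH κ c) S0 (A.erase b) b * P (A.erase b)) E))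
    (hU : U ⊆ B0) (hV : V ⊆ B0) (hUV : Disjoint U V)
    (hu0 : ∀ b ∈ V, κ b + ∑ p ∈ S0, s b p = 0) (hu1 : ∀ b ∈ U, κ b + ∑ p ∈ S0, s b p = 1)
    (hv0 : ∀ U' ⊆ U, ∀ C ⊆ V, ∀ E ⊆ C, (cf (P (U' ∪ C)) E).coeff 0 = 0) {C : Finset ι}
    (hC : C ⊆ V) (U' : Finset ι) (hU' : U' ⊆ U) :
    (cf (P (U' ∪ C)) C).coeff 1 = (cf (P C) C).coeff 1 := by
  induction U' using Finset.induction_on with
  | empty => rw [empty_union]
  | insert b U' hb ih =>
    have hbU : b ∈ U := hU' (mem_insert_self b U')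
    have hUU : U' ⊆ U := (subset_insert b U').trans hU'
    have hbC : b ∉ C := fun h => disjoint_left.1 hUV hbU (hC h)
    have h1 : (insert b U' ∪ C).erase b = U' ∪ C := by
      rw [erase_union_distrib, erase_insert hb, erase_eq_of_notMem hbC]
    have h2 := (hstep (insert b U' ∪ C) (union_subset (hU'.trans hU) (hC.trans hV)) b
      (mem_union_left _ (mem_insert_self b U')) C hbC).2
    rw [h2, coeff1_law, hu1 b hbU, one_mul, h1, hv0 U' hUU C hC C subset_rfl, mul_zero, add_zero,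
      ih hUU, sum_eq_zero, add_zero]
    intro b' hb'
    rw [mem_inter] at hb'
    rw [coeff1_low hstep hU hV hUV hu0 hv0 hUU C.card C rfl hC _ (erase_ssubset hb'.2), mul_zero]

end

/-! ### The last step -/

section
variable {B : ValuationSubring ℂ} {l : ℂ} {M Y : Finset ι → Finset ι → ℂ} {e eX : ι → ℂ}
  {x xX : Finset ι → ι → ℂ} {Ef ch : Finset ι → ℂ} {cU : ℂ} {nY : ℕ} {s : ι → ι → ZMod 2}
  {κ c lb : ι → ZMod 2} {hU : ZMod 2} {S0 B0 : Finset ι}

/-- the pair of the normalised sums -/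
theorem SyD.phi2 (H : SyD B l M Y e eX x xX Ef ch cU nY s κ c lb hU S0 B0)
    {Uf : Finset ι → Finset ι → ℂ} {P : Finset ι → MvPolynomial ι (Polynomial (ZMod 2))}
    {U V : Finset ι} (hUB : U ⊆ B0) (hV : V ⊆ B0) (hUV : Disjoint U V)
    (hP : ∀ C ⊆ B0, RB2 B (2 / l) l C (lvN l Uf eX xX s S0 C) (lvN l M e x s S0 C) (P C))
    {C : Finset ι} (hC : C ⊆ V) :
    Rt2 B l (phD l Uf eX xX s S0 U C) (phD l M e x s S0 U C) (cf (P (U ∪ C)) C) := by
  have hB := H.hX.hB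
  have hl := H.hX.hl
  have hl0 := H.hX.hl0
  have hUC : Disjoint U C := disjoint_of_subset_right hC hUV
  have hUCB : U ∪ C ⊆ B0 := union_subset hUB (hC.trans hV)
  have h10 : (2 / l) ^ C.card ≠ 0 := pow_ne_zero _ H.hX.h20
  -- the shifted coefficients
  have h1 : Rt2 B l (mo (fun A => lvN l Uf eX xX s S0 (U ∪ C) (U ∪ A)) C / (2 / l) ^ C.card)
      (mo (fun A => lvN l M e x s S0 (U ∪ C) (U ∪ A)) C / (2 / l) ^ C.card)
      (cf (P (U ∪ C)) C) := by
    rw [mo_shift _ hUC, mo_shift _ hUC, sum_div, sum_div,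
      ← add_sum_erase _ _ (empty_mem_powerset U),
      ← add_sum_erase U.powerset (fun F => mo (lvN l M e x s S0 (U ∪ C)) (F ∪ C) /
        (2 / l) ^ C.card) (empty_mem_powerset U), empty_union]
    have h4 : Rt2 B l (∑ F ∈ U.powerset.erase ∅, mo (lvN l Uf eX xX s S0 (U ∪ C)) (F ∪ C) /
        (2 / l) ^ C.card) (∑ F ∈ U.powerset.erase ∅, mo (lvN l M e x s S0 (U ∪ C)) (F ∪ C) /
        (2 / l) ^ C.card) 0 := by
      have h5 : (0 : Polynomial (ZMod 2)) =
          ∑ F ∈ U.powerset.erase ∅, cf (P (U ∪ C)) (F ∪ C) * 0 := by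
        simp
      rw [h5]
      refine Rt2.sum hB _ fun F hF => ?_
      rw [mem_erase, mem_powerset] at hF
      have h6 := hP (U ∪ C) hUCB (F ∪ C) (union_subset_union hF.2 subset_rfl)
      have h7 := (H.hX.h2).pow hB F.card
      rw [zero_pow (card_ne_zero.2 (nonempty_iff_ne_empty.2 hF.1))] at h7
      have h8 := h6.mul hB hl hl0 (Rt2.cst (l := l) h7)
      rw [Polynomial.C_0] at h8
      have hd : Disjoint F C := disjoint_of_subset_left hF.2 hUC
      rw [card_union_of_disjoint hd] at h8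
      have h9 : (2 / l) ^ F.card ≠ 0 := pow_ne_zero _ H.hX.h20
      have e1 : ∀ f : Finset ι → ℂ, mo f (F ∪ C) / (2 / l) ^ C.card =
          mo f (F ∪ C) / (2 / l) ^ (F.card + C.card) * (2 / l) ^ F.card := by
        intro f
        rw [add_comm F.card, pow_add, div_mul_eq_mul_div, mul_div_mul_right _ _ h9]
      rw [e1, e1]
      exact h8
    have h5 := (hP (U ∪ C) hUCB C subset_union_right).add hB h4
    rwa [add_zero] at h5
  rw [phD_eq hl0 Uf eX xX s S0 hUC, phD_eq hl0 M e x s S0 hUC] at h1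
  have h2 := H.hX.hu.pow hB C.card
  rw [one_pow] at h2
  have h3 := (Rt2.cst (l := l) h2).mul hB hl hl0 h1
  have h6 : (2 / l ^ 2) ^ C.card * (l ^ 2 / 2) ^ C.card = 1 := by
    rw [← mul_pow]
    have : 2 / l ^ 2 * (l ^ 2 / 2) = 1 := by field_simp
    rw [this, one_pow]
  rwa [← mul_assoc, ← mul_assoc, h6, one_mul, one_mul, Polynomial.C_1, one_mul] at h3

/-- the weights of `Y` at the primes of `V` -/
theorem SyD.h12 (H : SyD B l M Y e eX x xX Ef ch cU nY s κ c lb hU S0 B0) {U V : Finset ι}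
    (hV : V ⊆ B0) {τ : ι → ZMod 2}
    (h2 : ∀ b ∈ V, Rt B ((e b - x S0 b * ∏ a ∈ U, sgz (s b a)) / l ^ 2) (τ b)) :
    ∀ b ∈ V, Rt B ((eX b - xX S0 b * ∏ a ∈ U, sgz (s b a)) / l ^ 2) (τ b + c b) := by
  intro b hb
  have hB := H.hX.hB
  have hl0 := H.hX.hl0
  have hb0 : b ∈ (S0 ∪ B0) \ S0 := mem_sdiff.2 ⟨mem_union_right _ (hV hb), fun h =>
    disjoint_left.1 H.hX.dis h (hV hb)⟩
  have h3 : Rt B (1 - ∏ a ∈ U, sgz (s b a)) 0 := by
    rw [sgz_sum]
    have hy : ∀ y : ZMod 2, y = 0 ∨ y = 1 := by decide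
    rcases hy (∑ a ∈ U, s b a) with h3 | h3
    · rw [h3, sgz_zero, sub_self]
      exact Rt.zero
    · rw [h3, sgz_one]
      have e1 : (1 - (-1 : ℂ)) = l * (2 / l) := by
        field_simp
        norm_num
      rw [e1]
      have h4 := H.hX.hl.mul hB H.hX.h2
      rwa [zero_mul] at h4
  have h4 := Rt.mul_zero_right (H.cx S0 subset_rfl b hb0) h3
  have h5 := (h2 b hb).sub hB ((H.cw S0 subset_rfl b hb0).add hB h4)
  rw [add_zero] at h5
  have e1 : (eX b - xX S0 b * ∏ a ∈ U, sgz (s b a)) / l ^ 2 =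
      (e b - x S0 b * ∏ a ∈ U, sgz (s b a)) / l ^ 2 -
        (((e b - x S0 b) - (eX b - xX S0 b)) / l ^ 2 +
          (x S0 b - xX S0 b) / l ^ 2 * (1 - ∏ a ∈ U, sgz (s b a))) := by
    ring
  have e2 : ∀ y z : ZMod 2, y - z = y + z := by decide
  rw [e1, ← e2]
  exact h5

/-- the sign factor is a unit -/
theorem Rt_prod_sgz {B : ValuationSubring ℂ} {l : ℂ}
    (h2 : Rt B (2 / l ^ 2) 1) (A : Finset ι) (f : ι → ZMod 2) :
    Rt B ((1 - ∏ a ∈ A, sgz (f a)) / l ^ 2) (∑ a ∈ A, f a) := by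
  rw [sgz_sum]
  have hy : ∀ y : ZMod 2, y = 0 ∨ y = 1 := by decide
  rcases hy (∑ a ∈ A, f a) with h4 | h4
  · rw [h4, sgz_zero, sub_self, zero_div]
    exact Rt.zero
  · rw [h4, sgz_one]
    have e1 : (1 - (-1 : ℂ)) = 2 := by norm_num
    rw [e1]
    exact h2

theorem Rt_prod_sgz1 {B : ValuationSubring ℂ} (hB : (2 : ℂ)⁻¹ ∉ B) (A : Finset ι)
    (f : ι → ZMod 2) : Rt B (∏ a ∈ A, sgz (f a)) 1 := by
  have h1 := Rt.prod hB A fun a _ => (by
    have hy : ∀ y : ZMod 2, y = 0 ∨ y = 1 := by decide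
    rcases hy (f a) with h | h
    · rw [h, sgz_zero]
      exact Rt.one
    · rw [h, sgz_one]
      exact Rt.one.neg hB : Rt B (sgz (f a)) 1)
  rwa [prod_const_one] at h1

/-- **The last step**: the value of `U ∪ C`, `C ⊆ V`, second order. -/
theorem SyD.last (H : SyD B l M Y e eX x xX Ef ch cU nY s κ c lb hU S0 B0)
    {P : Finset ι → MvPolynomial ι (Polynomial (ZMod 2))}
    {PY : Finset ι → MvPolynomial ι (ZMod 2)} {U V : Finset ι} (hUB : U ⊆ B0) (hV : V ⊆ B0)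
    (hUV : Disjoint U V)
    (hP : ∀ C ⊆ B0, RB2 B (2 / l) l C (lvN l (UxD cU Y Ef ch lb) eX xX s S0 C)
      (lvN l M e x s S0 C) (P C))
    (hstep : ∀ A ⊆ B0, ∀ b ∈ A, ∀ E : Finset ι, b ∉ E →
      E2 (cf (P A) E) (cf (wE (sH s) (kH κ c) S0 (A.erase b) b * P (A.erase b)) E))
    (hPY : ∀ C ⊆ B0, RB B (2 / l) C
      (fun A => lvB Y eX xX s S0 C A / (1 * l ^ (S0.card + C.card + nY))) (PY C))
    (hstepY : ∀ A ⊆ B0, ∀ b ∈ A, ∀ E : Finset ι, b ∉ E →
      cf (PY A) E = cf (wE s κ S0 (A.erase b) b * PY (A.erase b)) E)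
    (hP0 : ∀ C ⊆ B0, ∀ E ⊆ C, (cf (P C) E).coeff 0 = cf (KXs lb lb hU S0 C * PY C) E)
    (hh : hU + ∑ p ∈ S0, lb p = 0)
    (hu1 : ∀ b ∈ U, κ b + ∑ p ∈ S0, s b p = 1) (hu0 : ∀ b ∈ V, κ b + ∑ p ∈ S0, s b p = 0)
    {τ : ι → ZMod 2}
    (h2 : ∀ b ∈ V, Rt B ((e b - x S0 b * ∏ a ∈ U, sgz (s b a)) / l ^ 2) (τ b)) {w1 : ZMod 2}
    (hw : Rt B ((Ef S0 - ch S0 * ∏ b ∈ U, sgz (lb b)) / l ^ 2) w1) :
    ∀ m : ℕ, ∀ C ⊆ V, C.card = m →
      Rt B (M S0 (U ∪ C) / l ^ (S0.card + U.card + 2 * C.card + 1))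
        (solB s τ (fun C => (cf (P C) C).coeff 1 + thB2 s (fun b => τ b + c b)
          (fun A => (w1 + ∑ b ∈ A, lb b) *
            solB s (fun b => τ b + c b) (fun A => cf (PY A) A) A) C) C) := by
  have hB := H.hX.hB
  have hl := H.hX.hl
  have hl0 := H.hX.hl0
  have hb0 : ∀ b ∈ V, b ∈ (S0 ∪ B0) \ S0 := fun b hb => mem_sdiff.2
    ⟨mem_union_right _ (hV hb), fun h => disjoint_left.1 H.hX.dis h (hV hb)⟩
  have h1M : ∀ b ∈ V, Rt B (x S0 b * ∏ a ∈ U, sgz (s b a)) 1 := fun b hb => by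
    have h3 := (H.hM.one S0 subset_rfl b (hb0 b hb)).mul hB (Rt_prod_sgz1 hB U (s b))
    rwa [one_mul] at h3
  have h1X : ∀ b ∈ V, Rt B (xX S0 b * ∏ a ∈ U, sgz (s b a)) 1 := fun b hb => by
    have h3 := (H.hX.one S0 subset_rfl b (hb0 b hb)).mul hB (Rt_prod_sgz1 hB U (s b))
    rwa [one_mul] at h3
  have h2X := H.h12 hV h2
  -- the first order vanishes
  have hv0 : ∀ U' ⊆ U, ∀ C ⊆ V, ∀ E ⊆ C, (cf (P (U' ∪ C)) E).coeff 0 = 0 := by
    intro U' hU' C hC E hE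
    have hd : Disjoint U' C := disjoint_of_subset_left hU' (disjoint_of_subset_right hC hUV)
    rw [hP0 _ (union_subset (hU'.trans hUB) (hC.trans hV)) E (hE.trans subset_union_right),
      cf_KX_mul lb lb hU S0 _ _ (hE.trans subset_union_right), hh, zero_mul, zero_add]
    refine sum_eq_zero fun b hb => ?_
    rw [cf_low s κ S0 hstepY (hU'.trans hUB) C.card C rfl (hC.trans hV) hd
      (fun y hy => hu0 y (hC hy)), mul_zero]
    exact (erase_ssubset hb).trans_subset hE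
  -- the values of `UxD`
  have hU3 : ∀ C ⊆ V, Rt B (phD l (UxD cU Y Ef ch lb) eX xX s S0 U C / l)
      (thB2 s (fun b => τ b + c b) (fun A => (w1 + ∑ b ∈ A, lb b) *
        solB s (fun b => τ b + c b) (fun A => cf (PY A) A) A) C) := by
    intro C hC
    rw [phD, sum_div, thB2]
    refine Rt.sum hB _ fun A hA => ?_
    rw [mem_powerset] at hA
    have hUA : Disjoint U A := disjoint_of_subset_right (hA.trans hC) hUV
    have h3 := H.hX.final (n := nY) (P := PY) hUB hV hUV hPY hstepY hu1 hu0 h1X h2X A.card A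
      (hA.trans hC) rfl
    have h4 : Rt B (∏ b ∈ C \ A, (fcB eX xX s S0 (U ∪ A) b / l ^ 2))
        (∏ b ∈ C \ A, (τ b + c b + ∑ a ∈ A, s b a)) := Rt.prod hB _ fun b hb =>
      H.hX.fac2 hUA (h1X b (hC (mem_sdiff.1 hb).1)) (h2X b (hC (mem_sdiff.1 hb).1))
    have h5 : Rt B ((Ef S0 - ch S0 * ∏ b ∈ U ∪ A, sgz (lb b)) / l ^ 2)
        (w1 + ∑ b ∈ A, lb b) := by
      have h6 := hw.add hB (((H.ch1 S0 subset_rfl).mul hB (Rt_prod_sgz1 hB U lb)).mul hB
        (Rt_prod_sgz H.hX.hu A lb))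
      rw [one_mul, one_mul] at h6
      have e1 : (Ef S0 - ch S0 * ∏ b ∈ U ∪ A, sgz (lb b)) / l ^ 2 =
          (Ef S0 - ch S0 * ∏ b ∈ U, sgz (lb b)) / l ^ 2 +
            ch S0 * (∏ b ∈ U, sgz (lb b)) * ((1 - ∏ a ∈ A, sgz (lb a)) / l ^ 2) := by
        rw [prod_union hUA]
        ring
      rw [e1]
      exact h6
    have h6 := (Rt_sgn' hB (C \ A).card).mul hB
      (((H.hcU.mul hB h5).mul hB h3).mul hB h4)
    have e1 : (-1) ^ (C \ A).card * (UxD cU Y Ef ch lb S0 (U ∪ A) /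
        (1 * l ^ (S0.card + U.card + 2 * A.card + 0)) *
          ∏ b ∈ C \ A, (fcB eX xX s S0 (U ∪ A) b / l ^ 2)) / l =
        (-1) ^ (C \ A).card * (cU * l ^ (nY + 1) *
          ((Ef S0 - ch S0 * ∏ b ∈ U ∪ A, sgz (lb b)) / l ^ 2) *
          (Y S0 (U ∪ A) / (1 * l ^ (S0.card + U.card + 2 * A.card + nY))) *
          ∏ b ∈ C \ A, (fcB eX xX s S0 (U ∪ A) b / l ^ 2)) := by
      rw [UxD]
      have h7 : l ^ (S0.card + U.card + 2 * A.card) ≠ 0 := pow_ne_zero _ hl0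
      rw [pow_add l nY 1, pow_add l _ nY, add_zero]
      field_simp
    rw [e1]
    simp only [one_mul] at h6 ⊢
    exact h6
  -- the sums of `M`
  have hM3 : ∀ C ⊆ V, Rt B (phD l M e x s S0 U C / l)
      ((cf (P C) C).coeff 1 + thB2 s (fun b => τ b + c b) (fun A => (w1 + ∑ b ∈ A, lb b) *
        solB s (fun b => τ b + c b) (fun A => cf (PY A) A) A) C) := by
    intro C hC
    have h3 := (H.phi2 hUB hV hUV hP hC).2
    rw [coeff1_top hstep hUB hV hUV hu0 hu1 hv0 hC U subset_rfl] at h3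
    have h4 := h3.add hB (hU3 C hC)
    have e1 : ∀ u v : ℂ, (v - u) / l + u / l = v / l := fun u v => by ring
    rwa [e1] at h4
  intro m
  induction m using Nat.strong_induction_on with
  | _ m ih =>
  intro C hC hm
  set φ : Finset ι → ZMod 2 := fun C => (cf (P C) C).coeff 1 + thB2 s (fun b => τ b + c b)
    (fun A => (w1 + ∑ b ∈ A, lb b) *
      solB s (fun b => τ b + c b) (fun A => cf (PY A) A) A) C with hφ
  have h3 := hM3 C hC
  rw [phD, ← add_sum_erase _ _ (mem_powerset_self C), Finset.sdiff_self, prod_empty, mul_one,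
    card_empty, pow_zero, one_mul, add_div] at h3
  have h4 : Rt B ((∑ A ∈ C.powerset.erase C, (-1) ^ (C \ A).card *
      (M S0 (U ∪ A) / (1 * l ^ (S0.card + U.card + 2 * A.card + 0)) *
        ∏ b ∈ C \ A, (fcB e x s S0 (U ∪ A) b / l ^ 2))) / l)
      (∑ A ∈ C.powerset.erase C, solB s τ φ A * ∏ b ∈ C \ A, (τ b + ∑ a ∈ A, s b a)) := by
    rw [sum_div]
    refine Rt.sum hB _ fun A hA => ?_
    rw [mem_erase, mem_powerset] at hA
    have hAC := Finset.ssubset_iff_subset_ne.2 ⟨hA.2, hA.1⟩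
    have h8 := ih A.card (hm ▸ card_lt_card hAC) A (hA.2.trans hC) rfl
    have h9 := (Rt_sgn' hB (C \ A).card).mul hB (h8.mul hB (Rt.prod hB (C \ A)
      fun b hb => H.hM.fac2 (U := U) (A := A) (disjoint_of_subset_right (hA.2.trans hC) hUV)
        (h1M b (hC (mem_sdiff.1 hb).1)) (h2 b (hC (mem_sdiff.1 hb).1))))
    rw [one_mul] at h9
    have e1 : (-1) ^ (C \ A).card * (M S0 (U ∪ A) /
        (1 * l ^ (S0.card + U.card + 2 * A.card + 0)) *
          ∏ b ∈ C \ A, (fcB e x s S0 (U ∪ A) b / l ^ 2)) / l =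
        (-1) ^ (C \ A).card * (M S0 (U ∪ A) / l ^ (S0.card + U.card + 2 * A.card + 1) *
          ∏ b ∈ C \ A, (fcB e x s S0 (U ∪ A) b / l ^ 2)) := by
      rw [div_pow_one]
      ring
    rw [e1]
    exact h9
  have h5 := h3.sub hB h4
  rw [add_sub_cancel_right] at h5
  have h6 := solB_eq s τ φ C
  rw [← add_sum_erase _ _ (mem_powerset_self C), Finset.sdiff_self, prod_empty, mul_one] at h6
  have h7 : φ C - ∑ A ∈ C.powerset.erase C, solB s τ φ A *
      ∏ b ∈ C \ A, (τ b + ∑ a ∈ A, s b a) = solB s τ φ C := by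
    rw [← h6, add_sub_cancel_right]
  rw [div_pow_one, ← h7]
  exact h5

end

end

end Pool.Agent.Lib.MP_1a91b9_ntQ
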