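import Mathlib

/-!
# Quartic twists, stage 2, file ExA: the algebra of the expansions (2.1) - (2.3) of page B2

A commutative ring with `2 = 0` and `l ^ 2 = 0`; `i = l - 1`.  Cofactors found by machine.
-/

set_option autoImplicit false
set_option linter.unusedVariables false
set_option linter.unusedSectionVars false

namespace Pool.Agent.Lib.MP_1a91b9_ntQ.Ex

variable {R : Type*} [CommRing R]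

/-- the polynomial `A` -/
def gA (i t : R) : R := 1 + (5 + i) * t + t ^ 2

/-- the polynomial `B` -/
def gB (l t : R) : R := t ^ 2 - 3 * l * t - l

/-- the polynomial `C` -/
def gC (i t : R) : R := 1 + (1 - i) * t - (2 - i) * t ^ 2

/-- the polynomial `D` -/
def gD (i t : R) : R := (1 + 3 * i) * t + (2 + i) * t ^ 2

/-- the polynomial `W` -/
def gW (i l t : R) : R := 1 + (4 - 2 * i) * t - l * t ^ 2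

/-- the polynomial `E5` -/
def gE5 (i l t : R) : R :=
  1 + (2 - 2 * i) * t - (10 + 8 * i) * t ^ 2 + (-16 + 4 * i) * t ^ 3 - l * t ^ 4

/-- the polynomial `E6` -/
def gE6 (i l t : R) : R :=
  1 + 12 * t + (62 - 18 * i) * t ^ 2 + (140 - 132 * i) * t ^ 3 + (50 - 260 * i) * t ^ 4 -
    (100 + 92 * i) * t ^ 5 + 108 * t ^ 6 + (64 - 24 * i) * t ^ 7 - l * t ^ 8

section

variable {S : Type*} [CommRing S] (f : R →+* S) (i l t : R)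

theorem map_gA : f (gA i t) = gA (f i) (f t) := by
  simp only [gA, map_add, map_sub, map_neg, map_mul, map_pow, map_one, map_ofNat]

theorem map_gB : f (gB l t) = gB (f l) (f t) := by
  simp only [gB, map_add, map_sub, map_neg, map_mul, map_pow, map_one, map_ofNat]

theorem map_gC : f (gC i t) = gC (f i) (f t) := by
  simp only [gC, map_add, map_sub, map_neg, map_mul, map_pow, map_one, map_ofNat]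

theorem map_gD : f (gD i t) = gD (f i) (f t) := by
  simp only [gD, map_add, map_sub, map_neg, map_mul, map_pow, map_one, map_ofNat]

theorem map_gW : f (gW i l t) = gW (f i) (f l) (f t) := by
  simp only [gW, map_add, map_sub, map_neg, map_mul, map_pow, map_one, map_ofNat]

theorem map_gE5 : f (gE5 i l t) = gE5 (f i) (f l) (f t) := by
  simp only [gE5, map_add, map_sub, map_neg, map_mul, map_pow, map_one, map_ofNat]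

theorem map_gE6 : f (gE6 i l t) = gE6 (f i) (f l) (f t) := by
  simp only [gE6, map_add, map_sub, map_neg, map_mul, map_pow, map_one, map_ofNat]

end

theorem ex_inv6 {l t u N : R} (h2 : (2 : R) = 0) (hl : l ^ 2 = 0)
    (h : u * gE6 (l - 1) l t = N) : u = N * (1 + l * t ^ 8) := by
  rw [gE6] at h
  linear_combination (1 + l * t ^ 8) * h +
    u * (
      -6 * t - 40 * t ^ 2 + 9 * l * t ^ 2 - 136 * t ^ 3 + 66 * l * t ^ 3 - 155 * t ^ 4 + 130 * l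
      * t ^ 4 + 4 * t ^ 5 + 46 * l * t ^ 5 - 54 * t ^ 6 - 44 * t ^ 7 + 12 * l * t ^ 7 - 6 * l *
      t ^ 9 - 40 * l * t ^ 10 - 136 * l * t ^ 11 - 155 * l * t ^ 12 + 4 * l * t ^ 13 - 54 * l *
      t ^ 14 - 44 * l * t ^ 15) * h2 +
    u * (
      18 * t ^ 10 + 132 * t ^ 11 + 260 * t ^ 12 + 92 * t ^ 13 + 24 * t ^ 15 + t ^ 16) * hl

theorem ex_inv5 {l t u N : R} (h2 : (2 : R) = 0) (hl : l ^ 2 = 0)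
    (h : u * gE5 (l - 1) l t = N) : u = N * (1 + l * t ^ 4) := by
  rw [gE5] at h
  linear_combination (1 + l * t ^ 4) * h +
    u * (
      -2 * t + l * t + t ^ 2 + 4 * l * t ^ 2 + 10 * t ^ 3 - 2 * l * t ^ 3 - 2 * l * t ^ 5 + l *
      t ^ 6 + 10 * l * t ^ 7) * h2 +
    u * (
      2 * t ^ 5 + 8 * t ^ 6 - 4 * t ^ 7 + t ^ 8) * hl

/-- the step `x (lm z)` -/
theorem ex_x {l x x1 : R} (h2 : (2 : R) = 0) (hl : l ^ 2 = 0)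
    (h : x1 * (1 + 2 * x) = -((l - 1) * (x ^ 2 + (1 - (l - 1)) * x))) :
    x1 = (1 + l) * x ^ 2 + l * x := by
  linear_combination h + (x - 2 * l * x - x * x1 - l * x ^ 2) * h2 + (x) * hl

theorem ex_x2 {l x x1 x2 : R} (h2 : (2 : R) = 0) (hl : l ^ 2 = 0)
    (h1 : x1 = (1 + l) * x ^ 2 + l * x) (h : x2 = (1 + l) * x1 ^ 2 + l * x1) :
    x2 = (1 + l) * x ^ 4 + l * x ^ 2 := by
  subst h1 h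
  linear_combination (
    l * x ^ 3 + l * x ^ 4) * h2 + (
    x + 2 * x ^ 2 + l * x ^ 2 + 4 * x ^ 3 + 2 * l * x ^ 3 + 3 * x ^ 4 + l * x ^ 4) * hl

theorem ex_x3 {l x x2 x3 : R} (h2 : (2 : R) = 0) (hl : l ^ 2 = 0)
    (h1 : x2 = (1 + l) * x ^ 4 + l * x ^ 2) (h : x3 = (1 + l) * x2 ^ 2 + l * x2) :
    x3 = (1 + l) * x ^ 8 + l * x ^ 4 := by
  subst h1 h
  linear_combination (
    l * x ^ 6 + l * x ^ 8) * h2 + (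
    x ^ 2 + 2 * x ^ 4 + l * x ^ 4 + 4 * x ^ 6 + 2 * l * x ^ 6 + 3 * x ^ 8 + l * x ^ 8) * hl

/-- the step `al (lm z)` -/
theorem ex_a {l x a a1 t : R} (h2 : (2 : R) = 0) (ha : l * a = l * x)
    (h : a1 * (1 + 4 * t) = -(1 - (l - 1)) - (t + a) - l * t * a - 2 * (1 - (l - 1)) * t) :
    a1 = a + t + l * (t * x + 1) := by
  linear_combination h - (1 + t + a + 2 * t - l * t + 2 * t * a1 + l * t * x) * h2 - t * ha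

theorem ex_as {l x1 a1 a2 t1 : R} (h2 : (2 : R) = 0) (h : a2 = a1 + t1 + l * (t1 * x1 + 1)) :
    a1 + a2 = t1 + l * (t1 * x1 + 1) := by
  linear_combination h + a1 * h2

theorem ex_30 {l u x x1 x2 t t1 t2 x3 t3 : R} (h2 : (2 : R) = 0) (hl : l ^ 2 = 0)
    (e1 : x1 = (1 + l) * x ^ 2 + l * x)
    (e2 : x2 = (1 + l) * x ^ 4 + l * x ^ 2)
    (e3 : x3 = (1 + l) * x ^ 8 + l * x ^ 4)
    (f0 : t = x + x ^ 2)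
    (f1 : t1 = x1 + x1 ^ 2)
    (f2 : t2 = x2 + x2 ^ 2)
    (f3 : t3 = x3 + x3 ^ 2)
    (h : u * gE6 (l - 1) l t = t * (t + l) * (1 + l * t) * (1 - 2 * (l - 1) * t) * (1 + 4 * t) * gC (l - 1) t)
    : u = x1 + x3 + l * ((t + t3) * (t1 + t2)) := by
  have h0 := ex_inv6 h2 hl h
  clear h
  rw [h0]
  clear h0
  subst f0 f1 f2 f3 e1 e2 e3
  simp only [gC]
  linear_combination (
    4 * l * x ^ 2 + 5 * x ^ 3 + 15 * l * x ^ 3 + 21 * x ^ 4 + 20 * l * x ^ 4 + 45 * x ^ 5 - 10 *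
    l * x ^ 5 + 38 * x ^ 6 - 59 * l * x ^ 6 - 48 * x ^ 7 - 39 * l * x ^ 7 - 182 * x ^ 8 + 40 * l
    * x ^ 8 - 245 * x ^ 9 - 181 * x ^ 10 - 205 * l * x ^ 10 - 72 * x ^ 11 - 321 * l * x ^ 11 -
    12 * x ^ 12 - 163 * l * x ^ 12 + 297 * l * x ^ 13 + 1289 * l * x ^ 14 + 3070 * l * x ^ 15 +
    4782 * l * x ^ 16 + 3557 * l * x ^ 17 - 4103 * l * x ^ 18 - 18343 * l * x ^ 19 - 33325 * l *
    x ^ 20 - 40557 * l * x ^ 21 - 36186 * l * x ^ 22 - 24208 * l * x ^ 23 - 12082 * l * x ^ 24 -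
    4381 * l * x ^ 25 - 1093 * l * x ^ 26 - 168 * l * x ^ 27 - 12 * l * x ^ 28) * h2 + (
    -3 * x ^ 2 - 16 * x ^ 3 - 2 * l * x ^ 3 - 29 * x ^ 4 - 17 * l * x ^ 4 + 3 * x ^ 5 - 70 * l *
    x ^ 5 + 2 * l ^ 2 * x ^ 4 + 62 * x ^ 6 - 123 * l * x ^ 6 + 14 * l ^ 2 * x ^ 5 - 28 * x ^ 7 -
    8 * l * x ^ 7 + 33 * l ^ 2 * x ^ 6 - 246 * x ^ 8 + 318 * l * x ^ 8 + 18 * l ^ 2 * x ^ 7 -
    115 * x ^ 9 + 500 * l * x ^ 9 - 60 * l ^ 2 * x ^ 8 + 491 * x ^ 10 + 263 * l * x ^ 10 - 131 *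
    l ^ 2 * x ^ 9 + 985 * x ^ 11 - 85 * l * x ^ 11 - 119 * l ^ 2 * x ^ 10 + 1220 * x ^ 12 - 324
    * l * x ^ 12 - 53 * l ^ 2 * x ^ 11 - l ^ 3 * x ^ 10 + 1984 * x ^ 13 - 726 * l * x ^ 13 - 36
    * l ^ 2 * x ^ 12 - 2 * l ^ 3 * x ^ 11 + 3366 * x ^ 14 - 1456 * l * x ^ 14 - 207 * l ^ 2 * x
    ^ 13 + 3544 * x ^ 15 - 1700 * l * x ^ 15 - 1097 * l ^ 2 * x ^ 14 + 30 * l ^ 3 * x ^ 13 + 130
    * x ^ 16 - 702 * l * x ^ 16 - 3638 * l ^ 2 * x ^ 15 + 198 * l ^ 3 * x ^ 14 - 5999 * x ^ 17 -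
    303 * l * x ^ 17 - 7730 * l ^ 2 * x ^ 16 + 792 * l ^ 3 * x ^ 15 - 10200 * x ^ 18 - 4405 * l
    * x ^ 18 - 9053 * l ^ 2 * x ^ 17 + 1973 * l ^ 3 * x ^ 16 - 11463 * x ^ 19 - 10147 * l * x ^
    19 + 726 * l ^ 2 * x ^ 18 + 2962 * l ^ 3 * x ^ 17 - 19207 * x ^ 20 - 1965 * l * x ^ 20 +
    25385 * l ^ 2 * x ^ 19 + 1557 * l ^ 3 * x ^ 18 - 43868 * x ^ 21 + 34386 * l * x ^ 21 + 53689
    * l ^ 2 * x ^ 20 - 4138 * l ^ 3 * x ^ 19 - 78648 * x ^ 22 + 87622 * l * x ^ 22 + 64779 * l ^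
    2 * x ^ 21 - 12742 * l ^ 3 * x ^ 20 - 99946 * x ^ 23 + 123314 * l * x ^ 23 + 49031 * l ^ 2 *
    x ^ 22 - 19294 * l ^ 3 * x ^ 21 - 91587 * x ^ 24 + 117596 * l * x ^ 24 + 19316 * l ^ 2 * x ^
    23 - 19604 * l ^ 3 * x ^ 22 - 61399 * x ^ 25 + 80327 * l * x ^ 25 - 3421 * l ^ 2 * x ^ 24 -
    14276 * l ^ 3 * x ^ 23 - 30049 * x ^ 26 + 39695 * l * x ^ 26 - 10426 * l ^ 2 * x ^ 25 - 7539
    * l ^ 3 * x ^ 24 - 10500 * x ^ 27 + 13944 * l * x ^ 27 - 7480 * l ^ 2 * x ^ 26 - 2834 * l ^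
    3 * x ^ 25 - 2490 * x ^ 28 + 3316 * l * x ^ 28 - 3108 * l ^ 2 * x ^ 27 - 722 * l ^ 3 * x ^
    26 - 360 * x ^ 29 + 480 * l * x ^ 29 - 802 * l ^ 2 * x ^ 28 - 112 * l ^ 3 * x ^ 27 - 24 * x
    ^ 30 + 32 * l * x ^ 30 - 120 * l ^ 2 * x ^ 29 - 8 * l ^ 3 * x ^ 28 - 8 * l ^ 2 * x ^ 30) * hl

theorem ex_32 {l u x x1 x2 t t1 t2 x3 t3 : R} (h2 : (2 : R) = 0) (hl : l ^ 2 = 0)
    (e1 : x1 = (1 + l) * x ^ 2 + l * x)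
    (e2 : x2 = (1 + l) * x ^ 4 + l * x ^ 2)
    (e3 : x3 = (1 + l) * x ^ 8 + l * x ^ 4)
    (f0 : t = x + x ^ 2)
    (f1 : t1 = x1 + x1 ^ 2)
    (f2 : t2 = x2 + x2 ^ 2)
    (f3 : t3 = x3 + x3 ^ 2)
    (h : u * gE6 (l - 1) l t = (1 + 2 * x) * (1 + l * t) * (1 - 2 * (l - 1) * t) ^ 2 * (gA (l - 1) t * gB l t))
    : u = (1 + l) * (x1 + x3) + l * (1 + (t + t3) * (t1 + t2)) := by
  have h0 := ex_inv6 h2 hl h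
  clear h
  rw [h0]
  clear h0
  subst f0 f1 f2 f3 e1 e2 e3
  simp only [gA, gB]
  linear_combination (
    -l - 7 * l * x - 40 * l * x ^ 2 + 6 * x ^ 3 - 144 * l * x ^ 3 + 33 * x ^ 4 - 364 * l * x ^ 4
    + 110 * x ^ 5 - 668 * l * x ^ 5 + 247 * x ^ 6 - 905 * l * x ^ 6 + 392 * x ^ 7 - 873 * l * x
    ^ 7 + 448 * x ^ 8 - 508 * l * x ^ 8 + 371 * x ^ 9 + 6 * l * x ^ 9 + 220 * x ^ 10 + 357 * l *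
    x ^ 10 + 92 * x ^ 11 + 413 * l * x ^ 11 + 26 * x ^ 12 + 354 * l * x ^ 12 + 4 * x ^ 13 + 680
    * l * x ^ 13 + 2452 * l * x ^ 14 + 7748 * l * x ^ 15 + 19320 * l * x ^ 16 + 38487 * l * x ^
    17 + 62120 * l * x ^ 18 + 81978 * l * x ^ 19 + 88873 * l * x ^ 20 + 79256 * l * x ^ 21 +
    58029 * l * x ^ 22 + 34696 * l * x ^ 23 + 16772 * l * x ^ 24 + 6443 * l * x ^ 25 + 1908 * l
    * x ^ 26 + 412 * l * x ^ 27 + 58 * l * x ^ 28 + 4 * l * x ^ 29) * h2 + (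
    x + 22 * x ^ 2 + 3 * l * x ^ 2 + 120 * x ^ 3 + 32 * l * x ^ 3 + 338 * x ^ 4 + 181 * l * x ^
    4 - 4 * l ^ 2 * x ^ 3 + 510 * x ^ 5 + 670 * l * x ^ 5 - 40 * l ^ 2 * x ^ 4 + 173 * x ^ 6 +
    1743 * l * x ^ 6 - 184 * l ^ 2 * x ^ 5 - 4 * l ^ 3 * x ^ 4 - 988 * x ^ 7 + 3242 * l * x ^ 7
    - 513 * l ^ 2 * x ^ 6 - 36 * l ^ 3 * x ^ 5 - 2556 * x ^ 8 + 4351 * l * x ^ 8 - 954 * l ^ 2 *
    x ^ 7 - 140 * l ^ 3 * x ^ 6 - 3568 * x ^ 9 + 4268 * l * x ^ 9 - 1238 * l ^ 2 * x ^ 8 - 304 *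
    l ^ 3 * x ^ 7 - 3603 * x ^ 10 + 3157 * l * x ^ 10 - 1141 * l ^ 2 * x ^ 9 - 396 * l ^ 3 * x ^
    8 - 3717 * x ^ 11 + 2131 * l * x ^ 11 - 750 * l ^ 2 * x ^ 10 - 308 * l ^ 3 * x ^ 9 - 7258 *
    x ^ 12 + 2882 * l * x ^ 12 - 291 * l ^ 2 * x ^ 11 - 133 * l ^ 3 * x ^ 10 - 20984 * x ^ 13 +
    8445 * l * x ^ 13 + 422 * l ^ 2 * x ^ 12 - 30 * l ^ 3 * x ^ 11 - 55220 * x ^ 14 + 22631 * l
    * x ^ 14 + 3221 * l ^ 2 * x ^ 13 - 74 * l ^ 3 * x ^ 12 - 119064 * x ^ 15 + 44072 * l * x ^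
    15 + 14347 * l ^ 2 * x ^ 14 - 616 * l ^ 3 * x ^ 13 - 4 * l ^ 4 * x ^ 12 - 209498 * x ^ 16 +
    54930 * l * x ^ 16 + 48896 * l ^ 2 * x ^ 15 - 3332 * l ^ 3 * x ^ 14 - 68 * l ^ 4 * x ^ 13 -
    300945 * x ^ 17 + 17254 * l * x ^ 17 + 131839 * l ^ 2 * x ^ 16 - 12724 * l ^ 3 * x ^ 15 -
    540 * l ^ 4 * x ^ 14 - 349319 * x ^ 18 - 106524 * l * x ^ 18 + 286337 * l ^ 2 * x ^ 17 -
    36521 * l ^ 3 * x ^ 16 - 2656 * l ^ 4 * x ^ 15 - 316811 * x ^ 19 - 313347 * l * x ^ 19 +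
    506509 * l ^ 2 * x ^ 18 - 81588 * l ^ 3 * x ^ 17 - 9044 * l ^ 4 * x ^ 16 - 203071 * x ^ 20 -
    537961 * l * x ^ 20 + 735647 * l ^ 2 * x ^ 19 - 145089 * l ^ 3 * x ^ 18 - 22572 * l ^ 4 * x
    ^ 17 - 53572 * x ^ 21 - 683493 * l * x ^ 21 + 882555 * l ^ 2 * x ^ 20 - 208254 * l ^ 3 * x ^
    19 - 42636 * l ^ 4 * x ^ 18 + 68124 * x ^ 22 - 687085 * l * x ^ 22 + 879071 * l ^ 2 * x ^ 21
    - 243324 * l ^ 3 * x ^ 20 - 62040 * l ^ 4 * x ^ 19 + 122734 * x ^ 23 - 561306 * l * x ^ 23 +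
    730129 * l ^ 2 * x ^ 22 - 232320 * l ^ 3 * x ^ 21 - 70092 * l ^ 4 * x ^ 20 + 114706 * x ^ 24
    - 376556 * l * x ^ 24 + 507470 * l ^ 2 * x ^ 23 - 181242 * l ^ 3 * x ^ 22 - 61468 * l ^ 4 *
    x ^ 21 + 76405 * x ^ 25 - 207496 * l * x ^ 25 + 295656 * l ^ 2 * x ^ 24 - 115000 * l ^ 3 * x
    ^ 23 - 41492 * l ^ 4 * x ^ 22 + 38691 * x ^ 26 - 93132 * l * x ^ 26 + 144116 * l ^ 2 * x ^
    25 - 58741 * l ^ 3 * x ^ 24 - 21168 * l ^ 4 * x ^ 23 + 15046 * x ^ 27 - 33424 * l * x ^ 27 +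
    58284 * l ^ 2 * x ^ 26 - 23700 * l ^ 3 * x ^ 25 - 7900 * l ^ 4 * x ^ 24 + 4408 * x ^ 28 -
    9280 * l * x ^ 28 + 19204 * l ^ 2 * x ^ 27 - 7308 * l ^ 3 * x ^ 26 - 2036 * l ^ 4 * x ^ 25 +
    924 * x ^ 29 - 1880 * l * x ^ 29 + 4988 * l ^ 2 * x ^ 28 - 1624 * l ^ 3 * x ^ 27 - 324 * l ^
    4 * x ^ 26 + 124 * x ^ 30 - 248 * l * x ^ 30 + 964 * l ^ 2 * x ^ 29 - 232 * l ^ 3 * x ^ 28 -
    24 * l ^ 4 * x ^ 27 + 8 * x ^ 31 - 16 * l * x ^ 31 + 124 * l ^ 2 * x ^ 30 - 16 * l ^ 3 * x ^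
    29 + 8 * l ^ 2 * x ^ 31) * hl

theorem ex_11 {l u x x1 x2 t t1 t2 x3 t3 a : R} (h2 : (2 : R) = 0) (hl : l ^ 2 = 0)
    (e1 : x1 = (1 + l) * x ^ 2 + l * x)
    (e2 : x2 = (1 + l) * x ^ 4 + l * x ^ 2)
    (e3 : x3 = (1 + l) * x ^ 8 + l * x ^ 4)
    (f0 : t = x + x ^ 2)
    (f1 : t1 = x1 + x1 ^ 2)
    (f2 : t2 = x2 + x2 ^ 2)
    (f3 : t3 = x3 + x3 ^ 2)
    (ha : l * a = l * x)
    (h : u * gE6 (l - 1) l t = (1 + 2 * x) * (1 + l * a) * gW (l - 1) l t * (t * (t + l)) * gC (l - 1) t)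
    : u = x1 + x3 + l * ((t + t3) * (t1 + t2) + x2 * (t1 + t2)) := by
  have h0 := ex_inv6 h2 hl h
  have h1 : (1 + 2 * x) * (1 + l * a) * gW (l - 1) l t * (t * (t + l)) * gC (l - 1) t = (1 + 2 * x) * (1 + l * x) * gW (l - 1) l t * (t * (t + l)) * gC (l - 1) t := by
    rw [ha]
  rw [h1] at h0
  clear h1 h
  clear ha
  rw [h0]
  clear h0
  subst f0 f1 f2 f3 e1 e2 e3
  simp only [gC, gW]
  linear_combination (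
    5 * l * x ^ 2 + 6 * x ^ 3 + 20 * l * x ^ 3 + 27 * x ^ 4 + 26 * l * x ^ 4 + 55 * x ^ 5 - 18 *
    l * x ^ 5 + 28 * x ^ 6 - 85 * l * x ^ 6 - 100 * x ^ 7 - 78 * l * x ^ 7 - 230 * x ^ 8 - 37 *
    l * x ^ 8 - 216 * x ^ 9 - 58 * l * x ^ 9 - 99 * x ^ 10 - 79 * l * x ^ 10 - 18 * x ^ 11 - 25
    * l * x ^ 11 + 89 * l * x ^ 12 + 470 * l * x ^ 13 + 1595 * l * x ^ 14 + 3624 * l * x ^ 15 +
    5074 * l * x ^ 16 + 2250 * l * x ^ 17 - 8009 * l * x ^ 18 - 23380 * l * x ^ 19 - 35427 * l *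
    x ^ 20 - 36541 * l * x ^ 21 - 27232 * l * x ^ 22 - 14788 * l * x ^ 23 - 5738 * l * x ^ 24 -
    1512 * l * x ^ 25 - 243 * l * x ^ 26 - 18 * l * x ^ 27) * h2 + (
    -3 * x ^ 2 - 14 * x ^ 3 - 3 * l * x ^ 3 - 18 * x ^ 4 - 18 * l * x ^ 4 + 14 * x ^ 5 - 50 * l
    * x ^ 5 + l ^ 2 * x ^ 4 + 14 * x ^ 6 - 39 * l * x ^ 6 + 7 * l ^ 2 * x ^ 5 - 77 * x ^ 7 + 71
    * l * x ^ 7 + 7 * l ^ 2 * x ^ 6 - 80 * x ^ 8 + 153 * l * x ^ 8 - 11 * l ^ 2 * x ^ 7 + 151 *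
    x ^ 9 + 112 * l * x ^ 9 - 38 * l ^ 2 * x ^ 8 + 322 * x ^ 10 - 2 * l * x ^ 10 - 40 * l ^ 2 *
    x ^ 9 + 398 * x ^ 11 - 66 * l * x ^ 11 - 35 * l ^ 2 * x ^ 10 + 852 * x ^ 12 - 201 * l * x ^
    12 - 16 * l ^ 2 * x ^ 11 - l ^ 3 * x ^ 10 + 2269 * x ^ 13 - 519 * l * x ^ 13 - 30 * l ^ 2 *
    x ^ 12 - 2 * l ^ 3 * x ^ 11 + 4197 * x ^ 14 - 949 * l * x ^ 14 - 176 * l ^ 2 * x ^ 13 + 4094
    * x ^ 15 - 943 * l * x ^ 15 - 795 * l ^ 2 * x ^ 14 + 25 * l ^ 3 * x ^ 13 - 1514 * x ^ 16 -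
    487 * l * x ^ 16 - 2135 * l ^ 2 * x ^ 15 + 135 * l ^ 3 * x ^ 14 - 12523 * x ^ 17 - 825 * l *
    x ^ 17 - 3346 * l ^ 2 * x ^ 16 + 441 * l ^ 3 * x ^ 15 - 23548 * x ^ 18 - 2275 * l * x ^ 18 -
    1675 * l ^ 2 * x ^ 17 + 859 * l ^ 3 * x ^ 16 - 29275 * x ^ 19 - 344 * l * x ^ 19 + 5203 * l
    ^ 2 * x ^ 18 + 867 * l ^ 3 * x ^ 17 - 30002 * x ^ 20 + 11052 * l * x ^ 20 + 15120 * l ^ 2 *
    x ^ 19 - 302 * l ^ 3 * x ^ 18 - 28486 * x ^ 21 + 30071 * l * x ^ 21 + 21236 * l ^ 2 * x ^ 20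
    - 2719 * l ^ 3 * x ^ 19 - 24623 * x ^ 22 + 44913 * l * x ^ 22 + 18637 * l ^ 2 * x ^ 21 -
    5284 * l ^ 3 * x ^ 20 - 17300 * x ^ 23 + 45593 * l * x ^ 23 + 9549 * l ^ 2 * x ^ 22 - 6457 *
    l ^ 3 * x ^ 21 - 8765 * x ^ 24 + 33753 * l * x ^ 24 + 697 * l ^ 2 * x ^ 23 - 5689 * l ^ 3 *
    x ^ 22 - 2743 * x ^ 25 + 18811 * l * x ^ 25 - 3547 * l ^ 2 * x ^ 24 - 3749 * l ^ 3 * x ^ 23
    - 297 * x ^ 26 + 7967 * l * x ^ 26 - 3576 * l ^ 2 * x ^ 25 - 1857 * l ^ 3 * x ^ 24 + 122 * x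
    ^ 27 + 2535 * l * x ^ 27 - 2031 * l ^ 2 * x ^ 26 - 675 * l ^ 3 * x ^ 25 + 51 * x ^ 28 + 579
    * l * x ^ 28 - 767 * l ^ 2 * x ^ 27 - 171 * l ^ 3 * x ^ 26 + 6 * x ^ 29 + 85 * l * x ^ 29 -
    192 * l ^ 2 * x ^ 28 - 27 * l ^ 3 * x ^ 27 + 6 * l * x ^ 30 - 29 * l ^ 2 * x ^ 29 - 2 * l ^
    3 * x ^ 28 - 2 * l ^ 2 * x ^ 30) * hl

theorem ex_13 {l u x x1 x2 t t1 t2 x3 t3 a : R} (h2 : (2 : R) = 0) (hl : l ^ 2 = 0)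
    (e1 : x1 = (1 + l) * x ^ 2 + l * x)
    (e2 : x2 = (1 + l) * x ^ 4 + l * x ^ 2)
    (e3 : x3 = (1 + l) * x ^ 8 + l * x ^ 4)
    (f0 : t = x + x ^ 2)
    (f1 : t1 = x1 + x1 ^ 2)
    (f2 : t2 = x2 + x2 ^ 2)
    (f3 : t3 = x3 + x3 ^ 2)
    (ha : l * a = l * x)
    (h : u * gE6 (l - 1) l t = (1 + l * a) * gW (l - 1) l t * (1 - 2 * (l - 1) * t) * (gA (l - 1) t * gB l t))
    : u = (1 + l) * (x1 + x3) + l * (1 + (t + t3) * (t1 + t2) + x2 * (t1 + t2)) := by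
  have h0 := ex_inv6 h2 hl h
  have h1 : (1 + l * a) * gW (l - 1) l t * (1 - 2 * (l - 1) * t) * (gA (l - 1) t * gB l t) = (1 + l * x) * gW (l - 1) l t * (1 - 2 * (l - 1) * t) * (gA (l - 1) t * gB l t) := by
    rw [ha]
  rw [h1] at h0
  clear h1 h
  clear ha
  rw [h0]
  clear h0
  subst f0 f1 f2 f3 e1 e2 e3
  simp only [gA, gB, gW]
  linear_combination (
    -l - 8 * l * x - 49 * l * x ^ 2 + 7 * x ^ 3 - 178 * l * x ^ 3 + 41 * x ^ 4 - 428 * l * x ^ 4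
    + 136 * x ^ 5 - 710 * l * x ^ 5 + 287 * x ^ 6 - 835 * l * x ^ 6 + 406 * x ^ 7 - 689 * l * x
    ^ 7 + 392 * x ^ 8 - 383 * l * x ^ 8 + 260 * x ^ 9 - 124 * l * x ^ 9 + 118 * x ^ 10 - 12 * l
    * x ^ 10 + 36 * x ^ 11 + 19 * l * x ^ 11 + 6 * x ^ 12 + 112 * l * x ^ 12 + 687 * l * x ^ 13
    + 2949 * l * x ^ 14 + 9324 * l * x ^ 15 + 22568 * l * x ^ 16 + 42856 * l * x ^ 17 + 64834 *
    l * x ^ 18 + 78875 * l * x ^ 19 + 77533 * l * x ^ 20 + 61644 * l * x ^ 21 + 39529 * l * x ^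
    22 + 20290 * l * x ^ 23 + 8212 * l * x ^ 24 + 2548 * l * x ^ 25 + 574 * l * x ^ 26 + 84 * l
    * x ^ 27 + 6 * l * x ^ 28) * h2 + (
    x + 20 * x ^ 2 + 3 * l * x ^ 2 + 106 * x ^ 3 + 34 * l * x ^ 3 + 294 * x ^ 4 + 184 * l * x ^
    4 - 4 * l ^ 2 * x ^ 3 + 459 * x ^ 5 + 565 * l * x ^ 5 - 28 * l ^ 2 * x ^ 4 + 300 * x ^ 6 +
    1100 * l * x ^ 6 - 92 * l ^ 2 * x ^ 5 - 4 * l ^ 3 * x ^ 4 - 221 * x ^ 7 + 1445 * l * x ^ 7 -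
    205 * l ^ 2 * x ^ 6 - 26 * l ^ 3 * x ^ 5 - 718 * x ^ 8 + 1357 * l * x ^ 8 - 343 * l ^ 2 * x
    ^ 7 - 74 * l ^ 3 * x ^ 6 - 848 * x ^ 9 + 1025 * l * x ^ 9 - 436 * l ^ 2 * x ^ 8 - 118 * l ^
    3 * x ^ 7 - 896 * x ^ 10 + 689 * l * x ^ 10 - 384 * l ^ 2 * x ^ 9 - 116 * l ^ 3 * x ^ 8 -
    1978 * x ^ 11 + 701 * l * x ^ 11 - 231 * l ^ 2 * x ^ 10 - 74 * l ^ 3 * x ^ 9 - 7463 * x ^ 12
    + 2050 * l * x ^ 12 - 32 * l ^ 2 * x ^ 11 - 31 * l ^ 3 * x ^ 10 - 24725 * x ^ 13 + 7345 * l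
    * x ^ 13 + 530 * l ^ 2 * x ^ 12 - 12 * l ^ 3 * x ^ 11 - 64407 * x ^ 14 + 20189 * l * x ^ 14
    + 3255 * l ^ 2 * x ^ 13 - 61 * l ^ 3 * x ^ 12 - 132898 * x ^ 15 + 40991 * l * x ^ 15 + 13202
    * l ^ 2 * x ^ 14 - 418 * l ^ 3 * x ^ 13 - 4 * l ^ 4 * x ^ 12 - 220346 * x ^ 16 + 59971 * l *
    x ^ 16 + 39641 * l ^ 2 * x ^ 15 - 1905 * l ^ 3 * x ^ 14 - 58 * l ^ 4 * x ^ 13 - 296087 * x ^
    17 + 57328 * l * x ^ 17 + 91478 * l ^ 2 * x ^ 16 - 6263 * l ^ 3 * x ^ 15 - 394 * l ^ 4 * x ^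
    14 - 323453 * x ^ 18 + 17786 * l * x ^ 18 + 166546 * l ^ 2 * x ^ 17 - 15929 * l ^ 3 * x ^ 16
    - 1662 * l ^ 4 * x ^ 15 - 286461 * x ^ 19 - 50500 * l * x ^ 19 + 243923 * l ^ 2 * x ^ 18 -
    32495 * l ^ 3 * x ^ 17 - 4868 * l ^ 4 * x ^ 16 - 203734 * x ^ 20 - 116228 * l * x ^ 20 +
    292496 * l ^ 2 * x ^ 19 - 54217 * l ^ 3 * x ^ 18 - 10494 * l ^ 4 * x ^ 17 - 114102 * x ^ 21
    - 148240 * l * x ^ 21 + 292104 * l ^ 2 * x ^ 20 - 74428 * l ^ 3 * x ^ 19 - 17226 * l ^ 4 * x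
    ^ 18 - 48453 * x ^ 22 - 138425 * l * x ^ 22 + 247281 * l ^ 2 * x ^ 21 - 83967 * l ^ 3 * x ^
    20 - 21978 * l ^ 4 * x ^ 19 - 14350 * x ^ 23 - 101997 * l * x ^ 23 + 180338 * l ^ 2 * x ^ 22
    - 77396 * l ^ 3 * x ^ 21 - 22044 * l ^ 4 * x ^ 20 - 2308 * x ^ 24 - 61093 * l * x ^ 24 +
    114579 * l ^ 2 * x ^ 23 - 57855 * l ^ 3 * x ^ 22 - 17446 * l ^ 4 * x ^ 21 + 45 * x ^ 25 -
    30040 * l * x ^ 25 + 63537 * l ^ 2 * x ^ 24 - 34775 * l ^ 3 * x ^ 23 - 10846 * l ^ 4 * x ^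
    22 - 7 * x ^ 26 - 12116 * l * x ^ 26 + 30501 * l ^ 2 * x ^ 25 - 16655 * l ^ 3 * x ^ 24 -
    5218 * l ^ 4 * x ^ 23 - 112 * x ^ 27 - 3969 * l * x ^ 27 + 12452 * l ^ 2 * x ^ 26 - 6279 * l
    ^ 3 * x ^ 25 - 1884 * l ^ 4 * x ^ 24 - 67 * x ^ 28 - 1034 * l * x ^ 28 + 4208 * l ^ 2 * x ^
    27 - 1826 * l ^ 3 * x ^ 26 - 482 * l ^ 4 * x ^ 25 - 18 * x ^ 29 - 205 * l * x ^ 29 + 1130 *
    l ^ 2 * x ^ 28 - 392 * l ^ 3 * x ^ 27 - 78 * l ^ 4 * x ^ 26 - 2 * x ^ 30 - 28 * l * x ^ 30 +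
    226 * l ^ 2 * x ^ 29 - 56 * l ^ 3 * x ^ 28 - 6 * l ^ 4 * x ^ 27 - 2 * l * x ^ 31 + 30 * l ^
    2 * x ^ 30 - 4 * l ^ 3 * x ^ 29 + 2 * l ^ 2 * x ^ 31) * hl

theorem ex_20 {l u x x1 x2 t t1 t2 : R} (h2 : (2 : R) = 0) (hl : l ^ 2 = 0)
    (e1 : x1 = (1 + l) * x ^ 2 + l * x)
    (e2 : x2 = (1 + l) * x ^ 4 + l * x ^ 2)
    (f0 : t = x + x ^ 2)
    (f1 : t1 = x1 + x1 ^ 2)
    (f2 : t2 = x2 + x2 ^ 2)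
    (h : u * gE5 (l - 1) l t = (1 - 2 * (l - 1) * t) * (1 + l * t) * gA (l - 1) t)
    : u = 1 + (1 + l) * (x1 + x2) + l * (t + t2 + t * t1 + t1 * t2) := by
  have h0 := ex_inv5 h2 hl h
  clear h
  rw [h0]
  clear h0
  subst f0 f1 f2 e1 e2
  simp only [gA]
  linear_combination (
    3 * x - l * x + 7 * x ^ 2 - 2 * l * x ^ 2 + 10 * x ^ 3 + 3 * l * x ^ 3 + 7 * x ^ 4 + 10 * l
    * x ^ 4 + 3 * x ^ 5 + 19 * l * x ^ 5 + x ^ 6 + 31 * l * x ^ 6 + 64 * l * x ^ 7 + 105 * l * x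
    ^ 8 + 126 * l * x ^ 9 + 105 * l * x ^ 10 + 62 * l * x ^ 11 + 25 * l * x ^ 12 + 7 * l * x ^
    13 + l * x ^ 14) * h2 + (
    -x - 7 * x ^ 2 - 14 * x ^ 3 - 4 * l * x ^ 3 - 29 * x ^ 4 - 11 * l * x ^ 4 - 31 * x ^ 5 - 12
    * l * x ^ 5 - l ^ 2 * x ^ 4 - 25 * x ^ 6 - 13 * l * x ^ 6 - 3 * l ^ 2 * x ^ 5 - 3 * x ^ 7 -
    30 * l * x ^ 7 - 3 * l ^ 2 * x ^ 6 + 42 * x ^ 8 - 98 * l * x ^ 8 - 8 * l ^ 2 * x ^ 7 - l ^ 3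
    * x ^ 6 + 162 * x ^ 9 - 208 * l * x ^ 9 - 21 * l ^ 2 * x ^ 8 - 2 * l ^ 3 * x ^ 7 + 296 * x ^
    10 - 321 * l * x ^ 10 - 51 * l ^ 2 * x ^ 9 - 3 * l ^ 3 * x ^ 8 + 355 * x ^ 11 - 346 * l * x
    ^ 11 - 79 * l ^ 2 * x ^ 10 - 4 * l ^ 3 * x ^ 9 + 283 * x ^ 12 - 275 * l * x ^ 12 - 76 * l ^
    2 * x ^ 11 - 3 * l ^ 3 * x ^ 10 + 161 * x ^ 13 - 154 * l * x ^ 13 - 46 * l ^ 2 * x ^ 12 - 2
    * l ^ 3 * x ^ 11 + 63 * x ^ 14 - 62 * l * x ^ 14 - 14 * l ^ 2 * x ^ 13 - l ^ 3 * x ^ 12 + 16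
    * x ^ 15 - 16 * l * x ^ 15 - 2 * l ^ 2 * x ^ 14 + 2 * x ^ 16 - 2 * l * x ^ 16) * hl

theorem ex_22 {l u x x1 x2 t t1 t2 : R} (h2 : (2 : R) = 0) (hl : l ^ 2 = 0)
    (e1 : x1 = (1 + l) * x ^ 2 + l * x)
    (e2 : x2 = (1 + l) * x ^ 4 + l * x ^ 2)
    (f0 : t = x + x ^ 2)
    (f1 : t1 = x1 + x1 ^ 2)
    (f2 : t2 = x2 + x2 ^ 2)
    (h : u * gE5 (l - 1) l t = (1 + 2 * x) * (1 + l * t) * gC (l - 1) t)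
    : u = 1 + (x1 + x2) + l * (t + t2 + t * t1 + t1 * t2) := by
  have h0 := ex_inv5 h2 hl h
  clear h
  rw [h0]
  clear h0
  subst f0 f1 f2 e1 e2
  simp only [gC]
  linear_combination (
    2 * x - l * x + x ^ 2 - 4 * x ^ 3 + 4 * l * x ^ 3 - 8 * x ^ 4 - l * x ^ 4 - 3 * x ^ 5 - 7 *
    l * x ^ 5 + l * x ^ 6 + 13 * l * x ^ 7 - 7 * l * x ^ 8 - 49 * l * x ^ 9 - 72 * l * x ^ 10 -
    52 * l * x ^ 11 - 20 * l * x ^ 12 - 3 * l * x ^ 13) * h2 + (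
    -3 * x ^ 2 - 5 * x ^ 3 - 2 * l * x ^ 3 - 5 * x ^ 4 - 5 * l * x ^ 4 + 2 * x ^ 5 - 6 * l * x ^
    5 - l ^ 2 * x ^ 4 + 3 * x ^ 6 - 9 * l * x ^ 6 - 3 * l ^ 2 * x ^ 5 + 21 * x ^ 7 - 13 * l * x
    ^ 7 - 3 * l ^ 2 * x ^ 6 + 47 * x ^ 8 - 27 * l * x ^ 8 - 6 * l ^ 2 * x ^ 7 - l ^ 3 * x ^ 6 +
    44 * x ^ 9 - 21 * l * x ^ 9 - 7 * l ^ 2 * x ^ 8 - 2 * l ^ 3 * x ^ 7 - 71 * x ^ 10 + 12 * l *
    x ^ 10 - 9 * l ^ 2 * x ^ 9 - 3 * l ^ 3 * x ^ 8 - 209 * x ^ 11 + 63 * l * x ^ 11 - 9 * l ^ 2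
    * x ^ 10 - 4 * l ^ 3 * x ^ 9 - 238 * x ^ 12 + 72 * l * x ^ 12 - 6 * l ^ 2 * x ^ 11 - 3 * l ^
    3 * x ^ 10 - 141 * x ^ 13 + 47 * l * x ^ 13 - 4 * l ^ 2 * x ^ 12 - 2 * l ^ 3 * x ^ 11 - 45 *
    x ^ 14 + 15 * l * x ^ 14 - l ^ 3 * x ^ 12 - 6 * x ^ 15 + 2 * l * x ^ 15) * hl

theorem ex_00 {l u x x1 x2 t t1 t2 : R} (h2 : (2 : R) = 0) (hl : l ^ 2 = 0)
    (e1 : x1 = (1 + l) * x ^ 2 + l * x)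
    (e2 : x2 = (1 + l) * x ^ 4 + l * x ^ 2)
    (f0 : t = x + x ^ 2)
    (f1 : t1 = x1 + x1 ^ 2)
    (f2 : t2 = x2 + x2 ^ 2)
    (h : u * gE5 (l - 1) l t = (1 - 2 * (l - 1) * t) * (1 + l * t) * gB l t)
    : u = (1 + l) * (x1 + x2) + l * (1 + t * t1 + t1 * t2) := by
  have h0 := ex_inv5 h2 hl h
  clear h
  rw [h0]
  clear h0
  subst f0 f1 f2 e1 e2
  simp only [gB]
  linear_combination (
    -l - 3 * l * x - 7 * l * x ^ 2 + 2 * x ^ 3 - 7 * l * x ^ 3 + 3 * x ^ 4 - 5 * l * x ^ 4 + 3 *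
    x ^ 5 + 2 * l * x ^ 5 + x ^ 6 + 5 * l * x ^ 6 + 8 * l * x ^ 7 + 15 * l * x ^ 8 + 31 * l * x
    ^ 9 + 42 * l * x ^ 10 + 38 * l * x ^ 11 + 21 * l * x ^ 12 + 7 * l * x ^ 13 + l * x ^ 14) * h2 + (
    -x ^ 2 + 2 * l * x ^ 2 - 6 * x ^ 3 + 8 * l * x ^ 3 - 25 * x ^ 4 + 16 * l * x ^ 4 - 40 * x ^
    5 + 13 * l * x ^ 5 - l ^ 2 * x ^ 4 - 60 * x ^ 6 + 6 * l * x ^ 6 - 3 * l ^ 2 * x ^ 5 - 101 *
    x ^ 7 + 4 * l * x ^ 7 - l ^ 2 * x ^ 6 - 153 * x ^ 8 - 27 * l * x ^ 8 + 12 * l ^ 2 * x ^ 7 -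
    l ^ 3 * x ^ 6 - 151 * x ^ 9 - 123 * l * x ^ 9 + 65 * l ^ 2 * x ^ 8 - 2 * l ^ 3 * x ^ 7 - 79
    * x ^ 10 - 260 * l * x ^ 10 + 157 * l ^ 2 * x ^ 9 - 3 * l ^ 3 * x ^ 8 + 39 * x ^ 11 - 322 *
    l * x ^ 11 + 231 * l ^ 2 * x ^ 10 - 4 * l ^ 3 * x ^ 9 + 109 * x ^ 12 - 271 * l * x ^ 12 +
    216 * l ^ 2 * x ^ 11 - 3 * l ^ 3 * x ^ 10 + 105 * x ^ 13 - 154 * l * x ^ 13 + 124 * l ^ 2 *
    x ^ 12 - 2 * l ^ 3 * x ^ 11 + 55 * x ^ 14 - 62 * l * x ^ 14 + 42 * l ^ 2 * x ^ 13 - l ^ 3 *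
    x ^ 12 + 16 * x ^ 15 - 16 * l * x ^ 15 + 6 * l ^ 2 * x ^ 14 + 2 * x ^ 16 - 2 * l * x ^ 16) * hl

theorem ex_02 {l u x x1 x2 t t1 t2 : R} (h2 : (2 : R) = 0) (hl : l ^ 2 = 0)
    (e1 : x1 = (1 + l) * x ^ 2 + l * x)
    (e2 : x2 = (1 + l) * x ^ 4 + l * x ^ 2)
    (f0 : t = x + x ^ 2)
    (f1 : t1 = x1 + x1 ^ 2)
    (f2 : t2 = x2 + x2 ^ 2)
    (h : u * gE5 (l - 1) l t = (1 + 2 * x) * (1 + l * t) * gD (l - 1) t)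
    : u = (x1 + x2) + l * (t * t1 + t1 * t2) := by
  have h0 := ex_inv5 h2 hl h
  clear h
  rw [h0]
  clear h0
  subst f0 f1 f2 e1 e2
  simp only [gD]
  linear_combination (
    -x + l * x - 3 * x ^ 2 + 3 * l * x ^ 2 + l * x ^ 3 + 2 * x ^ 4 - l * x ^ 4 + x ^ 5 + 2 * l *
    x ^ 5 - 4 * l * x ^ 6 - 15 * l * x ^ 7 - 17 * l * x ^ 8 + 16 * l * x ^ 10 + 16 * l * x ^ 11
    + 6 * l * x ^ 12 + l * x ^ 13) * h2 + (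
    2 * x ^ 2 + 11 * x ^ 3 - 2 * l * x ^ 3 + 16 * x ^ 4 - 4 * l * x ^ 4 + 13 * x ^ 5 - 6 * l * x
    ^ 5 - l ^ 2 * x ^ 4 + 22 * x ^ 6 - 3 * l * x ^ 6 - 3 * l ^ 2 * x ^ 5 + 53 * x ^ 7 + 19 * l *
    x ^ 7 - 3 * l ^ 2 * x ^ 6 + 67 * x ^ 8 + 82 * l * x ^ 8 - 6 * l ^ 2 * x ^ 7 - l ^ 3 * x ^ 6
    + 59 * x ^ 9 + 179 * l * x ^ 9 - 7 * l ^ 2 * x ^ 8 - 2 * l ^ 3 * x ^ 7 + 50 * x ^ 10 + 232 *
    l * x ^ 10 - 9 * l ^ 2 * x ^ 9 - 3 * l ^ 3 * x ^ 8 + 73 * x ^ 11 + 207 * l * x ^ 11 - 9 * l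
    ^ 2 * x ^ 10 - 4 * l ^ 3 * x ^ 9 + 74 * x ^ 12 + 124 * l * x ^ 12 - 6 * l ^ 2 * x ^ 11 - 3 *
    l ^ 3 * x ^ 10 + 47 * x ^ 13 + 55 * l * x ^ 13 - 4 * l ^ 2 * x ^ 12 - 2 * l ^ 3 * x ^ 11 +
    15 * x ^ 14 + 15 * l * x ^ 14 - l ^ 3 * x ^ 12 + 2 * x ^ 15 + 2 * l * x ^ 15) * hl

theorem ex_21 {l u x x1 x2 t t1 t2 a1 a2 a : R} (h2 : (2 : R) = 0) (hl : l ^ 2 = 0)
    (e1 : x1 = (1 + l) * x ^ 2 + l * x)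
    (e2 : x2 = (1 + l) * x ^ 4 + l * x ^ 2)
    (f0 : t = x + x ^ 2)
    (f1 : t1 = x1 + x1 ^ 2)
    (f2 : t2 = x2 + x2 ^ 2)
    (ha : l * a = l * x)
    (ha2 : l * a2 = l * x2)
    (hs : a1 + a2 = t1 + l * (t1 * x1 + 1))
    (h : u * gE5 (l - 1) l t = (1 + 2 * x) * (1 + l * a) * gD (l - 1) t)
    : u = a1 + a2 + l * (x1 + x2 + t * t1 + t1 * t2 + 1) := by
  have h0 := ex_inv5 h2 hl h
  have h1 : (1 + 2 * x) * (1 + l * a) * gD (l - 1) t = (1 + 2 * x) * (1 + l * x) * gD (l - 1) t := by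
    rw [ha]
  rw [h1] at h0
  have h3 : a1 + a2 + l * (x1 + x2 + t * t1 + t1 * t2 + 1) = (t1 + l * (t1 * x1 + 1)) + l * (x1 + x2 + t * t1 + t1 * t2 + 1) := by
    rw [hs]
  rw [h3]
  clear h1 h
  clear h3 ha2 hs
  clear ha
  rw [h0]
  clear h0
  subst f0 f1 f2 e1 e2
  simp only [gD]
  linear_combination (
    -l - x + l * x - 3 * x ^ 2 + 3 * l * x ^ 2 + l * x ^ 3 + 2 * x ^ 4 + x ^ 5 + 2 * l * x ^ 5 -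
    7 * l * x ^ 6 - 16 * l * x ^ 7 - 17 * l * x ^ 8 + 16 * l * x ^ 10 + 16 * l * x ^ 11 + 6 * l
    * x ^ 12 + l * x ^ 13) * h2 + (
    -x - x ^ 2 - l * x ^ 2 + 4 * x ^ 3 - 4 * l * x ^ 3 + 2 * x ^ 4 - 8 * l * x ^ 4 - l ^ 2 * x ^
    3 - 12 * l * x ^ 5 - 4 * l ^ 2 * x ^ 4 + 14 * x ^ 6 - 6 * l * x ^ 6 - 6 * l ^ 2 * x ^ 5 + 53
    * x ^ 7 + 16 * l * x ^ 7 - 4 * l ^ 2 * x ^ 6 + 80 * x ^ 8 + 60 * l * x ^ 8 - 6 * l ^ 2 * x ^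
    7 - l ^ 3 * x ^ 6 + 91 * x ^ 9 + 111 * l * x ^ 9 - 7 * l ^ 2 * x ^ 8 - 2 * l ^ 3 * x ^ 7 +
    83 * x ^ 10 + 115 * l * x ^ 10 - 9 * l ^ 2 * x ^ 9 - 3 * l ^ 3 * x ^ 8 + 73 * x ^ 11 + 82 *
    l * x ^ 11 - 9 * l ^ 2 * x ^ 10 - 4 * l ^ 3 * x ^ 9 + 41 * x ^ 12 + 36 * l * x ^ 12 - 6 * l
    ^ 2 * x ^ 11 - 3 * l ^ 3 * x ^ 10 + 15 * x ^ 13 + 13 * l * x ^ 13 - 4 * l ^ 2 * x ^ 12 - 2 *
    l ^ 3 * x ^ 11 + 2 * x ^ 14 + 2 * l * x ^ 14 - l ^ 3 * x ^ 12) * hl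

theorem ex_23 {l u x x1 x2 t t1 t2 a1 a2 a : R} (h2 : (2 : R) = 0) (hl : l ^ 2 = 0)
    (e1 : x1 = (1 + l) * x ^ 2 + l * x)
    (e2 : x2 = (1 + l) * x ^ 4 + l * x ^ 2)
    (f0 : t = x + x ^ 2)
    (f1 : t1 = x1 + x1 ^ 2)
    (f2 : t2 = x2 + x2 ^ 2)
    (ha : l * a = l * x)
    (ha2 : l * a2 = l * x2)
    (hs : a1 + a2 = t1 + l * (t1 * x1 + 1))
    (h : u * gE5 (l - 1) l t = (1 + l * a) * (1 - 2 * (l - 1) * t) * gB l t)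
    : u = a1 + a2 + l * (t * t1 + t1 * t2) := by
  have h0 := ex_inv5 h2 hl h
  have h1 : (1 + l * a) * (1 - 2 * (l - 1) * t) * gB l t = (1 + l * x) * (1 - 2 * (l - 1) * t) * gB l t := by
    rw [ha]
  rw [h1] at h0
  have h3 : a1 + a2 + l * (t * t1 + t1 * t2) = (t1 + l * (t1 * x1 + 1)) + l * (t * t1 + t1 * t2) := by
    rw [hs]
  rw [h3]
  clear h1 h
  clear h3 ha2 hs
  clear ha
  rw [h0]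
  clear h0
  subst f0 f1 f2 e1 e2
  simp only [gB]
  linear_combination (
    -l - 3 * l * x - 6 * l * x ^ 2 + 2 * x ^ 3 - 8 * l * x ^ 3 + 3 * x ^ 4 - 6 * l * x ^ 4 + 3 *
    x ^ 5 + x ^ 6 + l * x ^ 6 + 5 * l * x ^ 7 + 14 * l * x ^ 8 + 31 * l * x ^ 9 + 42 * l * x ^
    10 + 38 * l * x ^ 11 + 21 * l * x ^ 12 + 7 * l * x ^ 13 + l * x ^ 14) * h2 + (
    x + x ^ 2 + l * x ^ 2 - 5 * x ^ 3 + 4 * l * x ^ 3 - 16 * x ^ 4 + 4 * l * x ^ 4 - l ^ 2 * x ^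
    3 - 29 * x ^ 5 - 5 * l * x ^ 5 - 4 * l ^ 2 * x ^ 4 - 51 * x ^ 6 - 2 * l * x ^ 6 - 6 * l ^ 2
    * x ^ 5 - 95 * x ^ 7 + 13 * l * x ^ 7 - 2 * l ^ 2 * x ^ 6 - 152 * x ^ 8 + 10 * l * x ^ 8 +
    10 * l ^ 2 * x ^ 7 - l ^ 3 * x ^ 6 - 159 * x ^ 9 - 31 * l * x ^ 9 + 49 * l ^ 2 * x ^ 8 - 2 *
    l ^ 3 * x ^ 7 - 108 * x ^ 10 - 105 * l * x ^ 10 + 101 * l ^ 2 * x ^ 9 - 3 * l ^ 3 * x ^ 8 -
    23 * x ^ 11 - 135 * l * x ^ 11 + 121 * l ^ 2 * x ^ 10 - 4 * l ^ 3 * x ^ 9 + 24 * x ^ 12 -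
    106 * l * x ^ 12 + 86 * l ^ 2 * x ^ 11 - 3 * l ^ 3 * x ^ 10 + 29 * x ^ 13 - 48 * l * x ^ 13
    + 32 * l ^ 2 * x ^ 12 - 2 * l ^ 3 * x ^ 11 + 12 * x ^ 14 - 14 * l * x ^ 14 + 6 * l ^ 2 * x ^
    13 - l ^ 3 * x ^ 12 + 2 * x ^ 15 - 2 * l * x ^ 15) * hl

theorem ex_01 {l u x x1 x2 t t1 t2 a1 a2 a : R} (h2 : (2 : R) = 0) (hl : l ^ 2 = 0)
    (e1 : x1 = (1 + l) * x ^ 2 + l * x)
    (e2 : x2 = (1 + l) * x ^ 4 + l * x ^ 2)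
    (f0 : t = x + x ^ 2)
    (f1 : t1 = x1 + x1 ^ 2)
    (f2 : t2 = x2 + x2 ^ 2)
    (ha : l * a = l * x)
    (ha2 : l * a2 = l * x2)
    (hs : a1 + a2 = t1 + l * (t1 * x1 + 1))
    (h : u * gE5 (l - 1) l t = (1 + 2 * x) * (1 + l * a) * gC (l - 1) t)
    : u = (1 + l) * (1 + l * a2) + a1 + a2 + l * (t + t1 + t2 + t * t1 + t1 * t2) + l * (x1 + x2) := by
  have h0 := ex_inv5 h2 hl h
  have h1 : (1 + 2 * x) * (1 + l * a) * gC (l - 1) t = (1 + 2 * x) * (1 + l * x) * gC (l - 1) t := by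
    rw [ha]
  rw [h1] at h0
  have h3 : (1 + l) * (1 + l * a2) + a1 + a2 + l * (t + t1 + t2 + t * t1 + t1 * t2) + l * (x1 + x2) = (1 + l) * (1 + l * x2) + (t1 + l * (t1 * x1 + 1)) + l * (t + t1 + t2 + t * t1 + t1 * t2) + l * (x1 + x2) := by
    linear_combination (1 + l) * ha2 + hs
  rw [h3]
  clear h1 h
  clear h3 ha2 hs
  clear ha
  rw [h0]
  clear h0
  subst f0 f1 f2 e1 e2
  simp only [gC]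
  linear_combination (
    -l + 2 * x - l * x + x ^ 2 - l * x ^ 2 - 4 * x ^ 3 + l * x ^ 3 - 8 * x ^ 4 - 5 * l * x ^ 4 -
    3 * x ^ 5 - 3 * l * x ^ 5 + 8 * l * x ^ 6 + 16 * l * x ^ 7 - 7 * l * x ^ 8 - 49 * l * x ^ 9
    - 72 * l * x ^ 10 - 52 * l * x ^ 11 - 20 * l * x ^ 12 - 3 * l * x ^ 13) * h2 + (
    -2 * x - 8 * x ^ 2 - 3 * l * x ^ 2 - 10 * x ^ 3 - 6 * l * x ^ 3 - 11 * x ^ 4 - 11 * l * x ^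
    4 - l ^ 2 * x ^ 3 - 3 * x ^ 5 - 12 * l * x ^ 5 - 4 * l ^ 2 * x ^ 4 - 6 * x ^ 6 - 12 * l * x
    ^ 6 - 6 * l ^ 2 * x ^ 5 + 11 * x ^ 7 - 12 * l * x ^ 7 - 4 * l ^ 2 * x ^ 6 + 22 * x ^ 8 - 21
    * l * x ^ 8 - 6 * l ^ 2 * x ^ 7 - l ^ 3 * x ^ 6 + 12 * x ^ 9 - 9 * l * x ^ 9 - 7 * l ^ 2 * x
    ^ 8 - 2 * l ^ 3 * x ^ 7 - 59 * x ^ 10 + 15 * l * x ^ 10 - 9 * l ^ 2 * x ^ 9 - 3 * l ^ 3 * x
    ^ 8 - 111 * x ^ 11 + 38 * l * x ^ 11 - 9 * l ^ 2 * x ^ 10 - 4 * l ^ 3 * x ^ 9 - 95 * x ^ 12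
    + 28 * l * x ^ 12 - 6 * l ^ 2 * x ^ 11 - 3 * l ^ 3 * x ^ 10 - 37 * x ^ 13 + 13 * l * x ^ 13
    - 4 * l ^ 2 * x ^ 12 - 2 * l ^ 3 * x ^ 11 - 6 * x ^ 14 + 2 * l * x ^ 14 - l ^ 3 * x ^ 12) * hl

theorem ex_03 {l u x x1 x2 t t1 t2 a1 a2 a : R} (h2 : (2 : R) = 0) (hl : l ^ 2 = 0)
    (e1 : x1 = (1 + l) * x ^ 2 + l * x)
    (e2 : x2 = (1 + l) * x ^ 4 + l * x ^ 2)
    (f0 : t = x + x ^ 2)
    (f1 : t1 = x1 + x1 ^ 2)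
    (f2 : t2 = x2 + x2 ^ 2)
    (ha : l * a = l * x)
    (ha2 : l * a2 = l * x2)
    (hs : a1 + a2 = t1 + l * (t1 * x1 + 1))
    (h : u * gE5 (l - 1) l t = (1 + l * a) * (1 - 2 * (l - 1) * t) * gA (l - 1) t)
    : u = (1 + l) * (1 + l * a2) + a1 + a2 + l * (t + t1 + t2 + t * t1 + t1 * t2) := by
  have h0 := ex_inv5 h2 hl h
  have h1 : (1 + l * a) * (1 - 2 * (l - 1) * t) * gA (l - 1) t = (1 + l * x) * (1 - 2 * (l - 1) * t) * gA (l - 1) t := by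
    rw [ha]
  rw [h1] at h0
  have h3 : (1 + l) * (1 + l * a2) + a1 + a2 + l * (t + t1 + t2 + t * t1 + t1 * t2) = (1 + l) * (1 + l * x2) + (t1 + l * (t1 * x1 + 1)) + l * (t + t1 + t2 + t * t1 + t1 * t2) := by
    linear_combination (1 + l) * ha2 + hs
  rw [h3]
  clear h1 h
  clear h3 ha2 hs
  clear ha
  rw [h0]
  clear h0
  subst f0 f1 f2 e1 e2
  simp only [gA]
  linear_combination (
    -l + 3 * x - l * x + 7 * x ^ 2 - 2 * l * x ^ 2 + 10 * x ^ 3 - l * x ^ 3 + 7 * x ^ 4 + l * x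
    ^ 4 + 3 * x ^ 5 + 9 * l * x ^ 5 + x ^ 6 + 23 * l * x ^ 6 + 61 * l * x ^ 7 + 104 * l * x ^ 8
    + 126 * l * x ^ 9 + 105 * l * x ^ 10 + 62 * l * x ^ 11 + 25 * l * x ^ 12 + 7 * l * x ^ 13 +
    l * x ^ 14) * h2 + (
    -x - 8 * x ^ 2 - 3 * l * x ^ 2 - 19 * x ^ 3 - 8 * l * x ^ 3 - 28 * x ^ 4 - 15 * l * x ^ 4 -
    l ^ 2 * x ^ 3 - 20 * x ^ 5 - 14 * l * x ^ 5 - 4 * l ^ 2 * x ^ 4 - 17 * x ^ 6 - 14 * l * x ^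
    6 - 6 * l ^ 2 * x ^ 5 - 7 * x ^ 7 - 29 * l * x ^ 7 - 4 * l ^ 2 * x ^ 6 - x ^ 8 - 87 * l * x
    ^ 8 - 8 * l ^ 2 * x ^ 7 - l ^ 3 * x ^ 6 + 42 * x ^ 9 - 160 * l * x ^ 9 - 19 * l ^ 2 * x ^ 8
    - 2 * l ^ 3 * x ^ 7 + 86 * x ^ 10 - 207 * l * x ^ 10 - 39 * l ^ 2 * x ^ 9 - 3 * l ^ 3 * x ^
    8 + 103 * x ^ 11 - 179 * l * x ^ 11 - 49 * l ^ 2 * x ^ 10 - 4 * l ^ 3 * x ^ 9 + 72 * x ^ 12
    - 114 * l * x ^ 12 - 36 * l ^ 2 * x ^ 11 - 3 * l ^ 3 * x ^ 10 + 37 * x ^ 13 - 48 * l * x ^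
    13 - 16 * l ^ 2 * x ^ 12 - 2 * l ^ 3 * x ^ 11 + 12 * x ^ 14 - 14 * l * x ^ 14 - 2 * l ^ 2 *
    x ^ 13 - l ^ 3 * x ^ 12 + 2 * x ^ 15 - 2 * l * x ^ 15) * hl

end Pool.Agent.Lib.MP_1a91b9_ntQ.Ex
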