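import Pool.Agent.Lib.MP_1a91b9_ntQ.A.EvX2

/-!
# Quartic twists, stage 2, file OrbZ: the orbit sums of the second order classes, exact

Page B2, (1.4): the sums over the units of the functions `F2Z`, `F0Z` (`e = 1 / lm ^ 5`) and `P3Z`,
`M1Z` (`e = 1 / lm ^ 6`), as rational functions of `ze`.
-/

set_option autoImplicit false
set_option linter.unusedSectionVars false

namespace Pool.Agent.Lib.MP_1a91b9_ntQ

open NumberField Pool.Agent.Lib.MP_1a91b9_nuT Pool.Agent.Lib.MP_1a91b9_nuT.S3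
  Pool.Agent.Lib.MP_1a91b9_nuT.Ell

noncomputable section

section
variable [CD]

/-- the denominator for `e = 1 / lm ^ 5` -/
def P4Z (x : ℂ) : ℂ := x ^ 4 - 4 * zt * x ^ 3 + 2 * x ^ 2 + 4 * zt * x + 1

/-- the denominator for `e = 1 / lm ^ 6` -/
def N8Z (x : ℂ) : ℂ := (x ^ 2 - 1) ^ 4 + 8 * x * (x ^ 2 - 1) ^ 3 - 8 * x ^ 2 * (x ^ 2 - 1) ^ 2 +
  32 * x ^ 3 * (x ^ 2 - 1) + 16 * x ^ 4

/-- `k = 2`, `e = 1 / lm ^ 5` -/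
def F2Z (x y : ℂ) : ℂ :=
  ((x ^ 2 + 1) * (x ^ 2 + 2 * x - 1) - 2 * y * (x ^ 2 - 2 * x - 1)) / P4Z x

/-- `k = 0`, `e = 1 / lm ^ 5` -/
def F0Z (x y : ℂ) : ℂ :=
  ((x ^ 2 + 1) * (x ^ 2 - 2 * x - 1) - 2 * zt * y * (x ^ 2 + 2 * x - 1)) / P4Z x

/-- `k = 3`, `e = 1 / lm ^ 6` -/
def P3Z (x : ℂ) : ℂ := x * (x ^ 4 - 1) * (x ^ 2 - 2 * x - 1) / N8Z x

/-- `k = 1`, `e = 1 / lm ^ 6` -/
def M1Z (x y : ℂ) : ℂ := y * (x ^ 2 - 2 * x - 1) ^ 2 * (x ^ 2 + 2 * x - 1) / N8Z x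

/-- the polynomial `A` -/
def aZ (t : ℂ) : ℂ := 1 + (5 + zt) * t + t ^ 2

/-- the polynomial `B` -/
def bZ (t : ℂ) : ℂ := t ^ 2 - 3 * lm * t - lm

/-- the polynomial `C` -/
def cZ (t : ℂ) : ℂ := 1 + (1 - zt) * t - (2 - zt) * t ^ 2

/-- the polynomial `D` -/
def dZ (t : ℂ) : ℂ := (1 + 3 * zt) * t + (2 + zt) * t ^ 2

/-- the polynomial `E5` -/
def e5Z (t : ℂ) : ℂ :=
  1 + (2 - 2 * zt) * t - (10 + 8 * zt) * t ^ 2 + (-16 + 4 * zt) * t ^ 3 - lm * t ^ 4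

/-- the polynomial `E6` -/
def e6Z (t : ℂ) : ℂ :=
  1 + 12 * t + (62 - 18 * zt) * t ^ 2 + (140 - 132 * zt) * t ^ 3 + (50 - 260 * zt) * t ^ 4 -
    (100 + 92 * zt) * t ^ 5 + 108 * t ^ 6 + (64 - 24 * zt) * t ^ 7 - lm * t ^ 8

end

variable [CD] [hq : Q4]

/-! ### The polynomial identities -/

theorem dZ_eq (t : ℂ) : dZ t = (2 + zt) * (t * (t + lm)) := by
  rw [dZ, lm]
  linear_combination -t * zt_sq

theorem e5Z_mul (t : ℂ) : (2 - 2 * zt) * e5Z t =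
    (1 + lm * t) ^ 4 + (1 - 2 * zt) * (1 + 4 * t) * (1 - 2 * zt * t) ^ 2 := by
  rw [e5Z, lm]
  linear_combination -(zt ^ 2 * t ^ 4 + 4 * zt * t ^ 4 - 28 * zt * t ^ 3 + 3 * t ^ 4 -
    8 * zt * t ^ 2 + 36 * t ^ 3 + 26 * t ^ 2 + 4 * t) * zt_sq

theorem e6Z_mul (t : ℂ) : (2 - 2 * zt) * e6Z t =
    dX t ^ 4 + (1 - 2 * zt) * (1 + 4 * t) * (1 - 2 * zt * t) ^ 2 * (1 + lm * t) ^ 4 := by
  rw [e6Z, dX, lm]
  linear_combination -(-32 * zt ^ 5 * t ^ 7 - 8 * zt ^ 5 * t ^ 6 - 112 * zt ^ 4 * t ^ 7 -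
    124 * zt ^ 4 * t ^ 6 - 96 * zt ^ 3 * t ^ 7 + zt ^ 2 * t ^ 8 - 24 * zt ^ 4 * t ^ 5 -
    232 * zt ^ 3 * t ^ 6 + 88 * zt ^ 2 * t ^ 7 + 4 * zt * t ^ 8 - 124 * zt ^ 3 * t ^ 5 +
    76 * zt ^ 2 * t ^ 6 + 136 * zt * t ^ 7 + 3 * t ^ 8 - 18 * zt ^ 3 * t ^ 4 +
    44 * zt ^ 2 * t ^ 5 + 284 * zt * t ^ 6 - 144 * t ^ 7 + 49 * zt ^ 2 * t ^ 4 +
    124 * zt * t ^ 5 - 124 * t ^ 6 + 8 * zt ^ 2 * t ^ 3 + 26 * zt * t ^ 4 - 4 * t ^ 5 +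
    52 * zt * t ^ 3 - 13 * t ^ 4 + 12 * zt * t ^ 2 - 44 * t ^ 3 - 10 * t ^ 2) * zt_sq

section
variable {x y t r : ℂ}

theorem oz_b1 (hx : x ^ 2 = r * (1 + 4 * t)) (hr : r * (1 - 2 * zt) = 1) :
    x ^ 2 - 1 = 2 * zt * r * (1 - 2 * zt * t) := by
  linear_combination hx + hr + 4 * r * t * zt_sq

theorem oz_b2 (hx : x ^ 2 = r * (1 + 4 * t)) (hr : r * (1 - 2 * zt) = 1) :
    x ^ 2 + 1 = 2 * (1 - zt) * r * (1 + lm * t) := by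
  rw [lm]
  linear_combination hx - hr + 2 * r * t * zt_sq

theorem oz_A (hx : x ^ 2 = r * (1 + 4 * t)) (hr : r * (1 - 2 * zt) = 1) :
    (x ^ 2 + 1) ^ 2 + 8 * zt * x ^ 2 = 16 * r ^ 2 * aZ t := by
  have e : (x ^ 2 + 1) ^ 2 + 8 * zt * x ^ 2 = (r * (1 + 4 * t) + r * (1 - 2 * zt)) ^ 2 +
      8 * zt * (r * (1 + 4 * t)) * (r * (1 - 2 * zt)) := by
    rw [hx, hr]
    ring
  rw [e, aZ]
  linear_combination r ^ 2 * (-64 * t - 12) * zt_sq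

theorem oz_B (hx : x ^ 2 = r * (1 + 4 * t)) (hr : r * (1 - 2 * zt) = 1) :
    (x ^ 2 + 1) ^ 2 - 8 * zt * x ^ 2 = 16 * r ^ 2 * bZ t := by
  have e : (x ^ 2 + 1) ^ 2 - 8 * zt * x ^ 2 = (r * (1 + 4 * t) + r * (1 - 2 * zt)) ^ 2 -
      8 * zt * (r * (1 + 4 * t)) * (r * (1 - 2 * zt)) := by
    rw [hx, hr]
    ring
  rw [e, bZ, lm]
  linear_combination r ^ 2 * (64 * t + 20) * zt_sq

theorem oz_C (hx : x ^ 2 = r * (1 + 4 * t)) (hr : r * (1 - 2 * zt) = 1) :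
    2 * zt * (x ^ 2 - 1) ^ 2 + (x ^ 2 + 1) ^ 2 = -16 * zt * r ^ 2 * cZ t := by
  have e : 2 * zt * (x ^ 2 - 1) ^ 2 + (x ^ 2 + 1) ^ 2 =
      2 * zt * (r * (1 + 4 * t) - r * (1 - 2 * zt)) ^ 2 +
        (r * (1 + 4 * t) + r * (1 - 2 * zt)) ^ 2 := by
    rw [hx, hr]
  rw [e, cZ]
  linear_combination r ^ 2 * (16 * t ^ 2 + 8 * zt + 16 * t + 4) * zt_sq

theorem oz_D (hx : x ^ 2 = r * (1 + 4 * t)) (hr : r * (1 - 2 * zt) = 1) :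
    2 * zt * (x ^ 2 - 1) ^ 2 - (x ^ 2 + 1) ^ 2 = 16 * zt * r ^ 2 * dZ t := by
  have e : 2 * zt * (x ^ 2 - 1) ^ 2 - (x ^ 2 + 1) ^ 2 =
      2 * zt * (r * (1 + 4 * t) - r * (1 - 2 * zt)) ^ 2 -
        (r * (1 + 4 * t) + r * (1 - 2 * zt)) ^ 2 := by
    rw [hx, hr]
  rw [e, dZ]
  linear_combination r ^ 2 * (-16 * t ^ 2 + 8 * zt - 16 * t - 4) * zt_sq

theorem oz_W (hx : x ^ 2 = r * (1 + 4 * t)) (hr : r * (1 - 2 * zt) = 1) :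
    (x ^ 2 - 1) ^ 2 - 4 * x ^ 2 = -8 * (1 - zt) * r ^ 2 * dX t := by
  have e : (x ^ 2 - 1) ^ 2 - 4 * x ^ 2 = (r * (1 + 4 * t)) ^ 2 -
      6 * (r * (1 + 4 * t)) * (r * (1 - 2 * zt)) + (r * (1 - 2 * zt)) ^ 2 := by
    rw [hx, hr]
    ring
  rw [e, dX, lm]
  linear_combination r ^ 2 * (8 * t ^ 2 + 16 * t + 4) * zt_sq

theorem oz_F (hx : x ^ 2 = r * (1 + 4 * t)) (hr : r * (1 - 2 * zt) = 1) :
    5 * (x ^ 2 - 1) ^ 4 + 8 * x ^ 2 * (x ^ 2 - 1) ^ 2 + 16 * x ^ 4 =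
      -(256 * r ^ 4 * (dZ t * cZ t)) := by
  have e : 5 * (x ^ 2 - 1) ^ 4 + 8 * x ^ 2 * (x ^ 2 - 1) ^ 2 + 16 * x ^ 4 =
      -((2 * zt * (x ^ 2 - 1) ^ 2 + (x ^ 2 + 1) ^ 2) *
        (2 * zt * (x ^ 2 - 1) ^ 2 - (x ^ 2 + 1) ^ 2)) +
        4 * (x ^ 2 - 1) ^ 4 * (zt ^ 2 - -1) := by ring
  rw [e, oz_C hx hr, oz_D hx hr]
  linear_combination (256 * r ^ 4 * (dZ t * cZ t) + 4 * (x ^ 2 - 1) ^ 4) * zt_sq

theorem oz_G (hx : x ^ 2 = r * (1 + 4 * t)) (hr : r * (1 - 2 * zt) = 1) :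
    (x ^ 2 - 1) ^ 4 + 8 * x ^ 2 * (x ^ 2 - 1) ^ 2 + 80 * x ^ 4 =
      256 * r ^ 4 * (aZ t * bZ t) := by
  have e : (x ^ 2 - 1) ^ 4 + 8 * x ^ 2 * (x ^ 2 - 1) ^ 2 + 80 * x ^ 4 =
      ((x ^ 2 + 1) ^ 2 + 8 * zt * x ^ 2) * ((x ^ 2 + 1) ^ 2 - 8 * zt * x ^ 2) +
        64 * x ^ 4 * (zt ^ 2 - -1) := by ring
  rw [e, oz_A hx hr, oz_B hx hr]
  linear_combination 64 * x ^ 4 * zt_sq

theorem P4Z_eq (x : ℂ) : P4Z x = (x ^ 2 + 1) ^ 2 - 4 * zt * x * (x ^ 2 - 1) := by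
  rw [P4Z]
  ring

theorem P4Z_neg (x : ℂ) : P4Z (-x) = (x ^ 2 + 1) ^ 2 + 4 * zt * x * (x ^ 2 - 1) := by
  rw [P4Z]
  ring

theorem N8Z_eq (x : ℂ) : N8Z x = ((x ^ 2 - 1) ^ 2 - 4 * x ^ 2) ^ 2 +
    8 * x * (x ^ 2 - 1) * ((x ^ 2 - 1) ^ 2 + 4 * x ^ 2) := by
  rw [N8Z]
  ring

theorem N8Z_neg (x : ℂ) : N8Z (-x) = ((x ^ 2 - 1) ^ 2 - 4 * x ^ 2) ^ 2 -
    8 * x * (x ^ 2 - 1) * ((x ^ 2 - 1) ^ 2 + 4 * x ^ 2) := by
  rw [N8Z]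
  ring

theorem one_zt_four : (1 - zt : ℂ) ^ 4 = -4 := by
  linear_combination (zt ^ 2 - 4 * zt + 5) * zt_sq

theorem oz_E (hx : x ^ 2 = r * (1 + 4 * t)) (hr : r * (1 - 2 * zt) = 1) :
    P4Z x * P4Z (-x) = -64 * (2 - 2 * zt) * r ^ 4 * e5Z t := by
  have e : P4Z x * P4Z (-x) = (x ^ 2 + 1) ^ 4 +
      16 * x ^ 2 * (x ^ 2 - 1) ^ 2 * (r * (1 - 2 * zt)) -
        16 * x ^ 2 * (x ^ 2 - 1) ^ 2 * (zt ^ 2 - -1) := by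
    rw [P4Z_neg x, P4Z_eq x, hr]
    ring
  rw [e, oz_b1 hx hr, oz_b2 hx hr, hx]
  linear_combination 16 * r ^ 4 * (1 + lm * t) ^ 4 * one_zt_four +
    (64 * r ^ 4 * (1 - 2 * zt) * (1 + 4 * t) * (1 - 2 * zt * t) ^ 2 -
      64 * r ^ 3 * zt ^ 2 * (1 + 4 * t) * (1 - 2 * zt * t) ^ 2) * zt_sq +
    64 * r ^ 4 * e5Z_mul (hq := hq) t

theorem oz_N (hx : x ^ 2 = r * (1 + 4 * t)) (hr : r * (1 - 2 * zt) = 1) :
    N8Z x * N8Z (-x) = -(2 ^ 14 * (2 - 2 * zt) * r ^ 8 * e6Z t) := by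
  have e : N8Z x * N8Z (-x) = ((x ^ 2 - 1) ^ 2 - 4 * x ^ 2) ^ 4 -
      64 * x ^ 2 * (x ^ 2 - 1) ^ 2 * (x ^ 2 + 1) ^ 4 * (r * (1 - 2 * zt)) := by
    rw [N8Z_neg x, N8Z_eq x, hr]
    ring
  rw [e, oz_W hx hr, oz_b1 hx hr, oz_b2 hx hr, hx]
  linear_combination (2 ^ 12 * r ^ 8 * dX t ^ 4 -
      2 ^ 12 * zt ^ 2 * r ^ 8 * (1 - 2 * zt) * (1 + 4 * t) * (1 - 2 * zt * t) ^ 2 *
        (1 + lm * t) ^ 4) * one_zt_four +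
    2 ^ 14 * r ^ 8 * (1 - 2 * zt) * (1 + 4 * t) * (1 - 2 * zt * t) ^ 2 * (1 + lm * t) ^ 4 *
      zt_sq + 2 ^ 14 * r ^ 8 * e6Z_mul (hq := hq) t

theorem oz_frac {P M a b : ℂ} (hP : P ≠ 0) (hM : M ≠ 0) :
    (a / P + b / M) * (P * M) = a * M + b * P := by
  field_simp

theorem oz_two : (2 - 2 * zt : ℂ) ≠ 0 := by
  have e : (2 - 2 * zt : ℂ) = 2 * (1 - zt) := by ring
  rw [e]
  exact mul_ne_zero two_ne_zero cj_ne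

theorem oz_r (hr : r * (1 - 2 * zt) = 1) : r ≠ 0 := by
  intro h
  rw [h, zero_mul] at hr
  exact zero_ne_one hr

/-- the last step for `e = 1 / lm ^ 5` -/
theorem oz_last {a b s : ℂ} (hx : x ^ 2 = r * (1 + 4 * t)) (hr : r * (1 - 2 * zt) = 1)
    (he : e5Z t ≠ 0)
    (h : a * P4Z (-x) + b * P4Z x = -64 * (2 - 2 * zt) * r ^ 4 * s) :
    (a / P4Z x + b / P4Z (-x)) * e5Z t = s := by
  have h1 := oz_E hx hr
  have h2 : -64 * (2 - 2 * zt) * r ^ 4 ≠ 0 :=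
    mul_ne_zero (mul_ne_zero (by norm_num) oz_two) (pow_ne_zero 4 (oz_r hr))
  have h3 : P4Z x * P4Z (-x) ≠ 0 := by
    rw [h1]
    exact mul_ne_zero h2 he
  have h4 := oz_frac (a := a) (b := b) (left_ne_zero_of_mul h3) (right_ne_zero_of_mul h3)
  rw [h, h1] at h4
  apply mul_left_cancel₀ h2
  linear_combination h4

/-- the last step for `e = 1 / lm ^ 6` -/
theorem oz_last6 {a b s : ℂ} (hx : x ^ 2 = r * (1 + 4 * t)) (hr : r * (1 - 2 * zt) = 1)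
    (he : e6Z t ≠ 0)
    (h : a * N8Z (-x) + b * N8Z x = -(2 ^ 14 * (2 - 2 * zt) * r ^ 8) * s) :
    (a / N8Z x + b / N8Z (-x)) * e6Z t = s := by
  have h1 := oz_N hx hr
  have h2 : -(2 ^ 14 * (2 - 2 * zt) * r ^ 8) ≠ 0 :=
    neg_ne_zero.2 (mul_ne_zero (mul_ne_zero (by norm_num) oz_two) (pow_ne_zero 8 (oz_r hr)))
  have h3 : N8Z x * N8Z (-x) ≠ 0 := by
    rw [h1]
    have e : -(2 ^ 14 * (2 - 2 * zt) * r ^ 8 * e6Z t) =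
        -(2 ^ 14 * (2 - 2 * zt) * r ^ 8) * e6Z t := by ring
    rw [e]
    exact mul_ne_zero h2 he
  have h4 := oz_frac (a := a) (b := b) (left_ne_zero_of_mul h3) (right_ne_zero_of_mul h3)
  rw [h, h1] at h4
  apply mul_left_cancel₀ h2
  linear_combination h4

/-! ### The orbit sums, `e = 1 / lm ^ 5`, `k = 2` -/

theorem oz_20 (hx : x ^ 2 = r * (1 + 4 * t)) (hr : r * (1 - 2 * zt) = 1) (he : e5Z t ≠ 0) :
    (F2Z x y + F2Z (-x) (zt * y) + F2Z x (-y) + F2Z (-x) (-(zt * y))) * e5Z t =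
      -2 * zt * ((1 - 2 * zt * t) * (1 + lm * t) * aZ t) := by
  have e : F2Z x y + F2Z (-x) (zt * y) + F2Z x (-y) + F2Z (-x) (-(zt * y)) =
      2 * (x ^ 2 + 1) * (x ^ 2 - 1 + 2 * x) / P4Z x +
        2 * (x ^ 2 + 1) * (x ^ 2 - 1 - 2 * x) / P4Z (-x) := by
    rw [F2Z, F2Z, F2Z, F2Z]
    ring
  rw [e]
  apply oz_last hx hr he
  have e1 : 2 * (x ^ 2 + 1) * (x ^ 2 - 1 + 2 * x) * P4Z (-x) +
      2 * (x ^ 2 + 1) * (x ^ 2 - 1 - 2 * x) * P4Z x =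
        4 * (x ^ 2 + 1) * (x ^ 2 - 1) * ((x ^ 2 + 1) ^ 2 + 8 * zt * x ^ 2) := by
    rw [P4Z_neg x, P4Z_eq x]
    ring
  rw [e1, oz_A hx hr, oz_b1 hx hr, oz_b2 hx hr]
  ring

theorem oz_22 (hx : x ^ 2 = r * (1 + 4 * t)) (hr : r * (1 - 2 * zt) = 1) (he : e5Z t ≠ 0) :
    (F2Z x y - F2Z (-x) (zt * y) + F2Z x (-y) - F2Z (-x) (-(zt * y))) * e5Z t =
      2 * zt * ((1 - 2 * zt) * x * ((1 + lm * t) * cZ t)) := by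
  have e : F2Z x y - F2Z (-x) (zt * y) + F2Z x (-y) - F2Z (-x) (-(zt * y)) =
      2 * (x ^ 2 + 1) * (x ^ 2 - 1 + 2 * x) / P4Z x +
        -(2 * (x ^ 2 + 1) * (x ^ 2 - 1 - 2 * x)) / P4Z (-x) := by
    rw [F2Z, F2Z, F2Z, F2Z]
    ring
  rw [e]
  apply oz_last hx hr he
  have e1 : 2 * (x ^ 2 + 1) * (x ^ 2 - 1 + 2 * x) * P4Z (-x) +
      -(2 * (x ^ 2 + 1) * (x ^ 2 - 1 - 2 * x)) * P4Z x =
        8 * x * (x ^ 2 + 1) * (2 * zt * (x ^ 2 - 1) ^ 2 + (x ^ 2 + 1) ^ 2) := by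
    rw [P4Z_neg x, P4Z_eq x]
    ring
  rw [e1, oz_C hx hr, oz_b2 hx hr]
  linear_combination 256 * zt * (1 - zt) * x * r ^ 3 * (1 + lm * t) * cZ t * hr

theorem oz_21 (hx : x ^ 2 = r * (1 + 4 * t)) (hr : r * (1 - 2 * zt) = 1) (he : e5Z t ≠ 0) :
    (F2Z x y + zt * F2Z (-x) (zt * y) - F2Z x (-y) - zt * F2Z (-x) (-(zt * y))) * e5Z t =
      zt * lm * (1 - 2 * zt) ^ 2 * (x * y) * dZ t := by
  have e : F2Z x y + zt * F2Z (-x) (zt * y) - F2Z x (-y) - zt * F2Z (-x) (-(zt * y)) =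
      -(4 * y * (x ^ 2 - 1 - 2 * x)) / P4Z x +
        4 * y * (x ^ 2 - 1 + 2 * x) / P4Z (-x) -
        4 * y * (x ^ 2 - 1 + 2 * x) * (zt ^ 2 - -1) / P4Z (-x) := by
    rw [F2Z, F2Z, F2Z, F2Z]
    ring
  have e0 : (zt ^ 2 - -1 : ℂ) = 0 := by
    rw [zt_sq]
    ring
  rw [e, e0, mul_zero, zero_div, sub_zero]
  apply oz_last hx hr he
  have e1 : -(4 * y * (x ^ 2 - 1 - 2 * x)) * P4Z (-x) +
      4 * y * (x ^ 2 - 1 + 2 * x) * P4Z x =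
        -16 * x * y * (2 * zt * (x ^ 2 - 1) ^ 2 - (x ^ 2 + 1) ^ 2) := by
    rw [P4Z_neg x, P4Z_eq x]
    ring
  rw [e1, oz_D hx hr]
  linear_combination 128 * zt * x * y * r ^ 4 * (1 - 2 * zt) ^ 2 * dZ t * cj_lm (hq := hq) +
    256 * zt * x * y * r ^ 2 * dZ t * (r * (1 - 2 * zt) + 1) * hr

theorem oz_23 (hx : x ^ 2 = r * (1 + 4 * t)) (hr : r * (1 - 2 * zt) = 1) (he : e5Z t ≠ 0) :
    (F2Z x y - zt * F2Z (-x) (zt * y) - F2Z x (-y) + zt * F2Z (-x) (-(zt * y))) * e5Z t =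
      zt * lm * (1 - 2 * zt) * y * ((1 - 2 * zt * t) * bZ t) := by
  have e : F2Z x y - zt * F2Z (-x) (zt * y) - F2Z x (-y) + zt * F2Z (-x) (-(zt * y)) =
      -(4 * y * (x ^ 2 - 1 - 2 * x)) / P4Z x +
        -(4 * y * (x ^ 2 - 1 + 2 * x)) / P4Z (-x) +
        4 * y * (x ^ 2 - 1 + 2 * x) * (zt ^ 2 - -1) / P4Z (-x) := by
    rw [F2Z, F2Z, F2Z, F2Z]
    ring
  have e0 : (zt ^ 2 - -1 : ℂ) = 0 := by
    rw [zt_sq]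
    ring
  rw [e, e0, mul_zero, zero_div, add_zero]
  apply oz_last hx hr he
  have e1 : -(4 * y * (x ^ 2 - 1 - 2 * x)) * P4Z (-x) +
      -(4 * y * (x ^ 2 - 1 + 2 * x)) * P4Z x =
        -8 * y * (x ^ 2 - 1) * ((x ^ 2 + 1) ^ 2 - 8 * zt * x ^ 2) := by
    rw [P4Z_neg x, P4Z_eq x]
    ring
  rw [e1, oz_B hx hr, oz_b1 hx hr]
  linear_combination 128 * zt * y * r ^ 4 * (1 - 2 * zt) * (1 - 2 * zt * t) * bZ t *
      cj_lm (hq := hq) +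
    256 * zt * y * r ^ 3 * (1 - 2 * zt * t) * bZ t * hr

/-! ### The orbit sums, `e = 1 / lm ^ 5`, `k = 0` -/

theorem oz_00 (hx : x ^ 2 = r * (1 + 4 * t)) (hr : r * (1 - 2 * zt) = 1) (he : e5Z t ≠ 0) :
    (F0Z x y + F0Z (-x) (zt * y) + F0Z x (-y) + F0Z (-x) (-(zt * y))) * e5Z t =
      -2 * zt * ((1 - 2 * zt * t) * (1 + lm * t) * bZ t) := by
  have e : F0Z x y + F0Z (-x) (zt * y) + F0Z x (-y) + F0Z (-x) (-(zt * y)) =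
      2 * (x ^ 2 + 1) * (x ^ 2 - 1 - 2 * x) / P4Z x +
        2 * (x ^ 2 + 1) * (x ^ 2 - 1 + 2 * x) / P4Z (-x) := by
    rw [F0Z, F0Z, F0Z, F0Z]
    ring
  rw [e]
  apply oz_last hx hr he
  have e1 : 2 * (x ^ 2 + 1) * (x ^ 2 - 1 - 2 * x) * P4Z (-x) +
      2 * (x ^ 2 + 1) * (x ^ 2 - 1 + 2 * x) * P4Z x =
        4 * (x ^ 2 + 1) * (x ^ 2 - 1) * ((x ^ 2 + 1) ^ 2 - 8 * zt * x ^ 2) := by
    rw [P4Z_neg x, P4Z_eq x]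
    ring
  rw [e1, oz_B hx hr, oz_b1 hx hr, oz_b2 hx hr]
  ring

theorem oz_02 (hx : x ^ 2 = r * (1 + 4 * t)) (hr : r * (1 - 2 * zt) = 1) (he : e5Z t ≠ 0) :
    (F0Z x y - F0Z (-x) (zt * y) + F0Z x (-y) - F0Z (-x) (-(zt * y))) * e5Z t =
      -2 * zt * ((1 - 2 * zt) * x * ((1 + lm * t) * dZ t)) := by
  have e : F0Z x y - F0Z (-x) (zt * y) + F0Z x (-y) - F0Z (-x) (-(zt * y)) =
      2 * (x ^ 2 + 1) * (x ^ 2 - 1 - 2 * x) / P4Z x +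
        -(2 * (x ^ 2 + 1) * (x ^ 2 - 1 + 2 * x)) / P4Z (-x) := by
    rw [F0Z, F0Z, F0Z, F0Z]
    ring
  rw [e]
  apply oz_last hx hr he
  have e1 : 2 * (x ^ 2 + 1) * (x ^ 2 - 1 - 2 * x) * P4Z (-x) +
      -(2 * (x ^ 2 + 1) * (x ^ 2 - 1 + 2 * x)) * P4Z x =
        8 * x * (x ^ 2 + 1) * (2 * zt * (x ^ 2 - 1) ^ 2 - (x ^ 2 + 1) ^ 2) := by
    rw [P4Z_neg x, P4Z_eq x]
    ring
  rw [e1, oz_D hx hr, oz_b2 hx hr]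
  linear_combination -256 * zt * (1 - zt) * x * r ^ 3 * (1 + lm * t) * dZ t * hr

theorem oz_01 (hx : x ^ 2 = r * (1 + 4 * t)) (hr : r * (1 - 2 * zt) = 1) (he : e5Z t ≠ 0) :
    (F0Z x y + zt * F0Z (-x) (zt * y) - F0Z x (-y) - zt * F0Z (-x) (-(zt * y))) * e5Z t =
      lm * (1 - 2 * zt) ^ 2 * (x * y) * cZ t := by
  have e : F0Z x y + zt * F0Z (-x) (zt * y) - F0Z x (-y) - zt * F0Z (-x) (-(zt * y)) =
      -(4 * zt * y * (x ^ 2 - 1 + 2 * x)) / P4Z x +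
        4 * zt * y * (x ^ 2 - 1 - 2 * x) / P4Z (-x) -
        4 * zt * y * (x ^ 2 - 1 - 2 * x) * (zt ^ 2 - -1) / P4Z (-x) := by
    rw [F0Z, F0Z, F0Z, F0Z]
    ring
  have e0 : (zt ^ 2 - -1 : ℂ) = 0 := by
    rw [zt_sq]
    ring
  rw [e, e0, mul_zero, zero_div, sub_zero]
  apply oz_last hx hr he
  have e1 : -(4 * zt * y * (x ^ 2 - 1 + 2 * x)) * P4Z (-x) +
      4 * zt * y * (x ^ 2 - 1 - 2 * x) * P4Z x =
        -16 * zt * x * y * (2 * zt * (x ^ 2 - 1) ^ 2 + (x ^ 2 + 1) ^ 2) := by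
    rw [P4Z_neg x, P4Z_eq x]
    ring
  rw [e1, oz_C hx hr]
  linear_combination 128 * x * y * r ^ 4 * (1 - 2 * zt) ^ 2 * cZ t * cj_lm (hq := hq) +
    256 * x * y * r ^ 2 * cZ t * (r * (1 - 2 * zt) + 1) * hr +
    256 * x * y * r ^ 2 * cZ t * zt_sq

theorem oz_03 (hx : x ^ 2 = r * (1 + 4 * t)) (hr : r * (1 - 2 * zt) = 1) (he : e5Z t ≠ 0) :
    (F0Z x y - zt * F0Z (-x) (zt * y) - F0Z x (-y) + zt * F0Z (-x) (-(zt * y))) * e5Z t =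
      -(lm * (1 - 2 * zt) * y * ((1 - 2 * zt * t) * aZ t)) := by
  have e : F0Z x y - zt * F0Z (-x) (zt * y) - F0Z x (-y) + zt * F0Z (-x) (-(zt * y)) =
      -(4 * zt * y * (x ^ 2 - 1 + 2 * x)) / P4Z x +
        -(4 * zt * y * (x ^ 2 - 1 - 2 * x)) / P4Z (-x) +
        4 * zt * y * (x ^ 2 - 1 - 2 * x) * (zt ^ 2 - -1) / P4Z (-x) := by
    rw [F0Z, F0Z, F0Z, F0Z]
    ring
  have e0 : (zt ^ 2 - -1 : ℂ) = 0 := by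
    rw [zt_sq]
    ring
  rw [e, e0, mul_zero, zero_div, add_zero]
  apply oz_last hx hr he
  have e1 : -(4 * zt * y * (x ^ 2 - 1 + 2 * x)) * P4Z (-x) +
      -(4 * zt * y * (x ^ 2 - 1 - 2 * x)) * P4Z x =
        -8 * zt * y * (x ^ 2 - 1) * ((x ^ 2 + 1) ^ 2 + 8 * zt * x ^ 2) := by
    rw [P4Z_neg x, P4Z_eq x]
    ring
  rw [e1, oz_A hx hr, oz_b1 hx hr]
  linear_combination -128 * y * r ^ 4 * (1 - 2 * zt) * (1 - 2 * zt * t) * aZ t *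
      cj_lm (hq := hq) -
    256 * y * r ^ 3 * (1 - 2 * zt * t) * aZ t * hr -
    256 * y * r ^ 3 * (1 - 2 * zt * t) * aZ t * zt_sq

/-! ### The orbit sums, `e = 1 / lm ^ 6` -/

theorem oz_30 (hx : x ^ 2 = r * (1 + 4 * t)) (hr : r * (1 - 2 * zt) = 1) (he : e6Z t ≠ 0) :
    8 * (P3Z x + P3Z (-x)) * e6Z t =
      -(zt * (4 - 3 * zt) * ((1 + 4 * t) * (1 - 2 * zt * t) * (1 + lm * t) * (t * (t + lm)) *
        cZ t)) := by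
  have e : 8 * (P3Z x + P3Z (-x)) = 8 * x * (x ^ 4 - 1) * (x ^ 2 - 1 - 2 * x) / N8Z x +
      -(8 * x * (x ^ 4 - 1) * (x ^ 2 - 1 + 2 * x)) / N8Z (-x) := by
    rw [P3Z, P3Z]
    ring
  rw [e]
  apply oz_last6 hx hr he
  have e1 : 8 * x * (x ^ 4 - 1) * (x ^ 2 - 1 - 2 * x) * N8Z (-x) +
      -(8 * x * (x ^ 4 - 1) * (x ^ 2 - 1 + 2 * x)) * N8Z x =
        -32 * x ^ 2 * ((x ^ 2 - 1) * (x ^ 2 + 1)) *
          (5 * (x ^ 2 - 1) ^ 4 + 8 * x ^ 2 * (x ^ 2 - 1) ^ 2 + 16 * x ^ 4) := by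
    rw [N8Z_neg x, N8Z_eq x]
    ring
  rw [e1, oz_F hx hr, oz_b1 hx hr, oz_b2 hx hr, hx, dZ_eq]
  have h4 : (4 - 3 * zt : ℂ) = (2 + zt) * (1 - 2 * zt) := by
    linear_combination 2 * zt_sq
  rw [h4]
  linear_combination -(2 ^ 15) * zt * (1 - zt) * (2 + zt) * r ^ 7 * ((1 + 4 * t) *
    (1 - 2 * zt * t) * (1 + lm * t) * (t * (t + lm)) * cZ t) * hr

theorem oz_32 (hx : x ^ 2 = r * (1 + 4 * t)) (hr : r * (1 - 2 * zt) = 1) (he : e6Z t ≠ 0) :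
    8 * (P3Z x - P3Z (-x)) * e6Z t =
      (1 - 2 * zt) * x * ((1 - 2 * zt * t) ^ 2 * (1 + lm * t) * (aZ t * bZ t)) := by
  have e : 8 * (P3Z x - P3Z (-x)) = 8 * x * (x ^ 4 - 1) * (x ^ 2 - 1 - 2 * x) / N8Z x +
      8 * x * (x ^ 4 - 1) * (x ^ 2 - 1 + 2 * x) / N8Z (-x) := by
    rw [P3Z, P3Z]
    ring
  rw [e]
  apply oz_last6 hx hr he
  have e1 : 8 * x * (x ^ 4 - 1) * (x ^ 2 - 1 - 2 * x) * N8Z (-x) +
      8 * x * (x ^ 4 - 1) * (x ^ 2 - 1 + 2 * x) * N8Z x =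
        16 * x * ((x ^ 2 - 1) ^ 2 * (x ^ 2 + 1)) *
          ((x ^ 2 - 1) ^ 4 + 8 * x ^ 2 * (x ^ 2 - 1) ^ 2 + 80 * x ^ 4) := by
    rw [N8Z_neg x, N8Z_eq x]
    ring
  rw [e1, oz_G hx hr, oz_b1 hx hr, oz_b2 hx hr]
  linear_combination (2 ^ 15 * (1 - zt) * r ^ 7 * x * ((1 - 2 * zt * t) ^ 2 * (1 + lm * t) *
      (aZ t * bZ t))) * hr +
    (2 ^ 15 * (1 - zt) * r ^ 7 * x * ((1 - 2 * zt * t) ^ 2 * (1 + lm * t) *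
      (aZ t * bZ t))) * zt_sq

theorem oz_11 (hx : x ^ 2 = r * (1 + 4 * t)) (hr : r * (1 - 2 * zt) = 1) (he : e6Z t ≠ 0) :
    4 * (M1Z x y + zt * M1Z (-x) (zt * y)) * e6Z t =
      (2 + zt) * (1 - 2 * zt) ^ 2 * (x * y) * (dX t * (t * (t + lm)) * cZ t) := by
  have e : 4 * (M1Z x y + zt * M1Z (-x) (zt * y)) =
      4 * y * ((x ^ 2 - 1) ^ 2 - 4 * x ^ 2) * (x ^ 2 - 1 - 2 * x) / N8Z x +
        -(4 * y * ((x ^ 2 - 1) ^ 2 - 4 * x ^ 2) * (x ^ 2 - 1 + 2 * x)) / N8Z (-x) +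
        4 * y * ((x ^ 2 - 1) ^ 2 - 4 * x ^ 2) * (x ^ 2 - 1 + 2 * x) * (zt ^ 2 - -1) /
          N8Z (-x) := by
    rw [M1Z, M1Z]
    ring
  have e0 : (zt ^ 2 - -1 : ℂ) = 0 := by
    rw [zt_sq]
    ring
  rw [e, e0, mul_zero, zero_div, add_zero]
  apply oz_last6 hx hr he
  have e1 : 4 * y * ((x ^ 2 - 1) ^ 2 - 4 * x ^ 2) * (x ^ 2 - 1 - 2 * x) * N8Z (-x) +
      -(4 * y * ((x ^ 2 - 1) ^ 2 - 4 * x ^ 2) * (x ^ 2 - 1 + 2 * x)) * N8Z x =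
        -16 * x * y * ((x ^ 2 - 1) ^ 2 - 4 * x ^ 2) *
          (5 * (x ^ 2 - 1) ^ 4 + 8 * x ^ 2 * (x ^ 2 - 1) ^ 2 + 16 * x ^ 4) := by
    rw [N8Z_neg x, N8Z_eq x]
    ring
  rw [e1, oz_F hx hr, oz_W hx hr, dZ_eq]
  linear_combination (2 ^ 15 * (1 - zt) * (2 + zt) * r ^ 6 * (x * y) * (dX t *
    (t * (t + lm)) * cZ t)) * (r * (1 - 2 * zt) + 1) * hr

theorem oz_13 (hx : x ^ 2 = r * (1 + 4 * t)) (hr : r * (1 - 2 * zt) = 1) (he : e6Z t ≠ 0) :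
    4 * (M1Z x y - zt * M1Z (-x) (zt * y)) * e6Z t =
      zt * (1 - 2 * zt) * y * (dX t * (1 - 2 * zt * t) * (aZ t * bZ t)) := by
  have e : 4 * (M1Z x y - zt * M1Z (-x) (zt * y)) =
      4 * y * ((x ^ 2 - 1) ^ 2 - 4 * x ^ 2) * (x ^ 2 - 1 - 2 * x) / N8Z x +
        4 * y * ((x ^ 2 - 1) ^ 2 - 4 * x ^ 2) * (x ^ 2 - 1 + 2 * x) / N8Z (-x) -
        4 * y * ((x ^ 2 - 1) ^ 2 - 4 * x ^ 2) * (x ^ 2 - 1 + 2 * x) * (zt ^ 2 - -1) /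
          N8Z (-x) := by
    rw [M1Z, M1Z]
    ring
  have e0 : (zt ^ 2 - -1 : ℂ) = 0 := by
    rw [zt_sq]
    ring
  rw [e, e0, mul_zero, zero_div, sub_zero]
  apply oz_last6 hx hr he
  have e1 : 4 * y * ((x ^ 2 - 1) ^ 2 - 4 * x ^ 2) * (x ^ 2 - 1 - 2 * x) * N8Z (-x) +
      4 * y * ((x ^ 2 - 1) ^ 2 - 4 * x ^ 2) * (x ^ 2 - 1 + 2 * x) * N8Z x =
        8 * y * ((x ^ 2 - 1) ^ 2 - 4 * x ^ 2) * (x ^ 2 - 1) *
          ((x ^ 2 - 1) ^ 4 + 8 * x ^ 2 * (x ^ 2 - 1) ^ 2 + 80 * x ^ 4) := by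
    rw [N8Z_neg x, N8Z_eq x]
    ring
  rw [e1, oz_G hx hr, oz_W hx hr, oz_b1 hx hr]
  linear_combination (2 ^ 15 * zt * (1 - zt) * r ^ 7 * y * (dX t * (1 - 2 * zt * t) *
    (aZ t * bZ t))) * hr

end

/-! ### The values at the points `i ^ t z` -/

theorem X_sq_ze (z : ℂ) : X z ^ 2 = rh ^ 2 * (1 + 4 * ze z) := by
  rw [X_xi, ze]
  ring

theorem X_ze_inv (z : ℂ) : (1 - 2 * zt) * X z = rh⁻¹ * (1 + 2 * xi z) := by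
  have h1 := rh_sq (hq := hq)
  have h2 : rh * rh⁻¹ = 1 := mul_inv_cancel₀ rh_ne
  rw [X_xi]
  linear_combination rh⁻¹ * (1 + 2 * xi z) * h1 -
    (1 - 2 * zt) * rh * (1 + 2 * xi z) * h2

/-- the sum over the four points -/
theorem orbZ_eq (F : ℂ → ℂ → ℂ) (nu : ℕ) {z : ℂ} (hz : 2 * z ∉ PP.lattice) :
    ∑ t ∈ Finset.range 4, zt ^ (nu * t) * F (X (zt ^ t * z)) (yh (zt ^ t * z)) =
      F (X z) (yh z) + zt ^ nu * F (-X z) (zt * yh z) + (-1) ^ nu * F (X z) (-yh z) +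
        (-zt) ^ nu * F (-X z) (-(zt * yh z)) := by
  have h1 := two_zt hz
  have a1 : X (zt * z) = -X z := X_i (notMem_of_two_mul hz)
  have b1 : yh (zt * z) = zt * yh z := yh_i hz
  have e2 : zt ^ 2 * z = -z := by rw [zt_sq]; ring
  have e3 : zt ^ 3 * z = -(zt * z) := by
    linear_combination (zt * z) * zt_sq
  have y2 : ∀ w : ℂ, yh (-w) = -yh w := fun w => by
    rw [yh, yh, Ell.Y_neg]
    ring
  rw [Finset.sum_range_succ, Finset.sum_range_succ, Finset.sum_range_succ, Finset.sum_range_one,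
    mul_zero, pow_zero, one_mul, one_mul, mul_one, pow_one, e2, e3, Ell.X_neg, Ell.X_neg, y2, y2,
    a1, b1]
  have e4 : zt ^ (nu * 2) = (-1 : ℂ) ^ nu := by
    rw [mul_comm, pow_mul, zt_sq]
  have e5 : zt ^ (nu * 3) = (-zt : ℂ) ^ nu := by
    rw [mul_comm, pow_mul]
    congr 1
    linear_combination zt * zt_sq
  rw [e4, e5]

section
variable {z : ℂ}

/-- `k = 2`, `nu = 0` -/
theorem F2Z_0 (hz : 2 * z ∉ PP.lattice) (he : e5Z (ze z) ≠ 0) :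
    (∑ t ∈ Finset.range 4, zt ^ (0 * t) * F2Z (X (zt ^ t * z)) (yh (zt ^ t * z))) *
      e5Z (ze z) = -2 * zt * ((1 - 2 * zt * ze z) * (1 + lm * ze z) * aZ (ze z)) := by
  rw [orbZ_eq F2Z 0 hz, ← oz_20 (y := yh z) (X_sq_ze z) rh_sq he]
  ring

/-- `k = 2`, `nu = 1` -/
theorem F2Z_1 (hz : 2 * z ∉ PP.lattice) (he : e5Z (ze z) ≠ 0) :
    (∑ t ∈ Finset.range 4, zt ^ (1 * t) * F2Z (X (zt ^ t * z)) (yh (zt ^ t * z))) *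
      e5Z (ze z) = zt * lm * (1 - 2 * zt) ^ 2 * (X z * yh z) * dZ (ze z) := by
  rw [orbZ_eq F2Z 1 hz, ← oz_21 (X_sq_ze z) rh_sq he]
  ring

/-- `k = 2`, `nu = 2` -/
theorem F2Z_2 (hz : 2 * z ∉ PP.lattice) (he : e5Z (ze z) ≠ 0) :
    (∑ t ∈ Finset.range 4, zt ^ (2 * t) * F2Z (X (zt ^ t * z)) (yh (zt ^ t * z))) *
      e5Z (ze z) = 2 * zt * (rh⁻¹ * (1 + 2 * xi z) * ((1 + lm * ze z) * cZ (ze z))) := by
  rw [orbZ_eq F2Z 2 hz, ← X_ze_inv, ← oz_22 (y := yh z) (X_sq_ze z) rh_sq he]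
  linear_combination (F2Z (-X z) (zt * yh z) + F2Z (-X z) (-(zt * yh z))) * e5Z (ze z) * zt_sq

/-- `k = 2`, `nu = 3` -/
theorem F2Z_3 (hz : 2 * z ∉ PP.lattice) (he : e5Z (ze z) ≠ 0) :
    (∑ t ∈ Finset.range 4, zt ^ (3 * t) * F2Z (X (zt ^ t * z)) (yh (zt ^ t * z))) *
      e5Z (ze z) =
        zt * lm * (1 - 2 * zt) * yh z * ((1 - 2 * zt * ze z) * bZ (ze z)) := by
  rw [orbZ_eq F2Z 3 hz, ← oz_23 (X_sq_ze z) rh_sq he]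
  linear_combination (zt * F2Z (-X z) (zt * yh z) - zt * F2Z (-X z) (-(zt * yh z))) *
    e5Z (ze z) * zt_sq

/-- `k = 0`, `nu = 0` -/
theorem F0Z_0 (hz : 2 * z ∉ PP.lattice) (he : e5Z (ze z) ≠ 0) :
    (∑ t ∈ Finset.range 4, zt ^ (0 * t) * F0Z (X (zt ^ t * z)) (yh (zt ^ t * z))) *
      e5Z (ze z) = -2 * zt * ((1 - 2 * zt * ze z) * (1 + lm * ze z) * bZ (ze z)) := by
  rw [orbZ_eq F0Z 0 hz, ← oz_00 (y := yh z) (X_sq_ze z) rh_sq he]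
  ring

/-- `k = 0`, `nu = 1` -/
theorem F0Z_1 (hz : 2 * z ∉ PP.lattice) (he : e5Z (ze z) ≠ 0) :
    (∑ t ∈ Finset.range 4, zt ^ (1 * t) * F0Z (X (zt ^ t * z)) (yh (zt ^ t * z))) *
      e5Z (ze z) = lm * (1 - 2 * zt) ^ 2 * (X z * yh z) * cZ (ze z) := by
  rw [orbZ_eq F0Z 1 hz, ← oz_01 (X_sq_ze z) rh_sq he]
  ring

/-- `k = 0`, `nu = 2` -/
theorem F0Z_2 (hz : 2 * z ∉ PP.lattice) (he : e5Z (ze z) ≠ 0) :
    (∑ t ∈ Finset.range 4, zt ^ (2 * t) * F0Z (X (zt ^ t * z)) (yh (zt ^ t * z))) *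
      e5Z (ze z) = -2 * zt * (rh⁻¹ * (1 + 2 * xi z) * ((1 + lm * ze z) * dZ (ze z))) := by
  rw [orbZ_eq F0Z 2 hz, ← X_ze_inv, ← oz_02 (y := yh z) (X_sq_ze z) rh_sq he]
  linear_combination (F0Z (-X z) (zt * yh z) + F0Z (-X z) (-(zt * yh z))) * e5Z (ze z) * zt_sq

/-- `k = 0`, `nu = 3` -/
theorem F0Z_3 (hz : 2 * z ∉ PP.lattice) (he : e5Z (ze z) ≠ 0) :
    (∑ t ∈ Finset.range 4, zt ^ (3 * t) * F0Z (X (zt ^ t * z)) (yh (zt ^ t * z))) *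
      e5Z (ze z) = -(lm * (1 - 2 * zt) * yh z * ((1 - 2 * zt * ze z) * aZ (ze z))) := by
  rw [orbZ_eq F0Z 3 hz, ← oz_03 (X_sq_ze z) rh_sq he]
  linear_combination (zt * F0Z (-X z) (zt * yh z) - zt * F0Z (-X z) (-(zt * yh z))) *
    e5Z (ze z) * zt_sq

/-- `k = 3`, `nu = 0` : `P3Z` is half of the orbit -/
theorem P3Z_0 (hz : 2 * z ∉ PP.lattice) (he : e6Z (ze z) ≠ 0) :
    8 * (P3Z (X z) + P3Z (X (zt * z))) * e6Z (ze z) =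
      -(zt * (4 - 3 * zt) * ((1 + 4 * ze z) * (1 - 2 * zt * ze z) * (1 + lm * ze z) *
        (ze z * (ze z + lm)) * cZ (ze z))) := by
  rw [X_i (notMem_of_two_mul hz), oz_30 (X_sq_ze z) rh_sq he]

/-- `k = 3`, `nu = 2` -/
theorem P3Z_2 (hz : 2 * z ∉ PP.lattice) (he : e6Z (ze z) ≠ 0) :
    8 * (P3Z (X z) - P3Z (X (zt * z))) * e6Z (ze z) =
      rh⁻¹ * (1 + 2 * xi z) * ((1 - 2 * zt * ze z) ^ 2 * (1 + lm * ze z) *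
        (aZ (ze z) * bZ (ze z))) := by
  rw [X_i (notMem_of_two_mul hz), oz_32 (X_sq_ze z) rh_sq he, X_ze_inv]

/-- `k = 1`, `nu = 1` -/
theorem M1Z_1 (hz : 2 * z ∉ PP.lattice) (he : e6Z (ze z) ≠ 0) :
    4 * (M1Z (X z) (yh z) + zt * M1Z (X (zt * z)) (yh (zt * z))) * e6Z (ze z) =
      (2 + zt) * (1 - 2 * zt) ^ 2 * (X z * yh z) *
        (dX (ze z) * (ze z * (ze z + lm)) * cZ (ze z)) := by
  rw [X_i (notMem_of_two_mul hz), yh_i hz, oz_11 (X_sq_ze z) rh_sq he]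

/-- `k = 1`, `nu = 3` -/
theorem M1Z_3 (hz : 2 * z ∉ PP.lattice) (he : e6Z (ze z) ≠ 0) :
    4 * (M1Z (X z) (yh z) - zt * M1Z (X (zt * z)) (yh (zt * z))) * e6Z (ze z) =
      zt * (1 - 2 * zt) * yh z * (dX (ze z) * (1 - 2 * zt * ze z) *
        (aZ (ze z) * bZ (ze z))) := by
  rw [X_i (notMem_of_two_mul hz), yh_i hz, oz_13 (X_sq_ze z) rh_sq he]

end

/-! ### The place -/

section
variable {B : ValuationSubring ℂ}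

theorem mem_B_iff {t : ℂ} : B.valuation t ≤ 1 ↔ t ∈ B := B.valuation_le_one_iff t

theorem v_two_mul_le {t : ℂ} (ht : t ∈ B) :
    B.valuation (2 * t) ≤ B.valuation lm ^ 2 := by
  rw [map_mul, ← v_lm_sq]
  exact mul_le_of_le_one_right' (mem_B_iff.2 ht)

theorem zt_mem_B : (zt : ℂ) ∈ B := mem_B_iff.1 v_zt.le

theorem lm_mem_B : (lm : ℂ) ∈ B := by
  rw [lm]
  exact add_mem (one_mem B) zt_mem_B

/-- (2.2) -/
theorem v_e5Z_sub {t : ℂ} (ht : t ∈ B) :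
    B.valuation (e5Z t - (1 + lm * t ^ 4)) ≤ B.valuation lm ^ 2 := by
  have e : e5Z t - (1 + lm * t ^ 4) = 2 * ((1 - zt) * t - (5 + 4 * zt) * t ^ 2 +
      (-8 + 2 * zt) * t ^ 3 - lm * t ^ 4) := by
    rw [e5Z]
    ring
  rw [e]
  refine v_two_mul_le ?_
  have hi := zt_mem_B (B := B)
  have hl := lm_mem_B (B := B)
  repeat' first
    | exact ht
    | exact hi
    | exact hl
    | exact ofNat_mem B _
    | exact OneMemClass.one_mem B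
    | apply pow_mem
    | apply add_mem
    | apply sub_mem
    | apply MulMemClass.mul_mem
    | apply neg_mem

/-- (2.2) -/
theorem v_e6Z_sub {t : ℂ} (ht : t ∈ B) :
    B.valuation (e6Z t - (1 + lm * t ^ 8)) ≤ B.valuation lm ^ 2 := by
  have e : e6Z t - (1 + lm * t ^ 8) = 2 * (6 * t + (31 - 9 * zt) * t ^ 2 +
      (70 - 66 * zt) * t ^ 3 + (25 - 130 * zt) * t ^ 4 - (50 + 46 * zt) * t ^ 5 + 54 * t ^ 6 +
      (32 - 12 * zt) * t ^ 7 - lm * t ^ 8) := by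
    rw [e6Z]
    ring
  rw [e]
  refine v_two_mul_le ?_
  have hi := zt_mem_B (B := B)
  have hl := lm_mem_B (B := B)
  repeat' first
    | exact ht
    | exact hi
    | exact hl
    | exact ofNat_mem B _
    | exact OneMemClass.one_mem B
    | apply pow_mem
    | apply add_mem
    | apply sub_mem
    | apply MulMemClass.mul_mem

/-- (2.2) -/
theorem v_dX_sub2 {t : ℂ} (ht : t ∈ B) :
    B.valuation (dX t - (1 + lm * t ^ 2)) ≤ B.valuation lm ^ 2 := by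
  have e : dX t - (1 + lm * t ^ 2) = 2 * ((2 - zt) * t - lm * t ^ 2) := by
    rw [dX]
    ring
  rw [e]
  refine v_two_mul_le ?_
  have hi := zt_mem_B (B := B)
  have hl := lm_mem_B (B := B)
  repeat' first
    | exact ht
    | exact hi
    | exact hl
    | exact ofNat_mem B _
    | exact OneMemClass.one_mem B
    | apply pow_mem
    | apply add_mem
    | apply sub_mem
    | apply MulMemClass.mul_mem

theorem v_e5Z (hB : (2 : ℂ)⁻¹ ∉ B) {t : ℂ} (ht : t ∈ B) : B.valuation (e5Z t) = 1 := by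
  have h1 := v_e5Z_sub ht
  have hl := v_lm_lt (B := B) hB
  have e : e5Z t = 1 + ((e5Z t - (1 + lm * t ^ 4)) + lm * t ^ 4) := by ring
  rw [e, Valuation.map_one_add_of_lt]
  refine Valuation.map_add_lt _ (h1.trans_lt (pow_lt_one₀ zero_le hl two_ne_zero)) ?_
  rw [map_mul, map_pow]
  exact mul_lt_one_of_lt_of_le hl (pow_le_one₀ zero_le (mem_B_iff.2 ht))

theorem v_e6Z (hB : (2 : ℂ)⁻¹ ∉ B) {t : ℂ} (ht : t ∈ B) : B.valuation (e6Z t) = 1 := by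
  have h1 := v_e6Z_sub ht
  have hl := v_lm_lt (B := B) hB
  have e : e6Z t = 1 + ((e6Z t - (1 + lm * t ^ 8)) + lm * t ^ 8) := by ring
  rw [e, Valuation.map_one_add_of_lt]
  refine Valuation.map_add_lt _ (h1.trans_lt (pow_lt_one₀ zero_le hl two_ne_zero)) ?_
  rw [map_mul, map_pow]
  exact mul_lt_one_of_lt_of_le hl (pow_le_one₀ zero_le (mem_B_iff.2 ht))

theorem ze_mem (hB : (2 : ℂ)⁻¹ ∉ B) {z : ℂ} (hz : Od z) : ze z ∈ B := mem_B_iff.1 (v_ze hB hz)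

theorem e5Z_ne (hB : (2 : ℂ)⁻¹ ∉ B) {z : ℂ} (hz : Od z) : e5Z (ze z) ≠ 0 := by
  intro h
  have h1 := v_e5Z hB (ze_mem hB hz)
  rw [h, map_zero] at h1
  exact zero_ne_one h1

theorem e6Z_ne (hB : (2 : ℂ)⁻¹ ∉ B) {z : ℂ} (hz : Od z) : e6Z (ze z) ≠ 0 := by
  intro h
  have h1 := v_e6Z hB (ze_mem hB hz)
  rw [h, map_zero] at h1
  exact zero_ne_one h1

end

end

end Pool.Agent.Lib.MP_1a91b9_ntQ
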