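import Pool.Agent.Lib.MP_1a91b9_ntQ.B.ExA
import Pool.Agent.Lib.MP_1a91b9_ntQ.B.DefZ
import Pool.Agent.Lib.MP_1a91b9_ntQ.B.OrbZ

/-!
# Quartic twists, stage 2, file ExpZ: the expansions (2.1) - (2.3) of page B2

Everything modulo the ideal `JZ B` of the elements of value smaller than `v lm`: there `2 = 0`,
`lm ^ 2 = 0`; the algebra is in ExA.
-/

set_option autoImplicit false
set_option linter.unusedSectionVars false

namespace Pool.Agent.Lib.MP_1a91b9_ntQ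

open NumberField Pool.Agent.Lib.MP_1a91b9_nuT Pool.Agent.Lib.MP_1a91b9_nuT.S3
  Pool.Agent.Lib.MP_1a91b9_nuT.Ell Pool.Agent.Lib.MP_1a91b9_ntQ.Ex

noncomputable section

variable [CD] [hq : Q4] {B : ValuationSubring ℂ}

include hq

/-- the ideal of the elements of value smaller than `v lm` -/
def JZ (B : ValuationSubring ℂ) : Ideal B where
  carrier := {x | B.valuation (x : ℂ) < B.valuation lm}
  add_mem' := fun {a b} ha hb => Valuation.map_add_lt B.valuation ha hb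
  zero_mem' := by
    show B.valuation (0 : ℂ) < B.valuation lm
    rw [map_zero]
    exact v_lm_pos
  smul_mem' := fun c {x} hx => by
    show B.valuation ((c : ℂ) * (x : ℂ)) < B.valuation lm
    rw [map_mul]
    exact (mul_le_of_le_one_left' (B.valuation_le_one c)).trans_lt hx

/-- the reduction modulo `JZ` -/
def mZ (B : ValuationSubring ℂ) : B →+* B ⧸ JZ B := Ideal.Quotient.mk _

theorem mZ_eq {x y : B} (h : mZ B x = mZ B y) :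
    B.valuation ((x : ℂ) - (y : ℂ)) < B.valuation lm := by
  have h1 : x - y ∈ JZ B := (Ideal.Quotient.eq (I := JZ B)).1 h
  exact h1

theorem mZ_of {x y : B} (h : B.valuation ((x : ℂ) - (y : ℂ)) < B.valuation lm) :
    mZ B x = mZ B y := (Ideal.Quotient.eq (I := JZ B)).2 h

theorem v_lm_sq_lt (hB : (2 : ℂ)⁻¹ ∉ B) : B.valuation lm ^ 2 < B.valuation lm := by
  rw [pow_two]
  exact mul_lt_of_lt_one_right v_lm_pos (v_lm_lt hB)

theorem mZ_two (hB : (2 : ℂ)⁻¹ ∉ B) : (2 : B ⧸ JZ B) = 0 := by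
  have h : mZ B 2 = mZ B 0 := by
    refine mZ_of ?_
    show B.valuation ((2 : ℂ) - 0) < _
    rw [sub_zero, ← v_lm_sq]
    exact v_lm_sq_lt hB
  rwa [map_ofNat, map_zero] at h

/-- `lm` in the ring -/
def lZ (hB : (2 : ℂ)⁻¹ ∉ B) : B := ⟨lm, (B.valuation_le_one_iff _).1 (v_lm_lt hB).le⟩

theorem mZ_lm (hB : (2 : ℂ)⁻¹ ∉ B) : mZ B (lZ hB) ^ 2 = 0 := by
  rw [← map_pow, ← map_zero (mZ B)]
  refine mZ_of ?_
  show B.valuation (lm ^ 2 - 0) < _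
  rw [sub_zero, map_pow]
  exact v_lm_sq_lt hB

theorem mZ_lm_mul (hB : (2 : ℂ)⁻¹ ∉ B) {x y : B} (h : B.valuation ((x : ℂ) - (y : ℂ)) < 1) :
    mZ B (lZ hB) * mZ B x = mZ B (lZ hB) * mZ B y := by
  rw [← map_mul, ← map_mul]
  refine mZ_of ?_
  show B.valuation (lm * (x : ℂ) - lm * (y : ℂ)) < _
  rw [← mul_sub, map_mul]
  exact mul_lt_of_lt_one_right v_lm_pos h

/-- `xi (lm ^ j z)` in the ring -/
def xZ (hB : (2 : ℂ)⁻¹ ∉ B) {z : ℂ} (hz : Od z) (j : ℕ) : B := ⟨xi (lm ^ j * z), xi_mem hB (hz.pow j)⟩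

/-- `ze (lm ^ j z)` in the ring -/
def tZ (hB : (2 : ℂ)⁻¹ ∉ B) {z : ℂ} (hz : Od z) (j : ℕ) : B :=
  ⟨ze (lm ^ j * z), (B.valuation_le_one_iff _).1 (v_ze hB (hz.pow j))⟩

theorem zt_lm : (zt : ℂ) = lm - 1 := by
  rw [lm]
  ring

theorem tZ_eq (hB : (2 : ℂ)⁻¹ ∉ B) {z : ℂ} (hz : Od z) (j : ℕ) :
    mZ B (tZ hB hz j) = mZ B (xZ hB hz j) + mZ B (xZ hB hz j) ^ 2 := by
  rw [← map_pow, ← map_add]
  rfl

theorem xZ_succ (hB : (2 : ℂ)⁻¹ ∉ B) {z : ℂ} (hz : Od z) (j : ℕ) :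
    mZ B (xZ hB hz (j + 1)) = (1 + mZ B (lZ hB)) * mZ B (xZ hB hz j) ^ 2 +
      mZ B (lZ hB) * mZ B (xZ hB hz j) := by
  refine ex_x (mZ_two hB) (mZ_lm hB) ?_
  have h := xi_lm_eq (hq := hq) (hz.pow j).two
  have e : lm * (lm ^ j * z) = lm ^ (j + 1) * z := by ring
  rw [e, zt_lm] at h
  have h1 : xZ hB hz (j + 1) * (1 + 2 * xZ hB hz j) = -((lZ hB - 1) * (xZ hB hz j ^ 2 +
      (1 - (lZ hB - 1)) * xZ hB hz j)) := Subtype.ext h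
  have h2 := congrArg (mZ B) h1
  simpa only [map_mul, map_add, map_sub, map_neg, map_pow, map_one, map_ofNat] using h2

/-- the transfer -/
theorem trZ {e U T : ℂ} {eb nb tb : B} (he : B.valuation e = 1) (h1 : (eb : ℂ) = e)
    (h2 : U * e = (nb : ℂ)) (h3 : (tb : ℂ) = T)
    (key : ∀ u : B ⧸ JZ B, u * mZ B eb = mZ B nb → u = mZ B tb) :
    B.valuation (U - T) < B.valuation lm := by
  have hU : U ∈ B := by
    rw [← B.valuation_le_one_iff]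
    have h4 := congrArg B.valuation h2
    rw [map_mul, he, mul_one] at h4
    rw [h4]
    exact B.valuation_le_one nb
  have h5 : (⟨U, hU⟩ : B) * eb = nb := Subtype.ext (by
    show U * (eb : ℂ) = nb
    rw [h1, h2])
  have h6 := key (mZ B ⟨U, hU⟩) (by rw [← map_mul, h5])
  have h7 := mZ_eq h6
  rwa [h3] at h7

theorem e6Z_eq (t : ℂ) : e6Z t = gE6 (lm - 1) lm t := by
  rw [e6Z, gE6, ← zt_lm]

theorem e5Z_eq (t : ℂ) : e5Z t = gE5 (lm - 1) lm t := by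
  rw [e5Z, gE5, ← zt_lm]

theorem aZ_eq (t : ℂ) : aZ t = gA (lm - 1) t := by
  rw [aZ, gA, ← zt_lm]

theorem bZ_eq (t : ℂ) : bZ t = gB lm t := rfl

theorem cZ_eq (t : ℂ) : cZ t = gC (lm - 1) t := by
  rw [cZ, gC, ← zt_lm]

theorem dZ_eq' (t : ℂ) : dZ t = gD (lm - 1) t := by
  rw [dZ, gD, ← zt_lm]

theorem dX_eq' (t : ℂ) : dX t = gW (lm - 1) lm t := by
  rw [dX, gW, ← zt_lm]

theorem coeZ (x : B) : (x : ℂ) = B.subtype x := rfl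


/-! ### The coordinate `al` -/

/-- `al` is integral -/
theorem al_le (hB : (2 : ℂ)⁻¹ ∉ B) {z : ℂ} (hz : Od z) : B.valuation (al z) ≤ 1 := by
  by_contra hc
  push Not at hc
  have h := congrArg B.valuation (al_sq (hq := hq) hz.two)
  have hx := xi_le hB hz
  have ht := v_ze hB hz
  have h1 : B.valuation (al z ^ 2 + (1 - zt) * al z) = B.valuation (al z) ^ 2 := by
    rw [← map_pow]
    refine Valuation.map_add_eq_of_lt_left _ ?_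
    rw [map_mul, map_pow, pow_two]
    exact mul_lt_mul_of_pos_right ((v_one_zt hB).trans hc) (zero_lt_one.trans hc)
  rw [h1] at h
  have h2 : B.valuation (-(zt * xi z) - ze z - 2 * xi z * ze z) ≤ 1 := by
    refine (Valuation.map_sub _ _ _).trans (max_le ?_ ?_)
    · refine (Valuation.map_sub _ _ _).trans (max_le ?_ ht)
      rw [Valuation.map_neg, map_mul, v_zt, one_mul]
      exact hx
    · rw [map_mul, map_mul]
      exact mul_le_one' (mul_le_one' (two_lt hB).le hx) ht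
  rw [← h] at h2
  exact absurd h2 (not_le.2 (one_lt_pow₀ hc two_ne_zero))

/-- `al` is congruent to `xi` modulo the maximal ideal -/
theorem v_al_xi (hB : (2 : ℂ)⁻¹ ∉ B) {z : ℂ} (hz : Od z) : B.valuation (al z - xi z) < 1 := by
  have hx := xi_le hB hz
  have ht := v_ze hB hz
  have ha := al_le hB hz
  have h := al_sq (hq := hq) hz.two
  have e : (al z - xi z) ^ 2 = -(lm * xi z) - (1 - zt) * al z - 2 * (xi z * ze z + al z * xi z) := by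
    rw [lm]
    rw [ze] at h ⊢
    linear_combination h
  have h1 : B.valuation ((al z - xi z) ^ 2) < 1 := by
    rw [e]
    refine Valuation.map_sub_lt _ (Valuation.map_sub_lt _ ?_ ?_) ?_
    · rw [Valuation.map_neg, map_mul]
      exact mul_lt_one_of_lt_of_le (v_lm_lt hB) hx
    · rw [map_mul]
      exact mul_lt_one_of_lt_of_le (v_one_zt hB) ha
    · rw [map_mul]
      refine mul_lt_one_of_lt_of_le (two_lt hB) ?_
      refine (Valuation.map_add _ _ _).trans (max_le ?_ ?_)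
      · rw [map_mul]
        exact mul_le_one' hx ht
      · rw [map_mul]
        exact mul_le_one' ha hx
  rw [map_pow] at h1
  by_contra h2
  push Not at h2
  exact absurd h1 (not_lt.2 (one_le_pow₀ h2))

/-- `al (lm ^ j z)` in the ring -/
def aaZ (hB : (2 : ℂ)⁻¹ ∉ B) {z : ℂ} (hz : Od z) (j : ℕ) : B :=
  ⟨al (lm ^ j * z), (B.valuation_le_one_iff _).1 (al_le hB (hz.pow j))⟩

theorem lm_aaZ (hB : (2 : ℂ)⁻¹ ∉ B) {z : ℂ} (hz : Od z) (j : ℕ) :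
    mZ B (lZ hB) * mZ B (aaZ hB hz j) = mZ B (lZ hB) * mZ B (xZ hB hz j) :=
  mZ_lm_mul hB (v_al_xi hB (hz.pow j))

/-- `al` at `lm z`, divided -/
theorem al_lm' {z : ℂ} (hz : 2 * (lm * z) ∉ PP.lattice) :
    al (lm * z) * (1 + 4 * ze z) = -(1 - (lm - 1)) - (ze z + al z) - lm * ze z * al z -
      2 * (1 - (lm - 1)) * ze z := by
  have h := al_lm (hq := hq) hz
  have h1 := lm_sq (hq := hq)
  have h2 : (lm : ℂ) * (2 - lm) = 2 := by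
    have h3 := cj_lm (hq := hq)
    have e : (2 - lm : ℂ) = 1 - zt := by
      rw [lm]
      ring
    rw [e]
    linear_combination h3
  apply mul_left_cancel₀ (lm_ne (hq := hq))
  linear_combination h + (1 + 2 * ze z) * h2

theorem aaZ_succ (hB : (2 : ℂ)⁻¹ ∉ B) {z : ℂ} (hz : Od z) (j : ℕ) :
    mZ B (aaZ hB hz (j + 1)) = mZ B (aaZ hB hz j) + mZ B (tZ hB hz j) +
      mZ B (lZ hB) * (mZ B (tZ hB hz j) * mZ B (xZ hB hz j) + 1) := by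
  refine ex_a (mZ_two hB) (lm_aaZ hB hz j) ?_
  have h := al_lm' (hq := hq) (hz.pow j).mul_lm.two
  have e : lm * (lm ^ j * z) = lm ^ (j + 1) * z := by ring
  rw [e] at h
  have h1 : aaZ hB hz (j + 1) * (1 + 4 * tZ hB hz j) = -(1 - (lZ hB - 1)) -
      (tZ hB hz j + aaZ hB hz j) - lZ hB * tZ hB hz j * aaZ hB hz j -
      2 * (1 - (lZ hB - 1)) * tZ hB hz j := Subtype.ext h
  have h2 := congrArg (mZ B) h1
  simpa only [map_mul, map_add, map_sub, map_neg, map_pow, map_one, map_ofNat] using h2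


/-- `ze` at `lm z`, exact -/
theorem ze_lm {z : ℂ} (hz : 2 * z ∉ PP.lattice) :
    ze (lm * z) * (1 + 4 * ze z) = -(ze z * (ze z + lm)) := by
  have h := xi_lm_eq (hq := hq) hz
  have e1 : ze (lm * z) * (1 + 4 * ze z) = (xi (lm * z) * (1 + 2 * xi z)) ^ 2 +
      (xi (lm * z) * (1 + 2 * xi z)) * (1 + 2 * xi z) := by
    rw [ze, ze]
    ring
  rw [e1, h, ze, lm]
  linear_combination (xi z ^ 4 + 2 * (1 - zt) * xi z ^ 3 + (1 - zt) ^ 2 * xi z ^ 2 +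
    xi z ^ 2 + xi z) * zt_sq

/-- `ze (lm z)` is congruent to `ze z ^ 2` modulo the maximal ideal -/
theorem v_ze_lm (hB : (2 : ℂ)⁻¹ ∉ B) {z : ℂ} (hz : Od z) :
    B.valuation (ze (lm * z) - ze z ^ 2) < 1 := by
  have h := ze_lm (hq := hq) hz.two
  have h1 := v_ze hB hz
  have h2 := v_ze hB hz.mul_lm
  have e : ze (lm * z) - ze z ^ 2 = -(lm * ze z) - 2 * (2 * ze z * ze (lm * z) + ze z ^ 2) := by
    linear_combination h
  rw [e]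
  refine Valuation.map_sub_lt _ ?_ ?_
  · rw [Valuation.map_neg, map_mul]
    exact mul_lt_one_of_lt_of_le (v_lm_lt hB) h1
  · rw [map_mul]
    refine mul_lt_one_of_lt_of_le (two_lt hB) ?_
    refine (Valuation.map_add _ _ _).trans (max_le ?_ ?_)
    · rw [map_mul, map_mul]
      exact mul_le_one' (mul_le_one' (two_lt hB).le h1) h2
    · rw [map_pow]
      exact pow_le_one₀ zero_le h1

/-- `xi (lm z)` modulo `lm m` -/
theorem v_xi_succ (hB : (2 : ℂ)⁻¹ ∉ B) {z : ℂ} (hz : Od z) :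
    B.valuation (xi (lm * z) - ((1 + lm) * xi z ^ 2 + lm * xi z)) < B.valuation lm := by
  have h := xZ_succ hB hz 0
  have h1 : mZ B (xZ hB hz (0 + 1)) = mZ B ((1 + lZ hB) * xZ hB hz 0 ^ 2 + lZ hB * xZ hB hz 0) := by
    rw [h]
    simp only [map_mul, map_add, map_pow, map_one]
  have h2 : B.valuation (xi (lm ^ (0 + 1) * z) - ((1 + lm) * xi (lm ^ 0 * z) ^ 2 +
      lm * xi (lm ^ 0 * z))) < B.valuation lm := mZ_eq h1
  have e0 : lm ^ 0 * z = z := by ring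
  have e1 : lm ^ (0 + 1) * z = lm * z := by ring
  rwa [e0, e1] at h2

/-- `al (lm z)` modulo `lm m` -/
theorem v_al_succ (hB : (2 : ℂ)⁻¹ ∉ B) {z : ℂ} (hz : Od z) :
    B.valuation (al (lm * z) - (al z + ze z + lm * (ze z * xi z + 1))) < B.valuation lm := by
  have h := aaZ_succ hB hz 0
  have h1 : mZ B (aaZ hB hz (0 + 1)) = mZ B (aaZ hB hz 0 + tZ hB hz 0 + lZ hB *
      (tZ hB hz 0 * xZ hB hz 0 + 1)) := by
    rw [h]
    simp only [map_mul, map_add, map_one]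
  have h2 : B.valuation (al (lm ^ (0 + 1) * z) - (al (lm ^ 0 * z) + ze (lm ^ 0 * z) +
      lm * (ze (lm ^ 0 * z) * xi (lm ^ 0 * z) + 1))) < B.valuation lm := mZ_eq h1
  have e0 : lm ^ 0 * z = z := by ring
  have e1 : lm ^ (0 + 1) * z = lm * z := by ring
  rwa [e0, e1] at h2

/-- `al z + al (lm z)` modulo `lm m` -/
theorem v_al_add (hB : (2 : ℂ)⁻¹ ∉ B) {z : ℂ} (hz : Od z) :
    B.valuation (al z + al (lm * z) - (ze z + lm * (ze z * xi z + 1))) < B.valuation lm := by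
  have h := ex_as (mZ_two hB) (aaZ_succ hB hz 0)
  have h1 : mZ B (aaZ hB hz 0 + aaZ hB hz (0 + 1)) = mZ B (tZ hB hz 0 + lZ hB *
      (tZ hB hz 0 * xZ hB hz 0 + 1)) := by
    rw [map_add, h]
    simp only [map_mul, map_add, map_one]
  have h2 : B.valuation (al (lm ^ 0 * z) + al (lm ^ (0 + 1) * z) - (ze (lm ^ 0 * z) +
      lm * (ze (lm ^ 0 * z) * xi (lm ^ 0 * z) + 1))) < B.valuation lm := mZ_eq h1
  have e0 : lm ^ 0 * z = z := by ring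
  have e1 : lm ^ (0 + 1) * z = lm * z := by ring
  rwa [e0, e1] at h2

/-! ### The expansions -/

/-- (2.3), J2b, `k = 3`, `nu = 0` -/
theorem v_30 (hB : (2 : ℂ)⁻¹ ∉ B) {z : ℂ} (hz : Od z) {U : ℂ}
    (h : U * e6Z (ze z) = ze z * (ze z + lm) * (1 + lm * ze z) * (1 - 2 * zt * ze z) * (1 + 4 * ze
      z) * cZ (ze z)) :
    B.valuation (U - (xi (lm * z) + xi (lm ^ 3 * z) + lm * ((ze z + ze (lm ^ 3 * z)) * (ze (lm *
      z) + ze (lm ^ 2 * z))))) < B.valuation lm := by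
  have e0 : lm ^ 0 * z = z := by ring
  have e1 : lm ^ 1 * z = lm * z := by ring
  rw [e6Z_eq, cZ_eq, zt_lm] at h
  refine trZ (e := e6Z (ze (lm ^ 0 * z))) (eb := gE6 (lZ hB - 1) (lZ hB) (tZ hB hz 0))
    (nb := tZ hB hz 0 * (tZ hB hz 0 + lZ hB) * (1 + lZ hB * tZ hB hz 0) * (1 - 2 * (lZ hB - 1) *
      tZ hB hz 0) * (1 + 4 * tZ hB hz 0) * gC (lZ hB - 1) (tZ hB hz 0))
    (tb := xZ hB hz 1 + xZ hB hz 3 + lZ hB * ((tZ hB hz 0 + tZ hB hz 3) * (tZ hB hz 1 + tZ hB hz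
      2)))
    (v_e6Z hB (tZ hB hz 0).2) ?_ ?_ ?_ ?_
  · rw [e6Z_eq]
    exact map_gE6 B.subtype _ _ _
  · rw [e0, e6Z_eq, h, coeZ]
    simp only [map_mul, map_add, map_sub, map_one, map_ofNat, map_gC]
    show _ = ze (lm ^ 0 * z) * (ze (lm ^ 0 * z) + lm) * (1 + lm * ze (lm ^ 0 * z)) * (1 - 2 * (lm - 1) * ze (lm
      ^ 0 * z)) * (1 + 4 * ze (lm ^ 0 * z)) * gC (lm - 1) (ze (lm ^ 0 * z))
    rw [e0]
  · rw [← e1]
    show xi (lm ^ 1 * z) + xi (lm ^ 3 * z) + lm * ((ze (lm ^ 0 * z) + ze (lm ^ 3 * z)) * (ze (lm ^ 1 * z) +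
      ze (lm ^ 2 * z))) = _
    rw [e0]
  · intro u hu
    simp only [map_mul, map_add, map_sub, map_one, map_ofNat, map_gC, map_gE6] at hu ⊢
    have h2 := mZ_two hB
    have hl := mZ_lm hB
    have x1 := xZ_succ hB hz 0
    have x2 := ex_x2 h2 hl x1 (xZ_succ hB hz 1)
    have x3 := ex_x3 h2 hl x2 (xZ_succ hB hz 2)
    exact ex_30 h2 hl x1 x2 x3 (tZ_eq hB hz 0) (tZ_eq hB hz 1) (tZ_eq hB hz 2) (tZ_eq hB hz 3) hu

/-- (2.3), J2b, `k = 3`, `nu = 2` -/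
theorem v_32 (hB : (2 : ℂ)⁻¹ ∉ B) {z : ℂ} (hz : Od z) {U : ℂ}
    (h : U * e6Z (ze z) = (1 + 2 * xi z) * (1 + lm * ze z) * (1 - 2 * zt * ze z) ^ 2 * (aZ (ze z)
      * bZ (ze z))) :
    B.valuation (U - ((1 + lm) * (xi (lm * z) + xi (lm ^ 3 * z)) + lm * (1 + (ze z + ze (lm ^ 3 *
      z)) * (ze (lm * z) + ze (lm ^ 2 * z))))) < B.valuation lm := by
  have e0 : lm ^ 0 * z = z := by ring
  have e1 : lm ^ 1 * z = lm * z := by ring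
  rw [e6Z_eq, aZ_eq, bZ_eq, zt_lm] at h
  refine trZ (e := e6Z (ze (lm ^ 0 * z))) (eb := gE6 (lZ hB - 1) (lZ hB) (tZ hB hz 0))
    (nb := (1 + 2 * xZ hB hz 0) * (1 + lZ hB * tZ hB hz 0) * (1 - 2 * (lZ hB - 1) * tZ hB hz 0) ^
      2 * (gA (lZ hB - 1) (tZ hB hz 0) * gB (lZ hB) (tZ hB hz 0)))
    (tb := (1 + lZ hB) * (xZ hB hz 1 + xZ hB hz 3) + lZ hB * (1 + (tZ hB hz 0 + tZ hB hz 3) * (tZ
      hB hz 1 + tZ hB hz 2)))
    (v_e6Z hB (tZ hB hz 0).2) ?_ ?_ ?_ ?_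
  · rw [e6Z_eq]
    exact map_gE6 B.subtype _ _ _
  · rw [e0, e6Z_eq, h, coeZ]
    simp only [map_mul, map_add, map_sub, map_one, map_ofNat, map_pow, map_gA, map_gB]
    show _ = (1 + 2 * xi (lm ^ 0 * z)) * (1 + lm * ze (lm ^ 0 * z)) * (1 - 2 * (lm - 1) * ze (lm ^ 0 * z)) ^ 2
      * (gA (lm - 1) (ze (lm ^ 0 * z)) * gB lm (ze (lm ^ 0 * z)))
    rw [e0]
  · rw [← e1]
    show (1 + lm) * (xi (lm ^ 1 * z) + xi (lm ^ 3 * z)) + lm * (1 + (ze (lm ^ 0 * z) + ze (lm ^ 3 * z)) *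
      (ze (lm ^ 1 * z) + ze (lm ^ 2 * z))) = _
    rw [e0]
  · intro u hu
    simp only [map_mul, map_add, map_sub, map_one, map_ofNat, map_pow, map_gA, map_gB, map_gE6] at hu ⊢
    have h2 := mZ_two hB
    have hl := mZ_lm hB
    have x1 := xZ_succ hB hz 0
    have x2 := ex_x2 h2 hl x1 (xZ_succ hB hz 1)
    have x3 := ex_x3 h2 hl x2 (xZ_succ hB hz 2)
    exact ex_32 h2 hl x1 x2 x3 (tZ_eq hB hz 0) (tZ_eq hB hz 1) (tZ_eq hB hz 2) (tZ_eq hB hz 3) hu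

/-- (2.3), J2b, `k = 1`, `nu = 1` -/
theorem v_11 (hB : (2 : ℂ)⁻¹ ∉ B) {z : ℂ} (hz : Od z) {U : ℂ}
    (h : U * e6Z (ze z) = (1 + 2 * xi z) * (1 + lm * al z) * dX (ze z) * (ze z * (ze z + lm)) * cZ
      (ze z)) :
    B.valuation (U - (xi (lm * z) + xi (lm ^ 3 * z) + lm * ((ze z + ze (lm ^ 3 * z)) * (ze (lm *
      z) + ze (lm ^ 2 * z)) + xi (lm ^ 2 * z) * (ze (lm * z) + ze (lm ^ 2 * z))))) < B.valuation
      lm := by
  have e0 : lm ^ 0 * z = z := by ring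
  have e1 : lm ^ 1 * z = lm * z := by ring
  rw [e6Z_eq, cZ_eq, dX_eq'] at h
  refine trZ (e := e6Z (ze (lm ^ 0 * z))) (eb := gE6 (lZ hB - 1) (lZ hB) (tZ hB hz 0))
    (nb := (1 + 2 * xZ hB hz 0) * (1 + lZ hB * aaZ hB hz 0) * gW (lZ hB - 1) (lZ hB) (tZ hB hz 0)
      * (tZ hB hz 0 * (tZ hB hz 0 + lZ hB)) * gC (lZ hB - 1) (tZ hB hz 0))
    (tb := xZ hB hz 1 + xZ hB hz 3 + lZ hB * ((tZ hB hz 0 + tZ hB hz 3) * (tZ hB hz 1 + tZ hB hz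
      2) + xZ hB hz 2 * (tZ hB hz 1 + tZ hB hz 2)))
    (v_e6Z hB (tZ hB hz 0).2) ?_ ?_ ?_ ?_
  · rw [e6Z_eq]
    exact map_gE6 B.subtype _ _ _
  · rw [e0, e6Z_eq, h, coeZ]
    simp only [map_mul, map_add, map_sub, map_one, map_ofNat, map_gC, map_gW]
    show _ = (1 + 2 * xi (lm ^ 0 * z)) * (1 + lm * al (lm ^ 0 * z)) * gW (lm - 1) lm (ze (lm ^ 0 * z)) * (ze
      (lm ^ 0 * z) * (ze (lm ^ 0 * z) + lm)) * gC (lm - 1) (ze (lm ^ 0 * z))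
    rw [e0]
  · rw [← e1]
    show xi (lm ^ 1 * z) + xi (lm ^ 3 * z) + lm * ((ze (lm ^ 0 * z) + ze (lm ^ 3 * z)) * (ze (lm ^ 1 * z) +
      ze (lm ^ 2 * z)) + xi (lm ^ 2 * z) * (ze (lm ^ 1 * z) + ze (lm ^ 2 * z))) = _
    rw [e0]
  · intro u hu
    simp only [map_mul, map_add, map_sub, map_one, map_ofNat, map_gC, map_gW, map_gE6] at hu ⊢
    have h2 := mZ_two hB
    have hl := mZ_lm hB
    have x1 := xZ_succ hB hz 0
    have x2 := ex_x2 h2 hl x1 (xZ_succ hB hz 1)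
    have x3 := ex_x3 h2 hl x2 (xZ_succ hB hz 2)
    exact ex_11 h2 hl x1 x2 x3 (tZ_eq hB hz 0) (tZ_eq hB hz 1) (tZ_eq hB hz 2) (tZ_eq hB hz 3)
      (lm_aaZ hB hz 0) hu

/-- (2.3), J2b, `k = 1`, `nu = 3` -/
theorem v_13 (hB : (2 : ℂ)⁻¹ ∉ B) {z : ℂ} (hz : Od z) {U : ℂ}
    (h : U * e6Z (ze z) = (1 + lm * al z) * dX (ze z) * (1 - 2 * zt * ze z) * (aZ (ze z) * bZ (ze
      z))) :
    B.valuation (U - ((1 + lm) * (xi (lm * z) + xi (lm ^ 3 * z)) + lm * (1 + (ze z + ze (lm ^ 3 *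
      z)) * (ze (lm * z) + ze (lm ^ 2 * z)) + xi (lm ^ 2 * z) * (ze (lm * z) + ze (lm ^ 2 * z)))))
      < B.valuation lm := by
  have e0 : lm ^ 0 * z = z := by ring
  have e1 : lm ^ 1 * z = lm * z := by ring
  rw [e6Z_eq, aZ_eq, bZ_eq, dX_eq', zt_lm] at h
  refine trZ (e := e6Z (ze (lm ^ 0 * z))) (eb := gE6 (lZ hB - 1) (lZ hB) (tZ hB hz 0))
    (nb := (1 + lZ hB * aaZ hB hz 0) * gW (lZ hB - 1) (lZ hB) (tZ hB hz 0) * (1 - 2 * (lZ hB - 1)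
      * tZ hB hz 0) * (gA (lZ hB - 1) (tZ hB hz 0) * gB (lZ hB) (tZ hB hz 0)))
    (tb := (1 + lZ hB) * (xZ hB hz 1 + xZ hB hz 3) + lZ hB * (1 + (tZ hB hz 0 + tZ hB hz 3) * (tZ
      hB hz 1 + tZ hB hz 2) + xZ hB hz 2 * (tZ hB hz 1 + tZ hB hz 2)))
    (v_e6Z hB (tZ hB hz 0).2) ?_ ?_ ?_ ?_
  · rw [e6Z_eq]
    exact map_gE6 B.subtype _ _ _
  · rw [e0, e6Z_eq, h, coeZ]
    simp only [map_mul, map_add, map_sub, map_one, map_ofNat, map_gA, map_gB, map_gW]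
    show _ = (1 + lm * al (lm ^ 0 * z)) * gW (lm - 1) lm (ze (lm ^ 0 * z)) * (1 - 2 * (lm - 1) * ze (lm ^ 0 *
      z)) * (gA (lm - 1) (ze (lm ^ 0 * z)) * gB lm (ze (lm ^ 0 * z)))
    rw [e0]
  · rw [← e1]
    show (1 + lm) * (xi (lm ^ 1 * z) + xi (lm ^ 3 * z)) + lm * (1 + (ze (lm ^ 0 * z) + ze (lm ^ 3 * z)) *
      (ze (lm ^ 1 * z) + ze (lm ^ 2 * z)) + xi (lm ^ 2 * z) * (ze (lm ^ 1 * z) + ze (lm ^ 2 * z))) = _
    rw [e0]
  · intro u hu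
    simp only [map_mul, map_add, map_sub, map_one, map_ofNat, map_gA, map_gB, map_gW, map_gE6] at hu ⊢
    have h2 := mZ_two hB
    have hl := mZ_lm hB
    have x1 := xZ_succ hB hz 0
    have x2 := ex_x2 h2 hl x1 (xZ_succ hB hz 1)
    have x3 := ex_x3 h2 hl x2 (xZ_succ hB hz 2)
    exact ex_13 h2 hl x1 x2 x3 (tZ_eq hB hz 0) (tZ_eq hB hz 1) (tZ_eq hB hz 2) (tZ_eq hB hz 3)
      (lm_aaZ hB hz 0) hu

/-- (2.3), J2d, `k = 2`, `nu = 0` -/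
theorem v_20 (hB : (2 : ℂ)⁻¹ ∉ B) {z : ℂ} (hz : Od z) {U : ℂ}
    (h : U * e5Z (ze z) = (1 - 2 * zt * ze z) * (1 + lm * ze z) * aZ (ze z)) :
    B.valuation (U - (1 + (1 + lm) * (xi (lm * z) + xi (lm ^ 2 * z)) + lm * (ze z + ze (lm ^ 2 *
      z) + ze z * ze (lm * z) + ze (lm * z) * ze (lm ^ 2 * z)))) < B.valuation lm := by
  have e0 : lm ^ 0 * z = z := by ring
  have e1 : lm ^ 1 * z = lm * z := by ring
  rw [e5Z_eq, aZ_eq, zt_lm] at h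
  refine trZ (e := e5Z (ze (lm ^ 0 * z))) (eb := gE5 (lZ hB - 1) (lZ hB) (tZ hB hz 0))
    (nb := (1 - 2 * (lZ hB - 1) * tZ hB hz 0) * (1 + lZ hB * tZ hB hz 0) * gA (lZ hB - 1) (tZ hB
      hz 0))
    (tb := 1 + (1 + lZ hB) * (xZ hB hz 1 + xZ hB hz 2) + lZ hB * (tZ hB hz 0 + tZ hB hz 2 + tZ hB
      hz 0 * tZ hB hz 1 + tZ hB hz 1 * tZ hB hz 2))
    (v_e5Z hB (tZ hB hz 0).2) ?_ ?_ ?_ ?_
  · rw [e5Z_eq]
    exact map_gE5 B.subtype _ _ _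
  · rw [e0, e5Z_eq, h, coeZ]
    simp only [map_mul, map_add, map_sub, map_one, map_ofNat, map_gA]
    show _ = (1 - 2 * (lm - 1) * ze (lm ^ 0 * z)) * (1 + lm * ze (lm ^ 0 * z)) * gA (lm - 1) (ze (lm ^ 0 * z))
    rw [e0]
  · rw [← e1]
    show 1 + (1 + lm) * (xi (lm ^ 1 * z) + xi (lm ^ 2 * z)) + lm * (ze (lm ^ 0 * z) + ze (lm ^ 2 * z) + ze
      (lm ^ 0 * z) * ze (lm ^ 1 * z) + ze (lm ^ 1 * z) * ze (lm ^ 2 * z)) = _
    rw [e0]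
  · intro u hu
    simp only [map_mul, map_add, map_sub, map_one, map_ofNat, map_gA, map_gE5] at hu ⊢
    have h2 := mZ_two hB
    have hl := mZ_lm hB
    have x1 := xZ_succ hB hz 0
    have x2 := ex_x2 h2 hl x1 (xZ_succ hB hz 1)
    exact ex_20 h2 hl x1 x2 (tZ_eq hB hz 0) (tZ_eq hB hz 1) (tZ_eq hB hz 2) hu

/-- (2.3), J2d, `k = 2`, `nu = 2` -/
theorem v_22 (hB : (2 : ℂ)⁻¹ ∉ B) {z : ℂ} (hz : Od z) {U : ℂ}
    (h : U * e5Z (ze z) = (1 + 2 * xi z) * (1 + lm * ze z) * cZ (ze z)) :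
    B.valuation (U - (1 + (xi (lm * z) + xi (lm ^ 2 * z)) + lm * (ze z + ze (lm ^ 2 * z) + ze z *
      ze (lm * z) + ze (lm * z) * ze (lm ^ 2 * z)))) < B.valuation lm := by
  have e0 : lm ^ 0 * z = z := by ring
  have e1 : lm ^ 1 * z = lm * z := by ring
  rw [e5Z_eq, cZ_eq] at h
  refine trZ (e := e5Z (ze (lm ^ 0 * z))) (eb := gE5 (lZ hB - 1) (lZ hB) (tZ hB hz 0))
    (nb := (1 + 2 * xZ hB hz 0) * (1 + lZ hB * tZ hB hz 0) * gC (lZ hB - 1) (tZ hB hz 0))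
    (tb := 1 + (xZ hB hz 1 + xZ hB hz 2) + lZ hB * (tZ hB hz 0 + tZ hB hz 2 + tZ hB hz 0 * tZ hB
      hz 1 + tZ hB hz 1 * tZ hB hz 2))
    (v_e5Z hB (tZ hB hz 0).2) ?_ ?_ ?_ ?_
  · rw [e5Z_eq]
    exact map_gE5 B.subtype _ _ _
  · rw [e0, e5Z_eq, h, coeZ]
    simp only [map_mul, map_add, map_sub, map_one, map_ofNat, map_gC]
    show _ = (1 + 2 * xi (lm ^ 0 * z)) * (1 + lm * ze (lm ^ 0 * z)) * gC (lm - 1) (ze (lm ^ 0 * z))
    rw [e0]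
  · rw [← e1]
    show 1 + (xi (lm ^ 1 * z) + xi (lm ^ 2 * z)) + lm * (ze (lm ^ 0 * z) + ze (lm ^ 2 * z) + ze (lm ^ 0 *
      z) * ze (lm ^ 1 * z) + ze (lm ^ 1 * z) * ze (lm ^ 2 * z)) = _
    rw [e0]
  · intro u hu
    simp only [map_mul, map_add, map_sub, map_one, map_ofNat, map_gC, map_gE5] at hu ⊢
    have h2 := mZ_two hB
    have hl := mZ_lm hB
    have x1 := xZ_succ hB hz 0
    have x2 := ex_x2 h2 hl x1 (xZ_succ hB hz 1)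
    exact ex_22 h2 hl x1 x2 (tZ_eq hB hz 0) (tZ_eq hB hz 1) (tZ_eq hB hz 2) hu

/-- (2.3), J2d, `k = 0`, `nu = 0` -/
theorem v_00 (hB : (2 : ℂ)⁻¹ ∉ B) {z : ℂ} (hz : Od z) {U : ℂ}
    (h : U * e5Z (ze z) = (1 - 2 * zt * ze z) * (1 + lm * ze z) * bZ (ze z)) :
    B.valuation (U - ((1 + lm) * (xi (lm * z) + xi (lm ^ 2 * z)) + lm * (1 + ze z * ze (lm * z) +
      ze (lm * z) * ze (lm ^ 2 * z)))) < B.valuation lm := by
  have e0 : lm ^ 0 * z = z := by ring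
  have e1 : lm ^ 1 * z = lm * z := by ring
  rw [e5Z_eq, bZ_eq, zt_lm] at h
  refine trZ (e := e5Z (ze (lm ^ 0 * z))) (eb := gE5 (lZ hB - 1) (lZ hB) (tZ hB hz 0))
    (nb := (1 - 2 * (lZ hB - 1) * tZ hB hz 0) * (1 + lZ hB * tZ hB hz 0) * gB (lZ hB) (tZ hB hz
      0))
    (tb := (1 + lZ hB) * (xZ hB hz 1 + xZ hB hz 2) + lZ hB * (1 + tZ hB hz 0 * tZ hB hz 1 + tZ hB
      hz 1 * tZ hB hz 2))
    (v_e5Z hB (tZ hB hz 0).2) ?_ ?_ ?_ ?_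
  · rw [e5Z_eq]
    exact map_gE5 B.subtype _ _ _
  · rw [e0, e5Z_eq, h, coeZ]
    simp only [map_mul, map_add, map_sub, map_one, map_ofNat, map_gB]
    show _ = (1 - 2 * (lm - 1) * ze (lm ^ 0 * z)) * (1 + lm * ze (lm ^ 0 * z)) * gB lm (ze (lm ^ 0 * z))
    rw [e0]
  · rw [← e1]
    show (1 + lm) * (xi (lm ^ 1 * z) + xi (lm ^ 2 * z)) + lm * (1 + ze (lm ^ 0 * z) * ze (lm ^ 1 * z) + ze
      (lm ^ 1 * z) * ze (lm ^ 2 * z)) = _
    rw [e0]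
  · intro u hu
    simp only [map_mul, map_add, map_sub, map_one, map_ofNat, map_gB, map_gE5] at hu ⊢
    have h2 := mZ_two hB
    have hl := mZ_lm hB
    have x1 := xZ_succ hB hz 0
    have x2 := ex_x2 h2 hl x1 (xZ_succ hB hz 1)
    exact ex_00 h2 hl x1 x2 (tZ_eq hB hz 0) (tZ_eq hB hz 1) (tZ_eq hB hz 2) hu

/-- (2.3), J2d, `k = 0`, `nu = 2` -/
theorem v_02 (hB : (2 : ℂ)⁻¹ ∉ B) {z : ℂ} (hz : Od z) {U : ℂ}
    (h : U * e5Z (ze z) = (1 + 2 * xi z) * (1 + lm * ze z) * dZ (ze z)) :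
    B.valuation (U - ((xi (lm * z) + xi (lm ^ 2 * z)) + lm * (ze z * ze (lm * z) + ze (lm * z) *
      ze (lm ^ 2 * z)))) < B.valuation lm := by
  have e0 : lm ^ 0 * z = z := by ring
  have e1 : lm ^ 1 * z = lm * z := by ring
  rw [e5Z_eq, dZ_eq'] at h
  refine trZ (e := e5Z (ze (lm ^ 0 * z))) (eb := gE5 (lZ hB - 1) (lZ hB) (tZ hB hz 0))
    (nb := (1 + 2 * xZ hB hz 0) * (1 + lZ hB * tZ hB hz 0) * gD (lZ hB - 1) (tZ hB hz 0))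
    (tb := (xZ hB hz 1 + xZ hB hz 2) + lZ hB * (tZ hB hz 0 * tZ hB hz 1 + tZ hB hz 1 * tZ hB hz
      2))
    (v_e5Z hB (tZ hB hz 0).2) ?_ ?_ ?_ ?_
  · rw [e5Z_eq]
    exact map_gE5 B.subtype _ _ _
  · rw [e0, e5Z_eq, h, coeZ]
    simp only [map_mul, map_add, map_sub, map_one, map_ofNat, map_gD]
    show _ = (1 + 2 * xi (lm ^ 0 * z)) * (1 + lm * ze (lm ^ 0 * z)) * gD (lm - 1) (ze (lm ^ 0 * z))
    rw [e0]
  · rw [← e1]
    show (xi (lm ^ 1 * z) + xi (lm ^ 2 * z)) + lm * (ze (lm ^ 0 * z) * ze (lm ^ 1 * z) + ze (lm ^ 1 * z) *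
      ze (lm ^ 2 * z)) = _
    rw [e0]
  · intro u hu
    simp only [map_mul, map_add, map_sub, map_one, map_ofNat, map_gD, map_gE5] at hu ⊢
    have h2 := mZ_two hB
    have hl := mZ_lm hB
    have x1 := xZ_succ hB hz 0
    have x2 := ex_x2 h2 hl x1 (xZ_succ hB hz 1)
    exact ex_02 h2 hl x1 x2 (tZ_eq hB hz 0) (tZ_eq hB hz 1) (tZ_eq hB hz 2) hu

/-- (2.3), J2d, `k = 2`, `nu = 3` -/
theorem v_23 (hB : (2 : ℂ)⁻¹ ∉ B) {z : ℂ} (hz : Od z) {U : ℂ}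
    (h : U * e5Z (ze z) = (1 + lm * al z) * (1 - 2 * zt * ze z) * bZ (ze z)) :
    B.valuation (U - (al (lm * z) + al (lm ^ 2 * z) + lm * (ze z * ze (lm * z) + ze (lm * z) * ze
      (lm ^ 2 * z)))) < B.valuation lm := by
  have e0 : lm ^ 0 * z = z := by ring
  have e1 : lm ^ 1 * z = lm * z := by ring
  rw [e5Z_eq, bZ_eq, zt_lm] at h
  refine trZ (e := e5Z (ze (lm ^ 0 * z))) (eb := gE5 (lZ hB - 1) (lZ hB) (tZ hB hz 0))
    (nb := (1 + lZ hB * aaZ hB hz 0) * (1 - 2 * (lZ hB - 1) * tZ hB hz 0) * gB (lZ hB) (tZ hB hz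
      0))
    (tb := aaZ hB hz 1 + aaZ hB hz 2 + lZ hB * (tZ hB hz 0 * tZ hB hz 1 + tZ hB hz 1 * tZ hB hz
      2))
    (v_e5Z hB (tZ hB hz 0).2) ?_ ?_ ?_ ?_
  · rw [e5Z_eq]
    exact map_gE5 B.subtype _ _ _
  · rw [e0, e5Z_eq, h, coeZ]
    simp only [map_mul, map_add, map_sub, map_one, map_ofNat, map_gB]
    show _ = (1 + lm * al (lm ^ 0 * z)) * (1 - 2 * (lm - 1) * ze (lm ^ 0 * z)) * gB lm (ze (lm ^ 0 * z))
    rw [e0]
  · rw [← e1]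
    show al (lm ^ 1 * z) + al (lm ^ 2 * z) + lm * (ze (lm ^ 0 * z) * ze (lm ^ 1 * z) + ze (lm ^ 1 * z) * ze
      (lm ^ 2 * z)) = _
    rw [e0]
  · intro u hu
    simp only [map_mul, map_add, map_sub, map_one, map_ofNat, map_gB, map_gE5] at hu ⊢
    have h2 := mZ_two hB
    have hl := mZ_lm hB
    have x1 := xZ_succ hB hz 0
    have x2 := ex_x2 h2 hl x1 (xZ_succ hB hz 1)
    exact ex_23 h2 hl x1 x2 (tZ_eq hB hz 0) (tZ_eq hB hz 1) (tZ_eq hB hz 2) (lm_aaZ hB hz 0)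
      (lm_aaZ hB hz 2) (ex_as h2 (aaZ_succ hB hz 1)) hu

/-- (2.3), J2d, `k = 2`, `nu = 1` -/
theorem v_21 (hB : (2 : ℂ)⁻¹ ∉ B) {z : ℂ} (hz : Od z) {U : ℂ}
    (h : U * e5Z (ze z) = (1 + 2 * xi z) * (1 + lm * al z) * dZ (ze z)) :
    B.valuation (U - (al (lm * z) + al (lm ^ 2 * z) + lm * (xi (lm * z) + xi (lm ^ 2 * z) + ze z *
      ze (lm * z) + ze (lm * z) * ze (lm ^ 2 * z) + 1))) < B.valuation lm := by
  have e0 : lm ^ 0 * z = z := by ring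
  have e1 : lm ^ 1 * z = lm * z := by ring
  rw [e5Z_eq, dZ_eq'] at h
  refine trZ (e := e5Z (ze (lm ^ 0 * z))) (eb := gE5 (lZ hB - 1) (lZ hB) (tZ hB hz 0))
    (nb := (1 + 2 * xZ hB hz 0) * (1 + lZ hB * aaZ hB hz 0) * gD (lZ hB - 1) (tZ hB hz 0))
    (tb := aaZ hB hz 1 + aaZ hB hz 2 + lZ hB * (xZ hB hz 1 + xZ hB hz 2 + tZ hB hz 0 * tZ hB hz 1
      + tZ hB hz 1 * tZ hB hz 2 + 1))
    (v_e5Z hB (tZ hB hz 0).2) ?_ ?_ ?_ ?_
  · rw [e5Z_eq]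
    exact map_gE5 B.subtype _ _ _
  · rw [e0, e5Z_eq, h, coeZ]
    simp only [map_mul, map_add, map_sub, map_one, map_ofNat, map_gD]
    show _ = (1 + 2 * xi (lm ^ 0 * z)) * (1 + lm * al (lm ^ 0 * z)) * gD (lm - 1) (ze (lm ^ 0 * z))
    rw [e0]
  · rw [← e1]
    show al (lm ^ 1 * z) + al (lm ^ 2 * z) + lm * (xi (lm ^ 1 * z) + xi (lm ^ 2 * z) + ze (lm ^ 0 * z) * ze
      (lm ^ 1 * z) + ze (lm ^ 1 * z) * ze (lm ^ 2 * z) + 1) = _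
    rw [e0]
  · intro u hu
    simp only [map_mul, map_add, map_sub, map_one, map_ofNat, map_gD, map_gE5] at hu ⊢
    have h2 := mZ_two hB
    have hl := mZ_lm hB
    have x1 := xZ_succ hB hz 0
    have x2 := ex_x2 h2 hl x1 (xZ_succ hB hz 1)
    exact ex_21 h2 hl x1 x2 (tZ_eq hB hz 0) (tZ_eq hB hz 1) (tZ_eq hB hz 2) (lm_aaZ hB hz 0)
      (lm_aaZ hB hz 2) (ex_as h2 (aaZ_succ hB hz 1)) hu

/-- (2.3), J2d, `k = 0`, `nu = 3` -/
theorem v_03 (hB : (2 : ℂ)⁻¹ ∉ B) {z : ℂ} (hz : Od z) {U : ℂ}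
    (h : U * e5Z (ze z) = (1 + lm * al z) * (1 - 2 * zt * ze z) * aZ (ze z)) :
    B.valuation (U - ((1 + lm) * (1 + lm * al (lm ^ 2 * z)) + al (lm * z) + al (lm ^ 2 * z) + lm *
      (ze z + ze (lm * z) + ze (lm ^ 2 * z) + ze z * ze (lm * z) + ze (lm * z) * ze (lm ^ 2 *
      z)))) < B.valuation lm := by
  have e0 : lm ^ 0 * z = z := by ring
  have e1 : lm ^ 1 * z = lm * z := by ring
  rw [e5Z_eq, aZ_eq, zt_lm] at h
  refine trZ (e := e5Z (ze (lm ^ 0 * z))) (eb := gE5 (lZ hB - 1) (lZ hB) (tZ hB hz 0))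
    (nb := (1 + lZ hB * aaZ hB hz 0) * (1 - 2 * (lZ hB - 1) * tZ hB hz 0) * gA (lZ hB - 1) (tZ hB
      hz 0))
    (tb := (1 + lZ hB) * (1 + lZ hB * aaZ hB hz 2) + aaZ hB hz 1 + aaZ hB hz 2 + lZ hB * (tZ hB hz
      0 + tZ hB hz 1 + tZ hB hz 2 + tZ hB hz 0 * tZ hB hz 1 + tZ hB hz 1 * tZ hB hz 2))
    (v_e5Z hB (tZ hB hz 0).2) ?_ ?_ ?_ ?_
  · rw [e5Z_eq]
    exact map_gE5 B.subtype _ _ _
  · rw [e0, e5Z_eq, h, coeZ]
    simp only [map_mul, map_add, map_sub, map_one, map_ofNat, map_gA]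
    show _ = (1 + lm * al (lm ^ 0 * z)) * (1 - 2 * (lm - 1) * ze (lm ^ 0 * z)) * gA (lm - 1) (ze (lm ^ 0 * z))
    rw [e0]
  · rw [← e1]
    show (1 + lm) * (1 + lm * al (lm ^ 2 * z)) + al (lm ^ 1 * z) + al (lm ^ 2 * z) + lm * (ze (lm ^ 0 * z)
      + ze (lm ^ 1 * z) + ze (lm ^ 2 * z) + ze (lm ^ 0 * z) * ze (lm ^ 1 * z) + ze (lm ^ 1 * z) * ze
      (lm ^ 2 * z)) = _
    rw [e0]
  · intro u hu
    simp only [map_mul, map_add, map_sub, map_one, map_ofNat, map_gA, map_gE5] at hu ⊢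
    have h2 := mZ_two hB
    have hl := mZ_lm hB
    have x1 := xZ_succ hB hz 0
    have x2 := ex_x2 h2 hl x1 (xZ_succ hB hz 1)
    exact ex_03 h2 hl x1 x2 (tZ_eq hB hz 0) (tZ_eq hB hz 1) (tZ_eq hB hz 2) (lm_aaZ hB hz 0)
      (lm_aaZ hB hz 2) (ex_as h2 (aaZ_succ hB hz 1)) hu

/-- (2.3), J2d, `k = 0`, `nu = 1` -/
theorem v_01 (hB : (2 : ℂ)⁻¹ ∉ B) {z : ℂ} (hz : Od z) {U : ℂ}
    (h : U * e5Z (ze z) = (1 + 2 * xi z) * (1 + lm * al z) * cZ (ze z)) :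
    B.valuation (U - ((1 + lm) * (1 + lm * al (lm ^ 2 * z)) + al (lm * z) + al (lm ^ 2 * z) + lm *
      (ze z + ze (lm * z) + ze (lm ^ 2 * z) + ze z * ze (lm * z) + ze (lm * z) * ze (lm ^ 2 * z))
      + lm * (xi (lm * z) + xi (lm ^ 2 * z)))) < B.valuation lm := by
  have e0 : lm ^ 0 * z = z := by ring
  have e1 : lm ^ 1 * z = lm * z := by ring
  rw [e5Z_eq, cZ_eq] at h
  refine trZ (e := e5Z (ze (lm ^ 0 * z))) (eb := gE5 (lZ hB - 1) (lZ hB) (tZ hB hz 0))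
    (nb := (1 + 2 * xZ hB hz 0) * (1 + lZ hB * aaZ hB hz 0) * gC (lZ hB - 1) (tZ hB hz 0))
    (tb := (1 + lZ hB) * (1 + lZ hB * aaZ hB hz 2) + aaZ hB hz 1 + aaZ hB hz 2 + lZ hB * (tZ hB hz
      0 + tZ hB hz 1 + tZ hB hz 2 + tZ hB hz 0 * tZ hB hz 1 + tZ hB hz 1 * tZ hB hz 2) + lZ hB *
      (xZ hB hz 1 + xZ hB hz 2))
    (v_e5Z hB (tZ hB hz 0).2) ?_ ?_ ?_ ?_
  · rw [e5Z_eq]
    exact map_gE5 B.subtype _ _ _
  · rw [e0, e5Z_eq, h, coeZ]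
    simp only [map_mul, map_add, map_sub, map_one, map_ofNat, map_gC]
    show _ = (1 + 2 * xi (lm ^ 0 * z)) * (1 + lm * al (lm ^ 0 * z)) * gC (lm - 1) (ze (lm ^ 0 * z))
    rw [e0]
  · rw [← e1]
    show (1 + lm) * (1 + lm * al (lm ^ 2 * z)) + al (lm ^ 1 * z) + al (lm ^ 2 * z) + lm * (ze (lm ^ 0 * z)
      + ze (lm ^ 1 * z) + ze (lm ^ 2 * z) + ze (lm ^ 0 * z) * ze (lm ^ 1 * z) + ze (lm ^ 1 * z) * ze
      (lm ^ 2 * z)) + lm * (xi (lm ^ 1 * z) + xi (lm ^ 2 * z)) = _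
    rw [e0]
  · intro u hu
    simp only [map_mul, map_add, map_sub, map_one, map_ofNat, map_gC, map_gE5] at hu ⊢
    have h2 := mZ_two hB
    have hl := mZ_lm hB
    have x1 := xZ_succ hB hz 0
    have x2 := ex_x2 h2 hl x1 (xZ_succ hB hz 1)
    exact ex_01 h2 hl x1 x2 (tZ_eq hB hz 0) (tZ_eq hB hz 1) (tZ_eq hB hz 2) (lm_aaZ hB hz 0)
      (lm_aaZ hB hz 2) (ex_as h2 (aaZ_succ hB hz 1)) hu

end

end Pool.Agent.Lib.MP_1a91b9_ntQ
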