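import Pool.Agent.Lib.MP_1a91b9_ntQ.B.SyX

/-!
# Quartic twists, all fourth-power-free `D`, file SyD: the data of the second order classes (J2d)

Page B2, sections 7 and 8. `M T A` are the values with the weights `e b - x T b ∏ sgz (s b a)`, divided by
the normalisation `N`, `Y T A` the values of the comparison function with the weights
`eX b - xX T b ∏ sgz (s b a)`, `UxD T A` the multiple of `Y T A` with the same first order class as `M T A`.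
The two weights differ to the second order by `c b`.
-/

set_option autoImplicit false
set_option linter.unusedSectionVars false

namespace Pool.Agent.Lib.MP_1a91b9_ntQ

open Finset MvPolynomial

noncomputable section

variable {ι : Type*} [DecidableEq ι]

/-- the multiple of `Y T A` with the same first order class as `M T A` -/
def UxD (cU : ℂ) (Y : Finset ι → Finset ι → ℂ) (Ef ch : Finset ι → ℂ) (lb : ι → ZMod 2)
    (T A : Finset ι) : ℂ :=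
  cU * (Ef T - ch T * ∏ b ∈ A, sgz (lb b)) * Y T A

/-- the common data of the classes (J2d): `M`, `Y`, the weights and the coefficient. In the classes
with `ν` odd `nY = 0`, in the classes with `ν` even `nY = 1` and `κ = 0`. -/
structure SyD (B : ValuationSubring ℂ) (l : ℂ) (M Y : Finset ι → Finset ι → ℂ) (e eX : ι → ℂ)
    (x xX : Finset ι → ι → ℂ) (Ef ch : Finset ι → ℂ) (cU : ℂ) (nY : ℕ) (s : ι → ι → ZMod 2)
    (κ c lb : ι → ZMod 2) (hU : ZMod 2) (S0 B0 : Finset ι) : Prop where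
  /-- the weights of `M` -/
  hM : SyB B l 1 M e x s κ S0 B0
  /-- the weights of `Y` -/
  hX : SyB B l 1 Y eX xX s κ S0 B0
  /-- the second order difference of the weights -/
  cw : ∀ T ⊆ S0, ∀ b ∈ (S0 ∪ B0) \ T, Rt B (((e b - x T b) - (eX b - xX T b)) / l ^ 2) (c b)
  cx : ∀ T ⊆ S0, ∀ b ∈ (S0 ∪ B0) \ T, (x T b - xX T b) / l ^ 2 ∈ B
  ch1 : ∀ T ⊆ S0, Rt B (ch T) 1
  /-- the coefficient, first order: `hU = 1` only for `ν` odd, `k = 0` -/
  chE : ∀ T ⊆ S0, Rt B ((Ef T - ch T) / l) (hU + ∑ p ∈ T, lb p)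
  /-- `ν` odd: `cU = 1 / l`; `ν` even: `cU = 1 / 2` -/
  hcU : Rt B (cU * l ^ (nY + 1)) 1

/-- the data of the classes (J2d), `ν` odd. `ra = a` for `k = 2`, `ra = a + s_0` for `k = 0`,
`hD = [ν = 3]` for `k = 2`, `hD = 1` for `k = 0`; `c = a + lb` for `k = 2`, `c = lb` for `k = 0`. -/
structure SyDO (B : ValuationSubring ℂ) (l : ℂ) (M Y : Finset ι → Finset ι → ℂ) (e eX : ι → ℂ)
    (x xX : Finset ι → ι → ℂ) (Ef ch : Finset ι → ℂ) (cU : ℂ) (s : ι → ι → ZMod 2)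
    (κ c lb ra : ι → ZMod 2) (hU hD : ZMod 2) (S0 B0 : Finset ι) : Prop extends
    SyD B l M Y e eX x xX Ef ch cU 0 s κ c lb hU S0 B0 where
  Y0 : Rt B (Y ∅ ∅) 1
  idY : ∀ T ⊆ S0, ∀ C ⊆ B0, (T ∪ C).Nonempty → Rt B (idB l 1 Y eX xX s 0 T C) 0
  /-- the second order difference of the total identities, the empty sets included:
  `M ∅ ∅ / l - UxD ∅ ∅ / l` has the class `hD` -/
  idD : ∀ T ⊆ S0, ∀ C ⊆ B0, Rt B (idB l 1 M e x s 1 T C -
    idB l 1 (UxD cU Y Ef ch lb) eX xX s 1 T C)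
      ((if T ∪ C = ∅ then hD else 0) + ∑ i ∈ T ∪ C, lb i * Ham s ra (T ∪ C) i)

/-- the data of the classes (J2d), `ν` even. `ra = a`; `μ0 = 0`, `k = 0` and `μ0 = 1`, `k = 2`;
`vM = κ' + h s_0` for `k = 2` (any function for `k = 0`); `c = κ' + (1 + h) s_0`. -/
structure SyDE (B : ValuationSubring ℂ) (l : ℂ) (M Y : Finset ι → Finset ι → ℂ) (e eX : ι → ℂ)
    (x xX : Finset ι → ι → ℂ) (Ef ch : Finset ι → ℂ) (cU : ℂ) (s : ι → ι → ZMod 2)
    (c lb ra s0 vM : ι → ZMod 2) (μ0 : ZMod 2) (S0 B0 : Finset ι) : Prop extends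
    SyD B l M Y e eX x xX Ef ch cU 1 s 0 c lb 0 S0 B0 where
  s0B : ∀ b ∈ B0, s0 b = 0
  fX : ∀ b ∈ S0 ∪ B0, Rt B ((eX b - xX ∅ b) / l ^ 2) (s0 b)
  fXB : ∀ b ∈ B0, Rt B ((eX b - xX ∅ b) / l ^ 3) 0
  Y0 : Rt B (Y ∅ ∅) 1
  /-- the classes of `Y`, the same as in `SyX` -/
  idY : ∀ T ⊆ S0, ∀ C ⊆ B0, (T ∪ C).Nonempty → Rt B (idB l 1 Y eX xX s 1 T C) 0
  idY2 : ∀ C ⊆ B0, C.Nonempty → idB l 1 Y eX xX s 2 ∅ C ∈ B
  U0 : Rt B (UxD cU Y Ef ch lb ∅ ∅) 1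
  M0 : Rt B (M ∅ ∅) μ0
  fM : ∀ b ∈ S0 ∪ B0, Rt B ((e b - x ∅ b) / l ^ 2) (vM b)
  /-- the second order difference of the total identities -/
  idD : ∀ T ⊆ S0, T.Nonempty → ∀ C ⊆ B0, Rt B (idB l 1 M e x s 1 T C -
    idB l 1 (UxD cU Y Ef ch lb) eX xX s 1 T C) (∑ i ∈ T ∪ C, lb i * Ham s ra (T ∪ C) i)
  idD0 : ∀ C ⊆ B0, C.Nonempty → idB l 1 M e x s 1 ∅ C -
    idB l 1 (UxD cU Y Ef ch lb) eX xX s 1 ∅ C ∈ B

end

end Pool.Agent.Lib.MP_1a91b9_ntQ
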