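import Pool.Agent.Lib.MP_1a91b9_ntQ.B.FamY
import Pool.Agent.Lib.MP_1a91b9_ntQ.B.SyD

/-!
# Quartic twists, all fourth-power-free `D`, class J2d, `ν` even, file FamE: the comparison family

`LaXE k q0 e T A` are the sums of `X / rh = 1 + 2 ξ` over the classes for the conductor `fB k 2`, with the
weights `b ^ 2 - xJs 2 q0 e T b ∏ sgz (nXB q0 b a)`. The sums `LaJ k 2 (hh h) q0 e T A` have the weights
`± b - xJs (hh h) q0 e T b ∏ sgz (nXB q0 b a)`; the weights differ to the second order by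
`lJ k b + (1 + h) * s4 q0 b`.
-/

set_option autoImplicit false

namespace Pool.Agent.Lib.MP_1a91b9_ntQ

open NumberField Pool.Agent.Lib.MP_1a91b9_nuT Pool.Agent.Lib.MP_1a91b9_nuT.S3
  Pool.Agent.Lib.MP_1a91b9_nuT.Ell

noncomputable section

/-- the sums of `1 + 2 ξ` with the characters of `T` -/
def FXE (k : ZMod 4) (q0 : Pg) (e : Pg → ZMod 4) (T J : Finset Pg) : ℂ := FXB q0 e (fB k 2) X T J

/-- the comparison family -/
def LaXE (k : ZMod 4) (q0 : Pg) (e : Pg → ZMod 4) (T A : Finset Pg) : ℂ :=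
  FXE k q0 e (T ∪ A) (T ∪ A) / rh

/-- the coefficients, `i ^ (-2 β)` -/
def EfE (q0 : Pg) (e : Pg → ZMod 4) (T : Finset Pg) : ℂ := e4 (-(2 * bkB q0 e 2 T lam))

/-- the coefficients, `- i ^ (-β)` -/
def chEv (q0 : Pg) (e : Pg → ZMod 4) (T : Finset Pg) : ℂ := -e4 (-bkB q0 e 2 T lam)

variable {B : ValuationSubring ℂ} {k : ZMod 4} {q0 : Pg} {e : Pg → ZMod 4}

/-! ### `SyB` for the two functions -/

theorem md_hh (h : ZMod 2) : md (hh h) = 0 := by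
  revert h
  unfold hh
  decide

/-- **the data of the family** -/
theorem syXE (hB : (2 : ℂ)⁻¹ ∉ B) (k : ZMod 4) (h0 : aa q0.1 = 1) {S0 B0 : Finset Pg}
    (hd : Disjoint S0 B0) (he : ∀ q ∈ S0, md (e q) ≠ 0) :
    SyB B lm 1 (LaXE k q0 e) (fun b : Pg => em b.1 ^ 2) (xJs 2 q0 e) (nXB q0) 0 S0 B0 where
  hB := hB
  hl := Rt.of_lt (v_lm_lt hB)
  hl0 := lm_ne
  hu := (syJB hB k 2 h0 2 hd he 1).hu
  dis := hd
  fac T hT b _ := by
    have h1 := Rt_facY hB b (bkB q0 e 2 T b.1)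
    rw [md_bkB h0 2 (fun q hq => he q (hT hq)), md_two, zero_mul, zero_add] at h1
    have e0 : (0 : Pg → ZMod 2) b = 0 := rfl
    rw [e0, zero_add]
    exact h1
  one _ _ _ _ := Rt_root hB _

/-- **the data of the sums `LaJ`**; `M` is any multiple of `LaJ k 2 (hh h) q0 e` -/
theorem syMXE (hB : (2 : ℂ)⁻¹ ∉ B) (hk : k = 0 ∨ k = 2) (h0 : aa q0.1 = 1) (h : ZMod 2)
    {S0 B0 : Finset Pg} (hd : Disjoint S0 B0) (he : ∀ q ∈ S0, md (e q) ≠ 0)
    (M : Finset Pg → Finset Pg → ℂ) :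
    SyB B lm 1 M (eJs k 2) (xJs (hh h) q0 e) (nXB q0) 0 S0 B0 := by
  have h1 := syJB hB k 2 h0 (hh h) hd he 1
  refine ⟨h1.hB, h1.hl, h1.hl0, h1.hu, h1.dis, fun T hT b hb => ?_, h1.one⟩
  have h2 := h1.fac T hT b hb
  rw [kapB_J2e hk, md_hh, zero_mul, add_zero] at h2
  exact h2

/-! ### The weights -/

/-- the exponent for the weight `2` -/
theorem bkB_two (h0 : aa q0.1 = 1) (T : Finset Pg) (x : 𝓞 K) :
    bkB q0 e 2 T x = bkB q0 e 0 T x + 2 * c4 q0 x := by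
  rw [bkB, bkB]
  have key : ∀ n c : ZMod 4, md n = 1 → 2 * n * c = 2 * c := by decide
  have key2 : ∀ c : ZMod 4, -(2 * c) = 2 * c := by decide
  linear_combination -(key _ (c4 q0 x) h0) + key2 (c4 q0 x)

theorem xJs_two (h0 : aa q0.1 = 1) (T : Finset Pg) (b : Pg) :
    xJs 2 q0 e T b = sgz (s4 q0 b) * xJs 0 q0 e T b := by
  have e1 : e4 (2 * c4 q0 b.1) = sgz (s4 q0 b) := e4_two_sgz _
  rw [xJs, xJs, bkB_two h0, e4_add, e1, mul_comm]

/-- `χ^(2) = ± χ^(2 h)` -/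
theorem xJs_rel (h0 : aa q0.1 = 1) (h : ZMod 2) (T : Finset Pg) (b : Pg) :
    xJs 2 q0 e T b = sgX h q0 b * xJs (hh h) q0 e T b := by
  rw [sgX]
  rcases h_cases h with rfl | rfl
  · rw [xJs_two h0, hh_zero, add_zero, one_mul]
  · have e2 : (1 : ZMod 2) + 1 = 0 := by decide
    rw [e2, zero_mul, sgz_zero, one_mul, hh_one]

theorem xJs_empty_zero (b : Pg) : xJs 0 q0 e ∅ b = 1 := by
  rw [xJs_empty, zero_mul, zero_mul, neg_zero, e4_zero]

/-- the value of the character of the empty set -/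
theorem xJs_empty_hh (h0 : aa q0.1 = 1) (h : ZMod 2) (b : Pg) :
    xJs (hh h) q0 e ∅ b = sgz (h * s4 q0 b) := by
  rcases h_cases h with rfl | rfl
  · rw [hh_zero, xJs_empty_zero, zero_mul, sgz_zero]
  · rw [hh_one, xJs_two h0, xJs_empty_zero, mul_one, one_mul]

theorem xJs_empty_two (h0 : aa q0.1 = 1) (b : Pg) : xJs 2 q0 e ∅ b = sgz (s4 q0 b) := by
  rw [xJs_two h0, xJs_empty_zero, mul_one]

/-- the prime with its sign -/
theorem eJs_sgz (hk : k = 0 ∨ k = 2) (b : Pg) : eJs k 2 b = sgz (lJ k b.1) * em b.1 := by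
  obtain ⟨t, ht, ht2⟩ := thB_lJ hk b.in4
  rw [eJs, ht, inv_eq_of_mul_eq_one_right (b := e4 (2 * t)) (by
    rw [← e4_add]
    have key : ∀ t : ZMod 4, 2 * t + 2 * t = 0 := by decide
    rw [key, e4_zero]), e4_two_sgz, ht2]

/-- the Euler factor of the empty set with signs -/
theorem Rt_sgz_fac (hB : (2 : ℂ)⁻¹ ∉ B) (b : Pg) (y y' : ZMod 2) :
    Rt B ((sgz y * em b.1 - sgz y') / lm ^ 2) (y + y') := by
  have h1 := ((Rt_sgz hB y).mul hB (Rt_em_one hB b)).add hB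
    ((Rt_one_sub_sgz hB y').sub hB (Rt_one_sub_sgz hB y))
  have e1 : sgz y * ((em b.1 - 1) / lm ^ 2) + ((1 - sgz y') / lm ^ 2 - (1 - sgz y) / lm ^ 2) =
      (sgz y * em b.1 - sgz y') / lm ^ 2 := by
    ring
  have key : ∀ y y' : ZMod 2, 1 * 0 + (y' - y) = y + y' := by decide
  rwa [e1, key] at h1

/-- **the Euler factor of the empty set** for `M` -/
theorem Rt_fM_E (hB : (2 : ℂ)⁻¹ ∉ B) (hk : k = 0 ∨ k = 2) (h0 : aa q0.1 = 1) (h : ZMod 2)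
    (b : Pg) : Rt B ((eJs k 2 b - xJs (hh h) q0 e ∅ b) / lm ^ 2) (lJ k b.1 + h * s4 q0 b) := by
  rw [xJs_empty_hh h0, eJs_sgz hk]
  exact Rt_sgz_fac hB b _ _

/-- **the Euler factor of the empty set** for the family -/
theorem Rt_fX_E (hB : (2 : ℂ)⁻¹ ∉ B) (h0 : aa q0.1 = 1) (b : Pg) :
    Rt B ((em b.1 ^ 2 - xJs 2 q0 e ∅ b) / lm ^ 2) (s4 q0 b) := by
  rw [xJs_empty_two h0]
  exact Rt_fac_e2 hB b _

theorem Rt_fXB_E (hB : (2 : ℂ)⁻¹ ∉ B) (h0 : aa q0.1 = 1) {b : Pg} (hs : s4 q0 b = 0) :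
    Rt B ((em b.1 ^ 2 - xJs 2 q0 e ∅ b) / lm ^ 3) 0 := by
  rw [xJs_empty_two h0, hs, sgz_zero]
  exact Rt_em_sq_one hB b

/-- the difference of the characters -/
theorem Rt_cx_E (hB : (2 : ℂ)⁻¹ ∉ B) (h0 : aa q0.1 = 1) (h : ZMod 2) (T : Finset Pg) (b : Pg) :
    Rt B ((xJs (hh h) q0 e T b - xJs 2 q0 e T b) / lm ^ 2) ((1 + h) * s4 q0 b) := by
  have h1 := (Rt_root hB (bkB q0 e (hh h) T b.1)).mul hB (Rt_one_sub_sgz hB ((1 + h) * s4 q0 b))
  have e1 : e4 (bkB q0 e (hh h) T b.1) * ((1 - sgz ((1 + h) * s4 q0 b)) / lm ^ 2) =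
      (xJs (hh h) q0 e T b - xJs 2 q0 e T b) / lm ^ 2 := by
    rw [xJs_rel h0 h T b, sgX, xJs]
    ring
  rwa [e1, one_mul] at h1

theorem cx_E (hB : (2 : ℂ)⁻¹ ∉ B) (h0 : aa q0.1 = 1) (h : ZMod 2) (T : Finset Pg) (b : Pg) :
    (xJs (hh h) q0 e T b - xJs 2 q0 e T b) / lm ^ 2 ∈ B := (ValuationSubring.valuation_le_one_iff _ _).1 (Rt_cx_E hB h0 h T b).le

/-- the difference of the primes -/
theorem Rt_ce_E (hB : (2 : ℂ)⁻¹ ∉ B) (hk : k = 0 ∨ k = 2) (b : Pg) :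
    Rt B ((eJs k 2 b - em b.1 ^ 2) / lm ^ 2) (lJ k b.1) := by
  have h1 := (Rt_em hB b).mul hB (((Rt_one_sub_sgz hB (lJ k b.1)).add hB (Rt_em_one hB b)).neg hB)
  have e1 : em b.1 * -((1 - sgz (lJ k b.1)) / lm ^ 2 + (em b.1 - 1) / lm ^ 2) =
      (eJs k 2 b - em b.1 ^ 2) / lm ^ 2 := by
    rw [eJs_sgz hk]
    ring
  rwa [e1, one_mul, add_zero] at h1

/-- **the second order difference of the weights** -/
theorem Rt_cw_E (hB : (2 : ℂ)⁻¹ ∉ B) (hk : k = 0 ∨ k = 2) (h0 : aa q0.1 = 1) (h : ZMod 2)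
    (T : Finset Pg) (b : Pg) :
    Rt B (((eJs k 2 b - xJs (hh h) q0 e T b) - (em b.1 ^ 2 - xJs 2 q0 e T b)) / lm ^ 2)
      (lJ k b.1 + (1 + h) * s4 q0 b) := by
  have h1 := (Rt_ce_E hB hk b).sub hB (Rt_cx_E (e := e) hB h0 h T b)
  have e1 : (eJs k 2 b - em b.1 ^ 2) / lm ^ 2 - (xJs (hh h) q0 e T b - xJs 2 q0 e T b) / lm ^ 2 =
      ((eJs k 2 b - xJs (hh h) q0 e T b) - (em b.1 ^ 2 - xJs 2 q0 e T b)) / lm ^ 2 := by
    ring
  have key : ∀ x y : ZMod 2, x - y = x + y := by decide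
  rwa [e1, key] at h1

/-! ### The rule at `lam` -/

section
variable {T J : Finset Pg}

/-- the sum of `X (lam ^ n z)` -/
theorem FXE_lam (h0 : aa q0.1 = 1) (hT : T ⊆ J) (n : ℕ) :
    FXB q0 e (fB k 2) (fun z => X (lm ^ n * z)) T J =
      e4 (-(n * bkB q0 e 2 T lam)) * FXE k q0 e T J := by
  have h1 := FXB_scale (ex := e) h0 (cop_fBq k 2 q0 J) (cop_lam q0 J n) hT PdL_X Wt_X
  have h2 : em (lam ^ n) = lm ^ n := by rw [em_pow, em_lam]
  have h3 := bkB_pow (q0 := q0) (ex := e) (J := J) (T := T) 2 (x := lam) (by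
    have h := cop_lam q0 J 1
    rwa [pow_one] at h) hT n
  rw [h2, h3] at h1
  exact h1

/-- the expansion of the weighted sum of `X (lam ^ n z)` -/
theorem GX_wB_XE_lam (h0 : aa q0.1 = 1) (n : ℕ) :
    GX q0 (fB k 2) (wB e J) (fun z => X (lm ^ n * z)) J =
      ∑ T ∈ J.powerset, (-1) ^ T.card * (e4 (-(n * bkB q0 e 2 T lam)) * FXE k q0 e T J) := by
  rw [GX_wB]
  refine Finset.sum_congr rfl fun T hT => ?_
  rw [FXE_lam h0 (Finset.mem_powerset.1 hT)]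

/-- the expansion of the weighted sum of `X` -/
theorem GX_wB_XE : GX q0 (fB k 2) (wB e J) X J =
    ∑ T ∈ J.powerset, (-1) ^ T.card * FXE k q0 e T J := by
  rw [GX_wB]
  rfl

/-- the exact Euler factors -/
theorem FXE_prod (h0 : aa q0.1 = 1) (hT : T ⊆ J) (hq0 : q0 ∉ J) :
    FXE k q0 e T J = (∏ q ∈ J \ T, (em q.1 ^ 2 - e4 (bkB q0 e 2 T q.1))) * FXE k q0 e T T :=
  FXB_prod h0 PdL_X Wt_X (fun q => em q.1 ^ 2) TrF_X hT hq0 (cop_fBq k 2 q0 J)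

/-! ### The total identities -/

/-- the total identity for a multiple of the family -/
theorem idEf_eq (h0 : aa q0.1 = 1) (K : ℂ) (n : ℕ) (f : Finset Pg → ℂ)
    {C : Finset Pg} (hd : Disjoint T C) (hC : ∀ q ∈ C, e q = 2) (hq : q0 ∉ T ∪ C) :
    idB lm K (fun T A => f (T ∪ A) * FXE k q0 e (T ∪ A) (T ∪ A)) (fun b : Pg => em b.1 ^ 2)
        (xJs 2 q0 e) (nXB q0) n T C =
      (∑ R ∈ (T ∪ C).powerset, (-1) ^ R.card * (f R * FXE k q0 e R (T ∪ C))) /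
        (K * lm ^ (T.card + 2 * C.card + n)) := by
  classical
  rw [idB, sum_powerset_union hd]
  congr 1
  refine Finset.sum_congr rfl fun T' hT' => ?_
  rw [Finset.mul_sum]
  refine Finset.sum_congr rfl fun A hA => ?_
  rw [Finset.mem_powerset] at hT' hA
  have hd' : Disjoint T' A := Finset.disjoint_of_subset_left hT'
    (Finset.disjoint_of_subset_right hA hd)
  have e1 : (T ∪ C) \ (T' ∪ A) = (T \ T') ∪ (C \ A) := by
    ext q
    simp only [Finset.mem_sdiff, Finset.mem_union]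
    have h1 : q ∈ T → q ∉ C := fun h => Finset.disjoint_left.1 hd h
    have h2 : q ∈ T' → q ∈ T := fun h => hT' h
    have h3 : q ∈ A → q ∈ C := fun h => hA h
    tauto
  have e2 : ∏ b ∈ (T \ T') ∪ (C \ A), fcB (fun b : Pg => em b.1 ^ 2) (xJs 2 q0 e) (nXB q0) T' A b =
      ∏ q ∈ (T \ T') ∪ (C \ A), (em q.1 ^ 2 - e4 (bkB q0 e 2 (T' ∪ A) q.1)) := by
    refine Finset.prod_congr rfl fun b _ => ?_
    rw [fcB, ← xJs_union h0 e 2 hd' (fun a ha => hC a (hA ha)), xJs]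
  rw [Finset.card_union_of_disjoint hd', pow_add, mul_assoc, e2,
    FXE_prod h0 (Finset.union_subset_union hT' hA) hq, e1]
  ring

/-- **the total identity of the family** -/
theorem idE_eq (h0 : aa q0.1 = 1) (n : ℕ) {C : Finset Pg} (hd : Disjoint T C)
    (hC : ∀ q ∈ C, e q = 2) (hq : q0 ∉ T ∪ C) :
    idB lm 1 (LaXE k q0 e) (fun b : Pg => em b.1 ^ 2) (xJs 2 q0 e) (nXB q0) n T C =
      GX q0 (fB k 2) (wB e (T ∪ C)) X (T ∪ C) / rh / lm ^ (T.card + 2 * C.card + n) := by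
  have h1 := idEf_eq (k := k) h0 1 n (fun _ => rh⁻¹) hd hC hq
  have h2 : (fun T A : Finset Pg => rh⁻¹ * FXE k q0 e (T ∪ A) (T ∪ A)) = LaXE k q0 e := by
    funext T A
    rw [LaXE]
    ring
  rw [h2] at h1
  rw [h1, GX_wB_XE, one_mul]
  congr 1
  rw [Finset.sum_div]
  exact Finset.sum_congr rfl fun R _ => by ring

/-- the weighted sum of `X / rh` -/
theorem GX_X_rhE {kap : 𝓞 K} : GX q0 kap (wtB e J) X J / rh =
    GX q0 kap (wtB e J) (fun _ => 1) J + 2 * GX q0 kap (wtB e J) xi J := by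
  have h1 : X = fun z => rh * (1 + 2 * xi z) := by
    funext z
    exact X_xi z
  have h2 := GX_fcmul (q0 := q0) (kap := kap) (J := J) rh (wtB e J) fun z => 1 + 2 * xi z
  have h3 := GX_fadd (q0 := q0) (kap := kap) (J := J) (wtB e J) (fun _ => 1) fun z => 2 * xi z
  have h4 := GX_fcmul (q0 := q0) (kap := kap) (J := J) 2 (wtB e J) xi
  have e1 : GX q0 kap (wtB e J) X J = GX q0 kap (wtB e J) (fun z => rh * (1 + 2 * xi z)) J := by
    rw [← h1]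
  rw [e1, h2, mul_div_cancel_left₀ _ rh_ne, h3, h4]

/-- the total identity of the family with the weights `wtB` -/
theorem idE_wt (h0 : aa q0.1 = 1) (n : ℕ) {C : Finset Pg} (hd : Disjoint T C)
    (he : ∀ q ∈ T, md (e q) ≠ 0) (hC : ∀ q ∈ C, e q = 2) (hq : q0 ∉ T ∪ C) :
    idB lm 1 (LaXE k q0 e) (fun b : Pg => em b.1 ^ 2) (xJs 2 q0 e) (nXB q0) n T C =
      (GX q0 (fB k 2) (wtB e (T ∪ C)) (fun _ => 1) (T ∪ C) +
        2 * GX q0 (fB k 2) (wtB e (T ∪ C)) xi (T ∪ C)) / lm ^ n := by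
  rw [idE_eq h0 n hd hC hq, GX_wtB, ← GX_X_rhE, mB_unionX hd he hC,
    pow_add lm (T.card + 2 * C.card) n]
  have h1 := pow_ne_zero (T.card + 2 * C.card) lm_ne
  have h2 := pow_ne_zero n lm_ne
  have h3 := rh_ne
  field_simp

/-- **the field `idY`** -/
theorem Rt_idE (hB : (2 : ℂ)⁻¹ ∉ B) (h0 : aa q0.1 = 1) {C : Finset Pg} (hd : Disjoint T C)
    (he : ∀ q ∈ T, md (e q) ≠ 0) (hC : ∀ q ∈ C, e q = 2) (hq : q0 ∉ T ∪ C)
    (hne : (T ∪ C).Nonempty) :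
    Rt B (idB lm 1 (LaXE k q0 e) (fun b : Pg => em b.1 ^ 2) (xJs 2 q0 e) (nXB q0) 1 T C) 0 := by
  have hex := exp_ne he hC
  rw [idE_wt h0 1 hd he hC hq, pow_one]
  refine Rt.of_lt ?_
  have hl0 := v_lm_pos (B := B)
  have hl1 := v_lm_lt (B := B) hB
  rw [map_div₀, div_lt_one₀ hl0]
  have h1 := v_GX_wtB_one (q0 := q0) (kap := fB k 2) hB (fB_ndvd k 2) hq hex
  rw [sum_mqX hd he hC] at h1
  have h2 : B.valuation lm ^ (3 * T.card + 2 * C.card) < B.valuation lm := by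
    have h3 : 2 ≤ 3 * T.card + 2 * C.card := by
      have h4 := hne.card_pos
      rw [Finset.card_union_of_disjoint hd] at h4
      omega
    calc B.valuation lm ^ (3 * T.card + 2 * C.card) ≤ B.valuation lm ^ 2 :=
          pow_le_pow_right_of_le_one' hl1.le h3
      _ < B.valuation lm := by
          rw [pow_two]
          exact mul_lt_of_lt_one_right hl0 hl1
  refine Valuation.map_add_lt _ (h1.trans_lt h2) ?_
  rw [map_mul]
  have h3 : B.valuation (GX q0 (fB k 2) (wtB e (T ∪ C)) xi (T ∪ C)) ≤ 1 :=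
    v_GX_leB hB (fB_ndvd k 2) hex fun z hz => xi_le hB hz
  refine (mul_le_of_le_one_right' h3).trans_lt ?_
  rw [← v_lm_sq, pow_two]
  exact mul_lt_of_lt_one_right hl0 hl1

/-- **the field `idY2`** -/
theorem v_idE2 (hB : (2 : ℂ)⁻¹ ∉ B) (h0 : aa q0.1 = 1) {C : Finset Pg}
    (hC : ∀ q ∈ C, e q = 2) (hq : q0 ∉ C) (hne : C.Nonempty) :
    idB lm 1 (LaXE k q0 e) (fun b : Pg => em b.1 ^ 2) (xJs 2 q0 e) (nXB q0) 2 ∅ C ∈ B := by
  have hd : Disjoint (∅ : Finset Pg) C := Finset.disjoint_empty_left C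
  have he : ∀ q ∈ (∅ : Finset Pg), md (e q) ≠ 0 := fun q hq => absurd hq (Finset.notMem_empty q)
  have hq' : q0 ∉ ∅ ∪ C := by rwa [Finset.empty_union]
  have hex := exp_ne he hC
  have hl0 := v_lm_pos (B := B)
  have hl1 := v_lm_lt (B := B) hB
  rw [idE_wt h0 2 hd he hC hq', ← ValuationSubring.valuation_le_one_iff, map_div₀, map_pow,
    div_le_one₀ (pow_pos hl0 2)]
  have h1 := v_GX_wtB_one (q0 := q0) (kap := fB k 2) hB (fB_ndvd k 2) hq' hex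
  rw [sum_mqX hd he hC] at h1
  refine (Valuation.map_add _ _ _).trans (max_le (h1.trans ?_) ?_)
  · refine pow_le_pow_right_of_le_one' hl1.le ?_
    have := hne.card_pos
    omega
  · rw [map_mul, v_lm_sq]
    exact mul_le_of_le_one_right' (v_GX_leB hB (fB_ndvd k 2) hex fun z hz => xi_le hB hz)

/-! ### The values of the empty sets -/

theorem FXE_empty : FXE k q0 e ∅ ∅ / rh = n0 q0 (fB k 2) + 2 * FXB q0 e (fB k 2) xi ∅ ∅ := by
  have h1 : FXB q0 e (fB k 2) (fun _ => 1) ∅ ∅ = n0 q0 (fB k 2) := by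
    rw [FXB, GX_SO, n0]
    refine SO_congr fun y _ => ?_
    rw [mul_one, chP, Finset.prod_empty]
  have h2 := FXB_xi_one (q0 := q0) (ex := e) (kap := fB k 2) (T := ∅) (J := ∅)
  rw [h1] at h2
  rw [FXE, h2]
  have h := rh_ne
  field_simp
  ring

theorem LaXE_empty_v (hB : (2 : ℂ)⁻¹ ∉ B) (h0 : aa q0.1 = 1) :
    B.valuation (LaXE k q0 e ∅ ∅ - 1) ≤ B.valuation lm ^ 2 := by
  rw [LaXE, Finset.empty_union, FXE_empty, v_lm_sq]
  have e1 : n0 q0 (fB k 2) + 2 * FXB q0 e (fB k 2) xi ∅ ∅ - 1 =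
      (n0 q0 (fB k 2) - 1) + 2 * FXB q0 e (fB k 2) xi ∅ ∅ := by ring
  rw [e1]
  refine (Valuation.map_add _ _ _).trans (max_le (v_n0_sub h0 (fB_ndvd k 2)) ?_)
  rw [map_mul]
  exact mul_le_of_le_one_right' (v_FXB_le (fB_ndvd k 2) (Finset.Subset.refl _)
    fun _ hz => xi_le hB hz)

/-- **the field `Y0`** -/
theorem Rt_LaXE_empty (hB : (2 : ℂ)⁻¹ ∉ B) (h0 : aa q0.1 = 1) : Rt B (LaXE k q0 e ∅ ∅) 1 :=
  Rt.one.congr ((LaXE_empty_v hB h0).trans_lt ((v_sq_lt hB).trans (v_lm_lt hB)))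

/-! ### The coefficient -/

theorem bkB_empty_lam (hl0 : bb q0.1 = 0) : bkB q0 e 2 ∅ lam = 0 := by
  rw [bkB, Finset.sum_empty, Finset.sum_empty, add_zero, zero_sub]
  linear_combination (-(nn q0.1)) * two_c4_lam hl0

theorem EfE_empty (hl0 : bb q0.1 = 0) : EfE q0 e ∅ = 1 := by
  rw [EfE, bkB_empty_lam hl0, mul_zero, neg_zero, e4_zero]

theorem chEv_empty (hl0 : bb q0.1 = 0) : chEv q0 e ∅ = -1 := by
  rw [chEv, bkB_empty_lam hl0, neg_zero, e4_zero]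

/-- **the field `ch1`** -/
theorem Rt_chEv (hB : (2 : ℂ)⁻¹ ∉ B) (T : Finset Pg) : Rt B (chEv q0 e T) 1 := by
  exact (Rt_root hB (-bkB q0 e 2 T lam)).neg hB

/-- **the field `chE`** -/
theorem Rt_EfE_chEv (hB : (2 : ℂ)⁻¹ ∉ B) (hl0 : bb q0.1 = 0) (he : ∀ p ∈ T, md (e p) ≠ 0) :
    Rt B ((EfE q0 e T - chEv q0 e T) / lm) (0 + ∑ p ∈ T, bb p.1) := by
  have hl := lm_ne
  have h1 := Rt_e4 hB (-bkB q0 e 2 T lam)
  have h2 := Rt_e4 hB (-(2 * bkB q0 e 2 T lam))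
  have hneg : ∀ x : ZMod 2, -x = x := by decide
  rw [map_neg, hneg, md_bkB_lam hl0 he] at h1
  rw [map_neg, hneg, map_mul, md_two, zero_mul] at h2
  have h3 := ((Rt_lm hB).mul hB (Rt_ztX hB)).neg hB
  have h4 := (h2.neg hB).add hB (h1.neg hB)
  have h5 : Rt B (2 / lm) 0 := by
    have e1 : 2 / lm = -(lm * zt) := by
      rw [div_eq_iff hl]
      linear_combination zt * lm_sq + 2 * zt_sq
    rw [e1]
    rw [zero_mul] at h3
    exact h3
  have h6 := h5.add hB h4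
  have e2 : 2 / lm + (-((1 - e4 (-(2 * bkB q0 e 2 T lam))) / lm) +
      -((1 - e4 (-bkB q0 e 2 T lam)) / lm)) = (EfE q0 e T - chEv q0 e T) / lm := by
    rw [EfE, chEv]
    field_simp
    ring
  rw [e2] at h6
  rwa [zero_add (0 + ∑ p ∈ T, bb p.1)] at h6

/-- **the field `hcU`** -/
theorem Rt_half_lm (hB : (2 : ℂ)⁻¹ ∉ B) : Rt B (1 / 2 * lm ^ (1 + 1)) 1 := by
  have e1 : (1 : ℂ) / 2 * lm ^ (1 + 1) = zt := by
    linear_combination (1 / 2) * lm_sq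
  rw [e1]
  exact Rt_ztX hB

/-- the coefficient of the family -/
def ccE (q0 : Pg) (e : Pg → ZMod 4) (R : Finset Pg) : ℂ :=
  (e4 (-(2 * bkB q0 e 2 R lam)) + e4 (-bkB q0 e 2 R lam)) / (2 * rh)

/-- the multiple of the family -/
theorem UxD_E (hl0 : bb q0.1 = 0) {A : Finset Pg} (hd : Disjoint T A) (he : ∀ a ∈ A, e a = 2) :
    UxD (1 / 2) (LaXE k q0 e) (EfE q0 e) (chEv q0 e) (fun b : Pg => bb b.1) T A =
      ccE q0 e (T ∪ A) * FXE k q0 e (T ∪ A) (T ∪ A) := by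
  have h1 := e4_union_lam (T := T) (h := 2) (e := e) hl0 hd he
  have h2 := bkB_union_lam (T := T) (h := 2) (e := e) hl0 hd he
  have h3 : e4 (-(2 * bkB q0 e 2 (T ∪ A) lam)) = e4 (-(2 * bkB q0 e 2 T lam)) := by
    rw [h2]
    congr 1
    have key : ∀ b s : ZMod 4, -(2 * (b + 2 * s)) = -(2 * b) := by decide
    exact key _ _
  have h4 : e4 (-bkB q0 e 2 (T ∪ A) lam) =
      e4 (-bkB q0 e 2 T lam) * ∏ b ∈ A, sgz (bb b.1) := by
    have h5 : ∀ b : ZMod 4, e4 (-b) = e4 (2 * b) * e4 b := fun b => by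
      rw [← e4_add]
      congr 1
      revert b
      decide
    have h6 : e4 (2 * bkB q0 e 2 (T ∪ A) lam) = e4 (2 * bkB q0 e 2 T lam) := by
      rw [h2]
      congr 1
      have key : ∀ b s : ZMod 4, 2 * (b + 2 * s) = 2 * b := by decide
      exact key _ _
    rw [h5, h1, h6, h5 (bkB q0 e 2 T lam)]
    ring
  have hr := rh_ne
  rw [UxD, LaXE, EfE, chEv, ccE, h3, h4]
  field_simp
  ring

/-- **the field `U0`** -/
theorem Rt_U0_E (hB : (2 : ℂ)⁻¹ ∉ B) (h0 : aa q0.1 = 1) (hl0 : bb q0.1 = 0) :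
    Rt B (UxD (1 / 2) (LaXE k q0 e) (EfE q0 e) (chEv q0 e) (fun b : Pg => bb b.1) ∅ ∅) 1 := by
  rw [UxD, EfE_empty hl0, chEv_empty hl0, Finset.prod_empty]
  have e1 : (1 : ℂ) / 2 * (1 - -1 * 1) * LaXE k q0 e ∅ ∅ = LaXE k q0 e ∅ ∅ := by ring
  rw [e1]
  exact Rt_LaXE_empty hB h0

/-- **the total identity of the multiple of the family** -/
theorem idUE_eq (h0 : aa q0.1 = 1) (hl0 : bb q0.1 = 0) (n : ℕ) {C : Finset Pg}
    (hd : Disjoint T C) (hC : ∀ q ∈ C, e q = 2) (hq : q0 ∉ T ∪ C) :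
    idB lm 1 (UxD (1 / 2) (LaXE k q0 e) (EfE q0 e) (chEv q0 e) fun b : Pg => bb b.1)
        (fun b : Pg => em b.1 ^ 2) (xJs 2 q0 e) (nXB q0) n T C =
      (GX q0 (fB k 2) (wB e (T ∪ C)) (fun z => X (lm ^ 2 * z)) (T ∪ C) +
        GX q0 (fB k 2) (wB e (T ∪ C)) (fun z => X (lm ^ 1 * z)) (T ∪ C)) / (2 * rh) /
        lm ^ (T.card + 2 * C.card + n) := by
  have h2 : idB lm 1 (UxD (1 / 2) (LaXE k q0 e) (EfE q0 e) (chEv q0 e) fun b : Pg => bb b.1)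
      (fun b : Pg => em b.1 ^ 2) (xJs 2 q0 e) (nXB q0) n T C =
      idB lm 1 (fun T A => ccE q0 e (T ∪ A) * FXE k q0 e (T ∪ A) (T ∪ A))
      (fun b : Pg => em b.1 ^ 2) (xJs 2 q0 e) (nXB q0) n T C := by
    refine idB_congr fun T' hT' A hA => ?_
    exact UxD_E hl0 (Finset.disjoint_of_subset_left hT' (Finset.disjoint_of_subset_right hA hd))
      fun a ha => hC a (hA ha)
  rw [h2, idEf_eq h0 1 n (ccE q0 e) hd hC hq, one_mul]
  congr 1
  rw [GX_wB_XE_lam h0, GX_wB_XE_lam h0, ← Finset.sum_add_distrib, Finset.sum_div]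
  refine Finset.sum_congr rfl fun R _ => ?_
  rw [ccE, Nat.cast_one, one_mul, Nat.cast_ofNat]
  ring

/-- the sum over the units of two functions of `xi` -/
theorem GX_UE {kap : 𝓞 K} {w : 𝓞 K → ℂ} :
    (GX q0 kap w (fun z => X (lm ^ 2 * z)) J + GX q0 kap w (fun z => X (lm ^ 1 * z)) J) / (2 * rh) =
      GX q0 kap w (fun z => 1 + xi (lm ^ 1 * z) + xi (lm ^ 2 * z)) J := by
  have hr := rh_ne
  have e1 : (fun z => (2 * rh)⁻¹ * (X (lm ^ 2 * z) + X (lm ^ 1 * z))) =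
      fun z => 1 + xi (lm ^ 1 * z) + xi (lm ^ 2 * z) := by
    funext z
    rw [X_xi, X_xi]
    field_simp
    ring
  rw [← e1, GX_fcmul, GX_fadd]
  ring

/-- **the total identity of the multiple of the family** with the weights `wtB` -/
theorem idUE_wt (h0 : aa q0.1 = 1) (hl0 : bb q0.1 = 0) (n : ℕ) {C : Finset Pg}
    (hd : Disjoint T C) (he : ∀ q ∈ T, md (e q) ≠ 0) (hC : ∀ q ∈ C, e q = 2)
    (hq : q0 ∉ T ∪ C) :
    idB lm 1 (UxD (1 / 2) (LaXE k q0 e) (EfE q0 e) (chEv q0 e) fun b : Pg => bb b.1)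
        (fun b : Pg => em b.1 ^ 2) (xJs 2 q0 e) (nXB q0) n T C =
      GX q0 (fB k 2) (wtB e (T ∪ C)) (fun z => 1 + xi (lm ^ 1 * z) + xi (lm ^ 2 * z)) (T ∪ C) /
        lm ^ n := by
  rw [idUE_eq h0 hl0 n hd hC hq, GX_UE, GX_wtB, mB_unionX hd he hC,
    pow_add lm (T.card + 2 * C.card) n, mul_div_mul_left _ _ (pow_ne_zero _ lm_ne)]

end

/-! ### The data -/

/-- **The data of the classes (J2d), `ν` even**, from the value of the empty sets and the total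
identities. -/
theorem syDE_of (hB : (2 : ℂ)⁻¹ ∉ B) (hk : k = 0 ∨ k = 2) (h0 : aa q0.1 = 1)
    (hl0 : bb q0.1 = 0) (h : ZMod 2) {S0 B0 : Finset Pg} (hd : Disjoint S0 B0)
    (he : ∀ q ∈ S0, md (e q) ≠ 0) (he2 : ∀ q ∈ B0, e q = 2) (hq : q0 ∉ S0 ∪ B0)
    (hs : ∀ b ∈ B0, s4 q0 b = 0) {M : Finset Pg → Finset Pg → ℂ} {μ0 : ZMod 2}
    (hM0 : Rt B (M ∅ ∅) μ0)
    (idD : ∀ T ⊆ S0, T.Nonempty → ∀ C ⊆ B0, Rt B (idB lm 1 M (eJs k 2) (xJs (hh h) q0 e)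
      (nXB q0) 1 T C - idB lm 1 (UxD (1 / 2) (LaXE k q0 e) (EfE q0 e) (chEv q0 e) fun b => bb b.1)
        (fun b : Pg => em b.1 ^ 2) (xJs 2 q0 e) (nXB q0) 1 T C)
      (∑ i ∈ T ∪ C, bb i.1 * Ham (nXB q0) (fun b => aa b.1) (T ∪ C) i))
    (idD0 : ∀ C ⊆ B0, C.Nonempty → idB lm 1 M (eJs k 2) (xJs (hh h) q0 e)
      (nXB q0) 1 ∅ C - idB lm 1 (UxD (1 / 2) (LaXE k q0 e) (EfE q0 e) (chEv q0 e) fun b => bb b.1)
        (fun b : Pg => em b.1 ^ 2) (xJs 2 q0 e) (nXB q0) 1 ∅ C ∈ B) :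
    SyDE B lm M (LaXE k q0 e) (eJs k 2) (fun b : Pg => em b.1 ^ 2) (xJs (hh h) q0 e)
      (xJs 2 q0 e) (EfE q0 e) (chEv q0 e) (1 / 2) (nXB q0)
      (fun b => lJ k b.1 + (1 + h) * s4 q0 b) (fun b => bb b.1) (fun b => aa b.1)
      (fun b => s4 q0 b) (fun b => lJ k b.1 + h * s4 q0 b) μ0 S0 B0 where
  hM := syMXE hB hk h0 h hd he M
  hX := syXE hB k h0 hd he
  cw T _ b _ := Rt_cw_E hB hk h0 h T b
  cx T _ b _ := cx_E hB h0 h T b
  ch1 T _ := Rt_chEv hB T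
  chE T hT := Rt_EfE_chEv hB hl0 fun p hp => he p (hT hp)
  hcU := Rt_half_lm hB
  s0B := hs
  fX b _ := Rt_fX_E hB h0 b
  fXB b hb := Rt_fXB_E hB h0 (hs b hb)
  Y0 := Rt_LaXE_empty hB h0
  idY T hT C hC hne := Rt_idE hB h0 (Finset.disjoint_of_subset_left hT
    (Finset.disjoint_of_subset_right hC hd)) (fun q hq' => he q (hT hq'))
    (fun q hq' => he2 q (hC hq')) (fun h1 => hq (Finset.union_subset_union hT hC h1)) hne
  idY2 C hC hne := v_idE2 hB h0 (fun q hq' => he2 q (hC hq'))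
    (fun h1 => hq (Finset.mem_union_right _ (hC h1))) hne
  U0 := Rt_U0_E hB h0 hl0
  M0 := hM0
  fM b _ := Rt_fM_E hB hk h0 h b
  idD := idD
  idD0 := idD0

end

end Pool.Agent.Lib.MP_1a91b9_ntQ
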