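import Pool.Agent.Lib.MP_1a91b9_ntQ.B.RhsJ2c
import Pool.Agent.Lib.MP_1a91b9_ntQ.A.SyI
import Pool.Agent.Lib.MP_1a91b9_ntQ.A.EvB

/-!
# Quartic twists, all fourth-power-free `D`, class J2c (`j = 2`, `k` even), file LaJ2c: the value

`LaB k 2 e (S0 ∪ B0)` divided by `LaB k 2 e ∅ lm ^ (|S0| + |U| + 2 |V| + 1)` has the class
`∑ (p ∈ S0) (lJ k p + aa p)` times the principal minor of the matrix.
-/

set_option autoImplicit false

namespace Pool.Agent.Lib.MP_1a91b9_ntQ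

open NumberField Pool.Agent.Lib.MP_1a91b9_nuT Pool.Agent.Lib.MP_1a91b9_nuT.S3
  Pool.Agent.Lib.MP_1a91b9_nuT.Ell

noncomputable section

variable {B : ValuationSubring ℂ}

/-- the row sums of the class vanish -/
theorem kapB_J2e {k : ZMod 4} (hk : k = 0 ∨ k = 2) (b : Pg) : kapB k 2 b = 0 := by
  have h1 : md k = 0 := by
    rcases hk with rfl | rfl
    · exact md_zero
    · exact md_two
  have h2 : ((2 : ℕ) : ZMod 2) = 0 := rfl
  rw [kapB, h1, zero_mul, h2, zero_mul, add_zero]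

private theorem LaJ2c_mB {e : Pg → ZMod 4} {T C : Finset Pg} (hd : Disjoint T C)
    (hT : ∀ q ∈ T, md (e q) ≠ 0) (hC : ∀ q ∈ C, e q = 2) :
    mB e (T ∪ C) = T.card + 2 * C.card := by
  rw [mB, Finset.sum_union hd, Finset.sum_congr rfl fun q hq => if_neg (hT q hq),
    Finset.sum_congr rfl fun q hq => if_pos (by rw [hC q hq, md_two]), Finset.sum_const,
    Finset.sum_const, smul_eq_mul, smul_eq_mul, mul_one, mul_comm C.card]

/-- **The class of the value.** -/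
theorem Rt_LaB_J2c (hB : (2 : ℂ)⁻¹ ∉ B) {k : ZMod 4} (hk : k = 0 ∨ k = 2) {e : Pg → ZMod 4}
    {S0 B0 : Finset Pg}
    (hd : Disjoint S0 B0) (hS : ∀ q ∈ S0, md (e q) ≠ 0) (hC : ∀ q ∈ B0, e q = 2)
    {U V : Finset Pg} (hUB : U ∪ V = B0) (hUV : Disjoint U V)
    (hu1 : ∀ b ∈ U, kapB k 2 b + ∑ p ∈ S0, s4 b p = 1)
    (hu0 : ∀ b ∈ V, kapB k 2 b + ∑ p ∈ S0, s4 b p = 0) {r0 : Pg} (hr : r0 ∈ S0) :
    Rt B (LaB k 2 e (S0 ∪ B0) / (LaB k 2 e ∅ * lm ^ (S0.card + U.card + 2 * V.card + 1)))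
      ((∑ p ∈ S0, (lJ k p.1 + aa p.1)) *
        pdt (blkM s4 (kapB k 2) (fun b => hf2 (EB k 2 e (S0 ∪ U) b)) S0 V) ((S0 ∪ V).erase r0)) := by
  have hbS : ∀ b ∈ B0, b ∉ S0 := fun b hb h => Finset.disjoint_left.1 hd h hb
  have hUsub : U ⊆ B0 := hUB ▸ Finset.subset_union_left
  have hVsub : V ⊆ B0 := hUB ▸ Finset.subset_union_right
  have hkap : kapB k 2 = 0 := funext fun b => kapB_J2e hk b
  have hu0' : ∀ b ∈ V, ∑ p ∈ S0, s4 b p = 0 := fun b hb => by
    have h := hu0 b hb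
    rwa [kapB_J2e hk, zero_add] at h
  have hu1' : ∀ b ∈ U, ∑ p ∈ S0, s4 b p = 1 := fun b hb => by
    have h := hu1 b hb
    rwa [kapB_J2e hk, zero_add] at h
  have hdV : Disjoint S0 V := Finset.disjoint_of_subset_right hVsub hd
  have key := (syB hB k 2 hd hS (LaB k 2 e ∅)).final_CE2 (fun b => kapB_J2e hk b) (n := 1) le_rfl
    (h := fun q => lJ k q.1 + aa q.1) (f := fun q => lJ k q.1) (g := fun q => aa q.1)
    (τ := fun b => hf2 (EB k 2 e (S0 ∪ U) b))
    ?_ (fun b _ => ?_) ?_ hUB hUV hu1' hu0'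
    (fun b hb => h1B hB k 2 e (hbS b (hVsub hb)))
    (fun b hb => h2B hB k 2 (Finset.disjoint_of_subset_right hUsub hd) hS
      (fun a ha => hC a (hUsub ha)) (hbS b (hVsub hb))
      (fun h => Finset.disjoint_left.1 hUV h hb) (hu0 b hb)) hr
  · rw [blkMv_symm s4 (fun _ _ h => s4_symm h) _ _ _ hdV hr hu0'] at key
    rw [hkap]
    exact key
  · rw [LaS, Finset.empty_union, div_self (LaB_J2c_ne hk e)]
    exact Rt.one
  · exact Rt_J2c_fac hB hk e b
  · intro T hT C hC' hTC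
    have hd' : Disjoint T C :=
      Finset.disjoint_of_subset_left hT (Finset.disjoint_of_subset_right hC' hd)
    have hT' : ∀ q ∈ T, md (e q) ≠ 0 := fun q hq => hS q (hT hq)
    have hC2 : ∀ q ∈ C, e q = 2 := fun q hq => hC q (hC' hq)
    have he : ∀ q ∈ T ∪ C, e q ≠ 0 := by
      intro q hq h0
      rcases Finset.mem_union.1 hq with h | h
      · exact hT' q h (by rw [h0, map_zero])
      · rw [hC2 q h] at h0
        exact absurd h0 (by decide)
    have h1 := rhsJ2c hB hk he hTC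
    rw [LaJ2c_mB hd' hT' hC2] at h1
    rw [idB_eq_avg k 2 (LaB k 2 e ∅) 1 hd' hC2]
    have e1 : (if (T ∪ C).card = 1 then ∑ q ∈ T ∪ C, aa q.1 else 0) =
        if C = ∅ then (if T.card = 1 then ∑ q ∈ T, (lJ k q.1 + aa q.1 + lJ k q.1) else 0) else
          if T = ∅ ∧ C.card = 1 then ∑ q ∈ C, aa q.1 else 0 := by
      by_cases hC0 : C = ∅
      · have h2 : ∀ x y : ZMod 2, x + y + x = y := by decide
        rw [if_pos hC0, hC0, Finset.union_empty]
        simp only [h2]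
      · rw [if_neg hC0]
        have hc : (T ∪ C).card = 1 ↔ T = ∅ ∧ C.card = 1 := by
          rw [Finset.card_union_of_disjoint hd']
          have := (Finset.nonempty_iff_ne_empty.2 hC0).card_pos
          rw [← Finset.card_eq_zero]
          omega
        by_cases h4 : T = ∅ ∧ C.card = 1
        · rw [if_pos (hc.2 h4), if_pos h4, h4.1, Finset.empty_union]
        · rw [if_neg (fun h5 => h4 (hc.1 h5)), if_neg h4]
    rw [← e1]
    exact h1

end

end Pool.Agent.Lib.MP_1a91b9_ntQ
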