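import Pool.Agent.Lib.MP_1a91b9_ntQ.B.AvgJB
import Pool.Agent.Lib.MP_1a91b9_ntQ.B.SyXB
import Pool.Agent.Lib.MP_1a91b9_ntQ.A.RtX

/-!
# Quartic twists, part B, file SyJB: the data `SyB` of the blocks with an auxiliary prime, every class

`S0` is the set of the primes with odd exponent, `B0` the set of the primes with exponent two;
`LaJ k j h q0 e T A = MMJ k j h q0 e (T ∪ A) (T ∪ A)`. If the symbols of `q0` at the primes of `S0 ∪ B0`
are trivial the weights are `s4` and `kapB k j` (`syJ0`), in general `nXB q0` and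
`kapB k j + md h * s4 q0` (`syJB`).
-/

set_option autoImplicit false

namespace Pool.Agent.Lib.MP_1a91b9_ntQ

open NumberField Pool.Agent.Lib.MP_1a91b9_nuT Pool.Agent.Lib.MP_1a91b9_nuT.S3
  Pool.Agent.Lib.MP_1a91b9_nuT.Ell

noncomputable section

/-- the total identity depends only on the symbols in the sets -/
theorem idB_congr_s {ι : Type*} [DecidableEq ι] (l K : ℂ) (La : Finset ι → Finset ι → ℂ) (e : ι → ℂ)
    (x : Finset ι → ι → ℂ) {s s' : ι → ι → ZMod 2} (n : ℕ) {T C : Finset ι}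
    (h : ∀ b ∈ T ∪ C, ∀ a ∈ C, s b a = s' b a) :
    idB l K La e x s n T C = idB l K La e x s' n T C := by
  have key : ∀ T' ∈ T.powerset, ∀ A ∈ C.powerset, ∏ b ∈ (T \ T') ∪ (C \ A), fcB e x s T' A b =
      ∏ b ∈ (T \ T') ∪ (C \ A), fcB e x s' T' A b := by
    intro T' _ A hA
    refine Finset.prod_congr rfl fun b hb => ?_
    have hb' : b ∈ T ∪ C := by
      rcases Finset.mem_union.1 hb with h1 | h1
      · exact Finset.mem_union_left _ (Finset.mem_sdiff.1 h1).1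
      · exact Finset.mem_union_right _ (Finset.mem_sdiff.1 h1).1
    rw [fcB, fcB, Finset.prod_congr rfl fun a ha => by
      rw [h b hb' a (Finset.mem_powerset.1 hA ha)]]
  rw [idB, idB, Finset.sum_congr rfl fun T' hT' => by
    rw [Finset.sum_congr rfl fun A hA => by rw [key T' hT' A hA]]]

/-- the sum of the blocks -/
def LaJ (k : ZMod 4) (j : ℕ) (h : ZMod 4) (q0 : Pg) (e : Pg → ZMod 4) (T A : Finset Pg) : ℂ :=
  MMJ k j h q0 e (T ∪ A) (T ∪ A)

/-- the prime with its root of unity -/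
def eJs (k : ZMod 4) (j : ℕ) (b : Pg) : ℂ := (thB k j b.1)⁻¹ * em b.1

/-- the value of the block character -/
def xJs (h : ZMod 4) (q0 : Pg) (e : Pg → ZMod 4) (T : Finset Pg) (b : Pg) : ℂ :=
  e4 (bkB q0 e h T b.1)

/-! ### The exponents -/

/-- the exponent for the union with a set of exponents two -/
theorem bkB_union (q0 : Pg) (e : Pg → ZMod 4) (h : ZMod 4) {T A : Finset Pg} (hd : Disjoint T A)
    (he : ∀ a ∈ A, e a = 2) (x : 𝓞 K) : bkB q0 e h (T ∪ A) x =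
      bkB q0 e h T x + 2 * ∑ a ∈ A, (-(nn a.1 * nn q0.1 * c4 q0 x) + c4 a x) := by
  have e1 : ∑ a ∈ A, e a * nn a.1 = 2 * ∑ a ∈ A, nn a.1 := by
    rw [Finset.mul_sum]
    exact Finset.sum_congr rfl fun a ha => by rw [he a ha]
  have e2 : ∑ a ∈ A, e a * c4 a x = 2 * ∑ a ∈ A, c4 a x := by
    rw [Finset.mul_sum]
    exact Finset.sum_congr rfl fun a ha => by rw [he a ha]
  have e3 : ∑ a ∈ A, (-(nn a.1 * nn q0.1 * c4 q0 x) + c4 a x) =
      -((∑ a ∈ A, nn a.1) * nn q0.1 * c4 q0 x) + ∑ a ∈ A, c4 a x := by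
    rw [Finset.sum_add_distrib, Finset.sum_neg_distrib, ← Finset.sum_mul, ← Finset.sum_mul]
  rw [bkB, bkB, Finset.sum_union hd, Finset.sum_union hd, e1, e2, e3]
  ring

/-- the value of the block character for the union with a set of exponents two -/
theorem xJs_union {q0 : Pg} (h0 : aa q0.1 = 1) (e : Pg → ZMod 4) (h : ZMod 4) {T A : Finset Pg}
    (hd : Disjoint T A) (he : ∀ a ∈ A, e a = 2) (b : Pg) :
    xJs h q0 e (T ∪ A) b = xJs h q0 e T b * ∏ a ∈ A, sgz (nXB q0 b a) := by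
  rw [xJs, xJs, bkB_union q0 e h hd he, e4_add, Finset.mul_sum, e4_sum]
  congr 1
  refine Finset.prod_congr rfl fun a _ => ?_
  rw [e4_two_sgz]
  congr 1
  have h2 : md (nn q0.1) = 1 := h0
  have h3 : md (c4 q0 b.1) = s4 q0 b := rfl
  have h4 : md (c4 a b.1) = s4 b a := by
    rw [IndX_s4 b a]
    rfl
  have h5 : md (nn a.1) = aa a.1 := rfl
  have hneg : ∀ x : ZMod 2, -x = x := by decide
  rw [map_add, map_neg, map_mul, map_mul, h2, h3, h4, h5, hneg, mul_one, nXB_eq, add_comm]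

/-- the parity of the exponent -/
theorem md_bkB {q0 : Pg} (h0 : aa q0.1 = 1) (h : ZMod 4) {e : Pg → ZMod 4} {T : Finset Pg}
    (he : ∀ p ∈ T, md (e p) ≠ 0) (b : Pg) :
    md (bkB q0 e h T b.1) = md h * s4 q0 b + ∑ p ∈ T, nXB q0 b p := by
  have h2 : md (nn q0.1) = 1 := h0
  have h3 : md (c4 q0 b.1) = s4 q0 b := rfl
  have h4 : ∑ p ∈ T, md (e p * c4 p b.1) = ∑ p ∈ T, s4 b p :=
    Finset.sum_congr rfl fun p hp => by
      rw [map_mul, md_one_of (he p hp), one_mul, IndX_s4 b p]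
      rfl
  have h5 : ∑ p ∈ T, md (e p * nn p.1) = ∑ p ∈ T, aa p.1 :=
    Finset.sum_congr rfl fun p hp => by
      rw [map_mul, md_one_of (he p hp), one_mul]
      rfl
  have hneg : ∀ x : ZMod 2, -x = x := by decide
  have h6 : ∑ p ∈ T, nXB q0 b p = ∑ p ∈ T, s4 b p + (∑ p ∈ T, aa p.1) * s4 q0 b := by
    rw [Finset.sum_mul, ← Finset.sum_add_distrib]
    exact Finset.sum_congr rfl fun p _ => nXB_eq q0 b p
  rw [bkB, map_sub, map_mul, map_mul, map_add, h2, h3, map_sum, map_sum, h4, h5, h6, mul_one,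
    sub_eq_add_neg, hneg]
  ring

/-! ### The factors -/

/-- the exponent of the character of `i ^ k lam ^ j` -/
def tB (k : ZMod 4) (j : ℕ) (x : 𝓞 K) : ZMod 4 := k * nn x + (j : ZMod 4) * ll x

theorem thB_inv (k : ZMod 4) (j : ℕ) (x : 𝓞 K) :
    (thB k j x)⁻¹ = e4 (-(k * nn x + (j : ZMod 4) * ll x)) := by
  rw [inv_eq_of_mul_eq_one_right]
  rw [thB, ← e4_add, add_neg_cancel, e4_zero]

/-- the exponent -/
theorem eJs_sub (k : ZMod 4) (j : ℕ) (b : Pg) (t : ZMod 4) :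
    eJs k j b - e4 t = e4 (-(k * nn b.1 + (j : ZMod 4) * ll b.1)) *
      (em b.1 - e4 (k * nn b.1 + (j : ZMod 4) * ll b.1 + t)) := by
  rw [eJs, thB_inv, mul_sub, ← e4_add]
  congr 2
  ring

theorem md_kjt (k : ZMod 4) (j : ℕ) (b : Pg) (t : ZMod 4) :
    md (k * nn b.1 + (j : ZMod 4) * ll b.1 + t) = kapB k j b + md t := by
  have e1 : md (j : ZMod 4) = (j : ZMod 2) := md_natCast j
  rw [map_add, map_add, map_mul, map_mul, md_ll, kapB, e1]
  rfl

variable {B : ValuationSubring ℂ}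

/-- the factor with a root of unity -/
theorem Rt_facT (hB : (2 : ℂ)⁻¹ ∉ B) (b : Pg) (t : ZMod 4) : Rt B ((em b.1 - e4 t) / lm) (md t) := by
  obtain ⟨y, hy⟩ := em_q_sub b
  have e1 : (em b.1 - e4 t) / lm = lm ^ 2 * em y + (1 - e4 t) / lm := by
    have hl := lm_ne
    field_simp
    linear_combination hy
  rw [e1, ← zero_add (md t)]
  refine Rt.add hB (Rt.of_lt ?_) (Rt_e4 hB _)
  rw [map_mul, map_pow]
  exact mul_lt_one_of_lt_of_le (pow_lt_one₀ zero_le (v_lm_lt hB) two_ne_zero) (v_em y)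

/-- **the factor** -/
theorem Rt_facJ (hB : (2 : ℂ)⁻¹ ∉ B) (k : ZMod 4) (j : ℕ) (b : Pg) (t : ZMod 4) :
    Rt B ((eJs k j b - e4 t) / lm) (kapB k j b + md t) := by
  have h1 := (Rt_root hB (-(k * nn b.1 + (j : ZMod 4) * ll b.1))).mul hB
    (Rt_facT hB b (k * nn b.1 + (j : ZMod 4) * ll b.1 + t))
  rwa [one_mul, md_kjt, ← mul_div_assoc, ← eJs_sub] at h1

/-- **the factor to the second order** -/
theorem Rt_facJ2 (hB : (2 : ℂ)⁻¹ ∉ B) (k : ZMod 4) (j : ℕ) (b : Pg) {t : ZMod 4}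
    (h : kapB k j b + md t = 0) :
    Rt B ((eJs k j b - e4 t) / lm ^ 2) (hf2 (k * nn b.1 + (j : ZMod 4) * ll b.1 + t)) := by
  have h1 := (Rt_root hB (-(k * nn b.1 + (j : ZMod 4) * ll b.1))).mul hB (Rt_facB2 hB (b := b)
    (t := k * nn b.1 + (j : ZMod 4) * ll b.1 + t) (by rw [md_kjt, h]))
  rwa [one_mul, ← mul_div_assoc, ← eJs_sub] at h1

/-- **the data of the blocks** -/
theorem syJB (hB : (2 : ℂ)⁻¹ ∉ B) (k : ZMod 4) (j : ℕ) {q0 : Pg}
    (h0 : aa q0.1 = 1) (h : ZMod 4) {e : Pg → ZMod 4} {S0 B0 : Finset Pg}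
    (hd : Disjoint S0 B0) (he : ∀ q ∈ S0, md (e q) ≠ 0) (K : ℂ) :
    SyB B lm K (LaJ k j h q0 e) (eJs k j) (xJs h q0 e) (nXB q0)
      (fun b => kapB k j b + md h * s4 q0 b) S0 B0 where
  hB := hB
  hl := Rt.of_lt (v_lm_lt hB)
  hl0 := lm_ne
  hu := by
    have e1 : (2 : ℂ) / lm ^ 2 = -zt := by
      rw [div_eq_iff (pow_ne_zero 2 lm_ne), lm_sq]
      linear_combination 2 * zt_sq
    rw [e1]
    have h3 := Rt_root hB 1
    rw [e4_one] at h3
    exact h3.neg hB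
  dis := hd
  fac T hT b _ := by
    rw [add_assoc, ← md_bkB h0 h (fun q hq => he q (hT hq))]
    exact Rt_facJ hB k j b _
  one _ _ _ _ := Rt_root hB _

/-- the weights for trivial symbols of `q0` -/
theorem nXB_triv {q0 b : Pg} (hs : s4 q0 b = 0) (a : Pg) : nXB q0 b a = s4 b a := by
  rw [nXB_eq, hs, mul_zero, add_zero]

/-- **the data of the blocks** for trivial symbols of the auxiliary prime -/
theorem syJ0 (hB : (2 : ℂ)⁻¹ ∉ B) (k : ZMod 4) (j : ℕ) {q0 : Pg}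
    (h0 : aa q0.1 = 1) (h : ZMod 4) {e : Pg → ZMod 4} {S0 B0 : Finset Pg}
    (hd : Disjoint S0 B0) (he : ∀ q ∈ S0, md (e q) ≠ 0) (hs : ∀ b ∈ S0 ∪ B0, s4 q0 b = 0)
    (K : ℂ) :
    SyB B lm K (LaJ k j h q0 e) (eJs k j) (xJs h q0 e) s4 (kapB k j) S0 B0 where
  hB := hB
  hl := Rt.of_lt (v_lm_lt hB)
  hl0 := lm_ne
  hu := (syJB hB k j h0 h hd he K).hu
  dis := hd
  fac T hT b hb := by
    have h1 := (syJB hB k j h0 h hd he K).fac T hT b hb
    have h2 := hs b (Finset.mem_sdiff.1 hb).1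
    simp only [h2, mul_zero, add_zero] at h1
    rwa [Finset.sum_congr rfl fun p _ => nXB_triv h2 p] at h1
  one _ _ _ _ := Rt_root hB _

/-- the value of the block character for the union, trivial symbols -/
theorem xJs_union0 {q0 : Pg} (h0 : aa q0.1 = 1) (e : Pg → ZMod 4) (h : ZMod 4) {T A : Finset Pg}
    (hd : Disjoint T A) (he : ∀ a ∈ A, e a = 2) {b : Pg} (hs : s4 q0 b = 0) :
    xJs h q0 e (T ∪ A) b = xJs h q0 e T b * ∏ a ∈ A, sgz (s4 b a) := by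
  rw [xJs_union h0 e h hd he, Finset.prod_congr rfl fun a _ => by rw [nXB_triv hs a]]

/-- the hypothesis `h1` of the end statements -/
theorem h1J (hB : (2 : ℂ)⁻¹ ∉ B) (h : ZMod 4) (q0 : Pg) (e : Pg → ZMod 4) (s : Pg → Pg → ZMod 2)
    (T U : Finset Pg) (b : Pg) : Rt B (xJs h q0 e T b * ∏ a ∈ U, sgz (s b a)) 1 := by
  have h1 := (Rt_root hB (bkB q0 e h T b.1)).mul hB (Rt.prod hB U fun a _ => Rt_sgz hB (s b a))
  rwa [Finset.prod_const_one, mul_one] at h1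

/-- the hypothesis `h2` of the end statements -/
theorem h2J (hB : (2 : ℂ)⁻¹ ∉ B) (k : ZMod 4) (j : ℕ) {q0 : Pg} (h0 : aa q0.1 = 1)
    (h : ZMod 4) {e : Pg → ZMod 4} {T U : Finset Pg} (hd : Disjoint T U)
    (he : ∀ q ∈ T, md (e q) ≠ 0) (hU : ∀ a ∈ U, e a = 2) {b : Pg}
    (hb : kapB k j b + md h * s4 q0 b + ∑ p ∈ T, nXB q0 b p = 0) :
    Rt B ((eJs k j b - xJs h q0 e T b * ∏ a ∈ U, sgz (nXB q0 b a)) / lm ^ 2)
      (hf2 (tB k j b.1 + bkB q0 e h (T ∪ U) b.1)) := by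
  rw [← xJs_union h0 e h hd hU, xJs, tB]
  refine Rt_facJ2 hB k j b ?_
  rw [bkB_union q0 e h hd hU, map_add, map_mul, md_two, zero_mul, add_zero, md_bkB h0 h he,
    ← add_assoc, hb]

/-- the hypothesis `h2` of the end statements, trivial symbols of `q0` -/
theorem h2J0 (hB : (2 : ℂ)⁻¹ ∉ B) (k : ZMod 4) (j : ℕ) {q0 : Pg} (h0 : aa q0.1 = 1)
    (h : ZMod 4) {e : Pg → ZMod 4} {T U : Finset Pg} (hd : Disjoint T U)
    (he : ∀ q ∈ T, md (e q) ≠ 0) (hU : ∀ a ∈ U, e a = 2) {b : Pg} (hs : s4 q0 b = 0)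
    (hb : kapB k j b + ∑ p ∈ T, s4 b p = 0) :
    Rt B ((eJs k j b - xJs h q0 e T b * ∏ a ∈ U, sgz (s4 b a)) / lm ^ 2)
      (hf2 (tB k j b.1 + bkB q0 e h (T ∪ U) b.1)) := by
  have h1 := h2J hB k j h0 h hd he hU (b := b) (by
    rw [hs, mul_zero, add_zero, Finset.sum_congr rfl fun p _ => nXB_triv hs p, hb])
  rwa [Finset.prod_congr rfl fun a _ => by rw [nXB_triv hs a]] at h1

/-! ### The total identity -/

/-- **the total identity is the sum over the classes** -/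
theorem idJ_eq (k : ZMod 4) (j : ℕ) {q0 : Pg} (h0 : aa q0.1 = 1) (h : ZMod 4)
    {e : Pg → ZMod 4} (K : ℂ) (n : ℕ) {T C : Finset Pg} (hd : Disjoint T C)
    (hC : ∀ q ∈ C, e q = 2) (hq : q0 ∉ T ∪ C) :
    idB lm K (LaJ k j h q0 e) (eJs k j) (xJs h q0 e) (nXB q0) n T C =
      GX q0 (fB k j) (wB e (T ∪ C)) (UJ k j h) (T ∪ C) /
        (K * lm ^ (T.card + 2 * C.card + n)) := by
  classical
  rw [idB, ← MMJ_sum, sum_powerset_union hd]
  congr 1
  refine Finset.sum_congr rfl fun T' hT' => ?_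
  rw [Finset.mul_sum]
  refine Finset.sum_congr rfl fun A hA => ?_
  rw [Finset.mem_powerset] at hT' hA
  have hd' : Disjoint T' A := Finset.disjoint_of_subset_left hT'
    (Finset.disjoint_of_subset_right hA hd)
  have e1 : (T ∪ C) \ (T' ∪ A) = (T \ T') ∪ (C \ A) := by
    ext q
    simp only [Finset.mem_sdiff, Finset.mem_union]
    have h1 : q ∈ T → q ∉ C := fun h => Finset.disjoint_left.1 hd h
    have h2 : q ∈ T' → q ∈ T := fun h => hT' h
    have h3 : q ∈ A → q ∈ C := fun h => hA h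
    tauto
  have e2 : ∏ b ∈ (T \ T') ∪ (C \ A), fcB (eJs k j) (xJs h q0 e) (nXB q0) T' A b =
      ∏ q ∈ (T \ T') ∪ (C \ A), ((thB k j q.1)⁻¹ * em q.1 - e4 (bkB q0 e h (T' ∪ A) q.1)) := by
    refine Finset.prod_congr rfl fun b _ => ?_
    rw [fcB, ← xJs_union h0 e h hd' (fun a ha => hC a (hA ha)), eJs, xJs]
  rw [Finset.card_union_of_disjoint hd', pow_add, mul_assoc, e2,
    MMJ_prod k j h0 e h (Finset.union_subset_union hT' hA) hq, e1, LaJ]
  ring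

/-- the total identity with the weights `s4`, trivial symbols of `q0` -/
theorem idB_s4 (h : ZMod 4) (k : ZMod 4) (j : ℕ) {q0 : Pg} {e : Pg → ZMod 4} (K : ℂ) (n : ℕ)
    {T C : Finset Pg} (hs : ∀ b ∈ T ∪ C, s4 q0 b = 0) :
    idB lm K (LaJ k j h q0 e) (eJs k j) (xJs h q0 e) s4 n T C =
      idB lm K (LaJ k j h q0 e) (eJs k j) (xJs h q0 e) (nXB q0) n T C := by
  exact idB_congr_s _ _ _ _ _ n fun b hb a _ => (nXB_triv (hs b hb) a).symm

/-- **the total identity**, trivial symbols of `q0` -/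
theorem idJ0_eq (k : ZMod 4) (j : ℕ) {q0 : Pg} (h0 : aa q0.1 = 1) (h : ZMod 4)
    {e : Pg → ZMod 4} (K : ℂ) (n : ℕ) {T C : Finset Pg} (hd : Disjoint T C)
    (hC : ∀ q ∈ C, e q = 2) (hq : q0 ∉ T ∪ C) (hs : ∀ b ∈ T ∪ C, s4 q0 b = 0) :
    idB lm K (LaJ k j h q0 e) (eJs k j) (xJs h q0 e) s4 n T C =
      GX q0 (fB k j) (wB e (T ∪ C)) (UJ k j h) (T ∪ C) /
        (K * lm ^ (T.card + 2 * C.card + n)) := by
  rw [idB_s4 h k j K n hs, idJ_eq k j h0 h K n hd hC hq]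

/-! ### The comparison with the value -/

/-- **The comparison** : the normalised value and the normalised sum have the same class. -/
theorem Rt_LaJ_of (hB : (2 : ℂ)⁻¹ ∉ B) (k : ZMod 4) (j : ℕ) {q0 : Pg} (h0 : aa q0.1 = 1)
    {h : ZMod 4} {e : Pg → ZMod 4} {S0 B0 : Finset Pg} (hd : Disjoint S0 B0)
    (he : ∀ q ∈ S0, md (e q) ≠ 0) (he2 : ∀ q ∈ B0, e q = 2) (hq : q0 ∉ S0 ∪ B0)
    (hS : h + ∑ q ∈ S0 ∪ B0, e q * nn q.1 = 0)
    (h1 : kapB k j q0 + ∑ p ∈ S0, s4 q0 p = 1)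
    {K : ℂ} {y : ZMod 2} (hy : Rt B (LaJ k j h q0 e S0 B0 / (K * lm)) y) :
    Rt B (LaB k j e (S0 ∪ B0) / K) y := by
  have h2 : Rt B ((em q0.1 - XB k j e (S0 ∪ B0) q0.1) / lm) 1 := by
    have h3 := Rt_facT hB q0 (EB k j e (S0 ∪ B0) q0)
    rw [← xB_eq k j e hq] at h3
    have h4 : md (EB k j e (S0 ∪ B0) q0) = 1 := by
      rw [md_EB_union k j hd he2, md_EB k j he fun h => hq (Finset.mem_union_left _ h)]
      exact h1
    rwa [h4] at h3
  have h5 : Rt B (thB k j (q0.1 * DDq (S0 ∪ B0))) 1 := Rt_root hB _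
  have h6 := (h5.mul hB hy).mul hB (Rt_inv_one h2)
  rw [one_mul, mul_one] at h6
  have h7 := MMJ_La k j h0 (e := e) hq hS
  have h8 := h2.ne_zero one_ne_zero
  have hl := lm_ne
  have e1 : thB k j (q0.1 * DDq (S0 ∪ B0)) * (LaJ k j h q0 e S0 B0 / (K * lm)) *
      ((em q0.1 - XB k j e (S0 ∪ B0) q0.1) / lm)⁻¹ = LaB k j e (S0 ∪ B0) / K := by
    by_cases hK : K = 0
    · rw [hK, zero_mul, div_zero, div_zero, mul_zero, zero_mul]
    rw [mul_inv_eq_iff_eq_mul₀ h8, LaJ]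
    field_simp
    linear_combination h7
  rwa [e1] at h6

end

end Pool.Agent.Lib.MP_1a91b9_ntQ
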