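import Pool.Agent.Lib.MP_1a91b9_ntQ.B.TrY
import Pool.Agent.Lib.MP_1a91b9_ntQ.B.SyJB
import Pool.Agent.Lib.MP_1a91b9_ntQ.B.InXB
import Pool.Agent.Lib.MP_1a91b9_ntQ.B.LaJ2c
import Pool.Agent.Lib.MP_1a91b9_ntQ.B.DefZ

/-!
# Quartic twists, all fourth-power-free `D`, class J2d, `h` odd, file FamY: the auxiliary family

`YYo h = y / (lm rh^(3/2))` for `h = 1`, `x y / (lm rh^(5/2))` for `h = 3`, a function of weight `h` whose
traces are exact: the weights of the family `LaYo k h q0 e T A` are `b ^ 3 - χ (b)` resp.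
`b ^ 5 - χ (b)`, with the same characters as the sums `LaJ k 2 h q0 e T A`.
-/

set_option autoImplicit false

namespace Pool.Agent.Lib.MP_1a91b9_ntQ

open NumberField Pool.Agent.Lib.MP_1a91b9_nuT Pool.Agent.Lib.MP_1a91b9_nuT.S3
  Pool.Agent.Lib.MP_1a91b9_nuT.Ell

noncomputable section

/-- the constant -/
def cYo (h : ZMod 4) : ℂ := if h = 1 then lm * (rh * rs) else rh * (lm * (rh * rs))

/-- the exponent of the prime in the distribution relation -/
def pYo (h : ZMod 4) : ℕ := if h = 1 then 3 else 5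

/-- the function -/
def YYo (h : ZMod 4) (z : ℂ) : ℂ := (if h = 1 then yh z else X z * yh z) / cYo h

/-- the sums with the characters of `T` -/
def FYo (k h : ZMod 4) (q0 : Pg) (e : Pg → ZMod 4) (T J : Finset Pg) : ℂ :=
  FXB q0 e (fB k 2) (YYo h) T J

/-- the family -/
def LaYo (k h : ZMod 4) (q0 : Pg) (e : Pg → ZMod 4) (T A : Finset Pg) : ℂ :=
  FYo k h q0 e (T ∪ A) (T ∪ A)

/-- the prime with its power -/
def eYo (h : ZMod 4) (b : Pg) : ℂ := em b.1 ^ pYo h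

theorem three_ne_one4 : (3 : ZMod 4) ≠ 1 := by decide

theorem cYo_one : cYo 1 = lm * (rh * rs) := if_pos rfl

theorem cYo_three : cYo 3 = rh * (lm * (rh * rs)) := if_neg three_ne_one4

theorem cYo_ne (h : ZMod 4) : cYo h ≠ 0 := by
  have h1 := rs_ne
  have h2 := rh_ne
  have h3 := lm_ne
  rw [cYo]
  split_ifs
  · exact mul_ne_zero h3 (mul_ne_zero h2 h1)
  · exact mul_ne_zero h2 (mul_ne_zero h3 (mul_ne_zero h2 h1))

theorem pYo_one : pYo 1 = 3 := if_pos rfl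

theorem pYo_three : pYo 3 = 5 := if_neg three_ne_one4

/-- `YYo 1 = 1 + lm al` -/
theorem YYo_one (z : ℂ) : YYo 1 z = 1 + lm * al z := by
  have h1 := cYo_ne 1
  rw [YYo, if_pos rfl, yh_al z, ← cYo_one, mul_div_cancel_left₀ _ h1]

/-- `YYo 3 = (1 + 2 xi) (1 + lm al)` -/
theorem YYo_three (z : ℂ) : YYo 3 z = (1 + 2 * xi z) * (1 + lm * al z) := by
  have h1 := cYo_ne 3
  have e1 : rh * (1 + 2 * xi z) * (lm * (rh * rs) * (1 + lm * al z)) =
      cYo 3 * ((1 + 2 * xi z) * (1 + lm * al z)) := by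
    rw [cYo_three]
    ring
  rw [YYo, if_neg three_ne_one4, yh_al z, X_xi z, e1, mul_div_cancel_left₀ _ h1]

/-! ### The three properties -/

theorem PdL_YYo (h : ZMod 4) : PdL (YYo h) := fun x y hxy => by
  rw [YYo, YYo, PdL_yh x y hxy, PdL_X x y hxy]

theorem Wt_YYo {h : ZMod 4} (hh : h = 1 ∨ h = 3) : Wt h (YYo h) := fun z hz => by
  rcases hh with rfl | rfl
  · rw [YYo, YYo, if_pos rfl, if_pos rfl, Wt_yh z hz, mul_div_assoc]
  · rw [YYo, YYo, if_neg three_ne_one4, if_neg three_ne_one4]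
    have h1 := Wt_Xyh z hz
    change X (zt * z) * yh (zt * z) = e4 3 * (X z * yh z) at h1
    rw [h1, mul_div_assoc]

theorem TrF_YYo {h : ZMod 4} (hh : h = 1 ∨ h = 3) (q : Pg) : TrF q (em q.1 ^ pYo h) (YYo h) := by
  intro z hz
  rcases hh with rfl | rfl
  · have h1 := TrF_yh q z hz
    have h2 : SM q.1 (fun u => YYo 1 (z + em u / em q.1)) =
        (cYo 1)⁻¹ * SM q.1 (fun u => yh (z + em u / em q.1)) := by
      rw [← SM_cmul q.ne_zero]
      refine SM_congr fun u => ?_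
      rw [YYo, if_pos rfl, div_eq_inv_mul]
    rw [h2, h1, YYo, if_pos rfl, pYo_one]
    ring
  · have h1 : SM q.1 (fun u => X (z + em u / em q.1) * yh (z + em u / em q.1)) =
        em q.1 ^ 5 * (X (em q.1 * z) * yh (em q.1 * z)) := TrF_Xyh q z hz
    have h2 : SM q.1 (fun u => YYo 3 (z + em u / em q.1)) =
        (cYo 3)⁻¹ * SM q.1 (fun u => X (z + em u / em q.1) * yh (z + em u / em q.1)) := by
      rw [← SM_cmul q.ne_zero]
      refine SM_congr fun u => ?_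
      rw [YYo, if_neg three_ne_one4, div_eq_inv_mul]
    rw [h2, h1, YYo, if_neg three_ne_one4, pYo_three]
    ring

/-! ### The size -/

variable {B : ValuationSubring ℂ}

private theorem fy_w {z : ℂ} (hz : Od z) : (1 + lm * al z) ^ 2 = (1 + 2 * xi z) * (1 - 2 * zt * ze z) := by
  have h1 := yh_sq (notMem_of_two_mul hz.two)
  have h2 := rs_sq
  have h3 := yh_al z
  have h4 := X_xi z
  have h5 := X_sq_sub_ze z
  have h6 := rh_ne
  have h7 := lm_ne
  have h8 := lm_sq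
  have e1 : X z ^ 3 - X z = X z * (X z ^ 2 - 1) := by ring
  rw [e1, h5, h4, h3] at h1
  have e2 : (lm ^ 2 * rh ^ 3) * (1 + lm * al z) ^ 2 =
      (lm ^ 2 * rh ^ 3) * ((1 + 2 * xi z) * (1 - 2 * zt * ze z)) := by
    linear_combination h1 - (lm ^ 2 * rh ^ 2 * (1 + lm * al z) ^ 2) * h2 -
      rh ^ 3 * (1 + 2 * xi z) * (1 - 2 * zt * ze z) * h8 +
      4 * rh ^ 3 * (1 + 2 * xi z) * ze z * zt_sq
  exact mul_left_cancel₀ (mul_ne_zero (pow_ne_zero 2 h7) (pow_ne_zero 3 h6)) e2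

/-- `al` is integral at the points of odd order -/
theorem al_leY (hB : (2 : ℂ)⁻¹ ∉ B) {z : ℂ} (hz : Od z) : B.valuation (al z) ≤ 1 := by
  have h1 := fy_w hz
  have hx := xi_le hB hz
  have hze : B.valuation (ze z) ≤ 1 := by
    rw [ze]
    refine (Valuation.map_add _ _ _).trans (max_le hx ?_)
    rw [map_pow]
    exact pow_le_one₀ zero_le hx
  have hlm := lm_ne
  have hzt : B.valuation zt = 1 := v_zt (B := B)
  have e1 : al z * (al z - zt * lm) = -zt * (xi z - zt * ze z - 2 * zt * xi z * ze z) := by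
    have e2 : lm ^ 2 * (al z * (al z - zt * lm)) =
        lm ^ 2 * (-zt * (xi z - zt * ze z - 2 * zt * xi z * ze z)) := by
      have h8 := lm_sq
      have h9 := zt_sq
      linear_combination h1 + (-zt * lm * al z + zt * (xi z - zt * ze z - 2 * zt * xi z * ze z)) * h8 +
        (-2 * lm * al z + 2 * (xi z - zt * ze z - 2 * zt * xi z * ze z)) * h9
    exact mul_left_cancel₀ (pow_ne_zero 2 hlm) e2
  by_contra hc
  push Not at hc
  have h2 : B.valuation (al z - zt * lm) = B.valuation (al z) := by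
    have h5 : B.valuation (zt * lm) < B.valuation (al z) := by
      rw [map_mul, hzt, one_mul]
      exact (v_lm_lt hB).trans hc
    exact Valuation.map_sub_eq_of_lt_left B.valuation h5
  have h3 : B.valuation (al z * (al z - zt * lm)) ≤ 1 := by
    rw [e1, map_mul, Valuation.map_neg, hzt, one_mul]
    refine (Valuation.map_sub _ _ _).trans (max_le ((Valuation.map_sub _ _ _).trans
      (max_le hx ?_)) ?_)
    · rw [map_mul, hzt, one_mul]
      exact hze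
    · rw [map_mul, map_mul, map_mul, hzt, mul_one]
      exact mul_le_one' (mul_le_one' (two_lt hB).le hx) hze
  rw [map_mul, h2] at h3
  have h5 : 0 < B.valuation (al z) := zero_lt_one.trans hc
  have h4 : B.valuation (al z) < B.valuation (al z) * B.valuation (al z) :=
    lt_mul_of_one_lt_right h5 hc
  exact absurd (hc.trans (h4.trans_le h3)) (lt_irrefl _)

/-- `YYo h = 1` modulo `lm` -/
theorem v_YYo_sub (hB : (2 : ℂ)⁻¹ ∉ B) {h : ZMod 4} (hh : h = 1 ∨ h = 3) {z : ℂ} (hz : Od z) :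
    B.valuation (YYo h z - 1) ≤ B.valuation lm := by
  have h1 := al_leY hB hz
  have h2 := xi_le hB hz
  have h3 : B.valuation (lm * al z) ≤ B.valuation lm := by
    rw [map_mul]
    exact mul_le_of_le_one_right' h1
  have h4 : B.valuation (2 * xi z) ≤ B.valuation lm := by
    rw [map_mul, ← v_lm_sq, pow_two, mul_assoc]
    exact mul_le_of_le_one_right' (mul_le_one' (v_lm_lt hB).le h2)
  rcases hh with rfl | rfl
  · rw [YYo_one, add_sub_cancel_left]
    exact h3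
  · have e1 : YYo 3 z - 1 = 2 * xi z + lm * al z + 2 * xi z * (lm * al z) := by
      rw [YYo_three]
      ring
    rw [e1]
    refine (Valuation.map_add _ _ _).trans (max_le ((Valuation.map_add _ _ _).trans
      (max_le h4 h3)) ?_)
    rw [map_mul]
    exact (mul_le_mul' h4 (h3.trans (v_lm_lt hB).le)).trans (by rw [mul_one])

theorem v_YYo_le (hB : (2 : ℂ)⁻¹ ∉ B) {h : ZMod 4} (hh : h = 1 ∨ h = 3) {z : ℂ} (hz : Od z) :
    B.valuation (YYo h z) ≤ 1 := by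
  have h1 := (v_YYo_sub hB hh hz).trans (v_lm_lt hB).le
  have e1 : YYo h z = (YYo h z - 1) + 1 := by ring
  rw [e1]
  exact (Valuation.map_add _ _ _).trans (max_le h1 (map_one _).le)

/-! ### The data `SyB` -/

theorem Rt_eYo_sub (hB : (2 : ℂ)⁻¹ ∉ B) {h : ZMod 4} (hh : h = 1 ∨ h = 3) (b : Pg) :
    Rt B ((eYo h b - 1) / lm ^ 3) (aa b.1) := by
  have h1 := Rt_tq hB b
  have h2 := Rt_em hB b
  rcases hh with rfl | rfl
  · have e1 : (eYo 1 b - 1) / lm ^ 3 = (em b.1 - 1) / lm ^ 3 *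
        (em b.1 ^ 2 + em b.1 + 1) := by
      rw [eYo, pYo_one]
      ring
    have h3 := h1.mul hB (((h2.pow hB 2).add hB h2).add hB Rt.one)
    have e2 : aa b.1 * ((1 : ZMod 2) ^ 2 + 1 + 1) = aa b.1 := by
      have e3 : (1 : ZMod 2) ^ 2 + 1 + 1 = 1 := by decide
      rw [e3, mul_one]
    rw [e1, ← e2]
    exact h3
  · have e1 : (eYo 3 b - 1) / lm ^ 3 = (em b.1 - 1) / lm ^ 3 *
        (em b.1 ^ 4 + em b.1 ^ 3 + em b.1 ^ 2 + em b.1 + 1) := by
      rw [eYo, pYo_three]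
      ring
    have h3 := h1.mul hB (((((h2.pow hB 4).add hB (h2.pow hB 3)).add hB
      (h2.pow hB 2)).add hB h2).add hB Rt.one)
    have e2 : aa b.1 * ((1 : ZMod 2) ^ 4 + 1 ^ 3 + 1 ^ 2 + 1 + 1) = aa b.1 := by
      have e3 : (1 : ZMod 2) ^ 4 + 1 ^ 3 + 1 ^ 2 + 1 + 1 = 1 := by decide
      rw [e3, mul_one]
    rw [e1, ← e2]
    exact h3

/-- the factor -/
theorem Rt_facYo (hB : (2 : ℂ)⁻¹ ∉ B) {h : ZMod 4} (hh : h = 1 ∨ h = 3) (b : Pg) (t : ZMod 4) :
    Rt B ((eYo h b - e4 t) / lm) (md t) := by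
  have h1 := ((Rt_eYo_sub hB hh b).mul hB ((Rt_lm hB).pow hB 2)).add hB (Rt_e4 hB t)
  have e1 : (eYo h b - 1) / lm ^ 3 * lm ^ 2 + (1 - e4 t) / lm = (eYo h b - e4 t) / lm := by
    have hl := lm_ne
    field_simp
    ring
  rw [e1, zero_pow two_ne_zero, mul_zero, zero_add] at h1
  exact h1

theorem md_odd4 {h : ZMod 4} (hh : h = 1 ∨ h = 3) : md h = 1 := by
  rcases hh with rfl | rfl
  · exact md_one
  · decide

/-- the weights of the two families -/
theorem kap_J2d {k : ZMod 4} (hk : k = 0 ∨ k = 2) {h : ZMod 4} (hh : h = 1 ∨ h = 3) (q0 : Pg) :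
    (fun b : Pg => kapB k 2 b + md h * s4 q0 b) = fun b => s4 q0 b := by
  funext b
  rw [kapB_J2e hk, md_odd4 hh, zero_add, one_mul]

/-- **the data of the sums `LaJ`** -/
theorem syMo (hB : (2 : ℂ)⁻¹ ∉ B) {k : ZMod 4} (hk : k = 0 ∨ k = 2) {h : ZMod 4}
    (hh : h = 1 ∨ h = 3) {q0 : Pg} (h0 : aa q0.1 = 1) {e : Pg → ZMod 4} {S0 B0 : Finset Pg}
    (hd : Disjoint S0 B0) (he : ∀ q ∈ S0, md (e q) ≠ 0) (K : ℂ) :
    SyB B lm K (LaJ k 2 h q0 e) (eJs k 2) (xJs h q0 e) (nXB q0) (fun b => s4 q0 b) S0 B0 := by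
  rw [← kap_J2d hk hh]
  exact syJB hB k 2 h0 h hd he K

/-- **the data of the family** -/
theorem syYo (hB : (2 : ℂ)⁻¹ ∉ B) (k : ZMod 4) {h : ZMod 4} (hh : h = 1 ∨ h = 3) {q0 : Pg}
    (h0 : aa q0.1 = 1) {e : Pg → ZMod 4} {S0 B0 : Finset Pg}
    (hd : Disjoint S0 B0) (he : ∀ q ∈ S0, md (e q) ≠ 0) (K : ℂ) :
    SyB B lm K (LaYo k h q0 e) (eYo h) (xJs h q0 e) (nXB q0) (fun b => s4 q0 b) S0 B0 where
  hB := hB
  hl := Rt.of_lt (v_lm_lt hB)
  hl0 := lm_ne
  hu := (syJB hB k 2 h0 h hd he K).hu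
  dis := hd
  fac T hT b _ := by
    have h1 := Rt_facYo hB hh b (bkB q0 e h T b.1)
    rw [md_bkB h0 h (fun q hq => he q (hT hq)), md_odd4 hh, one_mul] at h1
    exact h1
  one _ _ _ _ := Rt_root hB _

/-- **the difference of the primes** -/
theorem Rt_eYo_eJs (hB : (2 : ℂ)⁻¹ ∉ B) {k : ZMod 4} (hk : k = 0 ∨ k = 2) {h : ZMod 4}
    (hh : h = 1 ∨ h = 3) (b : Pg) : Rt B ((eYo h b - eJs k 2 b) / lm ^ 2) (lJ k b.1) := by
  obtain ⟨t, ht, ht2⟩ := thB_lJ hk b.in4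
  have h1 := (Rt_eYo_sub hB hh b).mul hB (Rt_lm hB)
  have h2 := Rt_e4_dbl hB (-t)
  have h3 := (Rt_root hB (-(2 * t))).mul hB (Rt_em_one hB b)
  have e0 : (thB k 2 b.1)⁻¹ = e4 (-(2 * t)) := by
    rw [ht, inv_eq_of_mul_eq_one_right]
    rw [← e4_add, add_neg_cancel, e4_zero]
  have e1 : (eYo h b - 1) / lm ^ 3 * lm + (1 - e4 (2 * -t)) / lm ^ 2 -
      e4 (-(2 * t)) * ((em b.1 - 1) / lm ^ 2) = (eYo h b - eJs k 2 b) / lm ^ 2 := by
    have hl := lm_ne
    rw [eJs, e0, mul_neg]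
    field_simp
    ring
  have h4 := (h1.add hB h2).sub hB h3
  have hneg : ∀ x : ZMod 2, -x = x := by decide
  rw [e1, mul_zero, zero_add, mul_zero, sub_zero, map_neg, hneg, ht2] at h4
  exact h4

/-- the factors of the empty set -/
theorem xJs_empty (h : ZMod 4) (q0 : Pg) (e : Pg → ZMod 4) (b : Pg) :
    xJs h q0 e ∅ b = e4 (-(h * nn q0.1 * c4 q0 b.1)) := by
  rw [xJs, bkB, Finset.sum_empty, Finset.sum_empty, add_zero, zero_sub]

/-! ### The rule at `lam` -/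

section
variable {k h : ZMod 4} {q0 : Pg} {e : Pg → ZMod 4} {T J : Finset Pg}

theorem cop_fBq (k : ZMod 4) (j : ℕ) (q0 : Pg) (J : Finset Pg) :
    IsCoprime (fB k j) (q0.1 * DDq J) := (in4_cop_fB (qD_in4 q0 J) k j).symm

theorem fB_ndvd (k : ZMod 4) (j : ℕ) (q : Pg) : ¬ q.1 ∣ fB k j := by
  obtain ⟨n, h, -⟩ := fB_pow k j
  rw [h]
  exact fun h1 => lam_not_dvd q (q.prime.dvd_of_dvd_pow h1)

/-- the sum of `YYo (lam ^ n z)` -/
theorem FYo_lam (hh : h = 1 ∨ h = 3) (h0 : aa q0.1 = 1) (hT : T ⊆ J) (n : ℕ) :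
    FXB q0 e (fB k 2) (fun z => YYo h (lm ^ n * z)) T J =
      e4 (-(n * bkB q0 e h T lam)) * FYo k h q0 e T J := by
  have h1 := FXB_scale (ex := e) h0 (cop_fBq k 2 q0 J) (cop_lam q0 J n) hT (PdL_YYo h) (Wt_YYo hh)
  have h2 : em (lam ^ n) = lm ^ n := by rw [em_pow, em_lam]
  have h3 := bkB_pow (q0 := q0) (ex := e) (J := J) (T := T) h (x := lam) (by
    have h := cop_lam q0 J 1
    rwa [pow_one] at h) hT n
  rw [h2, h3] at h1
  exact h1

/-- the expansion of the weighted sum of `YYo (lam ^ n z)` -/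
theorem GX_wB_YYo_lam (hh : h = 1 ∨ h = 3) (h0 : aa q0.1 = 1) (n : ℕ) :
    GX q0 (fB k 2) (wB e J) (fun z => YYo h (lm ^ n * z)) J =
      ∑ T ∈ J.powerset, (-1) ^ T.card * (e4 (-(n * bkB q0 e h T lam)) * FYo k h q0 e T J) := by
  rw [GX_wB]
  refine Finset.sum_congr rfl fun T hT => ?_
  rw [FYo_lam hh h0 (Finset.mem_powerset.1 hT)]

/-- the expansion of the weighted sum of `YYo` -/
theorem GX_wB_YYo : GX q0 (fB k 2) (wB e J) (YYo h) J =
    ∑ T ∈ J.powerset, (-1) ^ T.card * FYo k h q0 e T J := by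
  rw [GX_wB]
  rfl

/-- the exact Euler factors -/
theorem FYo_prod (hh : h = 1 ∨ h = 3) (h0 : aa q0.1 = 1) (hT : T ⊆ J) (hq0 : q0 ∉ J) :
    FYo k h q0 e T J = (∏ q ∈ J \ T, (eYo h q - e4 (bkB q0 e h T q.1))) * FYo k h q0 e T T :=
  FXB_prod h0 (PdL_YYo h) (Wt_YYo hh) (fun q => em q.1 ^ pYo h) (TrF_YYo hh) hT hq0
    (cop_fBq k 2 q0 J)

/-- the parity of the exponent at `lam` -/
theorem md_bkB_lam (hl0 : bb q0.1 = 0) (he : ∀ p ∈ T, md (e p) ≠ 0) :
    md (bkB q0 e h T lam) = ∑ p ∈ T, bb p.1 := by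
  rw [bkB, map_sub, map_mul, md_c4_lam hl0, mul_zero, sub_zero, map_sum]
  refine Finset.sum_congr rfl fun p hp => ?_
  rw [map_mul, md_one_of (he p hp), one_mul]
  exact c2_lam p

/-- the exponent of a union at `lam` -/
theorem bkB_union_lam (hl0 : bb q0.1 = 0) {A : Finset Pg} (hd : Disjoint T A)
    (he : ∀ a ∈ A, e a = 2) :
    bkB q0 e h (T ∪ A) lam = bkB q0 e h T lam + 2 * ∑ a ∈ A, c4 a lam := by
  rw [bkB_union q0 e h hd he, Finset.sum_add_distrib]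
  have h1 : 2 * ∑ a ∈ A, -(nn a.1 * nn q0.1 * c4 q0 lam) = 0 := by
    rw [Finset.mul_sum]
    refine Finset.sum_eq_zero fun a _ => ?_
    linear_combination (-(nn a.1 * nn q0.1)) * two_c4_lam hl0
  rw [mul_add, h1, zero_add]

/-- the value of a union at `lam` -/
theorem e4_union_lam (hl0 : bb q0.1 = 0) {A : Finset Pg} (hd : Disjoint T A)
    (he : ∀ a ∈ A, e a = 2) :
    e4 (bkB q0 e h (T ∪ A) lam) = e4 (bkB q0 e h T lam) * ∏ b ∈ A, sgz (bb b.1) := by
  rw [bkB_union_lam hl0 hd he, e4_add, Finset.mul_sum, e4_sum]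
  congr 1
  refine Finset.prod_congr rfl fun a _ => ?_
  rw [e4_two_sgz]
  congr 1
  exact c2_lam a

/-! ### The total identity -/

/-- the total identity for a multiple of the family -/
theorem idYf_eq (hh : h = 1 ∨ h = 3) (h0 : aa q0.1 = 1) (K : ℂ) (n : ℕ) (f : Finset Pg → ℂ)
    {C : Finset Pg} (hd : Disjoint T C) (hC : ∀ q ∈ C, e q = 2) (hq : q0 ∉ T ∪ C) :
    idB lm K (fun T A => f (T ∪ A) * LaYo k h q0 e T A) (eYo h) (xJs h q0 e) (nXB q0) n T C =
      (∑ R ∈ (T ∪ C).powerset, (-1) ^ R.card * (f R * FYo k h q0 e R (T ∪ C))) /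
        (K * lm ^ (T.card + 2 * C.card + n)) := by
  classical
  rw [idB, sum_powerset_union hd]
  congr 1
  refine Finset.sum_congr rfl fun T' hT' => ?_
  rw [Finset.mul_sum]
  refine Finset.sum_congr rfl fun A hA => ?_
  rw [Finset.mem_powerset] at hT' hA
  have hd' : Disjoint T' A := Finset.disjoint_of_subset_left hT'
    (Finset.disjoint_of_subset_right hA hd)
  have e1 : (T ∪ C) \ (T' ∪ A) = (T \ T') ∪ (C \ A) := by
    ext q
    simp only [Finset.mem_sdiff, Finset.mem_union]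
    have h1 : q ∈ T → q ∉ C := fun h => Finset.disjoint_left.1 hd h
    have h2 : q ∈ T' → q ∈ T := fun h => hT' h
    have h3 : q ∈ A → q ∈ C := fun h => hA h
    tauto
  have e2 : ∏ b ∈ (T \ T') ∪ (C \ A), fcB (eYo h) (xJs h q0 e) (nXB q0) T' A b =
      ∏ q ∈ (T \ T') ∪ (C \ A), (eYo h q - e4 (bkB q0 e h (T' ∪ A) q.1)) := by
    refine Finset.prod_congr rfl fun b _ => ?_
    rw [fcB, ← xJs_union h0 e h hd' (fun a ha => hC a (hA ha)), xJs]
  rw [Finset.card_union_of_disjoint hd', pow_add, mul_assoc, e2,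
    FYo_prod hh h0 (Finset.union_subset_union hT' hA) hq, e1, LaYo]
  ring

/-- **the total identity of the family** -/
theorem idYo_eq (hh : h = 1 ∨ h = 3) (h0 : aa q0.1 = 1) (K : ℂ) (n : ℕ)
    {C : Finset Pg} (hd : Disjoint T C) (hC : ∀ q ∈ C, e q = 2) (hq : q0 ∉ T ∪ C) :
    idB lm K (LaYo k h q0 e) (eYo h) (xJs h q0 e) (nXB q0) n T C =
      GX q0 (fB k 2) (wB e (T ∪ C)) (YYo h) (T ∪ C) / (K * lm ^ (T.card + 2 * C.card + n)) := by
  have h1 := idYf_eq (k := k) hh h0 K n (fun _ => 1) hd hC hq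
  have h2 : (fun T A : Finset Pg => 1 * LaYo k h q0 e T A) = LaYo k h q0 e := by
    funext T A
    rw [one_mul]
  rw [h2] at h1
  rw [h1, GX_wB_YYo]
  congr 1
  exact Finset.sum_congr rfl fun R _ => by rw [one_mul]

/-- the sum over the classes modulo `q0` -/
theorem Rt_GX_YYo (hB : (2 : ℂ)⁻¹ ∉ B) (hh : h = 1 ∨ h = 3) (h0 : aa q0.1 = 1)
    (hq : q0 ∉ J) (he : ∀ q ∈ J, e q ≠ 0) :
    Rt B (GX q0 (fB k 2) (wtB e J) (YYo h) J) (if J = ∅ then 1 else 0) := by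
  have h1 : GX q0 (fB k 2) (wtB e J) (YYo h) J = GX q0 (fB k 2) (wtB e J) (fun _ => 1) J +
      GX q0 (fB k 2) (wtB e J) (fun z => YYo h z - 1) J := by
    rw [← GX_fadd]
    congr 1
    funext z
    ring
  have h2 : Rt B (GX q0 (fB k 2) (wtB e J) (fun z => YYo h z - 1) J) 0 :=
    Rt.of_lt (v_GX_ltB hB (fB_ndvd k 2) he zero_lt_one fun z hz =>
      (v_YYo_sub hB hh hz).trans_lt (v_lm_lt hB))
  have h3 : Rt B (GX q0 (fB k 2) (wtB e J) (fun _ => 1) J) (if J = ∅ then 1 else 0) := by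
    by_cases hJ : J = ∅
    · subst hJ
      rw [if_pos rfl, GX_wtB_one (fB_ndvd k 2) hq he, Finset.prod_empty, mul_one]
      exact Rt_n0 hB h0 (fB_ndvd k 2)
    · rw [if_neg hJ]
      refine Rt.of_lt ((v_GX_wtB_one hB (fB_ndvd k 2) hq he).trans_lt ?_)
      have h4 : 1 ≤ ∑ q ∈ J, (4 - mq (e q)) := by
        obtain ⟨q, hqJ⟩ := Finset.nonempty_iff_ne_empty.2 hJ
        have h5 := Finset.single_le_sum (f := fun q => 4 - mq (e q)) (fun _ _ => Nat.zero_le _) hqJ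
        have h6 := mq_le (e q)
        omega
      exact v_pow_lt hB h4
  have h4 := h3.add hB h2
  rw [add_zero] at h4
  rw [h1]
  exact h4

/-- **the total identity of the family, modulo the maximal ideal** -/
theorem Rt_idYo (hB : (2 : ℂ)⁻¹ ∉ B) (hh : h = 1 ∨ h = 3) (h0 : aa q0.1 = 1)
    {C : Finset Pg} (hd : Disjoint T C) (he : ∀ q ∈ T, md (e q) ≠ 0) (hC : ∀ q ∈ C, e q = 2)
    (hq : q0 ∉ T ∪ C) :
    Rt B (idB lm 1 (LaYo k h q0 e) (eYo h) (xJs h q0 e) (nXB q0) 0 T C)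
      (if T ∪ C = ∅ then 1 else 0) := by
  rw [idYo_eq hh h0 1 0 hd hC hq, GX_wtB, mB_unionX hd he hC, add_zero, one_mul,
    mul_div_cancel_left₀ _ (pow_ne_zero _ lm_ne)]
  exact Rt_GX_YYo hB hh h0 hq (exp_ne he hC)

end

end

end Pool.Agent.Lib.MP_1a91b9_ntQ
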