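import Pool.Agent.Lib.MP_1a91b9_ntQ.B.DenTrB
import Pool.Agent.Lib.MP_1a91b9_ntQ.Q.Lim4

/-!
# MP_1a91b9_nt (quartic twists), part B: the exact density among all the fourth-power-free `D`
-/

set_option autoImplicit false

namespace Pool.Agent.Lib.MP_1a91b9_ntQ

open NumberField IsDedekindDomain Finset Filter Topology
open Pool.Agent.Lib.MP_1a91b9_ntH (PS nm Sx mem_Sx)

noncomputable section

/-- The densities of the complements of the good sets of primes (part D). -/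
def UpB : Prop := ∀ (k : ZMod 4) (j : Fin 4) (T B : Finset Pg), Disjoint T B →
  ∀ (g : GB 3 (T ∪ B)) (κ₀ : ℝ), κ₀ < 1 - Da.cinf2 →
    DSB 3 (T ∪ B) g κ₀ fun S => ¬ GdB k j S T B

/-- **The exact density in a residue class modulo a divisor of `16`**, among all the
fourth-power-free `D`, of a property which holds for `dB k j S T B` exactly if `GdB k j S T B`, up to
a finite set of `S` for all `k`, `j`, `T`, `B`. -/
theorem lim_B' (HD : DnB) (HU : UpB) {M u : 𝓞 K4} (hM : M ∣ 16)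
    (hu : ¬ ((4 : 𝓞 K4) ∣ M ∧ (4 : 𝓞 K4) ∣ u))
    (F : ZMod 4 → Fin 4 → Finset Pg → Finset Pg → Set (Finset Pg))
    (hF : ∀ k j T B, (F k j T B).Finite) (Pr : 𝓞 K4 → Prop)
    (hPr : ∀ (k : ZMod 4) (j : Fin 4) (S T B : Finset Pg), Dj S T B → S ∉ F k j T B →
      (Pr (dB k j S T B) ↔ GdB k j S T B)) :
    Tendsto (fun X : ℝ =>
      (Nat.card {x : 𝓞 K4 // FFr x ∧ M ∣ x - u ∧ |Algebra.norm ℤ x| ≤ X ∧ Pr x} : ℝ) /
        (Nat.card {x : 𝓞 K4 // FFr x ∧ M ∣ x - u ∧ |Algebra.norm ℤ x| ≤ X} : ℝ)) atTop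
      (𝓝 (∏' i : ℕ, (1 + 1 / (2 : ℝ) ^ (i + 1))⁻¹)) := by
  rw [cinf2_form]
  have hM8 : M ∣ lam ^ (3 + 5) := by
    have e : lam ^ (3 + 5) = (16 : 𝓞 K4) := sixteen_lam.symm
    rw [e]
    exact hM
  have hu' : ¬ ((lam : 𝓞 K4) ^ 4 ∣ M ∧ (lam : 𝓞 K4) ^ 4 ∣ u) := by
    rw [four_lam4, neg_dvd, neg_dvd] at hu
    exact hu
  have hDj : ∀ {S T B : Finset Pg}, Disjoint T B → Disjoint S (T ∪ B) → Dj S T B := by
    intro S T B h1 h2
    rw [disjoint_union_right] at h2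
    exact ⟨h2.1, h2.2, h1⟩
  have key := tendstoB_cls 3 (M := M) (u := u) hM8 hu' (fun k j S T B => Pr (dB k j S T B))
    Da.cinf2 cinf2_pos5
    (fun k j T B hTB g κ₀ hκ => ((HD k j T B hTB g κ₀ hκ).exc (hF k j T B)).mono
      fun S hS _ h => (hPr k j S T B (hDj hTB hS) h.2).2 h.1)
    (fun k j T B hTB g κ₀ hκ => ((HU k j T B hTB g κ₀ hκ).exc (hF k j T B)).mono
      fun S hS _ h h' => h.1 ((hPr k j S T B (hDj hTB hS) h.2).1 h'))
    Pr (fun k j S T B _ _ _ _ => Iff.rfl)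
  exact key

/-- The exact density, the property is known for `S` not empty. -/
theorem lim_B (HD : DnB) (HU : UpB) {M u : 𝓞 K4} (hM : M ∣ 16)
    (hu : ¬ ((4 : 𝓞 K4) ∣ M ∧ (4 : 𝓞 K4) ∣ u)) (Pr : 𝓞 K4 → Prop)
    (hPr : ∀ (k : ZMod 4) (j : Fin 4) (S T B : Finset Pg), Dj S T B → S.Nonempty →
      (Pr (dB k j S T B) ↔ GdB k j S T B)) :
    Tendsto (fun X : ℝ =>
      (Nat.card {x : 𝓞 K4 // FFr x ∧ M ∣ x - u ∧ |Algebra.norm ℤ x| ≤ X ∧ Pr x} : ℝ) /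
        (Nat.card {x : 𝓞 K4 // FFr x ∧ M ∣ x - u ∧ |Algebra.norm ℤ x| ≤ X} : ℝ)) atTop
      (𝓝 (∏' i : ℕ, (1 + 1 / (2 : ℝ) ^ (i + 1))⁻¹)) :=
  lim_B' HD HU hM hu (fun _ _ _ _ => {∅}) (fun _ _ _ _ => Set.finite_singleton _) Pr
    fun k j S T B hd hS => hPr k j S T B hd (nonempty_iff_ne_empty.2 hS)

end

end Pool.Agent.Lib.MP_1a91b9_ntQ
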