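import Pool.Agent.Lib.MP_1a91b9_ntQ.B.BsdB
import Pool.Agent.Lib.MP_1a91b9_ntQ.B.LimB
import Pool.Agent.Lib.MP_1a91b9_ntQ.B.GdDen

/-!
# MP_1a91b9_nt (quartic twists), part B, form T: the conjecture of Birch and Swinnerton-Dyer modulo `2`
for every fourth-power-free `D` of `ℤ[i]`, that is, for every elliptic curve over `ℚ(i)` with complex
multiplication by `ℤ[i]`, with the distribution of the normalised value

`main_BT`: the final statement, from the formula modulo `2` (`FoB`).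
-/

set_option autoImplicit false

namespace Pool.Agent.Lib.MP_1a91b9_ntQ

open NumberField IsDedekindDomain Finset Filter Topology
open Pool.Agent.Lib.MP_1a91b9_ntS (BSDMod)

noncomputable section

/-- **The limit in a residue class modulo a divisor of a power of `2`**, among all the
fourth-power-free `D`. -/
theorem limitB {n : ℕ} {M u : 𝓞 K4} (hM : M ∣ 2 ^ n)
    (hu : ¬ ((4 : 𝓞 K4) ∣ M ∧ (4 : 𝓞 K4) ∣ u)) (Pr : 𝓞 K4 → Prop)
    (hPr : ∀ (k : ZMod 4) (j : Fin 4) (S T B : Finset Pg), Dj S T B → S.Nonempty →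
      (Pr (dB k j S T B) ↔ GdB k j S T B)) :
    Tendsto (fun X : ℝ =>
      (Nat.card {x : 𝓞 K4 // FFr x ∧ M ∣ x - u ∧ |Algebra.norm ℤ x| ≤ X ∧ Pr x} : ℝ) /
        (Nat.card {x : 𝓞 K4 // FFr x ∧ M ∣ x - u ∧ |Algebra.norm ℤ x| ≤ X} : ℝ)) atTop
      (𝓝 (∏' i : ℕ, (1 + 1 / (2 : ℝ) ^ (i + 1))⁻¹)) := by
  rw [cinf2_form]
  have hM2 : M ∣ lam ^ (2 * (n + 2) + 5) := by
    have h1 : (2 : 𝓞 K4) ^ n ∣ lam ^ (2 * (n + 2) + 5) := by
      have e : (2 : 𝓞 K4) ^ n * (iO ^ n * lam ^ 9) = lam ^ (2 * (n + 2) + 5) := by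
        have e1 : (2 : 𝓞 K4) * iO = lam ^ 2 := lam_sq.symm
        rw [← mul_assoc, ← mul_pow, e1, ← pow_mul, ← pow_add]
        congr 1
      exact Dvd.intro _ e
    exact hM.trans h1
  have hu' : ¬ ((lam : 𝓞 K4) ^ 4 ∣ M ∧ (lam : 𝓞 K4) ^ 4 ∣ u) := by
    rw [four_lam4, neg_dvd, neg_dvd] at hu
    exact hu
  have hDj : ∀ {S T B : Finset Pg}, Disjoint T B → Disjoint S (T ∪ B) → Dj S T B := by
    intro S T B h1 h2
    rw [disjoint_union_right] at h2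
    exact ⟨h2.1, h2.2, h1⟩
  have hne : ∀ S : Finset Pg, S ∉ ({∅} : Set (Finset Pg)) → S.Nonempty :=
    fun S h => nonempty_iff_ne_empty.2 h
  have key := tendstoB_cls (2 * (n + 2)) (M := M) (u := u) hM2 hu'
    (fun k j S T B => Pr (dB k j S T B)) Da.cinf2 cinf2_pos5
    (fun k j T B hTB g κ hκ => ((gdB (m := 2 * (n + 2)) (by omega) k j T B hTB g hκ).exc
      (Set.finite_singleton ∅)).mono
      fun S hS _ h => (hPr k j S T B (hDj hTB hS) (hne S h.2)).2 h.1)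
    (fun k j T B hTB g κ hκ => ((gdB_not (m := 2 * (n + 2)) (by omega) k j T B hTB g hκ).exc
      (Set.finite_singleton ∅)).mono
      fun S hS _ h h' => h.1 ((hPr k j S T B (hDj hTB hS) (hne S h.2)).1 h'))
    Pr (fun k j S T B _ _ _ _ => Iff.rfl)
  exact key

/-- **Form T for all the elliptic curves over `ℚ(i)` with complex multiplication by `ℤ[i]`.** -/
theorem main_BT (hF : FoB) : ∃ q : 𝓞 (CyclotomicField 4 ℚ) → ℚ,
    (∀ D : 𝓞 (CyclotomicField 4 ℚ), (∀ z : 𝓞 (CyclotomicField 4 ℚ), z ^ 4 ∣ D → IsUnit z) →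
      ∀ W : WeierstrassCurve (CyclotomicField 4 ℚ),
      W = ⟨0, 0, 0, -(D : CyclotomicField 4 ℚ), 0⟩ → BSDMod 2 W (q D)) ∧
    ∀ (n : ℕ) (m u : 𝓞 (CyclotomicField 4 ℚ)), m ∣ 2 ^ n → ¬ (4 ∣ m ∧ 4 ∣ u) →
      Filter.Tendsto (fun X : ℝ =>
        (Nat.card {D : 𝓞 (CyclotomicField 4 ℚ) //
          (∀ z : 𝓞 (CyclotomicField 4 ℚ), z ^ 4 ∣ D → IsUnit z) ∧ m ∣ D - u ∧
          |Algebra.norm ℤ D| ≤ X ∧ ¬ 2 ∣ (q D).num} : ℝ) /
        (Nat.card {D : 𝓞 (CyclotomicField 4 ℚ) //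
          (∀ z : 𝓞 (CyclotomicField 4 ℚ), z ^ 4 ∣ D → IsUnit z) ∧ m ∣ D - u ∧
          |Algebra.norm ℤ D| ≤ X} : ℝ)) Filter.atTop
        (nhds (∏' i : ℕ, (1 + 1 / (2 : ℝ) ^ (i + 1))⁻¹)) := by
  obtain ⟨q, h1, h2⟩ := bsdB hF
  refine ⟨q, fun D hs W hW => ?_, fun n m u hm hu => ?_⟩
  · subst hW
    exact h1 D hs
  · exact limitB hm hu (fun D => ¬ (2 : ℤ) ∣ (q D).num) fun k j S T B hd hS =>
      h2 k j S T B hd fun hs => hS.ne_empty (union_eq_empty.1 hs.2.2).1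

end

end Pool.Agent.Lib.MP_1a91b9_ntQ
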