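import Pool.Agent.Lib.MP_1a91b9_ntQ.C.Q24X
import Pool.Agent.Lib.MP_1a91b9_ntQ.A.RatB
import Pool.Agent.Lib.MP_1a91b9_ntQ.A.SerB

/-!
# Quartic twists, all fourth-power-free `D`, file FormB: the formula modulo `2`, general form

`formB_of` : from the residue class of `z = LaB / (Om K lm ^ w)` to
`g(1) √4 / Ω = q T / 4`, `q` with odd denominator, odd exactly if the criterion is satisfied.
-/

set_option autoImplicit false
set_option linter.unusedSectionVars false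

namespace Pool.Agent.Lib.MP_1a91b9_ntQ

open NumberField IsDedekindDomain WithZero WeierstrassCurve Pool.Agent.Lib.MP_1a91b9_nuT
open Pool.Agent.Lib.MP_1a91b9_ntT.S9 (tam normFactor period minChange)
open scoped Classical

noncomputable section

theorem nz_DDe (e : Pg → ZMod 4) (S : Finset Pg) : Odd (Nz (DDe e S)) := by
  have h := (DDe_in4 e S).Nz_mod
  exact ⟨2 * (Nz (DDe e S) / 4), by omega⟩

theorem rhoB_val {B : ValuationSubring ℂ} (hB : (2 : ℂ)⁻¹ ∉ B) (e : Pg → ZMod 4) (S : Finset Pg) :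
    B.valuation ((rhoB e S : ℝ) : ℂ) = 1 := by
  have hN1 : (Nz (DDe e S) : ℝ) = ‖em (DDe e S)‖ ^ 2 := Nz_eq _
  have hN2 : (Nz (DDq S) : ℝ) = ‖em (DDq S)‖ ^ 2 := Nz_eq _
  refine C.part4_pow (n := 4) (by norm_num) ?_
  have h1 : rhoB e S ^ 4 = (Nz (DDe e S) : ℝ) / (Nz (DDq S) : ℝ) ^ 4 := by
    rw [hN1, hN2, rhoB, div_pow]
    congr 1
    rw [← Real.rpow_natCast, ← Real.rpow_mul (norm_nonneg _), ← Real.rpow_natCast]
    congr 1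
    norm_num
  rw [← Complex.ofReal_pow, h1, Complex.ofReal_div, Complex.ofReal_pow, Complex.ofReal_natCast,
    Complex.ofReal_natCast, map_div₀, map_pow, C.part4_odd hB (nz_DDe e S),
    C.part4_odd hB (C.nz_DDq S), one_pow, div_one]

/-- **The formula modulo `2`**, general form, `g(1) = c ‖LB‖²` and the period `m` times the standard
one. -/
theorem formB_gen {κ k : ZMod 4} {j : ℕ} {e : Pg → ZMod 4} {S : Finset Pg} {D : 𝓞 K4}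
    (hD : D = DqB κ j e S) {c : ℚ} {m : ℝ} (hm : m ≠ 0)
    (hcm : ∀ B : ValuationSubring ℂ, (2 : ℂ)⁻¹ ∉ B → B.valuation ((c / m : ℝ) : ℂ) = 1) {g1 : ℂ}
    (hg : g1 = (((c : ℝ) * ‖LB k j e S 1‖ ^ 2 : ℝ) : ℂ))
    (hper : period (WD4 D) = 2 * (m * (‖Om‖ ^ 2 / ‖em D‖ ^ (1 / 2 : ℝ)))) {N w : ℕ}
    (hN : fB k j = lam ^ N) {z K : ℂ} {v t : ℝ} (hK : ‖K‖ ^ 2 = 2 ^ v)
    (hz : LaB k j e S = z * (Om * (K * lm ^ w))) (ht : (w : ℝ) + v + (j : ℝ) / 4 = t + N)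
    {b : Prop} (hV : Vc z b) {T : ℕ} (hT : (T : ℝ) / 4 = 2 ^ t) :
    ∃ q : ℚ, ¬ 2 ∣ q.den ∧ (¬ (2 : ℤ) ∣ q.num ↔ b) ∧
      g1 * (√|(discr K4 : ℝ)| : ℝ) / (period (WD4 D) : ℝ) = (q * ((T : ℝ) / 4) : ℝ) := by
  have hD0 : D ≠ 0 := by
    rw [hD]
    exact DqB_ne
  have hO : ‖Om‖ ≠ 0 := norm_ne_zero_iff.2 Om_ne
  have hd : 0 < ‖em D‖ := norm_pos_iff.2 (em_ne hD0)
  have hdd : ‖em D‖ ^ (1 / 2 : ℝ) ≠ 0 := (Real.rpow_pos_of_pos hd _).ne'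
  have hT0 : T ≠ 0 := by
    rintro rfl
    have h1 : (0 : ℝ) < 2 ^ t := Real.rpow_pos_of_pos (by norm_num) _
    rw [← hT] at h1
    norm_num at h1
  have h1 := norm_LB (κ := κ) (S := S) (e := e) hN hK hz ht
  rw [← hD, ← hT] at h1
  refine C.form4_gen hT0 (C.prod_perAt_ne hD0) (x := c / m * ‖z‖ ^ 2 * rhoB e S) ?_ ?_
    (fun hb B hB => ?_) fun hb B hB => ?_
  · rw [hg, C.sqrt_discr_K4, hper, ← Complex.ofReal_mul, ← Complex.ofReal_div]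
    congr 1
    have h2 : (c : ℝ) * ‖LB k j e S 1‖ ^ 2 * 2 / (2 * (m * (‖Om‖ ^ 2 / ‖em D‖ ^ (1 / 2 : ℝ)))) =
        c / m * (‖LB k j e S 1‖ ^ 2 * ‖em D‖ ^ (1 / 2 : ℝ)) / ‖Om‖ ^ 2 := by
      field_simp
    rw [h2, h1]
    field_simp
  · obtain ⟨q, hq⟩ := cratB κ k j e S
    rw [← hD] at hq
    refine ⟨c * q, ?_⟩
    rw [hg, C.sqrt_discr_K4, C.prod_perAt4 hD0, ← Complex.ofReal_ratCast, ← Complex.ofReal_mul,
      ← Complex.ofReal_mul]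
    congr 1
    have h3 : ‖LB k j e S 1‖ ^ 2 = q * ‖Om‖ ^ 2 / ‖em D‖ ^ (1 / 2 : ℝ) := by
      rw [eq_div_iff hdd, hq]
    rw [h3]
    push_cast
    ring
  · rw [Complex.ofReal_mul, Complex.ofReal_mul, map_mul, map_mul, hcm B hB,
      C.part4_normsq hB (hV.1 hb), rhoB_val hB, one_mul, one_mul]
  · rw [Complex.ofReal_mul, Complex.ofReal_mul, map_mul, map_mul, hcm B hB, rhoB_val hB, one_mul,
      mul_one]
    exact C.part4_normsq_lt hB (hV.2 hb)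

/-- **The formula modulo `2`**, for the standard period. -/
theorem formB_of {κ k : ZMod 4} {j : ℕ} {e : Pg → ZMod 4} {S : Finset Pg} {D : 𝓞 K4}
    (hD : D = DqB κ j e S) {g1 : ℂ} (hg : g1 = LB k j e S 1 * (starRingEnd ℂ) (LB k j e S 1))
    (hper : period (WD4 D) = 2 * (‖Om‖ ^ 2 / ‖em D‖ ^ (1 / 2 : ℝ))) {N w : ℕ}
    (hN : fB k j = lam ^ N) {z K : ℂ} {v t : ℝ} (hK : ‖K‖ ^ 2 = 2 ^ v)
    (hz : LaB k j e S = z * (Om * (K * lm ^ w))) (ht : (w : ℝ) + v + (j : ℝ) / 4 = t + N)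
    {b : Prop} (hV : Vc z b) {T : ℕ} (hT : (T : ℝ) / 4 = 2 ^ t) :
    ∃ q : ℚ, ¬ 2 ∣ q.den ∧ (¬ (2 : ℤ) ∣ q.num ↔ b) ∧
      g1 * (√|(discr K4 : ℝ)| : ℝ) / (period (WD4 D) : ℝ) = (q * ((T : ℝ) / 4) : ℝ) :=
  formB_gen (c := 1) hD one_ne_zero (fun B _ => by norm_num) (C.part4_g hg) (C.q4_std hper) hN hK
    hz ht hV hT

/-- **The formula modulo `2`**, good reduction above `2` : `D = -∏ q ^ e`, `n (∏ q ^ e) = 1`. -/
theorem formB_good {k : ZMod 4} (hk : k = 0) {e : Pg → ZMod 4} {S : Finset Pg}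
    (h1 : nn (DDe e S) = 1) {D : 𝓞 K4} (hD : D = DqB 2 0 e S) {g1 : ℂ}
    (hg : g1 = LU (chP e S) 1 * (starRingEnd ℂ) (LU (chP e S) 1))
    (hper : period (WD4 D) = 2 * (2 * (‖Om‖ ^ 2 / ‖em D‖ ^ (1 / 2 : ℝ)))) {N w : ℕ}
    (hN : fB k 0 = lam ^ N) {z K : ℂ} {v t : ℝ} (hK : ‖K‖ ^ 2 = 2 ^ v)
    (hz : LaB k 0 e S = z * (Om * (K * lm ^ w))) (ht : (w : ℝ) + v + ((0 : ℕ) : ℝ) / 4 = t + N)
    {b : Prop} (hV : Vc z b) {T : ℕ} (hT : (T : ℝ) / 4 = 2 ^ t) :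
    ∃ q : ℚ, ¬ 2 ∣ q.den ∧ (¬ (2 : ℤ) ∣ q.num ↔ b) ∧
      g1 * (√|(discr K4 : ℝ)| : ℝ) / (period (WD4 D) : ℝ) = (q * ((T : ℝ) / 4) : ℝ) := by
  subst hk
  have hLU := LU_LB h1
  have hkB : kB 2 e S = 0 := by
    rw [kB_eq, h1]
    decide
  rw [hkB] at hLU
  have hlam : chP e S lam = e4 (∑ q ∈ S, e q * c4 q lam) := by
    rw [chP, e4_sum]
    exact Finset.prod_congr rfl fun q _ => chE_of_not e (lam_not_dvd q)
  rw [hlam] at hLU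
  obtain ⟨c, hc2, hc1⟩ := C.q4_euler (∑ q ∈ S, e q * c4 q lam)
  have hgc : g1 = (((c : ℝ) * ‖LB 0 0 e S 1‖ ^ 2 : ℝ) : ℂ) := by
    have hL : ‖LB 0 0 e S 1‖ = ‖LU (chP e S) 1‖ *
        ‖1 - (starRingEnd ℂ) (em lam) * e4 (∑ q ∈ S, e q * c4 q lam) / 2‖ := by
      rw [← norm_mul, hLU]
    rw [hg, Complex.mul_conj, Complex.normSq_eq_norm_sq, hL, mul_pow]
    congr 1
    linear_combination -(‖LU (chP e S) 1‖ ^ 2) * hc1
  refine formB_gen (c := c) hD two_ne_zero (fun B hB => ?_) hgc hper hN hK hz ht hV hT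
  rcases hc2 with rfl | rfl
  · norm_num
  · have e : (((2 / 5 : ℚ) : ℝ) / 2 : ℝ) = ((5 : ℕ) : ℝ)⁻¹ := by
      push_cast
      norm_num
    rw [e, Complex.ofReal_inv, Complex.ofReal_natCast, map_inv₀,
      C.part4_odd hB (n := 5) (by decide), inv_one]

end

end Pool.Agent.Lib.MP_1a91b9_ntQ
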