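import Pool.Agent.Lib.MP_1a91b9_ntQ.A.SerB
import Pool.Agent.Lib.MP_1a91b9_ntQ.B.CritB

/-!
# MP_1a91b9_nt (quartic twists), part B: the element with the exponents, the invariants of `c`
-/

set_option autoImplicit false

namespace Pool.Agent.Lib.MP_1a91b9_ntQ

open NumberField IsDedekindDomain Finset

noncomputable section

/-- The exponents: `3` on `T`, `2` on `B`, `1` elsewhere. -/
def eB (T B : Finset Pg) (q : Pg) : ZMod 4 := if q ∈ T then 3 else if q ∈ B then 2 else 1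

theorem expB_eB (T B : Finset Pg) : ExpB (eB T B) := by
  intro q
  unfold eB
  split_ifs
  · decide
  · decide
  · decide

theorem eB_T {T B : Finset Pg} {q : Pg} (h : q ∈ T) : eB T B q = 3 := if_pos h

theorem eB_B {T B : Finset Pg} {q : Pg} (hT : q ∉ T) (h : q ∈ B) : eB T B q = 2 := by
  unfold eB
  rw [if_neg hT, if_pos h]

theorem eB_S {T B : Finset Pg} {q : Pg} (hT : q ∉ T) (h : q ∉ B) : eB T B q = 1 := by
  unfold eB
  rw [if_neg hT, if_neg h]

namespace Dj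

variable {S T B : Finset Pg} (h : Dj S T B)
include h

theorem ub : Disjoint (S ∪ T) B := disjoint_union_left.2 ⟨h.sb, h.tb⟩

theorem eS {q : Pg} (hq : q ∈ S) : eB T B q = 1 :=
  eB_S (fun hT => disjoint_left.1 h.st hq hT) (fun hB => disjoint_left.1 h.sb hq hB)

theorem eb {q : Pg} (hq : q ∈ B) : eB T B q = 2 :=
  eB_B (fun hT => disjoint_left.1 h.tb hT hq) hq

/-- the exponents are odd on `S ∪ T` -/
theorem eodd {q : Pg} (hq : q ∈ S ∪ T) : md (eB T B q) = 1 := by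
  rcases mem_union.1 hq with h1 | h1
  · rw [h.eS h1]
    decide
  · rw [eB_T h1]
    decide

/-- a sum with the exponents -/
theorem sumE (f : Pg → ZMod 4) : ∑ q ∈ S ∪ T ∪ B, eB T B q * f q =
    ∑ q ∈ S, f q + 3 * ∑ q ∈ T, f q + 2 * ∑ q ∈ B, f q := by
  rw [sum_union h.ub, sum_union h.st]
  have h1 : ∑ q ∈ S, eB T B q * f q = ∑ q ∈ S, f q :=
    sum_congr rfl fun q hq => by rw [h.eS hq, one_mul]
  have h2 : ∑ q ∈ T, eB T B q * f q = 3 * ∑ q ∈ T, f q := by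
    rw [mul_sum]
    exact sum_congr rfl fun q hq => by rw [eB_T hq]
  have h3 : ∑ q ∈ B, eB T B q * f q = 2 * ∑ q ∈ B, f q := by
    rw [mul_sum]
    exact sum_congr rfl fun q hq => by rw [h.eb hq]
  rw [h1, h2, h3]

/-- **The primary factor with the exponents.** -/
theorem DDe_eq : DDe (eB T B) (S ∪ T ∪ B) = cB S T B := by
  unfold DDe cB
  rw [prod_union h.ub, prod_union h.st]
  have h1 : ∏ q ∈ S, q.1 ^ (eB T B q).val = DDq S :=
    prod_congr rfl fun q hq => by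
      rw [h.eS hq]
      exact pow_one _
  have h2 : ∏ q ∈ T, q.1 ^ (eB T B q).val = DDq T ^ 3 := by
    unfold DDq
    rw [← prod_pow]
    exact prod_congr rfl fun q hq => by
      rw [eB_T hq]
      rfl
  have h3 : ∏ q ∈ B, q.1 ^ (eB T B q).val = DDq B ^ 2 := by
    unfold DDq
    rw [← prod_pow]
    exact prod_congr rfl fun q hq => by
      rw [h.eb hq]
      rfl
  rw [h1, h2, h3]

theorem dB_eq (k : ZMod 4) (j : Fin 4) : dB k j S T B = DqB k j.val (eB T B) (S ∪ T ∪ B) := by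
  unfold dB DqB
  rw [h.DDe_eq]

theorem kB_eq (k : ZMod 4) : kB k (eB T B) (S ∪ T ∪ B) = k + 2 * nn (cB S T B) := by
  rw [Pool.Agent.Lib.MP_1a91b9_ntQ.kB_eq, h.DDe_eq]

theorem nn_cB : nn (cB S T B) = ∑ q ∈ S, nn q.1 + 3 * ∑ q ∈ T, nn q.1 + 2 * ∑ q ∈ B, nn q.1 := by
  rw [← h.DDe_eq, nn_DDe, h.sumE]

end Dj

theorem cB_in4 (S T B : Finset Pg) : In4 (cB S T B) :=
  ((DDq_in4 S).mul ((DDq_in4 T).pow' 3)).mul ((DDq_in4 B).pow' 2)

theorem aa_pow' {x : 𝓞 K4} (hx : In4 x) (n : ℕ) : aa (x ^ n) = n * aa x := by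
  induction n with
  | zero => rw [pow_zero, aa_one, Nat.cast_zero, zero_mul]
  | succ n ih =>
    rw [pow_succ, aa_mul (hx.pow' n) hx, ih]
    push_cast
    ring

theorem bb_pow' {x : 𝓞 K4} (hx : In4 x) (n : ℕ) : bb (x ^ n) = n * bb x := by
  induction n with
  | zero => rw [pow_zero, bb_one, Nat.cast_zero, zero_mul]
  | succ n ih =>
    rw [pow_succ, bb_mul (hx.pow' n) hx, ih]
    push_cast
    ring

/-- `A` of the page -/
theorem aa_cB {S T : Finset Pg} (h : Disjoint S T) (B : Finset Pg) :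
    aa (cB S T B) = ∑ q ∈ S ∪ T, aa q.1 := by
  have h2 : ((2 : ℕ) : ZMod 2) = 0 := by decide
  have h3 : ((3 : ℕ) : ZMod 2) = 1 := by decide
  unfold cB
  rw [aa_mul ((DDq_in4 S).mul ((DDq_in4 T).pow' 3)) ((DDq_in4 B).pow' 2),
    aa_mul (DDq_in4 S) ((DDq_in4 T).pow' 3), aa_pow' (DDq_in4 T), aa_pow' (DDq_in4 B), h2, h3,
    zero_mul, add_zero, one_mul, aa_DDq, aa_DDq, sum_union h]

/-- `L` of the page -/
theorem bb_cB {S T : Finset Pg} (h : Disjoint S T) (B : Finset Pg) :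
    bb (cB S T B) = ∑ q ∈ S ∪ T, bb q.1 := by
  have h2 : ((2 : ℕ) : ZMod 2) = 0 := by decide
  have h3 : ((3 : ℕ) : ZMod 2) = 1 := by decide
  unfold cB
  rw [bb_mul ((DDq_in4 S).mul ((DDq_in4 T).pow' 3)) ((DDq_in4 B).pow' 2),
    bb_mul (DDq_in4 S) ((DDq_in4 T).pow' 3), bb_pow' (DDq_in4 T), bb_pow' (DDq_in4 B), h2, h3,
    zero_mul, add_zero, one_mul, bb_DDq, bb_DDq, sum_union h]

/-- the exponent of `(lam / c)_4` is the function of the page -/
theorem llB_eq {x : 𝓞 K4} (hx : In4 x) : llB x = ll x := by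
  obtain ⟨m, n, rfl⟩ := in4_form hx
  rw [ll_form]
  unfold llB mmB nnB
  rw [cp_form]
  have e1 : (2 * m - 2 * n - (1 - 2 * m - 2 * n) + 1) / 4 = m := by omega
  have e2 : -((1 - 2 * m - 2 * n + (2 * m - 2 * n) - 1) / 4) = n := by omega
  dsimp only
  rw [e1, e2]

theorem mmB_form (m n : ℤ) : mmB (1 + lam ^ 3 * ((m : 𝓞 K4) + (n : 𝓞 K4) * iO)) = (m : ZMod 4) := by
  unfold mmB
  rw [cp_form]
  have e1 : (2 * m - 2 * n - (1 - 2 * m - 2 * n) + 1) / 4 = m := by omega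
  dsimp only
  rw [e1]

theorem nnB_form (m n : ℤ) : nnB (1 + lam ^ 3 * ((m : 𝓞 K4) + (n : 𝓞 K4) * iO)) = (n : ZMod 4) := by
  unfold nnB
  rw [cp_form]
  have e2 : -((1 - 2 * m - 2 * n + (2 * m - 2 * n) - 1) / 4) = n := by omega
  dsimp only
  rw [e2]

end

end Pool.Agent.Lib.MP_1a91b9_ntQ
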