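import Pool.Agent.Lib.MP_1a91b9_ntQ.B.FormB
import Pool.Agent.Lib.MP_1a91b9_ntQ.B.GlueB
import Pool.Agent.Lib.MP_1a91b9_ntQ.Q.Form4

/-!
# MP_1a91b9_nt (quartic twists), all fourth-power-free `D`, file FormC: the formula modulo `2` for one
class

`form_cls` : the formula modulo `2` for `D = dB k j S T B` from the residue class of the value divided
by `Kc lm ^ (#(S ∪ T) + #U + 2 #V + h)`, the period and the product of the Tamagawa numbers.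
-/

set_option autoImplicit false

namespace Pool.Agent.Lib.MP_1a91b9_ntQ

open NumberField IsDedekindDomain Finset Pool.Agent.Lib.MP_1a91b9_nuT
open Pool.Agent.Lib.MP_1a91b9_ntT.S9 (tam period)

noncomputable section

/-- The exponent `#(S ∪ T) + #U + 2 #V`. -/
def wB0 (k : ZMod 4) (j : Fin 4) (S T B : Finset Pg) : ℕ :=
  (S ∪ T).card + (B \ VB k j S T B).card + 2 * (VB k j S T B).card

/-- The period is the standard one, the product of the Tamagawa numbers is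
`2 ^ b 2 ^ #(S ∪ T) 2 ^ #U 4 ^ #V`. -/
structure TmB (k : ZMod 4) (j : Fin 4) (S T B : Finset Pg) (b : ℕ) : Prop where
  per : period (WD4 (dB k j S T B)) = 2 * (‖Om‖ ^ 2 / ‖em (dB k j S T B)‖ ^ (1 / 2 : ℝ))
  prod : ∏ᶠ v : HeightOneSpectrum (𝓞 K4), tam (WD4 (dB k j S T B)) v =
    2 ^ (wB0 k j S T B + b)

/-- The same for good reduction above `2`. -/
structure TmB' (S T B : Finset Pg) : Prop where
  per : period (WD4 (dB 2 0 S T B)) = 2 * (2 * (‖Om‖ ^ 2 / ‖em (dB 2 0 S T B)‖ ^ (1 / 2 : ℝ)))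
  prod : ∏ᶠ v : HeightOneSpectrum (𝓞 K4), tam (WD4 (dB 2 0 S T B)) v = 2 ^ wB0 2 0 S T B

theorem two_pow_div4 (w b : ℕ) : ((2 ^ (w + b) : ℕ) : ℝ) / 4 = (2 : ℝ) ^ ((w : ℝ) + b - 2) := by
  rw [Real.rpow_sub (by norm_num), Real.rpow_add (by norm_num), Real.rpow_natCast,
    Real.rpow_natCast]
  push_cast
  rw [pow_add]
  norm_num

variable {k : ZMod 4} {j : Fin 4} {S T B : Finset Pg}

/-- **The formula modulo `2` for one class**, from the valuation class of the value. -/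
theorem form_clsV (h : Dj S T B) (hne : ¬ (j = 0 ∧ k = 2 ∧ nn (cB S T B) = 1)) {b : ℕ}
    (hT : TmB k j S T B b) {κ : ZMod 4} (hκ : kB k (eB T B) (S ∪ T ∪ B) = κ) {N d : ℕ}
    (hN : fB κ j.val = lam ^ N) {Kc : ℂ} {v : ℝ}
    (hK : ‖Kc‖ ^ 2 = 2 ^ v * ‖Om‖ ^ 2) (hnum : (d : ℝ) + v + (j.val : ℝ) / 4 = b - 2 + N)
    {c : Prop} (hV : Vc (LaB κ j.val (eB T B) (S ∪ T ∪ B) / (Kc * lm ^ (wB0 k j S T B + d))) c) :
    FormQ (dB k j S T B) c := by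
  have hj : j.val ≤ 3 := by omega
  have hO : ‖Om‖ ≠ 0 := norm_ne_zero_iff.2 Om_ne
  have hne' : ¬ (j.val = 0 ∧ k = 2 ∧ nn (DDe (eB T B) (S ∪ T ∪ B)) = 1) := by
    rw [h.DDe_eq]
    rintro ⟨h1, h2⟩
    exact hne ⟨Fin.ext h1, h2⟩
  obtain ⟨g, h1, h2, h3⟩ := serB hj (expB_eB T B) hne'
  rw [hκ] at h3
  have hD := h.dB_eq k j
  rw [← hD] at h2
  refine ⟨g, h1, h2, ?_⟩
  have hKc : Kc ≠ 0 := by
    rintro rfl
    rw [norm_zero, zero_pow two_ne_zero] at hK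
    have h4 : (0 : ℝ) < 2 ^ v * ‖Om‖ ^ 2 := by positivity
    exact h4.ne hK
  refine formB_of (T := ∏ᶠ v : HeightOneSpectrum (𝓞 K4), tam (WD4 (dB k j S T B)) v)
    (z := LaB κ j.val (eB T B) (S ∪ T ∪ B) / (Kc * lm ^ (wB0 k j S T B + d))) (K := Kc / Om)
    (w := wB0 k j S T B + d) (v := v) (t := (wB0 k j S T B : ℝ) + b - 2) hD h3 hT.per hN ?_ ?_ ?_
    hV ?_
  · rw [norm_div, div_pow, hK]
    field_simp
  · have hl := pow_ne_zero (wB0 k j S T B + d) lm_ne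
    have hO' := Om_ne
    field_simp
  · push_cast
    linear_combination hnum
  · rw [hT.prod]
    exact two_pow_div4 _ _

/-- the same for good reduction above `2` -/
theorem form_clsV' (h : Dj S T B) (hnn : nn (cB S T B) = 1)
    (hT : TmB' S T B) {N d : ℕ}
    (hN : fB 0 0 = lam ^ N) {Kc : ℂ} {v : ℝ}
    (hK : ‖Kc‖ ^ 2 = 2 ^ v * ‖Om‖ ^ 2) (hnum : (d : ℝ) + v = (N : ℝ) - 2)
    {c : Prop} (hV : Vc (LaB 0 0 (eB T B) (S ∪ T ∪ B) / (Kc * lm ^ (wB0 2 0 S T B + d))) c) :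
    FormQ (dB 2 0 S T B) c := by
  have hO : ‖Om‖ ≠ 0 := norm_ne_zero_iff.2 Om_ne
  have hnn' : nn (DDe (eB T B) (S ∪ T ∪ B)) = 1 := by rw [h.DDe_eq, hnn]
  obtain ⟨g, h1, h2, h3⟩ := serB_good (expB_eB T B) hnn'
  have hD : dB 2 0 S T B = DqB 2 0 (eB T B) (S ∪ T ∪ B) := h.dB_eq 2 0
  rw [← hD] at h2
  refine ⟨g, h1, h2, ?_⟩
  have hKc : Kc ≠ 0 := by
    rintro rfl
    rw [norm_zero, zero_pow two_ne_zero] at hK
    have h4 : (0 : ℝ) < 2 ^ v * ‖Om‖ ^ 2 := by positivity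
    exact h4.ne hK
  refine formB_good (T := ∏ᶠ v : HeightOneSpectrum (𝓞 K4), tam (WD4 (dB 2 0 S T B)) v)
    (z := LaB 0 0 (eB T B) (S ∪ T ∪ B) / (Kc * lm ^ (wB0 2 0 S T B + d))) (K := Kc / Om)
    (w := wB0 2 0 S T B + d) (v := v) (t := (wB0 2 0 S T B : ℝ) + (0 : ℕ) - 2) rfl hnn' hD h3 hT.per
    hN ?_ ?_ ?_ hV ?_
  · rw [norm_div, div_pow, hK]
    field_simp
  · have hl := pow_ne_zero (wB0 2 0 S T B + d) lm_ne
    have hO' := Om_ne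
    field_simp
  · push_cast
    linear_combination hnum
  · rw [hT.prod]
    exact two_pow_div4 _ 0

/-- a class of valuations from a residue class -/
theorem Vc_Rt {z : ℂ} {y : ZMod 2} (h : ∀ A : ValuationSubring ℂ, (2 : ℂ)⁻¹ ∉ A → Rt A z y) :
    Vc z (y ≠ 0) := Vc_of fun A hA => ⟨z, rfl, h A hA⟩

theorem Vc.congr {z : ℂ} {b c : Prop} (h : Vc z b) (hbc : b ↔ c) : Vc z c := by
  rwa [← propext hbc]

/-- **The formula modulo `2` for one class**, from the residue class of the value. -/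
theorem form_cls (h : Dj S T B) (hne : ¬ (j = 0 ∧ k = 2 ∧ nn (cB S T B) = 1)) {b : ℕ}
    (hT : TmB k j S T B b) {κ : ZMod 4} (hκ : kB k (eB T B) (S ∪ T ∪ B) = κ) {N d : ℕ}
    (hN : fB κ j.val = lam ^ N) {Kc : ℂ} {v : ℝ}
    (hK : ‖Kc‖ ^ 2 = 2 ^ v * ‖Om‖ ^ 2) (hnum : (d : ℝ) + v + (j.val : ℝ) / 4 = b - 2 + N)
    {y : ZMod 2} {c : Prop} (hy : y ≠ 0 ↔ c)
    (hV : ∀ A : ValuationSubring ℂ, (2 : ℂ)⁻¹ ∉ A →
      Rt A (LaB κ j.val (eB T B) (S ∪ T ∪ B) / (Kc * lm ^ (wB0 k j S T B + d))) y) :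
    FormQ (dB k j S T B) c :=
  form_clsV h hne hT hκ hN hK hnum ((Vc_Rt hV).congr hy)

end

end Pool.Agent.Lib.MP_1a91b9_ntQ
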