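import Pool.Agent.Lib.MP_1a91b9_ntQ.A.RhsE
import Pool.Agent.Lib.MP_1a91b9_ntQ.B.AvgB
import Pool.Agent.Lib.MP_1a91b9_ntQ.B.WtB
import Pool.Agent.Lib.MP_1a91b9_ntQ.B.BaJ3

/-!
# Quartic twists, all fourth-power-free `D`, file RhsJ3: the class `lam ^ 3 ∥ D`, the right side

The right side of the averaging identity is zero to the first order, the value for the empty set is
`Om * (lm ^ 5 * wq)` times a unit congruent to one.
-/

set_option autoImplicit false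

namespace Pool.Agent.Lib.MP_1a91b9_ntQ

open NumberField Pool.Agent.Lib.MP_1a91b9_nuT Pool.Agent.Lib.MP_1a91b9_nuT.S3
  Pool.Agent.Lib.MP_1a91b9_nuT.Ell

noncomputable section

theorem J3_md (k : ZMod 4) : md (2 - k) = 0 ↔ md k = 0 := by
  revert k
  decide

theorem J3_k0 (k : ZMod 4) : md k = 0 → 2 - k - 1 = k + 1 := by
  revert k
  decide

theorem J3_k1 (k : ZMod 4) : ¬ md k = 0 → 2 - k - 2 = k - 2 := by
  revert k
  decide

/-- **The sum of `E1`.** -/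
theorem UB_J3 (k : ZMod 4) (z : ℂ) :
    UB k 3 z = -(Om * tJ3 k) * V4 (sJ3 k) (tJ3 k * z) := by
  have e1 : tE (2 - k) = tE k := by
    unfold tE
    by_cases h : md k = 0
    · rw [if_pos h, if_pos ((J3_md k).2 h)]
    · rw [if_neg h, if_neg fun h1 => h ((J3_md k).1 h1)]
  have e2 : sE (2 - k) = sJ3 k := by
    unfold sE sJ3
    by_cases h : md k = 0
    · rw [if_pos h, if_pos ((J3_md k).2 h), J3_k0 k h]
    · rw [if_neg h, if_neg fun h1 => h ((J3_md k).1 h1), J3_k1 k h]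
  have e3 : tE k * -z = tJ3 k * z := by
    rw [tJ3_eq]
    ring
  rw [UB_three, UB_one, e1, e2, e3, tJ3_eq]
  ring

theorem J3_fB (k : ZMod 4) : fB k 3 = lam ^ 7 := fB_odd k (by norm_num) (by norm_num)

theorem J3_fB_inv (k : ZMod 4) : (em (fB k 3))⁻¹ = pe ^ 7 := by
  rw [J3_fB, em_pow, em_lam, pe, inv_pow]

/-- the normalising constant -/
def KJ3 : ℂ := Om * (lm ^ 5 * wq)

theorem KJ3_ne : KJ3 ≠ 0 := mul_ne_zero Om_ne_zero (mul_ne_zero (pow_ne_zero 5 lm_ne) wq_ne)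

theorem KJ3_eq : KJ3 = Om * wq ^ 21 := by
  have h := wq_pow
  rw [KJ3, ← h]
  ring

variable {B : ValuationSubring ℂ}

/-- **The value for the empty set.** -/
theorem Rt_LaB_J3 (hB : (2 : ℂ)⁻¹ ∉ B) (k : ZMod 4) (e : Pg → ZMod 4) :
    Rt B (LaB k 3 e ∅ / KJ3) 1 := by
  have hO := Om_ne_zero
  rw [LaB_empty, J3_fB_inv, UB_J3, KJ3]
  have e : -(Om * tJ3 k) * V4 (sJ3 k) (tJ3 k * pe ^ 7) / (Om * (lm ^ 5 * wq)) =
      -(tJ3 k * V4 (sJ3 k) (tJ3 k * pe ^ 7)) / (lm ^ 5 * wq) := by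
    have e1 : -(Om * tJ3 k) * V4 (sJ3 k) (tJ3 k * pe ^ 7) =
        Om * -(tJ3 k * V4 (sJ3 k) (tJ3 k * pe ^ 7)) := by ring
    rw [e1, mul_div_mul_left _ _ hO]
  rw [e]
  exact Rt_VJ3_base hB k

/-- **The right side.** -/
theorem rhsJ3 (hB : (2 : ℂ)⁻¹ ∉ B) (k : ZMod 4) {e : Pg → ZMod 4} {S : Finset Pg}
    (he : ∀ q ∈ S, e q ≠ 0) (hS : S.Nonempty) :
    Rt B ((∑ T ∈ S.powerset, (-1) ^ T.card * (LaB k 3 e T *
      ∏ q ∈ S \ T, (em q.1 - XB k 3 e T q.1))) / (KJ3 * lm ^ mB e S)) 0 := by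
  classical
  obtain ⟨ι, hι, y, sg, hy, h1, h2, hsg, hod, -⟩ := exists_repsB hS
  rw [avgB k 3 e S hy]
  obtain ⟨P, hP⟩ := RhsE_half h1 h2
  have hD0 : em (DDq S) ≠ 0 := em_ne (DDq_in4 S).ne_zero
  have hl0 := lm_ne
  have hw0 := wq_ne
  have hO := Om_ne_zero
  have vlm := v_lm_lt hB
  have ndy : ∀ i, ∀ q ∈ S, ¬ q.1 ∣ fB k 3 * y i := by
    intro i q hq h
    have hc : IsCoprime (fB k 3 * y i) (DDq S) := (cop_fB_DDq k 3 S).mul_left (hy.cop i)
    exact q.prime.not_isUnit (hc.isUnit_of_dvd' h (dvd_DDq.2 hq))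
  -- the values
  obtain ⟨V, hV⟩ : ∃ V : ι → ℂ, V = fun i =>
    V4 (sJ3 k) (tJ3 k * (pe ^ 7 + em (y i) / em (DDq S))) := ⟨_, rfl⟩
  have hV1 : ∀ i, ∃ u, V i = wq ^ 19 * u ∧ B.valuation u ≤ 1 := fun i => by
    obtain ⟨u, hu, cu⟩ := v_VJ3 hB k (hod i)
    exact ⟨u, by rw [hV]; exact hu, cu.le⟩
  have hV2 : ∀ i, ∃ u, V i + V (sg i) = wq ^ 21 * u ∧ B.valuation u < 1 := by
    intro i
    obtain ⟨t, ht⟩ := hsg i
    have e1 : V (sg i) = V4 (sJ3 k) (tJ3 k * (pe ^ 7 - em (y i) / em (DDq S))) := by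
      have e2 : em (y (sg i)) / em (DDq S) = -(em (y i) / em (DDq S)) + em t := by
        have h3 := congrArg em ht
        rw [em_add, em_mul] at h3
        field_simp
        linear_combination h3
      rw [hV]
      change V4 (sJ3 k) (tJ3 k * (pe ^ 7 + em (y (sg i)) / em (DDq S))) = _
      rw [e2]
      have e3 : tJ3 k * (pe ^ 7 + (-(em (y i) / em (DDq S)) + em t)) =
          tJ3 k * (pe ^ 7 - em (y i) / em (DDq S)) + tJ3 k * em t := by ring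
      rw [e3, V4_add]
      unfold tJ3
      split
      · exact zt_mul_mem (em_mem t)
      · rw [neg_one_mul]
        exact neg_mem (em_mem t)
    obtain ⟨u, hu, vu⟩ := v_VJ3_pair hB k (hod i)
    refine ⟨u, ?_, vu⟩
    rw [e1, hV]
    exact hu
  choose u hu vu using hV1
  choose p hp vp using hV2
  -- the weights
  have hW : ∀ i, B.valuation (wtB e S (fB k 3 * y i)) ≤ 1 := fun i => v_wtB hB he (ndy i)
  have hW2 : ∀ i, B.valuation ((wtB e S (fB k 3 * y (sg i)) - wtB e S (fB k 3 * y i)) / lm) ≤ 1 := by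
    intro i
    rw [map_div₀]
    refine div_le_one_of_le₀ (v_wtB_sub hB he (ndy i) ?_) zero_le
    rw [← mul_add]
    exact (hsg i).mul_left _
  -- the sum
  have hsum : ∑ i, wB e S (fB k 3 * y i) * V4 (sJ3 k) (tJ3 k * (pe ^ 7 + em (y i) / em (DDq S))) =
      lm ^ mB e S * wq ^ 21 * ∑ i : {i // P i}, (wtB e S (fB k 3 * y i) * p i +
        wq ^ 2 * (((wtB e S (fB k 3 * y (sg i)) - wtB e S (fB k 3 * y i)) / lm) * u (sg i))) := by
    have e0 : ∑ i, wB e S (fB k 3 * y i) * V4 (sJ3 k) (tJ3 k * (pe ^ 7 + em (y i) / em (DDq S))) =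
        ∑ i, lm ^ mB e S * (wtB e S (fB k 3 * y i) * V i) := by
      refine Finset.sum_congr rfl fun i _ => ?_
      rw [wtB, hV]
      have := pow_ne_zero (mB e S) hl0
      field_simp
    rw [e0, RhsE_sum h1 hP, Finset.mul_sum]
    refine Finset.sum_congr rfl fun i _ => ?_
    have h3 := hp i
    have h4 := hu (sg i)
    have h5 : V i = wq ^ 21 * p i - wq ^ 19 * u (sg i) := by rw [← h3, ← h4]; ring
    have h6 : (lm : ℂ) = wq ^ 4 := wq_pow.symm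
    have h7 : wq ^ 2 * (((wtB e S (fB k 3 * y (sg i)) - wtB e S (fB k 3 * y i)) / lm) * u (sg i)) *
        wq ^ 21 = (wtB e S (fB k 3 * y (sg i)) - wtB e S (fB k 3 * y i)) * (wq ^ 19 * u (sg i)) := by
      rw [h6]
      have := pow_ne_zero 4 hw0
      field_simp
    rw [h5, h4]
    linear_combination (-(lm ^ mB e S)) * h7
  have hsum2 : B.valuation (∑ i : {i // P i}, (wtB e S (fB k 3 * y i) * p i +
        wq ^ 2 * (((wtB e S (fB k 3 * y (sg i)) - wtB e S (fB k 3 * y i)) / lm) * u (sg i)))) < 1 := by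
    refine Valuation.map_sum_lt _ one_ne_zero fun i _ => ?_
    refine v_add_lt (v_mul_lt' (hW i) (vp i)) ?_
    exact v_mul_lt (v_wq_pow_lt hB (by norm_num)) (v_mul_le (hW2 i) (vu (sg i)))
  have e3 : thB k 3 (DDq S) * ∑ i, wB e S (fB k 3 * y i) *
      UB k 3 ((em (fB k 3))⁻¹ + em (y i) / em (DDq S)) =
      -(thB k 3 (DDq S) * tJ3 k) * Om * ∑ i, wB e S (fB k 3 * y i) *
        V4 (sJ3 k) (tJ3 k * (pe ^ 7 + em (y i) / em (DDq S))) := by
    rw [Finset.mul_sum, Finset.mul_sum]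
    refine Finset.sum_congr rfl fun i _ => ?_
    rw [UB_J3, J3_fB_inv]
    ring
  rw [e3, hsum, KJ3_eq]
  refine Rt.of_lt ?_
  obtain ⟨Z, hZ⟩ : ∃ Z, Z = ∑ i : {i // P i}, (wtB e S (fB k 3 * y i) * p i +
        wq ^ 2 * (((wtB e S (fB k 3 * y (sg i)) - wtB e S (fB k 3 * y i)) / lm) * u (sg i))) :=
    ⟨_, rfl⟩
  rw [← hZ] at hsum2 ⊢
  have e4 : -(thB k 3 (DDq S) * tJ3 k) * Om * (lm ^ mB e S * wq ^ 21 * Z) /
      (Om * wq ^ 21 * lm ^ mB e S) = -(thB k 3 (DDq S) * tJ3 k) * Z := by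
    have := pow_ne_zero (mB e S) hl0
    have := pow_ne_zero 21 hw0
    field_simp
  rw [e4]
  refine v_mul_lt' (v_neg_le (v_mul_le ?_ ?_)) hsum2
  · refine (v_le_of_pow (n := 4) (by norm_num) ?_)
    have h5 : thB k 3 (DDq S) ^ 4 = 1 := by
      rw [thB, e4_pow]
      have h5 : ∀ t : ZMod 4, ((4 : ℕ) : ZMod 4) * t = 0 := by decide
      rw [h5, e4_zero]
    rw [h5]
    exact (map_one _).le
  · refine (v_le_of_pow (n := 4) (by norm_num) ?_)
    rw [tJ3_four]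
    exact (map_one _).le

end

end Pool.Agent.Lib.MP_1a91b9_ntQ
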