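import Pool.Agent.Lib.MP_1a91b9_ntQ.A.SyI
import Pool.Agent.Lib.MP_1a91b9_ntQ.B.RhsJ3

/-!
# Quartic twists, all fourth-power-free `D`, file LaJ3: the class `lam ^ 3 ∥ D`, the value

`LaB k 3 e (S0 ∪ B0)` divided by `KJ3 * lm ^ (S0.card + U.card + 2 * V.card)` has the class of the
determinant.
-/

set_option autoImplicit false

namespace Pool.Agent.Lib.MP_1a91b9_ntQ

open NumberField Pool.Agent.Lib.MP_1a91b9_nuT Pool.Agent.Lib.MP_1a91b9_nuT.S3
  Pool.Agent.Lib.MP_1a91b9_nuT.Ell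

noncomputable section

variable {B : ValuationSubring ℂ}

/-- the order of the weight of a union -/
theorem mB_union {e : Pg → ZMod 4} {T C : Finset Pg} (hd : Disjoint T C)
    (hT : ∀ q ∈ T, md (e q) ≠ 0) (hC : ∀ q ∈ C, e q = 2) : mB e (T ∪ C) = T.card + 2 * C.card := by
  rw [mB, Finset.sum_union hd, Finset.sum_congr rfl fun q hq => if_neg (hT q hq),
    Finset.sum_congr rfl fun q hq => if_pos (by rw [hC q hq, md_two]), Finset.sum_const,
    Finset.sum_const, smul_eq_mul, smul_eq_mul, mul_one, mul_comm C.card]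

/-- **The value for the whole set.** -/
theorem LaB_J3 (hB : (2 : ℂ)⁻¹ ∉ B) (k : ZMod 4) {e : Pg → ZMod 4} {S0 B0 : Finset Pg}
    (hd : Disjoint S0 B0) (he : ∀ q ∈ S0, md (e q) ≠ 0) (he2 : ∀ q ∈ B0, e q = 2)
    {U V : Finset Pg} (hUB : U ∪ V = B0) (hUV : Disjoint U V)
    (hu1 : ∀ b ∈ U, kapB k 3 b + ∑ p ∈ S0, s4 b p = 1)
    (hu0 : ∀ b ∈ V, kapB k 3 b + ∑ p ∈ S0, s4 b p = 0) :
    Rt B (LaB k 3 e (S0 ∪ B0) / (KJ3 * lm ^ (S0.card + U.card + 2 * V.card)))
      (pdt (blkM s4 (kapB k 3) (fun b => hf2 (EB k 3 e (S0 ∪ U) b)) S0 V) (S0 ∪ V)) := by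
  have hU : U ⊆ B0 := hUB ▸ Finset.subset_union_left
  have hV : V ⊆ B0 := hUB ▸ Finset.subset_union_right
  have hbS : ∀ b ∈ V, b ∉ S0 := fun b hb h => Finset.disjoint_left.1 hd h (hV hb)
  refine (syB hB k 3 hd he KJ3).final_odd ?_ ?_ hUB hUV hu1 hu0 ?_ ?_
  · rw [LaS, Finset.union_empty]
    exact Rt_LaB_J3 hB k e
  · intro T hT C hC hne
    have hTC : Disjoint T C := Finset.disjoint_of_subset_left hT
      (Finset.disjoint_of_subset_right hC hd)
    rw [idB_eq_avg k 3 KJ3 0 hTC fun q hq => he2 q (hC hq), add_zero,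
      ← mB_union hTC (fun q hq => he q (hT hq)) fun q hq => he2 q (hC hq)]
    refine rhsJ3 hB k (fun q hq => ?_) hne
    rcases Finset.mem_union.1 hq with h | h
    · intro h0
      exact he q (hT h) (by rw [h0, map_zero])
    · rw [he2 q (hC h)]
      decide
  · intro b hb
    exact h1B hB k 3 e (hbS b hb)
  · intro b hb
    exact h2B hB k 3 (Finset.disjoint_of_subset_right hU hd) he (fun a ha => he2 a (hU ha))
      (hbS b hb) (fun h => Finset.disjoint_left.1 hUV h hb) (hu0 b hb)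

end

end Pool.Agent.Lib.MP_1a91b9_ntQ
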