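import Pool.Agent.Lib.MP_1a91b9_ntQ.B.FormC
import Pool.Agent.Lib.MP_1a91b9_ntQ.B.LsI
import Pool.Agent.Lib.MP_1a91b9_ntQ.B.LsJ2a
import Pool.Agent.Lib.MP_1a91b9_ntQ.B.LaJ3
import Pool.Agent.Lib.MP_1a91b9_ntQ.B.TopEB

/-!
# MP_1a91b9_nt (quartic twists), all fourth-power-free `D`, file FormD: the formula modulo `2` in the
classes I, E, J3, J2a
-/

set_option autoImplicit false

namespace Pool.Agent.Lib.MP_1a91b9_ntQ

open NumberField IsDedekindDomain Finset Pool.Agent.Lib.MP_1a91b9_nuT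

noncomputable section

variable {k : ZMod 4} {S T B : Finset Pg}

/-! ### The constants -/

theorem norm_lm_pow_sq (n : ℕ) : ‖lm ^ n‖ ^ 2 = 2 ^ n := by
  rw [norm_pow, ← pow_mul, mul_comm n 2, pow_mul, norm_lm_sq]

theorem norm_wq_sq : ‖wq‖ ^ 2 = 2 ^ (1 / 4 : ℝ) := by
  have h1 : ‖wq‖ ^ 4 = ‖lm‖ := by rw [← norm_pow, wq_pow]
  have h2 := norm_lm_sq
  have h3 : ((2 : ℝ) ^ (1 / 4 : ℝ)) ^ 4 = 2 := by
    rw [← Real.rpow_natCast, ← Real.rpow_mul (by norm_num)]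
    norm_num
  have h4 : (‖wq‖ ^ 2) ^ 4 = (2 ^ (1 / 4 : ℝ)) ^ 4 := by
    rw [h3]
    calc (‖wq‖ ^ 2) ^ 4 = (‖wq‖ ^ 4) ^ 2 := by ring
      _ = 2 := by rw [h1, h2]
  exact (pow_left_inj₀ (by positivity) (by positivity) (by norm_num)).1 h4

theorem norm_KE : ‖KE‖ ^ 2 = 2 ^ (23 / 4 : ℝ) * ‖Om‖ ^ 2 := by
  rw [KE, norm_mul, norm_mul, mul_pow, mul_pow, norm_lm_pow_sq, norm_kq_sq, mul_comm,
    ← Real.rpow_natCast 2 5, ← Real.rpow_add (by norm_num)]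
  norm_num

theorem norm_KJ3 : ‖KJ3‖ ^ 2 = 2 ^ (21 / 4 : ℝ) * ‖Om‖ ^ 2 := by
  rw [KJ3, norm_mul, norm_mul, mul_pow, mul_pow, norm_lm_pow_sq, norm_wq_sq, mul_comm,
    ← Real.rpow_natCast 2 5, ← Real.rpow_add (by norm_num)]
  norm_num

theorem norm_KJ : ‖KJ‖ ^ 2 = 2 ^ (9 / 2 : ℝ) * ‖Om‖ ^ 2 := by
  have h : ‖wq ^ 18‖ ^ 2 = 2 ^ (9 / 2 : ℝ) := by
    rw [norm_pow, ← pow_mul, mul_comm 18 2, pow_mul, norm_wq_sq, ← Real.rpow_natCast,
      ← Real.rpow_mul (by norm_num)]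
    norm_num
  rw [KJ, norm_mul, mul_pow, h, mul_comm]

/-- the constants of the classes `j = 0` -/
theorem norm_La4 (κ : ZMod 4) {N : ℕ} (hN : f4 κ = lam ^ N) :
    ‖La4 κ ∅‖ ^ 2 = 2 ^ ((N : ℝ) - ek κ - 2) * ‖Om‖ ^ 2 := by
  have h1 := unit_norm4 κ
  have hO : ‖Om‖ ≠ 0 := norm_ne_zero_iff.2 Om_ne
  rw [hN, norm_em_lam_pow, norm_div, div_pow] at h1
  have h2 : (2 : ℝ) ^ ((N : ℝ) - ek κ - 2) = 2 ^ N / 2 ^ ek κ / 4 := by
    rw [Real.rpow_sub (by norm_num), Real.rpow_sub (by norm_num), Real.rpow_natCast,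
      Real.rpow_natCast]
    norm_num
  rw [h2, ← h1]
  field_simp

/-! ### The classes -/

/-- The exponent. -/
theorem wB0_eq (k : ZMod 4) (j : Fin 4) (S T B : Finset Pg) : wB0 k j S T B + 0 =
    (S ∪ T).card + (UqB k j S T B).card + 2 * (VB k j S T B).card := by
  rw [add_zero, wB0, UqB]

theorem fB_val0 (κ : ZMod 4) {N : ℕ} (hN : f4 κ = lam ^ N) : fB κ ((0 : Fin 4)).val = lam ^ N := by
  rw [show ((0 : Fin 4)).val = 0 from rfl, fB_zero]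
  exact hN

/-- **The formula modulo `2`, class I.** -/
theorem formB_I (h : Dj S T B) (hk : md k = 1) (hT : TmB k 0 S T B 0) :
    FormQ (dB k 0 S T B) (DetB0 k 0 S T B) := by
  have hk0 : md k ≠ 0 := by
    rw [hk]
    exact one_ne_zero
  have hne : ¬ ((0 : Fin 4) = 0 ∧ k = 2 ∧ nn (cB S T B) = 1) := by
    rintro ⟨-, rfl, -⟩
    exact absurd hk (by decide)
  obtain ⟨N, hN, -⟩ := f4_pow (kkB k S T B)
  have hek : ek (kkB k S T B) = 0 := by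
    have h1 : md (kkB k S T B) = 1 := by rw [md_kkB, hk]
    have key : ∀ x : ZMod 4, md x = 1 → x ≠ 0 ∧ x ≠ 2 := by decide
    obtain ⟨h2, h3⟩ := key _ h1
    rw [ek, if_neg h2, if_neg h3]
  have h0 : ((0 : Fin 4)).val = 0 := rfl
  refine form_cls h hne hT (κ := kkB k S T B) rfl (N := N) (d := 0) (fB_val0 _ hN) (norm_La4 _ hN) ?_
    (DetB0_pdt h).symm fun A hA => ?_
  · rw [hek, h0]
    push_cast
    ring
  · rw [wB0_eq]
    exact Rt_B_I hA hk0 h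

/-- **The formula modulo `2`, class J3.** -/
theorem formB_J3 (h : Dj S T B) (hT : TmB k 3 S T B 1) :
    FormQ (dB k 3 S T B) (DetB0 k 3 S T B) := by
  have h3 : ((3 : Fin 4)).val = 3 := rfl
  have hne : ¬ ((3 : Fin 4) = 0 ∧ k = 2 ∧ nn (cB S T B) = 1) := fun h' => absurd h'.1 (by decide)
  refine form_cls h hne hT (κ := kkB k S T B) rfl (N := 7) (d := 0) ?_ norm_KJ3 ?_
    (DetB0_pdt h).symm fun A hA => ?_
  · rw [h3, fB, if_neg (by norm_num), if_neg (by norm_num)]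
  · rw [h3]
    norm_num
  · rw [wB0_eq]
    exact LaB_J3 hA (kkB k S T B) h.ub (fun q hq => by rw [h.eodd hq]; exact one_ne_zero)
      (fun q hq => h.eb hq) (UqB_union k 3 S T B) (UqB_dis k 3 S T B)
      (fun b hb => hu1_B (j := 3) hb) fun b hb => hu0_B (j := 3) hb

/-- **The formula modulo `2`, class E.** -/
theorem formB_E (h : Dj S T B) (hT : TmB k 1 S T B 1) :
    FormQ (dB k 1 S T B) (DetB1 k 1 ![1, 0] (xk4 k) S T B) := by
  have h3 : ((1 : Fin 4)).val = 1 := rfl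
  have hne : ¬ ((1 : Fin 4) = 0 ∧ k = 2 ∧ nn (cB S T B) = 1) := fun h' => absurd h'.1 (by decide)
  refine form_cls (y := (NB1 k 1 ![1, 0] (xk4 k) S T B).det) h hne hT (κ := kkB k S T B) rfl (N := 7)
    (d := 0) ?_ norm_KE ?_ Iff.rfl fun A hA => ?_
  · rw [h3, fB, if_neg (by norm_num), if_neg (by norm_num)]
  · rw [h3]
    norm_num
  · rw [wB0_eq]
    exact Rt_B_E hA k h

/-- **The formula modulo `2`, class J2a.** -/
theorem formB_J2a (h : Dj S T B) (hT : TmB 1 2 S T B 1) :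
    FormQ (dB 1 2 S T B) (DetB0 1 2 S T B) := by
  have h3 : ((2 : Fin 4)).val = 2 := rfl
  have hk : ¬ ((1 : ZMod 4) = 0 ∨ (1 : ZMod 4) = 2) := by decide
  have hne : ¬ ((2 : Fin 4) = 0 ∧ (1 : ZMod 4) = 2 ∧ nn (cB S T B) = 1) :=
    fun h' => absurd h'.1 (by decide)
  refine form_cls h hne hT (κ := kkB 1 S T B) rfl (N := 6) (d := 0) ?_ norm_KJ ?_
    (DetB0_pdt h).symm fun A hA => ?_
  · rw [h3, fB, if_neg (by norm_num), if_pos rfl, if_neg (kkB_odd hk S T B)]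
  · rw [h3]
    norm_num
  · have h2 := Rt_B_J2a hA hk h
    rw [xJ, if_pos rfl, one_mul] at h2
    rw [wB0_eq]
    exact h2

end

end Pool.Agent.Lib.MP_1a91b9_ntQ
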