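import Pool.Agent.Lib.MP_1a91b9_ntQ.B.DetGlue

/-!
# MP_1a91b9_nt (quartic twists), all fourth-power-free `D`, file KerC: the criterion of the even classes
and the cofactor

`KerB0.of_cof`, `KerB1.of_cof` : if a principal cofactor is not `0` then the kernel is generated by the
indicator of `S ∪ T` (the converse of `KerB0.cof`, `KerB1.cof`).
-/

set_option autoImplicit false
set_option linter.unusedSectionVars false

namespace Pool.Agent.Lib.MP_1a91b9_ntQ

open Finset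

noncomputable section

/-- A nonzero principal cofactor and a vector of the kernel. -/
theorem ker_of_adjB {n : Type} [Fintype n] [DecidableEq n] {M : Matrix n n (ZMod 2)} {r : n}
    {v : n → ZMod 2} (hv : M.mulVec v = 0) (hvr : v r ≠ 0) (hc : M.adjugate r r ≠ 0)
    {w : n → ZMod 2} (hw : M.mulVec w = 0) : w = 0 ∨ w = v := by
  rw [Matrix.adjugate_apply] at hc
  have key : ∀ u : n → ZMod 2, M.mulVec u = 0 → u r = 0 → u = 0 := by
    intro u hu hr
    refine Matrix.eq_zero_of_mulVec_eq_zero hc ?_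
    ext i
    by_cases hi : i = r
    · subst hi
      rw [Matrix.updateRow_mulVec, Function.update_self, single_one_dotProduct, hr]
      rfl
    · rw [Matrix.updateRow_mulVec, Function.update_of_ne hi, hu]
  have z2 : ∀ x : ZMod 2, x = 0 ∨ x = 1 := by decide
  rcases z2 (w r) with h | h
  · exact Or.inl (key w hw h)
  · right
    have h1 : v r = 1 := (z2 (v r)).resolve_left hvr
    refine sub_eq_zero.1 (key (w - v) ?_ ?_)
    · rw [Matrix.mulVec_sub, hw, hv, sub_zero]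
    · rw [Pi.sub_apply, h, h1, sub_self]

section abstract_part

variable {ι : Type} [DecidableEq ι] {κ : Type} [Fintype κ]
variable (D : Dat2 ι κ) (c : κ → ZMod 2) (τ : ι → ZMod 2)

/-- the kernel, no border -/
theorem ker_cof0 (hs : D.Sym) {S V : Finset ι} (h : Disjoint S V) (hS : ∀ i ∈ S, D.dg c i = 0)
    (hV : ∀ v ∈ V, ∑ i ∈ S, D.s v i = 0) {r : ι} (hr : r ∈ S)
    (hc : (pmG (D.MG c τ S) (S ∪ V)).adjugate ⟨r, mem_union_left V hr⟩
      ⟨r, mem_union_left V hr⟩ ≠ 0) {w : S ⊕ (V ⊕ Empty) → ZMod 2}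
    (hw : (D.NV c (Da.P0 κ) Da.R0 V τ S).mulVec w = 0) :
    w = 0 ∨ w = Sum.elim (fun _ => 1) (Sum.elim (fun _ => 0) 0) := by
  have h0 := sub_mulVec (eqG0 h) _ _ (MG_mulVec D c τ h hS hV)
  have e0 : (fun i : ↥(S ∪ V) => if (i : ι) ∈ S then (1 : ZMod 2) else 0) ∘ eqG0 h =
      Sum.elim (fun _ => 1) (Sum.elim (fun _ => 0) 0) := by
    ext y
    rcases y with y | y | y
    · show (if (y : ι) ∈ S then (1 : ZMod 2) else 0) = 1
      rw [if_pos y.2]
    · show (if (y : ι) ∈ S then (1 : ZMod 2) else 0) = 0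
      rw [if_neg fun h' => disjoint_left.1 h h' y.2]
    · exact y.elim
  rw [NV_sub0 D c τ hs h, e0] at h0
  refine ker_of_adjB (r := Sum.inl ⟨r, hr⟩) h0 one_ne_zero ?_ hw
  rw [← NV_sub0 D c τ hs h, Matrix.adjugate_submatrix_equiv_self]
  exact hc

/-- the kernel, bordered -/
theorem ker_cof1 (hs : D.Sym) {S V : Finset ι} (h : Disjoint S V) (P : κ → Unit → ZMod 2)
    (x : ZMod 2) (hS : ∀ i ∈ S, D.dg c i = 0)
    (hV : ∀ v ∈ V, ∑ i ∈ S, D.s v i = 0) (hA : ∑ i ∈ S, D.bd P i () = 0) {r : ι} (hr : r ∈ S)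
    (hc : (BM (pmG (D.MG c τ S) (S ∪ V)) (fun i => D.bd P i ()) (fun i => D.bd P i ()) x).adjugate
      (Sum.inl ⟨r, mem_union_left V hr⟩) (Sum.inl ⟨r, mem_union_left V hr⟩) ≠ 0)
    {w : S ⊕ (V ⊕ Unit) → ZMod 2}
    (hw : (D.NV c P (Da.R1 x) V τ S).mulVec w = 0) :
    w = 0 ∨ w = Sum.elim (fun _ => 1) (Sum.elim (fun _ => 0) 0) := by
  set v : ↥(S ∪ V) ⊕ Unit → ZMod 2 :=
    Sum.elim (fun i => if (i : ι) ∈ S then 1 else 0) (fun _ => 0) with hv
  have hv0 : (BM (pmG (D.MG c τ S) (S ∪ V)) (fun i => D.bd P i ()) (fun i => D.bd P i ())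
      x).mulVec v = 0 := by
    unfold BM
    rw [hv, Matrix.fromBlocks_mulVec, Sum.elim_comp_inl, Sum.elim_comp_inr,
      MG_mulVec D c τ h hS hV]
    ext i
    rcases i with i | i
    · rw [Sum.elim_inl, Pi.add_apply, Pi.zero_apply, zero_add]
      show ∑ j : Unit, D.bd P i () * 0 = 0
      simp
    · rw [Sum.elim_inr, Pi.add_apply]
      have e1 : (Matrix.of fun _ j => D.bd P (j : ↥(S ∪ V)) ()).mulVec
          (fun j : ↥(S ∪ V) => if (j : ι) ∈ S then (1 : ZMod 2) else 0) i = 0 := by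
        show ∑ j : ↥(S ∪ V), D.bd P j () * (if (j : ι) ∈ S then 1 else 0) = 0
        rw [sum_coe_sort (S ∪ V) fun j => D.bd P j () * (if j ∈ S then 1 else 0), sum_union h]
        have h2 : ∑ x ∈ V, D.bd P x () * (if x ∈ S then 1 else 0) = 0 :=
          sum_eq_zero fun x hx => by rw [if_neg fun h' => disjoint_left.1 h h' hx, mul_zero]
        have h1 : ∑ x ∈ S, D.bd P x () * (if x ∈ S then 1 else 0) = ∑ x ∈ S, D.bd P x () :=
          sum_congr rfl fun x hx => by rw [if_pos hx, mul_one]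
        rw [h1, h2, hA, add_zero]
      rw [e1, zero_add]
      show ∑ j : Unit, x * 0 = 0
      simp
  have h0 := sub_mulVec (eqG1 h) _ _ hv0
  have e0 : v ∘ eqG1 h = Sum.elim (fun _ => 1) (Sum.elim (fun _ => 0) 0) := by
    ext y
    rcases y with y | y | y
    · show (if (y : ι) ∈ S then (1 : ZMod 2) else 0) = 1
      rw [if_pos y.2]
    · show (if (y : ι) ∈ S then (1 : ZMod 2) else 0) = 0
      rw [if_neg fun h' => disjoint_left.1 h h' y.2]
    · rfl
  rw [NV_sub1 D c τ hs h, e0] at h0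
  refine ker_of_adjB (r := Sum.inl ⟨r, hr⟩) h0 one_ne_zero ?_ hw
  rw [← NV_sub1 D c τ hs h, Matrix.adjugate_submatrix_equiv_self]
  exact hc

end abstract_part

section crit

variable {k : ZMod 4} {j : Fin 4} {S T B : Finset Pg}

theorem KerB0.of_cof (h : Dj S T B) (hk : md k = 0) (hj : (j.val : ZMod 2) = 0) {r : Pg}
    (hr : r ∈ S ∪ T) (hc : (pmG (MqB k j S T B) (S ∪ T ∪ VB k j S T B)).adjugate
      ⟨r, mem_union_left _ hr⟩ ⟨r, mem_union_left _ hr⟩ ≠ 0) : KerB0 k j S T B := by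
  refine ⟨⟨r, hr⟩, fun w hw => ?_⟩
  rw [← MqB_eq] at hc
  exact ker_cof0 d4 (kvB k j) (rhB k j S T B) d4_symm (h.dv k j)
    (fun i _ => by rw [dg_kvB, kxB_even hk hj])
    (fun v hv => by
      have h2 := (mem_VB.1 hv).2
      rw [kxB_even hk hj, add_zero] at h2
      exact h2) hr hc hw

/-- **The criterion of the even classes without border.** -/
theorem KerB0_iff (h : Dj S T B) (hk : md k = 0) (hj : (j.val : ZMod 2) = 0) {r : Pg}
    (hr : r ∈ S ∪ T) : KerB0 k j S T B ↔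
      (pmG (MqB k j S T B) (S ∪ T ∪ VB k j S T B)).adjugate ⟨r, mem_union_left _ hr⟩
        ⟨r, mem_union_left _ hr⟩ ≠ 0 :=
  ⟨fun hG => hG.cof h hk hj hr, KerB0.of_cof h hk hj hr⟩

theorem KerB1.of_cof (h : Dj S T B) (hk : md k = 0) (hj : (j.val : ZMod 2) = 0)
    {p : Fin 2 → ZMod 2} {x : ZMod 2} (hA : ∑ q ∈ S ∪ T, bpB p q = 0) {r : Pg} (hr : r ∈ S ∪ T)
    (hc : (BM (pmG (MqB k j S T B) (S ∪ T ∪ VB k j S T B)) (fun i => bpB p i)
      (fun i => bpB p i) x).adjugate (Sum.inl ⟨r, mem_union_left _ hr⟩)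
      (Sum.inl ⟨r, mem_union_left _ hr⟩) ≠ 0) : KerB1 k j p x S T B := by
  refine ⟨⟨r, hr⟩, fun w hw => ?_⟩
  refine ker_cof1 d4 (kvB k j) (rhB k j S T B) d4_symm (h.dv k j) (PpB p) x
    (fun i _ => by rw [dg_kvB, kxB_even hk hj])
    (fun v hv => by
      have h2 := (mem_VB.1 hv).2
      rw [kxB_even hk hj, add_zero] at h2
      exact h2) (by simp only [bd_PpB]; exact hA) hr ?_ hw
  rw [MqB_eq]
  simp only [bd_PpB]
  exact hc

/-- **The criterion of the even classes with border.** -/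
theorem KerB1_iff (h : Dj S T B) (hk : md k = 0) (hj : (j.val : ZMod 2) = 0)
    {p : Fin 2 → ZMod 2} {x : ZMod 2} (hA : ∑ q ∈ S ∪ T, bpB p q = 0) {r : Pg} (hr : r ∈ S ∪ T) :
    KerB1 k j p x S T B ↔ (BM (pmG (MqB k j S T B) (S ∪ T ∪ VB k j S T B)) (fun i => bpB p i)
      (fun i => bpB p i) x).adjugate (Sum.inl ⟨r, mem_union_left _ hr⟩)
      (Sum.inl ⟨r, mem_union_left _ hr⟩) ≠ 0 :=
  ⟨fun hG => hG.cof h hk hj hA hr, KerB1.of_cof h hk hj hA hr⟩

end crit

end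

end Pool.Agent.Lib.MP_1a91b9_ntQ
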