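import Pool.Agent.Lib.MP_1a91b9_ntQ.B.FormD
import Pool.Agent.Lib.MP_1a91b9_ntQ.B.KerC
import Pool.Agent.Lib.MP_1a91b9_ntQ.B.LsII
import Pool.Agent.Lib.MP_1a91b9_ntQ.B.LsJ2c
import Pool.Agent.Lib.MP_1a91b9_ntQ.B.TopX1B

/-!
# MP_1a91b9_nt (quartic twists), all fourth-power-free `D`, file FormE: the formula modulo `2` in the
classes II, III, J2c and (X), `k = 2`
-/

set_option autoImplicit false

namespace Pool.Agent.Lib.MP_1a91b9_ntQ

open NumberField IsDedekindDomain Finset Pool.Agent.Lib.MP_1a91b9_nuT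

noncomputable section

variable {k : ZMod 4} {j : Fin 4} {S T B : Finset Pg}

/-- The exponent. -/
theorem wB0_eqd (k : ZMod 4) (j : Fin 4) (S T B : Finset Pg) (d : ℕ) : wB0 k j S T B + d =
    (S ∪ T).card + (UqB k j S T B).card + 2 * (VB k j S T B).card + d := by
  rw [wB0, UqB]

/-- **The criterion of the even classes as a principal minor.** -/
theorem ker_pdt (h : Dj S T B) (hk : md k = 0) (hj : (j.val : ZMod 2) = 0) {r : Pg}
    (hr : r ∈ S ∪ T) :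
    pdt (blkM s4 (kapB (kkB k S T B) j.val) (tauQ k j S T B) (S ∪ T) (VB k j S T B))
      ((S ∪ T ∪ VB k j S T B).erase r) ≠ 0 ↔ KerB0 k j S T B := by
  have e1 : pdt (blkM s4 (kapB (kkB k S T B) j.val) (tauQ k j S T B) (S ∪ T) (VB k j S T B))
      ((S ∪ T ∪ VB k j S T B).erase r) = pdt (MqB k j S T B) ((S ∪ T ∪ VB k j S T B).erase r) :=
    pdt_congr fun p hp q _ => blkM_MqB (j := j) h (mem_of_mem_erase hp)
  rw [KerB0_iff h hk hj hr, e1, pmG, adj_pdt (MqB k j S T B) (mem_union_left _ hr)]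

theorem mem_of_sum {A : Finset Pg} {f : Pg → ZMod 2} (h : ∑ q ∈ A, f q = 1) : ∃ r, r ∈ A := by
  by_contra hc
  have hA : A = ∅ := Finset.not_nonempty_iff_eq_empty.1 hc
  rw [hA, sum_empty] at h
  exact absurd h (by decide)

/-! ### The classes II and III -/

theorem mem_II (h : Dj S T B) (ha : aa (cB S T B) = 1) : ∃ r, r ∈ S ∪ T := by
  rw [aa_cB h.st] at ha
  exact mem_of_sum ha

/-- **The formula modulo `2`, classes II and III**, bad reduction above `2`. -/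
theorem formB_II (h : Dj S T B) (hk : md k = 0) (ha : aa (cB S T B) = 1)
    (hne : ¬ (k = 2 ∧ nn (cB S T B) = 1)) (hT : TmB k 0 S T B 0) :
    FormQ (dB k 0 S T B) (KerB0 k 0 S T B) := by
  have h0 : ((0 : Fin 4)).val = 0 := rfl
  obtain ⟨r, hr⟩ := mem_II h ha
  obtain ⟨N, hN, -⟩ := f4_pow (kkB k S T B)
  refine form_cls h (fun h' => hne h'.2) hT (κ := kkB k S T B) rfl (N := N)
    (d := ek (kkB k S T B)) (fB_val0 _ hN) (norm_La4 _ hN) ?_ (ker_pdt (j := 0) h hk rfl hr)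
    fun A hA => ?_
  · rw [h0]
    push_cast
    ring
  · have h2 := Rt_B_II hA hk h hr
    rw [ha, one_mul] at h2
    rw [wB0_eqd]
    exact h2

/-- **The formula modulo `2`, class II**, good reduction above `2`. -/
theorem formB_II' (h : Dj S T B) (hn : nn (cB S T B) = 1) (hT : TmB' S T B) :
    FormQ (dB 2 0 S T B) (KerB0 2 0 S T B) := by
  have ha : aa (cB S T B) = 1 := by
    have e : aa (cB S T B) = md (nn (cB S T B)) := rfl
    rw [e, hn]
    exact map_one _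
  obtain ⟨r, hr⟩ := mem_II h ha
  have hκ : kkB 2 S T B = 0 := by
    rw [kkB, h.kB_eq, hn]
    decide
  obtain ⟨N, hN, -⟩ := f4_pow (0 : ZMod 4)
  refine form_clsV' h hn hT (N := N) (d := ek 0) ((fB_zero 0).trans hN) (norm_La4 0 hN) ?_
    ((Vc_Rt fun A hA => ?_).congr (ker_pdt (j := 0) h (by decide) rfl hr))
  · ring
  · have h2 := Rt_B_II (k := 2) hA (by decide) h hr
    rw [ha, one_mul] at h2
    rw [wB0_eqd]
    have e : ∀ κ : ZMod 4, κ = 0 → Rt A (LaB κ 0 (eB T B) (S ∪ T ∪ B) / (La4 κ ∅ *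
        lm ^ ((S ∪ T).card + (UqB 2 0 S T B).card + 2 * (VB 2 0 S T B).card + ek κ)))
        (pdt (blkM s4 (kapB (kkB 2 S T B) 0) (tauQ 2 0 S T B) (S ∪ T) (VB 2 0 S T B))
          ((S ∪ T ∪ VB 2 0 S T B).erase r)) →
        Rt A (LaB 0 0 (eB T B) (S ∪ T ∪ B) / (La4 0 ∅ *
        lm ^ ((S ∪ T).card + (UqB 2 0 S T B).card + 2 * (VB 2 0 S T B).card + ek 0)))
        (pdt (blkM s4 (kapB (kkB 2 S T B) 0) (tauQ 2 0 S T B) (S ∪ T) (VB 2 0 S T B))
          ((S ∪ T ∪ VB 2 0 S T B).erase r)) := by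
      rintro κ rfl h3
      exact h3
    exact e _ hκ h2

/-! ### The class (X), `k = 2` -/

theorem bpB_10 : bpB ![1, 0] = fun q : Pg => aa q.1 := by
  funext q
  simp [bpB]

theorem ne_of_aa {n : ZMod 4} (h : md n = 0) : n ≠ 1 := by
  rintro rfl
  exact absurd h (by decide)

/-- **The formula modulo `2`, class (X), `k = 2`.** -/
theorem formB_X1 (h : Dj S T B) (ha : aa (cB S T B) = 0) (hne : (S ∪ T).Nonempty)
    (hT : TmB 2 0 S T B 1) :
    FormQ (dB 2 0 S T B) (KerB1 2 0 ![1, 0] (hf4 (nn (cB S T B))) S T B) := by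
  have h0 : ((0 : Fin 4)).val = 0 := rfl
  obtain ⟨r, hr⟩ := hne
  have hs : ∑ q ∈ S ∪ T, aa q.1 = 0 := by rw [← aa_cB h.st B, ha]
  have hκ : kkB 2 S T B = 2 := kkB_X h hs
  obtain ⟨N, hN, -⟩ := f4_pow (2 : ZMod 4)
  have hn : ¬ ((0 : Fin 4) = 0 ∧ (2 : ZMod 4) = 2 ∧ nn (cB S T B) = 1) :=
    fun h' => ne_of_aa (n := nn (cB S T B)) ha h'.2.2
  have hek : ek 2 = 1 := rfl
  have hcr := KerB1_iff (k := 2) (j := 0) (x := hf4 (nn (cB S T B))) h (by decide) rfl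
    (p := ![1, 0]) (by rw [bpB_10]; exact hs) hr
  rw [bpB_10] at hcr
  refine form_cls h hn hT (κ := 2) hκ (N := N) (d := 2) (fB_val0 _ hN)
    (norm_La4 _ hN) ?_ hcr.symm fun A hA => ?_
  · rw [h0, hek]
    push_cast
    ring
  · have h2 := Rt_B_X1 hA h ha hr
    rw [hκ] at h2
    rw [wB0_eqd]
    exact h2

/-! ### The class J2c -/

theorem norm_J2c {κ : ZMod 4} (hκ : κ = 0 ∨ κ = 2) (e : Pg → ZMod 4) :
    ‖LaB κ 2 e ∅‖ ^ 2 = 2 ^ (5 / 2 : ℝ) * ‖Om‖ ^ 2 := by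
  have h1 := LaB_J2c_sq hκ e
  have hs : ‖sJ κ - zt‖ ^ 2 = 2 := by
    have hz : zt = Complex.I := zt_eq
    unfold sJ
    rw [hz, ← Complex.normSq_eq_norm_sq, Complex.normSq_apply]
    split_ifs <;> simp <;> norm_num
  have h2 : ‖LaB κ 2 e ∅‖ ^ 2 = 4 * ‖Om‖ ^ 2 * ‖sJ κ - zt‖ := by
    rw [← norm_pow, h1, norm_mul, norm_mul, norm_neg, norm_pow]
    norm_num
  have h3 : ‖sJ κ - zt‖ = 2 ^ (1 / 2 : ℝ) := by
    rw [← Real.sqrt_eq_rpow, eq_comm, Real.sqrt_eq_iff_mul_self_eq (by norm_num) (norm_nonneg _),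
      ← pow_two, hs]
  have h4 : (2 : ℝ) ^ (5 / 2 : ℝ) = 4 * 2 ^ (1 / 2 : ℝ) := by
    rw [show (5 / 2 : ℝ) = 2 + 1 / 2 by norm_num, Real.rpow_add (by norm_num)]
    norm_num
  rw [h2, h3, h4]
  ring

/-- **The formula modulo `2`, class J2c.** -/
theorem formB_J2c (hk : k = 0 ∨ k = 2) (h : Dj S T B) (hl : lJ k (cB S T B) = 1)
    (hT : TmB k 2 S T B 1) :
    FormQ (dB k 2 S T B) (KerB0 k 2 S T B) := by
  have h2v : ((2 : Fin 4)).val = 2 := rfl
  have hk0 : md k = 0 := by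
    rcases hk with rfl | rfl
    · exact md_zero
    · exact md_two
  have hne : ¬ ((2 : Fin 4) = 0 ∧ k = 2 ∧ nn (cB S T B) = 1) := fun h' => absurd h'.1 (by decide)
  have hr : ∃ r, r ∈ S ∪ T := by
    have h1 := (sum_lJ_kk hk h).trans hl
    exact mem_of_sum h1
  obtain ⟨r, hr⟩ := hr
  refine form_cls h hne hT (κ := kkB k S T B) rfl (N := 5) (d := 1) ?_
    (norm_J2c (kkB_even hk S T B) (eB T B)) ?_ (ker_pdt (j := 2) h hk0 rfl hr) fun A hA => ?_
  · rw [h2v, fB, if_neg (by norm_num), if_pos rfl, if_pos (kkB_even hk S T B)]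
  · rw [h2v]
    norm_num
  · have h2 := Rt_B_J2c hA hk h hr
    rw [hl, one_mul] at h2
    rw [wB0_eqd]
    exact h2

end

end Pool.Agent.Lib.MP_1a91b9_ntQ
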