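import Pool.Agent.Lib.MP_1a91b9_ntQ.B.FormE
import Pool.Agent.Lib.MP_1a91b9_ntQ.B.GdDen
import Pool.Agent.Lib.MP_1a91b9_ntQ.B.BsdB

/-!
# MP_1a91b9_nt (quartic twists), all fourth-power-free `D`, file FormF: the formula modulo `2` for every
fourth-power-free `D` which is not a square

`foB_of` : from the Tamagawa numbers and periods (`TmA`) and the classes (X) with `k = 0`, J2b, J2d.
-/

set_option autoImplicit false

namespace Pool.Agent.Lib.MP_1a91b9_ntQ

open NumberField IsDedekindDomain Finset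

noncomputable section

/-- The logarithm of the Tamagawa number at the prime above `2`, `c = cB S T B`. -/
def bLB (k : ZMod 4) (j : Fin 4) (c : 𝓞 K4) : ℕ :=
  if j = 0 then
    if md k = 1 ∨ aa c = 1 then 0
    else if k = 2 ∨ hf4 (nn c) + bb c = 1 then 1 else 2
  else if j = 2 then
    if k = 1 ∨ (k = 0 ∧ bb c = 1) ∨ (k = 2 ∧ aa c + bb c = 1) then 1 else 2
  else 1

/-- The periods and the products of the Tamagawa numbers. -/
def TmA : Prop := ∀ (k : ZMod 4) (j : Fin 4) (S T B : Finset Pg), Dj S T B → ¬ SqB k j S T →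
  (¬ (j = 0 ∧ k = 2 ∧ nn (cB S T B) = 1) → TmB k j S T B (bLB k j (cB S T B))) ∧
    (j = 0 ∧ k = 2 ∧ nn (cB S T B) = 1 → TmB' S T B)

/-- the class (X), `k = 0`, first order -/
def FoX2 : Prop := ∀ (S T B : Finset Pg), Dj S T B → (S ∪ T).Nonempty → aa (cB S T B) = 0 →
  hf4 (nn (cB S T B)) + bb (cB S T B) = 1 → TmB 0 0 S T B 1 → FormQ (dB 0 0 S T B) (KerB0 0 0 S T B)

/-- the class (X), `k = 0`, second order -/
def FoX3 : Prop := ∀ (S T B : Finset Pg), Dj S T B → (S ∪ T).Nonempty → aa (cB S T B) = 0 →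
  hf4 (nn (cB S T B)) + bb (cB S T B) = 0 → TmB 0 0 S T B 2 →
    FormQ (dB 0 0 S T B) (KerB1 0 0 ![1, 0] (xl4 (llB (cB S T B))) S T B)

/-- the class J2b -/
def FoJ2b : Prop := ∀ (S T B : Finset Pg), Dj S T B → TmB 3 2 S T B 2 →
  FormQ (dB 3 2 S T B) (DetB1 3 2 ![0, 1] (uB3 (mmB (cB S T B)) (nnB (cB S T B))) S T B)

/-- the class J2d, `k = 0` -/
def FoJ2d0 : Prop := ∀ (S T B : Finset Pg), Dj S T B → (S ∪ T).Nonempty → bb (cB S T B) = 0 →
  TmB 0 2 S T B 2 →
    FormQ (dB 0 2 S T B) (KerB1 0 2 ![0, 1] (uB0 (mmB (cB S T B)) (nnB (cB S T B))) S T B)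

/-- the class J2d, `k = 2` -/
def FoJ2d2 : Prop := ∀ (S T B : Finset Pg), Dj S T B → (S ∪ T).Nonempty →
  aa (cB S T B) + bb (cB S T B) = 0 → TmB 2 2 S T B 2 →
    FormQ (dB 2 2 S T B) (KerB1 2 2 ![1, 1] (uB2 (mmB (cB S T B)) (nnB (cB S T B))) S T B)

variable {k : ZMod 4} {j : Fin 4} {S T B : Finset Pg}

theorem TmB.of_eq {b b' : ℕ} (h : TmB k j S T B b) (e : b = b') : TmB k j S T B b' := e ▸ h

/-- **The formula modulo `2`** for every fourth-power-free `D` which is not a square. -/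
theorem foB_of (hT : TmA) (hx2 : FoX2) (hx3 : FoX3) (hb : FoJ2b) (hd0 : FoJ2d0) (hd2 : FoJ2d2) :
    FoB := by
  intro k j S T B h hns
  have z2 : ∀ x : ZMod 2, x = 0 ∨ x = 1 := by decide
  have f4 : ∀ j : Fin 4, j = 0 ∨ j = 1 ∨ j = 2 ∨ j = 3 := by decide
  have hke : ∀ k : ZMod 4, md k = 0 → k = 0 ∨ k = 2 := by decide
  have n1 : ∀ n : ZMod 4, md n = 0 → n ≠ 1 := by decide
  obtain ⟨t1, t2⟩ := hT k j S T B h hns
  have hne : md k = 0 → (j.val : ZMod 2) = 0 → (S ∪ T).Nonempty := fun h1 h2 =>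
    nonempty_iff_ne_empty.2 fun h3 => hns ⟨h1, h2, h3⟩
  rcases f4 j with rfl | rfl | rfl | rfl
  · rcases z2 (md k) with hk | hk
    · rcases z2 (aa (cB S T B)) with ha | ha
      · have h1 : ¬ ((0 : Fin 4) = 0 ∧ k = 2 ∧ nn (cB S T B) = 1) :=
          fun h' => n1 (nn (cB S T B)) ha h'.2.2
        have hk1 : ¬ (md k = 1 ∨ aa (cB S T B) = 1) := by
          rw [hk, ha]
          decide
        rcases hke k hk with rfl | rfl
        · rcases z2 (hf4 (nn (cB S T B)) + bb (cB S T B)) with hc | hc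
          · refine (hx3 S T B h (hne hk rfl) ha hc ((t1 h1).of_eq ?_)).congr
              (gdB_x3 ha hc).symm
            have h2 : ¬ ((0 : ZMod 4) = 2 ∨ hf4 (nn (cB S T B)) + bb (cB S T B) = 1) := by
              rw [hc]
              decide
            rw [bLB, if_pos rfl, if_neg hk1, if_neg h2]
          · refine (hx2 S T B h (hne hk rfl) ha hc ((t1 h1).of_eq ?_)).congr
              (gdB_x2 ha hc).symm
            rw [bLB, if_pos rfl, if_neg hk1, if_pos (Or.inr hc)]
        · refine (formB_X1 h ha (hne hk rfl) ((t1 h1).of_eq ?_)).congr (gdB_x1 ha).symm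
          rw [bLB, if_pos rfl, if_neg hk1, if_pos (Or.inl rfl)]
      · by_cases h1 : k = 2 ∧ nn (cB S T B) = 1
        · obtain ⟨rfl, h2⟩ := h1
          exact (formB_II' h h2 (t2 ⟨rfl, rfl, h2⟩)).congr (gdB_c2 hk ha).symm
        · refine (formB_II h hk ha h1 ((t1 fun h' => h1 h'.2).of_eq ?_)).congr
            (gdB_c2 hk ha).symm
          rw [bLB, if_pos rfl, if_pos (Or.inr ha)]
    · have h1 : ¬ ((0 : Fin 4) = 0 ∧ k = 2 ∧ nn (cB S T B) = 1) := by
        rintro ⟨-, rfl, -⟩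
        exact absurd hk (by decide)
      refine (formB_I h hk ((t1 h1).of_eq ?_)).congr (gdB_c1 hk).symm
      rw [bLB, if_pos rfl, if_pos (Or.inl hk)]
  · refine (formB_E h ((t1 fun h' => absurd h'.1 (by decide)).of_eq ?_)).congr gdB_e.symm
    rw [bLB, if_neg (by decide), if_neg (by decide)]
  · have t3 := t1 fun h' => absurd h'.1 (by decide)
    have k4 : ∀ k : ZMod 4, k = 0 ∨ k = 1 ∨ k = 2 ∨ k = 3 := by decide
    rcases k4 k with rfl | rfl | rfl | rfl
    · rcases z2 (bb (cB S T B)) with hc | hc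
      · refine (hd0 S T B h (hne (by decide) rfl) hc (t3.of_eq ?_)).congr (gdB_d20 hc).symm
        have h2 : ¬ ((0 : ZMod 4) = 1 ∨ ((0 : ZMod 4) = 0 ∧ bb (cB S T B) = 1) ∨
            ((0 : ZMod 4) = 2 ∧ aa (cB S T B) + bb (cB S T B) = 1)) := by
          rintro (h' | h' | h')
          · exact absurd h' (by decide)
          · rw [hc] at h'
            exact absurd h'.2 (by decide)
          · exact absurd h'.1 (by decide)
        rw [bLB, if_neg (by decide), if_pos rfl, if_neg h2]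
      · refine (formB_J2c (Or.inl rfl) h ?_ (t3.of_eq ?_)).congr (gdB_c20 hc).symm
        · rw [lJ, if_neg (by decide), hc]
        · rw [bLB, if_neg (by decide), if_pos rfl, if_pos (Or.inr (Or.inl ⟨rfl, hc⟩))]
    · refine (formB_J2a h (t3.of_eq ?_)).congr gdB_a2.symm
      rw [bLB, if_neg (by decide), if_pos rfl, if_pos (Or.inl rfl)]
    · rcases z2 (aa (cB S T B) + bb (cB S T B)) with hc | hc
      · refine (hd2 S T B h (hne (by decide) rfl) hc (t3.of_eq ?_)).congr (gdB_d22 hc).symm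
        have h2 : ¬ ((2 : ZMod 4) = 1 ∨ ((2 : ZMod 4) = 0 ∧ bb (cB S T B) = 1) ∨
            ((2 : ZMod 4) = 2 ∧ aa (cB S T B) + bb (cB S T B) = 1)) := by
          rintro (h' | h' | h')
          · exact absurd h' (by decide)
          · exact absurd h'.1 (by decide)
          · rw [hc] at h'
            exact absurd h'.2 (by decide)
        rw [bLB, if_neg (by decide), if_pos rfl, if_neg h2]
      · refine (formB_J2c (Or.inr rfl) h ?_ (t3.of_eq ?_)).congr (gdB_c22 hc).symm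
        · rw [lJ, if_pos rfl, hc]
        · rw [bLB, if_neg (by decide), if_pos rfl, if_pos (Or.inr (Or.inr ⟨rfl, hc⟩))]
    · refine (hb S T B h (t3.of_eq ?_)).congr gdB_b2.symm
      have h2 : ¬ ((3 : ZMod 4) = 1 ∨ ((3 : ZMod 4) = 0 ∧ bb (cB S T B) = 1) ∨
          ((3 : ZMod 4) = 2 ∧ aa (cB S T B) + bb (cB S T B) = 1)) := by
        rintro (h' | h' | h')
        · exact absurd h' (by decide)
        · exact absurd h'.1 (by decide)
        · exact absurd h'.1 (by decide)
      rw [bLB, if_neg (by decide), if_pos rfl, if_neg h2]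
  · refine (formB_J3 h ((t1 fun h' => absurd h'.1 (by decide)).of_eq ?_)).congr gdB_j3.symm
    rw [bLB, if_neg (by decide), if_neg (by decide)]

end

end Pool.Agent.Lib.MP_1a91b9_ntQ
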