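import Pool.Agent.Lib.MP_1a91b9_ntQ.B.FormF

/-!
# MP_1a91b9_nt (quartic twists), all fourth-power-free `D`, file FormG: the formula modulo `2` in the
classes (X) with `k = 0`, J2b and J2d, from the congruence of the value
-/

set_option autoImplicit false

namespace Pool.Agent.Lib.MP_1a91b9_ntQ

open NumberField IsDedekindDomain Finset Pool.Agent.Lib.MP_1a91b9_nuT

noncomputable section

variable {k : ZMod 4} {j : Fin 4} {S T B : Finset Pg}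

/-! ### The class (X), `k = 0` -/

theorem kkB_zero (h : Dj S T B) (ha : aa (cB S T B) = 0) (k : ZMod 4) : kkB k S T B = k := by
  have hs : ∑ q ∈ S ∪ T, aa q.1 = 0 := by rw [← aa_cB h.st B, ha]
  exact kkB_X h hs

theorem ek_zero : ek 0 = 2 := rfl

/-- class (X), `k = 0`, first order -/
theorem formB_X2_of (h : Dj S T B) (ha : aa (cB S T B) = 0) {r : Pg} (hr : r ∈ S ∪ T)
    (hT : TmB 0 0 S T B 1)
    (hV : ∀ A : ValuationSubring ℂ, (2 : ℂ)⁻¹ ∉ A →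
      Rt A (LaB (kkB 0 S T B) 0 (eB T B) (S ∪ T ∪ B) / (La4 0 ∅ *
        lm ^ ((S ∪ T).card + (UqB 0 0 S T B).card + 2 * (VB 0 0 S T B).card + 3)))
      ((pmG (MqB 0 0 S T B) (S ∪ T ∪ VB 0 0 S T B)).adjugate ⟨r, mem_union_left _ hr⟩
        ⟨r, mem_union_left _ hr⟩)) :
    FormQ (dB 0 0 S T B) (KerB0 0 0 S T B) := by
  have h0 : ((0 : Fin 4)).val = 0 := rfl
  have hκ := kkB_zero h ha 0
  obtain ⟨N, hN, -⟩ := f4_pow (0 : ZMod 4)
  have hn : ¬ ((0 : Fin 4) = 0 ∧ (0 : ZMod 4) = 2 ∧ nn (cB S T B) = 1) :=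
    fun h' => absurd h'.2.1 (by decide)
  refine form_cls h hn hT (κ := 0) hκ (N := N) (d := 3) (fB_val0 _ hN)
    (norm_La4 _ hN) ?_ (KerB0_iff h (by decide) rfl hr).symm fun A hA => ?_
  · rw [h0, ek_zero]
    push_cast
    ring
  · have h2 := hV A hA
    rw [hκ] at h2
    rw [wB0_eqd]
    exact h2

/-- class (X), `k = 0`, second order -/
theorem formB_X3_of (h : Dj S T B) (ha : aa (cB S T B) = 0) {r : Pg} (hr : r ∈ S ∪ T)
    (hT : TmB 0 0 S T B 2) {x : ZMod 2}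
    (hV : ∀ A : ValuationSubring ℂ, (2 : ℂ)⁻¹ ∉ A →
      Rt A (LaB (kkB 0 S T B) 0 (eB T B) (S ∪ T ∪ B) / (La4 0 ∅ *
        lm ^ ((S ∪ T).card + (UqB 0 0 S T B).card + 2 * (VB 0 0 S T B).card + 4)))
      ((BM (pmG (MqB 0 0 S T B) (S ∪ T ∪ VB 0 0 S T B)) (fun i => aa i.1.1) (fun i => aa i.1.1)
        x).adjugate (Sum.inl ⟨r, mem_union_left _ hr⟩) (Sum.inl ⟨r, mem_union_left _ hr⟩))) :
    FormQ (dB 0 0 S T B) (KerB1 0 0 ![1, 0] x S T B) := by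
  have h0 : ((0 : Fin 4)).val = 0 := rfl
  have hκ := kkB_zero h ha 0
  have hs : ∑ q ∈ S ∪ T, aa q.1 = 0 := by rw [← aa_cB h.st B, ha]
  obtain ⟨N, hN, -⟩ := f4_pow (0 : ZMod 4)
  have hn : ¬ ((0 : Fin 4) = 0 ∧ (0 : ZMod 4) = 2 ∧ nn (cB S T B) = 1) :=
    fun h' => absurd h'.2.1 (by decide)
  have hcr := KerB1_iff (k := 0) (j := 0) (x := x) h (by decide) rfl
    (p := ![1, 0]) (by rw [bpB_10]; exact hs) hr
  rw [bpB_10] at hcr
  refine form_cls h hn hT (κ := 0) hκ (N := N) (d := 4) (fB_val0 _ hN)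
    (norm_La4 _ hN) ?_ hcr.symm fun A hA => ?_
  · rw [h0, ek_zero]
    push_cast
    ring
  · have h2 := hV A hA
    rw [hκ] at h2
    rw [wB0_eqd]
    exact h2

/-! ### The class J2b -/

theorem formB_J2b_of (h : Dj S T B) (hT : TmB 3 2 S T B 2) {p : Fin 2 → ZMod 2} {x : ZMod 2}
    {Kc : ℂ} (hK : ‖Kc‖ ^ 2 = 2 ^ (11 / 2 : ℝ) * ‖Om‖ ^ 2)
    (hV : ∀ A : ValuationSubring ℂ, (2 : ℂ)⁻¹ ∉ A →
      Rt A (LaB (kkB 3 S T B) 2 (eB T B) (S ∪ T ∪ B) / (Kc *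
        lm ^ ((S ∪ T).card + (UqB 3 2 S T B).card + 2 * (VB 3 2 S T B).card)))
      (NB1 3 2 p x S T B).det) :
    FormQ (dB 3 2 S T B) (DetB1 3 2 p x S T B) := by
  have h3 : ((2 : Fin 4)).val = 2 := rfl
  have hk : ¬ ((3 : ZMod 4) = 0 ∨ (3 : ZMod 4) = 2) := by decide
  have hne : ¬ ((2 : Fin 4) = 0 ∧ (3 : ZMod 4) = 2 ∧ nn (cB S T B) = 1) :=
    fun h' => absurd h'.1 (by decide)
  refine form_cls (y := (NB1 3 2 p x S T B).det) h hne hT (κ := kkB 3 S T B) rfl (N := 6) (d := 0)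
    ?_ hK ?_ Iff.rfl fun A hA => ?_
  · rw [h3, fB, if_neg (by norm_num), if_pos rfl, if_neg (kkB_odd hk S T B)]
  · rw [h3]
    norm_num
  · rw [wB0_eq]
    exact hV A hA

/-! ### The class J2d -/

theorem formB_J2d_of (hk : k = 0 ∨ k = 2) (h : Dj S T B) {r : Pg} (hr : r ∈ S ∪ T)
    (hT : TmB k 2 S T B 2) {p : Fin 2 → ZMod 2} {x : ZMod 2} (hA : ∑ q ∈ S ∪ T, bpB p q = 0)
    {Kc : ℂ} {d : ℕ} {v : ℝ} (hK : ‖Kc‖ ^ 2 = 2 ^ v * ‖Om‖ ^ 2) (hv : (d : ℝ) + v = 9 / 2)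
    (hV : ∀ A : ValuationSubring ℂ, (2 : ℂ)⁻¹ ∉ A →
      Rt A (LaB (kkB k S T B) 2 (eB T B) (S ∪ T ∪ B) / (Kc *
        lm ^ ((S ∪ T).card + (UqB k 2 S T B).card + 2 * (VB k 2 S T B).card + d)))
      ((BM (pmG (MqB k 2 S T B) (S ∪ T ∪ VB k 2 S T B)) (fun i => bpB p i) (fun i => bpB p i)
        x).adjugate (Sum.inl ⟨r, mem_union_left _ hr⟩) (Sum.inl ⟨r, mem_union_left _ hr⟩))) :
    FormQ (dB k 2 S T B) (KerB1 k 2 p x S T B) := by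
  have h2v : ((2 : Fin 4)).val = 2 := rfl
  have hk0 : md k = 0 := by
    rcases hk with rfl | rfl
    · exact md_zero
    · exact md_two
  have hne : ¬ ((2 : Fin 4) = 0 ∧ k = 2 ∧ nn (cB S T B) = 1) := fun h' => absurd h'.1 (by decide)
  refine form_cls h hne hT (κ := kkB k S T B) rfl (N := 5) (d := d) ?_ hK ?_
    (KerB1_iff (j := 2) h hk0 rfl hA hr).symm fun A hA' => ?_
  · rw [h2v, fB, if_neg (by norm_num), if_pos rfl, if_pos (kkB_even hk S T B)]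
  · rw [h2v]
    push_cast
    linear_combination hv
  · rw [wB0_eqd]
    exact hV A hA'

end

end Pool.Agent.Lib.MP_1a91b9_ntQ
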