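import Pool.Agent.Lib.MP_1a91b9_ntQ.B.FormG
import Pool.Agent.Lib.MP_1a91b9_ntQ.B.TopX2B

/-!
# MP_1a91b9_nt (quartic twists), all fourth-power-free `D`, file FormH: the formula modulo `2` in the
class (X) with `k = 0`
-/

set_option autoImplicit false

namespace Pool.Agent.Lib.MP_1a91b9_ntQ

open NumberField IsDedekindDomain Finset Pool.Agent.Lib.MP_1a91b9_nuT

noncomputable section

theorem foX2 : FoX2 := by
  intro S T B h hne ha hb hT
  obtain ⟨r, hr⟩ := hne
  exact formB_X2_of h ha hr hT fun A hA => Rt_B_X2 hA h ha hb hr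

theorem foX3 : FoX3 := by
  intro S T B h hne ha hb hT
  obtain ⟨r, hr⟩ := hne
  exact formB_X3_of h ha hr hT fun A hA => Rt_B_X3 hA h ha hb hr

end

end Pool.Agent.Lib.MP_1a91b9_ntQ
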