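import Pool.Agent.Lib.MP_1a91b9_ntQ.B.PthR
import Pool.Agent.Lib.MP_1a91b9_ntQ.B.HHB
import Pool.Agent.Lib.MP_1a91b9_ntQ.A.EvX2

/-!
# Quartic twists, part B, file PthZ: the sums of products of the coordinates over the classes with trivial symbol

`xi`, `ze = xi + xi ^ 2`; `ze (z) ze (lam z)`, `ze (z) ze (lam ^ 2 z)`, `xi (z) xi (lam z)`: the sums over the
classes are sums over Hamiltonian paths.
-/

set_option autoImplicit false

namespace Pool.Agent.Lib.MP_1a91b9_ntQ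

open NumberField IsDedekindDomain Pool.Agent.Lib.MP_1a91b9_nuT Pool.Agent.Lib.MP_1a91b9_nuT.S3
  Pool.Agent.Lib.MP_1a91b9_nuT.Ell

noncomputable section

/-! ### The good coordinate modulo a place above `2` -/

section
variable {q0 : Pg} {kap : 𝓞 K} {S J : Finset Pg} {R : Type*} [CommRing R] [Algebra (ZMod 2) R]
  {ξ : ℂ → R}

/-- the path matrix -/
abbrev mOz (q0 : Pg) : Pg → Pg → ZMod 2 := nX s4 (fun q : Pg => aa q.1) q0

/-- the sum over the paths which start with the weights `l = c2 . lam` -/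
def PHO (q0 : Pg) (f : Pg → ZMod 2) (J : Finset Pg) : ZMod 2 :=
  ∑ r ∈ J, c2 r lam * Ham (mOz q0) f J r

theorem PHO_congr {f f' : Pg → ZMod 2} (h : ∀ q ∈ J, f q = f' q) : PHO q0 f J = PHO q0 f' J :=
  Finset.sum_congr rfl fun r hr => by rw [Ham_congr hr (fun _ _ _ _ _ => rfl) h]

theorem PHO_zero {f : Pg → ZMod 2} (h : ∀ q ∈ J, f q = 0) : PHO q0 f J = 0 := by
  rw [PHO_congr (f' := fun _ => 0) h, PHO]
  exact Finset.sum_eq_zero fun r _ => by rw [Ham_zero, mul_zero]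

/-- the paths when the symbols at `q0` are trivial -/
theorem PHO_s4 (hs : ∀ q ∈ J, s4 q0 q = 0) (f : Pg → ZMod 2) :
    PHO q0 f J = ∑ r ∈ J, c2 r lam * Ham s4 f J r := by
  refine Finset.sum_congr rfl fun r hr => ?_
  rw [Ham_congr hr (m' := s4) (f' := f) (fun i hi j _ _ => ?_) fun _ _ => rfl]
  rw [mOz, nX, mX, hs i hi, mul_zero, add_zero]

theorem PthD_xi (hX : XiR4 ξ) (h0 : aa q0.1 = 1) (hk : ∀ q : Pg, ¬ q.1 ∣ kap) (hq0 : q0 ∉ S) :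
    PthD q0 kap S ξ (fun _ => 1) (fun _ _ => 0) (fun _ => 0) 1 where
  per := hX.per
  neg z _ := hX.neg z
  wneg _ _ := rfl
  i _ _ := Or.inr hX.i
  dist r _ z hz := by rw [hX.dist r z hz, add_zero]
  low r _ J _ τ := by
    rw [HO_zero, zero_smul, ite_self]
  loww J hJ τ := by
    rw [HO_one h0 hk (fun h => hq0 (hJ h)), one_smul]

/-- the sum of `ze` -/
theorem HO_ze (hX : XiR4 ξ) (h0 : aa q0.1 = 1) (hk : ∀ q : Pg, ¬ q.1 ∣ kap) (hq0 : q0 ∉ J)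
    (hl0 : c2 q0 lam = 0) (τ : Pg → ZMod 2) :
    HO q0 kap (fun z => ξ z + ξ (lm * z)) J τ = PHO q0 (s4 q0) J • (1 : R) := by
  have h1 := (PthD_xi (S := J) hX h0 hk hq0).main h0 hk hq0 hl0 subset_rfl τ
  rw [HO_add, h1, PHO]
  congr 1
  refine Finset.sum_congr rfl fun r hr => ?_
  rw [Ham_congr hr (fun _ _ _ _ _ => rfl) fun q _ => by rw [zero_add, mul_one]]

omit [Algebra (ZMod 2) R] in
theorem xiR_per (hX : XiR4 ξ) (n : ℕ) {z l : ℂ} (hl : l ∈ PP.lattice) :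
    ξ (lm ^ n * (z + l)) = ξ (lm ^ n * z) := by
  rw [mul_add, hX.per _ _ (lm_pow_mem hl n)]

omit [Algebra (ZMod 2) R] in
theorem xiR_neg (hX : XiR4 ξ) (n : ℕ) (z : ℂ) : ξ (lm ^ n * -z) = ξ (lm ^ n * z) := by
  rw [mul_neg, hX.neg]

omit [Algebra (ZMod 2) R] in
theorem xiR_i (hX : XiR4 ξ) (n : ℕ) {z : ℂ} (hz : Od z) :
    ξ (lm ^ n * (zt * z)) = ξ (lm ^ n * z) + 1 := by
  have e : lm ^ n * (zt * z) = zt * (lm ^ n * z) := by ring
  rw [e, hX.i _ (hz.pow n)]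

omit [Algebra (ZMod 2) R] in
theorem xiR_sq (hX : XiR4 ξ) (n : ℕ) {z : ℂ} (hz : Od z) :
    ξ (lm ^ n * z) ^ 2 = ξ (lm ^ (n + 1) * z) := by
  rw [← hX.lm _ (hz.pow n)]
  congr 1
  ring

theorem c2_lam_pow (hl0 : c2 q0 lam = 0) (n : ℕ) : c2 q0 (lam ^ n) = 0 := by
  unfold c2 at hl0 ⊢
  rw [c4_pow q0 (lam_not_dvd q0), map_mul, hl0, mul_zero]

theorem cop_lam_pow (q0 : Pg) (J : Finset Pg) (n : ℕ) : IsCoprime (lam ^ n) (q0.1 * DDq J) :=
  (in4_cop_lam (qD_in4 q0 J) n).symm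

/-- **the sum of `ze (lam ^ n z)`** -/
theorem HO_ze_pow (hX : XiR4 ξ) (h0 : aa q0.1 = 1) (hk : ∀ q : Pg, ¬ q.1 ∣ kap) (hq0 : q0 ∉ J)
    (hl0 : c2 q0 lam = 0) (n : ℕ) (τ : Pg → ZMod 2) :
    HO q0 kap (fun z => ξ (lm ^ n * z) + ξ (lm ^ (n + 1) * z)) J τ =
      PHO q0 (s4 q0) J • (1 : R) := by
  have h1 := HO_subst (J := J) (h := fun z => ξ z + ξ (lm * z)) (u := lam ^ n) h0 hk
    (fun z l hl => by
      have h2 := xiR_per hX 1 (z := z) hl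
      rw [pow_one] at h2
      rw [hX.per _ _ hl, h2]) (cop_lam_pow q0 J n)
    (fun z _ => by
      have h2 := xiR_neg hX 1 z
      rw [pow_one] at h2
      rw [hX.neg, h2]) (Or.inl (c2_lam_pow hl0 n)) τ
  rw [HO_ze hX h0 hk hq0 hl0] at h1
  rw [← h1]
  refine HO_congr_f fun z _ => ?_
  rw [em_pow, em_lam]
  congr 2
  ring

/-! ### `ze (z) ze (lam z)` -/

theorem PthD_h3 (hX : XiR4 ξ) (h0 : aa q0.1 = 1) (hk : ∀ q : Pg, ¬ q.1 ∣ kap) (hq0 : q0 ∉ S)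
    (T3 : ∀ r : Pg, ∀ z, Od (em r.1 * z) → SM r.1 (fun u =>
      (ξ (z + em u / em r.1) + ξ (lm * (z + em u / em r.1))) *
        (ξ (lm * (z + em u / em r.1)) + ξ (lm ^ 2 * (z + em u / em r.1)))) =
      (ξ (em r.1 * z) + ξ (lm * (em r.1 * z))) * (ξ (lm * (em r.1 * z)) +
        ξ (lm ^ 2 * (em r.1 * z))) + aa r.1 • (1 : R)) :
    PthD q0 kap S (fun z => (ξ z + ξ (lm * z)) * (ξ (lm * z) + ξ (lm ^ 2 * z))) (fun _ => 0)
      (fun r _ => aa r.1 • (1 : R)) (fun r => aa r.1) 0 where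
  per z l hl := by
    have h1 := xiR_per hX 1 (z := z) hl
    rw [pow_one] at h1
    change (ξ (z + l) + ξ (lm * (z + l))) * (ξ (lm * (z + l)) + ξ (lm ^ 2 * (z + l))) = _
    rw [hX.per _ _ hl, h1, xiR_per hX 2 hl]
  neg z _ := by
    have h1 := xiR_neg hX 1 z
    rw [pow_one] at h1
    change (ξ (-z) + ξ (lm * -z)) * (ξ (lm * -z) + ξ (lm ^ 2 * -z)) = _
    rw [hX.neg, h1, xiR_neg hX 2]
  wneg _ _ := rfl
  i r _ := Or.inr fun z hz => by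
    have h1 := xiR_i hX 1 hz
    rw [pow_one] at h1
    change (ξ (zt * z) + ξ (lm * (zt * z))) * (ξ (lm * (zt * z)) + ξ (lm ^ 2 * (zt * z))) = _
    rw [hX.i _ hz, h1, xiR_i hX 2 hz, add_zero]
    have h2 := PthR_two (1 : R)
    linear_combination (ξ (lm * z) + ξ (lm ^ 2 * z) + ξ z + ξ (lm * z) + 1 + 1) * h2
  dist r _ z hz := T3 r z hz
  low r _ J hJ τ := HO_const h0 hk (fun h => hq0 (hJ h)) τ _
  loww J _ τ := by
    rw [HO_zero, zero_smul, ite_self]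

/-! ### `xi (z) xi (lam z)` -/

theorem PthD_p1 (hX : XiR4 ξ) (hs : ∀ q ∈ S, s4 q0 q = 0)
    (T1 : ∀ r : Pg, ∀ z, Od (em r.1 * z) → SM r.1 (fun u =>
      ξ (z + em u / em r.1) * ξ (lm * (z + em u / em r.1))) =
      ξ (em r.1 * z) * ξ (lm * (em r.1 * z))) :
    PthD q0 kap S (fun z => ξ z * ξ (lm * z)) (fun _ => 0) (fun _ _ => 0) (fun _ => 0) 0 where
  per z l hl := by
    have h1 := xiR_per hX 1 (z := z) hl
    rw [pow_one] at h1
    change ξ (z + l) * ξ (lm * (z + l)) = _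
    rw [hX.per _ _ hl, h1]
  neg z _ := by
    have h1 := xiR_neg hX 1 z
    rw [pow_one] at h1
    change ξ (-z) * ξ (lm * -z) = _
    rw [hX.neg, h1]
  wneg _ _ := rfl
  i r hr := Or.inl (hs r hr)
  dist r _ z hz := by
    rw [T1 r z hz, add_zero]
  low r _ J _ τ := by
    rw [HO_zero, zero_smul, ite_self]
  loww J _ τ := by
    rw [HO_zero, zero_smul, ite_self]

/-! ### `ze (z) ze (lam ^ 2 z)` -/

theorem PthD_h5 (hX : XiR4 ξ) (h0 : aa q0.1 = 1) (hk : ∀ q : Pg, ¬ q.1 ∣ kap) (hq0 : q0 ∉ S)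
    (hl0 : c2 q0 lam = 0) (hs : ∀ q ∈ S, s4 q0 q = 0)
    (T5 : ∀ r : Pg, ∀ z, Od (em r.1 * z) → SM r.1 (fun u =>
      (ξ (z + em u / em r.1) + ξ (lm * (z + em u / em r.1))) *
        (ξ (lm ^ 2 * (z + em u / em r.1)) + ξ (lm ^ 3 * (z + em u / em r.1)))) =
      (ξ (em r.1 * z) + ξ (lm * (em r.1 * z))) * (ξ (lm ^ 2 * (em r.1 * z)) +
        ξ (lm ^ 3 * (em r.1 * z))) + (aa r.1 • (ξ (lm ^ 1 * (em r.1 * z)) +
        ξ (lm ^ (1 + 1) * (em r.1 * z))) + (aa r.1 + bb r.1) • (1 : R))) :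
    PthD q0 kap S (fun z => (ξ z + ξ (lm * z)) * (ξ (lm ^ 2 * z) + ξ (lm ^ 3 * z))) (fun _ => 0)
      (fun r z => aa r.1 • (ξ (lm ^ 1 * z) + ξ (lm ^ (1 + 1) * z)) +
        (aa r.1 + bb r.1) • (1 : R)) (fun r => aa r.1 + bb r.1) 0 where
  per z l hl := by
    have h1 := xiR_per hX 1 (z := z) hl
    rw [pow_one] at h1
    change (ξ (z + l) + ξ (lm * (z + l))) * (ξ (lm ^ 2 * (z + l)) + ξ (lm ^ 3 * (z + l))) = _
    rw [hX.per _ _ hl, h1, xiR_per hX 2 hl, xiR_per hX 3 hl]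
  neg z _ := by
    have h1 := xiR_neg hX 1 z
    rw [pow_one] at h1
    change (ξ (-z) + ξ (lm * -z)) * (ξ (lm ^ 2 * -z) + ξ (lm ^ 3 * -z)) = _
    rw [hX.neg, h1, xiR_neg hX 2, xiR_neg hX 3]
  wneg _ _ := rfl
  i r hr := Or.inl (hs r hr)
  dist r _ z hz := T5 r z hz
  low r _ J hJ τ := by
    have hq0J : q0 ∉ J := fun h => hq0 (hJ h)
    rw [HO_add, HO_smul, HO_ze_pow hX h0 hk hq0J hl0, HO_const h0 hk hq0J,
      PHO_zero fun q hq => hs q (hJ hq), zero_smul, smul_zero, zero_add]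
  loww J _ τ := by
    rw [HO_zero, zero_smul, ite_self]

end

/-! ### The residues of the sums -/

section
variable {B : ValuationSubring ℂ} {q0 : Pg} {kap : 𝓞 K} {J : Finset Pg} {τ : Pg → ZMod 2}

theorem rsd_SM {M : 𝓞 K} (hM : M ≠ 0) {F : 𝓞 K → ℂ} (hF : ∀ u, F u ∈ B) :
    SM M F ∈ B ∧ rsd B (SM M F) = SM M fun u => rsd B (F u) := by
  have hfin := SM_finite hM
  let _ : Fintype (𝓞 K ⧸ Ideal.span {M}) := Fintype.ofFinite _
  rw [SM, SM, finsum_eq_sum_of_fintype, finsum_eq_sum_of_fintype]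
  obtain ⟨h1, h2⟩ := rsd_sum (Finset.univ : Finset (𝓞 K ⧸ Ideal.span {M})) (z := fun x => F x.out)
    fun i _ => hF _
  exact ⟨h2, h1⟩

/-- the residue of a sum over the classes -/
theorem rsd_SO (hB : (2 : ℂ)⁻¹ ∉ B) {f : ℂ → ℂ} (hf : ∀ z, Od z → f z ∈ B)
    {W : 𝓞 K → ℂ} (hW : ∀ y, OmX q0 kap J y → Rt B (W y) (∏ q ∈ J, (c2 q (kap * y) + τ q))) :
    letI := rsdAlg hB
    SO q0 kap J (fun y => W y * f (em y / em (q0.1 * DDq J))) ∈ B ∧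
      rsd B (SO q0 kap J (fun y => W y * f (em y / em (q0.1 * DDq J)))) =
        HO q0 kap (fun z => rsd B (f z)) J τ := by
  classical
  let i1 := rsdAlg hB
  have hM := qD_ne q0 J
  have h1 : ∀ y, (if OmX q0 kap J y then W y * f (em y / em (q0.1 * DDq J)) else 0) ∈ B := by
    intro y
    by_cases hy : OmX q0 kap J y
    · rw [if_pos hy]
      exact Subring.mul_mem _ ((rt_iff hB).1 (hW y hy)).1 (hf _ hy.od)
    · rw [if_neg hy]
      exact zero_mem B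
  obtain ⟨h2, h3⟩ := rsd_SM hM h1
  refine ⟨h2, h3.trans ?_⟩
  unfold HO
  refine SM_congr fun y => ?_
  by_cases hy : OmX q0 kap J y
  · rw [if_pos hy, gO_pos hy, rsd_mul ((rt_iff hB).1 (hW y hy)).1 (hf _ hy.od),
      ((rt_iff hB).1 (hW y hy)).2, Algebra.smul_def]
  · rw [if_neg hy, gO_neg hy, zero_smul, rsd_zero]

/-- the class of a sum over the classes -/
theorem Rt_SO (hB : (2 : ℂ)⁻¹ ∉ B) {f : ℂ → ℂ} (hf : ∀ z, Od z → f z ∈ B)
    {W : 𝓞 K → ℂ} (hW : ∀ y, OmX q0 kap J y → Rt B (W y) (∏ q ∈ J, (c2 q (kap * y) + τ q)))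
    {x : ZMod 2} (hx : letI := rsdAlg hB
      HO q0 kap (fun z => rsd B (f z)) J τ = x • (1 : IsLocalRing.ResidueField B)) :
    Rt B (SO q0 kap J (fun y => W y * f (em y / em (q0.1 * DDq J)))) x := by
  let i1 := rsdAlg hB
  obtain ⟨h1, h2⟩ := rsd_SO hB hf hW
  rw [rt_iff hB]
  refine ⟨h1, h2.trans (hx.trans ?_)⟩
  rw [Algebra.algebraMap_eq_smul_one]

theorem wtB_W (hB : (2 : ℂ)⁻¹ ∉ B) (hk : ∀ q : Pg, ¬ q.1 ∣ kap) {ex : Pg → ZMod 4}
    (he : ∀ q ∈ J, ex q ≠ 0) {y : 𝓞 K} (hy : OmX q0 kap J y) :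
    Rt B (wtB ex J (kap * y)) (∏ q ∈ J, (c2 q (kap * y) + (fun _ => 0 : Pg → ZMod 2) q)) := by
  have h := Rt_wtB hB (S := J) (e := ex) (x := kap * y) he fun q hq => hy.ndk hk hq
  have e : (∏ q ∈ J, (c2 q (kap * y) + (fun _ => 0 : Pg → ZMod 2) q)) = ∏ q ∈ J, c2 q (kap * y) :=
    Finset.prod_congr rfl fun q _ => add_zero _
  rw [e]
  exact h

/-- the class of `GX` with the weights `wtB` -/
theorem Rt_GX (hB : (2 : ℂ)⁻¹ ∉ B) (hk : ∀ q : Pg, ¬ q.1 ∣ kap) {ex : Pg → ZMod 4}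
    (he : ∀ q ∈ J, ex q ≠ 0) {f : ℂ → ℂ} (hf : ∀ z, Od z → f z ∈ B)
    {x : ZMod 2} (hx : letI := rsdAlg hB
      HO q0 kap (fun z => rsd B (f z)) J (fun _ => 0) =
        x • (1 : IsLocalRing.ResidueField B)) :
    Rt B (GX q0 kap (wtB ex J) f J) x := by
  rw [GX_SO]
  exact Rt_SO hB hf (fun y hy => wtB_W hB hk he hy) hx

theorem ze_memB (hB : (2 : ℂ)⁻¹ ∉ B) {z : ℂ} (hz : Od z) : ze z ∈ B := mem_iff'.2 (v_ze hB hz)

/-- the residue of `ze` -/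
theorem rsd_ze (hB : (2 : ℂ)⁻¹ ∉ B) {z : ℂ} (hz : Od z) :
    rsd B (ze z) = rsd B (xi z) + rsd B (xi (lm * z)) := by
  have h1 := xi_mem hB hz
  rw [ze, rsd_add h1 (Subring.pow_mem _ h1 2), rsd_pow h1]
  congr 1
  exact ((xiR4 hB).lm z hz).symm

theorem rsd_ze_pow (hB : (2 : ℂ)⁻¹ ∉ B) {z : ℂ} (hz : Od z) (n : ℕ) :
    rsd B (ze (lm ^ n * z)) = rsd B (xi (lm ^ n * z)) + rsd B (xi (lm ^ (n + 1) * z)) := by
  rw [rsd_ze hB (hz.pow n)]
  congr 3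
  ring

/-- **the sums of `ze (lam ^ n z)`** -/
theorem Rt_GX_ze (hB : (2 : ℂ)⁻¹ ∉ B) (h0 : aa q0.1 = 1) (hk : ∀ q : Pg, ¬ q.1 ∣ kap)
    (hq0 : q0 ∉ J) (hl0 : bb q0.1 = 0) {ex : Pg → ZMod 4} (he : ∀ q ∈ J, ex q ≠ 0) (n : ℕ) :
    Rt B (GX q0 kap (wtB ex J) (fun z => ze (lm ^ n * z)) J) (PHO q0 (s4 q0) J) := by
  let i1 := rsdAlg hB
  have hX := xiR4 hB
  refine Rt_GX hB hk he (fun z hz => ze_memB hB (hz.pow n)) ?_
  rw [← HO_ze_pow hX h0 hk hq0 (by rw [c2_lam, hl0]) n fun _ => 0]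
  exact HO_congr_f fun z hz => rsd_ze_pow hB hz n

end

/-! ### The traces -/

/-- the trace of `ze (z) ze (lam z)` -/
def Tr3 (B : ValuationSubring ℂ) : Prop := ∀ (r : Pg) (z : ℂ), Od (em r.1 * z) →
  B.valuation (SM r.1 (fun u => ze (z + em u / em r.1) * ze (lm * (z + em u / em r.1))) -
    (ze (em r.1 * z) * ze (lm * (em r.1 * z)) + ((aa r.1).val : ℂ))) < 1

/-- the trace of `ze (z) ze (lam ^ 2 z)` -/
def Tr5 (B : ValuationSubring ℂ) : Prop := ∀ (r : Pg) (z : ℂ), Od (em r.1 * z) →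
  B.valuation (SM r.1 (fun u => ze (z + em u / em r.1) * ze (lm ^ 2 * (z + em u / em r.1))) -
    (ze (em r.1 * z) * ze (lm ^ 2 * (em r.1 * z)) + ((aa r.1).val : ℂ) * ze (em r.1 * z) ^ 2 +
      ((aa r.1 + bb r.1).val : ℂ))) < 1

/-- the trace of `xi (z) xi (lam z)` -/
def Tr1 (B : ValuationSubring ℂ) : Prop := ∀ (r : Pg) (z : ℂ), Od (em r.1 * z) →
  B.valuation (SM r.1 (fun u => xi (z + em u / em r.1) * xi (lm * (z + em u / em r.1))) -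
    xi (em r.1 * z) * xi (lm * (em r.1 * z))) < 1

section
variable {B : ValuationSubring ℂ} {q0 : Pg} {kap : 𝓞 K} {J : Finset Pg} {ex : Pg → ZMod 4}

theorem od_add {r : Pg} {z : ℂ} (hz : Od (em r.1 * z)) (u : 𝓞 K) : Od (z + em u / em r.1) :=
  Od.of_q hz (by
    have h := em_ne r.ne_zero
    rw [mul_div_cancel₀ _ h]
    exact em_mem u)

theorem rsd_val (hB : (2 : ℂ)⁻¹ ∉ B) (x : ZMod 2) :
    letI := rsdAlg hB
    rsd B ((x.val : ℕ) : ℂ) = x • (1 : IsLocalRing.ResidueField B) := by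
  let i1 := rsdAlg hB
  rw [rsd_nat, ← rsd_algN hB, ZMod.natCast_zmod_val, Algebra.algebraMap_eq_smul_one]

theorem Tr3.R (hB : (2 : ℂ)⁻¹ ∉ B) (h : Tr3 B) (r : Pg) (z : ℂ) (hz : Od (em r.1 * z)) :
    letI := rsdAlg hB
    SM r.1 (fun u => (rsd B (xi (z + em u / em r.1)) + rsd B (xi (lm * (z + em u / em r.1)))) *
        (rsd B (xi (lm * (z + em u / em r.1))) + rsd B (xi (lm ^ 2 * (z + em u / em r.1))))) =
      (rsd B (xi (em r.1 * z)) + rsd B (xi (lm * (em r.1 * z)))) *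
        (rsd B (xi (lm * (em r.1 * z))) + rsd B (xi (lm ^ 2 * (em r.1 * z)))) +
        aa r.1 • (1 : IsLocalRing.ResidueField B) := by
  let i1 := rsdAlg hB
  have e1 : ∀ w, Od w → rsd B (ze w * ze (lm * w)) = (rsd B (xi w) + rsd B (xi (lm * w))) *
      (rsd B (xi (lm * w)) + rsd B (xi (lm ^ 2 * w))) := by
    intro w hw
    rw [rsd_mul (ze_memB hB hw) (ze_memB hB (by have := hw.pow 1; rwa [pow_one] at this)),
      rsd_ze hB hw, rsd_ze hB (by have := hw.pow 1; rwa [pow_one] at this)]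
    congr 3
    ring
  have hm : ∀ w, Od w → ze w * ze (lm * w) ∈ B := fun w hw =>
    Subring.mul_mem _ (ze_memB hB hw) (ze_memB hB (by have := hw.pow 1; rwa [pow_one] at this))
  have h1 := h r z hz
  have h2 : ze (em r.1 * z) * ze (lm * (em r.1 * z)) + ((aa r.1).val : ℂ) ∈ B :=
    add_mem (hm _ hz) (natCast_mem B _)
  have h3 := (rsd_congr h2 h1).2
  have h4 := (rsd_SM r.ne_zero (F := fun u => ze (z + em u / em r.1) *
    ze (lm * (z + em u / em r.1))) fun u => hm _ (od_add hz u)).2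
  rw [h4, rsd_add (hm _ hz) (natCast_mem B _), rsd_val hB, e1 _ hz] at h3
  rw [← h3]
  exact SM_congr fun u => (e1 _ (od_add hz u)).symm

theorem Tr1.R (hB : (2 : ℂ)⁻¹ ∉ B) (h : Tr1 B) (r : Pg) (z : ℂ) (hz : Od (em r.1 * z)) :
    SM r.1 (fun u => rsd B (xi (z + em u / em r.1)) * rsd B (xi (lm * (z + em u / em r.1)))) =
      rsd B (xi (em r.1 * z)) * rsd B (xi (lm * (em r.1 * z))) := by
  have hl : ∀ {w}, Od w → Od (lm * w) := fun {w} hw => by have := hw.pow 1; rwa [pow_one] at this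
  have e1 : ∀ w, Od w → rsd B (xi w * xi (lm * w)) = rsd B (xi w) * rsd B (xi (lm * w)) :=
    fun w hw => rsd_mul (xi_mem hB hw) (xi_mem hB (hl hw))
  have hm : ∀ w, Od w → xi w * xi (lm * w) ∈ B := fun w hw =>
    Subring.mul_mem _ (xi_mem hB hw) (xi_mem hB (hl hw))
  have h3 := (rsd_congr (hm _ hz) (h r z hz)).2
  have h4 := (rsd_SM r.ne_zero (F := fun u => xi (z + em u / em r.1) *
    xi (lm * (z + em u / em r.1))) fun u => hm _ (od_add hz u)).2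
  rw [h4, e1 _ hz] at h3
  rw [← h3]
  exact SM_congr fun u => (e1 _ (od_add hz u)).symm

theorem Tr5.R (hB : (2 : ℂ)⁻¹ ∉ B) (h : Tr5 B) (r : Pg) (z : ℂ) (hz : Od (em r.1 * z)) :
    letI := rsdAlg hB
    SM r.1 (fun u => (rsd B (xi (z + em u / em r.1)) + rsd B (xi (lm * (z + em u / em r.1)))) *
        (rsd B (xi (lm ^ 2 * (z + em u / em r.1))) + rsd B (xi (lm ^ 3 * (z + em u / em r.1))))) =
      (rsd B (xi (em r.1 * z)) + rsd B (xi (lm * (em r.1 * z)))) *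
        (rsd B (xi (lm ^ 2 * (em r.1 * z))) + rsd B (xi (lm ^ 3 * (em r.1 * z)))) +
        (aa r.1 • (rsd B (xi (lm ^ 1 * (em r.1 * z))) + rsd B (xi (lm ^ (1 + 1) * (em r.1 * z)))) +
        (aa r.1 + bb r.1) • (1 : IsLocalRing.ResidueField B)) := by
  let i1 := rsdAlg hB
  have e1 : ∀ w, Od w → rsd B (ze w * ze (lm ^ 2 * w)) = (rsd B (xi w) + rsd B (xi (lm * w))) *
      (rsd B (xi (lm ^ 2 * w)) + rsd B (xi (lm ^ 3 * w))) := by
    intro w hw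
    rw [rsd_mul (ze_memB hB hw) (ze_memB hB (hw.pow 2)), rsd_ze hB hw, rsd_ze_pow hB hw 2]
  have e2 : ∀ w, Od w → rsd B (ze w ^ 2) = rsd B (xi (lm ^ 1 * w)) + rsd B (xi (lm ^ (1 + 1) * w)) := by
    intro w hw
    have hX := xiR4 hB
    have h5 : rsd B (xi w) ^ 2 = rsd B (xi (lm * w)) := (hX.lm w hw).symm
    have h6 : rsd B (xi (lm * w)) ^ 2 = rsd B (xi (lm ^ (1 + 1) * w)) := by
      have h6 := xiR_sq hX 1 hw
      rw [pow_one] at h6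
      exact h6
    rw [rsd_pow (ze_memB hB hw), rsd_ze hB hw, pow_one, ← h6]
    have h7 := PthR_two (rsd B (xi w) * rsd B (xi (lm * w)))
    linear_combination h7 + h5
  have hm : ∀ w, Od w → ze w * ze (lm ^ 2 * w) ∈ B := fun w hw =>
    Subring.mul_mem _ (ze_memB hB hw) (ze_memB hB (hw.pow 2))
  have hm2 : ((aa r.1).val : ℂ) * ze (em r.1 * z) ^ 2 ∈ B :=
    Subring.mul_mem _ (natCast_mem B _) (Subring.pow_mem _ (ze_memB hB hz) 2)
  have h1 := h r z hz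
  have h2 : ze (em r.1 * z) * ze (lm ^ 2 * (em r.1 * z)) + ((aa r.1).val : ℂ) *
      ze (em r.1 * z) ^ 2 + ((aa r.1 + bb r.1).val : ℂ) ∈ B :=
    add_mem (add_mem (hm _ hz) hm2) (natCast_mem B _)
  have h3 := (rsd_congr h2 h1).2
  have h4 := (rsd_SM r.ne_zero (F := fun u => ze (z + em u / em r.1) *
    ze (lm ^ 2 * (z + em u / em r.1))) fun u => hm _ (od_add hz u)).2
  rw [h4, rsd_add (add_mem (hm _ hz) hm2) (natCast_mem B _), rsd_add (hm _ hz) hm2,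
    rsd_mul (natCast_mem B _) (Subring.pow_mem _ (ze_memB hB hz) 2), rsd_val hB, rsd_val hB,
    e1 _ hz, e2 _ hz, smul_mul_assoc, one_mul, add_assoc] at h3
  rw [← h3]
  exact SM_congr fun u => (e1 _ (od_add hz u)).symm

end

/-! ### The path sums -/

section
variable {B : ValuationSubring ℂ} {q0 : Pg} {kap : 𝓞 K} {J : Finset Pg} {ex : Pg → ZMod 4}

/-- **the sum of `ze (z) ze (lam z) + ze (lam z) ze (lam ^ 2 z)`** -/
theorem Rt_GX_h3 (hB : (2 : ℂ)⁻¹ ∉ B) (hT : Tr3 B) (h0 : aa q0.1 = 1)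
    (hk : ∀ q : Pg, ¬ q.1 ∣ kap) (hq0 : q0 ∉ J) (hl0 : bb q0.1 = 0) (he : ∀ q ∈ J, ex q ≠ 0) :
    Rt B (GX q0 kap (wtB ex J) (fun z => ze z * ze (lm * z) + ze (lm * z) * ze (lm ^ 2 * z)) J)
      (PHO q0 (fun q => aa q.1) J) := by
  let i1 := rsdAlg hB
  have hX := xiR4 hB
  have hl : ∀ {w}, Od w → Od (lm * w) := fun {w} hw => by have := hw.pow 1; rwa [pow_one] at this
  have hm : ∀ w, Od w → ze w * ze (lm * w) ∈ B := fun w hw =>
    Subring.mul_mem _ (ze_memB hB hw) (ze_memB hB (hl hw))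
  have hm2 : ∀ w, Od w → ze (lm * w) * ze (lm ^ 2 * w) ∈ B := fun w hw =>
    Subring.mul_mem _ (ze_memB hB (hl hw)) (ze_memB hB (hw.pow 2))
  refine Rt_GX hB hk he (fun z hz => add_mem (hm z hz) (hm2 z hz)) ?_
  have h1 := (PthD_h3 (S := J) hX h0 hk hq0 (hT.R hB)).main h0 hk hq0 (by rw [c2_lam, hl0])
    subset_rfl fun _ => 0
  rw [← HO_add] at h1
  have h2 : (∑ r ∈ J, c2 r lam * Ham (nX s4 (fun q : Pg => aa q.1) q0)
      (fun q => aa q.1 + s4 q0 q * 0) J r) = PHO q0 (fun q => aa q.1) J :=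
    Finset.sum_congr rfl fun r hr => by
      rw [Ham_congr hr (fun _ _ _ _ _ => rfl) fun q _ => by rw [mul_zero, add_zero]]
  rw [h2] at h1
  rw [← h1]
  refine HO_congr_f fun z hz => ?_
  rw [rsd_add (hm z hz) (hm2 z hz), rsd_mul (ze_memB hB hz) (ze_memB hB (hl hz)),
    rsd_mul (ze_memB hB (hl hz)) (ze_memB hB (hz.pow 2)), rsd_ze hB hz, rsd_ze hB (hl hz),
    rsd_ze hB (hz.pow 2)]
  have e1 : lm * (lm * z) = lm ^ 2 * z := by ring
  have e2 : lm * (lm ^ 2 * z) = lm ^ 2 * (lm * z) := by ring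
  rw [e1, e2]

/-- **the sum of `(ze z + ze (lam ^ 3 z)) (ze (lam z) + ze (lam ^ 2 z))`** -/
theorem Rt_GX_h5 (hB : (2 : ℂ)⁻¹ ∉ B) (hT : Tr3 B) (hT5 : Tr5 B) (h0 : aa q0.1 = 1)
    (hk : ∀ q : Pg, ¬ q.1 ∣ kap) (hq0 : q0 ∉ J) (hl0 : bb q0.1 = 0) (hs : ∀ q ∈ J, s4 q0 q = 0)
    (he : ∀ q ∈ J, ex q ≠ 0) :
    Rt B (GX q0 kap (wtB ex J) (fun z => (ze z + ze (lm ^ 3 * z)) *
      (ze (lm * z) + ze (lm ^ 2 * z))) J)
      (∑ r ∈ J, c2 r lam * Ham s4 (fun q => aa q.1 + bb q.1) J r) := by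
  let i1 := rsdAlg hB
  have hX := xiR4 hB
  have hc0 : c2 q0 lam = 0 := by rw [c2_lam, hl0]
  have hl : ∀ {w}, Od w → Od (lm * w) := fun {w} hw => by have := hw.pow 1; rwa [pow_one] at this
  have m1 : ∀ w, Od w → ze w + ze (lm ^ 3 * w) ∈ B := fun w hw =>
    add_mem (ze_memB hB hw) (ze_memB hB (hw.pow 3))
  have m2 : ∀ w, Od w → ze (lm * w) + ze (lm ^ 2 * w) ∈ B := fun w hw =>
    add_mem (ze_memB hB (hl hw)) (ze_memB hB (hw.pow 2))
  refine Rt_GX hB hk he (fun z hz => Subring.mul_mem _ (m1 z hz) (m2 z hz)) ?_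
  set ξ : ℂ → IsLocalRing.ResidueField B := fun z => rsd B (xi z) with hξ
  have H3 := PthD_h3 (S := J) hX h0 hk hq0 (hT.R hB)
  have H5 := PthD_h5 (S := J) hX h0 hk hq0 hc0 hs (hT5.R hB)
  have h1 := H5.main h0 hk hq0 hc0 subset_rfl fun _ => 0
  have h2 : (∑ r ∈ J, c2 r lam * Ham (nX s4 (fun q : Pg => aa q.1) q0)
      (fun q => aa q.1 + bb q.1 + s4 q0 q * 0) J r) =
      ∑ r ∈ J, c2 r lam * Ham s4 (fun q => aa q.1 + bb q.1) J r := by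
    rw [← PHO_s4 hs]
    exact Finset.sum_congr rfl fun r hr => by
      rw [Ham_congr hr (fun _ _ _ _ _ => rfl) fun q _ => by rw [mul_zero, add_zero]]
  rw [h2] at h1
  have h3 := HO_subst (J := J) (u := lam ^ 2)
    (h := fun z => (ξ z + ξ (lm * z)) * (ξ (lm * z) + ξ (lm ^ 2 * z)))
    h0 hk H3.per (cop_lam_pow q0 J 2) H3.neg
    (Or.inl (c2_lam_pow hc0 2)) fun _ => 0
  have h4 : HO q0 kap (fun z => (ξ z + ξ (lm * z)) * (ξ (lm * z) + ξ (lm ^ 2 * z))) J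
      (fun k => 0 + (c2 k (lam ^ 2) + c2 q0 (lam ^ 2) * aa k.1)) =
      HO q0 kap (fun z => (ξ z + ξ (lm * z)) * (ξ (lm * z) + ξ (lm ^ 2 * z))) J
      (fun _ => 0) := by
    refine HO_congr fun k _ => ?_
    have e : c2 k (lam ^ 2) = 0 := by
      unfold c2
      rw [c4_pow k (lam_not_dvd k)]
      have h2 : ∀ t : ZMod 4, md (((2 : ℕ) : ZMod 4) * t) = 0 := by decide
      exact h2 _
    rw [e, c2_lam_pow hc0 2, zero_mul, add_zero, add_zero]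
  rw [h4, em_pow, em_lam] at h3
  rw [← h1]
  have h5 := PthR_two (HO q0 kap (fun z => (ξ z + ξ (lm * z)) * (ξ (lm * z) + ξ (lm ^ 2 * z))) J
      (fun _ => 0))
  nth_rewrite 2 [← h3] at h5
  rw [← HO_add, ← add_zero (HO q0 kap _ J _), ← h5, ← HO_add, ← HO_add]
  refine HO_congr_f fun z hz => ?_
  rw [rsd_mul (m1 z hz) (m2 z hz), rsd_add (ze_memB hB hz) (ze_memB hB (hz.pow 3)),
    rsd_add (ze_memB hB (hl hz)) (ze_memB hB (hz.pow 2)), rsd_ze hB hz, rsd_ze hB (hl hz),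
    rsd_ze hB (hz.pow 2), rsd_ze hB (hz.pow 3)]
  have e1 : lm * (lm * z) = lm ^ 2 * z := by ring
  have e2 : lm * (lm ^ 2 * z) = lm ^ 3 * z := by ring
  have e3 : lm * (lm ^ 3 * z) = lm ^ 4 * z := by ring
  have e4 : lm ^ 2 * (lm * z) = lm ^ 3 * z := by ring
  have e5 : lm ^ 3 * (lm * z) = lm ^ 4 * z := by ring
  have e6 : lm ^ 2 * (lm ^ 2 * z) = lm ^ 4 * z := by ring
  simp only [hξ, e1, e2, e3, e4, e5, e6]
  have h6 := PthR_two (1 : IsLocalRing.ResidueField B)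
  linear_combination (rsd B (xi z) * rsd B (xi (lm * z)) + rsd B (xi z) * rsd B (xi (lm ^ 2 * z)) +
    rsd B (xi (lm * z)) * rsd B (xi (lm ^ 2 * z)) + rsd B (xi (lm * z)) ^ 2 +
    rsd B (xi (lm ^ 3 * z)) * rsd B (xi (lm ^ 4 * z)) +
    rsd B (xi (lm ^ 3 * z)) * rsd B (xi (lm ^ 2 * z)) + rsd B (xi (lm ^ 3 * z)) ^ 2 +
    rsd B (xi (lm ^ 4 * z)) * rsd B (xi (lm ^ 2 * z))) * h6

/-- **the sum of `xi (lam ^ 2 z) (ze (lam z) + ze (lam ^ 2 z))`** -/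
theorem v_GX_p1 (hB : (2 : ℂ)⁻¹ ∉ B) (hT1 : Tr1 B) (h0 : aa q0.1 = 1)
    (hk : ∀ q : Pg, ¬ q.1 ∣ kap) (hq0 : q0 ∉ J) (hl0 : bb q0.1 = 0) (hs : ∀ q ∈ J, s4 q0 q = 0)
    (he : ∀ q ∈ J, ex q ≠ 0) :
    B.valuation (GX q0 kap (wtB ex J) (fun z => xi (lm ^ 2 * z) *
      (ze (lm * z) + ze (lm ^ 2 * z))) J) < 1 := by
  let i1 := rsdAlg hB
  have hX := xiR4 hB
  have hc0 : c2 q0 lam = 0 := by rw [c2_lam, hl0]
  have hl : ∀ {w}, Od w → Od (lm * w) := fun {w} hw => by have := hw.pow 1; rwa [pow_one] at this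
  have m1 : ∀ w, Od w → xi (lm ^ 2 * w) ∈ B := fun w hw => xi_mem hB (hw.pow 2)
  have m2 : ∀ w, Od w → ze (lm * w) + ze (lm ^ 2 * w) ∈ B := fun w hw =>
    add_mem (ze_memB hB (hl hw)) (ze_memB hB (hw.pow 2))
  refine (Rt_GX (x := 0) hB hk he (fun z hz => Subring.mul_mem _ (m1 z hz) (m2 z hz)) ?_).lt
  set ξ : ℂ → IsLocalRing.ResidueField B := fun z => rsd B (xi z) with hξ
  have H1 := PthD_p1 (S := J) (kap := kap) hX hs (hT1.R hB)
  have haff : ∀ τ τ' : Pg → ZMod 2, HO q0 kap (fun z => ξ z * ξ (lm * z)) J τ' =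
      HO q0 kap (fun z => ξ z * ξ (lm * z)) J τ := by
    intro τ τ'
    have h1 := H1.aff h0 hk hq0 J subset_rfl τ τ'
    have h2 : (∑ r ∈ J, (τ' r - τ r) * Ham (nX s4 (fun q : Pg => aa q.1) q0)
        (fun q => 0 + s4 q0 q * 0) J r) = 0 := by
      refine Finset.sum_eq_zero fun r hr => ?_
      rw [Ham_congr hr (fun _ _ _ _ _ => rfl) (f' := fun _ => 0) (fun q _ => by
        rw [mul_zero, add_zero]), Ham_zero, mul_zero]
    rw [h2, zero_smul, sub_eq_zero] at h1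
    exact h1
  have h3 := HO_subst (J := J) (u := lam ^ 1) (h := fun z => ξ z * ξ (lm * z))
    h0 hk H1.per (cop_lam_pow q0 J 1) H1.neg
    (Or.inl (c2_lam_pow hc0 1)) fun _ => 0
  have h4 := HO_subst (J := J) (u := lam ^ 2) (h := fun z => ξ z * ξ (lm * z))
    h0 hk H1.per (cop_lam_pow q0 J 2) H1.neg
    (Or.inl (c2_lam_pow hc0 2)) fun _ => 0
  rw [haff (fun _ => 0), em_pow, em_lam] at h3 h4
  have h5 := PthR_two (HO q0 kap (fun z => ξ z * ξ (lm * z)) J (fun _ => 0))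
  nth_rewrite 1 [← h3] at h5
  rw [← h4, ← HO_add] at h5
  rw [zero_smul, ← h5]
  refine HO_congr_f fun z hz => ?_
  rw [rsd_mul (m1 z hz) (m2 z hz), rsd_add (ze_memB hB (hl hz)) (ze_memB hB (hz.pow 2)),
    rsd_ze hB (hl hz), rsd_ze hB (hz.pow 2)]
  have e1 : lm * (lm * z) = lm ^ 2 * z := by ring
  have e2 : lm * (lm ^ 2 * z) = lm ^ 3 * z := by ring
  have e3 : lm * (lm ^ 1 * z) = lm ^ 2 * z := by ring
  simp only [hξ, e1, e2, e3, pow_one]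
  have h6 := PthR_two (rsd B (xi (lm ^ 2 * z)) ^ 2)
  linear_combination h6

end

end

end Pool.Agent.Lib.MP_1a91b9_ntQ
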