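import Pool.Agent.Lib.MP_1a91b9_ntQ.B.TrZ
import Pool.Agent.Lib.MP_1a91b9_ntQ.B.PthZ

/-!
# Quartic twists, part B, file TrZS: the trace hypotheses `Tr1`, `Tr3`, `Tr5` of `PthZ`
-/

set_option autoImplicit false

namespace Pool.Agent.Lib.MP_1a91b9_ntQ

open NumberField Pool.Agent.Lib.MP_1a91b9_nuT Pool.Agent.Lib.MP_1a91b9_nuT.S3
  Pool.Agent.Lib.MP_1a91b9_nuT.Ell

noncomputable section

/-- the sum over the classes modulo `q` as a sum over a system of `E[q]` -/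
theorem SM_sys (q : Pg) : ∃ (ι : Type) (_ : Fintype ι) (τ : ι → ℂ),
    (∀ i, em q.1 * τ i ∈ PP.lattice) ∧
    (∀ x, em q.1 * x ∈ PP.lattice → ∃! i, x - τ i ∈ PP.lattice) ∧
    Fintype.card ι = Nz q.1 ∧
    ∀ (F : ℂ → ℂ) (z : ℂ), SM q.1 (fun u => F (z + em u / em q.1)) = ∑ i, F (z + τ i) := by
  have hqe := em_ne q.ne_zero
  have hfin := SM_finite q.ne_zero
  let _ : Fintype (𝓞 K ⧸ Ideal.span {q.1}) := Fintype.ofFinite _
  let τ : (𝓞 K ⧸ Ideal.span {q.1}) → ℂ := fun x => em x.out / em q.1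
  have hqτ : ∀ i, em q.1 * τ i = em i.out := by
    intro i
    change em q.1 * (em i.out / em q.1) = _
    field_simp
  have h1 : ∀ i, em q.1 * τ i ∈ PP.lattice := fun i => by
    rw [hqτ]
    exact em_mem _
  have h2 : ∀ x, em q.1 * x ∈ PP.lattice → ∃! i, x - τ i ∈ PP.lattice := by
    intro x hx
    obtain ⟨a, ha⟩ := S3.mem_PP_iff.1 hx
    have ha' : em a = em q.1 * x := ha
    have hiff : ∀ i : 𝓞 K ⧸ Ideal.span {q.1}, x - τ i ∈ PP.lattice ↔ q.1 ∣ a - i.out := by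
      intro i
      constructor
      · intro h
        obtain ⟨y, hy⟩ := S3.mem_PP_iff.1 h
        refine ⟨y, em_inj ?_⟩
        have hy' : em y = x - τ i := hy
        rw [em_sub, em_mul, hy', mul_sub, hqτ, ha']
      · rintro ⟨y, hy⟩
        have e : x - τ i = em y := by
          apply mul_left_cancel₀ hqe
          rw [← em_mul, ← hy, em_sub, mul_sub, hqτ, ha']
        rw [e]
        exact em_mem y
    refine ⟨Ideal.Quotient.mk _ a, ?_, ?_⟩
    · change x - τ _ ∈ PP.lattice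
      rw [hiff, ← SM_mk, SM_out]
      rfl
    · intro j hj
      have hj' : x - τ j ∈ PP.lattice := hj
      rw [hiff, ← SM_mk, SM_out] at hj'
      exact hj'.symm
  have hcard : Fintype.card (𝓞 K ⧸ Ideal.span {q.1}) = Nz q.1 := by
    rw [← absNorm_span, Ideal.absNorm_apply, Submodule.cardQuot_apply, Nat.card_eq_fintype_card]
    rfl
  refine ⟨_, inferInstance, τ, h1, h2, hcard, fun F z => ?_⟩
  rw [SM, finsum_eq_sum_of_fintype]
  rfl

variable {B : ValuationSubring ℂ}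

theorem tr1_B (hB : (2 : ℂ)⁻¹ ∉ B) : Tr1 B := by
  intro r z hz
  obtain ⟨ι, _, τ, h1, h2, hc, h⟩ := SM_sys r
  rw [h (fun w => xi w * xi (lm * w)) z]
  exact v_sum_xi1 hB r h1 h2 hc hz

theorem tr3_B (hB : (2 : ℂ)⁻¹ ∉ B) : Tr3 B := by
  intro r z hz
  obtain ⟨ι, _, τ, h1, h2, hc, h⟩ := SM_sys r
  rw [h (fun w => ze w * ze (lm * w)) z]
  exact v_sum_ze1 hB r h1 h2 hc hz

theorem tr5_B (hB : (2 : ℂ)⁻¹ ∉ B) : Tr5 B := by
  intro r z hz
  obtain ⟨ι, _, τ, h1, h2, hc, h⟩ := SM_sys r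
  rw [h (fun w => ze w * ze (lm ^ 2 * w)) z]
  have h3 := v_sum_ze2 hB r h1 h2 hc hz
  simp only [← mul_assoc, ← pow_two] at h3
  simp only [← mul_assoc] at h3 ⊢
  exact h3

end

end Pool.Agent.Lib.MP_1a91b9_ntQ
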