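import Pool.Agent.Lib.MP_1a91b9_ntQ.B.InXB
import Pool.Agent.Lib.MP_1a91b9_ntQ.B.SyJB
import Pool.Agent.Lib.MP_1a91b9_ntQ.B.ExpZ
import Pool.Agent.Lib.MP_1a91b9_ntQ.B.PthZ
import Pool.Agent.Lib.MP_1a91b9_ntQ.B.ClJ2d
import Pool.Agent.Lib.MP_1a91b9_ntQ.B.SyD
import Pool.Agent.Lib.MP_1a91b9_ntQ.B.TrZS

/-!
# Quartic twists, all `D`, class J2d (`j = 2`, `k` even), `nu` even, file InE: the totals

Page B2, 7.4: the difference of the total identities of the sums of the class and of the sums of `X`.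
-/

set_option autoImplicit false

namespace Pool.Agent.Lib.MP_1a91b9_ntQ

open NumberField Pool.Agent.Lib.MP_1a91b9_nuT Pool.Agent.Lib.MP_1a91b9_nuT.S3
  Pool.Agent.Lib.MP_1a91b9_nuT.Ell

noncomputable section

/-! ### The sums over the units -/

theorem F2Z_NJ (x y : ℂ) : NJ 1 x y / P4J x = F2Z x (s8 * y) := by
  rw [NJ, F2Z, kJ_one]
  have e : P4J x = P4Z x := rfl
  rw [e]
  congr 1
  ring

theorem F0Z_NJ (x y : ℂ) : NJ (-1) x y / P4J x = F0Z x (s8 * y) := by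
  rw [NJ, F0Z, kJ_neg_one]
  have e : P4J x = P4Z x := rfl
  rw [e]
  congr 1
  ring

/-- the quotient of the values -/
def FkZ (k : ZMod 4) (x y : ℂ) : ℂ := if k = 2 then F2Z x y else F0Z x y

theorem Od.three {z : ℂ} (hz : Od z) : 2 * (lm ^ 3 * z) ∉ PP.lattice := (hz.pow 3).two

theorem UB_FkZ {k : ZMod 4} (hk : k = 0 ∨ k = 2) {z : ℂ} (hz : 2 * (lm ^ 3 * z) ∉ PP.lattice) :
    UB k 2 ((em (fB k 2))⁻¹ + z) = UB k 2 (em (fB k 2))⁻¹ * FkZ k (X z) (s8 * yh z) := by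
  have h1 := UB_closed hk hz
  have h2 := P4J_ne hz
  have e1 : FkZ k (X z) (s8 * yh z) = NJ (sJ k) (X z) (yh z) / P4J (X z) := by
    rcases hk with rfl | rfl
    · have h3 : (0 : ZMod 4) ≠ 2 := by decide
      rw [FkZ, if_neg h3, sJ, if_neg h3, F0Z_NJ]
    · rw [FkZ, if_pos rfl, sJ, if_pos rfl, F2Z_NJ]
  rw [e1, ← mul_div_assoc, ← h1, mul_div_cancel_right₀ _ h2]

theorem zt_neZ : (zt : ℂ) ≠ 0 := by
  intro h
  have h1 := zt_sq
  rw [h] at h1
  norm_num at h1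

theorem lat_zt {z : ℂ} (h : zt * z ∈ PP.lattice) : z ∈ PP.lattice := by
  have h1 := zt_mem_mul (zt_mem_mul (zt_mem_mul h))
  have e : zt * (zt * (zt * (zt * z))) = z := by
    have h2 := zt_sq
    linear_combination (zt ^ 2 * z - z) * h2
  rwa [e] at h1

theorem ZMod4_sum (f : ZMod 4 → ℂ) : ∑ r : ZMod 4, f r = f 0 + f 1 + f 2 + f 3 := by
  have h : (Finset.univ : Finset (ZMod 4)) = {0, 1, 2, 3} := by decide
  rw [h, Finset.sum_insert (by decide), Finset.sum_insert (by decide), Finset.sum_insert (by decide),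
    Finset.sum_singleton]
  ring

/-- the sum over the units -/
theorem UJ_even {k : ZMod 4} (hk : k = 0 ∨ k = 2) (h : ZMod 2) {z : ℂ} (hz : Od z) :
    UJ k 2 (hh h) z = UB k 2 (em (fB k 2))⁻¹ *
      (FkZ k (X z) (s8 * yh z) + sgz h * FkZ k (-X z) (zt * (s8 * yh z)) +
        FkZ k (X z) (-(s8 * yh z)) + sgz h * FkZ k (-X z) (-(zt * (s8 * yh z)))) := by
  have h2 := hz.two
  have hn := notMem_of_two_mul h2
  have a1 : X (zt * z) = -X z := X_i hn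
  have b1 : yh (zt * z) = zt * yh z := yh_i h2
  have y2 : ∀ w : ℂ, yh (-w) = -yh w := fun w => by
    rw [yh, yh, Ell.Y_neg]
    ring
  have hz0 := hz.three
  have hz1 : 2 * (lm ^ 3 * (zt * z)) ∉ PP.lattice := fun h3 => hz0 (lat_zt (by
    have e : zt * (2 * (lm ^ 3 * z)) = 2 * (lm ^ 3 * (zt * z)) := by ring
    rwa [e]))
  have hz2 : 2 * (lm ^ 3 * -z) ∉ PP.lattice := fun h3 => hz0 (by
    have h4 := neg_mem h3
    have e : -(2 * (lm ^ 3 * -z)) = 2 * (lm ^ 3 * z) := by ring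
    rwa [e] at h4)
  have hz3 : 2 * (lm ^ 3 * -(zt * z)) ∉ PP.lattice := fun h3 => hz1 (by
    have h4 := neg_mem h3
    have e : -(2 * (lm ^ 3 * -(zt * z))) = 2 * (lm ^ 3 * (zt * z)) := by ring
    rwa [e] at h4)
  have v0 : (0 : ZMod 4).val = 0 := rfl
  have v1 : (1 : ZMod 4).val = 1 := rfl
  have v2 : (2 : ZMod 4).val = 2 := rfl
  have v3 : (3 : ZMod 4).val = 3 := rfl
  have e2 : zt ^ 2 * z = -z := by rw [zt_sq]; ring
  have e3 : zt ^ 3 * z = -(zt * z) := by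
    linear_combination (zt * z) * zt_sq
  have c0 : e4 (-((0 : ZMod 4) * hh h)) = 1 := by rw [zero_mul, neg_zero, e4_zero]
  have c1 : e4 (-((1 : ZMod 4) * hh h)) = sgz h := by
    rcases h_cases h with rfl | rfl
    · rw [hh_zero, mul_zero, neg_zero, e4_zero, sgz_zero]
    · have e : -((1 : ZMod 4) * 2) = 2 := by decide
      rw [hh_one, e, e4_two, sgz_one]
  have c2 : e4 (-((2 : ZMod 4) * hh h)) = 1 := by
    have key : ∀ h : ZMod 2, -((2 : ZMod 4) * hh h) = 0 := by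
      unfold hh
      decide
    rw [key, e4_zero]
  have c3 : e4 (-((3 : ZMod 4) * hh h)) = sgz h := by
    rcases h_cases h with rfl | rfl
    · rw [hh_zero, mul_zero, neg_zero, e4_zero, sgz_zero]
    · have e : -((3 : ZMod 4) * 2) = 2 := by decide
      rw [hh_one, e, e4_two, sgz_one]
  rw [UJ, ZMod4_sum, c0, c1, c2, c3, v0, v1, v2, v3, pow_zero, one_mul z, pow_one, e2, e3,
    UB_FkZ hk hz0, UB_FkZ hk hz1, UB_FkZ hk hz2, UB_FkZ hk hz3, Ell.X_neg, Ell.X_neg, y2, y2, a1,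
    b1, show s8 * (zt * yh z) = zt * (s8 * yh z) by ring, show s8 * -yh z = -(s8 * yh z) by ring,
    show s8 * -(zt * yh z) = -(zt * (s8 * yh z)) by ring]
  ring

/-! ### The expansion -/

/-- the constant -/
def KZ (k : ZMod 4) : ℂ := zt * lm ^ 2 * UB k 2 (em (fB k 2))⁻¹

/-- the constant term -/
def cKZ (k : ZMod 4) (h : ZMod 2) : ℂ :=
  if k = 2 then (if h = 0 then 1 + lm else 1) else (if h = 0 then lm else 0)

/-- the quadratic part -/
def gKZ (k : ZMod 4) (z : ℂ) : ℂ :=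
  (if k = 2 then ze (lm ^ 0 * z) + ze (lm ^ 2 * z) else 0) +
    (ze z * ze (lm * z) + ze (lm * z) * ze (lm ^ 2 * z))

/-- the error of the expansion -/
def erZ (k : ZMod 4) (h : ZMod 2) (z : ℂ) : ℂ :=
  UJ k 2 (hh h) z / KZ k - (cKZ k h + (xi (lm * z) + xi (lm ^ 2 * z)) + lm * gKZ k z)

theorem UB_base_ne {k : ZMod 4} (hk : k = 0 ∨ k = 2) : UB k 2 (em (fB k 2))⁻¹ ≠ 0 := by
  rw [em_fB2 hk, UB_sJ hk]
  exact neg_ne_zero.2 (mul_ne_zero Om_ne (HS_base_ne (sJ_sq k)))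

theorem KZ_ne {k : ZMod 4} (hk : k = 0 ∨ k = 2) : KZ k ≠ 0 :=
  mul_ne_zero (mul_ne_zero zt_neZ (pow_ne_zero 2 lm_ne)) (UB_base_ne hk)

theorem lm_sq_zt : (lm : ℂ) ^ 2 = 2 * zt := by
  rw [lm]
  linear_combination zt_sq

/-- the quotient -/
theorem UJ_div {k : ZMod 4} (hk : k = 0 ∨ k = 2) {h : ZMod 2} {z V : ℂ} (hz : Od z)
    (hV : FkZ k (X z) (s8 * yh z) + sgz h * FkZ k (-X z) (zt * (s8 * yh z)) +
        FkZ k (X z) (-(s8 * yh z)) + sgz h * FkZ k (-X z) (-(zt * (s8 * yh z))) = 2 * zt * V) :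
    UJ k 2 (hh h) z / KZ k = -zt * V := by
  rw [UJ_even hk h hz, hV, KZ, lm_sq_zt, div_eq_iff (by
    have h1 := KZ_ne hk
    rwa [KZ, lm_sq_zt] at h1)]
  linear_combination (2 * zt * V * UB k 2 (em (fB k 2))⁻¹) * zt_sq

variable {B : ValuationSubring ℂ}

theorem v_mulZ {a U T T' : ℂ} (ha : B.valuation a ≤ 1) (h : B.valuation (U - T) < B.valuation lm)
    (h' : B.valuation (a * T - T') < B.valuation lm) : B.valuation (a * U - T') < B.valuation lm := by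
  have e : a * U - T' = a * (U - T) + (a * T - T') := by ring
  rw [e]
  refine Valuation.map_add_lt _ ?_ h'
  rw [map_mul]
  exact (mul_le_of_le_one_left' ha).trans_lt h

theorem v_lm_sq_mul (hB : (2 : ℂ)⁻¹ ∉ B) {w : ℂ} (hw : w ∈ B) :
    B.valuation (2 * w) < B.valuation lm := by
  rw [map_mul, ← v_lm_sq]
  exact (mul_le_of_le_one_right' (mem_B_iff.2 hw)).trans_lt (v_lm_sq_lt hB)

theorem gKZ_two (z : ℂ) : gKZ 2 z = ze z + ze (lm ^ 2 * z) +
    (ze z * ze (lm * z) + ze (lm * z) * ze (lm ^ 2 * z)) := by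
  rw [gKZ, if_pos rfl, pow_zero, one_mul]

theorem gKZ_zero (z : ℂ) : gKZ 0 z = ze z * ze (lm * z) + ze (lm * z) * ze (lm ^ 2 * z) := by
  have h3 : (0 : ZMod 4) ≠ 2 := by decide
  rw [gKZ, if_neg h3, zero_add]

/-- **the expansion (2.3)** -/
theorem v_erZ (hB : (2 : ℂ)⁻¹ ∉ B) {k : ZMod 4} (hk : k = 0 ∨ k = 2) (h : ZMod 2) {z : ℂ}
    (hz : Od z) : B.valuation (erZ k h z) < B.valuation lm := by
  have he : e5Z (ze z) ≠ 0 := e5Z_ne hB hz
  have hx := X_sq_ze z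
  have hr := rh_sq
  have m1 : xi (lm * z) ∈ B := xi_mem hB hz.mul_lm
  have m2 : xi (lm ^ 2 * z) ∈ B := xi_mem hB (hz.pow 2)
  have t0 : ze z ∈ B := ze_mem hB hz
  have t1 : ze (lm * z) ∈ B := ze_mem hB hz.mul_lm
  have t2 : ze (lm ^ 2 * z) ∈ B := ze_mem hB (hz.pow 2)
  have hl := lm_mem_B (B := B)
  have hzt := zt_mem_B (B := B)
  have hinv := v_rh_inv hB
  have hztv : B.valuation (zt : ℂ) ≤ 1 := v_zt.le
  have hl2 := lm_sq_zt
  rcases hk with rfl | rfl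
  · have h3 : (0 : ZMod 4) ≠ 2 := by decide
    rcases h_cases h with rfl | rfl
    · obtain ⟨U, hU⟩ : ∃ U, U = (1 - 2 * zt * ze z) * (1 + lm * ze z) * bZ (ze z) / e5Z (ze z) :=
        ⟨_, rfl⟩
      have h4 : U * e5Z (ze z) = (1 - 2 * zt * ze z) * (1 + lm * ze z) * bZ (ze z) := by
        rw [hU, div_mul_cancel₀ _ he]
      have h5 := v_00 hB hz h4
      have h6 := oz_00 (y := s8 * yh z) hx hr he
      have h7 : UJ 0 2 (hh 0) z / KZ 0 = -zt * -U := by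
        refine UJ_div (Or.inl rfl) hz ?_
        rw [FkZ, FkZ, FkZ, FkZ, if_neg h3, if_neg h3, if_neg h3, if_neg h3, sgz_zero, one_mul,
          one_mul]
        apply mul_right_cancel₀ he
        rw [h6]
        linear_combination (2 * zt) * h4
      have e1 : erZ 0 0 z = zt * U - (lm + (xi (lm * z) + xi (lm ^ 2 * z)) + lm * (ze z * ze (lm * z) +
          ze (lm * z) * ze (lm ^ 2 * z))) := by
        rw [erZ, h7, cKZ, if_neg h3, if_pos rfl, gKZ_zero]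
        ring
      rw [e1]
      refine v_mulZ hztv h5 ?_
      have e2 : zt * ((1 + lm) * (xi (lm * z) + xi (lm ^ 2 * z)) + lm * (1 + ze z * ze (lm * z) +
          ze (lm * z) * ze (lm ^ 2 * z))) - (lm + (xi (lm * z) + xi (lm ^ 2 * z)) +
            lm * (ze z * ze (lm * z) + ze (lm * z) * ze (lm ^ 2 * z))) =
          2 * ((zt - 1) * (xi (lm * z) + xi (lm ^ 2 * z)) + (zt - lm) * (1 + ze z * ze (lm * z) +
            ze (lm * z) * ze (lm ^ 2 * z))) := by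
        have e3 : zt * (1 + lm) - 1 = 2 * (zt - 1) := by
          rw [lm]
          linear_combination zt_sq
        have e4 : zt * lm - lm = 2 * (zt - lm) := by
          rw [lm]
          linear_combination zt_sq
        linear_combination (xi (lm * z) + xi (lm ^ 2 * z)) * e3 + (1 + ze z * ze (lm * z) +
            ze (lm * z) * ze (lm ^ 2 * z)) * e4
      rw [e2]
      refine v_lm_sq_mul hB ?_
      exact add_mem (mul_mem (sub_mem hzt (one_mem B)) (add_mem m1 m2)) (mul_mem (sub_mem hzt hl)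
        (add_mem (add_mem (one_mem B) (mul_mem t0 t1)) (mul_mem t1 t2)))
    · obtain ⟨U, hU⟩ : ∃ U, U = (1 + 2 * xi z) * (1 + lm * ze z) * dZ (ze z) / e5Z (ze z) :=
        ⟨_, rfl⟩
      have h4 : U * e5Z (ze z) = (1 + 2 * xi z) * (1 + lm * ze z) * dZ (ze z) := by
        rw [hU, div_mul_cancel₀ _ he]
      have h5 := v_02 hB hz h4
      have h6 := oz_02 (y := s8 * yh z) hx hr he
      rw [X_ze_inv] at h6
      have h7 : UJ 0 2 (hh 1) z / KZ 0 = -zt * -(rh⁻¹ * U) := by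
        refine UJ_div (Or.inl rfl) hz ?_
        rw [FkZ, FkZ, FkZ, FkZ, if_neg h3, if_neg h3, if_neg h3, if_neg h3, sgz_one]
        apply mul_right_cancel₀ he
        linear_combination h6 + 2 * zt * rh⁻¹ * h4
      have e1 : erZ 0 1 z = zt * rh⁻¹ * U - ((xi (lm * z) + xi (lm ^ 2 * z)) + lm * (ze z * ze (lm * z) +
          ze (lm * z) * ze (lm ^ 2 * z))) := by
        rw [erZ, h7, cKZ, if_neg h3, if_neg one_ne_zero2, gKZ_zero]
        ring
      have hv : B.valuation (zt * rh⁻¹) ≤ 1 := by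
        rw [map_mul, v_zt, one_mul, map_inv₀, v_rh hB, inv_one]
      rw [e1]
      refine v_mulZ hv h5 ?_
      have e2 : zt * rh⁻¹ * ((xi (lm * z) + xi (lm ^ 2 * z)) + lm * (ze z * ze (lm * z) +
          ze (lm * z) * ze (lm ^ 2 * z))) - ((xi (lm * z) + xi (lm ^ 2 * z)) +
            lm * (ze z * ze (lm * z) + ze (lm * z) * ze (lm ^ 2 * z))) =
          zt * (rh⁻¹ - zt) * ((xi (lm * z) + xi (lm ^ 2 * z)) + lm * (ze z * ze (lm * z) +
            ze (lm * z) * ze (lm ^ 2 * z))) - 2 * ((xi (lm * z) + xi (lm ^ 2 * z)) +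
            lm * (ze z * ze (lm * z) + ze (lm * z) * ze (lm ^ 2 * z))) := by
        linear_combination ((xi (lm * z) + xi (lm ^ 2 * z)) + lm * (ze z * ze (lm * z) +
            ze (lm * z) * ze (lm ^ 2 * z))) * zt_sq
      have hT : (xi (lm * z) + xi (lm ^ 2 * z)) + lm * (ze z * ze (lm * z) +
            ze (lm * z) * ze (lm ^ 2 * z)) ∈ B :=
        add_mem (add_mem m1 m2) (mul_mem hl (add_mem (mul_mem t0 t1) (mul_mem t1 t2)))
      rw [e2]
      refine Valuation.map_sub_lt _ ?_ (v_lm_sq_mul hB hT)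
      rw [map_mul, map_mul, v_zt, one_mul]
      exact (mul_le_of_le_one_right' (mem_B_iff.2 hT)).trans_lt hinv
  · rcases h_cases h with rfl | rfl
    · obtain ⟨U, hU⟩ : ∃ U, U = (1 - 2 * zt * ze z) * (1 + lm * ze z) * aZ (ze z) / e5Z (ze z) :=
        ⟨_, rfl⟩
      have h4 : U * e5Z (ze z) = (1 - 2 * zt * ze z) * (1 + lm * ze z) * aZ (ze z) := by
        rw [hU, div_mul_cancel₀ _ he]
      have h5 := v_20 hB hz h4
      have h6 := oz_20 (y := s8 * yh z) hx hr he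
      have h7 : UJ 2 2 (hh 0) z / KZ 2 = -zt * -U := by
        refine UJ_div (Or.inr rfl) hz ?_
        rw [FkZ, FkZ, FkZ, FkZ, if_pos rfl, if_pos rfl, if_pos rfl, if_pos rfl, sgz_zero, one_mul,
          one_mul]
        apply mul_right_cancel₀ he
        rw [h6]
        linear_combination (2 * zt) * h4
      have e1 : erZ 2 0 z = zt * U - (1 + lm + (xi (lm * z) + xi (lm ^ 2 * z)) + lm * (ze z +
          ze (lm ^ 2 * z) + (ze z * ze (lm * z) + ze (lm * z) * ze (lm ^ 2 * z)))) := by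
        rw [erZ, h7, cKZ, if_pos rfl, if_pos rfl, gKZ_two]
        ring
      rw [e1]
      refine v_mulZ hztv h5 ?_
      have e2 : zt * (1 + (1 + lm) * (xi (lm * z) + xi (lm ^ 2 * z)) + lm * (ze z + ze (lm ^ 2 * z) +
          ze z * ze (lm * z) + ze (lm * z) * ze (lm ^ 2 * z))) - (1 + lm + (xi (lm * z) +
            xi (lm ^ 2 * z)) + lm * (ze z + ze (lm ^ 2 * z) + (ze z * ze (lm * z) +
              ze (lm * z) * ze (lm ^ 2 * z)))) =
          2 * (-1 + (zt - 1) * (xi (lm * z) + xi (lm ^ 2 * z)) + (zt - lm) * (ze z +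
            ze (lm ^ 2 * z) + (ze z * ze (lm * z) + ze (lm * z) * ze (lm ^ 2 * z)))) := by
        have e3 : zt * (1 + lm) - 1 = 2 * (zt - 1) := by
          rw [lm]
          linear_combination zt_sq
        have e4 : zt * lm - lm = 2 * (zt - lm) := by
          rw [lm]
          linear_combination zt_sq
        have e5 : zt - (1 + lm) = 2 * -1 := by
          rw [lm]
          ring
        linear_combination (xi (lm * z) + xi (lm ^ 2 * z)) * e3 + (ze z + ze (lm ^ 2 * z) +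
          (ze z * ze (lm * z) + ze (lm * z) * ze (lm ^ 2 * z))) * e4 + e5
      rw [e2]
      refine v_lm_sq_mul hB ?_
      exact add_mem (add_mem (neg_mem (one_mem B)) (mul_mem (sub_mem hzt (one_mem B))
        (add_mem m1 m2))) (mul_mem (sub_mem hzt hl) (add_mem (add_mem t0 t2)
          (add_mem (mul_mem t0 t1) (mul_mem t1 t2))))
    · obtain ⟨U, hU⟩ : ∃ U, U = (1 + 2 * xi z) * (1 + lm * ze z) * cZ (ze z) / e5Z (ze z) :=
        ⟨_, rfl⟩
      have h4 : U * e5Z (ze z) = (1 + 2 * xi z) * (1 + lm * ze z) * cZ (ze z) := by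
        rw [hU, div_mul_cancel₀ _ he]
      have h5 := v_22 hB hz h4
      have h6 := oz_22 (y := s8 * yh z) hx hr he
      rw [X_ze_inv] at h6
      have h7 : UJ 2 2 (hh 1) z / KZ 2 = -zt * (rh⁻¹ * U) := by
        refine UJ_div (Or.inr rfl) hz ?_
        rw [FkZ, FkZ, FkZ, FkZ, if_pos rfl, if_pos rfl, if_pos rfl, if_pos rfl, sgz_one]
        apply mul_right_cancel₀ he
        linear_combination h6 - 2 * zt * rh⁻¹ * h4
      have e1 : erZ 2 1 z = -zt * rh⁻¹ * U - (1 + (xi (lm * z) + xi (lm ^ 2 * z)) + lm * (ze z +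
          ze (lm ^ 2 * z) + ze z * ze (lm * z) + ze (lm * z) * ze (lm ^ 2 * z))) := by
        rw [erZ, h7, cKZ, if_pos rfl, if_neg one_ne_zero2, gKZ_two]
        ring
      have hv : B.valuation (-zt * rh⁻¹) ≤ 1 := by
        rw [map_mul, Valuation.map_neg, v_zt, one_mul, map_inv₀, v_rh hB, inv_one]
      rw [e1]
      refine v_mulZ hv h5 ?_
      obtain ⟨T, hT0⟩ : ∃ T, T = 1 + (xi (lm * z) + xi (lm ^ 2 * z)) + lm * (ze z +
          ze (lm ^ 2 * z) + ze z * ze (lm * z) + ze (lm * z) * ze (lm ^ 2 * z)) := ⟨_, rfl⟩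
      have hT : T ∈ B := by
        rw [hT0]
        exact add_mem (add_mem (one_mem B) (add_mem m1 m2)) (mul_mem hl (add_mem (add_mem
          (add_mem t0 t2) (mul_mem t0 t1)) (mul_mem t1 t2)))
      rw [← hT0]
      have e2 : -zt * rh⁻¹ * T - T = -(zt * (rh⁻¹ - zt) * T) := by
        linear_combination -T * zt_sq
      rw [e2, Valuation.map_neg, map_mul, map_mul, v_zt, one_mul]
      exact (mul_le_of_le_one_right' (mem_B_iff.2 hT)).trans_lt hinv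

/-! ### The two families -/

/-- the sums of the class -/
def LaMZ (k : ZMod 4) (h : ZMod 2) (q0 : Pg) (e : Pg → ZMod 4) (T A : Finset Pg) : ℂ :=
  LaJ k 2 (hh h) q0 e T A / KZ k

/-- the sums of `1 + 2 ξ` -/
def LaYE (kap : 𝓞 K) (q0 : Pg) (e : Pg → ZMod 4) (T A : Finset Pg) : ℂ :=
  FXB q0 e kap X (T ∪ A) (T ∪ A) / rh

/-- `i ^ (-2 β)` -/
def EfZ (q0 : Pg) (e : Pg → ZMod 4) (T : Finset Pg) : ℂ := e4 (2 * bXB q0 e 0 T lam)

/-- `- i ^ (-β)` -/
def chZ (q0 : Pg) (e : Pg → ZMod 4) (T : Finset Pg) : ℂ := -e4 (-bXB q0 e 0 T lam)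

/-- prime to all the primes -/
def CopK (kap : 𝓞 K) : Prop := ∀ (q0 : Pg) (J : Finset Pg), IsCoprime kap (q0.1 * DDq J)

theorem CopK.ndvd {kap : 𝓞 K} (hk : CopK kap) (q : Pg) : ¬ q.1 ∣ kap :=
  (cop_qD.1 (hk q ∅)).1

theorem copK_fB (k : ZMod 4) (j : ℕ) : CopK (fB k j) := fun q0 J =>
  (in4_cop_fB (qD_in4 q0 J) k j).symm

variable {q0 : Pg} {e : Pg → ZMod 4} {kap : 𝓞 K}

theorem xXs_xJs (h : ZMod 2) (q0 : Pg) (e : Pg → ZMod 4) : xXs h q0 e = xJs (hh h) q0 e := by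
  funext T b
  rw [xXs, xJs, bXB_bkB]

/-- the sum of `X (lam ^ n z)` -/
theorem FXB_X_lamK (h0 : aa q0.1 = 1) (hk : CopK kap) {T J : Finset Pg} (hT : T ⊆ J) (n : ℕ) :
    FXB q0 e kap (fun z => X (lm ^ n * z)) T J =
      e4 (-(n * bXB q0 e 1 T lam)) * FXB q0 e kap X T J := by
  have h1 := FXB_scale (ex := e) h0 (hk q0 J) (cop_lam q0 J n) hT PdL_X Wt_X
  have h2 : em (lam ^ n) = lm ^ n := by rw [em_pow, em_lam]
  have h3 := bkB_pow (q0 := q0) (ex := e) (J := J) (T := T) 2 (x := lam) (by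
    have h := cop_lam q0 J 1
    rwa [pow_one] at h) hT n
  rw [h2, h3] at h1
  rw [bXB_bkB, hh_one]
  exact h1

/-- the total identity for a multiple of the sums of `X` -/
theorem idXK_eq (h0 : aa q0.1 = 1) (hk : CopK kap) (n : ℕ) (f : Finset Pg → ℂ) {T C : Finset Pg}
    (hd : Disjoint T C) (hC : ∀ q ∈ C, e q = 2) (hq : q0 ∉ T ∪ C) :
    idB lm 1 (fun T A => f (T ∪ A) * FXB q0 e kap X (T ∪ A) (T ∪ A)) (fun b : Pg => em b.1 ^ 2)
        (xJs 2 q0 e) (nXB q0) n T C =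
      (∑ R ∈ (T ∪ C).powerset, (-1) ^ R.card * (f R * FXB q0 e kap X R (T ∪ C))) /
        lm ^ (T.card + 2 * C.card + n) := by
  classical
  rw [idB, sum_powerset_union hd, one_mul]
  congr 1
  refine Finset.sum_congr rfl fun T' hT' => ?_
  rw [Finset.mul_sum]
  refine Finset.sum_congr rfl fun A hA => ?_
  rw [Finset.mem_powerset] at hT' hA
  have hd' : Disjoint T' A := Finset.disjoint_of_subset_left hT'
    (Finset.disjoint_of_subset_right hA hd)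
  have e1 : (T ∪ C) \ (T' ∪ A) = (T \ T') ∪ (C \ A) := by
    ext q
    simp only [Finset.mem_sdiff, Finset.mem_union]
    have h1 : q ∈ T → q ∉ C := fun h => Finset.disjoint_left.1 hd h
    have h2 : q ∈ T' → q ∈ T := fun h => hT' h
    have h3 : q ∈ A → q ∈ C := fun h => hA h
    tauto
  have e2 : ∏ b ∈ (T \ T') ∪ (C \ A), fcB (fun b : Pg => em b.1 ^ 2) (xJs 2 q0 e) (nXB q0) T' A b =
      ∏ q ∈ (T \ T') ∪ (C \ A), (em q.1 ^ 2 - e4 (bkB q0 e 2 (T' ∪ A) q.1)) := by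
    refine Finset.prod_congr rfl fun b _ => ?_
    rw [fcB, ← xJs_union h0 e 2 hd' (fun a ha => hC a (hA ha)), xJs]
  rw [Finset.card_union_of_disjoint hd', pow_add, mul_assoc, e2,
    FXB_prod h0 PdL_X Wt_X (fun q => em q.1 ^ 2) TrF_X (Finset.union_subset_union hT' hA) hq
      (hk q0 _), e1]
  ring

/-- the weighted sum of `X / rh` -/
theorem GX_X_rhK {J : Finset Pg} (w : ℂ) : GX q0 kap (wtB e J) (fun z => X (w * z)) J =
    rh * (GX q0 kap (wtB e J) (fun _ => 1) J + 2 * GX q0 kap (wtB e J) (fun z => xi (w * z)) J) := by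
  have h1 : (fun z => X (w * z)) = fun z => rh * (1 + 2 * xi (w * z)) := by
    funext z
    exact X_xi (w * z)
  have h2 := GX_fcmul (q0 := q0) (kap := kap) (J := J) rh (wtB e J) fun z => 1 + 2 * xi (w * z)
  have h3 := GX_fadd (q0 := q0) (kap := kap) (J := J) (wtB e J) (fun _ => 1) fun z => 2 * xi (w * z)
  have h4 := GX_fcmul (q0 := q0) (kap := kap) (J := J) 2 (wtB e J) fun z => xi (w * z)
  rw [h1, h2, h3, h4]

/-- the total identity for the subtracted sums -/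
theorem idUK_eq (h0 : aa q0.1 = 1) (hl0 : bb q0.1 = 0) (hk : CopK kap) (n : ℕ) {T C : Finset Pg}
    (hd : Disjoint T C) (he : ∀ q ∈ T, md (e q) ≠ 0) (hC : ∀ q ∈ C, e q = 2) (hq : q0 ∉ T ∪ C) :
    idB lm 1 (UxD (1 / 2) (LaYE kap q0 e) (EfZ q0 e) (chZ q0 e) fun b => bb b.1)
        (fun b : Pg => em b.1 ^ 2) (xJs 2 q0 e) (nXB q0) n T C =
      (GX q0 kap (wtB e (T ∪ C)) (fun _ => 1) (T ∪ C) +
        (GX q0 kap (wtB e (T ∪ C)) (fun z => xi (lm ^ 1 * z)) (T ∪ C) +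
        GX q0 kap (wtB e (T ∪ C)) (fun z => xi (lm ^ 2 * z)) (T ∪ C))) / lm ^ n := by
  have hr := rh_ne
  have h2 : idB lm 1 (UxD (1 / 2) (LaYE kap q0 e) (EfZ q0 e) (chZ q0 e) fun b => bb b.1)
      (fun b : Pg => em b.1 ^ 2) (xJs 2 q0 e) (nXB q0) n T C =
      idB lm 1 (fun T A => ((2 * rh)⁻¹ * (e4 (2 * bXB q0 e 0 (T ∪ A) lam) +
        e4 (-bXB q0 e 0 (T ∪ A) lam))) * FXB q0 e kap X (T ∪ A) (T ∪ A))
      (fun b : Pg => em b.1 ^ 2) (xJs 2 q0 e) (nXB q0) n T C := by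
    refine idB_congr fun T' hT' A hA => ?_
    have hd' : Disjoint T' A := Finset.disjoint_of_subset_left hT'
      (Finset.disjoint_of_subset_right hA hd)
    obtain ⟨a1, a2⟩ := bXB_union_lam (e := e) hl0 hd' fun a ha => hC a (hA ha)
    rw [UxD, a1, a2, LaYE, EfZ, chZ]
    field_simp
    ring
  have h3 := idXK_eq h0 hk n (fun R => (2 * rh)⁻¹ * (e4 (2 * bXB q0 e 0 R lam) +
        e4 (-bXB q0 e 0 R lam))) hd hC hq
  have h4 : ∀ m : ℕ, GX q0 kap (wB e (T ∪ C)) (fun z => X (lm ^ m * z)) (T ∪ C) =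
      ∑ R ∈ (T ∪ C).powerset, (-1) ^ R.card * (e4 (-(m * bXB q0 e 1 R lam)) *
        FXB q0 e kap X R (T ∪ C)) := by
    intro m
    rw [GX_wB]
    refine Finset.sum_congr rfl fun R hR => ?_
    rw [FXB_X_lamK h0 hk (Finset.mem_powerset.1 hR)]
  have h5 : (∑ R ∈ (T ∪ C).powerset, (-1) ^ R.card * (((2 * rh)⁻¹ *
      (e4 (2 * bXB q0 e 0 R lam) + e4 (-bXB q0 e 0 R lam))) * FXB q0 e kap X R (T ∪ C))) =
      (2 * rh)⁻¹ * (GX q0 kap (wB e (T ∪ C)) (fun z => X (lm ^ 1 * z)) (T ∪ C) +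
        GX q0 kap (wB e (T ∪ C)) (fun z => X (lm ^ 2 * z)) (T ∪ C)) := by
    rw [h4, h4, ← Finset.sum_add_distrib, Finset.mul_sum]
    refine Finset.sum_congr rfl fun R _ => ?_
    have k1 : ∀ b : ZMod 4, -(((1 : ℕ) : ZMod 4) * b) = -b := by decide
    have k2 : ∀ b : ZMod 4, -(((2 : ℕ) : ZMod 4) * b) = 2 * b := by decide
    rw [bXB_one_lam h0 hl0, k1, k2]
    ring
  rw [h2, h3, h5, GX_wtB (fun z => X (lm ^ 1 * z)), GX_wtB (fun z => X (lm ^ 2 * z)), GX_X_rhK,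
    GX_X_rhK, mB_unionX hd he hC, pow_add lm (T.card + 2 * C.card) n]
  have h7 := pow_ne_zero (T.card + 2 * C.card) lm_ne
  have h8 := pow_ne_zero n lm_ne
  have hl := lm_ne
  field_simp
  ring

/-- the total identity of the class -/
theorem idMZ_eq (k : ZMod 4) (h0 : aa q0.1 = 1) (h : ZMod 2) (n : ℕ) {T C : Finset Pg}
    (hd : Disjoint T C) (he : ∀ q ∈ T, md (e q) ≠ 0) (hC : ∀ q ∈ C, e q = 2) (hq : q0 ∉ T ∪ C) :
    idB lm 1 (LaMZ k h q0 e) (eJs k 2) (xJs (hh h) q0 e) (nXB q0) n T C =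
      GX q0 (fB k 2) (wtB e (T ∪ C)) (fun z => UJ k 2 (hh h) z / KZ k) (T ∪ C) / lm ^ n := by
  have h1 := idJ_eq k 2 h0 (hh h) (e := e) 1 n hd hC hq
  have h2 : idB lm 1 (LaMZ k h q0 e) (eJs k 2) (xJs (hh h) q0 e) (nXB q0) n T C =
      (KZ k)⁻¹ * idB lm 1 (LaJ k 2 (hh h) q0 e) (eJs k 2) (xJs (hh h) q0 e) (nXB q0) n T C := by
    rw [idB, idB, ← mul_div_assoc]
    congr 1
    rw [Finset.mul_sum]
    refine Finset.sum_congr rfl fun T' _ => ?_
    rw [Finset.mul_sum, Finset.mul_sum, Finset.mul_sum]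
    refine Finset.sum_congr rfl fun A _ => ?_
    rw [LaMZ]
    ring
  have h3 : GX q0 (fB k 2) (wtB e (T ∪ C)) (fun z => UJ k 2 (hh h) z / KZ k) (T ∪ C) =
      (KZ k)⁻¹ * GX q0 (fB k 2) (wtB e (T ∪ C)) (UJ k 2 (hh h)) (T ∪ C) := by
    rw [← GX_fcmul]
    congr 1
    funext z
    rw [div_eq_inv_mul]
  rw [h2, h1, h3, GX_wtB (UJ k 2 (hh h)), mB_unionX hd he hC, pow_add lm (T.card + 2 * C.card) n,
    one_mul]
  have h7 := pow_ne_zero (T.card + 2 * C.card) lm_ne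
  have hl := lm_ne
  field_simp

/-! ### The difference of the total identities -/

theorem v_cKZ_sub (hB : (2 : ℂ)⁻¹ ∉ B) (k : ZMod 4) (h : ZMod 2) :
    B.valuation (cKZ k h - 1) ≤ 1 := by
  have hl := lm_mem_B (B := B)
  rw [mem_B_iff, cKZ]
  split_ifs
  · exact sub_mem (add_mem (one_mem B) hl) (one_mem B)
  · exact sub_mem (one_mem B) (one_mem B)
  · exact sub_mem hl (one_mem B)
  · exact sub_mem (zero_mem B) (one_mem B)

theorem idDZ_eq {k : ZMod 4} (h0 : aa q0.1 = 1) (hl0 : bb q0.1 = 0) (h : ZMod 2) (n : ℕ)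
    {T C : Finset Pg} (hd : Disjoint T C) (he : ∀ q ∈ T, md (e q) ≠ 0) (hC : ∀ q ∈ C, e q = 2)
    (hq : q0 ∉ T ∪ C) :
    idB lm 1 (LaMZ k h q0 e) (eJs k 2) (xJs (hh h) q0 e) (nXB q0) n T C -
      idB lm 1 (UxD (1 / 2) (LaYE (fB k 2) q0 e) (EfZ q0 e) (chZ q0 e) fun b => bb b.1)
        (fun b : Pg => em b.1 ^ 2) (xJs 2 q0 e) (nXB q0) n T C =
      ((cKZ k h - 1) * GX q0 (fB k 2) (wtB e (T ∪ C)) (fun _ => 1) (T ∪ C) +
        (lm * GX q0 (fB k 2) (wtB e (T ∪ C)) (gKZ k) (T ∪ C) +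
        GX q0 (fB k 2) (wtB e (T ∪ C)) (erZ k h) (T ∪ C))) / lm ^ n := by
  have g1 : GX q0 (fB k 2) (wtB e (T ∪ C)) (fun z => UJ k 2 (hh h) z / KZ k) (T ∪ C) =
      (cKZ k h * GX q0 (fB k 2) (wtB e (T ∪ C)) (fun _ => 1) (T ∪ C) +
      (GX q0 (fB k 2) (wtB e (T ∪ C)) (fun z => xi (lm ^ 1 * z)) (T ∪ C) +
      (GX q0 (fB k 2) (wtB e (T ∪ C)) (fun z => xi (lm ^ 2 * z)) (T ∪ C) +
      (lm * GX q0 (fB k 2) (wtB e (T ∪ C)) (gKZ k) (T ∪ C) +
      GX q0 (fB k 2) (wtB e (T ∪ C)) (erZ k h) (T ∪ C))))) := by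
    rw [← GX_fcmul, ← GX_fcmul (c := lm), ← GX_fadd, ← GX_fadd, ← GX_fadd, ← GX_fadd]
    congr 1
    funext z
    rw [erZ, pow_one]
    ring
  rw [idMZ_eq k h0 h n hd he hC hq, idUK_eq h0 hl0 (copK_fB k 2) n hd he hC hq, g1]
  ring

/-- **the quadratic part** -/
theorem Rt_GX_gKZ (hB : (2 : ℂ)⁻¹ ∉ B) (h0 : aa q0.1 = 1) (hk : CopK kap)
    {J : Finset Pg} (hq0 : q0 ∉ J) (hl0 : bb q0.1 = 0) (he : ∀ q ∈ J, e q ≠ 0) (k : ZMod 4) :
    Rt B (GX q0 kap (wtB e J) (gKZ k) J) (PHO q0 (fun q => aa q.1) J) := by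
  have h1 := Rt_GX_h3 hB (tr3_B hB) h0 hk.ndvd hq0 hl0 he
  have h2 := Rt_GX_ze hB h0 hk.ndvd hq0 hl0 he 0
  have h3 := Rt_GX_ze hB h0 hk.ndvd hq0 hl0 he 2
  by_cases hk2 : k = 2
  · have e1 : gKZ k = fun z => (ze (lm ^ 0 * z) + ze (lm ^ 2 * z)) +
        (ze z * ze (lm * z) + ze (lm * z) * ze (lm ^ 2 * z)) := by
      funext z
      rw [gKZ, if_pos hk2]
    have h4 := (h2.add hB h3).add hB h1
    have key : ∀ a b : ZMod 2, a + a + b = b := by decide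
    rw [key, ← GX_fadd, ← GX_fadd] at h4
    rw [e1]
    exact h4
  · have e1 : gKZ k = fun z => ze z * ze (lm * z) + ze (lm * z) * ze (lm ^ 2 * z) := by
      funext z
      rw [gKZ, if_neg hk2, zero_add]
    rw [e1]
    exact h1

/-- **The difference of the total identities.** -/
theorem Rt_idDZ (hB : (2 : ℂ)⁻¹ ∉ B) {k : ZMod 4} (hk : k = 0 ∨ k = 2)
    (h0 : aa q0.1 = 1) (hl0 : bb q0.1 = 0) (h : ZMod 2) {T C : Finset Pg} (hd : Disjoint T C)
    (he : ∀ q ∈ T, md (e q) ≠ 0) (hC : ∀ q ∈ C, e q = 2) (hq : q0 ∉ T ∪ C)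
    (hne : (T ∪ C).Nonempty) :
    Rt B (idB lm 1 (LaMZ k h q0 e) (eJs k 2) (xJs (hh h) q0 e) (nXB q0) 1 T C -
      idB lm 1 (UxD (1 / 2) (LaYE (fB k 2) q0 e) (EfZ q0 e) (chZ q0 e) fun b => bb b.1)
        (fun b : Pg => em b.1 ^ 2) (xJs 2 q0 e) (nXB q0) 1 T C)
      (PHO q0 (fun q => aa q.1) (T ∪ C)) := by
  have hex := exp_ne he hC
  have hl0' := v_lm_pos (B := B)
  have hl1 := v_lm_lt (B := B) hB
  have hl := lm_ne
  rw [idDZ_eq h0 hl0 h 1 hd he hC hq, pow_one, add_div, add_div, mul_div_cancel_left₀ _ hl]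
  have h1 := v_GX_wtB_one (q0 := q0) (kap := fB k 2) hB (copK_fB k 2).ndvd hq hex
  rw [sum_mqX hd he hC] at h1
  have h2 : B.valuation lm ^ (3 * T.card + 2 * C.card) < B.valuation lm := by
    have h3 : 2 ≤ 3 * T.card + 2 * C.card := by
      have h4 := hne.card_pos
      rw [Finset.card_union_of_disjoint hd] at h4
      omega
    calc B.valuation lm ^ (3 * T.card + 2 * C.card) ≤ B.valuation lm ^ 2 :=
          pow_le_pow_right_of_le_one' hl1.le h3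
      _ < B.valuation lm := v_lm_sq_lt hB
  have r1 : Rt B ((cKZ k h - 1) * GX q0 (fB k 2) (wtB e (T ∪ C)) (fun _ => 1) (T ∪ C) / lm) 0 := by
    refine Rt.of_lt ?_
    rw [map_div₀, div_lt_one₀ hl0', map_mul]
    exact (mul_le_of_le_one_left' (v_cKZ_sub hB k h)).trans_lt (h1.trans_lt h2)
  have r2 := Rt_GX_gKZ hB h0 (copK_fB k 2) hq hl0 hex k
  have r3 : Rt B (GX q0 (fB k 2) (wtB e (T ∪ C)) (erZ k h) (T ∪ C) / lm) 0 := by
    refine Rt.of_lt ?_
    rw [map_div₀, div_lt_one₀ hl0']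
    exact v_GX_ltB hB (copK_fB k 2).ndvd hex hl0' fun z hz => v_erZ hB hk h hz
  have r4 := r1.add hB (r2.add hB r3)
  rwa [add_zero, zero_add] at r4

/-! ### The small fields -/

/-- `κ'` -/
def kpZ (k : ZMod 4) (b : Pg) : ZMod 2 := (if k = 2 then aa b.1 else 0) + bb b.1

theorem Rt_chZ (hB : (2 : ℂ)⁻¹ ∉ B) (T : Finset Pg) : Rt B (chZ q0 e T) 1 :=
  (Rt_root hB (-bXB q0 e 0 T lam)).neg hB

theorem Rt_chEZ (hB : (2 : ℂ)⁻¹ ∉ B) (hl0 : bb q0.1 = 0) {T : Finset Pg}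
    (he : ∀ p ∈ T, md (e p) ≠ 0) :
    Rt B ((EfZ q0 e T - chZ q0 e T) / lm) (0 + ∑ p ∈ T, bb p.1) := by
  have hl := lm_ne
  have h1 := Rt_e4 hB (-bXB q0 e 0 T lam)
  have hneg : ∀ x : ZMod 2, -x = x := by decide
  rw [map_neg, hneg, md_bXB_lam hl0 he] at h1
  have h2 : Rt B ((1 + e4 (2 * bXB q0 e 0 T lam)) / lm) 0 := by
    have key : ∀ b : ZMod 4, 2 * b = 0 ∨ 2 * b = 2 := by decide
    rcases key (bXB q0 e 0 T lam) with h3 | h3
    · rw [h3, e4_zero]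
      have e1 : (1 + 1 : ℂ) / lm = 2 / lm ^ 2 * lm := by
        field_simp
        norm_num
      rw [e1]
      have h4 : Rt B (2 / lm ^ 2) 1 := by
        have e2 : (2 : ℂ) / lm ^ 2 = -zt := by
          rw [div_eq_iff (pow_ne_zero 2 lm_ne), lm_sq]
          linear_combination 2 * zt_sq
        rw [e2]
        have h5 := Rt_root hB 1
        rw [e4_one] at h5
        exact h5.neg hB
      have h5 := h4.mul hB (Rt_lm hB)
      rwa [mul_zero] at h5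
    · rw [h3, e4_two, add_neg_cancel, zero_div]
      exact Rt.zero
  have e1 : (EfZ q0 e T - chZ q0 e T) / lm = (1 + e4 (2 * bXB q0 e 0 T lam)) / lm -
      (1 - e4 (-bXB q0 e 0 T lam)) / lm := by
    rw [EfZ, chZ]
    field_simp
    ring
  have h3 := h2.sub hB h1
  have hz : ∀ y : ZMod 2, 0 - y = 0 + y := by decide
  rw [hz] at h3
  rwa [e1]

theorem bkB_empty (q0 : Pg) (e : Pg → ZMod 4) (r : ZMod 4) (x : 𝓞 K) :
    bkB q0 e r ∅ x = -(r * nn q0.1 * c4 q0 x) := by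
  rw [bkB, Finset.sum_empty, Finset.sum_empty, add_zero, zero_sub]

/-- **the weights of the empty set** -/
theorem Rt_fMZ (hB : (2 : ℂ)⁻¹ ∉ B) {k : ZMod 4} (hk : k = 0 ∨ k = 2) (h0 : aa q0.1 = 1)
    (h : ZMod 2) (b : Pg) :
    Rt B ((eJs k 2 b - xJs (hh h) q0 e ∅ b) / lm ^ 2) (kpZ k b + h * s4 q0 b) := by
  have h02 : (0 : ZMod 4) ≠ 2 := by decide
  have h3 : md (bkB q0 e (hh h) ∅ b.1) = 0 := by
    rw [md_bkB h0 (hh h) (fun q hq => absurd hq (Finset.notMem_empty q)), Finset.sum_empty, add_zero]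
    have key : ∀ h y : ZMod 2, md (hh h) * y = 0 := by
      unfold hh
      decide
    exact key h _
  have h4 : kapB k 2 b + md (bkB q0 e (hh h) ∅ b.1) = 0 := by
    rw [h3, add_zero, kapB]
    have e1 : ((2 : ℕ) : ZMod 2) = 0 := by decide
    rcases hk with rfl | rfl
    · rw [md_zero, zero_mul, zero_add, e1, zero_mul]
    · rw [md_two, zero_mul, zero_add, e1, zero_mul]
  have h5 := Rt_facJ2 hB k 2 b h4
  have h6 : hf2 (k * nn b.1 + ((2 : ℕ) : ZMod 4) * ll b.1 + bkB q0 e (hh h) ∅ b.1) =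
      kpZ k b + h * s4 q0 b := by
    rw [bkB_empty, kpZ]
    have e1 : s4 q0 b = md (c4 q0 b.1) := rfl
    have e2 : bb b.1 = md (ll b.1) := (md_ll b).symm
    have e3 : aa b.1 = md (nn b.1) := rfl
    have e4 : md (nn q0.1) = 1 := h0
    rw [e1, e2, e3]
    rcases hk with rfl | rfl
    · rw [if_neg h02, zero_mul]
      have key : ∀ (l n c : ZMod 4) (h : ZMod 2), md n = 1 →
          hf2 (0 + ((2 : ℕ) : ZMod 4) * l + -(hh h * n * c)) = 0 + md l + h * md c := by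
        unfold hf2 hh
        decide
      exact key _ _ _ _ e4
    · rw [if_pos rfl]
      have key : ∀ (m l n c : ZMod 4) (h : ZMod 2), md n = 1 →
          hf2 (2 * m + ((2 : ℕ) : ZMod 4) * l + -(hh h * n * c)) = md m + md l + h * md c := by
        unfold hf2 hh
        decide
      exact key _ _ _ _ _ e4
  rwa [h6] at h5

theorem UxD_empty : UxD (1 / 2) (LaYE kap q0 e) (EfZ q0 e) (chZ q0 e) (fun b => bb b.1) ∅ ∅ =
    LaYE kap q0 e ∅ ∅ := by
  rw [UxD, EfZ, chZ, bXB_zero_empty, Finset.prod_empty, mul_zero, neg_zero, e4_zero]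
  ring

theorem idB_empty {ι : Type*} [DecidableEq ι] (l : ℂ) (La : Finset ι → Finset ι → ℂ) (ee : ι → ℂ)
    (x : Finset ι → ι → ℂ) (s : ι → ι → ZMod 2) : idB l 1 La ee x s 0 ∅ ∅ = La ∅ ∅ := by
  rw [idB, Finset.powerset_empty, Finset.sum_singleton, Finset.sum_singleton, Finset.card_empty,
    Finset.sdiff_self, Finset.empty_union, Finset.prod_empty]
  simp

/-- the value of `Y` for the empty sets -/
theorem Rt_Y0E (hB : (2 : ℂ)⁻¹ ∉ B) (h0 : aa q0.1 = 1) (hk : CopK kap) :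
    Rt B (LaYE kap q0 e ∅ ∅) 1 := by
  have hq : q0 ∉ (∅ : Finset Pg) := Finset.notMem_empty q0
  have hex : ∀ q ∈ (∅ : Finset Pg), e q ≠ 0 := fun q hq' => absurd hq' (Finset.notMem_empty q)
  have h1 := GX_X_rhK (q0 := q0) (e := e) (kap := kap) (J := ∅) 1
  rw [GX_wtB_one hk.ndvd hq hex, Finset.prod_empty, mul_one] at h1
  have e1 : LaYE kap q0 e ∅ ∅ = n0 q0 kap + 2 * GX q0 kap (wtB e ∅) (fun z => xi (1 * z)) ∅ := by
    have e2 : FXB q0 e kap X (∅ ∪ ∅) (∅ ∪ ∅) = GX q0 kap (wtB e ∅) (fun z => X (1 * z)) ∅ := by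
      rw [Finset.empty_union, FXB, GX_SO, GX_SO]
      refine SO_congr fun y _ => ?_
      rw [chP, Finset.prod_empty, wtB, wB, Finset.prod_empty, mB, Finset.sum_empty, pow_zero,
        div_one, one_mul, one_mul, one_mul]
    rw [LaYE, e2, h1, mul_div_cancel_left₀ _ rh_ne]
  rw [e1]
  have h2 : B.valuation (GX q0 kap (wtB e ∅) (fun z => xi (1 * z)) ∅) ≤ 1 :=
    v_GX_leB hB hk.ndvd hex fun z hz => by
      rw [one_mul]
      exact xi_le hB hz
  refine (Rt_n0 hB h0 hk.ndvd).congr ?_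
  rw [add_sub_cancel_left, map_mul]
  exact mul_lt_one_of_lt_of_le (two_lt hB) h2

/-- the value of `M` for the empty sets -/
theorem Rt_M0Z (hB : (2 : ℂ)⁻¹ ∉ B) {k : ZMod 4} (hk : k = 0 ∨ k = 2) (h0 : aa q0.1 = 1)
    (hl0 : bb q0.1 = 0) (h : ZMod 2) :
    Rt B (LaMZ k h q0 e ∅ ∅) (if k = 2 then 1 else 0) := by
  have hd : Disjoint (∅ : Finset Pg) ∅ := Finset.disjoint_empty_left ∅
  have hq : q0 ∉ (∅ : Finset Pg) ∪ ∅ := by
    rw [Finset.empty_union]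
    exact Finset.notMem_empty q0
  have hno : ∀ {p : Pg → Prop}, ∀ q ∈ (∅ : Finset Pg), p q :=
    fun q hq' => absurd hq' (Finset.notMem_empty q)
  have hex : ∀ q ∈ (∅ : Finset Pg) ∪ ∅, e q ≠ 0 := by
    rw [Finset.empty_union]
    exact hno
  have h1 := idDZ_eq (k := k) (e := e) h0 hl0 h 0 hd hno hno hq
  rw [idB_empty, idB_empty, UxD_empty, pow_zero, div_one] at h1
  have hk' := copK_fB k 2
  have r1 : Rt B ((cKZ k h - 1) * GX q0 (fB k 2) (wtB e (∅ ∪ ∅)) (fun _ => 1) (∅ ∪ ∅))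
      ((if k = 2 then 1 else 0) - 1) := by
    have h3 : Rt B (GX q0 (fB k 2) (wtB e (∅ ∪ ∅)) (fun _ => 1) (∅ ∪ ∅)) 1 := by
      rw [GX_wtB_one hk'.ndvd hq hex, Finset.empty_union, Finset.prod_empty, mul_one]
      exact Rt_n0 hB h0 hk'.ndvd
    have h4 : Rt B (cKZ k h) (if k = 2 then 1 else 0) := by
      have h5 := Rt_lm hB
      rw [cKZ]
      split_ifs
      · have h6 := Rt.one.add hB h5
        rwa [add_zero] at h6
      · exact Rt.one
      · exact h5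
      · exact Rt.zero
    have h6 := (h4.sub hB Rt.one).mul hB h3
    rwa [mul_one] at h6
  have r2 : Rt B (lm * GX q0 (fB k 2) (wtB e (∅ ∪ ∅)) (gKZ k) (∅ ∪ ∅)) 0 := by
    have h5 := (Rt_lm hB).mul hB (Rt_GX_gKZ hB h0 hk' hq hl0 hex k)
    rwa [zero_mul] at h5
  have r3 : Rt B (GX q0 (fB k 2) (wtB e (∅ ∪ ∅)) (erZ k h) (∅ ∪ ∅)) 0 :=
    Rt.of_lt ((v_GX_ltB hB hk'.ndvd hex v_lm_pos fun z hz => v_erZ hB hk h hz).trans (v_lm_lt hB))
  have r4 := (Rt_Y0E (e := e) hB h0 hk').add hB (r1.add hB (r2.add hB r3))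
  have e1 : LaMZ k h q0 e ∅ ∅ = LaYE (fB k 2) q0 e ∅ ∅ + ((cKZ k h - 1) * GX q0 (fB k 2)
      (wtB e (∅ ∪ ∅)) (fun _ => 1) (∅ ∪ ∅) + (lm * GX q0 (fB k 2) (wtB e (∅ ∪ ∅)) (gKZ k) (∅ ∪ ∅) +
        GX q0 (fB k 2) (wtB e (∅ ∪ ∅)) (erZ k h) (∅ ∪ ∅))) := by
    linear_combination h1
  have key : ∀ y : ZMod 2, 1 + (y - 1 + (0 + 0)) = y := by decide
  rw [key] at r4
  rwa [e1]

/-- the sums over the Hamiltonian paths -/
theorem PHO_bb (q0 : Pg) (f : Pg → ZMod 2) (J : Finset Pg) :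
    PHO q0 f J = ∑ i ∈ J, bb i.1 * Ham (nXB q0) f J i := by
  rw [PHO]
  exact Finset.sum_congr rfl fun i _ => by rw [c2_lam]; rfl

/-- the data of `M` -/
theorem syMZ (hB : (2 : ℂ)⁻¹ ∉ B) {k : ZMod 4} (hk : k = 0 ∨ k = 2) (h0 : aa q0.1 = 1)
    (h : ZMod 2) {S0 B0 : Finset Pg} (hd : Disjoint S0 B0) (he : ∀ q ∈ S0, md (e q) ≠ 0) :
    SyB B lm 1 (LaMZ k h q0 e) (eJs k 2) (xJs (hh h) q0 e) (nXB q0) 0 S0 B0 := by
  have h1 := syJB hB k 2 h0 (hh h) hd he 1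
  have e1 : (fun b : Pg => kapB k 2 b + md (hh h) * s4 q0 b) = 0 := by
    funext b
    have key : ∀ h y : ZMod 2, md (hh h) * y = 0 := by
      unfold hh
      decide
    have e1 : ((2 : ℕ) : ZMod 2) = 0 := by decide
    rw [key, add_zero, kapB, e1, zero_mul, add_zero, Pi.zero_apply]
    rcases hk with rfl | rfl
    · rw [md_zero, zero_mul]
    · rw [md_two, zero_mul]
  rw [e1] at h1
  exact ⟨h1.hB, h1.hl, h1.hl0, h1.hu, h1.dis, h1.fac, h1.one⟩

/-- the coefficient -/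
theorem Rt_cUZ (hB : (2 : ℂ)⁻¹ ∉ B) : Rt B (1 / 2 * lm ^ (1 + 1)) 1 := by
  have e1 : (1 / 2 * lm ^ (1 + 1) : ℂ) = zt := by
    have h1 := lm_sq_zt
    linear_combination (1 / 2) * h1
  rw [e1]
  have h5 := Rt_root hB 1
  rwa [e4_one] at h5

end

end Pool.Agent.Lib.MP_1a91b9_ntQ
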