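import Pool.Agent.Lib.MP_1a91b9_ntQ.B.FamE
import Pool.Agent.Lib.MP_1a91b9_ntQ.B.InE

/-!
# Quartic twists, all fourth-power-free `D`, class J2d, `ν` even, file InF: the data `SyDE`

The sums `LaMZ k h q0 e T A = LaJ k 2 (hh h) q0 e T A / KZ k` and the comparison family
`LaYE (fB k 2) q0 e`, `k = 0, 2`, satisfy all the hypotheses of `SyDE`.
-/

set_option autoImplicit false

namespace Pool.Agent.Lib.MP_1a91b9_ntQ

open NumberField Pool.Agent.Lib.MP_1a91b9_nuT Pool.Agent.Lib.MP_1a91b9_nuT.S3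
  Pool.Agent.Lib.MP_1a91b9_nuT.Ell

noncomputable section

variable {B : ValuationSubring ℂ} {k : ZMod 4} {q0 : Pg} {e : Pg → ZMod 4}

theorem LaXE_LaYE : LaXE k q0 e = LaYE (fB k 2) q0 e := rfl

theorem lJ_kpZ (k : ZMod 4) (b : Pg) : lJ k b.1 = kpZ k b := by
  rw [lJ, kpZ]
  by_cases h : k = 2
  · rw [if_pos h, if_pos h]
  · rw [if_neg h, if_neg h, zero_add]

/-- **The data of the classes (J2d), `ν` even.** -/
theorem syDEZ (hB : (2 : ℂ)⁻¹ ∉ B) (hk : k = 0 ∨ k = 2) (h0 : aa q0.1 = 1)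
    (hl0 : bb q0.1 = 0) (h : ZMod 2) {S0 B0 : Finset Pg} (hd : Disjoint S0 B0)
    (he : ∀ q ∈ S0, md (e q) ≠ 0) (he2 : ∀ q ∈ B0, e q = 2) (hq : q0 ∉ S0 ∪ B0)
    (hs : ∀ b ∈ B0, s4 q0 b = 0) :
    SyDE B lm (LaMZ k h q0 e) (LaYE (fB k 2) q0 e) (eJs k 2) (fun b : Pg => em b.1 ^ 2)
      (xJs (hh h) q0 e) (xJs 2 q0 e) (EfZ q0 e) (chZ q0 e) (1 / 2) (nXB q0)
      (fun b => kpZ k b + (1 + h) * s4 q0 b) (fun b => bb b.1) (fun b => aa b.1)
      (fun b => s4 q0 b) (fun b => kpZ k b + h * s4 q0 b) (if k = 2 then 1 else 0) S0 B0 where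
  hM := syMZ hB hk h0 h hd he
  hX := syXE hB k h0 hd he
  cw T _ b _ := by
    rw [← lJ_kpZ]
    exact Rt_cw_E hB hk h0 h T b
  cx T _ b _ := cx_E hB h0 h T b
  ch1 T _ := Rt_chZ hB T
  chE T hT := Rt_chEZ hB hl0 fun p hp => he p (hT hp)
  hcU := Rt_cUZ hB
  s0B := hs
  fX b _ := Rt_fX_E hB h0 b
  fXB b hb := Rt_fXB_E hB h0 (hs b hb)
  Y0 := Rt_LaXE_empty hB h0
  idY T hT C hC hne := Rt_idE hB h0 (Finset.disjoint_of_subset_left hT
    (Finset.disjoint_of_subset_right hC hd)) (fun q hq' => he q (hT hq'))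
    (fun q hq' => he2 q (hC hq')) (fun h1 => hq (Finset.union_subset_union hT hC h1)) hne
  idY2 C hC hne := v_idE2 hB h0 (fun q hq' => he2 q (hC hq'))
    (fun h1 => hq (Finset.mem_union_right _ (hC h1))) hne
  U0 := by
    rw [UxD_empty]
    exact Rt_LaXE_empty hB h0
  M0 := Rt_M0Z hB hk h0 hl0 h
  fM b _ := Rt_fMZ hB hk h0 h b
  idD T hT hne C hC := by
    rw [← PHO_bb]
    exact Rt_idDZ hB hk h0 hl0 h (Finset.disjoint_of_subset_left hT
      (Finset.disjoint_of_subset_right hC hd)) (fun q hq' => he q (hT hq'))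
      (fun q hq' => he2 q (hC hq')) (fun h1 => hq (Finset.union_subset_union hT hC h1))
      (hne.mono Finset.subset_union_left)
  idD0 C hC hne := by
    have hne' : ((∅ : Finset Pg) ∪ C).Nonempty := by rwa [Finset.empty_union]
    exact (ValuationSubring.valuation_le_one_iff _ _).1 (Rt_idDZ hB hk h0 hl0 h
      (Finset.disjoint_empty_left C) (fun q hq' => absurd hq' (Finset.notMem_empty q))
      (fun q hq' => he2 q (hC hq')) (fun h1 => hq (Finset.mem_union_right _ (hC (by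
        rwa [Finset.empty_union] at h1)))) hne').le

end

end Pool.Agent.Lib.MP_1a91b9_ntQ
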