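import Pool.Agent.Lib.MP_1a91b9_ntQ.B.FamY
import Pool.Agent.Lib.MP_1a91b9_ntQ.B.PthZ
import Pool.Agent.Lib.MP_1a91b9_ntQ.A.Rat4P

/-!
# Quartic twists, all fourth-power-free `D`, class J2d, `h` odd, file InYo: the difference of the two families

`f` is a function of weight `h + 2` with `Tr_q f = q f (q z)`: multiples of `y / x` (`h = 1`) and of
`y / x` at `z + 1 / 2` (`h = 3`). If the symbols of the auxiliary prime `q0` at the primes of `D` are
`lJ k`, the weights of the sums `LaJ k 2 h q0 e` (up to a sign) and of the sums of `f` are the same,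
`b - i ^ bkB q0 e (h + 2) T b`, and the difference `DdO` is one system of the first order.
-/

set_option autoImplicit false

namespace Pool.Agent.Lib.MP_1a91b9_ntQ

open NumberField Pool.Agent.Lib.MP_1a91b9_nuT Pool.Agent.Lib.MP_1a91b9_nuT.S3
  Pool.Agent.Lib.MP_1a91b9_nuT.Ell

noncomputable section

/-! ### The functions -/

/-- a function of weight `h` whose traces have the factor `q` -/
structure FunO (h : ZMod 4) (f : ℂ → ℂ) : Prop where
  pd : PdL f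
  wt : Wt h f
  tr : ∀ q : Pg, TrF q (em q.1) f

theorem gg_twoO {z : ℂ} (hz : 2 * z ∈ PP.lattice) : gg z = 0 := by
  have h1 : gg z = gg (-z) := gg_congr (by
    rw [sub_neg_eq_add, ← two_mul]
    exact hz)
  rw [gg_neg] at h1
  linear_combination (1 / 2) * h1

theorem sum_ggO {ι : Type*} [Fintype ι] {α : ℂ} {τ : ι → ℂ} (hα : α ∈ PP.lattice) (hα0 : α ≠ 0)
    (h3 : (α - 1) * pe ∈ PP.lattice) (h1 : ∀ i, α * τ i ∈ PP.lattice)
    (h2 : ∀ x, α * x ∈ PP.lattice → ∃! i, x - τ i ∈ PP.lattice) (z : ℂ) :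
    ∑ i, gg (z + τ i) = α * gg (α * z) := by
  have h4 := Rat4P.log_dist hα hα0 h3 h1 h2 z
  have e1 : ∀ i, gg (z + τ i) = (2 * Om)⁻¹ * (2 * (E1 (z + τ i + pe) - E1 (z + τ i))) := fun i => by
    have hO := Om_ne_zero
    rw [gg_eq]
    field_simp
  rw [Finset.sum_congr rfl fun i _ => e1 i, ← Finset.mul_sum, h4, gg_eq]
  have hO := Om_ne_zero
  field_simp

theorem em_q_pe (q : Pg) : (em q.1 - 1) * pe ∈ PP.lattice := by
  obtain ⟨y, hy⟩ := em_q_sub q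
  have e : (em q.1 - 1) * pe = em (lam ^ 2 * y) := by
    rw [em_mul, em_pow, em_lam, hy]
    linear_combination (lm ^ 2 * em y) * lm_mul_pe
  rw [e]
  exact em_mem _

theorem em_q_half (q : Pg) : em q.1 * (1 / 2) - 1 / 2 ∈ PP.lattice := by
  obtain ⟨y, hy⟩ := em_q_sub q
  have e : em q.1 * (1 / 2) - 1 / 2 = em (iO * (lam * y)) := by
    rw [em_mul, em_mul, em_lam, em_iO']
    linear_combination (1 / 2) * hy + (1 / 2 * lm * em y) * lm_sq
  rw [e]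
  exact em_mem _

theorem FunO_gg : FunO 3 gg where
  pd _ _ h := gg_congr h
  wt z _ := by
    rw [e4_three]
    by_cases h2 : 2 * z ∈ PP.lattice
    · have e : 2 * (zt * z) = zt * (2 * z) := by ring
      have h3 : 2 * (zt * z) ∈ PP.lattice := by
        rw [e]
        exact zt_mul_mem h2
      rw [gg_twoO h2, gg_twoO h3, mul_zero]
    · rw [gg_i h2]
      ring
  tr q := TrF_of (fun _ _ h => gg_congr h) fun _ _ _ h1 h2 z _ =>
    sum_ggO (em_mem q.1) (em_ne q.ne_zero) (em_q_pe q) h1 h2 z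

theorem FunO_ggh : FunO 1 fun z => gg (z + 1 / 2) where
  pd _ _ h := gg_congr (by rwa [add_sub_add_right_eq_sub])
  wt z _ := by
    rw [e4_one]
    by_cases h2 : 2 * z ∈ PP.lattice
    · have h4 : 2 * (z + 1 / 2) ∈ PP.lattice := by
        rw [mul_add]
        exact add_mem h2 two_half_mem
      have e : 2 * (zt * z + 1 / 2) = zt * (2 * z) + 2 * (1 / 2) := by ring
      have h3 : 2 * (zt * z + 1 / 2) ∈ PP.lattice := by
        rw [e]
        exact add_mem (zt_mul_mem h2) two_half_mem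
      change gg (zt * z + 1 / 2) = zt * gg (z + 1 / 2)
      rw [gg_twoO h3, gg_twoO h4, mul_zero]
    · have h3 : 2 * (zt * z) ∉ PP.lattice := fun h => h2 (by
        have e : 2 * z = -(zt * (2 * (zt * z))) := by linear_combination (2 * z) * zt_sq
        rw [e]
        exact neg_mem (zt_mul_mem h))
      have a1 := gg_half h2
      have a2 := gg_half h3
      have a3 := gg_ne h2
      rw [gg_i h2] at a2
      have a4 : (gg (zt * z + 1 / 2) - zt * gg (z + 1 / 2)) * gg z = 0 := by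
        linear_combination zt * a2 - zt * a1 + (gg (zt * z + 1 / 2) * gg z) * zt_sq
      exact sub_eq_zero.1 ((mul_eq_zero.1 a4).resolve_right a3)
  tr q := TrF_of (fun _ _ h => gg_congr (by rwa [add_sub_add_right_eq_sub])) fun ι _ τ h1 h2 z _ => by
    have a1 := sum_ggO (em_mem q.1) (em_ne q.ne_zero) (em_q_pe q) h1 h2 (z + 1 / 2)
    have e1 : ∀ i, gg (z + τ i + 1 / 2) = gg (z + 1 / 2 + τ i) := fun i => by
      congr 1
      ring
    have e2 : gg (em q.1 * (z + 1 / 2)) = gg (em q.1 * z + 1 / 2) := gg_congr (by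
      have e3 : em q.1 * (z + 1 / 2) - (em q.1 * z + 1 / 2) = em q.1 * (1 / 2) - 1 / 2 := by ring
      rw [e3]
      exact em_q_half q)
    rw [Finset.sum_congr rfl fun i _ => e1 i, a1, e2]

theorem FunO.smul {h : ZMod 4} {f : ℂ → ℂ} (hf : FunO h f) (c : ℂ) : FunO h fun z => c * f z where
  pd x y hxy := by
    change c * f x = c * f y
    rw [hf.pd x y hxy]
  wt z hz := by
    change c * f (zt * z) = e4 h * (c * f z)
    rw [hf.wt z hz]
    ring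
  tr q z hz := by
    rw [SM_cmul q.ne_zero, hf.tr q z hz]
    ring

/-! ### The sums -/

/-- the sums with the characters of `T` -/
def FO (k : ZMod 4) (f : ℂ → ℂ) (q0 : Pg) (e : Pg → ZMod 4) (T J : Finset Pg) : ℂ :=
  FXB q0 e (fB k 2) f T J

/-- the family -/
def LaO (k : ZMod 4) (f : ℂ → ℂ) (q0 : Pg) (e : Pg → ZMod 4) (T A : Finset Pg) : ℂ :=
  FO k f q0 e (T ∪ A) (T ∪ A)

/-- the coefficient -/
def wO (c : ℂ) (t : ZMod 4) : ℂ := c * e4 (-(2 * t)) + (e4 (-t) + e4 (-(2 * t))) / lm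

/-- the function which is subtracted -/
def uO (c : ℂ) (f : ℂ → ℂ) (z : ℂ) : ℂ := c * f (lm ^ 2 * z) + (f (lm ^ 1 * z) + f (lm ^ 2 * z)) / lm

/-- the sign -/
def PO2 (k : ZMod 4) (R : Finset Pg) : ℂ := ∏ b ∈ R, sgz (lJ k b.1)

/-- **the difference of the two families** -/
def DdO (k h : ZMod 4) (c N : ℂ) (f : ℂ → ℂ) (q0 : Pg) (e : Pg → ZMod 4) (T A : Finset Pg) : ℂ :=
  (PO2 k (T ∪ A) * LaJ k 2 h q0 e T A / N -
    wO c (bkB q0 e (h + 2) (T ∪ A) lam) * LaO k f q0 e T A) / lm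

variable {B : ValuationSubring ℂ} {k h h' : ZMod 4} {f : ℂ → ℂ} {q0 : Pg} {e : Pg → ZMod 4}
  {T J : Finset Pg}

/-- the sum of `f (lam ^ n z)` -/
theorem FO_lam (hf : FunO h' f) (h0 : aa q0.1 = 1) (hT : T ⊆ J) (n : ℕ) :
    FXB q0 e (fB k 2) (fun z => f (lm ^ n * z)) T J =
      e4 (-(n * bkB q0 e h' T lam)) * FO k f q0 e T J := by
  have h1 := FXB_scale (ex := e) h0 (cop_fBq k 2 q0 J) (cop_lam q0 J n) hT hf.pd hf.wt
  have h2 : em (lam ^ n) = lm ^ n := by rw [em_pow, em_lam]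
  have h3 := bkB_pow (q0 := q0) (ex := e) (J := J) (T := T) h' (x := lam) (by
    have h := cop_lam q0 J 1
    rwa [pow_one] at h) hT n
  rw [h2, h3] at h1
  exact h1

/-- the sum of the function which is subtracted -/
theorem FO_uO (hf : FunO h' f) (h0 : aa q0.1 = 1) (hT : T ⊆ J) (c : ℂ) :
    FXB q0 e (fB k 2) (uO c f) T J = wO c (bkB q0 e h' T lam) * FO k f q0 e T J := by
  have h1 := FO_lam (k := k) (e := e) hf h0 hT 1
  have h2 := FO_lam (k := k) (e := e) hf h0 hT 2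
  have k1 : ∀ b : ZMod 4, -(((1 : ℕ) : ZMod 4) * b) = -b := by decide
  have k2 : ∀ b : ZMod 4, -(((2 : ℕ) : ZMod 4) * b) = -(2 * b) := by decide
  rw [k1] at h1
  rw [k2] at h2
  have e1 : uO c f = fun z => c * f (lm ^ 2 * z) + lm⁻¹ * (f (lm ^ 1 * z) + f (lm ^ 2 * z)) := by
    funext z
    rw [uO]
    ring
  have h3 := FXB_smul (q0 := q0) (ex := e) (kap := fB k 2) (T := T) (J := J) c
    fun z => f (lm ^ 2 * z)
  have h4 := FXB_add (q0 := q0) (ex := e) (kap := fB k 2) (T := T) (J := J)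
    (fun z => f (lm ^ 1 * z)) fun z => f (lm ^ 2 * z)
  have h5 := FXB_smul (q0 := q0) (ex := e) (kap := fB k 2) (T := T) (J := J) lm⁻¹
    fun z => f (lm ^ 1 * z) + f (lm ^ 2 * z)
  have h6 := FXB_add (q0 := q0) (ex := e) (kap := fB k 2) (T := T) (J := J)
    (fun z => c * f (lm ^ 2 * z)) fun z => lm⁻¹ * (f (lm ^ 1 * z) + f (lm ^ 2 * z))
  rw [e1, h6, h3, h5, h4, h1, h2, wO]
  ring

/-- the exact Euler factors -/
theorem FO_prod (hf : FunO h' f) (h0 : aa q0.1 = 1) (hT : T ⊆ J) (hq0 : q0 ∉ J) :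
    FO k f q0 e T J = (∏ q ∈ J \ T, (em q.1 - e4 (bkB q0 e h' T q.1))) * FO k f q0 e T T :=
  FXB_prod h0 hf.pd hf.wt (fun q => em q.1) hf.tr hT hq0 (cop_fBq k 2 q0 J)

/-- the total identity over one set -/
theorem idB_set (h0 : aa q0.1 = 1) (h' : ZMod 4) (g : Pg → ℂ) (K : ℂ) (n : ℕ)
    (F : Finset Pg → ℂ) {C : Finset Pg} (hd : Disjoint T C) (hC : ∀ q ∈ C, e q = 2) :
    idB lm K (fun T A => F (T ∪ A)) g (xJs h' q0 e) (nXB q0) n T C =
      (∑ R ∈ (T ∪ C).powerset, (-1) ^ R.card *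
        (F R * ∏ b ∈ (T ∪ C) \ R, (g b - e4 (bkB q0 e h' R b.1)))) /
        (K * lm ^ (T.card + 2 * C.card + n)) := by
  classical
  rw [idB, sum_powerset_union hd]
  congr 1
  refine Finset.sum_congr rfl fun T' hT' => ?_
  rw [Finset.mul_sum]
  refine Finset.sum_congr rfl fun A hA => ?_
  rw [Finset.mem_powerset] at hT' hA
  have hd' : Disjoint T' A := Finset.disjoint_of_subset_left hT'
    (Finset.disjoint_of_subset_right hA hd)
  have e1 : (T ∪ C) \ (T' ∪ A) = (T \ T') ∪ (C \ A) := by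
    ext q
    simp only [Finset.mem_sdiff, Finset.mem_union]
    have h1 : q ∈ T → q ∉ C := fun h => Finset.disjoint_left.1 hd h
    have h2 : q ∈ T' → q ∈ T := fun h => hT' h
    have h3 : q ∈ A → q ∈ C := fun h => hA h
    tauto
  have e2 : ∏ b ∈ (T \ T') ∪ (C \ A), fcB g (xJs h' q0 e) (nXB q0) T' A b =
      ∏ q ∈ (T \ T') ∪ (C \ A), (g q - e4 (bkB q0 e h' (T' ∪ A) q.1)) := by
    refine Finset.prod_congr rfl fun b _ => ?_
    rw [fcB, ← xJs_union h0 e h' hd' (fun a ha => hC a (hA ha)), xJs]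
  rw [Finset.card_union_of_disjoint hd', pow_add, mul_assoc, e2, e1]

/-! ### The data `SyB` -/

/-- the data for any family with these characters -/
theorem syO (hB : (2 : ℂ)⁻¹ ∉ B) (hh : md h' = 1) (h0 : aa q0.1 = 1) {S0 B0 : Finset Pg}
    (hd : Disjoint S0 B0) (he : ∀ q ∈ S0, md (e q) ≠ 0) (K : ℂ) (La : Finset Pg → Finset Pg → ℂ) :
    SyB B lm K La (fun b => em b.1) (xJs h' q0 e) (nXB q0) (fun b => s4 q0 b) S0 B0 where
  hB := hB
  hl := Rt.of_lt (v_lm_lt hB)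
  hl0 := lm_ne
  hu := (syJB hB 0 0 h0 h' hd he K).hu
  dis := hd
  fac T hT b _ := by
    have h1 := Rt_facT hB b (bkB q0 e h' T b.1)
    rw [md_bkB h0 h' (fun q hq => he q (hT hq)), hh, one_mul] at h1
    exact h1
  one _ _ _ _ := Rt_root hB _

/-! ### The total identities -/

theorem idLaO_eq (hf : FunO h' f) (h0 : aa q0.1 = 1) (n : ℕ) {C : Finset Pg} (hd : Disjoint T C)
    (hC : ∀ q ∈ C, e q = 2) (hq : q0 ∉ T ∪ C) :
    idB lm 1 (LaO k f q0 e) (fun b => em b.1) (xJs h' q0 e) (nXB q0) n T C =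
      GX q0 (fB k 2) (wB e (T ∪ C)) f (T ∪ C) / lm ^ (T.card + 2 * C.card + n) := by
  have h1 := idB_set h0 h' (fun b => em b.1) 1 n (fun R => FO k f q0 e R R) hd hC
  have h2 : (fun T A : Finset Pg => FO k f q0 e (T ∪ A) (T ∪ A)) = LaO k f q0 e := rfl
  rw [h2] at h1
  rw [h1, one_mul, GX_wB]
  congr 1
  refine Finset.sum_congr rfl fun R hR => ?_
  have h3 := FO_prod (k := k) (e := e) hf h0 (Finset.mem_powerset.1 hR) hq
  rw [FO] at h3
  rw [h3, mul_comm (FO k f q0 e R R)]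

/-- the exponents of the two families -/
theorem bkB_add_two (h0 : aa q0.1 = 1) (h : ZMod 4) (R : Finset Pg) (b : Pg) :
    e4 (bkB q0 e (h + 2) R b.1) = sgz (s4 q0 b) * e4 (bkB q0 e h R b.1) := by
  have e1 : e4 (2 * c4 q0 b.1) = sgz (s4 q0 b) := e4_two_sgz _
  rw [← e1, ← e4_add, bkB, bkB]
  congr 1
  have key : ∀ n c : ZMod 4, md n = 1 → -(2 * n * c) = 2 * c := by decide
  have h1 := key (nn q0.1) (c4 q0 b.1) h0
  linear_combination h1

theorem thB_inv_sgz (hk : k = 0 ∨ k = 2) (b : Pg) : (thB k 2 b.1)⁻¹ = sgz (lJ k b.1) := by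
  obtain ⟨t, ht, ht2⟩ := thB_lJ hk b.in4
  rw [ht, ← ht2, ← e4_two_sgz, inv_eq_of_mul_eq_one_right]
  rw [← e4_add]
  have key : ∀ t : ZMod 4, 2 * t + 2 * t = 0 := by decide
  rw [key, e4_zero]

theorem sgz_mul_self (y : ZMod 2) : sgz y * sgz y = 1 := by
  rw [← sgz_add]
  have key : ∀ y : ZMod 2, y + y = 0 := by decide
  rw [key, sgz_zero]

/-- the factors of the two families agree up to the sign -/
theorem fac_LaJ (hk : k = 0 ∨ k = 2) (h0 : aa q0.1 = 1) {b : Pg} (hs : s4 q0 b = lJ k b.1)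
    (R : Finset Pg) : (thB k 2 b.1)⁻¹ * em b.1 - e4 (bkB q0 e h R b.1) =
      sgz (lJ k b.1) * (em b.1 - e4 (bkB q0 e (h + 2) R b.1)) := by
  rw [bkB_add_two h0, hs, thB_inv_sgz hk, mul_sub, ← mul_assoc, sgz_mul_self, one_mul]

/-- **the total identity of the difference** -/
theorem idDdO_eq (hk : k = 0 ∨ k = 2) (hf : FunO (h + 2) f) (h0 : aa q0.1 = 1) (c N : ℂ) (n : ℕ)
    {C : Finset Pg} (hd : Disjoint T C) (hC : ∀ q ∈ C, e q = 2) (hq : q0 ∉ T ∪ C)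
    (hs : ∀ b ∈ T ∪ C, s4 q0 b = lJ k b.1) :
    idB lm 1 (DdO k h c N f q0 e) (fun b => em b.1) (xJs (h + 2) q0 e) (nXB q0) n T C =
      (PO2 k (T ∪ C) * GX q0 (fB k 2) (wB e (T ∪ C)) (UJ k 2 h) (T ∪ C) / N -
        GX q0 (fB k 2) (wB e (T ∪ C)) (uO c f) (T ∪ C)) / lm /
        lm ^ (T.card + 2 * C.card + n) := by
  classical
  have h1 := idB_set h0 (h + 2) (fun b => em b.1) 1 n (fun R =>
    (PO2 k R * MMJ k 2 h q0 e R R / N - wO c (bkB q0 e (h + 2) R lam) * FO k f q0 e R R) / lm)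
    hd hC
  have h2 : (fun T A : Finset Pg => (PO2 k (T ∪ A) * MMJ k 2 h q0 e (T ∪ A) (T ∪ A) / N -
      wO c (bkB q0 e (h + 2) (T ∪ A) lam) * FO k f q0 e (T ∪ A) (T ∪ A)) / lm) =
      DdO k h c N f q0 e := rfl
  rw [h2] at h1
  rw [h1, one_mul]
  congr 1
  rw [← MMJ_sum, GX_wB, Finset.mul_sum, Finset.sum_div, ← Finset.sum_sub_distrib, Finset.sum_div]
  refine Finset.sum_congr rfl fun R hR => ?_
  rw [Finset.mem_powerset] at hR
  have h3 := FO_prod (k := k) (e := e) hf h0 hR hq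
  have h4 := MMJ_prod k 2 h0 e h hR hq
  have h5 := FO_uO (k := k) (e := e) hf h0 hR c
  have h6 : ∏ q ∈ (T ∪ C) \ R, ((thB k 2 q.1)⁻¹ * em q.1 - e4 (bkB q0 e h R q.1)) =
      (∏ q ∈ (T ∪ C) \ R, sgz (lJ k q.1)) *
        ∏ q ∈ (T ∪ C) \ R, (em q.1 - e4 (bkB q0 e (h + 2) R q.1)) := by
    rw [← Finset.prod_mul_distrib]
    exact Finset.prod_congr rfl fun q hq' => fac_LaJ hk h0 (hs q (Finset.mem_sdiff.1 hq').1) R
  have h7 : PO2 k (T ∪ C) = PO2 k R * ∏ q ∈ (T ∪ C) \ R, sgz (lJ k q.1) := by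
    rw [PO2, PO2, mul_comm, Finset.prod_sdiff hR]
  have h8 : (∏ q ∈ (T ∪ C) \ R, sgz (lJ k q.1)) * ∏ q ∈ (T ∪ C) \ R, sgz (lJ k q.1) = 1 := by
    rw [← Finset.prod_mul_distrib]
    exact Finset.prod_eq_one fun q _ => sgz_mul_self _
  rw [h5, h3, h4, h6, h7]
  obtain ⟨Q, hQ⟩ : ∃ Q, Q = ∏ q ∈ (T ∪ C) \ R, sgz (lJ k q.1) := ⟨_, rfl⟩
  obtain ⟨W, hW⟩ : ∃ W, W = ∏ q ∈ (T ∪ C) \ R, (em q.1 - e4 (bkB q0 e (h + 2) R q.1)) := ⟨_, rfl⟩
  rw [← hQ] at h8 ⊢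
  rw [← hW]
  linear_combination (-((-1) ^ R.card * PO2 k R * W * MMJ k 2 h q0 e R R / N / lm)) * h8

/-- the sign of the total identity -/
theorem PO2_eq (k : ZMod 4) (J : Finset Pg) : PO2 k J = sgz (∑ b ∈ J, lJ k b.1) := by
  rw [PO2, sgz_sum]

/-- the constant function -/
theorem Rt_GX_oneO (hB : (2 : ℂ)⁻¹ ∉ B) (h0 : aa q0.1 = 1) (hq : q0 ∉ J)
    (he : ∀ q ∈ J, e q ≠ 0) :
    Rt B (GX q0 (fB k 2) (wtB e J) (fun _ => 1) J) (if J = ∅ then 1 else 0) := by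
  by_cases hJ : J = ∅
  · subst hJ
    rw [if_pos rfl, GX_wtB_one (fB_ndvd k 2) hq he, Finset.prod_empty, mul_one]
    exact Rt_n0 hB h0 (fB_ndvd k 2)
  · rw [if_neg hJ]
    refine Rt.of_lt ((v_GX_wtB_one hB (fB_ndvd k 2) hq he).trans_lt ?_)
    have h4 : 1 ≤ ∑ q ∈ J, (4 - mq (e q)) := by
      obtain ⟨q, hqJ⟩ := Finset.nonempty_iff_ne_empty.2 hJ
      have h5 := Finset.single_le_sum (f := fun q => 4 - mq (e q)) (fun _ _ => Nat.zero_le _) hqJ
      have h6 := mq_le (e q)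
      omega
    exact v_pow_lt hB h4

/-- a function congruent to `1` -/
theorem Rt_GX_congr_one (hB : (2 : ℂ)⁻¹ ∉ B) (h0 : aa q0.1 = 1) (hq : q0 ∉ J)
    (he : ∀ q ∈ J, e q ≠ 0) (hf : ∀ z, Od z → B.valuation (f z - 1) < 1) :
    Rt B (GX q0 (fB k 2) (wtB e J) f J) (if J = ∅ then 1 else 0) := by
  have h1 : GX q0 (fB k 2) (wtB e J) f J = GX q0 (fB k 2) (wtB e J) (fun _ => 1) J +
      GX q0 (fB k 2) (wtB e J) (fun z => f z - 1) J := by
    rw [← GX_fadd]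
    congr 1
    funext z
    ring
  have h2 : Rt B (GX q0 (fB k 2) (wtB e J) (fun z => f z - 1) J) 0 :=
    Rt.of_lt (v_GX_ltB hB (fB_ndvd k 2) he zero_lt_one hf)
  have h4 := (Rt_GX_oneO (k := k) hB h0 hq he).add hB h2
  rw [add_zero] at h4
  rw [h1]
  exact h4

theorem GX_wtB_div {C : Finset Pg} (hd : Disjoint T C) (he : ∀ q ∈ T, md (e q) ≠ 0)
    (hC : ∀ q ∈ C, e q = 2) (kap : 𝓞 K) (F : ℂ → ℂ) :
    GX q0 kap (wB e (T ∪ C)) F (T ∪ C) / lm ^ (T.card + 2 * C.card) =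
      GX q0 kap (wtB e (T ∪ C)) F (T ∪ C) := by
  rw [GX_wtB, mB_unionX hd he hC, mul_div_cancel_left₀ _ (pow_ne_zero _ lm_ne)]

/-- **the totals of the family `LaO`** -/
theorem Rt_idLaO (hB : (2 : ℂ)⁻¹ ∉ B) (hf : FunO h' f) (h0 : aa q0.1 = 1)
    (hf1 : ∀ z, Od z → B.valuation (f z - 1) < 1) {C : Finset Pg} (hd : Disjoint T C)
    (he : ∀ q ∈ T, md (e q) ≠ 0) (hC : ∀ q ∈ C, e q = 2) (hq : q0 ∉ T ∪ C) :
    Rt B (idB lm 1 (LaO k f q0 e) (fun b => em b.1) (xJs h' q0 e) (nXB q0) 0 T C)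
      (if T ∪ C = ∅ then 1 else 0) := by
  rw [idLaO_eq hf h0 0 hd hC hq, add_zero, GX_wtB_div hd he hC]
  exact Rt_GX_congr_one hB h0 hq (exp_ne he hC) hf1

/-- **the totals of the difference** -/
theorem Rt_idDdO (hB : (2 : ℂ)⁻¹ ∉ B) (hk : k = 0 ∨ k = 2) (hf : FunO (h + 2) f)
    (h0 : aa q0.1 = 1) {c N : ℂ} {g : ℂ → ℂ} {y : ZMod 2} {C : Finset Pg} (hd : Disjoint T C)
    (he : ∀ q ∈ T, md (e q) ≠ 0) (hC : ∀ q ∈ C, e q = 2) (hq : q0 ∉ T ∪ C)
    (hs : ∀ b ∈ T ∪ C, s4 q0 b = lJ k b.1)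
    (hU : ∀ z, Od z → B.valuation (UJ k 2 h z / N - (uO c f z - 2 / lm + lm * g z)) < B.valuation lm)
    (hu : ∀ z, Od z → B.valuation (uO c f z) ≤ 1)
    (hg : Rt B (GX q0 (fB k 2) (wtB e (T ∪ C)) g (T ∪ C)) y) :
    Rt B (idB lm 1 (DdO k h c N f q0 e) (fun b => em b.1) (xJs (h + 2) q0 e) (nXB q0) 0 T C)
      (y + if T ∪ C = ∅ then 1 else 0) := by
  have hl := lm_ne
  have hex := exp_ne he hC
  have hl0 := v_lm_pos (B := B)
  obtain ⟨J, hJ⟩ : ∃ J, J = T ∪ C := ⟨_, rfl⟩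
  have e1 : idB lm 1 (DdO k h c N f q0 e) (fun b => em b.1) (xJs (h + 2) q0 e) (nXB q0) 0 T C =
      PO2 k J * (GX q0 (fB k 2) (wtB e J) g J + (-(2 / lm ^ 2)) *
        GX q0 (fB k 2) (wtB e J) (fun _ => 1) J +
        GX q0 (fB k 2) (wtB e J) (fun z => (UJ k 2 h z / N - (uO c f z - 2 / lm + lm * g z)) / lm) J) -
      ((1 - PO2 k J) / lm ^ 2) * lm * GX q0 (fB k 2) (wtB e J) (uO c f) J := by
    rw [idDdO_eq hk hf h0 c N 0 hd hC hq hs, add_zero, ← hJ]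
    have a1 := GX_wtB_div (q0 := q0) hd he hC (fB k 2) (UJ k 2 h)
    have a2 := GX_wtB_div (q0 := q0) hd he hC (fB k 2) (uO c f)
    rw [← hJ] at a1 a2
    have a3 : (PO2 k J * GX q0 (fB k 2) (wB e J) (UJ k 2 h) J / N -
        GX q0 (fB k 2) (wB e J) (uO c f) J) / lm / lm ^ (T.card + 2 * C.card) =
        (PO2 k J * (GX q0 (fB k 2) (wtB e J) (UJ k 2 h) J) / N -
          GX q0 (fB k 2) (wtB e J) (uO c f) J) / lm := by
      rw [← a1, ← a2]
      ring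
    rw [a3]
    have a4 : GX q0 (fB k 2) (wtB e J) (fun z => (UJ k 2 h z / N -
        (uO c f z - 2 / lm + lm * g z)) / lm) J = lm⁻¹ * (N⁻¹ * GX q0 (fB k 2) (wtB e J) (UJ k 2 h) J) -
        lm⁻¹ * GX q0 (fB k 2) (wtB e J) (uO c f) J + (2 / lm ^ 2) *
          GX q0 (fB k 2) (wtB e J) (fun _ => 1) J - GX q0 (fB k 2) (wtB e J) g J := by
      have b1 := GX_fcmul (q0 := q0) (kap := fB k 2) (J := J) (lm⁻¹ * N⁻¹) (wtB e J) (UJ k 2 h)
      have b2 := GX_fcmul (q0 := q0) (kap := fB k 2) (J := J) (-lm⁻¹) (wtB e J) (uO c f)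
      have b3 := GX_fcmul (q0 := q0) (kap := fB k 2) (J := J) (2 / lm ^ 2) (wtB e J) fun _ => 1
      have b4 := GX_fcmul (q0 := q0) (kap := fB k 2) (J := J) (-1) (wtB e J) g
      have b5 := GX_fadd (q0 := q0) (kap := fB k 2) (J := J) (wtB e J)
        (fun z => lm⁻¹ * N⁻¹ * UJ k 2 h z) fun z => -lm⁻¹ * uO c f z
      have b6 := GX_fadd (q0 := q0) (kap := fB k 2) (J := J) (wtB e J)
        (fun _ => 2 / lm ^ 2 * 1) fun z => -1 * g z
      have b7 := GX_fadd (q0 := q0) (kap := fB k 2) (J := J) (wtB e J)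
        (fun z => lm⁻¹ * N⁻¹ * UJ k 2 h z + -lm⁻¹ * uO c f z) fun z => 2 / lm ^ 2 * 1 + -1 * g z
      have b8 : (fun z => (UJ k 2 h z / N - (uO c f z - 2 / lm + lm * g z)) / lm) =
          fun z => (lm⁻¹ * N⁻¹ * UJ k 2 h z + -lm⁻¹ * uO c f z) + (2 / lm ^ 2 * 1 + -1 * g z) := by
        funext z
        field_simp
        ring
      rw [b8, b7, b5, b6, b1, b2, b3, b4]
      ring
    rw [a4]
    field_simp
    ring
  have r1 : Rt B (PO2 k J) 1 := by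
    rw [PO2_eq]
    exact Rt_sgz hB _
  have r2 : Rt B (-(2 / lm ^ 2)) 1 := ((syO (h' := 1) (e := fun _ => 1) (q0 := q0) hB md_one h0
    (S0 := ∅) (B0 := ∅) (Finset.disjoint_empty_left _) (fun q hq => absurd hq (Finset.notMem_empty q))
    1 fun _ _ => 0).hu).neg hB
  have r3 := Rt_GX_oneO (k := k) hB h0 (hJ ▸ hq) (hJ ▸ hex)
  have r4 : Rt B (GX q0 (fB k 2) (wtB e J) (fun z => (UJ k 2 h z / N -
      (uO c f z - 2 / lm + lm * g z)) / lm) J) 0 := by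
    refine Rt.of_lt (v_GX_ltB hB (fB_ndvd k 2) (hJ ▸ hex) zero_lt_one fun z hz => ?_)
    rw [map_div₀, div_lt_one₀ hl0]
    exact hU z hz
  have r5 : Rt B (((1 - PO2 k J) / lm ^ 2) * lm * GX q0 (fB k 2) (wtB e J) (uO c f) J) 0 := by
    have s1 : Rt B ((1 - PO2 k J) / lm ^ 2 * lm) 0 := by
      rw [PO2_eq]
      have s2 := (Rt_one_sub_sgz hB (∑ b ∈ J, lJ k b.1)).mul hB (Rt_lm hB)
      rwa [mul_zero] at s2
    refine Rt.of_lt ?_
    rw [map_mul]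
    exact mul_lt_one_of_lt_of_le s1.lt (v_GX_leB hB (fB_ndvd k 2) (hJ ▸ hex) hu)
  have r6 := (r1.mul hB (((hJ ▸ hg).add hB (r2.mul hB r3)).add hB r4)).sub hB r5
  rw [one_mul, one_mul, add_zero, sub_zero] at r6
  rw [e1, ← hJ]
  exact r6

end

end Pool.Agent.Lib.MP_1a91b9_ntQ
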