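import Pool.Agent.Lib.MP_1a91b9_ntQ.A.EvX2
import Pool.Agent.Lib.MP_1a91b9_ntQ.A.LocO
import Pool.Agent.Lib.MP_1a91b9_ntQ.A.Rat4P

/-!
# Quartic twists, part B, file TrZ: the sums over `E[q]` of `ze z * ze (lm z)` and `ze z * ze (lm² z)`

The sums of `X`, `X²`, `X⁴` and of `X(. + 1/2)`, `X(. + i/2)`, `X(. + pe)` over the points of `E[q]`
give exact formulas; modulo the maximal ideal of a place above `2`
`∑ ze (z + u) ze (lm (z + u)) = ze (q z) ze (lm q z) + (m + n)` and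
`∑ ze (z + u) ze (lm² (z + u)) = ze (q z) ze (lm² q z) + (m + n) ze (q z)² + m`,
`q = 1 + lm³ (m + n i)`.
-/

set_option autoImplicit false
set_option linter.unusedSectionVars false

namespace Pool.Agent.Lib.MP_1a91b9_ntQ

open NumberField Pool.Agent.Lib.MP_1a91b9_nuT Pool.Agent.Lib.MP_1a91b9_nuT.S3
  Pool.Agent.Lib.MP_1a91b9_nuT.Ell Filter Topology

noncomputable section

section
variable [CD] [hq : Q4]

/-! ### The chain of derivatives -/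

/-- the derivative of a distribution relation -/
theorem TrZ_deriv {ι : Type*} [Fintype ι] {α : ℂ} {τ : ι → ℂ} (hα : α ∈ PP.lattice)
    (h1 : ∀ i, α * τ i ∈ PP.lattice) {f g f' g' : ℂ → ℂ}
    (hf : ∀ z, 2 * z ∉ PP.lattice → HasDerivAt f (f' z) z)
    (hg : ∀ z, 2 * z ∉ PP.lattice → HasDerivAt g (g' z) z)
    (h : ∀ z, 2 * (α * z) ∉ PP.lattice → ∑ i, f (z + τ i) = g (α * z)) {z : ℂ}
    (hz : 2 * (α * z) ∉ PP.lattice) : ∑ i, f' (z + τ i) = α * g' (α * z) := by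
  have hc : Continuous fun w : ℂ => 2 * (α * w) := by fun_prop
  have ho : IsOpen {w : ℂ | 2 * (α * w) ∉ PP.lattice} := isOpen_compl.preimage hc
  have n1 : ∀ i, 2 * (z + τ i) ∉ PP.lattice := by
    intro i hi
    apply hz
    have := sub_mem (S3.mul_mem hα hi) (two_mem (h1 i))
    rwa [show α * (2 * (z + τ i)) - 2 * (α * τ i) = 2 * (α * z) by ring] at this
  have a1 : HasDerivAt (fun w => ∑ i, f (w + τ i)) (∑ i, f' (z + τ i)) z :=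
    HasDerivAt.fun_sum fun i _ => (hf _ (n1 i)).comp_add_const z (τ i)
  have b1 : HasDerivAt (fun w : ℂ => α * w) α z := by
    simpa using (hasDerivAt_id z).const_mul α
  have a2 : HasDerivAt (fun w => g (α * w)) (g' (α * z) * α) z :=
    HasDerivAt.comp z (hg _ hz) b1
  have a3 : (fun w => ∑ i, f (w + τ i)) =ᶠ[𝓝 z] (fun w => g (α * w)) := by
    filter_upwards [ho.mem_nhds hz] with w hw
    exact h w hw
  have a4 := (a2.congr_of_eventuallyEq a3).unique a1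
  rw [← a4, mul_comm]

omit hq in
theorem deriv_X' {z : ℂ} (hz : 2 * z ∉ PP.lattice) : HasDerivAt X (Om * Y z) z :=
  Rq.hasDerivAt_X (notMem_of_two_mul hz)

theorem deriv_Y' {z : ℂ} (hz : 2 * z ∉ PP.lattice) :
    HasDerivAt Y (Om * (6 * X z ^ 2 - 2)) z := by
  have h := (hasDerivAt_Q hz).div_const (Om ^ 3)
  have e : (6 * PP.weierstrassP z ^ 2 + 2 * cA ℂ * Om ^ 4) / Om ^ 3 = Om * (6 * X z ^ 2 - 2) := by
    have h1 := Om_ne_zero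
    have h2 : cA ℂ = -1 := by
      rw [cA, hq.A]
      norm_num
    rw [X, h2]
    field_simp
    ring
  rwa [e] at h

variable {ι : Type*} [Fintype ι] {α : ℂ} {τ : ι → ℂ}

theorem sum_Y' (hα : α ∈ PP.lattice) (hα0 : α ≠ 0) (h1 : ∀ i, α * τ i ∈ PP.lattice)
    (h2 : ∀ x, α * x ∈ PP.lattice → ∃! i, x - τ i ∈ PP.lattice) {z : ℂ}
    (hz : 2 * (α * z) ∉ PP.lattice) : ∑ i, Y (z + τ i) = α ^ 3 * Y (α * z) := by
  have h := TrZ_deriv hα h1 (f := X) (g := fun w => α ^ 2 * X w) (f' := fun w => Om * Y w)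
    (g' := fun w => α ^ 2 * (Om * Y w)) (fun z hz => deriv_X' hz)
    (fun z hz => (deriv_X' hz).const_mul _)
    (fun z hz => sum_X4 hα hα0 h1 h2 (notMem_of_two_mul hz)) hz
  apply mul_left_cancel₀ Om_ne_zero
  rw [Finset.mul_sum, h]
  ring

theorem Y_sq' {z : ℂ} (hz : 2 * z ∉ PP.lattice) : Y z ^ 2 = 4 * X z ^ 3 - 4 * X z := by
  have h := yh_sq (notMem_of_two_mul hz)
  rw [yh] at h
  linear_combination 4 * h

theorem sum_A2 (hα : α ∈ PP.lattice) (hα0 : α ≠ 0) (h1 : ∀ i, α * τ i ∈ PP.lattice)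
    (h2 : ∀ x, α * x ∈ PP.lattice → ∃! i, x - τ i ∈ PP.lattice) {z : ℂ}
    (hz : 2 * (α * z) ∉ PP.lattice) :
    ∑ i, (6 * X (z + τ i) ^ 2 - 2) = α ^ 4 * (6 * X (α * z) ^ 2 - 2) := by
  have h := TrZ_deriv hα h1 (f := Y) (g := fun w => α ^ 3 * Y w)
    (f' := fun w => Om * (6 * X w ^ 2 - 2)) (g' := fun w => α ^ 3 * (Om * (6 * X w ^ 2 - 2)))
    (fun z hz => deriv_Y' hz) (fun z hz => (deriv_Y' hz).const_mul _)
    (fun z hz => sum_Y' hα hα0 h1 h2 hz) hz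
  apply mul_left_cancel₀ Om_ne_zero
  rw [Finset.mul_sum, h]
  ring

omit hq in
theorem deriv_A2 {z : ℂ} (hz : 2 * z ∉ PP.lattice) :
    HasDerivAt (fun w => 6 * X w ^ 2 - 2) (12 * Om * (X z * Y z)) z := by
  have h := (((deriv_X' hz).pow 2).const_mul 6).sub_const 2
  refine h.congr_deriv ?_
  norm_num
  ring

theorem sum_A3 (hα : α ∈ PP.lattice) (hα0 : α ≠ 0) (h1 : ∀ i, α * τ i ∈ PP.lattice)
    (h2 : ∀ x, α * x ∈ PP.lattice → ∃! i, x - τ i ∈ PP.lattice) {z : ℂ}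
    (hz : 2 * (α * z) ∉ PP.lattice) :
    ∑ i, X (z + τ i) * Y (z + τ i) = α ^ 5 * (X (α * z) * Y (α * z)) := by
  have h := TrZ_deriv hα h1 (f := fun w => 6 * X w ^ 2 - 2)
    (g := fun w => α ^ 4 * (6 * X w ^ 2 - 2))
    (f' := fun w => 12 * Om * (X w * Y w)) (g' := fun w => α ^ 4 * (12 * Om * (X w * Y w)))
    (fun z hz => deriv_A2 hz) (fun z hz => (deriv_A2 hz).const_mul _)
    (fun z hz => sum_A2 hα hα0 h1 h2 hz) hz
  apply mul_left_cancel₀ (mul_ne_zero (by norm_num : (12 : ℂ) ≠ 0) Om_ne_zero)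
  rw [Finset.mul_sum, h]
  ring

theorem deriv_A3 {z : ℂ} (hz : 2 * z ∉ PP.lattice) :
    HasDerivAt (fun w => X w * Y w) (2 * Om * (5 * X z ^ 3 - 3 * X z)) z := by
  have h := (deriv_X' hz).mul (deriv_Y' hz)
  refine h.congr_deriv ?_
  linear_combination Om * Y_sq' hz

theorem sum_A4 (hα : α ∈ PP.lattice) (hα0 : α ≠ 0) (h1 : ∀ i, α * τ i ∈ PP.lattice)
    (h2 : ∀ x, α * x ∈ PP.lattice → ∃! i, x - τ i ∈ PP.lattice) {z : ℂ}
    (hz : 2 * (α * z) ∉ PP.lattice) :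
    ∑ i, (5 * X (z + τ i) ^ 3 - 3 * X (z + τ i)) =
      α ^ 6 * (5 * X (α * z) ^ 3 - 3 * X (α * z)) := by
  have h := TrZ_deriv hα h1 (f := fun w => X w * Y w) (g := fun w => α ^ 5 * (X w * Y w))
    (f' := fun w => 2 * Om * (5 * X w ^ 3 - 3 * X w))
    (g' := fun w => α ^ 5 * (2 * Om * (5 * X w ^ 3 - 3 * X w)))
    (fun z hz => deriv_A3 hz) (fun z hz => (deriv_A3 hz).const_mul _)
    (fun z hz => sum_A3 hα hα0 h1 h2 hz) hz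
  apply mul_left_cancel₀ (mul_ne_zero (two_ne_zero : (2 : ℂ) ≠ 0) Om_ne_zero)
  rw [Finset.mul_sum, h]
  ring

omit hq in
theorem deriv_A4 {z : ℂ} (hz : 2 * z ∉ PP.lattice) :
    HasDerivAt (fun w => 5 * X w ^ 3 - 3 * X w) (3 * Om * ((5 * X z ^ 2 - 1) * Y z)) z := by
  have h := (((deriv_X' hz).pow 3).const_mul 5).sub ((deriv_X' hz).const_mul 3)
  refine h.congr_deriv ?_
  norm_num
  ring

theorem sum_A5 (hα : α ∈ PP.lattice) (hα0 : α ≠ 0) (h1 : ∀ i, α * τ i ∈ PP.lattice)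
    (h2 : ∀ x, α * x ∈ PP.lattice → ∃! i, x - τ i ∈ PP.lattice) {z : ℂ}
    (hz : 2 * (α * z) ∉ PP.lattice) :
    ∑ i, (5 * X (z + τ i) ^ 2 - 1) * Y (z + τ i) =
      α ^ 7 * ((5 * X (α * z) ^ 2 - 1) * Y (α * z)) := by
  have h := TrZ_deriv hα h1 (f := fun w => 5 * X w ^ 3 - 3 * X w)
    (g := fun w => α ^ 6 * (5 * X w ^ 3 - 3 * X w))
    (f' := fun w => 3 * Om * ((5 * X w ^ 2 - 1) * Y w))
    (g' := fun w => α ^ 6 * (3 * Om * ((5 * X w ^ 2 - 1) * Y w)))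
    (fun z hz => deriv_A4 hz) (fun z hz => (deriv_A4 hz).const_mul _)
    (fun z hz => sum_A4 hα hα0 h1 h2 hz) hz
  apply mul_left_cancel₀ (mul_ne_zero (by norm_num : (3 : ℂ) ≠ 0) Om_ne_zero)
  rw [Finset.mul_sum, h]
  ring

theorem deriv_A5 {z : ℂ} (hz : 2 * z ∉ PP.lattice) :
    HasDerivAt (fun w => (5 * X w ^ 2 - 1) * Y w)
      (2 * Om * (35 * X z ^ 4 - 28 * X z ^ 2 + 1)) z := by
  have h := ((((deriv_X' hz).pow 2).const_mul 5).sub_const 1).mul (deriv_Y' hz)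
  refine h.congr_deriv ?_
  norm_num
  linear_combination 10 * Om * X z * Y_sq' hz

theorem sum_A6 (hα : α ∈ PP.lattice) (hα0 : α ≠ 0) (h1 : ∀ i, α * τ i ∈ PP.lattice)
    (h2 : ∀ x, α * x ∈ PP.lattice → ∃! i, x - τ i ∈ PP.lattice) {z : ℂ}
    (hz : 2 * (α * z) ∉ PP.lattice) :
    ∑ i, (35 * X (z + τ i) ^ 4 - 28 * X (z + τ i) ^ 2 + 1) =
      α ^ 8 * (35 * X (α * z) ^ 4 - 28 * X (α * z) ^ 2 + 1) := by
  have h := TrZ_deriv hα h1 (f := fun w => (5 * X w ^ 2 - 1) * Y w)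
    (g := fun w => α ^ 7 * ((5 * X w ^ 2 - 1) * Y w))
    (f' := fun w => 2 * Om * (35 * X w ^ 4 - 28 * X w ^ 2 + 1))
    (g' := fun w => α ^ 7 * (2 * Om * (35 * X w ^ 4 - 28 * X w ^ 2 + 1)))
    (fun z hz => deriv_A5 hz) (fun z hz => (deriv_A5 hz).const_mul _)
    (fun z hz => sum_A5 hα hα0 h1 h2 hz) hz
  apply mul_left_cancel₀ (mul_ne_zero (two_ne_zero : (2 : ℂ) ≠ 0) Om_ne_zero)
  rw [Finset.mul_sum, h]
  ring

/-- the sum of the squares -/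
theorem sum_X2 (hα : α ∈ PP.lattice) (hα0 : α ≠ 0) (h1 : ∀ i, α * τ i ∈ PP.lattice)
    (h2 : ∀ x, α * x ∈ PP.lattice → ∃! i, x - τ i ∈ PP.lattice) {z : ℂ}
    (hz : 2 * (α * z) ∉ PP.lattice) :
    ∑ i, X (z + τ i) ^ 2 = α ^ 4 * X (α * z) ^ 2 + ((Fintype.card ι : ℂ) - α ^ 4) / 3 := by
  have h := sum_A2 hα hα0 h1 h2 hz
  rw [Finset.sum_sub_distrib, ← Finset.mul_sum, Finset.sum_const, Finset.card_univ,
    nsmul_eq_mul] at h
  linear_combination h / 6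

/-- the sum of the fourth powers -/
theorem sum_X4' (hα : α ∈ PP.lattice) (hα0 : α ≠ 0) (h1 : ∀ i, α * τ i ∈ PP.lattice)
    (h2 : ∀ x, α * x ∈ PP.lattice → ∃! i, x - τ i ∈ PP.lattice) {z : ℂ}
    (hz : 2 * (α * z) ∉ PP.lattice) :
    105 * ∑ i, X (z + τ i) ^ 4 = 105 * α ^ 8 * X (α * z) ^ 4 +
      84 * (α ^ 4 - α ^ 8) * X (α * z) ^ 2 +
      (3 * α ^ 8 + 25 * (Fintype.card ι : ℂ) - 28 * α ^ 4) := by
  have h := sum_A6 hα hα0 h1 h2 hz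
  have h3 := sum_X2 hα hα0 h1 h2 hz
  rw [Finset.sum_add_distrib, Finset.sum_sub_distrib, ← Finset.mul_sum, ← Finset.mul_sum,
    Finset.sum_const, Finset.card_univ, nsmul_eq_mul, mul_one] at h
  linear_combination 3 * h + 84 * h3

/-! ### The translates -/

theorem TrZ_sh {t z : ℂ} (hα : α ∈ PP.lattice) (ht : 2 * t ∈ PP.lattice)
    (hz : 2 * (α * z) ∉ PP.lattice) : 2 * (α * (z + t)) ∉ PP.lattice := by
  intro h
  apply hz
  have := sub_mem h (S3.mul_mem hα ht)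
  rwa [show 2 * (α * (z + t)) - α * (2 * t) = 2 * (α * z) by ring] at this

/-- the sum of the translates by a point of order two -/
theorem sum_X_sh (hα : α ∈ PP.lattice) (hα0 : α ≠ 0) (h1 : ∀ i, α * τ i ∈ PP.lattice)
    (h2 : ∀ x, α * x ∈ PP.lattice → ∃! i, x - τ i ∈ PP.lattice) {t z : ℂ}
    (ht : 2 * t ∈ PP.lattice) (ht' : (α - 1) * t ∈ PP.lattice)
    (hz : 2 * (α * z) ∉ PP.lattice) :
    ∑ i, X (z + τ i + t) = α ^ 2 * X (α * z + t) := by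
  have h := sum_X4 hα hα0 h1 h2 (notMem_of_two_mul (TrZ_sh hα ht hz))
  rw [X_congr (x := α * (z + t)) (y := α * z + t)
    (by rwa [show α * (z + t) - (α * z + t) = (α - 1) * t by ring])] at h
  rw [← h]
  exact Finset.sum_congr rfl fun i _ => by rw [add_right_comm]

theorem sum_X2_sh (hα : α ∈ PP.lattice) (hα0 : α ≠ 0) (h1 : ∀ i, α * τ i ∈ PP.lattice)
    (h2 : ∀ x, α * x ∈ PP.lattice → ∃! i, x - τ i ∈ PP.lattice) {t z : ℂ}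
    (ht : 2 * t ∈ PP.lattice) (ht' : (α - 1) * t ∈ PP.lattice)
    (hz : 2 * (α * z) ∉ PP.lattice) :
    ∑ i, X (z + τ i + t) ^ 2 = α ^ 4 * X (α * z + t) ^ 2 +
      ((Fintype.card ι : ℂ) - α ^ 4) / 3 := by
  have h := sum_X2 hα hα0 h1 h2 (TrZ_sh hα ht hz)
  rw [X_congr (x := α * (z + t)) (y := α * z + t)
    (by rwa [show α * (z + t) - (α * z + t) = (α - 1) * t by ring])] at h
  rw [← h]
  exact Finset.sum_congr rfl fun i _ => by rw [add_right_comm]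

/-! ### The pointwise identities -/

/-- the abscissa at `z + i/2` -/
theorem X_halfi_add {z : ℂ} (hz : 2 * z ∉ PP.lattice) : X (z + zt / 2) * (X z + 1) = 1 - X z := by
  have hz1 := notMem_of_two_mul hz
  have hw : 2 * (zt * z) ∉ PP.lattice := two_zt hz
  have h1 := X_half_add hw
  have hw' := two_add_half hw
  have e2 := X_i (notMem_of_two_mul hw')
  have e3 := X_i hz1
  have e : zt * (zt * z + 1 / 2) = -(z - zt / 2) := by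
    linear_combination z * zt_sq
  rw [e, Ell.X_neg] at e2
  have e4 : X (z - zt / 2) = X (z + zt / 2) := X_congr (by
    rw [show z - zt / 2 - (z + zt / 2) = -zt by ring]
    exact neg_mem zt_mem)
  rw [e3] at h1
  rw [e4] at e2
  linear_combination (X z + 1) * e2 + h1

theorem X_add_one_ne {z : ℂ} (hz : 2 * z ∉ PP.lattice) : X z + 1 ≠ 0 := fun h =>
  X_sq_ne hz (by linear_combination (X z - 1) * h)

theorem X_sub_one_ne {z : ℂ} (hz : 2 * z ∉ PP.lattice) : X z - 1 ≠ 0 := fun h =>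
  X_sq_ne hz (by linear_combination (X z + 1) * h)

theorem TrZ_X_sq (z : ℂ) : X z ^ 2 = rh ^ 2 * (1 + 4 * ze z) := by
  linear_combination X_sq_sub_ze (hq := hq) z - rh_sq (hq := hq)

/-- the function `ze z * ze (lm z)` -/
theorem ze_ze1 {z : ℂ} (hz : 2 * z ∉ PP.lattice) :
    -64 * rh ^ 4 * (ze z * ze (lm * z)) = X z ^ 4 + (3 * rh ^ 2 - 2) * X z ^ 2 +
      (1 + 2 * rh ^ 2 - 4 * rh ^ 4) - rh ^ 2 * X (z + pe) ^ 2 := by
  have h1 := X_lm hz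
  have h2 := X_add_pe hz
  have h3 := TrZ_X_sq (hq := hq) z
  have h4 := TrZ_X_sq (hq := hq) (lm * z)
  have hX := X_ne hz
  apply mul_left_cancel₀ (pow_ne_zero 2 hX)
  have e1 : -4 * X z ^ 2 * X (lm * z) ^ 2 = (X z ^ 2 - 1) ^ 2 := by
    linear_combination (2 * zt * X (lm * z) * X z + (X z ^ 2 - 1)) * h1 -
      4 * X z ^ 2 * X (lm * z) ^ 2 * zt_sq
  have e2 : X z ^ 2 * X (z + pe) ^ 2 = 1 := by
    linear_combination (X (z + pe) * X z - 1) * h2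
  have e3 : 4 * rh ^ 2 * ze z = X z ^ 2 - rh ^ 2 := by
    linear_combination -h3
  have e4 : 4 * rh ^ 2 * ze (lm * z) = X (lm * z) ^ 2 - rh ^ 2 := by
    linear_combination -h4
  have e5 : 16 * rh ^ 4 * (ze z * ze (lm * z)) = (X z ^ 2 - rh ^ 2) * (X (lm * z) ^ 2 - rh ^ 2) := by
    rw [← e3, ← e4]
    ring
  linear_combination -4 * X z ^ 2 * e5 + (X z ^ 2 - rh ^ 2) * e1 + rh ^ 2 * e2

/-- the function `ze z * ze (lm² z)` -/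
theorem ze_ze2' {z : ℂ} (hz : 2 * (lm * z) ∉ PP.lattice) :
    256 * rh ^ 4 * (ze z * ze (lm * (lm * z))) = X z ^ 4 + 6 * X z ^ 2 + 7 +
      X (z + 1 / 2) ^ 2 + X (z + zt / 2) ^ 2 + 4 * X (z + 1 / 2) - 4 * X (z + zt / 2) -
      16 * rh ^ 2 * X z ^ 2 - rh ^ 2 * (X z ^ 2 + X (z + pe) ^ 2 + 4 + X (z + 1 / 2) ^ 2 +
        X (z + zt / 2) ^ 2) + 16 * rh ^ 4 := by
  have hz0 : 2 * z ∉ PP.lattice := two_of hz
  have h1 := X_lm hz0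
  have h1' := X_lm hz
  have h2 := X_add_pe hz0
  have h3 := TrZ_X_sq (hq := hq) z
  have h4 := TrZ_X_sq (hq := hq) (lm * (lm * z))
  have hX := X_ne hz0
  have hp := X_add_one_ne hz0
  have hm := X_sub_one_ne hz0
  have k1 := X_half_add hz0
  have k2 := X_halfi_add hz0
  have k3 : X (z + 1 / 2) = (X z + 1) / (X z - 1) := by
    rw [eq_div_iff hm]
    exact k1
  have k4 : X (z + zt / 2) = (1 - X z) / (X z + 1) := by
    rw [eq_div_iff hp]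
    exact k2
  have k5 : X (z + pe) = -1 / X z := by
    rw [eq_div_iff hX]
    exact h2
  obtain ⟨x, hx⟩ : ∃ x, x = X z := ⟨_, rfl⟩
  obtain ⟨y, hy⟩ : ∃ y, y = X (lm * z) := ⟨_, rfl⟩
  obtain ⟨w, hw⟩ : ∃ w, w = X (lm * (lm * z)) := ⟨_, rfl⟩
  obtain ⟨a, ha⟩ : ∃ a, a = ze z := ⟨_, rfl⟩
  obtain ⟨b, hb⟩ : ∃ b, b = ze (lm * (lm * z)) := ⟨_, rfl⟩
  obtain ⟨R, hR⟩ : ∃ R, R = rh ^ 2 := ⟨_, rfl⟩
  have hR2 : rh ^ 4 = R ^ 2 := by
    rw [hR]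
    ring
  rw [k3, k4, k5, hR2]
  rw [← hx, ← hy] at h1
  rw [← hy, ← hw] at h1'
  rw [← hx, ← ha, ← hR] at h3
  rw [← hw, ← hb, ← hR] at h4
  rw [← hx] at hX hp hm ⊢
  rw [← ha, ← hb, ← hR]
  clear k3 k4 k5 k1 k2 h2 hx hy hw ha hb hR hR2
  have e1 : -4 * x ^ 2 * y ^ 2 = (x ^ 2 - 1) ^ 2 := by
    linear_combination (2 * zt * y * x + (x ^ 2 - 1)) * h1 - 4 * x ^ 2 * y ^ 2 * zt_sq
  have e1' : -4 * y ^ 2 * w ^ 2 = (y ^ 2 - 1) ^ 2 := by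
    linear_combination (2 * zt * w * y + (y ^ 2 - 1)) * h1' - 4 * w ^ 2 * y ^ 2 * zt_sq
  have e2 : 16 * x ^ 2 * (x ^ 2 - 1) ^ 2 * w ^ 2 = (x ^ 2 + 1) ^ 4 := by
    linear_combination (-16 * x ^ 2 * w ^ 2 + (4 * x ^ 2 - 4 * x ^ 2 * y ^ 2 + (x ^ 2 + 1) ^ 2)) * e1 +
      16 * x ^ 4 * e1'
  have e5 : 16 * R ^ 2 * (a * b) = (x ^ 2 - R) * (w ^ 2 - R) := by
    linear_combination -(w ^ 2 - R) * h3 - 4 * R * a * h4
  have hd : x ^ 2 * (x ^ 2 - 1) ^ 2 ≠ 0 := by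
    have e : x ^ 2 * (x ^ 2 - 1) ^ 2 = x ^ 2 * ((x - 1) * (x + 1)) ^ 2 := by ring
    rw [e]
    exact mul_ne_zero (pow_ne_zero 2 hX) (pow_ne_zero 2 (mul_ne_zero hm hp))
  have e6 : x ^ 2 * (x ^ 2 - 1) ^ 2 * (256 * R ^ 2 * (a * b)) =
      (x ^ 2 - R) * ((x ^ 2 + 1) ^ 4 - 16 * R * (x ^ 2 * (x ^ 2 - 1) ^ 2)) := by
    linear_combination 16 * x ^ 2 * (x ^ 2 - 1) ^ 2 * e5 + (x ^ 2 - R) * e2
  apply mul_left_cancel₀ hd
  rw [e6]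
  field_simp
  ring

/-! ### The exact sums -/

/-- the sum of `ze z * ze (lm z)` -/
theorem sum_ze1 (hα : α ∈ PP.lattice) (hα0 : α ≠ 0) (h1 : ∀ i, α * τ i ∈ PP.lattice)
    (h2 : ∀ x, α * x ∈ PP.lattice → ∃! i, x - τ i ∈ PP.lattice)
    (h3 : (α - 1) * pe ∈ PP.lattice) {N z : ℂ} (hN : (Fintype.card ι : ℂ) = N)
    (hz : 2 * (α * z) ∉ PP.lattice) :
    -6720 * (∑ i, ze (z + τ i) * ze (lm * (z + τ i)) - α ^ 4 * (ze (α * z) * ze (lm * (α * z)))) =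
      105 * (α ^ 8 - α ^ 4) * (1 + 4 * ze (α * z)) ^ 2 -
      84 * (1 - 2 * zt) * (α ^ 8 - α ^ 4) * (1 + 4 * ze (α * z)) +
      (1 - 2 * zt) ^ 2 * (3 * α ^ 8 + 25 * N - 28 * α ^ 4) +
      35 * (N - α ^ 4) * ((1 - 2 * zt) ^ 2 + 8 * (1 - 2 * zt) - 12) := by
  have n1 : ∀ i, 2 * (z + τ i) ∉ PP.lattice := Rat4P.notMem hα h1 hz
  have hpe : 2 * pe ∈ PP.lattice := two_pe_mem
  have s4 := sum_X4' hα hα0 h1 h2 hz
  have s2 := sum_X2 hα hα0 h1 h2 hz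
  have s3 := sum_X2_sh hα hα0 h1 h2 hpe h3 hz
  have e0 := ze_ze1 (hq := hq) hz
  have e1 : -64 * rh ^ 4 * (∑ i, ze (z + τ i) * ze (lm * (z + τ i))) =
      ∑ i, X (z + τ i) ^ 4 + (3 * rh ^ 2 - 2) * ∑ i, X (z + τ i) ^ 2 +
      N * (1 + 2 * rh ^ 2 - 4 * rh ^ 4) - rh ^ 2 * ∑ i, X (z + τ i + pe) ^ 2 := by
    rw [Finset.mul_sum, Finset.sum_congr rfl fun i _ => ze_ze1 (hq := hq) (n1 i),
      Finset.sum_sub_distrib, Finset.sum_add_distrib, Finset.sum_add_distrib, ← Finset.mul_sum,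
      ← Finset.mul_sum, Finset.sum_const, Finset.card_univ, nsmul_eq_mul, hN]
  rw [hN] at s4 s2 s3
  have hT := TrZ_X_sq (hq := hq) (α * z)
  have hT4 : X (α * z) ^ 4 = (rh ^ 2 * (1 + 4 * ze (α * z))) ^ 2 := by
    rw [← hT]
    ring
  rw [hT4, hT] at s4 e0
  rw [hT] at s2
  have hc := rh_sq (hq := hq)
  obtain ⟨S, hS⟩ : ∃ S, S = ∑ i, ze (z + τ i) * ze (lm * (z + τ i)) := ⟨_, rfl⟩
  obtain ⟨S4, hS4⟩ : ∃ S, S = ∑ i, X (z + τ i) ^ 4 := ⟨_, rfl⟩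
  obtain ⟨S2, hS2⟩ : ∃ S, S = ∑ i, X (z + τ i) ^ 2 := ⟨_, rfl⟩
  obtain ⟨S3, hS3⟩ : ∃ S, S = ∑ i, X (z + τ i + pe) ^ 2 := ⟨_, rfl⟩
  obtain ⟨Z, hZ⟩ : ∃ Z, Z = ze (α * z) * ze (lm * (α * z)) := ⟨_, rfl⟩
  obtain ⟨u, hu⟩ : ∃ u, u = ze (α * z) := ⟨_, rfl⟩
  obtain ⟨R, hR⟩ : ∃ R, R = rh ^ 2 := ⟨_, rfl⟩
  have hR4 : rh ^ 4 = R ^ 2 := by
    rw [hR]
    ring
  obtain ⟨c, hcc⟩ : ∃ c, c = 1 - 2 * zt := ⟨_, rfl⟩
  rw [← hS, ← hS4, ← hS2, ← hS3, hR4, ← hR] at e1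
  rw [← hS4, ← hu, ← hR] at s4
  rw [← hS2, ← hu, ← hR] at s2
  rw [← hS3] at s3
  rw [← hZ, ← hu, hR4, ← hR] at e0
  rw [← hR, ← hcc] at hc
  rw [← hS, ← hZ, ← hu, ← hcc]
  have hE : -6720 * R ^ 2 * (S - α ^ 4 * Z) = 105 * (α ^ 8 - α ^ 4) * (R * (1 + 4 * u)) ^ 2 +
      84 * (α ^ 4 - α ^ 8) * (R * (1 + 4 * u)) + (3 * α ^ 8 + 25 * N - 28 * α ^ 4) +
      35 * (N - α ^ 4) * (1 + 8 * R - 12 * R ^ 2) := by
    linear_combination 105 * e1 - 105 * α ^ 4 * e0 + s4 + 105 * (3 * R - 2) * s2 - 105 * R * s3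
  linear_combination c ^ 2 * hE + (6720 * (S - α ^ 4 * Z) * (R * c + 1) +
    105 * (α ^ 8 - α ^ 4) * (1 + 4 * u) ^ 2 * (R * c + 1) - 84 * (α ^ 8 - α ^ 4) * (1 + 4 * u) * c +
    35 * (N - α ^ 4) * (8 * c - 12 * (R * c + 1))) * hc

/-- the sum of `ze z * ze (lm² z)` -/
theorem sum_ze2 (hα : α ∈ PP.lattice) (hα0 : α ≠ 0) (h1 : ∀ i, α * τ i ∈ PP.lattice)
    (h2 : ∀ x, α * x ∈ PP.lattice → ∃! i, x - τ i ∈ PP.lattice)
    (h3 : (α - 1) * pe ∈ PP.lattice) (h4 : (α - 1) * (1 / 2) ∈ PP.lattice)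
    (h5 : (α - 1) * (zt / 2) ∈ PP.lattice) {N z : ℂ} (hN : (Fintype.card ι : ℂ) = N)
    (hz : 2 * (lm * (α * z)) ∉ PP.lattice) :
    26880 * (1 - 2 * zt * ze (α * z)) * (∑ i, ze (z + τ i) * ze (lm * (lm * (z + τ i))) -
        α ^ 4 * (ze (α * z) * ze (lm * (lm * (α * z))))) =
      (1 - 2 * zt * ze (α * z)) * (105 * (α ^ 8 - α ^ 4) * (1 + 4 * ze (α * z)) ^ 2 -
        84 * (1 - 2 * zt) * (α ^ 8 - α ^ 4) * (1 + 4 * ze (α * z)) +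
        (1 - 2 * zt) ^ 2 * (3 * α ^ 8 + 1040 * N - 1883 * α ^ 4 + 840 * α ^ 2) +
        (1680 - 1120 * (1 - 2 * zt)) * (N - α ^ 4)) -
      840 * zt * (1 - 2 * zt) ^ 3 * (α ^ 2 - α ^ 4) := by
  have hz0 : 2 * (α * z) ∉ PP.lattice := two_of hz
  have n1 : ∀ i, 2 * (lm * (z + τ i)) ∉ PP.lattice := by
    intro i hi
    apply hz
    have := sub_mem (S3.mul_mem hα hi) (two_mem (lm_mem_mul (h1 i)))
    rwa [show α * (2 * (lm * (z + τ i))) - 2 * (lm * (α * τ i)) = 2 * (lm * (α * z)) by ring]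
      at this
  have hpe : 2 * pe ∈ PP.lattice := two_pe_mem
  have hh : 2 * (1 / 2 : ℂ) ∈ PP.lattice := two_half_mem
  have hh' : 2 * (zt / 2 : ℂ) ∈ PP.lattice := by
    rw [mul_div_cancel₀ _ (two_ne_zero : (2 : ℂ) ≠ 0)]
    exact zt_mem
  have s4 := sum_X4' hα hα0 h1 h2 hz0
  have s2 := sum_X2 hα hα0 h1 h2 hz0
  have s3 := sum_X2_sh hα hα0 h1 h2 hpe h3 hz0
  have t1 := sum_X2_sh hα hα0 h1 h2 hh h4 hz0
  have t2 := sum_X2_sh hα hα0 h1 h2 hh' h5 hz0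
  have r1 := sum_X_sh hα hα0 h1 h2 hh h4 hz0
  have r2 := sum_X_sh hα hα0 h1 h2 hh' h5 hz0
  have e0 := ze_ze2' (hq := hq) hz
  have k1 := X_half_add hz0
  have k2 := X_halfi_add hz0
  have hm := X_sub_one_ne hz0
  have hp := X_add_one_ne hz0
  have e1 : 256 * rh ^ 4 * (∑ i, ze (z + τ i) * ze (lm * (lm * (z + τ i)))) =
      ∑ i, X (z + τ i) ^ 4 + 6 * ∑ i, X (z + τ i) ^ 2 + N * 7 +
      ∑ i, X (z + τ i + 1 / 2) ^ 2 + ∑ i, X (z + τ i + zt / 2) ^ 2 +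
      4 * ∑ i, X (z + τ i + 1 / 2) - 4 * ∑ i, X (z + τ i + zt / 2) -
      16 * rh ^ 2 * ∑ i, X (z + τ i) ^ 2 - rh ^ 2 * (∑ i, X (z + τ i) ^ 2 +
        ∑ i, X (z + τ i + pe) ^ 2 + N * 4 + ∑ i, X (z + τ i + 1 / 2) ^ 2 +
        ∑ i, X (z + τ i + zt / 2) ^ 2) + N * (16 * rh ^ 4) := by
    rw [Finset.mul_sum, Finset.sum_congr rfl fun i _ => ze_ze2' (hq := hq) (n1 i)]
    simp only [Finset.sum_add_distrib, Finset.sum_sub_distrib, ← Finset.mul_sum,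
      Finset.sum_const, Finset.card_univ, nsmul_eq_mul, hN]
    ring
  rw [hN] at s4 s2 s3 t1 t2
  have hT := TrZ_X_sq (hq := hq) (α * z)
  have hT4 : X (α * z) ^ 4 = (rh ^ 2 * (1 + 4 * ze (α * z))) ^ 2 := by
    rw [← hT]
    ring
  have hc := rh_sq (hq := hq)
  obtain ⟨x, hx⟩ : ∃ x, x = X (α * z) := ⟨_, rfl⟩
  obtain ⟨x1, hx1⟩ : ∃ x, x = X (α * z + 1 / 2) := ⟨_, rfl⟩
  obtain ⟨x2, hx2⟩ : ∃ x, x = X (α * z + zt / 2) := ⟨_, rfl⟩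
  obtain ⟨x3, hx3⟩ : ∃ x, x = X (α * z + pe) := ⟨_, rfl⟩
  obtain ⟨S, hS⟩ : ∃ S, S = ∑ i, ze (z + τ i) * ze (lm * (lm * (z + τ i))) := ⟨_, rfl⟩
  obtain ⟨S4, hS4⟩ : ∃ S, S = ∑ i, X (z + τ i) ^ 4 := ⟨_, rfl⟩
  obtain ⟨S2, hS2⟩ : ∃ S, S = ∑ i, X (z + τ i) ^ 2 := ⟨_, rfl⟩
  obtain ⟨S3, hS3⟩ : ∃ S, S = ∑ i, X (z + τ i + pe) ^ 2 := ⟨_, rfl⟩
  obtain ⟨A1, hA1⟩ : ∃ S, S = ∑ i, X (z + τ i + 1 / 2) ^ 2 := ⟨_, rfl⟩
  obtain ⟨A2, hA2⟩ : ∃ S, S = ∑ i, X (z + τ i + zt / 2) ^ 2 := ⟨_, rfl⟩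
  obtain ⟨B1, hB1⟩ : ∃ S, S = ∑ i, X (z + τ i + 1 / 2) := ⟨_, rfl⟩
  obtain ⟨B2, hB2⟩ : ∃ S, S = ∑ i, X (z + τ i + zt / 2) := ⟨_, rfl⟩
  obtain ⟨Z, hZ⟩ : ∃ Z, Z = ze (α * z) * ze (lm * (lm * (α * z))) := ⟨_, rfl⟩
  obtain ⟨u, hu⟩ : ∃ u, u = ze (α * z) := ⟨_, rfl⟩
  obtain ⟨R, hR⟩ : ∃ R, R = rh ^ 2 := ⟨_, rfl⟩
  have hR4 : rh ^ 4 = R ^ 2 := by
    rw [hR]
    ring
  obtain ⟨c, hcc⟩ : ∃ c, c = 1 - 2 * zt := ⟨_, rfl⟩
  rw [← hS, ← hS4, ← hS2, ← hS3, ← hA1, ← hA2, ← hB1, ← hB2, hR4, ← hR] at e1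
  rw [← hx, ← hu, ← hR] at hT hT4
  rw [← hS4, ← hx, hT4, hT] at s4
  rw [← hS2, ← hx, hT] at s2
  rw [← hS3, ← hx3] at s3
  rw [← hA1, ← hx1] at t1
  rw [← hA2, ← hx2] at t2
  rw [← hB1, ← hx1] at r1
  rw [← hB2, ← hx2] at r2
  rw [← hZ, ← hx, ← hx1, ← hx2, ← hx3, hR4, ← hR, hT4, hT] at e0
  rw [← hR, ← hcc] at hc
  rw [← hx, ← hx1] at k1
  rw [← hx, ← hx2] at k2
  rw [← hS, ← hZ, ← hu, ← hcc]
  have hE : 26880 * R ^ 2 * (S - α ^ 4 * Z) = 105 * (α ^ 8 - α ^ 4) * (R * (1 + 4 * u)) ^ 2 +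
      84 * (α ^ 4 - α ^ 8) * (R * (1 + 4 * u)) + (3 * α ^ 8 + 25 * N - 28 * α ^ 4) +
      (N - α ^ 4) * (1015 - 1120 * R + 1680 * R ^ 2) + 420 * (α ^ 2 - α ^ 4) * (x1 - x2) := by
    linear_combination 105 * e1 - 105 * α ^ 4 * e0 + s4 + (630 - 1785 * R) * s2 - 105 * R * s3 +
      (105 - 105 * R) * t1 + (105 - 105 * R) * t2 + 420 * r1 - 420 * r2
  have e7 : (x1 - x2) * (R * (1 - 2 * zt * u)) = 2 * (R * (1 - 2 * zt * u)) - 2 * zt := by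
    have k3 : (x1 - x2) * (x ^ 2 - 1) = 2 * x ^ 2 + 2 := by
      linear_combination (x + 1) * k1 - (x - 1) * k2
    rw [hT] at k3
    have hc' : R * (1 - 2 * zt) = 1 := by
      rw [← hcc]
      exact hc
    linear_combination (-zt / 2) * k3 + ((zt / 2) * (x1 - x2) - zt) * hc' +
      ((x1 - x2) * R - 2 * R) * zt_sq
  linear_combination (1 - 2 * zt * u) * c ^ 2 * hE + (-26880 * (1 - 2 * zt * u) * (S - α ^ 4 * Z) *
    (R * c + 1) + (1 - 2 * zt * u) * (105 * (α ^ 8 - α ^ 4) * (1 + 4 * u) ^ 2 * (R * c + 1) -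
      84 * (α ^ 8 - α ^ 4) * (1 + 4 * u) * c - 1120 * c * (N - α ^ 4) +
      1680 * (N - α ^ 4) * (R * c + 1)) - 420 * (α ^ 2 - α ^ 4) * c ^ 2 * (1 - 2 * zt * u) *
      (x1 - x2 - 2)) * hc + 420 * (α ^ 2 - α ^ 4) * c ^ 3 * e7

/-- the abscissa of `lm z` -/
theorem X_lm_pe {z : ℂ} (hz : 2 * z ∉ PP.lattice) : 2 * zt * X (lm * z) = X z + X (z + pe) := by
  apply mul_right_cancel₀ (X_ne hz)
  linear_combination X_lm hz - X_add_pe hz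

/-- the sum of `xi z * xi (lm z)` -/
theorem sum_xi1 (hα : α ∈ PP.lattice) (hα0 : α ≠ 0) (h1 : ∀ i, α * τ i ∈ PP.lattice)
    (h2 : ∀ x, α * x ∈ PP.lattice → ∃! i, x - τ i ∈ PP.lattice)
    (h3 : (α - 1) * pe ∈ PP.lattice) {N z : ℂ} (hN : (Fintype.card ι : ℂ) = N)
    (hz : 2 * (α * z) ∉ PP.lattice) :
    12 * (∑ i, xi (z + τ i) * xi (lm * (z + τ i)) - α ^ 4 * (xi (α * z) * xi (lm * (α * z)))) =
      (N - α ^ 4) * (zt - 1) - 6 * (α ^ 2 - N) -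
        6 * (α ^ 2 - α ^ 4) * (xi (α * z) + xi (lm * (α * z))) := by
  have n1 : ∀ i, 2 * (z + τ i) ∉ PP.lattice := Rat4P.notMem hα h1 hz
  have s2 := sum_X2 hα hα0 h1 h2 hz
  have s1 := sum_X4 hα hα0 h1 h2 (notMem_of_two_mul hz)
  have s3 := sum_X_sh hα hα0 h1 h2 two_pe_mem h3 hz
  have p0 := X_lm_pe hz
  have p1 := X_lm hz
  have key : ∀ w : ℂ, 2 * w ∉ PP.lattice → 8 * zt * rh ^ 2 * (xi w * xi (lm * w)) =
      X w ^ 2 - 1 - 2 * zt * rh * X w - rh * (X w + X (w + pe)) + 2 * zt * rh ^ 2 := by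
    intro w hw
    have q0 := X_lm_pe hw
    have q1 := X_lm hw
    have q2 := X_xi (hq := hq) w
    have q3 := X_xi (hq := hq) (lm * w)
    have q4 : 2 * rh * xi w = X w - rh := by linear_combination -q2
    have q5 : 2 * rh * xi (lm * w) = X (lm * w) - rh := by linear_combination -q3
    linear_combination (4 * zt * rh * xi (lm * w)) * q4 + 2 * zt * (X w - rh) * q5 + q1 - rh * q0
  have e1 : 8 * zt * rh ^ 2 * (∑ i, xi (z + τ i) * xi (lm * (z + τ i))) =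
      ∑ i, X (z + τ i) ^ 2 - N * 1 - 2 * zt * rh * ∑ i, X (z + τ i) -
        rh * (∑ i, X (z + τ i) + ∑ i, X (z + τ i + pe)) + N * (2 * zt * rh ^ 2) := by
    rw [Finset.mul_sum, Finset.sum_congr rfl fun i _ => key _ (n1 i)]
    simp only [Finset.sum_add_distrib, Finset.sum_sub_distrib, ← Finset.mul_sum,
      Finset.sum_const, Finset.card_univ, nsmul_eq_mul, hN]
    ring
  rw [hN] at s2
  have e0 := key _ hz
  have x0 := X_xi (hq := hq) (α * z)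
  have x1 := X_xi (hq := hq) (lm * (α * z))
  have hc := rh_sq (hq := hq)
  obtain ⟨S, hS⟩ : ∃ S, S = ∑ i, xi (z + τ i) * xi (lm * (z + τ i)) := ⟨_, rfl⟩
  obtain ⟨x, hx⟩ : ∃ x, x = xi (α * z) := ⟨_, rfl⟩
  obtain ⟨y, hy⟩ : ∃ y, y = xi (lm * (α * z)) := ⟨_, rfl⟩
  rw [← hS] at e1
  rw [← hx] at x0
  rw [← hy] at x1
  rw [← hx, ← hy] at e0
  rw [← hS, ← hx, ← hy]
  have hE : 8 * zt * rh ^ 2 * (S - α ^ 4 * (x * y)) = -(2 / 3) * (N - α ^ 4) +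
      2 * zt * rh ^ 2 * (N - α ^ 4) - 4 * zt * rh ^ 2 * (α ^ 2 - α ^ 4) * (1 + x + y) := by
    linear_combination e1 - α ^ 4 * e0 + s2 - (2 * zt * rh + rh) * s1 - rh * s3 +
      rh * (α ^ 2 - α ^ 4) * p0 - 2 * zt * rh * (α ^ 2 - α ^ 4) * x0 -
      2 * zt * rh * (α ^ 2 - α ^ 4) * x1
  obtain ⟨R, hR⟩ : ∃ R, R = rh ^ 2 := ⟨_, rfl⟩
  obtain ⟨D, hD⟩ : ∃ D, D = S - α ^ 4 * (x * y) := ⟨_, rfl⟩
  obtain ⟨b, hb⟩ : ∃ b, b = α ^ 2 := ⟨_, rfl⟩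
  obtain ⟨d, hd⟩ : ∃ d, d = α ^ 4 := ⟨_, rfl⟩
  rw [← hD, ← hb, ← hd, ← hR] at hE
  rw [← hR] at hc
  rw [← hD, ← hb, ← hd]
  linear_combination (-(3 * zt / 2) * (1 - 2 * zt)) * hE +
    (-12 * D + 3 * (N - d) - 6 * (b - d) * (1 + x + y)) * hc +
    (-12 * R * b * x * zt - 12 * R * b * y * zt + 12 * R * d * x * zt + 12 * R * d * y * zt -
      24 * D * R * zt + 6 * N * R * zt + 6 * R * b * x + 6 * R * b * y - 12 * R * b * zt -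
      6 * R * d * x - 6 * R * d * y + 6 * R * d * zt + 12 * D * R - 3 * N * R + 6 * R * b -
      3 * R * d - 2 * N + 2 * d) * zt_sq

/-! ### The algebra modulo `lm` -/

theorem TrZ_alg1 {m n t s u e A N D : ℂ} (hA : A = 1 - 4 * lm * s) (hN : N = A - 4 * zt * e)
    (hs : s = m + n + lm * t)
    (h : -6720 * D = 105 * (A ^ 4 - A ^ 2) * (1 + 4 * u) ^ 2 -
      84 * (1 - 2 * zt) * (A ^ 4 - A ^ 2) * (1 + 4 * u) +
      (1 - 2 * zt) ^ 2 * (3 * A ^ 4 + 25 * N - 28 * A ^ 2) +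
      35 * (N - A ^ 2) * ((1 - 2 * zt) ^ 2 + 8 * (1 - 2 * zt) - 12)) :
    105 * (D - (m + n)) = lm * ((-31 + 122 * zt) * (m + n) + (-48 + 91 * zt) * t +
      210 * s * u ^ 2 + (63 + 84 * zt) * s * u + (1 - zt) *
      (s ^ 2 * (-2100 * u ^ 2 * zt - 630 * u * zt + 840 * u - 95 * zt + 395) +
        s ^ 3 * (6720 * u ^ 2 * zt - 672 * u * zt - 6720 * u ^ 2 - 4704 * u - 576 * zt - 672) +
        s ^ 4 * (5376 * u * zt + 13440 * u ^ 2 + 4032 * u + 1248 * zt + 96) +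
        e * (25 - 10 * zt))) := by
  apply mul_left_cancel₀ (by norm_num : (-64 : ℂ) ≠ 0)
  subst hN hA
  rw [lm] at *
  linear_combination h + (-64 * (-48 + 91 * zt)) * hs + (172032 * s ^ 4 * u * zt ^ 3 + 430080 * s ^ 4 * u ^ 2 * zt ^ 2 + 3072 * s ^ 4 * zt ^ 4 +
    817152 * s ^ 4 * u * zt ^ 2 + 1720320 * s ^ 4 * u ^ 2 * zt + 52224 * s ^ 4 * zt ^ 3 -
    172032 * s ^ 3 * u * zt ^ 2 - 860160 * s ^ 3 * u ^ 2 * zt - 3072 * s ^ 3 * zt ^ 3 +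
    1032192 * s ^ 4 * u * zt + 1290240 * s ^ 4 * u ^ 2 + 181248 * s ^ 4 * zt ^ 2 +
    134400 * s ^ 2 * u ^ 2 * zt - 602112 * s ^ 3 * u * zt - 860160 * s ^ 3 * u ^ 2 -
    49152 * s ^ 3 * zt ^ 2 + 387072 * s ^ 4 * u + 144384 * s ^ 4 * zt +
    94080 * s ^ 2 * u * zt + 134400 * s ^ 2 * u ^ 2 - 2880 * s ^ 2 * zt ^ 2 -
    430080 * s ^ 3 * u - 95232 * s ^ 3 * zt + 12288 * s ^ 4 + 94080 * s ^ 2 * u +
    25600 * s ^ 2 * zt - 49152 * s ^ 3 - 320 * e * zt + 864 * s * zt + 28480 * s ^ 2 +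
    1600 * e + 7808 * m + 7808 * n - 3584 * s) * zt_sq (hq := hq)

theorem TrZ_B0 {m y s : ℂ} (hs : s ^ 2 = -zt * s + lm * m + lm ^ 2 * y) :
    lm * (-(63 + 54 * zt) * (m + lm * y) - (106 - 62 * zt) * s + 12 * (7 + 6 * zt) * s ^ 3) =
      s * ((-114 - 107 * zt) - (63 + 54 * zt) * s + 12 * (7 + 6 * zt) * lm * s ^ 2) := by
  rw [lm] at *
  linear_combination (63 + 54 * zt) * hs + (8 * s) * zt_sq (hq := hq)

theorem TrZ_G1 {m y s : ℂ} (hs : s ^ 2 = -zt * s + lm * m + lm ^ 2 * y) :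
    lm * ((84 + 107 * zt) * s + (-243 + 306 * zt) * (m + lm * y) + (324 - 408 * zt) * s ^ 3) =
      s * (-329 - 52 * zt + (-243 + 306 * zt) * s + (732 - 84 * zt) * s ^ 2) := by
  rw [lm] at *
  linear_combination (243 - 306 * zt) * hs + (-408 * s ^ 3 + 413 * s) * zt_sq (hq := hq)

theorem TrZ_main {s u e A N D : ℂ} (hA : A = 1 - 4 * lm * s) (hN : N = A - 4 * zt * e)
    (h : 26880 * (1 - 2 * zt * u) * D =
      (1 - 2 * zt * u) * (105 * (A ^ 4 - A ^ 2) * (1 + 4 * u) ^ 2 -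
        84 * (1 - 2 * zt) * (A ^ 4 - A ^ 2) * (1 + 4 * u) +
        (1 - 2 * zt) ^ 2 * (3 * A ^ 4 + 1040 * N - 1883 * A ^ 2 + 840 * A) +
        (1680 - 1120 * (1 - 2 * zt)) * (N - A ^ 2)) -
      840 * zt * (1 - 2 * zt) ^ 3 * (A - A ^ 2)) :
    lm * (105 * (1 - 2 * zt * u) * D) =
      A * (s * ((-114 - 107 * zt) - (63 + 54 * zt) * s + 12 * (7 + 6 * zt) * lm * s ^ 2) +
        lm * (s * (-329 - 52 * zt + (-243 + 306 * zt) * s + (732 - 84 * zt) * s ^ 2) * u +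
          63 * (1 - 2 * zt) * s * (-zt + 6 * zt * lm * s + 16 * s ^ 2) * u ^ 2 -
          105 * lm * s * (-zt + 6 * zt * lm * s + 16 * s ^ 2) * u ^ 3)) +
      10 * lm * (1 - 2 * zt * u) * e * (4 * zt - 3) := by
  apply mul_left_cancel₀ (by norm_num : (256 : ℂ) ≠ 0)
  subst hN hA
  rw [lm] at *
  linear_combination (1 + zt) * h + (-6144 * s ^ 4 * u * zt ^ 6 - 344064 * s ^ 4 * u ^ 2 * zt ^ 5 -
    860160 * s ^ 4 * u ^ 3 * zt ^ 4 - 110592 * s ^ 4 * u * zt ^ 5 -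
    1978368 * s ^ 4 * u ^ 2 * zt ^ 4 - 4300800 * s ^ 4 * u ^ 3 * zt ^ 3 +
    6144 * s ^ 3 * u * zt ^ 5 + 344064 * s ^ 3 * u ^ 2 * zt ^ 4 +
    215040 * s ^ 3 * u ^ 3 * zt ^ 3 - 294912 * s ^ 4 * u * zt ^ 4 -
    3956736 * s ^ 4 * u ^ 2 * zt ^ 3 - 7741440 * s ^ 4 * u ^ 3 * zt ^ 2 +
    3072 * s ^ 4 * zt ^ 5 + 104448 * s ^ 3 * u * zt ^ 4 + 860160 * s ^ 3 * u ^ 2 * zt ^ 3 +
    860160 * s ^ 3 * u ^ 3 * zt ^ 2 + 178176 * s ^ 4 * u * zt ^ 3 -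
    1892352 * s ^ 4 * u ^ 2 * zt ^ 2 - 6021120 * s ^ 4 * u ^ 3 * zt + 55296 * s ^ 4 * zt ^ 4 +
    238720 * s ^ 2 * u * zt ^ 4 - 107520 * s ^ 2 * u ^ 2 * zt ^ 3 - 107520 * s ^ 2 * zt ^ 5 +
    190464 * s ^ 3 * u * zt ^ 3 + 387072 * s ^ 3 * u ^ 2 * zt ^ 2 +
    1075200 * s ^ 3 * u ^ 3 * zt - 3072 * s ^ 3 * zt ^ 4 + 1708032 * s ^ 4 * u * zt ^ 2 +
    1892352 * s ^ 4 * u ^ 2 * zt - 1720320 * s ^ 4 * u ^ 3 + 233472 * s ^ 4 * zt ^ 3 +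
    522240 * s ^ 2 * u * zt ^ 3 - 80640 * s ^ 2 * u ^ 2 * zt ^ 2 - 161280 * s ^ 2 * zt ^ 4 -
    368640 * s ^ 3 * u * zt ^ 2 - 817152 * s ^ 3 * u ^ 2 * zt + 430080 * s ^ 3 * u ^ 3 -
    52224 * s ^ 3 * zt ^ 3 + 2217984 * s ^ 4 * u * zt + 1462272 * s ^ 4 * u ^ 2 +
    405504 * s ^ 4 * zt ^ 2 + 33280 * e * u * zt ^ 3 - 59968 * s * u * zt ^ 3 +
    10752 * s * u ^ 2 * zt ^ 2 + 26880 * s * zt ^ 4 + 23680 * s ^ 2 * u * zt ^ 2 +
    161280 * s ^ 2 * u ^ 2 * zt + 68800 * s ^ 2 * zt ^ 3 - 1026048 * s ^ 3 * u * zt -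
    688128 * s ^ 3 * u ^ 2 - 181248 * s ^ 3 * zt ^ 2 + 878592 * s ^ 4 * u +
    316416 * s ^ 4 * zt + 17920 * e * u * zt ^ 2 - 75200 * s * u * zt ^ 2 -
    2688 * s * u ^ 2 * zt + 13440 * s * zt ^ 3 - 494208 * s ^ 2 * u * zt +
    134400 * s ^ 2 * u ^ 2 + 48000 * s ^ 2 * zt ^ 2 - 565248 * s ^ 3 * u -
    224256 * s ^ 3 * zt + 92160 * s ^ 4 - 15360 * e * u * zt - 16640 * e * zt ^ 2 +
    64960 * s * u * zt - 13440 * s * u ^ 2 - 30496 * s * zt ^ 2 - 234368 * s ^ 2 * u -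
    213440 * s ^ 2 * zt - 92160 * s ^ 3 - 8960 * e * zt + 80192 * s * u + 20800 * s * zt -
    137728 * s ^ 2 + 7680 * e + 38752 * s) * zt_sq (hq := hq)

theorem TrZ_alg2 {m n t y s u e A N D : ℂ} (hA : A = 1 - 4 * lm * s) (hN : N = A - 4 * zt * e)
    (hs1 : s = m + n + lm * t) (hs2 : s ^ 2 = -zt * s + lm * m + lm ^ 2 * y)
    (h : 26880 * (1 - 2 * zt * u) * D =
      (1 - 2 * zt * u) * (105 * (A ^ 4 - A ^ 2) * (1 + 4 * u) ^ 2 -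
        84 * (1 - 2 * zt) * (A ^ 4 - A ^ 2) * (1 + 4 * u) +
        (1 - 2 * zt) ^ 2 * (3 * A ^ 4 + 1040 * N - 1883 * A ^ 2 + 840 * A) +
        (1680 - 1120 * (1 - 2 * zt)) * (N - A ^ 2)) -
      840 * zt * (1 - 2 * zt) ^ 3 * (A - A ^ 2)) :
    105 * (1 - 2 * zt * u) * (D - ((m + n) * u ^ 2 + m)) =
      lm * ((-(59 - 5 * zt) * m - (63 + 54 * zt) * y - (22 - 84 * zt) * s +
        6 * (1 - zt) * (7 + 6 * zt) * s ^ 3) -
        4 * s * (-(63 + 54 * zt) * (m + lm * y) - (106 - 62 * zt) * s +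
          12 * (7 + 6 * zt) * s ^ 3) - (52 * (1 - zt) - 105 * (1 + zt) * u) * m +
        u ^ 2 * (63 * (1 - 2 * zt) * (6 * zt * s ^ 2 + 8 * (1 - zt) * s ^ 3) +
          (m + n) * (-95 + 32 * zt) + (-126 - 63 * zt) * t -
          4 * s * (63 * (1 - 2 * zt) * s * (-zt + 6 * zt * lm * s + 16 * s ^ 2)) -
          (52 * (1 - zt) - 105 * (1 + zt) * u) * (m + n)) +
        A * ((84 + 107 * zt) * s + (-243 + 306 * zt) * (m + lm * y) +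
          (324 - 408 * zt) * s ^ 3) * u +
        A * (-105 * s * (-zt + 6 * zt * lm * s + 16 * s ^ 2)) * u ^ 3 +
        5 * (1 - zt) * (1 - 2 * zt * u) * e * (4 * zt - 3)) := by
  have h0 := TrZ_main (hq := hq) hA hN h
  have h1 := TrZ_B0 (hq := hq) hs2
  have h2 := TrZ_G1 (hq := hq) hs2
  have h3 : 105 * (1 - 2 * zt * u) * D =
      A * ((-(63 + 54 * zt) * (m + lm * y) - (106 - 62 * zt) * s + 12 * (7 + 6 * zt) * s ^ 3) +
        lm * ((84 + 107 * zt) * s + (-243 + 306 * zt) * (m + lm * y) +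
          (324 - 408 * zt) * s ^ 3) * u +
        63 * (1 - 2 * zt) * s * (-zt + 6 * zt * lm * s + 16 * s ^ 2) * u ^ 2 -
        105 * lm * s * (-zt + 6 * zt * lm * s + 16 * s ^ 2) * u ^ 3) +
      10 * (1 - 2 * zt * u) * e * (4 * zt - 3) := by
    apply mul_left_cancel₀ (lm_ne (hq := hq))
    linear_combination h0 - A * h1 - A * lm * u * h2
  clear h0 h1 h2 h hs2
  subst hA
  rw [lm] at *
  linear_combination h3 + u ^ 2 * (-126 - 63 * zt) * hs1 + (-1008 * s ^ 3 * u ^ 2 * zt + 504 * s ^ 3 * u ^ 2 - 40 * e * u * zt ^ 2 - 105 * m * u ^ 3 -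
    105 * n * u ^ 3 + 36 * s ^ 3 * zt + 30 * e * u * zt - 84 * m * u ^ 2 - 84 * n * u ^ 2 +
    126 * s * u ^ 2 + 42 * s ^ 3 + 20 * e * zt - 105 * m * u - 15 * e - 57 * m - 84 * s) * zt_sq (hq := hq)

theorem TrZ_s1 (m n : ℂ) : (m + n * zt) * (lm * (m + n * zt) - zt) =
    m + n + lm * ((m + n * zt) ^ 2 - m) := by
  rw [lm]
  linear_combination (-n) * zt_sq (hq := hq)

theorem TrZ_s2 {m n p r : ℂ} (hp : m ^ 2 - m = 2 * p) (hr : n ^ 2 - n = 2 * r) :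
    ((m + n * zt) * (lm * (m + n * zt) - zt)) ^ 2 =
      -zt * ((m + n * zt) * (lm * (m + n * zt) - zt)) + lm * m +
      lm ^ 2 * (-4 * m * n ^ 3 * zt + 4 * m ^ 3 * n * zt + 3 * m * n ^ 2 * zt - 3 * m ^ 2 * n * zt -
      6 * m ^ 2 * n ^ 2 - m ^ 3 * zt + m ^ 4 + n ^ 3 * zt + n ^ 4 + m * n * zt +
      3 * m * n ^ 2 + 3 * m ^ 2 * n + m ^ 2 * zt - m ^ 3 - n ^ 2 * zt - n ^ 3 - 2 * m * n +
      p - r) := by
  rw [lm]
  linear_combination ((1 + zt) ^ 2 / 2) * hp - ((1 + zt) ^ 2 / 2) * hr + (n ^ 4 * zt ^ 4 + 4 * m * n ^ 3 * zt ^ 3 + 2 * n ^ 4 * zt ^ 3 + 8 * m * n ^ 3 * zt ^ 2 +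
    6 * m ^ 2 * n ^ 2 * zt ^ 2 - 2 * n ^ 3 * zt ^ 3 - 6 * m * n ^ 2 * zt ^ 2 +
    4 * m * n ^ 3 * zt + 12 * m ^ 2 * n ^ 2 * zt - 2 * n ^ 3 * zt ^ 2 - 2 * n ^ 4 * zt -
    9 * m * n ^ 2 * zt - 3 * m ^ 2 * n * zt + 6 * m ^ 2 * n ^ 2 + m ^ 3 * zt +
    2 * n ^ 2 * zt ^ 2 + n ^ 3 * zt - n ^ 4 + 3 * m * n * zt - 3 * m * n ^ 2 - 3 * m ^ 2 * n -
    m ^ 2 * zt + m ^ 3 + 2 * n ^ 2 * zt + n ^ 3 + 2 * m * n - (1 / 2) * m ^ 2 - n * zt +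
    (1 / 2) * n ^ 2 - (1 / 2) * m - (1 / 2) * n) * zt_sq (hq := hq)

end

/-! ### The place -/

section

variable {B : ValuationSubring ℂ}

theorem TrZ_lt (hB : (2 : ℂ)⁻¹ ∉ B) {x y : ℂ} (h : x = lm * y) (hy : y ∈ B) :
    B.valuation x < 1 := by
  rw [h, map_mul]
  exact mul_lt_one_of_lt_of_le (v_lm_lt hB) ((ValuationSubring.valuation_le_one_iff _ _).2 hy)

theorem TrZ_num (n : ℕ) [n.AtLeastTwo] : (OfNat.ofNat n : ℂ) ∈ B := by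
  have h := natCast_mem B (OfNat.ofNat n : ℕ)
  rwa [Nat.cast_ofNat] at h

theorem TrZ_unit (hB : (2 : ℂ)⁻¹ ∉ B) {x y : ℂ} (h : x = 1 + 2 * y) (hy : y ∈ B) :
    B.valuation x = 1 := by
  rw [h, Valuation.map_one_add_of_lt]
  rw [map_mul]
  exact mul_lt_one_of_lt_of_le (two_lt hB) ((ValuationSubring.valuation_le_one_iff _ _).2 hy)

theorem TrZ_zt : zt ∈ B := by
  rw [← ValuationSubring.valuation_le_one_iff, v_zt]

theorem TrZ_lm : lm ∈ B := by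
  rw [lm]
  exact B.add_mem _ _ B.one_mem TrZ_zt

theorem TrZ_ze (hB : (2 : ℂ)⁻¹ ∉ B) {z : ℂ} (hz : Od z) : ze z ∈ B :=
  (ValuationSubring.valuation_le_one_iff _ _).1 (v_ze hB hz)

theorem TrZ_int (hB : (2 : ℂ)⁻¹ ∉ B) (k : ℤ) {y : ZMod 2} (h : y = (k : ZMod 2)) :
    B.valuation ((k : ℂ) - (y.val : ℂ)) < 1 := by
  have h1 : ((y.val : ℤ) : ZMod 2) = ((k : ℤ) : ZMod 2) := by
    rw [← h, Int.cast_natCast, ZMod.natCast_zmod_val]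
  rw [ZMod.intCast_eq_intCast_iff_dvd_sub] at h1
  obtain ⟨c, hc⟩ := h1
  have e : (k : ℂ) - (y.val : ℂ) = 2 * (c : ℂ) := by
    have h2 := congrArg (Int.cast (R := ℂ)) hc
    push_cast at h2
    exact h2
  rw [e, map_mul]
  exact mul_lt_one_of_lt_of_le (two_lt hB) (v_int _)

/-- the data of a prime -/
theorem TrZ_data (q : Pg) : ∃ m n p r : ℤ, aa q.1 = (m : ZMod 2) + n ∧ bb q.1 = n ∧
    (m : ℂ) ^ 2 - m = 2 * p ∧ (n : ℂ) ^ 2 - n = 2 * r ∧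
    em q.1 = 1 + (-2 + 2 * zt) * ((m : ℂ) + n * zt) ∧
    em q.1 ^ 2 - (Nz q.1 : ℂ) = 4 * ((m : ℂ) - n) * zt * em q.1 := by
  obtain ⟨m, n, h, h1⟩ := em_sq_sub q
  have hp : ∀ m : ℤ, ∃ p : ℤ, (m : ℂ) ^ 2 - m = 2 * p := by
    intro m
    obtain ⟨p, hp⟩ := Int.even_mul_pred_self m
    refine ⟨p, ?_⟩
    have h2 := congrArg (Int.cast (R := ℂ)) hp
    push_cast at h2
    linear_combination h2
  obtain ⟨p, hp1⟩ := hp m
  obtain ⟨r, hr1⟩ := hp n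
  refine ⟨m, n, p, r, ?_, ?_, hp1, hr1, ?_, h1⟩
  · rw [h, aa_form]
  · rw [h, bb_form]
  · have h3 : em q.1 = em (1 + (-2 + 2 * iO) * ((m : 𝓞 K) + (n : 𝓞 K) * iO)) := by
      refine congrArg em (h.trans ?_)
      rw [lam_cube]
    rw [em_add, em_one, em_mul, em_add, em_add, em_mul, em_mul, em_neg, em_ofNat, em_intCast,
      em_intCast, em_iO'] at h3
    exact h3

theorem TrZ_lat {m n : ℤ} : (m : ℂ) + n * zt ∈ PP.lattice := by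
  have h : (m : ℂ) + n * zt = em ((m : 𝓞 K) + (n : 𝓞 K) * iO) := by
    rw [em_add, em_mul, em_intCast, em_intCast, em_iO']
  rw [h]
  exact em_mem _

/-- **(T3)** -/
theorem v_sum_ze1 (hB : (2 : ℂ)⁻¹ ∉ B) (q : Pg) {ι : Type*} [Fintype ι] {τ : ι → ℂ}
    (h1 : ∀ i, em q.1 * τ i ∈ PP.lattice)
    (h2 : ∀ x, em q.1 * x ∈ PP.lattice → ∃! i, x - τ i ∈ PP.lattice)
    (hcard : Fintype.card ι = Nz q.1) {z : ℂ} (hz : Od (em q.1 * z)) :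
    B.valuation (∑ i, ze (z + τ i) * ze (lm * (z + τ i)) -
      (ze (em q.1 * z) * ze (lm * (em q.1 * z)) + ((aa q.1).val : ℂ))) < 1 := by
  obtain ⟨m, n, p, r, ha, hb, hp, hr, hem, hN⟩ := TrZ_data q
  have hmu := TrZ_lat (m := m) (n := n)
  have hpe : (em q.1 - 1) * pe ∈ PP.lattice := by
    have e : (em q.1 - 1) * pe = 2 * zt * ((m : ℂ) + n * zt) := by
      rw [hem]
      have := lm_mul_pe
      rw [lm] at this
      linear_combination (2 * zt * ((m : ℂ) + n * zt)) * this -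
        (2 * ((m : ℂ) + n * zt) * pe) * zt_sq
    rw [e, mul_assoc]
    exact two_mem (S3.mul_mem zt_mem hmu)
  have hs := sum_ze1 (em_mem q.1) (em_ne q.ne_zero) h1 h2 hpe
    (N := (Nz q.1 : ℂ)) (by rw [hcard]) hz.two
  have hu := TrZ_ze hB hz
  have hu1 := TrZ_ze hB hz.mul_lm
  obtain ⟨S, hS⟩ : ∃ S, S = ∑ i, ze (z + τ i) * ze (lm * (z + τ i)) := ⟨_, rfl⟩
  obtain ⟨u, huu⟩ : ∃ u, u = ze (em q.1 * z) := ⟨_, rfl⟩
  obtain ⟨u1, huu1⟩ : ∃ u, u = ze (lm * (em q.1 * z)) := ⟨_, rfl⟩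
  obtain ⟨α, hα⟩ : ∃ α, α = em q.1 := ⟨_, rfl⟩
  obtain ⟨N, hNN⟩ : ∃ N : ℂ, N = (Nz q.1 : ℂ) := ⟨_, rfl⟩
  rw [← huu] at hu
  rw [← huu1] at hu1
  rw [← hα, ← hNN] at hN
  rw [← hα] at hem
  rw [← hS, ← huu, ← huu1, ← hα, ← hNN] at hs
  rw [← hS, ← huu, ← huu1]
  have hA : α ^ 2 = 1 - 4 * lm * (((m : ℂ) + n * zt) * (lm * ((m : ℂ) + n * zt) - zt)) := by
    rw [hem, lm]
    linear_combination (8 * ((m : ℂ) + n * zt) ^ 2 - 4 * ((m : ℂ) + n * zt)) * zt_sq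
  have hal := TrZ_alg1 (u := u) (D := S - α ^ 4 * (u * u1)) hA
    (N := N) (e := ((m : ℂ) - n) * α) (by linear_combination -hN) (TrZ_s1 (m : ℂ) n)
    (by linear_combination hs)
  have b1 : zt ∈ B := TrZ_zt
  have b2 : lm ∈ B := TrZ_lm
  have b3 : (m : ℂ) ∈ B := intCast_mem B m
  have b4 : (n : ℂ) ∈ B := intCast_mem B n
  have b5 : (α : ℂ) ∈ B := by
    rw [hem]
    repeat' first
      | exact b1 | exact b3 | exact b4 | exact B.one_mem | exact TrZ_num _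
      | apply B.add_mem | apply B.sub_mem | apply B.mul_mem | apply B.neg_mem
  have c1 := TrZ_lt hB hal (by
    repeat' first
      | exact b1 | exact b2 | exact b3 | exact b4 | exact b5 | exact hu | exact B.one_mem
      | exact TrZ_num _
      | apply B.add_mem | apply B.sub_mem | apply B.mul_mem | apply B.neg_mem)
  have c2 : B.valuation (105 : ℂ) = 1 := TrZ_unit hB (y := 52) (by norm_num) (TrZ_num _)
  rw [map_mul, c2, one_mul] at c1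
  have c3 := TrZ_int hB (m + n) (y := aa q.1) (by rw [ha]; push_cast; rfl)
  push_cast at c3
  have c4 : B.valuation ((α ^ 4 - 1) * (u * u1)) < 1 := by
    refine TrZ_lt hB (y := -4 * (((m : ℂ) + n * zt) * (lm * ((m : ℂ) + n * zt) - zt)) *
      (α ^ 2 + 1) * (u * u1)) ?_ ?_
    · linear_combination ((α ^ 2 + 1) * (u * u1)) * hA
    · repeat' first
        | exact b1 | exact b2 | exact b3 | exact b4 | exact b5 | exact hu | exact hu1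
        | exact B.one_mem | exact TrZ_num _
        | apply B.add_mem | apply B.sub_mem | apply B.mul_mem | apply B.neg_mem
  have e : S - (u * u1 + ((aa q.1).val : ℂ)) = (S - α ^ 4 * (u * u1) - (m + n)) +
      (α ^ 4 - 1) * (u * u1) + ((m : ℂ) + n - ((aa q.1).val : ℂ)) := by ring
  rw [e]
  exact Valuation.map_add_lt _ (Valuation.map_add_lt _ c1 c4) c3

/-- **(T5)** -/
theorem v_sum_ze2 (hB : (2 : ℂ)⁻¹ ∉ B) (q : Pg) {ι : Type*} [Fintype ι] {τ : ι → ℂ}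
    (h1 : ∀ i, em q.1 * τ i ∈ PP.lattice)
    (h2 : ∀ x, em q.1 * x ∈ PP.lattice → ∃! i, x - τ i ∈ PP.lattice)
    (hcard : Fintype.card ι = Nz q.1) {z : ℂ} (hz : Od (em q.1 * z)) :
    B.valuation (∑ i, ze (z + τ i) * ze (lm * (lm * (z + τ i))) -
      (ze (em q.1 * z) * ze (lm * (lm * (em q.1 * z))) +
        ((aa q.1).val : ℂ) * ze (em q.1 * z) ^ 2 + ((aa q.1 + bb q.1).val : ℂ))) < 1 := by
  obtain ⟨m, n, p, r, ha, hb, hp, hr, hem, hN⟩ := TrZ_data q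
  have hmu := TrZ_lat (m := m) (n := n)
  have hpe : (em q.1 - 1) * pe ∈ PP.lattice := by
    have e : (em q.1 - 1) * pe = 2 * zt * ((m : ℂ) + n * zt) := by
      rw [hem]
      have := lm_mul_pe
      rw [lm] at this
      linear_combination (2 * zt * ((m : ℂ) + n * zt)) * this -
        (2 * ((m : ℂ) + n * zt) * pe) * zt_sq
    rw [e, mul_assoc]
    exact two_mem (S3.mul_mem zt_mem hmu)
  have h12 : (em q.1 - 1) * (1 / 2) ∈ PP.lattice := by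
    have e : (em q.1 - 1) * (1 / 2) = (-1 + zt) * ((m : ℂ) + n * zt) := by
      rw [hem]
      ring
    rw [e]
    exact S3.mul_mem (add_mem (neg_mem one_mem) zt_mem) hmu
  have h1i : (em q.1 - 1) * (zt / 2) ∈ PP.lattice := by
    have e : (em q.1 - 1) * (zt / 2) = zt * ((em q.1 - 1) * (1 / 2)) := by ring
    rw [e]
    exact S3.mul_mem zt_mem h12
  have hs := sum_ze2 (em_mem q.1) (em_ne q.ne_zero) h1 h2 hpe h12 h1i
    (N := (Nz q.1 : ℂ)) (by rw [hcard]) hz.mul_lm.two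
  have hu := TrZ_ze hB hz
  have hu1 := TrZ_ze hB hz.mul_lm.mul_lm
  obtain ⟨S, hS⟩ : ∃ S, S = ∑ i, ze (z + τ i) * ze (lm * (lm * (z + τ i))) := ⟨_, rfl⟩
  obtain ⟨u, huu⟩ : ∃ u, u = ze (em q.1 * z) := ⟨_, rfl⟩
  obtain ⟨u1, huu1⟩ : ∃ u, u = ze (lm * (lm * (em q.1 * z))) := ⟨_, rfl⟩
  obtain ⟨α, hα⟩ : ∃ α, α = em q.1 := ⟨_, rfl⟩
  obtain ⟨N, hNN⟩ : ∃ N : ℂ, N = (Nz q.1 : ℂ) := ⟨_, rfl⟩
  rw [← huu] at hu
  rw [← huu1] at hu1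
  rw [← hα, ← hNN] at hN
  rw [← hα] at hem
  rw [← hS, ← huu, ← huu1, ← hα, ← hNN] at hs
  rw [← hS, ← huu, ← huu1]
  have hA : α ^ 2 = 1 - 4 * lm * (((m : ℂ) + n * zt) * (lm * ((m : ℂ) + n * zt) - zt)) := by
    rw [hem, lm]
    linear_combination (8 * ((m : ℂ) + n * zt) ^ 2 - 4 * ((m : ℂ) + n * zt)) * zt_sq
  have hal := TrZ_alg2 (u := u) (D := S - α ^ 4 * (u * u1)) hA
    (N := N) (e := ((m : ℂ) - n) * α) (by linear_combination -hN) (TrZ_s1 (m : ℂ) n)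
    (TrZ_s2 hp hr) (by linear_combination hs)
  have b1 : zt ∈ B := TrZ_zt
  have b2 : lm ∈ B := TrZ_lm
  have b3 : (m : ℂ) ∈ B := intCast_mem B m
  have b4 : (n : ℂ) ∈ B := intCast_mem B n
  have b6 : (p : ℂ) ∈ B := intCast_mem B p
  have b7 : (r : ℂ) ∈ B := intCast_mem B r
  have b5 : (α : ℂ) ∈ B := by
    rw [hem]
    repeat' first
      | exact b1 | exact b3 | exact b4 | exact B.one_mem | exact TrZ_num _
      | apply B.add_mem | apply B.sub_mem | apply B.mul_mem | apply B.neg_mem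
  have c1 := TrZ_lt hB hal (by
    repeat' first
      | exact b1 | exact b2 | exact b3 | exact b4 | exact b5 | exact b6 | exact b7 | exact hu
      | exact B.one_mem | exact TrZ_num _
      | apply B.add_mem | apply B.sub_mem | apply B.mul_mem | apply B.neg_mem)
  have c2 : B.valuation (105 : ℂ) = 1 := TrZ_unit hB (y := 52) (by norm_num) (TrZ_num _)
  have c2' : B.valuation (1 - 2 * zt * u) = 1 := TrZ_unit hB (y := -zt * u) (by ring)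
    (B.mul_mem _ _ (B.neg_mem _ b1) hu)
  rw [map_mul, map_mul, c2, c2', one_mul, one_mul] at c1
  have c3 := TrZ_int hB (m + n) (y := aa q.1) (by rw [ha]; push_cast; rfl)
  have c3' := TrZ_int hB m (y := aa q.1 + bb q.1) (by
    rw [ha, hb, add_assoc, CharTwo.add_self_eq_zero, add_zero])
  push_cast at c3
  have c4 : B.valuation ((α ^ 4 - 1) * (u * u1)) < 1 := by
    refine TrZ_lt hB (y := -4 * (((m : ℂ) + n * zt) * (lm * ((m : ℂ) + n * zt) - zt)) *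
      (α ^ 2 + 1) * (u * u1)) ?_ ?_
    · linear_combination ((α ^ 2 + 1) * (u * u1)) * hA
    · repeat' first
        | exact b1 | exact b2 | exact b3 | exact b4 | exact b5 | exact hu | exact hu1
        | exact B.one_mem | exact TrZ_num _
        | apply B.add_mem | apply B.sub_mem | apply B.mul_mem | apply B.neg_mem
  have c5 : B.valuation (((m : ℂ) + n - ((aa q.1).val : ℂ)) * u ^ 2) < 1 := by
    rw [map_mul, map_pow]
    refine mul_lt_one_of_lt_of_le c3 (pow_le_one₀ zero_le ?_)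
    exact (ValuationSubring.valuation_le_one_iff _ _).2 hu
  have e : S - (u * u1 + ((aa q.1).val : ℂ) * u ^ 2 + ((aa q.1 + bb q.1).val : ℂ)) =
      (S - α ^ 4 * (u * u1) - ((m + n) * u ^ 2 + m)) + (α ^ 4 - 1) * (u * u1) +
      ((m : ℂ) + n - ((aa q.1).val : ℂ)) * u ^ 2 + ((m : ℂ) - ((aa q.1 + bb q.1).val : ℂ)) := by
    ring
  rw [e]
  exact Valuation.map_add_lt _ (Valuation.map_add_lt _ (Valuation.map_add_lt _ c1 c4) c5) c3'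

/-- **(T1)** -/
theorem v_sum_xi1 (hB : (2 : ℂ)⁻¹ ∉ B) (q : Pg) {ι : Type*} [Fintype ι] {τ : ι → ℂ}
    (h1 : ∀ i, em q.1 * τ i ∈ PP.lattice)
    (h2 : ∀ x, em q.1 * x ∈ PP.lattice → ∃! i, x - τ i ∈ PP.lattice)
    (hcard : Fintype.card ι = Nz q.1) {z : ℂ} (hz : Od (em q.1 * z)) :
    B.valuation (∑ i, xi (z + τ i) * xi (lm * (z + τ i)) -
      xi (em q.1 * z) * xi (lm * (em q.1 * z))) < 1 := by
  obtain ⟨m, n, p, r, ha, hb, hp, hr, hem, hN⟩ := TrZ_data q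
  have hmu := TrZ_lat (m := m) (n := n)
  have hpe : (em q.1 - 1) * pe ∈ PP.lattice := by
    have e : (em q.1 - 1) * pe = 2 * zt * ((m : ℂ) + n * zt) := by
      rw [hem]
      have := lm_mul_pe
      rw [lm] at this
      linear_combination (2 * zt * ((m : ℂ) + n * zt)) * this -
        (2 * ((m : ℂ) + n * zt) * pe) * zt_sq
    rw [e, mul_assoc]
    exact two_mem (S3.mul_mem zt_mem hmu)
  have hs := sum_xi1 (em_mem q.1) (em_ne q.ne_zero) h1 h2 hpe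
    (N := (Nz q.1 : ℂ)) (by rw [hcard]) hz.two
  have hu := xi_mem hB hz
  have hu1 := xi_mem hB hz.mul_lm
  obtain ⟨S, hS⟩ : ∃ S, S = ∑ i, xi (z + τ i) * xi (lm * (z + τ i)) := ⟨_, rfl⟩
  obtain ⟨u, huu⟩ : ∃ u, u = xi (em q.1 * z) := ⟨_, rfl⟩
  obtain ⟨u1, huu1⟩ : ∃ u, u = xi (lm * (em q.1 * z)) := ⟨_, rfl⟩
  obtain ⟨α, hα⟩ : ∃ α, α = em q.1 := ⟨_, rfl⟩
  obtain ⟨N, hNN⟩ : ∃ N : ℂ, N = (Nz q.1 : ℂ) := ⟨_, rfl⟩
  rw [← huu] at hu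
  rw [← huu1] at hu1
  rw [← hα, ← hNN] at hN
  rw [← hα] at hem
  rw [← hS, ← huu, ← huu1, ← hα, ← hNN] at hs
  rw [← hS, ← huu, ← huu1]
  obtain ⟨s, hss⟩ : ∃ s, s = ((m : ℂ) + n * zt) * (lm * ((m : ℂ) + n * zt) - zt) := ⟨_, rfl⟩
  have hA : α ^ 2 = 1 - 4 * lm * s := by
    rw [hss, hem, lm]
    linear_combination (8 * ((m : ℂ) + n * zt) ^ 2 - 4 * ((m : ℂ) + n * zt)) * zt_sq
  have b1 : zt ∈ B := TrZ_zt
  have b2 : lm ∈ B := TrZ_lm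
  have b3 : (m : ℂ) ∈ B := intCast_mem B m
  have b4 : (n : ℂ) ∈ B := intCast_mem B n
  have b5 : (α : ℂ) ∈ B := by
    rw [hem]
    repeat' first
      | exact b1 | exact b3 | exact b4 | exact B.one_mem | exact TrZ_num _
      | apply B.add_mem | apply B.sub_mem | apply B.mul_mem | apply B.neg_mem
  have b8 : s ∈ B := by
    rw [hss]
    repeat' first
      | exact b1 | exact b2 | exact b3 | exact b4 | exact B.one_mem | exact TrZ_num _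
      | apply B.add_mem | apply B.sub_mem | apply B.mul_mem
  have hal : 3 * (S - α ^ 4 * (u * u1)) = lm * (α ^ 2 * s * (zt - 1) + ((m : ℂ) - n) * α -
      3 * (1 + zt) * (((m : ℂ) - n) * α) - 6 * α ^ 2 * s * (u + u1)) := by
    have hN' : N = α ^ 2 - 4 * zt * (((m : ℂ) - n) * α) := by linear_combination -hN
    have hα4 : α ^ 4 = (α ^ 2) ^ 2 := by ring
    obtain ⟨D, hD⟩ : ∃ D, D = S - α ^ 4 * (u * u1) := ⟨_, rfl⟩
    obtain ⟨A, hAA⟩ : ∃ A, A = α ^ 2 := ⟨_, rfl⟩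
    obtain ⟨e, he⟩ : ∃ e, e = ((m : ℂ) - n) * α := ⟨_, rfl⟩
    rw [← hD] at hs
    rw [hN', hα4, ← hAA, ← he] at hs
    rw [← hAA] at hA
    rw [← hD, ← hAA, ← he]
    clear hN' hα4 hN hAA hD he
    apply mul_left_cancel₀ (by norm_num : (4 : ℂ) ≠ 0)
    subst hA
    rw [lm] at *
    linear_combination hs + (8 * e) * zt_sq
  have c1 := TrZ_lt hB hal (by
    repeat' first
      | exact b1 | exact b2 | exact b3 | exact b4 | exact b5 | exact b8 | exact hu | exact hu1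
      | exact B.one_mem | exact TrZ_num _
      | apply B.add_mem | apply B.sub_mem | apply B.mul_mem)
  have c2 : B.valuation (3 : ℂ) = 1 := TrZ_unit hB (y := 1) (by norm_num) B.one_mem
  rw [map_mul, c2, one_mul] at c1
  have c4 : B.valuation ((α ^ 4 - 1) * (u * u1)) < 1 := by
    refine TrZ_lt hB (y := -4 * s * (α ^ 2 + 1) * (u * u1)) ?_ ?_
    · linear_combination ((α ^ 2 + 1) * (u * u1)) * hA
    · repeat' first
        | exact b1 | exact b2 | exact b3 | exact b4 | exact b5 | exact b8 | exact hu | exact hu1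
        | exact B.one_mem | exact TrZ_num _
        | apply B.add_mem | apply B.sub_mem | apply B.mul_mem | apply B.neg_mem
  have e : S - u * u1 = (S - α ^ 4 * (u * u1)) + (α ^ 4 - 1) * (u * u1) := by ring
  rw [e]
  exact Valuation.map_add_lt _ c1 c4

end

end

end Pool.Agent.Lib.MP_1a91b9_ntQ
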