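import Pool.Agent.Lib.MP_1a91b9_ntQ.B.PthW
import Pool.Agent.Lib.MP_1a91b9_ntQ.B.TrZ

/-!
# Quartic twists, part B, file PthT: the traces in the form used by PthZ, final statements of the path sums
-/

set_option autoImplicit false

namespace Pool.Agent.Lib.MP_1a91b9_ntQ

open NumberField IsDedekindDomain Pool.Agent.Lib.MP_1a91b9_nuT Pool.Agent.Lib.MP_1a91b9_nuT.S3
  Pool.Agent.Lib.MP_1a91b9_nuT.Ell

noncomputable section

variable {B : ValuationSubring ℂ} {q0 : Pg} {kap : 𝓞 K} {J : Finset Pg} {ex : Pg → ZMod 4}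

/-- the points of `E[q]` -/
theorem exists_tau (q : Pg) : ∃ (ι : Type) (_ : Fintype ι) (τ : ι → ℂ),
    (∀ i, em q.1 * τ i ∈ PP.lattice) ∧
    (∀ x, em q.1 * x ∈ PP.lattice → ∃! i, x - τ i ∈ PP.lattice) ∧ Fintype.card ι = Nz q.1 ∧
    ∀ F : ℂ → ℂ, SM q.1 (fun u => F (em u / em q.1)) = ∑ i, F (τ i) := by
  have hq := q.ne_zero
  have hqe := em_ne hq
  have hfin := SM_finite hq
  let _ : Fintype (𝓞 K ⧸ Ideal.span {q.1}) := Fintype.ofFinite _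
  let τ : (𝓞 K ⧸ Ideal.span {q.1}) → ℂ := fun x => em x.out / em q.1
  have hqτ : ∀ i, em q.1 * τ i = em i.out := by
    intro i
    change em q.1 * (em i.out / em q.1) = _
    field_simp
  refine ⟨𝓞 K ⧸ Ideal.span {q.1}, inferInstance, τ, fun i => ?_, ?_, ?_, ?_⟩
  · rw [hqτ]
    exact em_mem _
  · intro x hx
    obtain ⟨a, ha⟩ := S3.mem_PP_iff.1 hx
    have ha' : em a = em q.1 * x := ha
    have hiff : ∀ i : 𝓞 K ⧸ Ideal.span {q.1}, x - τ i ∈ PP.lattice ↔ q.1 ∣ a - i.out := by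
      intro i
      constructor
      · intro h
        obtain ⟨y, hy⟩ := S3.mem_PP_iff.1 h
        refine ⟨y, em_inj ?_⟩
        have hy' : em y = x - τ i := hy
        rw [em_sub, em_mul, hy', mul_sub, hqτ, ha']
      · rintro ⟨y, hy⟩
        have e : x - τ i = em y := by
          apply mul_left_cancel₀ hqe
          rw [← em_mul, ← hy, em_sub, mul_sub, hqτ, ha']
        rw [e]
        exact em_mem y
    refine ⟨Ideal.Quotient.mk _ a, ?_, ?_⟩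
    · change x - τ _ ∈ PP.lattice
      rw [hiff, ← SM_mk, SM_out]
      rfl
    · intro j hj
      have hj' : x - τ j ∈ PP.lattice := hj
      rw [hiff, ← SM_mk, SM_out] at hj'
      exact hj'.symm
  · rw [← absNorm_span, Ideal.absNorm_apply, Submodule.cardQuot_apply, Nat.card_eq_fintype_card]
    rfl
  · intro F
    rw [SM, finsum_eq_sum_of_fintype]
    rfl

theorem tr3 (hB : (2 : ℂ)⁻¹ ∉ B) : Tr3 B := by
  intro q z hz
  obtain ⟨ι, _, τ, h1, h2, h3, h4⟩ := exists_tau q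
  have h5 := h4 fun x => ze (z + x) * ze (lm * (z + x))
  rw [h5]
  exact v_sum_ze1 hB q h1 h2 h3 hz

theorem tr5 (hB : (2 : ℂ)⁻¹ ∉ B) : Tr5 B := by
  intro q z hz
  obtain ⟨ι, _, τ, h1, h2, h3, h4⟩ := exists_tau q
  have h5 := h4 fun x => ze (z + x) * ze (lm ^ 2 * (z + x))
  rw [h5]
  have h6 := v_sum_ze2 hB q h1 h2 h3 hz
  have e : ∀ x : ℂ, lm * (lm * x) = lm ^ 2 * x := fun x => by ring
  simp only [e] at h6
  exact h6

theorem tr1 (hB : (2 : ℂ)⁻¹ ∉ B) : Tr1 B := by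
  intro q z hz
  obtain ⟨ι, _, τ, h1, h2, h3, h4⟩ := exists_tau q
  have h5 := h4 fun x => xi (z + x) * xi (lm * (z + x))
  rw [h5]
  exact v_sum_xi1 hB q h1 h2 h3 hz

/-- **the sum of `ze (z) ze (lam z) + ze (lam z) ze (lam ^ 2 z)`** -/
theorem Rt_GX_ze3 (hB : (2 : ℂ)⁻¹ ∉ B) (h0 : aa q0.1 = 1)
    (hk : ∀ q : Pg, ¬ q.1 ∣ kap) (hq0 : q0 ∉ J) (hl0 : bb q0.1 = 0) (he : ∀ q ∈ J, ex q ≠ 0) :
    Rt B (GX q0 kap (wtB ex J) (fun z => ze z * ze (lm * z) + ze (lm * z) * ze (lm ^ 2 * z)) J)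
      (PHO q0 (fun q => aa q.1) J) := Rt_GX_h3 hB (tr3 hB) h0 hk hq0 hl0 he

/-- **the sum of `(ze z + ze (lam ^ 3 z)) (ze (lam z) + ze (lam ^ 2 z))`** -/
theorem Rt_GX_ze5 (hB : (2 : ℂ)⁻¹ ∉ B) (h0 : aa q0.1 = 1)
    (hk : ∀ q : Pg, ¬ q.1 ∣ kap) (hq0 : q0 ∉ J) (hl0 : bb q0.1 = 0) (hs : ∀ q ∈ J, s4 q0 q = 0)
    (he : ∀ q ∈ J, ex q ≠ 0) :
    Rt B (GX q0 kap (wtB ex J) (fun z => (ze z + ze (lm ^ 3 * z)) *
      (ze (lm * z) + ze (lm ^ 2 * z))) J)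
      (∑ r ∈ J, c2 r lam * Ham s4 (fun q => aa q.1 + bb q.1) J r) :=
  Rt_GX_h5 hB (tr3 hB) (tr5 hB) h0 hk hq0 hl0 hs he

/-- **the sum of `xi (lam ^ 2 z) (ze (lam z) + ze (lam ^ 2 z))`** -/
theorem v_GX_xi1 (hB : (2 : ℂ)⁻¹ ∉ B) (h0 : aa q0.1 = 1)
    (hk : ∀ q : Pg, ¬ q.1 ∣ kap) (hq0 : q0 ∉ J) (hl0 : bb q0.1 = 0) (hs : ∀ q ∈ J, s4 q0 q = 0)
    (he : ∀ q ∈ J, ex q ≠ 0) :
    B.valuation (GX q0 kap (wtB ex J) (fun z => xi (lm ^ 2 * z) *
      (ze (lm * z) + ze (lm ^ 2 * z))) J) < 1 := v_GX_p1 hB (tr1 hB) h0 hk hq0 hl0 hs he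

/-! ### Sums with constants -/

/-- the sum of the weights -/
theorem Rt_GX_one (hB : (2 : ℂ)⁻¹ ∉ B) (h0 : aa q0.1 = 1) (hk : ∀ q : Pg, ¬ q.1 ∣ kap)
    (hq0 : q0 ∉ J) (he : ∀ q ∈ J, ex q ≠ 0) :
    Rt B (GX q0 kap (wtB ex J) (fun _ => 1) J) (if J = ∅ then 1 else 0) := by
  let i1 := rsdAlg hB
  refine Rt_GX hB hk he (fun z _ => Subring.one_mem _) ?_
  have h1 := HO_one (R := IsLocalRing.ResidueField B) h0 hk hq0 (fun _ => 0)
  have h2 : (fun _ : ℂ => rsd B 1) = fun _ => (1 : IsLocalRing.ResidueField B) := by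
    funext _
    exact rsd_one
  rw [h2, h1]
  split_ifs
  · rw [one_smul]
  · rw [zero_smul]

/-- the sum of the weights, first order: the constant `1` contributes `lam ^ 2` at least if `J ≠ ∅` -/
theorem v_GX_one (hB : (2 : ℂ)⁻¹ ∉ B) (hk : ∀ q : Pg, ¬ q.1 ∣ kap) (hq0 : q0 ∉ J)
    (he : ∀ q ∈ J, ex q ≠ 0) (hJ : J.Nonempty) :
    B.valuation (GX q0 kap (wtB ex J) (fun _ => 1) J) ≤ B.valuation lm ^ 2 := by
  refine (v_GX_wtB_one hB hk hq0 he).trans ?_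
  refine pow_le_pow_right_of_le_one' (v_lm_lt hB).le ?_
  obtain ⟨q, hq⟩ := hJ
  refine le_trans ?_ (Finset.single_le_sum (f := fun q => 4 - mq (ex q)) (fun _ _ => Nat.zero_le _) hq)
  have := mq_le (ex q)
  change 2 ≤ 4 - mq (ex q)
  omega

/-! ### The four cases of the class J2b -/

/-- the expansion -/
def TZ (a b c : ℂ) (z : ℂ) : ℂ := (1 + lm * a) * (xi (lm * z) + xi (lm ^ 3 * z)) +
  lm * (b + (ze z + ze (lm ^ 3 * z)) * (ze (lm * z) + ze (lm ^ 2 * z)) +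
    c * (xi (lm ^ 2 * z) * (ze (lm * z) + ze (lm ^ 2 * z))))

/-- **the path sum of the class J2b** -/
theorem Rt_GX_TZ (hB : (2 : ℂ)⁻¹ ∉ B) (h0 : aa q0.1 = 1)
    (hk : ∀ q : Pg, ¬ q.1 ∣ kap) (hq0 : q0 ∉ J) (hl0 : bb q0.1 = 0) (hs : ∀ q ∈ J, s4 q0 q = 0)
    (he : ∀ q ∈ J, ex q ≠ 0) {a b c : ℂ} {b' : ZMod 2} (ha : B.valuation a ≤ 1) (hb : Rt B b b')
    (hc : B.valuation c ≤ 1) {f : ℂ → ℂ}
    (hf : ∀ z, Od z → B.valuation (f z - TZ a b c z) < B.valuation lm) :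
    Rt B (GX q0 kap (wtB ex J) f J / lm)
      ((if J = ∅ then b' else 0) + ∑ r ∈ J, c2 r lam * Ham s4 (fun q => aa q.1 + bb q.1) J r) := by
  have hlm := lm_ne
  have hv0 : (0 : B.ValueGroup) < B.valuation lm := zero_lt_iff.2 ((Valuation.ne_zero_iff _).2 hlm)
  set W : (ℂ → ℂ) → ℂ := fun g => GX q0 kap (wtB ex J) g J with hW
  have hadd : ∀ g g' : ℂ → ℂ, W (fun z => g z + g' z) = W g + W g' := fun g g' => GX_fadd _ _ _
  have hmul : ∀ (c : ℂ) (g : ℂ → ℂ), W (fun z => c * g z) = c * W g := fun c g => GX_fcmul _ _ _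
  have e1 : W f = W (fun z => f z - TZ a b c z) + ((1 + lm * a) *
      W (fun z => xi (lm ^ 1 * z) + xi (lm ^ (1 + 2) * z)) + lm * (b * W (fun _ => 1) +
      W (fun z => (ze z + ze (lm ^ 3 * z)) * (ze (lm * z) + ze (lm ^ 2 * z))) +
      c * W (fun z => xi (lm ^ 2 * z) * (ze (lm * z) + ze (lm ^ 2 * z))))) := by
    rw [← hmul b, ← hmul c, ← hadd, ← hadd, ← hmul, ← hmul, ← hadd, ← hadd]
    congr 1
    funext z
    simp only [TZ, pow_one]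
    ring
  have v1 : B.valuation (W (fun z => f z - TZ a b c z) / lm) < 1 := by
    rw [map_div₀, div_lt_one₀ hv0]
    exact v_GX_ltB hB hk he hv0 hf
  have v2 : B.valuation ((1 + lm * a) *
      (W (fun z => xi (lm ^ 1 * z) + xi (lm ^ (1 + 2) * z)) / lm)) < 1 := by
    rw [map_mul, map_div₀]
    have h1 : B.valuation (1 + lm * a) ≤ 1 := by
      refine (Valuation.map_add _ _ _).trans (max_le (by rw [map_one]) ?_)
      rw [map_mul]
      exact mul_le_one' (v_lm_lt hB).le ha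
    rw [mul_comm]
    refine mul_lt_one_of_lt_of_le ?_ h1
    rw [div_lt_one₀ hv0]
    exact v_GX_first hB h0 hk hq0 hl0 hs he 1
  have v3 : B.valuation (c * W (fun z => xi (lm ^ 2 * z) * (ze (lm * z) + ze (lm ^ 2 * z)))) < 1 := by
    rw [map_mul, mul_comm]
    exact mul_lt_one_of_lt_of_le (v_GX_xi1 hB h0 hk hq0 hl0 hs he) hc
  have r1 := (hb.mul hB (Rt_GX_one (ex := ex) (J := J) hB h0 hk hq0 he)).add hB
    (Rt_GX_ze5 (ex := ex) hB h0 hk hq0 hl0 hs he)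
  have e2 : b' * (if J = ∅ then 1 else 0) = if J = ∅ then b' else 0 := by
    split_ifs <;> simp
  rw [e2] at r1
  have e3 : GX q0 kap (wtB ex J) f J / lm - (b * W (fun _ => 1) +
      W (fun z => (ze z + ze (lm ^ 3 * z)) * (ze (lm * z) + ze (lm ^ 2 * z)))) =
      W (fun z => f z - TZ a b c z) / lm + ((1 + lm * a) *
      (W (fun z => xi (lm ^ 1 * z) + xi (lm ^ (1 + 2) * z)) / lm) +
      c * W (fun z => xi (lm ^ 2 * z) * (ze (lm * z) + ze (lm ^ 2 * z)))) := by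
    change W f / lm - _ = _
    rw [e1]
    field_simp
    ring
  refine r1.congr ?_
  change B.valuation (GX q0 kap (wtB ex J) f J / lm - (b * W (fun _ => 1) +
      W (fun z => (ze z + ze (lm ^ 3 * z)) * (ze (lm * z) + ze (lm ^ 2 * z))))) < 1
  rw [e3]
  exact Valuation.map_add_lt _ v1 (Valuation.map_add_lt _ v2 v3)

end

end Pool.Agent.Lib.MP_1a91b9_ntQ
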