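import Pool.Agent.Lib.MP_1a91b9_ntQ.B.InYo
import Pool.Agent.Lib.MP_1a91b9_ntQ.B.PthT

/-!
# Quartic twists, all fourth-power-free `D`, class J2d, `h` odd, file InYp: the totals and the value

The classes of the totals of `DdO` as path sums, the value of the coefficient `wO` and the passage from
the two families to the normalised value at `1`.
-/

set_option autoImplicit false

namespace Pool.Agent.Lib.MP_1a91b9_ntQ

open NumberField Pool.Agent.Lib.MP_1a91b9_nuT Pool.Agent.Lib.MP_1a91b9_nuT.S3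
  Pool.Agent.Lib.MP_1a91b9_nuT.Ell

noncomputable section

variable {B : ValuationSubring ℂ} {k h h' : ZMod 4} {f : ℂ → ℂ} {q0 : Pg} {e : Pg → ZMod 4}
  {T J : Finset Pg}

/-! ### The function which is subtracted -/

theorem v_uO_le (hB : (2 : ℂ)⁻¹ ∉ B) {c : ℂ} (hc : B.valuation c ≤ 1)
    (hf : ∀ z, Od z → B.valuation (f z - 1) ≤ B.valuation lm) {z : ℂ} (hz : Od z) :
    B.valuation (uO c f z) ≤ 1 := by
  have hl0 := v_lm_pos (B := B)
  have hl := lm_ne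
  have h1 := hf _ (hz.pow 1)
  have h2 := hf _ (hz.pow 2)
  have e1 : uO c f z = c * (f (lm ^ 2 * z) - 1) + c + ((f (lm ^ 1 * z) - 1) / lm +
      (f (lm ^ 2 * z) - 1) / lm + lm * (2 / lm ^ 2)) := by
    rw [uO]
    field_simp
    ring
  have a1 : B.valuation (2 / lm ^ 2) ≤ 1 := by
    rw [map_div₀, map_pow, v_lm_sq, div_self]
    rw [← v_lm_sq]
    exact pow_ne_zero 2 hl0.ne'
  have a2 : B.valuation ((f (lm ^ 1 * z) - 1) / lm) ≤ 1 := by
    rw [map_div₀, div_le_one₀ hl0]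
    exact h1
  have a3 : B.valuation ((f (lm ^ 2 * z) - 1) / lm) ≤ 1 := by
    rw [map_div₀, div_le_one₀ hl0]
    exact h2
  have hl1 := (v_lm_lt (B := B) hB).le
  rw [e1]
  refine (Valuation.map_add _ _ _).trans (max_le ((Valuation.map_add _ _ _).trans (max_le ?_ hc))
    ((Valuation.map_add _ _ _).trans (max_le ((Valuation.map_add _ _ _).trans (max_le a2 a3)) ?_)))
  · rw [map_mul]
    exact mul_le_one' hc (h2.trans hl1)
  · rw [map_mul]
    exact mul_le_one' hl1 a1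

/-- for a function which is congruent to `1` -/
theorem f1_lt (hB : (2 : ℂ)⁻¹ ∉ B) (hf : ∀ z, Od z → B.valuation (f z - 1) ≤ B.valuation lm) :
    ∀ z, Od z → B.valuation (f z - 1) < 1 := fun z hz => (hf z hz).trans_lt (v_lm_lt hB)

/-! ### The path sums -/

theorem PHO_nXB (g : Pg → ZMod 2) (J : Finset Pg) :
    PHO q0 g J = ∑ i ∈ J, bb i.1 * Ham (nXB q0) g J i := by
  refine Finset.sum_congr rfl fun i _ => ?_
  rw [c2_lam]
  rfl

theorem PHO_add (g g' : Pg → ZMod 2) (J : Finset Pg) :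
    PHO q0 (fun q => g q + g' q) J = PHO q0 g J + PHO q0 g' J := by
  rw [PHO, PHO, PHO, ← Finset.sum_add_distrib]
  exact Finset.sum_congr rfl fun i _ => by rw [Ham_addf, mul_add]

theorem PHO_empty (g : Pg → ZMod 2) : PHO q0 g ∅ = 0 := Finset.sum_empty

/-- the product part -/
def pZo (z : ℂ) : ℂ := ze z * ze (lm * z) + ze (lm * z) * ze (lm ^ 2 * z)

section
variable (hB : (2 : ℂ)⁻¹ ∉ B) (h0 : aa q0.1 = 1) (hq0 : q0 ∉ J) (hl0 : bb q0.1 = 0)
  (he : ∀ q ∈ J, e q ≠ 0)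

include hB h0 hq0 hl0 he

theorem Rt_pZo : Rt B (GX q0 (fB k 2) (wtB e J) pZo J) (PHO q0 (fun q => aa q.1) J) :=
  Rt_GX_h3 hB (tr3 hB) h0 (fB_ndvd k 2) hq0 hl0 he

theorem Rt_zO (n : ℕ) : Rt B (GX q0 (fB k 2) (wtB e J) (fun z => ze (lm ^ n * z)) J)
    (PHO q0 (s4 q0) J) := Rt_GX_ze hB h0 (fB_ndvd k 2) hq0 hl0 he n

/-- one term -/
theorem Rt_gO1 (n : ℕ) : Rt B (GX q0 (fB k 2) (wtB e J) (fun z => pZo z + ze (lm ^ n * z)) J)
    (PHO q0 (fun q => aa q.1 + s4 q0 q) J) := by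
  rw [GX_fadd, PHO_add]
  exact (Rt_pZo hB h0 hq0 hl0 he).add hB (Rt_zO hB h0 hq0 hl0 he n)

/-- one term and the constant -/
theorem Rt_gO2 (n : ℕ) :
    Rt B (GX q0 (fB k 2) (wtB e J) (fun z => (pZo z + ze (lm ^ n * z)) + 1) J)
      (PHO q0 (fun q => aa q.1 + s4 q0 q) J + if J = ∅ then 1 else 0) := by
  rw [GX_fadd]
  exact (Rt_gO1 hB h0 hq0 hl0 he n).add hB (Rt_GX_oneO hB h0 hq0 he)

/-- two terms -/
theorem Rt_gO3 (n m : ℕ) :
    Rt B (GX q0 (fB k 2) (wtB e J) (fun z => (pZo z + ze (lm ^ n * z)) + ze (lm ^ m * z)) J)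
      (PHO q0 (fun q => aa q.1) J) := by
  rw [GX_fadd]
  have h1 := (Rt_gO1 (k := k) hB h0 hq0 hl0 he n).add hB (Rt_zO (k := k) hB h0 hq0 hl0 he m)
  rw [PHO_add, add_assoc] at h1
  have key : ∀ x : ZMod 2, x + x = 0 := by decide
  rwa [key, add_zero] at h1

end

/-! ### The coefficient -/

theorem Rt_wO2 (hB : (2 : ℂ)⁻¹ ∉ B) {t : ZMod 4} (ht : md t = 0) :
    Rt B (wO 0 t / lm) (if t = 0 then 1 else 0) := by
  have hl := lm_ne
  have key : ∀ t : ZMod 4, md t = 0 → t = 0 ∨ t = 2 := by decide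
  rcases key t ht with rfl | rfl
  · rw [if_pos rfl]
    have h1 : Rt B (-(2 / lm ^ 2)) 1 := by
      have e1 : -((2 : ℂ) / lm ^ 2) = zt := by
        rw [lm_sq, neg_div', div_eq_iff (mul_ne_zero two_ne_zero zt_ne0)]
        linear_combination -2 * zt_sq
      rw [e1]
      exact Rt_ztX hB
    have h2 := h1.neg hB
    have e2 : wO 0 0 / lm = - -(2 / lm ^ 2) := by
      rw [wO, mul_zero, neg_zero, e4_zero]
      field_simp
      ring
    rw [e2]
    exact h2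
  · rw [if_neg (by decide)]
    have e2 : wO 0 2 / lm = 0 := by
      have a1 : -(2 * (2 : ZMod 4)) = 0 := by decide
      have a2 : -(2 : ZMod 4) = 2 := by decide
      rw [wO, a1, a2, e4_zero, e4_two]
      ring
    rw [e2]
    exact Rt.zero

theorem Rt_wO0 (hB : (2 : ℂ)⁻¹ ∉ B) {t : ZMod 4} (ht : md t = 1) :
    Rt B (wO (1 + lm) t / lm) (if t = 1 then 1 else 0) := by
  have hl := lm_ne
  have key : ∀ t : ZMod 4, md t = 1 → t = 1 ∨ t = 3 := by decide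
  have h3 : Rt B (2 / lm) 0 := by
    have e1 : (2 : ℂ) / lm = lm * -zt := by
      rw [div_eq_iff hl]
      linear_combination zt * lm_sq + 2 * zt_sq
    rw [e1]
    have h1 := (Rt_lm hB).mul hB ((Rt_ztX hB).neg hB)
    rwa [zero_mul] at h1
  have hlz : lm = 1 + zt := rfl
  rcases key t ht with rfl | rfl
  · rw [if_pos rfl]
    have e2 : wO (1 + lm) 1 / lm = -1 - 2 / lm := by
      have a1 : -(2 * (1 : ZMod 4)) = 2 := by decide
      have a2 : -(1 : ZMod 4) = 3 := by decide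
      rw [wO, a1, a2, e4_two, e4_three]
      field_simp
      rw [hlz]
      ring
    rw [e2]
    have h4 := (Rt.one.neg hB).sub hB h3
    rw [sub_zero] at h4
    exact h4
  · rw [if_neg (by decide)]
    have e2 : wO (1 + lm) 3 / lm = -(2 / lm) := by
      have a1 : -(2 * (3 : ZMod 4)) = 2 := by decide
      have a2 : -(3 : ZMod 4) = 1 := by decide
      rw [wO, a1, a2, e4_two, e4_one]
      field_simp
      rw [hlz]
      linear_combination (-1) * zt_sq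
    rw [e2]
    exact h3.neg hB

/-- the exponent of the full character at `lam` -/
theorem bkB_lam_full (hl0 : bb q0.1 = 0) {S : Finset Pg} (hS : h + ∑ q ∈ S, e q * nn q.1 = 0) :
    bkB q0 e (h + 2) S lam = ∑ p ∈ S, e p * c4 p lam := by
  rw [bkB]
  linear_combination (-(nn q0.1 * c4 q0 lam)) * hS - nn q0.1 * two_c4_lam hl0

/-! ### The value -/

/-- **from the two families to the sums** -/
theorem Rt_LaJ_odd (hB : (2 : ℂ)⁻¹ ∉ B) {c N : ℂ} {m : ℕ} {T A : Finset Pg} {yD yL w : ZMod 2}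
    (hD : Rt B (DdO k h c N f q0 e T A / lm ^ m) yD) (hL : Rt B (LaO k f q0 e T A / lm ^ m) yL)
    (hw : Rt B (wO c (bkB q0 e (h + 2) (T ∪ A) lam) / lm) w) :
    Rt B (LaJ k 2 h q0 e T A / (N * lm ^ m * lm)) (yD + w * yL) := by
  have hl := lm_ne
  have h1 : Rt B (PO2 k (T ∪ A)) 1 := by
    rw [PO2_eq]
    exact Rt_sgz hB _
  have h2 : PO2 k (T ∪ A) * PO2 k (T ∪ A) = 1 := by
    rw [PO2_eq]
    exact sgz_mul_self _
  have h3 := h1.mul hB (hD.add hB (hw.mul hB hL))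
  rw [one_mul] at h3
  have e1 : PO2 k (T ∪ A) * (DdO k h c N f q0 e T A / lm ^ m +
      wO c (bkB q0 e (h + 2) (T ∪ A) lam) / lm * (LaO k f q0 e T A / lm ^ m)) =
      LaJ k 2 h q0 e T A / (N * lm ^ m * lm) := by
    rw [DdO]
    have e2 : PO2 k (T ∪ A) * ((PO2 k (T ∪ A) * LaJ k 2 h q0 e T A / N -
        wO c (bkB q0 e (h + 2) (T ∪ A) lam) * LaO k f q0 e T A) / lm / lm ^ m +
        wO c (bkB q0 e (h + 2) (T ∪ A) lam) / lm * (LaO k f q0 e T A / lm ^ m)) =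
        (PO2 k (T ∪ A) * PO2 k (T ∪ A)) * (LaJ k 2 h q0 e T A / (N * lm ^ m * lm)) := by
      rw [div_eq_mul_inv _ (N * lm ^ m * lm), mul_inv, mul_inv]
      ring
    rw [e2, h2, one_mul]
  rwa [e1] at h3

/-- **from the two families to the value** -/
theorem Rt_LaB_odd (hB : (2 : ℂ)⁻¹ ∉ B) (hk : k = 0 ∨ k = 2) (h0 : aa q0.1 = 1)
    {S0 B0 : Finset Pg} (hd : Disjoint S0 B0) (he : ∀ q ∈ S0, md (e q) ≠ 0)
    (he2 : ∀ q ∈ B0, e q = 2) (hq : q0 ∉ S0 ∪ B0) (hS : h + ∑ q ∈ S0 ∪ B0, e q * nn q.1 = 0)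
    (hs1 : ∑ p ∈ S0, s4 q0 p = 1) {c c' : ℂ} (hc' : Rt B c' 1) {m : ℕ} {yD yL w : ZMod 2}
    (hD : Rt B (DdO k h c (LaB k 2 e ∅ * lm ^ 2 * c') f q0 e S0 B0 / lm ^ m) yD)
    (hL : Rt B (LaO k f q0 e S0 B0 / lm ^ m) yL)
    (hw : Rt B (wO c (bkB q0 e (h + 2) (S0 ∪ B0) lam) / lm) w) :
    Rt B (LaB k 2 e (S0 ∪ B0) / (LaB k 2 e ∅ * lm ^ (m + 2))) (yD + w * yL) := by
  have h1 := Rt_LaJ_odd hB hD hL hw
  have h2 := Rt_LaJ_of hB k 2 h0 hd he he2 hq hS (by rw [kapB_J2e hk, zero_add, hs1]) h1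
  have h3 := h2.mul hB hc'
  have hc0 : c' ≠ 0 := hc'.ne_zero one_ne_zero
  have e1 : LaB k 2 e (S0 ∪ B0) / (LaB k 2 e ∅ * lm ^ 2 * c' * lm ^ m) * c' =
      LaB k 2 e (S0 ∪ B0) / (LaB k 2 e ∅ * lm ^ (m + 2)) := by
    have e2 : LaB k 2 e ∅ * lm ^ 2 * c' * lm ^ m = LaB k 2 e ∅ * lm ^ (m + 2) * c' := by
      rw [pow_add]
      ring
    rw [e2, div_mul_eq_mul_div, mul_div_mul_right _ _ hc0]
  rwa [e1, mul_one] at h3

end

end Pool.Agent.Lib.MP_1a91b9_ntQ
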