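import Pool.Agent.Lib.MP_1a91b9_ntQ.C.LocQ
import Pool.Agent.Lib.MP_1a91b9_ntQ.C.LocX4

/-!
# MP_1a91b9_nt (quartic twists), part B: the local images of `y² = x³ - D x` at `lam` when the
valuation of `D` is `2` or `3`
-/

set_option autoImplicit false
set_option linter.unusedSectionVars false
set_option linter.unusedVariables false

namespace Pool.Agent.Lib.MP_1a91b9_ntQ.C

open WithZero
open Pool.Agent.Lib.MP_1a91b9_ntH.C (Sq exists_nu isSquare_exp nu_one)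

noncomputable section

variable {L : Type*} [Field L] [CharZero L] {ν : Valuation L ℤᵐ⁰}

/-- the points with `ν x` at least `1`: `x (1 - D / x²)` is a square -/
theorem locB_big {D x : L} (hx0 : x ≠ 0) (hx : Sq ν (x * (x ^ 2 - D))) :
    Sq ν (x * (1 - D / x ^ 2)) := by
  refine Sq.of_mul_sq hx0 ?_
  have e : x * (1 - D / x ^ 2) * x ^ 2 = x * (x ^ 2 - D) := by field_simp
  rwa [e]

/-- the translation by `(0, 0)` -/
theorem locB_flip {i D x : L} (hi : i ^ 2 = -1) (hD0 : D ≠ 0) (hx0 : x ≠ 0)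
    (hx : Sq ν (x * (x ^ 2 - D))) : Sq ν (-D / x * ((-D / x) ^ 2 - D)) := by
  have e : -D / x * ((-D / x) ^ 2 - D) * (x ^ 2 / D) ^ 2 = x * (x ^ 2 - D) := by
    field_simp
    ring
  refine Sq.of_mul_sq (div_ne_zero (pow_ne_zero 2 hx0) hD0) ?_
  rwa [e]

theorem locB_flip' {i D x a : L} (hi : i ^ 2 = -1) (hD0 : D ≠ 0) (hx0 : x ≠ 0)
    (h : Sq ν (a * x)) : Sq ν (a * D * (-D / x)) := by
  refine Sq.neg' hi ?_
  have e : -(a * D * (-D / x)) = a * x * (D / x) ^ 2 := by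
    field_simp
  rw [e]
  refine Sq.of_mul_sq (div_ne_zero hx0 hD0) ?_
  have e2 : a * x * (D / x) ^ 2 * (x / D) ^ 2 = a * x := by field_simp
  rwa [e2]

/-! ### the valuation of `D` is `3` -/

/-- **J3**: `a` or `a D` is a square modulo `lam ^ 3` -/
theorem loc_three {i D a : L} (hi : i ^ 2 = -1) (h2 : ν 2 = exp (-2)) (hD : ν D = exp (-3))
    (h : GLoc4 ν D a) :
    CG ν (exp (-((3 : ℕ) : ℤ))) a ∨ CG ν (exp (-((3 : ℕ) : ℤ))) (a * D) := by
  have h4 := nu_four4_le h2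
  have h43 := four_le_exp3 h2
  have hγ := exp3_lt
  have hD0 : D ≠ 0 := by
    rintro rfl
    rw [map_zero] at hD
    exact exp_ne_zero hD.symm
  have key : ∀ x : L, x ≠ 0 → 1 ≤ ν x → Sq ν (x * (x ^ 2 - D)) →
      CG ν (exp (-((3 : ℕ) : ℤ))) x := by
    intro x hx0 hx1 hx
    refine (CG.of_sq h43 (locB_big hx0 hx)).cancel hγ (CG.one ?_)
    have e : 1 - D / x ^ 2 - 1 = -(D / x ^ 2) := by ring
    obtain ⟨n, hn⟩ := exists_nu ν hx0
    rw [hn, ← exp_zero, exp_le_exp] at hx1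
    rw [e, Valuation.map_neg, map_div₀, hD, map_pow, hn, ← exp_nsmul, ← exp_sub, exp_le_exp]
    simp only [nsmul_eq_mul, Nat.cast_ofNat]
    omega
  rcases h with h | h | ⟨x, hx0, hx, h⟩ | ⟨x, hx0, hx, h⟩
  · exact Or.inl (CG.of_sq h43 h)
  · exact Or.inr (CG.of_sq h43 h)
  · exfalso
    have h16 : ν 16 < ν 4 := by
      have e : (16 : L) = 4 * 4 := by norm_num
      rw [e, map_mul, nu_four4 h2, ← exp_add, exp_lt_exp]
      norm_num
    have h1 : ν (x ^ 2 / D) = 1 := by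
      have := ν.map_one_add_of_lt (x := x ^ 2 / D - 1) (hx.trans (h16.trans h4))
      rwa [add_sub_cancel] at this
    obtain ⟨n, hn⟩ := exists_nu ν hx0
    rw [map_div₀, hD, map_pow, hn, div_eq_one_iff_eq exp_ne_zero, ← exp_nsmul, exp_inj] at h1
    simp only [nsmul_eq_mul, Nat.cast_ofNat] at h1
    omega
  · by_cases hx1 : 1 ≤ ν x
    · exact Or.inl ((CG.of_sq h43 h).cancel hγ (key x hx0 hx1 hx))
    · right
      obtain ⟨n, hn⟩ := exists_nu ν hx0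
      rw [not_le, hn, ← exp_zero, exp_lt_exp] at hx1
      -- the value of `x` is at most `exp (-3)`
      have hn3 : n ≤ -3 := by
        have hev := hx.even h4.le
        have hxx : x ^ 2 - D ≠ 0 := fun h => hx.ne h4.le (by rw [h, mul_zero])
        rcases lt_or_ge n (-1) with h5 | h5
        · have h3 : ν (x ^ 2) < ν D := by
            rw [map_pow, hn, hD, ← exp_nsmul, exp_lt_exp]
            simp only [nsmul_eq_mul, Nat.cast_ofNat]
            omega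
          rw [map_mul, nu_subr h3, hn, hD, ← exp_add, isSquare_exp] at hev
          obtain ⟨r, hr⟩ := hev
          omega
        · have h3 : ν D < ν (x ^ 2) := by
            rw [map_pow, hn, hD, ← exp_nsmul, exp_lt_exp]
            simp only [nsmul_eq_mul, Nat.cast_ofNat]
            omega
          rw [map_mul, nu_subl h3, map_pow, hn, ← exp_nsmul, ← exp_add, isSquare_exp] at hev
          simp only [nsmul_eq_mul, Nat.cast_ofNat] at hev
          obtain ⟨r, hr⟩ := hev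
          omega
      have hx0' : -D / x ≠ 0 := div_ne_zero (neg_ne_zero.2 hD0) hx0
      have hx1' : 1 ≤ ν (-D / x) := by
        rw [map_div₀, Valuation.map_neg, hD, hn, ← exp_sub, ← exp_zero, exp_le_exp]
        omega
      exact (CG.of_sq h43 (locB_flip' hi hD0 hx0 h)).cancel hγ
        (key _ hx0' hx1' (locB_flip hi hD0 hx0 hx))

/-! ### the valuation of `D` is `2` -/

/-- the points with `ν x` at least `1` -/
theorem loc_two_pt {i D D₁ x : L} (hi : i ^ 2 = -1) (h2 : ν 2 = exp (-2))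
    (hres : ∀ x : L, ν x = 1 → ν (x - 1) < 1) (hD : D = (1 + i) ^ 2 * D₁) (hD1 : ν D₁ = 1)
    (hx1 : 1 ≤ ν x) (hx0 : x ≠ 0) (hx : Sq ν (x * (x ^ 2 - D))) :
    Sq ν x ∨ Sq ν (x * (1 - D)) := by
  have h4 := nu_four4_le h2
  have hl := nu_lam2 hi h2
  have hi1 := (nu_i (ν := ν) hi).le
  have h11 : ν (1 : L) ≤ 1 := (map_one ν).le
  have hl1 : ν (1 + i) ≤ 1 := by
    rw [hl, ← exp_zero, exp_le_exp]
    norm_num
  have hνD : ν D = exp (-2) := by
    rw [hD, map_mul, hD1, mul_one, nu_lpow hl]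
    norm_num
  have hev := hx.even h4.le
  obtain ⟨n, hn⟩ := exists_nu ν hx0
  rw [hn, ← exp_zero, exp_le_exp] at hx1
  have h3 : ν D < ν (x ^ 2) := by
    rw [map_pow, hn, hνD, ← exp_nsmul, exp_lt_exp]
    simp only [nsmul_eq_mul, Nat.cast_ofNat]
    omega
  rw [map_mul, nu_subl h3, map_pow, hn, ← exp_nsmul, ← exp_add, isSquare_exp] at hev
  simp only [nsmul_eq_mul, Nat.cast_ofNat] at hev
  obtain ⟨r, hr⟩ := odd_three hev
  have h5 := locB_big hx0 hx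
  rcases hx1.lt_or_eq with h0 | h0
  · left
    have h6 : Sq ν (1 - D / x ^ 2) := by
      refine Sq.one ?_
      have e : 1 - D / x ^ 2 - 1 = -(D / x ^ 2) := by ring
      rw [e, Valuation.map_neg, map_div₀, hνD, map_pow, hn, ← exp_nsmul, nu_four4 h2, ← exp_sub,
        exp_lt_exp]
      simp only [nsmul_eq_mul, Nat.cast_ofNat]
      omega
    exact h5.cancel h4.le h6
  · right
    rw [← h0, exp_zero] at hn
    obtain ⟨m, t, ht, hxe⟩ := unit4 hi h2 hres hn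
    rcases Nat.even_or_odd m with hm | hm
    · obtain ⟨s, hsd⟩ : ∃ s : L, s = -i * t + (1 + i) * t ^ 2 := ⟨_, rfl⟩
      have hs : ν s ≤ 1 := by
        rw [hsd]
        exact nu_add_le (nu_mul_le (nu_neg_le' hi1) ht) (nu_mul_le hl1 (nu_pow_le' ht 2))
      have hx2 : x ^ 2 = 1 + (1 + i) ^ 5 * s := by
        rw [hxe, sq_unit4 hi, hsd, hm.neg_one_pow]
        ring
      refine Sq.congr' h4.le h5 ?_
      have hlt : ν (D / x ^ 2) < 1 := by
        rw [map_div₀, map_pow, hn, one_pow, div_one, hνD, ← exp_zero, exp_lt_exp]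
        norm_num
      have h10 : ν (1 - D / x ^ 2) = 1 := by
        rw [nu_subl, map_one]
        rwa [map_one]
      have h11' : (1 - D / x ^ 2) ≠ 0 := (Valuation.ne_zero_iff ν).1 (by rw [h10]; exact one_ne_zero)
      have e : x * (1 - D) / (x * (1 - D / x ^ 2)) - 1 =
          -(D * (x ^ 2 - 1) / x ^ 2 / (1 - D / x ^ 2)) := by
        rw [div_sub_one (mul_ne_zero hx0 h11'), eq_comm, ← neg_div,
          div_eq_div_iff h11' (mul_ne_zero hx0 h11')]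
        field_simp
        ring
      have h12 : x ^ 2 - 1 = (1 + i) ^ 5 * s := by
        rw [hx2]
        ring
      rw [e, Valuation.map_neg, map_div₀, map_div₀, map_mul, h10, map_pow, hn, one_pow, div_one,
        div_one, hνD, h12, nu_four4 h2]
      calc exp (-2) * ν ((1 + i) ^ 5 * s) ≤ exp (-2) * exp (-((5 : ℕ) : ℤ)) := by
            gcongr
            exact mul_le_exp (nu_lpow hl 5) hs
        _ < exp (-4) := by
          rw [← exp_add, exp_lt_exp]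
          norm_num
    · exfalso
      have hx' : ν x⁻¹ = 1 := by rw [map_inv₀, hn, inv_one]
      have him : i ^ m ≠ 0 := pow_ne_zero _ (i_ne hi)
      have him1 : ν (i ^ m)⁻¹ ≤ 1 := by rw [map_inv₀, nu_ipow hi, inv_one]
      have e : x * (1 - D / x ^ 2) = i ^ m * (1 + (1 + i) ^ 2 *
          ((1 + i) * t - D₁ * x⁻¹ * (i ^ m)⁻¹)) := by
        have e1 : x * (1 - D / x ^ 2) = x - D * x⁻¹ := by field_simp
        have e2 : i ^ m * (1 + (1 + i) ^ 2 * ((1 + i) * t - D₁ * x⁻¹ * (i ^ m)⁻¹)) =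
            i ^ m * (1 + (1 + i) ^ 3 * t) - (1 + i) ^ 2 * D₁ * x⁻¹ := by
          field_simp
          ring
        rw [e1, e2, ← hxe, hD]
      have h6 := C4.of_sq h5
      rw [e] at h6
      have h7 := even_of_C4 hi h2 hres (nu_sub_le' (nu_mul_le hl1 ht)
        (nu_mul_le (nu_mul_le hD1.le hx'.le) him1)) h6
      exact (Nat.not_even_iff_odd.2 hm) h7

/-- the reduction when the valuation of `D` is `2` -/
theorem loc_two {i D D₁ a : L} (hi : i ^ 2 = -1) (h2 : ν 2 = exp (-2))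
    (hres : ∀ x : L, ν x = 1 → ν (x - 1) < 1) (hD : D = (1 + i) ^ 2 * D₁) (hD1 : ν D₁ = 1)
    (h : GLoc4 ν D a) :
    (∃ e : ℕ, e < 2 ∧ (Sq ν (a * D ^ e) ∨ Sq ν (a * D ^ e * (1 - D)))) ∨
      ∃ x : L, ν x = 1 ∧ Sq ν (a * ((1 + i) * x)) ∧
        (ν (x ^ 2 - D₁) < exp (-8) ∨ Sq ν ((1 + i) * x * (x ^ 2 - D₁))) := by
  have h4 := nu_four4_le h2
  have hl := nu_lam2 hi h2
  have hl0 : (1 + i) ≠ 0 := by
    rw [← ν.ne_zero_iff, hl]
    exact exp_ne_zero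
  have hνD : ν D = exp (-2) := by
    rw [hD, map_mul, hD1, mul_one, nu_lpow hl]
    norm_num
  have hD0 : D ≠ 0 := by
    rintro rfl
    rw [map_zero] at hνD
    exact exp_ne_zero hνD.symm
  have hD10 : D₁ ≠ 0 := by
    rintro rfl
    rw [map_zero] at hD1
    exact zero_ne_one hD1
  have h16 : ν 16 = exp (-8) := by
    have e : (16 : L) = 4 * 4 := by norm_num
    rw [e, map_mul, nu_four4 h2, ← exp_add]
    norm_num
  rcases h with h | h | ⟨x, hx0, hx, h⟩ | ⟨x, hx0, hx, h⟩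
  · exact Or.inl ⟨0, by norm_num, Or.inl (by rwa [pow_zero, mul_one])⟩
  · exact Or.inl ⟨1, by norm_num, Or.inl (by rwa [pow_one])⟩
  · right
    obtain ⟨y, hy⟩ : ∃ y : L, x = (1 + i) * y := ⟨x / (1 + i), by field_simp⟩
    have h1 : ν (x ^ 2 / D) = 1 := by
      have h16' : ν 16 < 1 := by
        rw [h16, ← exp_zero, exp_lt_exp]
        norm_num
      have := ν.map_one_add_of_lt (x := x ^ 2 / D - 1) (hx.trans h16')
      rwa [add_sub_cancel] at this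
    have e : x ^ 2 / D = y ^ 2 / D₁ := by
      rw [hy, hD]
      field_simp
    rw [e] at h1 hx
    have hy1 : ν y = 1 := by
      rw [map_div₀, hD1, div_one, map_pow] at h1
      exact (pow_eq_one_iff_of_nonneg zero_le (by norm_num)).1 h1
    refine ⟨y, hy1, by rwa [← hy], Or.inl ?_⟩
    have e2 : y ^ 2 / D₁ - 1 = (y ^ 2 - D₁) / D₁ := by field_simp
    rwa [e2, map_div₀, hD1, div_one, h16] at hx
  · obtain ⟨n, hn⟩ := exists_nu ν hx0
    rcases lt_trichotomy n (-1) with h0 | h0 | h0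
    · -- `- D / x`
      left
      have hx0' : -D / x ≠ 0 := div_ne_zero (neg_ne_zero.2 hD0) hx0
      have hx1' : 1 ≤ ν (-D / x) := by
        rw [map_div₀, Valuation.map_neg, hνD, hn, ← exp_sub, ← exp_zero, exp_le_exp]
        omega
      have hax := locB_flip' hi hD0 hx0 h
      refine ⟨1, by norm_num, ?_⟩
      rw [pow_one]
      rcases loc_two_pt hi h2 hres hD hD1 hx1' hx0' (locB_flip hi hD0 hx0 hx) with h1 | h1
      · exact Or.inl (hax.cancel h4.le h1)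
      · exact Or.inr (Sq.trans' h4.le hax h1)
    · right
      obtain ⟨y, hy⟩ : ∃ y : L, x = (1 + i) * y := ⟨x / (1 + i), by field_simp⟩
      have hy1 : ν y = 1 := by
        have h5 := congrArg ν hy
        rw [hn, h0, map_mul, hl] at h5
        exact mul_left_cancel₀ exp_ne_zero (by rw [← h5, mul_one])
      refine ⟨y, hy1, by rwa [← hy], Or.inr ?_⟩
      refine Sq.of_mul_sq hl0 ?_
      have e : (1 + i) * y * (y ^ 2 - D₁) * (1 + i) ^ 2 = x * (x ^ 2 - D) := by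
        rw [hy, hD]
        ring
      rwa [e]
    · left
      refine ⟨0, by norm_num, ?_⟩
      rw [pow_zero, mul_one]
      have hx1 : 1 ≤ ν x := by
        rw [hn, ← exp_zero, exp_le_exp]
        omega
      rcases loc_two_pt hi h2 hres hD hD1 hx1 hx0 hx with h1 | h1
      · exact Or.inl (h.cancel h4.le h1)
      · exact Or.inr (Sq.trans' h4.le h h1)

/-! ### the valuation of `D` is `2`, the abscissa is `lam` times a unit -/

/-- two digits -/
theorem digitsB {l t : L} (hl : ν l = exp (-1)) (hres : ∀ x : L, ν x = 1 → ν (x - 1) < 1)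
    (ht : ν t ≤ 1) : ∃ (p q : ℕ) (t' : L), p < 2 ∧ q < 2 ∧ ν t' ≤ 1 ∧
      t = (p : L) + l * q + l ^ 2 * t' := by
  obtain ⟨t₁, h1, h2 | h2⟩ := res_lam hl hres ht <;> obtain ⟨t₂, h3, h4 | h4⟩ := res_lam hl hres h1
  · exact ⟨0, 0, t₂, by norm_num, by norm_num, h3, by rw [h2, h4]; push_cast; ring⟩
  · exact ⟨0, 1, t₂, by norm_num, by norm_num, h3, by rw [h2, h4]; push_cast; ring⟩
  · exact ⟨1, 0, t₂, by norm_num, by norm_num, h3, by rw [h2, h4]; push_cast; ring⟩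
  · exact ⟨1, 1, t₂, by norm_num, by norm_num, h3, by rw [h2, h4]; push_cast; ring⟩

/-- a unit up to squares -/
theorem sq_digitsB {i x t T t' : L} (hi : i ^ 2 = -1) (h2 : ν 2 = exp (-2)) {m : ℕ}
    (hx : x = i ^ m * (1 + (1 + i) ^ 3 * t)) (ht : t = T + (1 + i) ^ 2 * t') (hT : ν T ≤ 1)
    (ht' : ν t' ≤ 1) {r : ℕ} (hr : Even (m + r)) :
    Sq ν (x * (i ^ r * (1 + (1 + i) ^ 3 * T))) := by
  have h4 := nu_four4_le h2
  have hl := nu_lam2 hi h2
  have hi1 := (nu_i (ν := ν) hi).le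
  have hl1 : ν (1 + i) ≤ 1 := nu_add_le (map_one ν).le hi1
  have hz : ν (1 + (1 + i) ^ 3 * T) = 1 := by
    have e : 1 + (1 + i) ^ 3 * T = 1 + (1 + i) * ((1 + i) ^ 2 * T) := by ring
    rw [e]
    exact nu_onel hl (nu_mul_le (nu_pow_le' hl1 2) hT)
  have hz0 : 1 + (1 + i) ^ 3 * T ≠ 0 := (Valuation.ne_zero_iff ν).1 (by
    rw [hz]
    exact one_ne_zero)
  have key : Sq ν ((1 + (1 + i) ^ 3 * t) * (1 + (1 + i) ^ 3 * T)) := by
    refine Sq.of_mul_sq (inv_ne_zero hz0) (Sq.one ?_)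
    have e : (1 + (1 + i) ^ 3 * t) * (1 + (1 + i) ^ 3 * T) * (1 + (1 + i) ^ 3 * T)⁻¹ ^ 2 - 1 =
        (1 + i) ^ 5 * t' * (1 + (1 + i) ^ 3 * T)⁻¹ := by
      rw [ht]
      field_simp
      ring
    rw [e, map_mul, map_inv₀, hz, inv_one, mul_one, nu_four4 h2]
    refine lt_of_le_of_lt (mul_le_exp (nu_lpow hl 5) ht') ?_
    rw [exp_lt_exp]
    norm_num
  have e : x * (i ^ r * (1 + (1 + i) ^ 3 * T)) =
      i ^ (m + r) * ((1 + (1 + i) ^ 3 * t) * (1 + (1 + i) ^ 3 * T)) := by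
    rw [hx, pow_add]
    ring
  rw [e]
  rcases ipow_even hi hr with h5 | h5 <;> rw [h5]
  · rwa [one_mul]
  · refine Sq.neg' hi ?_
    rwa [neg_one_mul, neg_neg]

theorem nu_TB {l : L} (hl : ν l = exp (-1)) (p q : ℕ) : ν ((p : L) + l * q) ≤ 1 :=
  nu_add_le (nu_natCast_le' p) (nu_mul_le (by
    rw [hl, ← exp_zero, exp_le_exp]
    norm_num) (nu_natCast_le' q))

/-- a square of the form `i ^ m (1 + lam ^ 2 ..)` up to `lam ^ 2` -/
theorem even_of_sqB {i Q y : L} (hi : i ^ 2 = -1) (h2 : ν 2 = exp (-2))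
    (hres : ∀ x : L, ν x = 1 → ν (x - 1) < 1) {m k : ℕ} (hy : ν y ≤ 1)
    (hQ : Q = ((1 + i) ^ k) ^ 2 * (i ^ m * (1 + (1 + i) ^ 2 * y))) (h : Sq ν Q) : Even m := by
  have hl := nu_lam2 hi h2
  have hl0 : (1 + i) ≠ 0 := by
    rw [← ν.ne_zero_iff, hl]
    exact exp_ne_zero
  refine even_of_C4 hi h2 hres hy (C4.of_sq (Sq.of_mul_sq (pow_ne_zero k hl0) ?_))
  rwa [mul_comm, ← hQ]

/-- **`k = 1`**: no abscissa of valuation `1` -/
theorem locB1 {i W x D₁ : L} (hi : i ^ 2 = -1) (h2 : ν 2 = exp (-2))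
    (hres : ∀ x : L, ν x = 1 → ν (x - 1) < 1) (hW : ν W ≤ 1)
    (hD1 : D₁ = i * (1 + (1 + i) ^ 3 * W)) (hx : ν x = 1)
    (hP : ν (x ^ 2 - D₁) < exp (-8) ∨ Sq ν ((1 + i) * x * (x ^ 2 - D₁))) : False := by
  have h4 := nu_four4_le h2
  have hl := nu_lam2 hi h2
  have hi1 := (nu_i (ν := ν) hi).le
  have hl1 : ν (1 + i) ≤ 1 := nu_add_le (map_one ν).le hi1
  obtain ⟨m, t, ht, hxe⟩ := unit4 hi h2 hres hx
  obtain ⟨s, hsd⟩ : ∃ s : L, s = -i * t + (1 + i) * t ^ 2 := ⟨_, rfl⟩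
  have hs : ν s ≤ 1 := by
    rw [hsd]
    exact nu_add_le (nu_mul_le (nu_neg_le' hi1) ht) (nu_mul_le hl1 (nu_pow_le' ht 2))
  have hx2 : x ^ 2 = (-1) ^ m * (1 + (1 + i) ^ 5 * s) := by rw [hxe, sq_unit4 hi, hsd]
  -- `x² - D₁ = lam (..)`
  have key : ∀ (e : ℕ) (y : L), ν y ≤ 1 → x ^ 2 - D₁ = (1 + i) * (i ^ e * (1 + (1 + i) ^ 2 * y)) →
      Odd (m + e) → False := by
    intro e y hy he ho
    rcases hP with h | h
    · have h5 : ν (x ^ 2 - D₁) = exp (-1) := by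
        have e2 : x ^ 2 - D₁ = (1 + i) * (i ^ e * (1 + (1 + i) * ((1 + i) * y))) := by
          rw [he]
          ring
        rw [e2, map_mul, map_mul, hl, nu_ipow hi, one_mul, nu_onel hl (nu_mul_le hl1 hy), mul_one]
      rw [h5, exp_lt_exp] at h
      norm_num at h
    · refine (Nat.not_even_iff_odd.2 ho) (even_of_sqB hi h2 hres (k := 1)
        (y := (1 + i) * t + (1 + (1 + i) ^ 3 * t) * y) (nu_add_le (nu_mul_le hl1 ht)
        (nu_mul_le (nu_add_le (map_one ν).le (nu_mul_le (nu_pow_le' hl1 3) ht)) hy)) ?_ h)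
      rw [he, hxe, pow_add]
      ring
  rcases Nat.even_or_odd m with hm | hm
  · refine key 3 (W + i * (1 + i) ^ 2 * s) (nu_add_le hW (nu_mul_le (nu_mul_le hi1
      (nu_pow_le' hl1 2)) hs)) ?_ (hm.add_odd (by decide))
    rw [hx2, hm.neg_one_pow, hD1]
    linear_combination (-W * i * (1 + i) ^ 3 - i - i ^ 2 * (1 + i) ^ 5 * s +
      (1 + i) ^ 5 * s + (1 - i ^ 2)) * hi
  · refine key 2 (i * W + (1 + i) ^ 2 * s) (nu_add_le (nu_mul_le hi1 hW) (nu_mul_le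
      (nu_pow_le' hl1 2) hs)) ?_ (hm.add_even (by decide))
    rw [hx2, hm.neg_one_pow, hD1]
    linear_combination (-(1 + i) * (1 + (1 + i) ^ 2 * (i * W + (1 + i) ^ 2 * s))) * hi

/-- **`k = 3`**: the abscissas of valuation `1` -/
theorem locB3 {i W x D₁ : L} (hi : i ^ 2 = -1) (h2 : ν 2 = exp (-2))
    (hres : ∀ x : L, ν x = 1 → ν (x - 1) < 1) (hW : ν W ≤ 1)
    (hD1 : D₁ = i ^ 3 * (1 + (1 + i) ^ 3 * W)) (hx : ν x = 1)
    (hP : ν (x ^ 2 - D₁) < exp (-8) ∨ Sq ν ((1 + i) * x * (x ^ 2 - D₁))) :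
    ∃ (r p q : ℕ) (T ε : L), p < 2 ∧ q < 2 ∧ T = (p : L) + (1 + i) * q ∧ (ε = 1 ∨ ε = -1) ∧
      Sq ν (x * (i ^ r * (1 + (1 + i) ^ 3 * T))) ∧
      ((r = 0 ∧ ν (1 + i * (1 + i) ^ 2 * W + (1 + i) ^ 3 * T - i * (1 + i) ^ 4 * T - ε) ≤
        exp (-((5 : ℕ) : ℤ))) ∨
      (r = 1 ∧ ν (1 + (1 + i) ^ 2 * W + (1 + i) ^ 3 * T + (1 + i) ^ 4 * T - ε) ≤
        exp (-((5 : ℕ) : ℤ)))) := by
  have h4 := nu_four4_le h2
  have hl := nu_lam2 hi h2
  have hi1 := (nu_i (ν := ν) hi).le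
  have hl1 : ν (1 + i) ≤ 1 := nu_add_le (map_one ν).le hi1
  have hl0 : (1 + i) ≠ 0 := by
    rw [← ν.ne_zero_iff, hl]
    exact exp_ne_zero
  obtain ⟨m, t, ht, hxe⟩ := unit4 hi h2 hres hx
  obtain ⟨p, q, u, hp, hq, hu, htd⟩ := digitsB hl hres ht
  obtain ⟨T, hT⟩ : ∃ T : L, T = (p : L) + (1 + i) * q := ⟨_, rfl⟩
  have hT1 : ν T ≤ 1 := by
    rw [hT]
    exact nu_TB hl p q
  rw [← hT] at htd
  obtain ⟨s, hsd⟩ : ∃ s : L, s = -i * t + (1 + i) * t ^ 2 := ⟨_, rfl⟩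
  have hs : ν s ≤ 1 := by
    rw [hsd]
    exact nu_add_le (nu_mul_le (nu_neg_le' hi1) ht) (nu_mul_le hl1 (nu_pow_le' ht 2))
  have hx2 : x ^ 2 = (-1) ^ m * (1 + (1 + i) ^ 5 * s) := by rw [hxe, sq_unit4 hi, hsd]
  have h3 : ∀ (e : ℕ) (y : L), ν y ≤ 1 → x ^ 2 - D₁ = (1 + i) * (i ^ e * (1 + (1 + i) ^ 2 * y)) →
      Even (m + e) → Sq ν ((1 + (1 + i) ^ 3 * t) * (1 + (1 + i) ^ 2 * y)) := by
    intro e y hy he ho
    have hS : Sq ν ((1 + i) * x * (x ^ 2 - D₁)) := by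
      rcases hP with h | h
      · exfalso
        have h5 : ν (x ^ 2 - D₁) = exp (-1) := by
          have e2 : x ^ 2 - D₁ = (1 + i) * (i ^ e * (1 + (1 + i) * ((1 + i) * y))) := by
            rw [he]
            ring
          rw [e2, map_mul, map_mul, hl, nu_ipow hi, one_mul, nu_onel hl (nu_mul_le hl1 hy), mul_one]
        rw [h5, exp_lt_exp] at h
        norm_num at h
      · exact h
    have e1 : (1 + i) * x * (x ^ 2 - D₁) = i ^ (m + e) *
        ((1 + (1 + i) ^ 3 * t) * (1 + (1 + i) ^ 2 * y)) * (1 + i) ^ 2 := by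
      rw [he, hxe, pow_add]
      ring
    rw [e1] at hS
    have h5 := Sq.of_mul_sq hl0 hS
    rcases ipow_even hi ho with h6 | h6 <;> rw [h6] at h5
    · rwa [one_mul] at h5
    · refine Sq.neg' hi ?_
      rwa [neg_one_mul] at h5
  -- a unit which is a square
  have h5 : ∀ Q R Y : L, Sq ν Q → ν Q = 1 → ν Y ≤ 1 → Q = R + (1 + i) ^ 5 * Y →
      ∃ ε : L, (ε = 1 ∨ ε = -1) ∧ ν (R - ε) ≤ exp (-((5 : ℕ) : ℤ)) := by
    intro Q R Y hQ hQ1 hY he
    obtain ⟨ε, hε, h6⟩ := Sq_near hi h2 hres hQ1 hQ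
    refine ⟨ε, hε, ?_⟩
    have e : R - ε = (Q - ε) - (1 + i) ^ 5 * Y := by
      rw [he]
      ring
    rw [e]
    exact ν.map_sub_le h6 (mul_le_exp (nu_lpow hl 5) hY)
  have hunit : ∀ y : L, ν y ≤ 1 → ν ((1 + (1 + i) ^ 3 * t) * (1 + (1 + i) ^ 2 * y)) = 1 := by
    intro y hy
    have e : (1 + (1 + i) ^ 3 * t) * (1 + (1 + i) ^ 2 * y) =
        (1 + (1 + i) * ((1 + i) ^ 2 * t)) * (1 + (1 + i) * ((1 + i) * y)) := by ring
    rw [e, map_mul, nu_onel hl (nu_mul_le (nu_pow_le' hl1 2) ht), nu_onel hl (nu_mul_le hl1 hy),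
      one_mul]
  rcases Nat.even_or_odd m with hm | hm
  · have hy : ν (i * W + (1 + i) ^ 2 * s) ≤ 1 :=
      nu_add_le (nu_mul_le hi1 hW) (nu_mul_le (nu_pow_le' hl1 2) hs)
    have h6 := h3 0 (i * W + (1 + i) ^ 2 * s) hy (by
      rw [hx2, hm.neg_one_pow, hD1]
      linear_combination (-i ^ 4 * W - 3 * i ^ 3 * W - 3 * i ^ 2 * W - i * W - i) * hi)
      (by rwa [add_zero])
    obtain ⟨ε, hε, h7⟩ := h5 _ (1 + i * (1 + i) ^ 2 * W + (1 + i) ^ 3 * T - i * (1 + i) ^ 4 * T)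
      (u - i * (1 + i) * u + t ^ 2 + i * t * W + (1 + i) ^ 2 * t * s) h6 (hunit _ hy)
      (nu_add_le (nu_add_le (nu_add_le (nu_sub_le' hu (nu_mul_le (nu_mul_le hi1 hl1) hu))
        (nu_pow_le' ht 2)) (nu_mul_le (nu_mul_le hi1 ht) hW)) (nu_mul_le (nu_mul_le
          (nu_pow_le' hl1 2) ht) hs)) (by
        rw [hsd, htd]
        ring)
    exact ⟨0, p, q, T, ε, hp, hq, hT, hε, sq_digitsB hi h2 hxe htd hT1 hu (by rwa [add_zero]),
      Or.inl ⟨rfl, h7⟩⟩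
  · have hy : ν (W + i * (1 + i) ^ 2 * s) ≤ 1 :=
      nu_add_le hW (nu_mul_le (nu_mul_le hi1 (nu_pow_le' hl1 2)) hs)
    have h6 := h3 1 (W + i * (1 + i) ^ 2 * s) hy (by
      rw [hx2, hm.neg_one_pow, hD1]
      linear_combination (-i ^ 5 * s - 5 * i ^ 4 * s - i ^ 4 * W - 10 * i ^ 3 * s - 3 * i ^ 3 * W -
        10 * i ^ 2 * s - 3 * i ^ 2 * W - 5 * i * s - i * W - i - s - 1) * hi)
      (hm.add_odd (by decide))
    obtain ⟨ε, hε, h7⟩ := h5 _ (1 + (1 + i) ^ 2 * W + (1 + i) ^ 3 * T + (1 + i) ^ 4 * T)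
      (u + (1 + i) * u + i * t ^ 2 + t * W + i * (1 + i) ^ 2 * t * s) h6 (hunit _ hy)
      (nu_add_le (nu_add_le (nu_add_le (nu_add_le hu (nu_mul_le hl1 hu))
        (nu_mul_le hi1 (nu_pow_le' ht 2))) (nu_mul_le ht hW)) (nu_mul_le (nu_mul_le
          (nu_mul_le hi1 (nu_pow_le' hl1 2)) ht) hs)) (by
        rw [hsd, htd]
        linear_combination (-i ^ 6 * u - 6 * i ^ 5 * u - i ^ 4 * T - 15 * i ^ 4 * u -
          4 * i ^ 3 * T - 20 * i ^ 3 * u - 6 * i ^ 2 * T - 15 * i ^ 2 * u - 4 * i * T -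
          6 * i * u - T - u) * hi)
    exact ⟨1, p, q, T, ε, hp, hq, hT, hε, sq_digitsB hi h2 hxe htd hT1 hu
      (hm.add_odd (by decide)), Or.inr ⟨rfl, h7⟩⟩

/-- **`k` even**: the abscissas of valuation `1` -/
theorem locB02 {i W x D₁ δ : L} (hi : i ^ 2 = -1) (h2 : ν 2 = exp (-2))
    (hres : ∀ x : L, ν x = 1 → ν (x - 1) < 1) (hW : ν W ≤ 1) (hδ : δ = 1 ∨ δ = -1)
    (hD1 : D₁ = δ * (1 + (1 + i) ^ 3 * W)) (hx : ν x = 1)
    (hP : ν (x ^ 2 - D₁) < exp (-8) ∨ Sq ν ((1 + i) * x * (x ^ 2 - D₁))) :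
    ∃ (r p q : ℕ) (T t u g : L), p < 2 ∧ q < 2 ∧ T = (p : L) + (1 + i) * q ∧
      Sq ν (x * (i ^ r * (1 + (1 + i) ^ 3 * T))) ∧ ((δ = 1 ∧ r = 0) ∨ (δ = -1 ∧ r = 1)) ∧
      ν u ≤ 1 ∧ t = T + (1 + i) ^ 2 * u ∧ g = W - (1 + i) ^ 2 * (-i * t + (1 + i) * t ^ 2) ∧
      (ν g < exp (-5) ∨ Sq ν (i ^ r * (1 + (1 + i) ^ 3 * t) * g)) := by
  have h4 := nu_four4_le h2
  have hl := nu_lam2 hi h2
  have hi1 := (nu_i (ν := ν) hi).le
  have hl1 : ν (1 + i) ≤ 1 := nu_add_le (map_one ν).le hi1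
  have hl0 : (1 + i) ≠ 0 := by
    rw [← ν.ne_zero_iff, hl]
    exact exp_ne_zero
  obtain ⟨m, t, ht, hxe⟩ := unit4 hi h2 hres hx
  obtain ⟨p, q, u, hp, hq, hu, htd⟩ := digitsB hl hres ht
  obtain ⟨T, hT⟩ : ∃ T : L, T = (p : L) + (1 + i) * q := ⟨_, rfl⟩
  have hT1 : ν T ≤ 1 := by
    rw [hT]
    exact nu_TB hl p q
  rw [← hT] at htd
  obtain ⟨s, hsd⟩ : ∃ s : L, s = -i * t + (1 + i) * t ^ 2 := ⟨_, rfl⟩
  have hs : ν s ≤ 1 := by
    rw [hsd]
    exact nu_add_le (nu_mul_le (nu_neg_le' hi1) ht) (nu_mul_le hl1 (nu_pow_le' ht 2))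
  have hx2 : x ^ 2 = (-1) ^ m * (1 + (1 + i) ^ 5 * s) := by rw [hxe, sq_unit4 hi, hsd]
  obtain ⟨ε, hε, hεm⟩ : ∃ ε : L, (ε = 1 ∨ ε = -1) ∧ (-1 : L) ^ m = ε :=
    ⟨_, neg_one_pow_eq_or L m, rfl⟩
  rw [hεm] at hx2
  by_cases hεδ : ε = δ
  · have e1 : x ^ 2 - D₁ = -δ * ((1 + i) ^ 3 * (W - (1 + i) ^ 2 * s)) := by
      rw [hx2, hD1, hεδ]
      ring
    obtain ⟨r, hr, hrm⟩ : ∃ r : ℕ, ((δ = 1 ∧ r = 0) ∨ (δ = -1 ∧ r = 1)) ∧ Even (m + r) := by
      rcases Nat.even_or_odd m with hm | hm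
      · refine ⟨0, Or.inl ⟨?_, rfl⟩, by rwa [add_zero]⟩
        rw [← hεδ, ← hεm, hm.neg_one_pow]
      · refine ⟨1, Or.inr ⟨?_, rfl⟩, hm.add_odd (by decide)⟩
        rw [← hεδ, ← hεm, hm.neg_one_pow]
    refine ⟨r, p, q, T, t, u, W - (1 + i) ^ 2 * s, hp, hq, hT, sq_digitsB hi h2 hxe htd hT1 hu hrm,
      hr, hu, htd, by rw [hsd], ?_⟩
    rcases hP with h | h
    · left
      rw [e1, map_mul, map_mul, nu_lpow hl, Valuation.map_neg, nu_sign hδ, one_mul] at h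
      by_contra hc
      rw [not_lt] at hc
      have h5 : exp (-((3 : ℕ) : ℤ)) * exp (-5) ≤
          exp (-((3 : ℕ) : ℤ)) * ν (W - (1 + i) ^ 2 * s) := by gcongr
      rw [← exp_add] at h5
      have h6 := lt_of_le_of_lt h5 h
      rw [exp_lt_exp] at h6
      norm_num at h6
    · right
      have hir : i ^ r ≠ 0 := pow_ne_zero _ (i_ne hi)
      -- `i ^ m = ± i ^ r`
      have e2 : (1 + i) * x * (x ^ 2 - D₁) * (i ^ r) ^ 2 = -δ * i ^ (m + r) *
          (i ^ r * (1 + (1 + i) ^ 3 * t) * (W - (1 + i) ^ 2 * s)) * ((1 + i) ^ 2) ^ 2 := by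
        rw [e1, hxe, pow_add]
        ring
      have h5 : Sq ν (-δ * i ^ (m + r) *
          (i ^ r * (1 + (1 + i) ^ 3 * t) * (W - (1 + i) ^ 2 * s))) := by
        refine Sq.of_mul_sq (pow_ne_zero 2 hl0) ?_
        rw [← e2]
        refine Sq.of_mul_sq (inv_ne_zero hir) ?_
        have e3 : (1 + i) * x * (x ^ 2 - D₁) * (i ^ r) ^ 2 * (i ^ r)⁻¹ ^ 2 =
            (1 + i) * x * (x ^ 2 - D₁) := by field_simp
        rwa [e3]
      have h6 : -δ * i ^ (m + r) = 1 ∨ -δ * i ^ (m + r) = -1 := by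
        rcases hδ with h7 | h7 <;> rcases ipow_even hi hrm with h8 | h8 <;> rw [h7, h8]
        · right; ring
        · left; ring
        · left; ring
        · right; ring
      rcases h6 with h7 | h7 <;> rw [h7] at h5
      · rwa [one_mul] at h5
      · refine Sq.neg' hi ?_
        rwa [neg_one_mul] at h5
  · exfalso
    have hεδ' : ε = -δ := by
      rcases hε with h5 | h5 <;> rcases hδ with h6 | h6 <;> rw [h5, h6] at hεδ ⊢
      · exact absurd rfl hεδ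
      · ring
      · exact absurd rfl hεδ
    have h5 : ν (x ^ 2 - D₁) = exp (-2) := by
      have e1 : x ^ 2 - D₁ = -δ * (2 + (1 + i) ^ 3 * ((1 + i) ^ 2 * s + W)) := by
        rw [hx2, hD1, hεδ']
        ring
      rw [e1, map_mul, Valuation.map_neg, nu_sign hδ, one_mul, ν.map_add_eq_of_lt_left, h2]
      rw [h2]
      refine lt_of_le_of_lt (mul_le_exp (nu_lpow hl 3) (nu_add_le
        (nu_mul_le (nu_pow_le' hl1 2) hs) hW)) ?_
      rw [exp_lt_exp]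
      norm_num
    rcases hP with h | h
    · rw [h5, exp_lt_exp] at h
      norm_num at h
    · have h6 := h.even h4.le
      rw [map_mul, map_mul, hl, hx, mul_one, h5, ← exp_add, isSquare_exp] at h6
      exact absurd h6 (by decide)

/-- two impossible forms of `g` -/
theorem killB {i : L} (hi : i ^ 2 = -1) (h2 : ν 2 = exp (-2))
    (hres : ∀ x : L, ν x = 1 → ν (x - 1) < 1) {m r : ℕ} {t y g : L} (ht : ν t ≤ 1)
    (hy : ν y ≤ 1)
    (hg : g = (1 + i) * (1 + (1 + i) * y) ∨ (g = i ^ r * (1 + (1 + i) ^ 2 * y) ∧ Odd (m + r)))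
    (hP : ν g < exp (-1) ∨ Sq ν (i ^ m * (1 + (1 + i) ^ 3 * t) * g)) : False := by
  have hl := nu_lam2 hi h2
  have hi1 := (nu_i (ν := ν) hi).le
  have hl1 : ν (1 + i) ≤ 1 := nu_add_le (map_one ν).le hi1
  rcases hg with h | ⟨h, hm⟩
  · have h3 : ν g = exp (-1) := by rw [h, map_mul, hl, nu_onel hl hy, mul_one]
    rcases hP with h4 | h4
    · rw [h3] at h4
      exact lt_irrefl _ h4
    · have h5 := h4.even (nu_four4_le h2).le
      have hx1 : ν (i ^ m * (1 + (1 + i) ^ 3 * t)) = 1 := by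
        have e : i ^ m * (1 + (1 + i) ^ 3 * t) = i ^ m * (1 + (1 + i) * ((1 + i) ^ 2 * t)) := by
          ring
        rw [e, map_mul, nu_ipow hi, one_mul]
        exact nu_onel hl (nu_mul_le (nu_pow_le' hl1 2) ht)
      rw [map_mul, hx1, one_mul, h3, isSquare_exp] at h5
      exact absurd h5 (by decide)
  · have h3 : ν g = 1 := by
      have e : g = i ^ r * (1 + (1 + i) * ((1 + i) * y)) := by rw [h]; ring
      rw [e, map_mul, nu_ipow hi, one_mul]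
      exact nu_onel hl (nu_mul_le hl1 hy)
    rcases hP with h4 | h4
    · rw [h3, ← exp_zero, exp_lt_exp] at h4
      norm_num at h4
    · have e : i ^ m * (1 + (1 + i) ^ 3 * t) * g =
          i ^ (m + r) * (1 + (1 + i) ^ 2 * (y + (1 + i) * t + (1 + i) ^ 3 * t * y)) := by
        rw [h, pow_add]
        ring
      have h5 := C4.of_sq h4
      rw [e] at h5
      have h6 := even_of_C4 hi h2 hres (nu_add_le (nu_add_le hy (nu_mul_le hl1 ht))
        (nu_mul_le (nu_mul_le (nu_pow_le' hl1 3) ht) hy)) h5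
      rw [← Nat.not_even_iff_odd] at hm
      exact hm h6

end

end Pool.Agent.Lib.MP_1a91b9_ntQ.C
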