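import Pool.Agent.Lib.MP_1a91b9_ntQ.C.SelX3
import Pool.Agent.Lib.MP_1a91b9_ntQ.B.LocLB

/-!
# MP_1a91b9_nt (quartic twists), part B: classes at `lam`

`Kc a α w y`: `a` is `i ^ α lam ^ w y` up to a square, `y` primary.
-/

set_option autoImplicit false
set_option linter.unusedSectionVars false
set_option linter.unusedVariables false

namespace Pool.Agent.Lib.MP_1a91b9_ntQ.C

open NumberField Finset WithZero IsDedekindDomain Pool.Agent.Lib.MP_1a91b9_nuT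
open Pool.Agent.Lib.MP_1a91b9_ntQ
open Pool.Agent.Lib.MP_1a91b9_ntH.C (Sq exists_nu isSquare_exp nu_one)

noncomputable section

/-- `a` is `i ^ α lam ^ w y` up to a square, `y` primary -/
def Kc (a : K) (α w : ZMod 2) (y : 𝓞 K) : Prop :=
  In4 y ∧ ∃ m : K, m ≠ 0 ∧ a = m ^ 2 * ((iO ^ α.val * lam ^ w.val * y : 𝓞 K) : K)

theorem Kc.mul {a b : K} {α w β v : ZMod 2} {y z : 𝓞 K} (h : Kc a α w y) (h' : Kc b β v z) :
    Kc (a * b) (α + β) (w + v) (y * z) := by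
  obtain ⟨hy, m, hm, ha⟩ := h
  obtain ⟨hz, n, hn, hb⟩ := h'
  obtain ⟨p, hp, hp'⟩ := pow_val_add isUnit_iO.ne_zero α β
  obtain ⟨q, hq, hq'⟩ := pow_val_add lam_ne_zero w v
  refine ⟨hy.mul hz, m * n * ((p * q : 𝓞 K) : K), mul_ne_zero (mul_ne_zero hm hn)
    (coe_ne (mul_ne_zero hp hq)), ?_⟩
  have e1 : iO ^ α.val * lam ^ w.val * y * (iO ^ β.val * lam ^ v.val * z) =
      (p * q) ^ 2 * (iO ^ (α + β).val * lam ^ (w + v).val * (y * z)) := by
    linear_combination (lam ^ w.val * lam ^ v.val * y * z) * hp' +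
      (p ^ 2 * iO ^ (α + β).val * y * z) * hq'
  have e2 := congrArg (fun x : 𝓞 K => (x : K)) e1
  rw [coe_sq_mul, coe_mul' (iO ^ α.val * lam ^ w.val * y)] at e2
  rw [ha, hb]
  linear_combination (m ^ 2 * n ^ 2) * e2

theorem Kc.of {α w : ZMod 2} {y : 𝓞 K} (hy : In4 y) :
    Kc ((iO ^ α.val * lam ^ w.val * y : 𝓞 K) : K) α w y :=
  ⟨hy, 1, one_ne_zero, by rw [one_pow, one_mul]⟩

theorem Kc.of_sq {a : K} {α w : ZMod 2} {y : 𝓞 K} {m : K} (hm : m ≠ 0) (h : Kc a α w y) :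
    Kc (m ^ 2 * a) α w y := by
  obtain ⟨hy, n, hn, ha⟩ := h
  exact ⟨hy, m * n, mul_ne_zero hm hn, by rw [ha]; ring⟩

theorem Kc.neg {a : K} {α w : ZMod 2} {y : 𝓞 K} (h : Kc a α w y) : Kc (-a) α w y := by
  have e : -a = (iO : K) ^ 2 * a := by
    rw [iK_sq']
    ring
  rw [e]
  exact h.of_sq (i_ne iK_sq')

theorem Kc.in4 {a : K} {α w : ZMod 2} {y : 𝓞 K} (h : Kc a α w y) : In4 y := h.1

theorem Kc.unit {y : 𝓞 K} (hy : In4 y) : Kc (y : K) 0 0 y :=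
  ⟨hy, 1, one_ne_zero, by
    rw [ZMod.val_zero, pow_zero, pow_zero, one_mul, one_mul, one_pow, one_mul]
    rfl⟩

theorem Kc.ofI : Kc (iO : K) 1 0 1 := by
  have h1 : ((1 : ZMod 2)).val = 1 := rfl
  exact ⟨in4_one, 1, one_ne_zero, by
    rw [ZMod.val_zero, pow_zero, h1, pow_one, mul_one, mul_one, one_pow, one_mul]⟩

theorem Kc.ofLam : Kc (lam : K) 0 1 1 := by
  have h1 : ((1 : ZMod 2)).val = 1 := rfl
  exact ⟨in4_one, 1, one_ne_zero, by
    rw [ZMod.val_zero, pow_zero, h1, pow_one, mul_one, one_mul, one_pow, one_mul]⟩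

theorem Kc.cast {a : K} {α w α' w' : ZMod 2} {y y' : 𝓞 K} (h : Kc a α w y) (h1 : α = α')
    (h2 : w = w') (h3 : y = y') : Kc a α' w' y' := by
  subst h1
  subst h2
  subst h3
  exact h

theorem Kc.one : Kc 1 0 0 1 := by
  have h := Kc.unit in4_one
  have e : ((1 : 𝓞 K) : K) = 1 := map_one (algebraMap (𝓞 K) K)
  rwa [e] at h

/-- the powers -/
theorem Kc.pow {a : K} {α w : ZMod 2} {y : 𝓞 K} (h : Kc a α w y) (t : ZMod 2) :
    Kc (a ^ t.val) (t * α) (t * w) (y ^ t.val) := by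
  have h0 : ∀ e : ZMod 2, e = 0 ∨ e = 1 := by decide
  have h1 : ((1 : ZMod 2)).val = 1 := rfl
  rcases h0 t with rfl | rfl
  · rw [ZMod.val_zero, pow_zero, pow_zero, zero_mul, zero_mul]
    exact Kc.one
  · rw [h1, pow_one, pow_one, one_mul, one_mul]
    exact h

theorem four_md (k : ZMod 4) : ∃ c : 𝓞 K, c ≠ 0 ∧ iO ^ k.val = c ^ 2 * iO ^ (md k).val := ipow_md k

/-- the class of `D` -/
theorem Kc.D (k : ZMod 4) (j : Fin 4) {c : 𝓞 K} (hc : In4 c) :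
    Kc ((iO ^ k.val * Pool.Agent.Lib.MP_1a91b9_ntQ.lam ^ j.val * c : 𝓞 K) : K) (md k)
      (j.val : ZMod 2) c := by
  obtain ⟨u, hu, hu'⟩ := ipow_md k
  obtain ⟨v, hv, hv'⟩ : ∃ v : 𝓞 K, v ≠ 0 ∧ Pool.Agent.Lib.MP_1a91b9_ntQ.lam ^ j.val =
      v ^ 2 * Pool.Agent.Lib.MP_1a91b9_ntQ.lam ^ ((j.val : ZMod 2)).val := by
    have h2 : ∀ j : Fin 4, j.val = 2 * (j.val / 2) + ((j.val : ZMod 2)).val := by decide
    refine ⟨Pool.Agent.Lib.MP_1a91b9_ntQ.lam ^ (j.val / 2), pow_ne_zero _ lam_ne_zero, ?_⟩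
    conv_lhs => rw [h2 j, pow_add, mul_comm 2, pow_mul]
  refine ⟨hc, ((u * v : 𝓞 K) : K), coe_ne (mul_ne_zero hu hv), ?_⟩
  rw [← coe_sq_mul]
  congr 1
  linear_combination (Pool.Agent.Lib.MP_1a91b9_ntQ.lam ^ j.val * c) * hu' +
    (u ^ 2 * iO ^ (md k).val * c) * hv'

theorem exists_one (w : ZMod 2) (h : w ≠ 0) : w = 1 := by
  revert w
  decide

/-- the valuation is even -/
theorem Kc.even {a : K} {α w : ZMod 2} {y : 𝓞 K} (h : Kc a α w y) (he : IsSquare (nuL a)) :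
    w = 0 := by
  obtain ⟨hy, m, hm, ha⟩ := h
  by_contra hw
  have h1 : ((1 : ZMod 2)).val = 1 := rfl
  have hodd : ¬ Pool.Agent.Lib.MP_1a91b9_ntQ.lam ∣ iO ^ α.val * y := by
    intro hd
    rcases prime_lam.dvd_or_dvd hd with h2 | h1
    · exact not_dvd_of_unit prime_lam (isUnit_iO.pow _) h2
    · exact hy.not_lam h1
  have e : ((iO ^ α.val * Pool.Agent.Lib.MP_1a91b9_ntQ.lam ^ w.val * y : 𝓞 K) : K) =
      (Pool.Agent.Lib.MP_1a91b9_ntQ.lam : K) * ((iO ^ α.val * y : 𝓞 K) : K) := by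
    rw [exists_one w hw, h1, pow_one, ← coe_mul']
    congr 1
    ring
  have h3 : nuL ((iO ^ α.val * y : 𝓞 K) : K) = 1 := pv_one prime_lam hodd
  rw [ha, e, map_mul, map_pow, map_mul, nuL_lam, h3, mul_one, mul_comm,
    isSquare_mul_sq ((Valuation.ne_zero_iff _).2 hm)] at he
  exact absurd (exp_odd he) (by decide)

/-- the class of an element which is a square modulo `lam ^ 3` -/
theorem Kc.CG {a : K} {α w : ZMod 2} {y : 𝓞 K} (h : Kc a α w y)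
    (hC : C.CG nuL (exp (-((3 : ℕ) : ℤ))) a) : α = 0 ∧ w = 0 := by
  have hγ := exp3_lt
  have hw := h.even (hC.even hγ)
  refine ⟨?_, hw⟩
  subst hw
  obtain ⟨hy, m, hm, ha⟩ := h
  by_contra hj
  have hj1 := exists_one α hj
  subst hj1
  have h1v : ((1 : ZMod 2)).val = 1 := rfl
  rw [ZMod.val_zero, pow_zero, mul_one, h1v, pow_one] at ha
  have h' : C.CG nuL (exp (-((3 : ℕ) : ℤ))) ((iO * y : 𝓞 K) : K) := by
    refine CG.of_mul_sq hm ?_
    rwa [mul_comm, ← ha]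
  obtain ⟨b, hb, hb'⟩ := h'
  have hvy : nuL ((iO * y : 𝓞 K) : K) = 1 := pv_one prime_lam fun hd => by
    rcases prime_lam.dvd_or_dvd hd with h2 | h2
    · exact not_dvd_of_unit prime_lam isUnit_iO h2
    · exact hy.not_lam h2
  have h1 : nuL (((iO * y : 𝓞 K) : K) / b ^ 2) = 1 := by
    have := nuL.map_one_add_of_lt (x := ((iO * y : 𝓞 K) : K) / b ^ 2 - 1) (lt_of_le_of_lt hb' hγ)
    rwa [add_sub_cancel] at this
  have hb0 : nuL b ≠ 0 := (Valuation.ne_zero_iff _).2 hb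
  have hvb : nuL b = 1 := by
    rw [map_div₀, map_pow, hvy, div_eq_one_iff_eq (pow_ne_zero 2 hb0)] at h1
    exact (pow_eq_one_iff_of_nonneg zero_le two_ne_zero).1 h1.symm
  obtain ⟨ε, hε, h5⟩ := unit_near iK_sq' nuL_two nuL_res hvb
  have h6 : nuL (((iO * y : 𝓞 K) : K) - ε) ≤ exp (-((3 : ℕ) : ℤ)) := by
    have e : ((iO * y : 𝓞 K) : K) - ε = (((iO * y : 𝓞 K) : K) / b ^ 2 - 1) * b ^ 2 +
        (b ^ 2 - ε) := by
      field_simp
      ring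
    rw [e]
    refine nuL.map_add_le ?_ (h5.trans ?_)
    · rw [map_mul, map_pow, hvb, one_pow, mul_one]
      exact hb'
    · rw [exp_le_exp]
      norm_num
  obtain ⟨t, ht⟩ := hy
  have h7 : nuL ((iO : K) - ε) ≤ exp (-((3 : ℕ) : ℤ)) := by
    have e : (iO : K) - ε = (((iO * y : 𝓞 K) : K) - ε) -
        ((Pool.Agent.Lib.MP_1a91b9_ntQ.lam : K) ^ 3 * ((iO : K) * (t : K))) := by
      have e1 : (y : K) = 1 + (Pool.Agent.Lib.MP_1a91b9_ntQ.lam : K) ^ 3 * (t : K) := by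
        have e2 : y = 1 + Pool.Agent.Lib.MP_1a91b9_ntQ.lam ^ 3 * t := by linear_combination ht
        rw [e2]
        push_cast
        rfl
      have key : ∀ I L T ε : K, I - ε = I * (1 + L ^ 3 * T) - ε - L ^ 3 * (I * T) := by
        intro I L T ε
        ring
      rw [coe_mul', e1]
      exact key _ _ _ _
    rw [e]
    refine nuL.map_sub_le h6 (mul_le_exp (nu_lpow nuL_lam 3) ?_)
    exact nu_mul_le nuL_i.le (nuL_O t)
  have h8 := nu_i_one iK_sq' nuL_two (ε := (1 : K)) (δ := ε) (Or.inl rfl) hε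
  rw [one_mul] at h8
  rw [h8, exp_le_exp] at h7
  norm_num at h7

/-- the class of an element which is a square modulo `4` -/
theorem Kc.C4 {a : K} {α w : ZMod 2} {y : 𝓞 K} (h : Kc a α w y) (hC : C.C4 nuL a) :
    α = 0 ∧ w = 0 ∧ aa y = 0 := by
  have hw := h.even (hC.even (nu_four4_le nuL_two))
  obtain ⟨hy, m, hm, ha⟩ := h
  subst hw
  rw [ZMod.val_zero, pow_zero, mul_one] at ha
  have h1 : C.C4 nuL ((iO ^ α.val * y : 𝓞 K) : K) := by
    refine C4.of_mul_sq hm ?_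
    rwa [mul_comm, ← ha]
  obtain ⟨h2, h3⟩ := C4_in4 hy h1
  exact ⟨h2, rfl, h3⟩

theorem lam5_two : (2 : 𝓞 K4) * Pool.Agent.Lib.MP_1a91b9_ntQ.lam ^ 3 ∣
    Pool.Agent.Lib.MP_1a91b9_ntQ.lam ^ 5 :=
  ⟨iO, by linear_combination (Pool.Agent.Lib.MP_1a91b9_ntQ.lam ^ 3) * lam_sq⟩

/-- the class of a square -/
theorem Kc.Sq {a : K} {α w : ZMod 2} {y : 𝓞 K} (h : Kc a α w y)
    (hS : Pool.Agent.Lib.MP_1a91b9_ntH.C.Sq nuL a) :
    α = 0 ∧ w = 0 ∧ aa y = 0 ∧ bb y = 0 := by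
  obtain ⟨h1, h2, h3⟩ := h.C4 (C4.of_sq hS)
  refine ⟨h1, h2, h3, ?_⟩
  obtain ⟨hy, m, hm, ha⟩ := h
  subst h1
  subst h2
  rw [ZMod.val_zero, pow_zero, pow_zero, one_mul, one_mul] at ha
  have h4 : Pool.Agent.Lib.MP_1a91b9_ntH.C.Sq nuL (y : K) := by
    refine Sq.of_mul_sq hm ?_
    have e : (y : K) * m ^ 2 = a := by
      rw [mul_comm]
      exact ha.symm
    rwa [e]
  obtain ⟨ε, hε, h5⟩ := Sq_near iK_sq' nuL_two nuL_res (pv_one prime_lam hy.not_lam) h4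
  rcases hε with rfl | rfl
  · have h6 : Pool.Agent.Lib.MP_1a91b9_ntQ.lam ^ 5 ∣ y - 1 := by
      rw [← nuL_le_pow]
      have e : ((y - 1 : 𝓞 K) : K) = (y : K) - 1 := by
        push_cast
        rfl
      rwa [e]
    have h7 := bb_congr hy (lam5_two.trans h6)
    rw [h7, bb_one]
  · exfalso
    have h6 : Pool.Agent.Lib.MP_1a91b9_ntQ.lam ^ 5 ∣ y - -1 := by
      rw [← nuL_le_pow]
      have e : ((y - -1 : 𝓞 K) : K) = (y : K) - -1 := by
        push_cast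
        rfl
      rwa [e]
    have h8 : Pool.Agent.Lib.MP_1a91b9_ntQ.lam ^ 3 ∣ (2 : 𝓞 K) := by
      have h9 : Pool.Agent.Lib.MP_1a91b9_ntQ.lam ^ 3 ∣ y - -1 :=
        (pow_dvd_pow Pool.Agent.Lib.MP_1a91b9_ntQ.lam (by norm_num)).trans h6
      have h10 := dvd_sub h9 hy
      have e : y - -1 - (y - 1) = 2 := by ring
      rwa [e] at h10
    have h9 : Pool.Agent.Lib.MP_1a91b9_ntQ.lam ^ 3 ∣ Pool.Agent.Lib.MP_1a91b9_ntQ.lam ^ 2 := by
      rw [lam_sq]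
      exact h8.mul_right _
    have h10 := (pow_dvd_pow_iff lam_ne_zero prime_lam.not_isUnit).1 h9
    omega

end

end Pool.Agent.Lib.MP_1a91b9_ntQ.C
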