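import Pool.Agent.Lib.MP_1a91b9_ntQ.A.SyI
import Pool.Agent.Lib.MP_1a91b9_ntQ.A.ClmE
import Pool.Agent.Lib.MP_1a91b9_ntQ.B.WtB

/-!
# Quartic twists, part B, file LaEv: the value at `1` in the even classes (`k` and `j` even)

`S0` is the set of the primes of odd exponent, `B0 = U ∪ V` the set of the primes of exponent two.
The right side of the identity of `T ∪ C` is `R T C` modulo the maximal ideal, to the order `n`.
-/

set_option autoImplicit false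
set_option linter.unusedSectionVars false

namespace Pool.Agent.Lib.MP_1a91b9_ntQ

open NumberField Pool.Agent.Lib.MP_1a91b9_nuT Pool.Agent.Lib.MP_1a91b9_nuT.S3
  Pool.Agent.Lib.MP_1a91b9_nuT.Ell

noncomputable section

/-- the order of the weight for the two sets -/
theorem mB_TC {e : Pg → ZMod 4} {T C : Finset Pg} (hd : Disjoint T C)
    (he : ∀ q ∈ T, md (e q) ≠ 0) (hC : ∀ q ∈ C, e q = 2) : mB e (T ∪ C) = T.card + 2 * C.card := by
  rw [mB, Finset.sum_union hd]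
  have h1 : ∑ q ∈ T, (if md (e q) = 0 then 2 else 1) = T.card := by
    rw [Finset.card_eq_sum_ones]
    exact Finset.sum_congr rfl fun q hq => if_neg (he q hq)
  have h2 : ∑ q ∈ C, (if md (e q) = 0 then 2 else 1) = 2 * C.card := by
    rw [Finset.card_eq_sum_ones, Finset.mul_sum]
    refine Finset.sum_congr rfl fun q hq => ?_
    rw [hC q hq, md_two, if_pos rfl, mul_one]
  rw [h1, h2]

variable {B : ValuationSubring ℂ}

/-- **The analytic side of the even classes.** -/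
theorem LaB_even (hB : (2 : ℂ)⁻¹ ∉ B) (k : ZMod 4) (j : ℕ) {e : Pg → ZMod 4}
    {S0 B0 : Finset Pg} (hd : Disjoint S0 B0) (he : ∀ q ∈ S0, md (e q) ≠ 0)
    (hC : ∀ q ∈ B0, e q = 2) {K : ℂ} {n : ℕ} (hn : 1 ≤ n) {f : Pg → ZMod 2}
    (h0 : Rt B (LaB k j e ∅ / K) 1)
    (hf : ∀ b : Pg, Rt B ((em b.1 - XB k j e ∅ b.1) / lm ^ (1 + n)) (f b))
    {P : Finset Pg → Finset Pg → MvPolynomial Pg (ZMod 2)} {R : Finset Pg → Finset Pg → ZMod 2}
    (hP0 : ∀ b ∈ B0, cf (P ∅ {b}) ∅ = f b)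
    (hP1 : ∀ T ⊆ S0, ∀ C ⊆ B0, ∀ b ∈ C, (T ∪ C.erase b).Nonempty → ∀ E : Finset Pg, b ∉ E →
      cf (P T C) E = cf (wE s4 (kapB k j) T (C.erase b) b * P T (C.erase b)) E)
    (hP2 : ∀ T ⊆ S0, ∀ C ⊆ B0, C.Nonempty →
      ∑ T' ∈ T.powerset, cf (P T' C * ∏ b ∈ T \ T', wE s4 (kapB k j) T' C b) C = R T C)
    (hP3 : ∀ T ⊆ S0, T.Nonempty →
      ∑ T' ∈ T.powerset.erase ∅, cf (P T' ∅ * ∏ b ∈ T \ T', wE s4 (kapB k j) T' ∅ b) ∅ +
        (if T.card = 1 then ∑ q ∈ T, f q else 0) = R T ∅)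
    (hR : ∀ T ⊆ S0, ∀ C ⊆ B0, (T ∪ C).Nonempty → Rt B ((∑ Q ∈ (T ∪ C).powerset,
      (-1) ^ Q.card * (LaB k j e Q * ∏ q ∈ (T ∪ C) \ Q, (em q.1 - XB k j e Q q.1))) /
        (K * lm ^ (mB e (T ∪ C) + n))) (R T C))
    (hS0 : S0.Nonempty) {U V : Finset Pg} (hUB : U ∪ V = B0) (hUV : Disjoint U V)
    (hu1 : ∀ b ∈ U, kapB k j b + ∑ p ∈ S0, s4 b p = 1)
    (hu0 : ∀ b ∈ V, kapB k j b + ∑ p ∈ S0, s4 b p = 0) :
    Rt B (LaB k j e (S0 ∪ B0) / (K * lm ^ (S0.card + U.card + 2 * V.card + n)))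
      (∑ A ∈ V.powerset, cf (P S0 A) A *
        pdt (blkL s4 (fun b => hf2 (EB k j e (S0 ∪ U) b)) V) (V \ A)) := by
  have hU : U ⊆ B0 := hUB ▸ Finset.subset_union_left
  have hV : V ⊆ B0 := hUB ▸ Finset.subset_union_right
  refine (syB hB k j hd he K).final_even hn (f := f) ?_ (fun b _ => hf b) hP0 hP1 hP2 hP3 ?_ hS0
    hUB hUV hu1 hu0 ?_ ?_
  · rw [LaS, Finset.empty_union]
    exact h0
  · intro T hT C hC' hTC
    have hTC' : Disjoint T C := Finset.disjoint_of_subset_left hT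
      (Finset.disjoint_of_subset_right hC' hd)
    have h2 := hR T hT C hC' hTC
    rw [mB_TC hTC' (fun q hq => he q (hT hq)) fun q hq => hC q (hC' hq)] at h2
    rw [idB_eq_avg k j K n hTC' fun q hq => hC q (hC' hq)]
    exact h2
  · intro b hb
    exact h1B hB k j e fun h => Finset.disjoint_left.1 hd h (hV hb)
  · intro b hb
    exact h2B hB k j (Finset.disjoint_of_subset_right hU hd) he (fun a ha => hC a (hU ha))
      (fun h => Finset.disjoint_left.1 hd h (hV hb))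
      (fun h => Finset.disjoint_left.1 hUV h hb) (hu0 b hb)

end

end Pool.Agent.Lib.MP_1a91b9_ntQ
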