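import Pool.Agent.Lib.MP_1a91b9_ntQ.B.RhsI
import Pool.Agent.Lib.MP_1a91b9_ntQ.A.SyI

/-!
# Quartic twists, part B, file LaI: class I (`j = 0`, `k` odd), the value at `1` for all exponents

`S0` is the set of the primes of odd exponent, `B0 = U ∪ V` the set of the primes of exponent two,
`V` the set of the `b` such that `D / b²` is a square modulo `b`. The class of the normalised value
is the determinant of the final matrix.
-/

set_option autoImplicit false
set_option linter.unusedSectionVars false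

namespace Pool.Agent.Lib.MP_1a91b9_ntQ

open NumberField Pool.Agent.Lib.MP_1a91b9_nuT Pool.Agent.Lib.MP_1a91b9_nuT.S3
  Pool.Agent.Lib.MP_1a91b9_nuT.Ell

noncomputable section

/-- the order of the weight for the two sets -/
private theorem LaI_mB {e : Pg → ZMod 4} {T C : Finset Pg} (hd : Disjoint T C)
    (he : ∀ q ∈ T, md (e q) ≠ 0) (hC : ∀ q ∈ C, e q = 2) : mB e (T ∪ C) = T.card + 2 * C.card := by
  rw [mB, Finset.sum_union hd]
  have h1 : ∑ q ∈ T, (if md (e q) = 0 then 2 else 1) = T.card := by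
    rw [Finset.card_eq_sum_ones]
    exact Finset.sum_congr rfl fun q hq => if_neg (he q hq)
  have h2 : ∑ q ∈ C, (if md (e q) = 0 then 2 else 1) = 2 * C.card := by
    rw [Finset.card_eq_sum_ones, Finset.mul_sum]
    refine Finset.sum_congr rfl fun q hq => ?_
    rw [hC q hq, md_two, if_pos rfl, mul_one]
  rw [h1, h2]

variable {B : ValuationSubring ℂ}

/-- **The whole algebra without border, for every class** : if the right side of the identity
vanishes modulo the maximal ideal then the class of the value is the determinant. -/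
theorem LaB_noborder (hB : (2 : ℂ)⁻¹ ∉ B) (k : ZMod 4) (j : ℕ) {e : Pg → ZMod 4}
    {S0 B0 : Finset Pg} (hd : Disjoint S0 B0) (he : ∀ q ∈ S0, md (e q) ≠ 0)
    (hC : ∀ q ∈ B0, e q = 2) {K : ℂ} (h0 : Rt B (LaB k j e ∅ / K) 1)
    (hR : ∀ S ⊆ S0 ∪ B0, S.Nonempty → Rt B ((∑ T ∈ S.powerset, (-1) ^ T.card *
      (LaB k j e T * ∏ q ∈ S \ T, (em q.1 - XB k j e T q.1))) / (K * lm ^ mB e S)) 0)
    {U V : Finset Pg} (hUB : U ∪ V = B0) (hUV : Disjoint U V)
    (hu1 : ∀ b ∈ U, kapB k j b + ∑ p ∈ S0, s4 b p = 1)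
    (hu0 : ∀ b ∈ V, kapB k j b + ∑ p ∈ S0, s4 b p = 0) :
    Rt B (LaB k j e (S0 ∪ B0) / (K * lm ^ (S0.card + U.card + 2 * V.card)))
      (pdt (blkM s4 (kapB k j) (fun b => hf2 (EB k j e (S0 ∪ U) b)) S0 V) (S0 ∪ V)) := by
  have hU : U ⊆ B0 := hUB ▸ Finset.subset_union_left
  have hV : V ⊆ B0 := hUB ▸ Finset.subset_union_right
  refine (syB hB k j hd he K).final_odd ?_ ?_ hUB hUV hu1 hu0 ?_ ?_
  · rw [LaS, Finset.empty_union]
    exact h0
  · intro T hT C hC' hTC
    have hTC' : Disjoint T C := Finset.disjoint_of_subset_left hT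
      (Finset.disjoint_of_subset_right hC' hd)
    have h2 := hR (T ∪ C) (Finset.union_subset_union hT hC') hTC
    rw [LaI_mB hTC' (fun q hq => he q (hT hq)) fun q hq => hC q (hC' hq)] at h2
    rw [idB_eq_avg k j K 0 hTC' fun q hq => hC q (hC' hq), add_zero]
    exact h2
  · intro b hb
    exact h1B hB k j e fun h => Finset.disjoint_left.1 hd h (hV hb)
  · intro b hb
    exact h2B hB k j (Finset.disjoint_of_subset_right hU hd) he (fun a ha => hC a (hU ha))
      (fun h => Finset.disjoint_left.1 hd h (hV hb))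
      (fun h => Finset.disjoint_left.1 hUV h hb) (hu0 b hb)

theorem LaB_empty4 (k : ZMod 4) (e : Pg → ZMod 4) : LaB k 0 e ∅ = La4 k ∅ := by
  rw [LaB_empty, UB_zero, La4_empty, fB_zero]

/-- **Class I** : the class of the value is the determinant. -/
theorem LaB_I (hB : (2 : ℂ)⁻¹ ∉ B) {k : ZMod 4} (hk : md k ≠ 0) {e : Pg → ZMod 4}
    {S0 B0 : Finset Pg} (hd : Disjoint S0 B0) (he : ∀ q ∈ S0, md (e q) ≠ 0)
    (hC : ∀ q ∈ B0, e q = 2) {U V : Finset Pg} (hUB : U ∪ V = B0) (hUV : Disjoint U V)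
    (hu1 : ∀ b ∈ U, kapB k 0 b + ∑ p ∈ S0, s4 b p = 1)
    (hu0 : ∀ b ∈ V, kapB k 0 b + ∑ p ∈ S0, s4 b p = 0) :
    Rt B (LaB k 0 e (S0 ∪ B0) / (La4 k ∅ * lm ^ (S0.card + U.card + 2 * V.card)))
      (pdt (blkM s4 (kapB k 0) (fun b => hf2 (EB k 0 e (S0 ∪ U) b)) S0 V) (S0 ∪ V)) := by
  refine LaB_noborder hB k 0 hd he hC ?_ (fun S hS hSn => Rt.of_lt (rhsI hB hk (fun q hq => ?_) hSn))
    hUB hUV hu1 hu0
  · rw [LaB_empty4, div_self (La4_empty_ne k)]
    exact Rt.one
  · rcases Finset.mem_union.1 (hS hq) with h | h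
    · intro h0
      apply he q h
      rw [h0, md_zero]
    · rw [hC q h]
      decide

end

end Pool.Agent.Lib.MP_1a91b9_ntQ
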