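import Pool.Agent.Lib.MP_1a91b9_ntQ.B.WtB
import Pool.Agent.Lib.MP_1a91b9_ntQ.A.Props

/-!
# Quartic twists, stage 2, file PropsB: the right side of the identity, `j = 0`, with exponents

Divided by `La4 k ∅ * lm ^ (mB e S + ek k)` the right side of the averaging identity is in the
maximal ideal, for `S` nonempty, with one exception: `k = 0`, `S = {b}`, `e b = 2`, where it is
congruent to `aa b`.
-/

set_option autoImplicit false
set_option linter.unusedSectionVars false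

namespace Pool.Agent.Lib.MP_1a91b9_ntQ

open NumberField Pool.Agent.Lib.MP_1a91b9_nuT Pool.Agent.Lib.MP_1a91b9_nuT.S3
  Pool.Agent.Lib.MP_1a91b9_nuT.Ell

noncomputable section

/-! ### the identity, `j = 0` -/

/-- The identity with a general system of representatives modulo `g4 k`. -/
theorem avg_genP (k : ZMod 4) (e : Pg → ZMod 4) (S : Finset Pg) {ι κ : Type} [Fintype ι] [Fintype κ] {c : ι → 𝓞 K}
    {x : κ → 𝓞 K} (h : RepsG (lam ^ 3) (lam ^ 3 * DDq S) c) (hex : ∀ a : 𝓞 K, ∃ j, g4 k ∣ a - x j)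
    (hinj : ∀ i j, g4 k ∣ x i - x j → i = j) :
    ∑ T ∈ S.powerset, (-1) ^ T.card * (LaB k 0 e T * ∏ q ∈ S \ T, (em q.1 - XB k 0 e T q.1)) =
      ∑ i, th4 k (c i) * wB e S (c i) *
        ∑ j, e4 (k * sm (x j)) * E1 (zp k S (c i) + em (x j) / em (g4 k)) := by
  let _ : DecidableEq (Pf (lam ^ 3)) := inferInstanceAs (DecidableEq Pg)
  have h1 := Gen_avg (th4_chr k) (fun q : Pf (lam ^ 3) => chE_chrP e q) S (fun _ => -1)
    (reps4 h hex hinj)
  have hf : em (f4 k) ≠ 0 := em_ne (f4_ne k)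
  have hD : em (DDq S) ≠ 0 := em_ne (DDq_in4 S).ne_zero
  have hg0 : g4 k ≠ 0 := by
    intro h0
    apply f4_ne k
    rw [f4_eq, h0, mul_zero]
  have hg : em (g4 k) ≠ 0 := em_ne hg0
  have hl : em (lam ^ 3) ≠ 0 := em_ne (pow_ne_zero 3 lam_ne_zero)
  have h2 := congrArg (fun z : ℂ => em (f4 k * DDq S) * z) h1
  have hfD : em (f4 k * DDq S) ≠ 0 := em_ne (mul_ne_zero (f4_ne k) (DDq_in4 S).ne_zero)
  change em (f4 k * DDq S) * _ = em (f4 k * DDq S) * ((em (f4 k * DDq S))⁻¹ * _) at h2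
  rw [mul_inv_cancel_left₀ hfD, Finset.mul_sum] at h2
  have e1 : ∀ T ∈ S.powerset, (-1) ^ T.card * (LaB k 0 e T * ∏ q ∈ S \ T, (em q.1 - XB k 0 e T q.1)) =
      em (f4 k * DDq S) * ((∏ q ∈ T, (-1 : ℂ)) *
      (LG (lam ^ 3) (XT (f := lam ^ 3) (th4 k) (chE e) T) 1 *
        ∏ q ∈ S \ T, (1 - XT (f := lam ^ 3) (th4 k) (chE e) T q.1 / em q.1))) := by
    intro T hT
    have hX : XT (f := lam ^ 3) (th4 k) (chE e) T = XB k 0 e T := by
      rw [XB, thB_zero]
    have hL : LG (lam ^ 3) (XB k 0 e T) 1 = LB k 0 e T 1 := rfl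
    rw [hX, hL, Finset.prod_const, LaB, fB_zero, em_mul, em_mul, em_DDq, em_DDq]
    have e2 : ∏ q ∈ S \ T, (em q.1 - XB k 0 e T q.1) =
        (∏ q ∈ S \ T, em q.1) * ∏ q ∈ S \ T, (1 - XB k 0 e T q.1 / em q.1) := by
      rw [← Finset.prod_mul_distrib]
      refine Finset.prod_congr rfl fun q _ => ?_
      have hq : em q.1 ≠ 0 := em_ne q.ne_zero
      field_simp
    have e3 : ∏ q ∈ S, em q.1 = (∏ q ∈ T, em q.1) * ∏ q ∈ S \ T, em q.1 := by
      rw [mul_comm, Finset.prod_sdiff (Finset.mem_powerset.1 hT)]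
    rw [e2, e3]
    ring
  rw [Finset.sum_congr rfl e1]
  refine h2.trans ?_
  rw [Fintype.sum_prod_type]
  refine Finset.sum_congr rfl fun i _ => ?_
  rw [Finset.mul_sum]
  refine Finset.sum_congr rfl fun j _ => ?_
  change th4 k (c i + lam ^ 3 * (DDq S * x j)) *
    (∏ q ∈ S, (1 + -1 * chE e q (c i + lam ^ 3 * (DDq S * x j)))) *
    E1 (em (c i + lam ^ 3 * (DDq S * x j)) / em (f4 k * DDq S)) = _
  have e2 : ∏ q ∈ S, (1 + -1 * chE e q (c i + lam ^ 3 * (DDq S * x j))) = wB e S (c i) := by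
    have h3 : wB e S (c i + lam ^ 3 * (DDq S * x j)) = wB e S (c i) := wB_per e ⟨lam ^ 3 * x j, by ring⟩
    rw [← h3, wB]
    exact Finset.prod_congr rfl fun q _ => by ring
  have e3 : th4 k (c i + lam ^ 3 * (DDq S * x j)) = th4 k (c i) * e4 (k * sm (x j)) := by
    rw [th4, nn_add (h.fx i), sm_mul_in4 (DDq_in4 S), mul_add, e4_add]
    rfl
  have e5 : em (c i + lam ^ 3 * (DDq S * x j)) / em (f4 k * DDq S) =
      zp k S (c i) + em (x j) / em (g4 k) := by
    have e6 : em (f4 k) = em (lam ^ 3) * em (g4 k) := by rw [f4_eq, em_mul]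
    rw [zp, em_add, em_mul (lam ^ 3), em_mul (DDq S), em_mul (f4 k), e6]
    field_simp
  rw [e2, e3, e5]
  ring


/-- **The identity (ID).** -/
theorem avg4P (k : ZMod 4) (e : Pg → ZMod 4) (S : Finset Pg) {ι : Type} [Fintype ι] {c : ι → 𝓞 K}
    (h : RepsG (lam ^ 3) (lam ^ 3 * DDq S) c) :
    ∑ T ∈ S.powerset, (-1) ^ T.card * (LaB k 0 e T * ∏ q ∈ S \ T, (em q.1 - XB k 0 e T q.1)) =
      ∑ i, th4 k (c i) * wB e S (c i) * Ph4 k (zp k S (c i)) := by
  rcases f4_cases k with rfl | rfl | ⟨h0, h2⟩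
  · rw [avg_genP 0 e S (κ := Unit) (x := fun _ => 0) h
      (fun a => ⟨(), by rw [g4_zero]; exact one_dvd _⟩) (fun _ _ _ => rfl)]
    refine Finset.sum_congr rfl fun i _ => ?_
    rw [Fintype.sum_unique, zero_mul, e4_zero, one_mul, em_zero, zero_div, add_zero, Ph4_zero]
  · rw [avg_genP 2 e S (κ := Fin 2) (x := fun b => (b.val : 𝓞 K)) h ?_ ?_]
    · refine Finset.sum_congr rfl fun i _ => ?_
      congr 1
      have v0 : (((0 : Fin 2).val : ℕ) : 𝓞 K) = 0 := Nat.cast_zero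
      have v1 : (((1 : Fin 2).val : ℕ) : 𝓞 K) = 1 := Nat.cast_one
      have hpe : em 1 / em lam = pe := by rw [em_one, em_lam, pe, one_div]
      rw [Fin.sum_univ_two, v0, v1, sm_zero, sm_one, mul_zero, mul_one, e4_zero, e4_two, em_zero,
        zero_div, add_zero, g4_two, hpe]
      unfold Ph4
      have h20 : (2 : ZMod 4) ≠ 0 := by decide
      rw [if_neg h20, if_pos rfl]
      ring
    · intro a
      rw [g4_two]
      rcases Int.emod_two_eq_zero_or_one ((cp a).1 + (cp a).2) with h1 | h1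
      · refine ⟨0, ?_⟩
        have v0 : (((0 : Fin 2).val : ℕ) : 𝓞 K) = 0 := Nat.cast_zero
        rw [v0, sub_zero, lam_dvd_iff]
        exact Int.dvd_of_emod_eq_zero h1
      · refine ⟨1, ?_⟩
        have v1 : (((1 : Fin 2).val : ℕ) : 𝓞 K) = 1 := Nat.cast_one
        rw [v1, lam_dvd_iff, sub_cp, cp_one]
        dsimp only
        omega
    · intro a b hab
      rw [g4_two, lam_dvd_iff, sub_cp] at hab
      have c1 : ∀ n : ℕ, cp (n : 𝓞 K) = ((n : ℤ), (0 : ℤ)) := by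
        intro n
        have := cp_coords n 0
        simpa using this
      rw [c1, c1] at hab
      dsimp only at hab
      have h1 := a.isLt
      have h2 := b.isLt
      exact Fin.ext (by omega)
  · rw [avg_genP k e S (κ := ZMod 4 × Fin 2) (x := x4) h ?_ ?_]
    · refine Finset.sum_congr rfl fun i _ => ?_
      rw [g4_odd h0 h2, sum_x4 h0 h2]
    · rw [g4_odd h0 h2]
      exact x4_ex
    · rw [g4_odd h0 h2]
      exact x4_inj


/-! ### the value for the empty set -/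

theorem LaB_empty_zero (k : ZMod 4) (e : Pg → ZMod 4) : LaB k 0 e ∅ = La4 k ∅ := by
  have h1 := avg4P k e ∅ reps_empty
  have h2 := avg4 k ∅ reps_empty
  rw [Finset.powerset_empty, Finset.sum_singleton, Finset.card_empty, pow_zero, one_mul,
    Finset.sdiff_self, Finset.prod_empty, mul_one, Fintype.sum_unique, wB_empty] at h1
  rw [Finset.powerset_empty, Finset.sum_singleton, Finset.card_empty, pow_zero, one_mul,
    Finset.sdiff_self, Finset.prod_empty, mul_one, Fintype.sum_unique, w4_empty] at h2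
  rw [h1, h2]

/-! ### the three cases -/

variable {B : ValuationSubring ℂ}

theorem propsB_sum (k : ZMod 4) (e : Pg → ZMod 4) {S : Finset Pg} {ι : Type} [Fintype ι]
    {c : ι → 𝓞 K} (hc : RepsG (lam ^ 3) (lam ^ 3 * DDq S) c) (hf : ∀ i, f4 k ∣ c i - 1) :
    ∑ T ∈ S.powerset, (-1) ^ T.card * (LaB k 0 e T * ∏ q ∈ S \ T, (em q.1 - XB k 0 e T q.1)) =
    lm ^ mB e S * ∑ i, wtB e S (c i) * Ph4 k (zp k S (c i)) := by
  rw [avg4P k e S hc, Finset.mul_sum]
  refine Finset.sum_congr rfl fun i _ => ?_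
  have hl : lm ^ mB e S ≠ 0 := pow_ne_zero _ lm_ne
  rw [th4_congr k (hc.fx i) (hf i), th4_one, wtB]
  field_simp

theorem sum_wtB_c (e : Pg → ZMod 4) {S : Finset Pg} (he : ∀ q ∈ S, e q ≠ 0) {ι : Type} [Fintype ι]
    {c : ι → 𝓞 K} (hc : RepsG (lam ^ 3) (lam ^ 3 * DDq S) c) :
    ∑ i, wtB e S (c i) = ∏ q ∈ S, (((Nz q.1 : ℂ) - 1) / lm ^ mq (e q)) := by
  have h1 : ∑ i, wtB e S (c i) = (∑ i, wB e S (c i)) / lm ^ mB e S := by
    rw [Finset.sum_div]
    rfl
  rw [h1, sum_wB_c hc he, mB_eq, Finset.prod_div_distrib, Finset.prod_pow_eq_pow_sum]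

theorem propsB_pair (hB : (2 : ℂ)⁻¹ ∉ B) {e : Pg → ZMod 4} {S : Finset Pg}
    (he : ∀ q ∈ S, e q ≠ 0) {ι : Type} [Fintype ι] {c : ι → 𝓞 K} {sg : ι → ι}
    (hc : RepsG (lam ^ 3) (lam ^ 3 * DDq S) c) (hs2 : ∀ i, sg (sg i) = i) (hs1 : ∀ i, sg i ≠ i)
    (hd : ∀ i, DDq S ∣ c i + c (sg i)) {F : ι → ℂ} {g : B.ValueGroup} (hg : 0 < g)
    (hF : ∀ i, B.valuation lm * B.valuation (F i) < g)
    (hF2 : ∀ i, B.valuation (F i + F (sg i)) < g) :
    B.valuation (∑ i, wtB e S (c i) * F i) < g :=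
  pair_lt hs2 hs1 hg (fun i => v_wtB hB he fun _ hq => reps_not_dvd hc i hq)
    (fun i => v_wtB_sub hB he (fun _ hq => reps_not_dvd hc i hq) (hd i)) hF hF2

/-- the residue class of the right side -/
def rB (k : ZMod 4) (e : Pg → ZMod 4) (S : Finset Pg) : ZMod 2 :=
  if k = 0 ∧ S.card = 1 then ∑ q ∈ S, (if md (e q) = 0 then aa q.1 else 0) else 0

/-- **The right side**, `j = 0`. -/
theorem propsB (hB : (2 : ℂ)⁻¹ ∉ B) (k : ZMod 4) {e : Pg → ZMod 4} {S : Finset Pg}
    (he : ∀ q ∈ S, e q ≠ 0) (hS : S.Nonempty) :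
    Rt B ((∑ T ∈ S.powerset, (-1) ^ T.card *
        (LaB k 0 e T * ∏ q ∈ S \ T, (em q.1 - XB k 0 e T q.1))) /
      (La4 k ∅ * lm ^ (mB e S + ek k))) (rB k e S) := by
  obtain ⟨ι, hι, c, sg, hc, hf, hs2, hs1, hd, hz0, hz2, hzo, hR, -⟩ := exists_pairs4 k hS
  have hl : (0 : B.ValueGroup) < B.valuation lm := v_lm_pos
  have hl1 : B.valuation lm < 1 := v_lm_lt hB
  have hlm := lm_ne
  have hod : ∀ i, Od (zp k S (c i)) := fun i => od_zp k hS (reps_cop hc i)
  have hsum := sum_wtB_c e he hc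
  rw [propsB_sum k e hc hf]
  have hpow : lm ^ mB e S ≠ 0 := pow_ne_zero _ hlm
  rcases f4_cases k with rfl | rfl | ⟨h0, h2⟩
  · -- `k = 0`
    have hE : E1 (pe ^ 3) ≠ 0 := E1_pe3_ne
    have h1 : B.valuation (∑ i, wtB e S (c i) * (E1 (zp 0 S (c i)) / E1 (pe ^ 3) - 1)) <
        B.valuation lm ^ 2 := by
      refine propsB_pair hB he hc hs2 hs1 hd (pow_pos hl 2) (fun i => ?_) (fun i => ?_)
      · obtain ⟨R, n, hn, hR1, hR2, hR3⟩ := hR rfl i
        rw [hR3, pow_two]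
        exact mul_lt_mul_of_pos_left (v_rho hB hR2 hn hR1) hl
      · exact v_rho_pair hB (hod i) (hz0 rfl i)
    have h3 : B.valuation ((∑ i, wtB e S (c i) * (E1 (zp 0 S (c i)) / E1 (pe ^ 3) - 1)) / lm ^ 2) <
        1 := by
      rw [map_div₀, map_pow]
      exact (div_lt_one₀ (pow_pos hl 2)).2 h1
    have e1 : (lm ^ mB e S * ∑ i, wtB e S (c i) * Ph4 0 (zp 0 S (c i))) /
        (La4 0 ∅ * lm ^ (mB e S + ek 0)) =
        (∑ i, wtB e S (c i) * (E1 (zp 0 S (c i)) / E1 (pe ^ 3) - 1)) / lm ^ 2 +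
          (∏ q ∈ S, (((Nz q.1 : ℂ) - 1) / lm ^ mq (e q))) / lm ^ 2 := by
      have e2 : ∑ i, wtB e S (c i) * (E1 (zp 0 S (c i)) / E1 (pe ^ 3) - 1) + ∑ i, wtB e S (c i) =
          (∑ i, wtB e S (c i) * Ph4 0 (zp 0 S (c i))) / E1 (pe ^ 3) := by
        rw [← Finset.sum_add_distrib, Finset.sum_div]
        refine Finset.sum_congr rfl fun i _ => ?_
        rw [Ph4_zero]
        ring
      rw [← add_div, ← hsum, e2, La4_empty_zero, props_ek0, pow_add]
      field_simp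
    rw [e1]
    have h4 := (Rt.of_lt h3).add hB (Rt_sum_two hB e hS)
    rw [zero_add] at h4
    have e3 : rB 0 e S = (if S.card = 1 then ∑ q ∈ S, (if md (e q) = 0 then aa q.1 else 0) else 0) := by
      unfold rB
      simp only [true_and]
    rw [e3]
    exact h4
  · -- `k = 2`
    have h20 : (2 : ZMod 4) ≠ 0 := by decide
    have e3 : rB 2 e S = 0 := by
      unfold rB
      rw [if_neg fun h => h20 h.1]
    rw [e3]
    refine Rt.of_lt ?_
    have hg : gG (pe ^ 4) ≠ 0 := div_ne_zero (gg_ne two_pe4_notMem) hlm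
    have h1 : B.valuation (∑ i, wtB e S (c i) * (gG (zp 2 S (c i)) - 1)) < B.valuation lm := by
      refine propsB_pair hB he hc hs2 hs1 hd hl (fun i => ?_) (fun i => ?_)
      · exact mul_lt_of_lt_one_right hl (v_gG_sub hB (hod i))
      · exact v_gG_pair hB (hod i) (hz2 rfl i)
    have h3 : B.valuation (∑ i, wtB e S (c i) * (gG (zp 2 S (c i)) - 1) + ∑ i, wtB e S (c i)) <
        B.valuation lm := by
      refine Valuation.map_add_lt _ h1 ?_
      rw [hsum]
      exact v_sum_one hB e hS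
    have e : (lm ^ mB e S * ∑ i, wtB e S (c i) * Ph4 2 (zp 2 S (c i))) /
        (La4 2 ∅ * lm ^ (mB e S + ek 2)) =
        (∑ i, wtB e S (c i) * (gG (zp 2 S (c i)) - 1) + ∑ i, wtB e S (c i)) / (gG (pe ^ 4) * lm) := by
      have e1 : ∑ i, wtB e S (c i) * Ph4 2 (zp 2 S (c i)) =
          -(Om * lm) * (∑ i, wtB e S (c i) * (gG (zp 2 S (c i)) - 1) + ∑ i, wtB e S (c i)) := by
        rw [← Finset.sum_add_distrib, Finset.mul_sum]
        refine Finset.sum_congr rfl fun i _ => ?_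
        rw [Ph4_two, gg_gG]
        ring
      have hO := Om_ne_zero
      rw [e1, La4_empty_two, props_ek2, pow_add, pow_one, gg_gG]
      field_simp
    rw [e, map_div₀, map_mul, v_gG_pe4, one_mul]
    exact (div_lt_one₀ hl).2 h3
  · -- `k` odd
    have e3 : rB k e S = 0 := by
      unfold rB
      rw [if_neg fun h => h0 h.1]
    rw [e3]
    refine Rt.of_lt ?_
    have hcs := e4_sq_odd h0 h2
    have hP := PO_base_ne hcs
    have h1 : B.valuation (∑ i, wtB e S (c i) * PO (e4 k) (zp k S (c i))) < B.valuation lm ^ 4 := by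
      refine propsB_pair hB he hc hs2 hs1 hd (pow_pos hl 4) (fun i => ?_) (fun i => ?_)
      · have h4 := v_PO hB hcs (hod i)
        have h5 : (B.valuation lm * B.valuation (PO (e4 k) (zp k S (c i)))) ^ 2 <
            (B.valuation lm ^ 4) ^ 2 := by
          rw [mul_pow, ← pow_mul]
          calc B.valuation lm ^ 2 * B.valuation (PO (e4 k) (zp k S (c i))) ^ 2 <
              B.valuation lm ^ 2 * B.valuation lm ^ 7 := mul_lt_mul_of_pos_left h4 (pow_pos hl 2)
            _ = B.valuation lm ^ 9 := by rw [← pow_add]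
            _ < B.valuation lm ^ (4 * 2) := lpow hB (by norm_num)
        exact lt_of_pow_lt_pow_left₀ 2 zero_le h5
      · rcases hzo h0 h2 i with h | h
        · have h4 := v_PO_pair hB hcs (hod i) h (e := 1) (by norm_num)
          rwa [one_mul] at h4
        · have h4 := v_PO_pair hB hcs (hod i) h (e := -1) (by norm_num)
          rw [PO_add_pe] at h4
          have e : PO (e4 k) (zp k S (c i)) + -1 * -PO (e4 k) (zp k S (c (sg i))) =
              PO (e4 k) (zp k S (c i)) + PO (e4 k) (zp k S (c (sg i))) := by ring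
          rwa [e] at h4
    have e : (lm ^ mB e S * ∑ i, wtB e S (c i) * Ph4 k (zp k S (c i))) /
        (La4 k ∅ * lm ^ (mB e S + ek k)) =
        (∑ i, wtB e S (c i) * PO (e4 k) (zp k S (c i))) / PO (e4 k) (pe ^ 6) := by
      have e1 : ∑ i, wtB e S (c i) * Ph4 k (zp k S (c i)) =
          -Om * ∑ i, wtB e S (c i) * PO (e4 k) (zp k S (c i)) := by
        rw [Finset.mul_sum]
        refine Finset.sum_congr rfl fun i _ => ?_
        rw [Ph4_PO h0 h2]
        ring
      have hO := Om_ne_zero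
      rw [e1, La4_empty_PO h0 h2, props_ekO h0 h2, add_zero]
      field_simp
    rw [e, map_div₀, v_PO_base hB hcs]
    exact (div_lt_one₀ (pow_pos hl 4)).2 h1

end

end Pool.Agent.Lib.MP_1a91b9_ntQ
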