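import Pool.Agent.Lib.MP_1a91b9_ntQ.A.EvB
import Pool.Agent.Lib.MP_1a91b9_ntQ.A.Fac4
import Pool.Agent.Lib.MP_1a91b9_ntQ.B.LaEv
import Pool.Agent.Lib.MP_1a91b9_ntQ.B.PropsB

/-!
# Quartic twists, part B, file LaII: classes II and III (`j = 0`, `k` even), the value at `1`

`S0` is the set of the primes of odd exponent, `B0 = U ∪ V` the set of the primes of exponent two.
The class of the normalised value is `∑ (q ∈ S0) aa q` times a principal cofactor of the final matrix.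
-/

set_option autoImplicit false
set_option linter.unusedSectionVars false

namespace Pool.Agent.Lib.MP_1a91b9_ntQ

open NumberField Pool.Agent.Lib.MP_1a91b9_nuT Pool.Agent.Lib.MP_1a91b9_nuT.S3
  Pool.Agent.Lib.MP_1a91b9_nuT.Ell

noncomputable section

variable {B : ValuationSubring ℂ}

/-- **The even classes, the value for the whole set.** -/
theorem LaB_evCE (hB : (2 : ℂ)⁻¹ ∉ B) (k : ZMod 4) (j : ℕ) (hk : ∀ b, kapB k j b = 0)
    {e : Pg → ZMod 4} {S0 B0 : Finset Pg} (hd : Disjoint S0 B0) (he : ∀ q ∈ S0, md (e q) ≠ 0)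
    (hC : ∀ q ∈ B0, e q = 2) {K : ℂ} {n : ℕ} (hn : 1 ≤ n) {h f g : Pg → ZMod 2}
    (h0 : Rt B (LaB k j e ∅ / K) 1)
    (hf : ∀ b ∈ S0 ∪ B0, Rt B ((em b.1 - XB k j e ∅ b.1) / lm ^ (1 + n)) (f b))
    (hR : ∀ T ⊆ S0, ∀ C ⊆ B0, (T ∪ C).Nonempty → Rt B ((∑ Q ∈ (T ∪ C).powerset,
      (-1) ^ Q.card * (LaB k j e Q * ∏ q ∈ (T ∪ C) \ Q, (em q.1 - XB k j e Q q.1))) /
        (K * lm ^ (mB e (T ∪ C) + n)))
      (if C = ∅ then (if T.card = 1 then ∑ q ∈ T, (h q + f q) else 0) else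
        if T = ∅ ∧ C.card = 1 then ∑ q ∈ C, g q else 0))
    {U V : Finset Pg} (hUB : U ∪ V = B0) (hUV : Disjoint U V)
    (hu1 : ∀ b ∈ U, ∑ p ∈ S0, s4 b p = 1) (hu0 : ∀ b ∈ V, ∑ p ∈ S0, s4 b p = 0)
    {r0 : Pg} (hr : r0 ∈ S0) :
    Rt B (LaB k j e (S0 ∪ B0) / (K * lm ^ (S0.card + U.card + 2 * V.card + n)))
      ((∑ q ∈ S0, h q) * pdt (blkM s4 0 (fun b => hf2 (EB k j e (S0 ∪ U) b)) S0 V)
        ((S0 ∪ V).erase r0)) := by
  have hU : U ⊆ B0 := hUB ▸ Finset.subset_union_left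
  have hV : V ⊆ B0 := hUB ▸ Finset.subset_union_right
  have hSV : Disjoint S0 V := Finset.disjoint_of_subset_right hV hd
  rw [← blkMv_symm s4 (fun p q hpq => s4_symm hpq) h f _ hSV hr hu0]
  refine (syB hB k j hd he K).final_CE2 hk hn ?_ hf (g := g) ?_ hUB hUV hu1 hu0 ?_ ?_ hr
  · rw [LaS, Finset.empty_union]
    exact h0
  · intro T hT C hC' hTC
    have hTC' : Disjoint T C := Finset.disjoint_of_subset_left hT
      (Finset.disjoint_of_subset_right hC' hd)
    have h2 := hR T hT C hC' hTC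
    rw [mB_TC hTC' (fun q hq => he q (hT hq)) fun q hq => hC q (hC' hq)] at h2
    rw [idB_eq_avg k j K n hTC' fun q hq => hC q (hC' hq)]
    exact h2
  · intro b hb
    exact h1B hB k j e fun h => Finset.disjoint_left.1 hSV h hb
  · intro b hb
    refine h2B hB k j (Finset.disjoint_of_subset_right hU hd) he (fun a ha => hC a (hU ha))
      (fun h => Finset.disjoint_left.1 hSV h hb)
      (fun h => Finset.disjoint_left.1 hUV h hb) ?_
    rw [hk b, zero_add]
    exact hu0 b hb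

/-- the factor at the empty set, `j = 0`, `k` even -/
theorem Rt_facEv (hB : (2 : ℂ)⁻¹ ∉ B) {k : ZMod 4} (hk : md k = 0) (e : Pg → ZMod 4) (q : Pg) :
    Rt B ((em q.1 - XB k 0 e ∅ q.1) / lm ^ (1 + ek k)) (aa q.1) := by
  have e1 : XB k 0 e ∅ q.1 = X4 k ∅ q.1 := by
    rw [XB_eq, ← XB_X4, XB_eq, Finset.prod_empty, Finset.prod_empty]
  rw [e1]
  have hk2 : k = 0 ∨ k = 2 := by
    have : ∀ k : ZMod 4, (ZMod.castHom (show 2 ∣ 4 by norm_num) (ZMod 2)) k = 0 → k = 0 ∨ k = 2 := by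
      decide
    exact this k hk
  rcases hk2 with rfl | rfl
  · rw [props_ek0]
    exact Rt_fac_zero hB q
  · rw [props_ek2]
    exact Rt_fac_two hB q

/-- **Classes II and III, the value for the whole set.** -/
theorem LaB_II (hB : (2 : ℂ)⁻¹ ∉ B) {k : ZMod 4} (hk : md k = 0) {e : Pg → ZMod 4}
    {S0 B0 : Finset Pg} (hd : Disjoint S0 B0) (he : ∀ q ∈ S0, md (e q) ≠ 0)
    (hC : ∀ q ∈ B0, e q = 2) {U V : Finset Pg} (hUB : U ∪ V = B0) (hUV : Disjoint U V)
    (hu1 : ∀ b ∈ U, ∑ p ∈ S0, s4 b p = 1) (hu0 : ∀ b ∈ V, ∑ p ∈ S0, s4 b p = 0)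
    {r0 : Pg} (hr : r0 ∈ S0) :
    Rt B (LaB k 0 e (S0 ∪ B0) / (La4 k ∅ * lm ^ (S0.card + U.card + 2 * V.card + ek k)))
      ((∑ q ∈ S0, aa q.1) * pdt (blkM s4 0 (fun b => hf2 (EB k 0 e (S0 ∪ U) b)) S0 V)
        ((S0 ∪ V).erase r0)) := by
  have hk2 : k = 0 ∨ k = 2 := by
    have : ∀ k : ZMod 4, (ZMod.castHom (show 2 ∣ 4 by norm_num) (ZMod 2)) k = 0 → k = 0 ∨ k = 2 := by
      decide
    exact this k hk
  have hn : 1 ≤ ek k := by
    rcases hk2 with rfl | rfl
    · rw [props_ek0]; norm_num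
    · rw [props_ek2]
  refine LaB_evCE hB k 0 (fun b => ?_) hd he hC hn (h := fun q => aa q.1) (f := fun q => aa q.1)
    (g := fun q => if k = 0 then aa q.1 else 0) ?_ (fun b _ => Rt_facEv hB hk e b) ?_ hUB hUV hu1 hu0
    hr
  · rw [kapB, hk, Nat.cast_zero, zero_mul, zero_mul, add_zero]
  · rw [LaB_empty_zero, div_self (La4_empty_ne k)]
    exact Rt.one
  · intro T hT C hC' hTC
    have hTC' : Disjoint T C := Finset.disjoint_of_subset_left hT
      (Finset.disjoint_of_subset_right hC' hd)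
    have h1 := propsB hB k (e := e) (S := T ∪ C) (fun q hq => by
      rcases Finset.mem_union.1 hq with h | h
      · intro h0
        apply he q (hT h)
        rw [h0, md_zero]
      · rw [hC q (hC' h)]
        decide) hTC
    have e1 : rB k e (T ∪ C) = (if C = ∅ then (if T.card = 1 then ∑ q ∈ T, (aa q.1 + aa q.1) else 0)
        else if T = ∅ ∧ C.card = 1 then ∑ q ∈ C, (if k = 0 then aa q.1 else 0) else 0) := by
      unfold rB
      by_cases hCe : C = ∅
      · subst hCe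
        rw [if_pos rfl, Finset.union_empty]
        have h2 : ∑ q ∈ T, (aa q.1 + aa q.1) = 0 :=
          Finset.sum_eq_zero fun q _ => CharTwo.add_self_eq_zero _
        have h3 : ∑ q ∈ T, (if md (e q) = 0 then aa q.1 else 0) = 0 :=
          Finset.sum_eq_zero fun q hq => if_neg (he q (hT hq))
        rw [h2, h3, ite_self, ite_self]
      · rw [if_neg hCe]
        have hCn : C.Nonempty := Finset.nonempty_iff_ne_empty.2 hCe
        by_cases h4 : T = ∅ ∧ C.card = 1
        · rw [if_pos h4, h4.1, Finset.empty_union]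
          by_cases hk0 : k = 0
          · rw [if_pos ⟨hk0, h4.2⟩]
            refine Finset.sum_congr rfl fun q hq => ?_
            rw [if_pos (by rw [hC q (hC' hq), md_two]), if_pos hk0]
          · rw [if_neg fun h => hk0 h.1, Finset.sum_eq_zero fun q _ => if_neg hk0]
        · rw [if_neg h4, if_neg]
          rintro ⟨-, h5⟩
          rw [Finset.card_union_of_disjoint hTC'] at h5
          have h6 := hCn.card_pos
          have h7 : T.card = 0 := by omega
          exact h4 ⟨Finset.card_eq_zero.1 h7, by omega⟩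
    rw [e1] at h1
    exact h1

end

end Pool.Agent.Lib.MP_1a91b9_ntQ
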