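import Pool.Agent.Lib.MP_1a91b9_ntQ.B.RhsJ2a
import Pool.Agent.Lib.MP_1a91b9_ntQ.A.SyI
import Pool.Agent.Lib.MP_1a91b9_ntQ.A.OptB

/-!
# Quartic twists, all fourth-power-free `D`, class J2a (`j = 2`, `k` odd), file LaJ2a: the value

`LaB k 2 e (S0 ∪ B0)` divided by `Om wq ^ 18 lm ^ (|S0| + |U| + 2 |V|)` has the class
`(x + ∑ (p ∈ S0) aa p) det`, `x = 1` for `k = 1` and `x = 0` for `k = 3`.
-/

set_option autoImplicit false

namespace Pool.Agent.Lib.MP_1a91b9_ntQ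

open NumberField Pool.Agent.Lib.MP_1a91b9_nuT Pool.Agent.Lib.MP_1a91b9_nuT.S3
  Pool.Agent.Lib.MP_1a91b9_nuT.Ell

noncomputable section

variable {B : ValuationSubring ℂ}

/-- the unit of the class J2 -/
def KJ : ℂ := Om * wq ^ 18

theorem KJ_ne : KJ ≠ 0 := mul_ne_zero Om_ne_zero (pow_ne_zero _ wq_ne)

/-- the value for the empty sets -/
def xJ (k : ZMod 4) : ZMod 2 := if k = 1 then 1 else 0

private theorem LaJ2a_odd {k : ZMod 4} (hk : ¬ (k = 0 ∨ k = 2)) :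
    md k = 1 ∧ (k = 1 ∨ k = 3) := by
  have h : ∀ k : ZMod 4, ¬ (k = 0 ∨ k = 2) → md k = 1 ∧ (k = 1 ∨ k = 3) := by decide
  exact h k hk

/-- the row sums of the class -/
theorem kapB_J2 {k : ZMod 4} (hk : ¬ (k = 0 ∨ k = 2)) (b : Pg) : kapB k 2 b = aa b.1 := by
  have h2 : ((2 : ℕ) : ZMod 2) = 0 := rfl
  rw [kapB, (LaJ2a_odd hk).1, one_mul, h2, zero_mul, add_zero]

private theorem LaJ2a_mB {e : Pg → ZMod 4} {T C : Finset Pg} (hd : Disjoint T C)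
    (hT : ∀ q ∈ T, md (e q) ≠ 0) (hC : ∀ q ∈ C, e q = 2) :
    mB e (T ∪ C) = T.card + 2 * C.card := by
  rw [mB, Finset.sum_union hd, Finset.sum_congr rfl fun q hq => if_neg (hT q hq),
    Finset.sum_congr rfl fun q hq => if_pos (by rw [hC q hq, md_two]), Finset.sum_const,
    Finset.sum_const, smul_eq_mul, smul_eq_mul, mul_one, mul_comm C.card]

/-- **The value for the empty sets.** -/
theorem Rt_LaS_empty_J2a (hB : (2 : ℂ)⁻¹ ∉ B) {k : ZMod 4} (hk : ¬ (k = 0 ∨ k = 2))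
    (e : Pg → ZMod 4) : Rt B (LaS k 2 e ∅ ∅ / KJ) (xJ k) := by
  have e1 : LaS k 2 e ∅ ∅ = zt * Om * PO (e4 (-k)) (1 / 8) := by
    have h := UB_J2a hk 0
    rw [mul_zero, sub_zero, add_zero] at h
    rw [LaS, Finset.empty_union, LaB_empty, h]
  have hO := Om_ne_zero
  have hq := wq_ne
  rcases (LaJ2a_odd hk).2 with rfl | rfl
  · have e2 : e4 (-1 : ZMod 4) = -zt := e4_three
    have e3 : LaS 1 2 e ∅ ∅ / KJ = zt * (PO (-zt) (1 / 8) / wq ^ 18) := by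
      rw [e1, e2, KJ]
      field_simp
    rw [e3, xJ, if_pos rfl]
    have h1 : Cg B zt 1 := Cg_root hB (by
      have e5 : zt ^ 4 = (zt ^ 2) ^ 2 := by ring
      rw [e5, zt_sq]
      norm_num)
    have h2 := h1.mul (Cg_baseJ hB)
    rw [mul_one] at h2
    exact h2.rt Rt.one
  · have e2 : e4 (-3 : ZMod 4) = zt := by
      have h : (-3 : ZMod 4) = 1 := by decide
      rw [h, e4_one]
    have h31 : (3 : ZMod 4) ≠ 1 := by decide
    rw [e1, e2, PO_baseJ_zero, mul_zero, zero_div, xJ, if_neg h31]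
    exact Rt.zero

/-- **The class of the value.** -/
theorem Rt_LaB_J2a (hB : (2 : ℂ)⁻¹ ∉ B) {k : ZMod 4} (hk : ¬ (k = 0 ∨ k = 2)) {e : Pg → ZMod 4}
    {S0 B0 : Finset Pg}
    (hd : Disjoint S0 B0) (hS : ∀ q ∈ S0, md (e q) ≠ 0) (hC : ∀ q ∈ B0, e q = 2)
    {U V : Finset Pg} (hUB : U ∪ V = B0) (hUV : Disjoint U V)
    (hu1 : ∀ b ∈ U, kapB k 2 b + ∑ p ∈ S0, s4 b p = 1)
    (hu0 : ∀ b ∈ V, kapB k 2 b + ∑ p ∈ S0, s4 b p = 0) :
    Rt B (LaB k 2 e (S0 ∪ B0) / (KJ * lm ^ (S0.card + U.card + 2 * V.card)))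
      ((xJ k + ∑ p ∈ S0, aa p.1) *
        pdt (blkM s4 (kapB k 2) (fun b => hf2 (EB k 2 e (S0 ∪ U) b)) S0 V) (S0 ∪ V)) := by
  have hbS : ∀ b ∈ B0, b ∉ S0 := fun b hb h => Finset.disjoint_left.1 hd h hb
  have hUsub : U ⊆ B0 := hUB ▸ Finset.subset_union_left
  have hVsub : V ⊆ B0 := hUB ▸ Finset.subset_union_right
  have hkap : kapB k 2 = fun q : Pg => aa q.1 := funext fun b => kapB_J2 hk b
  refine (syB hB k 2 hd hS KJ).final_row (g := fun q => aa q.1) (x0 := xJ k)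
    (Rt_LaS_empty_J2a hB hk e) ?_ hUB hUV hu1 hu0
    (fun b hb => h1B hB k 2 e (hbS b (hVsub hb)))
    (fun b hb => h2B hB k 2 (Finset.disjoint_of_subset_right hUsub hd) hS
      (fun a ha => hC a (hUsub ha)) (hbS b (hVsub hb))
      (fun h => Finset.disjoint_left.1 hUV h hb) (hu0 b hb))
  intro T hT C hC' hTC
  have hd' : Disjoint T C :=
    Finset.disjoint_of_subset_left hT (Finset.disjoint_of_subset_right hC' hd)
  have hT' : ∀ q ∈ T, md (e q) ≠ 0 := fun q hq => hS q (hT hq)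
  have hC2 : ∀ q ∈ C, e q = 2 := fun q hq => hC q (hC' hq)
  have he : ∀ q ∈ T ∪ C, e q ≠ 0 := by
    intro q hq h0
    rcases Finset.mem_union.1 hq with h | h
    · exact hT' q h (by rw [h0, map_zero])
    · rw [hC2 q h] at h0
      exact absurd h0 (by decide)
  have h1 := rhsJ2a hB hk he hTC
  rw [LaJ2a_mB hd' hT' hC2] at h1
  rw [hkap, ham_self s4 (fun _ _ h => s4_symm h) (fun q : Pg => aa q.1) hTC,
    idB_eq_avg k 2 KJ 0 hd' hC2, add_zero]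
  exact h1

end

end Pool.Agent.Lib.MP_1a91b9_ntQ
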