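import Pool.Agent.Lib.MP_1a91b9_ntQ.B.ExpZ
import Pool.Agent.Lib.MP_1a91b9_ntQ.B.ClJ2d
import Pool.Agent.Lib.MP_1a91b9_ntQ.B.AvgJB

/-!
# Quartic twists, class J2d (`j = 2`, `k` even), odd type, file OddT: the comparison of functions

`UJ k 2 h` divided by `UB k 2 (e) lm ^ 2 c` is congruent modulo `lm m` to a combination of the values of
`fO h` (weight `h + 2`, weight one function) at `lm z`, `lm ^ 2 z`, up to `lm sO`.
-/

set_option autoImplicit false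
set_option linter.unusedSectionVars false
set_option linter.unusedVariables false

namespace Pool.Agent.Lib.MP_1a91b9_ntQ

open NumberField Pool.Agent.Lib.MP_1a91b9_nuT Pool.Agent.Lib.MP_1a91b9_nuT.S3
  Pool.Agent.Lib.MP_1a91b9_nuT.Ell Pool.Agent.Lib.MP_1a91b9_ntQ.Ex

noncomputable section

section
variable [CD]

/-- the comparison functions -/
def fO (h : ZMod 4) (z : ℂ) : ℂ :=
  if h = 1 then (lm * rs)⁻¹ * gg z else -(lm * rs) / 2 * gg (z + 1 / 2)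

/-- the coefficient of `fO` at `lm ^ 2 z` -/
def cO (k : ZMod 4) : ℂ := if k = 0 then 1 + lm else 0

/-- the term of second order -/
def sO (k h : ZMod 4) (z : ℂ) : ℂ :=
  (ze z * ze (lm * z) + ze (lm * z) * ze (lm ^ 2 * z)) +
    (if k = 2 then (if h = 1 then ze (lm * z) else ze (lm ^ 2 * z) + 1)
      else (ze z + if h = 1 then ze (lm ^ 2 * z) else ze (lm * z)))

end

section

variable [CD] [hq : Q4]

/-! ### The comparison functions -/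

theorem fO_one {z : ℂ} (hz : 2 * z ∉ PP.lattice) :
    fO 1 z * (1 + 2 * xi z) = 1 + lm * al z := by
  have h1 := gg_mul hz
  have h2 := X_xi (hq := hq) z
  have h3 := yh_al (hq := hq) z
  have h4 := rh_ne (hq := hq)
  have h5 : lm * rs ≠ 0 := mul_ne_zero lm_ne rs_ne
  have h6 : (lm * rs)⁻¹ * (lm * rs) = 1 := inv_mul_cancel₀ h5
  rw [fO, if_pos rfl]
  rw [h2, h3] at h1
  have h7 : gg z * (1 + 2 * xi z) = lm * rs * (1 + lm * al z) := by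
    apply mul_left_cancel₀ h4
    linear_combination h1
  linear_combination (lm * rs)⁻¹ * h7 + (1 + lm * al z) * h6

theorem fO_three {z : ℂ} (hz : 2 * z ∉ PP.lattice) :
    fO 3 z * (1 - 2 * zt * ze z) = 1 + lm * al z := by
  have h1 := gg_mul hz
  have h2 := X_xi (hq := hq) z
  have h3 := yh_al (hq := hq) z
  have h4 := rh_ne (hq := hq)
  have h5 : lm * rs ≠ 0 := mul_ne_zero lm_ne rs_ne
  have h8 := gg_half hz
  have h9 := gg_ne hz
  have h10 := al_sq' (hq := hq) hz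
  rw [fO, if_neg (by decide)]
  rw [h2, h3] at h1
  have h7 : gg z * (1 + 2 * xi z) = lm * rs * (1 + lm * al z) := by
    apply mul_left_cancel₀ h4
    linear_combination h1
  have h11 : 1 + 2 * xi z ≠ 0 := by
    intro h
    rw [h, mul_zero, mul_zero] at h1
    exact yh_ne hz (by rw [h3, ← h1])
  apply mul_left_cancel₀ (mul_ne_zero h9 h11)
  linear_combination -(lm * rs) / 2 * (1 + 2 * xi z) * (1 - 2 * zt * ze z) * h8 -
    lm * rs * h10 - (1 + lm * al z) * h7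

variable {B : ValuationSubring ℂ}

/-- the first order part of `fO` -/
def bO (h : ZMod 4) (z : ℂ) : ℂ := (fO h z - 1) / lm

theorem fO_bO (h : ZMod 4) (z : ℂ) : fO h z = 1 + lm * bO h z := by
  rw [bO, mul_div_cancel₀ _ (lm_ne (hq := hq))]
  ring

theorem bO_one {z : ℂ} (hz : 2 * z ∉ PP.lattice) :
    bO 1 z * (1 + 2 * xi z) = al z - (1 - (lm - 1)) * xi z := by
  have h := fO_one (hq := hq) hz
  rw [fO_bO] at h
  have h2 : (lm : ℂ) * (2 - lm) = 2 := by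
    have h3 := cj_lm (hq := hq)
    have e : (2 - lm : ℂ) = 1 - zt := by
      rw [lm]
      ring
    rw [e]
    linear_combination h3
  apply mul_left_cancel₀ (lm_ne (hq := hq))
  linear_combination h + xi z * h2

theorem bO_three {z : ℂ} (hz : 2 * z ∉ PP.lattice) :
    bO 3 z * (1 - 2 * (lm - 1) * ze z) = al z + lm * ze z := by
  have h := fO_three (hq := hq) hz
  have h1 := lm_sq (hq := hq)
  rw [fO_bO, zt_lm] at h
  rw [zt_lm] at h1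
  apply mul_left_cancel₀ (lm_ne (hq := hq))
  linear_combination h - ze z * h1

theorem bO_le (hB : (2 : ℂ)⁻¹ ∉ B) {h : ZMod 4} (hh : h = 1 ∨ h = 3) {z : ℂ} (hz : Od z) :
    B.valuation (bO h z) ≤ 1 := by
  have hx := xi_le hB hz
  have ht := v_ze hB hz
  have ha := al_le hB hz
  rcases hh with rfl | rfl
  · have h1 := congrArg B.valuation (bO_one (hq := hq) hz.two)
    rw [map_mul, v_one_xi hB hz, mul_one] at h1
    rw [h1]
    refine (Valuation.map_sub _ _ _).trans (max_le ha ?_)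
    rw [map_mul]
    refine mul_le_one' ?_ hx
    have e : (1 - (lm - 1) : ℂ) = 2 - lm := by ring
    rw [e]
    exact (Valuation.map_sub _ _ _).trans (max_le (two_lt hB).le (v_lm_lt hB).le)
  · have h1 := congrArg B.valuation (bO_three (hq := hq) hz.two)
    have h2 : B.valuation (1 - 2 * (lm - 1) * ze z) = 1 := by
      rw [Valuation.map_one_sub_of_lt]
      rw [← zt_lm, map_mul, map_mul, v_zt, mul_one]
      exact mul_lt_one_of_lt_of_le (two_lt hB) ht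
    rw [map_mul, h2, mul_one] at h1
    rw [h1]
    refine (Valuation.map_add _ _ _).trans (max_le ha ?_)
    rw [map_mul]
    exact mul_le_one' (v_lm_lt hB).le ht

/-- `bO` in the ring -/
def bbZ (hB : (2 : ℂ)⁻¹ ∉ B) {h : ZMod 4} (hh : h = 1 ∨ h = 3) {z : ℂ} (hz : Od z) (j : ℕ) : B :=
  ⟨bO h (lm ^ j * z), (B.valuation_le_one_iff _).1 (bO_le hB hh (hz.pow j))⟩

theorem bbZ_one (hB : (2 : ℂ)⁻¹ ∉ B) {z : ℂ} (hz : Od z) (j : ℕ) :
    mZ B (bbZ hB (Or.inl rfl) hz j : B) = mZ B (aaZ hB hz j) + mZ B (lZ hB) * mZ B (xZ hB hz j) := by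
  have h := bO_one (hq := hq) (hz.pow j).two
  have h1 : bbZ hB (h := 1) (Or.inl rfl) hz j * (1 + 2 * xZ hB hz j) =
      aaZ hB hz j - (1 - (lZ hB - 1)) * xZ hB hz j := Subtype.ext h
  have h2 := congrArg (mZ B) h1
  simp only [map_mul, map_add, map_sub, map_one, map_ofNat] at h2
  have h3 := mZ_two hB
  linear_combination h2 - (mZ B (xZ hB hz j) * mZ B (bbZ hB (h := 1) (Or.inl rfl) hz j) +
    mZ B (xZ hB hz j)) * h3

theorem bbZ_three (hB : (2 : ℂ)⁻¹ ∉ B) {z : ℂ} (hz : Od z) (j : ℕ) :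
    mZ B (bbZ hB (Or.inr rfl) hz j : B) = mZ B (aaZ hB hz j) + mZ B (lZ hB) * mZ B (tZ hB hz j) := by
  have h := bO_three (hq := hq) (hz.pow j).two
  have h1 : bbZ hB (h := 3) (Or.inr rfl) hz j * (1 - 2 * (lZ hB - 1) * tZ hB hz j) =
      aaZ hB hz j + lZ hB * tZ hB hz j := Subtype.ext h
  have h2 := congrArg (mZ B) h1
  simp only [map_mul, map_add, map_sub, map_one, map_ofNat] at h2
  have h3 := mZ_two hB
  linear_combination h2 + (mZ B (lZ hB) - 1) * mZ B (tZ hB hz j) *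
    mZ B (bbZ hB (h := 3) (Or.inr rfl) hz j) * h3

/-! ### The congruences between the two forms -/

theorem T_exact (h : ZMod 4) (c s w₁ w₂ : ℂ) :
    c * fO h w₂ + (fO h w₁ + fO h w₂) / lm - 2 / lm + lm * s =
      c * (1 + lm * bO h w₂) + (bO h w₁ + bO h w₂) + lm * s := by
  rw [fO_bO h w₁, fO_bO h w₂]
  have h1 := lm_ne (hq := hq)
  field_simp
  ring

theorem T_21 (hB : (2 : ℂ)⁻¹ ∉ B) {z : ℂ} (hz : Od z) : B.valuation
    ((al (lm * z) + al (lm ^ 2 * z) + lm * (ze z * ze (lm * z) + ze (lm * z) * ze (lm ^ 2 * z))) -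
      (cO 2 * fO 1 (lm ^ 2 * z) + (fO 1 (lm * z) + fO 1 (lm ^ 2 * z)) / lm - 2 / lm +
        lm * sO 2 1 z)) < B.valuation lm := by
  have e0 : lm ^ 0 * z = z := by ring
  have e1 : lm ^ 1 * z = lm * z := by ring
  have hc : cO 2 = 0 := by
    rw [cO]
    exact if_neg (by decide)
  have hs : sO 2 1 z = (ze z * ze (lm * z) + ze (lm * z) * ze (lm ^ 2 * z)) + ze (lm * z) := by
    rw [sO]
    rw [if_pos rfl, if_pos rfl]
  rw [T_exact, hc, hs]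
  have h2 := mZ_two hB
  have hl := mZ_lm hB
  have t1 := tZ_eq hB hz 1
  have t2 := tZ_eq hB hz 2
  have x2 : mZ B (xZ hB hz 2) = _ := xZ_succ hB hz 1
  have b1 := bbZ_one hB hz 1
  have b2 := bbZ_one hB hz 2
  have a2 := lm_aaZ hB hz 2
  have key : mZ B (aaZ hB hz 1 + aaZ hB hz 2 + lZ hB * (tZ hB hz 0 * tZ hB hz 1 + tZ hB hz 1 * tZ hB hz 2)) =
      mZ B (0 * (1 + lZ hB * bbZ hB (h := 1) (Or.inl rfl) hz 2) + (bbZ hB (h := 1) (Or.inl rfl) hz 1 + bbZ hB (h := 1) (Or.inl rfl) hz 2) + lZ hB * ((tZ hB hz 0 * tZ hB hz 1 + tZ hB hz 1 * tZ hB hz 2) + tZ hB hz 1)) := by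
    simp only [map_mul, map_add, map_one, map_zero]
    linear_combination -b1 - b2 - mZ B (lZ hB) * t1 - mZ B (lZ hB) * x2 - (mZ B (lZ hB) * mZ B (xZ hB hz 1) + mZ B (lZ hB) * mZ B (xZ hB hz 1) ^ 2) * h2 -
      (mZ B (xZ hB hz 1) ^ 2 + mZ B (xZ hB hz 1)) * hl
  have h3 := mZ_eq key
  have h4 : B.valuation ((al (lm ^ 1 * z) + al (lm ^ 2 * z) + lm * (ze (lm ^ 0 * z) * ze (lm ^ 1 * z) + ze (lm ^ 1 * z) * ze (lm ^ 2 * z))) - (0 * (1 + lm * bO 1 (lm ^ 2 * z)) + (bO 1 (lm ^ 1 * z) +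
      bO 1 (lm ^ 2 * z)) + lm * ((ze (lm ^ 0 * z) * ze (lm ^ 1 * z) + ze (lm ^ 1 * z) * ze (lm ^ 2 * z)) + ze (lm ^ 1 * z)))) < B.valuation lm := h3
  rwa [e0, e1] at h4

theorem T_23 (hB : (2 : ℂ)⁻¹ ∉ B) {z : ℂ} (hz : Od z) : B.valuation
    ((al (lm * z) + al (lm ^ 2 * z) +
      lm * (xi (lm * z) + xi (lm ^ 2 * z) + ze z * ze (lm * z) + ze (lm * z) * ze (lm ^ 2 * z) + 1)) -
      (cO 2 * fO 3 (lm ^ 2 * z) + (fO 3 (lm * z) + fO 3 (lm ^ 2 * z)) / lm - 2 / lm +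
        lm * sO 2 3 z)) < B.valuation lm := by
  have e0 : lm ^ 0 * z = z := by ring
  have e1 : lm ^ 1 * z = lm * z := by ring
  have hc : cO 2 = 0 := by
    rw [cO]
    exact if_neg (by decide)
  have hs : sO 2 3 z = (ze z * ze (lm * z) + ze (lm * z) * ze (lm ^ 2 * z)) + (ze (lm ^ 2 * z) + 1) := by
    rw [sO]
    rw [if_pos rfl, if_neg (by decide)]
  rw [T_exact, hc, hs]
  have h2 := mZ_two hB
  have hl := mZ_lm hB
  have t1 := tZ_eq hB hz 1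
  have t2 := tZ_eq hB hz 2
  have x2 : mZ B (xZ hB hz 2) = _ := xZ_succ hB hz 1
  have b1 := bbZ_three hB hz 1
  have b2 := bbZ_three hB hz 2
  have a2 := lm_aaZ hB hz 2
  have key : mZ B (aaZ hB hz 1 + aaZ hB hz 2 + lZ hB * (xZ hB hz 1 + xZ hB hz 2 + tZ hB hz 0 * tZ hB hz 1 +
      tZ hB hz 1 * tZ hB hz 2 + 1)) =
      mZ B (0 * (1 + lZ hB * bbZ hB (h := 3) (Or.inr rfl) hz 2) + (bbZ hB (h := 3) (Or.inr rfl) hz 1 + bbZ hB (h := 3) (Or.inr rfl) hz 2) + lZ hB * ((tZ hB hz 0 * tZ hB hz 1 + tZ hB hz 1 * tZ hB hz 2) + (tZ hB hz 2 + 1))) := by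
    simp only [map_mul, map_add, map_one, map_zero]
    linear_combination -b1 - b2 - mZ B (lZ hB) * t1 + mZ B (lZ hB) * x2 - mZ B (lZ hB) * mZ B (tZ hB hz 2) * h2 +
      (mZ B (xZ hB hz 1) ^ 2 + mZ B (xZ hB hz 1)) * hl
  have h3 := mZ_eq key
  have h4 : B.valuation ((al (lm ^ 1 * z) + al (lm ^ 2 * z) +
      lm * (xi (lm ^ 1 * z) + xi (lm ^ 2 * z) + ze (lm ^ 0 * z) * ze (lm ^ 1 * z) + ze (lm ^ 1 * z) * ze (lm ^ 2 * z) + 1)) - (0 * (1 + lm * bO 3 (lm ^ 2 * z)) + (bO 3 (lm ^ 1 * z) +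
      bO 3 (lm ^ 2 * z)) + lm * ((ze (lm ^ 0 * z) * ze (lm ^ 1 * z) + ze (lm ^ 1 * z) * ze (lm ^ 2 * z)) + (ze (lm ^ 2 * z) + 1)))) < B.valuation lm := h3
  rwa [e0, e1] at h4

theorem T_01 (hB : (2 : ℂ)⁻¹ ∉ B) {z : ℂ} (hz : Od z) : B.valuation
    (((1 + lm) * (1 + lm * al (lm ^ 2 * z)) + al (lm * z) + al (lm ^ 2 * z) +
      lm * (ze z + ze (lm * z) + ze (lm ^ 2 * z) + ze z * ze (lm * z) + ze (lm * z) * ze (lm ^ 2 * z))) -
      (cO 0 * fO 1 (lm ^ 2 * z) + (fO 1 (lm * z) + fO 1 (lm ^ 2 * z)) / lm - 2 / lm +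
        lm * sO 0 1 z)) < B.valuation lm := by
  have e0 : lm ^ 0 * z = z := by ring
  have e1 : lm ^ 1 * z = lm * z := by ring
  have hc : cO 0 = (1 + lm) := by
    rw [cO]
    exact if_pos rfl
  have hs : sO 0 1 z = (ze z * ze (lm * z) + ze (lm * z) * ze (lm ^ 2 * z)) + (ze z + ze (lm ^ 2 * z)) := by
    rw [sO]
    rw [if_neg (by decide), if_pos rfl]
  rw [T_exact, hc, hs]
  have h2 := mZ_two hB
  have hl := mZ_lm hB
  have t1 := tZ_eq hB hz 1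
  have t2 := tZ_eq hB hz 2
  have x2 : mZ B (xZ hB hz 2) = _ := xZ_succ hB hz 1
  have b1 := bbZ_one hB hz 1
  have b2 := bbZ_one hB hz 2
  have a2 := lm_aaZ hB hz 2
  have key : mZ B ((1 + lZ hB) * (1 + lZ hB * aaZ hB hz 2) + aaZ hB hz 1 + aaZ hB hz 2 +
      lZ hB * (tZ hB hz 0 + tZ hB hz 1 + tZ hB hz 2 + tZ hB hz 0 * tZ hB hz 1 +
        tZ hB hz 1 * tZ hB hz 2)) =
      mZ B ((1 + lZ hB) * (1 + lZ hB * bbZ hB (h := 1) (Or.inl rfl) hz 2) + (bbZ hB (h := 1) (Or.inl rfl) hz 1 + bbZ hB (h := 1) (Or.inl rfl) hz 2) + lZ hB * ((tZ hB hz 0 * tZ hB hz 1 + tZ hB hz 1 * tZ hB hz 2) + (tZ hB hz 0 + tZ hB hz 2))) := by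
    simp only [map_mul, map_add, map_one]
    linear_combination -b1 - b2 - (1 + mZ B (lZ hB)) * mZ B (lZ hB) * b2 + mZ B (lZ hB) * t1 - mZ B (lZ hB) * x2 -
      ((1 + mZ B (lZ hB)) * mZ B (xZ hB hz 2) + mZ B (xZ hB hz 1) ^ 2 + mZ B (xZ hB hz 1)) * hl
  have h3 := mZ_eq key
  have h4 : B.valuation (((1 + lm) * (1 + lm * al (lm ^ 2 * z)) + al (lm ^ 1 * z) + al (lm ^ 2 * z) +
      lm * (ze (lm ^ 0 * z) + ze (lm ^ 1 * z) + ze (lm ^ 2 * z) + ze (lm ^ 0 * z) * ze (lm ^ 1 * z) + ze (lm ^ 1 * z) * ze (lm ^ 2 * z))) - ((1 + lm) * (1 + lm * bO 1 (lm ^ 2 * z)) + (bO 1 (lm ^ 1 * z) +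
      bO 1 (lm ^ 2 * z)) + lm * ((ze (lm ^ 0 * z) * ze (lm ^ 1 * z) + ze (lm ^ 1 * z) * ze (lm ^ 2 * z)) + (ze (lm ^ 0 * z) + ze (lm ^ 2 * z))))) < B.valuation lm := h3
  rwa [e0, e1] at h4

theorem T_03 (hB : (2 : ℂ)⁻¹ ∉ B) {z : ℂ} (hz : Od z) : B.valuation
    (((1 + lm) * (1 + lm * al (lm ^ 2 * z)) + al (lm * z) + al (lm ^ 2 * z) +
      lm * (ze z + ze (lm * z) + ze (lm ^ 2 * z) + ze z * ze (lm * z) + ze (lm * z) * ze (lm ^ 2 * z)) + lm * (xi (lm * z) + xi (lm ^ 2 * z))) -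
      (cO 0 * fO 3 (lm ^ 2 * z) + (fO 3 (lm * z) + fO 3 (lm ^ 2 * z)) / lm - 2 / lm +
        lm * sO 0 3 z)) < B.valuation lm := by
  have e0 : lm ^ 0 * z = z := by ring
  have e1 : lm ^ 1 * z = lm * z := by ring
  have hc : cO 0 = (1 + lm) := by
    rw [cO]
    exact if_pos rfl
  have hs : sO 0 3 z = (ze z * ze (lm * z) + ze (lm * z) * ze (lm ^ 2 * z)) + (ze z + ze (lm * z)) := by
    rw [sO]
    rw [if_neg (by decide), if_neg (by decide)]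
  rw [T_exact, hc, hs]
  have h2 := mZ_two hB
  have hl := mZ_lm hB
  have t1 := tZ_eq hB hz 1
  have t2 := tZ_eq hB hz 2
  have x2 : mZ B (xZ hB hz 2) = _ := xZ_succ hB hz 1
  have b1 := bbZ_three hB hz 1
  have b2 := bbZ_three hB hz 2
  have a2 := lm_aaZ hB hz 2
  have key : mZ B ((1 + lZ hB) * (1 + lZ hB * aaZ hB hz 2) + aaZ hB hz 1 + aaZ hB hz 2 +
      lZ hB * (tZ hB hz 0 + tZ hB hz 1 + tZ hB hz 2 + tZ hB hz 0 * tZ hB hz 1 +
        tZ hB hz 1 * tZ hB hz 2) + lZ hB * (xZ hB hz 1 + xZ hB hz 2)) =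
      mZ B ((1 + lZ hB) * (1 + lZ hB * bbZ hB (h := 3) (Or.inr rfl) hz 2) + (bbZ hB (h := 3) (Or.inr rfl) hz 1 + bbZ hB (h := 3) (Or.inr rfl) hz 2) + lZ hB * ((tZ hB hz 0 * tZ hB hz 1 + tZ hB hz 1 * tZ hB hz 2) + (tZ hB hz 0 + tZ hB hz 1))) := by
    simp only [map_mul, map_add, map_one]
    linear_combination -b1 - b2 - (1 + mZ B (lZ hB)) * mZ B (lZ hB) * b2 - mZ B (lZ hB) * t1 + mZ B (lZ hB) * x2 -
      ((1 + mZ B (lZ hB)) * mZ B (tZ hB hz 2) - mZ B (xZ hB hz 1) ^ 2 - mZ B (xZ hB hz 1)) * hl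
  have h3 := mZ_eq key
  have h4 : B.valuation (((1 + lm) * (1 + lm * al (lm ^ 2 * z)) + al (lm ^ 1 * z) + al (lm ^ 2 * z) +
      lm * (ze (lm ^ 0 * z) + ze (lm ^ 1 * z) + ze (lm ^ 2 * z) + ze (lm ^ 0 * z) * ze (lm ^ 1 * z) + ze (lm ^ 1 * z) * ze (lm ^ 2 * z)) + lm * (xi (lm ^ 1 * z) + xi (lm ^ 2 * z))) - ((1 + lm) * (1 + lm * bO 3 (lm ^ 2 * z)) + (bO 3 (lm ^ 1 * z) +
      bO 3 (lm ^ 2 * z)) + lm * ((ze (lm ^ 0 * z) * ze (lm ^ 1 * z) + ze (lm ^ 1 * z) * ze (lm ^ 2 * z)) + (ze (lm ^ 0 * z) + ze (lm ^ 1 * z))))) < B.valuation lm := h3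
  rwa [e0, e1] at h4

/-! ### Residues of the constants -/

theorem Rt_rh' (hB : (2 : ℂ)⁻¹ ∉ B) : Rt B rh 1 := by
  have h := v_rh_sub (hq := hq) hB
  rw [Rt]
  have e : (((1 : ZMod 2).val : ℕ) : ℂ) = 1 := by
    have h1 : (1 : ZMod 2).val = 1 := rfl
    rw [h1, Nat.cast_one]
  rw [e]
  exact h

theorem Rt_rs (hB : (2 : ℂ)⁻¹ ∉ B) : Rt B rs 1 := by
  have h1 : B.valuation rs = 1 := by
    have h2 := congrArg B.valuation (rs_sq (hq := hq))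
    rw [map_pow, v_rh hB] at h2
    exact (pow_eq_one_iff_of_nonneg zero_le (by norm_num)).1 h2
  rw [Rt]
  have e : (((1 : ZMod 2).val : ℕ) : ℂ) = 1 := by
    have h1 : (1 : ZMod 2).val = 1 := rfl
    rw [h1, Nat.cast_one]
  rw [e]
  have e2 : (rs - 1) ^ 2 = (rh - 1) + 2 * (1 - rs) := by
    linear_combination rs_sq (hq := hq)
  have h2 : B.valuation ((rs - 1) ^ 2) < 1 := by
    rw [e2]
    refine Valuation.map_add_lt _ (v_rh_sub hB) ?_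
    rw [map_mul]
    refine mul_lt_one_of_lt_of_le (two_lt hB) ?_
    exact (Valuation.map_sub _ _ _).trans (max_le (map_one _).le h1.le)
  rw [map_pow] at h2
  by_contra h3
  push Not at h3
  exact absurd h2 (not_lt.2 (one_le_pow₀ h3))

theorem Rt_of_two (hB : (2 : ℂ)⁻¹ ∉ B) {x y : ℂ} (hx : x = 1 + 2 * y) (hy : B.valuation y ≤ 1) :
    Rt B x 1 := by
  rw [Rt]
  have e : (((1 : ZMod 2).val : ℕ) : ℂ) = 1 := by
    have h1 : (1 : ZMod 2).val = 1 := rfl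
    rw [h1, Nat.cast_one]
  have e2 : x - 1 = 2 * y := by rw [hx]; ring
  rw [e, e2, map_mul]
  exact mul_lt_one_of_lt_of_le (two_lt hB) hy

theorem Rt_s8 (hB : (2 : ℂ)⁻¹ ∉ B) : Rt B s8 1 := by
  have h := s8_sq (hq := hq)
  have h1 : (s8 - 1) * (s8 + 1) = 0 := by linear_combination h
  rcases mul_eq_zero.1 h1 with h2 | h2
  · have e : (s8 : ℂ) = 1 := by linear_combination h2
    rw [e]
    exact Rt.one
  · refine Rt_of_two hB (y := -1) (by linear_combination h2) ?_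
    rw [Valuation.map_neg, map_one]

theorem Rt_12 (hB : (2 : ℂ)⁻¹ ∉ B) : Rt B (1 - 2 * zt) 1 := by
  refine Rt_of_two hB (y := -zt) (by ring) ?_
  rw [Valuation.map_neg, v_zt]

theorem Rt_zt' (hB : (2 : ℂ)⁻¹ ∉ B) : Rt B zt 1 := by
  rw [Rt]
  have e : (((1 : ZMod 2).val : ℕ) : ℂ) = 1 := by
    have h1 : (1 : ZMod 2).val = 1 := rfl
    rw [h1, Nat.cast_one]
  rw [e, ← Valuation.map_neg]
  have e2 : (-(zt - 1) : ℂ) = 1 - zt := by ring
  rw [e2]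
  exact v_one_zt hB

end

/-! ### The function `UJ` -/

/-- the quotient `UB k 2 (e + z) / UB k 2 e` in the coordinates -/
def FJZ (s x y : ℂ) : ℂ := NJ s x y / P4J x

theorem FJZ_one (x y : ℂ) : FJZ 1 x y = F2Z x (s8 * y) := by
  rw [FJZ, F2Z, NJ, kJ_one, P4J, P4Z]
  congr 1
  ring

theorem FJZ_neg (x y : ℂ) : FJZ (-1) x y = F0Z x (s8 * y) := by
  rw [FJZ, F0Z, NJ, kJ_neg_one, P4J, P4Z]
  congr 1
  ring

theorem UB_FJZ {k : ZMod 4} (hk : k = 0 ∨ k = 2) {z : ℂ} (hz : Od z) :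
    UB k 2 ((em (fB k 2))⁻¹ + z) = UB k 2 (em (fB k 2))⁻¹ * FJZ (sJ k) (X z) (yh z) := by
  have h1 := UB_closed hk (hz.pow 3).two
  have h2 := P4J_ne (hz.pow 3).two
  rw [FJZ, ← mul_div_assoc, eq_div_iff h2, h1]

theorem Od_pow_zt {z : ℂ} (hz : Od z) (n : ℕ) : Od (zt ^ n * z) := by
  induction n with
  | zero => simpa using hz
  | succ n ih =>
    have e : zt ^ (n + 1) * z = zt * (zt ^ n * z) := by ring
    rw [e]
    exact ih.zt_mul

theorem UJ_FJZ {k : ZMod 4} (hk : k = 0 ∨ k = 2) (nu : ℕ) {h : ZMod 4} (hn : (nu : ZMod 4) = -h)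
    {z : ℂ} (hz : Od z) : UJ k 2 h z = UB k 2 (em (fB k 2))⁻¹ *
      ∑ t ∈ Finset.range 4, zt ^ (nu * t) * FJZ (sJ k) (X (zt ^ t * z)) (yh (zt ^ t * z)) := by
  have e : ∀ t : ℕ, t < 4 → ((t : ZMod 4)).val = t := fun t ht => by
    rw [ZMod.val_natCast, Nat.mod_eq_of_lt ht]
  have h1 : UJ k 2 h z = ∑ t ∈ Finset.range 4, e4 (-(((t : ℕ) : ZMod 4) * h)) *
      UB k 2 ((em (fB k 2))⁻¹ + zt ^ t * z) := by
    rw [UJ]
    have h2 : ∀ f : ZMod 4 → ℂ, ∑ r : ZMod 4, f r = ∑ t ∈ Finset.range 4, f ((t : ℕ) : ZMod 4) := by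
      intro f
      rw [Finset.sum_range_succ, Finset.sum_range_succ, Finset.sum_range_succ,
        Finset.sum_range_one]
      exact Fin.sum_univ_four f
    rw [h2]
    refine Finset.sum_congr rfl fun t ht => ?_
    rw [e t (Finset.mem_range.1 ht)]
  rw [h1, Finset.mul_sum]
  refine Finset.sum_congr rfl fun t ht => ?_
  rw [UB_FJZ hk (Od_pow_zt hz t)]
  have h3 : e4 (-(((t : ℕ) : ZMod 4) * h)) = zt ^ (nu * t) := by
    rw [← e4_nat]
    congr 1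
    push_cast
    rw [hn]
    ring
  rw [h3]
  ring

theorem UB_e_ne {k : ZMod 4} (hk : k = 0 ∨ k = 2) : UB k 2 (em (fB k 2))⁻¹ ≠ 0 := by
  rw [em_fB2 hk, UB_sJ hk]
  exact neg_ne_zero.2 (mul_ne_zero Om_ne_zero (HS_base_ne (sJ_sq k)))

/-! ### The four congruences -/

section
variable {z : ℂ}

theorem FJZ_23 (hz : 2 * z ∉ PP.lattice) (he : e5Z (ze z) ≠ 0) :
    (∑ t ∈ Finset.range 4, zt ^ (3 * t) * FJZ 1 (X (zt ^ t * z)) (yh (zt ^ t * z))) *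
      e5Z (ze z) = zt * lm * (1 - 2 * zt) * (s8 * yh z) * ((1 - 2 * zt * ze z) * bZ (ze z)) := by
  rw [orbZ_eq (FJZ 1) 3 hz, FJZ_one, FJZ_one, FJZ_one, FJZ_one,
    ← oz_23 (y := s8 * yh z) (X_sq_ze z) rh_sq he]
  have e1 : s8 * (zt * yh z) = zt * (s8 * yh z) := by ring
  have e2 : s8 * -yh z = -(s8 * yh z) := by ring
  have e3 : s8 * -(zt * yh z) = -(zt * (s8 * yh z)) := by ring
  rw [e1, e2, e3]
  linear_combination (zt * F2Z (-X z) (zt * (s8 * yh z)) -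
    zt * F2Z (-X z) (-(zt * (s8 * yh z)))) * e5Z (ze z) * zt_sq

theorem FJZ_21 (hz : 2 * z ∉ PP.lattice) (he : e5Z (ze z) ≠ 0) :
    (∑ t ∈ Finset.range 4, zt ^ (1 * t) * FJZ 1 (X (zt ^ t * z)) (yh (zt ^ t * z))) *
      e5Z (ze z) = zt * lm * (1 - 2 * zt) ^ 2 * (X z * (s8 * yh z)) * dZ (ze z) := by
  rw [orbZ_eq (FJZ 1) 1 hz, FJZ_one, FJZ_one, FJZ_one, FJZ_one,
    ← oz_21 (y := s8 * yh z) (X_sq_ze z) rh_sq he]
  have e1 : s8 * (zt * yh z) = zt * (s8 * yh z) := by ring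
  have e2 : s8 * -yh z = -(s8 * yh z) := by ring
  have e3 : s8 * -(zt * yh z) = -(zt * (s8 * yh z)) := by ring
  rw [e1, e2, e3]
  ring

theorem FJZ_03 (hz : 2 * z ∉ PP.lattice) (he : e5Z (ze z) ≠ 0) :
    (∑ t ∈ Finset.range 4, zt ^ (3 * t) * FJZ (-1) (X (zt ^ t * z)) (yh (zt ^ t * z))) *
      e5Z (ze z) = -(lm * (1 - 2 * zt) * (s8 * yh z) * ((1 - 2 * zt * ze z) * aZ (ze z))) := by
  rw [orbZ_eq (FJZ (-1)) 3 hz, FJZ_neg, FJZ_neg, FJZ_neg, FJZ_neg,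
    ← oz_03 (y := s8 * yh z) (X_sq_ze z) rh_sq he]
  have e1 : s8 * (zt * yh z) = zt * (s8 * yh z) := by ring
  have e2 : s8 * -yh z = -(s8 * yh z) := by ring
  have e3 : s8 * -(zt * yh z) = -(zt * (s8 * yh z)) := by ring
  rw [e1, e2, e3]
  linear_combination (zt * F0Z (-X z) (zt * (s8 * yh z)) -
    zt * F0Z (-X z) (-(zt * (s8 * yh z)))) * e5Z (ze z) * zt_sq

theorem FJZ_01 (hz : 2 * z ∉ PP.lattice) (he : e5Z (ze z) ≠ 0) :
    (∑ t ∈ Finset.range 4, zt ^ (1 * t) * FJZ (-1) (X (zt ^ t * z)) (yh (zt ^ t * z))) *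
      e5Z (ze z) = lm * (1 - 2 * zt) ^ 2 * (X z * (s8 * yh z)) * cZ (ze z) := by
  rw [orbZ_eq (FJZ (-1)) 1 hz, FJZ_neg, FJZ_neg, FJZ_neg, FJZ_neg,
    ← oz_01 (y := s8 * yh z) (X_sq_ze z) rh_sq he]
  have e1 : s8 * (zt * yh z) = zt * (s8 * yh z) := by ring
  have e2 : s8 * -yh z = -(s8 * yh z) := by ring
  have e3 : s8 * -(zt * yh z) = -(zt * (s8 * yh z)) := by ring
  rw [e1, e2, e3]
  ring

end

variable {B : ValuationSubring ℂ}

/-- the constants -/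
def cJZ (k h : ZMod 4) : ℂ :=
  if k = 2 then (if h = 1 then zt * s8 * (1 - 2 * zt) * (rh * rs)
      else zt * s8 * (1 - 2 * zt) ^ 2 * (rh ^ 2 * rs))
    else (if h = 1 then -(s8 * (1 - 2 * zt) * (rh * rs))
      else s8 * (1 - 2 * zt) ^ 2 * (rh ^ 2 * rs))

theorem Rt_mul1 (hB : (2 : ℂ)⁻¹ ∉ B) {x y : ℂ} (hx : Rt B x 1) (hy : Rt B y 1) :
    Rt B (x * y) 1 := by
  have h := hx.mul hB hy
  rwa [mul_one] at h

theorem Rt_pow1 (hB : (2 : ℂ)⁻¹ ∉ B) {x : ℂ} (hx : Rt B x 1) (n : ℕ) : Rt B (x ^ n) 1 := by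
  have h := hx.pow hB n
  rwa [one_pow] at h

theorem Rt_cJZ (hB : (2 : ℂ)⁻¹ ∉ B) (k h : ZMod 4) : Rt B (cJZ k h) 1 := by
  have a : Rt B zt 1 := Rt_zt' hB
  have b : Rt B s8 1 := Rt_s8 hB
  have c : Rt B (1 - 2 * zt) 1 := Rt_12 hB
  have d : Rt B rh 1 := Rt_rh' hB
  have e : Rt B rs 1 := Rt_rs hB
  have c2 := Rt_pow1 hB c 2
  have d2 := Rt_pow1 hB d 2
  rw [cJZ]
  split_ifs
  · exact Rt_mul1 hB (Rt_mul1 hB (Rt_mul1 hB a b) c) (Rt_mul1 hB d e)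
  · exact Rt_mul1 hB (Rt_mul1 hB (Rt_mul1 hB a b) c2) (Rt_mul1 hB d2 e)
  · exact (Rt_mul1 hB (Rt_mul1 hB b c) (Rt_mul1 hB d e)).neg hB
  · exact Rt_mul1 hB (Rt_mul1 hB b c2) (Rt_mul1 hB d2 e)

theorem v_lt_trans' {x y w t : ℂ} (h1 : B.valuation (x - y) < B.valuation t)
    (h2 : B.valuation (y - w) < B.valuation t) : B.valuation (x - w) < B.valuation t := by
  have e : x - w = (x - y) + (y - w) := by ring
  rw [e]
  exact Valuation.map_add_lt _ h1 h2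

/-- **the comparison modulo `lm m`** -/
theorem v_UJ_fO (hB : (2 : ℂ)⁻¹ ∉ B) {k h : ZMod 4} (hk : k = 0 ∨ k = 2) (hh : h = 1 ∨ h = 3)
    {z : ℂ} (hz : Od z) :
    B.valuation (UJ k 2 h z / (UB k 2 (em (fB k 2))⁻¹ * lm ^ 2 * cJZ k h) -
      (cO k * fO h (lm ^ 2 * z) + (fO h (lm * z) + fO h (lm ^ 2 * z)) / lm - 2 / lm +
        lm * sO k h z)) < B.valuation lm := by
  have hne : UB k 2 (em (fB k 2))⁻¹ * lm ^ 2 * cJZ k h ≠ 0 :=
    mul_ne_zero (mul_ne_zero (UB_e_ne hk) (pow_ne_zero 2 lm_ne))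
      ((Rt_cJZ hB k h).ne_zero (by decide))
  have he : e5Z (ze z) ≠ 0 := e5Z_ne hB hz
  obtain ⟨U, hU⟩ : ∃ U, U = UJ k 2 h z / (UB k 2 (em (fB k 2))⁻¹ * lm ^ 2 * cJZ k h) := ⟨_, rfl⟩
  have hU1 : U * (UB k 2 (em (fB k 2))⁻¹ * lm ^ 2 * cJZ k h) = UJ k 2 h z := by
    rw [hU, div_mul_cancel₀ _ hne]
  rw [← hU]
  have hy := yh_al (hq := inferInstance) z
  have hX := X_xi (hq := inferInstance) z
  rcases hk with rfl | rfl <;> rcases hh with rfl | rfl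
  · refine v_lt_trans' (v_03 hB hz ?_) (T_01 hB hz)
    apply mul_left_cancel₀ hne
    have h1 := UJ_FJZ (k := 0) (Or.inl rfl) 3 (h := 1) (by decide) hz
    have h2 := FJZ_03 hz.two he
    have hs : sJ 0 = -1 := if_neg (by decide)
    have hc : cJZ 0 1 = -(s8 * (1 - 2 * zt) * (rh * rs)) := by
      rw [cJZ, if_neg (by decide), if_pos rfl]
    rw [hs] at h1
    rw [hc] at hU1 ⊢
    rw [hy] at h2
    linear_combination e5Z (ze z) * hU1 + e5Z (ze z) * h1 + UB 0 2 (em (fB 0 2))⁻¹ * h2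
  · refine v_lt_trans' (v_01 hB hz ?_) (T_03 hB hz)
    apply mul_left_cancel₀ hne
    have h1 := UJ_FJZ (k := 0) (Or.inl rfl) 1 (h := 3) (by decide) hz
    have h2 := FJZ_01 hz.two he
    have hs : sJ 0 = -1 := if_neg (by decide)
    have hc : cJZ 0 3 = s8 * (1 - 2 * zt) ^ 2 * (rh ^ 2 * rs) := by
      rw [cJZ, if_neg (by decide), if_neg (by decide)]
    rw [hs] at h1
    rw [hc] at hU1 ⊢
    rw [hy, hX] at h2
    linear_combination e5Z (ze z) * hU1 + e5Z (ze z) * h1 + UB 0 2 (em (fB 0 2))⁻¹ * h2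
  · refine v_lt_trans' (v_23 hB hz ?_) (T_21 hB hz)
    apply mul_left_cancel₀ hne
    have h1 := UJ_FJZ (k := 2) (Or.inr rfl) 3 (h := 1) (by decide) hz
    have h2 := FJZ_23 hz.two he
    have hs : sJ 2 = 1 := if_pos rfl
    have hc : cJZ 2 1 = zt * s8 * (1 - 2 * zt) * (rh * rs) := by
      rw [cJZ, if_pos rfl, if_pos rfl]
    rw [hs] at h1
    rw [hc] at hU1 ⊢
    rw [hy] at h2
    linear_combination e5Z (ze z) * hU1 + e5Z (ze z) * h1 + UB 2 2 (em (fB 2 2))⁻¹ * h2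
  · refine v_lt_trans' (v_21 hB hz ?_) (T_23 hB hz)
    apply mul_left_cancel₀ hne
    have h1 := UJ_FJZ (k := 2) (Or.inr rfl) 1 (h := 3) (by decide) hz
    have h2 := FJZ_21 hz.two he
    have hs : sJ 2 = 1 := if_pos rfl
    have hc : cJZ 2 3 = zt * s8 * (1 - 2 * zt) ^ 2 * (rh ^ 2 * rs) := by
      rw [cJZ, if_pos rfl, if_neg (by decide)]
    rw [hs] at h1
    rw [hc] at hU1 ⊢
    rw [hy, hX] at h2
    linear_combination e5Z (ze z) * hU1 + e5Z (ze z) * h1 + UB 2 2 (em (fB 2 2))⁻¹ * h2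

end

end Pool.Agent.Lib.MP_1a91b9_ntQ
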