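import Pool.Agent.Lib.MP_1a91b9_ntQ.A.OptG
import Pool.Agent.Lib.MP_1a91b9_ntQ.B.InYp
import Pool.Agent.Lib.MP_1a91b9_ntQ.B.OddT

/-!
# Quartic twists, all fourth-power-free `D`, class J2d, `h` odd, file LaJ2o: the class of the value

`k = 0` or `2`, `h = 1` or `3`, the auxiliary prime has the symbols `lJ k` at the primes of `D`: the
value at `1` divided by `LaB k 2 ∅ lm ^ (|S0| + |U| + 2 |V| + 2)` is a bordered determinant plus a
multiple of the determinant.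
-/

set_option autoImplicit false

namespace Pool.Agent.Lib.MP_1a91b9_ntQ

open NumberField Pool.Agent.Lib.MP_1a91b9_nuT Pool.Agent.Lib.MP_1a91b9_nuT.S3
  Pool.Agent.Lib.MP_1a91b9_nuT.Ell

noncomputable section

variable {B : ValuationSubring ℂ} {k h : ZMod 4} {q0 : Pg} {e : Pg → ZMod 4} {S0 B0 : Finset Pg}

theorem FunO_fO (hh : h = 1 ∨ h = 3) : FunO (h + 2) (fO h) := by
  rcases hh with rfl | rfl
  · have e1 : (1 : ZMod 4) + 2 = 3 := by decide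
    have e2 : fO 1 = fun z => (lm * rs)⁻¹ * gg z := by
      funext z
      rw [fO, if_pos rfl]
    rw [e1, e2]
    exact FunO_gg.smul _
  · have e1 : (3 : ZMod 4) + 2 = 1 := by decide
    have e2 : fO 3 = fun z => -(lm * rs) / 2 * gg (z + 1 / 2) := by
      funext z
      rw [fO, if_neg three_ne_one4]
    rw [e1, e2]
    exact FunO_ggh.smul _

theorem v_fO_sub (hB : (2 : ℂ)⁻¹ ∉ B) (hh : h = 1 ∨ h = 3) {z : ℂ} (hz : Od z) :
    B.valuation (fO h z - 1) ≤ B.valuation lm := by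
  rw [fO_bO, add_sub_cancel_left, map_mul]
  exact mul_le_of_le_one_right' (bO_le hB hh hz)

theorem v_cO (hB : (2 : ℂ)⁻¹ ∉ B) (k : ZMod 4) : B.valuation (cO k) ≤ 1 := by
  rw [cO]
  split_ifs
  · exact (Valuation.map_add _ _ _).trans (max_le (map_one _).le (v_lm_lt hB).le)
  · rw [map_zero]
    exact zero_le_one

/-- the constant -/
def NZO (k h : ZMod 4) (e : Pg → ZMod 4) : ℂ := LaB k 2 e ∅ * lm ^ 2 * cJZ k h

/-- the border -/
def raO (k : ZMod 4) (q0 : Pg) (q : Pg) : ZMod 2 := if k = 2 then aa q.1 + s4 q0 q else aa q.1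

/-- the constant term -/
def hdO (k h : ZMod 4) : ZMod 2 := if k = 2 then (if h = 1 then 1 else 0) else 1

/-- the family -/
def DdN (k h : ZMod 4) (q0 : Pg) (e : Pg → ZMod 4) (T A : Finset Pg) : ℂ :=
  DdO k h (cO k) (NZO k h e) (fO h) q0 e T A

theorem two_ne_zero4 : (0 : ZMod 4) ≠ 2 := by decide

/-- the sums of the second order term -/
theorem Rt_GX_sO (hB : (2 : ℂ)⁻¹ ∉ B) (hk : k = 0 ∨ k = 2) (hh : h = 1 ∨ h = 3)
    (h0 : aa q0.1 = 1) (hl0 : bb q0.1 = 0) {J : Finset Pg} (hq0 : q0 ∉ J)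
    (he : ∀ q ∈ J, e q ≠ 0) :
    Rt B (GX q0 (fB k 2) (wtB e J) (sO k h) J)
      (PHO q0 (raO k q0) J + if J = ∅ then (hdO k h + 1) else 0) := by
  have l1 : ∀ z : ℂ, lm ^ 1 * z = lm * z := fun z => by rw [pow_one]
  have l0 : ∀ z : ℂ, lm ^ 0 * z = z := fun z => by rw [pow_zero, one_mul]
  have z2 : (1 : ZMod 2) + 1 = 0 := by decide
  rcases hk with rfl | rfl
  · have e3 : raO 0 q0 = fun q => aa q.1 := by
      funext q
      rw [raO, if_neg two_ne_zero4]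
    have e4 : hdO 0 h + 1 = 0 := by rw [hdO, if_neg two_ne_zero4, z2]
    rw [e3, e4, ite_self, add_zero]
    rcases hh with rfl | rfl
    · have e1 : sO 0 1 = fun z => (pZo z + ze (lm ^ 0 * z)) + ze (lm ^ 2 * z) := by
        funext z
        rw [sO, if_neg two_ne_zero4, if_pos rfl, pZo, l0]
        ring
      rw [e1]
      exact Rt_gO3 hB h0 hq0 hl0 he 0 2
    · have e1 : sO 0 3 = fun z => (pZo z + ze (lm ^ 0 * z)) + ze (lm ^ 1 * z) := by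
        funext z
        rw [sO, if_neg two_ne_zero4, if_neg three_ne_one4, pZo, l0, l1]
        ring
      rw [e1]
      exact Rt_gO3 hB h0 hq0 hl0 he 0 1
  · have e3 : raO 2 q0 = fun q => aa q.1 + s4 q0 q := by
      funext q
      rw [raO, if_pos rfl]
    rw [e3]
    rcases hh with rfl | rfl
    · have e1 : sO 2 1 = fun z => pZo z + ze (lm ^ 1 * z) := by
        funext z
        rw [sO, if_pos rfl, if_pos rfl, pZo, l1]
      have e4 : hdO 2 1 + 1 = 0 := by rw [hdO, if_pos rfl, if_pos rfl, z2]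
      rw [e1, e4, ite_self, add_zero]
      exact Rt_gO1 hB h0 hq0 hl0 he 1
    · have e1 : sO 2 3 = fun z => (pZo z + ze (lm ^ 2 * z)) + 1 := by
        funext z
        rw [sO, if_pos rfl, if_neg three_ne_one4, pZo]
        ring
      have e4 : hdO 2 3 + 1 = 1 := by rw [hdO, if_pos rfl, if_neg three_ne_one4, zero_add]
      rw [e1, e4]
      exact Rt_gO2 hB h0 hq0 hl0 he 2

/-- **the totals of the difference** -/
theorem Rt_idDdN (hB : (2 : ℂ)⁻¹ ∉ B) (hk : k = 0 ∨ k = 2) (hh : h = 1 ∨ h = 3)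
    (h0 : aa q0.1 = 1) (hl0 : bb q0.1 = 0) {T C : Finset Pg} (hd : Disjoint T C)
    (he : ∀ q ∈ T, md (e q) ≠ 0) (hC : ∀ q ∈ C, e q = 2) (hq : q0 ∉ T ∪ C)
    (hs : ∀ b ∈ T ∪ C, s4 q0 b = lJ k b.1) :
    Rt B (idB lm 1 (DdN k h q0 e) (fun b => em b.1) (xJs (h + 2) q0 e) (nXB q0) 0 T C)
      ((∑ i ∈ T ∪ C, bb i.1 * Ham (nXB q0) (raO k q0) (T ∪ C) i) +
        if T ∪ C = ∅ then hdO k h else 0) := by
  have h1 := Rt_idDdO (k := k) (h := h) (c := cO k) (N := NZO k h e) (g := sO k h) hB hk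
    (FunO_fO hh) h0 hd he hC hq hs (fun z hz => by
      have h2 := v_UJ_fO hB hk hh hz
      rw [uO, NZO, LaB_empty, pow_one]
      exact h2)
    (fun z hz => v_uO_le hB (v_cO hB k) (fun z hz => v_fO_sub hB hh hz) hz)
    (Rt_GX_sO hB hk hh h0 hl0 hq (exp_ne he hC))
  have e1 : PHO q0 (raO k q0) (T ∪ C) + (if T ∪ C = ∅ then (hdO k h + 1) else 0) +
      (if T ∪ C = ∅ then 1 else 0) = (∑ i ∈ T ∪ C, bb i.1 * Ham (nXB q0) (raO k q0) (T ∪ C) i) +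
        if T ∪ C = ∅ then hdO k h else 0 := by
    rw [PHO_nXB, add_assoc]
    congr 1
    split_ifs
    · rw [add_assoc]
      have z2 : (1 : ZMod 2) + 1 = 0 := by decide
      rw [z2, add_zero]
    · exact add_zero _
  rw [e1] at h1
  exact h1

theorem idB_emptyO {ι : Type*} [DecidableEq ι] (l : ℂ) (La : Finset ι → Finset ι → ℂ) (ee : ι → ℂ)
    (x : Finset ι → ι → ℂ) (s : ι → ι → ZMod 2) : idB l 1 La ee x s 0 ∅ ∅ = La ∅ ∅ := by
  rw [idB, Finset.powerset_empty, Finset.sum_singleton, Finset.sum_singleton, Finset.card_empty,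
    Finset.sdiff_self, Finset.union_empty, Finset.prod_empty]
  simp

/-- the base value -/
theorem Rt_DdN_empty (hB : (2 : ℂ)⁻¹ ∉ B) (hk : k = 0 ∨ k = 2) (hh : h = 1 ∨ h = 3)
    (h0 : aa q0.1 = 1) (hl0 : bb q0.1 = 0) (e : Pg → ZMod 4) :
    Rt B (DdN k h q0 e ∅ ∅ / 1) (hdO k h) := by
  have hn : ∀ q : Pg, q ∉ (∅ : Finset Pg) := fun q => Finset.notMem_empty q
  have h1 := Rt_idDdN (e := e) hB hk hh h0 hl0 (T := ∅) (C := ∅) (Finset.disjoint_empty_left _)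
    (fun q hq => absurd hq (hn q)) (fun q hq => absurd hq (hn q))
    (by rw [Finset.empty_union]; exact hn q0) (fun b hb => absurd (by rwa [Finset.empty_union] at hb)
      (hn b))
  rw [idB_emptyO, Finset.empty_union, Finset.sum_empty, zero_add, if_pos rfl] at h1
  rw [div_one]
  exact h1

theorem Rt_LaO_empty (hB : (2 : ℂ)⁻¹ ∉ B) (hh : h = 1 ∨ h = 3) (h0 : aa q0.1 = 1) (k : ZMod 4)
    (e : Pg → ZMod 4) : Rt B (LaO k (fO h) q0 e ∅ ∅ / 1) 1 := by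
  have hn : ∀ q : Pg, q ∉ (∅ : Finset Pg) := fun q => Finset.notMem_empty q
  have h1 := Rt_idLaO (k := k) (e := e) hB (FunO_fO hh) h0
    (f1_lt hB fun z hz => v_fO_sub hB hh hz) (T := ∅) (C := ∅) (Finset.disjoint_empty_left _)
    (fun q hq => absurd hq (hn q)) (fun q hq => absurd hq (hn q))
    (by rw [Finset.empty_union]; exact hn q0)
  rw [idB_emptyO, Finset.empty_union, if_pos rfl] at h1
  rw [div_one]
  exact h1

theorem md_odd_two (hh : h = 1 ∨ h = 3) : md (h + 2) = 1 := by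
  rcases hh with rfl | rfl <;> decide

/-- the exponents of the two families -/
theorem tB_bkB (hk : k = 0 ∨ k = 2) (h0 : aa q0.1 = 1) {b : Pg} (hs : s4 q0 b = lJ k b.1)
    (R : Finset Pg) : tB k 2 b.1 + bkB q0 e h R b.1 = bkB q0 e (h + 2) R b.1 := by
  apply e4_inj
  have h1 : e4 (tB k 2 b.1) = sgz (lJ k b.1) := by
    obtain ⟨t, ht, ht2⟩ := thB_lJ hk b.in4
    have h2 : e4 (tB k 2 b.1) = thB k 2 b.1 := rfl
    rw [h2, ht, ← ht2, e4_two_sgz]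
  rw [e4_add, h1, bkB_add_two h0, hs]

/-- **The class of the value, `h` odd.** -/
theorem Rt_LaB_J2o (hB : (2 : ℂ)⁻¹ ∉ B) (hk : k = 0 ∨ k = 2) (hh : h = 1 ∨ h = 3)
    (h0 : aa q0.1 = 1) (hl0 : bb q0.1 = 0) (hd : Disjoint S0 B0) (he : ∀ q ∈ S0, md (e q) ≠ 0)
    (he2 : ∀ q ∈ B0, e q = 2) (hq : q0 ∉ S0 ∪ B0) (hs : ∀ b ∈ S0 ∪ B0, s4 q0 b = lJ k b.1)
    (hS : h + ∑ q ∈ S0 ∪ B0, e q * nn q.1 = 0) (hs1 : ∑ p ∈ S0, s4 q0 p = 1)
    {U V : Finset Pg} (hUB : U ∪ V = B0) (hUV : Disjoint U V)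
    (hu1 : ∀ b ∈ U, s4 q0 b + ∑ p ∈ S0, nXB q0 b p = 1)
    (hu0 : ∀ b ∈ V, s4 q0 b + ∑ p ∈ S0, nXB q0 b p = 0) {w : ZMod 2}
    (hw : Rt B (wO (cO k) (∑ p ∈ S0 ∪ B0, e p * c4 p lam) / lm) w) :
    Rt B (LaB k 2 e (S0 ∪ B0) / (LaB k 2 e ∅ * lm ^ (S0.card + U.card + 2 * V.card + 2)))
      (pdB (blkM (nXB q0) (fun b => s4 q0 b)
          (fun b => hf2 (tB k 2 b.1 + bkB q0 e h (S0 ∪ U) b.1)) S0 V)
        (fun i => s4 q0 i + raO k q0 i) (fun i => bb i.1) (hdO k h + ∑ p ∈ S0, bb p.1) (S0 ∪ V) +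
      w * pdt (blkM (nXB q0) (fun b => s4 q0 b)
          (fun b => hf2 (tB k 2 b.1 + bkB q0 e h (S0 ∪ U) b.1)) S0 V) (S0 ∪ V)) := by
  have hUs : U ⊆ B0 := hUB ▸ Finset.subset_union_left
  have hVs : V ⊆ B0 := hUB ▸ Finset.subset_union_right
  have hm := md_odd_two hh
  have hdU : Disjoint S0 U := Finset.disjoint_of_subset_right hUs hd
  have hd' : ∀ T ⊆ S0, ∀ C ⊆ B0, Disjoint T C := fun T hT C hC =>
    Finset.disjoint_of_subset_left hT (Finset.disjoint_of_subset_right hC hd)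
  have h1 : ∀ b ∈ V, Rt B (xJs (h + 2) q0 e S0 b * ∏ a ∈ U, sgz (nXB q0 b a)) 1 := fun b _ =>
    h1J hB (h + 2) q0 e (nXB q0) S0 U b
  have h2 : ∀ b ∈ V, Rt B ((em b.1 - xJs (h + 2) q0 e S0 b * ∏ a ∈ U, sgz (nXB q0 b a)) / lm ^ 2)
      (hf2 (tB k 2 b.1 + bkB q0 e h (S0 ∪ U) b.1)) := fun b hb => by
    rw [tB_bkB hk h0 (hs b (Finset.mem_union_right _ (hVs hb))),
      ← xJs_union h0 e (h + 2) hdU (fun a ha => he2 a (hUs ha)), xJs]
    refine Rt_facB2 hB ?_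
    rw [bkB_union q0 e (h + 2) hdU (fun a ha => he2 a (hUs ha)), map_add, map_mul, md_two, zero_mul,
      add_zero, md_bkB h0 (h + 2) he, hm, one_mul]
    exact hu0 b hb
  have hD := (syO hB hm h0 hd he 1 (DdN k h q0 e)).final_G (g := fun i => bb i.1)
    (f := raO k q0) (Rt_DdN_empty hB hk hh h0 hl0 e)
    (fun T hT C hC hTC => by
      have h3 := Rt_idDdN (k := k) (h := h) (e := e) hB hk hh h0 hl0 (hd' T hT C hC)
        (fun q hq => he q (hT hq)) (fun q hq => he2 q (hC hq))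
        (fun h => hq (Finset.union_subset_union hT hC h))
        (fun b hb => hs b (Finset.union_subset_union hT hC hb))
      rw [if_neg hTC.ne_empty, add_zero] at h3
      exact h3)
    hUB hUV hu1 hu0 h1 h2
  have hL := (syO hB hm h0 hd he 1 (LaO k (fO h) q0 e)).final_odd (Rt_LaO_empty hB hh h0 k e)
    (fun T hT C hC hTC => by
      have h3 := Rt_idLaO (k := k) (e := e) hB (FunO_fO hh) h0
        (f1_lt hB fun z hz => v_fO_sub hB hh hz) (hd' T hT C hC) (fun q hq => he q (hT hq))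
        (fun q hq => he2 q (hC hq)) (fun h => hq (Finset.union_subset_union hT hC h))
      rw [if_neg hTC.ne_empty] at h3
      exact h3)
    hUB hUV hu1 hu0 h1 h2
  rw [one_mul] at hD hL
  refine Rt_LaB_odd hB hk h0 hd he he2 hq hS hs1 (Rt_cJZ hB k h) hD hL ?_
  rw [bkB_lam_full hl0 hS]
  exact hw

/-- **The class of the value, `k = 2`.** -/
theorem Rt_LaB_J2o2 (hB : (2 : ℂ)⁻¹ ∉ B) (hh : h = 1 ∨ h = 3)
    (h0 : aa q0.1 = 1) (hl0 : bb q0.1 = 0) (hd : Disjoint S0 B0) (he : ∀ q ∈ S0, md (e q) ≠ 0)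
    (he2 : ∀ q ∈ B0, e q = 2) (hq : q0 ∉ S0 ∪ B0) (hs : ∀ b ∈ S0 ∪ B0, s4 q0 b = lJ 2 b.1)
    (hS : h + ∑ q ∈ S0 ∪ B0, e q * nn q.1 = 0) (hs1 : ∑ p ∈ S0, s4 q0 p = 1)
    {U V : Finset Pg} (hUB : U ∪ V = B0) (hUV : Disjoint U V)
    (hu1 : ∀ b ∈ U, s4 q0 b + ∑ p ∈ S0, nXB q0 b p = 1)
    (hu0 : ∀ b ∈ V, s4 q0 b + ∑ p ∈ S0, nXB q0 b p = 0)
    (ht : md (∑ p ∈ S0 ∪ B0, e p * c4 p lam) = 0) :
    Rt B (LaB 2 2 e (S0 ∪ B0) / (LaB 2 2 e ∅ * lm ^ (S0.card + U.card + 2 * V.card + 2)))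
      (pdB (blkM (nXB q0) (fun b => s4 q0 b)
          (fun b => hf2 (tB 2 2 b.1 + bkB q0 e h (S0 ∪ U) b.1)) S0 V)
        (fun i => s4 q0 i + (aa i.1 + s4 q0 i)) (fun i => bb i.1)
        ((if h = 1 then 1 else 0) + ∑ p ∈ S0, bb p.1) (S0 ∪ V) +
      (if ∑ p ∈ S0 ∪ B0, e p * c4 p lam = 0 then 1 else 0) *
        pdt (blkM (nXB q0) (fun b => s4 q0 b)
          (fun b => hf2 (tB 2 2 b.1 + bkB q0 e h (S0 ∪ U) b.1)) S0 V) (S0 ∪ V)) := by
  have h1 := Rt_LaB_J2o (k := 2) hB (Or.inr rfl) hh h0 hl0 hd he he2 hq hs hS hs1 hUB hUV hu1 hu0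
    (w := if ∑ p ∈ S0 ∪ B0, e p * c4 p lam = 0 then 1 else 0) (by
      have e1 : cO 2 = 0 := if_neg (by decide)
      rw [e1]
      exact Rt_wO2 hB ht)
  have e1 : raO 2 q0 = fun q => aa q.1 + s4 q0 q := by
    funext q
    rw [raO, if_pos rfl]
  have e2 : hdO 2 h = if h = 1 then 1 else 0 := by rw [hdO, if_pos rfl]
  rw [e1, e2] at h1
  exact h1

/-- **The class of the value, `k = 0`.** -/
theorem Rt_LaB_J2o0 (hB : (2 : ℂ)⁻¹ ∉ B) (hh : h = 1 ∨ h = 3)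
    (h0 : aa q0.1 = 1) (hl0 : bb q0.1 = 0) (hd : Disjoint S0 B0) (he : ∀ q ∈ S0, md (e q) ≠ 0)
    (he2 : ∀ q ∈ B0, e q = 2) (hq : q0 ∉ S0 ∪ B0) (hs : ∀ b ∈ S0 ∪ B0, s4 q0 b = lJ 0 b.1)
    (hS : h + ∑ q ∈ S0 ∪ B0, e q * nn q.1 = 0) (hs1 : ∑ p ∈ S0, s4 q0 p = 1)
    {U V : Finset Pg} (hUB : U ∪ V = B0) (hUV : Disjoint U V)
    (hu1 : ∀ b ∈ U, s4 q0 b + ∑ p ∈ S0, nXB q0 b p = 1)
    (hu0 : ∀ b ∈ V, s4 q0 b + ∑ p ∈ S0, nXB q0 b p = 0)
    (ht : md (∑ p ∈ S0 ∪ B0, e p * c4 p lam) = 1) :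
    Rt B (LaB 0 2 e (S0 ∪ B0) / (LaB 0 2 e ∅ * lm ^ (S0.card + U.card + 2 * V.card + 2)))
      (pdB (blkM (nXB q0) (fun b => s4 q0 b)
          (fun b => hf2 (tB 0 2 b.1 + bkB q0 e h (S0 ∪ U) b.1)) S0 V)
        (fun i => s4 q0 i + aa i.1) (fun i => bb i.1) (1 + ∑ p ∈ S0, bb p.1) (S0 ∪ V) +
      (if ∑ p ∈ S0 ∪ B0, e p * c4 p lam = 1 then 1 else 0) *
        pdt (blkM (nXB q0) (fun b => s4 q0 b)
          (fun b => hf2 (tB 0 2 b.1 + bkB q0 e h (S0 ∪ U) b.1)) S0 V) (S0 ∪ V)) := by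
  have h1 := Rt_LaB_J2o (k := 0) hB (Or.inl rfl) hh h0 hl0 hd he he2 hq hs hS hs1 hUB hUV hu1 hu0
    (w := if ∑ p ∈ S0 ∪ B0, e p * c4 p lam = 1 then 1 else 0) (by
      have e1 : cO 0 = 1 + lm := if_pos rfl
      rw [e1]
      exact Rt_wO0 hB ht)
  have e1 : raO 0 q0 = fun q => aa q.1 := by
    funext q
    rw [raO, if_neg two_ne_zero4]
  have e2 : hdO 0 h = 1 := by rw [hdO, if_neg two_ne_zero4]
  rw [e1, e2] at h1
  exact h1

end

end Pool.Agent.Lib.MP_1a91b9_ntQ
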