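import Pool.Agent.Lib.MP_1a91b9_ntQ.B.KcB
import Pool.Agent.Lib.MP_1a91b9_ntQ.B.LamD

/-!
# MP_1a91b9_nt (quartic twists), part B: the condition at `lam` when the valuation of `D` is `2`
-/

set_option autoImplicit false
set_option linter.unusedSectionVars false
set_option linter.unusedVariables false

namespace Pool.Agent.Lib.MP_1a91b9_ntQ.C

open NumberField Finset WithZero IsDedekindDomain Pool.Agent.Lib.MP_1a91b9_nuT
open Pool.Agent.Lib.MP_1a91b9_ntQ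
open Pool.Agent.Lib.MP_1a91b9_ntH.C (Sq exists_nu isSquare_exp nu_one)

noncomputable section

/-! ### divisibility -/

theorem nuL_int {a b : ℤ} (k : ℕ) (h : nuL ((a : K) + (b : K) * (iO : K)) ≤ exp (-(k : ℤ))) :
    lam ^ k ∣ (a : 𝓞 K4) + (b : 𝓞 K4) * iO := by
  refine (nuL_le_pow k).1 ?_
  have e : (((a : 𝓞 K4) + (b : 𝓞 K4) * iO : 𝓞 K4) : K) = (a : K) + (b : K) * (iO : K) := by
    push_cast
    rfl
  exact (congrArg nuL e).trans_le h

theorem dvd4_int {a b : ℤ} (h : nuL ((a : K) + (b : K) * (iO : K)) ≤ exp (-((4 : ℕ) : ℤ))) :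
    (4 : ℤ) ∣ a ∧ (4 : ℤ) ∣ b := by
  have h1 := nuL_int 4 h
  rw [lam4_dvd_iff, cp_coords] at h1
  exact h1

theorem dvd5_int {a b : ℤ} (h : nuL ((a : K) + (b : K) * (iO : K)) ≤ exp (-((5 : ℕ) : ℤ))) :
    (4 : ℤ) ∣ a ∧ (8 : ℤ) ∣ a - b := by
  have h1 := nuL_int 5 h
  obtain ⟨y, hy⟩ := h1
  have h2 : (a : 𝓞 K4) + (b : 𝓞 K4) * iO =
      ((-4 * (cp y).1 + 4 * (cp y).2 : ℤ) : 𝓞 K4) + ((-4 * (cp y).1 - 4 * (cp y).2 : ℤ) : 𝓞 K4) *
        iO := by
    have h3 := eq_cp y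
    rw [hy]
    have h5 : lam ^ 5 = -4 * (1 + iO) := by
      have : lam ^ 5 = lam ^ 4 * lam := by ring
      rw [this, lam_pow4]
      rfl
    rw [h5]
    push_cast
    linear_combination (-4 * (1 + iO)) * h3 + (-4 * ((cp y).2 : 𝓞 K4)) * iO_sq
  obtain ⟨h3, h4⟩ := coords_inj h2
  exact ⟨⟨-(cp y).1 + (cp y).2, by rw [h3]; ring⟩, ⟨(cp y).2, by rw [h3, h4]; ring⟩⟩

theorem nu2_int {a b : ℤ} (h : nuL ((a : K) + (b : K) * (iO : K)) ≤ exp (-((2 : ℕ) : ℤ))) :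
    (2 : ℤ) ∣ a ∧ (2 : ℤ) ∣ b := by
  have h1 := nuL_int 2 h
  rw [lam2_dvd_iff, cp_coords] at h1
  exact h1

theorem nuL_intCast (n : ℤ) : nuL (n : K) ≤ 1 := by
  have e : (n : K) = ((n : 𝓞 K4) : K) := by
    push_cast
    rfl
  exact (congrArg nuL e).trans_le (nuL_O _)

theorem nuL_gint (a b : ℤ) : nuL ((a : K) + (b : K) * (iO : K)) ≤ 1 :=
  nu_add_le (nuL_intCast a) (nu_mul_le (nuL_intCast b) nuL_i.le)

/-- the parities of the digits of `g` -/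
theorem killI {A B : ℤ} {m : ℕ} {g t Y : K} (ht : nuL t ≤ 1) (hY : nuL Y ≤ 1)
    (hg : g = (A : K) + (B : K) * (iO : K) + (1 + (iO : K)) ^ 2 * Y)
    (hP : nuL g < exp (-1) ∨ Sq nuL ((iO : K) ^ m * (1 + (1 + (iO : K)) ^ 3 * t) * g)) :
    (Even m → Even B) ∧ (Odd m → Even A) := by
  have hi := iK_sq'
  have hi1 := nuL_i.le
  rcases Int.even_or_odd A with hA | hA <;> rcases Int.even_or_odd B with hB | hB
  · exact ⟨fun _ => hB, fun _ => hA⟩
  · refine ⟨fun hm => ?_, fun _ => hA⟩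
    exfalso
    obtain ⟨a, ha⟩ := hA
    obtain ⟨b, hb⟩ := hB
    refine killB hi nuL_two nuL_res (r := 1) (y := -(((a : ℤ) : K) + ((b : ℤ) : K) * (iO : K)) -
      (iO : K) * Y) ht (nu_sub_le' (nu_neg_le' (nuL_gint a b)) (nu_mul_le hi1 hY))
      (Or.inr ⟨?_, hm.add_odd (by decide)⟩) hP
    rw [hg, ha, hb]
    push_cast
    linear_combination (((a : ℤ) : K) * (iO : K) + ((b : ℤ) : K) * (iO : K) ^ 2 +
      (iO : K) ^ 2 * Y + 2 * ((a : ℤ) : K) + 2 * ((b : ℤ) : K) * (iO : K) + 2 * (iO : K) * Y +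
      Y) * hi
  · refine ⟨fun _ => hB, fun hm => ?_⟩
    exfalso
    obtain ⟨a, ha⟩ := hA
    obtain ⟨b, hb⟩ := hB
    refine killB hi nuL_two nuL_res (r := 0) (y := -(iO : K) * (((a : ℤ) : K) +
      ((b : ℤ) : K) * (iO : K)) + Y) ht (nu_add_le (nu_mul_le (nu_neg_le' hi1) (nuL_gint a b)) hY)
      (Or.inr ⟨?_, hm⟩) hP
    rw [hg, ha, hb]
    push_cast
    linear_combination (((a : ℤ) : K) * (iO : K) + ((b : ℤ) : K) * (iO : K) ^ 2 +
      2 * ((a : ℤ) : K) + 2 * ((b : ℤ) : K) * (iO : K)) * hi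
  · exfalso
    obtain ⟨a, ha⟩ := hA
    obtain ⟨b, hb⟩ := hB
    refine killB hi nuL_two nuL_res (r := 0) (y := -(iO : K) * (((a : ℤ) : K) +
      ((b : ℤ) : K) * (iO : K)) + Y) ht (nu_add_le (nu_mul_le (nu_neg_le' hi1) (nuL_gint a b)) hY)
      (Or.inl ?_) hP
    rw [hg, ha, hb]
    push_cast
    linear_combination (((a : ℤ) : K) * (iO : K) + ((b : ℤ) : K) * (iO : K) ^ 2 +
      2 * ((a : ℤ) : K) + 2 * ((b : ℤ) : K) * (iO : K)) * hi

/-! ### the corners -/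

theorem uB3_int (m n : ℤ) : uB3 (m : ZMod 4) (n : ZMod 4) = (((m - n) / 2 : ℤ) : ZMod 2) := by
  have h1 : ∀ x y : ZMod 4, uB3 x y = uB3 (x - y) 0 := by decide
  have h2 : ∀ r : Fin 4, uB3 ((r.val : ℤ) : ZMod 4) 0 = (((r.val : ℤ) / 2 : ℤ) : ZMod 2) := by
    decide
  rw [h1]
  obtain ⟨r, hr⟩ : ∃ r : Fin 4, (r.val : ℤ) = (m - n) % 4 :=
    ⟨⟨((m - n) % 4).toNat, by omega⟩, by
      dsimp only
      omega⟩
  have e1 : (m : ZMod 4) - (n : ZMod 4) = ((r.val : ℤ) : ZMod 4) := by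
    rw [← Int.cast_sub, hr, ZMod.intCast_eq_intCast_iff_dvd_sub]
    omega
  rw [e1, h2, ZMod.intCast_eq_intCast_iff_dvd_sub]
  omega

theorem uB0_odd (m n : ℤ) : uB0 ((2 * m + 1 : ℤ) : ZMod 4) ((2 * n : ℤ) : ZMod 4) =
    (n : ZMod 2) := by
  have h : ∀ x y : ZMod 4, uB0 (2 * x + 1) (2 * y) = md y := by decide
  rw [← md_intCast, ← h m n]
  push_cast
  rfl

theorem uB0_even (m n : ℤ) : uB0 ((2 * m : ℤ) : ZMod 4) ((2 * n : ℤ) : ZMod 4) =
    (m : ZMod 2) := by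
  have h : ∀ x y : ZMod 4, uB0 (2 * x) (2 * y) = md x := by decide
  rw [← md_intCast, ← h m n]
  push_cast
  rfl

theorem uB2_odd (m n : ℤ) : uB2 ((2 * m : ℤ) : ZMod 4) ((2 * n + 1 : ℤ) : ZMod 4) =
    (m : ZMod 2) := by
  have h : ∀ x y : ZMod 4, uB2 (2 * x) (2 * y + 1) = md x := by decide
  rw [← md_intCast, ← h m n]
  push_cast
  rfl

theorem uB2_even (m n : ℤ) : uB2 ((2 * m : ℤ) : ZMod 4) ((2 * n : ℤ) : ZMod 4) =
    (n : ZMod 2) := by
  have h : ∀ x y : ZMod 4, uB2 (2 * x) (2 * y) = md y := by decide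
  rw [← md_intCast, ← h m n]
  push_cast
  rfl

/-! ### the digits -/

/-- `k = 3` -/
theorem fin3 {m n : ℤ} {p q r : ℕ} {W ε T : K} (hW : W = (m : K) + (n : K) * (iO : K))
    (hT : T = (p : K) + (1 + (iO : K)) * (q : K)) (hε : ε = 1 ∨ ε = -1)
    (h : (r = 0 ∧ nuL (1 + (iO : K) * (1 + (iO : K)) ^ 2 * W + (1 + (iO : K)) ^ 3 * T -
        (iO : K) * (1 + (iO : K)) ^ 4 * T - ε) ≤ exp (-((5 : ℕ) : ℤ))) ∨
      (r = 1 ∧ nuL (1 + (1 + (iO : K)) ^ 2 * W + (1 + (iO : K)) ^ 3 * T +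
        (1 + (iO : K)) ^ 4 * T - ε) ≤ exp (-((5 : ℕ) : ℤ)))) :
    (q : ZMod 2) + (r : ZMod 2) * (n : ZMod 2) = uB3 (m : ZMod 4) (n : ZMod 4) := by
  have hi := iK_sq'
  obtain ⟨e, he, heε⟩ : ∃ e : ℤ, (e = 1 ∨ e = -1) ∧ ε = (e : K) := by
    rcases hε with h | h
    · exact ⟨1, Or.inl rfl, by rw [h]; push_cast; rfl⟩
    · exact ⟨-1, Or.inr rfl, by rw [h]; push_cast; rfl⟩
  rw [uB3_int]
  rcases h with ⟨hr, h⟩ | ⟨hr, h⟩
  · have e1 : 1 + (iO : K) * (1 + (iO : K)) ^ 2 * W + (1 + (iO : K)) ^ 3 * T -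
        (iO : K) * (1 + (iO : K)) ^ 4 * T - ε =
        ((1 - e - 2 * m - 2 * ((p : ℤ) + q) - 6 * q : ℤ) : K) +
          ((-2 * n + 6 * ((p : ℤ) + q) - 2 * q : ℤ) : K) * (iO : K) := by
      rw [hW, hT, heε]
      push_cast
      linear_combination (-(iO : K) ^ 4 * q - (iO : K) ^ 3 * p - 5 * (iO : K) ^ 3 * q +
        (iO : K) ^ 2 * n - 4 * (iO : K) ^ 2 * p - 8 * (iO : K) ^ 2 * q + (iO : K) * m +
        2 * (iO : K) * n - 4 * (iO : K) * p - (iO : K) * q + 2 * m + 3 * p + 9 * q) * hi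
    rw [e1] at h
    obtain ⟨h1, h2⟩ := dvd5_int h
    have e2 : (q : ZMod 2) + (r : ZMod 2) * (n : ZMod 2) = (((q : ℤ) : ℤ) : ZMod 2) := by
      rw [hr]
      push_cast
      ring
    rw [e2, ZMod.intCast_eq_intCast_iff_dvd_sub]
    rcases he with he | he <;> rw [he] at h2 <;> omega
  · have e1 : 1 + (1 + (iO : K)) ^ 2 * W + (1 + (iO : K)) ^ 3 * T +
        (1 + (iO : K)) ^ 4 * T - ε =
        ((1 - e - 2 * n - 6 * ((p : ℤ) + q) - 2 * q : ℤ) : K) +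
          ((2 * m + 2 * ((p : ℤ) + q) - 6 * q : ℤ) : K) * (iO : K) := by
      rw [hW, hT, heε]
      push_cast
      linear_combination ((iO : K) ^ 3 * q + (iO : K) ^ 2 * p + 6 * (iO : K) ^ 2 * q +
        (iO : K) * n + 5 * (iO : K) * p + 13 * (iO : K) * q + m + 2 * n + 8 * p + 10 * q) * hi
    rw [e1] at h
    obtain ⟨h1, h2⟩ := dvd5_int h
    have e2 : (q : ZMod 2) + (r : ZMod 2) * (n : ZMod 2) = (((q : ℤ) + n : ℤ) : ZMod 2) := by
      rw [hr]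
      push_cast
      ring
    rw [e2, ZMod.intCast_eq_intCast_iff_dvd_sub]
    rcases he with he | he <;> rw [he] at h2 <;> omega

/-- `g` is a unit: the digits of `(1 + lam ^ 3 t) g` modulo `4` -/
theorem fin_unit {m n : ℤ} {p q r : ℕ} {W T t u g : K} (hW : W = (m : K) + (n : K) * (iO : K))
    (hT : T = (p : K) + (1 + (iO : K)) * (q : K)) (hu : nuL u ≤ 1)
    (ht : t = T + (1 + (iO : K)) ^ 2 * u)
    (hg : g = W - (1 + (iO : K)) ^ 2 * (-(iO : K) * t + (1 + (iO : K)) * t ^ 2))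
    (hmn : Odd (m + n)) (hr : r = 0 ∨ r = 1)
    (hP : nuL g < exp (-5) ∨ Sq nuL ((iO : K) ^ r * (1 + (1 + (iO : K)) ^ 3 * t) * g)) :
    ∃ e a b X Y : ℤ, (e = 1 ∨ e = -1) ∧ a = (p : ℤ) + q ∧ b = q ∧ X = a * m - b * n ∧
      Y = a * n + b * m ∧
      (r = 0 → (4 : ℤ) ∣ m - 2 * a + 2 * (a * a - b * b) + 4 * a * b - 2 * X - 2 * Y - e ∧
        (4 : ℤ) ∣ n - 2 * b - 2 * (a * a - b * b) + 4 * a * b + 2 * X - 2 * Y) ∧
      (r = 1 → (4 : ℤ) ∣ -(n - 2 * b - 2 * (a * a - b * b) + 4 * a * b + 2 * X - 2 * Y) - e ∧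
        (4 : ℤ) ∣ m - 2 * a + 2 * (a * a - b * b) + 4 * a * b - 2 * X - 2 * Y) := by
  have hi := iK_sq'
  have hl := nu_lam2 hi nuL_two
  have hi1 := nuL_i.le
  have hl1 : nuL (1 + (iO : K)) ≤ 1 := nu_add_le (map_one nuL).le hi1
  have hT1 : nuL T ≤ 1 := by
    rw [hT]
    exact nu_TB hl p q
  have ht1 : nuL t ≤ 1 := by
    rw [ht]
    exact nu_add_le hT1 (nu_mul_le (nu_pow_le' hl1 2) hu)
  have hW1 : nuL W ≤ 1 := by
    rw [hW]
    exact nuL_gint m n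
  have hs1 : nuL (-(iO : K) * t + (1 + (iO : K)) * t ^ 2) ≤ 1 :=
    nu_add_le (nu_mul_le (nu_neg_le' hi1) ht1) (nu_mul_le hl1 (nu_pow_le' ht1 2))
  -- `g` is a unit
  have hg1 : nuL g = 1 := by
    obtain ⟨c, hc⟩ := hmn
    have e1 : g = 1 + (1 + (iO : K)) * (((c - n : ℤ) : K) * (1 - (iO : K)) + (n : K) -
        (1 + (iO : K)) * (-(iO : K) * t + (1 + (iO : K)) * t ^ 2)) := by
      have hm : m = 2 * c + 1 - n := by omega
      rw [hg, hW, hm]
      push_cast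
      linear_combination ((c : K) - n) * hi
    rw [e1]
    exact nu_onel hl (nu_sub_le' (nu_add_le (nu_mul_le (nuL_intCast _)
      (nu_sub_le' (map_one nuL).le hi1)) (nuL_intCast n)) (nu_mul_le hl1 hs1))
  have hS : Sq nuL ((iO : K) ^ r * (1 + (1 + (iO : K)) ^ 3 * t) * g) := by
    rcases hP with h | h
    · rw [hg1, ← exp_zero, exp_lt_exp] at h
      norm_num at h
    · exact h
  have hQ1 : nuL ((iO : K) ^ r * (1 + (1 + (iO : K)) ^ 3 * t) * g) = 1 := by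
    have e : (iO : K) ^ r * (1 + (1 + (iO : K)) ^ 3 * t) * g =
        (iO : K) ^ r * (1 + (1 + (iO : K)) * ((1 + (iO : K)) ^ 2 * t)) * g := by ring
    rw [e, map_mul, map_mul, nu_ipow hi, one_mul, hg1, mul_one]
    exact nu_onel hl (nu_mul_le (nu_pow_le' hl1 2) ht1)
  obtain ⟨ε, hε, h6⟩ := C4_near hi nuL_two nuL_res hQ1 (C4.of_sq hS)
  obtain ⟨e, he, heε⟩ : ∃ e : ℤ, (e = 1 ∨ e = -1) ∧ ε = (e : K) := by
    rcases hε with h | h
    · exact ⟨1, Or.inl rfl, by rw [h]; push_cast; rfl⟩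
    · exact ⟨-1, Or.inr rfl, by rw [h]; push_cast; rfl⟩
  obtain ⟨V, hV⟩ : ∃ V : K, V = (iO : K) * u - (1 + (iO : K)) * (2 * T * u +
    (1 + (iO : K)) ^ 2 * u ^ 2) + (1 + (iO : K)) * u * W + (iO : K) * (1 + (iO : K)) * t ^ 2 -
    (1 + (iO : K)) ^ 2 * t ^ 3 := ⟨_, rfl⟩
  have hV1 : nuL V ≤ 1 := by
    rw [hV]
    (repeat' first
      | assumption | exact (map_one _).le | exact nu_ofNat_le' _ | apply nu_add_le
      | apply nu_sub_le' | apply nu_neg_le' | apply nu_mul_le | apply nu_pow_le')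
  refine ⟨e, (p : ℤ) + q, q, _, _, he, rfl, rfl, rfl, rfl, ?_, ?_⟩
  · intro hr0
    have e1 : (((m - 2 * ((p : ℤ) + q) + 2 * (((p : ℤ) + q) * ((p : ℤ) + q) - q * q) +
        4 * ((p : ℤ) + q) * q - 2 * (((p : ℤ) + q) * m - q * n) -
        2 * (((p : ℤ) + q) * n + q * m) - e : ℤ) : K)) +
        ((n - 2 * q - 2 * (((p : ℤ) + q) * ((p : ℤ) + q) - q * q) + 4 * ((p : ℤ) + q) * q +
        2 * (((p : ℤ) + q) * m - q * n) - 2 * (((p : ℤ) + q) * n + q * m) : ℤ) : K) * (iO : K) =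
        ((iO : K) ^ r * (1 + (1 + (iO : K)) ^ 3 * t) * g - ε) - (1 + (iO : K)) ^ 4 * V := by
      rw [hr0, hV, hg, ht, hT, hW, heε]
      push_cast
      linear_combination (-((iO : K) ^ 3 * n * q - (iO : K) ^ 3 * q ^ 2 + (iO : K) ^ 2 * m * q +
        (iO : K) ^ 2 * n * p + 4 * (iO : K) ^ 2 * n * q - 2 * (iO : K) ^ 2 * p * q -
        5 * (iO : K) ^ 2 * q ^ 2 + (iO : K) ^ 2 * q + (iO : K) * m * p + 4 * (iO : K) * m * q +
        3 * (iO : K) * n * p + 5 * (iO : K) * n * q - (iO : K) * p ^ 2 - 8 * (iO : K) * p * q -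
        9 * (iO : K) * q ^ 2 + (iO : K) * p + 3 * (iO : K) * q + 3 * m * p + 5 * m * q +
        2 * n * p - 3 * p ^ 2 - 10 * p * q - 5 * q ^ 2 + 2 * p + 2 * q)) * hi
    refine dvd4_int ?_
    rw [e1]
    exact nuL.map_sub_le h6 (mul_le_exp (nu_lpow hl 4) hV1)
  · intro hr1
    have e1 : ((-(n - 2 * q - 2 * (((p : ℤ) + q) * ((p : ℤ) + q) - q * q) +
        4 * ((p : ℤ) + q) * q + 2 * (((p : ℤ) + q) * m - q * n) -
        2 * (((p : ℤ) + q) * n + q * m)) - e : ℤ) : K) +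
        ((m - 2 * ((p : ℤ) + q) + 2 * (((p : ℤ) + q) * ((p : ℤ) + q) - q * q) +
        4 * ((p : ℤ) + q) * q - 2 * (((p : ℤ) + q) * m - q * n) -
        2 * (((p : ℤ) + q) * n + q * m) : ℤ) : K) * (iO : K) =
        ((iO : K) ^ r * (1 + (1 + (iO : K)) ^ 3 * t) * g - ε) -
          (1 + (iO : K)) ^ 4 * ((iO : K) * V) := by
      rw [hr1, hV, hg, ht, hT, hW, heε]
      push_cast
      linear_combination (-((iO : K) ^ 4 * n * q - (iO : K) ^ 4 * q ^ 2 + (iO : K) ^ 3 * m * q +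
        (iO : K) ^ 3 * n * p + 4 * (iO : K) ^ 3 * n * q - 2 * (iO : K) ^ 3 * p * q -
        5 * (iO : K) ^ 3 * q ^ 2 + (iO : K) ^ 3 * q + (iO : K) ^ 2 * m * p +
        4 * (iO : K) ^ 2 * m * q + 3 * (iO : K) ^ 2 * n * p + 5 * (iO : K) ^ 2 * n * q -
        (iO : K) ^ 2 * p ^ 2 - 8 * (iO : K) ^ 2 * p * q - 9 * (iO : K) ^ 2 * q ^ 2 +
        (iO : K) ^ 2 * p + 3 * (iO : K) ^ 2 * q + 3 * (iO : K) * m * p + 5 * (iO : K) * m * q +
        2 * (iO : K) * n * p - 3 * (iO : K) * p ^ 2 - 10 * (iO : K) * p * q -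
        5 * (iO : K) * q ^ 2 + 2 * (iO : K) * p + 2 * (iO : K) * q + 2 * m * p - 2 * n * p -
        4 * n * q - 2 * p ^ 2 + 4 * q ^ 2 + n - 2 * q)) * hi
    refine dvd4_int ?_
    rw [e1]
    exact nuL.map_sub_le h6 (mul_le_exp (nu_lpow hl 4) (nu_mul_le hi1 hV1))

/-- `g` is divisible by `lam ^ 2` -/
theorem fin_even {M N : ℤ} {p q r : ℕ} {W T t u g : K}
    (hW : W = ((2 * M : ℤ) : K) + ((2 * N : ℤ) : K) * (iO : K))
    (hT : T = (p : K) + (1 + (iO : K)) * (q : K)) (hu : nuL u ≤ 1)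
    (ht : t = T + (1 + (iO : K)) ^ 2 * u)
    (hg : g = W - (1 + (iO : K)) ^ 2 * (-(iO : K) * t + (1 + (iO : K)) * t ^ 2))
    (hP : nuL g < exp (-5) ∨ Sq nuL ((iO : K) ^ r * (1 + (1 + (iO : K)) ^ 3 * t) * g)) :
    (Even r → Even (-M + ((p : ℤ) + q) - (((p : ℤ) + q) * ((p : ℤ) + q) - q * q) -
      2 * ((p : ℤ) + q) * q)) ∧
    (Odd r → Even (N - q - (((p : ℤ) + q) * ((p : ℤ) + q) - q * q) + 2 * ((p : ℤ) + q) * q)) := by
  have hi := iK_sq'
  have hl := nu_lam2 hi nuL_two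
  have hi1 := nuL_i.le
  have hl1 : nuL (1 + (iO : K)) ≤ 1 := nu_add_le (map_one nuL).le hi1
  have hl0 : (1 + (iO : K)) ≠ 0 := by
    rw [← nuL.ne_zero_iff, hl]
    exact exp_ne_zero
  have hT1 : nuL T ≤ 1 := by
    rw [hT]
    exact nu_TB hl p q
  have ht1 : nuL t ≤ 1 := by
    rw [ht]
    exact nu_add_le hT1 (nu_mul_le (nu_pow_le' hl1 2) hu)
  obtain ⟨V, hV⟩ : ∃ V : K, V = (iO : K) * u - 2 * (1 + (iO : K)) * T * u -
    (1 + (iO : K)) ^ 3 * u ^ 2 := ⟨_, rfl⟩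
  have hV1 : nuL V ≤ 1 := by
    rw [hV]
    (repeat' first
      | assumption | exact (map_one _).le | exact nu_ofNat_le' _ | apply nu_add_le
      | apply nu_sub_le' | apply nu_neg_le' | apply nu_mul_le | apply nu_pow_le')
  obtain ⟨g1, hg1⟩ : ∃ g1 : K, g1 = ((N - q - (((p : ℤ) + q) * ((p : ℤ) + q) - q * q) +
      2 * ((p : ℤ) + q) * q : ℤ) : K) + ((-M + ((p : ℤ) + q) - (((p : ℤ) + q) * ((p : ℤ) + q) -
      q * q) - 2 * ((p : ℤ) + q) * q : ℤ) : K) * (iO : K) + (1 + (iO : K)) ^ 2 * V := ⟨_, rfl⟩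
  have e1 : g = (1 + (iO : K)) ^ 2 * g1 := by
    rw [hg, hg1, hV, ht, hT, hW]
    push_cast
    linear_combination (-(iO : K) ^ 3 * q ^ 2 - 2 * (iO : K) ^ 2 * p * q -
      5 * (iO : K) ^ 2 * q ^ 2 + (iO : K) ^ 2 * q - 4 * (iO : K) * p * q -
      7 * (iO : K) * q ^ 2 + 2 * (iO : K) * q + (iO : K) * M - 2 * p * q - 3 * q ^ 2 + q +
      2 * M - N) * hi
  have hP1 : nuL g1 < exp (-1) ∨ Sq nuL ((iO : K) ^ r * (1 + (1 + (iO : K)) ^ 3 * t) * g1) := by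
    rcases hP with h | h
    · left
      rw [e1, map_mul, nu_lpow hl] at h
      by_contra hc
      rw [not_lt] at hc
      have h5 : exp (-((2 : ℕ) : ℤ)) * exp (-1) ≤ exp (-((2 : ℕ) : ℤ)) * nuL g1 := by gcongr
      rw [← exp_add] at h5
      have h6 := lt_of_le_of_lt h5 h
      rw [exp_lt_exp] at h6
      norm_num at h6
    · right
      refine Sq.of_mul_sq hl0 ?_
      have e : (iO : K) ^ r * (1 + (1 + (iO : K)) ^ 3 * t) * g1 * (1 + (iO : K)) ^ 2 =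
          (iO : K) ^ r * (1 + (1 + (iO : K)) ^ 3 * t) * g := by
        rw [e1]
        ring
      rwa [e]
  exact killI ht1 hV1 hg1 hP1

/-! ### the class of `1 - D` -/

theorem Kc.one_sub {k : ZMod 4} {m n : ℤ} {c : 𝓞 K4}
    (hc : c = 1 + lam ^ 3 * ((m : 𝓞 K4) + (n : 𝓞 K4) * iO)) :
    ∃ z : 𝓞 K, Kc (1 - ((iO ^ k.val * lam ^ 2 * c : 𝓞 K) : K)) 0 0 z ∧
      (k = 0 → aa z = 1 ∧ bb z = 0) ∧ (k = 2 → aa z = 1 ∧ bb z = 1) ∧
      (k = 3 → aa z = 0 ∧ bb z = 0) := by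
  have h0 : ∀ k : ZMod 4, k = 0 ∨ k = 1 ∨ k = 2 ∨ k = 3 := by decide
  have hl : lam = 1 + iO := rfl
  have key : ∀ a b : ℤ, 1 - iO ^ k.val * lam ^ 2 * c =
      -(1 + lam ^ 3 * ((a : 𝓞 K4) + (b : 𝓞 K4) * iO)) →
      Kc (1 - ((iO ^ k.val * lam ^ 2 * c : 𝓞 K) : K)) 0 0
        (1 + lam ^ 3 * ((a : 𝓞 K4) + (b : 𝓞 K4) * iO)) := by
    intro a b h
    have h1 := (Kc.unit (in4_of a b)).neg
    have e : (1 - ((iO ^ k.val * lam ^ 2 * c : 𝓞 K) : K)) =
        -((1 + lam ^ 3 * ((a : 𝓞 K4) + (b : 𝓞 K4) * iO) : 𝓞 K) : K) := by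
      have e1 : ((1 - iO ^ k.val * lam ^ 2 * c : 𝓞 K) : K) =
          1 - ((iO ^ k.val * lam ^ 2 * c : 𝓞 K) : K) :=
        (map_sub (algebraMap (𝓞 K) K) _ _).trans (by
          congr 1)
      rw [← e1, h]
      exact map_neg (algebraMap (𝓞 K) K) _
    rw [e]
    exact h1
  rcases h0 k with rfl | rfl | rfl | rfl
  · refine ⟨_, key (1 - 2 * n) (2 * m) ?_, fun _ => ?_, fun h => absurd h (by decide),
      fun h => absurd h (by decide)⟩
    · show 1 - iO ^ 0 * lam ^ 2 * c = _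
      rw [hc, hl]
      push_cast
      linear_combination (-iO ^ 4 * n - iO ^ 3 * m - 5 * iO ^ 3 * n - 3 * iO ^ 2 * m - 9 * iO ^ 2 * n -
        3 * iO * m - 7 * iO * n + iO - m - 2 * n + 2) * iO_sq
    · rw [aa_form, bb_form]
      push_cast
      have h2 : (2 : ZMod 2) = 0 := rfl
      rw [h2]
      exact ⟨by ring, by ring⟩
  · refine ⟨_, key (1 - 2 * m) (1 - 2 * n) ?_, fun h => absurd h (by decide),
      fun h => absurd h (by decide), fun h => absurd h (by decide)⟩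
    show 1 - iO ^ 1 * lam ^ 2 * c = _
    rw [hc, hl]
    push_cast
    linear_combination (-iO ^ 5 * n - iO ^ 4 * m - 5 * iO ^ 4 * n - 5 * iO ^ 3 * m - 9 * iO ^ 3 * n -
      9 * iO ^ 2 * m - 7 * iO ^ 2 * n + iO ^ 2 - 7 * iO * m - 2 * iO * n + 3 * iO - 2 * m + 3) *
      iO_sq
  · refine ⟨_, key (2 * n) (1 - 2 * m) ?_, fun h => absurd h (by decide), fun _ => ?_,
      fun h => absurd h (by decide)⟩
    · show 1 - iO ^ 2 * lam ^ 2 * c = _
      rw [hc, hl]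
      push_cast
      linear_combination (-iO ^ 6 * n - iO ^ 5 * m - 5 * iO ^ 5 * n - 5 * iO ^ 4 * m - 9 * iO ^ 4 * n -
        9 * iO ^ 3 * m - 5 * iO ^ 3 * n - 7 * iO ^ 2 * m + 4 * iO ^ 2 * n - 2 * iO * m + 6 * iO *
        n + iO + 2 * n + 2) * iO_sq
    · rw [aa_form, bb_form]
      push_cast
      have h2 : (2 : ZMod 2) = 0 := rfl
      rw [h2]
      exact ⟨by ring, by ring⟩
  · refine ⟨_, key (2 * m) (2 * n) ?_, fun h => absurd h (by decide),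
      fun h => absurd h (by decide), fun _ => ?_⟩
    · show 1 - iO ^ 3 * lam ^ 2 * c = _
      rw [hc, hl]
      push_cast
      linear_combination (-iO ^ 7 * n - iO ^ 6 * m - 5 * iO ^ 6 * n - 5 * iO ^ 5 * m - 9 * iO ^ 5 * n -
        9 * iO ^ 4 * m - 5 * iO ^ 4 * n - 5 * iO ^ 3 * m + 4 * iO ^ 3 * n - iO ^ 3 + 4 * iO ^ 2 *
        m + 6 * iO ^ 2 * n - 2 * iO ^ 2 + 6 * iO * m + 2 * iO * n + 2 * m + 2) * iO_sq
    · rw [aa_form, bb_form]
      push_cast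
      have h2 : (2 : ZMod 2) = 0 := rfl
      rw [h2]
      exact ⟨by ring, by ring⟩

/-! ### the condition -/

theorem LamC.mk2 {k : ZMod 4} {c : 𝓞 K4} {α w A L : ZMod 2} (a2 : k = 1 → α = 0 ∧ w = 0)
    (b2 : k = 3 → α = 0 ∧ L = w * uB3 (mmB c) (nnB c)) (c20 : k = 0 → bb c = 1 → α = 0 ∧ w = 0)
    (c22 : k = 2 → aa c + bb c = 1 → α = 0 ∧ w = 0)
    (d20 : k = 0 → bb c = 0 → α = 0 ∧ L = w * uB0 (mmB c) (nnB c))
    (d22 : k = 2 → aa c + bb c = 0 → α = w ∧ A + L = w * uB2 (mmB c) (nnB c)) :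
    LamC k 2 c α w A L where
  c1 h := absurd h (by decide)
  c2 h := absurd h (by decide)
  x1 h := absurd h (by decide)
  x2 h := absurd h (by decide)
  x3 h := absurd h (by decide)
  e h := absurd h (by decide)
  j3 h := absurd h (by decide)
  a2 _ := a2
  b2 _ := b2
  c20 _ := c20
  c22 _ := c22
  d20 _ := d20
  d22 _ := d22

theorem aa_pow_val {y c : 𝓞 K4} (hy : In4 y) (hc : In4 c) (t : ZMod 2) :
    aa (y * c ^ t.val) = aa y + t * aa c ∧ bb (y * c ^ t.val) = bb y + t * bb c := by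
  have h0 : ∀ e : ZMod 2, e = 0 ∨ e = 1 := by decide
  have h1 : ((1 : ZMod 2)).val = 1 := rfl
  rcases h0 t with rfl | rfl
  · rw [ZMod.val_zero, pow_zero, mul_one, zero_mul, zero_mul, add_zero, add_zero]
    exact ⟨rfl, rfl⟩
  · rw [h1, pow_one, one_mul, one_mul]
    exact ⟨aa_mul hy hc, bb_mul hy hc⟩

/-- the class of `a D ^ t` -/
theorem Kc.mulD {a : K} {α w : ZMod 2} {y : 𝓞 K} (h : Kc a α w y) (k : ZMod 4) (j : Fin 4)
    {c : 𝓞 K} (hc : In4 c) (t : ZMod 2) :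
    Kc (a * ((iO ^ k.val * Pool.Agent.Lib.MP_1a91b9_ntQ.lam ^ j.val * c : 𝓞 K) : K) ^ t.val)
      (α + t * md k) (w + t * (j.val : ZMod 2)) (y * c ^ t.val) :=
  h.mul ((Kc.D k j hc).pow t)

theorem mm_form (m n : ℤ) : mmB (1 + lam ^ 3 * ((m : 𝓞 K4) + (n : 𝓞 K4) * iO)) =
    (m : ZMod 4) := by
  unfold mmB
  rw [cp_form]
  have e : ((2 * m - 2 * n) - (1 - 2 * m - 2 * n) + 1) / 4 = m := by omega
  rw [e]

theorem nn_formB (m n : ℤ) : nnB (1 + lam ^ 3 * ((m : 𝓞 K4) + (n : 𝓞 K4) * iO)) =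
    (n : ZMod 4) := by
  unfold nnB
  rw [cp_form]
  have e : -((1 - 2 * m - 2 * n + (2 * m - 2 * n) - 1) / 4) = n := by omega
  rw [e]

/-- the abscissas of valuation `1`: the class of `a` -/
theorem Kc.of_x {a : K} {α w : ZMod 2} {y : 𝓞 K} (h : Kc a α w y) {x T : K} {r p q : ℕ}
    (hr : r = 0 ∨ r = 1) (hT : T = (p : K) + (1 + (iO : K)) * (q : K))
    (hax : Pool.Agent.Lib.MP_1a91b9_ntH.C.Sq nuL (a * ((1 + (iO : K)) * x)))
    (hx : Pool.Agent.Lib.MP_1a91b9_ntH.C.Sq nuL (x * ((iO : K) ^ r *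
      (1 + (1 + (iO : K)) ^ 3 * T)))) :
    α = (r : ZMod 2) ∧ w = 1 ∧ aa y = (p : ZMod 2) ∧ bb y = (q : ZMod 2) := by
  obtain ⟨z, hz⟩ : ∃ z : 𝓞 K4, z = 1 + Pool.Agent.Lib.MP_1a91b9_ntQ.lam ^ 3 *
      (((p + q : ℤ) : 𝓞 K4) + ((q : ℤ) : 𝓞 K4) * iO) := ⟨_, rfl⟩
  have hz4 : In4 z := by
    rw [hz]
    exact in4_of _ _
  have hzK : (z : K) = 1 + (1 + (iO : K)) ^ 3 * T := by
    rw [hz, hT, ← lam_coe]
    push_cast
    have key : ∀ P Q I Lm : K, Lm = 1 + I → 1 + Lm ^ 3 * (P + Q + Q * I) =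
        1 + Lm ^ 3 * (P + Lm * Q) := by
      intro P Q I Lm h
      rw [h]
      ring
    exact key _ _ _ _ lam_coe
  have hir : Kc ((iO : K) ^ r) (r : ZMod 2) 0 1 := by
    rcases hr with rfl | rfl
    · rw [pow_zero, Nat.cast_zero]
      exact Kc.one
    · rw [pow_one, Nat.cast_one]
      exact Kc.ofI
  have h1 := (h.mul Kc.ofLam).mul (hir.mul (Kc.unit hz4))
  have h2 : Pool.Agent.Lib.MP_1a91b9_ntH.C.Sq nuL
      (a * (Pool.Agent.Lib.MP_1a91b9_ntQ.lam : K) * ((iO : K) ^ r * (z : K))) := by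
    refine Sq.trans' (nu_four4_le nuL_two).le (x := x) ?_ ?_
    · rw [lam_coe, mul_assoc]
      exact hax
    · rw [hzK]
      exact hx
  obtain ⟨g1, g2, g3, g4⟩ := h1.Sq h2
  have hy := h.in4
  rw [mul_one, one_mul, aa_mul hy hz4] at g3
  rw [mul_one, one_mul, bb_mul hy hz4] at g4
  rw [hz, aa_form] at g3
  rw [hz, bb_form] at g4
  push_cast at g3 g4
  have k1 : ∀ α r : ZMod 2, α + 0 + (r + 0) = 0 → α = r := by decide
  have k2 : ∀ w : ZMod 2, w + 1 + (0 + 0) = 0 → w = 1 := by decide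
  have k3 : ∀ A p q : ZMod 2, A + (p + q + q) = 0 → A = p := by decide
  have k4 : ∀ A q : ZMod 2, A + q = 0 → A = q := by decide
  exact ⟨k1 _ _ g1, k2 _ g2, k3 _ _ _ g3, k4 _ _ g4⟩

/-- **the condition at `lam`, `D = i ^ k lam ^ 2 c`** -/
theorem lamC_two (k : ZMod 4) {c y : 𝓞 K} (hc : In4 c) {α w : ZMod 2} {a : K}
    (h : Kc a α w y) (hG : GLoc4 nuL ((iO ^ k.val * lam ^ 2 * c : 𝓞 K) : K) a) :
    ∃ t : ZMod 2, LamC k 2 c (α + t * md k) (w + t * (((2 : Fin 4).val : ℕ) : ZMod 2))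
      (aa y + t * aa c) (bb y + t * bb c) := by
  obtain ⟨m, n, hmn⟩ := in4_form hc
  have hi := iK_sq'
  have hl := nu_lam2 hi nuL_two
  have hy := h.in4
  obtain ⟨W, hW⟩ : ∃ W : K, W = (m : K) + (n : K) * (iO : K) := ⟨_, rfl⟩
  have hW1 : nuL W ≤ 1 := by
    rw [hW]
    exact nuL_gint m n
  have hcK : (c : K) = 1 + (1 + (iO : K)) ^ 3 * W := by
    rw [hmn, hW, ← lam_coe]
    push_cast
    rfl
  have hD : ((iO ^ k.val * lam ^ 2 * c : 𝓞 K) : K) =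
      (1 + (iO : K)) ^ 2 * ((iO : K) ^ k.val * (1 + (1 + (iO : K)) ^ 3 * W)) := by
    rw [← hcK, ← lam_coe]
    have key : ∀ (x y z : 𝓞 K4) (n : ℕ), ((x ^ n * y ^ 2 * z : 𝓞 K4) : K) =
        (y : K) ^ 2 * ((x : K) ^ n * (z : K)) := by
      intro x y z n
      calc ((x ^ n * y ^ 2 * z : 𝓞 K4) : K) = (x : K) ^ n * (y : K) ^ 2 * (z : K) := rfl
        _ = (y : K) ^ 2 * ((x : K) ^ n * (z : K)) := by
          rw [mul_comm ((x : K) ^ n), mul_assoc]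
    exact key _ _ _ _
  have hD1 : nuL ((iO : K) ^ k.val * (1 + (1 + (iO : K)) ^ 3 * W)) = 1 := by
    rw [map_mul, nu_ipow hi, one_mul, ← hcK]
    exact pv_one prime_lam hc.not_lam
  have hv : ∀ e : ℕ, e < 2 → ((e : ZMod 2)).val = e := by
    intro e he
    interval_cases e <;> rfl
  have hmm : mmB c = (m : ZMod 4) := by rw [hmn, mm_form]
  have hnn : nnB c = (n : ZMod 4) := by rw [hmn, nn_formB]
  have haa : aa c = (m : ZMod 2) + (n : ZMod 2) := by rw [hmn, aa_form]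
  have hbb : bb c = (n : ZMod 2) := by rw [hmn, bb_form]
  rcases loc_two hi nuL_two nuL_res hD hD1 hG with ⟨e, he, h1 | h1⟩ | ⟨x, hx, hax, hP⟩
  · refine ⟨(e : ZMod 2), ?_⟩
    have h2 := h.mulD k 2 hc (e : ZMod 2)
    rw [hv e he] at h2
    obtain ⟨g1, g2, g3, g4⟩ := h2.Sq h1
    obtain ⟨g5, g6⟩ := aa_pow_val hy hc (e : ZMod 2)
    rw [hv e he] at g5 g6
    rw [g5] at g3
    rw [g6] at g4
    rw [g1, g2, g3, g4]
    exact LamC.mk2 (fun _ => ⟨rfl, rfl⟩) (fun _ => ⟨rfl, (zero_mul _).symm⟩) (fun _ _ => ⟨rfl, rfl⟩)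
      (fun _ _ => ⟨rfl, rfl⟩) (fun _ _ => ⟨rfl, (zero_mul _).symm⟩)
      (fun _ _ => ⟨rfl, by rw [zero_mul, add_zero]⟩)
  · refine ⟨(e : ZMod 2), ?_⟩
    obtain ⟨z, hz, z0, z2, z3⟩ := Kc.one_sub (k := k) hmn
    have h2 := (h.mulD k 2 hc (e : ZMod 2)).mul hz
    rw [hv e he] at h2
    obtain ⟨g1, g2, g3, g4⟩ := h2.Sq h1
    obtain ⟨g5, g6⟩ := aa_pow_val hy hc (e : ZMod 2)
    rw [hv e he] at g5 g6
    have hyc : In4 (y * c ^ e) := by
      have := (h.mulD k 2 hc (e : ZMod 2)).in4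
      rwa [hv e he] at this
    rw [aa_mul hyc hz.in4, g5] at g3
    rw [bb_mul hyc hz.in4, g6] at g4
    rw [add_zero] at g1 g2
    rw [g1, g2]
    have e2 : ∀ x y : ZMod 2, x + y = 0 → x = y := by decide
    rw [e2 _ _ g3, e2 _ _ g4]
    refine LamC.mk2 (fun _ => ⟨rfl, rfl⟩) (fun hk => ⟨rfl, ?_⟩) (fun _ _ => ⟨rfl, rfl⟩)
      (fun _ _ => ⟨rfl, rfl⟩) (fun hk _ => ⟨rfl, ?_⟩) (fun hk _ => ⟨rfl, ?_⟩)
    · rw [(z3 hk).2, zero_mul]
    · rw [(z0 hk).2, zero_mul]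
    · rw [(z2 hk).1, (z2 hk).2, zero_mul]
      decide
  · have h0 : ∀ k : ZMod 4, k = 0 ∨ k = 1 ∨ k = 2 ∨ k = 3 := by decide
    have j2 : (((2 : Fin 4).val : ℕ) : ZMod 2) = 0 := rfl
    rw [j2]
    rcases h0 k with rfl | rfl | rfl | rfl
    · -- `k = 0`
      obtain ⟨r, p, q, T, t, u, g, hp, hq, hT, hxS, hr, hu, ht, hg, hPg⟩ :=
        locB02 hi nuL_two nuL_res hW1 (Or.inl rfl)
          (show (iO : K) ^ 0 * (1 + (1 + (iO : K)) ^ 3 * W) = 1 * (1 + (1 + (iO : K)) ^ 3 * W) by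
            rw [pow_zero]) hx hP
      have hr0 : r = 0 := by
        rcases hr with ⟨-, h5⟩ | ⟨h5, -⟩
        · exact h5
        · exfalso
          have h3 : (2 : K) = 0 := by linear_combination h5
          exact absurd h3 two_ne_zero
      subst hr0
      obtain ⟨g1, g2, g3, g4⟩ := h.of_x (Or.inl rfl) hT hax hxS
      rw [Nat.cast_zero] at g1
      refine ⟨0, ?_⟩
      rw [zero_mul, zero_mul, zero_mul, zero_mul, add_zero, add_zero, add_zero, add_zero, g1, g2,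
        g3, g4]
      have hl1 : nuL (1 + (iO : K)) ≤ 1 := nu_add_le (map_one nuL).le nuL_i.le
      have hT1 : nuL T ≤ 1 := by
        rw [hT]
        exact nu_TB hl p q
      have ht1 : nuL t ≤ 1 := by
        rw [ht]
        exact nu_add_le hT1 (nu_mul_le (nu_pow_le' hl1 2) hu)
      have hs1 : nuL (-(iO : K) * t + (1 + (iO : K)) * t ^ 2) ≤ 1 :=
        nu_add_le (nu_mul_le (nu_neg_le' nuL_i.le) ht1) (nu_mul_le hl1 (nu_pow_le' ht1 2))
      have hn : Even n := by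
        refine (killI (A := m) (B := n) (m := 0) ht1 (nu_neg_le' hs1) (by
          rw [hg, hW]
          ring) (hPg.imp_left fun h5 => h5.trans ?_)).1 (by decide)
        rw [exp_lt_exp]
        norm_num
      obtain ⟨n', hn'⟩ := hn.two_dvd
      refine LamC.mk2 (fun h5 => absurd h5 (by decide)) (fun h5 => absurd h5 (by decide))
        (fun _ h5 => ?_) (fun h5 => absurd h5 (by decide)) (fun _ _ => ⟨rfl, ?_⟩)
        (fun h5 => absurd h5 (by decide))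
      · exfalso
        rw [hbb, hn'] at h5
        push_cast at h5
        have h6 : (2 : ZMod 2) = 0 := rfl
        rw [h6, zero_mul] at h5
        exact absurd h5 (by decide)
      · rw [one_mul, hmm, hnn]
        rcases Int.even_or_odd m with hm | hm
        · obtain ⟨m', hm'⟩ := hm.two_dvd
          have h5 := (fin_even (M := m') (N := n') (r := 0) (by rw [hW, hm', hn']) hT hu ht hg
            hPg).1 (by decide)
          rw [hm', hn', uB0_even]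
          have e : ((q : ℕ) : ZMod 2) = ((q : ℤ) : ZMod 2) := by push_cast; rfl
          rw [e, ZMod.intCast_eq_intCast_iff_dvd_sub]
          obtain ⟨c5, hc5⟩ := h5
          interval_cases p <;> interval_cases q <;> push_cast at hc5 ⊢ <;> omega
        · obtain ⟨m', hm'⟩ := hm
          obtain ⟨e, a', b', X, Y, he, ha', hb', hX, hY, h5, -⟩ := fin_unit (r := 0) hW hT hu ht hg
            (by rw [hm', hn']; exact ⟨m' + n', by ring⟩) (Or.inl rfl) hPg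
          obtain ⟨h6, h7⟩ := h5 rfl
          rw [hm', hn', uB0_odd]
          have e' : ((q : ℕ) : ZMod 2) = ((q : ℤ) : ZMod 2) := by push_cast; rfl
          rw [e', ZMod.intCast_eq_intCast_iff_dvd_sub]
          subst hm' hn'
          interval_cases p <;> interval_cases q <;> push_cast at ha' hb' ⊢ <;> subst ha' <;>
            subst hb' <;> omega
    · exact (locB1 hi nuL_two nuL_res hW1 (show (iO : K) ^ 1 * (1 + (1 + (iO : K)) ^ 3 * W) =
        (iO : K) * (1 + (1 + (iO : K)) ^ 3 * W) by rw [pow_one]) hx hP).elim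
    · -- `k = 2`
      obtain ⟨r, p, q, T, t, u, g, hp, hq, hT, hxS, hr, hu, ht, hg, hPg⟩ :=
        locB02 hi nuL_two nuL_res hW1 (Or.inr rfl)
          (show (iO : K) ^ 2 * (1 + (1 + (iO : K)) ^ 3 * W) = -1 * (1 + (1 + (iO : K)) ^ 3 * W) by
            rw [hi]) hx hP
      have hr1 : r = 1 := by
        rcases hr with ⟨h5, -⟩ | ⟨-, h5⟩
        · exfalso
          have h3 : (2 : K) = 0 := by linear_combination -h5
          exact absurd h3 two_ne_zero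
        · exact h5
      subst hr1
      obtain ⟨g1, g2, g3, g4⟩ := h.of_x (Or.inr rfl) hT hax hxS
      rw [Nat.cast_one] at g1
      refine ⟨0, ?_⟩
      rw [zero_mul, zero_mul, zero_mul, zero_mul, add_zero, add_zero, add_zero, add_zero, g1, g2,
        g3, g4]
      have hl1 : nuL (1 + (iO : K)) ≤ 1 := nu_add_le (map_one nuL).le nuL_i.le
      have hT1 : nuL T ≤ 1 := by
        rw [hT]
        exact nu_TB hl p q
      have ht1 : nuL t ≤ 1 := by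
        rw [ht]
        exact nu_add_le hT1 (nu_mul_le (nu_pow_le' hl1 2) hu)
      have hs1 : nuL (-(iO : K) * t + (1 + (iO : K)) * t ^ 2) ≤ 1 :=
        nu_add_le (nu_mul_le (nu_neg_le' nuL_i.le) ht1) (nu_mul_le hl1 (nu_pow_le' ht1 2))
      have hm : Even m := by
        refine (killI (A := m) (B := n) (m := 1) ht1 (nu_neg_le' hs1) (by
          rw [hg, hW]
          ring) (hPg.imp_left fun h5 => h5.trans ?_)).2 (by decide)
        rw [exp_lt_exp]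
        norm_num
      obtain ⟨m', hm'⟩ := hm.two_dvd
      refine LamC.mk2 (fun h5 => absurd h5 (by decide)) (fun h5 => absurd h5 (by decide))
        (fun h5 => absurd h5 (by decide)) (fun _ h5 => ?_) (fun h5 => absurd h5 (by decide))
        (fun _ _ => ⟨rfl, ?_⟩)
      · exfalso
        rw [haa, hbb, hm'] at h5
        push_cast at h5
        have h6 : ∀ x y : ZMod 2, 2 * x + y + y ≠ 1 := by decide
        exact h6 _ _ h5
      · rw [one_mul, hmm, hnn]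
        rcases Int.even_or_odd n with hn | hn
        · obtain ⟨n', hn'⟩ := hn.two_dvd
          have h5 := (fin_even (M := m') (N := n') (r := 1) (by rw [hW, hm', hn']) hT hu ht hg
            hPg).2 (by decide)
          rw [hm', hn', uB2_even]
          have e : ((p : ℕ) : ZMod 2) + ((q : ℕ) : ZMod 2) = (((p : ℤ) + q : ℤ) : ZMod 2) := by
            push_cast
            rfl
          rw [e, ZMod.intCast_eq_intCast_iff_dvd_sub]
          obtain ⟨c5, hc5⟩ := h5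
          interval_cases p <;> interval_cases q <;> push_cast at hc5 ⊢ <;> omega
        · obtain ⟨n', hn'⟩ := hn
          obtain ⟨e, a', b', X, Y, he, ha', hb', hX, hY, -, h5⟩ := fin_unit (r := 1) hW hT hu ht hg
            (by rw [hm', hn']; exact ⟨m' + n', by ring⟩) (Or.inr rfl) hPg
          obtain ⟨h6, h7⟩ := h5 rfl
          rw [hm', hn', uB2_odd]
          have e' : ((p : ℕ) : ZMod 2) + ((q : ℕ) : ZMod 2) = (((p : ℤ) + q : ℤ) : ZMod 2) := by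
            push_cast
            rfl
          rw [e', ZMod.intCast_eq_intCast_iff_dvd_sub]
          subst hm' hn'
          interval_cases p <;> interval_cases q <;> push_cast at ha' hb' ⊢ <;> subst ha' <;>
            subst hb' <;> omega
    · -- `k = 3`
      obtain ⟨r, p, q, T, ε, hp, hq, hT, hε, hxS, hr⟩ := locB3 hi nuL_two nuL_res hW1 rfl hx hP
      have h5 := fin3 hW hT hε hr
      obtain ⟨g1, g2, g3, g4⟩ := h.of_x (hr.imp (fun h => h.1) fun h => h.1) hT hax hxS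
      have m3 : md 3 = 1 := by decide
      refine ⟨(r : ZMod 2), ?_⟩
      rw [g1, g2, g3, g4, m3, hbb, mul_zero, add_zero, mul_one]
      refine LamC.mk2 (fun h6 => absurd h6 (by decide)) (fun _ => ⟨?_, ?_⟩)
        (fun h6 => absurd h6 (by decide)) (fun h6 => absurd h6 (by decide))
        (fun h6 => absurd h6 (by decide)) (fun h6 => absurd h6 (by decide))
      · have h7 : ∀ x : ZMod 2, x + x = 0 := by decide
        exact h7 _
      · rw [one_mul, hmm, hnn]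
        exact h5

end

end Pool.Agent.Lib.MP_1a91b9_ntQ.C
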