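import Pool.Agent.Lib.MP_1a91b9_ntQ.C.SelX3

/-!
# MP_1a91b9_nt (quartic twists), part B: the local conditions at the primes whose square divides `D`

`loc4_two`: `D = l² D'`, `l` a uniformizer at an odd place, `D'` a unit.
-/

set_option autoImplicit false
set_option linter.unusedSectionVars false
set_option linter.unusedVariables false

namespace Pool.Agent.Lib.MP_1a91b9_ntQ.C

open NumberField Finset WithZero IsDedekindDomain Pool.Agent.Lib.MP_1a91b9_nuT
open Pool.Agent.Lib.MP_1a91b9_ntQ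
open Pool.Agent.Lib.MP_1a91b9_ntH.C (Sq exists_nu isSquare_exp nu_one)

noncomputable section

section abs

variable {L : Type*} [Field L] [CharZero L] {ν : Valuation L ℤᵐ⁰}

/-- (2.3) `D = l² D'`, `D'` a unit -/
theorem loc4_two {i l D' a : L} (hi : i ^ 2 = -1) (h4 : ν 4 = 1) (hl : ν l = exp (-1))
    (hD' : ν D' = 1) (h : GLoc4 ν (l ^ 2 * D') a) :
    Sq ν a ∨ Sq ν (a * D') ∨ ∃ r : L, ν (r ^ 2 / D' - 1) < 1 ∧ Sq ν (a * (l * r)) := by
  have hl0 : l ≠ 0 := by
    rintro rfl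
    rw [map_zero] at hl
    exact exp_ne_zero hl.symm
  have hD0' : D' ≠ 0 := by
    rintro rfl
    rw [map_zero] at hD'
    exact zero_ne_one hD'
  obtain ⟨D, hD⟩ : ∃ D : L, D = l ^ 2 * D' := ⟨_, rfl⟩
  have hD0 : D ≠ 0 := by
    rw [hD]
    exact mul_ne_zero (pow_ne_zero 2 hl0) hD0'
  have hνD : ν D = exp (-2) := by
    rw [hD, map_mul, map_pow, hl, hD', mul_one, ← exp_nsmul]
    rfl
  have h16 : ν 16 = 1 := by
    have e : (16 : L) = 4 * 4 := by norm_num
    rw [e, map_mul, h4, one_mul]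
  have hsqD : Sq ν (a * D) → Sq ν (a * D') := by
    intro h1
    refine Sq.of_mul_sq hl0 ?_
    have e : a * D' * l ^ 2 = a * D := by
      rw [hD]
      ring
    rwa [e]
  rw [← hD] at h
  rcases h with h | h | ⟨x, hx0, hx, h⟩ | ⟨x, hx0, hx, h⟩
  · exact Or.inl h
  · exact Or.inr (Or.inl (hsqD h))
  · refine Or.inr (Or.inr ⟨x / l, ?_, ?_⟩)
    · have e : (x / l) ^ 2 / D' - 1 = x ^ 2 / D - 1 := by
        rw [hD]
        field_simp
      rw [e, ← h16]
      exact hx
    · rwa [mul_div_cancel₀ _ hl0]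
  · rcases lt_trichotomy (ν (x ^ 2)) (ν D) with h0 | h0 | h0
    · -- `x ^ 2` is small
      right; left
      apply hsqD
      have h1 : Sq ν (-(x * D)) := by
        refine Sq.congr' h4.le hx ?_
        have hxx : x ^ 2 - D ≠ 0 := fun h' => h0.ne (by rw [sub_eq_zero.1 h'])
        have e : -(x * D) / (x * (x ^ 2 - D)) - 1 = -(x ^ 2 / (x ^ 2 - D)) := by
          field_simp
          ring
        rw [e, Valuation.map_neg, map_div₀, nu_subr h0, h4]
        exact (div_lt_one₀ (zero_lt_iff.2 (ν.ne_zero_iff.2 hD0))).2 h0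
      exact Sq.trans' h4.le h (Sq.neg' hi h1)
    · -- `x = l r`
      right; right
      have hνx : ν x = exp (-1) := by
        obtain ⟨n, hn⟩ := exists_nu ν hx0
        rw [map_pow, hn, hνD, ← exp_nsmul, exp_inj, nsmul_eq_mul] at h0
        push_cast at h0
        rw [hn]
        congr 1
        omega
      refine ⟨x / l, ?_, by rwa [mul_div_cancel₀ _ hl0]⟩
      have e : (x / l) ^ 2 / D' - 1 = (x ^ 2 - D) / D := by
        rw [hD]
        field_simp
      rw [e, map_div₀, hνD]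
      refine (div_lt_one₀ exp_pos).2 ?_
      have h1 : ν (x ^ 2 - D) ≤ exp (-2) := by
        refine ν.map_sub_le ?_ hνD.le
        rw [h0, hνD]
      refine lt_of_le_of_ne h1 fun h2 => ?_
      have h3 := hx.even h4.le
      rw [map_mul, hνx, h2, ← exp_add, isSquare_exp] at h3
      exact absurd h3 (by decide)
    · left
      have h1 : Sq ν (x ^ 3) := by
        refine Sq.congr' h4.le hx ?_
        have hxx : x ^ 2 - D ≠ 0 := fun h' => h0.ne (by rw [sub_eq_zero.1 h'])
        have e : x ^ 3 / (x * (x ^ 2 - D)) - 1 = D / (x ^ 2 - D) := by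
          field_simp
          ring
        rw [e, map_div₀, nu_subl h0, h4]
        exact (div_lt_one₀ (zero_lt_iff.2 (ν.ne_zero_iff.2 (pow_ne_zero 2 hx0)))).2 h0
      have h2 : Sq ν x := by
        refine Sq.of_mul_sq hx0 ?_
        have e : x * x ^ 2 = x ^ 3 := by ring
        rwa [e]
      exact h.cancel h4.le h2

end abs

/-! ### the symbols -/

/-- a fraction which is a unit at `q` -/
theorem frac_unit (q : Pg) {x : K} (hx : (pv q.1 q.prime).valuation K x = 1) :
    ∃ n d : 𝓞 K, ¬ q.1 ∣ n ∧ ¬ q.1 ∣ d ∧ x * (d : K) = (n : K) := by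
  obtain ⟨n, ⟨d, hd⟩, hnd⟩ :=
    HeightOneSpectrum.exists_primeCompl_mul_eq_of_integer (pv q.1 q.prime) x hx.le
  have hnd' : x * (d : K) = (n : K) := hnd
  have hd' : ¬ q.1 ∣ d := fun hh => hd (Ideal.mem_span_singleton.2 hh)
  refine ⟨n, d, ?_, hd', hnd'⟩
  rw [← pv_lt q.prime, ← hnd', map_mul, hx, pv_one q.prime hd', one_mul]
  exact lt_irrefl _

/-- `(D' / q)_4` for a square `D'` modulo `q` -/
theorem c4_of_root (q : Pg) {D' : 𝓞 K} (hD' : ¬ q.1 ∣ D') {r : K}
    (hr : (pv q.1 q.prime).valuation K (r ^ 2 / (D' : K) - 1) < 1) :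
    ∃ n d : 𝓞 K, ¬ q.1 ∣ n ∧ ¬ q.1 ∣ d ∧ r * (d : K) = (n : K) ∧
      c4 q D' = 2 * (c4 q n + c4 q d) := by
  have hvD := pv_one q.prime hD'
  have h1 : (pv q.1 q.prime).valuation K r = 1 := by
    have h2 := Valuation.map_add_eq_of_lt_right ((pv q.1 q.prime).valuation K)
      (x := r ^ 2 / (D' : K) - 1) (y := 1) (by rw [map_one]; exact hr)
    rw [sub_add_cancel, map_one, map_div₀, hvD, div_one, map_pow] at h2
    exact (pow_eq_one_iff_of_nonneg zero_le two_ne_zero).1 h2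
  obtain ⟨n, d, hn, hd, hnd⟩ := frac_unit q h1
  refine ⟨n, d, hn, hd, hnd, ?_⟩
  have hvd := pv_one q.prime hd
  have hD0 : (D' : K) ≠ 0 := by
    intro h0
    rw [h0, map_zero] at hvD
    exact zero_ne_one hvD
  have h2 : q.1 ∣ D' * d ^ 2 - n ^ 2 := by
    rw [← pv_lt q.prime]
    have h3 : ((D' * d ^ 2 - n ^ 2 : 𝓞 K) : K) =
        -((r ^ 2 / (D' : K) - 1) * ((D' : K) * (d : K) ^ 2)) := by
      have e1 : ((D' * d ^ 2 - n ^ 2 : 𝓞 K) : K) = (D' : K) * (d : K) ^ 2 - (n : K) ^ 2 := by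
        push_cast
        rfl
      rw [e1, ← hnd]
      field_simp
      ring
    rw [h3, Valuation.map_neg, map_mul, map_mul, map_pow, hvD, hvd, one_mul, one_pow, mul_one]
    exact hr
  have hdd : ¬ q.1 ∣ d ^ 2 := fun h => hd (q.prime.dvd_of_dvd_pow h)
  have hDd : ¬ q.1 ∣ D' * d ^ 2 := fun h => (q.prime.dvd_or_dvd h).elim hD' hdd
  have h3 := c4_congr q hDd h2
  rw [c4_mul q hD' hdd, c4_pow q hd, c4_pow q hn] at h3
  have h4 : ∀ D n d : ZMod 4, D + ((2 : ℕ) : ZMod 4) * d = ((2 : ℕ) : ZMod 4) * n →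
      D = 2 * (n + d) := by decide
  exact h4 _ _ _ h3

theorem coe_pow_mul (x y : 𝓞 K) (n : ℕ) : ((x ^ n * y : 𝓞 K) : K) = (x : K) ^ n * (y : K) := by
  rw [coe_mul']
  congr 1

/-- **the condition at `b`**, `b² ∣ D`, for a class `a = m² b ^ e g'`: if `D / b²` is not a square
modulo `b`, then `e = 0`; if it is a square, then the symbol of `g'` is `e ρ`. -/
theorem row_two (b : Pg) {β D' g' : 𝓞 K} (hβ : β = b.1) {e : ZMod 2} {a m : K} (hm : m ≠ 0) (hD' : ¬ b.1 ∣ D')
    (hg' : ¬ b.1 ∣ g') (ha : a = m ^ 2 * ((β ^ e.val * g' : 𝓞 K) : K))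
    (h : GLoc4 ((pv b.1 b.prime).valuation K) ((β ^ 2 * D' : 𝓞 K) : K) a) :
    (c2 b D' = 1 → e = 0) ∧ (c2 b D' = 0 → c2 b g' = e * (if c4 b D' = 2 then 1 else 0)) := by
  have h4 := val_four_odd b.prime (not_dvd_lam4 b)
  have hνβ : (pv b.1 b.prime).valuation K (β : K) = exp (-1) := by
    rw [hβ]
    exact pv_self _ _
  rw [coe_pow_mul] at h ha
  have h0 : ∀ e : ZMod 2, e = 0 ∨ e = 1 := by decide
  have hv1 : ((1 : ZMod 2)).val = 1 := rfl
  -- odd valuations
  have hodd : ∀ y : 𝓞 K, ¬ b.1 ∣ y → ¬ Sq ((pv b.1 b.prime).valuation K) ((β : K) * (y : K)) := by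
    intro y hy hs
    have h1 := hs.even h4.le
    rw [map_mul, hνβ, pv_one b.prime hy, mul_one] at h1
    exact absurd (exp_odd h1) (by decide)
  -- a class which is a square after multiplication by a unit
  have key : ∀ x : 𝓞 K, ¬ b.1 ∣ x → Sq ((pv b.1 b.prime).valuation K) (a * (x : K)) →
      e = 0 ∧ c2 b g' = c2 b x := by
    intro x hx hs
    have hgx : ¬ b.1 ∣ g' * x := fun hd => (b.prime.dvd_or_dvd hd).elim hg' hx
    have hs2 : Sq ((pv b.1 b.prime).valuation K) ((β : K) ^ e.val * ((g' * x : 𝓞 K) : K)) := by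
      refine Sq.of_mul_sq hm ?_
      have e1 : (β : K) ^ e.val * ((g' * x : 𝓞 K) : K) * m ^ 2 = a * (x : K) := by
        rw [ha, coe_mul']
        ring
      rwa [e1]
    have he : e = 0 := by
      rcases h0 e with he | he
      · exact he
      · exfalso
        rw [he, hv1, pow_one] at hs2
        exact hodd _ hgx hs2
    refine ⟨he, ?_⟩
    rw [he, ZMod.val_zero, pow_zero, one_mul] at hs2
    have h1 := sq_c2 b hgx h4 hs2
    rw [c2_mul b hg' hx] at h1
    have h2 : ∀ x y : ZMod 2, x + y = 0 → x = y := by decide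
    exact h2 _ _ h1
  rcases loc4_two iK_sq' h4 hνβ (pv_one b.prime hD') h with h1 | h1 | ⟨r, hr, h1⟩
  · obtain ⟨h2, h3⟩ := key 1 (not_dvd_of_unit b.prime isUnit_one) (by
      have e1 : ((1 : 𝓞 K) : K) = 1 := map_one (algebraMap (𝓞 K) K)
      rwa [e1, mul_one])
    rw [c2_one] at h3
    exact ⟨fun _ => h2, fun _ => by rw [h3, h2, zero_mul]⟩
  · obtain ⟨h2, h3⟩ := key D' hD' h1
    exact ⟨fun _ => h2, fun h5 => by rw [h3, h2, zero_mul, h5]⟩
  · obtain ⟨n, d, hn, hd, hnd, h5⟩ := c4_of_root b hD' hr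
    have hc2 : c2 b D' = 0 := by
      unfold c2
      rw [h5]
      have h6 : ∀ x : ZMod 4, md (2 * x) = 0 := by decide
      exact h6 _
    refine ⟨fun h6 => absurd (hc2.symm.trans h6) (by decide), fun _ => ?_⟩
    have hd0 : (d : K) ≠ 0 := by
      intro h6
      have h7 := pv_one b.prime hd
      rw [h6, map_zero] at h7
      exact zero_ne_one h7
    have hgnd : ¬ b.1 ∣ g' * (n * d) := fun hh =>
      (b.prime.dvd_or_dvd hh).elim hg' fun h7 => (b.prime.dvd_or_dvd h7).elim hn hd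
    have hs : Sq ((pv b.1 b.prime).valuation K)
        ((β : K) ^ (e.val + 1) * ((g' * (n * d) : 𝓞 K) : K)) := by
      refine Sq.of_mul_sq (mul_ne_zero hm (inv_ne_zero hd0)) ?_
      have e1 : (β : K) ^ (e.val + 1) * ((g' * (n * d) : 𝓞 K) : K) * (m * (d : K)⁻¹) ^ 2 =
          a * ((β : K) * r) := by
        have e2 : r = (n : K) / (d : K) := by
          rw [← hnd, mul_div_cancel_right₀ _ hd0]
        rw [ha, coe_mul', coe_mul', e2]
        field_simp
        ring
      rwa [e1]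
    rcases h0 e with he | he
    · exfalso
      rw [he, ZMod.val_zero, zero_add, pow_one] at hs
      exact hodd _ hgnd hs
    · rw [he, hv1] at hs
      have hb0 : (β : K) ≠ 0 := coe_ne (by rw [hβ]; exact b.ne_zero)
      have hs2 : Sq ((pv b.1 b.prime).valuation K) ((g' * (n * d) : 𝓞 K) : K) := by
        refine Sq.of_mul_sq hb0 ?_
        rw [mul_comm]
        exact hs
      have h6 := sq_c2 b hgnd h4 hs2
      have hndd : ¬ b.1 ∣ n * d := fun h7 => (b.prime.dvd_or_dvd h7).elim hn hd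
      rw [c2_mul b hg' hndd, c2_mul b hn hd] at h6
      rw [he, one_mul, h5]
      unfold c2 at h6 ⊢
      have h7 : ∀ g : ZMod 2, ∀ n d : ZMod 4, g + (md n + md d) = 0 →
          g = if 2 * (n + d) = 2 then 1 else 0 := by decide
      exact h7 _ _ _ h6

end

end Pool.Agent.Lib.MP_1a91b9_ntQ.C
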