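import Pool.Agent.Lib.MP_1a91b9_ntQ.B.RhsEB
import Pool.Agent.Lib.MP_1a91b9_ntQ.A.OptB
import Pool.Agent.Lib.MP_1a91b9_ntQ.B.GlD

/-!
# Quartic twists, all fourth-power-free `D`, class (E), file LsEB: the class of the value
-/

set_option autoImplicit false

namespace Pool.Agent.Lib.MP_1a91b9_ntQ

open NumberField Pool.Agent.Lib.MP_1a91b9_nuT Pool.Agent.Lib.MP_1a91b9_nuT.S3
  Pool.Agent.Lib.MP_1a91b9_nuT.Ell

noncomputable section

/-- the right side as a sum over paths -/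
theorem rhsE_ham (k : ZMod 4) {S : Finset Pg} (hS : S.Nonempty) :
    (md k + 1) * (if S.card = 1 then ∑ q ∈ S, aa q.1 else 0) + betaE S =
      ∑ i ∈ S, aa i.1 * Ham s4 (fun q => kapB k 1 q + aa q.1) S i := by
  have hs : ∀ p q : Pg, p ≠ q → s4 p q = s4 q p := fun _ _ h => s4_symm h
  rw [ham_symm s4 hs (fun q => aa q.1) (fun q => kapB k 1 q + aa q.1) S,
    ← ham_self s4 hs (fun q : Pg => aa q.1) hS, Finset.mul_sum, betaE, ← Finset.sum_add_distrib]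
  refine Finset.sum_congr rfl fun i _ => ?_
  rw [kapB, c2_lam, Nat.cast_one]
  ring

variable {B : ValuationSubring ℂ}

/-- **The class of the value.** -/
theorem Rt_LaB_E (hB : (2 : ℂ)⁻¹ ∉ B) (k : ZMod 4) {e : Pg → ZMod 4} {S0 B0 : Finset Pg}
    (hd : Disjoint S0 B0) (hS : ∀ q ∈ S0, md (e q) ≠ 0) (hC : ∀ q ∈ B0, e q = 2)
    {U V : Finset Pg} (hUB : U ∪ V = B0) (hUV : Disjoint U V)
    (hu1 : ∀ b ∈ U, kapB k 1 b + ∑ p ∈ S0, s4 b p = 1)
    (hu0 : ∀ b ∈ V, kapB k 1 b + ∑ p ∈ S0, s4 b p = 0) :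
    Rt B (LaB k 1 e (S0 ∪ B0) / (KE * lm ^ (S0.card + U.card + 2 * V.card)))
      (pdB (blkM s4 (kapB k 1) (fun b => hf2 (EB k 1 e (S0 ∪ U) b)) S0 V) (fun q => aa q.1)
        (fun q => aa q.1) (xE k + ∑ p ∈ S0, aa p.1) (S0 ∪ V)) := by
  have hbS : ∀ b ∈ B0, b ∉ S0 := fun b hb h => Finset.disjoint_left.1 hd h hb
  have hUsub : U ⊆ B0 := hUB ▸ Finset.subset_union_left
  have hVsub : V ⊆ B0 := hUB ▸ Finset.subset_union_right
  refine (syB hB k 1 hd hS KE).final_E (g := fun q => aa q.1) (x0 := xE k)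
    (Rt_LaS_empty_E hB k e) ?_ hUB hUV hu1 hu0
    (fun b hb => h1B hB k 1 e (hbS b (hVsub hb)))
    (fun b hb => h2B hB k 1 (Finset.disjoint_of_subset_right hUsub hd) hS
      (fun a ha => hC a (hUsub ha)) (hbS b (hVsub hb))
      (fun h => Finset.disjoint_left.1 hUV h hb) (hu0 b hb))
  intro T hT C hC' hTC
  rw [← rhsE_ham k hTC]
  exact rhsEB hB k (Finset.disjoint_of_subset_left hT (Finset.disjoint_of_subset_right hC' hd))
    (fun q hq => hS q (hT hq)) (fun q hq => hC q (hC' hq)) hTC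

end

end Pool.Agent.Lib.MP_1a91b9_ntQ
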