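import Pool.Agent.Lib.MP_1a91b9_ntQ.B.MatD
import Pool.Agent.Lib.MP_1a91b9_ntQ.B.CorD
import Pool.Agent.Lib.MP_1a91b9_ntQ.B.LaJ2o
import Pool.Agent.Lib.MP_1a91b9_ntQ.R.PatB

/-!
# Quartic twists, all fourth-power-free `D`, class J2d, `nu` odd, file LsJ2o: the congruence of the value
-/

set_option autoImplicit false
set_option linter.unusedSectionVars false

namespace Pool.Agent.Lib.MP_1a91b9_ntQ

open NumberField Finset Pool.Agent.Lib.MP_1a91b9_nuT Pool.Agent.Lib.MP_1a91b9_nuT.S3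
  Pool.Agent.Lib.MP_1a91b9_nuT.Ell

noncomputable section

variable {V : ValuationSubring ℂ} {q0 : Pg} {k : ZMod 4} {S T B : Finset Pg}

/-- the exponent of the full character at `lam` -/
theorem sum_e_lam (h : Dj S T B) :
    ∑ q ∈ S ∪ T ∪ B, eB T B q * c4 q lam = llB (cB S T B) := by
  rw [llB_eq (cB_in4 S T B), ← h.DDe_eq, ll_DDe]
  exact sum_congr rfl fun q _ => by rw [ll_q]

/-- the weights of the sums, `nu` odd -/
theorem kapJ_odd (hk : k = 0 ∨ k = 2) (h : Dj S T B) (hA : aa (cB S T B) = 1) {h' : ZMod 4}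
    (hh' : h' + nn (cB S T B) = 0) (q0 b : Pg) : kapJ (kkB k S T B) 2 h' q0 b = s4 q0 b := by
  have hk2 : md k = 0 := by rcases hk with rfl | rfl <;> rfl
  have h1 := kapJ_kk (k := k) (j := 2) h hh' q0 b
  rw [kxB_even hk2 rfl, zero_add, ← aa_cB h.st B, hA, mul_one] at h1
  exact h1

theorem nn_odd {c : 𝓞 K4} (hA : aa c = 1) : -nn c = 1 ∨ -nn c = 3 := by
  have h1 : md (nn c) = 1 := hA
  have key : ∀ n : ZMod 4, (ZMod.castHom (show 2 ∣ 4 by norm_num) (ZMod 2)) n = 1 →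
      -n = 1 ∨ -n = 3 := by decide
  exact key _ h1

/-- the final matrix -/
theorem blkM_odd (hk : k = 0 ∨ k = 2) (h : Dj S T B) (hA : aa (cB S T B) = 1) {h' : ZMod 4}
    (hh' : h' + nn (cB S T B) = 0) (h0 : aa q0.1 = 1) :
    ∀ i ∈ S ∪ T ∪ VB k 2 S T B, ∀ j ∈ S ∪ T ∪ VB k 2 S T B,
      blkM (nXB q0) (fun b => s4 q0 b) (fun b => hf2 (tB (kkB k S T B) 2 b.1 +
        bkB q0 (eB T B) h' (S ∪ T ∪ UqB k 2 S T B) b.1)) (S ∪ T) (VB k 2 S T B) i j =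
      MqB k 2 S T B i j + s4 q0 i * aa j.1 := by
  intro i hi j _
  have h1 := blkM_nJB (k := k) (j := 2) (q := j) h h0 hh' hi
  have h2 : (kapJ (kkB k S T B) ((2 : Fin 4).val) h' q0) = fun b => s4 q0 b := by
    funext b
    exact kapJ_odd hk h hA hh' q0 b
  rw [h2] at h1
  exact h1

/-- **J2d, `nu` odd, `k = 0`.** -/
theorem Rt_B_D2odd0 (hV : (2 : ℂ)⁻¹ ∉ V) (h : Dj S T B) (hA : aa (cB S T B) = 1)
    (hl : lJ 0 (cB S T B) = 0) {r : Pg} (hr : r ∈ S ∪ T) :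
    Rt V (LaB (kkB 0 S T B) 2 (eB T B) (S ∪ T ∪ B) / (LaB (kkB 0 S T B) 2 (eB T B) ∅ *
        lm ^ ((S ∪ T).card + (UqB 0 2 S T B).card + 2 * (VB 0 2 S T B).card + 2)))
      ((BM (pmG (MqB 0 2 S T B) (S ∪ T ∪ VB 0 2 S T B)) (fun i => bpB (pJ 0) i)
        (fun i => bpB (pJ 0) i) (uJ 0 (cB S T B))).adjugate (Sum.inl ⟨r, mem_union_left _ hr⟩)
        (Sum.inl ⟨r, mem_union_left _ hr⟩)) := by
  have hk : (0 : ZMod 4) = 0 ∨ (0 : ZMod 4) = 2 := Or.inl rfl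
  have hc := cB_in4 S T B
  have hkk : kkB 0 S T B = 2 := by
    have h1 : md (nn (cB S T B)) = 1 := hA
    have key : ∀ n : ZMod 4, (ZMod.castHom (show 2 ∣ 4 by norm_num) (ZMod 2)) n = 1 →
        0 + 2 * n = 2 := by decide
    rw [kkB, h.kB_eq]
    exact key _ h1
  obtain ⟨h', hh'⟩ : ∃ h' : ZMod 4, h' = -nn (cB S T B) := ⟨_, rfl⟩
  have hhn : h' + nn (cB S T B) = 0 := by rw [hh', neg_add_cancel]
  have hh : h' = 1 ∨ h' = 3 := hh' ▸ nn_odd hA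
  obtain ⟨q0, -, hq, h0, hl0, hs⟩ := exists_pat4 (S ∪ T ∪ B) (fun b => lJ 2 b.1) 1 0 0
  have hbb : bb (cB S T B) = 0 := by
    rw [lJ, if_neg (by decide)] at hl
    exact hl
  have hs1 : ∑ p ∈ S ∪ T, s4 q0 p = 1 := by
    rw [sum_congr rfl fun p hp => hs p (mem_union_left _ hp)]
    have e1 : ∑ p ∈ S ∪ T, lJ 2 p.1 = ∑ p ∈ S ∪ T, (aa p.1 + bb p.1) :=
      sum_congr rfl fun p _ => by rw [lJ, if_pos rfl]
    rw [e1, sum_add_distrib, ← aa_cB h.st B, ← bb_cB h.st B, hA, hbb, add_zero]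
  have ht : md (∑ p ∈ S ∪ T ∪ B, eB T B p * c4 p lam) = 0 := by
    rw [sum_e_lam h, md_llB hc, hbb]
  have h1 := Rt_LaB_J2o2 hV hh h0 hl0 h.ub
    (fun q hq => by rw [h.eodd hq]; exact one_ne_zero) (fun q hq => h.eb hq) hq hs
    (by rw [h.sum_e_nn]; exact hhn) hs1 (UqB_union 0 2 S T B) (UqB_dis 0 2 S T B)
    (fun b hb => by
      have h2 := hu1_J (k := 0) (j := 2) h hhn q0 hb
      rw [← kapJ_odd hk h hA hhn q0 b]
      exact h2)
    (fun b hb => by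
      have h2 := hu0_J (k := 0) (j := 2) h hhn q0 hb
      rw [← kapJ_odd hk h hA hhn q0 b]
      exact h2) ht
  rw [← pdB_corner] at h1
  have hM := blkM_odd hk h hA hhn h0
  rw [hkk] at hM
  rw [pdB_D2 hk h (p := pJ 0) (by rw [sum_bpJ h, hl]) (c1 := 0) (c2 := 1)
    (w := fun i => s4 q0 i) (z := fun i => aa i.1) (mul_one 0) hM
    (fun i hi => by
      have e1 := hs i (union_subset_union_right (VB_sub 0 2 S T B) hi)
      show s4 q0 i + (aa i.1 + s4 q0 i) = bpB (pJ 0) i + 1 * s4 q0 i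
      rw [e1, bpB_pJ, lJ, lJ, if_pos rfl, if_neg (by decide)]
      have key : ∀ x y : ZMod 2, x + y + (x + (x + y)) = y + 1 * (x + y) := by decide
      exact key _ _)
    (fun i _ => by
      show bb i.1 = bpB (pJ 0) i + 0 * aa i.1
      rw [bpB_pJ, lJ, if_neg (by decide), zero_mul, add_zero])
    hs1 (by rw [← aa_cB h.st B, hA]) hr] at h1
  have hx : (if h' = 1 then (1 : ZMod 2) else 0) + ∑ p ∈ S ∪ T, bb p.1 +
      (if ∑ p ∈ S ∪ T ∪ B, eB T B p * c4 p lam = 0 then 1 else 0) = uJ 0 (cB S T B) := by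
    have e1 : h' = 1 ↔ nn (cB S T B) = 3 := by
      have key : ∀ n : ZMod 4, -n = 1 ↔ n = 3 := by decide
      rw [hh']
      exact key _
    have e2 : ¬ (0 : ZMod 4) = 2 := by decide
    rw [uJ_odd hk hc hA hl, if_neg e2, sum_e_lam h, ← bb_cB h.st B, hbb, add_zero,
      if_congr e1 rfl rfl]
  rw [hx] at h1
  rw [hkk]
  exact h1

/-- **J2d, `nu` odd, `k = 2`.** -/
theorem Rt_B_D2odd2 (hV : (2 : ℂ)⁻¹ ∉ V) (h : Dj S T B) (hA : aa (cB S T B) = 1)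
    (hl : lJ 2 (cB S T B) = 0) {r : Pg} (hr : r ∈ S ∪ T) :
    Rt V (LaB (kkB 2 S T B) 2 (eB T B) (S ∪ T ∪ B) / (LaB (kkB 2 S T B) 2 (eB T B) ∅ *
        lm ^ ((S ∪ T).card + (UqB 2 2 S T B).card + 2 * (VB 2 2 S T B).card + 2)))
      ((BM (pmG (MqB 2 2 S T B) (S ∪ T ∪ VB 2 2 S T B)) (fun i => bpB (pJ 2) i)
        (fun i => bpB (pJ 2) i) (uJ 2 (cB S T B))).adjugate (Sum.inl ⟨r, mem_union_left _ hr⟩)
        (Sum.inl ⟨r, mem_union_left _ hr⟩)) := by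
  have hk : (2 : ZMod 4) = 0 ∨ (2 : ZMod 4) = 2 := Or.inr rfl
  have hc := cB_in4 S T B
  have hkk : kkB 2 S T B = 0 := by
    have h1 : md (nn (cB S T B)) = 1 := hA
    have key : ∀ n : ZMod 4, (ZMod.castHom (show 2 ∣ 4 by norm_num) (ZMod 2)) n = 1 →
        2 + 2 * n = 0 := by decide
    rw [kkB, h.kB_eq]
    exact key _ h1
  obtain ⟨h', hh'⟩ : ∃ h' : ZMod 4, h' = -nn (cB S T B) := ⟨_, rfl⟩
  have hhn : h' + nn (cB S T B) = 0 := by rw [hh', neg_add_cancel]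
  have hh : h' = 1 ∨ h' = 3 := hh' ▸ nn_odd hA
  obtain ⟨q0, -, hq, h0, hl0, hs⟩ := exists_pat4 (S ∪ T ∪ B) (fun b => lJ 0 b.1) 1 0 0
  have hbb : bb (cB S T B) = 1 := by
    rw [lJ, if_pos rfl, hA] at hl
    have h3 : ∀ x : ZMod 2, 1 + x = 0 → x = 1 := by decide
    exact h3 _ hl
  have hs1 : ∑ p ∈ S ∪ T, s4 q0 p = 1 := by
    rw [sum_congr rfl fun p hp => hs p (mem_union_left _ hp)]
    have e1 : ∑ p ∈ S ∪ T, lJ 0 p.1 = ∑ p ∈ S ∪ T, bb p.1 :=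
      sum_congr rfl fun p _ => by rw [lJ, if_neg (by decide)]
    rw [e1, ← bb_cB h.st B, hbb]
  have ht : md (∑ p ∈ S ∪ T ∪ B, eB T B p * c4 p lam) = 1 := by
    rw [sum_e_lam h, md_llB hc, hbb]
  have h1 := Rt_LaB_J2o0 hV hh h0 hl0 h.ub
    (fun q hq => by rw [h.eodd hq]; exact one_ne_zero) (fun q hq => h.eb hq) hq hs
    (by rw [h.sum_e_nn]; exact hhn) hs1 (UqB_union 2 2 S T B) (UqB_dis 2 2 S T B)
    (fun b hb => by
      have h2 := hu1_J (k := 2) (j := 2) h hhn q0 hb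
      rw [← kapJ_odd hk h hA hhn q0 b]
      exact h2)
    (fun b hb => by
      have h2 := hu0_J (k := 2) (j := 2) h hhn q0 hb
      rw [← kapJ_odd hk h hA hhn q0 b]
      exact h2) ht
  rw [← pdB_corner] at h1
  have hM := blkM_odd hk h hA hhn h0
  rw [hkk] at hM
  rw [pdB_D2 hk h (p := pJ 2) (by rw [sum_bpJ h, hl]) (c1 := 1) (c2 := 0)
    (w := fun i => s4 q0 i) (z := fun i => aa i.1) (mul_zero 1) hM
    (fun i hi => by
      have e1 := hs i (union_subset_union_right (VB_sub 2 2 S T B) hi)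
      show s4 q0 i + aa i.1 = bpB (pJ 2) i + 0 * s4 q0 i
      rw [e1, bpB_pJ, lJ, lJ, if_pos rfl, if_neg (by decide)]
      have key : ∀ x y : ZMod 2, y + x = x + y + 0 * y := by decide
      exact key _ _)
    (fun i _ => by
      show bb i.1 = bpB (pJ 2) i + 1 * aa i.1
      rw [bpB_pJ, lJ, if_pos rfl]
      have key : ∀ x y : ZMod 2, y = x + y + 1 * x := by decide
      exact key _ _)
    hs1 (by rw [← aa_cB h.st B, hA]) hr] at h1
  have hx : 1 + ∑ p ∈ S ∪ T, bb p.1 +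
      (if ∑ p ∈ S ∪ T ∪ B, eB T B p * c4 p lam = 1 then 1 else 0) = uJ 2 (cB S T B) := by
    have e2 : (1 : ZMod 2) + 1 = 0 := by decide
    rw [uJ_odd hk hc hA hl, if_pos rfl, sum_e_lam h, ← bb_cB h.st B, hbb, e2, zero_add]
  rw [hx] at h1
  rw [hkk]
  exact h1

/-- **Class J2d, `nu` odd** : the congruence for every `D`. -/
theorem Rt_B_D2odd (hV : (2 : ℂ)⁻¹ ∉ V) (hk : k = 0 ∨ k = 2) (h : Dj S T B)
    (hA : aa (cB S T B) = 1) (hl : lJ k (cB S T B) = 0) {r : Pg} (hr : r ∈ S ∪ T) :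
    Rt V (LaB (kkB k S T B) 2 (eB T B) (S ∪ T ∪ B) / (LaB (kkB k S T B) 2 (eB T B) ∅ *
        lm ^ ((S ∪ T).card + (UqB k 2 S T B).card + 2 * (VB k 2 S T B).card + 2)))
      ((BM (pmG (MqB k 2 S T B) (S ∪ T ∪ VB k 2 S T B)) (fun i => bpB (pJ k) i)
        (fun i => bpB (pJ k) i) (uJ k (cB S T B))).adjugate (Sum.inl ⟨r, mem_union_left _ hr⟩)
        (Sum.inl ⟨r, mem_union_left _ hr⟩)) := by
  rcases hk with rfl | rfl
  · exact Rt_B_D2odd0 hV h hA hl hr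
  · exact Rt_B_D2odd2 hV h hA hl hr

end

end Pool.Agent.Lib.MP_1a91b9_ntQ
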