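import Pool.Agent.Lib.MP_1a91b9_ntQ.B.SyJB
import Pool.Agent.Lib.MP_1a91b9_ntQ.B.MatXB

/-!
# Quartic twists, all fourth-power-free `D`, file MatJB: the final matrix of the blocks of every class

The final matrix of the weights `nXB q0` is the matrix of the criterion plus `s4 q0 · aa` (also on the
primes of exponent two; no condition on the symbols of `q0`).
-/

set_option autoImplicit false

namespace Pool.Agent.Lib.MP_1a91b9_ntQ

open NumberField Finset Pool.Agent.Lib.MP_1a91b9_nuT Pool.Agent.Lib.MP_1a91b9_nuT.S3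
  Pool.Agent.Lib.MP_1a91b9_nuT.Ell

noncomputable section

/-- the linear terms of the weights -/
def kapJ (k : ZMod 4) (j : ℕ) (h : ZMod 4) (q0 : Pg) (b : Pg) : ZMod 2 :=
  kapB k j b + md h * s4 q0 b

theorem md_tB (k : ZMod 4) (j : ℕ) (b : Pg) : md (tB k j b.1) = kapB k j b := by
  rw [tB, kapB, map_add, map_mul, map_mul, md_ll, md_natCast]
  rfl

theorem thB_eq_e4 (k : ZMod 4) (j : ℕ) (x : 𝓞 K) : thB k j x = e4 (tB k j x) := rfl

/-- the linear terms -/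
def tauJB (k : ZMod 4) (j : Fin 4) (h : ZMod 4) (q0 : Pg) (S T B : Finset Pg) (b : Pg) : ZMod 2 :=
  hf2 (tB (kkB k S T B) j.val b.1 + bkB q0 (eB T B) h (S ∪ T ∪ UqB k j S T B) b.1)

variable {k : ZMod 4} {j : Fin 4} {S T B : Finset Pg}

/-- the weight and the sum of the `aa` -/
theorem md_h_eq (h : Dj S T B) {h' : ZMod 4} (hh' : h' + nn (cB S T B) = 0) :
    md h' = ∑ q ∈ S ∪ T, aa q.1 := by
  have h1 : md (nn (cB S T B)) = ∑ q ∈ S ∪ T, aa q.1 := aa_cB h.st B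
  have h2 := congrArg md hh'
  rw [map_add, map_zero, h1] at h2
  have key : ∀ x y : ZMod 2, x + y = 0 → x = y := by decide
  exact key _ _ h2

/-- the linear terms -/
theorem tauJB_eq (h : Dj S T B) {h' : ZMod 4} {q0 : Pg} (h0 : aa q0.1 = 1)
    (hh' : h' + nn (cB S T B) = 0) {b : Pg} (hb : b ∈ VB k j S T B) :
    tauJB k j h' q0 S T B b = tauQ k j S T B b + s4 q0 b * ∑ a ∈ VB k j S T B, aa a.1 := by
  have hbST : b ∉ S ∪ T := fun h' => disjoint_left.1 h.ub h' (VB_sub k j S T B hb)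
  have hU : S ∪ T ∪ B = (S ∪ T ∪ UqB k j S T B) ∪ VB k j S T B := by
    rw [union_assoc (S ∪ T), UqB_union]
  have hd : Disjoint (S ∪ T ∪ UqB k j S T B) (VB k j S T B) :=
    disjoint_union_left.2 ⟨h.dv k j, UqB_dis k j S T B⟩
  have hdU : Disjoint (S ∪ T) (UqB k j S T B) := disjoint_of_subset_right sdiff_subset h.ub
  -- the exponent of the auxiliary prime
  have h1 : h' + ∑ p ∈ S ∪ T ∪ UqB k j S T B, eB T B p * nn p.1 =
      2 * ∑ a ∈ VB k j S T B, nn a.1 := by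
    have h2 := h.sum_e_nn
    rw [hU, sum_union hd] at h2
    have h3 : ∑ a ∈ VB k j S T B, eB T B a * nn a.1 = 2 * ∑ a ∈ VB k j S T B, nn a.1 := by
      rw [mul_sum]
      exact sum_congr rfl fun a ha => by rw [h.eb (VB_sub k j S T B ha)]
    rw [h3] at h2
    have h4 : ∀ x : ZMod 4, 2 * x + 2 * x = 0 := by decide
    linear_combination hh' + h2 - h4 (∑ a ∈ VB k j S T B, nn a.1)
  have h2 : tB (kkB k S T B) j.val b.1 + bkB q0 (eB T B) h' (S ∪ T ∪ UqB k j S T B) b.1 =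
      EB (kkB k S T B) j.val (eB T B) (S ∪ T ∪ UqB k j S T B) b +
        2 * (-((∑ a ∈ VB k j S T B, nn a.1) * nn q0.1 * c4 q0 b.1)) := by
    rw [bkB, h1, EB, tB]
    ring
  have h3 : md (EB (kkB k S T B) j.val (eB T B) (S ∪ T ∪ UqB k j S T B) b) = 0 := by
    rw [md_EB_union (kkB k S T B) j.val hdU (fun a ha => h.eb (mem_sdiff.1 ha).1) b,
      md_EB _ _ (fun q hq => by rw [h.eodd hq]; exact one_ne_zero) hbST]
    exact hu0_B hb
  have h5 : md (nn q0.1) = 1 := h0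
  have hneg : ∀ x : ZMod 2, -x = x := by decide
  have h6 : md (c4 q0 b.1) = s4 q0 b := rfl
  rw [tauJB, h2, hf2_add h3, map_neg, hneg, map_mul, map_mul, h5, h6, map_sum, tauQ, mul_one,
    mul_comm (s4 q0 b)]
  rfl

/-- the row sums of the blocks -/
theorem kapJ_kk (h : Dj S T B) {h' : ZMod 4} (hh' : h' + nn (cB S T B) = 0) (q0 b : Pg) :
    kapJ (kkB k S T B) j.val h' q0 b = kxB k j b + s4 q0 b * ∑ q ∈ S ∪ T, aa q.1 := by
  rw [kapJ, kapB_kk, md_h_eq h hh', mul_comm]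

/-- the row sums over a set -/
theorem sum_nXB_gen (q0 b : Pg) (R : Finset Pg) :
    ∑ p ∈ R, nXB q0 b p = ∑ p ∈ R, s4 b p + s4 q0 b * ∑ p ∈ R, aa p.1 := by
  rw [mul_sum, ← sum_add_distrib]
  exact sum_congr rfl fun x _ => by rw [nXB_eq, mul_comm (aa x.1)]

/-- the parities of the weights are those of the value -/
theorem kapJ_sum (h : Dj S T B) {h' : ZMod 4} (hh' : h' + nn (cB S T B) = 0) (q0 b : Pg) :
    kapJ (kkB k S T B) j.val h' q0 b + ∑ p ∈ S ∪ T, nXB q0 b p =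
      kapB (kkB k S T B) j.val b + ∑ p ∈ S ∪ T, s4 b p := by
  have h2 : ∀ x : ZMod 2, x + x = 0 := by decide
  rw [kapJ_kk h hh', sum_nXB_gen, kapB_kk]
  linear_combination h2 (s4 q0 b * ∑ q ∈ S ∪ T, aa q.1)

theorem hu0_J (h : Dj S T B) {h' : ZMod 4} (hh' : h' + nn (cB S T B) = 0) (q0 : Pg) {b : Pg}
    (hb : b ∈ VB k j S T B) :
    kapJ (kkB k S T B) j.val h' q0 b + ∑ p ∈ S ∪ T, nXB q0 b p = 0 := by
  rw [kapJ_sum h hh']
  exact hu0_B hb

theorem hu1_J (h : Dj S T B) {h' : ZMod 4} (hh' : h' + nn (cB S T B) = 0) (q0 : Pg) {b : Pg}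
    (hb : b ∈ UqB k j S T B) :
    kapJ (kkB k S T B) j.val h' q0 b + ∑ p ∈ S ∪ T, nXB q0 b p = 1 := by
  rw [kapJ_sum h hh']
  exact hu1_B hb

/-- **The final matrix of the blocks.** -/
theorem blkM_nJB (h : Dj S T B) {h' : ZMod 4} {q0 : Pg} (h0 : aa q0.1 = 1)
    (hh' : h' + nn (cB S T B) = 0) {p q : Pg} (hp : p ∈ S ∪ T ∪ VB k j S T B) :
    blkM (nXB q0) (kapJ (kkB k S T B) j.val h' q0) (tauJB k j h' q0 S T B) (S ∪ T)
      (VB k j S T B) p q = MqB k j S T B p q + s4 q0 p * aa q.1 := by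
  have hneg : ∀ x : ZMod 2, -x = x := by decide
  have h2 : ∀ x : ZMod 2, x + x = 0 := by decide
  rw [blkM, MqB]
  split_ifs with h3 h4
  · subst h3
    have h6 := add_sum_erase (S ∪ T) (fun x : Pg => aa x.1) h4
    rw [kapJ_kk h hh', sum_nXB_gen, ← h6]
    linear_combination s4 q0 p * h2 (∑ x ∈ (S ∪ T).erase p, aa x.1)
  · subst h3
    have hb := (mem_union.1 hp).resolve_left h4
    have h7 := add_sum_erase (VB k j S T B) (fun x : Pg => aa x.1) hb
    rw [sum_nXB_gen, tauJB_eq h h0 hh' hb, rhB_eq h hb, ← h7]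
    linear_combination s4 q0 p * h2 (∑ x ∈ (VB k j S T B).erase p, aa x.1)
  · rw [hneg, nXB_eq, mul_comm (aa q.1)]

/-- the final matrix if the symbols of `q0` vanish -/
theorem blkM_nJB0 (h : Dj S T B) {h' : ZMod 4} {q0 : Pg} (h0 : aa q0.1 = 1)
    (hh' : h' + nn (cB S T B) = 0) (hs : ∀ p ∈ S ∪ T ∪ VB k j S T B, s4 q0 p = 0) {p q : Pg}
    (hp : p ∈ S ∪ T ∪ VB k j S T B) :
    blkM (nXB q0) (kapJ (kkB k S T B) j.val h' q0) (tauJB k j h' q0 S T B) (S ∪ T)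
      (VB k j S T B) p q = MqB k j S T B p q := by
  rw [blkM_nJB h h0 hh' hp, hs p hp, zero_mul, add_zero]

/-- the product of the matrix with the indicator of `S ∪ T` -/
theorem MqB_mulVec (h : Dj S T B) :
    (pmG (MqB k j S T B) (S ∪ T ∪ VB k j S T B)).mulVec
      (fun i => if (i : Pg) ∈ S ∪ T then 1 else 0) =
      fun i : ↥(S ∪ T ∪ VB k j S T B) => kxB k j (i : Pg) := by
  have h2 : ∀ x : ZMod 2, x + x = 0 := by decide
  ext i
  have hsum : ∀ f : Pg → ZMod 2, ∑ q : ↥(S ∪ T ∪ VB k j S T B),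
      f q * (if (q : Pg) ∈ S ∪ T then 1 else 0) = ∑ q ∈ S ∪ T, f q := by
    intro f
    rw [sum_coe_sort (S ∪ T ∪ VB k j S T B) fun q => f q * (if q ∈ S ∪ T then 1 else 0),
      sum_union (h.dv k j)]
    have h2 : ∑ x ∈ VB k j S T B, f x * (if x ∈ S ∪ T then 1 else 0) = 0 :=
      sum_eq_zero fun x hx => by
        rw [if_neg fun h' => disjoint_left.1 (h.dv k j) h' hx, mul_zero]
    rw [h2, add_zero]
    exact sum_congr rfl fun x hx => by rw [if_pos hx, mul_one]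
  have h1 : (pmG (MqB k j S T B) (S ∪ T ∪ VB k j S T B)).mulVec
      (fun i => if (i : Pg) ∈ S ∪ T then 1 else 0) i = ∑ q ∈ S ∪ T, MqB k j S T B i q := by
    rw [← hsum fun q => MqB k j S T B i q]
    rfl
  rw [h1]
  rcases mem_union.1 i.2 with hi | hi
  · rw [← add_sum_erase _ _ hi, MqB, if_pos rfl, if_pos hi]
    have h3 : ∑ x ∈ (S ∪ T).erase ↑i, MqB k j S T B i x = ∑ x ∈ (S ∪ T).erase ↑i, s4 i x :=
      sum_congr rfl fun x hx => by rw [MqB, if_neg (ne_of_mem_erase hx).symm]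
    rw [h3, add_assoc, h2, add_zero]
  · have hi' : (i : Pg) ∉ S ∪ T := fun h' => disjoint_left.1 (h.dv k j) h' hi
    have h3 : ∑ x ∈ S ∪ T, MqB k j S T B i x = ∑ x ∈ S ∪ T, s4 i x :=
      sum_congr rfl fun x hx => by
        have hne : (i : Pg) ≠ x := fun h' => hi' (by rw [h']; exact hx)
        rw [MqB, if_neg hne]
    have h4 := (mem_VB.1 hi).2
    have key : ∀ x y : ZMod 2, x + y = 0 → x = y := by decide
    rw [h3]
    exact key _ _ h4

end

end Pool.Agent.Lib.MP_1a91b9_ntQ
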