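import Pool.Agent.Lib.MP_1a91b9_ntQ.A.OptG
import Pool.Agent.Lib.MP_1a91b9_ntQ.B.MatJB
import Pool.Agent.Lib.MP_1a91b9_ntQ.B.KerC

/-!
# Quartic twists, all fourth-power-free `D`, file MatD: the matrix step of class J2d, `nu` odd

The final matrix of the blocks is a rank one update of the bordered matrix of the criterion, whose kernel
contains the indicator of `S ∪ T`; so its determinant is the cofactor of the criterion.
-/

set_option autoImplicit false
set_option linter.unusedSectionVars false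

namespace Pool.Agent.Lib.MP_1a91b9_ntQ

open NumberField Finset Pool.Agent.Lib.MP_1a91b9_nuT Pool.Agent.Lib.MP_1a91b9_nuT.S3
  Pool.Agent.Lib.MP_1a91b9_nuT.Ell

noncomputable section

/-- **A rank one update of a symmetric matrix with a vector of the kernel.** -/
theorem det_r1 {n : Type*} [Fintype n] [DecidableEq n] {M : Matrix n n (ZMod 2)}
    (hM : M.transpose = M) {v : n → ZMod 2} (hv : M.mulVec v = 0) {r : n} (hr : v r = 1)
    (w z : n → ZMod 2) (hw : ∑ i, w i * v i = 1) (hz : ∑ i, z i * v i = 1) :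
    (M + Matrix.vecMulVec w z).det = M.adjugate r r := by
  have : IsDomain (ZMod 2) := by
    have : Fact (Nat.Prime 2) := ⟨Nat.prime_two⟩
    infer_instance
  have h0 : M.det = 0 := by
    rw [← Matrix.exists_mulVec_eq_zero_iff]
    refine ⟨v, fun h => ?_, hv⟩
    rw [h, Pi.zero_apply] at hr
    exact absurd hr (by decide)
  have h1 : ∀ i j, z i * M.adjugate i j * w j = M.adjugate r r * ((z i * v i) * (w j * v j)) := by
    intro i j
    rw [adj_ker hM hv (k := r) (by rw [hr, mul_one]) i j]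
    ring
  have h2 : ∀ i, ∑ j, z i * M.adjugate i j * w j = M.adjugate r r * (z i * v i) := by
    intro i
    rw [sum_congr rfl fun j _ => h1 i j, ← mul_sum, ← mul_sum, hw, mul_one]
  rw [det_add_vec, h0, zero_add, sum_congr rfl fun i _ => h2 i, ← mul_sum, hz, mul_one]

variable {k : ZMod 4} {S T B : Finset Pg}

/-- the kernel of the matrix of the criterion -/
theorem MqB_ker2 (hk : k = 0 ∨ k = 2) (h : Dj S T B) :
    (pmG (MqB k 2 S T B) (S ∪ T ∪ VB k 2 S T B)).mulVec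
      (fun i => if (i : Pg) ∈ S ∪ T then 1 else 0) = 0 := by
  have hk2 : md k = 0 := by rcases hk with rfl | rfl <;> rfl
  have h1 := MG_mulVec d4 (kvB k 2) (rhB k 2 S T B) (h.dv k 2)
    (fun i _ => by rw [dg_kvB, kxB_even hk2 rfl]) (fun v hv => by
      have h2 := (mem_VB.1 hv).2
      rw [kxB_even hk2 rfl, add_zero] at h2
      exact h2)
  rw [MqB_eq] at h1
  exact h1

/-- the sum over the indices -/
theorem sum_ind2 (h : Dj S T B) (f : Pg → ZMod 2) : ∑ i : ↥(S ∪ T ∪ VB k 2 S T B),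
    f i * (if (i : Pg) ∈ S ∪ T then 1 else 0) = ∑ i ∈ S ∪ T, f i := by
  rw [sum_coe_sort (S ∪ T ∪ VB k 2 S T B) fun j => f j * (if j ∈ S ∪ T then 1 else 0),
    sum_union (h.dv k 2)]
  have h2 : ∑ x ∈ VB k 2 S T B, f x * (if x ∈ S ∪ T then 1 else 0) = 0 :=
    sum_eq_zero fun x hx => by
      rw [if_neg fun h' => disjoint_left.1 (h.dv k 2) h' hx, mul_zero]
  rw [h2, add_zero]
  exact sum_congr rfl fun x hx => by rw [if_pos hx, mul_one]

/-- the bordered matrix and the indicator of `S ∪ T` -/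
theorem BM_ker2 (hk : k = 0 ∨ k = 2) (h : Dj S T B) {p : Fin 2 → ZMod 2} (x : ZMod 2)
    (hA : ∑ q ∈ S ∪ T, bpB p q = 0) :
    (BM (pmG (MqB k 2 S T B) (S ∪ T ∪ VB k 2 S T B)) (fun i => bpB p i)
      (fun i => bpB p i) x).mulVec
      (Sum.elim (fun i => if (i : Pg) ∈ S ∪ T then 1 else 0) (fun _ => 0)) = 0 := by
  unfold BM
  rw [Matrix.fromBlocks_mulVec, Sum.elim_comp_inl, Sum.elim_comp_inr, MqB_ker2 hk h]
  ext i
  rcases i with i | i
  · rw [Sum.elim_inl, Pi.add_apply, Pi.zero_apply, zero_add]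
    show ∑ j : Unit, bpB p i * 0 = 0
    simp
  · rw [Sum.elim_inr, Pi.add_apply]
    have e1 : (Matrix.of fun (_ : Unit) (j : ↥(S ∪ T ∪ VB k 2 S T B)) => bpB p j).mulVec
        (fun j : ↥(S ∪ T ∪ VB k 2 S T B) => if (j : Pg) ∈ S ∪ T then (1 : ZMod 2) else 0) i =
        0 := by
      show ∑ j : ↥(S ∪ T ∪ VB k 2 S T B), bpB p j * (if (j : Pg) ∈ S ∪ T then 1 else 0) = 0
      rw [sum_ind2 h fun j => bpB p j, hA]
    rw [e1, zero_add]
    show ∑ j : Unit, x * 0 = 0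
    simp

theorem BM_symm2 {p : Fin 2 → ZMod 2} (x : ZMod 2) :
    (BM (pmG (MqB k 2 S T B) (S ∪ T ∪ VB k 2 S T B)) (fun i => bpB p i)
      (fun i => bpB p i) x).transpose =
    BM (pmG (MqB k 2 S T B) (S ∪ T ∪ VB k 2 S T B)) (fun i => bpB p i)
      (fun i => bpB p i) x := by
  have hsym : (pmG (MqB k 2 S T B) (S ∪ T ∪ VB k 2 S T B)).transpose =
      pmG (MqB k 2 S T B) (S ∪ T ∪ VB k 2 S T B) := by
    have h1 := MG_symm d4 (kvB k 2) (rhB k 2 S T B) d4_symm (S ∪ T) (S ∪ T ∪ VB k 2 S T B)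
    rwa [MqB_eq] at h1
  unfold BM
  rw [Matrix.fromBlocks_transpose, hsym]
  rfl

/-- **The matrix step.** -/
theorem pdB_D2 (hk : k = 0 ∨ k = 2) (h : Dj S T B) {p : Fin 2 → ZMod 2}
    (hA : ∑ q ∈ S ∪ T, bpB p q = 0) {M : Pg → Pg → ZMod 2} {w z b g : Pg → ZMod 2} {x c1 c2 : ZMod 2}
    (hc : c1 * c2 = 0)
    (hM : ∀ i ∈ S ∪ T ∪ VB k 2 S T B, ∀ j ∈ S ∪ T ∪ VB k 2 S T B,
      M i j = MqB k 2 S T B i j + w i * z j)
    (hb : ∀ i ∈ S ∪ T ∪ VB k 2 S T B, b i = bpB p i + c2 * w i)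
    (hg : ∀ i ∈ S ∪ T ∪ VB k 2 S T B, g i = bpB p i + c1 * z i)
    (hw : ∑ i ∈ S ∪ T, w i = 1) (hz : ∑ i ∈ S ∪ T, z i = 1) {r : Pg} (hr : r ∈ S ∪ T) :
    pdB M b g x (S ∪ T ∪ VB k 2 S T B) =
      (BM (pmG (MqB k 2 S T B) (S ∪ T ∪ VB k 2 S T B)) (fun i => bpB p i)
        (fun i => bpB p i) x).adjugate (Sum.inl ⟨r, mem_union_left _ hr⟩)
        (Sum.inl ⟨r, mem_union_left _ hr⟩) := by
  rw [← det_r1 (BM_symm2 x) (BM_ker2 hk h x hA) (r := Sum.inl ⟨r, mem_union_left _ hr⟩)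
    (by rw [Sum.elim_inl, if_pos hr]) (Sum.elim (fun i => w i) fun _ => c1)
    (Sum.elim (fun i => z i) fun _ => c2) ?_ ?_, pdB]
  · congr 1
    ext i j
    rw [Matrix.add_apply, Matrix.vecMulVec_apply]
    rcases i with i | i <;> rcases j with j | j
    · exact hM i i.2 j j.2
    · show b i = bpB p i + w i * c2
      rw [hb i i.2, mul_comm]
    · show g j = bpB p j + c1 * z j
      exact hg j j.2
    · show x = x + c1 * c2
      rw [hc, add_zero]
  · rw [Fintype.sum_sum_type]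
    simp only [Sum.elim_inl, Sum.elim_inr, mul_zero, sum_const_zero, add_zero]
    rw [sum_ind2 h fun i => w i, hw]
  · rw [Fintype.sum_sum_type]
    simp only [Sum.elim_inl, Sum.elim_inr, mul_zero, sum_const_zero, add_zero]
    rw [sum_ind2 h fun i => z i, hz]

/-- the additivity of the corner -/
theorem pdB_corner {ι : Type*} [DecidableEq ι] {R : Type*} [CommRing R] (M : ι → ι → R)
    (b c : ι → R) (x y : R) (A : Finset ι) :
    pdB M b c (x + y) A = pdB M b c x A + y * pdt M A := by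
  rw [pdB, pdB, det_BM, det_BM, pdt]
  ring

end

end Pool.Agent.Lib.MP_1a91b9_ntQ
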