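import Pool.Agent.Lib.MP_1a91b9_ntQ.C.Prd4
import Pool.Agent.Lib.MP_1a91b9_ntQ.B.CritB

/-!
# Quartic twists, all fourth-power-free `D`, file PerB: the minimal model and the period of
`y² = x³ - D x` over `ℚ(i)`

The equation is minimal everywhere unless `D = 1 ± 2 i` modulo `8`; in this case it is minimal at the
odd places and the scaling factor of the change to the minimal model is a uniformizer at `1 + i`.
-/

set_option autoImplicit false
set_option linter.unusedSectionVars false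

namespace Pool.Agent.Lib.MP_1a91b9_ntQ.C

open NumberField IsDedekindDomain WithZero WeierstrassCurve Pool.Agent.Lib.MP_1a91b9_ntQ
  Pool.Agent.Lib.MP_1a91b9_nuT
open Pool.Agent.Lib.MP_1a91b9_ntT.S9 (tam normFactor period minModel minChange minModel_isMinimal)
open Pool.Agent.Lib.MP_1a91b9_ntT.Per (perAt)
open Pool.Agent.Lib.MP_1a91b9_ntK.C (perj_unique)
open Pool.Agent.Lib.MP_1a91b9_ntH.C (perb_unique)
open scoped Classical

section val
variable {F : Type*} [Field F] (V : Valuation F ℤᵐ⁰) {ι : F}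

/-- no change to an integral equation whose scaling factor is not a unit if `D` has value `-1`, `-2` or
`-3` -/
theorem perB_val (hι : ι ^ 2 = -1) (hl : V (1 + ι) = exp (-1 : ℤ)) {D u r s t : F}
    (hD : exp (-3 : ℤ) ≤ V D) (hD1 : V D < 1) (hu : V u < 1)
    (h1 : V (2 * s) ≤ V u) (h2 : V (3 * r - s ^ 2) ≤ V u ^ 2) (h3 : V (2 * t) ≤ V u ^ 3)
    (h4 : V (3 * r ^ 2 - D - 2 * s * t) ≤ V u ^ 4) : False := by
  have hu1 := per4_lt hu
  have v2 := per4_two V hι hl
  have hpow : ∀ n : ℕ, V u ^ n ≤ exp (-(n : ℤ)) := by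
    intro n
    refine (pow_le_pow_left₀ zero_le hu1 n).trans_eq ?_
    rw [← exp_nsmul]
    simp
  have hlt : ∀ {n : ℤ}, n < 0 → exp n < (1 : ℤᵐ⁰) := by
    intro n hn
    rw [← exp_zero, exp_lt_exp]
    exact hn
  have v2lt : V 2 < 1 := by
    rw [v2]
    exact hlt (by norm_num)
  have v3 : V 3 = 1 := by
    have e : (3 : F) = 1 + 2 := by norm_num
    rw [e, Valuation.map_add_eq_of_lt_left, map_one]
    rw [map_one]
    exact v2lt
  have h1' := h1.trans hu1
  have h2' := h2.trans (hpow 2)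
  have h3' := h3.trans (hpow 3)
  have h4' := h4.trans (hpow 4)
  push_cast at h2' h3' h4'
  have hexp : ∀ a b : ℤ, exp a * exp b = exp (a + b) := fun a b => (exp_add a b).symm
  have hdiv : ∀ {x : F} {n : ℤ}, V (2 * x) ≤ exp n → V x ≤ exp (n + 2) := by
    intro x n h
    rw [map_mul, v2] at h
    have h7 := mul_le_mul_right h (exp (2 : ℤ))
    rw [← mul_assoc, hexp, hexp, show (2 : ℤ) + -2 = 0 by norm_num, exp_zero, one_mul,
      add_comm] at h7
    exact h7
  have ht : V t ≤ exp (-1 : ℤ) := (hdiv h3').trans_eq (congrArg exp (by norm_num))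
  have hs : V s ≤ exp (1 : ℤ) := (hdiv h1').trans_eq (congrArg exp (by norm_num))
  have ht1 : V t < 1 := ht.trans_lt (hlt (by norm_num))
  -- `s` is integral
  have hs1 : V s ≤ 1 := by
    by_contra hcon
    rw [not_le] at hcon
    have hs0 : V s ≠ 0 := (zero_lt_one.trans hcon).ne'
    obtain ⟨m, hm⟩ : ∃ m : ℤ, V s = exp m := ⟨_, (exp_log hs0).symm⟩
    rw [hm, ← exp_zero, exp_lt_exp] at hcon
    rw [hm, exp_le_exp] at hs
    obtain rfl : m = 1 := by omega
    have e1 : V (s ^ 2) = exp (2 : ℤ) := by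
      rw [map_pow, hm, ← exp_nsmul]
      norm_num
    have e2 : V (3 * r) = exp (2 : ℤ) := by
      have e : 3 * r = (3 * r - s ^ 2) + s ^ 2 := by ring
      rw [e, Valuation.map_add_eq_of_lt_right, e1]
      rw [e1]
      exact h2'.trans_lt (exp_lt_exp.2 (by norm_num))
    rw [map_mul, v3, one_mul] at e2
    have e3 : V (3 * r ^ 2) = exp (4 : ℤ) := by
      rw [map_mul, v3, one_mul, map_pow, e2, ← exp_nsmul]
      norm_num
    have e4 : V (D + 2 * s * t) ≤ 1 := by
      refine (V.map_add _ _).trans (max_le hD1.le ?_)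
      rw [map_mul, map_mul, v2, hm, hexp]
      refine (mul_le_mul_right ht _).trans ?_
      rw [hexp, ← exp_zero, exp_le_exp]
      norm_num
    have e5 : V (3 * r ^ 2 - D - 2 * s * t) = exp (4 : ℤ) := by
      have e : 3 * r ^ 2 - D - 2 * s * t = -(D + 2 * s * t) + 3 * r ^ 2 := by ring
      rw [e, Valuation.map_add_eq_of_lt_right, e3]
      rw [e3, Valuation.map_neg]
      exact e4.trans_lt (by rw [← exp_zero, exp_lt_exp]; norm_num)
    rw [e5, exp_le_exp] at h4'
    norm_num at h4'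
  have hr1 : V r ≤ 1 := by
    have h7 : V (3 * r) ≤ 1 := by
      have e : 3 * r = (3 * r - s ^ 2) + s ^ 2 := by ring
      rw [e]
      refine (V.map_add _ _).trans (max_le (h2'.trans (hlt (by norm_num)).le) ?_)
      rw [map_pow]
      exact pow_le_one₀ zero_le hs1
    rwa [map_mul, v3, one_mul] at h7
  have hst : V (2 * s * t) < 1 := by
    rw [map_mul, map_mul]
    refine (mul_le_mul_left (mul_le_one' v2lt.le hs1) _).trans_lt ?_
    rwa [one_mul]
  -- `r` is not a unit
  have hr : V r < 1 := by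
    by_contra hcon
    have hr2 : V r = 1 := le_antisymm hr1 (not_lt.1 hcon)
    have e1 : V (3 * r ^ 2) = 1 := by rw [map_mul, v3, map_pow, hr2, one_pow, one_mul]
    have e2 : V (3 * r ^ 2) < 1 := by
      have e : 3 * r ^ 2 = (3 * r ^ 2 - D - 2 * s * t) + (D + 2 * s * t) := by ring
      rw [e]
      refine (V.map_add _ _).trans_lt (max_lt (h4'.trans_lt (hlt (by norm_num))) ?_)
      exact (V.map_add _ _).trans_lt (max_lt hD1 hst)
    rw [e1] at e2
    exact lt_irrefl _ e2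
  have hs2 : V s < 1 := by
    by_contra hcon
    have hs3 : V s = 1 := le_antisymm hs1 (not_lt.1 hcon)
    have e1 : V (s ^ 2) < 1 := by
      have e : s ^ 2 = 3 * r - (3 * r - s ^ 2) := by ring
      rw [e]
      refine (V.map_sub _ _).trans_lt (max_lt ?_ (h2'.trans_lt (hlt (by norm_num))))
      rwa [map_mul, v3, one_mul]
    rw [map_pow, hs3, one_pow] at e1
    exact lt_irrefl _ e1
  have hs4 := per4_lt hs2
  have hss : V (s ^ 2) ≤ exp (-2 : ℤ) := by
    rw [map_pow]
    refine (pow_le_pow_left₀ zero_le hs4 2).trans_eq ?_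
    rw [← exp_nsmul]
    norm_num
  have hr3 : V r ≤ exp (-2 : ℤ) := by
    have h7 : V (3 * r) ≤ exp (-2 : ℤ) := by
      have e : 3 * r = (3 * r - s ^ 2) + s ^ 2 := by ring
      rw [e]
      exact (V.map_add _ _).trans (max_le h2' hss)
    rwa [map_mul, v3, one_mul] at h7
  have hDD : V D ≤ exp (-4 : ℤ) := by
    have e : D = 3 * r ^ 2 - 2 * s * t - (3 * r ^ 2 - D - 2 * s * t) := by ring
    rw [e]
    refine (V.map_sub _ _).trans (max_le ((V.map_sub _ _).trans (max_le ?_ ?_)) h4')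
    · rw [map_mul, v3, one_mul, map_pow]
      refine (pow_le_pow_left₀ zero_le hr3 2).trans_eq ?_
      rw [← exp_nsmul]
      norm_num
    · rw [map_mul, map_mul, v2]
      calc exp (-2 : ℤ) * V s * V t ≤ exp (-2 : ℤ) * exp (-1 : ℤ) * exp (-1 : ℤ) := by gcongr
        _ = exp (-4 : ℤ) := by
          rw [hexp, hexp]
          norm_num
  have h9 := hD.trans hDD
  rw [exp_le_exp] at h9
  norm_num at h9

end val

variable {D : 𝓞 K4} {v : HeightOneSpectrum (𝓞 K4)}

/-- the value of a fourth-power-free element -/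
theorem ffr_val (hD : FFr D) (v : HeightOneSpectrum (𝓞 K4)) :
    exp (-3 : ℤ) ≤ v.valuation K4 (D : K4) := by
  obtain ⟨p, hp, hv⟩ := exists_gen4 v
  by_contra hcon
  rw [not_le] at hcon
  have h1 : v.valuation K4 (D : K4) ≤ exp (-((4 : ℕ) : ℤ)) := by
    have := Lm.le_of_lt 3 hcon
    norm_num at this ⊢
    exact this
  rw [val_le_pow' hp hv] at h1
  exact hp.not_isUnit (hD p h1)

theorem valB_ne (hD : exp (-3 : ℤ) ≤ v.valuation K4 (D : K4)) : v.valuation K4 (D : K4) ≠ 0 :=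
  fun h => by
    rw [h] at hD
    exact absurd hD (not_le.2 exp_pos)

/-- the odd places -/
theorem perB_u_odd (hD : exp (-3 : ℤ) ≤ v.valuation K4 (D : K4)) (hl : lam ∉ v.asIdeal) :
    Valued.v ((minChange (WD4 D) v).u : v.adicCompletion K4) = (1 : ℤᵐ⁰) := by
  obtain ⟨I, hI⟩ := wq_int D v
  have h1 := perb_unique (WD4 D) v 1 I (by rw [one_smul]; exact hI) (by
    rw [one_smul, wq_val, two_val_one hl, one_pow, one_mul]
    refine lt_of_lt_of_le (b := exp (-9 : ℤ)) (exp_lt_exp.2 (by norm_num)) ?_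
    have h1 := pow_le_pow_left₀ zero_le hD 3
    rw [← exp_nsmul] at h1
    simpa using h1)
  have h3 : Valued.v (((1 : VariableChange (v.adicCompletion K4)).u : (v.adicCompletion K4)ˣ) :
      v.adicCompletion K4) = (1 : ℤᵐ⁰) := by
    change Valued.v (((1 : (v.adicCompletion K4)ˣ)) : v.adicCompletion K4) = (1 : ℤᵐ⁰)
    rw [Units.val_one, map_one]
  rw [h3] at h1
  exact h1

/-- **The equation is minimal.** -/
theorem perB_u (hD : exp (-3 : ℤ) ≤ v.valuation K4 (D : K4)) (h1 : ¬ 8 ∣ D - (1 + 2 * iO))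
    (h2 : ¬ 8 ∣ D - (1 - 2 * iO)) :
    Valued.v ((minChange (WD4 D) v).u : v.adicCompletion K4) = (1 : ℤᵐ⁰) := by
  by_cases hl : lam ∈ v.asIdeal
  swap
  · exact perB_u_odd hD hl
  obtain ⟨I, hI⟩ := wq_int D v
  have H := hyp_lam hl
  refine perj_unique (WD4 D) v I hI ?_ fun C hC hu => ?_
  · rw [wq_val]
    refine mul_ne_zero (pow_ne_zero _ ?_) (pow_ne_zero _ (valB_ne hD))
    rw [two_val, lam_val hl]
    exact pow_ne_zero _ exp_ne_zero
  · obtain ⟨J, hJ⟩ := hC
    rw [wq_bc] at hJ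
    obtain ⟨d, hd⟩ : ∃ d, d = algebraMap K4 (v.adicCompletion K4) (D : K4) := ⟨_, rfl⟩
    rw [← hd] at hJ
    have hu0 : (C.u : v.adicCompletion K4) ≠ 0 := C.u.ne_zero
    have hui : ((C.u⁻¹ : (v.adicCompletion K4)ˣ) : v.adicCompletion K4) =
      (C.u : v.adicCompletion K4)⁻¹ := by simp
    have hVu : 0 < Valued.v (C.u : v.adicCompletion K4) :=
      zero_lt_iff.2 ((Valuation.ne_zero_iff _).2 hu0)
    have k1 : Valued.v (C • wq d).a₁ ≤ (1 : ℤᵐ⁰) := by
      rw [hJ]
      exact J.a₁.2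
    have k2 : Valued.v (C • wq d).a₂ ≤ (1 : ℤᵐ⁰) := by
      rw [hJ]
      exact J.a₂.2
    have k3 : Valued.v (C • wq d).a₃ ≤ (1 : ℤᵐ⁰) := by
      rw [hJ]
      exact J.a₃.2
    have k4 : Valued.v (C • wq d).a₄ ≤ (1 : ℤᵐ⁰) := by
      rw [hJ]
      exact J.a₄.2
    have k6 : Valued.v (C • wq d).a₆ ≤ (1 : ℤᵐ⁰) := by
      rw [hJ]
      exact J.a₆.2
    rw [variableChange_a₁, hui, map_mul, map_inv₀, inv_mul_le_one₀ hVu] at k1
    rw [variableChange_a₂, hui, inv_pow, map_mul, map_inv₀, map_pow,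
      inv_mul_le_one₀ (pow_pos hVu 2)] at k2
    rw [variableChange_a₃, hui, inv_pow, map_mul, map_inv₀, map_pow,
      inv_mul_le_one₀ (pow_pos hVu 3)] at k3
    rw [variableChange_a₄, hui, inv_pow, map_mul, map_inv₀, map_pow,
      inv_mul_le_one₀ (pow_pos hVu 4)] at k4
    rw [variableChange_a₆, hui, inv_pow, map_mul, map_inv₀, map_pow,
      inv_mul_le_one₀ (pow_pos hVu 6)] at k6
    have c1 : Valued.v (2 * C.s) ≤ Valued.v (C.u : v.adicCompletion K4) := by
      refine (congrArg Valued.v ?_).trans_le k1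
      simp [wq]
    have c2 : Valued.v (3 * C.r - C.s ^ 2) ≤ Valued.v (C.u : v.adicCompletion K4) ^ 2 := by
      refine (congrArg Valued.v ?_).trans_le k2
      simp [wq]
    have c3 : Valued.v (2 * C.t) ≤ Valued.v (C.u : v.adicCompletion K4) ^ 3 := by
      refine (congrArg Valued.v ?_).trans_le k3
      simp [wq]
    have c4 : Valued.v (3 * C.r ^ 2 - d - 2 * C.s * C.t) ≤
        Valued.v (C.u : v.adicCompletion K4) ^ 4 := by
      refine (congrArg Valued.v ?_).trans_le k4
      simp [wq]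
      ring
    have c6 : Valued.v (C.r ^ 3 - C.r * d - C.t ^ 2) ≤
        Valued.v (C.u : v.adicCompletion K4) ^ 6 := by
      refine (congrArg Valued.v ?_).trans_le k6
      simp [wq]
      ring
    have hDle : v.valuation K4 (D : K4) ≤ 1 := v.valuation_le_one D
    rcases hDle.lt_or_eq with hD1 | hD1
    · exact perB_val (Valued.v : Valuation (v.adicCompletion K4) ℤᵐ⁰) H.sq H.v (D := d)
        (by rw [hd, hval]; exact hD) (by rw [hd, hval]; exact hD1) hu c1 c2 c3 c4
    have key := per4_val (Valued.v : Valuation (v.adicCompletion K4) ℤᵐ⁰) H.sq H.v H.res (D := d)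
      (u := C.u) (r := C.r) (s := C.s) (t := C.t)
      (by
        rw [hd, hval, hD1, ← exp_zero, exp_le_exp]
        norm_num) (by rw [hd, hval]; exact hDle) hu c1 c2 c3 c4 c6
    have hc : ∀ n : ℤ, ((1 + (n : 𝓞 K4) * iO : 𝓞 K4) : K4) = 1 + (n : K4) * iK := by
      intro n
      have e2 : ((1 + (n : 𝓞 K4) * iO : 𝓞 K4) : K4) = algebraMap (𝓞 K4) K4 (1 + (n : 𝓞 K4) * iO) :=
        rfl
      rw [e2, map_add, map_mul, map_one, map_intCast]
      rfl
    have hdv : ∀ n : ℤ, Valued.v (d - (1 + (n : v.adicCompletion K4) *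
        algebraMap K4 (v.adicCompletion K4) iK)) ≤ exp (-6 : ℤ) →
        8 ∣ D - (1 + (n : 𝓞 K4) * iO) := by
      intro n hn
      apply per4_eight hl
      rw [← val_sub, hc, map_add, map_one, map_mul, map_intCast, ← hd]
      exact hn
    rcases key with h | h
    · have := hdv 2 (by push_cast; exact h)
      push_cast at this
      exact h1 this
    · have := hdv 6 (by push_cast; exact h)
      push_cast at this
      apply h2
      obtain ⟨t, ht⟩ := this
      exact ⟨t + iO, by linear_combination ht⟩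

theorem valB_ne_zero (hD : ∀ v : HeightOneSpectrum (𝓞 K4), exp (-3 : ℤ) ≤ v.valuation K4 (D : K4)) :
    D ≠ 0 := by
  rintro rfl
  have hw : ∃ w : HeightOneSpectrum (𝓞 K4), w.asIdeal = Ideal.span {lam} :=
    ⟨⟨Ideal.span {lam}, (Ideal.span_singleton_prime lam_prime.ne_zero).2 lam_prime, by
      rw [Ne, Ideal.span_singleton_eq_bot]
      exact lam_prime.ne_zero⟩, rfl⟩
  obtain ⟨w, -⟩ := hw
  apply valB_ne (hD w)
  have e : ((0 : 𝓞 K4) : K4) = 0 := map_zero (algebraMap (𝓞 K4) K4)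
  rw [e, map_zero]

/-- **The period.** -/
theorem periodB (hD : ∀ v : HeightOneSpectrum (𝓞 K4), exp (-3 : ℤ) ≤ v.valuation K4 (D : K4))
    (h1 : ¬ 8 ∣ D - (1 + 2 * iO)) (h2 : ¬ 8 ∣ D - (1 - 2 * iO)) :
    period (WD4 D) = 2 * (‖Om‖ ^ 2 / ‖em D‖ ^ (1 / 2 : ℝ)) := by
  rw [period, finprod_congr (fun v => nf4_one (perB_u (hD v) h1 h2)), finprod_one,
    prod_perAt4 (valB_ne_zero hD), one_mul]

/-- **The period if `D = 1 ± 2 i` modulo `8`.** -/
theorem periodB_good (hD : ∀ v : HeightOneSpectrum (𝓞 K4), exp (-3 : ℤ) ≤ v.valuation K4 (D : K4))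
    (h : 8 ∣ D - (1 + 2 * iO) ∨ 8 ∣ D - (1 - 2 * iO)) :
    period (WD4 D) = 2 * (2 * (‖Om‖ ^ 2 / ‖em D‖ ^ (1 / 2 : ℝ))) := by
  obtain ⟨w, hw⟩ : ∃ w : HeightOneSpectrum (𝓞 K4), w.asIdeal = Ideal.span {lam} :=
    ⟨⟨Ideal.span {lam}, (Ideal.span_singleton_prime lam_prime.ne_zero).2 lam_prime, by
      rw [Ne, Ideal.span_singleton_eq_bot]
      exact lam_prime.ne_zero⟩, rfl⟩
  have hlw : lam ∈ w.asIdeal := by
    rw [hw]
    exact Ideal.mem_span_singleton_self _
  have h1 : ∏ᶠ v : HeightOneSpectrum (𝓞 K4), normFactor (WD4 D) v = 2 := by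
    rw [finprod_eq_single _ w]
    · rw [normFactor, per4_u_good h hlw, log_exp, neg_neg, zpow_one, hw,
        Ideal.absNorm_span_singleton]
      have h3 : (Algebra.norm ℤ (lam : 𝓞 K4)).natAbs = 2 := Nz_lam
      rw [h3]
      norm_num
    · intro v hv
      apply nf4_one
      apply perB_u_odd (hD v)
      intro hm
      apply hv
      apply HeightOneSpectrum.ext
      rw [ideal_eq' lam_prime hm, hw]
  rw [period, h1, prod_perAt4 (valB_ne_zero hD)]

end Pool.Agent.Lib.MP_1a91b9_ntQ.C
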