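import Pool.Agent.Lib.MP_1a91b9_ntQ.A.LaE0

/-!
# Quartic twists, all fourth-power-free `D`, file PsJ3: the class `lam ^ 3 ∥ D`, pointwise part

`tJ3 k = - tE k`, `sJ3 k`. The value `V4 (sJ3 k) (tJ3 k * (pe ^ 7 + Q))` is `wq ^ 19` times a unit congruent
to one, the sum over a pair is `wq ^ 21` times an element of the maximal ideal, and the value at
`Q = 0` is `wq ^ 21` times a unit congruent to one.
-/

set_option autoImplicit false
set_option linter.unusedSectionVars false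

namespace Pool.Agent.Lib.MP_1a91b9_ntQ

open NumberField Pool.Agent.Lib.MP_1a91b9_nuT Pool.Agent.Lib.MP_1a91b9_nuT.S3
  Pool.Agent.Lib.MP_1a91b9_nuT.Ell

noncomputable section

section gen
variable [CD]

/-- the factor `-1` (`k` odd) or `i` (`k` even) -/
def tJ3 (k : ZMod 4) : ℂ := if md k = 0 then zt else -1

/-- the factor `i ^ (k - 2)` (`k` odd) or `i ^ (k + 1)` (`k` even) -/
def sJ3 (k : ZMod 4) : ℂ := if md k = 0 then e4 (k + 1) else e4 (k - 2)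

theorem tJ3_eq (k : ZMod 4) : tJ3 k = -tE k := by
  unfold tJ3 tE
  split
  · rw [neg_neg]
  · rfl

theorem sJ3_sq [Q4] (k : ZMod 4) : sJ3 k ^ 2 = -1 := by
  unfold sJ3
  split
  · next h =>
    have key : ∀ k : ZMod 4, md k = 0 → md (k + 1) ≠ 0 := by decide
    exact e4_odd_sq (key k h)
  · next h =>
    have key : ∀ k : ZMod 4, md k ≠ 0 → md (k - 2) ≠ 0 := by decide
    exact e4_odd_sq (key k h)

theorem tJ3_four [Q4] (k : ZMod 4) : tJ3 k ^ 4 = 1 := by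
  rw [tJ3_eq]
  have e : (-tE k) ^ 4 = tE k ^ 4 := by ring
  rw [e, tE_sq]

theorem tJ3_ne [Q4] (k : ZMod 4) : tJ3 k ≠ 0 := by
  rw [tJ3_eq]
  exact neg_ne_zero.2 (tE_ne k)

end gen

variable [CD] [hq : Q4]

/-! ### The functions at the opposite point -/

theorem J3_gE_neg (w : ℂ) : gE (-w) = -gE w := by
  rw [gE, gE, gg_neg]
  ring

theorem J3_kE_neg (w : ℂ) : kE (-w) = -kE w := by
  rw [kE, kE, J3_gE_neg, Ell.X_neg, neg_sq, mul_neg, div_neg]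

theorem J3_pE_neg (w : ℂ) : pE (-w) = -pE w := by
  rw [pE, pE, J3_gE_neg, inv_neg]
  ring

theorem J3_mE_neg (w : ℂ) : mE (-w) = -mE w := by
  rw [mE, mE, J3_gE_neg, inv_neg]
  ring

/-- the relations of a pair, class `lam ^ 3` -/
def PairJ3 (c w w' : ℂ) : Prop :=
  kE w' * kE w = -(c * zt) ∧ pE w' * kE w = mE w ∧ mE w' * kE w = -(c * (zt * pE w))

theorem PairE.neg3 {c w w' : ℂ} (h : PairE c w w') : PairJ3 c (-w) (-w') := by
  obtain ⟨h1, h2, h3⟩ := h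
  refine ⟨?_, ?_, ?_⟩
  · rw [J3_kE_neg, J3_kE_neg, neg_mul_neg, h1]
  · rw [J3_pE_neg, J3_kE_neg, J3_mE_neg, neg_mul_neg, h2]
  · rw [J3_mE_neg, J3_kE_neg, J3_pE_neg, neg_mul_neg, h3]
    ring

variable {B : ValuationSubring ℂ}

/-! ### The algebra -/

/-- the exact identity -/
theorem PsJ3_ID {s io I c p m x x2 : ℂ} (hs : s ^ 2 = 2) (hio : io ^ 2 = -1) (hI : I ^ 2 = -1)
    (hc : c ^ 2 = x) (hp : p ^ 2 = 2 * (x + 1)) (hm : m ^ 2 = 2 * (x - 1))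
    (h12 : x ^ 2 - 1 = 2 * zt * x * x2) :
    (p * (x - 1 - I * (s * io) * c)) ^ 2 - (m * c * (x + 1 + s * io * c)) ^ 2 =
      -(4 * zt * x * (x + I) * ((x - I) * (x2 + zt) + 2 * (s * io) * c * x2)) := by
  obtain ⟨σ, hσ⟩ : ∃ σ, σ = s * io := ⟨_, rfl⟩
  have hσ2 : σ ^ 2 = -2 := by
    rw [hσ]
    linear_combination io ^ 2 * hs + 2 * hio
  rw [← hσ]
  have e1 : (x - 1 - I * σ * c) ^ 2 = x ^ 2 + 1 - 2 * (x - 1) * (I * σ * c) := by
    linear_combination (σ ^ 2 * c ^ 2) * hI - c ^ 2 * hσ2 + 2 * hc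
  have e2 : (x + 1 + σ * c) ^ 2 = x ^ 2 + 1 + 2 * (x + 1) * (σ * c) := by
    linear_combination c ^ 2 * hσ2 - 2 * hc
  have e3 : (p * (x - 1 - I * σ * c)) ^ 2 - (m * c * (x + 1 + σ * c)) ^ 2 =
      2 * (x + 1) * (x ^ 2 + 1 - 2 * (x - 1) * (I * σ * c)) -
        2 * (x - 1) * x * (x ^ 2 + 1 + 2 * (x + 1) * (σ * c)) := by
    linear_combination (x - 1 - I * σ * c) ^ 2 * hp + 2 * (x + 1) * e1 -
      (c ^ 2 * (x + 1 + σ * c) ^ 2) * hm - (2 * (x - 1) * (x + 1 + σ * c) ^ 2) * hc -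
      (2 * (x - 1) * x) * e2
  have e4 : 1 + 2 * x - x ^ 2 = -(2 * zt * x * (x2 + zt)) := by
    linear_combination -h12 + 2 * x * zt_sq
  have e5 : 2 * (x + 1) * (x ^ 2 + 1 - 2 * (x - 1) * (I * σ * c)) -
        2 * (x - 1) * x * (x ^ 2 + 1 + 2 * (x + 1) * (σ * c)) =
      2 * ((x - I) * (x + I)) * (1 + 2 * x - x ^ 2) - 4 * (σ * c) * (x ^ 2 - 1) * (x + I) := by
    linear_combination (2 * (1 + 2 * x - x ^ 2)) * hI
  rw [e3, e5, e4, h12]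
  ring

/-- the sum over a pair -/
theorem PsJ3_y (hB : (2 : ℂ)⁻¹ ∉ B) {ε s io c p m x x2 a a2 Y : ℂ}
    (hε : ε = 1 ∨ ε = -1) (hs : s ^ 2 = 2) (hio : io ^ 2 = -1)
    (hc : c ^ 2 = x) (hp : p ^ 2 = 2 * (x + 1)) (hm : m ^ 2 = 2 * (x - 1))
    (hx : x = zt + wq ^ 6 * a) (ha : B.valuation a ≤ 1) (hx2 : x2 = zt + wq ^ 6 * a2)
    (ha2 : B.valuation a2 ≤ 1) (h12 : x ^ 2 - 1 = 2 * zt * x * x2)
    (hY : c ^ 2 * Y = p * (x - 1 - ε * zt * (s * io) * c) + m * c * (x + 1 + s * io * c)) :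
    ∃ Y1, Y = wq ^ 17 * Y1 ∧ B.valuation Y1 ≤ 1 := by
  have hI : (ε * zt) ^ 2 = -1 := by
    have h2 : ε ^ 2 = 1 := by
      rcases hε with h | h <;> rw [h] <;> norm_num
    linear_combination zt ^ 2 * h2 + zt_sq
  have hID := PsJ3_ID hs hio hI hc hp hm h12
  have h2 := two_wq (hq := hq)
  have h4 := PsEA_four (hq := hq)
  have hz := zt_sq (hq := hq)
  have hz2 := PsEA_two_zt (hq := hq)
  have h1z := PsEA_one_zt (hq := hq)
  have vW := (v_wq_lt (B := B) hB)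
  have vW' := vW.le
  have vzt : B.valuation zt ≤ 1 := v_zt.le
  have vio : B.valuation io ≤ 1 := (Cg_of_sq_neg_one hB hio).le
  have v1 : B.valuation (1 : ℂ) ≤ 1 := (map_one _).le
  have cx := PsEA_x hB hx ha
  have hx0 : x ≠ 0 := by
    intro h
    have h1 := cx.unit
    rw [h, map_zero] at h1
    exact zero_ne_one h1
  have vx := cx.le
  have vx2 : B.valuation x2 ≤ 1 := (PsEA_x hB hx2 ha2).le
  have vc : B.valuation c ≤ 1 := by
    refine v_le_of_pow two_ne_zero ?_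
    rw [hc]
    exact cx.le
  obtain ⟨s1, h6⟩ : ∃ s1, s1 = s / lm := ⟨_, rfl⟩
  have h7 : s = wq ^ 4 * s1 := by
    rw [h6, wq_pow, mul_div_cancel₀ _ lm_ne]
  have cs : Cg B s1 1 := h6 ▸ Cg_s hB hs
  have vs1 := cs.le
  obtain ⟨p1, m1, -, hm1, -, hm2⟩ := PsEA_pm hp hm hx
  have vm1 : B.valuation m1 ≤ 1 := by
    refine v_le_of_pow two_ne_zero ?_
    rw [hm2]
    exact v_mul_le (v_neg_le vzt) (v_add_le vzt (v_mul_le (v_pow_le vW' 2) ha))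
  -- `x + 1 + s io c`
  obtain ⟨b1, hb1, vb1⟩ : ∃ b1, x + 1 + s * io * c = wq ^ 4 * b1 ∧ B.valuation b1 ≤ 1 := by
    refine ⟨1 + wq ^ 2 * a + s1 * io * c, ?_, ?_⟩
    · rw [h7, hx]
      linear_combination h1z
    · have v2 : B.valuation (wq ^ 2) ≤ 1 := v_pow_le vW' 2
      repeat' first | assumption | apply v_add_le | apply v_mul_le
  -- `x + I`
  obtain ⟨a', ha', va'⟩ : ∃ a', x + ε * zt = wq ^ 6 * a' ∧ B.valuation a' ≤ 1 := by
    rcases hε with rfl | rfl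
    · refine ⟨a + wq ^ 2, ?_, v_add_le ha (v_pow_le vW' 2)⟩
      rw [hx]
      linear_combination hz2
    · refine ⟨a, ?_, ha⟩
      rw [hx]
      ring
  -- `x - I`
  obtain ⟨a'', ha'', va''⟩ : ∃ a'', x - ε * zt = wq ^ 6 * a'' ∧ B.valuation a'' ≤ 1 := by
    rcases hε with rfl | rfl
    · refine ⟨a, ?_, ha⟩
      rw [hx]
      ring
    · refine ⟨a + wq ^ 2, ?_, v_add_le ha (v_pow_le vW' 2)⟩
      rw [hx]
      linear_combination hz2
  -- the bracket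
  obtain ⟨W, hW, vW1⟩ : ∃ W, (x - ε * zt) * (x2 + zt) + 2 * (s * io) * c * x2 = wq ^ 12 * W ∧
      B.valuation W ≤ 1 := by
    refine ⟨a'' * (a2 + wq ^ 2) - zt * s1 * io * c * x2, ?_, ?_⟩
    · have e1 : x2 + zt = wq ^ 6 * (a2 + wq ^ 2) := by
        rw [hx2]
        linear_combination hz2
      rw [ha'', e1, h7]
      linear_combination (wq ^ 4 * s1 * io * c * x2) * h2
    · have v2 : B.valuation (wq ^ 2) ≤ 1 := v_pow_le vW' 2
      repeat' first | assumption | apply v_sub_le | apply v_add_le | apply v_mul_le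
  rw [hW] at hID
  obtain ⟨Y1, hY1⟩ := PsEA_div 17 Y
  refine ⟨Y1, hY1, ?_⟩
  have vinv := cx.inv.le
  have key : Y1 ^ 2 = zt * a' * W * x⁻¹ + (wq * (-(zt * m1 * b1 * c * x⁻¹))) * Y1 := by
    apply PsEA_cancel (n := 34)
    apply mul_left_cancel₀ hx0
    have k1 : x * (c ^ 2 * Y ^ 2) = 2 * (m * c * (x + 1 + s * io * c)) * (c ^ 2 * Y) -
        4 * zt * x * (x + ε * zt) * (wq ^ 12 * W) := by
      have k0 : x * (c ^ 2 * Y ^ 2) = (c ^ 2 * Y) ^ 2 := by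
        rw [← hc]
        ring
      rw [k0, hY]
      linear_combination hID
    have k2 : x * Y ^ 2 = 2 * (m * c * (x + 1 + s * io * c)) * Y -
        4 * zt * (x + ε * zt) * (wq ^ 12 * W) := by
      rw [hc] at k1
      apply mul_left_cancel₀ hx0
      linear_combination k1
    rw [hb1, ha', hY1, hm1] at k2
    have hxx : x * x⁻¹ = 1 := mul_inv_cancel₀ hx0
    linear_combination k2 + (wq ^ 27 * m1 * c * b1 * Y1) * h2 - (zt * wq ^ 18 * a' * W) * h4 -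
      (wq ^ 34 * zt * a' * W - wq ^ 35 * zt * m1 * b1 * c * Y1) * hxx
  refine v_le_quad key ?_ ?_
  · repeat' first | assumption | apply v_neg_le | apply v_mul_le
  · repeat' first | assumption | apply v_mul_le

/-- **the sum over a pair**, abstract form -/
theorem PsJ3_pair (hB : (2 : ℂ)⁻¹ ∉ B) {ε s io c p m c' p' m' x x2 a a2 U U' : ℂ}
    (hε : ε = 1 ∨ ε = -1) (hs : s ^ 2 = 2) (hio : io ^ 2 = -1)
    (hc : c ^ 2 = x) (hp : p ^ 2 = 2 * (x + 1)) (hm : m ^ 2 = 2 * (x - 1))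
    (hx : x = zt + wq ^ 6 * a) (ha : B.valuation a ≤ 1) (hx2 : x2 = zt + wq ^ 6 * a2)
    (ha2 : B.valuation a2 ≤ 1) (h12 : x ^ 2 - 1 = 2 * zt * x * x2)
    (hc' : c' * c = -(ε * zt)) (hp' : p' * c = m) (hm' : m' * c = -(ε * zt * p))
    {u u' : ℂ} (hU : U ^ 2 = -8 * s * (p + (c + s * io) * m))
    (hU' : U' ^ 2 = -8 * s * (p' + (c' + s * io) * m')) (hu : U = wq ^ 19 * u)
    (hu' : U' = wq ^ 19 * u') (vu : B.valuation u ≤ 1) (vu' : B.valuation u' ≤ 1) :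
    ∃ P, U + U' = wq ^ 21 * P ∧ B.valuation P < 1 := by
  have vW := (v_wq_lt (B := B) hB)
  have vzt : B.valuation zt ≤ 1 := v_zt.le
  have hI : (ε * zt) ^ 2 = -1 := by
    have h2 : ε ^ 2 = 1 := by
      rcases hε with h | h <;> rw [h] <;> norm_num
    linear_combination zt ^ 2 * h2 + zt_sq
  obtain ⟨Y, hYd⟩ : ∃ Y, Y = p + (c + s * io) * m + (p' + (c' + s * io) * m') := ⟨_, rfl⟩
  have hY : c ^ 2 * Y = p * (x - 1 - ε * zt * (s * io) * c) + m * c * (x + 1 + s * io * c) := by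
    rw [hYd]
    linear_combination (p + m * c) * hc + c * hp' + (m' * c) * hc' +
      (-(ε * zt) + s * io * c) * hm' + p * hI
  obtain ⟨Y1, hY1, vY⟩ := PsJ3_y hB hε hs hio hc hp hm hx ha hx2 ha2 h12 hY
  obtain ⟨s1, h6⟩ : ∃ s1, s1 = s / lm := ⟨_, rfl⟩
  have h7 : s = wq ^ 4 * s1 := by
    rw [h6, wq_pow, mul_div_cancel₀ _ lm_ne]
  have cs : Cg B s1 1 := h6 ▸ Cg_s hB hs
  have vs1 := cs.le
  obtain ⟨P, hP⟩ := PsEA_div 21 (U + U')
  refine ⟨P, hP, ?_⟩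
  have h2 := two_wq (hq := hq)
  have h8 := PsEA_eight (hq := hq)
  have key : P ^ 2 = wq ^ 3 * (-(zt * s1 * Y1) - wq * (zt * u * u')) := by
    apply PsEA_cancel (n := 42)
    have k1 : (wq ^ 21 * P) ^ 2 = -8 * (wq ^ 4 * s1) * (wq ^ 17 * Y1) +
        2 * (wq ^ 19 * u) * (wq ^ 19 * u') := by
      rw [← hP, ← hY1, ← h7, ← hu, ← hu', hYd]
      linear_combination hU + hU'
    linear_combination k1 - (wq ^ 21 * s1 * Y1) * h8 + (wq ^ 38 * u * u') * h2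
  refine v_lt_of_pow (n := 2) ?_
  rw [key]
  refine v_mul_lt (v_wq_pow_lt hB (by norm_num)) ?_
  have vW' := vW.le
  repeat' first | assumption | apply v_neg_le | apply v_sub_le | apply v_mul_le

/-! ### The values -/

/-- **The value.** -/
theorem v_VJ3 (hB : (2 : ℂ)⁻¹ ∉ B) (k : ZMod 4) {Q : ℂ} (hQ : Od Q) :
    ∃ u, V4 (sJ3 k) (tJ3 k * (pe ^ 7 + Q)) = wq ^ 19 * u ∧ Cg B u 1 := by
  refine PsE_data hB (sJ3_sq k) ?_
  rw [tJ3_eq, neg_mul]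
  exact (PsE_tE (PsE_od hQ) k).neg

/-- **The sum over a pair.** -/
theorem v_VJ3_pair (hB : (2 : ℂ)⁻¹ ∉ B) (k : ZMod 4) {Q : ℂ} (hQ : Od Q) :
    ∃ P, V4 (sJ3 k) (tJ3 k * (pe ^ 7 + Q)) + V4 (sJ3 k) (tJ3 k * (pe ^ 7 - Q)) = wq ^ 21 * P ∧
      B.valuation P < 1 := by
  have hQ' : Od (-Q) := hQ.neg
  obtain ⟨z, hzd⟩ : ∃ z, z = tJ3 k * (pe ^ 7 + Q) := ⟨_, rfl⟩
  obtain ⟨z', hzd'⟩ : ∃ z, z = tJ3 k * (pe ^ 7 - Q) := ⟨_, rfl⟩
  have hz : Od z := by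
    rw [hzd, tJ3_eq, neg_mul]
    exact (PsE_tE (PsE_od hQ) k).neg
  have hz' : Od z' := by
    rw [hzd', tJ3_eq, neg_mul, sub_eq_add_neg]
    exact (PsE_tE (PsE_od hQ') k).neg
  obtain ⟨ε, e, hε, -, hP⟩ := PsE_cases (hq := hq) k
  have hε' : ε = 1 ∨ ε = -1 := by
    rcases hε with ⟨h, -⟩ | ⟨h, -⟩
    · exact Or.inl h
    · exact Or.inr h
  have hJ := (hP Q hQ).neg3
  have e1 : -(lm ^ 2 * (tE k * (pe ^ 7 + Q))) = lm ^ 2 * z := by
    rw [hzd, tJ3_eq]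
    ring
  have e2 : -(lm ^ 2 * (tE k * (pe ^ 7 - Q))) = lm ^ 2 * z' := by
    rw [hzd', tJ3_eq]
    ring
  rw [e1, e2] at hJ
  obtain ⟨p1, p2, p3⟩ := hJ
  rw [← hzd, ← hzd']
  have hs := sJ3_sq k
  obtain ⟨u, hu, cu⟩ := PsE_data hB hs hz
  obtain ⟨u', hu', cu'⟩ := PsE_data hB hs hz'
  obtain ⟨w, hw⟩ : ∃ w, w = lm ^ 2 * z := ⟨_, rfl⟩
  have hOw : Od w := hw ▸ hz.pow 2
  have h1 : 2 * (lm * w) ∉ PP.lattice := hOw.mul_lm.two
  have hX : X (lm ^ 2 * w) ^ 2 - 1 = 2 * zt * X (lm ^ 2 * w) * X (lm ^ 3 * w) := by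
    have h2 := X_lm (hOw.pow 2).two
    have e : lm * (lm ^ 2 * w) = lm ^ 3 * w := by ring
    rw [e] at h2
    linear_combination -h2
  have hV := PO_pe4_sq hs (hz.pow 2).two
  have hV' := PO_pe4_sq hs (hz'.pow 2).two
  rw [← hw] at hV p1 p2 p3
  obtain ⟨ρ, r1, -, cρ⟩ := PsEA_rho hB
  have h2w := two_wq (hq := hq)
  have key : ∀ v : ℂ, Od v → ∃ a, X v = zt + wq ^ 6 * a ∧ B.valuation a ≤ 1 := by
    intro v hv
    refine ⟨ρ - zt * wq ^ 2 * xi4 v, ?_, ?_⟩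
    · rw [X_xi4, r1]
      linear_combination xi4 v * h2w
    · exact v_sub_le cρ.le (v_mul_le (v_mul_le v_zt.le (v_wq_pow_lt hB (by norm_num)).le)
        (xi4_le hB hv))
  obtain ⟨a, ha, va⟩ := key _ (hOw.pow 2)
  obtain ⟨a2, ha2, va2⟩ := key _ (hOw.pow 3)
  exact PsJ3_pair hB hε' sq2_sq hs (kE_sq h1) (by rw [pE_sq h1, kE_sq h1])
    (by rw [mE_sq h1, kE_sq h1]) ha va ha2 va2 hX p1 p2 (by rw [p3]; ring)
    (U := V4 (sJ3 k) z) (U' := V4 (sJ3 k) z') (by rw [V4, hV, jE]) (by rw [V4, hV', jE]) hu hu'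
    cu.le cu'.le

end

end Pool.Agent.Lib.MP_1a91b9_ntQ
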