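import Pool.Agent.Lib.MP_1a91b9_ntQ.A.Gam4
import Pool.Agent.Lib.MP_1a91b9_ntQ.A.AlgX
import Pool.Agent.Lib.MP_1a91b9_ntQ.A.B1a

/-!
# Quartic twists, part B, file PthR: path sums over the classes with trivial symbol at the auxiliary prime

`h : ℂ → R` is any function with values in a ring of characteristic `2`; `HO q0 kap h J τ` is the sum of
`∏ (c2 k (kap a) + τ k) h (a / (q0 DDq J))` over the classes `a` modulo `q0 DDq J` with `c4 q0 (kap a) = 0`. If
`∑ h (z + u) = h (q z) + g q (q z)` over `E[q]`, `h (i z) = h z + w z`, the sums of `g q` and `w` being `0` for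
`J ≠ ∅`, then `HO h J τ` is an affine function of `τ` with the coefficients `Ham (nX s4 aa q0) (c + s4 q0 c') J r`.
-/

set_option autoImplicit false

namespace Pool.Agent.Lib.MP_1a91b9_ntQ

open NumberField IsDedekindDomain Pool.Agent.Lib.MP_1a91b9_nuT Pool.Agent.Lib.MP_1a91b9_nuT.S3
  Pool.Agent.Lib.MP_1a91b9_nuT.Ell

noncomputable section

/-! ### Hamiltonian paths -/

section
variable {ι : Type*} [DecidableEq ι] {R : Type*} [CommRing R]

theorem HamA_congr {m m' : ι → ι → R} {f f' : ι → R} (n : ℕ) : ∀ (S : Finset ι) (i : ι), i ∈ S →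
    (∀ i ∈ S, ∀ j ∈ S, i ≠ j → m i j = m' i j) → (∀ i ∈ S, f i = f' i) →
    HamA m f n S i = HamA m' f' n S i := by
  induction n with
  | zero =>
    intro S i _ _ _
    rw [HamA, HamA]
  | succ n ih =>
    intro S i hi hm hf
    rw [HamA, HamA, hf i hi]
    congr 1
    refine Finset.sum_congr rfl fun j hj => ?_
    rw [hm i hi j (Finset.mem_of_mem_erase hj) (Finset.ne_of_mem_erase hj).symm,
      ih (S.erase i) j hj (fun a ha b hb => hm a (Finset.mem_of_mem_erase ha) b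
        (Finset.mem_of_mem_erase hb)) fun a ha => hf a (Finset.mem_of_mem_erase ha)]

theorem Ham_congr {m m' : ι → ι → R} {f f' : ι → R} {S : Finset ι} {i : ι} (hi : i ∈ S)
    (hm : ∀ i ∈ S, ∀ j ∈ S, i ≠ j → m i j = m' i j) (hf : ∀ i ∈ S, f i = f' i) :
    Ham m f S i = Ham m' f' S i := HamA_congr S.card S i hi hm hf

theorem HamA_zero (m : ι → ι → R) (n : ℕ) : ∀ (S : Finset ι) (i : ι),
    HamA m (fun _ => 0) n S i = 0 := by
  induction n with
  | zero =>
    intro S i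
    rw [HamA]
  | succ n ih =>
    intro S i
    rw [HamA]
    simp [ih]

theorem Ham_zero (m : ι → ι → R) (S : Finset ι) (i : ι) : Ham m (fun _ => 0) S i = 0 :=
  HamA_zero m _ S i

theorem HamA_addf (m : ι → ι → R) (f f' : ι → R) (n : ℕ) : ∀ (S : Finset ι) (i : ι),
    HamA m (fun x => f x + f' x) n S i = HamA m f n S i + HamA m f' n S i := by
  induction n with
  | zero =>
    intro S i
    simp [HamA]
  | succ n ih =>
    intro S i
    rw [HamA, HamA, HamA, Finset.sum_congr rfl fun j _ => by rw [ih (S.erase i) j, mul_add],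
      Finset.sum_add_distrib]
    split_ifs <;> ring

theorem Ham_addf (m : ι → ι → R) (f f' : ι → R) (S : Finset ι) (i : ι) :
    Ham m (fun x => f x + f' x) S i = Ham m f S i + Ham m f' S i := HamA_addf m f f' _ S i

end

/-! ### The weights -/

variable {q0 : Pg} {kap : 𝓞 K} {J : Finset Pg} {τ : Pg → ZMod 2}

open Classical in
/-- the weight of a class -/
def gO (q0 : Pg) (kap : 𝓞 K) (J : Finset Pg) (τ : Pg → ZMod 2) (a : 𝓞 K) : ZMod 2 :=
  if OmX q0 kap J a then ∏ k ∈ J, (c2 k (kap * a) + τ k) else 0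

theorem gO_pos {a : 𝓞 K} (h : OmX q0 kap J a) :
    gO q0 kap J τ a = ∏ k ∈ J, (c2 k (kap * a) + τ k) := by
  unfold gO
  exact if_pos h

theorem gO_neg {a : 𝓞 K} (h : ¬ OmX q0 kap J a) : gO q0 kap J τ a = 0 := by
  unfold gO
  exact if_neg h

theorem gO_ne {a : 𝓞 K} (h : gO q0 kap J τ a ≠ 0) : OmX q0 kap J a := by
  by_contra h1
  exact h (gO_neg h1)

theorem gO_congr {τ' : Pg → ZMod 2} (h : ∀ k ∈ J, τ k = τ' k) (a : 𝓞 K) :
    gO q0 kap J τ a = gO q0 kap J τ' a := by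
  classical
  unfold gO
  congr 1
  exact Finset.prod_congr rfl fun k hk => by rw [h k hk]

theorem gO_pd (hk : ∀ q : Pg, ¬ q.1 ∣ kap) (J : Finset Pg) (τ : Pg → ZMod 2) :
    Pd (q0.1 * DDq J) (gO q0 kap J τ) := by
  intro a b hab
  by_cases h : OmX q0 kap J a
  · have h' := (OmX_congr (hk q0) hab).1 h
    rw [gO_pos h, gO_pos h']
    refine Finset.prod_congr rfl fun k hkJ => ?_
    rw [c2_congr k (h.ndk hk hkJ)]
    rw [← mul_sub]
    exact ((dvd_M hkJ).trans hab).mul_left _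
  · have h' : ¬ OmX q0 kap J b := fun hb => h ((OmX_congr (hk q0) hab).2 hb)
    rw [gO_neg h, gO_neg h']

/-- multiplication by an element of trivial symbol at `q0` -/
theorem gO_mul (hk : ∀ q : Pg, ¬ q.1 ∣ kap) {v : 𝓞 K} (hv : IsCoprime v (q0.1 * DDq J))
    (hv0 : c4 q0 v = 0) (a : 𝓞 K) :
    gO q0 kap J τ (v * a) = gO q0 kap J (fun k => τ k + c2 k v) a := by
  have h := OmX_mul (y := a) hk hv hv0
  by_cases ha : OmX q0 kap J a
  · rw [gO_pos (h.2 ha), gO_pos ha]
    refine Finset.prod_congr rfl fun k hkJ => ?_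
    have e : kap * (v * a) = v * (kap * a) := by ring
    rw [e, c2_mul k ((cop_qD.1 hv).2 k hkJ) (ha.ndk hk hkJ)]
    ring
  · rw [gO_neg fun h1 => ha (h.1 h1), gO_neg ha]

/-- the unit which makes the symbol of `u` trivial -/
theorem exists_unit_sym (h0 : aa q0.1 = 1) {u : 𝓞 K} (hu : ¬ q0.1 ∣ u) :
    ∃ n : ℕ, c4 q0 (iO ^ n * u) = 0 ∧ (n : ZMod 2) = c2 q0 u := by
  refine ⟨(-(nn q0.1 * c4 q0 u)).val, ?_, ?_⟩
  · rw [c4_iO_mul q0 _ hu]
    linear_combination (-c4 q0 u) * nn_sq h0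
  · have h1 : (((-(nn q0.1 * c4 q0 u)).val : ℕ) : ZMod 2) =
        md (((-(nn q0.1 * c4 q0 u)).val : ℕ) : ZMod 4) := (md_natCast _).symm
    rw [h1, val_cast, map_neg, map_mul]
    have h2 : md (nn q0.1) = 1 := h0
    rw [h2, one_mul]
    have h3 : ∀ x : ZMod 2, -x = x := by decide
    rw [h3]
    rfl

theorem c2_iO_pow (q : Pg) (n : ℕ) : c2 q (iO ^ n) = (n : ZMod 2) * aa q.1 := by
  have h : ¬ q.1 ∣ iO := fun h => not_dvd_iO_pow q 1 (by rwa [pow_one])
  unfold c2
  rw [c4_pow q h, c4_i, map_mul, md_natCast]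
  rfl

/-! ### The sums -/

variable {R : Type*} [CommRing R] [Algebra (ZMod 2) R] {h w : ℂ → R} {g : Pg → ℂ → R}

/-- the sum over the classes of symbol `0` -/
def HO (q0 : Pg) (kap : 𝓞 K) (h : ℂ → R) (J : Finset Pg) (τ : Pg → ZMod 2) : R :=
  SM (q0.1 * DDq J) fun a => gO q0 kap J τ a • h (em a / em (q0.1 * DDq J))

theorem HO_congr {τ' : Pg → ZMod 2} (hτ : ∀ k ∈ J, τ k = τ' k) :
    HO q0 kap h J τ = HO q0 kap h J τ' :=
  SM_congr fun a => by rw [gO_congr hτ a]

theorem HO_congr_f {h' : ℂ → R} (hh : ∀ z, Od z → h z = h' z) :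
    HO q0 kap h J τ = HO q0 kap h' J τ := by
  refine SM_congr fun a => ?_
  by_cases ha : gO q0 kap J τ a = 0
  · rw [ha, zero_smul, zero_smul]
  · rw [hh _ (gO_ne ha).od]

theorem HO_add (h h' : ℂ → R) :
    HO q0 kap (fun z => h z + h' z) J τ = HO q0 kap h J τ + HO q0 kap h' J τ := by
  rw [HO, HO, HO, ← SM_add (qD_ne q0 J)]
  exact SM_congr fun a => smul_add _ _ _

theorem HO_zero : HO q0 kap (fun _ => (0 : R)) J τ = 0 := by
  obtain ⟨ι, _, a, -, h1⟩ := SM_def (R := R) (qD_ne q0 J)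
  rw [HO, h1]
  simp

theorem HO_smul (c : ZMod 2) (h : ℂ → R) :
    HO q0 kap (fun z => c • h z) J τ = c • HO q0 kap h J τ := by
  rw [HO, HO, ← SM_smul (qD_ne q0 J)]
  exact SM_congr fun a => smul_comm _ _ _

variable (R) in
private theorem PthR_char : (2 : R) = 0 := by
  have h : algebraMap (ZMod 2) R 2 = 0 := by
    rw [show (2 : ZMod 2) = 0 from rfl, map_zero]
  rwa [map_ofNat] at h

theorem PthR_two (x : R) : x + x = 0 := by
  rw [← two_mul, PthR_char R, zero_mul]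

theorem PthR_neg (x : R) : -x = x := by
  linear_combination (-x) * PthR_char R

omit [Algebra (ZMod 2) R] in
theorem Pd_pt (hper : ∀ z l, l ∈ PP.lattice → h (z + l) = h z) {M : 𝓞 K} (hM : M ≠ 0) :
    Pd M fun a => h (em a / em M) := by
  intro a b hab
  obtain ⟨l, hl, e⟩ := em_divM_per hM hab
  change h (em a / em M) = h (em b / em M)
  rw [e, hper _ _ hl]

omit [Algebra (ZMod 2) R] in
theorem rot_even (hneg : ∀ z, Od z → h (-z) = h z) {z : ℂ} (hz : Od z) (j : ℕ) :
    h (zt ^ (2 * j) * z) = h z ∧ Od (zt ^ (2 * j) * z) := by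
  induction j with
  | zero => simpa using hz
  | succ j ih =>
    have e : zt ^ (2 * (j + 1)) * z = zt * (zt * (zt ^ (2 * j) * z)) := by ring
    have e2 : zt * (zt * (zt ^ (2 * j) * z)) = -(zt ^ (2 * j) * z) := by
      linear_combination (zt ^ (2 * j) * z) * zt_sq
    refine ⟨?_, ?_⟩
    · rw [e, e2, hneg _ ih.2, ih.1]
    · rw [e]
      exact ih.2.rot.rot

theorem Pth_one_ne : ((1 : ℕ) : ZMod 2) ≠ 0 := by decide

theorem Pth_odd (j : ℕ) : ((2 * j + 1 : ℕ) : ZMod 2) = 1 := by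
  push_cast
  have h3 : (2 : ZMod 2) = 0 := rfl
  rw [h3, zero_mul, zero_add]

theorem Pth_even (j : ℕ) : ((2 * j : ℕ) : ZMod 2) = 0 := by
  push_cast
  have h3 : (2 : ZMod 2) = 0 := rfl
  rw [h3, zero_mul]

/-- the powers of `i` -/
theorem rot_pow (hneg : ∀ z, Od z → h (-z) = h z) {n : ℕ} {z : ℂ} (hz : Od z)
    (hi : (n : ZMod 2) = 0 ∨ ∀ z, Od z → h (zt * z) = h z + w z)
    (hwneg : ∀ z, Od z → w (-z) = w z) :
    h (zt ^ n * z) = h z + (n : ZMod 2) • w z := by
  rcases Nat.even_or_odd' n with ⟨j, rfl | rfl⟩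
  · rw [(rot_even hneg hz j).1, Pth_even, zero_smul, add_zero]
  · rcases hi with hi | hi
    · exfalso
      rw [Pth_odd] at hi
      exact one_ne_zero hi
    · have e : zt ^ (2 * j + 1) * z = zt * (zt ^ (2 * j) * z) := by ring
      have h2 := rot_even hneg hz j
      rw [e, hi _ h2.2, h2.1, (rot_even hwneg hz j).1, Pth_odd, one_smul]

/-- **the substitution `z ↦ u z`**, `i` acting trivially -/
theorem HO_subst (h0 : aa q0.1 = 1) (hk : ∀ q : Pg, ¬ q.1 ∣ kap)
    (hper : ∀ z l, l ∈ PP.lattice → h (z + l) = h z) {u : 𝓞 K} (hu : IsCoprime u (q0.1 * DDq J))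
    (hneg : ∀ z, Od z → h (-z) = h z)
    (hi : c2 q0 u = 0 ∨ ∀ z, Od z → h (zt * z) = h z) (τ : Pg → ZMod 2) :
    HO q0 kap (fun z => h (em u * z)) J τ =
      HO q0 kap h J fun k => τ k + (c2 k u + c2 q0 u * aa k.1) := by
  have hM := qD_ne q0 J
  obtain ⟨n, hn, hn2⟩ := exists_unit_sym h0 (cop_qD.1 hu).1
  have hv : IsCoprime (iO ^ n * u) (q0.1 * DDq J) := (cop_unit (isUnit_iO.pow n) _).mul_left hu
  have hP : Pd (q0.1 * DDq J) fun a => gO q0 kap J (fun k => τ k + (c2 k u + c2 q0 u * aa k.1)) a •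
      h (em a / em (q0.1 * DDq J)) := by
    intro a b hab
    have h1 := gO_pd (q0 := q0) hk J (fun k => τ k + (c2 k u + c2 q0 u * aa k.1)) a b hab
    have h2 := Pd_pt hper hM a b hab
    change gO q0 kap J (fun k => τ k + (c2 k u + c2 q0 u * aa k.1)) a •
      h (em a / em (q0.1 * DDq J)) = gO q0 kap J (fun k => τ k + (c2 k u + c2 q0 u * aa k.1)) b •
      h (em b / em (q0.1 * DDq J))
    change h (em a / em (q0.1 * DDq J)) = h (em b / em (q0.1 * DDq J)) at h2
    rw [h1, h2]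
  rw [HO, HO, ← SM_mul hM hP hv]
  refine SM_congr fun a => ?_
  rw [gO_mul hk hv hn]
  have e1 : gO q0 kap J (fun k => τ k + (c2 k u + c2 q0 u * aa k.1) + c2 k (iO ^ n * u)) a =
      gO q0 kap J τ a := by
    refine gO_congr (fun k hkJ => ?_) a
    rw [c2_mul k (not_dvd_iO_pow k n) ((cop_qD.1 hu).2 k hkJ), c2_iO_pow, hn2]
    have key : ∀ t x y : ZMod 2, t + (x + y) + (y + x) = t := by decide
    exact key _ _ _
  rw [e1]
  by_cases ha : gO q0 kap J τ a = 0
  · rw [ha, zero_smul, zero_smul]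
  · congr 1
    have hod : Od (em u * (em a / em (q0.1 * DDq J))) := by
      have h3 : em u * (em a / em (q0.1 * DDq J)) = em (u * a) / em (q0.1 * DDq J) := by
        rw [em_mul u]
        ring
      rw [h3]
      exact od_divX q0 (hu.mul_left (gO_ne ha).1)
    have e2 : em (iO ^ n * u * a) / em (q0.1 * DDq J) = zt ^ n * (em u * (em a / em (q0.1 * DDq J))) := by
      rw [mul_assoc, em_iO_pow, em_mul u]
      ring
    rw [e2]
    have h4 := rot_pow (w := fun _ => 0) hneg (n := n) hod (hi.imp (fun hi => by rw [hn2, hi])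
      fun hi z hz => by rw [hi z hz, add_zero]) fun _ _ => rfl
    rw [h4, smul_zero, add_zero]

/-- **the distribution relation for the sums** -/
theorem SM_dist (hper : ∀ z l, l ∈ PP.lattice → h (z + l) = h z) (i : Pg) {g : ℂ → R}
    (hdist : ∀ z, Od (em i.1 * z) → SM i.1 (fun u => h (z + em u / em i.1)) =
      h (em i.1 * z) + g (em i.1 * z)) {M : 𝓞 K} (hM0 : M ≠ 0) {c : 𝓞 K → ZMod 2}
    (hc : Pd M c) (hc0 : ∀ a, c a ≠ 0 → Od (em a / em M)) :
    SM (i.1 * M) (fun a => (open Classical in if i.1 ∣ a then (0 : ZMod 2) else c a) •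
        h (em a / em (i.1 * M))) =
      SM M (fun b => c b • h (em b / em M)) + SM M (fun b => c b • g (em b / em M)) +
        SM M (fun b => c (i.1 * b) • h (em b / em M)) := by
  classical
  have hi0 : i.1 ≠ 0 := i.ne_zero
  have hiM : i.1 * M ≠ 0 := mul_ne_zero hi0 hM0
  have e1 := em_ne hM0
  have e2 := em_ne hi0
  have hc1 : Pd (i.1 * M) c := hc.of_dvd (dvd_mul_left _ _)
  have hdv : ∀ {a b : 𝓞 K}, i.1 * M ∣ a - b → (i.1 ∣ a ↔ i.1 ∣ b) := by
    intro a b hab
    have h1 := (dvd_mul_right i.1 M).trans hab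
    constructor
    · intro h2
      have := dvd_sub h2 h1
      rwa [sub_sub_cancel] at this
    · intro h2
      have := dvd_add h1 h2
      rwa [sub_add_cancel] at this
  have hp1 : Pd (i.1 * M) fun a => c a • h (em a / em (i.1 * M)) := by
    intro a b hab
    have h1 := hc1 a b hab
    have h2 := Pd_pt hper hiM a b hab
    change c a • h (em a / em (i.1 * M)) = c b • h (em b / em (i.1 * M))
    change h (em a / em (i.1 * M)) = h (em b / em (i.1 * M)) at h2
    rw [h1, h2]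
  have hp2 : Pd (i.1 * M) fun a => (if i.1 ∣ a then c a else (0 : ZMod 2)) •
      h (em a / em (i.1 * M)) := by
    intro a b hab
    have h1 := hp1 a b hab
    change c a • h (em a / em (i.1 * M)) = c b • h (em b / em (i.1 * M)) at h1
    change (if i.1 ∣ a then c a else (0 : ZMod 2)) • h (em a / em (i.1 * M)) =
      (if i.1 ∣ b then c b else (0 : ZMod 2)) • h (em b / em (i.1 * M))
    by_cases h2 : i.1 ∣ a
    · rw [if_pos h2, if_pos ((hdv hab).1 h2), h1]
    · rw [if_neg h2, if_neg fun h3 => h2 ((hdv hab).2 h3), zero_smul, zero_smul]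
  have h1 : SM (i.1 * M) (fun a => c a • h (em a / em (i.1 * M))) =
      SM M (fun b => c b • h (em b / em M)) + SM M (fun b => c b • g (em b / em M)) := by
    rw [SM_fib hM0 hi0 hp1, ← SM_add hM0]
    refine SM_congr fun b => ?_
    have h2 : (fun u => c (b + M * u) • h (em (b + M * u) / em (i.1 * M))) =
        fun u => c b • h (em b / em (i.1 * M) + em u / em i.1) := by
      funext u
      have h3 : c (b + M * u) = c b := hc _ _ ⟨u, by ring⟩
      have h4 : em (b + M * u) / em (i.1 * M) = em b / em (i.1 * M) + em u / em i.1 := by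
        rw [em_add, em_mul, em_mul]
        field_simp
      rw [h3, h4]
    rw [h2, SM_smul hi0]
    by_cases h5 : c b = 0
    · rw [h5, zero_smul, zero_smul, zero_smul, add_zero]
    · have h7 : em i.1 * (em b / em (i.1 * M)) = em b / em M := by
        rw [em_mul]
        field_simp
      have h6 := hdist (em b / em (i.1 * M)) (by rw [h7]; exact hc0 b h5)
      rw [h6, h7, smul_add]
  have h2 : SM (i.1 * M) (fun a => (if i.1 ∣ a then c a else (0 : ZMod 2)) •
      h (em a / em (i.1 * M))) = SM M (fun b => c (i.1 * b) • h (em b / em M)) := by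
    rw [SM_dvd hM0 hi0 hp2 fun a ha => by rw [if_neg ha, zero_smul]]
    refine SM_congr fun b => ?_
    have h7 : em (i.1 * b) / em (i.1 * M) = em b / em M := by
      rw [em_mul, em_mul]
      field_simp
    rw [if_pos (dvd_mul_right _ _), h7]
  have h3 : SM (i.1 * M) (fun a => (if i.1 ∣ a then (0 : ZMod 2) else c a) •
      h (em a / em (i.1 * M))) = SM (i.1 * M) (fun a => c a • h (em a / em (i.1 * M))) -
      SM (i.1 * M) (fun a => (if i.1 ∣ a then c a else (0 : ZMod 2)) •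
        h (em a / em (i.1 * M))) := by
    rw [← SM_sub hiM]
    refine SM_congr fun a => ?_
    by_cases h4 : i.1 ∣ a
    · rw [if_pos h4, if_pos h4, zero_smul, sub_self]
    · rw [if_neg h4, if_neg h4, zero_smul, sub_zero]
  rw [h3, h1, h2, sub_eq_add_neg, PthR_neg]

theorem gO_insert (hk : ∀ q : Pg, ¬ q.1 ∣ kap) {i : Pg} (hi : i ∉ J) (hi0 : i ≠ q0) (a : 𝓞 K) :
    gO q0 kap (insert i J) τ a =
      (open Classical in if i.1 ∣ a then 0 else c2 i (kap * a) + τ i) * gO q0 kap J τ a := by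
  classical
  have hOm : OmX q0 kap (insert i J) a ↔ OmX q0 kap J a ∧ ¬ i.1 ∣ a := by
    simp only [OmX, cop_qD, Finset.forall_mem_insert]
    tauto
  by_cases h1 : OmX q0 kap J a
  · by_cases h2 : i.1 ∣ a
    · rw [gO_neg fun h => (hOm.1 h).2 h2, if_pos h2, zero_mul]
    · rw [gO_pos (hOm.2 ⟨h1, h2⟩), gO_pos h1, Finset.prod_insert hi, if_neg h2]
  · rw [gO_neg fun h => h1 (hOm.1 h).1, gO_neg h1, mul_zero]

/-- the change of one coordinate -/
theorem HO_diff (h0 : aa q0.1 = 1) (hk : ∀ q : Pg, ¬ q.1 ∣ kap)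
    (hper : ∀ z l, l ∈ PP.lattice → h (z + l) = h z) (hneg : ∀ z, Od z → h (-z) = h z)
    (hwneg : ∀ z, Od z → w (-z) = w z)
    {i : Pg} (hiJ : i ∉ J) (hi0 : i ≠ q0)
    (hi : c2 q0 i.1 = 0 ∨ ∀ z, Od z → h (zt * z) = h z + w z) {g : ℂ → R}
    (hdist : ∀ z, Od (em i.1 * z) → SM i.1 (fun u => h (z + em u / em i.1)) =
      h (em i.1 * z) + g (em i.1 * z)) {τ' : Pg → ZMod 2}
    (hτ : ∀ k ∈ J, τ' k = τ k) :
    HO q0 kap h (insert i J) τ' - HO q0 kap h (insert i J) τ =
      (τ' i - τ i) • (HO q0 kap h J τ + HO q0 kap g J τ +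
        (HO q0 kap h J (fun k => τ k + (c2 k i.1 + c2 q0 i.1 * aa k.1)) +
          c2 q0 i.1 • HO q0 kap w J (fun k => τ k + (c2 k i.1 + c2 q0 i.1 * aa k.1)))) := by
  classical
  have hM := qD_ne q0 J
  have hI : q0.1 * DDq (insert i J) = i.1 * (q0.1 * DDq J) := by
    rw [DDq_insert hiJ]
    ring
  have hiM := mul_ne_zero i.ne_zero hM
  have hi1 : IsCoprime i.1 (q0.1 * DDq J) := by
    refine cop_qD.2 ⟨Pg.not_dvd hi0.symm, fun q hq => Pg.not_dvd ?_⟩
    rintro rfl
    exact hiJ hq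
  have e1 : HO q0 kap h (insert i J) τ' - HO q0 kap h (insert i J) τ =
      (τ' i - τ i) • SM (i.1 * (q0.1 * DDq J)) (fun a => (if i.1 ∣ a then (0 : ZMod 2) else
        gO q0 kap J τ a) • h (em a / em (i.1 * (q0.1 * DDq J)))) := by
    rw [HO, HO, ← SM_sub (by rw [hI]; exact hiM), ← SM_smul hiM, hI]
    refine SM_congr fun a => ?_
    rw [gO_insert hk hiJ hi0, gO_insert hk hiJ hi0, gO_congr hτ a, ← sub_smul, smul_smul]
    congr 1
    by_cases h : i.1 ∣ a
    · rw [if_pos h, if_pos h, if_pos h]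
      ring
    · rw [if_neg h, if_neg h, if_neg h]
      ring
  rw [e1]
  congr 1
  rw [SM_dist hper i hdist hM (gO_pd hk J τ) fun a ha => (gO_ne ha).od]
  congr 1
  -- the multiples of `i`
  obtain ⟨n, hn, hn2⟩ := exists_unit_sym h0 (cop_qD.1 hi1).1
  have hu : IsCoprime (iO ^ n) (q0.1 * DDq J) := cop_unit (isUnit_iO.pow n) _
  have hv : IsCoprime (iO ^ n * i.1) (q0.1 * DDq J) := hu.mul_left hi1
  have hP : Pd (q0.1 * DDq J) fun b => gO q0 kap J τ (i.1 * b) • h (em b / em (q0.1 * DDq J)) := by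
    intro a b hab
    have h1 := gO_pd (q0 := q0) hk J τ (i.1 * a) (i.1 * b) (by rw [← mul_sub]; exact hab.mul_left _)
    have h2 := Pd_pt hper hM a b hab
    change gO q0 kap J τ (i.1 * a) • h (em a / em (q0.1 * DDq J)) =
      gO q0 kap J τ (i.1 * b) • h (em b / em (q0.1 * DDq J))
    change h (em a / em (q0.1 * DDq J)) = h (em b / em (q0.1 * DDq J)) at h2
    rw [h1, h2]
  rw [← SM_mul hM hP hu, ← HO_smul, ← HO_add, HO]
  refine SM_congr fun b => ?_
  have e2 : i.1 * (iO ^ n * b) = iO ^ n * i.1 * b := by ring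
  rw [e2, gO_mul hk hv hn]
  have e3 : gO q0 kap J (fun k => τ k + c2 k (iO ^ n * i.1)) b =
      gO q0 kap J (fun k => τ k + (c2 k i.1 + c2 q0 i.1 * aa k.1)) b := by
    refine gO_congr (fun k hkJ => ?_) b
    rw [c2_mul k (not_dvd_iO_pow k n) ((cop_qD.1 hi1).2 k hkJ), c2_iO_pow, hn2]
    ring
  rw [e3]
  by_cases ha : gO q0 kap J (fun k => τ k + (c2 k i.1 + c2 q0 i.1 * aa k.1)) b = 0
  · rw [ha, zero_smul, zero_smul]
  · congr 1
    rw [em_iO_pow, mul_div_assoc, rot_pow hneg (gO_ne ha).od (hi.imp (fun hi => by rw [hn2, hi]) id)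
      hwneg, hn2]

/-! ### The sums are affine functions of `τ` -/

/-- the functions with a distribution relation whose lower terms have trivial sums -/
structure PthD (q0 : Pg) (kap : 𝓞 K) (S : Finset Pg) (h w : ℂ → R) (g : Pg → ℂ → R)
    (c : Pg → ZMod 2) (c' : ZMod 2) : Prop where
  per : ∀ z l, l ∈ PP.lattice → h (z + l) = h z
  neg : ∀ z, Od z → h (-z) = h z
  wneg : ∀ z, Od z → w (-z) = w z
  i : ∀ r ∈ S, c2 q0 r.1 = 0 ∨ ∀ z, Od z → h (zt * z) = h z + w z
  dist : ∀ r ∈ S, ∀ z, Od (em r.1 * z) → SM r.1 (fun u => h (z + em u / em r.1)) =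
    h (em r.1 * z) + g r (em r.1 * z)
  low : ∀ r ∈ S, ∀ J ⊆ S, ∀ τ, HO q0 kap (g r) J τ = if J = ∅ then c r • (1 : R) else 0
  loww : ∀ J ⊆ S, ∀ τ, HO q0 kap w J τ = if J = ∅ then c' • (1 : R) else 0

variable {S : Finset Pg} {c : Pg → ZMod 2} {c' : ZMod 2}

/-- one coordinate -/
private theorem PthD.aff_one (H : PthD q0 kap S h w g c c') (h0 : aa q0.1 = 1)
    (hk : ∀ q : Pg, ¬ q.1 ∣ kap) (hq0 : q0 ∉ S) {J : Finset Pg} (hJS : J ⊆ S)
    (ih : ∀ J' ⊂ J, ∀ τ τ' : Pg → ZMod 2, HO q0 kap h J' τ' - HO q0 kap h J' τ =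
      (∑ r ∈ J', (τ' r - τ r) * Ham (nX s4 (fun q : Pg => aa q.1) q0)
        (fun q => c q + s4 q0 q * c') J' r) • (1 : R))
    {i : Pg} (hi : i ∈ J) {τ τ' : Pg → ZMod 2} (hτ : ∀ k ∈ J, k ≠ i → τ' k = τ k) :
    HO q0 kap h J τ' - HO q0 kap h J τ = ((τ' i - τ i) * Ham (nX s4 (fun q : Pg => aa q.1) q0)
      (fun q => c q + s4 q0 q * c') J i) • (1 : R) := by
  classical
  have hJ : insert i (J.erase i) = J := Finset.insert_erase hi
  have hiJ := Finset.notMem_erase i J
  have hiS := hJS hi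
  have hi0 : i ≠ q0 := fun e => hq0 (e ▸ hiS)
  have hS' : J.erase i ⊆ S := (Finset.erase_subset _ _).trans hJS
  have h1 := HO_diff (τ := τ) (τ' := τ') h0 hk H.per H.neg H.wneg hiJ hi0 (H.i i hiS) (H.dist i hiS)
    (fun k hk => hτ k (Finset.mem_of_mem_erase hk) (Finset.ne_of_mem_erase hk))
  rw [hJ, H.low i hiS _ hS', H.loww _ hS'] at h1
  rw [h1]
  by_cases he : J.erase i = ∅
  · have hJi : J = {i} := by
      rw [← hJ, he]
      rfl
    have h2 : HO q0 kap h (J.erase i) (fun k => τ k + (c2 k i.1 + c2 q0 i.1 * aa k.1)) =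
        HO q0 kap h (J.erase i) τ := HO_congr fun k hk => by
      rw [he] at hk
      exact absurd hk (Finset.notMem_empty k)
    have h3 : Ham (nX s4 (fun q : Pg => aa q.1) q0) (fun q => c q + s4 q0 q * c') J i =
        c i + s4 q0 i * c' := by rw [hJi, Ham_single]
    rw [h2, if_pos he, if_pos he, h3, mul_smul]
    congr 1
    rw [add_smul, mul_smul]
    have h4 := PthR_two (HO q0 kap h (J.erase i) τ)
    change HO q0 kap h (J.erase i) τ + c i • 1 + (HO q0 kap h (J.erase i) τ +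
      s4 q0 i • c' • 1) = _
    linear_combination h4
  · have hne : (J.erase i).Nonempty := Finset.nonempty_iff_ne_empty.2 he
    have h2 := ih _ (Finset.erase_ssubset hi) τ
      (fun k => τ k + (c2 k i.1 + c2 q0 i.1 * aa k.1))
    have h3 : HO q0 kap h (J.erase i) τ + 0 +
        (HO q0 kap h (J.erase i) (fun k => τ k + (c2 k i.1 + c2 q0 i.1 * aa k.1)) +
        c2 q0 i.1 • (0 : R)) = HO q0 kap h (J.erase i)
          (fun k => τ k + (c2 k i.1 + c2 q0 i.1 * aa k.1)) - HO q0 kap h (J.erase i) τ := by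
      rw [smul_zero]
      linear_combination PthR_two (HO q0 kap h (J.erase i) τ)
    rw [if_neg he, if_neg he, h3, h2, smul_smul, Ham_of _ _ hi hne]
    congr 1
    congr 1
    refine Finset.sum_congr rfl fun j hj => ?_
    have h4 : nX s4 (fun q : Pg => aa q.1) q0 i j = c2 j i.1 + c2 q0 i.1 * aa j.1 := by
      rw [nX, mX, s4_symm (Finset.ne_of_mem_erase hj).symm]
      change c2 j i.1 + aa j.1 * c2 q0 i.1 = _
      ring
    rw [h4, add_sub_cancel_left]

/-- **the sum is affine** -/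
theorem PthD.aff (H : PthD q0 kap S h w g c c') (h0 : aa q0.1 = 1)
    (hk : ∀ q : Pg, ¬ q.1 ∣ kap) (hq0 : q0 ∉ S) : ∀ J ⊆ S, ∀ τ τ' : Pg → ZMod 2,
    HO q0 kap h J τ' - HO q0 kap h J τ =
      (∑ r ∈ J, (τ' r - τ r) * Ham (nX s4 (fun q : Pg => aa q.1) q0)
        (fun q => c q + s4 q0 q * c') J r) • (1 : R) := by
  classical
  intro J
  induction J using Finset.strongInduction with
  | H J ih =>
    intro hJS τ τ'
    have key : ∀ U ⊆ J, HO q0 kap h J (fun k => if k ∈ U then τ' k else τ k) -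
        HO q0 kap h J τ = (∑ r ∈ U, (τ' r - τ r) * Ham (nX s4 (fun q : Pg => aa q.1) q0)
        (fun q => c q + s4 q0 q * c') J r) • (1 : R) := by
      intro U
      induction U using Finset.induction_on with
      | empty =>
        intro _
        simp
      | insert i U hi ihU =>
        intro hU
        have hiJ := hU (Finset.mem_insert_self i U)
        have h1 := ihU fun k hk => hU (Finset.mem_insert_of_mem hk)
        have h2 := H.aff_one (J := J) (τ := fun k => if k ∈ U then τ' k else τ k)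
          (τ' := fun k => if k ∈ insert i U then τ' k else τ k) h0 hk hq0 hJS
          (fun J' hJ' => ih J' hJ' (hJ'.1.trans hJS)) hiJ
          (fun k _ hk => by simp [Finset.mem_insert, hk])
        rw [Finset.sum_insert hi, add_smul, ← h1]
        have h3 : (if i ∈ insert i U then τ' i else τ i) - (if i ∈ U then τ' i else τ i) =
            τ' i - τ i := by
          rw [if_pos (Finset.mem_insert_self i U), if_neg hi]
        rw [h3] at h2
        rw [← h2]
        abel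
    have h4 := key J (Finset.Subset.refl J)
    rw [← h4]
    congr 1
    exact HO_congr fun k hk => (if_pos hk).symm

/-- **the path sum**: `f = h + h (lam z)` -/
theorem PthD.main (H : PthD q0 kap S h w g c c') (h0 : aa q0.1 = 1)
    (hk : ∀ q : Pg, ¬ q.1 ∣ kap) (hq0 : q0 ∉ S) (hl0 : c2 q0 lam = 0) {J : Finset Pg} (hJ : J ⊆ S)
    (τ : Pg → ZMod 2) :
    HO q0 kap h J τ + HO q0 kap (fun z => h (lm * z)) J τ =
      (∑ r ∈ J, c2 r lam * Ham (nX s4 (fun q : Pg => aa q.1) q0)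
        (fun q => c q + s4 q0 q * c') J r) • (1 : R) := by
  have hu : IsCoprime lam (q0.1 * DDq J) := by
    have := (in4_cop_lam (qD_in4 q0 J) 1).symm
    rwa [pow_one] at this
  have h1 := HO_subst h0 hk H.per hu H.neg (Or.inl hl0) τ
  rw [em_lam] at h1
  rw [h1]
  have h2 := H.aff h0 hk hq0 J hJ τ fun k => τ k + (c2 k lam + c2 q0 lam * aa k.1)
  have h3 : (∑ r ∈ J, (τ r + (c2 r lam + c2 q0 lam * aa r.1) - τ r) *
      Ham (nX s4 (fun q : Pg => aa q.1) q0) (fun q => c q + s4 q0 q * c') J r) =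
      ∑ r ∈ J, c2 r lam * Ham (nX s4 (fun q : Pg => aa q.1) q0) (fun q => c q + s4 q0 q * c') J r := by
    refine Finset.sum_congr rfl fun r _ => ?_
    rw [hl0, zero_mul, add_zero, add_sub_cancel_left]
  rw [h3] at h2
  rw [← h2]
  linear_combination PthR_two (HO q0 kap h J τ)

/-! ### The constant function -/

theorem SM_invol {M : 𝓞 K} (hM : M ≠ 0) {F : 𝓞 K → R} (hF : Pd M F) {u : 𝓞 K} (hu : M ∣ u * u - 1)
    (hFu : ∀ x, F (u * x) = F x) (hF0 : ∀ x, M ∣ u * x - x → F x = 0) : SM M F = 0 := by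
  classical
  obtain ⟨ι, _, a, ha, h1⟩ := SM_def (R := R) hM
  rw [h1]
  choose sg hsg using fun i => ha.ex (u * a i)
  have h2 : ∀ i, F (a (sg i)) = F (a i) := fun i => by
    rw [← hF _ _ (hsg i), hFu]
  refine Finset.sum_involution (fun i _ => sg i) ?_ ?_ (fun i _ => Finset.mem_univ _) ?_
  · intro i _
    rw [h2]
    exact PthR_two _
  · intro i _ hi h3
    refine hi (hF0 _ ?_)
    have h4 := hsg i
    rwa [h3] at h4
  · intro i _
    refine (ha.inj _ _ ?_).symm
    have h4 := hsg (sg i)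
    have h5 : M ∣ u * (u * a i - a (sg i)) := (hsg i).mul_left u
    have h6 : M ∣ (u * u - 1) * a i := hu.mul_right _
    have e : a i - a (sg (sg i)) = (u * (u * a i - a (sg i))) + (u * a (sg i) - a (sg (sg i))) -
        (u * u - 1) * a i := by ring
    rw [e]
    exact dvd_sub (dvd_add h5 h4) h6

theorem HO_one_ne (hk : ∀ q : Pg, ¬ q.1 ∣ kap) (hq0 : q0 ∉ J) (hJ : J.Nonempty) (τ : Pg → ZMod 2) :
    HO q0 kap (fun _ => (1 : R)) J τ = 0 := by
  classical
  obtain ⟨r, hr⟩ := hJ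
  have hM := qD_ne q0 J
  have hr0 : q0 ≠ r := fun e => hq0 (e ▸ hr)
  obtain ⟨u, hu1, hu2, hu3⟩ := exists_unit4 (insert q0 J) r (-1)
  have hnd : ∀ q ∈ insert q0 J, ¬ q.1 ∣ u := by
    intro q hq h
    by_cases hqr : q = r
    · rw [hqr] at h
      have h3 := dvd_sub h hu3
      rw [show u - (u - -1) = (-1 : 𝓞 K) by ring] at h3
      exact r.prime.not_isUnit (isUnit_of_dvd_unit h3 isUnit_one.neg)
    · have h3 := dvd_sub h (hu2 q hq hqr)
      rw [sub_sub_cancel] at h3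
      exact q.prime.not_isUnit (isUnit_of_dvd_one h3)
  have hv : IsCoprime u (q0.1 * DDq J) := cop_qD.2 ⟨hnd q0 (Finset.mem_insert_self _ _), fun q hq =>
    hnd q (Finset.mem_insert_of_mem hq)⟩
  have hv0 : c4 q0 u = 0 := by
    rw [c4_congr q0 (hnd q0 (Finset.mem_insert_self _ _)) (hu2 q0 (Finset.mem_insert_self _ _) hr0),
      c4_one]
  have hv2 : ∀ q ∈ J, c2 q u = 0 := by
    intro q hq
    by_cases hqr : q = r
    · rw [hqr, c2_congr r (by rw [← hqr]; exact hnd q (Finset.mem_insert_of_mem hq)) hu3, c2_negone]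
    · rw [c2_congr q (hnd q (Finset.mem_insert_of_mem hq)) (hu2 q (Finset.mem_insert_of_mem hq) hqr),
        c2_one]
  have hdvd : q0.1 * DDq J ∣ u * u - 1 := by
    have e0 : q0.1 * DDq J = DDq (insert q0 J) := (DDq_insert hq0).symm
    rw [e0]
    refine Finset.prod_dvd_of_coprime (fun p _ q _ hpq => Pg.cop hpq) fun q hq => ?_
    have e : u * u - 1 = (u - 1) * (u + 1) := by ring
    rw [e]
    by_cases hqr : q = r
    · rw [hqr]
      rw [sub_neg_eq_add] at hu3
      exact hu3.mul_left _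
    · exact (hu2 q hq hqr).mul_right _
  rw [HO]
  refine SM_invol hM ?_ hdvd ?_ ?_
  · intro a b hab
    change gO q0 kap J τ a • (1 : R) = gO q0 kap J τ b • (1 : R)
    rw [gO_pd hk J τ a b hab]
  · intro x
    rw [gO_mul hk hv hv0]
    congr 1
    exact gO_congr (fun k hk => by rw [hv2 k hk, add_zero]) x
  · intro x hx
    by_contra h1
    have h2 : gO q0 kap J τ x ≠ 0 := fun h3 => h1 (by rw [h3, zero_smul])
    have h3 := (gO_ne h2).nd hr
    have h4 : r.1 ∣ (u - 1) * x := by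
      have h5 := (dvd_M (q0 := q0) hr).trans hx
      rwa [show u * x - x = (u - 1) * x by ring] at h5
    rcases r.prime.dvd_or_dvd h4 with h6 | h6
    · have h7 := dvd_sub hu3 h6
      rw [show u - -1 - (u - 1) = 2 * (1 : 𝓞 K) by ring, mul_one] at h7
      have h8 : r.1 ∣ lam ^ 2 := h7.trans ⟨iO, by
        have h2 := lam_sq
        linear_combination h2⟩
      exact lam_not_dvd r (r.prime.dvd_of_dvd_pow h8)
    · exact h3 h6

/-- the sums and the homomorphisms -/
theorem SM_map {A A' : Type*} [AddCommMonoid A] [AddCommMonoid A'] {M : 𝓞 K} (hM : M ≠ 0)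
    (φ : A →+ A') (F : 𝓞 K → A) : φ (SM M F) = SM M fun x => φ (F x) := by
  have hfin := SM_finite hM
  let _ : Fintype (𝓞 K ⧸ Ideal.span {M}) := Fintype.ofFinite _
  rw [SM, SM, finsum_eq_sum_of_fintype, finsum_eq_sum_of_fintype, map_sum]

variable (R) in
theorem HO_one_empty (h0 : aa q0.1 = 1) (hk : ∀ q : Pg, ¬ q.1 ∣ kap) (τ : Pg → ZMod 2) :
    HO q0 kap (fun _ => (1 : R)) ∅ τ = 1 := by
  classical
  have hM := qD_ne q0 ∅
  obtain ⟨n, hn, hn1, -⟩ := n0_nat (kap := kap) h0 hk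
  set F : 𝓞 K → ℕ := fun y => if OmX q0 kap ∅ y then 1 else 0 with hF
  have h1 : n0 q0 kap = ((SM (q0.1 * DDq ∅) F : ℕ) : ℂ) := by
    have h2 := SM_map hM (Nat.castAddMonoidHom ℂ) F
    change ((SM (q0.1 * DDq ∅) F : ℕ) : ℂ) = _ at h2
    rw [h2]
    unfold n0 SO
    refine SM_congr fun y => ?_
    by_cases hy : OmX q0 kap ∅ y
    · simp [hF, hy]
    · simp [hF, hy]
  have h3 : SM (q0.1 * DDq ∅) F = n := by
    rw [hn1] at h1
    exact_mod_cast h1.symm
  have h4 := SM_map hM (Nat.castAddMonoidHom (ZMod 2)) F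
  rw [h3] at h4
  have h5 : ((n : ℕ) : ZMod 2) = 1 := (ZMod.natCast_eq_one_iff_odd).2 hn
  have h6 : SM (q0.1 * DDq ∅) (gO q0 kap ∅ τ) = 1 := by
    change ((n : ℕ) : ZMod 2) = _ at h4
    rw [h5] at h4
    rw [h4]
    refine SM_congr fun y => ?_
    by_cases hy : OmX q0 kap ∅ y
    · rw [gO_pos hy, Finset.prod_empty]
      simp [hF, hy]
    · rw [gO_neg hy]
      simp [hF, hy]
  rw [HO, SM_smul' hM, h6, one_smul]

theorem HO_one (h0 : aa q0.1 = 1) (hk : ∀ q : Pg, ¬ q.1 ∣ kap) (hq0 : q0 ∉ J) (τ : Pg → ZMod 2) :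
    HO q0 kap (fun _ => (1 : R)) J τ = if J = ∅ then 1 else 0 := by
  by_cases hJ : J = ∅
  · rw [if_pos hJ, hJ, HO_one_empty R h0 hk]
  · rw [if_neg hJ, HO_one_ne hk hq0 (Finset.nonempty_iff_ne_empty.2 hJ)]

theorem HO_const (h0 : aa q0.1 = 1) (hk : ∀ q : Pg, ¬ q.1 ∣ kap) (hq0 : q0 ∉ J) (τ : Pg → ZMod 2)
    (c : ZMod 2) :
    HO q0 kap (fun _ => c • (1 : R)) J τ = if J = ∅ then c • (1 : R) else 0 := by
  rw [HO_smul, HO_one h0 hk hq0]
  split_ifs
  · rfl
  · rw [smul_zero]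

end

end Pool.Agent.Lib.MP_1a91b9_ntQ
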