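import Pool.Agent.Lib.MP_1a91b9_ntQ.A.Rhs2
import Pool.Agent.Lib.MP_1a91b9_ntQ.B.PthZ

/-!
# Quartic twists, part B, file PthW: the first order part of the sums of `xi (lam ^ n z) + xi (lam ^ (n + 2) z)`

The weights `wtB` are the exact ones: a substitution `z ↦ lam ^ 2 z` changes them in first order.
-/

set_option autoImplicit false

namespace Pool.Agent.Lib.MP_1a91b9_ntQ

open NumberField IsDedekindDomain Pool.Agent.Lib.MP_1a91b9_nuT Pool.Agent.Lib.MP_1a91b9_nuT.S3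
  Pool.Agent.Lib.MP_1a91b9_nuT.Ell

noncomputable section

variable {B : ValuationSubring ℂ} {q0 : Pg} {kap : 𝓞 K} {J : Finset Pg} {ex : Pg → ZMod 4}

/-! ### Differences of products -/

theorem Rt_prod_diff (hB : (2 : ℂ)⁻¹ ∉ B) {ι : Type*} [DecidableEq ι] (S : Finset ι) {A A' : ι → ℂ}
    {α μ : ι → ZMod 2} (h : ∀ q ∈ S, Rt B (A q) (α q)) (h' : ∀ q ∈ S, Rt B (A' q) (α q))
    (h2 : ∀ q ∈ S, Rt B ((A q - A' q) / lm) (μ q)) :
    Rt B ((∏ q ∈ S, A q - ∏ q ∈ S, A' q) / lm) (∑ q ∈ S, μ q * ∏ x ∈ S.erase q, α x) := by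
  induction S using Finset.induction_on with
  | empty =>
    rw [Finset.prod_empty, Finset.prod_empty, sub_self, zero_div, Finset.sum_empty]
    exact Rt.zero
  | insert a S ha ih =>
    have h3 := ih (fun q hq => h q (Finset.mem_insert_of_mem hq))
      (fun q hq => h' q (Finset.mem_insert_of_mem hq)) fun q hq => h2 q (Finset.mem_insert_of_mem hq)
    have h4 := h2 a (Finset.mem_insert_self a S)
    have h5 := h' a (Finset.mem_insert_self a S)
    have h6 := Rt.prod hB S fun q hq => h q (Finset.mem_insert_of_mem hq)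
    rw [Finset.prod_insert ha, Finset.prod_insert ha, Finset.sum_insert ha, Finset.erase_insert ha]
    have e1 : (A a * ∏ q ∈ S, A q - A' a * ∏ q ∈ S, A' q) / lm =
        (A a - A' a) / lm * ∏ q ∈ S, A q + A' a * ((∏ q ∈ S, A q - ∏ q ∈ S, A' q) / lm) := by ring
    have e2 : ∑ q ∈ S, μ q * ∏ x ∈ (insert a S).erase q, α x =
        α a * ∑ q ∈ S, μ q * ∏ x ∈ S.erase q, α x := by
      rw [Finset.mul_sum]
      refine Finset.sum_congr rfl fun q hq => ?_
      have hne : a ≠ q := fun e => ha (e ▸ hq)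
      rw [Finset.erase_insert_of_ne hne, Finset.prod_insert fun h => ha (Finset.mem_of_mem_erase h)]
      ring
    rw [e1, e2]
    exact (h4.mul hB h6).add hB (h5.mul hB h3)

/-- the change of one weight -/
theorem Rt_mq_diff (hB : (2 : ℂ)⁻¹ ∉ B) {e : ZMod 4} (t l : ZMod 4) :
    Rt B (((1 - e4 (e * t)) / lm ^ mq e - (1 - e4 (e * (t + 2 * l))) / lm ^ mq e) / lm)
      (md e * md l) := by
  have hlm := lm_ne
  by_cases h : md e = 0
  · have h1 : e * (t + 2 * l) = e * t := by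
      have key : ∀ e t l : ZMod 4, md e = 0 → e * (t + 2 * l) = e * t := by decide
      exact key e t l h
    rw [h1, sub_self, zero_div, h, zero_mul]
    exact Rt.zero
  · have he : md e = 1 := by
      have key : ∀ x : ZMod 2, x ≠ 0 → x = 1 := by decide
      exact key _ h
    rw [mq_odd h, pow_one, he, one_mul]
    have h1 : e * (t + 2 * l) = e * t + 2 * l := by
      have key : ∀ e t l : ZMod 4, md e = 1 → e * (t + 2 * l) = e * t + 2 * l := by decide
      exact key e t l he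
    rw [h1, e4_add]
    have h2 : ∀ l : ZMod 4, (2 * l = 0 ∧ md l = 0) ∨ (2 * l = 2 ∧ md l = 1) := by decide
    rcases h2 l with ⟨h3, h4⟩ | ⟨h3, h4⟩
    · rw [h3, h4, e4_zero, mul_one, sub_self, zero_div]
      exact Rt.zero
    · rw [h3, h4, e4_two]
      have e1 : ((1 - e4 (e * t)) / lm - (1 - e4 (e * t) * -1) / lm) / lm =
          e4 (e * t) * (-(1 - -1) / lm ^ 2) := by
        field_simp
        ring
      have e2 : -(1 - -1) / lm ^ 2 = zt := by
        rw [neg_div, two_div_lm_sq, neg_neg]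
      rw [e1, e2]
      have h5 := (Rt_e4_one hB (e * t)).mul hB (Rt_zt_one hB)
      rwa [one_mul] at h5

/-- the change of the weights under the substitution `lam ^ 2` -/
theorem Rt_wtB_diff (hB : (2 : ℂ)⁻¹ ∉ B) (he : ∀ q ∈ J, ex q ≠ 0) {x : 𝓞 K}
    (hx : ∀ q ∈ J, ¬ q.1 ∣ x) :
    Rt B ((wtB ex J x - wtB ex J (lam ^ 2 * x)) / lm)
      (∑ q ∈ J, md (ex q) * bb q.1 * ∏ p ∈ J.erase q, c2 p x) := by
  classical
  have hl : ∀ q : Pg, ¬ q.1 ∣ lam ^ 2 := fun q h => lam_not_dvd q (q.prime.dvd_of_dvd_pow h)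
  have hx2 : ∀ q ∈ J, ¬ q.1 ∣ lam ^ 2 * x := fun q hq => not_dvd_mul (hl q) (hx q hq)
  have hc : ∀ q ∈ J, c4 q (lam ^ 2 * x) = c4 q x + 2 * c4 q lam := by
    intro q hq
    rw [c4_mul q (hl q) (hx q hq), c4_pow q (lam_not_dvd q)]
    push_cast
    ring
  rw [wtB_eq, wtB_eq]
  refine Rt_prod_diff hB J (fun q hq => ?_) (fun q hq => ?_) fun q hq => ?_
  · rw [chE_of_not ex (hx q hq)]
    exact Rt_mq hB (he q hq) _
  · rw [chE_of_not ex (hx2 q hq)]
    have h1 := Rt_mq hB (he q hq) (c4 q (lam ^ 2 * x))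
    have h2 : md (c4 q (lam ^ 2 * x)) = md (c4 q x) := by
      rw [hc q hq]
      have key : ∀ a b : ZMod 4, md (a + 2 * b) = md a := by decide
      exact key _ _
    rw [h2] at h1
    exact h1
  · rw [chE_of_not ex (hx q hq), chE_of_not ex (hx2 q hq), hc q hq]
    have h1 := Rt_mq_diff (e := ex q) hB (c4 q x) (c4 q lam)
    have h2 : md (c4 q lam) = bb q.1 := c2_lam q
    rwa [h2] at h1

/-! ### Sums with other weights -/

open Classical in
/-- the residue of a sum with weights of given class -/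
theorem rsd_SO' (hB : (2 : ℂ)⁻¹ ∉ B) {f : ℂ → ℂ} (hf : ∀ z, Od z → f z ∈ B)
    {W : 𝓞 K → ℂ} {ω : 𝓞 K → ZMod 2} (hW : ∀ y, OmX q0 kap J y → Rt B (W y) (ω y)) :
    letI := rsdAlg hB
    SO q0 kap J (fun y => W y * f (em y / em (q0.1 * DDq J))) ∈ B ∧
      rsd B (SO q0 kap J (fun y => W y * f (em y / em (q0.1 * DDq J)))) =
        SM (q0.1 * DDq J) (fun y => (if OmX q0 kap J y then ω y else 0) •
          rsd B (f (em y / em (q0.1 * DDq J)))) := by
  let i1 := rsdAlg hB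
  have hM := qD_ne q0 J
  have h1 : ∀ y, (if OmX q0 kap J y then W y * f (em y / em (q0.1 * DDq J)) else 0) ∈ B := by
    intro y
    by_cases hy : OmX q0 kap J y
    · rw [if_pos hy]
      exact Subring.mul_mem _ ((rt_iff hB).1 (hW y hy)).1 (hf _ hy.od)
    · rw [if_neg hy]
      exact zero_mem B
  obtain ⟨h2, h3⟩ := rsd_SM hM h1
  refine ⟨h2, h3.trans ?_⟩
  refine SM_congr fun y => ?_
  by_cases hy : OmX q0 kap J y
  · rw [if_pos hy, if_pos hy, rsd_mul ((rt_iff hB).1 (hW y hy)).1 (hf _ hy.od),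
      ((rt_iff hB).1 (hW y hy)).2, Algebra.smul_def]
  · rw [if_neg hy, if_neg hy, zero_smul, rsd_zero]

/-- the weight without one prime -/
theorem gO_single {q : Pg} (hq : q ∈ J) {a : 𝓞 K} (h : OmX q0 kap J a) :
    gO q0 kap J (fun k => if k = q then 1 else 0) a - gO q0 kap J (fun _ => 0) a =
      ∏ x ∈ J.erase q, c2 x (kap * a) := by
  classical
  rw [gO_pos h, gO_pos h, ← Finset.mul_prod_erase J _ hq, ← Finset.mul_prod_erase J _ hq, if_pos rfl]
  have e1 : ∏ x ∈ J.erase q, (c2 x (kap * a) + if x = q then 1 else 0) =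
      ∏ x ∈ J.erase q, c2 x (kap * a) :=
    Finset.prod_congr rfl fun x hx => by rw [if_neg (Finset.ne_of_mem_erase hx), add_zero]
  have e2 : ∏ x ∈ J.erase q, (c2 x (kap * a) + 0) = ∏ x ∈ J.erase q, c2 x (kap * a) :=
    Finset.prod_congr rfl fun x _ => add_zero _
  rw [e1, e2]
  ring

/-- the sums of `xi (lam ^ n z)` are affine -/
theorem HO_xi_aff {R : Type*} [CommRing R] [Algebra (ZMod 2) R] {ξ : ℂ → R} (hX : XiR4 ξ)
    (h0 : aa q0.1 = 1) (hk : ∀ q : Pg, ¬ q.1 ∣ kap) (hq0 : q0 ∉ J) (hl0 : c2 q0 lam = 0)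
    (n : ℕ) (τ τ' : Pg → ZMod 2) :
    HO q0 kap (fun z => ξ (lm ^ n * z)) J τ' - HO q0 kap (fun z => ξ (lm ^ n * z)) J τ =
      (∑ r ∈ J, (τ' r - τ r) * Ham (mOz q0) (s4 q0) J r) • (1 : R) := by
  have H := PthD_xi (S := J) (kap := kap) hX h0 hk hq0
  have h1 := HO_subst (J := J) (u := lam ^ n) (h := ξ) h0 hk H.per (cop_lam_pow q0 J n) H.neg
    (Or.inl (c2_lam_pow hl0 n))
  rw [em_pow, em_lam] at h1
  rw [h1, h1, H.aff h0 hk hq0 J subset_rfl]
  congr 1
  refine Finset.sum_congr rfl fun r hr => ?_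
  rw [Ham_congr hr (fun _ _ _ _ _ => rfl) (f' := s4 q0) fun q _ => by rw [zero_add, mul_one],
    add_sub_add_right_eq_sub]

/-- **the first order part** -/
theorem Rt_GX_first (hB : (2 : ℂ)⁻¹ ∉ B) (h0 : aa q0.1 = 1) (hk : ∀ q : Pg, ¬ q.1 ∣ kap)
    (hq0 : q0 ∉ J) (hl0 : bb q0.1 = 0) (he : ∀ q ∈ J, ex q ≠ 0) (n : ℕ) :
    Rt B (GX q0 kap (wtB ex J) (fun z => xi (lm ^ n * z) + xi (lm ^ (n + 2) * z)) J / lm)
      (∑ r ∈ J, md (ex r) * bb r.1 * Ham (mOz q0) (s4 q0) J r) := by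
  classical
  let i1 := rsdAlg hB
  have hX := xiR4 hB
  have hM := qD_ne q0 J
  have hlm := lm_ne
  have hc0 : c2 q0 lam = 0 := by rw [c2_lam, hl0]
  have hu : IsCoprime (lam ^ 2) (q0.1 * DDq J) := cop_lam_pow q0 J 2
  have hu0 : c4 q0 (lam ^ 2) = 0 := by
    rw [c4_pow q0 (lam_not_dvd q0)]
    unfold c2 at hc0
    have key : ∀ t : ZMod 4, md t = 0 → ((2 : ℕ) : ZMod 4) * t = 0 := by decide
    exact key _ hc0
  have hper : ∀ z l, l ∈ PP.lattice → xi (z + l) = xi z := fun z l hl =>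
    xi_congr (by rwa [add_sub_cancel_left])
  set F : 𝓞 K → ℂ := fun y => wtB ex J (kap * y) with hF
  set P : 𝓞 K → ℂ := fun y => em y / em (q0.1 * DDq J) with hP
  have hPu : ∀ y, P (lam ^ 2 * y) = lm ^ 2 * P y := by
    intro y
    rw [hP]
    change em (lam ^ 2 * y) / _ = _
    rw [em_mul, em_pow, em_lam]
    ring
  have h1 := SO_mul (q0 := q0) (kap := kap) (J := J) hk hu hu0
    (F := fun y => F y * xi (lm ^ n * P y)) (fun x y h _ => by
      have h6 : F x = F y := wtB_per h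
      obtain ⟨l, hl, e⟩ := em_divM_per hM h
      have h5 : xi (lm ^ n * P x) = xi (lm ^ n * P y) := by
        have e5 : P x = P y + l := e
        rw [e5, mul_add, hper _ _ (lm_pow_mem hl n)]
      change F x * xi (lm ^ n * P x) = F y * xi (lm ^ n * P y)
      rw [h5, h6])
  have e1 : GX q0 kap (wtB ex J) (fun z => xi (lm ^ n * z) + xi (lm ^ (n + 2) * z)) J / lm =
      2 / lm * SO q0 kap J (fun y => F y * xi (lm ^ n * P y)) +
      SO q0 kap J (fun y => (F y - F (lam ^ 2 * y)) / lm * xi (lm ^ (n + 2) * P y)) := by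
    have e2 : GX q0 kap (wtB ex J) (fun z => xi (lm ^ n * z) + xi (lm ^ (n + 2) * z)) J =
        SO q0 kap J (fun y => F y * xi (lm ^ n * P y)) +
        SO q0 kap J (fun y => F y * xi (lm ^ (n + 2) * P y)) := by
      rw [GX_SO, ← SO_add]
      exact SO_congr fun y _ => mul_add _ _ _
    have e3 : SO q0 kap J (fun y => F (lam ^ 2 * y) * xi (lm ^ (n + 2) * P y)) =
        SO q0 kap J (fun y => F y * xi (lm ^ n * P y)) := by
      rw [← h1]
      refine SO_congr fun y _ => ?_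
      have e5 : lm ^ n * P (lam ^ 2 * y) = lm ^ (n + 2) * P y := by
        rw [hPu]
        ring
      rw [e5]
    have e4 : SO q0 kap J (fun y => (F y - F (lam ^ 2 * y)) / lm * xi (lm ^ (n + 2) * P y)) =
        lm⁻¹ * (SO q0 kap J (fun y => F y * xi (lm ^ (n + 2) * P y)) -
          SO q0 kap J (fun y => F (lam ^ 2 * y) * xi (lm ^ (n + 2) * P y))) := by
      rw [← SO_sub, ← SO_smul]
      exact SO_congr fun y _ => by ring
    rw [e2, e4, e3]
    field_simp
    ring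
  have h2 : B.valuation (2 / lm * SO q0 kap J (fun y => F y * xi (lm ^ n * P y))) < 1 := by
    have h3 : B.valuation (SO q0 kap J (fun y => F y * xi (lm ^ n * P y))) ≤ 1 :=
      v_SO_le fun y hy => by
        rw [map_mul]
        exact mul_le_one' (hy.v_wtB hB hk he) (xi_le hB (hy.od.pow n))
    rw [map_mul]
    refine mul_lt_one_of_lt_of_le ?_ h3
    have h4 : (2 : ℂ) / lm = -zt * lm := by
      rw [div_eq_iff hlm, lm]
      linear_combination (2 + zt) * zt_sq
    rw [h4, map_mul, Valuation.map_neg, v_zt, one_mul]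
    exact v_lm_lt hB
  have h3 : Rt B (SO q0 kap J (fun y => (F y - F (lam ^ 2 * y)) / lm * xi (lm ^ (n + 2) * P y)))
      (∑ r ∈ J, md (ex r) * bb r.1 * Ham (mOz q0) (s4 q0) J r) := by
    have hf : ∀ z, Od z → xi (lm ^ (n + 2) * z) ∈ B := fun z hz => xi_mem hB (hz.pow _)
    have hW : ∀ y, OmX q0 kap J y → Rt B ((F y - F (lam ^ 2 * y)) / lm)
        (∑ q ∈ J, md (ex q) * bb q.1 * ∏ p ∈ J.erase q, c2 p (kap * y)) := by
      intro y hy
      have h4 := Rt_wtB_diff (ex := ex) hB he (x := kap * y) fun q hq => hy.ndk hk hq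
      have e5 : lam ^ 2 * (kap * y) = kap * (lam ^ 2 * y) := by ring
      rwa [e5] at h4
    obtain ⟨h4, h5⟩ := rsd_SO' hB (f := fun z => xi (lm ^ (n + 2) * z)) hf hW
    rw [rt_iff hB]
    refine ⟨h4, h5.trans ?_⟩
    have e6 : ∀ y : 𝓞 K, (if OmX q0 kap J y then
        (∑ q ∈ J, md (ex q) * bb q.1 * ∏ p ∈ J.erase q, c2 p (kap * y)) else 0) •
        rsd B (xi (lm ^ (n + 2) * (em y / em (q0.1 * DDq J)))) =
        ∑ q ∈ J, (md (ex q) * bb q.1) • (gO q0 kap J (fun k => if k = q then 1 else 0) y •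
          rsd B (xi (lm ^ (n + 2) * (em y / em (q0.1 * DDq J)))) -
          gO q0 kap J (fun _ => 0) y • rsd B (xi (lm ^ (n + 2) * (em y / em (q0.1 * DDq J))))) := by
      intro y
      by_cases hy : OmX q0 kap J y
      · rw [if_pos hy, Finset.sum_smul]
        refine Finset.sum_congr rfl fun q hq => ?_
        rw [← sub_smul, gO_single hq hy, smul_smul]
      · rw [if_neg hy, zero_smul]
        symm
        refine Finset.sum_eq_zero fun q _ => ?_
        rw [gO_neg hy, gO_neg hy, sub_self, smul_zero]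
    rw [SM_congr e6, SM_fsum hM, Algebra.algebraMap_eq_smul_one, Finset.sum_smul]
    refine Finset.sum_congr rfl fun q hq => ?_
    have h6 := HO_xi_aff (R := IsLocalRing.ResidueField B) hX h0 hk hq0 hc0 (n + 2) (fun _ => 0)
      fun k => if k = q then 1 else 0
    have e7 : (∑ r ∈ J, ((if r = q then (1 : ZMod 2) else 0) - 0) *
        Ham (mOz q0) (s4 q0) J r) = Ham (mOz q0) (s4 q0) J q := by
      rw [Finset.sum_eq_single q (fun r _ hr => by rw [if_neg hr, sub_zero, zero_mul])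
        (fun h => absurd hq h), if_pos rfl, sub_zero, one_mul]
    rw [e7] at h6
    rw [SM_smul hM, SM_sub hM, mul_smul (md (ex q) * bb q.1), ← h6]
    rfl
  rw [e1]
  exact h3.congr (by rwa [add_sub_cancel_right])

/-- the first order part vanishes if the symbols at `q0` are trivial -/
theorem v_GX_first (hB : (2 : ℂ)⁻¹ ∉ B) (h0 : aa q0.1 = 1) (hk : ∀ q : Pg, ¬ q.1 ∣ kap)
    (hq0 : q0 ∉ J) (hl0 : bb q0.1 = 0) (hs : ∀ q ∈ J, s4 q0 q = 0) (he : ∀ q ∈ J, ex q ≠ 0)
    (n : ℕ) :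
    B.valuation (GX q0 kap (wtB ex J) (fun z => xi (lm ^ n * z) + xi (lm ^ (n + 2) * z)) J) <
      B.valuation lm := by
  have h1 := Rt_GX_first (ex := ex) hB h0 hk hq0 hl0 he n
  have h2 : (∑ r ∈ J, md (ex r) * bb r.1 * Ham (mOz q0) (s4 q0) J r) = 0 := by
    refine Finset.sum_eq_zero fun r hr => ?_
    rw [Ham_congr hr (fun _ _ _ _ _ => rfl) (f' := fun _ => 0) hs, Ham_zero, mul_zero]
  rw [h2] at h1
  have h3 := h1.lt
  rw [map_div₀] at h3
  have h4 : B.valuation lm ≠ 0 := (Valuation.ne_zero_iff _).2 lm_ne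
  have h5 := mul_lt_mul_of_pos_right h3 (zero_lt_iff.2 h4)
  rwa [div_mul_cancel₀ _ h4, one_mul] at h5

end

end Pool.Agent.Lib.MP_1a91b9_ntQ
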