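import Pool.Agent.Lib.MP_1a91b9_ntQ.B.TorsB

/-!
# MP_1a91b9_nt (quartic twists), part B: the points for all the fourth-power-free `D`

`ptB`: the C side from the condition at `lam` (`LamP`).
-/

set_option autoImplicit false
set_option linter.unusedSectionVars false

namespace Pool.Agent.Lib.MP_1a91b9_ntQ.C

open NumberField Finset Pool.Agent.Lib.MP_1a91b9_ntQ

noncomputable section

/-- **The points.** -/
theorem ptB (HL : LamP) : PtB := by
  intro k j S T B hd _ hG hE W hW
  rw [← dC_eq] at hE hW ⊢
  exact main4B_K (dC_ne k j S T B) (FFr_dC hd) (selB HL hd hG) (fun h => hE (Or.inl h))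
    (fun h => hE (Or.inr h)) hW

end

end Pool.Agent.Lib.MP_1a91b9_ntQ.C
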