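import Pool.Agent.Lib.MP_1a91b9_ntQ.A.RhsEW
import Pool.Agent.Lib.MP_1a91b9_ntQ.A.SyI
import Pool.Agent.Lib.MP_1a91b9_ntQ.A.LaE0
import Pool.Agent.Lib.MP_1a91b9_ntQ.A.LaE0S
import Pool.Agent.Lib.MP_1a91b9_ntQ.B.AvgB
import Pool.Agent.Lib.MP_1a91b9_ntQ.B.WtB

/-!
# Quartic twists, all fourth-power-free `D`, class (E), file RhsEB: the residue of the right side

`T` carries the odd exponents, `C` the exponents two.
-/

set_option autoImplicit false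

namespace Pool.Agent.Lib.MP_1a91b9_ntQ

open NumberField Pool.Agent.Lib.MP_1a91b9_nuT Pool.Agent.Lib.MP_1a91b9_nuT.S3
  Pool.Agent.Lib.MP_1a91b9_nuT.Ell

noncomputable section

variable {B : ValuationSubring ℂ}

/-- the normalising constant -/
def KE : ℂ := Om * (lm ^ 5 * kq)

theorem mB_unionE {e : Pg → ZMod 4} {T C : Finset Pg} (hd : Disjoint T C)
    (hT : ∀ q ∈ T, md (e q) ≠ 0) (hC : ∀ q ∈ C, e q = 2) :
    mB e (T ∪ C) = T.card + 2 * C.card := by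
  rw [mB_eq, Finset.sum_union hd]
  congr 1
  · rw [Finset.card_eq_sum_ones]
    exact Finset.sum_congr rfl fun q hq => mq_odd (hT q hq)
  · rw [Finset.card_eq_sum_ones, Finset.mul_sum]
    exact Finset.sum_congr rfl fun q hq => mq_two (by rw [hC q hq, md_two])

/-- **(R)** with exponents -/
theorem rhsEB (hB : (2 : ℂ)⁻¹ ∉ B) (k : ZMod 4) {e : Pg → ZMod 4} {T C : Finset Pg}
    (hd : Disjoint T C) (hT : ∀ q ∈ T, md (e q) ≠ 0) (hC : ∀ q ∈ C, e q = 2)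
    (hS : (T ∪ C).Nonempty) :
    Rt B (idB lm KE (LaS k 1 e) (fun b => em b.1) (xB k 1 e) s4 0 T C)
      ((md k + 1) * (if (T ∪ C).card = 1 then ∑ q ∈ T ∪ C, aa q.1 else 0) + betaE (T ∪ C)) := by
  obtain ⟨S, rfl⟩ : ∃ S, S = T ∪ C := ⟨_, rfl⟩
  obtain ⟨ι, hι, y, sg, hy0, h1, h2, hy, hod, -⟩ := exists_repsB hS
  have hc := reps_yB k 1 hy0
  have hf : fB k 1 = lam ^ 7 := fB_odd k one_ne_zero (by norm_num)
  rw [hf] at hc
  have he : ∀ q ∈ T ∪ C, e q ≠ 0 := by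
    intro q hq h0
    rcases Finset.mem_union.1 hq with h | h
    · exact hT q h (by rw [h0, map_zero])
    · rw [hC q h] at h0
      exact absurd h0 (by decide)
  have ndc : ∀ i, ∀ q ∈ T ∪ C, ¬ q.1 ∣ DDq (T ∪ C) + lam ^ 7 * y i := fun i q hq =>
    reps_not_dvd hc i hq
  have main := rhsE_W hB k hS hc (fun _ => rfl) h1 h2 hy hod
    (W := fun i => wtB e (T ∪ C) (DDq (T ∪ C) + lam ^ 7 * y i))
    (fun i => Rt_wtB hB he (ndc i))
    (fun i => by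
      obtain ⟨t, ht⟩ := hy i
      refine v_wtB_sub hB he (ndc i) ⟨2 + lam ^ 7 * t, ?_⟩
      linear_combination lam ^ 7 * ht)
    (by
      have e1 : ∑ i, wtB e (T ∪ C) (DDq (T ∪ C) + lam ^ 7 * y i) =
          ∏ q ∈ T ∪ C, (((Nz q.1 : ℂ) - 1) / lm ^ mq (e q)) := by
        have e2 : ∑ i, wtB e (T ∪ C) (DDq (T ∪ C) + lam ^ 7 * y i) =
            (∑ i, wB e (T ∪ C) (DDq (T ∪ C) + lam ^ 7 * y i)) / lm ^ mB e (T ∪ C) := by
          rw [Finset.sum_div]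
          rfl
        rw [e2, sum_wB_c hc he, mB_eq, Finset.prod_div_distrib, Finset.prod_pow_eq_pow_sum]
      rw [e1]
      exact v_sum_one hB e hS)
  have e1 : idB lm KE (LaS k 1 e) (fun b => em b.1) (xB k 1 e) s4 0 T C =
      (-(Om * tE k * thE k (DDq (T ∪ C))) * ∑ i, wtB e (T ∪ C) (DDq (T ∪ C) + lam ^ 7 * y i) *
        V4 (sE k) (tE k * (pe ^ 7 + em (y i) / em (DDq (T ∪ C))))) / (Om * (lm ^ 5 * kq)) := by
    rw [idB_eq_avg k 1 KE 0 hd hC, avgB k 1 e (T ∪ C) hy0, thB_E]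
    have e2 : ∀ i, wtB e (T ∪ C) (DDq (T ∪ C) + lam ^ 7 * y i) =
        wB e (T ∪ C) (fB k 1 * y i) / lm ^ (T.card + 2 * C.card + 0) := by
      intro i
      rw [wtB, mB_unionE hd hT hC, add_zero, hf]
      congr 1
      exact wB_per e ⟨1, by ring⟩
    have e3 : ∀ i, UB k 1 ((em (fB k 1))⁻¹ + em (y i) / em (DDq (T ∪ C))) =
        -(Om * tE k) * V4 (sE k) (tE k * (pe ^ 7 + em (y i) / em (DDq (T ∪ C)))) := by
      intro i
      have e4 : (em (fB k 1))⁻¹ = pe ^ 7 := by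
        rw [hf, em_pow, em_lam, pe, inv_pow]
      rw [UB_one, e4]
    have e5 : ∑ i, wB e (T ∪ C) (fB k 1 * y i) *
          UB k 1 ((em (fB k 1))⁻¹ + em (y i) / em (DDq (T ∪ C))) =
        lm ^ (T.card + 2 * C.card + 0) * (-(Om * tE k)) *
          ∑ i, wtB e (T ∪ C) (DDq (T ∪ C) + lam ^ 7 * y i) *
            V4 (sE k) (tE k * (pe ^ 7 + em (y i) / em (DDq (T ∪ C)))) := by
      rw [Finset.mul_sum]
      refine Finset.sum_congr rfl fun i _ => ?_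
      rw [e2, e3]
      have hl : lm ^ (T.card + 2 * C.card + 0) ≠ 0 := pow_ne_zero _ lm_ne
      field_simp
    rw [e5, KE]
    have hl : lm ^ (T.card + 2 * C.card + 0) ≠ 0 := pow_ne_zero _ lm_ne
    have hO := Om_ne_zero
    have hq0 := kq_ne
    have hl0 := lm_ne
    field_simp
  rw [e1]
  exact main

/-- the value for the empty sets -/
theorem LaS_empty_E (k : ZMod 4) (e : Pg → ZMod 4) : LaS k 1 e ∅ ∅ = LaE k ∅ := by
  have e4 : (em (fB k 1))⁻¹ = pe ^ 7 := by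
    rw [fB_odd k one_ne_zero (by norm_num), em_pow, em_lam, pe, inv_pow]
  rw [LaS, Finset.empty_union, LaB_empty, UB_one, e4, LaE_empty_eq]

theorem Rt_LaS_empty_E (hB : (2 : ℂ)⁻¹ ∉ B) (k : ZMod 4) (e : Pg → ZMod 4) :
    Rt B (LaS k 1 e ∅ ∅ / KE) (xE k) := by
  rw [LaS_empty_E]
  exact Rt_LaE_empty hB k

end

end Pool.Agent.Lib.MP_1a91b9_ntQ
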