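import Pool.Agent.Lib.MP_1a91b9_ntQ.B.AvgB
import Pool.Agent.Lib.MP_1a91b9_ntQ.B.WtB
import Pool.Agent.Lib.MP_1a91b9_ntQ.A.Props

/-!
# Quartic twists, part B, file RhsI: class I (`j = 0`, `k` odd), the right side of the identity

Divided by `La4 k ∅ * lm ^ mB e S` the right side of the averaging identity is in the maximal ideal,
for `S` nonempty and all exponents.
-/

set_option autoImplicit false
set_option linter.unusedSectionVars false

namespace Pool.Agent.Lib.MP_1a91b9_ntQ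

open NumberField Pool.Agent.Lib.MP_1a91b9_nuT Pool.Agent.Lib.MP_1a91b9_nuT.S3
  Pool.Agent.Lib.MP_1a91b9_nuT.Ell

noncomputable section

variable {B : ValuationSubring ℂ}

theorem md_odd {k : ZMod 4} (hk : md k ≠ 0) : k ≠ 0 ∧ k ≠ 2 := by
  have h : ∀ k : ZMod 4, md k ≠ 0 → k ≠ 0 ∧ k ≠ 2 := by decide
  exact h k hk

/-- **The right side is small** (class I). -/
theorem rhsI (hB : (2 : ℂ)⁻¹ ∉ B) {k : ZMod 4} (hk : md k ≠ 0) {e : Pg → ZMod 4} {S : Finset Pg}
    (he : ∀ q ∈ S, e q ≠ 0) (hS : S.Nonempty) :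
    B.valuation ((∑ T ∈ S.powerset, (-1) ^ T.card *
      (LaB k 0 e T * ∏ q ∈ S \ T, (em q.1 - XB k 0 e T q.1))) / (La4 k ∅ * lm ^ mB e S)) < 1 := by
  obtain ⟨h0, h2⟩ := md_odd hk
  obtain ⟨ι, hι, c, sg, hc, hf, hs2, hs1, hd, -, -, hzo, -, -⟩ := exists_pairs4 k hS
  have hl : (0 : B.ValueGroup) < B.valuation lm := v_lm_pos
  have hlm := lm_ne
  have hod : ∀ i, Od (zp k S (c i)) := fun i => od_zp k hS (reps_cop hc i)
  have hcs := e4_sq_odd h0 h2
  have hP := PO_base_ne hcs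
  have hno : ∀ i, ∀ q ∈ S, ¬ q.1 ∣ c i := fun i _ hq => not_dvd_of_cop hq (reps_cop hc i)
  have h1 : B.valuation (∑ i, wtB e S (c i) * PO (e4 k) (zp k S (c i))) < B.valuation lm ^ 4 := by
    refine pair_lt hs2 hs1 (pow_pos hl 4) (fun i => v_wtB hB he (hno i))
      (fun i => v_wtB_sub hB he (hno i) (hd i)) (fun i => ?_) (fun i => ?_)
    · have h4 := v_PO hB hcs (hod i)
      have h5 : (B.valuation lm * B.valuation (PO (e4 k) (zp k S (c i)))) ^ 2 <
          (B.valuation lm ^ 4) ^ 2 := by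
        rw [mul_pow, ← pow_mul]
        calc B.valuation lm ^ 2 * B.valuation (PO (e4 k) (zp k S (c i))) ^ 2 <
            B.valuation lm ^ 2 * B.valuation lm ^ 7 := mul_lt_mul_of_pos_left h4 (pow_pos hl 2)
          _ = B.valuation lm ^ 9 := by rw [← pow_add]
          _ < B.valuation lm ^ (4 * 2) := lpow hB (by norm_num)
      exact lt_of_pow_lt_pow_left₀ 2 zero_le h5
    · rcases hzo h0 h2 i with h | h
      · have h4 := v_PO_pair hB hcs (hod i) h (e := 1) (by norm_num)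
        rwa [one_mul] at h4
      · have h4 := v_PO_pair hB hcs (hod i) h (e := -1) (by norm_num)
        rw [PO_add_pe] at h4
        have e : PO (e4 k) (zp k S (c i)) + -1 * -PO (e4 k) (zp k S (c (sg i))) =
            PO (e4 k) (zp k S (c i)) + PO (e4 k) (zp k S (c (sg i))) := by ring
        rwa [e] at h4
  have e1 : ∑ T ∈ S.powerset, (-1 : ℂ) ^ T.card *
      (LaB k 0 e T * ∏ q ∈ S \ T, (em q.1 - XB k 0 e T q.1)) =
      lm ^ mB e S * (-Om * ∑ i, wtB e S (c i) * PO (e4 k) (zp k S (c i))) := by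
    rw [avg4B k e S hc, Finset.mul_sum, Finset.mul_sum]
    refine Finset.sum_congr rfl fun i _ => ?_
    have hl' : lm ^ mB e S ≠ 0 := pow_ne_zero _ hlm
    rw [th4_congr k (hc.fx i) (hf i), th4_one, wtB, Ph4_PO h0 h2]
    field_simp
  have e2 : (∑ T ∈ S.powerset, (-1 : ℂ) ^ T.card *
      (LaB k 0 e T * ∏ q ∈ S \ T, (em q.1 - XB k 0 e T q.1))) / (La4 k ∅ * lm ^ mB e S) =
      (∑ i, wtB e S (c i) * PO (e4 k) (zp k S (c i))) / PO (e4 k) (pe ^ 6) := by
    have hO := Om_ne_zero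
    rw [e1, La4_empty_PO h0 h2]
    field_simp
  rw [e2, map_div₀, v_PO_base hB hcs]
  exact (div_lt_one₀ (pow_pos hl 4)).2 h1

end

end Pool.Agent.Lib.MP_1a91b9_ntQ
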