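import Pool.Agent.Lib.MP_1a91b9_ntQ.B.ClJ2b
import Pool.Agent.Lib.MP_1a91b9_ntQ.B.ExpZ
import Pool.Agent.Lib.MP_1a91b9_ntQ.B.AvgJB
import Pool.Agent.Lib.MP_1a91b9_ntQ.B.PthW
import Pool.Agent.Lib.MP_1a91b9_ntQ.B.TrZS

/-!
# Quartic twists, all `D`, class J2b, file RhsJ2b: the right side

The sums over the units in the normalised form, `Om * wq ^ 18 * lm` times a unit congruent to `1` times
`xi (lm z) + xi (lm ^ 3 z) + lm (...)`, and the totals.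
-/

set_option autoImplicit false

namespace Pool.Agent.Lib.MP_1a91b9_ntQ

open NumberField Pool.Agent.Lib.MP_1a91b9_nuT Pool.Agent.Lib.MP_1a91b9_nuT.S3
  Pool.Agent.Lib.MP_1a91b9_nuT.Ell

noncomputable section

variable {B : ValuationSubring ℂ}

theorem Od.eight {z : ℂ} (h : Od z) : 8 * z ∉ PP.lattice := by
  intro h1
  have h2 := (h.pow 4).two
  apply h2
  have e : 2 * (lm ^ 4 * z) = -(8 * z) := by
    rw [lm_four]
    ring
  rw [e]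
  exact neg_mem h1

/-- the four points -/
theorem UJ_four (k h : ZMod 4) (z : ℂ) : UJ k 2 h z =
    UB k 2 ((em (fB k 2))⁻¹ + z) + e4 (-h) * UB k 2 ((em (fB k 2))⁻¹ + zt * z) +
      e4 (2 * h) * UB k 2 ((em (fB k 2))⁻¹ - z) + e4 h * UB k 2 ((em (fB k 2))⁻¹ - zt * z) := by
  unfold UJ
  have e : (Finset.univ : Finset (ZMod 4)) = {0, 1, 2, 3} := by decide
  have v2 : (2 : ZMod 4).val = 2 := rfl
  have v3 : (3 : ZMod 4).val = 3 := rfl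
  have v1 : (1 : ZMod 4).val = 1 := rfl
  have v0 : (0 : ZMod 4).val = 0 := rfl
  rw [e, Finset.sum_insert (by decide), Finset.sum_insert (by decide),
    Finset.sum_insert (by decide), Finset.sum_singleton, v0, v1, v2, v3]
  have h2 : -((2 : ZMod 4) * h) = 2 * h := by
    have key : ∀ h : ZMod 4, -((2 : ZMod 4) * h) = 2 * h := by decide
    exact key h
  have h3 : -((3 : ZMod 4) * h) = h := by
    have key : ∀ h : ZMod 4, -((3 : ZMod 4) * h) = h := by decide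
    exact key h
  have z3 : zt ^ 3 = -zt := by
    have e : zt ^ 3 = zt ^ 2 * zt := by ring
    rw [e, zt_sq]
    ring
  rw [h2, h3, zero_mul, neg_zero, e4_zero, one_mul, one_mul, pow_zero, pow_one, one_mul, zt_sq, z3]
  have a1 : (em (fB k 2))⁻¹ + -1 * z = (em (fB k 2))⁻¹ - z := by ring
  have a2 : (em (fB k 2))⁻¹ + -zt * z = (em (fB k 2))⁻¹ - zt * z := by ring
  rw [a1, a2]
  ring

theorem N8_eq (x : ℂ) : N8 x = N8Z x := by
  rw [N8, N8Z]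

theorem UB3_P3Z {Q : ℂ} (hQ : 8 * Q ∉ PP.lattice) :
    UB 3 2 ((em (fB 3 2))⁻¹ + Q) + UB 3 2 ((em (fB 3 2))⁻¹ - Q) =
      -(16 * zt * Om * sq2 * h8) * P3Z (X Q) := by
  rw [UB3_pair hQ, P3Z, N8_eq]
  ring

theorem UB1_M1Z {Q : ℂ} (hQ : 8 * Q ∉ PP.lattice) :
    UB 1 2 ((em (fB 1 2))⁻¹ + Q) - UB 1 2 ((em (fB 1 2))⁻¹ - Q) =
      8 * s8 * Om * h8 * M1Z (X Q) (yh Q) := by
  rw [UB1_pair hQ, M1Z, N8_eq]
  ring

theorem UJ_30 {z : ℂ} (hz : Od z) :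
    UJ 3 2 0 z = -(16 * zt * Om * sq2 * h8) * (P3Z (X z) + P3Z (X (zt * z))) := by
  rw [UJ_four, neg_zero, mul_zero, e4_zero]
  linear_combination UB3_P3Z hz.eight + UB3_P3Z hz.zt_mul.eight

theorem UJ_32 {z : ℂ} (hz : Od z) :
    UJ 3 2 2 z = -(16 * zt * Om * sq2 * h8) * (P3Z (X z) - P3Z (X (zt * z))) := by
  have e1 : -(2 : ZMod 4) = 2 := by decide
  have e2 : (2 : ZMod 4) * 2 = 0 := by decide
  rw [UJ_four, e1, e2, e4_zero, e4_two]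
  linear_combination UB3_P3Z hz.eight - UB3_P3Z hz.zt_mul.eight

theorem UJ_13 {z : ℂ} (hz : Od z) :
    UJ 1 2 3 z = 8 * s8 * Om * h8 * (M1Z (X z) (yh z) + zt * M1Z (X (zt * z)) (yh (zt * z))) := by
  have e1 : -(3 : ZMod 4) = 1 := by decide
  have e2 : (2 : ZMod 4) * 3 = 2 := by decide
  rw [UJ_four, e1, e2, e4_one, e4_two, e4_three]
  linear_combination UB1_M1Z hz.eight + zt * UB1_M1Z hz.zt_mul.eight

theorem UJ_11 {z : ℂ} (hz : Od z) :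
    UJ 1 2 1 z = 8 * s8 * Om * h8 * (M1Z (X z) (yh z) - zt * M1Z (X (zt * z)) (yh (zt * z))) := by
  have e1 : -(1 : ZMod 4) = 3 := by decide
  have e2 : (2 : ZMod 4) * 1 = 2 := by decide
  rw [UJ_four, e1, e2, e4_one, e4_two, e4_three]
  linear_combination UB1_M1Z hz.eight - zt * UB1_M1Z hz.zt_mul.eight

/-! ### The constants -/

/-- an element whose fourth power is congruent to `1` -/
theorem Cg_of_four (hB : (2 : ℂ)⁻¹ ∉ B) {x : ℂ} (h : Cg B (x ^ 4) 1) : Cg B x 1 := by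
  have h1 : Cg B ((x ^ 2) ^ 2) (1 ^ 2) := by
    rw [← pow_mul, one_pow]
    exact h
  have h2 := Cg.of_sq hB (by rw [map_one]) h1
  refine Cg.of_sq hB (by rw [map_one]) ?_
  rwa [one_pow]

theorem h8_four : h8 ^ 4 = 32 := by
  have h1 := h8_sq
  have h2 := sq2_sq
  linear_combination (h8 ^ 2 + 4 * sq2) * h1 + 16 * h2

theorem wq_72 : wq ^ 72 = lm ^ 18 := by
  rw [← wq_pow]
  ring

theorem lm_16 : lm ^ 16 = 256 := by
  have h := lm_four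
  have e : lm ^ 16 = (lm ^ 4) ^ 4 := by ring
  rw [e, h]
  norm_num

theorem lm_22 : lm ^ 22 = -(2048 * zt) := by
  have h := lm_16
  have h4 := lm_four
  have e : lm ^ 22 = lm ^ 16 * (lm ^ 4 * lm ^ 2) := by ring
  rw [e, h, h4, lm_sq]
  ring

/-- the constant of `k = 3` -/
theorem Cg_c3 (hB : (2 : ℂ)⁻¹ ∉ B) : Cg B (2 * sq2 * h8 / (wq ^ 18 * lm)) 1 := by
  refine Cg_of_four hB ?_
  have e : (2 * sq2 * h8 / (wq ^ 18 * lm)) ^ 4 = zt := by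
    rw [div_pow]
    have hne : (wq ^ 18 * lm) ^ 4 ≠ 0 := pow_ne_zero _ (mul_ne_zero (pow_ne_zero _ wq_ne) lm_ne)
    rw [div_eq_iff hne]
    have h1 := h8_four
    have h2 := sq2_sq
    have h3 : sq2 ^ 4 = 4 := by linear_combination (sq2 ^ 2 + 2) * h2
    have h4 : (wq ^ 18 * lm) ^ 4 = lm ^ 22 := by
      have h5 := wq_72
      calc (wq ^ 18 * lm) ^ 4 = wq ^ 72 * lm ^ 4 := by ring
        _ = lm ^ 22 := by rw [h5]; ring
    rw [h4, lm_22, mul_pow, mul_pow, h1, h3]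
    linear_combination 2048 * zt_sq
  rw [e]
  exact Cg_zt hB

/-- the constant of `k = 1` -/
theorem Cg_c1 (hB : (2 : ℂ)⁻¹ ∉ B) : Cg B (2 * h8 * lm / (wq ^ 18 * lm)) 1 := by
  refine Cg_of_four hB ?_
  have e : (2 * h8 * lm / (wq ^ 18 * lm)) ^ 4 = -zt := by
    rw [div_pow]
    have hne : (wq ^ 18 * lm) ^ 4 ≠ 0 := pow_ne_zero _ (mul_ne_zero (pow_ne_zero _ wq_ne) lm_ne)
    rw [div_eq_iff hne]
    have h1 := h8_four
    have h4 : (wq ^ 18 * lm) ^ 4 = lm ^ 22 := by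
      have h5 := wq_72
      calc (wq ^ 18 * lm) ^ 4 = wq ^ 72 * lm ^ 4 := by ring
        _ = lm ^ 22 := by rw [h5]; ring
    rw [h4, lm_22, mul_pow, mul_pow, h1, lm_four]
    linear_combination -2048 * zt_sq
  rw [e]
  exact Cg_neg_zt hB

theorem Cg_rh (hB : (2 : ℂ)⁻¹ ∉ B) : Cg B rh 1 :=
  Cg.of_sub_lt (by rw [map_one]) (v_rh_sub hB)

theorem Cg_rs (hB : (2 : ℂ)⁻¹ ∉ B) : Cg B rs 1 := by
  refine Cg.of_sq hB (by rw [map_one]) ?_
  rw [rs_sq, one_pow]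
  exact Cg_rh hB

theorem Cg_s8 (hB : (2 : ℂ)⁻¹ ∉ B) : Cg B s8 1 := by
  refine Cg.of_sq hB (by rw [map_one]) ?_
  rw [s8_sq, one_pow]
  exact Cg.refl (by rw [map_one])

theorem Cg_lm_mul (hB : (2 : ℂ)⁻¹ ∉ B) {x y : ℂ} (h : x = 1 + lm * y) (hy : y ∈ B) : Cg B x 1 := by
  refine Cg.of_sub_lt (by rw [map_one]) ?_
  rw [h, add_sub_cancel_left, map_mul]
  exact mul_lt_one_of_lt_of_le (v_lm_lt hB) ((ValuationSubring.valuation_le_one_iff _ _).2 hy)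

theorem Cg_one_sub (hB : (2 : ℂ)⁻¹ ∉ B) : Cg B (1 - 2 * zt) 1 := by
  refine Cg_lm_mul hB (y := (1 - zt) * -zt) ?_ ?_
  · linear_combination (zt) * cj_lm
  · exact B.mul_mem _ _ (sub_mem (one_mem B) TrZ_zt) (neg_mem TrZ_zt)

theorem Cg_two_add (hB : (2 : ℂ)⁻¹ ∉ B) : Cg B (2 + zt) 1 := by
  refine Cg_lm_mul hB (y := 1) ?_ (one_mem B)
  rw [lm]
  ring

theorem Cg_four_sub (hB : (2 : ℂ)⁻¹ ∉ B) : Cg B (-(4 - 3 * zt)) 1 := by
  refine Cg_lm_mul hB (y := 4 * zt - 1) ?_ ?_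
  · rw [lm]
    linear_combination (-4) * zt_sq
  · exact sub_mem (B.mul_mem _ _ (TrZ_num _) TrZ_zt) (one_mem B)

/-! ### The normalised form -/

/-- the coefficient of the first part -/
def cJ2 (h : ZMod 4) : ℂ := if h = 0 ∨ h = 3 then 1 else 1 + lm

/-- the constant of the second part -/
def x0J2 (h : ZMod 4) : ZMod 2 := if h = 0 ∨ h = 3 then 0 else 1

/-- the coefficient of `xi (lm ^ 2 z) (ze (lm z) + ze (lm ^ 2 z))` -/
def eJ2 (k : ZMod 4) : ℂ := if k = 1 then 1 else 0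

/-- the normalised sum over the units modulo `lm m` -/
def TJ2 (k h : ZMod 4) (z : ℂ) : ℂ := cJ2 h * (xi (lm * z) + xi (lm ^ 3 * z)) +
  lm * ((ze z + ze (lm ^ 3 * z)) * (ze (lm * z) + ze (lm ^ 2 * z)) +
    eJ2 k * (xi (lm ^ 2 * z) * (ze (lm * z) + ze (lm ^ 2 * z))) + ((x0J2 h).val : ℂ))

theorem UJ_fin {x y u V T : ℂ} (hu : Cg B u 1) (h : x = y * (u * V)) (hy : y ≠ 0)
    (hV : B.valuation (V - T) < B.valuation lm) :
    B.valuation (x / y - u * T) < B.valuation lm := by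
  have e : x / y - u * T = u * (V - T) := by
    rw [h, mul_div_cancel_left₀ _ hy]
    ring
  rw [e, map_mul, hu.unit, one_mul]
  exact hV

theorem UJ_exp_30 (hB : (2 : ℂ)⁻¹ ∉ B) : ∃ u, Cg B u 1 ∧ ∀ z, Od z →
    B.valuation (UJ 3 2 0 z / (Om * wq ^ 18 * lm) - u * TJ2 3 0 z) < B.valuation lm := by
  have hO := Om_ne_zero
  have hwq := wq_ne
  have hw := pow_ne_zero 18 hwq
  have hl := lm_ne
  have hK : Om * wq ^ 18 * lm ≠ 0 := mul_ne_zero (mul_ne_zero hO hw) hl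
  have hz0 := zt_ne0
  have hu : Cg B (-(4 - 3 * zt) * (2 * sq2 * h8 / (wq ^ 18 * lm))) 1 := by
    have h1 := (Cg_four_sub hB).mul (Cg_c3 hB)
    rwa [one_mul] at h1
  refine ⟨-(4 - 3 * zt) * (2 * sq2 * h8 / (wq ^ 18 * lm)), hu, fun z hz => ?_⟩
  have h4 : (4 - 3 * zt : ℂ) ≠ 0 := by
    intro h0
    have h1 := (Cg_four_sub hB).unit
    rw [h0, neg_zero, map_zero] at h1
    exact zero_ne_one h1
  have h5 := P3Z_0 hz.two (e6Z_ne hB hz)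
  obtain ⟨V, hV⟩ : ∃ V, V = -(8 * (P3Z (X z) + P3Z (X (zt * z)))) / (zt * (4 - 3 * zt)) :=
    ⟨_, rfl⟩
  have hV' : V * (zt * (4 - 3 * zt)) = -(8 * (P3Z (X z) + P3Z (X (zt * z)))) := by
    rw [hV, div_mul_cancel₀ _ (mul_ne_zero hz0 h4)]
  have h6 : V * e6Z (ze z) = ze z * (ze z + lm) * (1 + lm * ze z) * (1 - 2 * zt * ze z) *
      (1 + 4 * ze z) * cZ (ze z) := by
    apply mul_left_cancel₀ (mul_ne_zero hz0 h4)
    linear_combination e6Z (ze z) * hV' - h5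
  refine UJ_fin (V := V) hu ?_ hK ?_
  · have e1 : Om * wq ^ 18 * lm * (-(4 - 3 * zt) * (2 * sq2 * h8 / (wq ^ 18 * lm)) * V) =
        -(4 - 3 * zt) * (2 * sq2 * h8) * Om * V := by
      field_simp
    rw [UJ_30 hz, e1]
    linear_combination (-2 * zt * Om * sq2 * h8) * hV' +
      2 * Om * sq2 * h8 * (4 - 3 * zt) * V * zt_sq
  · have h7 := v_30 hB hz h6
    have e : TJ2 3 0 z = xi (lm * z) + xi (lm ^ 3 * z) + lm * ((ze z + ze (lm ^ 3 * z)) *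
        (ze (lm * z) + ze (lm ^ 2 * z))) := by
      have d1 : ¬ (3 : ZMod 4) = 1 := by decide
      rw [TJ2, cJ2, x0J2, eJ2, if_pos (Or.inl rfl), if_pos (Or.inl rfl), if_neg d1,
        ZMod.val_zero, Nat.cast_zero]
      ring
    rw [e]
    exact h7

theorem UJ_exp_32 (hB : (2 : ℂ)⁻¹ ∉ B) : ∃ u, Cg B u 1 ∧ ∀ z, Od z →
    B.valuation (UJ 3 2 2 z / (Om * wq ^ 18 * lm) - u * TJ2 3 2 z) < B.valuation lm := by
  have hO := Om_ne_zero
  have hwq := wq_ne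
  have hw := pow_ne_zero 18 hwq
  have hl := lm_ne
  have hK : Om * wq ^ 18 * lm ≠ 0 := mul_ne_zero (mul_ne_zero hO hw) hl
  have hr := rh_ne
  have hu : Cg B (-zt * rh⁻¹ * (2 * sq2 * h8 / (wq ^ 18 * lm))) 1 := by
    have h1 := ((Cg_neg_zt hB).mul (Cg_rh hB).inv).mul (Cg_c3 hB)
    rwa [one_mul, one_mul] at h1
  refine ⟨-zt * rh⁻¹ * (2 * sq2 * h8 / (wq ^ 18 * lm)), hu, fun z hz => ?_⟩
  have h5 := P3Z_2 hz.two (e6Z_ne hB hz)
  obtain ⟨V, hV⟩ : ∃ V, V = 8 * (P3Z (X z) - P3Z (X (zt * z))) * rh := ⟨_, rfl⟩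
  have hrr : rh * rh⁻¹ = 1 := mul_inv_cancel₀ hr
  have h6 : V * e6Z (ze z) = (1 + 2 * xi z) * (1 + lm * ze z) * (1 - 2 * zt * ze z) ^ 2 *
      (aZ (ze z) * bZ (ze z)) := by
    rw [hV]
    linear_combination rh * h5 + (1 + 2 * xi z) * (1 + lm * ze z) * (1 - 2 * zt * ze z) ^ 2 *
      (aZ (ze z) * bZ (ze z)) * hrr
  refine UJ_fin (V := V) hu ?_ hK ?_
  · have e1 : Om * wq ^ 18 * lm * (-zt * rh⁻¹ * (2 * sq2 * h8 / (wq ^ 18 * lm)) * V) =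
        -zt * rh⁻¹ * (2 * sq2 * h8) * Om * V := by
      field_simp
    rw [UJ_32 hz, e1, hV]
    linear_combination 16 * zt * Om * sq2 * h8 * (P3Z (X z) - P3Z (X (zt * z))) * hrr
  · have h7 := v_32 hB hz h6
    have e : TJ2 3 2 z = (1 + lm) * (xi (lm * z) + xi (lm ^ 3 * z)) + lm * (1 +
        (ze z + ze (lm ^ 3 * z)) * (ze (lm * z) + ze (lm ^ 2 * z))) := by
      have d1 : ¬ (3 : ZMod 4) = 1 := by decide
      have d2 : ¬ ((2 : ZMod 4) = 0 ∨ (2 : ZMod 4) = 3) := by decide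
      rw [TJ2, cJ2, x0J2, eJ2, if_neg d2, if_neg d2, if_neg d1, ZMod.val_one, Nat.cast_one]
      ring
    rw [e]
    exact h7

theorem UJ_exp_13 (hB : (2 : ℂ)⁻¹ ∉ B) : ∃ u, Cg B u 1 ∧ ∀ z, Od z →
    B.valuation (UJ 1 2 3 z / (Om * wq ^ 18 * lm) - u * TJ2 1 3 z) < B.valuation lm := by
  have hO := Om_ne_zero
  have hwq := wq_ne
  have hw := pow_ne_zero 18 hwq
  have hl := lm_ne
  have hK : Om * wq ^ 18 * lm ≠ 0 := mul_ne_zero (mul_ne_zero hO hw) hl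
  have hr := rh_ne
  have hrs := rs_ne
  obtain ⟨c, hc⟩ : ∃ c, c = (2 + zt) * (1 - 2 * zt) ^ 2 * rh ^ 2 * rs := ⟨_, rfl⟩
  have hc1 : Cg B c 1 := by
    have h1 := (((Cg_two_add hB).mul ((Cg_one_sub hB).pow 2)).mul ((Cg_rh hB).pow 2)).mul (Cg_rs hB)
    rw [hc]
    simpa using h1
  have hc0 : c ≠ 0 := by
    intro h0
    have h1 := hc1.unit
    rw [h0, map_zero] at h1
    exact zero_ne_one h1
  have hu : Cg B (s8 * c * (2 * h8 * lm / (wq ^ 18 * lm))) 1 := by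
    have h1 := ((Cg_s8 hB).mul hc1).mul (Cg_c1 hB)
    rwa [one_mul, one_mul] at h1
  refine ⟨s8 * c * (2 * h8 * lm / (wq ^ 18 * lm)), hu, fun z hz => ?_⟩
  have h5 := M1Z_1 hz.two (e6Z_ne hB hz)
  rw [X_xi z, yh_al z] at h5
  obtain ⟨M, hM⟩ : ∃ M, M = M1Z (X z) (yh z) + zt * M1Z (X (zt * z)) (yh (zt * z)) := ⟨_, rfl⟩
  rw [← X_xi z, ← yh_al z, ← hM, X_xi z, yh_al z] at h5
  obtain ⟨V, hV⟩ : ∃ V, V = 4 * M / (c * lm) := ⟨_, rfl⟩
  have hV' : V * (c * lm) = 4 * M := by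
    rw [hV, div_mul_cancel₀ _ (mul_ne_zero hc0 hl)]
  have h6 : V * e6Z (ze z) = (1 + 2 * xi z) * (1 + lm * al z) * dX (ze z) *
      (ze z * (ze z + lm)) * cZ (ze z) := by
    apply mul_left_cancel₀ (mul_ne_zero hc0 hl)
    have e1 : c * lm * (V * e6Z (ze z)) = 4 * M * e6Z (ze z) := by
      linear_combination e6Z (ze z) * hV'
    rw [e1, h5, hc]
    ring
  refine UJ_fin (V := V) hu ?_ hK ?_
  · have e1 : Om * wq ^ 18 * lm * (s8 * c * (2 * h8 * lm / (wq ^ 18 * lm)) * V) =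
        s8 * (2 * h8) * Om * (V * (c * lm)) := by
      field_simp
    rw [UJ_13 hz, e1, hV', ← hM]
    ring
  · have h7 := v_11 hB hz h6
    have e : TJ2 1 3 z = xi (lm * z) + xi (lm ^ 3 * z) + lm * ((ze z + ze (lm ^ 3 * z)) *
        (ze (lm * z) + ze (lm ^ 2 * z)) + xi (lm ^ 2 * z) * (ze (lm * z) + ze (lm ^ 2 * z))) := by
      rw [TJ2, cJ2, x0J2, eJ2, if_pos (Or.inr rfl), if_pos (Or.inr rfl), if_pos rfl,
        ZMod.val_zero, Nat.cast_zero]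
      ring
    rw [e]
    exact h7

theorem UJ_exp_11 (hB : (2 : ℂ)⁻¹ ∉ B) : ∃ u, Cg B u 1 ∧ ∀ z, Od z →
    B.valuation (UJ 1 2 1 z / (Om * wq ^ 18 * lm) - u * TJ2 1 1 z) < B.valuation lm := by
  have hO := Om_ne_zero
  have hwq := wq_ne
  have hw := pow_ne_zero 18 hwq
  have hl := lm_ne
  have hK : Om * wq ^ 18 * lm ≠ 0 := mul_ne_zero (mul_ne_zero hO hw) hl
  have hr := rh_ne
  have hrs := rs_ne
  obtain ⟨c, hc⟩ : ∃ c, c = zt * (1 - 2 * zt) * rh * rs := ⟨_, rfl⟩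
  have hc1 : Cg B c 1 := by
    have h1 := (((Cg_zt hB).mul (Cg_one_sub hB)).mul (Cg_rh hB)).mul (Cg_rs hB)
    rw [hc]
    simpa using h1
  have hc0 : c ≠ 0 := by
    intro h0
    have h1 := hc1.unit
    rw [h0, map_zero] at h1
    exact zero_ne_one h1
  have hu : Cg B (s8 * c * (2 * h8 * lm / (wq ^ 18 * lm))) 1 := by
    have h1 := ((Cg_s8 hB).mul hc1).mul (Cg_c1 hB)
    rwa [one_mul, one_mul] at h1
  refine ⟨s8 * c * (2 * h8 * lm / (wq ^ 18 * lm)), hu, fun z hz => ?_⟩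
  have h5 := M1Z_3 hz.two (e6Z_ne hB hz)
  obtain ⟨M, hM⟩ : ∃ M, M = M1Z (X z) (yh z) - zt * M1Z (X (zt * z)) (yh (zt * z)) := ⟨_, rfl⟩
  rw [← hM, yh_al z] at h5
  obtain ⟨V, hV⟩ : ∃ V, V = 4 * M / (c * lm) := ⟨_, rfl⟩
  have hV' : V * (c * lm) = 4 * M := by
    rw [hV, div_mul_cancel₀ _ (mul_ne_zero hc0 hl)]
  have h6 : V * e6Z (ze z) = (1 + lm * al z) * dX (ze z) * (1 - 2 * zt * ze z) *
      (aZ (ze z) * bZ (ze z)) := by
    apply mul_left_cancel₀ (mul_ne_zero hc0 hl)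
    have e1 : c * lm * (V * e6Z (ze z)) = 4 * M * e6Z (ze z) := by
      linear_combination e6Z (ze z) * hV'
    rw [e1, h5, hc]
    ring
  refine UJ_fin (V := V) hu ?_ hK ?_
  · have e1 : Om * wq ^ 18 * lm * (s8 * c * (2 * h8 * lm / (wq ^ 18 * lm)) * V) =
        s8 * (2 * h8) * Om * (V * (c * lm)) := by
      field_simp
    rw [UJ_11 hz, e1, hV', ← hM]
    ring
  · have h7 := v_13 hB hz h6
    have e : TJ2 1 1 z = (1 + lm) * (xi (lm * z) + xi (lm ^ 3 * z)) + lm * (1 +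
        (ze z + ze (lm ^ 3 * z)) * (ze (lm * z) + ze (lm ^ 2 * z)) +
          xi (lm ^ 2 * z) * (ze (lm * z) + ze (lm ^ 2 * z))) := by
      have d2 : ¬ ((1 : ZMod 4) = 0 ∨ (1 : ZMod 4) = 3) := by decide
      rw [TJ2, cJ2, x0J2, eJ2, if_neg d2, if_neg d2, if_pos rfl, ZMod.val_one, Nat.cast_one]
      ring
    rw [e]
    exact h7

theorem UJ_exp (hB : (2 : ℂ)⁻¹ ∉ B) {k h : ZMod 4}
    (hkh : (k = 3 ∧ (h = 0 ∨ h = 2)) ∨ (k = 1 ∧ (h = 1 ∨ h = 3))) :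
    ∃ u, Cg B u 1 ∧ ∀ z, Od z →
      B.valuation (UJ k 2 h z / (Om * wq ^ 18 * lm) - u * TJ2 k h z) < B.valuation lm := by
  rcases hkh with ⟨rfl, rfl | rfl⟩ | ⟨rfl, rfl | rfl⟩
  · exact UJ_exp_30 hB
  · exact UJ_exp_32 hB
  · exact UJ_exp_11 hB
  · exact UJ_exp_13 hB

/-! ### The totals -/

theorem RhsJ2b_nd (k : ZMod 4) (q : Pg) : ¬ q.1 ∣ fB k 2 := by
  obtain ⟨n, h, -⟩ := fB_pow k 2
  rw [h]
  exact fun h1 => lam_not_dvd q (q.prime.dvd_of_dvd_pow h1)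

section
variable {q0 : Pg} {ex : Pg → ZMod 4} {J : Finset Pg}

theorem RhsJ2b_one (hB : (2 : ℂ)⁻¹ ∉ B) {kap : 𝓞 K} (h0 : aa q0.1 = 1)
    (hk : ∀ q : Pg, ¬ q.1 ∣ kap) (hq : q0 ∉ J) (he : ∀ q ∈ J, ex q ≠ 0) :
    Rt B (GX q0 kap (wtB ex J) (fun _ => 1) J) (if J = ∅ then 1 else 0) := by
  by_cases hJ : J = ∅
  · subst hJ
    rw [if_pos rfl, GX_wtB_one hk hq he, Finset.prod_empty, mul_one]
    exact Rt_n0 hB h0 hk
  · rw [if_neg hJ]
    refine Rt.of_lt ((v_GX_wtB_one hB hk hq he).trans_lt ?_)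
    have h4 : 1 ≤ ∑ q ∈ J, (4 - mq (ex q)) := by
      obtain ⟨q, hqJ⟩ := Finset.nonempty_iff_ne_empty.2 hJ
      have h5 := Finset.single_le_sum (f := fun q => 4 - mq (ex q)) (fun _ _ => Nat.zero_le _) hqJ
      have h6 := mq_le (ex q)
      omega
    exact pow_lt_one₀ zero_le (v_lm_lt hB) (by omega)

/-- the sum of the normalised functions -/
theorem Rt_GX_TJ2 (hB : (2 : ℂ)⁻¹ ∉ B) (k h : ZMod 4) {kap : 𝓞 K} (h0 : aa q0.1 = 1)
    (hl0 : bb q0.1 = 0) (hk : ∀ q : Pg, ¬ q.1 ∣ kap) (hq : q0 ∉ J) (hs : ∀ q ∈ J, s4 q0 q = 0)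
    (he : ∀ q ∈ J, ex q ≠ 0) :
    Rt B (GX q0 kap (wtB ex J) (TJ2 k h) J / lm) ((if J = ∅ then x0J2 h else 0) +
      ∑ r ∈ J, bb r.1 * Ham s4 (fun q => aa q.1 + bb q.1) J r) := by
  have hl := lm_ne
  have h1 := v_GX_first (ex := ex) hB h0 hk hq hl0 hs he 1
  have h2 := Rt_GX_h5 (ex := ex) hB (tr3_B hB) (tr5_B hB) h0 hk hq hl0 hs he
  have h3 := v_GX_p1 (ex := ex) hB (tr1_B hB) h0 hk hq hl0 hs he
  have h4 := RhsJ2b_one hB (ex := ex) h0 hk hq he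
  have e : GX q0 kap (wtB ex J) (TJ2 k h) J / lm =
      (cJ2 h * (GX q0 kap (wtB ex J) (fun z => xi (lm ^ 1 * z) + xi (lm ^ (1 + 2) * z)) J / lm) +
        (GX q0 kap (wtB ex J) (fun z => (ze z + ze (lm ^ 3 * z)) *
          (ze (lm * z) + ze (lm ^ 2 * z))) J +
        eJ2 k * GX q0 kap (wtB ex J) (fun z => xi (lm ^ 2 * z) *
          (ze (lm * z) + ze (lm ^ 2 * z))) J)) +
        ((x0J2 h).val : ℂ) * GX q0 kap (wtB ex J) (fun _ => 1) J := by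
    have e1 : TJ2 k h = fun z => (cJ2 h * (xi (lm ^ 1 * z) + xi (lm ^ (1 + 2) * z)) +
        (lm * ((ze z + ze (lm ^ 3 * z)) * (ze (lm * z) + ze (lm ^ 2 * z))) +
          (lm * eJ2 k) * (xi (lm ^ 2 * z) * (ze (lm * z) + ze (lm ^ 2 * z))))) +
        (lm * ((x0J2 h).val : ℂ)) * 1 := by
      funext z
      rw [TJ2, pow_one]
      ring
    rw [e1, GX_fadd, GX_fadd, GX_fadd, GX_fcmul, GX_fcmul, GX_fcmul, GX_fcmul]
    generalize GX q0 kap (wtB ex J) (fun z => xi (lm ^ 1 * z) + xi (lm ^ (1 + 2) * z)) J = G1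
    field_simp
  have hc : B.valuation (cJ2 h) ≤ 1 := by
    unfold cJ2
    split_ifs
    · exact (map_one _).le
    · exact v_add_le (map_one _).le (v_lm_lt hB).le
  have he' : B.valuation (eJ2 k) ≤ 1 := by
    unfold eJ2
    split_ifs
    · exact (map_one _).le
    · rw [map_zero]
      exact zero_le_one
  have a1 : Rt B (cJ2 h * (GX q0 kap (wtB ex J) (fun z => xi (lm ^ 1 * z) +
      xi (lm ^ (1 + 2) * z)) J / lm)) 0 := by
    refine Rt.of_lt (v_mul_lt' hc ?_)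
    rw [map_div₀]
    exact (div_lt_one₀ (zero_lt_iff.2 ((Valuation.ne_zero_iff _).2 hl))).2 h1
  have a3 : Rt B (eJ2 k * GX q0 kap (wtB ex J) (fun z => xi (lm ^ 2 * z) *
      (ze (lm * z) + ze (lm ^ 2 * z))) J) 0 := Rt.of_lt (v_mul_lt' he' h3)
  have a4 : Rt B (((x0J2 h).val : ℂ) * GX q0 kap (wtB ex J) (fun _ => 1) J)
      (x0J2 h * (if J = ∅ then 1 else 0)) := (Rt.natCast hB _).mul hB h4 |> fun h => by
    rwa [ZMod.natCast_zmod_val] at h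
  have h5 := (a1.add hB (h2.add hB a3)).add hB a4
  rw [e]
  have e2 : (if J = ∅ then x0J2 h else 0) + ∑ r ∈ J, bb r.1 * Ham s4 (fun q => aa q.1 + bb q.1) J r =
      (0 + (∑ r ∈ J, c2 r lam * Ham s4 (fun q => aa q.1 + bb q.1) J r + 0)) +
        x0J2 h * (if J = ∅ then 1 else 0) := by
    have e3 : (if J = ∅ then x0J2 h else 0) = x0J2 h * (if J = ∅ then 1 else 0) := by
      split_ifs
      · rw [mul_one]
      · rw [mul_zero]
    rw [e3, zero_add, add_zero, add_comm]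
    congr 1
    exact Finset.sum_congr rfl fun r _ => by rw [c2_lam]
  rw [e2]
  exact h5

/-- **The totals of class J2b.** -/
theorem rhsJ2b (hB : (2 : ℂ)⁻¹ ∉ B) {k h : ZMod 4}
    (hkh : (k = 3 ∧ (h = 0 ∨ h = 2)) ∨ (k = 1 ∧ (h = 1 ∨ h = 3))) (h0 : aa q0.1 = 1)
    (hl0 : bb q0.1 = 0) (hq : q0 ∉ J) (hs : ∀ q ∈ J, s4 q0 q = 0) (he : ∀ q ∈ J, ex q ≠ 0) :
    Rt B (GX q0 (fB k 2) (wB ex J) (UJ k 2 h) J / (Om * wq ^ 18 * lm ^ 2 * lm ^ mB ex J))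
      ((if J = ∅ then x0J2 h else 0) +
        ∑ r ∈ J, bb r.1 * Ham s4 (fun q => aa q.1 + bb q.1) J r) := by
  obtain ⟨u, hu, hU⟩ := UJ_exp hB hkh
  have hO := Om_ne_zero
  have hwq := wq_ne
  have hl := lm_ne
  have h1 := Rt_GX_TJ2 hB k h (ex := ex) h0 hl0 (RhsJ2b_nd k) hq hs he
  have h2 := v_GX_ltB (q0 := q0) (kap := fB k 2) (J := J) (ex := ex) hB (RhsJ2b_nd k) he
    (zero_lt_iff.2 ((Valuation.ne_zero_iff B.valuation).2 hl)) hU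
  have h3 : Rt B (u * (GX q0 (fB k 2) (wtB ex J) (TJ2 k h) J / lm)) ((if J = ∅ then x0J2 h else 0) +
      ∑ r ∈ J, bb r.1 * Ham s4 (fun q => aa q.1 + bb q.1) J r) := by
    have h4 := (hu.rt Rt.one).mul hB h1
    rwa [one_mul] at h4
  refine h3.congr ?_
  have hpow := pow_ne_zero (mB ex J) hl
  have e : GX q0 (fB k 2) (wB ex J) (UJ k 2 h) J / (Om * wq ^ 18 * lm ^ 2 * lm ^ mB ex J) -
      u * (GX q0 (fB k 2) (wtB ex J) (TJ2 k h) J / lm) =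
      GX q0 (fB k 2) (wtB ex J) (fun z => UJ k 2 h z / (Om * wq ^ 18 * lm) - u * TJ2 k h z) J /
        lm := by
    have e1 : (fun z => UJ k 2 h z / (Om * wq ^ 18 * lm) - u * TJ2 k h z) =
        fun z => (Om * wq ^ 18 * lm)⁻¹ * UJ k 2 h z + (-u) * TJ2 k h z := by
      funext z
      rw [div_eq_inv_mul]
      ring
    rw [e1, GX_fadd, GX_fcmul, GX_fcmul, GX_wtB]
    field_simp
    ring
  rw [e, map_div₀]
  exact (div_lt_one₀ (zero_lt_iff.2 ((Valuation.ne_zero_iff _).2 hl))).2 h2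

end

end

end Pool.Agent.Lib.MP_1a91b9_ntQ
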