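import Pool.Agent.Lib.MP_1a91b9_ntQ.B.CritB
import Pool.Agent.Lib.MP_1a91b9_ntQ.B.LocDB

/-!
# MP_1a91b9_nt (quartic twists), part B: the rows of the Selmer elements, all fourth-power-free `D`

`SelD k j S T B a al w V`: the element `a` is `i ^ al lam ^ w ∏ q ^ V q` up to squares, `V` is zero on
`B` outside `VB`, and the rows of the matrix hold.
-/

set_option autoImplicit false
set_option linter.unusedSectionVars false
set_option linter.unusedVariables false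

namespace Pool.Agent.Lib.MP_1a91b9_ntQ.C

open NumberField Finset WithZero IsDedekindDomain Pool.Agent.Lib.MP_1a91b9_nuT
open Pool.Agent.Lib.MP_1a91b9_ntQ
open Pool.Agent.Lib.MP_1a91b9_ntH.C (Sq exists_nu isSquare_exp nu_one)

noncomputable section

/-- the indicator function -/
def in01 (P : Finset Pg) (q : Pg) : ZMod 2 := if q ∈ P then 1 else 0

theorem in01_of {P : Finset Pg} {q : Pg} (h : q ∈ P) : in01 P q = 1 := if_pos h

theorem in01_not {P : Finset Pg} {q : Pg} (h : q ∉ P) : in01 P q = 0 := if_neg h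

variable {k : ZMod 4} {j : Fin 4} {S T B : Finset Pg}

/-- `D = i ^ k lam ^ j c` -/
def dC (k : ZMod 4) (j : Fin 4) (S T B : Finset Pg) : 𝓞 K :=
  iO ^ k.val * lam ^ j.val * (DDq S * DDq T ^ 3 * DDq B ^ 2)

theorem dC_eq (k : ZMod 4) (j : Fin 4) (S T B : Finset Pg) : dC k j S T B = dB k j S T B := rfl

theorem Dj_pb (hd : Dj S T B) : Disjoint (S ∪ T) B := disjoint_union_left.2 ⟨hd.sb, hd.tb⟩

theorem Dj_erase (hd : Dj S T B) (b : Pg) : Dj S T (B.erase b) :=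
  ⟨hd.st, hd.sb.mono_right (erase_subset _ _), hd.tb.mono_right (erase_subset _ _)⟩

theorem dC_erase {b : Pg} (hb : b ∈ B) : dC k j S T B = b.1 ^ 2 * dC k j S T (B.erase b) := by
  unfold dC
  have h1 : DDq B = b.1 * DDq (B.erase b) := by
    unfold DDq
    exact (mul_prod_erase B _ hb).symm
  rw [h1]
  ring

theorem cB_in4 (S T B : Finset Pg) : In4 (cB S T B) := by
  unfold cB
  have h3 : In4 (DDq T ^ 3) := by
    rw [pow_succ, pow_two]
    exact ((DDq_in4 T).mul (DDq_in4 T)).mul (DDq_in4 T)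
  have h2 : In4 (DDq B ^ 2) := by
    rw [pow_two]
    exact (DDq_in4 B).mul (DDq_in4 B)
  exact ((DDq_in4 S).mul h3).mul h2

theorem dC_ne (k : ZMod 4) (j : Fin 4) (S T B : Finset Pg) : dC k j S T B ≠ 0 :=
  mul_ne_zero (mul_ne_zero (pow_ne_zero _ isUnit_iO.ne_zero) (pow_ne_zero _ lam_ne_zero))
    (cB_in4 S T B).ne_zero

theorem not_dvd_dC {π : 𝓞 K} (h : Prime π) (h3 : ¬ π ∣ lam) (hS : ∀ q ∈ S ∪ T ∪ B, ¬ π ∣ q.1) :
    ¬ π ∣ dC k j S T B := by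
  have h4 : ∀ P : Finset Pg, P ⊆ S ∪ T ∪ B → ¬ π ∣ DDq P := by
    intro P hP hd
    obtain ⟨q, hq, h2⟩ := h.exists_mem_finset_dvd hd
    exact hS q (hP hq) h2
  unfold dC
  intro hd
  rcases h.dvd_or_dvd hd with h1 | h1
  · rcases h.dvd_or_dvd h1 with h2 | h2
    · exact not_dvd_of_unit h (isUnit_iO.pow _) h2
    · exact h3 (h.dvd_of_dvd_pow h2)
  · rcases h.dvd_or_dvd h1 with h2 | h2
    · rcases h.dvd_or_dvd h2 with h5 | h5
      · exact h4 S (subset_union_left.trans subset_union_left) h5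
      · exact h4 T (subset_union_right.trans subset_union_left) (h.dvd_of_dvd_pow h5)
    · exact h4 B subset_union_right (h.dvd_of_dvd_pow h2)

theorem DDq_in01 {P R : Finset Pg} (h : P ⊆ R) : ∏ q ∈ R, q.1 ^ (in01 P q).val = DDq P := by
  unfold DDq
  have h1 : ((1 : ZMod 2)).val = 1 := rfl
  rw [← prod_subset h fun q _ hq => by rw [in01_not hq, ZMod.val_zero, pow_zero]]
  exact prod_congr rfl fun q hq => by rw [in01_of hq, h1, pow_one]

theorem pow_j (j : Fin 4) : lam ^ j.val = (lam ^ (j.val / 2)) ^ 2 *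
    lam ^ ((j.val : ZMod 2)).val := by
  have h1 : ∀ j : Fin 4, j.val = j.val / 2 * 2 + ((j.val : ZMod 2)).val := by decide
  conv_lhs => rw [h1 j]
  rw [pow_add, pow_mul]

/-- `D` as a class -/
theorem dC_gp (hd : Dj S T B) : ∃ m : 𝓞 K, m ≠ 0 ∧ dC k j S T B =
    m ^ 2 * gp4 (S ∪ T ∪ B) (md k) (j.val : ZMod 2) (in01 (S ∪ T)) := by
  obtain ⟨c, hc, hc'⟩ := ipow_md k
  refine ⟨c * lam ^ (j.val / 2) * (DDq T * DDq B), mul_ne_zero (mul_ne_zero hc
    (pow_ne_zero _ lam_ne_zero)) (mul_ne_zero (DDq_in4 T).ne_zero (DDq_in4 B).ne_zero), ?_⟩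
  unfold gp4 dC
  rw [DDq_in01 subset_union_left, DDq_union hd.st, hc', pow_j j]
  ring

theorem dC_pow (hd : Dj S T B) (t : ZMod 2) : ∃ m : 𝓞 K, m ≠ 0 ∧ dC k j S T B ^ t.val =
    m ^ 2 * gp4 (S ∪ T ∪ B) (t * md k) (t * (j.val : ZMod 2)) (fun q => t * in01 (S ∪ T) q) := by
  have h0 : ∀ e : ZMod 2, e = 0 ∨ e = 1 := by decide
  have h1 : ((1 : ZMod 2)).val = 1 := rfl
  rcases h0 t with rfl | rfl
  · refine ⟨1, one_ne_zero, ?_⟩
    have h2 : ∏ q ∈ S ∪ T ∪ B, q.1 ^ ((0 : ZMod 2) * in01 (S ∪ T) q).val = (1 : 𝓞 K) := by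
      refine prod_eq_one fun q _ => ?_
      rw [zero_mul, ZMod.val_zero, pow_zero]
    unfold gp4
    rw [h2, zero_mul, zero_mul, ZMod.val_zero, pow_zero, pow_zero, pow_zero, one_pow]
    ring
  · obtain ⟨m, hm, h⟩ := dC_gp (k := k) (j := j) hd
    refine ⟨m, hm, ?_⟩
    rw [h1, pow_one, one_mul, one_mul, h]
    congr 2
    funext q
    rw [one_mul]

/-- `a D ^ t` as a class -/
theorem cl_mul_powB (hd : Dj S T B) {a : K} {al w : ZMod 2} {V : Pg → ZMod 2} {m : K} (hm : m ≠ 0)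
    (ha : a = m ^ 2 * (gp4 (S ∪ T ∪ B) al w V : K)) (k : ZMod 4) (j : Fin 4) (t : ZMod 2) :
    ∃ m : K, m ≠ 0 ∧ a * (dC k j S T B : K) ^ t.val =
      m ^ 2 * (gp4 (S ∪ T ∪ B) (al + t * md k) (w + t * (j.val : ZMod 2))
        (fun q => V q + t * in01 (S ∪ T) q) : K) := by
  obtain ⟨n, hn, h1⟩ := dC_pow (k := k) (j := j) hd t
  obtain ⟨r, hr, h2⟩ := gp4_mul (S ∪ T ∪ B) al w (t * md k) (t * (j.val : ZMod 2)) V
    (fun q => t * in01 (S ∪ T) q)
  refine ⟨m * n * r, mul_ne_zero (mul_ne_zero hm (coe_ne hn)) (coe_ne hr), ?_⟩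
  have e1 : (dC k j S T B : K) ^ t.val = (n : K) ^ 2 *
      (gp4 (S ∪ T ∪ B) (t * md k) (t * (j.val : ZMod 2)) (fun q => t * in01 (S ∪ T) q) : K) := by
    rw [← map_pow]
    rw [h1, map_mul, map_pow]
  have e2 : (gp4 (S ∪ T ∪ B) al w V : K) * (gp4 (S ∪ T ∪ B) (t * md k) (t * (j.val : ZMod 2))
      (fun q => t * in01 (S ∪ T) q) : K) = (r : K) ^ 2 *
      (gp4 (S ∪ T ∪ B) (al + t * md k) (w + t * (j.val : ZMod 2))
        (fun q => V q + t * in01 (S ∪ T) q) : K) := by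
    rw [← map_mul, h2, map_mul, map_pow]
  rw [ha, e1]
  linear_combination (m ^ 2 * (n : K) ^ 2) * e2

/-! ### the rows -/

theorem selB_cl {a : K} (ha : a ≠ 0)
    (h : ∀ v : HeightOneSpectrum (𝓞 K), GLoc4 (v.valuation K) (dC k j S T B : K) a) :
    ∃ (al w : ZMod 2) (V : Pg → ZMod 2) (m : K), m ≠ 0 ∧
      a = m ^ 2 * (gp4 (S ∪ T ∪ B) al w V : K) := by
  refine decomp4 (S ∪ T ∪ B) a ha fun π hπ h3 hS => ?_
  exact loc4_even _ (val_four_odd hπ h3) (pv_one hπ (not_dvd_dC hπ h3 hS)) (h _)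

theorem val_dC_odd (hd : Dj S T B) {q : Pg} (hq : q ∈ S ∪ T) :
    ¬ IsSquare ((pv q.1 q.prime).valuation K (dC k j S T B : K)) := by
  obtain ⟨m, hm, h⟩ := dC_gp (k := k) (j := j) hd
  have h2 : ((1 : ZMod 2)).val = 1 := rfl
  have e1 : (pv q.1 q.prime).valuation K ((m ^ 2 * (q.1 * gp4 ((S ∪ T ∪ B).erase q) (md k)
      (j.val : ZMod 2) (in01 (S ∪ T))) : 𝓞 K) : K) =
      exp (-1) * ((pv q.1 q.prime).valuation K (m : K)) ^ 2 := by
    push_cast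
    rw [map_mul, map_pow, map_mul, pv_self, pv_one q.prime (not_dvd_gp4_erase _ _ _), mul_one,
      mul_comm]
  rw [h, gp4_erase (mem_union_left _ hq), in01_of hq, h2, pow_one, e1,
    isSquare_mul_sq ((Valuation.ne_zero_iff _).2 (coe_ne hm))]
  intro h3
  exact absurd (exp_odd h3) (by decide)

/-- the row at a prime of `S ∪ T` -/
theorem selB_rowQ (hd : Dj S T B) {q : Pg} (hq : q ∈ S ∪ T) {a : K} {al w : ZMod 2}
    {V : Pg → ZMod 2} {m : K} (hm : m ≠ 0) (ha : a = m ^ 2 * (gp4 (S ∪ T ∪ B) al w V : K))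
    (h : GLoc4 ((pv q.1 q.prime).valuation K) (dC k j S T B : K) a) :
    (al + V q * md k) * aa q.1 + (w + V q * (j.val : ZMod 2)) * c2 q lam +
      ∑ p ∈ (S ∪ T ∪ B).erase q, (V p + V q * in01 (S ∪ T) p) * s4 q p = 0 := by
  have h4 := val_four_odd q.prime (not_dvd_lam4 q)
  obtain ⟨t, ht⟩ : ∃ t : ZMod 2,
      Sq ((pv q.1 q.prime).valuation K) (a * (dC k j S T B : K) ^ t.val) := by
    rcases loc4_bad _ iK_sq' h4 (coe_ne (dC_ne k j S T B)) (val_dC_odd hd hq) h with h1 | h1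
    · exact ⟨0, by rwa [ZMod.val_zero, pow_zero, mul_one]⟩
    · refine ⟨1, ?_⟩
      have h2 : ((1 : ZMod 2)).val = 1 := rfl
      rwa [h2, pow_one]
  obtain ⟨n, hn, h1⟩ := cl_mul_powB hd hm ha k j t
  rw [h1, mul_comm] at ht
  obtain ⟨h2, h3⟩ := row_sq (mem_union_left _ hq) (Sq.of_mul_sq hn ht)
  have h5 : t = V q := by
    rw [in01_of hq, mul_one] at h2
    have h6 : ∀ x y : ZMod 2, x + y = 0 → y = x := by decide
    exact h6 _ _ h2
  rw [← h5]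
  exact h3

/-- `D / b²` -/
theorem c2_dC (hd : Dj S T B) {b : Pg} (hb : b ∈ B) :
    ¬ b.1 ∣ dC k j S T (B.erase b) ∧ c2 b (dC k j S T (B.erase b)) =
      ∑ p ∈ S ∪ T, s4 b p + kxB k j b := by
  have hbP : b ∉ S ∪ T := disjoint_right.1 (Dj_pb hd) hb
  have hR : S ∪ T ∪ B.erase b = (S ∪ T ∪ B).erase b := by
    rw [erase_union_distrib, erase_eq_of_notMem hbP]
  have h1 : ¬ b.1 ∣ dC k j S T (B.erase b) := by
    refine not_dvd_dC b.prime (not_dvd_lam4 b) fun q hq => ?_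
    rw [hR] at hq
    exact Pg.not_dvd (ne_of_mem_erase hq).symm
  refine ⟨h1, ?_⟩
  obtain ⟨m, hm, h⟩ := dC_gp (k := k) (j := j) (Dj_erase hd b)
  have hbm : ¬ b.1 ∣ m := fun h2 => h1 (by rw [h]; exact (h2.trans (dvd_pow_self m two_ne_zero)).mul_right _)
  have hbm2 : ¬ b.1 ∣ m ^ 2 := fun h2 => hbm (b.prime.dvd_of_dvd_pow h2)
  have hg : ¬ b.1 ∣ gp4 ((S ∪ T ∪ B).erase b) (md k) (j.val : ZMod 2) (in01 (S ∪ T)) :=
    not_dvd_gp4_erase _ _ _
  rw [h, hR, c2_mul b hbm2 hg, c2_sq b hbm, zero_add, c2_gp4 (mem_union_right _ hb), c2_lam]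
  have h3 : ∑ p ∈ (S ∪ T ∪ B).erase b, in01 (S ∪ T) p * s4 b p = ∑ p ∈ S ∪ T, s4 b p := by
    have hsub : S ∪ T ⊆ (S ∪ T ∪ B).erase b := fun p hp =>
      mem_erase.2 ⟨fun e => hbP (e ▸ hp), mem_union_left _ hp⟩
    rw [← sum_subset hsub fun p _ hp => by rw [in01_not hp, zero_mul]]
    exact sum_congr rfl fun p hp => by rw [in01_of hp, one_mul]
  rw [h3]
  unfold kxB
  ring

/-- the row at a prime of `B` -/
theorem selB_rowV (hd : Dj S T B) {b : Pg} (hb : b ∈ B) {a : K} {al w : ZMod 2}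
    {V : Pg → ZMod 2} {m : K} (hm : m ≠ 0) (ha : a = m ^ 2 * (gp4 (S ∪ T ∪ B) al w V : K))
    (h : GLoc4 ((pv b.1 b.prime).valuation K) (dC k j S T B : K) a) :
    (b ∉ VB k j S T B → V b = 0) ∧ (b ∈ VB k j S T B →
      al * aa b.1 + w * c2 b lam + ∑ p ∈ (S ∪ T ∪ B).erase b, V p * s4 b p =
        V b * rhB k j S T B b) := by
  obtain ⟨h1, h2⟩ := c2_dC (k := k) (j := j) hd hb
  rw [gp4_erase (mem_union_right _ hb)] at ha
  rw [dC_erase hb] at h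
  obtain ⟨h3, h4⟩ := row_two b rfl hm h1 (not_dvd_gp4_erase _ _ _) ha h
  have hmem : b ∈ VB k j S T B ↔ c2 b (dC k j S T (B.erase b)) = 0 := by
    unfold VB
    rw [mem_filter, h2]
    exact ⟨fun h5 => h5.2, fun h5 => ⟨hb, h5⟩⟩
  have h0 : ∀ e : ZMod 2, e ≠ 0 → e = 1 := by decide
  refine ⟨fun h5 => h3 (h0 _ fun h6 => h5 (hmem.2 h6)), fun h5 => ?_⟩
  have h6 := h4 (hmem.1 h5)
  rw [c2_gp4 (mem_union_right _ hb)] at h6
  rw [h6]
  rfl

end

end Pool.Agent.Lib.MP_1a91b9_ntQ.C
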