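import Pool.Agent.Lib.MP_1a91b9_ntQ.C.SelC5
import Pool.Agent.Lib.MP_1a91b9_ntQ.B.CritB

/-!
# MP_1a91b9_nt (quartic twists), part B: the local conditions at the primes of `D`, every exponent

`D = i ^ k lam ^ j c`, `c = ∏ (q ∈ S) q ∏ (q ∈ T) q ^ 3 ∏ (q ∈ B) q ^ 2`. At `q ∈ S ∪ T` the value of `D`
is odd: `a` or `a D` is a square. At `b ∈ B`, `D = b ^ 2 D'`: `a` or `a D'` is a square, or
`a b r` is a square and `r ^ 2 = D'` modulo `b`. `selB_rows`: the class of a Selmer element and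
its rows.
-/

set_option autoImplicit false
set_option linter.unusedSectionVars false
set_option linter.unusedVariables false

namespace Pool.Agent.Lib.MP_1a91b9_ntQ.C.C9

open NumberField Finset WithZero IsDedekindDomain Pool.Agent.Lib.MP_1a91b9_nuT
open Pool.Agent.Lib.MP_1a91b9_ntQ
open Pool.Agent.Lib.MP_1a91b9_ntH.C (Sq exists_nu isSquare_exp nu_one)

noncomputable section

/-! ### the local statement -/

section loc

variable {L : Type*} [Field L] [CharZero L] {ν : Valuation L ℤᵐ⁰}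

/-- the points with a small abscissa -/
theorem ptB_small {i D x : L} (hi : i ^ 2 = -1) (h4 : ν 4 = 1) (hD0 : D ≠ 0)
    (h0 : ν (x ^ 2) < ν D) (hx : Sq ν (x * (x ^ 2 - D))) : Sq ν (x * D) := by
  have hνD : ν D ≠ 0 := ν.ne_zero_iff.2 hD0
  have hx0 : x ≠ 0 := fun h => Sq_ne h4.le hx (by rw [h, zero_mul])
  have hxx : x ^ 2 - D ≠ 0 := fun h' => h0.ne (by rw [sub_eq_zero.1 h'])
  refine Sq.neg' hi (Sq.congr' h4.le hx ?_)
  have e : -(x * D) / (x * (x ^ 2 - D)) - 1 = -(x ^ 2 / (x ^ 2 - D)) := by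
    field_simp
    ring
  rw [e, Valuation.map_neg, map_div₀, nu_subr h0, h4]
  exact (div_lt_one₀ (zero_lt_iff.2 hνD)).2 h0

/-- the points with a big abscissa -/
theorem ptB_big {D x : L} (h4 : ν 4 = 1) (h0 : ν D < ν (x ^ 2)) (hx : Sq ν (x * (x ^ 2 - D))) :
    Sq ν x := by
  have hx0 : x ≠ 0 := fun h => Sq_ne h4.le hx (by rw [h, zero_mul])
  have hνx : ν (x ^ 2) ≠ 0 := ν.ne_zero_iff.2 (pow_ne_zero 2 hx0)
  have hxx : x ^ 2 - D ≠ 0 := fun h' => h0.ne (by rw [sub_eq_zero.1 h'])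
  refine Sq.of_mul_sq hx0 ?_
  have e : x * x ^ 2 = x ^ 3 := by ring
  rw [e]
  refine Sq.congr' h4.le hx ?_
  have e : x ^ 3 / (x * (x ^ 2 - D)) - 1 = D / (x ^ 2 - D) := by
    field_simp
    ring
  rw [e, map_div₀, nu_subl h0, h4]
  exact (div_lt_one₀ (zero_lt_iff.2 hνx)).2 h0

/-- **the value of `D` is `exp (-2)`** -/
theorem locB_two {i D D' a π : L} (hi : i ^ 2 = -1) (h4 : ν 4 = 1) (hπ : ν π = exp (-1))
    (hD' : ν D' = 1) (hD : D = π ^ 2 * D') (h : GLoc4 ν D a) :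
    Sq ν a ∨ Sq ν (a * D') ∨ ∃ r : L, ν (r ^ 2 - D') < 1 ∧ Sq ν (a * (π * r)) := by
  have hπ0 : π ≠ 0 := by
    rw [← ν.ne_zero_iff, hπ]
    exact exp_ne_zero
  have hD'0 : D' ≠ 0 := by
    rw [← ν.ne_zero_iff, hD']
    exact one_ne_zero
  have hD0 : D ≠ 0 := by
    rw [hD]
    exact mul_ne_zero (pow_ne_zero 2 hπ0) hD'0
  have h16 : ν 16 = 1 := by
    have e : (16 : L) = 4 * 4 := by norm_num
    rw [e, map_mul, h4, one_mul]
  have hνD : ν D = exp (-2) := by
    rw [hD, map_mul, map_pow, hπ, hD', mul_one, ← exp_nsmul]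
    rfl
  have key : ∀ x : L, Sq ν (x * D) → Sq ν (x * D') := by
    intro x hx
    refine Sq.of_mul_sq hπ0 ?_
    have e : x * D' * π ^ 2 = x * D := by
      rw [hD]
      ring
    rwa [e]
  rcases h with h | h | ⟨x, hx0, hx, h⟩ | ⟨x, hx0, hx, h⟩
  · exact Or.inl h
  · exact Or.inr (Or.inl (key _ h))
  · refine Or.inr (Or.inr ⟨x / π, ?_, ?_⟩)
    · rw [h16] at hx
      have e : (x / π) ^ 2 - D' = (x ^ 2 / D - 1) * D' := by
        rw [hD]
        field_simp
      rw [e, map_mul, hD', mul_one]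
      exact hx
    · have e : a * (π * (x / π)) = a * x := by field_simp
      rwa [e]
  · obtain ⟨n, hn⟩ := exists_nu ν hx0
    have hx2 : ν (x ^ 2) = exp (2 * n) := by
      rw [map_pow, hn, ← exp_nsmul]
      congr 1
    rcases lt_trichotomy n (-1) with h1 | h1 | h1
    · right; left
      have h0 : ν (x ^ 2) < ν D := by
        rw [hx2, hνD, exp_lt_exp]
        omega
      have h2 := key _ (ptB_small hi h4 hD0 h0 hx)
      exact Sq.trans' h4.le h h2
    · right; right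
      obtain ⟨r, hr⟩ : ∃ r : L, x = π * r := ⟨x / π, by field_simp⟩
      refine ⟨r, ?_, by rwa [← hr]⟩
      have hr1 : ν r = 1 := by
        rw [hr, map_mul, hπ, h1] at hn
        have h6 : exp (-1 : ℤ) * ν r = exp (-1) * 1 := by rw [mul_one]; exact hn
        exact mul_left_cancel₀ exp_ne_zero h6
      have hev := hx.even h4.le
      have e1 : x * (x ^ 2 - D) = π ^ 3 * (r * (r ^ 2 - D')) := by
        rw [hr, hD]
        ring
      rw [e1, map_mul, map_mul, hr1, one_mul, map_pow, hπ] at hev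
      have h3 : ν (r ^ 2 - D') ≤ 1 := nu_sub_le' (by rw [map_pow, hr1, one_pow]) hD'.le
      refine lt_of_le_of_ne h3 fun h5 => ?_
      rw [h5, mul_one, ← exp_nsmul, isSquare_exp] at hev
      exact absurd hev (by decide)
    · left
      have h0 : ν D < ν (x ^ 2) := by
        rw [hx2, hνD, exp_lt_exp]
        omega
      exact h.cancel h4.le (ptB_big h4 h0 hx)

/-- **the converse of `locB_two`** -/
theorem convB_two {D D' a π : L} (h4 : ν 4 = 1) (hπ : ν π = exp (-1))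
    (hD' : ν D' = 1) (hD : D = π ^ 2 * D')
    (h : Sq ν a ∨ Sq ν (a * D') ∨ ∃ r : L, ν (r ^ 2 - D') < 1 ∧ Sq ν (a * (π * r))) :
    GLoc4 ν D a := by
  have hπ0 : π ≠ 0 := by
    rw [← ν.ne_zero_iff, hπ]
    exact exp_ne_zero
  have hD'0 : D' ≠ 0 := by
    rw [← ν.ne_zero_iff, hD']
    exact one_ne_zero
  have h16 : ν 16 = 1 := by
    have e : (16 : L) = 4 * 4 := by norm_num
    rw [e, map_mul, h4, one_mul]
  rcases h with h | h | ⟨r, hr, h⟩
  · exact Or.inl h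
  · refine Or.inr (Or.inl ?_)
    have e : a * D = a * D' * π ^ 2 := by
      rw [hD]
      ring
    rw [e]
    exact Sq_mul_sq hπ0 h
  · refine Or.inr (Or.inr (Or.inl ⟨π * r, fun h0 => Sq_ne h4.le h (by rw [h0, mul_zero]), ?_, h⟩))
    rw [h16]
    have e : (π * r) ^ 2 / D - 1 = (r ^ 2 - D') / D' := by
      rw [hD]
      field_simp
    rw [e, map_div₀, hD', div_one]
    exact hr

end loc

/-! ### the number `D` as a class -/

/-- the indicator of a set -/
def inS (U : Finset Pg) (q : Pg) : ZMod 2 := if q ∈ U then 1 else 0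

theorem gp4_inS {U A : Finset Pg} (h : U ⊆ A) (j l : ZMod 2) :
    gp4 U j l (fun _ => 1) = gp4 A j l (inS U) := by
  unfold gp4
  congr 1
  rw [← prod_subset h]
  · refine prod_congr rfl fun q hq => ?_
    unfold inS
    rw [if_pos hq]
  · intro q _ hq
    unfold inS
    rw [if_neg hq, ZMod.val_zero, pow_zero]

theorem pow_val_nat (x : 𝓞 K) (n : ℕ) : ∃ e : ℕ, x ^ n = (x ^ e) ^ 2 * x ^ ((n : ZMod 2)).val := by
  refine ⟨n / 2, ?_⟩
  rw [← pow_mul, ← pow_add, ZMod.val_natCast]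
  congr 1
  omega

/-- `D` modulo squares -/
theorem dB_gp4 (k : ZMod 4) (j : Fin 4) {S T : Finset Pg} (B : Finset Pg) (h : Disjoint S T)
    {A : Finset Pg} (hA : S ∪ T ⊆ A) : ∃ m : 𝓞 K, m ≠ 0 ∧
      dB k j S T B = m ^ 2 * gp4 A (md k) (j.val : ZMod 2) (inS (S ∪ T)) := by
  obtain ⟨e, he⟩ := pow_val_nat lam j.val
  have h1 : ∀ k : ZMod 4, ∃ e : ℕ, k.val = 2 * e + (md k).val := by
    intro k
    have h2 : ∀ k : ZMod 4, k.val = 2 * (k.val / 2) + (md k).val := by decide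
    exact ⟨_, h2 k⟩
  obtain ⟨f, hf⟩ := h1 k
  refine ⟨iO ^ f * lam ^ e * DDq T * DDq B, mul_ne_zero (mul_ne_zero (mul_ne_zero
    (pow_ne_zero _ isUnit_iO.ne_zero) (pow_ne_zero _ lam_ne_zero)) (DDq_in4 T).ne_zero)
    (DDq_in4 B).ne_zero, ?_⟩
  rw [← gp4_inS hA]
  have h3 : (∏ q ∈ S ∪ T, q.1 ^ ((1 : ZMod 2)).val) = DDq S * DDq T := by
    have h4 : ((1 : ZMod 2)).val = 1 := rfl
    rw [← DDq_union h]
    unfold DDq
    exact prod_congr rfl fun q _ => by rw [h4, pow_one]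
  unfold dB cB gp4
  rw [h3, he, hf, pow_add, pow_mul]
  have e1 : (iO ^ 2) ^ f = (iO ^ f) ^ 2 := by rw [← pow_mul, ← pow_mul, mul_comm]
  rw [e1]
  ring

/-- `D ^ t` modulo squares -/
theorem dB_pow (k : ZMod 4) (j : Fin 4) {S T : Finset Pg} (B : Finset Pg) (h : Disjoint S T)
    {A : Finset Pg} (hA : S ∪ T ⊆ A) (t : ZMod 2) : ∃ m : 𝓞 K, m ≠ 0 ∧
      dB k j S T B ^ t.val = m ^ 2 * gp4 A (t * md k) (t * (j.val : ZMod 2))
        (fun q => t * inS (S ∪ T) q) := by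
  have h0 : ∀ e : ZMod 2, e = 0 ∨ e = 1 := by decide
  have h1 : ((1 : ZMod 2)).val = 1 := rfl
  rcases h0 t with rfl | rfl
  · refine ⟨1, one_ne_zero, ?_⟩
    have h2 : ∏ q ∈ A, q.1 ^ ((0 : ZMod 2) * inS (S ∪ T) q).val = (1 : 𝓞 K) := by
      refine prod_eq_one fun q _ => ?_
      rw [zero_mul, ZMod.val_zero, pow_zero]
    unfold gp4
    rw [h2, zero_mul, zero_mul, ZMod.val_zero, pow_zero, pow_zero, pow_zero, one_pow]
    ring
  · obtain ⟨m, hm, h⟩ := dB_gp4 k j B h hA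
    refine ⟨m, hm, ?_⟩
    rw [h1, pow_one, one_mul, one_mul, h]
    have e : (fun q : Pg => (1 : ZMod 2) * inS (S ∪ T) q) = inS (S ∪ T) :=
      funext fun q => one_mul _
    rw [e]

/-- `a D ^ t` as a class -/
theorem clB_mul_pow {S T B A : Finset Pg} (h : Disjoint S T) (hA : S ∪ T ⊆ A) {a : K}
    {al w : ZMod 2} {f : Pg → ZMod 2} {m : K} (hm : m ≠ 0) (ha : a = m ^ 2 * (gp4 A al w f : K))
    (k : ZMod 4) (j : Fin 4) (t : ZMod 2) :
    ∃ n : K, n ≠ 0 ∧ a * (dB k j S T B : K) ^ t.val =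
      n ^ 2 * (gp4 A (al + t * md k) (w + t * (j.val : ZMod 2))
        (fun q => f q + t * inS (S ∪ T) q) : K) := by
  obtain ⟨n, hn, h1⟩ := dB_pow k j B h hA t
  obtain ⟨r, hr, h2⟩ := gp4_mul A al w (t * md k) (t * (j.val : ZMod 2)) f
    (fun q => t * inS (S ∪ T) q)
  refine ⟨m * n * r, mul_ne_zero (mul_ne_zero hm (coe_ne hn)) (coe_ne hr), ?_⟩
  have e1 : (dB k j S T B : K) ^ t.val = (n : K) ^ 2 *
      (gp4 A (t * md k) (t * (j.val : ZMod 2)) (fun q => t * inS (S ∪ T) q) : K) := by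
    rw [← map_pow]
    rw [h1, map_mul, map_pow]
    rfl
  have e2 : (gp4 A al w f : K) *
      (gp4 A (t * md k) (t * (j.val : ZMod 2)) (fun q => t * inS (S ∪ T) q) : K) = (r : K) ^ 2 *
      (gp4 A (al + t * md k) (w + t * (j.val : ZMod 2)) (fun q => f q + t * inS (S ∪ T) q) : K) := by
    rw [← map_mul, h2, map_mul, map_pow]
  rw [ha, e1]
  linear_combination (m ^ 2 * (n : K) ^ 2) * e2

theorem dB_ne (k : ZMod 4) (j : Fin 4) (S T B : Finset Pg) : dB k j S T B ≠ 0 := by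
  unfold dB cB
  exact mul_ne_zero (mul_ne_zero (pow_ne_zero _ isUnit_iO.ne_zero) (pow_ne_zero _ lam_ne_zero))
    (mul_ne_zero (mul_ne_zero (DDq_in4 S).ne_zero (pow_ne_zero _ (DDq_in4 T).ne_zero))
      (pow_ne_zero _ (DDq_in4 B).ne_zero))

/-- the value of `D` at `q ∈ S ∪ T` is odd -/
theorem val_dB_odd {k : ZMod 4} {j : Fin 4} {S T B : Finset Pg} (h : Disjoint S T) {q : Pg}
    (hq : q ∈ S ∪ T) : ¬ IsSquare ((pv q.1 q.prime).valuation K (dB k j S T B : K)) := by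
  obtain ⟨m, hm, h1⟩ := dB_gp4 k j B h (Subset.refl (S ∪ T))
  have h2 : ((1 : ZMod 2)).val = 1 := rfl
  have hin : inS (S ∪ T) q = 1 := if_pos hq
  have e1 : (pv q.1 q.prime).valuation K ((m ^ 2 * (q.1 * gp4 ((S ∪ T).erase q) (md k)
      (j.val : ZMod 2) (inS (S ∪ T))) : 𝓞 K) : K) =
      exp (-1) * ((pv q.1 q.prime).valuation K (m : K)) ^ 2 := by
    push_cast
    rw [map_mul, map_pow, map_mul, pv_self, pv_one q.prime (not_dvd_gp4_erase _ _ _), mul_one,
      mul_comm]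
  have e2 : (pv q.1 q.prime).valuation K (dB k j S T B : K) =
      exp (-1) * ((pv q.1 q.prime).valuation K (m : K)) ^ 2 := by
    rw [h1, gp4_erase hq, hin, h2, pow_one]
    exact e1
  rw [e2, isSquare_mul_sq ((Valuation.ne_zero_iff _).2 (coe_ne hm))]
  intro h3
  exact absurd (exp_odd h3) (by decide)

/-! ### the primes of `B` -/

/-- `D = b ^ 2 D'` -/
theorem dB_erase {k : ZMod 4} {j : Fin 4} {S T B : Finset Pg} {b : Pg} (hb : b ∈ B) :
    dB k j S T B = b.1 ^ 2 * dB k j S T (B.erase b) := by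
  have h : DDq B = b.1 * DDq (B.erase b) := (mul_prod_erase B _ hb).symm
  unfold dB cB
  rw [h]
  ring

theorem not_dvd_dB {k : ZMod 4} {j : Fin 4} {S T B : Finset Pg} {π : 𝓞 K} (hπ : Prime π)
    (h3 : ¬ π ∣ lam) (h : ∀ q ∈ S ∪ T ∪ B, ¬ π ∣ q.1) : ¬ π ∣ dB k j S T B := by
  have key : ∀ U : Finset Pg, U ⊆ S ∪ T ∪ B → ¬ π ∣ DDq U := by
    intro U hU hd
    obtain ⟨q, hq, h2⟩ := hπ.exists_mem_finset_dvd hd
    exact h q (hU hq) h2
  unfold dB cB
  intro hd
  rcases hπ.dvd_or_dvd hd with h1 | h1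
  · rcases hπ.dvd_or_dvd h1 with h2 | h2
    · exact not_dvd_of_unit hπ (isUnit_iO.pow _) h2
    · exact h3 (hπ.dvd_of_dvd_pow h2)
  · rcases hπ.dvd_or_dvd h1 with h2 | h2
    · rcases hπ.dvd_or_dvd h2 with h4 | h4
      · exact key S (subset_union_left.trans subset_union_left) h4
      · exact key T (subset_union_right.trans subset_union_left) (hπ.dvd_of_dvd_pow h4)
    · exact key B subset_union_right (hπ.dvd_of_dvd_pow h2)

/-- `b` does not divide `D'` -/
theorem not_dvd_dB' {k : ZMod 4} {j : Fin 4} {S T B : Finset Pg} (hd : Dj S T B) {b : Pg}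
    (hb : b ∈ B) : ¬ b.1 ∣ dB k j S T (B.erase b) := by
  refine not_dvd_dB b.prime (not_dvd_lam4 b) fun q hq => Pg.not_dvd ?_
  rintro rfl
  rcases mem_union.1 hq with h | h
  · rcases mem_union.1 h with h | h
    · exact disjoint_left.1 hd.sb h hb
    · exact disjoint_left.1 hd.tb h hb
  · exact absurd rfl (ne_of_mem_erase h)

/-- the symbol of `D'` modulo `b` -/
theorem c2_dB {k : ZMod 4} {j : Fin 4} {S T B : Finset Pg} (hd : Dj S T B) {b : Pg} (hb : b ∈ B) :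
    c2 b (dB k j S T (B.erase b)) = ∑ p ∈ S ∪ T, s4 b p + kxB k j b := by
  have hbn : b ∉ S ∪ T := by
    intro h
    rcases mem_union.1 h with h | h
    · exact disjoint_left.1 hd.sb h hb
    · exact disjoint_left.1 hd.tb h hb
  obtain ⟨m, hm, h1⟩ := dB_gp4 k j (B.erase b) hd.st (subset_insert b (S ∪ T))
  have hnd := not_dvd_dB' (k := k) (j := j) hd hb
  rw [h1] at hnd
  have hin : inS (S ∪ T) b = 0 := if_neg hbn
  have hg : gp4 (insert b (S ∪ T)) (md k) (j.val : ZMod 2) (inS (S ∪ T)) =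
      gp4 ((insert b (S ∪ T)).erase b) (md k) (j.val : ZMod 2) (inS (S ∪ T)) := by
    rw [gp4_erase (mem_insert_self b (S ∪ T)), hin, ZMod.val_zero, pow_zero, one_mul]
  have hm2 : ¬ b.1 ∣ m := fun h => hnd ((h.trans (dvd_pow_self m two_ne_zero)).mul_right _)
  have hm3 : ¬ b.1 ∣ m ^ 2 := fun h => hm2 (b.prime.dvd_of_dvd_pow h)
  rw [h1, c2_mul b hm3 (by rw [hg]; exact not_dvd_gp4_erase _ _ _), c2_sq b hm2, zero_add, hg,
    c2_gp4 (mem_insert_self b (S ∪ T)), erase_insert hbn, c2_lam]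
  have e : ∑ p ∈ S ∪ T, inS (S ∪ T) p * s4 b p = ∑ p ∈ S ∪ T, s4 b p := by
    refine sum_congr rfl fun p hp => ?_
    unfold inS
    rw [if_pos hp, one_mul]
  rw [e]
  unfold kxB
  ring

theorem mem_VB {k : ZMod 4} {j : Fin 4} {S T B : Finset Pg} (hd : Dj S T B) {b : Pg}
    (hb : b ∈ B) : b ∈ VB k j S T B ↔ c2 b (dB k j S T (B.erase b)) = 0 := by
  rw [c2_dB hd hb]
  unfold VB
  rw [mem_filter]
  exact ⟨fun h => h.2, fun h => ⟨hb, h⟩⟩

theorem VB_sub {k : ZMod 4} {j : Fin 4} {S T B : Finset Pg} : VB k j S T B ⊆ B :=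
  filter_subset _ _

/-- the half of the symbol -/
theorem hf4_two (x : ZMod 4) : hf4 (2 * x) = md x := by
  revert x
  decide

/-- an element `r` with `r ^ 2 = D'` modulo `b` -/
theorem root_b {b : Pg} {D' : 𝓞 K} (hD' : ¬ b.1 ∣ D') {r : K}
    (hr : (pv b.1 b.prime).valuation K (r ^ 2 - (D' : K)) < 1) :
    ∃ n d : 𝓞 K, ¬ b.1 ∣ n ∧ ¬ b.1 ∣ d ∧ r * (d : K) = (n : K) ∧
      hf4 (c4 b D') = c2 b (n * d) ∧ c2 b D' = 0 := by
  have hvD := pv_one b.prime hD'
  have h1 : (pv b.1 b.prime).valuation K r = 1 := by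
    have h2 : (pv b.1 b.prime).valuation K (r ^ 2) = 1 := by
      have e : r ^ 2 = (D' : K) + (r ^ 2 - (D' : K)) := by ring
      rw [e, Valuation.map_add_eq_of_lt_left _ (by rw [hvD]; exact hr), hvD]
    rw [map_pow] at h2
    exact (pow_eq_one_iff_of_nonneg zero_le two_ne_zero).1 h2
  obtain ⟨n, ⟨d, hd⟩, hnd⟩ :=
    HeightOneSpectrum.exists_primeCompl_mul_eq_of_integer (pv b.1 b.prime) r h1.le
  have hnd' : r * (d : K) = (n : K) := hnd
  have hd' : ¬ b.1 ∣ d := fun hh => hd (Ideal.mem_span_singleton.2 hh)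
  have hvd := pv_one b.prime hd'
  have hn : ¬ b.1 ∣ n := by
    rw [← pv_lt b.prime, ← hnd', map_mul, h1, hvd, one_mul]
    exact lt_irrefl _
  refine ⟨n, d, hn, hd', hnd', ?_⟩
  have h2 : b.1 ∣ D' * d ^ 2 - n ^ 2 := by
    rw [← pv_lt b.prime]
    have h3 : ((D' * d ^ 2 - n ^ 2 : 𝓞 K) : K) = -(r ^ 2 - (D' : K)) * (d : K) ^ 2 := by
      have e1 : ((D' * d ^ 2 - n ^ 2 : 𝓞 K) : K) = (D' : K) * (d : K) ^ 2 - (n : K) ^ 2 := by
        push_cast
        rfl
      rw [e1, ← hnd']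
      ring
    rw [h3, map_mul, map_pow, hvd, one_pow, mul_one, Valuation.map_neg]
    exact hr
  have hdd : ¬ b.1 ∣ d ^ 2 := fun h => hd' (b.prime.dvd_of_dvd_pow h)
  have hxd : ¬ b.1 ∣ D' * d ^ 2 := fun h => (b.prime.dvd_or_dvd h).elim hD' hdd
  have h3 := c4_congr b hxd h2
  rw [c4_mul b hD' hdd, c4_pow b hd', c4_pow b hn] at h3
  have h4 : c4 b D' = 2 * (c4 b n - c4 b d) := by
    push_cast at h3
    linear_combination h3
  have h5 : ∀ x y : ZMod 4, md (x - y) = md x + md y := by decide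
  have h6 : c2 b (n * d) = md (c4 b n - c4 b d) := by
    rw [c2_mul b hn hd', h5]
    rfl
  refine ⟨by rw [h4, hf4_two, h6], ?_⟩
  unfold c2
  rw [h4, map_mul]
  have h7 : md 2 = 0 := rfl
  rw [h7, zero_mul]

/-! ### the rows -/

/-- a class at a prime of its set -/
theorem gp4_split {A : Finset Pg} {q : Pg} (hq : q ∈ A) {al w : ZMod 2} {f : Pg → ZMod 2} {m a : K}
    (ha : a = m ^ 2 * (gp4 A al w f : K)) :
    a = m ^ 2 * ((q.1 : K) ^ (f q).val * (gp4 (A.erase q) al w f : K)) := by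
  rw [ha, gp4_erase hq]
  push_cast
  rfl

/-- **the class of a Selmer element** -/
theorem selB_cl {k : ZMod 4} {j : Fin 4} {S T B : Finset Pg} (hd : Dj S T B) {a : K} (ha : a ≠ 0)
    (h : ∀ v : HeightOneSpectrum (𝓞 K), GLoc4 (v.valuation K) (dB k j S T B : K) a) :
    ∃ (al w : ZMod 2) (f : Pg → ZMod 2) (m : K), m ≠ 0 ∧
      a = m ^ 2 * (gp4 (S ∪ T ∪ VB k j S T B) al w f : K) := by
  refine decomp4 _ a ha fun π hπ h3 hS => ?_
  have h4 := val_four_odd hπ h3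
  by_cases hb : ∃ b ∈ B, π ∣ b.1
  · obtain ⟨b, hb, hπb⟩ := hb
    have h4b := val_four_odd b.prime (not_dvd_lam4 b)
    have hpv := pv_eq hπ b.prime hπb
    rw [hpv]
    have hnV : b ∉ VB k j S T B := fun h5 => hS b (mem_union_right _ h5) hπb
    have hD' := not_dvd_dB' (k := k) (j := j) hd hb
    have hvD := pv_one b.prime hD'
    have hDD : (dB k j S T B : K) = (b.1 : K) ^ 2 * (dB k j S T (B.erase b) : K) := by
      rw [dB_erase hb]
      push_cast
      rfl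
    rcases locB_two iK_sq' h4b (pv_self b.1 b.prime) hvD hDD (h _) with h5 | h5 | ⟨r, hr, h5⟩
    · exact h5.even h4b.le
    · have h6 := h5.even h4b.le
      rwa [map_mul, hvD, mul_one] at h6
    · obtain ⟨n, d, -, -, -, -, h6⟩ := root_b hD' hr
      exact absurd ((mem_VB hd hb).2 h6) hnV
  · push Not at hb
    refine loc4_even _ h4 (pv_one hπ (not_dvd_dB hπ h3 fun q hq => ?_)) (h _)
    rcases mem_union.1 hq with h5 | h5
    · exact hS q (mem_union_left _ h5)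
    · exact hb q h5

/-- the row at `q ∈ S ∪ T` -/
theorem selB_row {k : ZMod 4} {j : Fin 4} {S T B A : Finset Pg} (hd : Disjoint S T)
    (hA : S ∪ T ⊆ A) {a : K} {al w : ZMod 2} {f : Pg → ZMod 2} {m : K} (hm : m ≠ 0)
    (ha : a = m ^ 2 * (gp4 A al w f : K)) {q : Pg} (hq : q ∈ S ∪ T)
    (h : GLoc4 ((pv q.1 q.prime).valuation K) (dB k j S T B : K) a) :
    (al + f q * md k) * aa q.1 + (w + f q * (j.val : ZMod 2)) * bb q.1 +
      ∑ p ∈ A.erase q, (f p + f q * inS (S ∪ T) p) * s4 q p = 0 := by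
  have h4 := val_four_odd q.prime (not_dvd_lam4 q)
  have h2 : ((1 : ZMod 2)).val = 1 := rfl
  obtain ⟨t, ht⟩ : ∃ t : ZMod 2,
      Sq ((pv q.1 q.prime).valuation K) (a * (dB k j S T B : K) ^ t.val) := by
    rcases loc4_bad _ iK_sq' h4 (coe_ne (dB_ne k j S T B)) (val_dB_odd hd hq) h with h1 | h1
    · exact ⟨0, by rwa [ZMod.val_zero, pow_zero, mul_one]⟩
    · exact ⟨1, by rwa [h2, pow_one]⟩
  obtain ⟨n, hn, h1⟩ := clB_mul_pow (B := B) hd hA hm ha k j t
  rw [h1, mul_comm] at ht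
  obtain ⟨h5, h6⟩ := row_sq (hA hq) (Sq.of_mul_sq hn ht)
  have hin : inS (S ∪ T) q = 1 := if_pos hq
  rw [hin, mul_one] at h5
  have h7 : ∀ x y : ZMod 2, x + y = 0 → y = x := by decide
  have h8 : t = f q := h7 _ _ h5
  rw [← h8, ← c2_lam]
  exact h6

/-- the row at `b ∈ V` -/
theorem selB_rowV {k : ZMod 4} {j : Fin 4} {S T B A : Finset Pg} (hd : Dj S T B)
    {a : K} {al w : ZMod 2} {f : Pg → ZMod 2} {m : K} (hm : m ≠ 0)
    (ha : a = m ^ 2 * (gp4 A al w f : K)) {b : Pg} (hbA : b ∈ A) (hb : b ∈ VB k j S T B)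
    (h : GLoc4 ((pv b.1 b.prime).valuation K) (dB k j S T B : K) a) :
    al * aa b.1 + w * bb b.1 + rhB k j S T B b * f b + ∑ p ∈ A.erase b, f p * s4 b p = 0 := by
  have hbB : b ∈ B := VB_sub hb
  have h4 := val_four_odd b.prime (not_dvd_lam4 b)
  have hD' := not_dvd_dB' (k := k) (j := j) hd hbB
  have hvD := pv_one b.prime hD'
  have hDD : (dB k j S T B : K) = (b.1 : K) ^ 2 * (dB k j S T (B.erase b) : K) := by
    rw [dB_erase hbB]
    push_cast
    rfl
  have hb0 : (b.1 : K) ≠ 0 := coe_ne b.ne_zero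
  have hcase : ∀ _ : Sq ((pv b.1 b.prime).valuation K) a,
      al * aa b.1 + w * bb b.1 + rhB k j S T B b * f b + ∑ p ∈ A.erase b, f p * s4 b p = 0 := by
    intro h1
    rw [ha, mul_comm] at h1
    obtain ⟨h5, h6⟩ := row_sq hbA (Sq.of_mul_sq hm h1)
    rw [h5, mul_zero, add_zero, ← c2_lam]
    exact h6
  rcases locB_two iK_sq' h4 (pv_self b.1 b.prime) hvD hDD h with h5 | h5 | ⟨r, hr, h5⟩
  · exact hcase h5
  · exact hcase (h5.cancel h4.le (sq_of_c2_row b hD' ((mem_VB hd hbB).1 hb)))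
  · obtain ⟨n, d, hn, hdn, hrd, h6, -⟩ := root_b hD' hr
    have hd0 : (d : K) ≠ 0 := coe_ne fun h0 => hdn (h0 ▸ dvd_zero _)
    have hvn := pv_one b.prime hn
    have hvd := pv_one b.prime hdn
    have hvr : (pv b.1 b.prime).valuation K r = 1 := by
      have h7 := congrArg ((pv b.1 b.prime).valuation K) hrd
      rwa [map_mul, hvd, mul_one, hvn] at h7
    -- the exponent is odd
    have hf : f b = 1 := by
      have h0 : ∀ e : ZMod 2, e = 0 ∨ e = 1 := by decide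
      rcases h0 (f b) with h7 | h7
      · exfalso
        have h8 := h5.even h4.le
        rw [gp4_split hbA ha, h7, ZMod.val_zero, pow_zero, one_mul] at h8
        have e : m ^ 2 * (gp4 (A.erase b) al w f : K) * ((b.1 : K) * r) =
            ((b.1 : K) * ((gp4 (A.erase b) al w f : K) * r)) * m ^ 2 := by ring
        have h9 : IsSquare ((pv b.1 b.prime).valuation K
            (((b.1 : K) * ((gp4 (A.erase b) al w f : K) * r)) * m ^ 2)) := by
          rw [← e]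
          exact h8
        have hvb : (pv b.1 b.prime).valuation K (b.1 : K) = exp (-1) := pv_self b.1 b.prime
        have hvg : (pv b.1 b.prime).valuation K (gp4 (A.erase b) al w f : K) = 1 :=
          pv_one b.prime (not_dvd_gp4_erase _ _ _)
        rw [map_mul, map_pow, isSquare_mul_sq ((Valuation.ne_zero_iff _).2 hm), map_mul,
          map_mul, hvb, hvg, hvr, mul_one, mul_one] at h9
        exact absurd (exp_odd h9) (by decide)
      · exact h7
    have h2 : ((1 : ZMod 2)).val = 1 := rfl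
    -- `gp4 (A - b) n d` is a square
    have h7 : Sq ((pv b.1 b.prime).valuation K)
        (((gp4 (A.erase b) al w f) * (n * d) : 𝓞 K) : K) := by
      have e : (((gp4 (A.erase b) al w f) * (n * d) : 𝓞 K) : K) =
          a * ((b.1 : K) * r) * ((d : K) / (m * (b.1 : K))) ^ 2 := by
        rw [gp4_split hbA ha, hf, h2, pow_one]
        have e1 : (((gp4 (A.erase b) al w f) * (n * d) : 𝓞 K) : K) =
            (gp4 (A.erase b) al w f : K) * ((n : K) * (d : K)) := by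
          push_cast
          rfl
        rw [e1, ← hrd]
        field_simp
      rw [e]
      exact Sq_mul_sq (div_ne_zero hd0 (mul_ne_zero hm hb0)) h5
    have hnd : ¬ b.1 ∣ n * d := fun h8 => (b.prime.dvd_or_dvd h8).elim hn hdn
    have hG : ¬ b.1 ∣ gp4 (A.erase b) al w f := not_dvd_gp4_erase _ _ _
    have h8 := sq_c2 b (fun h9 => (b.prime.dvd_or_dvd h9).elim hG hnd) h4 h7
    rw [c2_mul b hG hnd, c2_gp4 hbA, ← h6, c2_lam] at h8
    have e : rhB k j S T B b = hf4 (c4 b (dB k j S T (B.erase b))) := rfl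
    rw [hf, mul_one, e]
    refine Eq.trans ?_ h8
    ring

/-- **The class and the rows of a Selmer element.** -/
theorem selB_rows {k : ZMod 4} {j : Fin 4} {S T B : Finset Pg} (hd : Dj S T B) {a : K}
    (ha : a ≠ 0)
    (h : ∀ v : HeightOneSpectrum (𝓞 K), GLoc4 (v.valuation K) (dB k j S T B : K) a) :
    ∃ (al w : ZMod 2) (f : Pg → ZMod 2) (m : K), m ≠ 0 ∧
      a = m ^ 2 * (gp4 (S ∪ T ∪ VB k j S T B) al w f : K) ∧
      (∀ q ∈ S ∪ T, kxB k j q * f q + ∑ p ∈ S ∪ T, s4 q p * (f q + f p) +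
        ∑ b ∈ VB k j S T B, s4 q b * f b + (al * aa q.1 + w * bb q.1) = 0) ∧
      ∀ b ∈ VB k j S T B, ∑ p ∈ S ∪ T, s4 p b * f p + (rhB k j S T B b * f b +
        ∑ u ∈ (VB k j S T B).erase b, s4 b u * f u) + (al * aa b.1 + w * bb b.1) = 0 := by
  obtain ⟨al, w, f, m, hm, hma⟩ := selB_cl hd ha h
  obtain ⟨V, hV⟩ : ∃ V, V = VB k j S T B := ⟨_, rfl⟩
  obtain ⟨U, hU⟩ : ∃ U, U = S ∪ T := ⟨_, rfl⟩
  have hdis : Disjoint (S ∪ T) (VB k j S T B) := by
    rw [disjoint_left]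
    intro q h1 h2
    rcases mem_union.1 h1 with h3 | h3
    · exact disjoint_left.1 hd.sb h3 (VB_sub h2)
    · exact disjoint_left.1 hd.tb h3 (VB_sub h2)
  refine ⟨al, w, f, m, hm, hma, fun q hq => ?_, fun b hb => ?_⟩
  · have h1 := selB_row hd.st subset_union_left hm hma hq (h (pv q.1 q.prime))
    have hqV : q ∉ VB k j S T B := disjoint_left.1 hdis hq
    rw [← hU, ← hV] at h1 hdis ⊢
    rw [← hU] at hq
    rw [← hV] at hqV
    have e1 : (U ∪ V).erase q = U.erase q ∪ V := by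
      rw [erase_union_distrib, erase_eq_of_notMem hqV]
    have hdis' : Disjoint (U.erase q) V := disjoint_of_subset_left (erase_subset _ _) hdis
    have e2 : ∑ p ∈ V, (f p + f q * inS U p) * s4 q p = ∑ b ∈ V, s4 q b * f b := by
      refine sum_congr rfl fun p hp => ?_
      have h2 : inS U p = 0 := if_neg fun h3 => disjoint_left.1 hdis h3 hp
      rw [h2, mul_zero, add_zero, mul_comm]
    have e3 : ∑ p ∈ U.erase q, (f p + f q * inS U p) * s4 q p =
        ∑ p ∈ U, s4 q p * (f q + f p) := by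
      rw [← add_sum_erase U _ hq]
      have h2 : ∀ x : ZMod 2, x + x = 0 := by decide
      rw [h2 (f q), mul_zero, zero_add]
      refine sum_congr rfl fun p hp => ?_
      have h2 : inS U p = 1 := if_pos (mem_of_mem_erase hp)
      rw [h2]
      ring
    rw [e1, sum_union hdis', e2, e3] at h1
    refine Eq.trans ?_ h1
    unfold kxB
    ring
  · have h1 := selB_rowV hd hm hma (mem_union_right _ hb) hb (h (pv b.1 b.prime))
    have hbU : b ∉ S ∪ T := fun h2 => disjoint_left.1 hdis h2 hb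
    obtain ⟨ρ, hρ⟩ : ∃ ρ, ρ = rhB k j S T B b := ⟨_, rfl⟩
    rw [← hρ] at h1 ⊢
    rw [← hU, ← hV] at h1 hdis ⊢
    rw [← hV] at hb
    rw [← hU] at hbU
    have e1 : (U ∪ V).erase b = U ∪ V.erase b := by
      rw [erase_union_distrib, erase_eq_of_notMem hbU]
    have hdis' : Disjoint U (V.erase b) := disjoint_of_subset_right (erase_subset _ _) hdis
    have e2 : ∑ p ∈ V.erase b, f p * s4 b p = ∑ u ∈ V.erase b, s4 b u * f u :=
      sum_congr rfl fun p _ => mul_comm _ _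
    have e3 : ∑ p ∈ U, f p * s4 b p = ∑ p ∈ U, s4 p b * f p := by
      refine sum_congr rfl fun p hp => ?_
      have hne : p ≠ b := fun h2 => hbU (h2 ▸ hp)
      rw [s4_symm hne, mul_comm]
    rw [e1, sum_union hdis', e2, e3] at h1
    refine Eq.trans ?_ h1
    ring

/-! ### the rows as products of matrices and vectors -/

section mat

variable (k : ZMod 4) (j : Fin 4) (S T B : Finset Pg) (f : Pg → ZMod 2)

theorem dg_B (q : Pg) : d4.dg (kvB k j) q = kxB k j q := by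
  unfold Dat2.dg kvB kxB d4
  rw [Fin.sum_univ_two]
  rfl

theorem bd_B (p : Fin 2 → ZMod 2) (q : Pg) (e : Unit) :
    d4.bd (PpB p) q e = p 0 * aa q.1 + p 1 * bb q.1 := by
  unfold Dat2.bd PpB d4
  rw [Fin.sum_univ_two]
  rfl

/-- the row sum at `q ∈ S ∪ T` -/
def rwU (q : Pg) : ZMod 2 := kxB k j q * f q + ∑ p ∈ S ∪ T, s4 q p * (f q + f p) +
  ∑ b ∈ VB k j S T B, s4 q b * f b

/-- the row sum at `b ∈ V` -/
def rwV (b : Pg) : ZMod 2 := ∑ p ∈ S ∪ T, s4 p b * f p + (rhB k j S T B b * f b +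
  ∑ u ∈ (VB k j S T B).erase b, s4 b u * f u)

theorem NB0_inl (z : Empty → ZMod 2) (q : ↥(S ∪ T)) :
    (NB0 k j S T B).mulVec (vec3 (S ∪ T) (VB k j S T B) f f z) (Sum.inl q) =
      rwU k j S T B f q := by
  unfold NB0
  rw [NV_inl, dg_B, Finset.univ_eq_empty, sum_empty, add_zero]
  rfl

theorem NB0_inrl (z : Empty → ZMod 2) (b : VB k j S T B) :
    (NB0 k j S T B).mulVec (vec3 (S ∪ T) (VB k j S T B) f f z) (Sum.inr (Sum.inl b)) =
      rwV k j S T B f b := by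
  unfold NB0
  rw [NV_inrl, Finset.univ_eq_empty, sum_empty, add_zero]
  rfl

theorem NB1_inl (p : Fin 2 → ZMod 2) (x z : ZMod 2) (q : ↥(S ∪ T)) :
    (NB1 k j p x S T B).mulVec (vec3 (S ∪ T) (VB k j S T B) f f fun _ => z) (Sum.inl q) =
      rwU k j S T B f q + (p 0 * aa q.1.1 + p 1 * bb q.1.1) * z := by
  unfold NB1
  rw [NV_inl, dg_B, Finset.univ_unique, sum_singleton, bd_B, ← add_assoc]
  rfl

theorem NB1_inrl (p : Fin 2 → ZMod 2) (x z : ZMod 2) (b : VB k j S T B) :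
    (NB1 k j p x S T B).mulVec (vec3 (S ∪ T) (VB k j S T B) f f fun _ => z)
      (Sum.inr (Sum.inl b)) = rwV k j S T B f b + (p 0 * aa b.1.1 + p 1 * bb b.1.1) * z := by
  unfold NB1
  rw [NV_inrl, Finset.univ_unique, sum_singleton, bd_B]
  have key : ∀ x y u t : ZMod 2, x + (y + u + t) = x + (y + u) + t := by
    intro x y u t
    ring
  exact key _ _ _ _

theorem NB1_inrr (p : Fin 2 → ZMod 2) (x z : ZMod 2) (e : Unit) :
    (NB1 k j p x S T B).mulVec (vec3 (S ∪ T) (VB k j S T B) f f fun _ => z)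
      (Sum.inr (Sum.inr e)) = ∑ q ∈ S ∪ T, (p 0 * aa q.1 + p 1 * bb q.1) * f q +
        (∑ b ∈ VB k j S T B, (p 0 * aa b.1 + p 1 * bb b.1) * f b + x * z) := by
  unfold NB1
  rw [NV_inrr, Finset.univ_unique, sum_singleton]
  simp only [bd_B]
  rfl

end mat

/-- **`selB_rows`** in the notation `rwU`, `rwV` -/
theorem selB_rw {k : ZMod 4} {j : Fin 4} {S T B : Finset Pg} (hd : Dj S T B) {a : K}
    (ha : a ≠ 0)
    (h : ∀ v : HeightOneSpectrum (𝓞 K), GLoc4 (v.valuation K) (dB k j S T B : K) a) :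
    ∃ (al w : ZMod 2) (f : Pg → ZMod 2) (m : K), m ≠ 0 ∧
      a = m ^ 2 * (gp4 (S ∪ T ∪ VB k j S T B) al w f : K) ∧
      (∀ q ∈ S ∪ T, rwU k j S T B f q = al * aa q.1 + w * bb q.1) ∧
      ∀ b ∈ VB k j S T B, rwV k j S T B f b = al * aa b.1 + w * bb b.1 := by
  obtain ⟨al, w, f, m, hm, hma, h1, h2⟩ := selB_rows hd ha h
  have e2 : ∀ x y : ZMod 2, x + y = 0 → x = y := by decide
  exact ⟨al, w, f, m, hm, hma, fun q hq => e2 _ _ (h1 q hq), fun b hb => e2 _ _ (h2 b hb)⟩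

end

end Pool.Agent.Lib.MP_1a91b9_ntQ.C.C9
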