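import Pool.Agent.Lib.MP_1a91b9_ntQ.B.SelD
import Pool.Agent.Lib.MP_1a91b9_ntQ.B.LamD

/-!
# MP_1a91b9_nt (quartic twists), part B: the Selmer elements in the 13 classes

`selB`: if the criterion `GdB k j S T B` holds, the Selmer elements for `D = dB k j S T B` are `1`
and `D` modulo squares.
-/

set_option autoImplicit false
set_option linter.unusedSectionVars false
set_option linter.unusedVariables false

namespace Pool.Agent.Lib.MP_1a91b9_ntQ.C

open NumberField Finset WithZero IsDedekindDomain Pool.Agent.Lib.MP_1a91b9_nuT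
open Pool.Agent.Lib.MP_1a91b9_ntQ
open Pool.Agent.Lib.MP_1a91b9_ntH.C (Sq exists_nu isSquare_exp nu_one)

noncomputable section

variable {k : ZMod 4} {j : Fin 4} {S T B : Finset Pg}

/-- The local condition at `lam`. -/
def LamP : Prop := ∀ (k : ZMod 4) (j : Fin 4) {c y : 𝓞 K}, In4 c → In4 y → ∀ {al w : ZMod 2}
  {m a : K}, m ≠ 0 → a = m ^ 2 * ((iO ^ al.val * lam ^ w.val * y : 𝓞 K) : K) →
  GLoc4 nuL ((iO ^ k.val * lam ^ j.val * c : 𝓞 K) : K) a → ∃ t : ZMod 2,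
    LamC k j c (al + t * md k) (w + t * (j.val : ZMod 2)) (aa y + t * aa c) (bb y + t * bb c)

theorem bb_gp4B (S : Finset Pg) (V : Pg → ZMod 2) :
    bb (∏ q ∈ S, q.1 ^ (V q).val) = ∑ q ∈ S, V q * bb q.1 := by
  classical
  induction S using Finset.induction_on with
  | empty => exact bb_one
  | insert q S hq ih =>
    rw [prod_insert hq, sum_insert hq, ← ih, bb_mul _ (gp4_in4 S V)]
    · congr 1
      have h0 : ∀ e : ZMod 2, e = 0 ∨ e = 1 := by decide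
      rcases h0 (V q) with h | h
      · rw [h, ZMod.val_zero, pow_zero, bb_one, zero_mul]
      · rw [h]
        show bb (q.1 ^ 1) = _
        rw [pow_one, one_mul]
    · have h := gp4_in4 {q} V
      rwa [prod_singleton] at h

theorem aa_cB (hd : Dj S T B) : aa (cB S T B) = ∑ q ∈ S ∪ T, aa q.1 := by
  have h2 : ∀ P : Finset Pg, In4 (DDq P ^ 2) ∧ aa (DDq P ^ 2) = 0 := fun P => by
    rw [pow_two]
    exact ⟨(DDq_in4 P).mul (DDq_in4 P), by rw [aa_mul (DDq_in4 P) (DDq_in4 P), z2_double]⟩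
  have h3 : In4 (DDq T ^ 3) ∧ aa (DDq T ^ 3) = aa (DDq T) := by
    rw [pow_succ]
    exact ⟨(h2 T).1.mul (DDq_in4 T), by rw [aa_mul (h2 T).1 (DDq_in4 T), (h2 T).2, zero_add]⟩
  unfold cB
  rw [aa_mul ((DDq_in4 S).mul h3.1) (h2 B).1, aa_mul (DDq_in4 S) h3.1, h3.2, (h2 B).2, add_zero,
    aa_DDq, aa_DDq, sum_union hd.st]

theorem bb_cB (hd : Dj S T B) : bb (cB S T B) = ∑ q ∈ S ∪ T, bb q.1 := by
  have h2 : ∀ P : Finset Pg, In4 (DDq P ^ 2) ∧ bb (DDq P ^ 2) = 0 := fun P => by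
    rw [pow_two]
    exact ⟨(DDq_in4 P).mul (DDq_in4 P), by rw [bb_mul (DDq_in4 P) (DDq_in4 P), z2_double]⟩
  have h3 : In4 (DDq T ^ 3) ∧ bb (DDq T ^ 3) = bb (DDq T) := by
    rw [pow_succ]
    exact ⟨(h2 T).1.mul (DDq_in4 T), by rw [bb_mul (h2 T).1 (DDq_in4 T), (h2 T).2, zero_add]⟩
  unfold cB
  rw [bb_mul ((DDq_in4 S).mul h3.1) (h2 B).1, bb_mul (DDq_in4 S) h3.1, h3.2, (h2 B).2, add_zero,
    bb_DDq, bb_DDq, sum_union hd.st]

theorem sum_in01 (f V : Pg → ZMod 2) (t : ZMod 2) {P R : Finset Pg} (h : P ⊆ R) :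
    ∑ q ∈ R, (V q + t * in01 P q) * f q = ∑ q ∈ R, V q * f q + t * ∑ q ∈ P, f q := by
  have h1 : ∑ q ∈ P, f q = ∑ q ∈ R, in01 P q * f q := by
    rw [← sum_subset h fun q _ hq => by rw [in01_not hq, zero_mul]]
    exact sum_congr rfl fun q hq => by rw [in01_of hq, one_mul]
  rw [h1, mul_sum, ← sum_add_distrib]
  exact sum_congr rfl fun q _ => by ring

/-- the end: the 13 classes -/
theorem SelD.fin (hd : Dj S T B) (hG : GdB k j S T B) {a : K} {al w t A L : ZMod 2}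
    {V : Pg → ZMod 2} (h : SelD k j S T B (a * (dC k j S T B : K) ^ t.val) al w V)
    (hA : ∑ q ∈ S ∪ T ∪ B, V q * aa q.1 = A) (hL : ∑ q ∈ S ∪ T ∪ B, V q * bb q.1 = L)
    (hl : LamC k j (cB S T B) al w A L) : IsSquare a ∨ IsSquare (a * (dC k j S T B : K)) := by
  -- the three kinds of ends
  have hdet0 : DetB0 k j S T B → al = 0 ∧ w = 0 → IsSquare a ∨ IsSquare (a * (dC k j S T B : K)) := by
    rintro h1 ⟨rfl, rfl⟩
    obtain ⟨h2, h3⟩ := h.det0 h1
    exact h.concl hd 0 h2 h3 (by rw [zero_mul]) (by rw [zero_mul])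
  have hker0 : md k = 0 → (j.val : ZMod 2) = 0 → KerB0 k j S T B → al = 0 ∧ w = 0 →
      IsSquare a ∨ IsSquare (a * (dC k j S T B : K)) := by
    rintro h4 h5 h1 ⟨rfl, rfl⟩
    obtain ⟨c, h2, h3⟩ := h.ker0 h1
    exact h.concl hd c h2 h3 (by rw [h4, mul_zero]) (by rw [h5, mul_zero])
  have hdet1 : ∀ (p : Fin 2 → ZMod 2) (x s : ZMod 2), DetB1 k j p x S T B → al = s * p 0 →
      w = s * p 1 → p 0 * A + p 1 * L = s * x →
      IsSquare a ∨ IsSquare (a * (dC k j S T B : K)) := by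
    intro p x s h1 h2 h3 h4
    obtain ⟨h5, h6, h7⟩ := h.det1 hd h2 h3 (by
      have e : ∑ q ∈ S ∪ T ∪ B, V q * (p 0 * aa q.1 + p 1 * bb q.1) = p 0 * A + p 1 * L := by
        rw [← hA, ← hL, mul_sum, mul_sum, ← sum_add_distrib]
        exact sum_congr rfl fun q _ => by ring
      rw [e, h4, z2_double]) h1
    rw [h7, zero_mul] at h2 h3
    exact h.concl hd 0 h5 h6 (by rw [h2, zero_mul]) (by rw [h3, zero_mul])
  have hker1 : ∀ (p : Fin 2 → ZMod 2) (x s : ZMod 2), md k = 0 → (j.val : ZMod 2) = 0 →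
      KerB1 k j p x S T B → al = s * p 0 → w = s * p 1 → p 0 * A + p 1 * L = s * x →
      IsSquare a ∨ IsSquare (a * (dC k j S T B : K)) := by
    intro p x s h8 h9 h1 h2 h3 h4
    obtain ⟨c, h5, h6, h7⟩ := h.ker1 hd h2 h3 (by
      have e : ∑ q ∈ S ∪ T ∪ B, V q * (p 0 * aa q.1 + p 1 * bb q.1) = p 0 * A + p 1 * L := by
        rw [← hA, ← hL, mul_sum, mul_sum, ← sum_add_distrib]
        exact sum_congr rfl fun q _ => by ring
      rw [e, h4, z2_double]) h1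
    rw [h7, zero_mul] at h2 h3
    exact h.concl hd c h5 h6 (by rw [h2, h8, mul_zero]) (by rw [h3, h9, mul_zero])
  have h01 : ∀ x : ZMod 2, x = 0 ∨ x = 1 := by decide
  have p10 : (![1, 0] : Fin 2 → ZMod 2) 0 = 1 ∧ (![1, 0] : Fin 2 → ZMod 2) 1 = 0 := ⟨rfl, rfl⟩
  have p01 : (![0, 1] : Fin 2 → ZMod 2) 0 = 0 ∧ (![0, 1] : Fin 2 → ZMod 2) 1 = 1 := ⟨rfl, rfl⟩
  have p11 : (![1, 1] : Fin 2 → ZMod 2) 0 = 1 ∧ (![1, 1] : Fin 2 → ZMod 2) 1 = 1 := ⟨rfl, rfl⟩
  have hj : j = 0 ∨ j = 1 ∨ j = 2 ∨ j = 3 := by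
    have : ∀ j : Fin 4, j = 0 ∨ j = 1 ∨ j = 2 ∨ j = 3 := by decide
    exact this j
  have hk : k = 0 ∨ k = 1 ∨ k = 2 ∨ k = 3 := by
    have : ∀ k : ZMod 4, k = 0 ∨ k = 1 ∨ k = 2 ∨ k = 3 := by decide
    exact this k
  have m0 : md 0 = 0 := by decide
  have m2 : md 2 = 0 := by decide
  have j0 : ((0 : Fin 4).val : ZMod 2) = 0 := by decide
  have j2 : ((2 : Fin 4).val : ZMod 2) = 0 := by decide
  rcases hj with hj | hj | hj | hj
  · have hj0 : (j.val : ZMod 2) = 0 := by rw [hj]; exact j0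
    rcases h01 (md k) with hmk | hmk
    · rcases h01 (aa (cB S T B)) with hc | hc
      · have hk2 : k = 0 ∨ k = 2 := by
          have : ∀ k : ZMod 4, md k = 0 → k = 0 ∨ k = 2 := by decide
          exact this k hmk
        rcases hk2 with hk | hk
        · rcases h01 (hf4 (nn (cB S T B)) + bb (cB S T B)) with hn | hn
          · obtain ⟨h1, h2⟩ := hl.x3 hj hk hc hn
            exact hker1 ![1, 0] _ al hmk hj0 (hG.x3 hj hk hc hn) (by rw [p10.1, mul_one])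
              (by rw [p10.2, mul_zero, h1]) (by rw [p10.1, p10.2, one_mul, zero_mul, add_zero, h2])
          · exact hker0 hmk hj0 (hG.x2 hj hk hc hn) (hl.x2 hj hk hc hn)
        · obtain ⟨h1, h2⟩ := hl.x1 hj hk hc
          exact hker1 ![1, 0] _ al hmk hj0 (hG.x1 hj hk hc) (by rw [p10.1, mul_one])
            (by rw [p10.2, mul_zero, h1]) (by rw [p10.1, p10.2, one_mul, zero_mul, add_zero, h2])
      · exact hker0 hmk hj0 (hG.c2 hj hmk hc) (hl.c2 hj hmk hc)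
    · exact hdet0 (hG.c1 hj hmk) (hl.c1 hj hmk)
  · obtain ⟨h1, h2⟩ := hl.e hj
    exact hdet1 ![1, 0] _ al (hG.e hj) (by rw [p10.1, mul_one]) (by rw [p10.2, mul_zero, h1])
      (by rw [p10.1, p10.2, one_mul, zero_mul, add_zero, h2])
  · have hj0 : (j.val : ZMod 2) = 0 := by rw [hj]; exact j2
    rcases hk with hk | hk | hk | hk
    · have hmk : md k = 0 := by rw [hk]; exact m0
      rcases h01 (bb (cB S T B)) with hc | hc
      · obtain ⟨h1, h2⟩ := hl.d20 hj hk hc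
        exact hker1 ![0, 1] _ w hmk hj0 (hG.d20 hj hk hc) (by rw [p01.1, mul_zero, h1])
          (by rw [p01.2, mul_one]) (by rw [p01.1, p01.2, one_mul, zero_mul, zero_add, h2])
      · exact hker0 hmk hj0 (hG.c20 hj hk hc) (hl.c20 hj hk hc)
    · exact hdet0 (hG.a2 hj hk) (hl.a2 hj hk)
    · have hmk : md k = 0 := by rw [hk]; exact m2
      rcases h01 (aa (cB S T B) + bb (cB S T B)) with hc | hc
      · obtain ⟨h1, h2⟩ := hl.d22 hj hk hc
        exact hker1 ![1, 1] _ w hmk hj0 (hG.d22 hj hk hc) (by rw [p11.1, mul_one, h1])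
          (by rw [p11.2, mul_one]) (by rw [p11.1, p11.2, one_mul, one_mul, h2])
      · exact hker0 hmk hj0 (hG.c22 hj hk hc) (hl.c22 hj hk hc)
    · obtain ⟨h1, h2⟩ := hl.b2 hj hk
      exact hdet1 ![0, 1] _ w (hG.b2 hj hk) (by rw [p01.1, mul_zero, h1]) (by rw [p01.2, mul_one])
        (by rw [p01.1, p01.2, one_mul, zero_mul, zero_add, h2])
  · exact hdet0 (hG.j3 hj) (hl.j3 hj)

/-- **The Selmer elements.** -/
theorem selB (HL : LamP) (hd : Dj S T B) (hG : GdB k j S T B) : SelCl4 (dC k j S T B : K) := by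
  intro a ha h
  obtain ⟨al, w, V, hs⟩ := selD_exists hd ha h
  obtain ⟨m, hm, hma⟩ := hs.cl
  obtain ⟨t, ht⟩ := HL k j (cB_in4 S T B) (gp4_in4 (S ∪ T ∪ B) V) hm hma (h (pv lam prime_lam))
  rw [aa_gp4, bb_gp4B, aa_cB hd, bb_cB hd] at ht
  have hsub : S ∪ T ⊆ S ∪ T ∪ B := subset_union_left
  exact (hs.shift hd t).fin hd hG (sum_in01 _ V t hsub) (sum_in01 _ V t hsub) ht

end

end Pool.Agent.Lib.MP_1a91b9_ntQ.C
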