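import Pool.Agent.Lib.MP_1a91b9_ntQ.B.RowB

/-!
# MP_1a91b9_nt (quartic twists), part B: the Selmer elements and the kernels of `NB0`, `NB1`
-/

set_option autoImplicit false
set_option linter.unusedSectionVars false
set_option linter.unusedVariables false

namespace Pool.Agent.Lib.MP_1a91b9_ntQ.C

open NumberField Finset WithZero IsDedekindDomain Pool.Agent.Lib.MP_1a91b9_nuT
open Pool.Agent.Lib.MP_1a91b9_ntQ
open Pool.Agent.Lib.MP_1a91b9_ntH.C (Sq exists_nu isSquare_exp nu_one)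

noncomputable section

variable {k : ZMod 4} {j : Fin 4} {S T B : Finset Pg}

theorem VB_sub : VB k j S T B ⊆ B := filter_subset _ _

/-- The data of a Selmer element. -/
structure SelD (k : ZMod 4) (j : Fin 4) (S T B : Finset Pg) (a : K) (al w : ZMod 2)
    (V : Pg → ZMod 2) : Prop where
  cl : ∃ m : K, m ≠ 0 ∧ a = m ^ 2 * (gp4 (S ∪ T ∪ B) al w V : K)
  u : ∀ b ∈ B, b ∉ VB k j S T B → V b = 0
  q : ∀ q ∈ S ∪ T, kxB k j q * V q + ∑ l ∈ S ∪ T, s4 q l * (V q + V l) +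
    ∑ v ∈ VB k j S T B, s4 q v * V v + (al * aa q.1 + w * bb q.1) = 0
  v : ∀ b ∈ VB k j S T B, ∑ l ∈ S ∪ T, s4 l b * V l + (rhB k j S T B b * V b +
    ∑ u ∈ (VB k j S T B).erase b, s4 b u * V u) + (al * aa b.1 + w * bb b.1) = 0

theorem z2_double (x : ZMod 2) : x + x = 0 := by
  revert x
  decide

/-- a sum over the primes of `S ∪ T ∪ B` without `q` -/
theorem sum_R (hd : Dj S T B) (q : Pg) (f : Pg → ZMod 2)
    (hf : ∀ b ∈ B, b ∉ VB k j S T B → f b = 0) :
    ∑ p ∈ (S ∪ T ∪ B).erase q, f p =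
      ∑ p ∈ (S ∪ T).erase q, f p + ∑ p ∈ (VB k j S T B).erase q, f p := by
  rw [erase_union_distrib, sum_union ((Dj_pb hd).mono (erase_subset _ _) (erase_subset _ _))]
  congr 1
  refine (sum_subset (erase_subset_erase q VB_sub) fun b hb hb' => ?_).symm
  exact hf b (mem_of_mem_erase hb) fun h => hb' (mem_erase.2 ⟨ne_of_mem_erase hb, h⟩)

theorem sum_R' (hd : Dj S T B) (f : Pg → ZMod 2)
    (hf : ∀ b ∈ B, b ∉ VB k j S T B → f b = 0) :
    ∑ p ∈ S ∪ T ∪ B, f p = ∑ p ∈ S ∪ T, f p + ∑ p ∈ VB k j S T B, f p := by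
  rw [sum_union (Dj_pb hd)]
  congr 1
  exact (sum_subset VB_sub fun b hb hb' => hf b hb hb').symm

/-- a local Selmer element at the odd places -/
theorem selD_exists (hd : Dj S T B) {a : K} (ha : a ≠ 0)
    (h : ∀ v : HeightOneSpectrum (𝓞 K), GLoc4 (v.valuation K) (dC k j S T B : K) a) :
    ∃ al w V, SelD k j S T B a al w V := by
  obtain ⟨al, w, V, m, hm, hma⟩ := selB_cl ha h
  have hu : ∀ b ∈ B, b ∉ VB k j S T B → V b = 0 := fun b hb hb' =>
    (selB_rowV hd hb hm hma (h _)).1 hb'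
  refine ⟨al, w, V, ⟨m, hm, hma⟩, hu, fun q hq => ?_, fun b hb => ?_⟩
  · have h1 := selB_rowQ hd hq hm hma (h (pv q.1 q.prime))
    have hqB : q ∉ B := disjoint_left.1 (Dj_pb hd) hq
    rw [sum_R hd q _ (fun b hb hb' => by
      rw [hu b hb hb', in01_not (disjoint_right.1 (Dj_pb hd) hb), mul_zero, add_zero, zero_mul])] at h1
    have h2 : ∑ p ∈ (S ∪ T).erase q, (V p + V q * in01 (S ∪ T) p) * s4 q p =
        ∑ l ∈ S ∪ T, s4 q l * (V q + V l) := by
      rw [← add_sum_erase _ _ hq, z2_double, mul_zero, zero_add]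
      refine sum_congr rfl fun p hp => ?_
      rw [in01_of (mem_of_mem_erase hp)]
      ring
    have h3 : ∑ p ∈ (VB k j S T B).erase q, (V p + V q * in01 (S ∪ T) p) * s4 q p =
        ∑ v ∈ VB k j S T B, s4 q v * V v := by
      rw [erase_eq_of_notMem fun h4 => hqB (VB_sub h4)]
      refine sum_congr rfl fun p hp => ?_
      rw [in01_not (disjoint_right.1 (Dj_pb hd) (VB_sub hp))]
      ring
    rw [h2, h3, c2_lam] at h1
    rw [← h1]
    unfold kxB
    ring
  · have h1 := (selB_rowV hd (VB_sub hb) hm hma (h (pv b.1 b.prime))).2 hb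
    have hbP : b ∉ S ∪ T := disjoint_right.1 (Dj_pb hd) (VB_sub hb)
    rw [sum_R hd b _ (fun b' hb' hb'' => by rw [hu b' hb' hb'', zero_mul]),
      erase_eq_of_notMem hbP, c2_lam] at h1
    have h2 : ∑ l ∈ S ∪ T, s4 l b * V l = ∑ p ∈ S ∪ T, V p * s4 b p :=
      sum_congr rfl fun p _ => by
        have h3 : s4 p b = s4 b p := c2_symm b p
        rw [h3, mul_comm]
    have h3 : ∑ u ∈ (VB k j S T B).erase b, s4 b u * V u =
        ∑ p ∈ (VB k j S T B).erase b, V p * s4 b p := sum_congr rfl fun p _ => mul_comm _ _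
    rw [h2, h3]
    linear_combination h1 + (rhB k j S T B b * V b) * two4

/-- the data of `a D ^ t` -/
theorem SelD.shift (hd : Dj S T B) {a : K} {al w : ZMod 2} {V : Pg → ZMod 2}
    (h : SelD k j S T B a al w V) (t : ZMod 2) :
    SelD k j S T B (a * (dC k j S T B : K) ^ t.val) (al + t * md k) (w + t * (j.val : ZMod 2))
      (fun q => V q + t * in01 (S ∪ T) q) := by
  obtain ⟨⟨m, hm, hma⟩, hu, hq, hv⟩ := h
  refine ⟨cl_mul_powB hd hm hma k j t, fun b hb hb' => ?_, fun q hqP => ?_, fun b hb => ?_⟩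
  · rw [hu b hb hb', in01_not (disjoint_right.1 (Dj_pb hd) hb), mul_zero, add_zero]
  · have h1 := hq q hqP
    have h2 : ∑ l ∈ S ∪ T, s4 q l * (V q + t * in01 (S ∪ T) q + (V l + t * in01 (S ∪ T) l)) =
        ∑ l ∈ S ∪ T, s4 q l * (V q + V l) := by
      refine sum_congr rfl fun l hl => ?_
      rw [in01_of hqP, in01_of hl]
      linear_combination (s4 q l * t) * two4
    have h3 : ∑ v ∈ VB k j S T B, s4 q v * (V v + t * in01 (S ∪ T) v) =
        ∑ v ∈ VB k j S T B, s4 q v * V v := by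
      refine sum_congr rfl fun v hv => ?_
      rw [in01_not (disjoint_right.1 (Dj_pb hd) (VB_sub hv)), mul_zero, add_zero]
    rw [h2, h3, in01_of hqP]
    unfold kxB at h1 ⊢
    linear_combination h1 + (t * (md k * aa q.1 + (j.val : ZMod 2) * bb q.1)) * two4
  · have h1 := hv b hb
    have hbV := (mem_filter.1 hb).2
    have h2 : ∑ l ∈ S ∪ T, s4 l b * (V l + t * in01 (S ∪ T) l) =
        ∑ l ∈ S ∪ T, s4 l b * V l + t * ∑ p ∈ S ∪ T, s4 b p := by
      rw [mul_sum, ← sum_add_distrib]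
      refine sum_congr rfl fun l hl => ?_
      have h3 : s4 l b = s4 b l := c2_symm b l
      rw [in01_of hl, h3]
      ring
    have h3 : ∑ u ∈ (VB k j S T B).erase b, s4 b u * (V u + t * in01 (S ∪ T) u) =
        ∑ u ∈ (VB k j S T B).erase b, s4 b u * V u := by
      refine sum_congr rfl fun v hv => ?_
      rw [in01_not (disjoint_right.1 (Dj_pb hd) (VB_sub (mem_of_mem_erase hv))), mul_zero, add_zero]
    rw [h2, h3, in01_not (disjoint_right.1 (Dj_pb hd) (VB_sub hb)), mul_zero, add_zero]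
    unfold kxB at hbV
    linear_combination h1 + t * hbV

/-- the conclusion for an element of a constant class -/
theorem SelD.concl (hd : Dj S T B) {a : K} {al w t : ZMod 2} {V : Pg → ZMod 2}
    (h : SelD k j S T B (a * (dC k j S T B : K) ^ t.val) al w V) (c : ZMod 2)
    (hV : ∀ q ∈ S ∪ T, V q = c) (hB : ∀ b ∈ B, V b = 0) (hal : al = c * md k)
    (hw : w = c * (j.val : ZMod 2)) : IsSquare a ∨ IsSquare (a * (dC k j S T B : K)) := by
  obtain ⟨⟨m, hm, hma⟩, -, -, -⟩ := h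
  obtain ⟨n, hn, h1⟩ := cl_mul_powB hd hm hma k j c
  have e : gp4 (S ∪ T ∪ B) (al + c * md k) (w + c * (j.val : ZMod 2))
      (fun q => V q + c * in01 (S ∪ T) q) = 1 := by
    unfold gp4
    rw [hal, hw, z2_double, z2_double, ZMod.val_zero, pow_zero, pow_zero, one_mul, one_mul]
    refine prod_eq_one fun q hq => ?_
    have h2 : V q + c * in01 (S ∪ T) q = 0 := by
      rcases mem_union.1 hq with h3 | h3
      · rw [hV q h3, in01_of h3, mul_one, z2_double]
      · rw [hB q h3, in01_not (disjoint_right.1 (Dj_pb hd) h3), mul_zero, add_zero]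
    show q.1 ^ (V q + c * in01 (S ∪ T) q).val = 1
    rw [h2, ZMod.val_zero, pow_zero]
  have e1 : ((1 : 𝓞 K) : K) = 1 := map_one (algebraMap (𝓞 K) K)
  rw [e, e1, mul_one] at h1
  have h0 : ∀ e : ZMod 2, e = 0 ∨ e = 1 := by decide
  have h5 : ((1 : ZMod 2)).val = 1 := rfl
  have hD0 : (dC k j S T B : K) ≠ 0 := coe_ne (dC_ne k j S T B)
  rcases h0 t with rfl | rfl <;> rcases h0 c with rfl | rfl
  · left
    rw [ZMod.val_zero, pow_zero, mul_one, mul_one] at h1
    exact ⟨n, by rw [h1]; ring⟩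
  · right
    rw [ZMod.val_zero, pow_zero, mul_one, h5, pow_one] at h1
    exact ⟨n, by rw [h1]; ring⟩
  · right
    rw [ZMod.val_zero, pow_zero, mul_one, h5, pow_one] at h1
    exact ⟨n, by rw [h1]; ring⟩
  · left
    rw [h5, pow_one] at h1
    refine ⟨n / (dC k j S T B : K), ?_⟩
    field_simp
    linear_combination h1

/-! ### the matrices -/

theorem dg_kvB (q : Pg) : d4.dg (kvB k j) q = kxB k j q := by
  unfold Dat2.dg kvB kxB d4
  rw [Fin.sum_univ_two]
  simp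

theorem d4_s (q p : Pg) : d4.s q p = s4 q p := rfl

theorem bd_PpB (p : Fin 2 → ZMod 2) (q : Pg) (e : Unit) :
    d4.bd (PpB p) q e = p 0 * aa q.1 + p 1 * bb q.1 := by
  unfold Dat2.bd PpB d4
  rw [Fin.sum_univ_two]
  simp

/-- the kernel of `NB0` -/
theorem SelD.mul0 {a : K} {V : Pg → ZMod 2} (h : SelD k j S T B a 0 0 V) :
    (NB0 k j S T B).mulVec (vec3 (S ∪ T) (VB k j S T B) V V fun e => e.elim) = 0 := by
  obtain ⟨-, -, hq, hv⟩ := h
  ext y
  rcases y with q | v | e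
  · unfold NB0
    rw [NV_inl, dg_kvB, Finset.univ_eq_empty, sum_empty, add_zero]
    have h1 := hq q q.2
    rw [zero_mul, zero_mul, add_zero, add_zero] at h1
    exact h1
  · unfold NB0
    rw [NV_inrl, Finset.univ_eq_empty, sum_empty, add_zero]
    have h1 := hv v v.2
    rw [zero_mul, zero_mul, add_zero, add_zero] at h1
    exact h1
  · exact e.elim

/-- the kernel of `NB1` -/
theorem SelD.mul1 {a : K} {al w s x : ZMod 2} {p : Fin 2 → ZMod 2} {V : Pg → ZMod 2}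
    (hd : Dj S T B) (h : SelD k j S T B a al w V) (hal : al = s * p 0) (hw : w = s * p 1)
    (hl : ∑ q ∈ S ∪ T ∪ B, V q * (p 0 * aa q.1 + p 1 * bb q.1) + s * x = 0) :
    (NB1 k j p x S T B).mulVec (vec3 (S ∪ T) (VB k j S T B) V V fun _ => s) = 0 := by
  obtain ⟨-, hu, hq, hv⟩ := h
  subst hal hw
  ext y
  rcases y with q | v | e
  · unfold NB1
    rw [NV_inl, dg_kvB, Finset.univ_unique, sum_singleton, bd_PpB, Pi.zero_apply]
    have h1 := hq q q.2
    simp only [d4_s]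
    linear_combination h1
  · unfold NB1
    rw [NV_inrl, Finset.univ_unique, sum_singleton, bd_PpB, Pi.zero_apply]
    have h1 := hv v v.2
    simp only [d4_s]
    linear_combination h1
  · unfold NB1
    rw [NV_inrr, Finset.univ_unique, sum_singleton, Pi.zero_apply, ← hl,
      sum_R' hd _ (fun b hb hb' => by rw [hu b hb hb', zero_mul])]
    have e1 : ∀ P : Finset Pg, ∑ l ∈ P, d4.bd (PpB p) l e * V l =
        ∑ q ∈ P, V q * (p 0 * aa q.1 + p 1 * bb q.1) := fun P =>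
      sum_congr rfl fun q _ => by rw [bd_PpB, mul_comm]
    rw [e1, e1, add_assoc]
    congr 2
    show x * s = s * x
    ring

theorem SelD.zero_of {a : K} {al w c : ZMod 2} {V : Pg → ZMod 2}
    (h : SelD k j S T B a al w V) (hV : ∀ v ∈ VB k j S T B, V v = 0) : ∀ b ∈ B, V b = 0 := by
  intro b hb
  by_cases h1 : b ∈ VB k j S T B
  · exact hV b h1
  · exact h.u b hb h1

theorem SelD.det0 {a : K} {V : Pg → ZMod 2} (h : SelD k j S T B a 0 0 V)
    (hG : DetB0 k j S T B) : (∀ q ∈ S ∪ T, V q = 0) ∧ ∀ b ∈ B, V b = 0 := by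
  have h1 := Matrix.eq_zero_of_mulVec_eq_zero hG h.mul0
  exact ⟨fun q hq => congrFun h1 (Sum.inl ⟨q, hq⟩),
    h.zero_of (c := 0) fun v hv => congrFun h1 (Sum.inr (Sum.inl ⟨v, hv⟩))⟩

theorem SelD.det1 {a : K} {al w s x : ZMod 2} {p : Fin 2 → ZMod 2} {V : Pg → ZMod 2}
    (hd : Dj S T B) (h : SelD k j S T B a al w V) (hal : al = s * p 0) (hw : w = s * p 1)
    (hl : ∑ q ∈ S ∪ T ∪ B, V q * (p 0 * aa q.1 + p 1 * bb q.1) + s * x = 0)
    (hG : DetB1 k j p x S T B) : (∀ q ∈ S ∪ T, V q = 0) ∧ (∀ b ∈ B, V b = 0) ∧ s = 0 := by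
  have h1 := Matrix.eq_zero_of_mulVec_eq_zero hG (h.mul1 hd hal hw hl)
  exact ⟨fun q hq => congrFun h1 (Sum.inl ⟨q, hq⟩),
    h.zero_of (c := 0) fun v hv => congrFun h1 (Sum.inr (Sum.inl ⟨v, hv⟩)),
    congrFun h1 (Sum.inr (Sum.inr ()))⟩

theorem SelD.ker0 {a : K} {V : Pg → ZMod 2} (h : SelD k j S T B a 0 0 V)
    (hG : KerB0 k j S T B) : ∃ c : ZMod 2, (∀ q ∈ S ∪ T, V q = c) ∧ ∀ b ∈ B, V b = 0 := by
  rcases hG.2 _ h.mul0 with h1 | h1
  · exact ⟨0, fun q hq => congrFun h1 (Sum.inl ⟨q, hq⟩),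
      h.zero_of (c := 0) fun v hv => congrFun h1 (Sum.inr (Sum.inl ⟨v, hv⟩))⟩
  · exact ⟨1, fun q hq => congrFun h1 (Sum.inl ⟨q, hq⟩),
      h.zero_of (c := 0) fun v hv => congrFun h1 (Sum.inr (Sum.inl ⟨v, hv⟩))⟩

theorem SelD.ker1 {a : K} {al w s x : ZMod 2} {p : Fin 2 → ZMod 2} {V : Pg → ZMod 2}
    (hd : Dj S T B) (h : SelD k j S T B a al w V) (hal : al = s * p 0) (hw : w = s * p 1)
    (hl : ∑ q ∈ S ∪ T ∪ B, V q * (p 0 * aa q.1 + p 1 * bb q.1) + s * x = 0)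
    (hG : KerB1 k j p x S T B) : ∃ c : ZMod 2, (∀ q ∈ S ∪ T, V q = c) ∧ (∀ b ∈ B, V b = 0) ∧
      s = 0 := by
  rcases hG.2 _ (h.mul1 hd hal hw hl) with h1 | h1
  · exact ⟨0, fun q hq => congrFun h1 (Sum.inl ⟨q, hq⟩),
      h.zero_of (c := 0) fun v hv => congrFun h1 (Sum.inr (Sum.inl ⟨v, hv⟩)),
      congrFun h1 (Sum.inr (Sum.inr ()))⟩
  · exact ⟨1, fun q hq => congrFun h1 (Sum.inl ⟨q, hq⟩),
      h.zero_of (c := 0) fun v hv => congrFun h1 (Sum.inr (Sum.inl ⟨v, hv⟩)),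
      congrFun h1 (Sum.inr (Sum.inr ()))⟩

end

end Pool.Agent.Lib.MP_1a91b9_ntQ.C
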