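import Pool.Agent.Lib.MP_1a91b9_ntQ.B.TamG
import Pool.Agent.Lib.MP_1a91b9_ntQ.C.TamX4
import Pool.Agent.Lib.MP_1a91b9_ntQ.C.TamLm

/-!
# Quartic twists, all fourth-power-free `D`, file TamLB: the points of `y² = x³ - D x` over the
completion at `lam = 1 + j` whose abscissa is a uniformizer, `D` exactly divisible by `lam ^ 2`

`D = lam ^ 2 j ^ k (1 + lam ^ 3 s)`: there is no such point for `k = 1`; there is one for `k = 3`; for
`k = 0` (`k = 2`) there is one exactly if `s = 0` or `1` (`0` or `j`) modulo `2`.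
-/

set_option autoImplicit false
set_option linter.unusedSectionVars false
set_option linter.unusedVariables false
set_option linter.unusedTactic false
set_option linter.unreachableTactic false

namespace Pool.Agent.Lib.MP_1a91b9_ntQ.C

open WithZero WeierstrassCurve
open Pool.Agent.Lib.MP_1a91b9_ntH.C (nsSet nsG)
open scoped Classical

namespace TB

section
variable {L : Type*} [Field L] [CharZero L] {V : Valuation L ℤᵐ⁰} {j : L} (H : Lm.Hyp V j)
include H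

theorem lam_ne : (1 + j : L) ≠ 0 := by
  intro h0
  have := H.v
  rw [h0, map_zero] at this
  exact exp_ne_zero this.symm

theorem div_unif {x : L} (hx : V x = exp (-1 : ℤ)) : ∃ X, V X = 1 ∧ x = (1 + j) * X := by
  have hl0 := lam_ne H
  refine ⟨x / (1 + j), ?_, by field_simp⟩
  rw [map_div₀, hx, H.v]
  exact div_self exp_ne_zero

theorem res1 : ∀ x : L, V x = 1 → V (x - 1) < 1 := fun x hx =>
  (H.res x hx.le).resolve_left (by rw [hx]; exact lt_irrefl _)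

/-- units modulo `lam ^ 3` -/
theorem unit3 {x : L} (hx : V x = 1) :
    ∃ e w : L, (e = 1 ∨ e = -1 ∨ e = j ∨ e = -j) ∧ V w ≤ 1 ∧ x = e * (1 + 2 * ((1 + j) * w)) := by
  have hj := (Lm.vj H).le
  have h1 : V (1 : L) ≤ 1 := (map_one V).le
  rcases Lm.unit H hx with ⟨w, hw, rfl⟩ | ⟨w, hw, rfl⟩ <;>
    obtain ⟨t, ht, h | h⟩ := res_lam H.v (res1 H) hw
  · exact ⟨1, t, Or.inl rfl, ht, by rw [h]; ring⟩
  · refine ⟨-1, -t - 1 + j, Or.inr (Or.inl rfl), nu_add_le (nu_sub_le' (nu_neg_le' ht) h1) hj, ?_⟩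
    rw [h]
    linear_combination 2 * H.sq
  · refine ⟨j, -j * t, Or.inr (Or.inr (Or.inl rfl)), nu_mul_le (nu_neg_le' hj) ht, ?_⟩
    rw [h]
    linear_combination 2 * t * (1 + j) * H.sq
  · refine ⟨-j, j * (1 + t), Or.inr (Or.inr (Or.inr rfl)), nu_mul_le hj (nu_add_le h1 ht), ?_⟩
    rw [h]
    linear_combination 2 * (1 + j) * (1 + t) * H.sq

/-- integral elements modulo `2` -/
theorem split2 {u : L} (hu : V u ≤ 1) : ∃ ρ n v : L, (ρ = 0 ∨ ρ = 1) ∧ (n = 0 ∨ n = 1) ∧ V v ≤ 1 ∧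
    u = ρ + j * n + 2 * v := by
  obtain ⟨ρ, n, v, h1, h2, h3, h4⟩ := split_u H.sq (Lm.v2 H) (res1 H) hu
  refine ⟨ρ, n, j * v, h1, h2, nu_mul_le (Lm.vj H).le h3, ?_⟩
  rw [h4]
  linear_combination v * H.sq

/-- `k = 1`: no point -/
theorem no_a {D s x y : L} (hs : V s ≤ 1) (hD : D = -2 * (1 + 2 * (j - 1) * s))
    (he : y ^ 2 = x ^ 3 - D * x) (hx : V x = exp (-1 : ℤ)) : False := by
  obtain ⟨X, hX, rfl⟩ := div_unif H hx
  have h2 : (2 : L) ≠ 0 := two_ne_zero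
  rcases Lm.unit H hX with ⟨w, hw, rfl⟩ | ⟨w, hw, rfl⟩
  · refine Lm.no_sq H (z := y / 2) (s := 2 * j * w ^ 3 + 3 * j * w ^ 2 + 2 * j * w - 2 * w ^ 3 - 3 * w ^ 2 - 2 * w * s - w - s) (by (repeat' first
      | assumption | exact (map_one _).le | exact nu_ofNat_le' _ | exact (Lm.vj H).le
      | exact (map_zero _).trans_le zero_le | apply nu_add_le
      | apply nu_sub_le' | apply nu_neg_le' | apply nu_mul_le | apply nu_pow_le')) ?_
    rw [div_pow, he, hD, div_eq_iff (pow_ne_zero 2 h2)]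
    linear_combination (8 * j * w ^ 3 + 12 * j * w ^ 2 + 6 * j * w + j + 24 * w ^ 3 + 36 * w ^ 2 + 8 * w * s + 18 * w + 4 * s + 3) * H.sq
  · refine Lm.no_sq H (z := y / 2) (s := 2 * j * w ^ 3 - 3 * j * w ^ 2 - j * w - j * s - 2 * w ^ 3 - 3 * w ^ 2 - 2 * w * s + 2 * w) (by (repeat' first
      | assumption | exact (map_one _).le | exact nu_ofNat_le' _ | exact (Lm.vj H).le
      | exact (map_zero _).trans_le zero_le | apply nu_add_le
      | apply nu_sub_le' | apply nu_neg_le' | apply nu_mul_le | apply nu_pow_le')) ?_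
    rw [div_pow, he, hD, div_eq_iff (pow_ne_zero 2 h2)]
    linear_combination (j ^ 4 + 6 * j ^ 3 * w + 3 * j ^ 3 + 12 * j ^ 2 * w ^ 2 + 18 * j ^ 2 * w + 2 * j ^ 2 + 8 * j * w ^ 3 + 36 * j * w ^ 2 + 12 * j * w + 4 * j * s - 2 * j + 24 * w ^ 3 + 24 * w ^ 2 + 8 * w * s - 12 * w) * H.sq

/-- `k = 0`, `n` odd: no point -/
theorem no_c0 {D s x y : L} (hs : V s ≤ 1) (hD : D = 2 * j * (1 + 2 * (j - 1) * s))
    (hs1 : V s = exp (-1 : ℤ) ∨ ∃ t, V t ≤ 1 ∧ s = j + 2 * t)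
    (he : y ^ 2 = x ^ 3 - D * x) (hx : V x = exp (-1 : ℤ)) : False := by
  obtain ⟨X, hX, rfl⟩ := div_unif H hx
  have h2 : (2 : L) ≠ 0 := two_ne_zero
  have hl := H.v
  have hl0 := lam_ne H
  have hll : (2 * (1 + j)) ^ 2 = 8 * j := by linear_combination 4 * H.sq
  have hj0 : (j : L) ≠ 0 := by
    intro h0
    have := H.sq
    rw [h0] at this
    norm_num at this
  obtain ⟨e, w, hcases, hw, rfl⟩ := unit3 H hX
  have hodd : ∀ z : L, V z ≤ 1 → y ^ 2 = 4 * (1 + j) * (1 + (1 + j) * z) → False := by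
    intro z hz h
    have h1 := nu_onel hl hz
    have h3 := Lm.odd_val (V := V) (y := y) (n := -5) (by
      rw [h, map_mul, map_mul, h1, hl, Lm.v4 H, mul_one, ← exp_add]
      norm_num)
    omega
  have hgood : ∀ g z : L, V z ≤ 1 → (g = 1 ∨ g = -1 ∨ g = j ∨ g = -j) →
      y ^ 2 = 8 * j * (g * s + 2 * z) → (∃ Y, Y ^ 2 = g * s + 2 * z) := by
    intro g z hz hg h
    refine ⟨y / (2 * (1 + j)), ?_⟩
    rw [div_pow, h, hll, mul_div_cancel_left₀ _ (mul_ne_zero (by norm_num) hj0)]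
  have hfin : ∀ g z : L, V z ≤ 1 → (g = 1 ∨ g = -1) →
      y ^ 2 = 8 * j * (g * s + 2 * z) → False := by
    intro g z hz hg h
    obtain ⟨Y, hY⟩ := hgood g z hz (by tauto) h
    have hg1 : V g = 1 := by
      rcases hg with h9 | h9 <;> rw [h9]
      · exact map_one V
      · rw [Valuation.map_neg, map_one]
    rcases hs1 with h1 | ⟨t, ht, h1⟩
    · have h3 := Lm.odd_val (V := V) (y := Y) (n := -1) (by
        rw [hY, Valuation.map_add_eq_of_lt_left, map_mul, hg1, one_mul, h1]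
        rw [map_mul, map_mul, hg1, one_mul, h1, Lm.v2 H]
        calc exp (-2 : ℤ) * V z ≤ exp (-2 : ℤ) * 1 := by gcongr
          _ < exp (-1 : ℤ) := by
            rw [mul_one, exp_lt_exp]
            norm_num)
      omega
    · rcases hg with h9 | h9
      · refine Lm.no_sq H (z := Y) (s := t + z) (by (repeat' first
      | assumption | exact (map_one _).le | exact nu_ofNat_le' _ | exact (Lm.vj H).le
      | exact (map_zero _).trans_le zero_le | apply nu_add_le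
      | apply nu_sub_le' | apply nu_neg_le' | apply nu_mul_le | apply nu_pow_le')) ?_
        rw [hY, h1, h9]
        linear_combination (0) * H.sq
      · refine Lm.no_sq H (z := Y) (s := -j - t + z) (by (repeat' first
      | assumption | exact (map_one _).le | exact nu_ofNat_le' _ | exact (Lm.vj H).le
      | exact (map_zero _).trans_le zero_le | apply nu_add_le
      | apply nu_sub_le' | apply nu_neg_le' | apply nu_mul_le | apply nu_pow_le')) ?_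
        rw [hY, h1, h9]
        linear_combination (0) * H.sq
  rcases hcases with h9 | h9 | h9 | h9
  · refine hfin (1) (3 * j * w ^ 2 + j * w * s + j * w - 4 * w ^ 3 - 3 * w ^ 2 + w * s) (by (repeat' first
      | assumption | exact (map_one _).le | exact nu_ofNat_le' _ | exact (Lm.vj H).le
      | exact (map_zero _).trans_le zero_le | apply nu_add_le
      | apply nu_sub_le' | apply nu_neg_le' | apply nu_mul_le | apply nu_pow_le')) (Or.inl rfl) ?_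
    rw [he, hD, h9]
    linear_combination (8 * j ^ 4 * w ^ 3 + 48 * j ^ 3 * w ^ 3 + 12 * j ^ 3 * w ^ 2 + 112 * j ^ 2 * w ^ 3 + 60 * j ^ 2 * w ^ 2 - 8 * j ^ 2 * w * s + 6 * j ^ 2 * w + 112 * j * w ^ 3 + 108 * j * w ^ 2 - 8 * j * w * s + 20 * j * w - 4 * j * s + j + 8 * w ^ 3 + 12 * w ^ 2 + 6 * w + 1) * H.sq
  · refine hfin (-1) (-3 * j * w ^ 2 - j * w * s - j * w + 4 * w ^ 3 + 3 * w ^ 2 - w * s) (by (repeat' first
      | assumption | exact (map_one _).le | exact nu_ofNat_le' _ | exact (Lm.vj H).le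
      | exact (map_zero _).trans_le zero_le | apply nu_add_le
      | apply nu_sub_le' | apply nu_neg_le' | apply nu_mul_le | apply nu_pow_le')) (Or.inr rfl) ?_
    rw [he, hD, h9]
    linear_combination (-8 * j ^ 4 * w ^ 3 - 48 * j ^ 3 * w ^ 3 - 12 * j ^ 3 * w ^ 2 - 112 * j ^ 2 * w ^ 3 - 60 * j ^ 2 * w ^ 2 + 8 * j ^ 2 * w * s - 6 * j ^ 2 * w - 112 * j * w ^ 3 - 108 * j * w ^ 2 + 8 * j * w * s - 20 * j * w + 4 * j * s - j - 8 * w ^ 3 - 12 * w ^ 2 - 6 * w - 1) * H.sq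
  · refine hodd (8 * j * w ^ 3 + 6 * j * w ^ 2 + 2 * j * w * s + j * s + 6 * w ^ 2 - 2 * w * s + 4 * w) (by (repeat' first
      | assumption | exact (map_one _).le | exact nu_ofNat_le' _ | exact (Lm.vj H).le
      | exact (map_zero _).trans_le zero_le | apply nu_add_le
      | apply nu_sub_le' | apply nu_neg_le' | apply nu_mul_le | apply nu_pow_le')) ?_
    rw [he, hD, h9]
    linear_combination (8 * j ^ 7 * w ^ 3 + 48 * j ^ 6 * w ^ 3 + 12 * j ^ 6 * w ^ 2 + 112 * j ^ 5 * w ^ 3 + 60 * j ^ 5 * w ^ 2 + 6 * j ^ 5 * w + 112 * j ^ 4 * w ^ 3 + 108 * j ^ 4 * w ^ 2 + 24 * j ^ 4 * w + j ^ 4 + 8 * j ^ 3 * w ^ 3 + 60 * j ^ 3 * w ^ 2 - 8 * j ^ 3 * w * s + 30 * j ^ 3 * w + 3 * j ^ 3 - 64 * j ^ 2 * w ^ 3 - 48 * j ^ 2 * w ^ 2 - 8 * j ^ 2 * w * s - 4 * j ^ 2 * w - 4 * j ^ 2 * s + 2 * j ^ 2 - 32 * j * w ^ 3 - 72 * j * w ^ 2 + 8 * j * w * s - 32 * j * w - 4 * j * s - 4 * j - 24 * w ^ 2 + 8 * w * s - 16 * w - 4) *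 H.sq
  · refine hodd (-8 * j * w ^ 3 - 6 * j * w ^ 2 - 2 * j * w * s - j * s + j - 6 * w ^ 2 + 2 * w * s - 4 * w - 1) (by (repeat' first
      | assumption | exact (map_one _).le | exact nu_ofNat_le' _ | exact (Lm.vj H).le
      | exact (map_zero _).trans_le zero_le | apply nu_add_le
      | apply nu_sub_le' | apply nu_neg_le' | apply nu_mul_le | apply nu_pow_le')) ?_
    rw [he, hD, h9]
    linear_combination (-8 * j ^ 7 * w ^ 3 - 48 * j ^ 6 * w ^ 3 - 12 * j ^ 6 * w ^ 2 - 112 * j ^ 5 * w ^ 3 - 60 * j ^ 5 * w ^ 2 - 6 * j ^ 5 * w - 112 * j ^ 4 * w ^ 3 - 108 * j ^ 4 * w ^ 2 - 24 * j ^ 4 * w - j ^ 4 - 8 * j ^ 3 * w ^ 3 - 60 * j ^ 3 * w ^ 2 + 8 * j ^ 3 * w * s - 30 * j ^ 3 * w - 3 * j ^ 3 + 64 * j ^ 2 * w ^ 3 + 48 * j ^ 2 * w ^ 2 + 8 * j ^ 2 * w * s + 4 * j ^ 2 * w + 4 * j ^ 2 * s - 2 * j ^ 2 + 32 * j * w ^ 3 + 72 * j * w ^ 2 - 8 * j * w * s + 32 * j * w + 4 * j * s + 24 * w ^ 2 - 8 * w * s + 16 * w)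 * H.sq

/-- `k = 2`, `m` odd: no point -/
theorem no_c2 {D s x y : L} (hs : V s ≤ 1) (hD : D = -2 * j * (1 + 2 * (j - 1) * s))
    (hs1 : V s = exp (-1 : ℤ) ∨ ∃ t, V t ≤ 1 ∧ s = 1 + 2 * t)
    (he : y ^ 2 = x ^ 3 - D * x) (hx : V x = exp (-1 : ℤ)) : False := by
  obtain ⟨X, hX, rfl⟩ := div_unif H hx
  have h2 : (2 : L) ≠ 0 := two_ne_zero
  have hl := H.v
  have hl0 := lam_ne H
  have hll : (2 * (1 + j)) ^ 2 = 8 * j := by linear_combination 4 * H.sq
  have hj0 : (j : L) ≠ 0 := by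
    intro h0
    have := H.sq
    rw [h0] at this
    norm_num at this
  obtain ⟨e, w, hcases, hw, rfl⟩ := unit3 H hX
  have hodd : ∀ z : L, V z ≤ 1 → y ^ 2 = 4 * (1 + j) * (1 + (1 + j) * z) → False := by
    intro z hz h
    have h1 := nu_onel hl hz
    have h3 := Lm.odd_val (V := V) (y := y) (n := -5) (by
      rw [h, map_mul, map_mul, h1, hl, Lm.v4 H, mul_one, ← exp_add]
      norm_num)
    omega
  have hgood : ∀ g z : L, V z ≤ 1 → (g = 1 ∨ g = -1 ∨ g = j ∨ g = -j) →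
      y ^ 2 = 8 * j * (g * s + 2 * z) → (∃ Y, Y ^ 2 = g * s + 2 * z) := by
    intro g z hz hg h
    refine ⟨y / (2 * (1 + j)), ?_⟩
    rw [div_pow, h, hll, mul_div_cancel_left₀ _ (mul_ne_zero (by norm_num) hj0)]
  have hfin : ∀ g z : L, V z ≤ 1 → (g = -j ∨ g = j) →
      y ^ 2 = 8 * j * (g * s + 2 * z) → False := by
    intro g z hz hg h
    obtain ⟨Y, hY⟩ := hgood g z hz (by tauto) h
    have hg1 : V g = 1 := by
      rcases hg with h9 | h9 <;> rw [h9]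
      · rw [Valuation.map_neg, Lm.vj H]
      · exact Lm.vj H
    rcases hs1 with h1 | ⟨t, ht, h1⟩
    · have h3 := Lm.odd_val (V := V) (y := Y) (n := -1) (by
        rw [hY, Valuation.map_add_eq_of_lt_left, map_mul, hg1, one_mul, h1]
        rw [map_mul, map_mul, hg1, one_mul, h1, Lm.v2 H]
        calc exp (-2 : ℤ) * V z ≤ exp (-2 : ℤ) * 1 := by gcongr
          _ < exp (-1 : ℤ) := by
            rw [mul_one, exp_lt_exp]
            norm_num)
      omega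
    · rcases hg with h9 | h9
      · refine Lm.no_sq H (z := Y) (s := -j - j * t + z) (by (repeat' first
      | assumption | exact (map_one _).le | exact nu_ofNat_le' _ | exact (Lm.vj H).le
      | exact (map_zero _).trans_le zero_le | apply nu_add_le
      | apply nu_sub_le' | apply nu_neg_le' | apply nu_mul_le | apply nu_pow_le')) ?_
        rw [hY, h1, h9]
        linear_combination (0) * H.sq
      · refine Lm.no_sq H (z := Y) (s := j * t + z) (by (repeat' first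
      | assumption | exact (map_one _).le | exact nu_ofNat_le' _ | exact (Lm.vj H).le
      | exact (map_zero _).trans_le zero_le | apply nu_add_le
      | apply nu_sub_le' | apply nu_neg_le' | apply nu_mul_le | apply nu_pow_le')) ?_
        rw [hY, h1, h9]
        linear_combination (0) * H.sq
  rcases hcases with h9 | h9 | h9 | h9
  · refine hodd (6 * j * w ^ 2 - 2 * j * w * s + 4 * j * w + j - 8 * w ^ 3 - 6 * w ^ 2 - 2 * w * s - s) (by (repeat' first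
      | assumption | exact (map_one _).le | exact nu_ofNat_le' _ | exact (Lm.vj H).le
      | exact (map_zero _).trans_le zero_le | apply nu_add_le
      | apply nu_sub_le' | apply nu_neg_le' | apply nu_mul_le | apply nu_pow_le')) ?_
    rw [he, hD, h9]
    linear_combination (8 * j ^ 4 * w ^ 3 + 48 * j ^ 3 * w ^ 3 + 12 * j ^ 3 * w ^ 2 + 112 * j ^ 2 * w ^ 3 + 60 * j ^ 2 * w ^ 2 + 8 * j ^ 2 * w * s + 6 * j ^ 2 * w + 112 * j * w ^ 3 + 84 * j * w ^ 2 + 16 * j * w * s + 12 * j * w + 4 * j * s - 3 * j + 40 * w ^ 3 + 36 * w ^ 2 + 8 * w * s + 6 * w + 4 * s - 3) * H.sq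
  · refine hodd (-6 * j * w ^ 2 + 2 * j * w * s - 4 * j * w + 8 * w ^ 3 + 6 * w ^ 2 + 2 * w * s + s - 1) (by (repeat' first
      | assumption | exact (map_one _).le | exact nu_ofNat_le' _ | exact (Lm.vj H).le
      | exact (map_zero _).trans_le zero_le | apply nu_add_le
      | apply nu_sub_le' | apply nu_neg_le' | apply nu_mul_le | apply nu_pow_le')) ?_
    rw [he, hD, h9]
    linear_combination (-8 * j ^ 4 * w ^ 3 - 48 * j ^ 3 * w ^ 3 - 12 * j ^ 3 * w ^ 2 - 112 * j ^ 2 * w ^ 3 - 60 * j ^ 2 * w ^ 2 - 8 * j ^ 2 * w * s - 6 * j ^ 2 * w - 112 * j * w ^ 3 - 84 * j * w ^ 2 - 16 * j * w * s - 12 * j * w - 4 * j * s - j - 40 * w ^ 3 - 36 * w ^ 2 - 8 * w * s - 6 * w - 4 * s - 1) * H.sq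
  · refine hfin (-j) (4 * j * w ^ 3 + 3 * j * w ^ 2 - j * w * s + 3 * w ^ 2 + w * s + w) (by (repeat' first
      | assumption | exact (map_one _).le | exact nu_ofNat_le' _ | exact (Lm.vj H).le
      | exact (map_zero _).trans_le zero_le | apply nu_add_le
      | apply nu_sub_le' | apply nu_neg_le' | apply nu_mul_le | apply nu_pow_le')) (Or.inl rfl) ?_
    rw [he, hD, h9]
    linear_combination (8 * j ^ 7 * w ^ 3 + 48 * j ^ 6 * w ^ 3 + 12 * j ^ 6 * w ^ 2 + 112 * j ^ 5 * w ^ 3 + 60 * j ^ 5 * w ^ 2 + 6 * j ^ 5 * w + 112 * j ^ 4 * w ^ 3 + 108 * j ^ 4 * w ^ 2 + 24 * j ^ 4 * w + j ^ 4 + 8 * j ^ 3 * w ^ 3 + 60 * j ^ 3 * w ^ 2 + 8 * j ^ 3 * w * s + 30 * j ^ 3 * w + 3 * j ^ 3 - 64 * j ^ 2 * w ^ 3 - 48 * j ^ 2 * w ^ 2 + 8 * j ^ 2 * w * s + 4 * j ^ 2 * w + 4 * j ^ 2 * s + 2 * j ^ 2 - 48 * j * w ^ 2 - 16 * j * w * s - 16 * j * w) * H.sq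
  · refine hfin (j) (-4 * j * w ^ 3 - 3 * j * w ^ 2 + j * w * s - 3 * w ^ 2 - w * s - w) (by (repeat' first
      | assumption | exact (map_one _).le | exact nu_ofNat_le' _ | exact (Lm.vj H).le
      | exact (map_zero _).trans_le zero_le | apply nu_add_le
      | apply nu_sub_le' | apply nu_neg_le' | apply nu_mul_le | apply nu_pow_le')) (Or.inr rfl) ?_
    rw [he, hD, h9]
    linear_combination (-8 * j ^ 7 * w ^ 3 - 48 * j ^ 6 * w ^ 3 - 12 * j ^ 6 * w ^ 2 - 112 * j ^ 5 * w ^ 3 - 60 * j ^ 5 * w ^ 2 - 6 * j ^ 5 * w - 112 * j ^ 4 * w ^ 3 - 108 * j ^ 4 * w ^ 2 - 24 * j ^ 4 * w - j ^ 4 - 8 * j ^ 3 * w ^ 3 - 60 * j ^ 3 * w ^ 2 - 8 * j ^ 3 * w * s - 30 * j ^ 3 * w - 3 * j ^ 3 + 64 * j ^ 2 * w ^ 3 + 48 * j ^ 2 * w ^ 2 - 8 * j ^ 2 * w * s - 4 * j ^ 2 * w - 4 * j ^ 2 * s - 2 * j ^ 2 + 48 * j * w ^ 2 + 16 * j * w * s + 16 * j * w) * H.sq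

/-! ### existence -/

theorem sq_near (hH : Hen V) {u : L} (hu : V u ≤ 1) : ∃ r : L, r ^ 2 = 1 + 4 * (1 + j) * u := by
  obtain ⟨r, hr⟩ := sq_of_near H.sq (Lm.v2 H) hH (s := -u) (nu_neg_le' hu)
  refine ⟨r, ?_⟩
  rw [hr]
  linear_combination (-u * (1 + j) * (j ^ 2 + 4 * j + 5)) * H.sq

theorem ex_key (hH : Hen V) {D x c u : L} (hu : V u ≤ 1)
    (he : x ^ 3 - D * x = c ^ 2 * (1 + 4 * (1 + j) * u)) : ∃ y : L, y ^ 2 = x ^ 3 - D * x := by
  obtain ⟨r, hr⟩ := sq_near H hH hu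
  exact ⟨c * r, by rw [mul_pow, hr, he]⟩

theorem v_lam_mul {X : L} (hX : V X = 1) : V ((1 + j) * X) = exp (-1 : ℤ) := by
  rw [map_mul, H.v, hX, mul_one]

theorem v_one_two {z : L} (hz : V z ≤ 1) : V (1 + 2 * z) = 1 := by
  refine V.map_one_add_of_lt ?_
  rw [map_mul]
  exact mul_lt_one_of_lt_of_le (Lm.v2lt H) hz

/-- `k = 3`: a point -/
theorem ex_b (hH : Hen V) {D s : L} (hs : V s ≤ 1) (hD : D = 2 * (1 + 2 * (j - 1) * s)) :
    ∃ x y : L, y ^ 2 = x ^ 3 - D * x ∧ V x = exp (-1 : ℤ) := by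
  obtain ⟨ρ, n, v, hρ, hn, hv, hsv⟩ := split2 H hs
  have key : ∀ X u : L, V X = 1 → V u ≤ 1 →
      ((1 + j) * X) ^ 3 - D * ((1 + j) * X) = (2 * j) ^ 2 * (1 + 4 * (1 + j) * u) →
      ∃ x y : L, y ^ 2 = x ^ 3 - D * x ∧ V x = exp (-1 : ℤ) := by
    intro X u hX hu h
    obtain ⟨y, hy⟩ := ex_key H hH hu h
    exact ⟨(1 + j) * X, y, hy, v_lam_mul H hX⟩
  rcases hρ with rfl | rfl <;> rcases hn with rfl | rfl
  · refine key (1 + 2 * (2 * v)) (-8 * j * v ^ 3 - 4 * j * v ^ 2 - j * v - 2 * v ^ 2) (v_one_two H (by (repeat' first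
      | assumption | exact (map_one _).le | exact nu_ofNat_le' _ | exact (Lm.vj H).le
      | exact (map_zero _).trans_le zero_le | apply nu_add_le
      | apply nu_sub_le' | apply nu_neg_le' | apply nu_mul_le | apply nu_pow_le'))) (by (repeat' first
      | assumption | exact (map_one _).le | exact nu_ofNat_le' _ | exact (Lm.vj H).le
      | exact (map_zero _).trans_le zero_le | apply nu_add_le
      | apply nu_sub_le' | apply nu_neg_le' | apply nu_mul_le | apply nu_pow_le')) ?_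
    rw [hD, hsv]
    linear_combination (128 * j ^ 2 * v ^ 3 + 64 * j ^ 2 * v ^ 2 + 16 * j ^ 2 * v + 192 * j * v ^ 3 + 144 * j * v ^ 2 + 28 * j * v + j + 64 * v ^ 3 + 80 * v ^ 2 + 12 * v - 1) * H.sq
  · refine key (1 + 2 * (j + 2 * v)) (-8 * j * v ^ 3 - 4 * j * v ^ 2 + 3 * j * v + j + 10 * v ^ 2 + 4 * v) (v_one_two H (by (repeat' first
      | assumption | exact (map_one _).le | exact nu_ofNat_le' _ | exact (Lm.vj H).le
      | exact (map_zero _).trans_le zero_le | apply nu_add_le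
      | apply nu_sub_le' | apply nu_neg_le' | apply nu_mul_le | apply nu_pow_le'))) (by (repeat' first
      | assumption | exact (map_one _).le | exact nu_ofNat_le' _ | exact (Lm.vj H).le
      | exact (map_zero _).trans_le zero_le | apply nu_add_le
      | apply nu_sub_le' | apply nu_neg_le' | apply nu_mul_le | apply nu_pow_le')) ?_
    rw [hD, hsv]
    linear_combination (8 * j ^ 4 + 48 * j ^ 3 * v + 36 * j ^ 3 + 128 * j ^ 2 * v ^ 3 + 160 * j ^ 2 * v ^ 2 + 144 * j ^ 2 * v + 34 * j ^ 2 + 192 * j * v ^ 3 + 240 * j * v ^ 2 + 108 * j * v + 7 * j + 64 * v ^ 3 + 80 * v ^ 2 + 12 * v - 1) * H.sq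
  · refine key (1 + 2 * (1 + 2 * v - 2)) (-8 * j * v ^ 3 + 8 * j * v ^ 2 - j * v - 2 * v ^ 2) (v_one_two H (by (repeat' first
      | assumption | exact (map_one _).le | exact nu_ofNat_le' _ | exact (Lm.vj H).le
      | exact (map_zero _).trans_le zero_le | apply nu_add_le
      | apply nu_sub_le' | apply nu_neg_le' | apply nu_mul_le | apply nu_pow_le'))) (by (repeat' first
      | assumption | exact (map_one _).le | exact nu_ofNat_le' _ | exact (Lm.vj H).le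
      | exact (map_zero _).trans_le zero_le | apply nu_add_le
      | apply nu_sub_le' | apply nu_neg_le' | apply nu_mul_le | apply nu_pow_le')) ?_
    rw [hD, hsv]
    linear_combination (128 * j ^ 2 * v ^ 3 - 128 * j ^ 2 * v ^ 2 + 16 * j ^ 2 * v + 192 * j * v ^ 3 - 144 * j * v ^ 2 + 28 * j * v - j + 64 * v ^ 3 - 16 * v ^ 2 + 12 * v - 3) * H.sq
  · refine key (1 + 2 * (1 + j + 2 * v - 2)) (-8 * j * v ^ 3 + 8 * j * v ^ 2 + 3 * j * v - 2 * j + 10 * v ^ 2 - 8 * v) (v_one_two H (by (repeat' first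
      | assumption | exact (map_one _).le | exact nu_ofNat_le' _ | exact (Lm.vj H).le
      | exact (map_zero _).trans_le zero_le | apply nu_add_le
      | apply nu_sub_le' | apply nu_neg_le' | apply nu_mul_le | apply nu_pow_le'))) (by (repeat' first
      | assumption | exact (map_one _).le | exact nu_ofNat_le' _ | exact (Lm.vj H).le
      | exact (map_zero _).trans_le zero_le | apply nu_add_le
      | apply nu_sub_le' | apply nu_neg_le' | apply nu_mul_le | apply nu_pow_le')) ?_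
    rw [hD, hsv]
    linear_combination (8 * j ^ 4 + 48 * j ^ 3 * v + 12 * j ^ 3 + 128 * j ^ 2 * v ^ 3 - 32 * j ^ 2 * v ^ 2 + 48 * j ^ 2 * v + 10 * j ^ 2 + 192 * j * v ^ 3 - 48 * j * v ^ 2 + 12 * j * v + 5 * j + 64 * v ^ 3 - 16 * v ^ 2 + 12 * v - 3) * H.sq

/-- `k = 0`, `s = 1` modulo `2`: a point -/
theorem ex_c0 (hH : Hen V) {D s t : L} (ht : V t ≤ 1) (hst : s = 1 + 2 * t)
    (hD : D = 2 * j * (1 + 2 * (j - 1) * s)) :
    ∃ x y : L, y ^ 2 = x ^ 3 - D * x ∧ V x = exp (-1 : ℤ) := by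
  obtain ⟨ρ, n, w, hρ, hn, hw, htw⟩ := split2 H ht
  have key : ∀ X u : L, V X = 1 → V u ≤ 1 →
      ((1 + j) * X) ^ 3 - D * ((1 + j) * X) = (2 * (1 + j)) ^ 2 * (1 + 4 * (1 + j) * u) →
      ∃ x y : L, y ^ 2 = x ^ 3 - D * x ∧ V x = exp (-1 : ℤ) := by
    intro X u hX hu h
    obtain ⟨y, hy⟩ := ex_key H hH hu h
    exact ⟨(1 + j) * X, y, hy, v_lam_mul H hX⟩
  rcases hρ with rfl | rfl <;> rcases hn with rfl | rfl
  · refine key (1 + 2 * ((1 + j) * ((1) * (2 * w) + (0)))) (8 * j * w ^ 3 + 6 * j * w ^ 2 - 8 * w ^ 3 + 4 * w ^ 2 + 2 * w) (v_one_two H (by (repeat' first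
      | assumption | exact (map_one _).le | exact nu_ofNat_le' _ | exact (Lm.vj H).le
      | exact (map_zero _).trans_le zero_le | apply nu_add_le
      | apply nu_sub_le' | apply nu_neg_le' | apply nu_mul_le | apply nu_pow_le'))) (by (repeat' first
      | assumption | exact (map_one _).le | exact nu_ofNat_le' _ | exact (Lm.vj H).le
      | exact (map_zero _).trans_le zero_le | apply nu_add_le
      | apply nu_sub_le' | apply nu_neg_le' | apply nu_mul_le | apply nu_pow_le')) ?_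
    rw [hD, hst, htw]
    linear_combination (64 * j ^ 4 * w ^ 3 + 384 * j ^ 3 * w ^ 3 + 48 * j ^ 3 * w ^ 2 + 768 * j ^ 2 * w ^ 3 + 80 * j ^ 2 * w ^ 2 - 4 * j ^ 2 * w + 640 * j * w ^ 3 + 16 * j * w ^ 2 - 24 * j * w - 3 * j + 192 * w ^ 3 - 16 * w ^ 2 - 20 * w - 3) * H.sq
  · refine key (1 + 2 * ((1 + j) * ((-1) * (j + 2 * w) + (j + 1)))) (-8 * j * w ^ 3 + 18 * j * w ^ 2 - 15 * j * w + 4 * j + 8 * w ^ 3 - 16 * w ^ 2 + 7 * w) (v_one_two H (by (repeat' first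
      | assumption | exact (map_one _).le | exact nu_ofNat_le' _ | exact (Lm.vj H).le
      | exact (map_zero _).trans_le zero_le | apply nu_add_le
      | apply nu_sub_le' | apply nu_neg_le' | apply nu_mul_le | apply nu_pow_le'))) (by (repeat' first
      | assumption | exact (map_one _).le | exact nu_ofNat_le' _ | exact (Lm.vj H).le
      | exact (map_zero _).trans_le zero_le | apply nu_add_le
      | apply nu_sub_le' | apply nu_neg_le' | apply nu_mul_le | apply nu_pow_le')) ?_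
    rw [hD, hst, htw]
    linear_combination (-64 * j ^ 4 * w ^ 3 + 96 * j ^ 4 * w ^ 2 - 48 * j ^ 4 * w + 8 * j ^ 4 - 384 * j ^ 3 * w ^ 3 + 624 * j ^ 3 * w ^ 2 - 304 * j ^ 3 * w + 44 * j ^ 3 - 768 * j ^ 2 * w ^ 3 + 1360 * j ^ 2 * w ^ 2 - 668 * j ^ 2 * w + 82 * j ^ 2 - 640 * j * w ^ 3 + 1232 * j * w ^ 2 - 632 * j * w + 69 * j - 192 * w ^ 3 + 400 * w ^ 2 - 220 * w + 23) * H.sq
  · refine key (1 + 2 * ((1 + j) * ((-1) * (1 + 2 * w) + (j + 1)))) (-8 * j * w ^ 3 - 6 * j * w ^ 2 + 7 * j * w + j + 8 * w ^ 3 - 16 * w ^ 2 - 3 * w + 1) (v_one_two H (by (repeat' first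
      | assumption | exact (map_one _).le | exact nu_ofNat_le' _ | exact (Lm.vj H).le
      | exact (map_zero _).trans_le zero_le | apply nu_add_le
      | apply nu_sub_le' | apply nu_neg_le' | apply nu_mul_le | apply nu_pow_le'))) (by (repeat' first
      | assumption | exact (map_one _).le | exact nu_ofNat_le' _ | exact (Lm.vj H).le
      | exact (map_zero _).trans_le zero_le | apply nu_add_le
      | apply nu_sub_le' | apply nu_neg_le' | apply nu_mul_le | apply nu_pow_le')) ?_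
    rw [hD, hst, htw]
    linear_combination (8 * j ^ 7 - 48 * j ^ 6 * w + 48 * j ^ 6 + 96 * j ^ 5 * w ^ 2 - 288 * j ^ 5 * w + 124 * j ^ 5 - 64 * j ^ 4 * w ^ 3 + 576 * j ^ 4 * w ^ 2 - 720 * j ^ 4 * w + 172 * j ^ 4 - 384 * j ^ 3 * w ^ 3 + 1392 * j ^ 3 * w ^ 2 - 944 * j ^ 3 * w + 98 * j ^ 3 - 768 * j ^ 2 * w ^ 3 + 1744 * j ^ 2 * w ^ 2 - 588 * j ^ 2 * w - 24 * j ^ 2 - 640 * j * w ^ 3 + 1136 * j * w ^ 2 - 88 * j * w - 53 * j - 192 * w ^ 3 + 304 * w ^ 2 + 36 * w - 19) * H.sq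
  · refine key (1 + 2 * ((1 + j) * ((1) * (1 + j + 2 * w) + (0)))) (8 * j * w ^ 3 + 6 * j * w ^ 2 - 2 * j * w - j - 8 * w ^ 3 - 20 * w ^ 2 - 12 * w - 2) (v_one_two H (by (repeat' first
      | assumption | exact (map_one _).le | exact nu_ofNat_le' _ | exact (Lm.vj H).le
      | exact (map_zero _).trans_le zero_le | apply nu_add_le
      | apply nu_sub_le' | apply nu_neg_le' | apply nu_mul_le | apply nu_pow_le'))) (by (repeat' first
      | assumption | exact (map_one _).le | exact nu_ofNat_le' _ | exact (Lm.vj H).le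
      | exact (map_zero _).trans_le zero_le | apply nu_add_le
      | apply nu_sub_le' | apply nu_neg_le' | apply nu_mul_le | apply nu_pow_le')) ?_
    rw [hD, hst, htw]
    linear_combination (8 * j ^ 7 + 48 * j ^ 6 * w + 72 * j ^ 6 + 96 * j ^ 5 * w ^ 2 + 384 * j ^ 5 * w + 292 * j ^ 5 + 64 * j ^ 4 * w ^ 3 + 672 * j ^ 4 * w ^ 2 + 1344 * j ^ 4 * w + 668 * j ^ 4 + 384 * j ^ 3 * w ^ 3 + 1968 * j ^ 3 * w ^ 2 + 2528 * j ^ 3 * w + 918 * j ^ 3 + 768 * j ^ 2 * w ^ 3 + 2768 * j ^ 2 * w ^ 2 + 2636 * j ^ 2 * w + 746 * j ^ 2 + 640 * j * w ^ 3 + 1840 * j * w ^ 2 + 1416 * j * w + 323 * j + 192 * w ^ 3 + 464 * w ^ 2 + 300 * w + 55) * H.sq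

/-- `k = 2`, `s = j` modulo `2`: a point -/
theorem ex_c2 (hH : Hen V) {D s t : L} (ht : V t ≤ 1) (hst : s = j + 2 * t)
    (hD : D = -2 * j * (1 + 2 * (j - 1) * s)) :
    ∃ x y : L, y ^ 2 = x ^ 3 - D * x ∧ V x = exp (-1 : ℤ) := by
  obtain ⟨ρ, n, w, hρ, hn, hw, htw⟩ := split2 H ht
  have key : ∀ X u : L, V X = 1 → V u ≤ 1 →
      ((1 + j) * (j * X)) ^ 3 - D * ((1 + j) * (j * X)) = (2 * (1 + j)) ^ 2 * (1 + 4 * (1 + j) * u) →
      ∃ x y : L, y ^ 2 = x ^ 3 - D * x ∧ V x = exp (-1 : ℤ) := by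
    intro X u hX hu h
    obtain ⟨y, hy⟩ := ex_key H hH hu h
    exact ⟨(1 + j) * (j * X), y, hy, v_lam_mul H (by rw [map_mul, Lm.vj H, hX, one_mul])⟩
  rcases hρ with rfl | rfl <;> rcases hn with rfl | rfl
  · refine key (1 + 2 * ((1 + j) * ((1) * (2 * w) + (0)))) (8 * j * w ^ 3 - 4 * j * w ^ 2 - j * w + 8 * w ^ 3 + 6 * w ^ 2 + w) (v_one_two H (by (repeat' first
      | assumption | exact (map_one _).le | exact nu_ofNat_le' _ | exact (Lm.vj H).le
      | exact (map_zero _).trans_le zero_le | apply nu_add_le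
      | apply nu_sub_le' | apply nu_neg_le' | apply nu_mul_le | apply nu_pow_le'))) (by (repeat' first
      | assumption | exact (map_one _).le | exact nu_ofNat_le' _ | exact (Lm.vj H).le
      | exact (map_zero _).trans_le zero_le | apply nu_add_le
      | apply nu_sub_le' | apply nu_neg_le' | apply nu_mul_le | apply nu_pow_le')) ?_
    rw [hD, hst, htw]
    linear_combination (64 * j ^ 7 * w ^ 3 + 384 * j ^ 6 * w ^ 3 + 48 * j ^ 6 * w ^ 2 + 896 * j ^ 5 * w ^ 3 + 240 * j ^ 5 * w ^ 2 + 12 * j ^ 5 * w + 896 * j ^ 4 * w ^ 3 + 432 * j ^ 4 * w ^ 2 + 64 * j ^ 4 * w + j ^ 4 + 64 * j ^ 3 * w ^ 3 + 304 * j ^ 3 * w ^ 2 + 76 * j ^ 3 * w + 7 * j ^ 3 - 640 * j ^ 2 * w ^ 3 - 64 * j ^ 2 * w ^ 2 + 8 * j ^ 2 * w + 2 * j ^ 2 - 512 * j * w ^ 3 - 224 * j * w ^ 2 - 32 * j * w - 8 * j - 128 * w ^ 3 - 96 * w ^ 2 - 16 * w - 4) * H.sq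
  · refine key (1 + 2 * ((1 + j) * ((1) * (j + 2 * w) + (j + 1)))) (8 * j * w ^ 3 + 32 * j * w ^ 2 + 15 * j * w - 4 * j + 8 * w ^ 3 - 6 * w ^ 2 - 29 * w - 11) (v_one_two H (by (repeat' first
      | assumption | exact (map_one _).le | exact nu_ofNat_le' _ | exact (Lm.vj H).le
      | exact (map_zero _).trans_le zero_le | apply nu_add_le
      | apply nu_sub_le' | apply nu_neg_le' | apply nu_mul_le | apply nu_pow_le'))) (by (repeat' first
      | assumption | exact (map_one _).le | exact nu_ofNat_le' _ | exact (Lm.vj H).le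
      | exact (map_zero _).trans_le zero_le | apply nu_add_le
      | apply nu_sub_le' | apply nu_neg_le' | apply nu_mul_le | apply nu_pow_le')) ?_
    rw [hD, hst, htw]
    linear_combination (64 * j ^ 10 + 192 * j ^ 9 * w + 480 * j ^ 9 + 192 * j ^ 8 * w ^ 2 + 1344 * j ^ 8 * w + 1568 * j ^ 8 + 64 * j ^ 7 * w ^ 3 + 1248 * j ^ 7 * w ^ 2 + 3984 * j ^ 7 * w + 2824 * j ^ 7 + 384 * j ^ 6 * w ^ 3 + 3312 * j ^ 6 * w ^ 2 + 6192 * j ^ 6 * w + 2824 * j ^ 6 + 896 * j ^ 5 * w ^ 3 + 4272 * j ^ 5 * w ^ 2 + 4668 * j ^ 5 * w + 1202 * j ^ 5 + 896 * j ^ 4 * w ^ 3 + 1968 * j ^ 4 * w ^ 2 + 400 * j ^ 4 * w - 295 * j ^ 4 + 64 * j ^ 3 * w ^ 3 - 1136 * j ^ 3 * w ^ 2 - 1428 * j ^ 3 * w - 207 * j ^ 3 - 640 * j ^ 2 * w ^ 3 - 1408 * j ^ 2 * w ^ 2 + 168 * j ^ 2 * w + 550 * j ^ 2 - 512 * j * w ^ 3 - 224 * j * w ^ 2 + 1152 * j * w + 584 * j - 128 * w ^ 3 + 96 * w ^ 2 + 464 * w + 172) * H.sq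
  · refine key (1 + 2 * ((1 + j) * ((1) * (1 + 2 * w) + (j + 1)))) (8 * j * w ^ 3 + 32 * j * w ^ 2 + 41 * j * w + 17 * j + 8 * w ^ 3 + 18 * w ^ 2 + 9 * w - 2) (v_one_two H (by (repeat' first
      | assumption | exact (map_one _).le | exact nu_ofNat_le' _ | exact (Lm.vj H).le
      | exact (map_zero _).trans_le zero_le | apply nu_add_le
      | apply nu_sub_le' | apply nu_neg_le' | apply nu_mul_le | apply nu_pow_le'))) (by (repeat' first
      | assumption | exact (map_one _).le | exact nu_ofNat_le' _ | exact (Lm.vj H).le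
      | exact (map_zero _).trans_le zero_le | apply nu_add_le
      | apply nu_sub_le' | apply nu_neg_le' | apply nu_mul_le | apply nu_pow_le')) ?_
    rw [hD, hst, htw]
    linear_combination (8 * j ^ 10 + 48 * j ^ 9 * w + 96 * j ^ 9 + 96 * j ^ 8 * w ^ 2 + 480 * j ^ 8 * w + 508 * j ^ 8 + 64 * j ^ 7 * w ^ 3 + 768 * j ^ 7 * w ^ 2 + 2064 * j ^ 7 * w + 1532 * j ^ 7 + 384 * j ^ 6 * w ^ 3 + 2544 * j ^ 6 * w ^ 2 + 4848 * j ^ 6 * w + 2810 * j ^ 6 + 896 * j ^ 5 * w ^ 3 + 4272 * j ^ 5 * w ^ 2 + 6348 * j ^ 5 * w + 3000 * j ^ 5 + 896 * j ^ 4 * w ^ 3 + 3216 * j ^ 4 * w ^ 2 + 3696 * j ^ 4 * w + 1351 * j ^ 4 + 64 * j ^ 3 * w ^ 3 - 272 * j ^ 3 * w ^ 2 - 852 * j ^ 3 * w - 521 * j ^ 3 - 640 * j ^ 2 * w ^ 3 - 2176 * j ^ 2 * w ^ 2 - 2360 * j ^ 2 * w - 782 * j ^ 2 - 512 * j * w ^ 3 - 1376 * j * w ^ 2 - 1088 * j * w - 184 * j - 128 * w ^ 3 - 288 * w ^ 2 - 144 * w + 28) * H.sq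
  · refine key (1 + 2 * ((1 + j) * ((1) * (1 + j + 2 * w) + (0)))) (8 * j * w ^ 3 + 20 * j * w ^ 2 + 13 * j * w + 3 * j + 8 * w ^ 3 + 6 * w ^ 2 - w - 1) (v_one_two H (by (repeat' first
      | assumption | exact (map_one _).le | exact nu_ofNat_le' _ | exact (Lm.vj H).le
      | exact (map_zero _).trans_le zero_le | apply nu_add_le
      | apply nu_sub_le' | apply nu_neg_le' | apply nu_mul_le | apply nu_pow_le'))) (by (repeat' first
      | assumption | exact (map_one _).le | exact nu_ofNat_le' _ | exact (Lm.vj H).le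
      | exact (map_zero _).trans_le zero_le | apply nu_add_le
      | apply nu_sub_le' | apply nu_neg_le' | apply nu_mul_le | apply nu_pow_le')) ?_
    rw [hD, hst, htw]
    linear_combination (8 * j ^ 10 + 48 * j ^ 9 * w + 72 * j ^ 9 + 96 * j ^ 8 * w ^ 2 + 384 * j ^ 8 * w + 292 * j ^ 8 + 64 * j ^ 7 * w ^ 3 + 672 * j ^ 7 * w ^ 2 + 1344 * j ^ 7 * w + 684 * j ^ 7 + 384 * j ^ 6 * w ^ 3 + 1968 * j ^ 6 * w ^ 2 + 2592 * j ^ 6 * w + 974 * j ^ 6 + 896 * j ^ 5 * w ^ 3 + 2928 * j ^ 5 * w ^ 2 + 2748 * j ^ 5 * w + 798 * j ^ 5 + 896 * j ^ 4 * w ^ 3 + 1872 * j ^ 4 * w ^ 2 + 1184 * j ^ 4 * w + 243 * j ^ 4 + 64 * j ^ 3 * w ^ 3 - 368 * j ^ 3 * w ^ 2 - 468 * j ^ 3 * w - 147 * j ^ 3 - 640 * j ^ 2 * w ^ 3 - 1216 * j ^ 2 * w ^ 2 - 664 * j ^ 2 * w - 130 * j ^ 2 - 512 * j * w ^ 3 - 608 * j * w ^ 2 - 160 * j * w - 8 * j - 128 * w ^ 3 - 96 * w ^ 2 + 16 * w + 12) * H.sq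

/-- `k = 0`, `s = 0` modulo `2`: a point of order two -/
theorem ex_z0 (hH : Hen V) {D s t : L} (ht : V t ≤ 1) (hst : s = 2 * t)
    (hD : D = 2 * j * (1 + 2 * (j - 1) * s)) :
    ∃ x y : L, y ^ 2 = x ^ 3 - D * x ∧ V x = exp (-1 : ℤ) := by
  obtain ⟨r, hr⟩ := sq_near H hH (u := j * t) (nu_mul_le (Lm.vj H).le ht)
  have hr1 : V r = 1 := by
    have h1 : V (r ^ 2) = 1 := by
      have e : 1 + 4 * (1 + j) * (j * t) = 1 + 2 * (2 * (1 + j) * (j * t)) := by ring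
      rw [hr, e]
      exact v_one_two H (by (repeat' first
      | assumption | exact (map_one _).le | exact nu_ofNat_le' _ | exact (Lm.vj H).le
      | exact (map_zero _).trans_le zero_le | apply nu_add_le
      | apply nu_sub_le' | apply nu_neg_le' | apply nu_mul_le | apply nu_pow_le'))
    rw [map_pow] at h1
    exact (pow_eq_one_iff_of_nonneg zero_le (by norm_num)).1 h1
  refine ⟨(1 + j) * r, 0, ?_, v_lam_mul H hr1⟩
  have e : ((1 + j) * r) ^ 2 = D := by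
    rw [mul_pow, hr, hD, hst]
    linear_combination (4 * j ^ 2 * t + 12 * j * t + 1) * H.sq
  have e2 : ((1 + j) * r) ^ 3 - D * ((1 + j) * r) = ((1 + j) * r) * (((1 + j) * r) ^ 2 - D) := by ring
  rw [e2, e, sub_self, mul_zero, zero_pow two_ne_zero]

/-- `k = 2`, `s = 0` modulo `2`: a point of order two -/
theorem ex_z2 (hH : Hen V) {D s t : L} (ht : V t ≤ 1) (hst : s = 2 * t)
    (hD : D = -2 * j * (1 + 2 * (j - 1) * s)) :
    ∃ x y : L, y ^ 2 = x ^ 3 - D * x ∧ V x = exp (-1 : ℤ) := by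
  obtain ⟨r, hr⟩ := sq_near H hH (u := j * t) (nu_mul_le (Lm.vj H).le ht)
  have hr1 : V r = 1 := by
    have h1 : V (r ^ 2) = 1 := by
      have e : 1 + 4 * (1 + j) * (j * t) = 1 + 2 * (2 * (1 + j) * (j * t)) := by ring
      rw [hr, e]
      exact v_one_two H (by (repeat' first
      | assumption | exact (map_one _).le | exact nu_ofNat_le' _ | exact (Lm.vj H).le
      | exact (map_zero _).trans_le zero_le | apply nu_add_le
      | apply nu_sub_le' | apply nu_neg_le' | apply nu_mul_le | apply nu_pow_le'))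
    rw [map_pow] at h1
    exact (pow_eq_one_iff_of_nonneg zero_le (by norm_num)).1 h1
  refine ⟨(1 + j) * (j * r), 0, ?_, v_lam_mul H (by rw [map_mul, Lm.vj H, hr1, one_mul])⟩
  have e : ((1 + j) * (j * r)) ^ 2 = D := by
    rw [mul_pow, mul_pow, hr, hD, hst]
    linear_combination (4 * j ^ 4 * t + 12 * j ^ 3 * t + 8 * j ^ 2 * t + j ^ 2 - 8 * j * t + 2 * j) * H.sq
  have e2 : ((1 + j) * (j * r)) ^ 3 - D * ((1 + j) * (j * r)) =
      ((1 + j) * (j * r)) * (((1 + j) * (j * r)) ^ 2 - D) := by ring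
  rw [e2, e, sub_self, mul_zero, zero_pow two_ne_zero]

end

end TB

end Pool.Agent.Lib.MP_1a91b9_ntQ.C
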