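import Pool.Agent.Lib.MP_1a91b9_ntQ.B.PerB
import Pool.Agent.Lib.MP_1a91b9_ntQ.B.TamLB
import Pool.Agent.Lib.MP_1a91b9_ntQ.C.TamXK

/-!
# Quartic twists, all fourth-power-free `D`, file TamB: the Tamagawa numbers of `y² = x³ - D x` over
`ℚ(i)` at the places where `D` has value `2` or `3`

Value `3`: `2`. Value `2`, not above `2`: `4` if `D / q²` is a square modulo `q`, otherwise `2`. Value
`2` at `lam`: `D = i ^ k lam ^ 2 c`: `2` for `k = 1`, `4` for `k = 3`; `k = 0`: `4` if `bb c = 0`,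
otherwise `2`; `k = 2`: `4` if `aa c + bb c = 0`, otherwise `2`.
-/

set_option autoImplicit false
set_option linter.unusedSectionVars false

namespace Pool.Agent.Lib.MP_1a91b9_ntQ.C

open NumberField IsDedekindDomain WithZero WeierstrassCurve Pool.Agent.Lib.MP_1a91b9_ntQ
open Pool.Agent.Lib.MP_1a91b9_ntH.C (nsSet nsG)
open Pool.Agent.Lib.MP_1a91b9_ntT.S9 (tam minChange hensel_small)
open scoped Classical

variable {D : 𝓞 K4} {v : HeightOneSpectrum (𝓞 K4)}

theorem three_or (v : HeightOneSpectrum (𝓞 K4)) :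
    Valued.v (3 : v.adicCompletion K4) = (1 : ℤᵐ⁰) ∨ Valued.v (2 : v.adicCompletion K4) = (1 : ℤᵐ⁰) := by
  by_cases h2 : lam ∈ v.asIdeal
  · exact Or.inl (Lm.v3 (hyp_lam h2))
  · right
    have := two_val_one h2
    rw [← hval, map_ofNat] at this
    exact this

theorem hen4 (v : HeightOneSpectrum (𝓞 K4)) : Hen (Valued.v : Valuation (v.adicCompletion K4) ℤᵐ⁰) :=
  fun A B C D F hA hB hC hD hF => hensel_small v A B C D F hA hB hC hD hF

/-- **value `3`** -/
theorem tamB_three (hD : v.valuation K4 (D : K4) = exp (-3 : ℤ))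
    (hu : Valued.v ((minChange (WD4 D) v).u : v.adicCompletion K4) = (1 : ℤᵐ⁰)) :
    tam (WD4 D) v = 2 := by
  have hc := charZero4 v
  rw [tam_eq_hu v (WD4 D) (wq_int D v) hu, wq_bc]
  exact TB.index_three (three_or v) (by rw [hval]; exact hD)

/-- **value `2`, a square** -/
theorem tamB_sq {q u s : 𝓞 K4} (hq : Prime q) (hv : q ∈ v.asIdeal) (hl : lam ∉ v.asIdeal)
    (hD : D = q ^ 2 * u) (hqu : ¬ q ∣ u) (hs : q ∣ s ^ 2 - u)
    (hu : Valued.v ((minChange (WD4 D) v).u : v.adicCompletion K4) = (1 : ℤᵐ⁰)) :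
    tam (WD4 D) v = 4 := by
  have hc := charZero4 v
  rw [tam_eq_hu v (WD4 D) (wq_int D v) hu, wq_bc]
  have hid := ideal_eq' hq hv
  have hnot : ∀ {x : 𝓞 K4}, ¬ q ∣ x → v.valuation K4 (x : K4) = 1 := fun hx =>
    val_one' fun hm => hx (by rwa [hid, Ideal.mem_span_singleton] at hm)
  have hqs : ¬ q ∣ s := by
    intro h
    apply hqu
    have h1 := dvd_sub (h.mul_left s) hs
    have e : s * s - (s ^ 2 - u) = u := by ring
    rwa [e] at h1
  have v2 : Valued.v (2 : v.adicCompletion K4) = (1 : ℤᵐ⁰) := by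
    have := two_val_one hl
    rw [← hval, map_ofNat] at this
    exact this
  obtain ⟨A, hA⟩ : ∃ A : 𝓞 K4 → v.adicCompletion K4, A = fun x : 𝓞 K4 =>
    algebraMap K4 (v.adicCompletion K4) (x : K4) := ⟨_, rfl⟩
  have hAq : Valued.v (A q) = exp (-1 : ℤ) := by
    rw [hA]
    exact (hval v _).trans (val_prime' hq hv)
  have hAu : Valued.v (A u) = (1 : ℤᵐ⁰) := by
    rw [hA]
    exact (hval v _).trans (hnot hqu)
  have hAs : Valued.v (A s) = (1 : ℤᵐ⁰) := by
    rw [hA]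
    exact (hval v _).trans (hnot hqs)
  have hAD : A D = A q ^ 2 * A u := by
    have e : (D : K4) = (q : K4) ^ 2 * (u : K4) := by
      rw [hD]
      change algebraMap (𝓞 K4) K4 (q ^ 2 * u) = _
      rw [map_mul, map_pow]
    rw [hA]
    change algebraMap K4 (v.adicCompletion K4) (D : K4) = _
    rw [e, map_mul, map_pow]
  have hsu : Valued.v (A s ^ 2 - A u) < (1 : ℤᵐ⁰) := by
    have h1 : v.valuation K4 ((s ^ 2 - u : 𝓞 K4) : K4) < 1 :=
      (v.valuation_lt_one_iff_mem _).2 (by rwa [hid, Ideal.mem_span_singleton])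
    have e : A s ^ 2 - A u = algebraMap K4 (v.adicCompletion K4) ((s ^ 2 - u : 𝓞 K4) : K4) := by
      have e1 : ((s ^ 2 - u : 𝓞 K4) : K4) = (s : K4) ^ 2 - (u : K4) := by
        change algebraMap (𝓞 K4) K4 (s ^ 2 - u) = _
        rw [map_sub, map_pow]
      rw [e1, map_sub, map_pow, hA]
    rw [e, hval]
    exact h1
  have hs2 : Valued.v (A s ^ 2) = (1 : ℤᵐ⁰) := by rw [map_pow, hAs, one_pow]
  obtain ⟨m, hm, hme⟩ := hen4 v (A s ^ 2 - A u) (2 * A s ^ 2) (A s ^ 2) 0 0 hsu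
    (by rw [map_mul, v2, hs2, one_mul]) hs2.le (by rw [map_zero]; exact zero_le)
    (by rw [map_zero]; exact zero_le)
  have h1m : Valued.v (1 + m) = (1 : ℤᵐ⁰) := Valuation.map_one_add_of_lt _ hm
  have hDv : Valued.v (A D) = exp (-2 : ℤ) := by
    rw [hAD, map_mul, map_pow, hAq, hAu, mul_one, ← exp_nsmul]
    norm_num
  have hAD' : algebraMap K4 (v.adicCompletion K4) (D : K4) = A D := by rw [hA]
  rw [hAD']
  refine TB.index_four_of (three_or v) hDv ⟨A q * (A s * (1 + m)), 0, ?_, ?_⟩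
  · rw [hAD]
    linear_combination (-(A q) ^ 3 * A s * (1 + m)) * hme
  · rw [map_mul, map_mul, hAq, hAs, h1m, mul_one, mul_one]

/-- **value `2`, not a square** -/
theorem tamB_nsq {q u : 𝓞 K4} (hq : Prime q) (hv : q ∈ v.asIdeal)
    (hD : D = q ^ 2 * u) (hqu : ¬ q ∣ u) (hs : ∀ s : 𝓞 K4, ¬ q ∣ s ^ 2 - u)
    (hu : Valued.v ((minChange (WD4 D) v).u : v.adicCompletion K4) = (1 : ℤᵐ⁰)) :
    tam (WD4 D) v = 2 := by
  have hc := charZero4 v
  rw [tam_eq_hu v (WD4 D) (wq_int D v) hu, wq_bc]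
  have hid := ideal_eq' hq hv
  obtain ⟨A, hA⟩ : ∃ A : 𝓞 K4 → v.adicCompletion K4, A = fun x : 𝓞 K4 =>
    algebraMap K4 (v.adicCompletion K4) (x : K4) := ⟨_, rfl⟩
  have hAq : Valued.v (A q) = exp (-1 : ℤ) := by
    rw [hA]
    exact (hval v _).trans (val_prime' hq hv)
  have hAu : Valued.v (A u) = (1 : ℤᵐ⁰) := by
    rw [hA]
    exact (hval v _).trans (val_one' fun hm => hqu (by rwa [hid, Ideal.mem_span_singleton] at hm))
  have hAD : A D = A q ^ 2 * A u := by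
    have e : (D : K4) = (q : K4) ^ 2 * (u : K4) := by
      rw [hD]
      change algebraMap (𝓞 K4) K4 (q ^ 2 * u) = _
      rw [map_mul, map_pow]
    rw [hA]
    change algebraMap K4 (v.adicCompletion K4) (D : K4) = _
    rw [e, map_mul, map_pow]
  have hq0 : A q ≠ 0 := by
    intro h0
    rw [h0, map_zero] at hAq
    exact exp_ne_zero hAq.symm
  have hDv : Valued.v (A D) = exp (-2 : ℤ) := by
    rw [hAD, map_mul, map_pow, hAq, hAu, mul_one, ← exp_nsmul]
    norm_num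
  have hAD' : algebraMap K4 (v.adicCompletion K4) (D : K4) = A D := by rw [hA]
  rw [hAD']
  refine TB.index_two_sq (three_or v) hDv fun x y he hx => ?_
  obtain ⟨X, hX⟩ : ∃ X, X = x / A q := ⟨_, rfl⟩
  have hxX : x = A q * X := by
    rw [hX]
    field_simp
  have hX1 : Valued.v X = (1 : ℤᵐ⁰) := by
    rw [hX, map_div₀, hx, hAq]
    exact div_self exp_ne_zero
  obtain ⟨z, hz⟩ := near v X hX1.le
  have hz' : Valued.v (X - A z) < (1 : ℤᵐ⁰) := by
    rw [hA]
    exact hz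
  have hAz : Valued.v (A z) ≤ (1 : ℤᵐ⁰) := by
    rw [hA]
    exact (hval v _).trans_le (v.valuation_le_one z)
  have h1 : Valued.v (X ^ 2 - A u) = (1 : ℤᵐ⁰) := by
    refine le_antisymm ((Valuation.map_sub _ _ _).trans (max_le ?_ hAu.le)) (not_lt.1 fun h2 => ?_)
    · rw [map_pow, hX1, one_pow]
    apply hs z
    rw [← Ideal.mem_span_singleton, ← hid, ← v.valuation_lt_one_iff_mem (K := K4), ← hval]
    have e1 : ((z ^ 2 - u : 𝓞 K4) : K4) = (z : K4) ^ 2 - (u : K4) := by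
      change algebraMap (𝓞 K4) K4 (z ^ 2 - u) = _
      rw [map_sub, map_pow]
    have e : algebraMap K4 (v.adicCompletion K4) ((z ^ 2 - u : 𝓞 K4) : K4) =
        (X ^ 2 - A u) - (X - A z) * (X + A z) := by
      rw [e1, map_sub, map_pow, hA]
      ring
    rw [e]
    refine (Valuation.map_sub _ _ _).trans_lt (max_lt h2 ?_)
    rw [map_mul]
    refine mul_lt_one_of_lt_of_le hz' ((Valuation.map_add _ _ _).trans (max_le hX1.le hAz))
  have h3 : y ^ 2 = A q ^ 3 * (X * (X ^ 2 - A u)) := by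
    rw [he, hxX, hAD]
    ring
  have h4 := Lm.odd_val (V := (Valued.v : Valuation (v.adicCompletion K4) ℤᵐ⁰)) (y := y) (n := -3) (by
    rw [h3, map_mul, map_mul, h1, hX1, map_pow, hAq, mul_one, mul_one, ← exp_nsmul]
    norm_num)
  omega

/-! ### The place above `2` -/

theorem not_lam_of_eight {s : ℤ} (h : 8 ∣ D - (1 + (2 * s : ℤ) * iO)) : ¬ lam ∣ D := by
  intro hl
  have h4 : lam ∣ D - (1 + (2 * s : ℤ) * iO) := by
    refine dvd_trans ?_ h
    have e : (8 : 𝓞 K4) = 2 * 4 := by norm_num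
    rw [e]
    exact lam_dvd_two.mul_right 4
  have h5 := dvd_sub hl h4
  rw [sub_sub_cancel, lam_dvd_iff] at h5
  have e3 : (1 + (2 * s : ℤ) * iO : 𝓞 K4) = ((1 : ℤ) : 𝓞 K4) + ((2 * s : ℤ) : 𝓞 K4) * iO := by
    push_cast
    ring
  rw [e3, cp_coords] at h5
  simp only at h5
  omega

theorem perB_u_lam (hD : exp (-3 : ℤ) ≤ v.valuation K4 (D : K4)) (hl : lam ∣ D) :
    Valued.v ((minChange (WD4 D) v).u : v.adicCompletion K4) = (1 : ℤᵐ⁰) := by
  refine perB_u hD (fun h => ?_) fun h => ?_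
  · refine not_lam_of_eight (s := 1) ?_ hl
    push_cast
    exact h
  · refine not_lam_of_eight (s := -1) ?_ hl
    push_cast
    rwa [neg_mul, ← sub_eq_add_neg]

/-- the element in the completion -/
theorem bc_form (k : ℕ) (m n : ℤ) :
    algebraMap K4 (v.adicCompletion K4)
      ((iO ^ k * lam ^ 2 * (1 + lam ^ 3 * ((m : 𝓞 K4) + (n : 𝓞 K4) * iO)) : 𝓞 K4) : K4) =
    (algebraMap K4 (v.adicCompletion K4) iK) ^ k * (1 + algebraMap K4 (v.adicCompletion K4) iK) ^ 2 *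
      (1 + (1 + algebraMap K4 (v.adicCompletion K4) iK) ^ 3 *
        ((m : v.adicCompletion K4) + (n : v.adicCompletion K4) *
          algebraMap K4 (v.adicCompletion K4) iK)) := by
  have e1 : ((lam : 𝓞 K4) : K4) = 1 + iK := by
    have e2 : ((lam : 𝓞 K4) : K4) = algebraMap (𝓞 K4) K4 (1 + iO) := rfl
    rw [e2, map_add, map_one]
    rfl
  have e3 : ((iO ^ k * lam ^ 2 * (1 + lam ^ 3 * ((m : 𝓞 K4) + (n : 𝓞 K4) * iO)) : 𝓞 K4) : K4) =
      iK ^ k * (1 + iK) ^ 2 * (1 + (1 + iK) ^ 3 * ((m : K4) + (n : K4) * iK)) := by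
    change algebraMap (𝓞 K4) K4 _ = _
    rw [map_mul, map_mul, map_pow, map_pow, map_add, map_mul, map_pow, map_add, map_mul, map_one,
      map_intCast, map_intCast]
    have e4 : algebraMap (𝓞 K4) K4 lam = 1 + iK := e1
    rw [e4]
    rfl
  rw [e3]
  simp only [map_mul, map_add, map_pow, map_one, map_intCast]

section lam

variable {c : 𝓞 K4} (hv : lam ∈ v.asIdeal)
include hv

theorem lam2_val {k : ℕ} (hc : In4 c) (hD : D = iO ^ k * lam ^ 2 * c) :
    v.valuation K4 (D : K4) = exp (-2 : ℤ) := by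
  have e : (D : K4) = ((iO ^ k * c : 𝓞 K4) : K4) * ((lam : 𝓞 K4) : K4) ^ 2 := by
    rw [hD]
    change algebraMap (𝓞 K4) K4 _ = algebraMap (𝓞 K4) K4 _ * algebraMap (𝓞 K4) K4 _ ^ 2
    rw [← map_pow, ← map_mul]
    congr 1
    ring
  rw [e, map_mul, map_pow, lam_val hv, val_one', one_mul, ← exp_nsmul]
  · norm_num
  · intro hm
    rw [ideal_eq' lam_prime hv, Ideal.mem_span_singleton] at hm
    rcases lam_prime.dvd_or_dvd hm with h | h
    · exact lam_prime.not_isUnit (isUnit_of_dvd_unit h (isUnit_iO.pow k))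
    · exact hc.not_lam h

theorem lam2_u {k : ℕ} (hc : In4 c) (hD : D = iO ^ k * lam ^ 2 * c) :
    Valued.v ((minChange (WD4 D) v).u : v.adicCompletion K4) = (1 : ℤᵐ⁰) := by
  refine perB_u_lam ?_ ?_
  · rw [lam2_val hv hc hD, exp_le_exp]
    norm_num
  · rw [hD]
    exact ((dvd_pow_self lam two_ne_zero).mul_left _).mul_right _

/-- the index -/
theorem lam2_tam {k : ℕ} (hc : In4 c) (hD : D = iO ^ k * lam ^ 2 * c) {m n : ℤ}
    (hmn : c = 1 + lam ^ 3 * ((m : 𝓞 K4) + (n : 𝓞 K4) * iO)) {e : ℕ}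
    (he : ∀ (j d : v.adicCompletion K4),
      Lm.Hyp (Valued.v : Valuation (v.adicCompletion K4) ℤᵐ⁰) j → Valued.v d = exp (-2 : ℤ) →
      d = j ^ k * (1 + j) ^ 2 * (1 + (1 + j) ^ 3 * ((m : v.adicCompletion K4) + n * j)) →
      CharZero (v.adicCompletion K4) →
      (nsG (Valued.v : Valuation (v.adicCompletion K4) ℤᵐ⁰) (wq d)).index = e) :
    tam (WD4 D) v = e := by
  have hcz := charZero4 v
  rw [tam_eq_hu v (WD4 D) (wq_int D v) (lam2_u hv hc hD), wq_bc]
  refine he _ _ (hyp_lam hv) ?_ ?_ hcz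
  · rw [hval]
    exact lam2_val hv hc hD
  · rw [hD, hmn]
    exact bc_form k m n

theorem nu_int_le (m : ℤ) : Valued.v (m : v.adicCompletion K4) ≤ (1 : ℤᵐ⁰) := by
  have e : (m : v.adicCompletion K4) = algebraMap K4 (v.adicCompletion K4) ((m : 𝓞 K4) : K4) := by
    have e1 : ((m : 𝓞 K4) : K4) = (m : K4) := map_intCast (algebraMap (𝓞 K4) K4) m
    rw [e1, map_intCast]
  rw [e, hval]
  exact v.valuation_le_one _

theorem int_form_le {j : v.adicCompletion K4}
    (H : Lm.Hyp (Valued.v : Valuation (v.adicCompletion K4) ℤᵐ⁰) j) (m n : ℤ) :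
    Valued.v ((m : v.adicCompletion K4) + n * j) ≤ (1 : ℤᵐ⁰) := by
  refine (Valuation.map_add _ _ _).trans (max_le (nu_int_le hv m) ?_)
  rw [map_mul]
  exact mul_le_one' (nu_int_le hv n) (Lm.vj H).le

theorem odd_odd_val {j : v.adicCompletion K4}
    (H : Lm.Hyp (Valued.v : Valuation (v.adicCompletion K4) ℤᵐ⁰) j) {t : v.adicCompletion K4}
    (ht : Valued.v t ≤ (1 : ℤᵐ⁰)) : Valued.v (1 + j + 2 * t) = exp (-1 : ℤ) := by
  rw [Valuation.map_add_eq_of_lt_left, H.v]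
  rw [H.v, map_mul, Lm.v2 H]
  calc exp (-2 : ℤ) * Valued.v t ≤ exp (-2 : ℤ) * 1 := by gcongr
    _ < exp (-1 : ℤ) := by
      rw [mul_one, exp_lt_exp]
      norm_num

/-- **`k = 1`** -/
theorem tamB_lam_a (hc : In4 c) (hD : D = iO ^ 1 * lam ^ 2 * c) : tam (WD4 D) v = 2 := by
  obtain ⟨m, n, hmn⟩ := in4_form hc
  refine lam2_tam hv hc hD hmn fun j d H hd hde hcz => ?_
  obtain ⟨s, hs⟩ : ∃ s, s = (m : v.adicCompletion K4) + n * j := ⟨_, rfl⟩
  rw [← hs] at hde
  refine TB.index_two_sq (three_or v) hd fun x y he hx => ?_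
  refine TB.no_a H (hs ▸ int_form_le hv H m n) (D := d) ?_ he hx
  rw [hde]
  linear_combination (j ^ 4 * s + 5 * j ^ 3 * s + 9 * j ^ 2 * s + 5 * j * s + j - 4 * s + 2) * H.sq

/-- **`k = 3`** -/
theorem tamB_lam_b (hc : In4 c) (hD : D = iO ^ 3 * lam ^ 2 * c) : tam (WD4 D) v = 4 := by
  obtain ⟨m, n, hmn⟩ := in4_form hc
  refine lam2_tam hv hc hD hmn fun j d H hd hde hcz => ?_
  obtain ⟨s, hs⟩ : ∃ s, s = (m : v.adicCompletion K4) + n * j := ⟨_, rfl⟩
  rw [← hs] at hde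
  refine TB.index_four_of (three_or v) hd ?_
  refine TB.ex_b H (hen4 v) (hs ▸ int_form_le hv H m n) (D := d) ?_
  rw [hde]
  linear_combination (j ^ 6 * s + 5 * j ^ 5 * s + 9 * j ^ 4 * s + 5 * j ^ 3 * s + j ^ 3 -
    4 * j ^ 2 * s + 2 * j ^ 2 - 4 * j * s + 4 * s - 2) * H.sq

/-- **`k = 0`, `n` odd** -/
theorem tamB_lam_c0 (hc : In4 c) (hD : D = iO ^ 0 * lam ^ 2 * c) (hb : bb c = 1) :
    tam (WD4 D) v = 2 := by
  obtain ⟨m, n, hmn⟩ := in4_form hc
  refine lam2_tam hv hc hD hmn fun j d H hd hde hcz => ?_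
  obtain ⟨s, hs⟩ : ∃ s, s = (m : v.adicCompletion K4) + n * j := ⟨_, rfl⟩
  rw [← hs] at hde
  have hDd : d = 2 * j * (1 + 2 * (j - 1) * s) := by
    rw [hde]
    linear_combination (j ^ 3 * s + 5 * j ^ 2 * s + 9 * j * s + s + 1) * H.sq
  rw [hmn, bb_form] at hb
  obtain ⟨t, ht⟩ : ∃ t, n = 2 * t + 1 := by
    rcases Int.even_or_odd' n with ⟨t, h | h⟩
    · rw [h] at hb
      push_cast at hb
      have h2 : (2 : ZMod 2) = 0 := rfl
      rw [h2, zero_mul] at hb
      exact absurd hb zero_ne_one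
    · exact ⟨t, h⟩
  refine TB.index_two_sq (three_or v) hd fun x y he hx => ?_
  refine TB.no_c0 H (hs ▸ int_form_le hv H m n) hDd ?_ he hx
  rcases Int.even_or_odd' m with ⟨r, h | h⟩
  · right
    refine ⟨r + t * j, int_form_le hv H r t, ?_⟩
    rw [hs, h, ht]
    push_cast
    ring
  · left
    have e : s = 1 + j + 2 * ((r : v.adicCompletion K4) + t * j) := by
      rw [hs, h, ht]
      push_cast
      ring
    rw [e]
    exact odd_odd_val hv H (int_form_le hv H r t)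

/-- **`k = 0`, `n` even** -/
theorem tamB_lam_d0 (hc : In4 c) (hD : D = iO ^ 0 * lam ^ 2 * c) (hb : bb c = 0) :
    tam (WD4 D) v = 4 := by
  obtain ⟨m, n, hmn⟩ := in4_form hc
  refine lam2_tam hv hc hD hmn fun j d H hd hde hcz => ?_
  obtain ⟨s, hs⟩ : ∃ s, s = (m : v.adicCompletion K4) + n * j := ⟨_, rfl⟩
  rw [← hs] at hde
  have hDd : d = 2 * j * (1 + 2 * (j - 1) * s) := by
    rw [hde]
    linear_combination (j ^ 3 * s + 5 * j ^ 2 * s + 9 * j * s + s + 1) * H.sq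
  rw [hmn, bb_form] at hb
  obtain ⟨t, ht⟩ : ∃ t, n = 2 * t := by
    rcases Int.even_or_odd' n with ⟨t, h | h⟩
    · exact ⟨t, h⟩
    · rw [h] at hb
      push_cast at hb
      have h2 : (2 : ZMod 2) = 0 := rfl
      rw [h2, zero_mul, zero_add] at hb
      exact absurd hb one_ne_zero
  refine TB.index_four_of (three_or v) hd ?_
  rcases Int.even_or_odd' m with ⟨r, h | h⟩
  · refine TB.ex_z0 H (hen4 v) (int_form_le hv H r t) ?_ hDd
    rw [hs, h, ht]
    push_cast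
    ring
  · refine TB.ex_c0 H (hen4 v) (int_form_le hv H r t) ?_ hDd
    rw [hs, h, ht]
    push_cast
    ring

/-- **`k = 2`, `m` odd** -/
theorem tamB_lam_c2 (hc : In4 c) (hD : D = iO ^ 2 * lam ^ 2 * c) (hb : aa c + bb c = 1) :
    tam (WD4 D) v = 2 := by
  obtain ⟨m, n, hmn⟩ := in4_form hc
  refine lam2_tam hv hc hD hmn fun j d H hd hde hcz => ?_
  obtain ⟨s, hs⟩ : ∃ s, s = (m : v.adicCompletion K4) + n * j := ⟨_, rfl⟩
  rw [← hs] at hde
  have hDd : d = -2 * j * (1 + 2 * (j - 1) * s) := by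
    rw [hde]
    linear_combination (j ^ 5 * s + 5 * j ^ 4 * s + 9 * j ^ 3 * s + 5 * j ^ 2 * s + j ^ 2 -
      4 * j * s + 2 * j) * H.sq
  rw [hmn, aa_form, bb_form] at hb
  obtain ⟨r, hr⟩ : ∃ r, m = 2 * r + 1 := by
    rcases Int.even_or_odd' m with ⟨r, h | h⟩
    · rw [h] at hb
      push_cast at hb
      have h2 : (2 : ZMod 2) = 0 := rfl
      rw [h2, zero_mul, zero_add, ← two_mul, h2, zero_mul] at hb
      exact absurd hb zero_ne_one
    · exact ⟨r, h⟩
  refine TB.index_two_sq (three_or v) hd fun x y he hx => ?_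
  refine TB.no_c2 H (hs ▸ int_form_le hv H m n) hDd ?_ he hx
  rcases Int.even_or_odd' n with ⟨t, h | h⟩
  · right
    refine ⟨r + t * j, int_form_le hv H r t, ?_⟩
    rw [hs, h, hr]
    push_cast
    ring
  · left
    have e : s = 1 + j + 2 * ((r : v.adicCompletion K4) + t * j) := by
      rw [hs, h, hr]
      push_cast
      ring
    rw [e]
    exact odd_odd_val hv H (int_form_le hv H r t)

/-- **`k = 2`, `m` even** -/
theorem tamB_lam_d2 (hc : In4 c) (hD : D = iO ^ 2 * lam ^ 2 * c) (hb : aa c + bb c = 0) :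
    tam (WD4 D) v = 4 := by
  obtain ⟨m, n, hmn⟩ := in4_form hc
  refine lam2_tam hv hc hD hmn fun j d H hd hde hcz => ?_
  obtain ⟨s, hs⟩ : ∃ s, s = (m : v.adicCompletion K4) + n * j := ⟨_, rfl⟩
  rw [← hs] at hde
  have hDd : d = -2 * j * (1 + 2 * (j - 1) * s) := by
    rw [hde]
    linear_combination (j ^ 5 * s + 5 * j ^ 4 * s + 9 * j ^ 3 * s + 5 * j ^ 2 * s + j ^ 2 -
      4 * j * s + 2 * j) * H.sq
  rw [hmn, aa_form, bb_form] at hb
  obtain ⟨r, hr⟩ : ∃ r, m = 2 * r := by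
    rcases Int.even_or_odd' m with ⟨r, h | h⟩
    · exact ⟨r, h⟩
    · rw [h] at hb
      push_cast at hb
      have h2 : (2 : ZMod 2) = 0 := rfl
      rw [h2, zero_mul, zero_add, add_assoc, ← two_mul, h2, zero_mul, add_zero] at hb
      exact absurd hb one_ne_zero
  refine TB.index_four_of (three_or v) hd ?_
  rcases Int.even_or_odd' n with ⟨t, h | h⟩
  · refine TB.ex_z2 H (hen4 v) (int_form_le hv H r t) ?_ hDd
    rw [hs, h, hr]
    push_cast
    ring
  · refine TB.ex_c2 H (hen4 v) (int_form_le hv H r t) ?_ hDd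
    rw [hs, h, hr]
    push_cast
    ring

end lam

end Pool.Agent.Lib.MP_1a91b9_ntQ.C
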