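import Pool.Agent.Lib.MP_1a91b9_ntQ.C.Tam5

/-!
# Quartic twists, all fourth-power-free `D`, file TamG: the index of the points with nonsingular
reduction of `y² = x³ - D x`, `D` not a unit

The index is two if no point has an abscissa of value between the one of `D` and `1`; it is four if `D`
has the value of the square of a uniformizer and there is a point whose abscissa is a uniformizer.
-/

set_option autoImplicit false
set_option linter.unusedSectionVars false
set_option linter.unusedVariables false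

namespace Pool.Agent.Lib.MP_1a91b9_ntQ.C

open WithZero WeierstrassCurve
open Pool.Agent.Lib.MP_1a91b9_ntH.C (nsSet nsG exists_nu)
open scoped Classical

namespace TB

open T5

variable {L : Type*} [Field L] [CharZero L] {ν : Valuation L ℤᵐ⁰} {D : L}

theorem add_dbl {x : L} (h : (wq D).toAffine.Nonsingular x 0) :
    Affine.Point.some x 0 h + Affine.Point.some x 0 h = 0 :=
  Affine.Point.add_of_Y_eq rfl (by rw [wq_negY, neg_zero])

theorem y_zero {y : L} (he : y ^ 2 = (0 : L) ^ 3 - D * 0) : y = 0 := by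
  have h6 : y ^ 2 = 0 := by linear_combination he
  exact pow_eq_zero_iff two_ne_zero |>.1 h6

/-- **the index is two** -/
theorem index_two_of (h3 : ν (3 : L) = 1 ∨ ν (2 : L) = 1) (hD0 : D ≠ 0) (hD : ν D < 1)
    (H : ∀ x y : L, y ^ 2 = x ^ 3 - D * x → x ≠ 0 → ν x < 1 → ν x ≤ ν D) :
    (nsG ν (wq D)).index = 2 := by
  have h2le : ν (2 : L) ≤ 1 := nu_ofNat_le' 2
  have h4le : ν (4 : L) ≤ 1 := nu_ofNat_le' 4
  have n0 : (wq D).toAffine.Nonsingular 0 0 := (wq_nons hD0 _ _).2 (by ring)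
  rw [nsG_E0 h2le h4le h3 hD, AddSubgroup.index_eq_two_iff]
  have v0 : ¬ (1 : ℤᵐ⁰) ≤ ν (0 : L) := by
    rw [map_zero, not_le]
    exact zero_lt_one
  have m0 : Affine.Point.some 0 0 n0 ∉ E0 ν h4le hD := by rwa [mem_E0]
  refine ⟨Affine.Point.some 0 0 n0, fun P => ?_⟩
  rcases P with _ | ⟨x, y, h⟩
  · right
    refine ⟨Or.inl rfl, ?_⟩
    change ¬ (0 + Affine.Point.some 0 0 n0) ∈ _
    rw [zero_add]
    exact m0
  have heq := (wq_eqn _ _).1 h.1
  by_cases hx0 : x = 0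
  · subst hx0
    obtain rfl := y_zero heq
    left
    refine ⟨?_, m0⟩
    rw [add_dbl]
    exact Or.inl rfl
  obtain ⟨y', h', h6⟩ := add_T0 n0 h hx0
  have e : ν (-(D / x)) = ν D / ν x := by rw [Valuation.map_neg, map_div₀]
  have hx1 : 0 < ν x := zero_lt_iff.2 ((Valuation.ne_zero_iff ν).2 hx0)
  by_cases hx : 1 ≤ ν x
  · right
    refine ⟨mem_E0.2 hx, ?_⟩
    rw [h6, mem_E0, e, not_le, div_lt_one₀ hx1]
    exact hD.trans_le hx
  · left
    refine ⟨?_, fun h7 => hx (mem_E0.1 h7)⟩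
    rw [h6, mem_E0, e, one_le_div₀ hx1]
    exact H x y heq hx0 (not_le.1 hx)

/-- the value of the abscissa of a point with nonsingular reduction is a square -/
theorem sqV_of_big (hD : ν D < 1) {x y : L} (he : y ^ 2 = x ^ 3 - D * x) (hx : 1 ≤ ν x) :
    SqV (ν x) := by
  have hx0 : x ≠ 0 := by
    rintro rfl
    rw [map_zero] at hx
    exact absurd hx (not_le.2 zero_lt_one)
  have e1 : ν (x ^ 2 - D) = ν x ^ 2 := by
    rw [Valuation.map_sub_eq_of_lt_left, map_pow]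
    rw [map_pow]
    exact hD.trans_le (one_le_pow₀ hx)
  have h1 : ν y ^ 2 = ν x ^ 2 * ν x := by
    have e2 : y ^ 2 = (x ^ 2 - D) * x := by rw [he]; ring
    rw [← map_pow, e2, map_mul, e1]
  have n1 : ν x ≠ 0 := (Valuation.ne_zero_iff ν).2 hx0
  refine SqV.of_mul (a := ν x ^ 2) (pow_ne_zero 2 n1) ⟨ν x, rfl⟩ ⟨ν y, h1.symm⟩

theorem sqV_div {a b : ℤᵐ⁰} (ha : SqV a) (hb : SqV b) : SqV (a / b) := by
  obtain ⟨x, rfl⟩ := ha
  obtain ⟨y, rfl⟩ := hb
  exact ⟨x / y, by rw [div_pow]⟩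

/-- The points whose abscissa is zero or has a square value. -/
noncomputable def H4 (ν : Valuation L ℤᵐ⁰) (hD0 : D ≠ 0) (hD : SqV (ν D)) :
    AddSubgroup (wq D).toAffine.Point where
  carrier := {P | P = 0 ∨ ∃ (x y : L) (h : (wq D).toAffine.Nonsingular x y),
    P = Affine.Point.some x y h ∧ (x = 0 ∨ SqV (ν x))}
  zero_mem' := Or.inl rfl
  add_mem' := by
    rintro P Q hP hQ
    have n0 : (wq D).toAffine.Nonsingular 0 0 := (wq_nons hD0 _ _).2 (by ring)
    rcases hP with rfl | ⟨x₁, y₁, h₁, rfl, hP⟩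
    · rw [zero_add]; exact hQ
    rcases hQ with rfl | ⟨x₂, y₂, h₂, rfl, hQ⟩
    · rw [add_zero]; exact Or.inr ⟨x₁, y₁, h₁, rfl, hP⟩
    have hz : ∀ {x y : L} {h : (wq D).toAffine.Nonsingular x y}, (x = 0 ∨ SqV (ν x)) →
        Affine.Point.some x y h + Affine.Point.some 0 0 n0 = 0 ∨
        ∃ (x' y' : L) (h' : (wq D).toAffine.Nonsingular x' y'),
          Affine.Point.some x y h + Affine.Point.some 0 0 n0 = Affine.Point.some x' y' h' ∧
            (x' = 0 ∨ SqV (ν x')) := by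
      intro x y h hx
      have heq := (wq_eqn _ _).1 h.1
      by_cases hx0 : x = 0
      · subst hx0
        obtain rfl := y_zero heq
        left
        exact add_dbl h
      · obtain ⟨y', h', h6⟩ := add_T0 n0 h hx0
        right
        refine ⟨_, y', h', h6, Or.inr ?_⟩
        rw [Valuation.map_neg, map_div₀]
        exact sqV_div hD (hx.resolve_left hx0)
    by_cases hx₂ : x₂ = 0
    · subst hx₂
      obtain rfl := y_zero ((wq_eqn _ _).1 h₂.1)
      exact hz hP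
    by_cases hx₁ : x₁ = 0
    · subst hx₁
      obtain rfl := y_zero ((wq_eqn _ _).1 h₁.1)
      rw [add_comm]
      exact hz hQ
    by_cases hxy : x₁ = x₂ ∧ y₁ = (wq D).toAffine.negY x₂ y₂
    · left
      exact Affine.Point.add_of_Y_eq hxy.1 hxy.2
    right
    obtain ⟨l, n, x₃, y₃, hx3, -, -, -, -, hl⟩ := wq_line h₁.1 h₂.1 hxy
    have hp : x₁ * x₂ * x₃ = n ^ 2 := by
      have := hl 0
      linear_combination -this
    refine ⟨_, _, _, Affine.Point.add_some hxy, ?_⟩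
    rw [hx3]
    by_cases hx₃ : x₃ = 0
    · exact Or.inl hx₃
    right
    refine SqV.of_mul (a := ν (x₁ * x₂)) ?_ ?_ ⟨ν n, ?_⟩
    · rw [Valuation.ne_zero_iff]
      exact mul_ne_zero hx₁ hx₂
    · rw [map_mul]
      exact (hP.resolve_left hx₁).mul (hQ.resolve_left hx₂)
    · rw [← map_mul, hp, map_pow]
  neg_mem' := by
    rintro P (rfl | ⟨x, y, h, rfl, hP⟩)
    · left; exact neg_zero
    · right
      exact ⟨_, _, _, Affine.Point.neg_some h, hP⟩

theorem mem_H4 {hD0 : D ≠ 0} {hD : SqV (ν D)} {x y : L} {h : (wq D).toAffine.Nonsingular x y} :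
    Affine.Point.some x y h ∈ H4 ν hD0 hD ↔ x = 0 ∨ SqV (ν x) := by
  constructor
  · rintro (h0 | ⟨x', y', h', hxy, hc⟩)
    · exact absurd h0 (Affine.Point.some_ne_zero _)
    · obtain ⟨rfl, rfl⟩ := (Affine.Point.some.injEq ..).mp hxy
      exact hc
  · intro hx
    exact Or.inr ⟨x, y, h, rfl, hx⟩

/-- **the index is four** -/
theorem index_four_of (h3 : ν (3 : L) = 1 ∨ ν (2 : L) = 1) (hD : ν D = exp (-2))
    (hex : ∃ x y : L, y ^ 2 = x ^ 3 - D * x ∧ ν x = exp (-1)) : (nsG ν (wq D)).index = 4 := by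
  have hn2 : exp (-2 : ℤ) < (1 : ℤᵐ⁰) := by
    rw [← exp_zero, exp_lt_exp]
    norm_num
  have h2le : ν (2 : L) ≤ 1 := nu_ofNat_le' 2
  have h4le : ν (4 : L) ≤ 1 := nu_ofNat_le' 4
  have hD0 : D ≠ 0 := by
    rintro rfl
    rw [map_zero] at hD
    exact exp_ne_zero hD.symm
  have hD1 : ν D < 1 := hD ▸ hn2
  have hDs : SqV (ν D) := by
    rw [hD]
    refine ⟨exp (-1), ?_⟩
    rw [← exp_nsmul]
    norm_num
  have n0 : (wq D).toAffine.Nonsingular 0 0 := (wq_nons hD0 _ _).2 (by ring)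
  obtain ⟨x₁, y₁, he₁, hx₁⟩ := hex
  have n1 : (wq D).toAffine.Nonsingular x₁ y₁ := (wq_nons hD0 _ _).2 he₁
  have hx₁0 : x₁ ≠ 0 := by
    rintro rfl
    rw [map_zero] at hx₁
    exact exp_ne_zero hx₁.symm
  have hnsq : ¬ SqV (exp (-1) : ℤᵐ⁰) := fun h => by
    have := sqV_exp h
    omega
  have hodd : ∀ {a b : ℤᵐ⁰}, a ≠ 0 → ¬ SqV a → ¬ SqV b → b ≠ 0 → SqV (a * b) := by
    intro a b ha hna hnb hb
    obtain ⟨m, rfl⟩ : ∃ m : ℤ, a = exp m := ⟨WithZero.log a, (WithZero.exp_log ha).symm⟩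
    obtain ⟨n, rfl⟩ : ∃ n : ℤ, b = exp n := ⟨WithZero.log b, (WithZero.exp_log hb).symm⟩
    have ev : ∀ {m : ℤ}, Even m → SqV (exp m) := by
      rintro m ⟨t, rfl⟩
      refine ⟨exp t, ?_⟩
      rw [pow_two, ← exp_add]
    have h1 : ¬ Even m := fun h => hna (ev h)
    have h2 : ¬ Even n := fun h => hnb (ev h)
    rw [← exp_add]
    exact ev (by
      rw [Int.not_even_iff_odd] at h1 h2
      exact h1.add_odd h2)
  rw [nsG_E0 h2le h4le h3 hD1]
  have hle : E0 ν h4le hD1 ≤ H4 ν hD0 hDs := by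
    rintro P (rfl | ⟨x, y, h, rfl, hx⟩)
    · exact Or.inl rfl
    · exact mem_H4.2 (Or.inr (sqV_of_big hD1 ((wq_eqn _ _).1 h.1) hx))
  have v0 : ¬ (1 : ℤᵐ⁰) ≤ ν (0 : L) := by
    rw [map_zero, not_le]
    exact zero_lt_one
  have m0 : Affine.Point.some 0 0 n0 ∉ E0 ν h4le hD1 := by rwa [mem_E0]
  have k0 : Affine.Point.some 0 0 n0 ∈ H4 ν hD0 hDs := mem_H4.2 (Or.inl rfl)
  have k1 : Affine.Point.some x₁ y₁ n1 ∉ H4 ν hD0 hDs := by
    rw [mem_H4, not_or, hx₁]
    exact ⟨hx₁0, hnsq⟩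
  -- the index of `H4`
  have i1 : (H4 ν hD0 hDs).index = 2 := by
    rw [AddSubgroup.index_eq_two_iff]
    refine ⟨Affine.Point.some x₁ y₁ n1, fun P => ?_⟩
    by_cases hP : P ∈ H4 ν hD0 hDs
    · right
      refine ⟨hP, fun h => k1 ?_⟩
      have := (H4 ν hD0 hDs).sub_mem h hP
      rwa [add_sub_cancel_left] at this
    · left
      refine ⟨?_, hP⟩
      rcases P with _ | ⟨x, y, h⟩
      · exact absurd (Or.inl rfl) hP
      rw [mem_H4, not_or] at hP
      by_cases hxy : x = x₁ ∧ y = (wq D).toAffine.negY x₁ y₁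
      · rw [Affine.Point.add_of_Y_eq hxy.1 hxy.2]
        exact Or.inl rfl
      obtain ⟨l, n, x₃, y₃, hx3, -, -, -, -, hl⟩ := wq_line h.1 n1.1 hxy
      have hp : x * x₁ * x₃ = n ^ 2 := by
        have := hl 0
        linear_combination -this
      rw [Affine.Point.add_some hxy, mem_H4, hx3]
      by_cases hx₃ : x₃ = 0
      · exact Or.inl hx₃
      right
      refine SqV.of_mul (a := ν (x * x₁)) ?_ ?_ ⟨ν n, ?_⟩
      · rw [Valuation.ne_zero_iff]
        exact mul_ne_zero hP.1 hx₁0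
      · rw [map_mul, hx₁]
        exact hodd ((Valuation.ne_zero_iff ν).2 hP.1) hP.2 hnsq exp_ne_zero
      · rw [← map_mul, hp, map_pow]
  -- the relative index
  have i2 : (E0 ν h4le hD1).relIndex (H4 ν hD0 hDs) = 2 := by
    rw [AddSubgroup.relIndex, AddSubgroup.index_eq_two_iff]
    refine ⟨⟨_, k0⟩, fun ⟨P, hP⟩ => ?_⟩
    rw [AddSubgroup.mem_addSubgroupOf, AddSubgroup.mem_addSubgroupOf]
    change Xor (P + Affine.Point.some 0 0 n0 ∈ E0 ν h4le hD1) (P ∈ E0 ν h4le hD1)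
    rcases P with _ | ⟨x, y, h⟩
    · right
      refine ⟨Or.inl rfl, ?_⟩
      change ¬ (0 + Affine.Point.some 0 0 n0) ∈ _
      rw [zero_add]
      exact m0
    have heq := (wq_eqn _ _).1 h.1
    by_cases hx0 : x = 0
    · subst hx0
      obtain rfl := y_zero heq
      left
      refine ⟨?_, m0⟩
      rw [add_dbl]
      exact Or.inl rfl
    obtain ⟨y', h', h6⟩ := add_T0 n0 h hx0
    have e : ν (-(D / x)) = ν D / ν x := by rw [Valuation.map_neg, map_div₀]
    have hx1 : 0 < ν x := zero_lt_iff.2 ((Valuation.ne_zero_iff ν).2 hx0)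
    by_cases hx : 1 ≤ ν x
    · right
      refine ⟨mem_E0.2 hx, ?_⟩
      rw [h6, mem_E0, e, not_le, div_lt_one₀ hx1]
      exact hD1.trans_le hx
    · left
      refine ⟨?_, fun h7 => hx (mem_E0.1 h7)⟩
      rw [h6, mem_E0, e, one_le_div₀ hx1, hD]
      have hs := (mem_H4.1 hP).resolve_left hx0
      obtain ⟨n, hn⟩ := exists_nu ν hx0
      rw [not_le, hn, ← exp_zero, exp_lt_exp] at hx
      rw [hn] at hs ⊢
      rw [exp_le_exp]
      have := sqV_exp hs
      omega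
  have key := AddSubgroup.relIndex_mul_index hle
  rw [i1, i2] at key
  exact key.symm

/-- **`D` of value `- 3`**: the index is two -/
theorem index_three (h3 : ν (3 : L) = 1 ∨ ν (2 : L) = 1) (hD : ν D = exp (-3)) :
    (nsG ν (wq D)).index = 2 := by
  have hD0 : D ≠ 0 := by
    rintro rfl
    rw [map_zero] at hD
    exact exp_ne_zero hD.symm
  refine index_two_of h3 hD0 ?_ fun x y he hx0 hx1 => ?_
  · rw [hD, ← exp_zero, exp_lt_exp]
    norm_num
  obtain ⟨n, hn⟩ := exists_nu ν hx0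
  rw [hn, ← exp_zero, exp_lt_exp] at hx1
  rw [hD, hn, exp_le_exp]
  by_contra hc
  have hn2 : n = -1 ∨ n = -2 := by omega
  have e2 : y ^ 2 = (x ^ 2 - D) * x := by rw [he]; ring
  have h2 : ν (x ^ 2) = exp (2 * n) := by
    rw [map_pow, hn, ← exp_nsmul]
    rfl
  have hsq : ∀ m : ℤ, ν (x ^ 2 - D) = exp m → (2 : ℤ) ∣ m + n := by
    intro m hm
    have h5 := congrArg ν e2
    rw [map_pow, map_mul, hm, hn, ← exp_add] at h5
    exact sqV_exp ⟨ν y, h5.symm⟩
  rcases hn2 with rfl | rfl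
  · have := hsq (-2) (by
      rw [Valuation.map_sub_eq_of_lt_left, h2]
      · norm_num
      · rw [h2, hD, exp_lt_exp]
        norm_num)
    omega
  · have := hsq (-3) (by
      rw [Valuation.map_sub_eq_of_lt_right, hD]
      rw [h2, hD, exp_lt_exp]
      norm_num)
    omega

/-- **`D` of value `- 2`**: the abscissas which matter are the uniformizers -/
theorem index_two_sq (h3 : ν (3 : L) = 1 ∨ ν (2 : L) = 1) (hD : ν D = exp (-2))
    (hno : ∀ x y : L, y ^ 2 = x ^ 3 - D * x → ν x = exp (-1) → False) :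
    (nsG ν (wq D)).index = 2 := by
  have hD0 : D ≠ 0 := by
    rintro rfl
    rw [map_zero] at hD
    exact exp_ne_zero hD.symm
  refine index_two_of h3 hD0 ?_ fun x y he hx0 hx1 => ?_
  · rw [hD, ← exp_zero, exp_lt_exp]
    norm_num
  obtain ⟨n, hn⟩ := exists_nu ν hx0
  rw [hn, ← exp_zero, exp_lt_exp] at hx1
  rw [hD, hn, exp_le_exp]
  by_contra hc
  have hn2 : n = -1 := by omega
  exact hno x y he (by rw [hn, hn2])

end TB

end Pool.Agent.Lib.MP_1a91b9_ntQ.C
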