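import Pool.Agent.Lib.MP_1a91b9_ntQ.B.SelB
import Pool.Agent.Lib.MP_1a91b9_ntQ.C.Tors4K

/-!
# MP_1a91b9_nt (quartic twists), part B: the torsion for the fourth-power-free `D`

`y² = x³ - D x` over `ℚ(i)`: if the Selmer elements are `1` and `D`, the points are `O` and `(0, 0)`,
unless `D = 1 ± 2 i`.
-/

set_option autoImplicit false
set_option linter.unusedSectionVars false

namespace Pool.Agent.Lib.MP_1a91b9_ntQ.C

open WithZero WeierstrassCurve NumberField IsDedekindDomain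
open Pool.Agent.Lib.MP_1a91b9_ntH.C (exists_nu)
open Pool.Agent.Lib.MP_1a91b9_ntT3.S9 (ShaP)
open scoped Classical

noncomputable section

section

variable {F : Type*} [Field F] [CharZero F] {W : Affine F} {z d : F}
variable (h : IsQ W z d) {ν : Valuation F ℤᵐ⁰} (h2 : ν 2 = exp (-2))
variable (hres : ∀ x : F, ν x = 1 → ν (x - 1) < 1)

include h h2 hres in
/-- **the points**: only `O` and `(0, 0)` -/
theorem points4B [Finite W.Point] {m : ℕ} (hm : Nat.card W.Point = 2 * m) (h3 : Odd m)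
    (hd : ν d = 1 ∨ ∃ n : ℤ, ν d = exp n ∧ ¬ (4 : ℤ) ∣ n)
    (h5 : ∀ s : F, d ≠ s ^ 4 * (1 + 2 * z) ∧ d ≠ s ^ 4 * (1 - 2 * z)) (P : W.Point) :
    P = 0 ∨ P = tq h := by
  have hinj := inj_of_card4 h hm h3
  have hR : ∀ P ∈ (mu h).range, P = (0 : W.Point) := by
    intro P hP
    obtain _ | ⟨x, y, hn⟩ := P
    · rfl
    · exfalso
      rcases hd with hd | ⟨n, hd, hn4⟩
      · obtain ⟨s, hs⟩ := rq_five h hinj h2 hres hd hP
        rcases hs with hs | hs
        · exact (h5 s).1 hs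
        · exact (h5 s).2 hs
      · have h6 := rq_val h hinj h2 hP
        have hx := rq_ne h hinj hP
        obtain ⟨s, hs⟩ := rq_sq h hinj hP
        have hs0 : s ≠ 0 := by
          rintro rfl
          exact hx (by rw [hs]; ring)
        obtain ⟨r, hr⟩ := exists_nu ν hs0
        rw [hs, ← map_pow, ← pow_mul, map_pow, hd, hr, ← exp_nsmul, exp_inj, nsmul_eq_mul] at h6
        exact hn4 ⟨r, by rw [← h6]; push_cast; ring⟩
  exact mu_ker_all h P (hR _ ⟨P, rfl⟩)

include h h2 hres in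
theorem card4B [Finite W.Point] {m : ℕ} (hm : Nat.card W.Point = 2 * m) (h3 : Odd m)
    (hd : ν d = 1 ∨ ∃ n : ℤ, ν d = exp n ∧ ¬ (4 : ℤ) ∣ n)
    (h5 : ∀ s : F, d ≠ s ^ 4 * (1 + 2 * z) ∧ d ≠ s ^ 4 * (1 - 2 * z)) :
    Nat.card W.Point = 2 ∧ ∀ x y : F, y ^ 2 = x ^ 3 - d * x → x = 0 := by
  have h6 := points4B h h2 hres hm h3 hd h5
  constructor
  · have hs : (Set.univ : Set W.Point) = {0, tq h} := by
      ext P
      simp only [Set.mem_univ, Set.mem_insert_iff, Set.mem_singleton_iff, true_iff]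
      exact h6 P
    rw [← Set.ncard_univ, hs, Set.ncard_pair (tq_ne h).symm]
  · intro x y hxy
    rcases h6 (.some x y ((h.nons x y).2 hxy)) with h7 | h7
    · exact absurd h7 (Affine.Point.some_ne_zero _)
    · rw [tq, Affine.Point.some.injEq] at h7
      exact h7.1

end

section

variable {N : Type*} [Field N] [NumberField N]

/-- the points and the Tate-Shafarevich group from the Selmer elements -/
theorem main4B {d z : N} (hd : d ≠ 0) (hz : z ^ 2 = -1) (hS : SelCl4 d) {W : WeierstrassCurve N}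
    (hW : W = cq d) {v : HeightOneSpectrum (𝓞 N)} (h2 : v.valuation N 2 = exp (-2))
    (hres : ∀ x : N, v.valuation N x = 1 → v.valuation N (x - 1) < 1)
    (hv : v.valuation N d = 1 ∨ ∃ n : ℤ, v.valuation N d = exp n ∧ ¬ (4 : ℤ) ∣ n)
    (h5 : ∀ s : N, d ≠ s ^ 4 * (1 + 2 * z) ∧ d ≠ s ^ 4 * (1 - 2 * z)) :
    Finite W.toAffine.Point ∧ Nat.card W.toAffine.Point = 2 ∧ Nat.card (ShaP 2 W) = 1 ∧
      ∀ x y : N, y ^ 2 = x ^ 3 - d * x → x = 0 ∧ y = 0 := by
  obtain ⟨h1, ⟨m, hm, hm'⟩, h3⟩ := of_selCl4 hd hz hS hW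
  have h : IsQ W.toAffine z d := ⟨hW, hz, hd⟩
  obtain ⟨h6, h7⟩ := card4B h h2 hres hm' hm hv h5
  refine ⟨h1, h6, h3, fun x y hxy => ?_⟩
  have hx := h7 x y hxy
  refine ⟨hx, (pow_eq_zero_iff two_ne_zero).1 (?_ : y ^ 2 = 0)⟩
  rw [hxy, hx]
  ring

/-- the same for the twists by `D` in the ring of integers, `D` not divisible by the fourth power of
`l`; the exceptions `1 + 2 z`, `1 - 2 z` -/
theorem main4B_int {D : 𝓞 N} (hD : D ≠ 0) {z : N} (hz : z ^ 2 = -1) (hS : SelCl4 (D : N))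
    {W : WeierstrassCurve N} (hW : W = cq (D : N)) {l : 𝓞 N} (hl : Prime l) {n : ℤ}
    (hlz : (l : N) = z ^ n * (1 + z)) (hres : ∀ y : 𝓞 N, l ∣ y ∨ l ∣ y - 1) (hl4 : ¬ l ^ 4 ∣ D)
    (h5 : ∀ s : N, (D : N) ≠ s ^ 4 * (1 + 2 * z) ∧ (D : N) ≠ s ^ 4 * (1 - 2 * z)) :
    Finite W.toAffine.Point ∧ Nat.card W.toAffine.Point = 2 ∧ Nat.card (ShaP 2 W) = 1 ∧
      ∀ x y : N, y ^ 2 = x ^ 3 - (D : N) * x → x = 0 ∧ y = 0 := by
  have hp : (Ideal.span {l}).IsPrime := (Ideal.span_singleton_prime hl.ne_zero).2 hl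
  let v : HeightOneSpectrum (𝓞 N) := ⟨Ideal.span {l}, hp, by
    rw [Ne, Ideal.span_singleton_eq_bot]
    exact hl.ne_zero⟩
  have hv : l ∈ v.asIdeal := Ideal.mem_span_singleton_self l
  obtain ⟨h2, h3⟩ := place4 hz hl hlz hres hv
  obtain ⟨h4, h6⟩ := val_gen hl hv
  have hD' : (D : N) ≠ 0 := by
    intro h0
    exact hD ((map_eq_zero_iff (algebraMap (𝓞 N) N) (FaithfulSMul.algebraMap_injective _ _)).1 h0)
  refine main4B hD' hz hS hW h2 h3 ?_ h5
  obtain ⟨r, c, hlc, hc⟩ := WfDvdMonoid.max_power_factor hD hl.irreducible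
  have h7 : v.valuation N (c : N) = 1 := v.valuation_eq_one_iff_notMem.2 fun h8 =>
    hlc (by rwa [h4, Ideal.mem_span_singleton] at h8)
  have hr : r < 4 := by
    by_contra hr
    exact hl4 ((pow_dvd_pow l (not_lt.1 hr)).trans ⟨c, hc⟩)
  have h8 : v.valuation N (D : N) = exp (-(r : ℤ)) := by
    have e : (D : N) = (l : N) ^ r * (c : N) := by
      rw [hc]
      push_cast
      rfl
    rw [e, map_mul, map_pow, h6, h7, mul_one, ← exp_nsmul, nsmul_eq_mul]
    congr 1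
    ring
  rcases Nat.eq_zero_or_pos r with h0 | h0
  · left
    rw [h8, h0]
    rfl
  · right
    exact ⟨_, h8, by omega⟩

end

/-- a fourth-power-free element which is a prime up to a fourth power of the field is this prime -/
theorem eq_of_fourB {D p : 𝓞 K4} (hD : FFr D) (hp : Prime p) {s : K4}
    (h : (D : K4) = s ^ 4 * (p : K4)) : D = p := by
  have hinj : Function.Injective (algebraMap (𝓞 K4) K4) := FaithfulSMul.algebraMap_injective _ _
  have h1 : (s * (p : K4)) ^ 4 = ((D * p ^ 3 : 𝓞 K4) : K4) := by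
    rw [cmul, cpow, h]
    ring
  have h2 : IsIntegral ℤ (s * (p : K4)) := by
    refine IsIntegral.of_pow (n := 4) (by norm_num) ?_
    rw [h1]
    exact RingOfIntegers.isIntegral_coe _
  obtain ⟨T, hT⟩ : ∃ T : 𝓞 K4, (T : K4) = s * (p : K4) := ⟨⟨_, h2⟩, rfl⟩
  have h3 : T ^ 4 = D * p ^ 3 := by
    apply hinj
    exact (cpow T 4).trans ((congrArg (· ^ 4) hT).trans h1)
  have h4 : p ∣ T := by
    refine hp.dvd_of_dvd_pow (n := 4) ?_
    rw [h3]
    exact ⟨D * p ^ 2, by ring⟩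
  obtain ⟨c, rfl⟩ := h4
  have h5 : D = p * c ^ 4 := by
    refine mul_right_cancel₀ (pow_ne_zero 3 hp.ne_zero) ?_
    rw [← h3]
    ring
  have h6 : IsUnit c := hD c ⟨p, by rw [h5]; ring⟩
  obtain ⟨k, hk⟩ := exists_pow_unit h6
  have h7 : c ^ 4 = 1 := by
    rw [hk, ← pow_mul, mul_comm, pow_mul, iO_four, one_pow]
  rw [h5, h7, mul_one]

/-- **part C, quartic twists over `ℚ(i)`** -/
theorem main4B_K {D : 𝓞 K4} (hD0 : D ≠ 0) (hD : FFr D) (hS : SelCl4 (D : K4))
    (h1 : D ≠ 1 + 2 * iO) (h2 : D ≠ 1 - 2 * iO) {W : WeierstrassCurve K4} (hW : W = cq (D : K4)) :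
    Finite W.toAffine.Point ∧ Nat.card W.toAffine.Point = 2 ∧ Nat.card (ShaP 2 W) = 1 ∧
      ∀ x y : K4, y ^ 2 = x ^ 3 - (D : K4) * x → x = 0 ∧ y = 0 := by
  have hlam : (lam : K4) = iK ^ (0 : ℤ) * (1 + iK) := by
    rw [zpow_zero, one_mul, c_lam]
  refine main4B_int hD0 iK_sq hS hW prime_lam hlam tors_res_lam (fun h => ?_) (fun s => ⟨?_, ?_⟩)
  · exact prime_lam.not_isUnit (hD lam h)
  · intro h
    refine h1 (eq_of_fourB hD prime_five (s := s) ?_)
    rw [h, c_five]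
  · intro h
    refine h2 (eq_of_fourB hD prime_five' (s := s) ?_)
    rw [h, c_five']

/-! ### `D = dB k j S T B` is fourth-power-free -/

open Finset

variable {k : ZMod 4} {j : Fin 4} {S T B : Finset Pg}

theorem DDq_erase {P : Finset Pg} {q : Pg} (h : q ∈ P) : DDq P = q.1 * DDq (P.erase q) := by
  unfold DDq
  exact (mul_prod_erase P _ h).symm

/-- the power of a prime `q` in `D` -/
theorem dC_erase3 (hd : Dj S T B) {q : Pg} (hq : q ∈ S ∪ T ∪ B) : ∃ e : ℕ, e < 4 ∧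
    dC k j S T B = q.1 ^ e * dC k j (S.erase q) (T.erase q) (B.erase q) := by
  rcases mem_union.1 hq with h | hB
  · rcases mem_union.1 h with hS | hT
    · refine ⟨1, by norm_num, ?_⟩
      unfold dC
      rw [DDq_erase hS, erase_eq_of_notMem (disjoint_left.1 hd.st hS),
        erase_eq_of_notMem (disjoint_left.1 hd.sb hS)]
      ring
    · refine ⟨3, by norm_num, ?_⟩
      unfold dC
      rw [DDq_erase hT, erase_eq_of_notMem (disjoint_right.1 hd.st hT),
        erase_eq_of_notMem (disjoint_left.1 hd.tb hT)]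
      ring
  · refine ⟨2, by norm_num, ?_⟩
    unfold dC
    rw [DDq_erase hB, erase_eq_of_notMem (disjoint_right.1 hd.sb hB),
      erase_eq_of_notMem (disjoint_right.1 hd.tb hB)]
    ring

/-- `D` is fourth-power-free -/
theorem FFr_dC (hd : Dj S T B) : FFr (dC k j S T B) := by
  intro z hz
  by_contra hu
  have hz0 : z ≠ 0 := by
    rintro rfl
    rw [zero_pow (by norm_num), zero_dvd_iff] at hz
    exact dC_ne k j S T B hz
  obtain ⟨p, hp, hpz⟩ := WfDvdMonoid.exists_irreducible_factor hu hz0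
  have hp' : Prime p := hp.prime
  have h4 : p ^ 4 ∣ dC k j S T B := (pow_dvd_pow_of_dvd hpz 4).trans hz
  by_cases hl : p ∣ lam
  · have h5 : lam ^ 4 ∣ dC k j S T B :=
      (pow_dvd_pow_of_dvd (hp'.associated_of_dvd prime_lam hl).symm.dvd 4).trans h4
    have h6 : (lam : 𝓞 K4) ^ (j.val + 1) ∣ dC k j S T B :=
      (pow_dvd_pow lam (by omega)).trans h5
    unfold dC at h6
    have e : iO ^ k.val * lam ^ j.val * (DDq S * DDq T ^ 3 * DDq B ^ 2) =
        lam ^ j.val * (iO ^ k.val * (DDq S * DDq T ^ 3 * DDq B ^ 2)) := by ring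
    rw [e, pow_succ] at h6
    have h7 := (mul_dvd_mul_iff_left (pow_ne_zero _ lam_ne_zero)).1 h6
    rcases prime_lam.dvd_or_dvd h7 with h8 | h8
    · exact not_dvd_of_unit prime_lam (isUnit_iO.pow _) h8
    · exact (cB_in4 S T B).not_lam h8
  · obtain ⟨q, hq, hpq⟩ : ∃ q ∈ S ∪ T ∪ B, p ∣ q.1 := by
      by_contra hc
      push Not at hc
      exact not_dvd_dC hp' hl hc ((dvd_pow_self p (by norm_num)).trans h4)
    have h5 : q.1 ^ 4 ∣ dC k j S T B :=
      (pow_dvd_pow_of_dvd (hp'.associated_of_dvd q.prime hpq).symm.dvd 4).trans h4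
    obtain ⟨e, he, h6⟩ := dC_erase3 (k := k) (j := j) hd hq
    have h7 : q.1 ^ (e + 1) ∣ dC k j S T B := (pow_dvd_pow _ (by omega)).trans h5
    rw [h6, pow_succ] at h7
    have h8 := (mul_dvd_mul_iff_left (pow_ne_zero _ q.ne_zero)).1 h7
    refine not_dvd_dC q.prime (not_dvd_lam4 q) (fun r hr => ?_) h8
    refine Pg.not_dvd fun hrq => ?_
    subst hrq
    simp only [mem_union, mem_erase] at hr
    tauto

end

end Pool.Agent.Lib.MP_1a91b9_ntQ.C
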