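import Pool.Agent.Lib.MP_1a91b9_ntQ.A.Tra4
import Pool.Agent.Lib.MP_1a91b9_ntQ.A.Rat4P

/-!
# Quartic twists, part B, file TrY: the distribution relations of `y`, `x ^ 2` and `x y`

`∑ y (z + u) = q ^ 3 y (q z)`, `∑ x (z + u) ^ 2 = q ^ 4 x (q z) ^ 2 + (N q - q ^ 4) / 3` and
`∑ (x y) (z + u) = q ^ 5 (x y) (q z)` over the points `u` of `E[q]`: derivatives of the relation of `x`.
-/

set_option autoImplicit false
set_option linter.unusedSectionVars false

namespace Pool.Agent.Lib.MP_1a91b9_ntQ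

open NumberField Pool.Agent.Lib.MP_1a91b9_nuT Pool.Agent.Lib.MP_1a91b9_nuT.S3
  Pool.Agent.Lib.MP_1a91b9_nuT.Ell Filter Topology

noncomputable section

section

variable [CD] [hq : Q4]

theorem hasDerivAt_Xyh {z : ℂ} (hz : 2 * z ∉ PP.lattice) : HasDerivAt X (2 * Om * yh z) z := by
  have h := Pool.Agent.Lib.MP_1a91b9_nuT.Rq.hasDerivAt_X (notMem_of_two_mul hz)
  refine h.congr_deriv ?_
  rw [yh]
  ring

theorem hasDerivAt_yh {z : ℂ} (hz : 2 * z ∉ PP.lattice) :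
    HasDerivAt yh (Om * (3 * X z ^ 2 - 1)) z := by
  have h := ((hasDerivAt_Q hz).div_const (Om ^ 3)).div_const 2
  have hA : cA ℂ = -1 := by
    change ((CD.A : ℤ) : ℂ) = -1
    rw [hq.A]
    norm_num
  refine h.congr_deriv ?_
  have hO := Om_ne_zero
  rw [hA, X]
  field_simp
  ring

variable {ι : Type*} [Fintype ι] {α : ℂ} {τ : ι → ℂ}

/-- **the derivative of a distribution relation** -/
theorem sum_deriv (hα0 : α ≠ 0) (h1 : ∀ i, α * τ i ∈ PP.lattice) {f f' : ℂ → ℂ}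
    (hf : ∀ z, 2 * z ∉ PP.lattice → HasDerivAt f (f' z) z) {A c : ℂ}
    (h : ∀ z, 2 * (α * z) ∉ PP.lattice → ∑ i, f (z + τ i) = A * f (α * z) + c) {z : ℂ}
    (hα : α ∈ PP.lattice) (hz : 2 * (α * z) ∉ PP.lattice) :
    ∑ i, f' (z + τ i) = A * α * f' (α * z) := by
  have n1 : ∀ i, 2 * (z + τ i) ∉ PP.lattice := by
    intro i h2
    apply hz
    have h3 := S3.mul_mem hα h2
    have e : 2 * (α * z) = α * (2 * (z + τ i)) - 2 * (α * τ i) := by ring
    rw [e]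
    exact sub_mem h3 (two_mem (h1 i))
  have d1 : HasDerivAt (fun z => ∑ i, f (z + τ i)) (∑ i, f' (z + τ i)) z := by
    refine HasDerivAt.fun_sum fun i _ => ?_
    exact (hf _ (n1 i)).comp_add_const z (τ i)
  have d2 : HasDerivAt (fun z => A * f (α * z) + c) (A * α * f' (α * z)) z := by
    have b1 : HasDerivAt (fun w : ℂ => α * w) α z := by
      simpa using (hasDerivAt_id z).const_mul α
    have b2 := (HasDerivAt.comp z (hf _ hz) b1).const_mul A
    refine (b2.add_const c).congr_deriv ?_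
    ring
  refine d1.unique (d2.congr_of_eventuallyEq ?_)
  have h3 : ∀ᶠ w in 𝓝[≠] z, 2 * (α * w) ∉ PP.lattice := by
    refine (S3.eventually_mul_notMem (mul_ne_zero two_ne_zero hα0) z).mono fun w hw h => hw ?_
    rw [mul_assoc]
    exact h
  rw [eventually_nhdsWithin_iff] at h3
  filter_upwards [h3] with w hw
  by_cases hwz : w = z
  · rw [hwz]
    exact h z hz
  · exact h w (hw hwz)

theorem sum_yh4 (hα : α ∈ PP.lattice) (hα0 : α ≠ 0) (h1 : ∀ i, α * τ i ∈ PP.lattice)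
    (h2 : ∀ x, α * x ∈ PP.lattice → ∃! i, x - τ i ∈ PP.lattice) {z : ℂ}
    (hz : 2 * (α * z) ∉ PP.lattice) : ∑ i, yh (z + τ i) = α ^ 3 * yh (α * z) := by
  have h := sum_deriv hα0 h1 (f := X) (f' := fun z => 2 * Om * yh z) (fun z hz => hasDerivAt_Xyh hz)
    (A := α ^ 2) (c := 0) (fun z hz => by
      rw [add_zero]
      exact sum_X4 hα hα0 h1 h2 (notMem_of_two_mul hz)) hα hz
  rw [← Finset.mul_sum] at h
  have hO : (2 * Om : ℂ) ≠ 0 := mul_ne_zero two_ne_zero Om_ne_zero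
  apply mul_left_cancel₀ hO
  rw [h]
  ring

theorem sum_Xsq4 (hα : α ∈ PP.lattice) (hα0 : α ≠ 0) (h1 : ∀ i, α * τ i ∈ PP.lattice)
    (h2 : ∀ x, α * x ∈ PP.lattice → ∃! i, x - τ i ∈ PP.lattice) {z : ℂ}
    (hz : 2 * (α * z) ∉ PP.lattice) :
    ∑ i, X (z + τ i) ^ 2 = α ^ 4 * X (α * z) ^ 2 + ((Fintype.card ι : ℂ) - α ^ 4) / 3 := by
  have h := sum_deriv hα0 h1 (f := yh) (f' := fun z => Om * (3 * X z ^ 2 - 1))
    (fun z hz => hasDerivAt_yh hz) (A := α ^ 3) (c := 0) (fun z hz => by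
      rw [add_zero]
      exact sum_yh4 hα hα0 h1 h2 hz) hα hz
  rw [← Finset.mul_sum, Finset.sum_sub_distrib, ← Finset.mul_sum, Finset.sum_const,
    Finset.card_univ, nsmul_eq_mul, mul_one] at h
  have h3 : 3 * ∑ i, X (z + τ i) ^ 2 - (Fintype.card ι : ℂ) = α ^ 4 * (3 * X (α * z) ^ 2 - 1) := by
    apply mul_left_cancel₀ Om_ne_zero
    rw [h]
    ring
  linear_combination (1 / 3) * h3

theorem sum_Xyh4 (hα : α ∈ PP.lattice) (hα0 : α ≠ 0) (h1 : ∀ i, α * τ i ∈ PP.lattice)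
    (h2 : ∀ x, α * x ∈ PP.lattice → ∃! i, x - τ i ∈ PP.lattice) {z : ℂ}
    (hz : 2 * (α * z) ∉ PP.lattice) :
    ∑ i, X (z + τ i) * yh (z + τ i) = α ^ 5 * (X (α * z) * yh (α * z)) := by
  have h := sum_deriv hα0 h1 (f := fun z => X z ^ 2) (f' := fun z => 4 * Om * (X z * yh z))
    (fun z hz => by
      refine ((hasDerivAt_Xyh hz).pow 2).congr_deriv ?_
      ring) (A := α ^ 4) (c := ((Fintype.card ι : ℂ) - α ^ 4) / 3) (fun z hz =>
      sum_Xsq4 hα hα0 h1 h2 hz) hα hz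
  rw [← Finset.mul_sum] at h
  have hO : (4 * Om : ℂ) ≠ 0 := mul_ne_zero (by norm_num) Om_ne_zero
  apply mul_left_cancel₀ hO
  rw [h]
  ring

end

/-! ### The relations over `E[q]` -/

theorem PdL_yh : PdL yh := fun x y h => by
  have e : x = y + (x - y) := by ring
  rw [yh, yh, e, Ell.Y_add h]

theorem PdL_Xyh : PdL fun z => X z * yh z := fun x y h => by
  change X x * yh x = X y * yh y
  rw [PdL_X x y h, PdL_yh x y h]

theorem yh_neg (z : ℂ) : yh (-z) = -yh z := by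
  rw [yh, yh, Ell.Y_neg]
  ring

theorem yh_two {z : ℂ} (hz : 2 * z ∈ PP.lattice) : yh z = 0 := by
  have h1 : yh z = yh (-z) := PdL_yh _ _ (by
    rw [sub_neg_eq_add, ← two_mul]
    exact hz)
  rw [yh_neg] at h1
  linear_combination (1 / 2) * h1

theorem Wt_yh : Wt 1 yh := fun z _ => by
  rw [e4_one]
  by_cases h2 : 2 * z ∈ PP.lattice
  · have e : 2 * (zt * z) = zt * (2 * z) := by ring
    have h3 : 2 * (zt * z) ∈ PP.lattice := by
      rw [e]
      exact zt_mul_mem h2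
    rw [yh_two h2, yh_two h3, mul_zero]
  · exact yh_i h2

theorem Wt_Xyh : Wt 3 fun z => X z * yh z := fun z hz => by
  change X (zt * z) * yh (zt * z) = e4 3 * (X z * yh z)
  rw [X_i hz, Wt_yh z hz, e4_one, e4_three]
  ring

theorem TrF_yh (q : Pg) : TrF q (em q.1 ^ 3) yh :=
  TrF_of PdL_yh fun _ _ _ h1 h2 _ hz => sum_yh4 (em_mem q.1) (em_ne q.ne_zero) h1 h2 hz.two

theorem TrF_Xyh (q : Pg) : TrF q (em q.1 ^ 5) fun z => X z * yh z :=
  TrF_of PdL_Xyh fun _ _ _ h1 h2 _ hz => sum_Xyh4 (em_mem q.1) (em_ne q.ne_zero) h1 h2 hz.two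

end

end Pool.Agent.Lib.MP_1a91b9_ntQ
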