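import Pool.Agent.Lib.MP_1a91b9_ntQ.B.XsA

/-!
# Quartic twists, all fourth-power-free `D`, file XsB: the change of the weights

`lvB U e x s T C` and `lvB U eX xX s T C` agree to the first order; the difference to the second order is
`∑ (b ∈ C) a_b X_b P (C - b)`.
-/

set_option autoImplicit false
set_option linter.unusedSectionVars false

namespace Pool.Agent.Lib.MP_1a91b9_ntQ

open Finset MvPolynomial
open Pool.Agent.Lib.MP_1a91b9_ntK (NM NM_congr NM_empty NM_adj NM_update NM_zero forest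
  CZ CZ_eq forest_zero)

noncomputable section

variable {ι : Type*} [DecidableEq ι]

/-! ### The determinants -/

private theorem XsB_sgn (n : ℕ) : ((-1 : ZMod 2)) ^ n = 1 := by
  have : (-1 : ZMod 2) = 1 := by decide
  rw [this, one_pow]

theorem CE_sum2 (s : ι → ι → ZMod 2) (a : ι → ZMod 2) {T A : Finset ι}
    (hTA : Disjoint T A) (h0 : A.Nonempty) :
    ∑ T' ∈ T.powerset, cf (CE s a T' A * ∏ x ∈ T \ T', wE s 0 T' A x) A = 0 := by
  have h1 := CE_sum s a hTA h0
  simp only [XsB_sgn, one_mul] at h1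
  exact h1

theorem CE_C (s : ι → ι → ZMod 2) (a : ι → ZMod 2) (T : Finset ι) :
    CE s a T ∅ = C (CZ s a T) := by
  rw [CE, union_empty, CZ_map C]
  exact CZ_congr2 (fun x _ p _ _ => by rw [mwE, if_neg (notMem_empty p)]) fun _ _ => rfl

theorem wE_C (s : ι → ι → ZMod 2) (κ : ι → ZMod 2) (T : Finset ι) (x : ι) :
    wE s κ T ∅ x = C (κ x + ∑ p ∈ T, s x p) := by
  rw [wE, sum_empty, add_zero]

theorem CE_sum0 (s : ι → ι → ZMod 2) (a : ι → ZMod 2) {T : Finset ι} (hT : T.Nonempty) :
    ∑ T' ∈ T.powerset.erase ∅, cf (CE s a T' ∅ * ∏ x ∈ T \ T', wE s 0 T' ∅ x) ∅ =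
      if T.card = 1 then ∑ q ∈ T, a q else 0 := by
  have h1 := forest_zero s a hT
  have h2 : (if T.card = 1 then -∑ q ∈ T, a q else 0) = if T.card = 1 then ∑ q ∈ T, a q else 0 := by
    have h3 : ∀ y : ZMod 2, -y = y := by decide
    rw [h3]
  rw [h2] at h1
  rw [← h1]
  refine sum_congr rfl fun T' _ => ?_
  have h3 : ∏ x ∈ T \ T', wE s 0 T' ∅ x = C (∏ x ∈ T \ T', ∑ p ∈ T', s x p) := by
    rw [map_prod]
    exact prod_congr rfl fun x _ => by rw [wE_C, Pi.zero_apply, zero_add]
  rw [CE_C, h3, ← C_mul, cf_C, if_pos rfl, XsB_sgn, one_mul]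

/-! ### Constants -/

theorem RB.cst {B : ValuationSubring ℂ} (hB : (2 : ℂ)⁻¹ ∉ B) {η c : ℂ} {r : ZMod 2}
    (hc : Rt B c r) {S : Finset ι} : RB B η S (fun _ => c) (C r : MvPolynomial ι (ZMod 2)) := by
  have h1 := RB.const hB hc (RB.one (B := B) (η := η) (C := S))
  simp only [mul_one] at h1
  exact h1

theorem sum_card_one {M : Type*} [AddCommMonoid M] (S : Finset ι) (F : Finset ι → M) :
    ∑ Z ∈ S.powerset.erase ∅, (if Z.card = 1 then F Z else 0) = ∑ b ∈ S, F {b} := by
  rw [← sum_filter]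
  refine (sum_bij (fun b _ => ({b} : Finset ι)) ?_ ?_ ?_ ?_).symm
  · intro b hb
    rw [mem_filter, mem_erase, mem_powerset]
    exact ⟨⟨singleton_ne_empty b, singleton_subset_iff.2 hb⟩, card_singleton b⟩
  · intro b _ b' _ h
    exact singleton_injective h
  · intro Z hZ
    rw [mem_filter, mem_erase, mem_powerset] at hZ
    obtain ⟨b, rfl⟩ := card_eq_one.1 hZ.2
    exact ⟨b, singleton_subset_iff.1 hZ.1.2, rfl⟩
  · intro b _
    rfl

/-! ### The change of the weights -/

/-- the expansion of the level function -/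
theorem lvB_exp {U : Finset ι → Finset ι → ℂ} {e eX : ι → ℂ} {x xX : Finset ι → ι → ℂ}
    {s : ι → ι → ZMod 2} {T S A : Finset ι}
    (hx : ∀ b ∈ S, xX T b = x T b) :
    lvB U e x s T S A = ∑ Z ∈ S.powerset, if Disjoint A Z then
      (∏ b ∈ Z, (e b - eX b)) * lvB U eX xX s T (S \ Z) A else 0 := by
  have h1 : ∏ b ∈ S \ A, fcB e x s T A b =
      ∏ b ∈ S \ A, ((e b - eX b) + fcB eX xX s T A b) := by
    refine prod_congr rfl fun b hb => ?_
    rw [fcB, fcB, hx b (mem_sdiff.1 hb).1]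
    ring
  rw [lvB, h1, prod_add, mul_sum, ← sum_filter]
  have h2 : S.powerset.filter (fun Z => Disjoint A Z) = (S \ A).powerset := by
    ext Z
    rw [mem_filter, mem_powerset, mem_powerset, subset_sdiff, disjoint_comm]
  rw [h2]
  refine sum_congr rfl fun Z _ => ?_
  rw [lvB, sdiff_right_comm]
  ring

/-- **The change of the weights of the primes of exponent two.** -/
theorem RB_change {B : ValuationSubring ℂ} (hB : (2 : ℂ)⁻¹ ∉ B) {l : ℂ} (hl : Rt B l 0)
    (hl0 : l ≠ 0) (hu : Rt B (2 / l ^ 2) 1)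
    {U : Finset ι → Finset ι → ℂ} {e eX : ι → ℂ} {x xX : Finset ι → ι → ℂ}
    {s : ι → ι → ZMod 2} {T S : Finset ι} {a : ι → ZMod 2} {n : ℕ}
    (hx : ∀ b ∈ S, xX T b = x T b) (hc : ∀ b ∈ S, Rt B ((eX b - e b) / l ^ 3) (a b))
    {P : Finset ι → MvPolynomial ι (ZMod 2)}
    (hP : ∀ S' ⊆ S, RB B (2 / l) S' (fun A => lvB U eX xX s T S' A / l ^ (T.card + S'.card + n))
      (P S')) :
    RB B (2 / l) S (fun A => lvB U e x s T S A / l ^ (T.card + S.card + n)) (P S) ∧
    RB B (2 / l) S (fun A => (lvB U eX xX s T S A / l ^ (T.card + S.card + n) -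
      lvB U e x s T S A / l ^ (T.card + S.card + n)) / l)
        (∑ b ∈ S, C (a b) * X b * P (S.erase b)) := by
  have hc' : ∀ b ∈ S, Rt B ((e b - eX b) / l ^ 3) (a b) := by
    intro b hb
    have h1 := (hc b hb).neg hB
    rwa [← neg_div, neg_sub] at h1
  -- the terms
  let t : Finset ι → Finset ι → ℂ := fun Z A => if Disjoint A Z then
    (∏ b ∈ Z, ((e b - eX b) / l)) * (lvB U eX xX s T (S \ Z) A /
      l ^ (T.card + (S \ Z).card + n)) else 0
  have h1 : ∀ A, lvB U e x s T S A / l ^ (T.card + S.card + n) = ∑ Z ∈ S.powerset, t Z A := by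
    intro A
    rw [lvB_exp hx, sum_div]
    refine sum_congr rfl fun Z hZ => ?_
    show _ = if Disjoint A Z then _ else _
    split_ifs
    · have h2 := card_sdiff_add_card_eq_card (mem_powerset.1 hZ)
      rw [prod_div_distrib, prod_const, div_mul_div_comm]
      congr 1
      rw [← pow_add]
      congr 1
      omega
    · rw [zero_div]
  have h2 : ∀ A, t ∅ A = lvB U eX xX s T S A / l ^ (T.card + S.card + n) := by
    intro A
    show (if Disjoint A ∅ then _ else _) = _
    rw [if_pos (disjoint_empty_right A), prod_empty, one_mul, sdiff_empty]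
  have h3 : ∀ Z ∈ S.powerset.erase ∅, RB B (2 / l) S (t Z) 0 ∧
      RB B (2 / l) S (fun A => t Z A / l)
        (if Z.card = 1 then (∑ b ∈ Z, C (a b) * X b) * P (S \ Z) else 0) := by
    intro Z hZ
    rw [mem_erase, mem_powerset] at hZ
    exact RB.disj hB hl hl0 hu hZ.2 (nonempty_iff_ne_empty.2 hZ.1)
      (hP (S \ Z) sdiff_subset) fun b hb => hc' b (hZ.2 hb)
  have h4 : ∀ A, lvB U e x s T S A / l ^ (T.card + S.card + n) =
      lvB U eX xX s T S A / l ^ (T.card + S.card + n) + ∑ Z ∈ S.powerset.erase ∅, t Z A := by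
    intro A
    rw [h1, ← add_sum_erase _ _ (empty_mem_powerset S), h2]
  constructor
  · have h5 := (hP S subset_rfl).add hB (RB.sum hB (S.powerset.erase ∅) fun Z hZ => (h3 Z hZ).1)
    rw [sum_const_zero, add_zero] at h5
    exact h5.congr (fun A _ => h4 A) fun _ _ => rfl
  · have h5 := RB.sum hB (S.powerset.erase ∅) fun Z hZ => (h3 Z hZ).2
    have h6 := h5.const (c := -1) hB (r := 1) ((Rt.one (B := B)).neg hB)
    refine h6.congr (fun A _ => ?_) fun E _ => ?_
    · rw [h4 A, ← sum_div]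
      ring
    · rw [C_1, one_mul, sum_card_one S fun Z => (∑ b ∈ Z, C (a b) * X b) * P (S \ Z)]
      congr 1
      refine sum_congr rfl fun b _ => ?_
      rw [sum_singleton, sdiff_singleton_eq_erase]

/-- **The second order difference of products.** -/
theorem RB_prod_diff {B : ValuationSubring ℂ} (hB : (2 : ℂ)⁻¹ ∉ B) {η l : ℂ} (hη : Rt B η 0)
    (hη0 : η ≠ 0) {S : Finset ι} {α : Type*} [DecidableEq α] (Q : Finset α)
    {w w' : α → Finset ι → ℂ} {W : α → MvPolynomial ι (ZMod 2)} {d : α → ZMod 2}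
    (h : ∀ z ∈ Q, RB B η S (w z) (W z)) (h' : ∀ z ∈ Q, RB B η S (w' z) (W z))
    (hd : ∀ z ∈ Q, RB B η S (fun A => (w' z A - w z A) / l) (C (d z))) :
    RB B η S (fun A => (∏ z ∈ Q, w' z A - ∏ z ∈ Q, w z A) / l)
      (∑ z ∈ Q, C (d z) * ∏ y ∈ Q.erase z, W y) := by
  induction Q using Finset.induction_on with
  | empty =>
    simp only [prod_empty, sub_self, zero_div, sum_empty]
    exact RB.zero
  | insert z Q hz ih =>
    have h1 := ih (fun y hy => h y (mem_insert_of_mem hy)) (fun y hy => h' y (mem_insert_of_mem hy))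
      fun y hy => hd y (mem_insert_of_mem hy)
    have h2 := (hd z (mem_insert_self z Q)).mul hB hη hη0
      (RB.prod hB hη hη0 Q fun y hy => h' y (mem_insert_of_mem hy))
    have h3 := (h z (mem_insert_self z Q)).mul hB hη hη0 h1
    refine (h2.add hB h3).congr (fun A _ => ?_) fun E _ => ?_
    · rw [prod_insert hz, prod_insert hz]
      ring
    · rw [sum_insert hz, erase_insert hz, mul_sum]
      congr 2
      refine sum_congr rfl fun y hy => ?_
      have hyz : z ≠ y := fun h => hz (h ▸ hy)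
      rw [erase_insert_of_ne hyz, prod_insert (fun h => hz (mem_of_mem_erase h))]
      ring

/-- the second order difference of a product of two functions -/
theorem RB_mul_diff {B : ValuationSubring ℂ} (hB : (2 : ℂ)⁻¹ ∉ B) {η l : ℂ} (hη : Rt B η 0)
    (hη0 : η ≠ 0) {S : Finset ι} {f f' g g' : Finset ι → ℂ} {P P' Q Q' : MvPolynomial ι (ZMod 2)}
    (hf : RB B η S f P) (hfd : RB B η S (fun A => (f' A - f A) / l) P')
    (hg' : RB B η S g' Q) (hgd : RB B η S (fun A => (g' A - g A) / l) Q') :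
    RB B η S (fun A => (f' A * g' A - f A * g A) / l) (P' * Q + P * Q') :=
  ((hfd.mul hB hη hη0 hg').add hB (hf.mul hB hη hη0 hgd)).congr (fun A _ => by ring)
    fun _ _ => rfl

end

end Pool.Agent.Lib.MP_1a91b9_ntQ
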