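import Pool.Agent.Lib.MP_1a91b9_ntQ.B.XsE
import Pool.Agent.Lib.MP_1a91b9_ntQ.B.C2R

/-!
# Quartic twists, all fourth-power-free `D`, file XsF: class (X), `k = 0`, the residue polynomials of `D`
-/

set_option autoImplicit false
set_option linter.unusedSectionVars false

namespace Pool.Agent.Lib.MP_1a91b9_ntQ

open Finset MvPolynomial
open Pool.Agent.Lib.MP_1a91b9_ntK (NM NM_congr NM_empty NM_adj NM_update NM_zero forest
  CZ CZ_eq forest_zero)

noncomputable section

variable {ι : Type*} [DecidableEq ι]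

/-! ### Substitutions -/

section
variable {R : Type*} [CommRing R]

/-- a polynomial without the variable `b` -/
theorem cf_fix {b : ι} {p : MvPolynomial ι R} (hp : z1 b p = p) {E : Finset ι} (hb : b ∈ E) :
    cf p E = 0 := by
  have key : ∀ (q : MvPolynomial ι R), cf (z1 b q) E = 0 := by
    intro q
    induction q using MvPolynomial.induction_on' with
    | monomial m r =>
      have h0 : z1 b (monomial m r) = if m b = 0 then monomial m r else 0 := by
        show aeval _ (monomial m r) = _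
        rw [aeval_monomial]
        split_ifs with hm
        · have h1 : (m.prod fun i k => (if i = b then (0 : MvPolynomial ι R) else X i) ^ k) =
              m.prod fun i k => X i ^ k := by
            refine Finsupp.prod_congr fun i hi => ?_
            rw [if_neg]
            rintro rfl
            exact (Finsupp.mem_support_iff.1 hi) hm
          rw [h1, monomial_eq]
          rfl
        · have h1 : (m.prod fun i k => (if i = b then (0 : MvPolynomial ι R) else X i) ^ k) = 0 := by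
            refine Finset.prod_eq_zero (Finsupp.mem_support_iff.2 hm) ?_
            show (if b = b then (0 : MvPolynomial ι R) else X b) ^ m b = 0
            rw [if_pos rfl, zero_pow hm]
          rw [h1, mul_zero]
      rw [h0]
      split_ifs with hm
      · rw [cf, coeff_monomial, if_neg]
        rintro rfl
        rw [mi_apply, if_pos hb] at hm
        exact one_ne_zero hm
      · exact cf_zero _
    | add p q hp hq => rw [map_add, cf_add, hp, hq, add_zero]
  rw [← hp]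
  exact key p

/-- the second order coefficient, a column which is zero outside of the diagonal -/
theorem c2R_col (m : ι → ι → R) (f : ι → R) {T : Finset ι} {r : ι} (hr : r ∈ T)
    (h : ∀ i ∈ T, i ≠ r → m i r = 0) (hf : f r = 0) :
    c2R m f T = (∑ p ∈ T.erase r, m r p) * c2R m f (T.erase r) := by
  rw [c2R, W2, NM_col (fun i j => Polynomial.C (m i j)) (fun i => Polynomial.X * Polynomial.C (f i))
    hr (fun i hi hir => by rw [h i hi hir, Polynomial.C_0]), hf, Polynomial.C_0, mul_zero, zero_add,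
    ← map_sum, Polynomial.coeff_C_mul]
  rfl

end

/-- the second order coefficient with the variables -/
def CC2 (s : ι → ι → ZMod 2) (s0 : ι → ZMod 2) (T A : Finset ι) : MvPolynomial ι (ZMod 2) :=
  c2R (mwE s A) (fun i => C (s0 i)) (T ∪ A)

/-- **The residue polynomials of `D`.** -/
def ZX (s : ι → ι → ZMod 2) (a s0 bb lb : ι → ZMod 2) (h : ZMod 2) (T A : Finset ι) :
    MvPolynomial ι (ZMod 2) :=
  CE s (fun b => a b + h * s0 b) T A + VB0 s a s0 bb lb h T A +
    C (1 + h) * (KXs bb lb 0 T A * CC2 s s0 T A)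

theorem z1_CC2 (s : ι → ι → ZMod 2) (s0 : ι → ZMod 2) {T A : Finset ι} (hTA : Disjoint T A) {b : ι}
    (hb : b ∈ A) (h0 : s0 b = 0) :
    z1 b (CC2 s s0 T A) = wE s 0 T (A.erase b) b * CC2 s s0 T (A.erase b) := by
  have e0 := erase_union_right hTA hb
  have hne : ∀ p ∈ T ∪ A.erase b, p ≠ b := by
    intro p hp
    rw [← e0] at hp
    exact ne_of_mem_erase hp
  have h1 : c2R (fun x p => z1 b (mwE s A x p)) (fun i => z1 b (C (s0 i) : MvPolynomial ι (ZMod 2)))
      (T ∪ A) = (∑ p ∈ (T ∪ A).erase b, z1 b (mwE s A b p)) *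
        c2R (fun x p => z1 b (mwE s A x p)) (fun i => z1 b (C (s0 i) : MvPolynomial ι (ZMod 2)))
          ((T ∪ A).erase b) :=
    c2R_col _ _ (mem_union_right T hb) (fun i _ _ => by
      rw [z1_mwE, if_pos ⟨rfl, hb⟩]) (by rw [h0, C_0, map_zero])
  have h2 : c2R (fun x p => z1 b (mwE s A x p)) (fun i => z1 b (C (s0 i) : MvPolynomial ι (ZMod 2)))
      (T ∪ A.erase b) = CC2 s s0 T (A.erase b) :=
    c2R_congr (fun x _ p hp _ => z1_mwE_of s A (hne p hp)) fun x _ => z1_C b _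
  have h3 : ∑ p ∈ T ∪ A.erase b, z1 b (mwE s A b p) = wE s 0 T (A.erase b) b := by
    rw [wE_eq s 0 (disjoint_of_subset_right (erase_subset _ _) hTA), Pi.zero_apply, C_0, zero_add]
    exact sum_congr rfl fun p hp => z1_mwE_of s A (hne p hp)
  rw [e0, h2, h3] at h1
  rw [← h1]
  exact (c2R_map (z1 b) (mwE s A) (fun i => C (s0 i)) (T ∪ A)).symm

theorem z1_KX (bb lb : ι → ZMod 2) (h : ZMod 2) (T : Finset ι) {A : Finset ι} {b : ι} (hb : b ∈ A) :
    z1 b (KXs bb lb h T A) = KXs bb lb h T (A.erase b) := by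
  rw [KXs, KXs, map_add, z1_C, map_sum, ← add_sum_erase _ _ hb, map_mul, z1_X, if_pos rfl, zero_mul,
    zero_add]
  congr 1
  refine sum_congr rfl fun p hp => ?_
  rw [map_mul, z1_X, z1_C, if_neg (ne_of_mem_erase hp)]

/-- the step for `UB0` -/
theorem UB0_step (s : ι → ι → ZMod 2) (s0 bb lb : ι → ZMod 2) (h : ZMod 2) {T A : Finset ι}
    (hTA : Disjoint T A) {b : ι} (hb : b ∈ A) (h0 : (T ∪ A.erase b).Nonempty) {E : Finset ι}
    (hE : b ∉ E) : cf (UB0 s s0 bb lb h T A) E =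
      cf (wE s 0 T (A.erase b) b * UB0 s s0 bb lb h T (A.erase b)) E := by
  have e1 : z1 b (UB0 s s0 bb lb h T A) = wE s 0 T (A.erase b) b * UB0 s s0 bb lb h T (A.erase b) := by
    rw [UB0, map_mul, z1_KX bb lb h T hb, z1_CE s s0 hTA hb h0, UB0]
    exact mul_left_comm _ _ _
  rw [← cf_z1 b _ hE, e1]

/-- the step for `CC2` -/
theorem CC2_step (s : ι → ι → ZMod 2) (s0 : ι → ZMod 2) {T A : Finset ι} (hTA : Disjoint T A) {b : ι}
    (hb : b ∈ A) (h0 : s0 b = 0) {E : Finset ι} (hE : b ∉ E) :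
    cf (CC2 s s0 T A) E = cf (wE s 0 T (A.erase b) b * CC2 s s0 T (A.erase b)) E := by
  rw [← cf_z1 b _ hE, z1_CC2 s s0 hTA hb h0]

/-- one variable less in the weight -/
theorem cf_wE_erase (s : ι → ι → ZMod 2) (κ : ι → ZMod 2) (T : Finset ι) {A : Finset ι} {b' : ι}
    (hb : b' ∈ A) (x : ι) (P : MvPolynomial ι (ZMod 2)) {E : Finset ι} (hE : b' ∉ E) :
    cf (wE s κ T A x * P) E = cf (wE s κ T (A.erase b') x * P) E := by
  have h1 : wE s κ T A x = wE s κ T (A.erase b') x + X b' * C (s x b') := by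
    rw [wE, wE, ← add_sum_erase _ _ hb]
    ring
  rw [h1, add_mul, cf_add, mul_assoc (X b'), cf_X_mul, if_neg hE, add_zero]

/-- the coefficients of `VB0` -/
theorem cf_VB0 (s : ι → ι → ZMod 2) (a s0 bb lb : ι → ZMod 2) (h : ZMod 2) (T A : Finset ι)
    (P : MvPolynomial ι (ZMod 2)) (E : Finset ι) :
    cf (P * VB0 s a s0 bb lb h T A) E = ∑ b ∈ A, a b *
      (if b ∈ E then cf (P * UB0 s s0 bb lb h T (A.erase b)) (E.erase b) else 0) := by
  rw [VB0, mul_sum, cf_sum]
  refine sum_congr rfl fun b _ => ?_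
  have e1 : P * (C (a b) * X b * UB0 s s0 bb lb h T (A.erase b)) =
      C (a b) * (X b * (P * UB0 s s0 bb lb h T (A.erase b))) := by ring
  rw [e1, cf_C_mul, cf_X_mul]

/-- **The step for `ZX`.** -/
theorem ZX_step (s : ι → ι → ZMod 2) (a s0 bb lb : ι → ZMod 2) (h : ZMod 2) {T A : Finset ι}
    (hTA : Disjoint T A) (hT0 : T.Nonempty) {b : ι} (hb : b ∈ A) (h0 : s0 b = 0) {E : Finset ι}
    (hE : b ∉ E) : cf (ZX s a s0 bb lb h T A) E =
      cf (wE s 0 T (A.erase b) b * ZX s a s0 bb lb h T (A.erase b)) E := by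
  have hne : ∀ A' : Finset ι, (T ∪ A').Nonempty := fun A' => hT0.mono subset_union_left
  have h1 := CE_step s (fun b => a b + h * s0 b) hTA hb (hne _) hE
  have h2 : cf (VB0 s a s0 bb lb h T A) E =
      cf (wE s 0 T (A.erase b) b * VB0 s a s0 bb lb h T (A.erase b)) E := by
    have h3 := cf_VB0 s a s0 bb lb h T A 1 E
    simp only [one_mul] at h3
    rw [h3, cf_VB0, ← add_sum_erase _ _ hb, if_neg hE, mul_zero, zero_add]
    refine sum_congr rfl fun b' hb' => ?_
    have hbb : b' ≠ b := ne_of_mem_erase hb'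
    have hb'A := mem_of_mem_erase hb'
    by_cases h4 : b' ∈ E
    · have h5 := UB0_step s s0 bb lb h (disjoint_of_subset_right (erase_subset b' A) hTA)
        (mem_erase.2 ⟨hbb.symm, hb⟩) (hne _) (E := E.erase b') (fun h5 => hE (mem_of_mem_erase h5))
      have h6 := cf_wE_erase s 0 T hb' b (UB0 s s0 bb lb h T ((A.erase b).erase b'))
        (notMem_erase b' E)
      rw [if_pos h4, if_pos h4, h5, h6, erase_right_comm]
    · rw [if_neg h4, if_neg h4]
  have h3 : cf (C (1 + h) * (KXs bb lb 0 T A * CC2 s s0 T A)) E =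
      cf (wE s 0 T (A.erase b) b * (C (1 + h) * (KXs bb lb 0 T (A.erase b) *
        CC2 s s0 T (A.erase b)))) E := by
    have e1 : z1 b (C (1 + h) * (KXs bb lb 0 T A * CC2 s s0 T A)) = wE s 0 T (A.erase b) b *
        (C (1 + h) * (KXs bb lb 0 T (A.erase b) * CC2 s s0 T (A.erase b))) := by
      rw [map_mul, map_mul, z1_C, z1_KX bb lb 0 T hb, z1_CC2 s s0 hTA hb h0,
        mul_left_comm (KXs bb lb 0 T (A.erase b)), mul_left_comm (C (1 + h))]
    rw [← cf_z1 b _ hE, e1]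
  rw [ZX, ZX, cf_add, cf_add, h1, h2, h3, mul_add, mul_add, cf_add, cf_add]

/-! ### The sum -/

/-- the weights `b'` with the variables -/
def bw (bb lb : ι → ZMod 2) (A : Finset ι) (i : ι) : MvPolynomial ι (ZMod 2) :=
  if i ∈ A then X i * C (lb i) else C (bb i)

theorem sum_bw (bb lb : ι → ZMod 2) {T A : Finset ι} (hTA : Disjoint T A) :
    ∑ i ∈ T ∪ A, bw bb lb A i = KXs bb lb 0 T A := by
  rw [sum_union hTA, KXs, zero_add, map_sum]
  congr 1
  · exact sum_congr rfl fun i hi => by rw [bw, if_neg fun h => disjoint_left.1 hTA hi h]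
  · exact sum_congr rfl fun i hi => by rw [bw, if_pos hi]

theorem z1_bw (bb lb : ι → ZMod 2) (A : Finset ι) {b i : ι} (h : i ≠ b) :
    z1 b (bw bb lb A i) = bw bb lb A i := by
  rw [bw]
  split_ifs
  · rw [map_mul, z1_X, z1_C, if_neg h]
  · rw [z1_C]

theorem z1_mwE_fix (s : ι → ι → ZMod 2) (A : Finset ι) {b x p : ι} (h : p ≠ b) :
    z1 b (mwE s A x p) = mwE s A x p := by
  rw [z1_mwE, if_neg (fun h' => h h'.1)]

private theorem XsF_two : ∀ y : MvPolynomial ι (ZMod 2), y + y = 0 := by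
  intro y
  have h : (1 : MvPolynomial ι (ZMod 2)) + 1 = 0 := by
    rw [← C_1, ← C_add]
    have : (1 : ZMod 2) + 1 = 0 := by decide
    rw [this, C_0]
  calc y + y = (1 + 1) * y := by ring
    _ = 0 := by rw [h, zero_mul]

/-- **The second order identity with the variables.** -/
theorem CC2_sum (s : ι → ι → ZMod 2) (s0 bb lb : ι → ZMod 2) {T A : Finset ι}
    (hTA : Disjoint T A) (h0 : ∀ b ∈ A, s0 b = 0) :
    ∑ T' ∈ T.powerset.erase ∅, cf (KXs bb lb 0 T' A * CC2 s s0 T' A *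
        ∏ z ∈ T \ T', wE s 0 T' A z) A =
      ∑ T' ∈ T.powerset.erase ∅, cf (KXs bb lb 0 T' A * CE s s0 T' A *
        ∑ z ∈ T \ T', C (s0 z) * ∏ y ∈ (T \ T').erase z, wE s 0 T' A y) A := by
  have h1 := c2R_id XsF_two (mwE s A) (bw bb lb A) (fun i => C (s0 i)) (T ∪ A)
  have h2 := congrArg (fun p => cf p A) h1
  simp only [cf_sum] at h2
  -- both sides as sums over all subsets
  let F : Finset ι → ZMod 2 := fun J => cf (((∑ i ∈ J, bw bb lb A i) *
    c2R (mwE s A) (fun i => C (s0 i)) J) * ∏ q ∈ (T ∪ A) \ J, ∑ p ∈ J, mwE s A q p) A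
  let G : Finset ι → ZMod 2 := fun J => cf (((∑ i ∈ J, bw bb lb A i) *
    CZ (mwE s A) (fun i => C (s0 i)) J) * ∑ q ∈ (T ∪ A) \ J, C (s0 q) *
      ∏ p ∈ ((T ∪ A) \ J).erase q, ∑ r ∈ J, mwE s A p r) A
  have hF0 : F ∅ = 0 := by
    show cf _ A = 0
    rw [sum_empty, zero_mul, zero_mul, cf_zero]
  have hG0 : G ∅ = 0 := by
    show cf _ A = 0
    rw [sum_empty, zero_mul, zero_mul, cf_zero]
  have h3 : ∑ J ∈ (T ∪ A).powerset, F J = ∑ J ∈ (T ∪ A).powerset, G J := by
    rw [← add_sum_erase _ _ (empty_mem_powerset (T ∪ A)),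
      ← add_sum_erase _ G (empty_mem_powerset (T ∪ A)), hF0, hG0, zero_add, zero_add]
    exact h2
  have hfix : ∀ J ⊆ T ∪ A, ¬ A ⊆ J → F J = 0 ∧ G J = 0 := by
    intro J _ hA
    obtain ⟨b, hbA, hbJ⟩ := not_subset.1 hA
    have hJ : ∀ p ∈ J, p ≠ b := fun p hp h => hbJ (h ▸ hp)
    have e1 : z1 b (∑ i ∈ J, bw bb lb A i) = ∑ i ∈ J, bw bb lb A i := by
      rw [map_sum]
      exact sum_congr rfl fun i hi => z1_bw bb lb A (hJ i hi)
    have e2 : ∀ q, z1 b (∑ p ∈ J, mwE s A q p) = ∑ p ∈ J, mwE s A q p := by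
      intro q
      rw [map_sum]
      exact sum_congr rfl fun p hp => z1_mwE_fix s A (hJ p hp)
    have e3 : z1 b (c2R (mwE s A) (fun i => C (s0 i)) J) = c2R (mwE s A) (fun i => C (s0 i)) J := by
      rw [← c2R_map]
      exact c2R_congr (fun x _ p hp _ => z1_mwE_fix s A (hJ p hp)) fun x _ => z1_C b _
    have e4 : z1 b (CZ (mwE s A) (fun i => C (s0 i)) J) = CZ (mwE s A) (fun i => C (s0 i)) J := by
      rw [CZ_map]
      exact CZ_congr2 (fun x _ p hp _ => z1_mwE_fix s A (hJ p hp)) fun x _ => z1_C b _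
    constructor
    · refine cf_fix (b := b) ?_ hbA
      rw [map_mul, map_mul, e1, e3, map_prod, prod_congr rfl fun q _ => e2 q]
    · refine cf_fix (b := b) ?_ hbA
      have e5 : ∀ q ∈ (T ∪ A) \ J, z1 b (C (s0 q) * ∏ p ∈ ((T ∪ A) \ J).erase q,
          ∑ r ∈ J, mwE s A p r) = C (s0 q) * ∏ p ∈ ((T ∪ A) \ J).erase q,
          ∑ r ∈ J, mwE s A p r := by
        intro q _
        rw [map_mul, z1_C, map_prod, prod_congr rfl fun q _ => e2 q]
      rw [map_mul, map_mul, e1, e4, map_sum, sum_congr rfl e5]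
  rw [sum_super hTA F fun J hJ hA => (hfix J hJ hA).1,
    sum_super hTA G fun J hJ hA => (hfix J hJ hA).2,
    ← add_sum_erase _ _ (empty_mem_powerset T),
    ← add_sum_erase _ (fun T' => G (T' ∪ A)) (empty_mem_powerset T)] at h3
  have hFA : F (∅ ∪ A) = 0 := by
    show cf _ A = 0
    rw [empty_union, c2R_zero (mwE s A) (fun x hx => by rw [h0 x hx, C_0]), mul_zero, zero_mul,
      cf_zero]
  have hCZ : CZ (mwE s A) (fun i => (C (s0 i) : MvPolynomial ι (ZMod 2))) A = 0 := by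
    rw [CZ_eq]
    refine sum_eq_zero fun q hq => ?_
    rw [h0 q hq, C_0, zero_mul]
  have hGA : G (∅ ∪ A) = 0 := by
    show cf _ A = 0
    rw [empty_union, hCZ, mul_zero, zero_mul, cf_zero]
  rw [hFA, hGA, zero_add, zero_add] at h3
  have hw : ∀ T' ∈ T.powerset.erase ∅, ∀ q, ∑ p ∈ T' ∪ A, mwE s A q p = wE s 0 T' A q := by
    intro T' hT' q
    have hT'A := disjoint_of_subset_left (mem_powerset.1 (mem_of_mem_erase hT')) hTA
    rw [wE_eq s 0 hT'A q, Pi.zero_apply, C_0, zero_add]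
  have hF : ∀ T' ∈ T.powerset.erase ∅, F (T' ∪ A) = cf (KXs bb lb 0 T' A * CC2 s s0 T' A *
        ∏ z ∈ T \ T', wE s 0 T' A z) A := by
    intro T' hT'
    have hT'A := disjoint_of_subset_left (mem_powerset.1 (mem_of_mem_erase hT')) hTA
    show cf (((∑ i ∈ T' ∪ A, bw bb lb A i) * c2R (mwE s A) (fun i => C (s0 i)) (T' ∪ A)) *
      ∏ q ∈ (T ∪ A) \ (T' ∪ A), ∑ p ∈ T' ∪ A, mwE s A q p) A = _
    rw [sum_bw bb lb hT'A, union_sdiff_union hTA, CC2, prod_congr rfl fun q _ => hw T' hT' q]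
  have hG : ∀ T' ∈ T.powerset.erase ∅, G (T' ∪ A) = cf (KXs bb lb 0 T' A * CE s s0 T' A *
        ∑ z ∈ T \ T', C (s0 z) * ∏ y ∈ (T \ T').erase z, wE s 0 T' A y) A := by
    intro T' hT'
    have hT'A := disjoint_of_subset_left (mem_powerset.1 (mem_of_mem_erase hT')) hTA
    have e1 : ∀ q ∈ T \ T', C (s0 q) * ∏ p ∈ (T \ T').erase q, ∑ r ∈ T' ∪ A, mwE s A p r =
        C (s0 q) * ∏ y ∈ (T \ T').erase q, wE s 0 T' A y := by
      intro q _
      rw [prod_congr rfl fun q _ => hw T' hT' q]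
    show cf (((∑ i ∈ T' ∪ A, bw bb lb A i) * CZ (mwE s A) (fun i => C (s0 i)) (T' ∪ A)) *
      ∑ q ∈ (T ∪ A) \ (T' ∪ A), C (s0 q) * ∏ p ∈ ((T ∪ A) \ (T' ∪ A)).erase q,
        ∑ r ∈ T' ∪ A, mwE s A p r) A = _
    rw [sum_bw bb lb hT'A, union_sdiff_union hTA, CE, sum_congr rfl e1]
  rw [sum_congr rfl hF, sum_congr rfl hG] at h3
  exact h3

private theorem XsF_add : ∀ y z : ZMod 2, y + z = 0 → z = y := by decide

/-- the first order part -/
theorem CE_sumT (s : ι → ι → ZMod 2) (a s0 : ι → ZMod 2) (h : ZMod 2) {T A : Finset ι}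
    (hTA : Disjoint T A) (hT0 : T.Nonempty) (h0 : ∀ b ∈ A, s0 b = 0) :
    ∑ T' ∈ T.powerset.erase ∅, cf (CE s (fun b => a b + h * s0 b) T' A *
      ∏ z ∈ T \ T', wE s 0 T' A z) A = zeX s a s0 h T A := by
  by_cases hA : A = ∅
  · subst hA
    rw [zeX, if_pos rfl]
    exact CE_sum0 s _ hT0
  · rw [zeX, if_neg hA]
    have h1 := CE_sum2 s (fun b => a b + h * s0 b) hTA (nonempty_iff_ne_empty.2 hA)
    rw [← add_sum_erase _ _ (empty_mem_powerset T), sdiff_empty] at h1
    have h2 : CE s (fun b => a b + h * s0 b) ∅ A = CE s a ∅ A := by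
      rw [CE, CE, empty_union]
      refine CZ_congr2 (fun _ _ _ _ _ => rfl) fun x hx => ?_
      rw [h0 x hx, mul_zero, add_zero]
    rw [h2] at h1
    exact XsF_add _ _ h1

/-- **The sum for `ZX`.** -/
theorem ZX_sum (s : ι → ι → ZMod 2) (a s0 bb lb : ι → ZMod 2) (h : ZMod 2) {T A : Finset ι}
    (hTA : Disjoint T A) (hT0 : T.Nonempty) (h0 : ∀ b ∈ A, s0 b = 0) :
    ∑ T' ∈ T.powerset.erase ∅, cf (ZX s a s0 bb lb h T' A * ∏ z ∈ T \ T', wE s 0 T' A z) A =
      RX0 s a s0 bb lb h T A := by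
  have h1 := CE_sumT s a s0 h hTA hT0 h0
  have h2 := CC2_sum s s0 bb lb hTA h0
  have h3 : ∀ T' ∈ T.powerset.erase ∅, cf (DB0 s a s0 bb lb h T' A (T \ T')) A =
      cf (VB0 s a s0 bb lb h T' A * ∏ z ∈ T \ T', wE s 0 T' A z) A +
      (1 + h) * cf (KXs bb lb 0 T' A * CE s s0 T' A *
        ∑ z ∈ T \ T', C (s0 z) * ∏ y ∈ (T \ T').erase z, wE s 0 T' A y) A := by
    intro T' _
    rw [DB0, cf_add]
    refine congrArg₂ (· + ·) rfl ?_
    have e1 : ∑ z ∈ T \ T', C ((1 + h) * s0 z) * ∏ y ∈ (T \ T').erase z, wE s 0 T' A y =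
        C (1 + h) * ∑ z ∈ T \ T', C (s0 z) * ∏ y ∈ (T \ T').erase z, wE s 0 T' A y := by
      rw [mul_sum]
      exact sum_congr rfl fun z _ => by rw [C_mul, mul_assoc]
    have e2 : UB0 s s0 bb lb h T' A * (C (1 + h) * ∑ z ∈ T \ T', C (s0 z) *
        ∏ y ∈ (T \ T').erase z, wE s 0 T' A y) =
        C (1 + h) * (UB0 s s0 bb lb h T' A * ∑ z ∈ T \ T', C (s0 z) *
        ∏ y ∈ (T \ T').erase z, wE s 0 T' A y) := mul_left_comm _ _ _
    rw [e1, e2, cf_C_mul, UB0]
    have hh : ∀ y : ZMod 2, y = 0 ∨ y = 1 := by decide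
    rcases hh h with rfl | rfl
    · rfl
    · have h4 : (1 : ZMod 2) + 1 = 0 := by decide
      rw [h4, zero_mul, zero_mul]
  have h4 : ∀ T' ∈ T.powerset.erase ∅, cf (ZX s a s0 bb lb h T' A *
      ∏ z ∈ T \ T', wE s 0 T' A z) A =
      cf (CE s (fun b => a b + h * s0 b) T' A * ∏ z ∈ T \ T', wE s 0 T' A z) A +
      (cf (VB0 s a s0 bb lb h T' A * ∏ z ∈ T \ T', wE s 0 T' A z) A +
      (1 + h) * cf (KXs bb lb 0 T' A * CC2 s s0 T' A * ∏ z ∈ T \ T', wE s 0 T' A z) A) := by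
    intro T' _
    rw [← cf_C_mul, ← cf_add, ← cf_add, ZX, add_mul, add_mul, mul_assoc (C (1 + h)), add_assoc]
  rw [RX0, ← h1, sum_congr rfl h3, sum_congr rfl h4, sum_add_distrib, sum_add_distrib,
    sum_add_distrib, ← mul_sum, ← mul_sum, h2]

end

end Pool.Agent.Lib.MP_1a91b9_ntQ
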